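import Mathlib
import Pool.Agent.H86.RoeD

set_option autoImplicit false

namespace Pool.Agent.H99.GVN

open Pool.Agent.H86.Roe Filter Topology

section general
variable {G : Type} [Group G]

instance sep [Countable G] : TopologicalSpace.SeparableSpace (H G) := by
  classical
  have h1 : TopologicalSpace.IsSeparable
      (closure (Submodule.span ℂ (Set.range (δ : G → H G)) : Set (H G))) :=
    ((Set.countable_range _).isSeparable.span (R := ℂ)).closure
  rw [← TopologicalSpace.isSeparable_univ_iff]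
  refine h1.mono fun ξ _ => ?_
  refine mem_closure_of_tendsto (lp.hasSum_single (by simp) ξ) (Eventually.of_forall fun s => ?_)
  refine Submodule.sum_mem _ fun i _ => ?_
  have : lp.single 2 i (ξ i) = ξ i • (δ i : H G) := by
    rw [δ, ← lp.single_smul]; simp
  rw [this]
  exact Submodule.smul_mem _ _ (Submodule.subset_span ⟨i, rfl⟩)

noncomputable def L (g : G) : H G →L[ℂ] H G := V (Equiv.mulLeft g⁻¹)

noncomputable def R (g : G) : H G →L[ℂ] H G := V (Equiv.mulRight g)

lemma L_apply (g : G) (ξ : H G) (x : G) : L g ξ x = ξ (g⁻¹ * x) := V_apply _ _ _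

lemma R_apply (g : G) (ξ : H G) (x : G) : R g ξ x = ξ (x * g) := V_apply _ _ _

lemma L_mul (g h : G) : L (g * h) = L g * L h :=
  ext_pt fun ξ x => by simp [L_apply, mul_assoc]

lemma L_one : L (1 : G) = 1 := ext_pt fun ξ x => by simp [L_apply]

lemma L_star (g : G) : star (L g) = L g⁻¹ := by
  rw [L, V_star, L]; congr 1; ext; simp

lemma R_star (g : G) : star (R g) = R g⁻¹ := by
  rw [R, V_star, R]; congr 1; ext; simp

variable (G) in
noncomputable def M : VonNeumannAlgebra (H G) where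
  toStarSubalgebra := StarSubalgebra.centralizer ℂ (Set.range (R : G → _))
  centralizer_centralizer' := by simp

lemma mem_M {x : H G →L[ℂ] H G} : x ∈ M G ↔ ∀ g, R g * x = x * R g := by
  change x ∈ StarSubalgebra.centralizer ℂ (Set.range (R : G → _)) ↔ _
  rw [StarSubalgebra.mem_centralizer_iff]
  constructor
  · intro h g; exact (h _ ⟨g, rfl⟩).1
  · rintro h _ ⟨g, rfl⟩; exact ⟨h g, by rw [R_star]; exact h _⟩

lemma smul_mem {x : H G →L[ℂ] H G} (h : x ∈ M G) (c : ℂ) : c • x ∈ M G :=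
  (M G).toStarSubalgebra.smul_mem h c

lemma L_mem (g : G) : L g ∈ M G := mem_M.2 fun h =>
  ext_pt fun ξ x => by simp [L_apply, R_apply, mul_assoc]

/-- Fourier coefficients -/
noncomputable def hat (x : H G →L[ℂ] H G) : H G := x (δ 1)

lemma M_δ {x : H G →L[ℂ] H G} (hx : x ∈ M G) (h y : G) : x (δ h) y = hat x (y * h⁻¹) := by
  classical
  have e : (δ h : H G) = R h⁻¹ (δ 1) := lp.ext (funext fun z => by
    rw [R_apply, δ_apply, δ_apply]; simp [mul_inv_eq_one])
  rw [e, ← mul_apply_eq_comp, ← mem_M.1 hx, mul_apply_eq_comp, R_apply, hat]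

lemma ext_hat {x y : H G →L[ℂ] H G} (hx : x ∈ M G) (hy : y ∈ M G)
    (h : ∀ g, hat x g = hat y g) : x = y :=
  ext_ent fun a b => by rw [M_δ hx, M_δ hy, h]

lemma L_δ (g : G) : L g (δ 1) = δ g := by
  classical
  exact lp.ext (funext fun z => by
    rw [L_apply, δ_apply, δ_apply]; simp [inv_mul_eq_one, eq_comm])

lemma hat_L (g : G) : hat (L g) = δ g := L_δ g

lemma hat_L_mul (g : G) (x : H G →L[ℂ] H G) (y : G) : hat (L g * x) y = hat x (g⁻¹ * y) :=
  L_apply _ _ _

lemma hat_mul_L {x : H G →L[ℂ] H G} (hx : x ∈ M G) (g y : G) :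
    hat (x * L g) y = hat x (y * g⁻¹) := by
  rw [hat, mul_apply_eq_comp, L_δ, M_δ hx]

lemma comm_iff {x : H G →L[ℂ] H G} (hx : x ∈ M G) (g : G) :
    L g * x = x * L g ↔ ∀ y, hat x (g⁻¹ * y) = hat x (y * g⁻¹) := by
  constructor
  · intro h y; rw [← hat_L_mul, h, hat_mul_L hx]
  · intro h
    exact ext_hat (mul_mem (L_mem g) hx) (mul_mem hx (L_mem g)) fun y => by
      rw [hat_L_mul, hat_mul_L hx, h]

lemma comm_conj {x : H G →L[ℂ] H G} (hx : x ∈ M G) {g : G} (h : L g * x = x * L g) (y : G) :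
    hat x (g * y * g⁻¹) = hat x y := by
  rw [← (comm_iff hx g).1 h]; simp

omit [Group G] in
lemma vanish (ξ : H G) (σ : G → G) (hσ : ∀ y, ξ (σ y) = ξ y) (p : G → Prop) (F : G → ℚ)
    (hp : ∀ y, p y → p (σ y) ∧ F y < F (σ y)) (y : G) (hy : p y) : ξ y = 0 := by
  have h1 : ∀ n, p (σ^[n] y) ∧ ξ (σ^[n] y) = ξ y := by
    intro n
    induction n with
    | zero => exact ⟨hy, rfl⟩
    | succ n ih => rw [Function.iterate_succ_apply', hσ]; exact ⟨(hp _ ih.1).1, ih.2⟩
  have h2 : StrictMono (fun n => F (σ^[n] y)) := strictMono_nat_of_lt_succ fun n => by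
    rw [Function.iterate_succ_apply']; exact (hp _ (h1 n).1).2
  have h3 : Function.Injective (fun n => σ^[n] y) := fun a b h => h2.injective (congrArg F h)
  have h4 : Summable (fun z => ‖ξ z‖ ^ (2 : ENNReal).toReal) :=
    (lp.memℓp ξ).summable (by simp)
  have h5 := (h4.comp_injective h3).tendsto_atTop_zero
  simp only [Function.comp_def, (h1 _).2] at h5
  have h6 := tendsto_nhds_unique tendsto_const_nhds h5
  simpa using h6

lemma Ind_L (p : G → Prop) (g : G) (h : ∀ y, p (g⁻¹ * y) ↔ p y) : L g * Ind p = Ind p * L g :=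
  ext_pt fun ξ x => by
    simp only [mul_apply_eq_comp, L_apply, Ind_apply]
    by_cases hx : p x
    · rw [if_pos hx, if_pos ((h x).2 hx)]
    · rw [if_neg hx, if_neg (fun h' => hx ((h x).1 h'))]

lemma hat_Ind (p : G → Prop) (h1 : p 1) {x : H G →L[ℂ] H G} (h : x * Ind p = Ind p * x)
    {y : G} (hy : ¬ p y) : hat x y = 0 := by
  have : (x * Ind p) (δ 1) y = (Ind p * x) (δ 1) y := by rw [h]
  rw [mul_apply_eq_comp, mul_apply_eq_comp, Ind_δ, if_pos h1, Ind_apply, if_neg hy] at this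
  exact this

lemma not_span (v : Fin 5 → G) (hv : Function.Injective v) :
    ¬ ∃ s : Finset (H G →L[ℂ] H G), s.card ≤ 4 ∧
      ∀ x ∈ M G, x ∈ Submodule.span ℂ (s : Set (H G →L[ℂ] H G)) := by
  classical
  rintro ⟨s, hs, h⟩
  have hli : LinearIndependent ℂ (fun i => L (v i)) := by
    rw [Fintype.linearIndependent_iff]
    intro c hc i
    have := congrArg (fun x : H G →L[ℂ] H G => inner ℂ (δ (v i) : H G) (x (δ 1))) hc
    simp only [sum_apply, smul_apply, L_δ, inner_sum, inner_smul_right, inner_δ, δ_apply,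
      hv.eq_iff] at this
    simpa using this
  have := linearIndependent_le_span_aux' _ hli (s : Set (H G →L[ℂ] H G))
    (by rintro _ ⟨i, rfl⟩; exact h _ (L_mem _))
  simp at this
  omega

end general

/-- the affine group of the rational line -/
@[ext] structure A where
  a : ℚˣ
  b : ℚ

instance : Mul A := ⟨fun x y => ⟨x.a * y.a, x.a * y.b + x.b⟩⟩
instance : One A := ⟨⟨1, 0⟩⟩
instance : Inv A := ⟨fun x => ⟨x.a⁻¹, -(x.a⁻¹ * x.b)⟩⟩

@[simp] lemma mul_a (x y : A) : (x * y).a = x.a * y.a := rfl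
@[simp] lemma mul_b (x y : A) : (x * y).b = x.a * y.b + x.b := rfl
@[simp] lemma one_a : (1 : A).a = 1 := rfl
@[simp] lemma one_b : (1 : A).b = 0 := rfl
@[simp] lemma inv_a (x : A) : x⁻¹.a = x.a⁻¹ := rfl
@[simp] lemma inv_b (x : A) : x⁻¹.b = -((x.a : ℚ)⁻¹ * x.b) := by
  change -(((x.a⁻¹ : ℚˣ) : ℚ) * x.b) = _
  simp

instance : Group A := Group.ofLeftAxioms
  (fun x y z => by ext <;> simp [mul_assoc]; ring)
  (fun x => by ext <;> simp)
  (fun x => by ext <;> simp)

instance : Countable A :=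
  Function.Injective.countable (f := fun x : A => ((x.a : ℚ), x.b)) fun x y h => by
    simp only [Prod.mk.injEq] at h
    exact A.ext (Units.ext h.1) h.2

def t : A := ⟨Units.mk0 2 two_ne_zero, 0⟩
def d : A := ⟨-1, 1⟩

@[simp] lemma t_a : (t.a : ℚ) = 2 := rfl
@[simp] lemma t_b : t.b = 0 := rfl
@[simp] lemma d_a : (d.a : ℚ) = -1 := rfl
@[simp] lemma d_b : d.b = 1 := rfl

lemma d_inv : d⁻¹ = d := by ext <;> simp

lemma conj_vanish {x : H A →L[ℂ] H A} (hx : x ∈ M A) (h : L (t * t) * x = x * L (t * t))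
    {y : A} (hy : y.b ≠ 0) : hat x y = 0 := by
  refine vanish _ _ (comm_conj hx h) (fun y => y.b ≠ 0) (fun y => |y.b|) (fun y hy => ?_) y hy
  have e : (t * t * y * (t * t)⁻¹).b = 4 * y.b := by simp; norm_num
  rw [e, abs_mul]
  have := abs_pos.2 hy
  exact ⟨by positivity, by norm_num; linarith⟩

lemma scalar {x : H A →L[ℂ] H A} (hx : x ∈ M A) (h1 : L t * x = x * L t)
    (h2 : L d * x = x * L d) : ∃ c : ℂ, x = c • 1 := by
  classical
  have h3 : L (t * t) * x = x * L (t * t) := by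
    rw [L_mul, mul_assoc, h1, ← mul_assoc, h1, mul_assoc]
  have h4 : ∀ y, hat x (d * (t * (d * (t⁻¹ * y * t) * d⁻¹) * t⁻¹) * d⁻¹) = hat x y := fun y => by
    rw [comm_conj hx h2, comm_conj hx h1, comm_conj hx h2, ← comm_conj hx h1]
    simp [mul_assoc]
  refine ⟨hat x 1, ext_hat hx (smul_mem (one_mem _) _) fun y => ?_⟩
  change _ = hat x 1 • (δ 1 : H A) y
  rw [δ_apply]
  split_ifs with h
  · simp [h]
  rw [smul_zero]
  by_cases hb : y.b = 0
  · have ha : (y.a : ℚ) ≠ 1 := fun ha => h (A.ext (Units.ext ha) hb)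
    refine vanish _ _ h4 (fun y => (y.a : ℚ) ≠ 1) (fun y => y.b * ((y.a : ℚ) - 1))
      (fun y hy => ?_) y ha
    have e1 : ((d * (t * (d * (t⁻¹ * y * t) * d⁻¹) * t⁻¹) * d⁻¹).a : ℚ) = y.a := by
      simp
    have e2 : (d * (t * (d * (t⁻¹ * y * t) * d⁻¹) * t⁻¹) * d⁻¹).b = y.b + (y.a - 1) := by
      simp; field_simp; ring
    rw [e1, e2]
    have := mul_self_pos.2 (sub_ne_zero.2 hy)
    exact ⟨hy, by nlinarith⟩
  · exact conj_vanish hx h3 hb

noncomputable def a1 : H A →L[ℂ] H A := L t + L t⁻¹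

lemma a1_mem : a1 ∈ M A := add_mem (L_mem _) (L_mem _)

lemma a1_sa : IsSelfAdjoint a1 := by
  rw [IsSelfAdjoint, a1, star_add, L_star, L_star, inv_inv, add_comm]

lemma a1_sq : a1 * a1 = L (t * t) + L (t * t)⁻¹ + 1 + 1 := by
  rw [a1, add_mul, mul_add, mul_add, ← L_mul, ← L_mul, ← L_mul, ← L_mul, mul_inv_cancel,
    inv_mul_cancel, L_one, mul_inv_rev]
  abel

lemma comm_inv {x : H A →L[ℂ] H A} {g : A} (h : L g * x = x * L g) : L g⁻¹ * x = x * L g⁻¹ := by
  calc L g⁻¹ * x = L g⁻¹ * (x * L g) * L g⁻¹ := by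
        rw [mul_assoc, mul_assoc, ← L_mul, mul_inv_cancel, L_one, mul_one]
    _ = _ := by rw [← h, ← mul_assoc, ← L_mul, inv_mul_cancel, L_one, one_mul]

lemma comm_of_sq {x : H A →L[ℂ] H A} (hx : x ∈ M A) (h : a1 * a1 * x = x * (a1 * a1)) :
    L t * x = x * L t := by
  set u := L (t * t) with hu
  set w := L (t * t)⁻¹ with hw
  have uw : u * w = 1 := by rw [hu, hw, ← L_mul, mul_inv_cancel, L_one]
  have wu : w * u = 1 := by rw [hu, hw, ← L_mul, inv_mul_cancel, L_one]
  rw [a1_sq] at h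
  have h1 : u * x - x * u = x * w - w * x := by
    rw [← sub_eq_zero] at h ⊢; rw [← h]; noncomm_ring
  have hD : u * x - x * u ∈ M A := sub_mem (mul_mem (L_mem _) hx) (mul_mem hx (L_mem _))
  have h2 : w * (u * x - x * u) * w = u * x - x * u := by
    conv_rhs => rw [h1]
    calc w * (u * x - x * u) * w = (w * u) * x * w - w * x * (u * w) := by noncomm_ring
      _ = _ := by rw [uw, wu, one_mul, mul_one]
  have h3 : ∀ y, hat (u * x - x * u) (t * t * y * (t * t)) = hat (u * x - x * u) y := fun y => by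
    conv_rhs => rw [← h2, hw, hat_mul_L (mul_mem (L_mem _) hD), hat_L_mul]
    simp only [inv_inv, mul_assoc]
  have h4 : u * x - x * u = 0 := ext_hat hD (zero_mem _) fun y => by
    refine vanish _ _ h3 (fun _ => True) (fun y => |(y.a : ℚ)|) (fun y _ => ⟨trivial, ?_⟩) y trivial
    have e : ((t * t * y * (t * t)).a : ℚ) = 16 * y.a := by simp; ring
    rw [e, abs_mul]
    have := abs_pos.2 y.a.ne_zero
    norm_num
  rw [sub_eq_zero] at h4
  refine (comm_iff hx t).2 fun y => ?_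
  by_cases hy : y.b = 0
  · rw [show t⁻¹ * y = y * t⁻¹ by ext <;> simp [hy, mul_comm]]
  · rw [conj_vanish hx h4 (by simpa using hy), conj_vanish hx h4 (by simpa using hy)]

end Pool.Agent.H99.GVN
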