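import Pool.Agent.H99.StabDefs

namespace Pool.Agent.H99.Stab

open Matrix Pool.Agent.H99.StabDefs

variable {n : ℕ}

theorem tens_mul (A B : Fin n → Matrix (Fin 2) (Fin 2) ℂ) :
    tens A * tens B = tens (fun i => A i * B i) := by
  ext x y
  simp only [tens, Matrix.mul_apply, Matrix.of_apply]
  rw [Finset.prod_univ_sum, Fintype.piFinset_univ]
  simp only [Finset.prod_mul_distrib]

theorem tens_one : tens (fun _ : Fin n => (1 : Matrix (Fin 2) (Fin 2) ℂ)) = 1 := by
  ext x y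
  simp only [tens, Matrix.of_apply, Matrix.one_apply]
  rw [Finset.prod_ite_zero]
  simp [funext_iff]

theorem tens_ct (A : Fin n → Matrix (Fin 2) (Fin 2) ℂ) :
    (tens A)ᴴ = tens (fun i => (A i)ᴴ) := by
  ext x y
  simp [tens, Matrix.conjTranspose_apply]

theorem tens_trace (A : Fin n → Matrix (Fin 2) (Fin 2) ℂ) :
    (tens A).trace = ∏ i, (A i).trace := by
  simp only [Matrix.trace, Matrix.diag, tens, Matrix.of_apply]
  rw [Finset.prod_univ_sum, Fintype.piFinset_univ]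

theorem tens_smul (c : Fin n → ℂ) (A : Fin n → Matrix (Fin 2) (Fin 2) ℂ) :
    tens (fun i => c i • A i) = (∏ i, c i) • tens A := by
  ext x y
  simp [tens, Finset.prod_mul_distrib]

theorem perm_mul (π : Equiv.Perm (Fin n)) (M : Matrix (Fin n → Fin 2) (Fin n → Fin 2) ℂ)
    (x y : Fin n → Fin 2) : (permOp π * M) x y = M (x ∘ π) y := by
  simp [permOp, Matrix.mul_apply]

theorem mul_permH (π : Equiv.Perm (Fin n)) (M : Matrix (Fin n → Fin 2) (Fin n → Fin 2) ℂ)
    (x y : Fin n → Fin 2) : (M * (permOp π)ᴴ) x y = M x (y ∘ π) := by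
  simp [permOp, Matrix.mul_apply, Matrix.conjTranspose_apply, apply_ite]

theorem perm_conj (π : Equiv.Perm (Fin n)) (A : Fin n → Matrix (Fin 2) (Fin 2) ℂ) :
    permOp π * tens A * (permOp π)ᴴ = tens (fun i => A (π.symm i)) := by
  ext x y
  rw [mul_permH, perm_mul]
  simp only [tens, Matrix.of_apply, Function.comp]
  rw [← Equiv.prod_comp π (fun i => A (π.symm i) (x i) (y i))]
  simp

theorem perm_unit (π : Equiv.Perm (Fin n)) : permOp π * (permOp π)ᴴ = 1 := by
  have := perm_conj π (fun _ => 1)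
  rwa [tens_one, Matrix.mul_one] at this

def pm : Fin 4 → Fin 4 → Fin 4 := ![![0, 1, 2, 3], ![1, 0, 3, 2], ![2, 3, 0, 1], ![3, 2, 1, 0]]

def ph : Fin 4 → Fin 4 → ℂ := ![![1, 1, 1, 1], ![1, 1, Complex.I, -Complex.I],
  ![1, -Complex.I, 1, Complex.I], ![1, Complex.I, -Complex.I, 1]]

theorem pauli_mul (a b : Fin 4) : pauli a * pauli b = ph a b • pauli (pm a b) := by
  ext i j
  fin_cases a <;> fin_cases b <;> fin_cases i <;> fin_cases j <;>
    simp [pauli, pm, ph, Matrix.mul_apply, Fin.sum_univ_two]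

theorem ph_ne (a b : Fin 4) : ph a b ≠ 0 := by
  fin_cases a <;> fin_cases b <;> simp [ph]

theorem pauli_ct (a : Fin 4) : (pauli a)ᴴ = pauli a := by
  ext i j
  fin_cases a <;> fin_cases i <;> fin_cases j <;> simp [pauli, Matrix.conjTranspose_apply]

theorem pauli_trace (a : Fin 4) : (pauli a).trace = if a = 0 then 2 else 0 := by
  fin_cases a <;> simp [pauli, Matrix.trace_fin_two]

theorem pm_eq_zero : ∀ a b : Fin 4, pm a b = 0 ↔ a = b := by decide

theorem pm_comm : ∀ a b : Fin 4, pm a b = pm b a := by decide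

/-- Pauli string operator. -/
def PS (l : Fin n → Fin 4) : Matrix (Fin n → Fin 2) (Fin n → Fin 2) ℂ :=
  tens fun i => pauli (l i)

theorem PS_mul (l m : Fin n → Fin 4) :
    PS l * PS m = (∏ i, ph (l i) (m i)) • PS (fun i => pm (l i) (m i)) := by
  simp only [PS, tens_mul, pauli_mul, tens_smul]

theorem PS_sq (l : Fin n → Fin 4) : PS l * PS l = 1 := by
  have : ∀ a : Fin 4, pauli a * pauli a = 1 := by
    intro a
    rw [pauli_mul]
    fin_cases a <;> simp [pm, ph, pauli]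
  simp only [PS, tens_mul, this, tens_one]

theorem PS_ct (l : Fin n → Fin 4) : (PS l)ᴴ = PS l := by
  simp only [PS, tens_ct, pauli_ct]

theorem PS_comm (l m : Fin n → Fin 4) (h : ∏ i, ph (l i) (m i) = ∏ i, ph (m i) (l i)) :
    PS l * PS m = PS m * PS l := by
  rw [PS_mul, PS_mul, h]
  simp only [pm_comm]

/-- Eight times the projector onto the codespace. -/
def proj (g : Fin 3 → Fin n → Fin 4) : Matrix (Fin n → Fin 2) (Fin n → Fin 2) ℂ :=
  (1 + PS (g 0)) * (1 + PS (g 1)) * (1 + PS (g 2))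

def Comm (g : Fin 3 → Fin n → Fin 4) : Prop := ∀ a b, PS (g a) * PS (g b) = PS (g b) * PS (g a)

theorem proj_fix (g : Fin 3 → Fin n → Fin 4) (ψ) (h : ψ ∈ codespace g) :
    proj g *ᵥ ψ = (8 : ℂ) • ψ := by
  have h' : ∀ k, (1 + PS (g k)) *ᵥ ψ = (2 : ℂ) • ψ := fun k => by
    rw [Matrix.add_mulVec, Matrix.one_mulVec, show PS (g k) *ᵥ ψ = ψ from h k, two_smul]
  rw [proj, ← Matrix.mulVec_mulVec, ← Matrix.mulVec_mulVec, h', Matrix.mulVec_smul, h',
    Matrix.mulVec_smul, Matrix.mulVec_smul, h', smul_smul, smul_smul]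
  norm_num

theorem proj_range (g : Fin 3 → Fin n → Fin 4) (hg : Comm g) (ψ) :
    proj g *ᵥ ψ ∈ codespace g := by
  intro k
  change PS (g k) *ᵥ _ = _
  rw [Matrix.mulVec_mulVec]
  congr 1
  have c : ∀ a b, PS (g a) * (1 + PS (g b)) = (1 + PS (g b)) * PS (g a) := fun a b => by
    rw [mul_add, add_mul, hg a b]; simp
  have s : ∀ a, PS (g a) * (1 + PS (g a)) = 1 + PS (g a) := fun a => by
    rw [mul_add, PS_sq, mul_one, add_comm]
  unfold proj
  fin_cases k
  · simp only [Fin.zero_eta, ← mul_assoc, s]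
  · simp only [Fin.mk_one]
    rw [← mul_assoc, ← mul_assoc, c, mul_assoc _ (PS (g 1)), s]
  · simp only [Fin.reduceFinMk]
    rw [← mul_assoc, ← mul_assoc, c, mul_assoc _ (PS (g 2)), c, ← mul_assoc, mul_assoc _ (PS (g 2)),
      s]

theorem proj_ct (g : Fin 3 → Fin n → Fin 4) (hg : Comm g) : (proj g)ᴴ = proj g := by
  have c : ∀ a b, (1 + PS (g a)) * (1 + PS (g b)) = (1 + PS (g b)) * (1 + PS (g a)) :=
    fun a b => by simp only [mul_add, add_mul, hg a b, mul_one, one_mul]; abel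
  simp only [proj, Matrix.conjTranspose_mul, Matrix.conjTranspose_add, Matrix.conjTranspose_one,
    PS_ct]
  rw [c 1 0, ← mul_assoc, c 2 0, mul_assoc, c 2 1, mul_assoc]

theorem ext_mulVec {A B : Matrix (Fin n → Fin 2) (Fin n → Fin 2) ℂ}
    (h : ∀ ψ, A *ᵥ ψ = B *ᵥ ψ) : A = B :=
  Matrix.toLin'.injective (LinearMap.ext h)

theorem proj_conj (g g' : Fin 3 → Fin n → Fin 4) (hg : Comm g) (hg' : Comm g')
    (V : Matrix (Fin n → Fin 2) (Fin n → Fin 2) ℂ) (hV : Vᴴ * V = 1)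
    (h : (fun ψ => V *ᵥ ψ) '' codespace g = codespace g') : V * proj g * Vᴴ = proj g' := by
  have h1 : proj g' * (V * proj g * Vᴴ) = (8 : ℂ) • (V * proj g * Vᴴ) := by
    apply ext_mulVec
    intro ψ
    rw [← Matrix.mulVec_mulVec, Matrix.smul_mulVec]
    apply proj_fix
    rw [← h, ← Matrix.mulVec_mulVec, ← Matrix.mulVec_mulVec]
    exact ⟨_, proj_range g hg _, rfl⟩
  have h2 : (V * proj g * Vᴴ) * proj g' = (8 : ℂ) • proj g' := by
    apply ext_mulVec
    intro ψ
    have := proj_range g' hg' ψ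
    rw [← h] at this
    obtain ⟨φ, hφ, e⟩ := this
    simp only at e
    rw [← Matrix.mulVec_mulVec, Matrix.smul_mulVec, ← e, Matrix.mulVec_mulVec, mul_assoc,
      hV, mul_one, ← Matrix.mulVec_mulVec, proj_fix g φ hφ, Matrix.mulVec_smul]
  have h3 := congrArg Matrix.conjTranspose h1
  simp only [Matrix.conjTranspose_mul, Matrix.conjTranspose_smul, proj_ct g hg, proj_ct g' hg',
    Matrix.conjTranspose_conjTranspose, ← mul_assoc] at h3
  rw [h2] at h3
  have h4 : star (8 : ℂ) = 8 := by simp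
  rw [h4] at h3
  exact (smul_right_injective _ (by norm_num) h3).symm

/-- Some product operator supported exactly on `T` has nonzero overlap with the projector. -/
def Det (g : Fin 3 → Fin n → Fin 4) (T : Fin n → Bool) : Prop :=
  ∃ F : Fin n → Matrix (Fin 2) (Fin 2) ℂ, (∀ i, T i = true → (F i).trace = 0) ∧
    (∀ i, T i = false → F i = 1) ∧ (tens F * proj g).trace ≠ 0

theorem transfer (g g' : Fin 3 → Fin n → Fin 4) (hg : Comm g) (hg' : Comm g')
    (h : LUEquiv (codespace g) (codespace g')) :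
    ∃ π : Equiv.Perm (Fin n), ∀ T, Det g T → Det g' (T ∘ π) := by
  obtain ⟨U, π, h⟩ := h
  set V := tens (fun i => (U i : Matrix (Fin 2) (Fin 2) ℂ)) * permOp π with hVdef
  have hU1 : ∀ i, (U i : Matrix (Fin 2) (Fin 2) ℂ) * (U i : Matrix (Fin 2) (Fin 2) ℂ)ᴴ = 1 :=
    fun i => (U i).2.2
  have hU2 : ∀ i, (U i : Matrix (Fin 2) (Fin 2) ℂ)ᴴ * (U i : Matrix (Fin 2) (Fin 2) ℂ) = 1 :=
    fun i => (U i).2.1
  have hV1 : V * Vᴴ = 1 := by
    rw [hVdef, Matrix.conjTranspose_mul, mul_assoc, ← mul_assoc (permOp π), perm_unit, one_mul,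
      tens_ct, tens_mul]
    simp only [hU1, tens_one]
  have hV : Vᴴ * V = 1 := mul_eq_one_comm.1 hV1
  have key := proj_conj g g' hg hg' V hV h
  refine ⟨π.symm, ?_⟩
  rintro T ⟨F, h1, h2, h3⟩
  refine ⟨fun i => (U i : Matrix (Fin 2) (Fin 2) ℂ) * F (π.symm i) * (U i : Matrix _ _ ℂ)ᴴ,
    fun i hi => ?_, fun i hi => ?_, ?_⟩
  · rw [Matrix.trace_mul_comm, ← mul_assoc, hU2, one_mul]
    exact h1 _ hi
  · simp only
    rw [h2 _ hi, mul_one, hU1]
  · have e : tens (fun i => (U i : Matrix (Fin 2) (Fin 2) ℂ) * F (π.symm i) * (U i : Matrix _ _ ℂ)ᴴ)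
        = V * tens F * Vᴴ := by
      rw [hVdef, Matrix.conjTranspose_mul, ← tens_mul, ← tens_mul, ← perm_conj, tens_ct]
      simp only [mul_assoc]
    rw [e, ← key]
    have : V * tens F * Vᴴ * (V * proj g * Vᴴ) = V * (tens F * proj g) * Vᴴ := by
      calc V * tens F * Vᴴ * (V * proj g * Vᴴ) = V * tens F * (Vᴴ * V) * proj g * Vᴴ := by
            simp only [mul_assoc]
        _ = _ := by rw [hV]; simp only [mul_assoc, one_mul]
    rw [this, Matrix.trace_mul_comm, ← mul_assoc, hV, one_mul]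
    exact h3

/-- Labels of the eight group elements. -/
def lab (g : Fin 3 → Fin n → Fin 4) : Fin 8 → Fin n → Fin 4 :=
  ![fun _ => 0, g 0, g 1, g 2, fun i => pm (g 0 i) (g 1 i), fun i => pm (g 0 i) (g 2 i),
    fun i => pm (g 1 i) (g 2 i), fun i => pm (pm (g 0 i) (g 1 i)) (g 2 i)]

theorem proj_expand (g : Fin 3 → Fin n → Fin 4) :
    ∃ c : Fin 8 → ℂ, (∀ k, c k ≠ 0) ∧ proj g = ∑ k, c k • PS (lab g k) := by
  refine ⟨![1, 1, 1, 1, ∏ i, ph (g 0 i) (g 1 i), ∏ i, ph (g 0 i) (g 2 i), ∏ i, ph (g 1 i) (g 2 i),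
    (∏ i, ph (g 0 i) (g 1 i)) * ∏ i, ph (pm (g 0 i) (g 1 i)) (g 2 i)], fun k => ?_, ?_⟩
  · fin_cases k <;> simp [Finset.prod_eq_zero_iff, ph_ne]
  · have e : PS (fun _ : Fin n => 0) = 1 := tens_one
    simp only [proj, mul_add, add_mul, mul_one, one_mul, PS_mul, Matrix.smul_mul, smul_smul,
      Fin.sum_univ_eight, lab]
    simp [e]
    abel

def supp (l : Fin n → Fin 4) : Fin n → Bool := fun i => decide (l i ≠ 0)

theorem det_supp (g : Fin 3 → Fin n → Fin 4) (T : Fin n → Bool) (h : Det g T) :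
    ∃ k, T = supp (lab g k) := by
  obtain ⟨F, h1, h2, h3⟩ := h
  obtain ⟨c, -, hc⟩ := proj_expand g
  by_contra hne
  push Not at hne
  apply h3
  rw [hc, Matrix.mul_sum, Matrix.trace_sum]
  apply Finset.sum_eq_zero
  intro k _
  rw [Matrix.mul_smul, Matrix.trace_smul, PS, tens_mul, tens_trace]
  obtain ⟨i, hi⟩ := Function.ne_iff.1 (hne k)
  rw [Finset.prod_eq_zero (Finset.mem_univ i), smul_zero]
  cases hT : T i
  · rw [h2 i hT, one_mul, pauli_trace, if_neg]
    intro h0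
    simp [supp, hT, h0] at hi
  · have h0 : lab g k i = 0 := by simpa [supp, hT] using hi
    rw [h0]
    simpa [pauli] using h1 i hT

theorem det_of_lab (g : Fin 3 → Fin n → Fin 4) (hinj : Function.Injective (lab g)) (k : Fin 8) :
    Det g (supp (lab g k)) := by
  obtain ⟨c, hc0, hc⟩ := proj_expand g
  refine ⟨fun i => pauli (lab g k i), fun i hi => ?_, fun i hi => ?_, ?_⟩
  · rw [pauli_trace, if_neg (by simpa [supp] using hi)]
  · have h0 : lab g k i = 0 := by simpa [supp] using hi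
    simp [h0, pauli]
  · rw [hc, Matrix.mul_sum, Matrix.trace_sum, Finset.sum_eq_single k]
    · change (PS _ * _).trace ≠ 0
      rw [Matrix.mul_smul, PS_sq]
      simp [hc0 k]
    · intro j _ hj
      rw [Matrix.mul_smul, Matrix.trace_smul, PS, tens_mul, tens_trace]
      obtain ⟨i, hi⟩ := Function.ne_iff.1 (hinj.ne hj)
      rw [Finset.prod_eq_zero (Finset.mem_univ i), smul_zero]
      rw [pauli_mul, Matrix.trace_smul, pauli_trace, if_neg, smul_zero]
      rw [pm_eq_zero]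
      exact hi.symm
    · simp

def cnt (T S : Fin n → Bool) : ℕ := ∑ i, if T i && S i then 1 else 0

theorem not_equiv (g g' : Fin 3 → Fin n → Fin 4) (hg : Comm g) (hg' : Comm g')
    (hinj : Function.Injective (lab g)) (a b : Fin 8)
    (hc : ∀ k l, ¬ (cnt (supp (lab g a)) (supp (lab g a)) = cnt (supp (lab g' k)) (supp (lab g' k))
      ∧ cnt (supp (lab g b)) (supp (lab g b)) = cnt (supp (lab g' l)) (supp (lab g' l))
      ∧ cnt (supp (lab g a)) (supp (lab g b)) = cnt (supp (lab g' k)) (supp (lab g' l)))) :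
    ¬ LUEquiv (codespace g) (codespace g') := by
  intro h
  obtain ⟨π, hπ⟩ := transfer g g' hg hg' h
  obtain ⟨k, hk⟩ := det_supp _ _ (hπ _ (det_of_lab g hinj a))
  obtain ⟨l, hl⟩ := det_supp _ _ (hπ _ (det_of_lab g hinj b))
  have e : ∀ T S : Fin n → Bool, cnt T S = cnt (T ∘ π) (S ∘ π) := fun T S =>
    (Equiv.sum_comp π fun i => if T i && S i then 1 else 0).symm
  exact hc k l ⟨by rw [← hk, ← e], by rw [← hl, ← e], by rw [← hk, ← hl, ← e]⟩

end Pool.Agent.H99.Stab
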