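import Mathlib

set_option autoImplicit false

open Complex Metric Filter Topology Set

namespace H99.Bern

lemma dslope_diff {f : ℂ → ℂ} (hf : Differentiable ℂ f) (c : ℂ) : Differentiable ℂ (dslope f c) :=
  differentiableOn_univ.1 ((differentiableOn_dslope univ_mem).2 hf.differentiableOn)

/-- an even entire function is an entire function of `z ^ 2` -/
lemma even_sq {u : ℂ → ℂ} (hu : Differentiable ℂ u) (he : ∀ z, u (-z) = u z) :
    ∃ U : ℂ → ℂ, Differentiable ℂ U ∧ ∀ z, U (z ^ 2) = u z := by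
  have sq : ∀ ζ : ℂ, (ζ ^ ((2 : ℕ)⁻¹ : ℂ)) ^ 2 = ζ := fun ζ => cpow_nat_inv_pow ζ two_ne_zero
  have key : ∀ a b : ℂ, a ^ 2 = b ^ 2 → u a = u b := fun a b h => by
    rcases sq_eq_sq_iff_eq_or_eq_neg.1 h with e | e
    · rw [e]
    · rw [e, he]
  have off : ∀ ζ : ℂ, ζ ≠ 0 → DifferentiableAt ℂ (fun ζ : ℂ => u (ζ ^ ((2 : ℕ)⁻¹ : ℂ))) ζ := by
    intro ζ h0
    rcases mem_slitPlane_or_neg_mem_slitPlane h0 with h | h
    · exact (hu _).comp ζ (differentiableAt_id.cpow_const h)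
    · have e : (fun ζ : ℂ => u (ζ ^ ((2 : ℕ)⁻¹ : ℂ))) =
          fun ζ : ℂ => u (I * (-ζ) ^ ((2 : ℕ)⁻¹ : ℂ)) := by
        funext ζ; apply key; rw [mul_pow, sq, sq, I_sq]; ring
      rw [e]
      exact (hu _).comp ζ ((differentiableAt_id.neg.cpow_const h).const_mul _)
  refine ⟨fun ζ => u (ζ ^ ((2 : ℕ)⁻¹ : ℂ)), fun ζ => ?_, fun z => key _ _ (sq _)⟩
  by_cases h0 : ζ = 0
  · subst h0
    refine (analyticAt_of_differentiable_on_punctured_nhds_of_continuousAt ?_ ?_).differentiableAt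
    · filter_upwards [self_mem_nhdsWithin] with ζ hζ using off ζ hζ
    · exact (hu _).continuousAt.comp (continuousAt_cpow_const_of_re_pos (by simp) (by simp))
  · exact off ζ h0

/-- residue estimate -/
lemma res_bound {K S : ℂ → ℂ} (hK : Differentiable ℂ K) (hS : Differentiable ℂ S) {ρ M : ℝ}
    (Z : Finset ℂ) (hZ : ∀ p ∈ Z, ‖p‖ < ρ ∧ S p = 0 ∧ deriv S p ≠ 0)
    (hZ' : ∀ ζ, ‖ζ‖ ≤ ρ → S ζ = 0 → ζ ∈ Z) {a : ℂ} (ha : ‖a‖ < ρ) (hSa : S a ≠ 0)
    (hM : ∀ ζ, ‖ζ‖ = ρ → ‖K ζ / S ζ‖ ≤ M) :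
    ‖K a / S a - ∑ p ∈ Z, K p / deriv S p / (a - p)‖ ≤ ρ * (M / (ρ - ‖a‖)) := by
  have hρ : 0 < ρ := (norm_nonneg a).trans_lt ha
  set A : ℂ → ℂ := fun ζ => K ζ - ∑ p ∈ Z, K p / deriv S p * dslope S p ζ with hA
  have dA : Differentiable ℂ A := hK.sub (Differentiable.fun_sum fun p _ =>
    (dslope_diff hS p).const_mul _)
  have ds : ∀ p ∈ Z, ∀ ζ, ζ ≠ p → dslope S p ζ = S ζ / (ζ - p) := fun p hp ζ h => by
    rw [dslope_of_ne _ h, slope_def_field, (hZ p hp).2.1, sub_zero]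
  have A0 : ∀ p ∈ Z, A p = 0 := fun p hp => by
    simp only [hA]
    rw [Finset.sum_eq_single p, dslope_same, div_mul_cancel₀ _ (hZ p hp).2.2, sub_self]
    · intro q hq hne; rw [ds q hq p hne.symm, (hZ p hp).2.1]; simp
    · exact fun h => absurd hp h
  have AS : ∀ ζ, S ζ ≠ 0 → A ζ / S ζ = K ζ / S ζ - ∑ p ∈ Z, K p / deriv S p / (ζ - p) := by
    intro ζ h
    simp only [hA]
    rw [sub_div, Finset.sum_div]
    congr 1
    refine Finset.sum_congr rfl fun p hp => ?_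
    rw [ds p hp ζ (fun e => h (e ▸ (hZ p hp).2.1))]; field_simp
  classical
  set H : ℂ → ℂ := fun ζ => if S ζ = 0 then deriv A ζ / deriv S ζ else A ζ / S ζ with hH
  have Hn : ∀ ζ, S ζ ≠ 0 → H =ᶠ[𝓝 ζ] fun ζ => A ζ / S ζ := fun ζ h => by
    filter_upwards [hS.continuous.continuousAt.eventually_ne h] with y hy
    simp [hH, hy]
  have Hd : ∀ ζ, S ζ ≠ 0 → DifferentiableAt ℂ H ζ := fun ζ h =>
    ((dA ζ).div (hS ζ) h).congr_of_eventuallyEq (Hn ζ h)
  have Hc : ContinuousOn H (closedBall 0 ρ) := fun ζ hζ => by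
    by_cases h : S ζ = 0
    · have hp := hZ' ζ (by simpa using hζ) h
      have c1 : ContinuousAt (dslope S ζ) ζ := (dslope_diff hS ζ).continuous.continuousAt
      have n1 : dslope S ζ ζ ≠ 0 := by rw [dslope_same]; exact (hZ ζ hp).2.2
      have e : H =ᶠ[𝓝 ζ] fun y => dslope A ζ y / dslope S ζ y := by
        filter_upwards [c1.eventually_ne n1] with y hy
        by_cases hyz : y = ζ
        · subst hyz; simp [hH, h, dslope_same]
        · have hs : S y ≠ 0 := fun e => hy (by rw [ds ζ hp y hyz, e, zero_div])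
          have : y - ζ ≠ 0 := sub_ne_zero.2 hyz
          simp only [hH, hs, if_false]
          rw [ds ζ hp y hyz, dslope_of_ne _ hyz, slope_def_field, A0 ζ hp]
          field_simp; ring
      exact ((((dslope_diff dA ζ).continuous.continuousAt).div c1 n1).congr e.symm).continuousWithinAt
    · exact (Hd ζ h).continuousAt.continuousWithinAt
  have C := two_pi_I_inv_smul_circleIntegral_sub_inv_smul_of_differentiable_on_off_countable
    (s := (Z : Set ℂ)) (c := 0) (R := ρ) (w := a) (f := H) Z.countable_toSet (by simpa using ha) Hc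
    (fun ζ hζ => Hd ζ fun e => hζ.2 (hZ' ζ (by simpa using (ball_subset_closedBall hζ.1)) e))
  have Ssph : ∀ ζ ∈ sphere (0 : ℂ) ρ, S ζ ≠ 0 := fun ζ hζ e => by
    have h1 : ‖ζ‖ = ρ := by simpa using hζ
    have := (hZ ζ (hZ' ζ h1.le e)).1
    linarith
  have ne : ∀ b : ℂ, ‖b‖ < ρ → ∀ ζ ∈ sphere (0 : ℂ) ρ, ζ - b ≠ 0 := fun b hb ζ hζ e => by
    have h1 : ‖ζ‖ = ρ := by simpa using hζ
    rw [sub_eq_zero.1 e] at h1; linarith
  have pa : ∀ p ∈ Z, a - p ≠ 0 := fun p hp e => hSa (by rw [sub_eq_zero.1 e]; exact (hZ p hp).2.1)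
  have ci : ∀ b : ℂ, ‖b‖ < ρ → CircleIntegrable (fun ζ => (ζ - b)⁻¹) 0 ρ := fun b hb =>
    ContinuousOn.circleIntegrable hρ.le ((continuousOn_id.sub continuousOn_const).inv₀ (ne b hb))
  have e1 : (∮ ζ in C(0, ρ), (ζ - a)⁻¹ • H ζ) = ∮ ζ in C(0, ρ), ((ζ - a)⁻¹ * (K ζ / S ζ) -
      ∑ p ∈ Z, K p / deriv S p / (a - p) * ((ζ - a)⁻¹ - (ζ - p)⁻¹)) := by
    refine circleIntegral.integral_congr hρ.le fun ζ hζ => ?_
    simp only [hH, Ssph ζ hζ, if_false, smul_eq_mul]
    rw [AS ζ (Ssph ζ hζ), mul_sub, Finset.mul_sum]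
    congr 1
    refine Finset.sum_congr rfl fun p hp => ?_
    have := ne a ha ζ hζ; have := ne p (hZ p hp).1 ζ hζ; have := pa p hp
    field_simp; ring
  have i1 : CircleIntegrable (fun ζ => (ζ - a)⁻¹ * (K ζ / S ζ)) 0 ρ :=
    ContinuousOn.circleIntegrable hρ.le (((continuousOn_id.sub continuousOn_const).inv₀
      (ne a ha)).mul (hK.continuous.continuousOn.div hS.continuous.continuousOn Ssph))
  have i2 : ∀ p ∈ Z, CircleIntegrable
      (fun ζ => K p / deriv S p / (a - p) * ((ζ - a)⁻¹ - (ζ - p)⁻¹)) 0 ρ := fun p hp =>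
    ContinuousOn.circleIntegrable hρ.le (continuousOn_const.mul
      (((continuousOn_id.sub continuousOn_const).inv₀ (ne a ha)).sub
        ((continuousOn_id.sub continuousOn_const).inv₀ (ne p (hZ p hp).1))))
  rw [e1, circleIntegral.integral_sub i1 (CircleIntegrable.fun_sum _ i2),
    circleIntegral.integral_fun_sum i2, Finset.sum_eq_zero, sub_zero] at C
  · have e2 : H a = K a / S a - ∑ p ∈ Z, K p / deriv S p / (a - p) := by
      simp only [hH, hSa, if_false]; exact AS a hSa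
    rw [← e2, ← C]
    refine circleIntegral.norm_two_pi_i_inv_smul_integral_le_of_norm_le_const hρ.le fun ζ hζ => ?_
    have h1 : ‖ζ‖ = ρ := by simpa using hζ
    have h2 : ρ - ‖a‖ ≤ ‖ζ - a‖ := by rw [← h1]; exact norm_sub_norm_le _ _
    rw [norm_mul, norm_inv, mul_comm, ← div_eq_mul_inv]
    have := (norm_nonneg _).trans (hM ζ h1)
    gcongr
    exact hM ζ h1
  · intro p hp
    rw [circleIntegral.integral_const_mul, circleIntegral.integral_sub (ci a ha) (ci p (hZ p hp).1),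
      circleIntegral.integral_sub_inv_of_mem_ball (by simpa using ha),
      circleIntegral.integral_sub_inv_of_mem_ball (by simpa using (hZ p hp).1), sub_self, mul_zero]

lemma pl_half {f : ℂ → ℂ} (hf : Differentiable ℂ f)
    (ht : ∀ ε > 0, ∃ C : ℝ, ∀ z, ‖f z‖ ≤ C * Real.exp ((1 + ε) * ‖z‖)) (hb : ∀ x : ℝ, ‖f x‖ ≤ 1)
    {z : ℂ} (hz : 0 ≤ z.im) : ‖f z‖ ≤ Real.exp z.im := by
  have key : ∀ ε > 0, ‖f z‖ ≤ Real.exp ((1 + ε) * z.im) := by
    intro ε hε
    obtain ⟨C, hC⟩ := ht ε hε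
    have nn : ∀ ζ : ℂ, ‖f (I * ζ) * exp (-((1 + ε : ℝ) * ζ))‖ =
        ‖f (I * ζ)‖ * Real.exp (-((1 + ε) * ζ.re)) := fun ζ => by
      rw [norm_mul, norm_exp]; simp
    have h := PhragmenLindelof.right_half_plane_of_bounded_on_real
      (f := fun ζ => f (I * ζ) * exp (-((1 + ε : ℝ) * ζ))) (C := 1) (z := -I * z)
      (Differentiable.diffContOnCl (by fun_prop)) ⟨1, by norm_num, 1 + ε, ?_⟩ ⟨C, ?_⟩ ?_
      (by simpa using hz)
    · rw [nn, show I * (-I * z) = z by rw [← mul_assoc]; simp] at h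
      have e : (-I * z).re = z.im := by simp
      rw [e, Real.exp_neg, ← div_eq_mul_inv, div_le_one (Real.exp_pos _)] at h
      exact h
    · refine Asymptotics.IsBigO.of_bound C ?_
      refine Filter.Eventually.filter_mono inf_le_right (Filter.eventually_principal.2 fun ζ hζ => ?_)
      have hζ' : 0 < ζ.re := hζ
      rw [nn, Real.rpow_one, Real.norm_eq_abs, abs_of_pos (Real.exp_pos _)]
      have h1 := hC (I * ζ)
      rw [norm_mul, norm_I, one_mul] at h1
      have h2 : Real.exp (-((1 + ε) * ζ.re)) ≤ 1 := Real.exp_le_one_iff.2 (by nlinarith)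
      calc _ ≤ ‖f (I * ζ)‖ * 1 := by gcongr
        _ ≤ _ := by rw [mul_one]; exact h1
    · rw [eventually_map]
      filter_upwards [eventually_ge_atTop (0 : ℝ)] with x hx
      rw [nn]
      have h1 := hC (I * x)
      rw [norm_mul, norm_I, one_mul, norm_real, Real.norm_eq_abs, abs_of_nonneg hx] at h1
      rw [ofReal_re, Real.exp_neg, ← div_eq_mul_inv, div_le_iff₀ (Real.exp_pos _)]
      exact h1
    · intro x
      rw [nn, show I * (x * I) = ((-x : ℝ) : ℂ) by push_cast; linear_combination (x : ℂ) * I_sq]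
      simpa using hb (-x)
  have t : Tendsto (fun ε : ℝ => Real.exp ((1 + ε) * z.im)) (𝓝[>] 0) (𝓝 (Real.exp z.im)) := by
    have : Continuous fun ε : ℝ => Real.exp ((1 + ε) * z.im) := by fun_prop
    simpa using (this.tendsto 0).mono_left nhdsWithin_le_nhds
  exact ge_of_tendsto t (by filter_upwards [self_mem_nhdsWithin] with ε hε using key ε hε)

lemma pl {f : ℂ → ℂ} (hf : Differentiable ℂ f)
    (ht : ∀ ε > 0, ∃ C : ℝ, ∀ z, ‖f z‖ ≤ C * Real.exp ((1 + ε) * ‖z‖)) (hb : ∀ x : ℝ, ‖f x‖ ≤ 1)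
    (z : ℂ) : ‖f z‖ ≤ Real.exp |z.im| := by
  rcases le_total 0 z.im with h | h
  · rw [abs_of_nonneg h]; exact pl_half hf ht hb h
  · have := pl_half (f := fun w => f (-w)) (by fun_prop) (fun ε hε => by
      obtain ⟨C, hC⟩ := ht ε hε
      exact ⟨C, fun w => by simpa using hC (-w)⟩) (fun x => by simpa using hb (-x))
      (z := -z) (by simpa using h)
    rw [abs_of_nonpos h]; simpa using this

lemma ncos (z : ℂ) : ‖cos z‖ ≤ Real.exp |z.im| := by
  rw [Complex.cos, norm_div, div_le_iff₀ (by simp)]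
  have a : Real.exp (-z.im) ≤ Real.exp |z.im| := Real.exp_le_exp.2 (neg_le_abs _)
  have b : Real.exp z.im ≤ Real.exp |z.im| := Real.exp_le_exp.2 (le_abs_self _)
  refine (norm_add_le _ _).trans ?_
  rw [norm_exp, norm_exp]; simp; linarith

lemma nsin (z : ℂ) : ‖sin z‖ ≤ Real.exp |z.im| := by
  have := ncos (z - Real.pi / 2)
  rw [Complex.cos_sub_pi_div_two] at this
  simpa using this

lemma nsin_sq (z : ℂ) : ‖sin z‖ ^ 2 = Real.sin z.re ^ 2 + Real.sinh z.im ^ 2 := by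
  rw [Complex.sq_norm, normSq_apply, Complex.sin_eq]
  simp [← ofReal_sin, ← ofReal_cos, ← ofReal_sinh, ← ofReal_cosh]
  have a := Real.sin_sq_add_cos_sq z.re
  have b := Real.cosh_sq z.im
  linear_combination Real.sin z.re ^ 2 * b + Real.sinh z.im ^ 2 * a

lemma sin_lower (N : ℕ) {w : ℂ} (hw : ‖w‖ = (N + 1 / 2) * Real.pi) :
    Real.exp |w.im| ≤ 8 * ‖sin w‖ := by
  have hs := nsin_sq w
  have hpi := Real.pi_gt_three
  by_cases hy : |w.im| ≤ 1
  · have h1 : Real.exp |w.im| ≤ 3 := (Real.exp_le_exp.2 hy).trans Real.exp_one_lt_d9.le |>.trans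
      (by norm_num)
    set R := (N + 1 / 2) * Real.pi with hR
    have hR1 : 1 ≤ R := by have : (0 : ℝ) ≤ N := Nat.cast_nonneg N; nlinarith
    have h2 : |w.re| ≤ R := hw ▸ abs_re_le_norm w
    have h3 : R - 1 ≤ |w.re| := by
      have := norm_le_abs_re_add_abs_im w; linarith
    have h4 : 1 / 2 ≤ Real.cos (R - |w.re|) := by
      have := Real.one_sub_sq_div_two_le_cos (x := R - |w.re|); nlinarith
    have h5 : Real.sin w.re ^ 2 = Real.cos (R - |w.re|) ^ 2 := by
      have e : R - |w.re| = (Real.pi / 2 - |w.re|) + N * Real.pi := by rw [hR]; ring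
      rw [e, Real.cos_add_nat_mul_pi, Real.cos_pi_div_two_sub, mul_pow, ← pow_mul, mul_comm N 2,
        pow_mul]
      rcases abs_cases w.re with ⟨a, -⟩ | ⟨a, -⟩ <;> rw [a] <;> simp
    have h6 : (1 / 2) ^ 2 ≤ ‖sin w‖ ^ 2 := by nlinarith [sq_nonneg (Real.sinh w.im)]
    have := abs_le_of_sq_le_sq' h6 (norm_nonneg _)
    linarith [this.2]
  · push Not at hy
    have h1 : Real.sinh |w.im| ^ 2 ≤ ‖sin w‖ ^ 2 := by
      rw [← Real.abs_sinh, sq_abs]; nlinarith [sq_nonneg (Real.sin w.re)]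
    have h2 := (abs_le_of_sq_le_sq' h1 (norm_nonneg _)).2
    rw [Real.sinh_eq] at h2
    have h3 : Real.exp (-|w.im|) ≤ 1 := Real.exp_le_one_iff.2 (by linarith)
    have h4 : 2 ≤ Real.exp |w.im| := by have := Real.add_one_le_exp |w.im|; linarith
    linarith

lemma ex_sqrt (ζ : ℂ) : ∃ w : ℂ, w ^ 2 = ζ := ⟨_, cpow_nat_inv_pow ζ two_ne_zero⟩

lemma d1_sq {U u : ℂ → ℂ} (hU : Differentiable ℂ U) (c : ℂ) (h : ∀ z, U (z ^ 2 + c) = u z) (z : ℂ) :
    deriv u z = deriv U (z ^ 2 + c) * (2 * z) := by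
  have e : u = fun z => U (z ^ 2 + c) := (funext h).symm
  have : HasDerivAt (fun z : ℂ => z ^ 2 + c) (2 * z) z := by
    simpa using (hasDerivAt_pow 2 z).add_const c
  rw [e]; exact ((hU _).hasDerivAt.comp z this).deriv

lemma d2_sq {U u : ℂ → ℂ} (hU : Differentiable ℂ U) (c : ℂ) (h : ∀ z, U (z ^ 2 + c) = u z) :
    deriv (deriv u) 0 = 2 * deriv U c := by
  have e : deriv u = fun z => deriv U (z ^ 2 + c) * (2 * z) := funext (d1_sq hU c h)
  have hU' : Differentiable ℂ (deriv U) := hU.deriv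
  have a : HasDerivAt (fun z : ℂ => z ^ 2 + c) (2 * 0) 0 := by
    simpa using (hasDerivAt_pow 2 (0 : ℂ)).add_const c
  have b := ((hU' _).hasDerivAt.comp 0 a).mul ((hasDerivAt_id (0 : ℂ)).const_mul 2)
  rw [e]
  refine (b.deriv).trans ?_
  simp [mul_comm]

structure CS (C S : ℂ → ℂ) : Prop where
  dC : Differentiable ℂ C
  dS : Differentiable ℂ S
  eC : ∀ w, C (w ^ 2) = cos w
  eS : ∀ w, S (w ^ 2) * w = sin w
  eD : ∀ ζ, deriv C ζ = -S ζ / 2
  eS' : ∀ w, 2 * w ^ 2 * deriv S (w ^ 2) + S (w ^ 2) = cos w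

lemma exists_CS : ∃ C S, CS C S := by
  obtain ⟨C, dC, eC⟩ := even_sq differentiable_cos cos_neg
  have dS : Differentiable ℂ fun ζ => -2 * deriv C ζ := dC.deriv.const_mul _
  have eS : ∀ w, -2 * deriv C (w ^ 2) * w = sin w := fun w => by
    have := d1_sq dC 0 (u := cos) (by simpa using eC) w
    rw [deriv_cos', add_zero] at this
    linear_combination this
  refine ⟨C, fun ζ => -2 * deriv C ζ, dC, dS, eC, eS, fun ζ => by ring, fun w => ?_⟩
  have a : HasDerivAt (fun z : ℂ => z ^ 2) (2 * w) w := by simpa using hasDerivAt_pow 2 w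
  have b := ((dS _).hasDerivAt.comp w a).mul (hasDerivAt_id w)
  have c : HasDerivAt (fun w : ℂ => -2 * deriv C (w ^ 2) * w) (cos w) w := by
    rw [funext eS]; exact hasDerivAt_sin w
  have := b.unique c
  simp only [Function.comp, id] at this
  linear_combination this

lemma CS.S0 {C S : ℂ → ℂ} (h : CS C S) : S 0 = 1 := by simpa using h.eS' 0

lemma CS.Sr {C S : ℂ → ℂ} (h : CS C S) (x : ℝ) : S ((x : ℂ) ^ 2) = Real.sinc x := by
  by_cases hx : x = 0
  · subst hx; simp [h.S0]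
  · rw [Real.sinc_of_ne_zero hx]; push_cast
    rw [← h.eS, mul_div_cancel_right₀ _ (ofReal_ne_zero.2 hx)]

lemma im_near {z w : ℂ} {α : ℝ} (hα : 0 ≤ α) (h : z ^ 2 = w ^ 2 - α ^ 2) :
    |z.im| ≤ α + |w.im| := by
  have e : ‖w - z‖ * ‖w + z‖ = α ^ 2 := by
    rw [← norm_mul, show (w - z) * (w + z) = (α : ℂ) ^ 2 by linear_combination -h, norm_pow,
      norm_real, Real.norm_eq_abs, sq_abs]
  have : ‖w - z‖ ≤ α ∨ ‖w + z‖ ≤ α := by
    by_contra hc; push Not at hc; nlinarith [hc.1, hc.2]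
  rcases this with a | a
  · have := (abs_im_le_norm _).trans a
    rw [sub_im] at this
    have := abs_sub_abs_le_abs_sub z.im w.im
    rw [abs_sub_comm] at this; linarith
  · have := (abs_im_le_norm _).trans a
    rw [add_im] at this
    have h2 := abs_sub_abs_le_abs_sub z.im (-w.im)
    rw [abs_neg, sub_neg_eq_add, add_comm] at h2; linarith

theorem key {u : ℂ → ℂ} (hu : Differentiable ℂ u) (he : ∀ z, u (-z) = u z)
    (hb : ∀ z, ‖u z‖ ≤ Real.exp |z.im|) {α : ℝ} (h0 : 0 < α) (h1 : α < Real.pi)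
    (hc : (u 0).re = Real.cos α) : -(deriv (deriv u) 0).re ≤ Real.sinc α := by
  obtain ⟨C, S, h⟩ := exists_CS
  obtain ⟨U, dU, eU⟩ := even_sq hu he
  have hpi := Real.pi_gt_three
  set a : ℂ := (α : ℂ) ^ 2 with ha
  set D : ℂ → ℂ := fun ζ => C ζ - U (ζ - a) with hD
  have dD : Differentiable ℂ D := h.dC.sub (dU.comp (differentiable_id.sub_const a))
  have Sa : S a = Real.sinc α := h.Sr α
  have sp : 0 < Real.sinc α := by
    rw [Real.sinc_of_ne_zero h0.ne']; exact div_pos (Real.sin_pos_of_pos_of_lt_pi h0 h1) h0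
  have Ka : dslope D a a = -Real.sinc α / 2 - deriv (deriv u) 0 / 2 := by
    rw [dslope_same, d2_sq dU 0 (by simpa using eU)]
    have b : HasDerivAt (fun ζ => U (ζ - a)) (deriv U 0) a := by
      have b0 : HasDerivAt U (deriv U 0) (a - a) := by rw [sub_self]; exact (dU 0).hasDerivAt
      exact HasDerivAt.comp_sub_const a a b0
    have b2 : HasDerivAt D (deriv C a - deriv U 0) a := (h.dC a).hasDerivAt.sub b
    rw [b2.deriv, h.eD, Sa]; ring
  have U0 : U 0 = u 0 := by simpa using eU 0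
  have Da : D a = cos α - u 0 := by simp only [hD]; rw [sub_self, U0, ha, h.eC]
  have Dre : (D a).re = 0 := by rw [Da, sub_re, hc, cos_ofReal_re, sub_self]
  have Dn : ‖D a‖ ≤ 2 := by
    rw [Da]
    have a1 := ncos α; have a2 := hb 0
    simp only [ofReal_im, zero_im, abs_zero, Real.exp_zero] at a1 a2
    linarith [norm_sub_le (cos (α : ℂ)) (u 0)]
  have na : ‖a‖ = α ^ 2 := by rw [ha, norm_pow, norm_real, Real.norm_eq_abs, sq_abs]
  have main : ∀ N : ℕ, 1 ≤ N → (dslope D a a / S a).re ≤ 32 * (3 + Real.exp α) / N := by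
    intro N hN
    have hN' : (1 : ℝ) ≤ N := by exact_mod_cast hN
    set R : ℝ := (N + 1 / 2) * Real.pi with hR
    have R1 : 3 / 2 * Real.pi ≤ R := by nlinarith
    have R2 : (N : ℝ) ≤ R := by nlinarith
    have R3 : 2 * α ^ 2 ≤ R ^ 2 := by nlinarith
    have R0 : 0 < R := by linarith
    classical
    set Z : Finset ℂ := (Finset.range N).image fun n : ℕ => ((((n + 1 : ℕ) * Real.pi : ℝ) : ℂ)) ^ 2
      with hZ
    have Zp : ∀ p ∈ Z, ∃ x : ℝ, p = (x : ℂ) ^ 2 ∧ Real.pi ≤ x ∧ x < R ∧ Real.sin x = 0 ∧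
        Real.cos x ^ 2 = 1 := fun p hp => by
      obtain ⟨n, hn, rfl⟩ := Finset.mem_image.1 hp
      have : ((n + 1 : ℕ) : ℝ) ≤ N := by exact_mod_cast Finset.mem_range.1 hn
      have h2 : (1 : ℝ) ≤ (n + 1 : ℕ) := by exact_mod_cast Nat.le_add_left 1 n
      refine ⟨_, rfl, by nlinarith, by nlinarith, Real.sin_nat_mul_pi _, ?_⟩
      rw [Real.cos_sq', Real.sin_nat_mul_pi]; ring
    have Sd : ∀ x : ℝ, Real.pi ≤ x → Real.sin x = 0 →
        S ((x : ℂ) ^ 2) = 0 ∧ deriv S ((x : ℂ) ^ 2) = ((Real.cos x / (2 * x ^ 2) : ℝ) : ℂ) := by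
      intro x hx hs
      have x0 : x ≠ 0 := by linarith
      have x1 : (x : ℂ) ≠ 0 := ofReal_ne_zero.2 x0
      have s0 : S ((x : ℂ) ^ 2) = 0 := by rw [h.Sr, Real.sinc_of_ne_zero x0, hs]; simp
      refine ⟨s0, ?_⟩
      have := h.eS' x
      rw [s0, add_zero] at this
      push_cast; rw [← this]; field_simp
    have rb := res_bound (K := dslope D a) (S := S) (dslope_diff dD a) h.dS (ρ := R ^ 2)
      (M := 8 * R * (3 + Real.exp α) / (R ^ 2 - α ^ 2)) Z ?_ ?_ (a := a) (by rw [na]; nlinarith)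
      (by rw [Sa]; exact ofReal_ne_zero.2 sp.ne') ?_
    · have t1 : (∑ p ∈ Z, dslope D a p / deriv S p / (a - p)).re ≤ 0 := by
        rw [re_sum]
        refine Finset.sum_nonpos fun p hp => ?_
        obtain ⟨x, rfl, hx, -, hs, hcos⟩ := Zp p hp
        have xa : 0 < x ^ 2 - α ^ 2 := by nlinarith
        have ne : (x : ℂ) ^ 2 ≠ a := fun e => by
          rw [ha] at e
          have : x ^ 2 = α ^ 2 := by exact_mod_cast e
          linarith
        have c0 : Real.cos x ≠ 0 := fun e => by rw [e] at hcos; norm_num at hcos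
        have x0 : x ≠ 0 := by linarith
        have e1 : dslope D a ((x : ℂ) ^ 2) / deriv S ((x : ℂ) ^ 2) / (a - (x : ℂ) ^ 2) =
            ((-(2 * x ^ 2) / (Real.cos x * (x ^ 2 - α ^ 2) ^ 2) : ℝ) : ℂ) *
              (D ((x : ℂ) ^ 2) - D a) := by
          rw [dslope_of_ne _ ne, slope_def_field, (Sd x hx hs).2]
          have n1 : (x : ℂ) ^ 2 - (α : ℂ) ^ 2 ≠ 0 := sub_ne_zero.2 ne
          have n2 : (α : ℂ) ^ 2 - (x : ℂ) ^ 2 ≠ 0 := sub_ne_zero.2 ne.symm
          have n3 : ((Real.cos x : ℝ) : ℂ) ≠ 0 := ofReal_ne_zero.2 c0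
          have n4 : (x : ℂ) ≠ 0 := ofReal_ne_zero.2 x0
          rw [ha, ofReal_div, ofReal_div, ofReal_neg, ofReal_mul, ofReal_mul, ofReal_pow, ofReal_pow,
            ofReal_sub, ofReal_pow, ofReal_pow, ofReal_ofNat]
          field_simp; ring
        rw [e1, re_ofReal_mul, sub_re, Dre, sub_zero]
        have e2 : D ((x : ℂ) ^ 2) = cos x - u (√(x ^ 2 - α ^ 2) : ℝ) := by
          simp only [hD]
          rw [h.eC, ← eU, ← ofReal_pow (√(x ^ 2 - α ^ 2)), Real.sq_sqrt xa.le, ha]; push_cast; rfl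
        have b1 := hb (√(x ^ 2 - α ^ 2) : ℝ)
        simp only [ofReal_im, abs_zero, Real.exp_zero] at b1
        have b2 := abs_le.1 ((abs_re_le_norm _).trans b1)
        rw [e2, sub_re, cos_ofReal_re]
        set t := (u (√(x ^ 2 - α ^ 2) : ℝ)).re
        have e3 : -(2 * x ^ 2) / (Real.cos x * (x ^ 2 - α ^ 2) ^ 2) * (Real.cos x - t) =
            -(2 * x ^ 2 / (x ^ 2 - α ^ 2) ^ 2 * (Real.cos x * (Real.cos x - t))) := by
          field_simp; rw [hcos]; ring
        rw [e3, neg_nonpos]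
        refine mul_nonneg (by positivity) ?_
        rcases sq_eq_one_iff.1 hcos with e | e <;> rw [e] <;> linarith [b2.1, b2.2]
      have t2 := (re_le_norm _).trans rb
      rw [sub_re, na] at t2
      have t3 : R ^ 2 * (8 * R * (3 + Real.exp α) / (R ^ 2 - α ^ 2) / (R ^ 2 - α ^ 2)) ≤
          32 * (3 + Real.exp α) / N := by
        have p1 : 0 < R ^ 2 - α ^ 2 := by nlinarith
        have p2 : R ^ 2 / 2 ≤ R ^ 2 - α ^ 2 := by linarith
        calc _ ≤ R ^ 2 * (8 * R * (3 + Real.exp α) / (R ^ 2 / 2) / (R ^ 2 / 2)) := by gcongr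
          _ = 32 * (3 + Real.exp α) / R := by field_simp; ring
          _ ≤ _ := by gcongr
      linarith
    · intro p hp
      obtain ⟨x, rfl, hx, hxR, hs, hcos⟩ := Zp p hp
      refine ⟨?_, (Sd x hx hs).1, ?_⟩
      · rw [norm_pow, norm_real, Real.norm_eq_abs, sq_abs]; nlinarith
      · rw [(Sd x hx hs).2]
        have c0 : Real.cos x ≠ 0 := fun e => by rw [e] at hcos; norm_num at hcos
        have : 0 < x := by linarith
        exact ofReal_ne_zero.2 (div_ne_zero c0 (by positivity))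
    · intro ζ hζ hS
      obtain ⟨w, rfl⟩ := ex_sqrt ζ
      have hs : sin w = 0 := by rw [← h.eS, hS, zero_mul]
      obtain ⟨m, rfl⟩ := Complex.sin_eq_zero_iff.1 hs
      have m0 : m ≠ 0 := by rintro rfl; simp [h.S0] at hS
      have e : ((m : ℂ) * Real.pi) ^ 2 = (((m.natAbs * Real.pi : ℝ)) : ℂ) ^ 2 := by
        push_cast; rw [mul_pow, mul_pow, ← Int.cast_natCast, ← Int.cast_pow, ← Int.cast_pow,
          Int.natAbs_sq]
      rw [e] at hζ ⊢
      rw [norm_pow, norm_real, Real.norm_eq_abs, sq_abs] at hζ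
      have l1 : (m.natAbs : ℝ) * Real.pi ≤ R := (abs_le_of_sq_le_sq' hζ R0.le).2
      have l2 : (m.natAbs : ℝ) < N + 1 := by nlinarith
      have l3 : m.natAbs < N + 1 := by exact_mod_cast l2
      refine Finset.mem_image.2 ⟨m.natAbs - 1, Finset.mem_range.2 (by omega), ?_⟩
      rw [show m.natAbs - 1 + 1 = m.natAbs by omega]
    · intro ζ hζ
      obtain ⟨w, rfl⟩ := ex_sqrt ζ
      have hw : ‖w‖ = R := by
        rw [norm_pow] at hζ
        exact (pow_left_inj₀ (norm_nonneg _) R0.le two_ne_zero).1 hζ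
      have p1 : 0 < R ^ 2 - α ^ 2 := by nlinarith
      have l1 : R ^ 2 - α ^ 2 ≤ ‖w ^ 2 - a‖ := by rw [← hζ, ← na]; exact norm_sub_norm_le _ _
      have ne : w ^ 2 ≠ a := fun e => by rw [e, sub_self, norm_zero] at l1; linarith
      have l2 := sin_lower N hw
      have l3 : ‖sin w‖ = ‖S (w ^ 2)‖ * R := by rw [← h.eS, norm_mul, hw]
      have E1 : 1 ≤ Real.exp |w.im| := Real.one_le_exp (abs_nonneg _)
      have l4 : ‖D (w ^ 2) - D a‖ ≤ (3 + Real.exp α) * Real.exp |w.im| := by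
        obtain ⟨z, hz⟩ := ex_sqrt (w ^ 2 - a)
        have b1 : ‖U (w ^ 2 - a)‖ ≤ Real.exp α * Real.exp |w.im| := by
          rw [← hz, eU, ← Real.exp_add]
          exact (hb z).trans (Real.exp_le_exp.2 (im_near h0.le hz))
        have b2 : ‖C (w ^ 2)‖ ≤ Real.exp |w.im| := by rw [h.eC]; exact ncos w
        have b3 := norm_sub_le (C (w ^ 2)) (U (w ^ 2 - a))
        have b4 := norm_sub_le (D (w ^ 2)) (D a)
        have b5 : ‖D (w ^ 2)‖ = ‖C (w ^ 2) - U (w ^ 2 - a)‖ := rfl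
        nlinarith
      have sp' : 0 < ‖S (w ^ 2)‖ := by nlinarith [norm_nonneg (S (w ^ 2))]
      rw [dslope_of_ne _ ne, slope_def_field, norm_div, norm_div, div_div, div_le_div_iff₀
        (mul_pos (by linarith) sp') p1]
      have E2 : 0 < 3 + Real.exp α := by positivity
      calc ‖D (w ^ 2) - D a‖ * (R ^ 2 - α ^ 2)
          ≤ ((3 + Real.exp α) * (8 * (‖S (w ^ 2)‖ * R))) * ‖w ^ 2 - a‖ := by
            rw [← l3]; gcongr; exact l4.trans (by gcongr)
        _ = _ := by ring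
  have lim : (dslope D a a / S a).re ≤ 0 := by
    have t : Tendsto (fun N : ℕ => 32 * (3 + Real.exp α) / (N : ℝ)) atTop (𝓝 0) :=
      tendsto_const_div_atTop_nhds_zero_nat _
    exact ge_of_tendsto t (by filter_upwards [eventually_ge_atTop 1] with N hN using main N hN)
  rw [Sa, div_ofReal_re, div_nonpos_iff] at lim
  have : (dslope D a a).re ≤ 0 := by
    rcases lim with l | l
    · linarith [l.2]
    · exact l.1
  rw [Ka] at this
  simp only [sub_re, div_ofNat_re, neg_re, ofReal_re] at this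
  linarith

end H99.Bern
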