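import Mathlib
import Pool.Agent.H99.Bern1

set_option autoImplicit false

open Complex Metric Filter Topology Set

namespace H99.Bern

lemma d2_aff {f : ℂ → ℂ} (hf : Differentiable ℂ f) (c x s : ℂ) :
    deriv (deriv fun z => c * f (x + s * z)) 0 = c * s ^ 2 * deriv (deriv f) x := by
  have a : ∀ z : ℂ, HasDerivAt (fun z : ℂ => x + s * z) s z := fun z => by
    simpa using ((hasDerivAt_id z).const_mul s).const_add x
  have e : deriv (fun z => c * f (x + s * z)) = fun z => c * (deriv f (x + s * z) * s) := by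
    funext z
    exact (((hf _).hasDerivAt.comp z (a z)).const_mul c).deriv
  have b := ((((hf.deriv (x + s * 0)).hasDerivAt.comp 0 (a 0))).mul_const s).const_mul c
  rw [e]
  refine b.deriv.trans ?_
  simp only [mul_zero, add_zero]; ring

lemma d2_add {f g : ℂ → ℂ} (hf : Differentiable ℂ f) (hg : Differentiable ℂ g) (x : ℂ) :
    deriv (deriv fun z => f z + g z) x = deriv (deriv f) x + deriv (deriv g) x := by
  have e : deriv (fun z => f z + g z) = fun z => deriv f z + deriv g z := by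
    funext z; exact ((hf z).hasDerivAt.add (hg z).hasDerivAt).deriv
  rw [e]; exact ((hf.deriv x).hasDerivAt.add (hg.deriv x).hasDerivAt).deriv

theorem upper {σ : ℝ} (hσ : 0 < σ) (l : ℂ) {f : ℂ → ℂ} (hf : Differentiable ℂ f)
    (ht : ∀ ε > 0, ∃ C : ℝ, ∀ z, ‖f z‖ ≤ C * Real.exp ((σ + ε) * ‖z‖)) (hb : ∀ x : ℝ, ‖f x‖ ≤ 1)
    {M : ℝ} (hM : ∀ α ∈ Icc 0 Real.pi,
      l.re * Real.cos α + |l.im| * Real.sin α + σ ^ 2 * Real.sinc α ≤ M) (x : ℝ) :
    ‖-deriv (deriv f) x + l * f x‖ ≤ M := by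
  set g : ℂ → ℂ := fun z => 1 * f (x + ((σ⁻¹ : ℝ) : ℂ) * z) with hg
  have dg : Differentiable ℂ g := by rw [hg]; fun_prop
  have gb : ∀ z, ‖g z‖ ≤ Real.exp |z.im| := by
    refine pl dg (fun ε hε => ?_) fun y => ?_
    · obtain ⟨C, hC⟩ := ht (ε * σ) (by positivity)
      have C0 : 0 ≤ C := by have := (norm_nonneg _).trans (hC 0); simpa using this
      refine ⟨C * Real.exp ((σ + ε * σ) * |x|), fun z => ?_⟩
      simp only [hg, one_mul]
      refine (hC _).trans ?_
      rw [mul_assoc, ← Real.exp_add]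
      have n : ‖(x : ℂ) + ((σ⁻¹ : ℝ) : ℂ) * z‖ ≤ |x| + σ⁻¹ * ‖z‖ := by
        refine (norm_add_le _ _).trans ?_
        rw [norm_mul, norm_real, norm_real, Real.norm_eq_abs, Real.norm_eq_abs,
          abs_of_pos (inv_pos.2 hσ)]
      gcongr
      calc _ ≤ (σ + ε * σ) * (|x| + σ⁻¹ * ‖z‖) := by gcongr
        _ = _ := by field_simp
    · simp only [hg, one_mul]
      have := hb (x + σ⁻¹ * y)
      rwa [ofReal_add, ofReal_mul] at this
  have g2 : deriv (deriv g) 0 = ((σ⁻¹ ^ 2 : ℝ) : ℂ) * deriv (deriv f) x := by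
    rw [hg, d2_aff hf]; push_cast; ring
  have g0 : g 0 = f x := by simp [hg]
  set V : ℂ := -deriv (deriv f) x + l * f x with hV
  obtain ⟨c, c1, hc⟩ : ∃ c : ℂ, ‖c‖ = 1 ∧ c * V = ‖V‖ := by
    by_cases h : V = 0
    · exact ⟨1, by simp, by simp [h]⟩
    · refine ⟨(starRingEnd ℂ) V / ‖V‖, ?_, ?_⟩
      · rw [norm_div, RCLike.norm_conj, norm_real, norm_norm, div_self (norm_ne_zero_iff.2 h)]
      · have : ((‖V‖ : ℝ) : ℂ) ≠ 0 := ofReal_ne_zero.2 (norm_ne_zero_iff.2 h)
        rw [div_mul_eq_mul_div, Complex.conj_mul', div_eq_iff this]; ring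
  have main : ∀ t : ℝ, 0 < t → t < 1 → t * ‖V‖ ≤ M := by
    intro t t0 t1
    set k : ℂ := t * c / 2 with hk
    have nk : ‖k‖ = t / 2 := by
      rw [hk, norm_div, norm_mul, c1, norm_real, Real.norm_eq_abs, abs_of_pos t0]; simp
    set u : ℂ → ℂ := fun z => k * g (0 + 1 * z) + k * g (0 + (-1) * z) with hu
    have du : Differentiable ℂ u := by rw [hu]; fun_prop
    have ub : ∀ z, ‖u z‖ ≤ t * Real.exp |z.im| := fun z => by
      have a1 := gb z; have a2 := gb (-z)
      rw [neg_im, abs_neg] at a2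
      simp only [hu, zero_add, one_mul, neg_mul]
      refine (norm_add_le _ _).trans ?_
      rw [norm_mul k, norm_mul k, nk]; nlinarith
    have u0 : u 0 = t * c * f x := by simp only [hu, mul_zero, add_zero, g0, hk]; ring
    have u2 : deriv (deriv u) 0 = t * c * ((σ⁻¹ ^ 2 : ℝ) : ℂ) * deriv (deriv f) x := by
      rw [hu, d2_add (by fun_prop) (by fun_prop), d2_aff dg, d2_aff dg, g2, hk]; ring
    have n0 : ‖u 0‖ ≤ t := by simpa using ub 0
    have r0 := abs_le.1 ((abs_re_le_norm _).trans n0)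
    set α := Real.arccos (u 0).re with hα
    have ca : Real.cos α = (u 0).re := Real.cos_arccos (by linarith [r0.1]) (by linarith [r0.2])
    have h0 : 0 < α := Real.arccos_pos.2 (by linarith [r0.2])
    have h1 : α < Real.pi := Real.arccos_lt_pi.2 (by linarith [r0.1])
    have K := key du (fun z => by simp only [hu]; ring_nf)
      (fun z => (ub z).trans (by nlinarith [Real.exp_pos |z.im|])) h0 h1 ca.symm
    have si : |(u 0).im| ≤ Real.sin α := by
      refine abs_le_of_sq_le_sq' ?_ (Real.sin_pos_of_pos_of_lt_pi h0 h1).le |> abs_le.2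
      have e1 := Complex.sq_norm (u 0)
      rw [normSq_apply] at e1
      have e2 := Real.sin_sq_add_cos_sq α
      rw [ca] at e2
      nlinarith [norm_nonneg (u 0)]
    have e : ((t * ‖V‖ : ℝ) : ℂ) = ((σ ^ 2 : ℝ) : ℂ) * -deriv (deriv u) 0 + l * u 0 := by
      have : (σ : ℂ) ≠ 0 := ofReal_ne_zero.2 hσ.ne'
      rw [ofReal_mul, ← hc, u2, u0, hV]; push_cast; field_simp
    have e' := congrArg re e
    rw [ofReal_re, add_re, re_ofReal_mul, neg_re, mul_re, ← ca] at e'
    have b1 : -(l.im * (u 0).im) ≤ |l.im| * Real.sin α := by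
      refine (neg_le_abs _).trans ?_
      rw [abs_mul]; gcongr
    have b2 := mul_le_mul_of_nonneg_left K (sq_nonneg σ)
    have := hM α ⟨h0.le, h1.le⟩
    linarith
  have t : Tendsto (fun t : ℝ => t * ‖V‖) (𝓝[<] 1) (𝓝 ‖V‖) := by
    have : Continuous fun t : ℝ => t * ‖V‖ := by fun_prop
    simpa using (this.tendsto 1).mono_left nhdsWithin_le_nhds
  refine le_of_tendsto t ?_
  filter_upwards [Ioo_mem_nhdsLT (show (0 : ℝ) < 1 by norm_num)] with t ht using main t ht.1 ht.2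

theorem extremal {σ : ℝ} (hσ : 0 < σ) (l : ℂ) {α : ℝ} (h0 : 0 ≤ α) :
    ∃ f : ℂ → ℂ, Differentiable ℂ f ∧
      (∀ ε > 0, ∃ C : ℝ, ∀ z, ‖f z‖ ≤ C * Real.exp ((σ + ε) * ‖z‖)) ∧ (∀ x : ℝ, ‖f x‖ ≤ 1) ∧
      l.re * Real.cos α + |l.im| * Real.sin α + σ ^ 2 * Real.sinc α ≤
        ‖-deriv (deriv f) (0 : ℝ) + l * f (0 : ℝ)‖ := by
  obtain ⟨C, S, h⟩ := exists_CS
  obtain ⟨s, s1, hs⟩ : ∃ s : ℝ, s ^ 2 = 1 ∧ -(l.im * s) = |l.im| := by
    rcases abs_cases l.im with ⟨a, -⟩ | ⟨a, -⟩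
    · exact ⟨-1, by norm_num, by rw [a]; ring⟩
    · exact ⟨1, by norm_num, by rw [a]; ring⟩
  set W : ℂ → ℂ := fun ζ => C ζ + (s * α : ℝ) * I * S ζ with hW
  have dC := h.dC
  have dS := h.dS
  have dW : Differentiable ℂ W := by rw [hW]; fun_prop
  set v : ℂ → ℂ := fun z => W (z ^ 2 + (α : ℂ) ^ 2) with hv
  have dv : Differentiable ℂ v := by rw [hv]; fun_prop
  have sa : |s| = 1 := by rcases sq_eq_one_iff.1 s1 with e | e <;> simp [e]
  have Wr : ∀ w : ℝ, W ((w : ℂ) ^ 2) = (Real.cos w : ℝ) + (s * α * Real.sinc w : ℝ) * I :=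
    fun w => by simp only [hW]; rw [h.eC, h.Sr]; push_cast; ring
  refine ⟨fun z => 1 * v (0 + σ * z), by fun_prop, fun ε hε => ?_, fun x => ?_, ?_⟩
  · obtain ⟨K, hK⟩ := (isCompact_closedBall (0 : ℂ) 1).exists_bound_of_continuousOn
      dS.continuous.continuousOn
    have K0 : 0 ≤ K := (norm_nonneg _).trans (hK 0 (by simp))
    refine ⟨(1 + α * (1 + K)) * Real.exp α, fun z => ?_⟩
    simp only [one_mul, zero_add, hv]
    obtain ⟨w, hw⟩ := ex_sqrt ((σ * z) ^ 2 + (α : ℂ) ^ 2)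
    have nw : ‖w‖ ≤ α + σ * ‖z‖ := by
      refine (abs_le_of_sq_le_sq' ?_ (by positivity)).2
      rw [← norm_pow, hw]
      refine (norm_add_le _ _).trans ?_
      rw [norm_pow, norm_pow, norm_mul, norm_real, norm_real, Real.norm_eq_abs, Real.norm_eq_abs,
        abs_of_pos hσ, abs_of_nonneg h0]
      have : 0 ≤ α * (σ * ‖z‖) := by positivity
      nlinarith
    have E : Real.exp |w.im| ≤ Real.exp α * Real.exp ((σ + ε) * ‖z‖) := by
      rw [← Real.exp_add]
      refine Real.exp_le_exp.2 ((abs_im_le_norm w).trans (nw.trans ?_))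
      have : 0 ≤ ε * ‖z‖ := by positivity
      nlinarith
    have E1 : 1 ≤ Real.exp |w.im| := Real.one_le_exp (abs_nonneg _)
    have b1 : ‖C (w ^ 2)‖ ≤ Real.exp |w.im| := by rw [h.eC]; exact ncos w
    have b2 : ‖S (w ^ 2)‖ ≤ (1 + K) * Real.exp |w.im| := by
      rcases le_total ‖w‖ 1 with a | a
      · have := hK (w ^ 2) (by simpa using a)
        nlinarith
      · have := nsin w
        rw [← h.eS, norm_mul] at this
        nlinarith [norm_nonneg (S (w ^ 2))]
    rw [← hw]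
    simp only [hW]
    refine (norm_add_le _ _).trans ?_
    rw [norm_mul, norm_mul, norm_I, norm_real, Real.norm_eq_abs, abs_mul, sa, abs_of_nonneg h0]
    calc _ ≤ (1 + α * (1 + K)) * Real.exp |w.im| := by nlinarith [mul_le_mul_of_nonneg_left b2 h0]
      _ ≤ _ := by rw [mul_assoc]; gcongr
  · simp only [one_mul, zero_add, hv]
    set w := √((σ * x) ^ 2 + α ^ 2) with hw
    have w2 : w ^ 2 = (σ * x) ^ 2 + α ^ 2 := Real.sq_sqrt (by positivity)
    have e : ((σ : ℂ) * x) ^ 2 + (α : ℂ) ^ 2 = (w : ℂ) ^ 2 := by exact_mod_cast w2.symm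
    rw [e, Wr]
    refine (abs_le_of_sq_le_sq' ?_ zero_le_one).2
    rw [Complex.sq_norm, normSq_add_mul_I]
    have e2 : (w * Real.sinc w) ^ 2 = Real.sin w ^ 2 := by
      by_cases a : w = 0
      · simp [a]
      · rw [Real.sinc_of_ne_zero a]; field_simp
    have e3 := Real.sin_sq_add_cos_sq w
    have e4 : (s * α * Real.sinc w) ^ 2 = α ^ 2 * Real.sinc w ^ 2 := by rw [mul_pow, mul_pow, s1]; ring
    have e5 : α ^ 2 * Real.sinc w ^ 2 ≤ w ^ 2 * Real.sinc w ^ 2 := by
      exact mul_le_mul_of_nonneg_right (by nlinarith [sq_nonneg (σ * x)]) (sq_nonneg _)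
    rw [mul_pow] at e2
    linarith
  · refine le_trans (le_of_eq ?_) (re_le_norm _)
    have as : α * Real.sinc α = Real.sin α := by
      by_cases a : α = 0
      · simp [a]
      · rw [Real.sinc_of_ne_zero a]; field_simp
    obtain ⟨r, hr⟩ : ∃ r : ℝ, α * deriv S ((α : ℂ) ^ 2) = r := by
      by_cases a : α = 0
      · exact ⟨0, by simp [a]⟩
      · refine ⟨(Real.cos α - Real.sinc α) / (2 * α), ?_⟩
        have := h.eS' α
        rw [h.Sr] at this
        have a' : (α : ℂ) ≠ 0 := ofReal_ne_zero.2 a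
        push_cast; rw [← this]; field_simp; ring
    have W1 : deriv W ((α : ℂ) ^ 2) = ((-Real.sinc α / 2 : ℝ) : ℂ) + (s * r : ℝ) * I := by
      have : HasDerivAt W (deriv C ((α : ℂ) ^ 2) + (s * α : ℝ) * I * deriv S ((α : ℂ) ^ 2))
        ((α : ℂ) ^ 2) := (dC _).hasDerivAt.add ((dS _).hasDerivAt.const_mul _)
      rw [this.deriv, h.eD, h.Sr]; push_cast; rw [← hr]; ring
    rw [ofReal_zero, d2_aff dv, d2_sq dW ((α : ℂ) ^ 2) (u := v) (fun _ => rfl), W1]
    simp only [one_mul, mul_zero, add_zero, hv]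
    rw [zero_pow two_ne_zero, zero_add, Wr, mul_assoc s, as, ← hs, ← ofReal_pow]
    simp only [add_re, neg_re, mul_re, mul_im, ofReal_re, ofReal_im, I_re, I_im, add_im, re_ofNat,
      im_ofNat]
    ring

end H99.Bern
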