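import Mathlib

set_option autoImplicit false

namespace Pool.Agent.H99.Borg

open Finset

lemma disc_neg (E : ℝ) (h1 : -27/10 ≤ E) (h2 : E ≤ 27/10) :
    (-12764/25) * E^0 + (-7988/125) * E^1 + (279841/400) * E^2 + (3432603/50000) * E^3 + (-404584199/1000000) * E^4 + (-1694603/50000) * E^5 + (239363/2000) * E^6 + (389/50) * E^7 + (-357/20) * E^8 + (-3/5) * E^9 + (1/1) * E^10 < 0 := by
  have c0 : (-27/10) ≤ E → E ≤ (-3/2) →
      (-12764/25) * E^0 + (-7988/125) * E^1 + (279841/400) * E^2 + (3432603/50000) * E^3 + (-404584199/1000000) * E^4 + (-1694603/50000) * E^5 + (239363/2000) * E^6 + (389/50) * E^7 + (-357/20) * E^8 + (-3/5) * E^9 + (1/1) * E^10 < 0 := by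
    intro a b
    have a' : 0 ≤ E - (-27/10) := by linarith
    have b' : 0 ≤ (-3/2) - E := by linarith
    have e : (-12764/25) * E^0 + (-7988/125) * E^1 + (279841/400) * E^2 + (3432603/50000) * E^3 + (-404584199/1000000) * E^4 + (-1694603/50000) * E^5 + (239363/2000) * E^6 + (389/50) * E^7 + (-357/20) * E^8 + (-3/5) * E^9 + (1/1) * E^10
      = -1 - ((2408286439/60466176) * (E - (-27/10))^0 * ((-3/2) - E)^10 + (32928685859/30233088) * (E - (-27/10))^1 * ((-3/2) - E)^9 + (27042320995/6718464) * (E - (-27/10))^2 * ((-3/2) - E)^8 + (17088920885/2519424) * (E - (-27/10))^3 * ((-3/2) - E)^7 + (67082947235/10077696) * (E - (-27/10))^4 * ((-3/2) - E)^6 + (7154118683/1679616) * (E - (-27/10))^5 * ((-3/2) - E)^5 + (18879837041/10077696) * (E - (-27/10))^6 * ((-3/2) - E)^4 + (1399764545/2519424) * (E - (-27/10))^7 * ((-3/2) - E)^3 + (681385975/6718464) * (E - (-27/10))^8 * ((-3/2) - E)^2 + (354185375/30233088) * (E - (-27/10))^9 * ((-3/2) - E)^1 + (83644375/60466176)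 * (E - (-27/10))^10 * ((-3/2) - E)^0) := by ring
    have f : 0 ≤ (2408286439/60466176) * (E - (-27/10))^0 * ((-3/2) - E)^10 + (32928685859/30233088) * (E - (-27/10))^1 * ((-3/2) - E)^9 + (27042320995/6718464) * (E - (-27/10))^2 * ((-3/2) - E)^8 + (17088920885/2519424) * (E - (-27/10))^3 * ((-3/2) - E)^7 + (67082947235/10077696) * (E - (-27/10))^4 * ((-3/2) - E)^6 + (7154118683/1679616) * (E - (-27/10))^5 * ((-3/2) - E)^5 + (18879837041/10077696) * (E - (-27/10))^6 * ((-3/2) - E)^4 + (1399764545/2519424) * (E - (-27/10))^7 * ((-3/2) - E)^3 + (681385975/6718464) * (E - (-27/10))^8 * ((-3/2) - E)^2 + (354185375/30233088) * (E - (-27/10))^9 * ((-3/2) - E)^1 + (83644375/60466176) * (E - (-27/10))^10 * ((-3/2) - E)^0 := by positivity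
    linarith
  have c1 : (-3/2) ≤ E → E ≤ (0/1) →
      (-12764/25) * E^0 + (-7988/125) * E^1 + (279841/400) * E^2 + (3432603/50000) * E^3 + (-404584199/1000000) * E^4 + (-1694603/50000) * E^5 + (239363/2000) * E^6 + (389/50) * E^7 + (-357/20) * E^8 + (-3/5) * E^9 + (1/1) * E^10 < 0 := by
    intro a b
    have a' : 0 ≤ E - (-3/2) := by linarith
    have b' : 0 ≤ (0/1) - E := by linarith
    have e : (-12764/25) * E^0 + (-7988/125) * E^1 + (279841/400) * E^2 + (3432603/50000) * E^3 + (-404584199/1000000) * E^4 + (-1694603/50000) * E^5 + (239363/2000) * E^6 + (389/50) * E^7 + (-357/20) * E^8 + (-3/5) * E^9 + (1/1) * E^10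
      = -1 - ((137042944/922640625) * (E - (-3/2))^0 * ((0/1) - E)^10 + (1632722944/922640625) * (E - (-3/2))^1 * ((0/1) - E)^9 + (77963008/4100625) * (E - (-3/2))^2 * ((0/1) - E)^8 + (6533672192/61509375) * (E - (-3/2))^3 * ((0/1) - E)^7 + (22319894624/61509375) * (E - (-3/2))^4 * ((0/1) - E)^6 + (80140339496/102515625) * (E - (-3/2))^5 * ((0/1) - E)^5 + (312271204933/307546875) * (E - (-3/2))^6 * ((0/1) - E)^4 + (48357589016/61509375) * (E - (-3/2))^7 * ((0/1) - E)^3 + (291461552/820125) * (E - (-3/2))^8 * ((0/1) - E)^2 + (639967232/7381125) * (E - (-3/2))^9 * ((0/1) - E)^1 + (13044736/1476225) * (E - (-3/2))^10 * ((0/1) - E)^0) := by ring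
    have f : 0 ≤ (137042944/922640625) * (E - (-3/2))^0 * ((0/1) - E)^10 + (1632722944/922640625) * (E - (-3/2))^1 * ((0/1) - E)^9 + (77963008/4100625) * (E - (-3/2))^2 * ((0/1) - E)^8 + (6533672192/61509375) * (E - (-3/2))^3 * ((0/1) - E)^7 + (22319894624/61509375) * (E - (-3/2))^4 * ((0/1) - E)^6 + (80140339496/102515625) * (E - (-3/2))^5 * ((0/1) - E)^5 + (312271204933/307546875) * (E - (-3/2))^6 * ((0/1) - E)^4 + (48357589016/61509375) * (E - (-3/2))^7 * ((0/1) - E)^3 + (291461552/820125) * (E - (-3/2))^8 * ((0/1) - E)^2 + (639967232/7381125) * (E - (-3/2))^9 * ((0/1) - E)^1 + (13044736/1476225) * (E - (-3/2))^10 * ((0/1) - E)^0 := by positivity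
    linarith
  have c2 : (0/1) ≤ E → E ≤ (3/2) →
      (-12764/25) * E^0 + (-7988/125) * E^1 + (279841/400) * E^2 + (3432603/50000) * E^3 + (-404584199/1000000) * E^4 + (-1694603/50000) * E^5 + (239363/2000) * E^6 + (389/50) * E^7 + (-357/20) * E^8 + (-3/5) * E^9 + (1/1) * E^10 < 0 := by
    intro a b
    have a' : 0 ≤ E - (0/1) := by linarith
    have b' : 0 ≤ (3/2) - E := by linarith
    have e : (-12764/25) * E^0 + (-7988/125) * E^1 + (279841/400) * E^2 + (3432603/50000) * E^3 + (-404584199/1000000) * E^4 + (-1694603/50000) * E^5 + (239363/2000) * E^6 + (389/50) * E^7 + (-357/20) * E^8 + (-3/5) * E^9 + (1/1) * E^10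
      = -1 - ((13044736/1476225) * (E - (0/1))^0 * ((3/2) - E)^10 + (664506368/7381125) * (E - (0/1))^1 * ((3/2) - E)^9 + (316000688/820125) * (E - (0/1))^2 * ((3/2) - E)^8 + (55225034984/61509375) * (E - (0/1))^3 * ((3/2) - E)^7 + (380857861813/307546875) * (E - (0/1))^4 * ((3/2) - E)^6 + (106698593996/102515625) * (E - (0/1))^5 * ((3/2) - E)^5 + (33530925164/61509375) * (E - (0/1))^6 * ((3/2) - E)^4 + (11617680992/61509375) * (E - (0/1))^7 * ((3/2) - E)^3 + (930255056/20503125) * (E - (0/1))^8 * ((3/2) - E)^2 + (6494113984/922640625) * (E - (0/1))^9 * ((3/2) - E)^1 + (510180544/922640625) * (E - (0/1))^10 * ((3/2) - E)^0) := by ring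
    have f : 0 ≤ (13044736/1476225) * (E - (0/1))^0 * ((3/2) - E)^10 + (664506368/7381125) * (E - (0/1))^1 * ((3/2) - E)^9 + (316000688/820125) * (E - (0/1))^2 * ((3/2) - E)^8 + (55225034984/61509375) * (E - (0/1))^3 * ((3/2) - E)^7 + (380857861813/307546875) * (E - (0/1))^4 * ((3/2) - E)^6 + (106698593996/102515625) * (E - (0/1))^5 * ((3/2) - E)^5 + (33530925164/61509375) * (E - (0/1))^6 * ((3/2) - E)^4 + (11617680992/61509375) * (E - (0/1))^7 * ((3/2) - E)^3 + (930255056/20503125) * (E - (0/1))^8 * ((3/2) - E)^2 + (6494113984/922640625) * (E - (0/1))^9 * ((3/2) - E)^1 + (510180544/922640625) * (E - (0/1))^10 * ((3/2) - E)^0 := by positivity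
    linarith
  have c3 : (3/2) ≤ E → E ≤ (27/10) →
      (-12764/25) * E^0 + (-7988/125) * E^1 + (279841/400) * E^2 + (3432603/50000) * E^3 + (-404584199/1000000) * E^4 + (-1694603/50000) * E^5 + (239363/2000) * E^6 + (389/50) * E^7 + (-357/20) * E^8 + (-3/5) * E^9 + (1/1) * E^10 < 0 := by
    intro a b
    have a' : 0 ≤ E - (3/2) := by linarith
    have b' : 0 ≤ (27/10) - E := by linarith
    have e : (-12764/25) * E^0 + (-7988/125) * E^1 + (279841/400) * E^2 + (3432603/50000) * E^3 + (-404584199/1000000) * E^4 + (-1694603/50000) * E^5 + (239363/2000) * E^6 + (389/50) * E^7 + (-357/20) * E^8 + (-3/5) * E^9 + (1/1) * E^10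
      = -1 - ((4982231875/967458816) * (E - (3/2))^0 * ((27/10) - E)^10 + (19472454125/483729408) * (E - (3/2))^1 * ((27/10) - E)^9 + (18459148975/107495424) * (E - (3/2))^2 * ((27/10) - E)^8 + (19383778745/40310784) * (E - (3/2))^3 * ((27/10) - E)^7 + (149552870081/161243136) * (E - (3/2))^4 * ((27/10) - E)^6 + (39841055999/26873856) * (E - (3/2))^5 * ((27/10) - E)^5 + (373266704465/161243136) * (E - (3/2))^6 * ((27/10) - E)^4 + (117730334345/40310784) * (E - (3/2))^7 * ((27/10) - E)^3 + (240772193215/107495424) * (E - (3/2))^8 * ((27/10) - E)^2 + (394261045517/483729408) * (E - (3/2))^9 * ((27/10) - E)^1 + (76534511731/967458816) * (E - (3/2))^10 * ((27/10) - E)^0) := by ring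
    have f : 0 ≤ (4982231875/967458816) * (E - (3/2))^0 * ((27/10) - E)^10 + (19472454125/483729408) * (E - (3/2))^1 * ((27/10) - E)^9 + (18459148975/107495424) * (E - (3/2))^2 * ((27/10) - E)^8 + (19383778745/40310784) * (E - (3/2))^3 * ((27/10) - E)^7 + (149552870081/161243136) * (E - (3/2))^4 * ((27/10) - E)^6 + (39841055999/26873856) * (E - (3/2))^5 * ((27/10) - E)^5 + (373266704465/161243136) * (E - (3/2))^6 * ((27/10) - E)^4 + (117730334345/40310784) * (E - (3/2))^7 * ((27/10) - E)^3 + (240772193215/107495424) * (E - (3/2))^8 * ((27/10) - E)^2 + (394261045517/483729408) * (E - (3/2))^9 * ((27/10) - E)^1 + (76534511731/967458816) * (E - (3/2))^10 * ((27/10) - E)^0 := by positivity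
    linarith
  rcases le_total E (-3/2) with a | a
  · exact c0 h1 a
  rcases le_total E 0 with b | b
  · exact c1 a (by linarith)
  rcases le_total E (3/2) with c | c
  · exact c2 (by linarith) c
  · exact c3 c h2

lemma cubic_cases (a b c d : ℝ) (ha : a ≠ 0) :
    (∃ x : ℂ, 0 < x.im ∧ a * x ^ 3 + b * x ^ 2 + c * x + d = 0) ∨
    ∃ r s t : ℝ, b = -a * (r + s + t) ∧ c = a * (r * s + r * t + s * t) ∧ d = -a * (r * s * t) := by
  let P : Cubic ℝ := ⟨a, b, c, d⟩
  obtain ⟨x, y, z, h3⟩ := (Cubic.splits_iff_roots_eq_three (P := P) (φ := algebraMap ℝ ℂ) ha).1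
    (IsAlgClosed.splits _)
  have hb : (b : ℂ) = a * -(x + y + z) := Cubic.b_eq_three_roots ha h3
  have hc : (c : ℂ) = a * (x * y + x * z + y * z) := Cubic.c_eq_three_roots ha h3
  have hd : (d : ℂ) = a * -(x * y * z) := Cubic.d_eq_three_roots ha h3
  have key : ∀ w : ℂ, a * w ^ 3 + b * w ^ 2 + c * w + d = 0 → w.im ≠ 0 →
      ∃ x : ℂ, 0 < x.im ∧ a * x ^ 3 + b * x ^ 2 + c * x + d = 0 := by
    intro w hw h0
    rcases lt_or_gt_of_ne h0 with h | h
    · refine ⟨(starRingEnd ℂ) w, by simpa using h, ?_⟩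
      have := congrArg (starRingEnd ℂ) hw
      simpa using this
    · exact ⟨w, h, hw⟩
  by_cases hx : x.im = 0
  swap
  · exact Or.inl (key x (by rw [hb, hc, hd]; ring) hx)
  by_cases hy : y.im = 0
  swap
  · exact Or.inl (key y (by rw [hb, hc, hd]; ring) hy)
  by_cases hz : z.im = 0
  swap
  · exact Or.inl (key z (by rw [hb, hc, hd]; ring) hz)
  right
  refine ⟨x.re, y.re, z.re, ?_, ?_, ?_⟩
  · have := congrArg Complex.re hb
    simp at this
    linarith
  · have := congrArg Complex.re hc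
    simp [hx, hy, hz] at this
    linarith
  · have := congrArg Complex.re hd
    simp [hx, hy, hz] at this
    linarith

/-- action of the three letters on the four types -/
def tau (i : Fin 3) : Option (Fin 3) → Option (Fin 3)
  | none => some i
  | some j => if j = i then none else some j

lemma tau_tau (i : Fin 3) (t : Option (Fin 3)) : tau i (tau i t) = t := by
  revert i t; decide

/-- the potential -/
def bb {K : Type*} [Zero K] (β : K) : Option (Fin 3) → K
  | none => 0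
  | some _ => β

/-- cone functions -/
def mm {K : Type*} (x p q : K) : Option (Fin 3) → Fin 3 → K
  | none, _ => q
  | some j, i => if j = i then p else x

/-- the cone recursion -/
def Rec {K : Type*} [Field K] (β E : K) (m : Option (Fin 3) → Fin 3 → K) : Prop :=
  ∀ t i, m t i * (bb β t - E - ∑ j, if j = i then 0 else m (tau j t) j) = 1

lemma rec_mm {K : Type*} [Field K] (β E x p q : K) (hp : p * (β - E - 2 * x) = 1)
    (hq : q * (-E - 2 * p) = 1) (hx : x * (β - E - x - q) = 1) : Rec β E (mm x p q) := by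
  intro t i
  rw [Fin.sum_univ_three]
  rcases t with _ | j
  · fin_cases i <;> simp [mm, bb, tau] <;> linear_combination hq
  · fin_cases i <;> fin_cases j <;> simp [mm, bb, tau] <;>
      first | linear_combination hp | linear_combination hx

lemma mm_forall {K : Type*} (P : K → Prop) {x p q : K} (hx : P x) (hp : P p) (hq : P q) :
    ∀ t i, P (mm x p q t i) := by
  intro t i
  rcases t with _ | j
  · exact hq
  · simp only [mm]; split_ifs; exacts [hp, hx]

lemma x_eq {K : Type*} [Field K] (β E x p q : K) (hp : p * (β - E - 2 * x) = 1)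
    (hq : q * (-E - 2 * p) = 1)
    (hC : (x ^ 2 - (β - E) * x + 1) * (E * (β - E - 2 * x) + 2) - x * (β - E - 2 * x) = 0) :
    x * (β - E - x - q) = 1 := by
  have h1 : q * (E * (β - E - 2 * x) + 2) = -(β - E - 2 * x) := by
    linear_combination (-(β - E - 2 * x)) * hq - 2 * q * hp
  have h2 : E * (β - E - 2 * x) + 2 ≠ 0 := by
    intro h
    rw [h, mul_zero] at h1
    have h3 : β - E - 2 * x = 0 := by linear_combination h1
    rw [h3, mul_zero] at hp
    exact zero_ne_one hp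
  apply mul_right_cancel₀ h2
  linear_combination -hC - x * h1

lemma inv_im_pos {w : ℂ} (h : w.im < 0) : 0 < (w⁻¹).im := by
  rw [Complex.inv_im]
  apply div_pos (by linarith) (Complex.normSq_pos.2 (by rintro rfl; simp at h))

lemma of_complex_root (E : ℝ) (x : ℂ) (hx : 0 < x.im)
    (hC : (x ^ 2 - (1 / 10 - E) * x + 1) * (E * (1 / 10 - E - 2 * x) + 2)
      - x * (1 / 10 - E - 2 * x) = 0) :
    ∃ m : Option (Fin 3) → Fin 3 → ℂ, Rec (1 / 10) (E : ℂ) m ∧ ∀ t i, 0 < (m t i).im := by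
  have h1 : ((1 / 10 : ℂ) - E - 2 * x).im < 0 := by simp; linarith
  have h2 := inv_im_pos h1
  have h3 : (-(E : ℂ) - 2 * (1 / 10 - E - 2 * x)⁻¹).im < 0 := by
    simp only [Complex.sub_im, Complex.neg_im, Complex.ofReal_im, Complex.mul_im,
      Complex.re_ofNat, Complex.im_ofNat]
    linarith
  have h4 := inv_im_pos h3
  have hp : ((1 / 10 : ℂ) - E - 2 * x)⁻¹ * (1 / 10 - E - 2 * x) = 1 :=
    inv_mul_cancel₀ (by intro h; rw [h] at h1; simp at h1)
  have hq : (-(E : ℂ) - 2 * (1 / 10 - E - 2 * x)⁻¹)⁻¹ * (-E - 2 * (1 / 10 - E - 2 * x)⁻¹) = 1 :=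
    inv_mul_cancel₀ (by intro h; rw [h] at h3; simp at h3)
  exact ⟨mm x _ _, rec_mm _ _ _ _ _ hp hq (x_eq _ _ _ _ _ hp hq hC),
    mm_forall (fun w : ℂ => 0 < w.im) hx h2 h4⟩

lemma outer (β E : ℝ) (hβ : β = 1 / 10 ∨ β = -1 / 10) (hE : 27 / 10 ≤ E) (r s t : ℝ)
    (hb : 3 * (E * (β - E)) + 4 = 2 * E * (r + s + t))
    (hc : -(β - E) * (E * (β - E) + 2) - 2 * E - (β - E) = -2 * E * (r * s + r * t + s * t))
    (hd : E * (β - E) + 2 = 2 * E * (r * s * t)) :
    ∃ x p q : ℝ, p * (β - E - 2 * x) = 1 ∧ q * (-E - 2 * p) = 1 ∧ x * (β - E - x - q) = 1 ∧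
      x < 0 ∧ p < 0 ∧ q < 0 ∧ -(3 * p) ≤ E := by
  have hE0 : 0 < E := by linarith
  have hβ1 : β ≤ 1 / 10 := by rcases hβ with h | h <;> linarith
  have hβ2 : -1 / 10 ≤ β := by rcases hβ with h | h <;> linarith
  have fac : ∀ x : ℝ, (x ^ 2 - (β - E) * x + 1) * (E * (β - E - 2 * x) + 2) - x * (β - E - 2 * x)
      = -2 * E * ((x - r) * (x - s) * (x - t)) := by
    intro x
    linear_combination x ^ 2 * hb + x * hc + hd
  have key : ∀ x : ℝ, (x - r) * (x - s) * (x - t) = 0 → (β - E) / 2 + 3 / (2 * E) ≤ x →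
      ∃ x p q : ℝ, p * (β - E - 2 * x) = 1 ∧ q * (-E - 2 * p) = 1 ∧ x * (β - E - x - q) = 1 ∧
        x < 0 ∧ p < 0 ∧ q < 0 ∧ -(3 * p) ≤ E := by
    intro x hx hge
    have hC := fac x
    rw [hx, mul_zero] at hC
    have h3E : 0 < 3 / E := by positivity
    have h1 : β - E - 2 * x ≤ -(3 / E) := by
      have : 3 / (2 * E) = (3 / E) / 2 := by field_simp
      linarith
    have h1' : β - E - 2 * x < 0 := by linarith
    have hp : (β - E - 2 * x)⁻¹ * (β - E - 2 * x) = 1 := inv_mul_cancel₀ h1'.ne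
    have hp0 : (β - E - 2 * x)⁻¹ < 0 := inv_lt_zero.2 h1'
    have hp1 : -(3 * (β - E - 2 * x)⁻¹) ≤ E := by
      have h4 : E * (β - E - 2 * x) ≤ -3 := by
        have := mul_le_mul_of_nonneg_left h1 hE0.le
        have h5 : E * -(3 / E) = -3 := by field_simp
        linarith
      nlinarith
    have h2 : -E - 2 * (β - E - 2 * x)⁻¹ < 0 := by linarith
    have hq : (-E - 2 * (β - E - 2 * x)⁻¹)⁻¹ * (-E - 2 * (β - E - 2 * x)⁻¹) = 1 :=
      inv_mul_cancel₀ h2.ne
    refine ⟨x, _, _, hp, hq, x_eq _ _ _ _ _ hp hq hC, ?_, hp0, inv_lt_zero.2 h2, hp1⟩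
    by_contra hx0
    push Not at hx0
    have a1 : 0 < x ^ 2 - (β - E) * x + 1 := by nlinarith
    have a2 : E * (β - E - 2 * x) + 2 ≤ -5 - 2 * E * x := by nlinarith
    have a3 : (x ^ 2 - (β - E) * x + 1) * (E * (β - E - 2 * x) + 2)
        ≤ (x ^ 2 - (β - E) * x + 1) * (-5 - 2 * E * x) := mul_le_mul_of_nonneg_left a2 a1.le
    have a4 : 0 ≤ x * x := mul_self_nonneg x
    have a5 : 0 ≤ E * x := by positivity
    have a6 : 0 ≤ (x ^ 2 - (β - E) * x + 1) * (E * x) := by positivity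
    nlinarith
  by_contra hcon
  have hr : r < (β - E) / 2 + 3 / (2 * E) := by
    by_contra h; exact hcon (key r (by ring) (not_lt.1 h))
  have hs : s < (β - E) / 2 + 3 / (2 * E) := by
    by_contra h; exact hcon (key s (by ring) (not_lt.1 h))
  have ht : t < (β - E) / 2 + 3 / (2 * E) := by
    by_contra h; exact hcon (key t (by ring) (not_lt.1 h))
  obtain ⟨y, hy⟩ : ∃ y, y = (β - E) / 2 + 3 / (2 * E) := ⟨_, rfl⟩
  rw [← hy] at hr hs ht
  have hy' : 2 * E * y = E * (β - E) + 3 := by rw [hy]; field_simp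
  have b1 : 0 < (y - r) * (y - s) + (y - r) * (y - t) + (y - s) * (y - t) := by
    have := sub_pos.2 hr
    have := sub_pos.2 hs
    have := sub_pos.2 ht
    positivity
  have b2 : -2 * E ^ 2 * ((y - r) * (y - s) + (y - r) * (y - t) + (y - s) * (y - t))
      = -3 / 2 * (E * (β - E) + 3) ^ 2 + (3 * (E * (β - E)) + 4) * (E * (β - E) + 3)
        + E * (-(β - E) * (E * (β - E) + 2) - 2 * E - (β - E)) := by
    rw [← hy']
    linear_combination (-2 * E * y) * hb - E * hc
  have b3 : 0 < E ^ 2 * ((y - r) * (y - s) + (y - r) * (y - t) + (y - s) * (y - t)) := by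
    positivity
  obtain ⟨u, rfl⟩ : ∃ u, E = 27 / 10 + u := ⟨E - 27 / 10, by ring⟩
  have hu : 0 ≤ u := by linarith
  have c2 : 0 ≤ u ^ 2 := by positivity
  have c3 : 0 ≤ u ^ 3 := by positivity
  have c4 : 0 ≤ u ^ 4 := by positivity
  rcases hβ with rfl | rfl <;> nlinarith

lemma rec_neg {β E : ℝ} {x p q : ℝ} (hp : p * (-β - -E - 2 * x) = 1)
    (hq : q * (- -E - 2 * p) = 1) (hx : x * (-β - -E - x - q) = 1) :
    Rec β E (mm (-x) (-p) (-q)) :=
  rec_mm _ _ _ _ _ (by linear_combination hp) (by linear_combination hq)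
    (by linear_combination hx)

theorem trichotomy (E : ℝ) :
    (∃ m : Option (Fin 3) → Fin 3 → ℂ, Rec (1 / 10) (E : ℂ) m ∧ ∀ t i, 0 < (m t i).im) ∨
    (∃ m : Option (Fin 3) → Fin 3 → ℝ, Rec (1 / 10) E m ∧ (∀ t i, m t i < 0) ∧
      -∑ i, m (some i) i ≤ E) ∨
    (∃ m : Option (Fin 3) → Fin 3 → ℝ, Rec (1 / 10) E m ∧ (∀ t i, 0 < m t i) ∧
      ∑ i, m (some i) i ≤ -E) := by
  by_cases h0 : E = 0
  · left
    subst h0
    obtain ⟨y, hy, hy2⟩ : ∃ y : ℝ, 0 < y ∧ y ^ 2 = 3191 / 6400 :=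
      ⟨Real.sqrt (3191 / 6400), Real.sqrt_pos.2 (by norm_num), Real.sq_sqrt (by norm_num)⟩
    apply of_complex_root 0 (3 / 80 + y * Complex.I) (by simpa using hy)
    have h1 : (y : ℂ) ^ 2 = 3191 / 6400 := by
      rw [← Complex.ofReal_pow, hy2]; push_cast; rfl
    push_cast
    linear_combination (4 * (y:ℂ) ^ 2) * Complex.I_sq - 4 * h1
  rcases cubic_cases (-2 * E) (3 * (E * (1 / 10 - E)) + 4)
    (-(1 / 10 - E) * (E * (1 / 10 - E) + 2) - 2 * E - (1 / 10 - E)) (E * (1 / 10 - E) + 2)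
    (by simpa using h0) with ⟨x, hx, hC⟩ | ⟨r, s, t, hb, hc, hd⟩
  · left
    apply of_complex_root E x hx
    push_cast at hC
    linear_combination hC
  right
  rcases le_total (27 / 10) E with h1 | h1
  · left
    obtain ⟨x, p, q, hp, hq, hx, x0, p0, q0, h3⟩ := outer (1 / 10) E (Or.inl rfl) h1 r s t
      (by linear_combination hb) (by linear_combination hc) (by linear_combination hd)
    refine ⟨mm x p q, rec_mm _ _ _ _ _ hp hq hx, mm_forall (fun w : ℝ => w < 0) x0 p0 q0, ?_⟩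
    simp only [mm, if_true, Fin.sum_univ_three]
    linarith
  rcases le_total E (-27 / 10) with h2 | h2
  · right
    obtain ⟨x, p, q, hp, hq, hx, x0, p0, q0, h3⟩ := outer (-1 / 10) (-E) (Or.inr rfl)
      (by linarith) (-r) (-s) (-t)
      (by linear_combination hb) (by linear_combination -hc) (by linear_combination hd)
    refine ⟨mm (-x) (-p) (-q), rec_neg (by linear_combination hp) hq (by linear_combination hx),
      mm_forall (fun w : ℝ => 0 < w) (neg_pos.2 x0) (neg_pos.2 p0) (neg_pos.2 q0), ?_⟩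
    simp only [mm, if_true, Fin.sum_univ_three]
    linarith
  exfalso
  have hneg := disc_neg E h2 h1
  have hdisc : ∀ a b c d : ℝ, b = -a * (r + s + t) → c = a * (r * s + r * t + s * t) →
      d = -a * (r * s * t) →
      0 ≤ b ^ 2 * c ^ 2 - 4 * a * c ^ 3 - 4 * b ^ 3 * d - 27 * a ^ 2 * d ^ 2 + 18 * a * b * c * d := by
    intro a b c d hb hc hd
    have : b ^ 2 * c ^ 2 - 4 * a * c ^ 3 - 4 * b ^ 3 * d - 27 * a ^ 2 * d ^ 2 + 18 * a * b * c * d
        = (a ^ 2 * (r - s) * (r - t) * (s - t)) ^ 2 := by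
      rw [hb, hc, hd]; ring
    rw [this]
    positivity
  have := hdisc _ _ _ _ hb hc hd
  nlinarith

end Pool.Agent.H99.Borg
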