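import Mathlib
import Pool.Agent.H99.BorgAlg

set_option autoImplicit false

namespace Pool.Agent.H99.Borg

open Finset

/-- a rooted three-regular tree with a proper edge colouring and vertex types -/
structure CT (V : Type) where
  sg : Fin 3 → V → V
  o : V
  len : V → ℕ
  last : V → Option (Fin 3)
  ty : V → Option (Fin 3)
  invol : ∀ i w, sg i (sg i w) = w
  down : ∀ i w, last w ≠ some i → last (sg i w) = some i ∧ len (sg i w) = len w + 1
  up : ∀ i w, last w = some i → last (sg i w) ≠ some i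
  root : ∀ w, last w = none → w = o
  last_o : last o = none
  ty_sg : ∀ i w, ty (sg i w) = tau i (ty w)
  ty_o : ty o = none

variable {V : Type} (T : CT V)

lemma CT.up_len {i : Fin 3} {w : V} (h : T.last w = some i) : T.len w = T.len (T.sg i w) + 1 := by
  have := (T.down i _ (T.up i w h)).2
  rwa [T.invol] at this

/-- the involution as an equivalence -/
def CT.eqv (i : Fin 3) : V ≃ V := ⟨T.sg i, T.sg i, T.invol i, T.invol i⟩

lemma CT.induct {P : V → Prop} (h0 : P T.o)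
    (h1 : ∀ w i, T.last w ≠ some i → P w → P (T.sg i w)) (w : V) : P w := by
  induction h : T.len w using Nat.strong_induction_on generalizing w with
  | _ n ih =>
    rcases hl : T.last w with _ | i
    · rw [T.root w hl]; exact h0
    · have h2 := T.up_len hl
      have := h1 _ i (T.up i w hl) (ih _ (by omega) _ rfl)
      rwa [T.invol] at this

/-- recursion with fuel -/
def CT.recF {Y : Type} (y0 : Y) (F : V → Fin 3 → Y → Y) : ℕ → V → Y
  | 0, _ => y0
  | n + 1, w => match T.last w with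
    | none => y0
    | some i => F (T.sg i w) i (CT.recF y0 F n (T.sg i w))

lemma CT.exists_rec {Y : Type} (y0 : Y) (F : V → Fin 3 → Y → Y) :
    ∃ g : V → Y, g T.o = y0 ∧ ∀ w i, T.last w ≠ some i → g (T.sg i w) = F w i (g w) := by
  refine ⟨fun w => T.recF y0 F (T.len w) w, ?_, fun w i h => ?_⟩
  · cases h : T.len T.o with
    | zero => simp only [h, CT.recF]
    | succ n => simp only [h, CT.recF, T.last_o]
  · obtain ⟨h1, h2⟩ := T.down i w h
    simp only [h2, CT.recF, h1, T.invol]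

lemma sum_erase_ite {K : Type*} [AddCommMonoid K] (i : Fin 3) (g : Fin 3 → K) :
    ∑ j ∈ univ.erase i, g j = ∑ j, if j = i then 0 else g j := by
  rw [← Finset.filter_ne', Finset.sum_filter]
  simp only [ne_eq, ite_not]

lemma CT.schur {f g : V → ℂ} (hf : Summable fun w => ‖f w‖ ^ 2) (k φ : V → ℝ) (L : ℝ)
    (hk : ∀ w, 0 ≤ k w) (hφ : ∀ w, 0 < φ w)
    (h1 : ∀ w, k w * φ w + ∑ i, φ (T.sg i w) ≤ L * φ w)
    (h2 : ∀ w, ‖g w‖ ≤ k w * ‖f w‖ + ∑ i, ‖f (T.sg i w)‖) :
    (Summable fun w => ‖g w‖ ^ 2) ∧ ∑' w, ‖g w‖ ^ 2 ≤ L ^ 2 * ∑' w, ‖f w‖ ^ 2 := by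
  have hs : ∀ w, 0 < ∑ i, φ (T.sg i w) := fun w =>
    sum_pos (fun i _ => hφ _) univ_nonempty
  have hL : 0 < L := by
    have a1 := h1 T.o
    have a2 := hs T.o
    have a3 := mul_nonneg (hk T.o) (hφ T.o).le
    exact (mul_pos_iff_of_pos_right (hφ T.o)).1 (by linarith)
  set a : Fin 3 → V → ℝ := fun i w => φ (T.sg i w) / φ w * ‖f w‖ ^ 2 with ha
  have ha0 : ∀ i w, 0 ≤ a i w := fun i w =>
    mul_nonneg (div_pos (hφ _) (hφ _)).le (by positivity)
  have hb : ∀ w, k w * ‖f w‖ ^ 2 + ∑ i, a i w ≤ L * ‖f w‖ ^ 2 := by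
    intro w
    simp only [ha]
    rw [← sum_mul, ← add_mul, ← sum_div]
    apply mul_le_mul_of_nonneg_right _ (by positivity)
    rw [← le_sub_iff_add_le', div_le_iff₀ (hφ w)]
    linarith [h1 w]
  have hk0 : ∀ w, 0 ≤ k w * ‖f w‖ ^ 2 := fun w => mul_nonneg (hk w) (by positivity)
  have hsa : ∀ i, Summable (a i) := fun i =>
    Summable.of_nonneg_of_le (ha0 i) (fun w => by
      have := single_le_sum (f := fun j => a j w) (fun j _ => ha0 j w) (mem_univ i)
      linarith [hb w, hk0 w]) (hf.mul_left L)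
  have hsk : Summable fun w => k w * ‖f w‖ ^ 2 :=
    Summable.of_nonneg_of_le hk0 (fun w => by
      have := sum_nonneg (s := univ) (fun j _ => ha0 j w)
      linarith [hb w]) (hf.mul_left L)
  have hA : HasSum (fun w => k w * ‖f w‖ ^ 2 + ∑ i, a i w)
      (∑' w, k w * ‖f w‖ ^ 2 + ∑ i, ∑' w, a i w) :=
    hsk.hasSum.add (hasSum_sum fun i _ => (hsa i).hasSum)
  have hB : HasSum (fun w => k w * ‖f w‖ ^ 2 + ∑ i, a i (T.sg i w))
      (∑' w, k w * ‖f w‖ ^ 2 + ∑ i, ∑' w, a i w) :=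
    hsk.hasSum.add (hasSum_sum fun i _ => (T.eqv i).hasSum_iff.2 (hsa i).hasSum)
  have hC := hasSum_le hb hA (hf.hasSum.mul_left L)
  have hpt : ∀ w, ‖g w‖ ^ 2 ≤ L * (k w * ‖f w‖ ^ 2 + ∑ i, a i (T.sg i w)) := by
    intro w
    set S := k w * ‖f w‖ + ∑ i, ‖f (T.sg i w)‖ with hS
    have hw := hφ w
    have tang : ∀ B p t : ℝ, 0 < p → 2 * B * t - t ^ 2 * p ≤ B ^ 2 / p := by
      intro B p t hp
      rw [le_div_iff₀ hp]
      nlinarith [sq_nonneg (B - t * p)]
    set t := S / (L * φ w) with ht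
    have e1 : ∑ i, (2 * ‖f (T.sg i w)‖ * t - t ^ 2 * φ (T.sg i w)) * φ w
        ≤ ∑ i, a i (T.sg i w) := by
      refine sum_le_sum fun i _ => ?_
      have := mul_le_mul_of_nonneg_right (tang ‖f (T.sg i w)‖ (φ (T.sg i w)) t (hφ _)) hw.le
      refine this.trans (le_of_eq ?_)
      simp only [ha, T.invol]
      ring
    have e2 : k w * ((2 * ‖f w‖ * t - t ^ 2 * φ w) * φ w) ≤ k w * ‖f w‖ ^ 2 := by
      apply mul_le_mul_of_nonneg_left _ (hk w)
      nlinarith [sq_nonneg (‖f w‖ - t * φ w)]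
    have e3 : k w * ((2 * ‖f w‖ * t - t ^ 2 * φ w) * φ w)
        + ∑ i, (2 * ‖f (T.sg i w)‖ * t - t ^ 2 * φ (T.sg i w)) * φ w
        = (2 * t * S - t ^ 2 * (k w * φ w + ∑ i, φ (T.sg i w))) * φ w := by
      simp only [hS, Fin.sum_univ_three]
      ring
    have e4 : (2 * t * S - t ^ 2 * (L * φ w)) * φ w
        ≤ (2 * t * S - t ^ 2 * (k w * φ w + ∑ i, φ (T.sg i w))) * φ w := by
      apply mul_le_mul_of_nonneg_right _ hw.le
      have := mul_le_mul_of_nonneg_left (h1 w) (sq_nonneg t)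
      linarith
    have e5 : L * ((2 * t * S - t ^ 2 * (L * φ w)) * φ w) = S ^ 2 := by
      rw [ht]; field_simp; ring
    have e6 : ‖g w‖ ^ 2 ≤ S ^ 2 := pow_le_pow_left₀ (norm_nonneg _) (h2 w) 2
    have e7 := mul_le_mul_of_nonneg_left
      (show (2 * t * S - t ^ 2 * (L * φ w)) * φ w ≤ k w * ‖f w‖ ^ 2 + ∑ i, a i (T.sg i w) by
        linarith) hL.le
    linarith
  have hg : Summable fun w => ‖g w‖ ^ 2 :=
    Summable.of_nonneg_of_le (fun w => by positivity) hpt (hB.summable.mul_left L)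
  refine ⟨hg, (hasSum_le hpt hg.hasSum (hB.mul_left L)).trans ?_⟩
  have := mul_le_mul_of_nonneg_left hC hL.le
  linarith

/-- square summable functions -/
noncomputable abbrev E2 (V : Type) := lp (fun _ : V => ℂ) 2

lemma mem2 {f : V → ℂ} : Memℓp f 2 ↔ Summable fun w => ‖f w‖ ^ 2 := by
  rw [memℓp_gen_iff (by norm_num)]
  simp

lemma summable2 (f : E2 V) : Summable fun w => ‖f w‖ ^ 2 := mem2.1 (lp.memℓp f)

lemma norm2 (f : E2 V) : ‖f‖ ^ 2 = ∑' w, ‖f w‖ ^ 2 := by
  have := lp.norm_rpow_eq_tsum (p := 2) (by norm_num) f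
  simpa using this

/-- the potential on the tree -/
noncomputable def CT.pot (w : V) : ℝ := bb (1 / 10) (T.ty w)

lemma CT.pot_cast (w : V) : (T.pot w : ℂ) = bb (1 / 10) (T.ty w) := by
  unfold CT.pot
  cases T.ty w <;> simp [bb]

lemma CT.pot_nonneg (w : V) : 0 ≤ T.pot w := by
  unfold CT.pot
  cases T.ty w <;> simp [bb]

lemma CT.pot_le (w : V) : T.pot w ≤ 1 / 10 := by
  unfold CT.pot
  cases T.ty w <;> simp [bb]

lemma CT.pot_o : T.pot T.o = 0 := by simp [CT.pot, T.ty_o, bb]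

lemma CT.apply_bound (f : V → ℂ) (w : V) :
    ‖T.pot w * f w + ∑ i, f (T.sg i w)‖ ≤ T.pot w * ‖f w‖ + ∑ i, ‖f (T.sg i w)‖ := by
  refine (norm_add_le _ _).trans (add_le_add ?_ (norm_sum_le _ _))
  rw [norm_mul, Complex.norm_real, Real.norm_of_nonneg (T.pot_nonneg w)]

lemma CT.schur_one (f : E2 V) :
    (Summable fun w => ‖T.pot w * f w + ∑ i, f (T.sg i w)‖ ^ 2) ∧
      ∑' w, ‖T.pot w * f w + ∑ i, f (T.sg i w)‖ ^ 2 ≤ 4 ^ 2 * ∑' w, ‖f w‖ ^ 2 :=
  T.schur (summable2 f) T.pot (fun _ => 1) 4 T.pot_nonneg (fun _ => one_pos)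
    (fun w => by simp; linarith [T.pot_le w]) (T.apply_bound f)

/-- the operator as a linear map -/
noncomputable def CT.Hl : E2 V →ₗ[ℂ] E2 V where
  toFun f := ⟨fun w => T.pot w * f w + ∑ i, f (T.sg i w), mem2.2 (T.schur_one f).1⟩
  map_add' f g := by
    ext w
    simp only [lp.coeFn_add, Pi.add_apply, sum_add_distrib]
    ring
  map_smul' c f := by
    ext w
    simp only [lp.coeFn_smul, Pi.smul_apply, smul_eq_mul, RingHom.id_apply, ← mul_sum]
    ring

lemma norm_le_of_sq {f g : E2 V} {L : ℝ} (hL : 0 ≤ L)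
    (h : ∑' w, ‖g w‖ ^ 2 ≤ L ^ 2 * ∑' w, ‖f w‖ ^ 2) : ‖g‖ ≤ L * ‖f‖ := by
  rw [← norm2, ← norm2, ← mul_pow] at h
  exact (pow_le_pow_iff_left₀ (norm_nonneg _) (by positivity) two_ne_zero).1 h

/-- the operator -/
noncomputable def CT.H : E2 V →L[ℂ] E2 V :=
  T.Hl.mkContinuous 4 fun f => norm_le_of_sq (by norm_num) (T.schur_one f).2

lemma CT.H_apply (f : E2 V) (w : V) : T.H f w = T.pot w * f w + ∑ i, f (T.sg i w) := rfl

lemma summable_mul_conj (f g : E2 V) (e e' : V ≃ V) :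
    Summable fun w => g (e' w) * (starRingEnd ℂ) (f (e w)) := by
  refine Summable.of_norm_bounded
    ((e'.summable_iff.2 (summable2 g)).add (e.summable_iff.2 (summable2 f))) fun w => ?_
  simp only [norm_mul, Complex.norm_conj, Function.comp]
  nlinarith [sq_nonneg (‖g (e' w)‖ - ‖f (e w)‖), norm_nonneg (g (e' w)), norm_nonneg (f (e w))]

lemma CT.selfAdjoint : IsSelfAdjoint T.H := by
  rw [ContinuousLinearMap.isSelfAdjoint_iff_isSymmetric]
  intro f g
  simp only [ContinuousLinearMap.coe_coe, lp.inner_eq_tsum, RCLike.inner_apply, T.H_apply]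
  have h0 : Summable fun w => (T.pot w : ℂ) * (g w * (starRingEnd ℂ) (f w)) := by
    refine Summable.of_norm_bounded
      (summable_mul_conj f g (Equiv.refl V) (Equiv.refl V)).norm fun w => ?_
    rw [norm_mul, Complex.norm_real, Real.norm_of_nonneg (T.pot_nonneg w)]
    exact mul_le_of_le_one_left (norm_nonneg _) (by linarith [T.pot_le w])
  have h1 : ∀ i, HasSum (fun w => g w * (starRingEnd ℂ) (f (T.sg i w)))
      (∑' w, g w * (starRingEnd ℂ) (f (T.sg i w))) := fun i =>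
    (summable_mul_conj f g (T.eqv i) (Equiv.refl V)).hasSum
  have h2 : ∀ i, HasSum (fun w => g (T.sg i w) * (starRingEnd ℂ) (f w))
      (∑' w, g w * (starRingEnd ℂ) (f (T.sg i w))) := fun i => by
    have := (T.eqv i).hasSum_iff.2 (h1 i)
    convert this using 1
    funext w
    simp [CT.eqv, T.invol]
  have h3 := (h0.hasSum.add (hasSum_sum (s := univ) fun i _ => h1 i)).tsum_eq
  have h4 := (h0.hasSum.add (hasSum_sum (s := univ) fun i _ => h2 i)).tsum_eq
  refine Eq.trans (Eq.trans ?_ h3) (Eq.trans h4.symm ?_)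
  · congr 1
    funext w
    simp only [map_add, map_mul, map_sum, Complex.conj_ofReal, mul_add, mul_sum]
    ring
  · congr 1
    funext w
    simp only [add_mul, sum_mul]
    ring

lemma CT.cone {E : ℝ} {m : Option (Fin 3) → Fin 3 → ℂ} (hm : Rec (1 / 10) (E : ℂ) m)
    (him : ∀ t i, 0 < (m t i).im) {f : V → ℂ} (hf : Summable fun w => ‖f w‖ ^ 2)
    (heq : ∀ w, T.last w ≠ none → (T.pot w - E) * f w + ∑ i, f (T.sg i w) = 0) (i : Fin 3) :
    f (T.sg i T.o) + m (some i) i * f T.o = 0 := by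
  classical
  set Q : Fin 3 → V → ℝ := fun i u =>
    ‖f (T.sg i u) + m (T.ty (T.sg i u)) i * f u‖ ^ 2 / (m (T.ty (T.sg i u)) i).im with hQ
  have hQ0 : ∀ i u, 0 ≤ Q i u := fun i u => div_nonneg (by positivity) (him _ _).le
  set D : Fin 3 → V → ℝ := fun i u => if T.last u = some i then 0 else Q i u with hD
  have hD0 : ∀ i u, 0 ≤ D i u := fun i u => by
    simp only [hD]; split_ifs; exacts [le_rfl, hQ0 i u]
  obtain ⟨C, hC⟩ : ∃ C : ℝ, ∀ t i, 2 / (m t i).im ≤ C ∧ 2 * ‖m t i‖ ^ 2 / (m t i).im ≤ C := by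
    obtain ⟨C1, h1⟩ := Finite.exists_le fun p : Option (Fin 3) × Fin 3 => 2 / (m p.1 p.2).im
    obtain ⟨C2, h2⟩ := Finite.exists_le
      fun p : Option (Fin 3) × Fin 3 => 2 * ‖m p.1 p.2‖ ^ 2 / (m p.1 p.2).im
    exact ⟨max C1 C2, fun t i => ⟨(h1 (t, i)).trans (le_max_left _ _),
      (h2 (t, i)).trans (le_max_right _ _)⟩⟩
  have hsD : ∀ i, Summable (D i) := by
    intro i
    refine Summable.of_nonneg_of_le (hD0 i) (fun u => ?_)
      ((((T.eqv i).summable_iff.2 hf).mul_left C).add (hf.mul_left C))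
    have b1 : D i u ≤ Q i u := by
      simp only [hD]; split_ifs; exacts [hQ0 i u, le_rfl]
    refine b1.trans ?_
    obtain ⟨c1, c2⟩ := hC (T.ty (T.sg i u)) i
    have c3 := him (T.ty (T.sg i u)) i
    have c4 : ‖f (T.sg i u) + m (T.ty (T.sg i u)) i * f u‖ ^ 2
        ≤ 2 * ‖f (T.sg i u)‖ ^ 2 + 2 * ‖m (T.ty (T.sg i u)) i‖ ^ 2 * ‖f u‖ ^ 2 := by
      have d1 := norm_add_le (f (T.sg i u)) (m (T.ty (T.sg i u)) i * f u)
      rw [norm_mul] at d1
      have d2 := pow_le_pow_left₀ (norm_nonneg _) d1 2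
      nlinarith [sq_nonneg (‖f (T.sg i u)‖ - ‖m (T.ty (T.sg i u)) i‖ * ‖f u‖)]
    calc Q i u ≤ (2 * ‖f (T.sg i u)‖ ^ 2 + 2 * ‖m (T.ty (T.sg i u)) i‖ ^ 2 * ‖f u‖ ^ 2)
          / (m (T.ty (T.sg i u)) i).im := div_le_div_of_nonneg_right c4 c3.le
      _ = 2 / (m (T.ty (T.sg i u)) i).im * ‖f (T.sg i u)‖ ^ 2
          + 2 * ‖m (T.ty (T.sg i u)) i‖ ^ 2 / (m (T.ty (T.sg i u)) i).im * ‖f u‖ ^ 2 := by ring
      _ ≤ C * ‖f (T.sg i u)‖ ^ 2 + C * ‖f u‖ ^ 2 := by gcongr
  have hA : HasSum (fun w => ∑ i, D i w - ∑ i, D i (T.sg i w))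
      (∑ i, ∑' w, D i w - ∑ i, ∑' w, D i w) :=
    (hasSum_sum fun i _ => (hsD i).hasSum).sub
      (hasSum_sum fun i _ => (T.eqv i).hasSum_iff.2 (hsD i).hasSum)
  rw [sub_self] at hA
  have hup : ∀ w j, T.last w ≠ some j → D j (T.sg j w) = 0 := fun w j h => by
    simp only [hD, (T.down j w h).1, if_true]
  have hpos : ∀ w, 0 ≤ ∑ i, D i w - ∑ i, D i (T.sg i w) := by
    intro w
    rcases hl : T.last w with _ | l
    · rw [sum_eq_zero (s := univ) (f := fun i => D i (T.sg i w))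
        (fun j _ => hup w j (by simp [hl])), sub_zero]
      exact sum_nonneg fun j _ => hD0 j w
    · rw [sum_eq_single l (f := fun i => D i (T.sg i w))
        (fun j _ hj => hup w j (by simp [hl, Ne.symm hj])) (by simp), sub_nonneg]
      have e1 : ∑ j, D j w = ∑ j ∈ univ.erase l, Q j w := by
        rw [sum_erase_ite]
        refine sum_congr rfl fun j _ => ?_
        simp only [hD, hl, Option.some.injEq, eq_comm (a := l)]
      have e2 : D l (T.sg l w) = Q l (T.sg l w) := by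
        simp only [hD, if_neg (T.up l w hl)]
      rw [e1, e2]
      have t1 := sq_sum_div_le_sum_sq_div (univ.erase l)
        (fun j => ‖f (T.sg j w) + m (T.ty (T.sg j w)) j * f w‖)
        (g := fun j => (m (T.ty (T.sg j w)) j).im) (fun j _ => him _ _)
      refine le_trans ?_ t1
      simp only [hQ, T.invol]
      set μ := m (T.ty w) l with hμ
      set Sm := ∑ j ∈ univ.erase l, m (T.ty (T.sg j w)) j with hSm
      have r1 : μ * (T.pot w - E - Sm) = 1 := by
        have := hm (T.ty w) l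
        rw [← sum_erase_ite, ← T.pot_cast] at this
        simp only [hSm, T.ty_sg]
        exact this
      have r2 : (T.pot w - E) * f w + (∑ j ∈ univ.erase l, f (T.sg j w) + f (T.sg l w)) = 0 := by
        rw [sum_erase_add _ _ (mem_univ l)]
        exact heq w (by simp [hl])
      have r3 : μ * ∑ j ∈ univ.erase l, (f (T.sg j w) + m (T.ty (T.sg j w)) j * f w)
          = -(f w + μ * f (T.sg l w)) := by
        rw [sum_add_distrib, ← sum_mul, ← hSm]
        linear_combination μ * r2 - f w * r1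
      have hμ0 : μ ≠ 0 := by rintro h; rw [h] at r1; simp at r1
      have r4 : ∑ j ∈ univ.erase l, (m (T.ty (T.sg j w)) j).im = μ.im / ‖μ‖ ^ 2 := by
        rw [← Complex.im_sum, ← hSm]
        have s1 : Sm = T.pot w - E - μ⁻¹ := by
          field_simp
          linear_combination -r1
        rw [s1]
        simp [Complex.inv_im, Complex.normSq_eq_norm_sq, neg_div]
      have r5 : ‖f w + μ * f (T.sg l w)‖
          ≤ ‖μ‖ * ∑ j ∈ univ.erase l, ‖f (T.sg j w) + m (T.ty (T.sg j w)) j * f w‖ := by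
        rw [← norm_neg, ← r3, norm_mul]
        exact mul_le_mul_of_nonneg_left (norm_sum_le _ _) (norm_nonneg _)
      have r6 := pow_le_pow_left₀ (norm_nonneg _) r5 2
      have hμ1 : 0 < μ.im := him _ _
      have hμ2 : 0 < ‖μ‖ := norm_pos_iff.2 hμ0
      rw [r4, div_div_eq_mul_div]
      apply div_le_div_of_nonneg_right _ hμ1.le
      rw [mul_pow] at r6
      linarith
  have hzero := congrFun ((hasSum_zero_iff_of_nonneg hpos).1 hA) T.o
  simp only [Pi.zero_apply] at hzero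
  rw [sum_eq_zero (s := univ) (f := fun i => D i (T.sg i T.o))
    (fun j _ => hup T.o j (by simp [T.last_o])), sub_zero] at hzero
  have h5 := (sum_eq_zero_iff_of_nonneg fun j _ => hD0 j T.o).1 hzero i (mem_univ i)
  simp only [hD, T.last_o, reduceCtorEq, if_false, hQ, T.ty_sg, T.ty_o, tau] at h5
  rcases div_eq_zero_iff.1 h5 with h | h
  · simpa using h
  · exact absurd h (him _ _).ne'

lemma CT.mem_spec {E : ℝ} {m : Option (Fin 3) → Fin 3 → ℂ} (hm : Rec (1 / 10) (E : ℂ) m)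
    (him : ∀ t i, 0 < (m t i).im) : (E : ℂ) ∈ spectrum ℂ T.H := by
  classical
  by_contra hc
  rw [spectrum.notMem_iff] at hc
  obtain ⟨u, hu⟩ := hc
  set f : E2 V := (↑u⁻¹ : E2 V →L[ℂ] E2 V) (lp.single 2 T.o (1:ℂ)) with hf
  have h1 : (algebraMap ℂ (E2 V →L[ℂ] E2 V) E - T.H) f = lp.single 2 T.o (1:ℂ) := by
    rw [← hu, hf, ← mul_apply_eq_comp, Units.mul_inv, one_apply_eq_self]
  have h2 : ∀ w, (T.pot w - E) * f w + ∑ i, f (T.sg i w) = -(if w = T.o then 1 else 0) := by
    intro w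
    have := congrArg (fun g : E2 V => g w) h1
    simp only [sub_apply, ContinuousLinearMap.algebraMap_apply, lp.coeFn_sub,
      lp.coeFn_smul, Pi.sub_apply, Pi.smul_apply, smul_eq_mul, T.H_apply, lp.single_apply,
      Pi.single_apply] at this
    linear_combination -this
  have h3 : ∀ w, T.last w ≠ none → (T.pot w - E) * f w + ∑ i, f (T.sg i w) = 0 := by
    intro w hw
    rw [h2, if_neg (by rintro rfl; exact hw T.last_o), neg_zero]
  have a1 := T.cone hm him (summable2 f) h3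
  have a2 := T.cone hm him (f := fun w => (starRingEnd ℂ) (f w))
    (by simpa using summable2 f) (fun w hw => by
      have := congrArg (starRingEnd ℂ) (h3 w hw)
      simpa using this)
  have a3 : f T.o = 0 := by
    have b1 := a1 0
    have b2 := congrArg (starRingEnd ℂ) (a2 0)
    simp only [map_add, map_mul, Complex.conj_conj, map_zero] at b2
    have b3 : (m (some 0) 0 - (starRingEnd ℂ) (m (some 0) 0)) * f T.o = 0 := by
      linear_combination b1 - b2
    refine (mul_eq_zero.1 b3).resolve_left fun h => ?_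
    have := congrArg Complex.im h
    simp at this
    linarith [him (some 0) 0]
  have a4 := h2 T.o
  rw [sum_eq_zero (fun i _ => by simpa [a3] using a1 i), a3] at a4
  simp at a4

lemma CT.exists_phi {E s : ℝ} (hs : s * s = 1) {m : Option (Fin 3) → Fin 3 → ℝ}
    (hm : Rec (1 / 10) E m) (hpos : ∀ t i, 0 < s * m t i)
    (hroot : s * ∑ i, m (some i) i ≤ -s * E) :
    ∃ φ : V → ℝ, (∀ w, 0 < φ w) ∧ ∀ w, ∑ i, φ (T.sg i w) ≤ s * (T.pot w - E) * φ w := by
  obtain ⟨φ, h0, h1⟩ := T.exists_rec (1:ℝ) fun w i y => s * m (T.ty (T.sg i w)) i * y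
  refine ⟨φ, T.induct (by rw [h0]; exact one_pos) fun w i h hw => ?_, fun w => ?_⟩
  · rw [h1 w i h]; exact mul_pos (hpos _ _) hw
  · rcases hl : T.last w with _ | l
    · rw [T.root w hl, T.pot_o, h0]
      rw [sum_congr rfl fun i _ => h1 T.o i (by simp [T.last_o])]
      simp only [h0, T.ty_sg, T.ty_o, tau, mul_one, ← mul_sum]
      linarith
    · rw [← sum_erase_add _ _ (mem_univ l),
        sum_congr rfl fun i hi => h1 w i (by simp [hl, (ne_of_mem_erase hi).symm])]
      have r1 := hm (T.ty w) l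
      rw [← sum_erase_ite] at r1
      have r2 := h1 _ l (T.up l w hl)
      rw [T.invol] at r2
      simp only [T.ty_sg, ← sum_mul, ← mul_sum]
      apply le_of_eq
      unfold CT.pot
      rw [r2]
      linear_combination (-(φ (T.sg l w))) * r1
        - (φ (T.sg l w) * m (T.ty w) l * (bb (1 / 10) (T.ty w) - E
          - ∑ j ∈ univ.erase l, m (tau j (T.ty w)) j)) * hs

lemma CT.upper {E : ℝ} {m : Option (Fin 3) → Fin 3 → ℝ} (hm : Rec (1 / 10) E m)
    (hneg : ∀ t i, m t i < 0) (hroot : -∑ i, m (some i) i ≤ E) :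
    ∀ z ∈ spectrum ℂ T.H, z.re ≤ E := by
  obtain ⟨φ, h0, h1⟩ := T.exists_phi (s := -1) (by norm_num) hm
    (fun t i => by linarith [hneg t i]) (by linarith)
  have hE : 0 ≤ E := le_trans (by
    rw [neg_nonneg]; exact sum_nonpos fun i _ => (hneg _ _).le) hroot
  have hn : ‖T.H‖ ≤ E := by
    refine ContinuousLinearMap.opNorm_le_bound _ hE fun f => norm_le_of_sq hE ?_
    exact (T.schur (summable2 f) T.pot φ E T.pot_nonneg h0 (fun w => by linarith [h1 w])
      (T.apply_bound f)).2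
  intro z hz
  have : Nontrivial (E2 V →L[ℂ] E2 V) := by
    by_contra hc
    rw [not_nontrivial_iff_subsingleton] at hc
    simp at hz
  exact (Complex.re_le_norm z).trans ((spectrum.norm_le_norm_of_mem hz).trans hn)

lemma CT.lower {E : ℝ} {m : Option (Fin 3) → Fin 3 → ℝ} (hm : Rec (1 / 10) E m)
    (hpos : ∀ t i, 0 < m t i) (hroot : ∑ i, m (some i) i ≤ -E) :
    ∀ z ∈ spectrum ℂ T.H, E ≤ z.re := by
  obtain ⟨φ, h0, h1⟩ := T.exists_phi (s := 1) (by norm_num) hm
    (fun t i => by linarith [hpos t i]) (by linarith)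
  have hE : 0 ≤ 1 / 10 - E := by
    have := sum_nonneg (s := univ) fun i _ => (hpos (some i) i).le
    linarith
  have hn : ‖algebraMap ℂ (E2 V →L[ℂ] E2 V) (1 / 10) - T.H‖ ≤ 1 / 10 - E := by
    refine ContinuousLinearMap.opNorm_le_bound _ hE fun f => norm_le_of_sq hE ?_
    refine (T.schur (summable2 f) (fun w => 1 / 10 - T.pot w) φ (1 / 10 - E)
      (fun w => by linarith [T.pot_le w]) h0 (fun w => by linarith [h1 w]) fun w => ?_).2
    simp only [sub_apply, ContinuousLinearMap.algebraMap_apply, lp.coeFn_sub,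
      lp.coeFn_smul, Pi.sub_apply, Pi.smul_apply, smul_eq_mul, T.H_apply]
    have e : 1 / 10 * f w - (T.pot w * f w + ∑ i, f (T.sg i w))
        = ((1 / 10 - T.pot w : ℝ) : ℂ) * f w - ∑ i, f (T.sg i w) := by
      push_cast; ring
    rw [e]
    refine (norm_sub_le _ _).trans (add_le_add ?_ (norm_sum_le _ _))
    rw [norm_mul, Complex.norm_real, Real.norm_of_nonneg (by linarith [T.pot_le w])]
  intro z hz
  have : Nontrivial (E2 V →L[ℂ] E2 V) := by
    by_contra hc
    rw [not_nontrivial_iff_subsingleton] at hc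
    simp at hz
  have h2 : (1 / 10 : ℂ) - z ∈ spectrum ℂ (algebraMap ℂ (E2 V →L[ℂ] E2 V) (1 / 10) - T.H) := by
    rw [← spectrum.singleton_sub_eq]
    exact Set.sub_mem_sub rfl hz
  have h3 := (Complex.re_le_norm _).trans ((spectrum.norm_le_norm_of_mem h2).trans hn)
  simp at h3
  linarith

theorem CT.preconnected : IsPreconnected (spectrum ℂ T.H) := by
  have e : spectrum ℂ T.H = Complex.ofReal '' {E : ℝ | (E : ℂ) ∈ spectrum ℂ T.H} := by
    ext z
    constructor
    · intro hz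
      have := T.selfAdjoint.mem_spectrum_eq_re hz
      exact ⟨z.re, by rw [Set.mem_ofPred_eq, ← this]; exact hz, this.symm⟩
    · rintro ⟨E, hE, rfl⟩; exact hE
  rw [e]
  refine IsPreconnected.image (Set.OrdConnected.isPreconnected ⟨fun a ha b hb E hE => ?_⟩) _
    Complex.continuous_ofReal.continuousOn
  rcases trichotomy E with ⟨m, h1, h2⟩ | ⟨m, h1, h2, h3⟩ | ⟨m, h1, h2, h3⟩
  · exact T.mem_spec h1 h2
  · have := T.upper h1 h2 h3 _ hb
    rw [le_antisymm hE.2 (by simpa using this)]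
    exact hb
  · have := T.lower h1 h2 h3 _ ha
    rw [le_antisymm (by simpa using this) hE.1]
    exact ha

end Pool.Agent.H99.Borg
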