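import Mathlib
import Pool.Agent.H99.BorgCore

set_option autoImplicit false

namespace Pool.Agent.H99.Borg

open Finset

section graph

variable {V : Type} (T : CT V)

lemma CT.sg_ne (i : Fin 3) (w : V) : T.sg i w ≠ w := by
  intro h
  by_cases hl : T.last w = some i
  · have := T.up_len hl
    rw [h] at this; omega
  · have := (T.down i w hl).2
    rw [h] at this; omega

lemma CT.sg_inj (w : V) : Function.Injective fun i => T.sg i w := by
  intro i j h
  simp only at h
  by_contra hij
  by_cases hi : T.last w = some i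
  · have hj : T.last w ≠ some j := by rw [hi]; simpa using hij
    have a := T.up_len hi
    have b := (T.down j w hj).2
    rw [h] at a; omega
  · by_cases hj : T.last w = some j
    · have a := T.up_len hj
      have b := (T.down i w hi).2
      rw [h] at b; omega
    · have a := (T.down i w hi).1
      have b := (T.down j w hj).1
      rw [h, b] at a
      exact hij (Option.some.inj a).symm

/-- the tree -/
def CT.graph : SimpleGraph V where
  Adj v w := ∃ i, w = T.sg i v
  symm := ⟨by
    rintro v w ⟨i, rfl⟩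
    exact ⟨i, (T.invol i v).symm⟩⟩
  loopless := ⟨by
    rintro v ⟨i, h⟩
    exact T.sg_ne i v h.symm⟩

lemma CT.connected : T.graph.Connected := by
  have h : ∀ w, T.graph.Reachable T.o w :=
    T.induct (SimpleGraph.Reachable.refl _) fun w i _ hw =>
      hw.trans (SimpleGraph.Adj.reachable ⟨i, rfl⟩)
  have : Nonempty V := ⟨T.o⟩
  exact ⟨fun u v => (h u).symm.trans (h v)⟩

lemma CT.bridge (w : V) (i : Fin 3) (h : T.last w ≠ some i) :
    T.graph.IsBridge s(w, T.sg i w) := by
  obtain ⟨χ, h0, h1⟩ := T.exists_rec False fun u j y => T.sg j u = T.sg i w ∨ y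
  have hlen : ∀ u, χ u → T.len (T.sg i w) ≤ T.len u := by
    refine T.induct (by simp [h0]) fun u j hu ih => ?_
    rw [h1 u j hu]
    rintro (h2 | h2)
    · rw [h2]
    · have := (T.down j u hu).2
      have := ih h2
      omega
  have hw : ¬ χ w := fun hc => by
    have := hlen w hc
    have := (T.down i w h).2
    omega
  have hc : χ (T.sg i w) := by rw [h1 w i h]; exact Or.inl rfl
  have step : ∀ u j, T.last u ≠ some j → s(u, T.sg j u) ≠ s(w, T.sg i w) →
      (χ u ↔ χ (T.sg j u)) := by
    intro u j hu hne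
    rw [h1 u j hu]
    refine ⟨Or.inr, fun h2 => h2.resolve_left fun h3 => hne ?_⟩
    have a := (T.down j u hu).1
    rw [h3, (T.down i w h).1] at a
    obtain rfl := Option.some.inj a
    have b := congrArg (T.sg i) h3
    rw [T.invol, T.invol] at b
    rw [b]
  have adj : ∀ u v, (T.graph.deleteEdges {s(w, T.sg i w)}).Adj u v → (χ u ↔ χ v) := by
    intro u v huv
    rw [SimpleGraph.deleteEdges_adj] at huv
    obtain ⟨⟨j, rfl⟩, hne⟩ := huv
    by_cases hu : T.last u = some j
    · have := step (T.sg j u) j (T.up j u hu) (by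
        rw [T.invol, Sym2.eq_swap]; exact hne)
      rw [T.invol] at this
      exact this.symm
    · exact step u j hu hne
  rw [SimpleGraph.isBridge_iff]
  rintro ⟨p⟩
  have walk : ∀ (u v : V) (p : (T.graph.deleteEdges {s(w, T.sg i w)}).Walk u v), (χ u ↔ χ v) := by
    intro u v p
    induction p with
    | nil => rfl
    | cons h _ ih => exact (adj _ _ h).trans ih
  exact hw ((walk _ _ p).2 hc)

lemma CT.isTree : T.graph.IsTree := by
  refine ⟨T.connected, ?_⟩
  rw [SimpleGraph.isAcyclic_iff_forall_adj_isBridge]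
  rintro v w ⟨i, rfl⟩
  by_cases h : T.last v = some i
  · have := T.bridge (T.sg i v) i (T.up i v h)
    rwa [T.invol, Sym2.eq_swap] at this
  · exact T.bridge v i h

/-- neighbours are indexed by colours -/
noncomputable def CT.nbr (v : V) : Fin 3 ≃ T.graph.neighborSet v :=
  Equiv.ofBijective (fun i => ⟨T.sg i v, ⟨i, rfl⟩⟩)
    ⟨fun _ _ h => T.sg_inj v (congrArg Subtype.val h), by
      rintro ⟨w, i, rfl⟩
      exact ⟨i, rfl⟩⟩

lemma CT.induct' {P : V → Prop} {v : V} (h0 : P v) (h1 : ∀ w i, P w → P (T.sg i w)) (w : V) :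
    P w := by
  have a : ∀ u, P u → P T.o := T.induct id fun u i _ ih hu => ih (by
    have := h1 _ i hu
    rwa [T.invol] at this)
  exact T.induct (a v h0) (fun u i _ hu => h1 u i hu) w

lemma CT.exists_shift (v : V) :
    ∃ g : V → V, g T.o = v ∧ ∀ i w, g (T.sg i w) = T.sg i (g w) := by
  obtain ⟨g, h0, h1⟩ := T.exists_rec v fun _ i y => T.sg i y
  refine ⟨g, h0, fun i w => ?_⟩
  by_cases h : T.last w = some i
  · have := h1 _ i (T.up i w h)
    rw [T.invol] at this
    rw [this, T.invol]
  · exact h1 w i h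

lemma CT.comm_ext {g g' : V → V} (hg : ∀ i w, g (T.sg i w) = T.sg i (g w))
    (hg' : ∀ i w, g' (T.sg i w) = T.sg i (g' w)) {v : V} (h : g v = g' v) (w : V) : g w = g' w :=
  T.induct' (P := fun w => g w = g' w) h (fun u i hu => by rw [hg, hg', hu]) w

lemma CT.exists_map (s v : V) :
    ∃ g : V → V, g s = v ∧ ∀ i w, g (T.sg i w) = T.sg i (g w) := by
  obtain ⟨a, a0, a1⟩ := T.exists_shift s
  obtain ⟨b, b0, b1⟩ := T.exists_shift v
  have surj : ∀ w, ∃ u, a u = w :=
    T.induct' (P := fun w => ∃ u, a u = w) ⟨T.o, a0⟩ (by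
      rintro w i ⟨u, rfl⟩
      exact ⟨T.sg i u, a1 i u⟩)
  obtain ⟨u, hu⟩ := surj T.o
  obtain ⟨c, c0, c1⟩ := T.exists_shift u
  have hac : ∀ w, a (c w) = w :=
    T.comm_ext (g := fun w => a (c w)) (g' := id) (fun i w => by simp only [c1, a1])
      (fun _ _ => rfl) (v := T.o) (by simp only [c0, hu, id])
  obtain ⟨u', hu'⟩ : ∃ u', c u' = T.o :=
    T.induct' (P := fun w => ∃ u, c u = w) ⟨T.o, c0⟩ (by
      rintro w i ⟨u, rfl⟩
      exact ⟨T.sg i u, c1 i u⟩) T.o
  have : u' = s := by rw [← hac u', hu', a0]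
  exact ⟨fun w => b (c w), by simp only [← this, hu', b0], fun i w => by simp only [c1, b1]⟩

/-- colour and type preserving automorphisms -/
def CT.grp : Subgroup (T.graph ≃g T.graph) where
  carrier := {g | (∀ i w, g (T.sg i w) = T.sg i (g w)) ∧ ∀ w, T.ty (g w) = T.ty w}
  mul_mem' := by
    rintro a b ⟨a1, a2⟩ ⟨b1, b2⟩
    refine ⟨fun i w => ?_, fun w => ?_⟩
    · change a (b _) = T.sg i (a (b w))
      rw [b1, a1]
    · change T.ty (a (b w)) = _
      rw [a2, b2]
  one_mem' := ⟨fun _ _ => rfl, fun _ => rfl⟩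
  inv_mem' := by
    rintro a ⟨a1, a2⟩
    refine ⟨fun i w => ?_, fun w => ?_⟩
    · change a.symm _ = T.sg i (a.symm w)
      apply a.injective
      rw [a1]
      simp
    · change T.ty (a.symm w) = _
      rw [← a2]
      simp

lemma CT.grp_free (g : T.graph ≃g T.graph) (hg : g ∈ T.grp) (v : V) (h : g v = v) : g = 1 := by
  ext w
  exact T.comm_ext (g' := id) hg.1 (fun _ _ => rfl) h w

lemma CT.grp_trans (s v : V) (h : T.ty s = T.ty v) : ∃ g ∈ T.grp, g s = v := by
  obtain ⟨a, a0, a1⟩ := T.exists_map s v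
  obtain ⟨b, b0, b1⟩ := T.exists_map v s
  have hab : ∀ w, a (b w) = w :=
    T.comm_ext (g := fun w => a (b w)) (g' := id) (fun i w => by simp only [b1, a1])
      (fun _ _ => rfl) (v := v) (by simp only [b0, a0, id])
  have hba : ∀ w, b (a w) = w :=
    T.comm_ext (g := fun w => b (a w)) (g' := id) (fun i w => by simp only [b1, a1])
      (fun _ _ => rfl) (v := s) (by simp only [b0, a0, id])
  refine ⟨⟨⟨a, b, hba, hab⟩, ?_⟩, ⟨a1, ?_⟩, a0⟩
  · intro u w
    constructor
    · rintro ⟨i, hi⟩
      refine ⟨i, ?_⟩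
      have := congrArg b hi
      simp only [Equiv.coe_fn_mk, b1, hba] at this
      exact this
    · rintro ⟨i, rfl⟩
      exact ⟨i, a1 i u⟩
  · exact T.induct' (P := fun w => T.ty (a w) = T.ty w) (v := s) (by rw [a0, h])
      (fun w i hw => by rw [a1, T.ty_sg, T.ty_sg, hw])

lemma CT.grp_orbits : ∃ S : Finset V, ∀ v : V, ∃ g ∈ T.grp, ∃ s ∈ S, g s = v := by
  classical
  refine ⟨insert T.o (univ.image fun i => T.sg i T.o), fun v => ?_⟩
  rcases h : T.ty v with _ | j
  · obtain ⟨g, hg, hs⟩ := T.grp_trans T.o v (by rw [h, T.ty_o])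
    exact ⟨g, hg, _, mem_insert_self _ _, hs⟩
  · obtain ⟨g, hg, hs⟩ := T.grp_trans (T.sg j T.o) v (by rw [h, T.ty_sg, T.ty_o]; rfl)
    exact ⟨g, hg, _, mem_insert_of_mem (mem_image_of_mem _ (mem_univ j)), hs⟩

end graph

/-- vertices of the finite graph -/
abbrev V0 := Option (Fin 3) × Bool

/-- darts of the finite graph -/
abbrev D0 := V0 × Fin 3

/-- reversal of darts -/
def rev (d : D0) : D0 := ((tau d.2 d.1.1, !d.1.2), d.2)

lemma rev_rev (d : D0) : rev (rev d) = d := by
  obtain ⟨⟨t, s⟩, i⟩ := d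
  simp [rev, tau_tau]

lemma rev_ne (d : D0) : rev d ≠ d := by
  obtain ⟨⟨t, s⟩, i⟩ := d
  simp [rev]

/-- base vertex -/
def v0 : V0 := (none, true)

/-- non-backtracking paths -/
def SS : Set (List D0) := {l | (∀ d ∈ l.head?, d.1 = v0) ∧
  ∀ (i : ℕ) (d e : D0), l[i]? = some d → l[i+1]? = some e → (e.1 = (rev d).1 ∧ e ≠ rev d)}

/-- end point of a path -/
def ep (l : List D0) : V0 := (l.getLast?.map (fun d => (rev d).1)).getD v0

/-- colour of the last dart -/
def lst (l : List D0) : Option (Fin 3) := l.getLast?.map Prod.snd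

lemma mem_SS (l : List D0) : l ∈ SS ↔ (∀ d ∈ l.head?, d.1 = v0) ∧
    l.IsChain fun d e => e.1 = (rev d).1 ∧ e ≠ rev d := by
  refine and_congr_right fun _ => ?_
  rw [List.isChain_iff_getElem]
  constructor
  · intro h i hi
    exact h i _ _ (List.getElem?_eq_getElem (by omega)) (List.getElem?_eq_getElem hi)
  · intro h i d e hd he
    obtain ⟨h1, rfl⟩ := List.getElem?_eq_some_iff.1 hd
    obtain ⟨h2, rfl⟩ := List.getElem?_eq_some_iff.1 he
    exact h i h2

lemma concat_mem (l : List D0) (d : D0) :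
    l ++ [d] ∈ SS ↔ l ∈ SS ∧ d.1 = ep l ∧ lst l ≠ some d.2 := by
  rw [mem_SS, mem_SS, List.isChain_append]
  rcases List.eq_nil_or_concat l with rfl | ⟨l', e, rfl⟩
  · simp [ep, lst]
  · have h1 : (l'.concat e ++ [d]).head? = (l'.concat e).head? := by
      cases l' <;> simp
    have h2 : (d.1 = (rev e).1 ∧ d ≠ rev e) ↔ (d.1 = (rev e).1 ∧ e.2 ≠ d.2) := by
      refine and_congr_right fun h => not_congr ?_
      rw [Prod.ext_iff]
      simp [h, rev, eq_comm]
    rw [h1]
    simp only [List.concat_eq_append, List.isChain_singleton, List.getLast?_concat, Option.mem_def,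
      Option.some.injEq, List.head?_cons, forall_eq', true_and, ep, lst, Option.map_some,
      Option.getD_some, ne_eq, h2, and_assoc]

lemma ep_concat (l : List D0) (d : D0) : ep (l ++ [d]) = (rev d).1 := by simp [ep]

lemma lst_concat (l : List D0) (d : D0) : lst (l ++ [d]) = some d.2 := by simp [lst]

lemma of_lst {l : List D0} {i : Fin 3} (h : lst l = some i) :
    ∃ l' d, l = l' ++ [d] ∧ d.2 = i := by
  rcases List.eq_nil_or_concat l with rfl | ⟨l', e, rfl⟩
  · simp [lst] at h
  · refine ⟨l', e, by simp, ?_⟩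
    simpa [lst] using h

/-- one step on paths -/
def stp (i : Fin 3) (l : List D0) : List D0 :=
  if lst l = some i then l.dropLast else l ++ [(ep l, i)]

lemma stp_concat (l : List D0) (d : D0) : stp d.2 (l ++ [d]) = l := by
  simp [stp, lst_concat]

lemma stp_of_ne {i : Fin 3} {l : List D0} (h : lst l ≠ some i) : stp i l = l ++ [(ep l, i)] := by
  simp [stp, h]

lemma stp_mem (i : Fin 3) {l : List D0} (hl : l ∈ SS) : stp i l ∈ SS := by
  by_cases h : lst l = some i
  · obtain ⟨l', d, rfl, rfl⟩ := of_lst h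
    rw [stp_concat]
    exact ((concat_mem _ _).1 hl).1
  · rw [stp_of_ne h, concat_mem]
    exact ⟨hl, rfl, h⟩

/-- the path model -/
def model : CT SS where
  sg i x := ⟨stp i x.1, stp_mem i x.2⟩
  o := ⟨[], by simp [SS]⟩
  len x := x.1.length
  last x := lst x.1
  ty x := (ep x.1).1
  invol := by
    rintro i ⟨l, hl⟩
    apply Subtype.ext
    by_cases h : lst l = some i
    · obtain ⟨l', d, rfl, rfl⟩ := of_lst h
      obtain ⟨_, h2, h3⟩ := (concat_mem _ _).1 hl
      simp only [stp_concat, stp_of_ne h3, ← h2]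
    · simp only [stp_of_ne h]
      exact stp_concat l (ep l, i)
  down := by
    rintro i ⟨l, hl⟩ h
    simp only [stp_of_ne h, lst_concat]
    simp
  up := by
    rintro i ⟨l, hl⟩ h
    obtain ⟨l', d, rfl, rfl⟩ := of_lst h
    simp only [stp_concat]
    exact ((concat_mem _ _).1 hl).2.2
  root := by
    rintro ⟨l, hl⟩ h
    apply Subtype.ext
    simpa [lst] using h
  last_o := by simp [lst]
  ty_sg := by
    rintro i ⟨l, hl⟩
    by_cases h : lst l = some i
    · obtain ⟨l', d, rfl, rfl⟩ := of_lst h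
      obtain ⟨_, h2, h3⟩ := (concat_mem _ _).1 hl
      simp only [stp_concat, ep_concat, rev, tau_tau, h2]
    · simp only [stp_of_ne h, ep_concat, rev]
  ty_o := by simp [ep, v0]

lemma model_sum (f : SS → ℂ) (x : SS) :
    ∑' y : SS, (∑ d : D0, if (y.1 = x.1 ++ [d] ∨ x.1 = y.1 ++ [d]) then ((1:ℝ) : ℂ) else 0) * f y
      = ∑ i, f (model.sg i x) := by
  classical
  rw [tsum_eq_sum (s := univ.image fun i => model.sg i x), sum_image
    (fun i _ j _ h => model.sg_inj x h)]
  · refine sum_congr rfl fun i _ => ?_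
    have : (∑ d : D0, if ((model.sg i x).1 = x.1 ++ [d] ∨ x.1 = (model.sg i x).1 ++ [d])
        then ((1:ℝ) : ℂ) else 0) = 1 := by
      obtain ⟨l, hl⟩ := x
      change (∑ d : D0, if (stp i l = l ++ [d] ∨ l = stp i l ++ [d]) then ((1:ℝ) : ℂ) else 0) = 1
      by_cases h : lst l = some i
      · obtain ⟨l', e, rfl, rfl⟩ := of_lst h
        rw [stp_concat]
        have : ∀ d : D0, (l' = l' ++ [e] ++ [d] ∨ l' ++ [e] = l' ++ [d]) ↔ d = e := by
          intro d
          constructor
          · rintro (h | h)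
            · have := congrArg List.length h
              simp only [List.length_append, List.length_singleton] at this
              omega
            · exact (List.singleton_injective (List.append_cancel_left h)).symm
          · rintro rfl; exact Or.inr rfl
        simp only [this, sum_ite_eq', mem_univ, if_true, Complex.ofReal_one]
      · rw [stp_of_ne h]
        have : ∀ d : D0, (l ++ [(ep l, i)] = l ++ [d] ∨ l = l ++ [(ep l, i)] ++ [d])
            ↔ d = (ep l, i) := by
          intro d
          constructor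
          · rintro (h | h)
            · exact (List.singleton_injective (List.append_cancel_left h)).symm
            · have := congrArg List.length h
              simp only [List.length_append, List.length_singleton] at this
              omega
          · rintro rfl; exact Or.inl rfl
        simp only [this, sum_ite_eq', mem_univ, if_true, Complex.ofReal_one]
    rw [this, one_mul]
  · intro y hy
    rw [sum_eq_zero, zero_mul]
    intro d _
    rw [if_neg]
    obtain ⟨l, hl⟩ := x
    obtain ⟨k, hk⟩ := y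
    rintro (h | h)
    · simp only at h
      subst h
      obtain ⟨_, h2, h3⟩ := (concat_mem _ _).1 hk
      refine hy (mem_image.2 ⟨d.2, mem_univ _, Subtype.ext ?_⟩)
      change stp d.2 l = l ++ [d]
      rw [stp_of_ne h3, ← h2]
    · simp only at h
      subst h
      exact hy (mem_image.2 ⟨d.2, mem_univ _, Subtype.ext (stp_concat k d)⟩)

lemma G_connected : (SimpleGraph.fromRel
    (fun u v : V0 => ∃ d : D0, d.1 = u ∧ (rev d).1 = v)).Connected := by
  have adj : ∀ (u : V0) (i : Fin 3), (SimpleGraph.fromRel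
      (fun u v : V0 => ∃ d : D0, d.1 = u ∧ (rev d).1 = v)).Reachable u (rev (u, i)).1 := by
    intro u i
    apply SimpleGraph.Adj.reachable
    rw [SimpleGraph.fromRel_adj]
    refine ⟨?_, Or.inl ⟨(u, i), rfl, rfl⟩⟩
    obtain ⟨t, s⟩ := u
    simp [rev]
  have h : ∀ u : V0, (SimpleGraph.fromRel
      (fun u v : V0 => ∃ d : D0, d.1 = u ∧ (rev d).1 = v)).Reachable v0 u := by
    have a0 : _ := adj v0 0
    have a1 : _ := adj v0 1
    have a2 : _ := adj v0 2
    have b0 : _ := a0.trans (adj _ 1)
    have b1 : _ := a1.trans (adj _ 0)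
    have b2 : _ := a2.trans (adj _ 0)
    have c0 : _ := b0.trans (adj _ 0)
    rintro ⟨t, s⟩
    rcases t with _ | j
    · cases s
      · exact c0
      · exact SimpleGraph.Reachable.refl _
    · fin_cases j <;> cases s
      exacts [a0, b0, a1, b1, a2, b2]
  exact ⟨fun u v => (h u).symm.trans (h v)⟩

end Pool.Agent.H99.Borg
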