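import Pool.Agent.H99.UAlgMeas

open MeasureTheory Filter Topology
open scoped ENNReal NNReal

noncomputable section

namespace Pool.Agent.H99.UAlg

theorem gen_star_top {S : Type} [TopologicalSpace S] [CompactSpace S] {G : Set C(S, ℂ)}
    (hsep : ∀ s t : S, (∀ g ∈ G, g s = g t) → s = t) (f : C(S, ℂ)) : f ∈ gen (G ∪ star G) := by
  have h := ContinuousMap.starSubalgebra_topologicalClosure_eq_top_of_separatesPoints
    (StarAlgebra.adjoin ℂ G) (fun s t hst => by
      by_contra hn
      refine hst (hsep s t fun g hg => ?_)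
      by_contra hne
      exact hn ⟨g, ⟨g, StarAlgebra.subset_adjoin ℂ G hg, rfl⟩, hne⟩)
  have : f ∈ (StarAlgebra.adjoin ℂ G).topologicalClosure := h ▸ StarSubalgebra.mem_top
  exact this

abbrev Cir : Type := AddCircle (1 : ℝ)

abbrev hm : Measure Cir := AddCircle.haarAddCircle

theorem hm_single (x : Cir) : hm {x} = 0 := by
  have h1 := AddCircle.volume_closedBall (1 : ℝ) (x := x) 0
  rw [Metric.closedBall_zero, AddCircle.volume_eq_smul_haarAddCircle] at h1
  simpa using h1

theorem int_fourier {n : ℤ} (hn : n ≠ 0) : ∫ t, fourier n t ∂hm = 0 :=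
  integral_eq_zero_of_add_right_eq_neg (μ := hm) (fourier_add_half_inv_index hn one_pos)

theorem fourier_pow (a : ℕ) (t : Cir) : (fourier 1 t) ^ a = fourier a t := by
  induction a with
  | zero => simp
  | succ a ih => rw [pow_succ, ih, ← fourier_add]; push_cast; rfl

theorem fourier_mul_star (t : Cir) : fourier 1 t * star (fourier 1 t) = 1 := by
  have : star (fourier 1 t) = fourier (-1) t := fourier_neg.symm
  rw [this, ← fourier_add]; simp

theorem norm_eq_one_of {z : ℂ} (h : z * star z = 1) : ‖z‖ = 1 := by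
  have := congrArg norm h
  rw [norm_mul, norm_star, norm_one] at this
  nlinarith [norm_nonneg z]

theorem ae_fourier_ne : ∀ᵐ t ∂hm, fourier 1 t ≠ 1 := by
  rw [ae_iff]
  refine measure_mono_null (fun t ht => ?_) (hm_single 0)
  have ht' : fourier 1 t = 1 := not_not.1 ht
  rw [fourier_one] at ht'
  refine AddCircle.injective_toCircle one_ne_zero ?_
  rw [AddCircle.toCircle_zero]
  exact Subtype.ext ht'

/-- The bouquet of countably many closed disks glued at the centre. -/
def BS : Set (ℕ → ℂ) := {x | (∀ i, ‖x i‖ ≤ 1) ∧ ∀ i j, i ≠ j → x i * x j = 0}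

abbrev Bq : Type := BS

instance : CompactSpace Bq := by
  refine isCompact_iff_compactSpace.1 ?_
  refine (isCompact_univ_pi fun _ : ℕ => isCompact_closedBall (0 : ℂ) 1).of_isClosed_subset ?_ ?_
  · simp only [BS, Set.ofPred_and, Set.ofPred_forall]
    exact (isClosed_iInter fun i => isClosed_le (by fun_prop) continuous_const).inter
      (isClosed_iInter fun i => isClosed_iInter fun j => isClosed_iInter fun _ =>
        isClosed_eq (by fun_prop) continuous_const)
  · intro x hx i _
    simpa using hx.1 i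

@[fun_prop] theorem cont_coord (i : ℕ) : Continuous fun x : Bq => x.1 i :=
  (continuous_apply i).comp continuous_subtype_val

def X (i : ℕ) : C(Bq, ℂ) := ⟨fun x => x.1 i, cont_coord i⟩

@[simp] theorem X_apply (i : ℕ) (x : Bq) : X i x = x.1 i := rfl

theorem norm_X (i : ℕ) : ‖X i‖ ≤ 1 := (ContinuousMap.norm_le _ zero_le_one).2 fun x => x.2.1 i

def BA : Subalgebra ℂ C(Bq, ℂ) := gen (Set.range X)

theorem X_mem (i : ℕ) : X i ∈ BA := mem_gen ⟨i, rfl⟩

theorem X_sep (s t : Bq) (h : ∀ g ∈ Set.range X, g s = g t) : s = t :=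
  Subtype.ext (funext fun i => h _ ⟨i, rfl⟩)

def o : Bq := ⟨0, by simp [BS]⟩

def cc (t : ℝ) : ℝ := max 0 (min t 1)

theorem cc_norm (t : ℝ) : ‖(cc t : ℂ)‖ ≤ 1 := by
  rw [Complex.norm_real, Real.norm_eq_abs, abs_le]
  constructor
  · exact le_trans (by norm_num) (le_max_left _ _)
  · exact max_le zero_le_one (min_le_right _ _)

theorem cc_cont : Continuous cc := by unfold cc; fun_prop

def BH : C(ℝ × Bq, Bq) :=
  ⟨fun p => ⟨fun i => (cc p.1 : ℂ) * p.2.1 i, fun i => by
      rw [norm_mul]; exact mul_le_one₀ (cc_norm _) (norm_nonneg _) (p.2.2.1 i),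
      fun i j hij => by linear_combination (cc p.1 : ℂ) ^ 2 * p.2.2.2 i j hij⟩, by
    exact Continuous.subtype_mk (continuous_pi fun i =>
      (Complex.continuous_ofReal.comp (cc_cont.comp continuous_fst)).mul
        ((cont_coord i).comp continuous_snd)) _⟩

theorem adm_BA : Adm BA where
  closed := gen_closed _
  chars := chars_of (fun φ => ⟨⟨fun i => φ ⟨X i, X_mem i⟩, fun i =>
      (alg_norm_le (gen_closed _) φ _).trans (norm_X i), fun i j hij => by
        rw [← map_mul]
        have : (⟨X i, X_mem i⟩ * ⟨X j, X_mem j⟩ : gen (Set.range X)) = 0 :=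
          Subtype.ext (ContinuousMap.ext fun x => x.2.2 i j hij)
        rw [this, map_zero]⟩, by rintro _ ⟨i, rfl⟩; rfl⟩) X_sep
  exps := exps_of (gen_closed _) BH.curry BH.curry.continuous
    (fun t => comp_mem _ (by
      rintro _ ⟨i, rfl⟩
      have : (X i).comp (BH.curry t) = (cc t : ℂ) • X i := ContinuousMap.ext fun x => rfl
      rw [this]
      exact Subalgebra.smul_mem _ (X_mem i) _)) 0 1 o
    (fun s => Subtype.ext (funext fun i => by simp [BH, cc, o]))
    (fun s => Subtype.ext (funext fun i => by simp [BH, cc]))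

def emb (n : ℕ) : C(Cir, Bq) :=
  ⟨fun t => ⟨Pi.single n (fourier 1 t), fun i => by
      by_cases h : i = n
      · subst h; simp [Circle.norm_coe]
      · simp [h], fun i j hij => by
      by_cases h : i = n
      · subst h; simp [hij.symm]
      · simp [h]⟩, by
    refine Continuous.subtype_mk ?_ _
    exact (continuous_single n).comp (fourier 1).continuous⟩

@[simp] theorem emb_self (n : ℕ) (t : Cir) : (emb n t).1 n = fourier 1 t := by simp [emb]

theorem emb_ne {n i : ℕ} (h : i ≠ n) (t : Cir) : (emb n t).1 i = 0 := by simp [emb, h]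

/-- Normalized arc length on the `n`-th circle. -/
def lam (n : ℕ) : Measure Bq := hm.map (emb n)

instance (n : ℕ) : IsProbabilityMeasure (lam n) :=
  Measure.isProbabilityMeasure_map (emb n).continuous.measurable.aemeasurable

theorem int_lam (n : ℕ) (f : C(Bq, ℂ)) : ∫ x, f x ∂lam n = ∫ t, f (emb n t) ∂hm :=
  integral_map (emb n).continuous.measurable.aemeasurable f.continuous.aestronglyMeasurable

theorem ae_lam {n : ℕ} {p : Bq → Prop} (hp : MeasurableSet {x | p x})
    (h : ∀ᵐ t ∂hm, p (emb n t)) : ∀ᵐ x ∂lam n, p x :=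
  (ae_map_iff (emb n).continuous.measurable.aemeasurable hp).2 h

theorem ae_lam_on (n : ℕ) : ∀ᵐ x ∂lam n, x.1 n * star (x.1 n) = 1 ∧ ∀ i, i ≠ n → x.1 i = 0 := by
  refine ae_lam ?_ (Eventually.of_forall fun t =>
    ⟨by rw [emb_self, fourier_mul_star], fun i hi => emb_ne hi t⟩)
  simp only [Set.ofPred_and, Set.ofPred_forall]
  exact ((isClosed_eq ((cont_coord n).mul (cont_coord n).star) continuous_const).inter
    (isClosed_iInter fun i =>
    isClosed_iInter fun _ => isClosed_eq (cont_coord i) continuous_const)).measurableSet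

theorem ae_lam_ne (n : ℕ) : ∀ᵐ x ∂lam n, x.1 n ≠ 1 :=
  ae_lam (isClosed_eq (cont_coord n) continuous_const).isOpen_compl.measurableSet
    (by simpa only [emb_self] using ae_fourier_ne)

def Mon (f : C(Bq, ℂ)) : Prop :=
  f = 0 ∨ f = 1 ∨ ∃ i a b, 0 < a + b ∧ f = X i ^ a * star (X i) ^ b

theorem mon_mul {f g : C(Bq, ℂ)} (hf : Mon f) (hg : Mon g) : Mon (f * g) := by
  rcases hf with rfl | rfl | ⟨i, a, b, hab, rfl⟩
  · left; simp
  · simpa using hg
  rcases hg with rfl | rfl | ⟨j, c, d, hcd, rfl⟩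
  · left; simp
  · right; right; exact ⟨i, a, b, hab, by simp⟩
  by_cases hij : i = j
  · subst hij
    right; right; exact ⟨i, a + c, b + d, by omega, by ring⟩
  · left
    ext x
    have hz : ∀ (k a b : ℕ), 0 < a + b → x.1 k = 0 → (X k ^ a * star (X k) ^ b) x = 0 := by
      intro k a b hab hk
      rcases Nat.eq_zero_or_pos a with rfl | ha
      · have : b ≠ 0 := by omega
        simp [hk, this]
      · simp [hk, ha.ne']
    rcases mul_eq_zero.1 (x.2.2 i j hij) with h | h
    · rw [ContinuousMap.mul_apply, hz i a b hab h]; simp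
    · rw [ContinuousMap.mul_apply, hz j c d hcd h]; simp

def ind (i : ℕ) : C(Bq, ℂ) := X i * star (X i)

def OnY (x : Bq) : Prop := ∀ i, x.1 i = 0 ∨ x.1 i * star (x.1 i) = 1

theorem GEN {M : Submodule ℂ C(Bq, ℂ)} (hM : IsClosed (M : Set C(Bq, ℂ))) (hA : AA BA ≤ M)
    (he : ∀ i, ind i ∈ M) (hY : ∀ f : C(Bq, ℂ), (∀ x, OnY x → f x = 0) → f ∈ M) : M = ⊤ := by
  refine eq_top_iff.2 fun f _ => gen_le_sub hM (fun g hg => ?_) f (gen_star_top X_sep f)
  have hmon : Mon g := by
    induction hg using Submonoid.closure_induction with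
    | mem g hg =>
      rcases hg with ⟨i, rfl⟩ | hg
      · right; right; exact ⟨i, 1, 0, by simp, by simp⟩
      · obtain ⟨i, hi⟩ := Set.mem_star.1 hg
        right; right; exact ⟨i, 0, 1, by simp, by simp [hi]⟩
    | one => right; left; rfl
    | mul f g _ _ hf hg => exact mon_mul hf hg
  have red : ∀ u v : C(Bq, ℂ), v ∈ M → (∀ x, OnY x → u x = v x) → u ∈ M := by
    intro u v hv h
    have := M.add_mem hv (hY (u - v) fun x hx => by simp [h x hx])
    simpa using this
  rcases hmon with rfl | rfl | ⟨i, a, b, hab, rfl⟩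
  · exact M.zero_mem
  · exact hA (mem_AA BA.one_mem)
  rcases lt_trichotomy a b with h | rfl | h
  · obtain ⟨c, rfl⟩ := Nat.exists_eq_add_of_lt h
    refine red _ _ (hA (star_mem_AA (BA.pow_mem (X_mem i) (c + 1)))) fun x hx => ?_
    rcases hx i with h0 | h1
    · simp [h0]
    · simp only [ContinuousMap.mul_apply, ContinuousMap.pow_apply, ContinuousMap.star_apply,
        X_apply, star_pow]
      calc _ = (x.1 i * star (x.1 i)) ^ a * star (x.1 i) ^ (c + 1) := by ring
        _ = _ := by rw [h1]; simp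
  · refine red _ _ (he i) fun x hx => ?_
    rcases hx i with h0 | h1
    · have : a ≠ 0 := by omega
      simp [h0, ind, this]
    · simp only [ind, ContinuousMap.mul_apply, ContinuousMap.pow_apply, ContinuousMap.star_apply,
        X_apply]
      rw [← mul_pow, h1, one_pow]
  · obtain ⟨c, rfl⟩ := Nat.exists_eq_add_of_lt h
    refine red _ _ (hA (mem_AA (BA.pow_mem (X_mem i) (c + 1)))) fun x hx => ?_
    rcases hx i with h0 | h1
    · simp [h0]
    · simp only [ContinuousMap.mul_apply, ContinuousMap.pow_apply, ContinuousMap.star_apply,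
        X_apply]
      calc _ = (x.1 i * star (x.1 i)) ^ b * x.1 i ^ (c + 1) := by ring
        _ = _ := by rw [h1]; simp

/-- The functional `f ↦ ∫ f dν` on continuous functions. -/
def intL {S : Type} [TopologicalSpace S] [CompactSpace S] [MeasurableSpace S] [BorelSpace S]
    (ν : Measure S) [IsFiniteMeasure ν] : C(S, ℂ) →L[ℂ] ℂ :=
  (L1.integralCLM' ℂ).comp (ContinuousMap.toLp 1 ν ℂ)

theorem intL_apply {S : Type} [TopologicalSpace S] [CompactSpace S] [MeasurableSpace S]
    [BorelSpace S] (ν : Measure S) [IsFiniteMeasure ν] (f : C(S, ℂ)) :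
    intL ν f = ∫ s, f s ∂ν := by
  simp only [intL, ContinuousLinearMap.comp_apply, ← L1.integral_eq', L1.integral_eq_integral]
  exact integral_congr_ae (ContinuousMap.coeFn_toLp (p := 1) (μ := ν) (𝕜 := ℂ) f)

theorem int_lam_BA (n : ℕ) : ∀ f ∈ BA, ∫ x, f x ∂lam n = f o := by
  let T : C(Bq, ℂ) →L[ℂ] ℂ := intL (lam n) - ContinuousMap.evalCLM (R := ℂ) o
  have hT : ∀ f, T f = ∫ x, f x ∂lam n - f o := fun f => by simp [T, intL_apply]
  intro f hf
  have : f ∈ T.ker := by
    refine gen_le_sub T.isClosed_ker (fun g hg => ?_) f hf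
    have hmon : g = 0 ∨ g = 1 ∨ ∃ i a, 0 < a ∧ g = X i ^ a := by
      induction hg using Submonoid.closure_induction with
      | mem g hg =>
        obtain ⟨i, rfl⟩ := hg
        right; right; exact ⟨i, 1, by simp, by simp⟩
      | one => right; left; rfl
      | mul f g _ _ hf hg =>
        rcases hf with rfl | rfl | ⟨i, a, ha, rfl⟩
        · left; simp
        · simpa using hg
        rcases hg with rfl | rfl | ⟨j, c, hc, rfl⟩
        · left; simp
        · right; right; exact ⟨i, a, ha, by simp⟩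
        by_cases hij : i = j
        · subst hij
          right; right; exact ⟨i, a + c, by omega, by ring⟩
        · left
          ext x
          rcases mul_eq_zero.1 (x.2.2 i j hij) with h | h
          · simp [h, ha.ne']
          · simp [h, hc.ne']
    show T g = 0
    rw [hT, int_lam]
    rcases hmon with rfl | rfl | ⟨i, a, ha, rfl⟩
    · simp
    · simp
    · by_cases hi : i = n
      · subst hi
        simp only [ContinuousMap.pow_apply, X_apply, emb_self, fourier_pow]
        rw [int_fourier (by omega)]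
        simp [o, ha.ne']
      · simp [emb_ne hi, o, ha.ne']
  have h2 : T f = 0 := this
  rw [hT] at h2
  exact sub_eq_zero.1 h2

theorem int_lam_AA (m n : ℕ) : ∀ f ∈ AA BA, ∫ x, f x ∂lam m = ∫ x, f x ∂lam n := by
  rintro _ ⟨f, hf, g, hg, rfl⟩
  rw [int_AA, int_AA, int_lam_BA m f hf, int_lam_BA m g hg, int_lam_BA n f hf, int_lam_BA n g hg]

theorem int_ind_self (n : ℕ) : ∫ x, ind n x ∂lam n = 1 := by
  rw [int_lam]
  simp only [ind, ContinuousMap.mul_apply, ContinuousMap.star_apply, X_apply, emb_self,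
    fourier_mul_star]
  simp

theorem int_ind_ne {n i : ℕ} (h : i ≠ n) : ∫ x, ind i x ∂lam n = 0 := by
  rw [int_lam]
  simp [ind, emb_ne h]

theorem poisson (i : ℕ) (ε : ℝ) (hε : 0 < ε) : ∃ u : C(Bq, ℂ), ind i - u ∈ AA BA ∧
    (∀ x : Bq, x.1 i = 0 → u x = 0) ∧
    ∀ x : Bq, x.1 i * star (x.1 i) = 1 → ∃ p : ℝ, 0 ≤ p ∧ u x = p ∧ p * ‖1 - x.1 i‖ ^ 2 ≤ ε := by
  obtain ⟨r, hr0, hr1, hr⟩ : ∃ r : ℝ, 0 ≤ r ∧ r < 1 ∧ 8 * (1 - r) ≤ ε :=
    ⟨max 0 (1 - ε / 8), le_max_left _ _, max_lt one_pos (by linarith),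
      by linarith [le_max_right 0 (1 - ε / 8)]⟩
  obtain ⟨g, hg, hg'⟩ := geom_mem adm_BA.closed (k := (r : ℂ) • X i)
    (BA.smul_mem (X_mem i) _) (by
      rw [norm_smul, Complex.norm_real, Real.norm_of_nonneg hr0]
      exact (mul_le_of_le_one_right hr0 (norm_X i)).trans_lt hr1)
  refine ⟨ind i + g + star g - 2, ⟨2 - g, BA.sub_mem (by exact_mod_cast BA.natCast_mem 2) hg, -g,
    BA.neg_mem hg, by simp only [star_neg]; abel⟩, fun x hx => ?_, fun x hx => ?_⟩
  · have e3 : (2 : C(Bq, ℂ)) x = 2 := rfl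
    simp [ind, hg', hx, e3]; norm_num
  · have hz := norm_eq_one_of hx
    set z := x.1 i with hzdef
    have h1 : 1 - r ≤ ‖1 - (r : ℂ) * z‖ := by
      have := norm_sub_norm_le (1 : ℂ) ((r : ℂ) * z)
      rwa [norm_one, norm_mul, hz, mul_one, Complex.norm_real, Real.norm_of_nonneg hr0] at this
    have hpos : 0 < ‖1 - (r : ℂ) * z‖ := by linarith
    have hne : 1 - (r : ℂ) * z ≠ 0 := norm_pos_iff.1 hpos
    have hne' : 1 - (r : ℂ) * star z ≠ 0 := by
      intro h
      apply hne
      simpa using congrArg star h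
    have h2 : ‖1 - z‖ ≤ 2 * ‖1 - (r : ℂ) * z‖ := by
      have e : 1 - z = (1 - (r : ℂ) * z) - ((1 - r : ℝ) : ℂ) * z := by push_cast; ring
      rw [e]
      refine (norm_sub_le _ _).trans ?_
      rw [norm_mul, hz, mul_one, Complex.norm_real, Real.norm_of_nonneg (by linarith)]
      linarith
    refine ⟨(1 - r ^ 2) / ‖1 - (r : ℂ) * z‖ ^ 2, div_nonneg (by nlinarith) (by positivity), ?_, ?_⟩
    · have e : ((‖1 - (r : ℂ) * z‖ : ℝ) : ℂ) ^ 2 = (1 - (r : ℂ) * z) * (1 - (r : ℂ) * star z) := by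
        rw [← Complex.mul_conj']
        simp
      simp only [ind, ContinuousMap.sub_apply, ContinuousMap.add_apply, ContinuousMap.mul_apply,
        ContinuousMap.star_apply, X_apply, hg', ContinuousMap.smul_apply, smul_eq_mul, ← hzdef, hx]
      push_cast
      rw [e]
      have e2 : star (1 - (r : ℂ) * z)⁻¹ = (1 - (r : ℂ) * star z)⁻¹ := by simp
      have e3 : (2 : C(Bq, ℂ)) x = 2 := rfl
      rw [e2, e3]
      field_simp
      linear_combination (-(r : ℂ) ^ 2) * hx
    · rw [div_mul_eq_mul_div, div_le_iff₀ (by positivity)]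
      have h3 : ‖1 - z‖ ^ 2 ≤ 4 * ‖1 - (r : ℂ) * z‖ ^ 2 := by nlinarith [norm_nonneg (1 - z)]
      have h4 : 1 - r ^ 2 ≤ 2 * (1 - r) := by nlinarith
      have h5 : 0 ≤ 1 - r ^ 2 := by nlinarith
      calc (1 - r ^ 2) * ‖1 - z‖ ^ 2 ≤ (2 * (1 - r)) * (4 * ‖1 - (r : ℂ) * z‖ ^ 2) := by
            gcongr
        _ = (8 * (1 - r)) * ‖1 - (r : ℂ) * z‖ ^ 2 := by ring
        _ ≤ _ := by gcongr

end Pool.Agent.H99.UAlg
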