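import Pool.Agent.H99.Bouquet

open MeasureTheory Filter Topology
open scoped ENNReal NNReal

noncomputable section

namespace Pool.Agent.H99.UAlg

/-- Arc length on the `n`-th circle with the weight `|1 - z|^2`. -/
def om (n : ℕ) : Measure Bq := (lam n).withDensity fun x => ‖1 - x.1 n‖ₑ ^ 2

theorem meas_w (n : ℕ) : Measurable fun x : Bq => ‖1 - x.1 n‖ₑ ^ 2 :=
  ((continuous_const.sub (cont_coord n)).measurable.enorm).pow_const 2

theorem om_univ (n : ℕ) : om n Set.univ ≤ 4 := by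
  rw [om, withDensity_apply _ MeasurableSet.univ, Measure.restrict_univ]
  calc _ ≤ ∫⁻ _, 4 ∂lam n := lintegral_mono fun x => by
        have h : ‖1 - x.1 n‖ ≤ 2 := (norm_sub_le _ _).trans (by linarith [x.2.1 n, norm_one (α := ℂ)])
        have h2 : ‖1 - x.1 n‖ₑ ≤ 2 := by
          rw [← ofReal_norm]
          exact (ENNReal.ofReal_le_ofReal h).trans (by simp)
        calc ‖1 - x.1 n‖ₑ ^ 2 ≤ 2 ^ 2 := by gcongr
          _ = 4 := by norm_num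
    _ = 4 := by simp

instance (n : ℕ) : IsFiniteMeasure (om n) := ⟨(om_univ n).trans_lt (by simp)⟩

theorem om_ac (n : ℕ) : om n ≪ lam n := withDensity_absolutelyContinuous _ _

theorem lam_ac (n : ℕ) : lam n ≪ om n := by
  refine withDensity_absolutelyContinuous' (meas_w n).aemeasurable ?_
  filter_upwards [ae_lam_ne n] with x hx
  have : (1 : ℂ) - x.1 n ≠ 0 := sub_ne_zero.2 hx.symm
  simpa using this

theorem ae_om_on (n : ℕ) : ∀ᵐ x ∂om n, x.1 n * star (x.1 n) = 1 ∧ ∀ i, i ≠ n → x.1 i = 0 :=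
  (om_ac n).ae_le (ae_lam_on n)

theorem onY_of {n : ℕ} {x : Bq} (h : x.1 n * star (x.1 n) = 1 ∧ ∀ i, i ≠ n → x.1 i = 0) :
    OnY x := fun i => by
  by_cases hi : i = n
  · right; rw [hi]; exact h.1
  · left; exact h.2 i hi

def Sm (i : ℕ) (ε : ℝ) (u : C(Bq, ℂ)) : Prop :=
  (∀ x : Bq, x.1 i = 0 → u x = 0) ∧
    ∀ x : Bq, x.1 i * star (x.1 i) = 1 → ∃ p : ℝ, 0 ≤ p ∧ u x = p ∧ p * ‖1 - x.1 i‖ ^ 2 ≤ ε

theorem lint_zero {i : ℕ} {ε : ℝ} {u : C(Bq, ℂ)} (hu : Sm i ε u) {ν : Measure Bq}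
    (h : ∀ᵐ x ∂ν, x.1 i = 0) : ∫⁻ x, ‖u x‖ₑ ∂ν = 0 := by
  rw [← lintegral_zero (μ := ν)]
  refine lintegral_congr_ae ?_
  filter_upwards [h] with x hx
  simp [hu.1 x hx]

theorem lint_om_ne {i n : ℕ} {ε : ℝ} {u : C(Bq, ℂ)} (hu : Sm i ε u) (h : n ≠ i) :
    ∫⁻ x, ‖u x‖ₑ ∂om n = 0 :=
  lint_zero hu ((ae_om_on n).mono fun _ hx => hx.2 i h.symm)

theorem lint_om_le {i : ℕ} (n : ℕ) {ε : ℝ} {u : C(Bq, ℂ)} (hu : Sm i ε u) :
    ∫⁻ x, ‖u x‖ₑ ∂om n ≤ ENNReal.ofReal ε := by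
  by_cases h : n = i
  · subst h
    rw [om, lintegral_withDensity_eq_lintegral_mul _ (meas_w n) u.continuous.measurable.enorm]
    calc _ ≤ ∫⁻ _, ENNReal.ofReal ε ∂lam n := by
          refine lintegral_mono_ae ?_
          filter_upwards [ae_lam_on n] with x hx
          obtain ⟨p, hp0, hp, hpe⟩ := hu.2 x hx.1
          simp only [Pi.mul_apply]
          rw [hp, ← ofReal_norm, ← ofReal_norm, ← ENNReal.ofReal_pow (norm_nonneg _),
            ← ENNReal.ofReal_mul (by positivity), Complex.norm_real, Real.norm_of_nonneg hp0]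
          exact ENNReal.ofReal_le_ofReal (by linarith)
      _ = _ := by simp
  · rw [lint_om_ne hu h]; exact zero_le

theorem int_norm_le {μ : Measure Bq} {u : C(Bq, ℂ)} {δ : ℝ} (hδ : 0 ≤ δ)
    (h : ∫⁻ x, ‖u x‖ₑ ∂μ ≤ ENNReal.ofReal δ) : ∫ x, ‖u x‖ ∂μ ≤ δ := by
  rw [integral_norm_eq_lintegral_enorm u.continuous.aestronglyMeasurable]
  exact ENNReal.toReal_le_of_le_ofReal hδ h

theorem ind_mem_Lcl {μ : FiniteMeasure Bq} {i : ℕ}
    (h : ∀ ε > 0, ∀ u, Sm i ε u → ∫⁻ x, ‖u x‖ₑ ∂(μ : Measure Bq) ≤ ENNReal.ofReal (2 * ε)) :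
    ind i ∈ Lcl BA μ := by
  refine mem_Lcl_of_approx fun ε hε => ?_
  obtain ⟨u, hu, hs⟩ := poisson i (ε / 3) (by positivity)
  refine ⟨_, hu, ?_⟩
  have := int_norm_le (by positivity) (h _ (by positivity) u hs)
  simp only [ContinuousMap.sub_apply, sub_sub_cancel]
  linarith

theorem Lcl_top {μ : FiniteMeasure Bq} (hY : ∀ᵐ x ∂(μ : Measure Bq), OnY x)
    (he : ∀ i, ind i ∈ Lcl BA μ) : Lcl BA μ = ⊤ :=
  GEN (Lcl_closed _ _) (AA_le_Lcl _ _) he fun _ hf =>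
    mem_Lcl_of_ae (Submodule.zero_mem _) (hY.mono fun x hx => hf x hx)

end Pool.Agent.H99.UAlg
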