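import Mathlib

set_option autoImplicit false

open MeasureTheory Metric
open scoped ContDiff

namespace H99.Bub

/-- `ℝ ^ 3` with the Euclidean norm (domain and target). -/
abbrev E := EuclideanSpace ℝ (Fin 3)

/-- `3 × 3` matrices with the Euclidean (Frobenius) norm; the entry `(i, α)` of a gradient is the
derivative of the component `α` in the direction `i`. -/
abbrev Mt := EuclideanSpace ℝ (Fin 3 × Fin 3)

/-- The derivative of `φ` in the `i`-th coordinate direction. -/
noncomputable def pd (φ : E → ℝ) (i : Fin 3) (x : E) : ℝ :=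
  fderiv ℝ φ x (EuclideanSpace.single i 1)

/-- Smooth functions with compact support in the open unit ball. -/
def Test (φ : E → ℝ) : Prop :=
  ContDiff ℝ ∞ φ ∧ HasCompactSupport φ ∧ tsupport φ ⊆ ball 0 1

/-- `u` lies in `W^{1,p}(B_1, ℝ ^ 3)` with weak gradient `G`. -/
def W1p (p : ℝ) (u : E → E) (G : E → Mt) : Prop :=
  MemLp u (ENNReal.ofReal p) (volume.restrict (ball 0 1)) ∧
    MemLp G (ENNReal.ofReal p) (volume.restrict (ball 0 1)) ∧
      ∀ φ, Test φ → ∀ i α, ∫ x in ball 0 1, u x α * pd φ i x = -∫ x in ball 0 1, G x (i, α) * φ x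

/-- `u` (with weak gradient `G`) is a weak solution of `Δ u = Q (x, u, ∇ u)` in `B_1`; the vector
test function has the components `φ α`. -/
def Weak (Q : E → E → Mt → E) (u : E → E) (G : E → Mt) : Prop :=
  ∀ φ : Fin 3 → E → ℝ, (∀ α, Test (φ α)) →
    -∫ x in ball 0 1, ∑ i, ∑ α, G x (i, α) * pd (φ α) i x =
      ∫ x in ball 0 1, ∑ α, Q x (u x) (G x) α * φ α x

/-- The Morrey quantity `r ^ (p - 3)` times the integral of `|G| ^ p` over the ball. -/
noncomputable def Mq (p : ℝ) (G : E → Mt) (x0 : E) (r : ℝ) : ENNReal :=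
  (∫⁻ x in ball x0 r, ‖G x‖ₑ ^ p) / ENNReal.ofReal (r ^ (3 - p))

end H99.Bub
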