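import Mathlib

set_option autoImplicit false

open MeasureTheory Set
open scoped InnerProductSpace ContDiff

namespace H99.Mor

/-- Euclidean space of dimension three. -/
abbrev E := EuclideanSpace ℝ (Fin 3)

/-- `G` is a weak gradient of `u`. -/
def WG (u : E → ℝ) (G : E → E) : Prop :=
  ∀ φ : E → ℝ, ContDiff ℝ ∞ φ → HasCompactSupport φ → ∀ v : E,
    ∫ y, u y * fderiv ℝ φ y v = -∫ y, ⟪G y, v⟫_ℝ * φ y

/-- `u` (the continuous representative) lies in `D^{1,p}_0(Ω)`, with weak gradient `G`. -/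
def D (p : ℝ) (Ω : Set E) (u : E → ℝ) (G : E → E) : Prop :=
  Continuous u ∧ (∀ x, x ∉ Ω → u x = 0) ∧ MemLp G (ENNReal.ofReal p) ∧ WG u G

/-- The supremum over `Ω` of `|u| / d ^ (1 - 3 / p)`, `d` the distance to the complement. -/
noncomputable def S (p : ℝ) (Ω : Set E) (u : E → ℝ) : ENNReal :=
  ⨆ x ∈ Ω, ‖u x / Metric.infDist x Ωᶜ ^ (1 - 3 / p)‖ₑ

/-- The Hardy-Morrey quotient. -/
noncomputable def Rq (p : ℝ) (Ω : Set E) (u : E → ℝ) (G : E → E) : ENNReal :=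
  eLpNorm G (ENNReal.ofReal p) ^ p / S p Ω u ^ p

/-- `u` is an extremal: a nonzero minimiser of the quotient. -/
def Ext (p : ℝ) (Ω : Set E) (u : E → ℝ) : Prop :=
  u ≠ 0 ∧ ∃ G, D p Ω u G ∧ ∀ w H, D p Ω w H → w ≠ 0 → Rq p Ω u G ≤ Rq p Ω w H

end H99.Mor
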