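import Mathlib
import Pool.Agent.H99.Mor0

set_option autoImplicit false

open MeasureTheory Set Filter Topology Metric
open scoped InnerProductSpace ContDiff

namespace H99.Mor

variable {p : ℝ} {u w : E → ℝ} {G H : E → E}

lemma int1 (hu : Continuous u) {φ : E → ℝ} (hφ : Continuous φ) (hc : HasCompactSupport φ) :
    Integrable fun y => u y * φ y :=
  (hu.mul hφ).integrable_of_hasCompactSupport hc.mul_left

lemma intD (hu : Continuous u) {φ : E → ℝ} (hφ : ContDiff ℝ ∞ φ) (hc : HasCompactSupport φ)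
    (v : E) : Integrable fun y => u y * fderiv ℝ φ y v :=
  int1 hu ((hφ.continuous_fderiv (by simp)).clm_apply continuous_const) (hc.fderiv_apply ℝ v)

lemma int2 (hp : 1 ≤ p) (hG : MemLp G (ENNReal.ofReal p)) {φ : E → ℝ} (hφ : Continuous φ)
    (hc : HasCompactSupport φ) (v : E) : Integrable fun y => ⟪G y, v⟫_ℝ * φ y := by
  have h := (hG.inner_const (𝕜 := ℝ) v).locallyIntegrable (by simpa using hp)
  simpa using h.integrable_smul_right_of_hasCompactSupport hφ hc

lemma WG.congr (h : WG u G) (e : G =ᵐ[volume] H) : WG u H := fun φ a b v => by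
  rw [h φ a b v]; congr 1
  exact integral_congr_ae (e.mono fun y hy => by simp only [hy])

lemma WG.lin (hp : 1 ≤ p) (hu : Continuous u) (hw : Continuous w) (hG : MemLp G (ENNReal.ofReal p))
    (hH : MemLp H (ENNReal.ofReal p)) (h : WG u G) (k : WG w H) (a b : ℝ) :
    WG (fun y => a * u y + b * w y) fun y => a • G y + b • H y := fun φ c d v => by
  have e1 : ∫ y, (a * u y + b * w y) * fderiv ℝ φ y v =
      a * (∫ y, u y * fderiv ℝ φ y v) + b * ∫ y, w y * fderiv ℝ φ y v := by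
    rw [← integral_const_mul, ← integral_const_mul,
      ← integral_add ((intD hu c d v).const_mul a) ((intD hw c d v).const_mul b)]
    congr 1; funext y; ring
  have e2 : ∫ y, ⟪a • G y + b • H y, v⟫_ℝ * φ y =
      a * (∫ y, ⟪G y, v⟫_ℝ * φ y) + b * ∫ y, ⟪H y, v⟫_ℝ * φ y := by
    rw [← integral_const_mul, ← integral_const_mul, ← integral_add
      ((int2 hp hG c.continuous d v).const_mul a) ((int2 hp hH c.continuous d v).const_mul b)]
    congr 1; funext y; rw [inner_add_left, real_inner_smul_left, real_inner_smul_left]; ring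
  rw [e1, e2, h φ c d v, k φ c d v]; ring

lemma D.lin (hp : 1 ≤ p) {Ω : Set E} (h : D p Ω u G) (k : D p Ω w H) (a b : ℝ) :
    D p Ω (fun y => a * u y + b * w y) fun y => a • G y + b • H y :=
  ⟨(h.1.const_mul a).add (k.1.const_mul b), fun x hx => by simp [h.2.1 x hx, k.2.1 x hx],
    (h.2.2.1.const_smul a).add (k.2.2.1.const_smul b),
    h.2.2.2.lin hp h.1 k.1 h.2.2.1 k.2.2.1 k.2.2.2 a b⟩

lemma WG.trans (h : WG u G) (x : E) : WG (fun y => u (x + y)) fun y => G (x + y) :=
  fun φ a b v => by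
  have a' : ContDiff ℝ ∞ fun y => φ (-x + y) := a.comp (contDiff_const.add contDiff_id)
  have := h (fun y => φ (-x + y)) a' (b.comp_homeomorph (Homeomorph.addLeft (-x))) v
  rw [← integral_add_left_eq_self _ x, ← integral_add_left_eq_self
    (fun y => ⟪G y, v⟫_ℝ * φ (-x + y)) x] at this
  simpa only [fderiv_comp_add_left, neg_add_cancel_left] using this

lemma euler (hp : 1 ≤ p) (hu : Continuous u) (hG : MemLp G (ENNReal.ofReal p)) (h : WG u G)
    {ψ : E → ℝ} (a : ContDiff ℝ ∞ ψ) (b : HasCompactSupport ψ) :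
    ∫ y, u y * (3 * ψ y + fderiv ℝ ψ y y) = -∫ y, ⟪G y, y⟫_ℝ * ψ y := by
  have sm : ∀ i : Fin 3, ContDiff ℝ ∞ fun y : E => y i * ψ y := fun i =>
    (EuclideanSpace.proj (𝕜 := ℝ) i).contDiff.mul a
  have cs : ∀ i : Fin 3, HasCompactSupport fun y : E => y i * ψ y := fun i => b.mul_left
  have := Finset.sum_congr rfl fun i (_ : i ∈ Finset.univ) =>
    h _ (sm i) (cs i) (EuclideanSpace.single i 1)
  rw [Finset.sum_neg_distrib, ← integral_finsetSum _ fun i _ => intD hu (sm i) (cs i) _,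
    ← integral_finsetSum _ fun i _ => int2 hp hG (sm i).continuous (cs i) _] at this
  refine Eq.trans (integral_congr_ae (.of_forall fun y => ?_)) (this.trans
    (congrArg Neg.neg (integral_congr_ae (.of_forall fun y => ?_))))
  · have d : ∀ i : Fin 3, fderiv ℝ (fun y : E => y i * ψ y) y (EuclideanSpace.single i 1) =
        ψ y + fderiv ℝ ψ y (y i • EuclideanSpace.single i 1) := fun i => by
      have := ((EuclideanSpace.proj (𝕜 := ℝ) i).hasFDerivAt (x := y)).mul
        (a.differentiable (by simp) y).hasFDerivAt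
      rw [show fderiv ℝ (fun y : E => y i * ψ y) y = _ from this.fderiv]
      simp [add_comm]
    have e : ∑ i : Fin 3, y i • EuclideanSpace.single i (1 : ℝ) = y := by
      ext j; fin_cases j <;> simp [Fin.sum_univ_three]
    simp only
    rw [← Finset.mul_sum, Finset.sum_congr rfl fun i _ => d i, Finset.sum_add_distrib, ← map_sum, e]
    simp
  · simp only [PiLp.inner_apply, Fin.sum_univ_three]
    simp; ring

lemma pderiv {φ : E → ℝ} (da : Differentiable ℝ φ) (c : ℝ) (y : E) {s : ℝ} (s0 : s ≠ 0) :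
    HasDerivAt (fun s : ℝ => c * (s⁻¹ ^ 3 * φ (s⁻¹ • y)))
      (c * -(s⁻¹ ^ 4 * (3 * φ (s⁻¹ • y) + fderiv ℝ φ (s⁻¹ • y) (s⁻¹ • y)))) s := by
  have d1 := hasDerivAt_inv s0
  have d2 : HasDerivAt (fun s : ℝ => φ (s⁻¹ • y)) (fderiv ℝ φ (s⁻¹ • y) (-(s ^ 2)⁻¹ • y)) s :=
    HasFDerivAt.comp_hasDerivAt (f := fun s : ℝ => s⁻¹ • y) s (da (s⁻¹ • y)).hasFDerivAt
      (d1.smul_const y)
  refine (((d1.fun_pow 3).fun_mul d2).const_mul c).congr_deriv ?_
  simp only [map_smul, smul_eq_mul]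
  norm_num
  field_simp; ring

lemma mderiv (hp : 1 ≤ p) (hu : Continuous u) (hG : MemLp G (ENNReal.ofReal p)) (h : WG u G)
    {φ : E → ℝ} (a : ContDiff ℝ ∞ φ) (b : HasCompactSupport φ) {t : ℝ} (ht : 0 < t) :
    HasDerivAt (fun t : ℝ => ∫ z, u (t • z) * φ z)
      (∫ y, t⁻¹ ^ 4 * (⟪G y, y⟫_ℝ * φ (t⁻¹ • y))) t := by
  obtain ⟨R, hR⟩ := b.isCompact.isBounded.subset_closedBall 0
  have da := a.differentiable (by simp)
  have cD := a.continuous_fderiv (by simp)
  set F' : ℝ → E → ℝ := fun s y =>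
    u y * -(s⁻¹ ^ 4 * (3 * φ (s⁻¹ • y) + fderiv ℝ φ (s⁻¹ • y) (s⁻¹ • y))) with hF'
  have sc : ∀ s : ℝ, 0 < s → ContDiff ℝ ∞ (fun y : E => φ (s⁻¹ • y)) ∧
      HasCompactSupport fun y : E => φ (s⁻¹ • y) := fun s hs =>
    ⟨a.comp (contDiff_const_smul _),
      b.comp_homeomorph (Homeomorph.smulOfNeZero s⁻¹ (inv_ne_zero hs.ne'))⟩
  have cF : ContinuousOn (fun q : ℝ × E => F' q.1 q.2) (Icc (t / 2) (2 * t) ×ˢ univ) := by
    have c1 : ContinuousOn (fun q : ℝ × E => q.1⁻¹) (Icc (t / 2) (2 * t) ×ˢ univ) :=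
      continuousOn_fst.inv₀ fun q hq => by have := hq.1.1; linarith
    have c2 := c1.smul continuousOn_snd
    exact (hu.comp continuous_snd).continuousOn.mul ((c1.pow 4).mul
      ((continuousOn_const.mul (a.continuous.comp_continuousOn c2)).add
        ((cD.comp_continuousOn c2).clm_apply c2))).neg
  obtain ⟨C, hC⟩ := (isCompact_Icc.prod (isCompact_closedBall (0 : E) (2 * t * |R|))
    ).exists_bound_of_continuousOn (cF.mono (prod_mono_right (subset_univ _)))
  have nb : Icc (t / 2) (2 * t) ∈ 𝓝 t := Icc_mem_nhds (by linarith) (by linarith)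
  have ca := a.continuous
  have k1 : ∀ s : ℝ, AEStronglyMeasurable (fun y => u y * (s⁻¹ ^ 3 * φ (s⁻¹ • y))) volume :=
    fun s => Continuous.aestronglyMeasurable (by fun_prop)
  have k2 : Integrable fun y => u y * (t⁻¹ ^ 3 * φ (t⁻¹ • y)) :=
    int1 (φ := fun y => t⁻¹ ^ 3 * φ (t⁻¹ • y)) hu (by fun_prop) (sc t ht).2.mul_left
  have k3 : AEStronglyMeasurable (F' t) volume :=
    Continuous.aestronglyMeasurable (by simp only [hF']; fun_prop)
  have k4 : Integrable ((closedBall (0 : E) (2 * t * |R|)).indicator fun _ => C) volume :=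
    (integrable_indicator_iff measurableSet_closedBall).2
      (integrableOn_const measure_closedBall_lt_top.ne)
  have k5 : ∀ y, ∀ s ∈ Icc (t / 2) (2 * t),
      ‖F' s y‖ ≤ (closedBall (0 : E) (2 * t * |R|)).indicator (fun _ => C) y := by
    intro y s hs
    by_cases hy : y ∈ closedBall (0 : E) (2 * t * |R|)
    · rw [indicator_of_mem hy]; exact hC (s, y) ⟨hs, hy⟩
    · have s0 : 0 < s := by have := hs.1; linarith
      have n : s⁻¹ • y ∉ tsupport φ := fun k => hy (by
        have := hR k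
        rw [mem_closedBall_zero_iff, norm_smul, norm_inv, Real.norm_eq_abs, abs_of_pos s0,
          inv_mul_le_iff₀ s0] at this
        rw [mem_closedBall_zero_iff]
        nlinarith [hs.2, le_abs_self R, abs_nonneg R])
      rw [indicator_of_notMem hy]
      simp [hF', image_eq_zero_of_notMem_tsupport n, fderiv_of_notMem_tsupport ℝ n]
  have k6 : ∀ y, ∀ s ∈ Icc (t / 2) (2 * t),
      HasDerivAt (fun s : ℝ => u y * (s⁻¹ ^ 3 * φ (s⁻¹ • y))) (F' s y) s := fun y s hs =>
    pderiv da (u y) y (by have := hs.1; intro e; linarith)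
  have key : HasDerivAt (fun s : ℝ => ∫ y, u y * (s⁻¹ ^ 3 * φ (s⁻¹ • y))) (∫ y, F' t y) t :=
    (hasDerivAt_integral_of_dominated_loc_of_deriv_le (𝕜 := ℝ) (E := ℝ) (μ := volume)
      (F := fun s y => u y * (s⁻¹ ^ 3 * φ (s⁻¹ • y))) nb (.of_forall k1) k2 k3 (.of_forall k5) k4
      (.of_forall k6)).2
  have e : ∫ y, F' t y = ∫ y, t⁻¹ ^ 4 * (⟪G y, y⟫_ℝ * φ (t⁻¹ • y)) := by
    rw [integral_const_mul, ← neg_neg (∫ y, ⟪G y, y⟫_ℝ * _), ← euler hp hu hG h (sc t ht).1
      (sc t ht).2, ← integral_neg, ← integral_const_mul]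
    congr 1; funext y
    have := (da (t⁻¹ • y)).hasFDerivAt.comp y ((hasFDerivAt_id y).const_smul t⁻¹)
    rw [show fderiv ℝ (fun y : E => φ (t⁻¹ • y)) y = _ from this.fderiv]
    simp [hF']; ring
  rw [← e]
  refine key.congr_of_eventuallyEq ?_
  filter_upwards [lt_mem_nhds ht] with s hs
  have := Measure.integral_comp_smul (volume : Measure E)
    (fun y => u y * (s⁻¹ ^ 3 * φ (s⁻¹ • y))) s
  simp only [inv_smul_smul₀ hs.ne', finrank_euclideanSpace, Fintype.card_fin, smul_eq_mul,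
    mul_left_comm _ (s⁻¹ ^ 3), integral_const_mul] at this ⊢
  rw [abs_of_pos (by positivity), ← inv_pow] at this
  exact mul_left_cancel₀ (by positivity) this

end H99.Mor
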