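import Mathlib
import Pool.Agent.H99.Mor1

set_option autoImplicit false

open MeasureTheory Set Filter Topology Metric
open scoped InnerProductSpace ContDiff

namespace H99.Mor

variable {p q : ℝ} {u w : E → ℝ} {G H : E → E}

noncomputable def N (p : ℝ) (G : E → E) : ℝ := (eLpNorm G (ENNReal.ofReal p)).toReal

noncomputable def v0 : ℝ := volume.real (ball (0 : E) 1)

lemma v0_pos : 0 < v0 :=
  ENNReal.toReal_pos (measure_ball_pos _ _ one_pos).ne' measure_ball_lt_top.ne

lemma N_nn (p : ℝ) (G : E → E) : 0 ≤ N p G := ENNReal.toReal_nonneg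

lemma eLp (hp : 0 < p) (G : E → E) :
    eLpNorm G (ENNReal.ofReal p) = (∫⁻ y, ‖G y‖ₑ ^ p) ^ (1 / p) := by
  rw [eLpNorm_eq_lintegral_rpow_enorm_toReal (by simpa using hp) (by simp),
    ENNReal.toReal_ofReal hp.le]

lemma radial {a r0 r1 : ℝ} (ha : 0 < a) (h0 : 0 ≤ r0) (h1 : r0 ≤ r1) :
    ∫⁻ y : E, ENNReal.ofReal ((Ioo r0 r1).indicator (fun r => r ^ (a - 3)) ‖y‖) =
      ENNReal.ofReal (3 * v0 * ((r1 ^ a - r0 ^ a) / a)) := by
  have e : ∀ y ∈ Ioi (0 : ℝ), y ^ (Module.finrank ℝ E - 1) •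
      (Ioo r0 r1).indicator (fun r => r ^ (a - 3)) y = (Ioo r0 r1).indicator (fun r => r ^ (a - 1)) y := by
    intro y hy
    by_cases h : y ∈ Ioo r0 r1
    · rw [indicator_of_mem h, indicator_of_mem h, finrank_euclideanSpace, Fintype.card_fin,
        smul_eq_mul, ← Real.rpow_natCast, ← Real.rpow_add hy]
      norm_num; congr 1; ring
    · simp [h]
  have i0 : IntegrableOn (fun r : ℝ => r ^ (a - 1)) (Ioo r0 r1) :=
    (intervalIntegrable_iff_integrableOn_Ioo_of_le h1).1
      (intervalIntegral.intervalIntegrable_rpow' (by linarith))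
  have i1 := (integrable_fun_norm_addHaar (volume : Measure E)
    (f := (Ioo r0 r1).indicator fun r => r ^ (a - 3))).2
    ((integrableOn_congr_fun e measurableSet_Ioi).2
      ((integrable_indicator_iff measurableSet_Ioo).2 i0).integrableOn)
  rw [← ofReal_integral_eq_lintegral_ofReal i1 (.of_forall fun y =>
    indicator_nonneg (fun r hr => Real.rpow_nonneg (h0.trans hr.1.le) _) _),
    integral_fun_norm_addHaar, setIntegral_congr_fun measurableSet_Ioi e,
    setIntegral_indicator measurableSet_Ioo, 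
    inter_eq_right.2 (show Ioo r0 r1 ⊆ Ioi 0 from fun r hr => h0.trans_lt hr.1),
    ← integral_Ioc_eq_integral_Ioo, ← intervalIntegral.integral_of_le h1,
    integral_rpow (Or.inl (by linarith))]
  simp [v0, mul_assoc]

lemma core0 (hpq : p.HolderConjugate q) (hu : Continuous u) (hG : MemLp G (ENNReal.ofReal p))
    (mG : Measurable G) (h : WG u G) {φ : E → ℝ} (a : ContDiff ℝ ∞ φ) (b : HasCompactSupport φ)
    (b0 : ∀ z, |φ z| ≤ 1) {Γ : Set E} (mΓ : MeasurableSet Γ) {R J : ℝ} (hR : 0 < R) (hJ : 0 ≤ J)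
    (hΓ : ∀ z, φ z ≠ 0 → ‖z‖ < R ∧ ∀ t : ℝ, 0 < t → t • z ∈ Γ)
    (hI : ∫⁻ y in Γ ∩ ball 0 R, ENNReal.ofReal (‖y‖ ^ (-2 * q)) ≤ ENNReal.ofReal J) :
    (∫ z, u z * φ z) - u 0 * ∫ z, φ z ≤ N p G * (R ^ 3 / 3 * J ^ (1 / q)) := by
  have ca := a.continuous
  set B : ℝ → ENNReal := fun t => ∫⁻ y, ENNReal.ofReal ‖t⁻¹ ^ 4 * (⟪G y, y⟫_ℝ * φ (t⁻¹ • y))‖
    with hB
  have m1 : Measurable fun z : ℝ × E =>
      ENNReal.ofReal ‖z.1⁻¹ ^ 4 * (⟪G z.2, z.2⟫_ℝ * φ (z.1⁻¹ • z.2))‖ :=
    ((measurable_fst.inv.pow_const 4).mul (((mG.comp measurable_snd).inner measurable_snd).mul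
      (ca.measurable.comp (measurable_fst.inv.smul measurable_snd)))).norm.ennreal_ofReal
  have mB : Measurable B := m1.lintegral_prod_right'
  set V : E → ENNReal := (Γ ∩ ball 0 R).indicator fun y =>
    ENNReal.ofReal (R ^ 3 / 3 * ‖y‖ ^ (-2 : ℝ)) with hV
  have mS : MeasurableSet (Γ ∩ ball (0 : E) R) := mΓ.inter measurableSet_ball
  have mV : Measurable V := Measurable.indicator (by fun_prop) mS
  have inner : ∀ y, ∫⁻ t in Ioc (0 : ℝ) 1,
      ENNReal.ofReal ‖t⁻¹ ^ 4 * (⟪G y, y⟫_ℝ * φ (t⁻¹ • y))‖ ≤ ‖G y‖ₑ * V y := by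
    intro y
    by_cases y0 : y = 0
    · simp [y0]
    have ny : 0 < ‖y‖ := norm_pos_iff.2 y0
    have k : ∀ t ∈ Ioc (0 : ℝ) 1, φ (t⁻¹ • y) ≠ 0 → y ∈ Γ ∩ ball 0 R ∧ ‖y‖ / R < t := by
      intro t ht hz
      obtain ⟨k1, k2⟩ := hΓ _ hz
      rw [norm_smul, norm_inv, Real.norm_eq_abs, abs_of_pos ht.1, inv_mul_lt_iff₀ ht.1] at k1
      refine ⟨⟨by simpa [smul_smul, ht.1.ne'] using k2 t ht.1, ?_⟩, (div_lt_iff₀ hR).2 k1⟩
      rw [mem_ball_zero_iff]; nlinarith [ht.2]
    by_cases hy : y ∈ Γ ∩ ball 0 R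
    · have c0 : 0 < ‖y‖ / R := div_pos ny hR
      calc _ ≤ ∫⁻ t, (Ioi (‖y‖ / R)).indicator
            (fun t : ℝ => ENNReal.ofReal (‖G y‖ * ‖y‖ * t ^ (-4 : ℝ))) t := by
            rw [← lintegral_indicator measurableSet_Ioc]
            refine lintegral_mono fun t => indicator_apply_le' (fun ht => ?_) fun _ => by simp
            by_cases hz : φ (t⁻¹ • y) = 0
            · simp [hz]
            rw [indicator_of_mem (show t ∈ Ioi _ from (k t ht hz).2)]
            refine ENNReal.ofReal_le_ofReal ?_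
            rw [norm_mul, norm_mul, norm_pow, norm_inv, Real.norm_eq_abs t, abs_of_pos ht.1,
              Real.rpow_neg ht.1.le, ← Real.inv_rpow ht.1.le, mul_comm,
              show (4 : ℝ) = (4 : ℕ) by norm_num, Real.rpow_natCast]
            have := ht.1
            exact mul_le_mul_of_nonneg_right ((mul_le_of_le_one_right (norm_nonneg _) (b0 _)).trans
              (norm_inner_le_norm (𝕜 := ℝ) (G y) y)) (by positivity)
        _ = ENNReal.ofReal (‖G y‖ * ‖y‖ * (-(‖y‖ / R) ^ (-4 + 1 : ℝ) / (-4 + 1))) := by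
            rw [lintegral_indicator measurableSet_Ioi, ← ofReal_integral_eq_lintegral_ofReal
              ((integrableOn_Ioi_rpow_of_lt (by norm_num) c0).const_mul _)
              ((ae_restrict_iff' measurableSet_Ioi).2 (.of_forall fun t ht => by
                have := c0.trans ht
                simp only [Pi.zero_apply]; positivity)),
              integral_const_mul, integral_Ioi_rpow_of_lt (by norm_num) c0]
        _ = _ := by
            rw [hV, indicator_of_mem hy, ← ofReal_norm, ← ENNReal.ofReal_mul (norm_nonneg _)]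
            congr 1
            rw [show (-4 + 1 : ℝ) = -(3 : ℕ) by norm_num, show (-2 : ℝ) = -(2 : ℕ) by norm_num,
              Real.rpow_neg c0.le, Real.rpow_neg ny.le, Real.rpow_natCast, Real.rpow_natCast]
            field_simp; norm_num
    · refine le_of_eq_of_le (setLIntegral_eq_zero measurableSet_Ioc fun t ht => ?_) (by simp)
      have : φ (t⁻¹ • y) = 0 := by by_contra hz; exact hy (k t ht hz).1
      simp [this]
  have q0 := hpq.symm.pos
  have hVq : (∫⁻ y, V y ^ q) ^ (1 / q) ≤ ENNReal.ofReal (R ^ 3 / 3 * J ^ (1 / q)) := by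
    have : ∫⁻ y, V y ^ q ≤ ENNReal.ofReal ((R ^ 3 / 3) ^ q * J) := by
      rw [ENNReal.ofReal_mul (by positivity)]
      refine le_trans (le_of_eq ?_) (mul_le_mul_right hI _)
      rw [← lintegral_const_mul' _ _ ENNReal.ofReal_ne_top, ← lintegral_indicator mS]
      congr 1; funext y
      by_cases hy : y ∈ Γ ∩ ball 0 R
      · rw [hV, indicator_of_mem hy, indicator_of_mem hy, ENNReal.ofReal_rpow_of_nonneg
          (by positivity) q0.le, Real.mul_rpow (by positivity) (by positivity),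
          ← Real.rpow_mul (norm_nonneg _), ENNReal.ofReal_mul (by positivity)]
      · rw [hV, indicator_of_notMem hy, indicator_of_notMem hy, ENNReal.zero_rpow_of_pos q0]
    refine (ENNReal.rpow_le_rpow this (by positivity)).trans (le_of_eq ?_)
    rw [ENNReal.ofReal_rpow_of_nonneg (by positivity) (by positivity),
      Real.mul_rpow (by positivity) hJ, ← Real.rpow_mul (by positivity), mul_one_div_cancel q0.ne',
      Real.rpow_one]
  have tot : ∫⁻ t in Ioc (0 : ℝ) 1, B t ≤ ENNReal.ofReal (N p G * (R ^ 3 / 3 * J ^ (1 / q))) := by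
    rw [hB, lintegral_lintegral_swap m1.aemeasurable]
    refine (lintegral_mono inner).trans ((ENNReal.lintegral_mul_le_Lp_mul_Lq volume hpq
      mG.enorm.aemeasurable mV.aemeasurable).trans ?_)
    rw [← eLp hpq.pos, ENNReal.ofReal_mul (N_nn _ _), N, ENNReal.ofReal_toReal hG.2.ne]
    gcongr
  have fin : ∫⁻ t in Ioc (0 : ℝ) 1, B t ≠ ⊤ := ne_top_of_le_ne_top ENNReal.ofReal_ne_top tot
  have cm : Continuous fun t : ℝ => ∫ z, u (t • z) * φ z := by
    have := continuous_parametric_integral_of_continuous (μ := volume)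
      (f := fun (t : ℝ) (z : E) => u (t • z) * φ z) (by fun_prop) b.isCompact
    refine this.congr fun t => setIntegral_eq_integral_of_forall_compl_eq_zero fun z hz => ?_
    simp [image_eq_zero_of_notMem_tsupport hz]
  have := intervalIntegral.sub_le_integral_of_hasDeriv_right_of_le zero_le_one cm.continuousOn
    (fun t ht => (mderiv hpq.lt.le hu hG h a b ht.1).hasDerivWithinAt)
    (φ := fun t => (B t).toReal) ((integrableOn_Icc_iff_integrableOn_Ioc).2
      (integrable_toReal_of_lintegral_ne_top mB.aemeasurable fin))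
    (fun t _ => (Real.le_norm_self _).trans (norm_integral_le_lintegral_norm
      fun y => t⁻¹ ^ 4 * (⟪G y, y⟫_ℝ * φ (t⁻¹ • y))))
  simp only [one_smul, zero_smul, integral_const_mul] at this
  refine this.trans ?_
  rw [intervalIntegral.integral_of_le zero_le_one, integral_toReal mB.aemeasurable
    (ae_lt_top mB fin)]
  exact ENNReal.toReal_le_of_le_ofReal (mul_nonneg (N_nn _ _) (by positivity)) tot

lemma core (hpq : p.HolderConjugate q) (hu : Continuous u) (hG : MemLp G (ENNReal.ofReal p))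
    (h : WG u G) {φ : E → ℝ} (a : ContDiff ℝ ∞ φ) (b : HasCompactSupport φ)
    (b0 : ∀ z, |φ z| ≤ 1) {Γ : Set E} (mΓ : MeasurableSet Γ) {R J : ℝ} (hR : 0 < R) (hJ : 0 ≤ J)
    (hΓ : ∀ z, φ z ≠ 0 → ‖z‖ < R ∧ ∀ t : ℝ, 0 < t → t • z ∈ Γ)
    (hI : ∫⁻ y in Γ ∩ ball 0 R, ENNReal.ofReal (‖y‖ ^ (-2 * q)) ≤ ENNReal.ofReal J) (x : E) :
    |(∫ z, u (x + z) * φ z) - u x * ∫ z, φ z| ≤ N p G * (R ^ 3 / 3 * J ^ (1 / q)) := by
  have mp := measurePreserving_add_left (volume : Measure E) x
  have g1 : MemLp (fun y => G (x + y)) (ENNReal.ofReal p) := hG.comp_measurePreserving mp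
  set G' := g1.1.mk _ with hG'
  have e := g1.1.ae_eq_mk
  have g2 : MemLp G' (ENNReal.ofReal p) := g1.ae_eq e
  have m := g1.1.stronglyMeasurable_mk.measurable
  have n : N p G' = N p G := by
    rw [N, ← eLpNorm_congr_ae e]; exact congrArg _ (eLpNorm_comp_measurePreserving hG.1 mp)
  have w1 := (h.trans x).congr e
  have cu : Continuous fun y => u (x + y) := by fun_prop
  have k1 := core0 hpq cu g2 m w1 a b b0 mΓ hR hJ hΓ hI
  have k2 := core0 (u := fun y => -u (x + y)) (G := fun y => -G' y) hpq cu.neg g2.neg m.neg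
    (fun φ c d v => by
      simp only [neg_mul, inner_neg_left, integral_neg]; rw [w1 φ c d v]) a b b0 mΓ hR hJ hΓ hI
  have n2 : N p (fun y => -G' y) = N p G' := congrArg ENNReal.toReal (eLpNorm_neg G' _ _)
  rw [n2] at k2
  simp only [add_zero, neg_mul, integral_neg, n] at k1 k2
  exact abs_le.2 ⟨by linarith, k1⟩

end H99.Mor
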