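import Mathlib
import Pool.Agent.H99.Mor0

set_option autoImplicit false

open MeasureTheory Set Filter Topology Metric

namespace H99.Mor

noncomputable def pt (a b c : ℝ) : E := WithLp.toLp 2 ![a, b, c]

@[simp] lemma pt0 (a b c : ℝ) : pt a b c 0 = a := rfl
@[simp] lemma pt1 (a b c : ℝ) : pt a b c 1 = b := rfl
@[simp] lemma pt2 (a b c : ℝ) : pt a b c 2 = c := rfl

lemma nsq (x : E) : ‖x‖ ^ 2 = x 0 ^ 2 + x 1 ^ 2 + x 2 ^ 2 := by
  simp [EuclideanSpace.norm_sq_eq, Fin.sum_univ_three]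

lemma co (x : E) (i : Fin 3) : |x i| ≤ ‖x‖ := by simpa using PiLp.norm_apply_le x i

lemma ext3 {x y : E} (h0 : x 0 = y 0) (h1 : x 1 = y 1) (h2 : x 2 = y 2) : x = y := by
  ext i; fin_cases i <;> assumption

lemma nle {x y : E} {k : ℝ} (k0 : 0 ≤ k)
    (h : x 0 ^ 2 + x 1 ^ 2 + x 2 ^ 2 ≤ k ^ 2 * (y 0 ^ 2 + y 1 ^ 2 + y 2 ^ 2)) : ‖x‖ ≤ k * ‖y‖ :=
  le_of_sq_le_sq (by rw [mul_pow, nsq, nsq]; exact h) (by positivity)

noncomputable def qq (σ : ℝ) : E := pt (σ / 2) 0 (1 / 4)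

def Z (δ : ℝ) : Set E :=
  {z | (z 0 = 0 ∧ ‖z‖ ≤ 1 - δ - δ / 2 ^ 20) ∨ z = qq 1 ∨ z = qq (-1) ∨ 1 + δ ≤ ‖z‖}

def Om (δ : ℝ) : Set E := {x | δ < infDist x (Z δ)}

variable {δ : ℝ} {x y : E}

lemma Z_cl (δ : ℝ) : IsClosed (Z δ) :=
  ((isClosed_eq (by fun_prop) continuous_const).inter
    (isClosed_le continuous_norm continuous_const)).union (isClosed_singleton.union
      (isClosed_singleton.union (isClosed_le continuous_const continuous_norm)))

lemma Om_open (δ : ℝ) : IsOpen (Om δ) := isOpen_lt continuous_const (continuous_infDist_pt _)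

lemma mem_Om : x ∈ Om δ ↔ ∀ z ∈ Z δ, δ < ‖x - z‖ := by
  have ne : (Z δ).Nonempty := ⟨qq 1, Or.inr (Or.inl rfl)⟩
  refine ⟨fun h z hz => lt_of_lt_of_le h ?_, fun h => ?_⟩
  · rw [← dist_eq_norm]; exact infDist_le_dist_of_mem hz
  · obtain ⟨z, hz, e⟩ := (Z_cl δ).exists_infDist_eq_dist ne x
    show δ < _
    rw [e, dist_eq_norm]; exact h z hz

lemma nq {σ : ℝ} (h : σ ^ 2 = 1) : 11 / 20 ≤ ‖qq σ‖ ∧ ‖qq σ‖ ≤ 14 / 25 := by
  have := nsq (qq σ)
  simp only [qq, pt0, pt1, pt2] at this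
  have n := norm_nonneg (qq σ)
  simp only [qq] at n ⊢
  constructor <;> nlinarith

lemma not_Om {z : E} (hz : z ∈ Z δ) (h : ‖x - z‖ ≤ δ) : x ∉ Om δ := fun k =>
  (mem_Om.1 k z hz).not_ge h

lemma q_Z {σ : ℝ} (h : σ = 1 ∨ σ = -1) : qq σ ∈ Z δ := by
  rcases h with rfl | rfl
  exacts [Or.inr (Or.inl rfl), Or.inr (Or.inr (Or.inl rfl))]

lemma out_Om (h0 : 0 < δ) (h : 1 ≤ ‖x‖) : x ∉ Om δ := by
  have n : 0 < ‖x‖ := by linarith
  refine not_Om (z := (1 + δ / ‖x‖) • x) (Or.inr (Or.inr (Or.inr ?_))) ?_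
  · rw [norm_smul, Real.norm_of_nonneg (by positivity), add_mul, div_mul_cancel₀ _ n.ne']; linarith
  · rw [add_smul, one_smul, sub_add_cancel_left, norm_neg, norm_smul,
      Real.norm_of_nonneg (by positivity), div_mul_cancel₀ _ n.ne']

lemma Om_lt (h0 : 0 < δ) (h : x ∈ Om δ) : ‖x‖ < 1 := not_le.1 fun k => out_Om h0 k h

lemma wall_Om (h : |x 0| ≤ δ) (k : ‖x‖ ≤ 1 - δ - δ / 2 ^ 20) : x ∉ Om δ := by
  refine not_Om (z := pt 0 (x 1) (x 2)) (Or.inl ⟨rfl, le_trans ?_ k⟩) (le_trans ?_ h)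
  · simpa using nle (x := pt 0 (x 1) (x 2)) (y := x) zero_le_one (by simp; positivity)
  · refine le_of_sq_le_sq ?_ (abs_nonneg _)
    rw [nsq]; simp

lemma Om_of (k : ‖x‖ < 1) (h1 : δ < |x 0| ∨ 1 - δ / 2 ^ 20 < ‖x‖) (h2 : δ < ‖x - qq 1‖)
    (h3 : δ < ‖x - qq (-1)‖) : x ∈ Om δ := by
  refine mem_Om.2 ?_
  rintro z (⟨a, b⟩ | rfl | rfl | a)
  · rcases h1 with h1 | h1
    · have := co (x - z) 0
      simp only [PiLp.sub_apply, a, sub_zero] at this
      linarith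
    · linarith [norm_sub_norm_le x z]
  · exact h2
  · exact h3
  · have := norm_sub_norm_le z x
    rw [norm_sub_rev] at this
    linarith

lemma shell (_ : 0 < δ) (h1 : δ ≤ 1 / 1000) (a : 1 - δ / 2 ^ 20 < ‖x‖) (b : ‖x‖ < 1) : x ∈ Om δ := by
  have c1 := nq (σ := 1) (by norm_num)
  have c2 := nq (σ := -1) (by norm_num)
  exact Om_of b (Or.inr a) (by linarith [norm_sub_norm_le x (qq 1)])
    (by linarith [norm_sub_norm_le x (qq (-1))])

lemma ext_ball (h0 : 0 < δ) (hx : x ∈ Om δ) :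
    ∃ z, ‖z - x‖ = δ + infDist x (Om δ)ᶜ ∧ ∀ y ∈ closedBall z δ, y ∉ Om δ := by
  obtain ⟨y, hy, e⟩ := (Om_open δ).isClosed_compl.exists_infDist_eq_dist
    ⟨qq 1, not_Om (q_Z (Or.inl rfl)) (by simpa using h0.le)⟩ x
  have := mt mem_Om.2 hy
  push Not at this
  obtain ⟨z, hz, k⟩ := this
  have b : ∀ y ∈ closedBall z δ, y ∉ Om δ := fun y h => not_Om hz (mem_closedBall_iff_norm.1 h)
  refine ⟨z, le_antisymm ?_ ?_, b⟩
  · have := dist_triangle z y x
    rw [dist_eq_norm, dist_eq_norm, norm_sub_rev z y, dist_comm, ← e] at this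
    linarith
  · have n := mem_Om.1 hx z hz
    have n0 : 0 < ‖x - z‖ := h0.trans n
    have := infDist_le_dist_of_mem (x := x) (s := (Om δ)ᶜ) (y := z + (δ / ‖x - z‖) • (x - z))
      (b _ (by
        rw [mem_closedBall_iff_norm, add_sub_cancel_left, norm_smul,
          Real.norm_of_nonneg (by positivity), div_mul_cancel₀ _ n0.ne']))
    have e2 : x - (z + (δ / ‖x - z‖) • (x - z)) = (1 - δ / ‖x - z‖) • (x - z) := by
      rw [sub_smul, one_smul]; abel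
    rw [dist_eq_norm, e2, norm_smul, Real.norm_of_nonneg (sub_nonneg.2 ((div_le_one n0).2 n.le)),
      sub_mul, one_mul, div_mul_cancel₀ _ n0.ne'] at this
    rw [norm_sub_rev]; linarith

lemma mid_small (h0 : 0 < δ) (h1 : δ ≤ 1 / 1000) (hx : x ∈ Om δ) (h : x 0 = 0) :
    infDist x (Om δ)ᶜ < δ / 2 ^ 20 := by
  have a : 1 - δ / 2 ^ 20 < ‖x‖ := by
    by_contra k
    push Not at k
    rcases le_or_gt ‖x‖ (1 - δ - δ / 2 ^ 20) with l | l
    · exact wall_Om (by simpa [h] using h0.le) l hx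
    have n : 0 < ‖x‖ := by linarith
    refine not_Om (z := (1 - δ / ‖x‖) • x) (Or.inl ⟨by simp [h], ?_⟩) ?_ hx
    · rw [norm_smul, Real.norm_of_nonneg (sub_nonneg.2 ((div_le_one n).2 (by linarith))), sub_mul,
        div_mul_cancel₀ _ n.ne']; linarith
    · rw [sub_smul, one_smul, sub_sub_cancel, norm_smul,
        Real.norm_of_nonneg (by positivity), div_mul_cancel₀ _ n.ne']
  have n : 0 < ‖x‖ := by linarith
  have b := Om_lt h0 hx
  have := infDist_le_dist_of_mem (x := x) (s := (Om δ)ᶜ) (y := (1 / ‖x‖) • x) (out_Om h0 (by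
    rw [norm_smul, Real.norm_of_nonneg (by positivity), div_mul_cancel₀ _ n.ne']))
  have e2 : x - (1 / ‖x‖) • x = -((1 / ‖x‖ - 1) • x) := by rw [sub_smul, one_smul]; abel
  rw [dist_eq_norm, e2, norm_neg, norm_smul, Real.norm_of_nonneg
    (sub_nonneg.2 ((one_le_div n).2 b.le)), sub_mul, one_mul, div_mul_cancel₀ _ n.ne'] at this
  linarith

lemma slide (hx : x ∈ Om δ) {t : ℝ} (ht : 0 ≤ t * x 1) (k : ‖x + pt 0 t 0‖ < 1) :
    x + pt 0 t 0 ∈ Om δ := by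
  have m := mem_Om.1 hx
  have hq : ∀ σ, ‖x - qq σ‖ ≤ ‖x + pt 0 t 0 - qq σ‖ := fun σ => by
    simpa using nle (x := x - qq σ) (y := x + pt 0 t 0 - qq σ) zero_le_one (by
      simp [qq]; nlinarith [sq_nonneg t])
  refine mem_Om.2 ?_
  rintro z (⟨a, b⟩ | rfl | rfl | a)
  · by_cases c : z 1 ^ 2 ≤ x 1 ^ 2
    · refine (m z (Or.inl ⟨a, b⟩)).trans_le ?_
      have : 0 ≤ t * (t + 2 * (x 1 - z 1)) := by
        rcases lt_trichotomy (x 1) 0 with l | l | l
        · have : t ≤ 0 := by nlinarith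
          have : x 1 ≤ z 1 := by nlinarith
          nlinarith
        · have : z 1 = 0 := by rw [l] at c; nlinarith
          rw [l, this]; nlinarith [sq_nonneg t]
        · have : 0 ≤ t := by nlinarith
          have : z 1 ≤ x 1 := by nlinarith
          nlinarith
      simpa using nle (x := x - z) (y := x + pt 0 t 0 - z) zero_le_one (by simp; nlinarith)
    · push Not at c
      refine (m (pt 0 (x 1) (z 2)) (Or.inl ⟨rfl, le_trans ?_ b⟩)).trans_le ?_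
      · simpa using nle (x := pt 0 (x 1) (z 2)) (y := z) zero_le_one (by simp [a]; exact c.le)
      · simpa using nle (x := x - pt 0 (x 1) (z 2)) (y := x + pt 0 t 0 - z) zero_le_one
          (by simp [a]; positivity)
  · exact (m _ (q_Z (Or.inl rfl))).trans_le (hq _)
  · exact (m _ (q_Z (Or.inr rfl))).trans_le (hq _)
  · have := norm_sub_norm_le z (x + pt 0 t 0)
    rw [norm_sub_rev] at this
    linarith

theorem Om_conn (h0 : 0 < δ) (h1 : δ ≤ 1 / 1000) : IsConnected (Om δ) := by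
  set r := 1 - δ / 2 ^ 21 with hr
  have r0 : 0 < r := by rw [hr]; linarith
  have sc : IsConnected (sphere (0 : E) r) :=
    isConnected_sphere (by rw [← Module.finrank_eq_rank]; simp) 0 r0.le
  have ss : sphere (0 : E) r ⊆ Om δ := fun x hx => by
    rw [mem_sphere_zero_iff_norm] at hx
    exact shell h0 h1 (by rw [hx, hr]; linarith) (by rw [hx, hr]; linarith)
  obtain ⟨x0, hx0⟩ := sc.nonempty
  refine ⟨⟨x0, ss hx0⟩, isPreconnected_of_forall x0 fun x hx => ?_⟩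
  have key : ∀ y ∈ sphere (0 : E) r, segment ℝ x y ⊆ Om δ →
      ∃ t ⊆ Om δ, x0 ∈ t ∧ x ∈ t ∧ IsPreconnected t := fun y hy h =>
    ⟨segment ℝ x y ∪ sphere 0 r, union_subset h ss, Or.inr hx0, Or.inl (left_mem_segment _ _ _),
      (convex_segment x y).isPreconnected.union y (right_mem_segment _ _ _) hy sc.2⟩
  have b := Om_lt h0 hx
  rcases le_or_gt r ‖x‖ with l | l
  · have n : 0 < ‖x‖ := by linarith
    refine key ((r / ‖x‖) • x) ?_ ?_
    · rw [mem_sphere_zero_iff_norm, norm_smul, Real.norm_of_nonneg (by positivity),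
        div_mul_cancel₀ _ n.ne']
    · rintro _ ⟨a, c, a0, c0, e, rfl⟩
      have : ‖a • x + c • (r / ‖x‖) • x‖ = a * ‖x‖ + c * r := by
        rw [smul_smul, ← add_smul, norm_smul, Real.norm_of_nonneg (by positivity), add_mul,
          mul_assoc, div_mul_cancel₀ _ n.ne']
      obtain rfl : a = 1 - c := by linarith
      refine shell h0 h1 ?_ ?_ <;> rw [this] <;> nlinarith
  · obtain ⟨σ, σ1, σ2⟩ : ∃ σ : ℝ, σ ^ 2 = 1 ∧ 0 ≤ σ * x 1 := by
      rcases le_total 0 (x 1) with k | k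
      exacts [⟨1, by norm_num, by linarith⟩, ⟨-1, by norm_num, by linarith⟩]
    have c : Continuous fun t : ℝ => ‖x + t • pt 0 σ 0‖ := by fun_prop
    obtain ⟨t, t0, e⟩ := intermediate_value_Icc (zero_le_two) c.continuousOn
      (show r ∈ Icc ‖x + (0 : ℝ) • pt 0 σ 0‖ ‖x + (2 : ℝ) • pt 0 σ 0‖ from ⟨by simpa using l.le, by
        have := norm_sub_norm_le ((2 : ℝ) • pt 0 σ 0) (-x)
        have e : ‖pt 0 σ 0‖ = 1 := by
          have := nsq (pt 0 σ 0)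
          simp only [pt0, pt1, pt2] at this
          nlinarith [norm_nonneg (pt 0 σ 0)]
        rw [sub_neg_eq_add, add_comm, norm_smul, e, norm_neg] at this
        norm_num at this
        linarith⟩)
    have hy : x + t • pt 0 σ 0 ∈ sphere (0 : E) r := mem_sphere_zero_iff_norm.2 e
    refine key _ hy fun y h => ?_
    have hb : ‖y‖ ≤ r := mem_closedBall_zero_iff.1 ((convex_closedBall 0 r).segment_subset
      (mem_closedBall_zero_iff.2 l.le) (sphere_subset_closedBall hy) h)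
    obtain ⟨a, c, a0, c0, e, rfl⟩ := h
    obtain rfl : a = 1 - c := by linarith
    have e3 : (1 - c) • x + c • (x + t • pt 0 σ 0) = x + pt 0 (c * t * σ) 0 :=
      ext3 (by simp; ring) (by simp; ring) (by simp; ring)
    rw [e3] at hb ⊢
    refine slide hx ?_ (by linarith)
    rw [mul_assoc]
    exact mul_nonneg (mul_nonneg c0 t0.1) σ2

lemma aff1 (h0 : 0 < δ) (h1 : δ ≤ 1 / 1000) (N : E ≃L[ℝ] E) (c : E)
    (h : ∀ y ∈ Om δ, N y + c ∈ Om δ) (x : E) : ‖N x‖ ^ 2 ≤ (1 - ‖c‖ ^ 2) * ‖x‖ ^ 2 := by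
  rcases eq_or_ne x 0 with rfl | x0
  · simp
  have n := norm_pos_iff.2 x0
  have k : ∀ t ∈ Ioo (1 - δ / 2 ^ 20) 1, t ^ 2 * ‖N x‖ ^ 2 ≤ (1 - ‖c‖ ^ 2) * ‖x‖ ^ 2 := fun t ht => by
    have t0 : 0 < t := by linarith [ht.1]
    have e : ‖(t / ‖x‖) • x‖ = t := by
      rw [norm_smul, Real.norm_of_nonneg (by positivity), div_mul_cancel₀ _ n.ne']
    have a1 := Om_lt h0 (h _ (shell (x := (t / ‖x‖) • x) h0 h1 (by rw [e]; exact ht.1)
      (by rw [e]; exact ht.2)))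
    have a2 := Om_lt h0 (h _ (shell (x := -((t / ‖x‖) • x)) h0 h1 (by rw [norm_neg, e]; exact ht.1)
      (by rw [norm_neg, e]; exact ht.2)))
    rw [map_neg, neg_add_eq_sub, norm_sub_rev] at a2
    have a3 := parallelogram_law_with_norm ℝ (N ((t / ‖x‖) • x)) c
    have a4 : ‖N ((t / ‖x‖) • x)‖ * ‖x‖ = t * ‖N x‖ := by
      rw [map_smul, norm_smul, Real.norm_of_nonneg (by positivity)]; field_simp
    have a5 : ‖N ((t / ‖x‖) • x)‖ ^ 2 ≤ 1 - ‖c‖ ^ 2 := by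
      nlinarith [norm_nonneg (N ((t / ‖x‖) • x) + c), norm_nonneg (N ((t / ‖x‖) • x) - c)]
    rw [← mul_pow, ← a4, mul_pow]
    exact mul_le_mul_of_nonneg_right a5 (sq_nonneg _)
  have c1 : Continuous fun t : ℝ => t ^ 2 * ‖N x‖ ^ 2 := by fun_prop
  simpa using le_of_tendsto ((c1.tendsto 1).mono_left (nhdsWithin_le_nhds (s := Iio 1)))
    (mem_of_superset (Ioo_mem_nhdsLT (by linarith)) k)

lemma cases_Om (k : ‖x‖ < 1) (h : x ∉ Om δ) :
    |x 0| ≤ δ ∨ ‖x - qq 1‖ ≤ δ ∨ ‖x - qq (-1)‖ ≤ δ := by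
  by_contra c
  push Not at c
  exact h (Om_of k (Or.inl c.1) c.2.1 c.2.2)

theorem rigid (h0 : 0 < δ) (h1 : δ ≤ 1 / 1000) (N : E ≃L[ℝ] E) (c : E)
    (h : ∀ y, y ∈ Om δ ↔ N y + c ∈ Om δ) :
    c = 0 ∧ (∀ y, ‖N y‖ = ‖y‖) ∧ ‖N (pt 0 0 1) - pt 0 0 1‖ ≤ 4 * δ := by
  have a1 := aff1 h0 h1 N c fun y => (h y).1
  have a2 := aff1 h0 h1 N.symm (-N.symm c) fun y hy => (h _).2 (by simpa using hy)
  have a3 : ∀ y, ‖y‖ ^ 2 ≤ ‖N y‖ ^ 2 := fun y => by
    have := a2 (N y)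
    rw [N.symm_apply_apply] at this
    nlinarith [mul_nonneg (sq_nonneg ‖-N.symm c‖) (sq_nonneg ‖N y‖)]
  have c1 := nq (σ := 1) (by norm_num)
  have c2 := nq (σ := -1) (by norm_num)
  obtain rfl : c = 0 := by
    have b1 := (a3 (qq 1)).trans (a1 _)
    have : ‖c‖ ^ 2 ≤ 0 := by
      by_contra k
      push Not at k
      nlinarith [mul_pos k (show 0 < ‖qq 1‖ ^ 2 by nlinarith)]
    simpa using this
  have iso : ∀ y, ‖N y‖ = ‖y‖ := fun y =>
    (pow_left_inj₀ (norm_nonneg _) (norm_nonneg _) two_ne_zero).1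
      (le_antisymm (by simpa using a1 y) (a3 y))
  simp only [add_zero] at h
  refine ⟨rfl, iso, ?_⟩
  have n2 : ‖pt 0 0 1‖ = 1 := by
    have := nsq (pt 0 0 1)
    simp only [pt0, pt1, pt2] at this
    nlinarith [norm_nonneg (pt 0 0 1)]
  have n0 : ‖pt 1 0 0‖ = 1 := by
    have := nsq (pt 1 0 0)
    simp only [pt0, pt1, pt2] at this
    nlinarith [norm_nonneg (pt 1 0 0)]
  have b1 : |N (pt 0 0 1) 0| ≤ 2 * δ := by
    have e : ‖(1 / 2 : ℝ) • pt 0 0 1‖ = 1 / 2 := by rw [norm_smul, n2]; norm_num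
    have e' := (iso _).trans e
    rcases cases_Om (δ := δ) (x := N ((1 / 2 : ℝ) • pt 0 0 1)) (by rw [e']; norm_num) (mt (h _).2
      (wall_Om (x := (1 / 2 : ℝ) • pt 0 0 1) (by simpa using h0.le) (by rw [e]; linarith))) with k | k | k
    · rw [map_smul, PiLp.smul_apply, smul_eq_mul, abs_mul] at k
      norm_num at k; linarith
    · have := norm_sub_norm_le (qq 1) (N ((1 / 2 : ℝ) • pt 0 0 1))
      rw [norm_sub_rev] at this; linarith
    · have := norm_sub_norm_le (qq (-1)) (N ((1 / 2 : ℝ) • pt 0 0 1))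
      rw [norm_sub_rev] at this; linarith
  have b2 : 3 * δ < |N (pt 1 0 0) 0| := by
    by_contra k
    push Not at k
    have e : ‖(3 / 10 : ℝ) • pt 1 0 0‖ = 3 / 10 := by rw [norm_smul, n0]; norm_num
    refine wall_Om (x := N ((3 / 10 : ℝ) • pt 1 0 0)) ?_ (by rw [iso, e]; linarith) ((h _).1
      (Om_of (by rw [e]; norm_num) (Or.inl (by simp; rw [abs_of_pos (by norm_num)]; linarith)) ?_ ?_))
    · rw [map_smul, PiLp.smul_apply, smul_eq_mul, abs_mul]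
      norm_num; linarith
    · have := norm_sub_norm_le (qq 1) ((3 / 10 : ℝ) • pt 1 0 0)
      rw [norm_sub_rev] at this; linarith
    · have := norm_sub_norm_le (qq (-1)) ((3 / 10 : ℝ) • pt 1 0 0)
      rw [norm_sub_rev] at this; linarith
  have b3 : ∀ σ : ℝ, σ = 1 ∨ σ = -1 → ‖N (qq σ) - qq 1‖ ≤ δ ∨ ‖N (qq σ) - qq (-1)‖ ≤ δ := by
    intro σ hσ
    have s2 : σ ^ 2 = 1 := by rcases hσ with rfl | rfl <;> norm_num
    refine (cases_Om (δ := δ) (by rw [iso]; linarith [nq s2]) (mt (h _).2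
      (not_Om (q_Z hσ) (by simpa using h0.le)))).resolve_left fun k => ?_
    have e : qq σ = (σ / 2) • pt 1 0 0 + (1 / 4 : ℝ) • pt 0 0 1 :=
      ext3 (by simp [qq]) (by simp [qq]) (by simp [qq])
    rw [e, map_add, map_smul, map_smul, PiLp.add_apply, PiLp.smul_apply, PiLp.smul_apply,
      smul_eq_mul, smul_eq_mul] at k
    rw [abs_le] at k b1
    rcases hσ with rfl | rfl <;> rcases abs_cases (N (pt 1 0 0) 0) with ⟨l, -⟩ | ⟨l, -⟩ <;>
      rw [l] at b2 <;> linarith [k.1, k.2, b1.1, b1.2]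
  have e1 : qq 1 - qq (-1) = pt 1 0 0 := ext3 (by simp [qq]; norm_num) (by simp [qq]) (by simp [qq])
  have e2 : pt 0 0 1 = (2 : ℝ) • (qq 1 + qq (-1)) :=
    ext3 (by simp [qq]; norm_num) (by simp [qq]) (by simp [qq]; norm_num)
  have far : ∀ z, ‖N (qq 1) - z‖ ≤ δ → ‖N (qq (-1)) - z‖ ≤ δ → False := fun z k l => by
    have := norm_sub_le (N (qq 1) - z) (N (qq (-1)) - z)
    rw [sub_sub_sub_cancel_right, ← map_sub, e1, iso, n0] at this
    linarith
  have fin : ∀ a b : E, a + b = qq 1 + qq (-1) → ‖N (qq 1) - a‖ ≤ δ → ‖N (qq (-1)) - b‖ ≤ δ →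
      ‖N (pt 0 0 1) - pt 0 0 1‖ ≤ 4 * δ := fun a b e k l => by
    have := norm_add_le (N (qq 1) - a) (N (qq (-1)) - b)
    rw [e2, map_smul, ← smul_sub, norm_smul, map_add, ← e, add_sub_add_comm]
    norm_num; linarith
  rcases b3 1 (Or.inl rfl) with k | k <;> rcases b3 (-1) (Or.inr rfl) with l | l
  exacts [(far _ k l).elim, fin _ _ rfl k l, fin _ _ (add_comm _ _) k l, (far _ k l).elim]

end H99.Mor
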