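import Mathlib
import Pool.Agent.H99.Bub0
import Pool.Agent.H99.Mor2
import Pool.Agent.H99.Mor8

set_option autoImplicit false

open MeasureTheory Set Filter Topology Metric
open scoped ContDiff

namespace H99.Bub
open H99.Mor (nsq co)

noncomputable def bb (r : ℝ) (c x : E) : ℝ := (√(r ^ 2 + ‖x - c‖ ^ 2))⁻¹
def dl (i α : Fin 3) : ℝ := if i = α then 1 else 0
noncomputable def aa (r : ℝ) (c x : E) : ℝ := r ^ 2 * bb r c x ^ 3
noncomputable def w (r : ℝ) (c : E) (α : Fin 3) (x : E) : ℝ := r ^ 2 * ((x - c) α * bb r c x ^ 3)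
noncomputable def g (r : ℝ) (c : E) (i α : Fin 3) (x : E) : ℝ :=
  r ^ 2 * (dl i α * bb r c x ^ 3 - 3 * ((x - c) i * (x - c) α * bb r c x ^ 5))
noncomputable def h (r : ℝ) (c : E) (i α : Fin 3) (x : E) : ℝ :=
  r ^ 2 * (-(3 * dl i α * (x - c) i * bb r c x ^ 5) - 3 * (((x - c) α + (x - c) i * dl i α) *
    bb r c x ^ 5 - 5 * (x - c) i ^ 2 * (x - c) α * bb r c x ^ 7))
noncomputable def f (r : ℝ) (c : E) (α : Fin 3) (x : E) : ℝ :=
  -(15 * r ^ 4 * (x - c) α * bb r c x ^ 7)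

variable {r : ℝ} {c x : E}

lemma bb_pos (hr : 0 < r) (c x : E) : 0 < bb r c x := by unfold bb; positivity

lemma bb_sq (hr : 0 < r) (c x : E) : bb r c x ^ 2 * (r ^ 2 + ‖x - c‖ ^ 2) = 1 := by
  rw [bb, inv_pow, Real.sq_sqrt (by positivity), inv_mul_cancel₀ (by positivity)]

lemma bb_r (hr : 0 < r) (c x : E) : r * bb r c x ≤ 1 ∧ ‖x - c‖ * bb r c x ≤ 1 := by
  have := bb_sq hr c x
  have b := bb_pos hr c x
  have n := norm_nonneg (x - c)
  constructor <;> refine abs_le_one_iff_mul_self_le_one.2 ?_ |>.trans' (le_abs_self _) <;>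
    nlinarith [mul_nonneg (sq_nonneg (bb r c x)) (sq_nonneg r),
      mul_nonneg (sq_nonneg (bb r c x)) (sq_nonneg ‖x - c‖)]

lemma bb_y (hr : 0 < r) (c x : E) (i : Fin 3) : |(x - c) i| * bb r c x ≤ 1 :=
  (mul_le_mul_of_nonneg_right (co _ i) (bb_pos hr c x).le).trans (bb_r hr c x).2

lemma bb_cont (hr : 0 < r) (c : E) : Continuous (bb r c) :=
  Continuous.inv₀ (by fun_prop) fun x => by positivity

lemma aa_pos (hr : 0 < r) (c x : E) : 0 < aa r c x := by
  have := bb_pos hr c x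
  unfold aa; positivity

lemma dY (c x : E) (i α : Fin 3) :
    HasDerivAt (fun t : ℝ => (x + t • EuclideanSpace.single i (1 : ℝ) - c) α) (dl i α) 0 := by
  have : HasDerivAt (fun t : ℝ => x α + t * dl i α - c α) (dl i α) 0 := by
    simpa using (((hasDerivAt_id (0 : ℝ)).mul_const (dl i α)).const_add (x α)).sub_const (c α)
  refine this.congr_of_eventuallyEq (.of_forall fun t => ?_)
  simp [dl, eq_comm]

lemma dB (hr : 0 < r) (c x : E) (i : Fin 3) :
    HasDerivAt (fun t : ℝ => bb r c (x + t • EuclideanSpace.single i (1 : ℝ)))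
      (-((x - c) i * bb r c x ^ 3)) 0 := by
  have h1 : HasDerivAt (fun t : ℝ => x + t • EuclideanSpace.single i (1 : ℝ) - c)
      (EuclideanSpace.single i (1 : ℝ)) 0 := by
    simpa using (((hasDerivAt_id (0 : ℝ)).smul_const
      (EuclideanSpace.single i (1 : ℝ) : E)).const_add x).sub_const c
  have p0 : 0 < r ^ 2 + ‖x + (0 : ℝ) • EuclideanSpace.single i (1 : ℝ) - c‖ ^ 2 := by positivity
  have h2 := ((h1.norm_sq.const_add (r ^ 2)).sqrt p0.ne').inv (Real.sqrt_pos.2 p0).ne'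
  refine h2.congr_deriv ?_
  have s : 0 < √(r ^ 2 + ‖x - c‖ ^ 2) := by positivity
  simp only [zero_smul, add_zero, EuclideanSpace.inner_single_right, bb, one_mul, conj_trivial]
  field_simp

lemma dw (hr : 0 < r) (c x : E) (i α : Fin 3) :
    HasLineDerivAt ℝ (w r c α) (g r c i α x) x (EuclideanSpace.single i 1) := by
  refine (((dY c x i α).mul ((dB hr c x i).pow 3)).const_mul (r ^ 2)).congr_deriv ?_
  simp only [zero_smul, add_zero, g, Pi.pow_apply]; push_cast; ring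

lemma dg (hr : 0 < r) (c x : E) (i α : Fin 3) :
    HasLineDerivAt ℝ (g r c i α) (h r c i α x) x (EuclideanSpace.single i 1) := by
  refine (((((dB hr c x i).pow 3).const_mul (dl i α)).sub (((((dY c x i i).mul (dY c x i α)).mul
    ((dB hr c x i).pow 5))).const_mul 3)).const_mul (r ^ 2)).congr_deriv ?_
  simp only [zero_smul, add_zero, h, Pi.pow_apply, Pi.mul_apply, show dl i i = 1 from if_pos rfl]
  push_cast; ring

lemma hsum (hr : 0 < r) (c x : E) (α : Fin 3) : ∑ i, h r c i α x = f r c α x := by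
  have e := bb_sq hr c x
  rw [nsq] at e
  fin_cases α <;> simp only [Fin.sum_univ_three, h, f, dl] <;> simp <;>
    simp only [PiLp.sub_apply] at e
  · linear_combination (15 * r ^ 2 * (x 0 - c 0) * bb r c x ^ 5) * e
  · linear_combination (15 * r ^ 2 * (x 1 - c 1) * bb r c x ^ 5) * e
  · linear_combination (15 * r ^ 2 * (x 2 - c 2) * bb r c x ^ 5) * e

lemma w_le (hr : 0 < r) (c x : E) (α : Fin 3) : |w r c α x| ≤ ‖x - c‖ * aa r c x := by
  have := bb_pos hr c x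
  rw [w, aa, abs_mul, abs_mul, abs_of_pos (pow_pos hr 2), abs_of_pos (pow_pos this 3)]
  calc _ ≤ r ^ 2 * (‖x - c‖ * bb r c x ^ 3) := by gcongr; exact co _ _
    _ = _ := by ring

lemma dl_le (i α : Fin 3) : |dl i α| ≤ 1 := by unfold dl; split_ifs <;> simp

lemma g_le (hr : 0 < r) (c x : E) (i α : Fin 3) : |g r c i α x| ≤ 4 * aa r c x := by
  have b := bb_pos hr c x
  have a := aa_pos hr c x
  have e : g r c i α x = aa r c x * (dl i α - 3 * (((x - c) i * bb r c x) * ((x - c) α * bb r c x))) := by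
    rw [g, aa]; ring
  have k : ∀ j, |(x - c) j * bb r c x| ≤ 1 := fun j => by
    rw [abs_mul, abs_of_pos b]; exact bb_y hr c x j
  have k2 : |((x - c) i * bb r c x) * ((x - c) α * bb r c x)| ≤ 1 := by
    rw [abs_mul]; exact mul_le_one₀ (k i) (abs_nonneg _) (k α)
  rw [e, abs_mul, abs_of_pos a, mul_comm]
  refine mul_le_mul_of_nonneg_right (abs_le.2 ⟨?_, ?_⟩) a.le <;>
    linarith [abs_le.1 k2, abs_le.1 (dl_le i α)]

lemma f_le (hr : 0 < r) (c x : E) (α : Fin 3) : |f r c α x| ≤ 15 * aa r c x ^ 2 := by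
  have b := bb_pos hr c x
  have e : f r c α x = -(15 * aa r c x ^ 2 * ((x - c) α * bb r c x)) := by rw [f, aa]; ring
  rw [e, abs_neg, abs_mul, abs_mul _ (bb r c x), abs_of_pos b, abs_of_nonneg (by positivity)]
  exact mul_le_of_le_one_right (by positivity) (bb_y hr c x α)

lemma g_low (hr : 0 < r) (c x : E) :
    3 + 2 * aa r c x ^ 2 ≤ ∑ i, ∑ α, (dl i α + g r c i α x) ^ 2 := by
  have e := bb_sq hr c x
  have b := bb_pos hr c x
  have a := aa_pos hr c x
  rw [nsq] at e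
  have eg : ∀ i α, g r c i α x =
      aa r c x * (dl i α - 3 * (((x - c) i * bb r c x) * ((x - c) α * bb r c x))) := fun i α => by
    rw [g, aa]; ring
  simp only [eg, Fin.sum_univ_three, dl]
  set y0 := (x - c) 0 * bb r c x with h0
  set y1 := (x - c) 1 * bb r c x with h1
  set y2 := (x - c) 2 * bb r c x with h2
  have t : y0 ^ 2 + y1 ^ 2 + y2 ^ 2 ≤ 1 := by
    rw [h0, h1, h2]; nlinarith [mul_nonneg (sq_nonneg (bb r c x)) (sq_nonneg r)]
  simp
  nlinarith [mul_nonneg a.le (sub_nonneg.2 t),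
    mul_nonneg (sq_nonneg (aa r c x)) (sq_nonneg (3 * (y0 ^ 2 + y1 ^ 2 + y2 ^ 2) - 1))]

lemma aa_r (hr : 0 < r) (c x : E) : aa r c x * r ≤ 1 := by
  have := pow_le_one₀ (n := 3) (mul_pos hr (bb_pos hr c x)).le (bb_r hr c x).1
  rw [aa]; linarith [show r ^ 2 * bb r c x ^ 3 * r = (r * bb r c x) ^ 3 by ring]

lemma aa_far (hr : 0 < r) (c x : E) {R : ℝ} (hR : 0 ≤ R) (k : R ≤ ‖x - c‖) :
    aa r c x * R ^ 3 ≤ r ^ 2 := by
  have b := bb_pos hr c x
  have := pow_le_one₀ (n := 3) (mul_nonneg hR b.le)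
    ((mul_le_mul_of_nonneg_right k b.le).trans (bb_r hr c x).2)
  calc _ = r ^ 2 * (R * bb r c x) ^ 3 := by rw [aa]; ring
    _ ≤ _ := mul_le_of_le_one_right (by positivity) this

lemma aa_pow {q : ℝ} (hq : 0 < q) (c x : E) (k : x ≠ c) :
    aa (q ^ 4) c x ^ (5 / 2 : ℝ) ≤ q * ‖x - c‖ ^ ((1 / 4 : ℝ) - 3) := by
  have hr := pow_pos hq 4
  have n : 0 < ‖x - c‖ := norm_pos_iff.2 (sub_ne_zero.2 k)
  have a := aa_pos hr c x
  have b := bb_pos hr c x
  refine le_of_pow_le_pow_left₀ four_ne_zero (by positivity) ?_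
  rw [mul_pow, ← Real.rpow_natCast (_ ^ _), ← Real.rpow_natCast (‖x - c‖ ^ _),
    ← Real.rpow_mul a.le, ← Real.rpow_mul n.le,
    show (5 / 2 : ℝ) * (4 : ℕ) = (10 : ℕ) by norm_num,
    show ((1 / 4 : ℝ) - 3) * (4 : ℕ) = -(11 : ℕ) by norm_num, Real.rpow_neg n.le,
    Real.rpow_natCast, Real.rpow_natCast, ← div_eq_mul_inv, le_div_iff₀ (by positivity)]
  have h1 := pow_le_one₀ (n := 19) (mul_pos hr b).le (bb_r hr c x).1
  have h2 := pow_le_one₀ (n := 11) (mul_pos n b).le (bb_r hr c x).2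
  calc _ = q ^ 4 * ((q ^ 4 * bb (q ^ 4) c x) ^ 19 * (‖x - c‖ * bb (q ^ 4) c x) ^ 11) := by
        rw [aa]; ring
    _ ≤ _ := mul_le_of_le_one_right hr.le (mul_le_one₀ h1 (by positivity) h2)

lemma w_low (hr : 0 < r) (c x : E) {σ : ℝ} (h1 : r / 2 < σ * (x - c) 0) (h2 : ‖x - c‖ < r) :
    1 / 6 ≤ σ * w r c 0 x := by
  have e := bb_sq hr c x
  have b := bb_pos hr c x
  have n := norm_nonneg (x - c)
  have k : 1 / 2 ≤ (r * bb r c x) ^ 2 := by
    have : ‖x - c‖ ^ 2 ≤ r ^ 2 := by gcongr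
    nlinarith [mul_le_mul_of_nonneg_left this (sq_nonneg (bb r c x))]
  have t := mul_pos hr b
  have k1 : 7 / 10 ≤ r * bb r c x := by nlinarith
  have k2 : 1 / 3 ≤ (r * bb r c x) ^ 3 := by nlinarith
  calc (1 / 6 : ℝ) ≤ (r * bb r c x) ^ 3 / 2 := by linarith
    _ = r ^ 2 * (r / 2 * bb r c x ^ 3) := by ring
    _ ≤ r ^ 2 * (σ * (x - c) 0 * bb r c x ^ 3) := by gcongr
    _ = _ := by rw [w]; ring

lemma ibp {F F' φ : E → ℝ} (i : Fin 3) (a : Continuous F) (b : Continuous F')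
    (d : ∀ x, HasLineDerivAt ℝ F (F' x) x (EuclideanSpace.single i 1)) (t : Test φ) :
    ∫ x in ball 0 1, F x * pd φ i x = -∫ x in ball 0 1, F' x * φ x := by
  rw [setIntegral_eq_integral_of_forall_compl_eq_zero, setIntegral_eq_integral_of_forall_compl_eq_zero]
  · exact integral_bilinear_hasLineDerivAt_right_eq_neg_left_of_integrable
      (B := ContinuousLinearMap.mul ℝ ℝ) (Mor.int1 b t.1.continuous t.2.1) (Mor.intD a t.1 t.2.1 _)
      (Mor.int1 a t.1.continuous t.2.1) (fun x _ => d x)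
      fun x _ => (t.1.differentiable (by simp) x).hasFDerivAt.hasLineDerivAt _
  · intro x hx
    rw [image_eq_zero_of_notMem_tsupport fun k => hx (t.2.2 k), mul_zero]
  · intro x hx
    rw [pd, image_eq_zero_of_notMem_tsupport (f := fderiv ℝ φ)
      fun k => hx (t.2.2 (tsupport_fderiv_subset ℝ k))]
    simp

end H99.Bub
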