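import Mathlib
import Pool.Agent.H99.Bub1

set_option autoImplicit false

open MeasureTheory Set Filter Topology Metric
open scoped ContDiff ENNReal

namespace H99.Bub
open H99.Mor (nsq co pt v0 v0_pos pt0 pt1 pt2)

noncomputable def t (j : ℕ) : ℝ := (1 / 2) ^ j
noncomputable def q (j : ℕ) : ℝ := t j ^ 2 / 6
noncomputable def cc (j : ℕ) : E := pt (t j / 4) 0 0
noncomputable def a (j : ℕ) (x : E) : ℝ := aa (q j ^ 4) (cc j) x
noncomputable def m (x : E) : ℝ := ∑' j, a j x
noncomputable def nn (j : ℕ) : E → ℝ≥0∞ :=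
  (ball (cc j) (t j / 16)).indicator fun x => ENNReal.ofReal (a j x ^ (5 / 2 : ℝ))
noncomputable def Φ (x : E) : ℝ≥0∞ := ∑' j, nn j x

variable {x : E}

lemma t_pos (j : ℕ) : 0 < t j := by unfold t; positivity
lemma t_le (j : ℕ) : t j ≤ 1 := pow_le_one₀ (by norm_num) (by norm_num)
lemma t_lt {i j : ℕ} (h : i < j) : t j ≤ t i / 2 := by
  have : t j ≤ t (i + 1) := pow_le_pow_of_le_one (by norm_num) (by norm_num) h
  rwa [show t (i + 1) = t i / 2 by simp [t, pow_succ, div_eq_mul_inv]] at this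
lemma t_sum : HasSum t 2 := hasSum_geometric_two
lemma q_pos (j : ℕ) : 0 < q j := by have := t_pos j; unfold q; positivity
lemma r_pos (j : ℕ) : 0 < q j ^ 4 := pow_pos (q_pos j) 4
lemma a_pos (j : ℕ) (x : E) : 0 < a j x := aa_pos (r_pos j) _ _
lemma q_le (j : ℕ) : q j ≤ t j / 6 := by
  have := t_pos j
  have := t_le j
  unfold q; nlinarith

lemma r_le (j : ℕ) : q j ^ 4 ≤ t j / 1000 := by
  have := q_pos j
  have h := q_le j
  have := t_le j
  have : q j ^ 3 ≤ (1 / 6) ^ 3 := by gcongr; linarith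
  nlinarith

lemma n_cc (j : ℕ) : ‖cc j‖ = t j / 4 :=
  (pow_left_inj₀ (norm_nonneg _) (by linarith [t_pos j]) two_ne_zero).1 (by simp [nsq, cc])

lemma a_far {j : ℕ} (h : t j / 16 ≤ ‖x - cc j‖) : a j x ≤ t j / 256 := by
  have t0 := t_pos j
  have := aa_far (r_pos j) (cc j) x (by positivity) h
  have e : (q j ^ 4) ^ 2 = t j ^ 3 * (t j * t j ^ 12) / 6 ^ 8 := by unfold q; ring
  have k : t j * t j ^ 12 ≤ t j := mul_le_of_le_one_right t0.le (pow_le_one₀ t0.le (t_le j))
  have k2 := mul_le_mul_of_nonneg_left k (pow_pos t0 3).le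
  refine le_of_mul_le_mul_left (a := t j ^ 3) ?_ (pow_pos t0 3)
  rw [e] at this
  have := mul_pos (pow_pos t0 3) t0
  unfold a; linarith

lemma key (x : E) : ∃ j0, (∀ j ≠ j0, a j x ≤ t j / 256) ∧
    (a j0 x ≤ 1 ∨ x ∈ ball (cc j0) (t j0 / 16)) := by
  by_cases h : ∃ j0, x ∈ ball (cc j0) (t j0 / 16)
  · obtain ⟨j0, h⟩ := h
    refine ⟨j0, fun j hj => a_far ?_, Or.inr h⟩
    have h1 := mem_ball_iff_norm.1 h
    have h2 := abs_le.1 (co (x - cc j0) 0)
    have h3 := abs_le.1 (co (x - cc j) 0)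
    simp only [PiLp.sub_apply, cc, pt0] at h1 h2 h3 ⊢
    rcases lt_or_gt_of_ne hj with k | k <;> linarith [t_lt k, t_pos j, t_pos j0]
  · push Not at h
    have k : ∀ j, a j x ≤ t j / 256 := fun j => a_far (not_lt.1 fun k => h j (mem_ball_iff_norm.2 k))
    exact ⟨0, fun j _ => k j, Or.inl (by linarith [k 0, t_le 0])⟩

lemma spl {T : ℕ → ℝ} {j0 : ℕ} {C : ℝ} (C0 : 0 ≤ C) (h : ∀ j ≠ j0, |T j| ≤ C * t j) :
    Summable T ∧ |∑' j, T j - T j0| ≤ C * 2 := by
  have s : Summable T := (t_sum.summable.mul_left C).of_norm_bounded_eventually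
    (eventually_cofinite_ne j0 |>.mono h)
  refine ⟨s, ?_⟩
  rw [s.tsum_eq_add_tsum_ite j0, add_sub_cancel_left, ← Real.norm_eq_abs]
  refine tsum_of_norm_bounded (t_sum.mul_left C) fun j => ?_
  split_ifs with k
  · simpa using mul_nonneg C0 (t_pos j).le
  · exact h j k

lemma spl_a {j0 : ℕ} (h : ∀ j ≠ j0, a j x ≤ t j / 256) :
    Summable (a · x) ∧ |m x - a j0 x| ≤ 1 / 256 * 2 :=
  spl (by norm_num) fun j k => by rw [abs_of_pos (a_pos j x)]; linarith [h j k]

lemma a_sum (x : E) : Summable (a · x) := (spl_a (key x).choose_spec.1).1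

lemma a_le (j : ℕ) (x : E) : a j x ≤ m x := (a_sum x).le_tsum j fun i _ => (a_pos i x).le

lemma m_pos (x : E) : 0 < m x := (a_pos 0 x).trans_le (a_le 0 x)

lemma a_cont (j : ℕ) : Continuous (a j) := ((bb_cont (r_pos j) _).pow 3).const_mul _

lemma m_meas : Measurable m := Measurable.tsum fun j => (a_cont j).measurable

lemma nn_meas (j : ℕ) : Measurable (nn j) :=
  ((a_cont j).measurable.pow_const _).ennreal_ofReal.indicator measurableSet_ball

lemma pw {H C : ℝ} (H0 : 0 ≤ H) (C1 : 1 ≤ C) (h : H ≤ C * (1 + m x)) :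
    ENNReal.ofReal (H ^ (5 / 2 : ℝ)) ≤ ENNReal.ofReal ((3 * C) ^ 3) * (1 + Φ x) := by
  obtain ⟨j0, h1, h2⟩ := key x
  have h3 := (abs_le.1 (spl_a h1).2).2
  set M := max 1 (a j0 x)
  have M1 : 1 ≤ M := le_max_left _ _
  have M2 : a j0 x ≤ M := le_max_right _ _
  have h4 : H ≤ 3 * C * M := h.trans (by nlinarith)
  have h5 : H ^ (5 / 2 : ℝ) ≤ (3 * C) ^ 3 * M ^ (5 / 2 : ℝ) := by
    refine (Real.rpow_le_rpow H0 h4 (by norm_num)).trans ?_
    rw [Real.mul_rpow (by linarith) (by linarith), ← Real.rpow_natCast]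
    exact mul_le_mul_of_nonneg_right (Real.rpow_le_rpow_of_exponent_le (by linarith) (by norm_num))
      (by positivity)
  refine (ENNReal.ofReal_le_ofReal h5).trans ?_
  rw [ENNReal.ofReal_mul (by positivity)]
  gcongr
  rcases le_total (a j0 x) 1 with k | k
  · simp [M, max_eq_left k]
  · rcases h2 with h2 | h2
    · simp [M, max_eq_left h2]
    · refine le_trans (le_trans (le_of_eq ?_) (ENNReal.le_tsum (f := fun j => nn j x) j0)) le_add_self
      simp only [M, nn, max_eq_right k, indicator_of_mem h2]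

lemma nnI (j : ℕ) : ∫⁻ x, nn j x ≤ ENNReal.ofReal (12 * v0 * q j) := by
  have e := Mor.radial (a := 1 / 4) (r0 := 0) (r1 := 1) (by norm_num) le_rfl zero_le_one
  rw [Real.one_rpow, Real.zero_rpow (by norm_num), ← lintegral_sub_right_eq_self _ (cc j)] at e
  rw [show 12 * v0 * q j = q j * (3 * v0 * ((1 - 0) / (1 / 4))) by ring,
    ENNReal.ofReal_mul (q_pos j).le, ← e, ← lintegral_const_mul' _ _ (by simp)]
  refine lintegral_mono_ae ?_
  filter_upwards [compl_mem_ae_iff.2 (measure_singleton (cc j))] with x hx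
  by_cases k : x ∈ ball (cc j) (t j / 16)
  · have k' := mem_ball_iff_norm.1 k
    rw [nn, indicator_of_mem k, indicator_of_mem (show ‖x - cc j‖ ∈ Ioo (0 : ℝ) 1 from
      ⟨norm_pos_iff.2 (sub_ne_zero.2 hx), by linarith [t_le j]⟩), ← ENNReal.ofReal_mul (q_pos j).le]
    exact ENNReal.ofReal_le_ofReal (aa_pow (q_pos j) _ _ hx)
  · rw [nn, indicator_of_notMem k]; exact zero_le

lemma sumt {K : ℝ} (K0 : 0 ≤ K) : ∑' j, ENNReal.ofReal (K * t j) = ENNReal.ofReal (K * 2) := by
  rw [← ENNReal.ofReal_tsum_of_nonneg (fun j => mul_nonneg K0 (t_pos j).le)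
    (t_sum.summable.mul_left K), (t_sum.mul_left K).tsum_eq]

lemma big {S : Set E} {H : E → ℝ} {C K : ℝ} (mS : MeasurableSet S) (H0 : ∀ x, 0 ≤ H x) (C1 : 1 ≤ C)
    (K0 : 0 ≤ K) (h : ∀ x ∈ S, H x ≤ C * (1 + m x))
    (k : ∀ j, ∫⁻ x in S, nn j x ≤ ENNReal.ofReal (K * t j)) :
    ∫⁻ x in S, ENNReal.ofReal (H x ^ (5 / 2 : ℝ)) ≤
      ENNReal.ofReal ((3 * C) ^ 3) * (volume S + ENNReal.ofReal (K * 2)) := by
  refine (setLIntegral_mono' mS fun x hx => pw (H0 x) C1 (h x hx)).trans ?_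
  rw [lintegral_const_mul' _ _ (by simp), lintegral_add_left measurable_const, ← sumt K0]
  simp only [Φ]
  rw [lintegral_tsum fun j => (nn_meas j).aemeasurable]
  gcongr with j
  · simp
  · exact k j

lemma memP {X : Type*} [NormedAddCommGroup X] {H : E → X} {C : ℝ} (C1 : 1 ≤ C)
    (mH : AEStronglyMeasurable H (volume.restrict (ball 0 1)))
    (h : ∀ x ∈ ball (0 : E) 1, ‖H x‖ ≤ C * (1 + m x)) :
    MemLp H (ENNReal.ofReal (5 / 2)) (volume.restrict (ball 0 1)) := by
  have v := v0_pos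
  refine ⟨mH, (eLpNorm_lt_top_iff_lintegral_rpow_enorm_lt_top (by simp) (by simp)).2 ?_⟩
  have := big (K := 12 * v0) measurableSet_ball (fun x => norm_nonneg (H x)) C1 (by positivity) h
    fun j => ((setLIntegral_le_lintegral _ _).trans (nnI j)).trans (ENNReal.ofReal_le_ofReal (by
      gcongr; linarith [q_le j, t_pos j]))
  refine lt_of_le_of_lt (le_trans (le_of_eq ?_) this) (ENNReal.mul_lt_top (by simp)
    (ENNReal.add_lt_top.2 ⟨measure_ball_lt_top, by simp⟩))
  congr 1; funext x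
  rw [← ofReal_norm, ENNReal.ofReal_rpow_of_nonneg (norm_nonneg _) (by simp),
    ENNReal.toReal_ofReal (by norm_num)]

lemma mI : IntegrableOn (fun x => m x * (1 + m x)) (ball (0 : E) 1) := by
  have : IsFiniteMeasure (volume.restrict (ball (0 : E) 1)) := ⟨by simp [measure_ball_lt_top]⟩
  have h := memP le_rfl m_meas.aestronglyMeasurable fun x _ => by
    rw [Real.norm_of_nonneg (m_pos x).le]; linarith
  have h2 : MemLp m 2 (volume.restrict (ball (0 : E) 1)) := h.mono_exponent (by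
    rw [← ENNReal.ofReal_ofNat]; exact ENNReal.ofReal_le_ofReal (by norm_num))
  exact ((h2.integrable one_le_two).add h2.integrable_sq).congr (.of_forall fun x => by simp; ring)

lemma Tb {T : ℕ → ℝ} {C : ℝ} (C0 : 0 ≤ C) (h : ∀ j, |T j| ≤ C * (a j x * (1 + m x))) :
    Summable T ∧ |∑' j, T j| ≤ C * (m x * (1 + m x)) :=
  ⟨(((a_sum x).mul_right _).mul_left C).of_norm_bounded h,
    tsum_of_norm_bounded (f := T) (((a_sum x).hasSum.mul_right (1 + m x)).mul_left C) h⟩

lemma sumI {T : ℕ → E → ℝ} {ψ : E → ℝ} (cT : ∀ j, Continuous (T j)) (cψ : Continuous ψ)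
    (h : ∀ j, ∀ x ∈ ball (0 : E) 1, |T j x| ≤ 15 * (a j x * (1 + m x))) :
    IntegrableOn (fun x => (∑' j, T j x) * ψ x) (ball 0 1) ∧
      HasSum (fun j => ∫ x in ball 0 1, T j x * ψ x) (∫ x in ball 0 1, (∑' j, T j x) * ψ x) := by
  obtain ⟨M, hM⟩ := (isCompact_closedBall (0 : E) 1).exists_bound_of_continuousOn cψ.continuousOn
  have M0 : 0 ≤ M := (norm_nonneg _).trans (hM 0 (by simp))
  have ae := ae_restrict_mem (μ := volume) (measurableSet_ball (x := (0 : E)) (ε := 1))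
  refine ⟨((mI.const_mul 15).mul_const M).mono' ((Measurable.tsum fun j => (cT j).measurable).mul
    cψ.measurable).aestronglyMeasurable (ae.mono fun x hx => ?_),
    hasSum_integral_of_dominated_convergence (fun j x => 15 * (a j x * (1 + m x)) * M)
      (fun j => ((cT j).mul cψ).aestronglyMeasurable) (fun j => ae.mono fun x hx => ?_)
      (.of_forall fun x => (((a_sum x).mul_right _).mul_left _).mul_right _)
      (((mI.const_mul 15).mul_const M).congr (.of_forall fun x => ?_))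
      (ae.mono fun x hx => (Tb (by norm_num) fun j => h j x hx).1.hasSum.mul_right _)⟩
  · rw [norm_mul]
    have := m_pos x
    exact mul_le_mul (Tb (by norm_num) fun j => h j x hx).2 (hM x (ball_subset_closedBall hx))
      (norm_nonneg _) (by positivity)
  · rw [norm_mul]
    exact mul_le_mul (h j x hx) (hM x (ball_subset_closedBall hx)) (norm_nonneg _)
      ((abs_nonneg _).trans (h j x hx))
  · exact ((((a_sum x).hasSum.mul_right _).mul_left _).mul_right _).tsum_eq.symm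

end H99.Bub
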