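import Mathlib
import Pool.Agent.H99.Bub2

set_option autoImplicit false

open MeasureTheory Set Filter Topology Metric
open scoped ContDiff ENNReal

namespace H99.Bub
open H99.Mor (nsq co pt v0 v0_pos pt0 pt1 pt2)

noncomputable def W (j : ℕ) := w (q j ^ 4) (cc j)
noncomputable def Gg (j : ℕ) := g (q j ^ 4) (cc j)
noncomputable def Ff (j : ℕ) := f (q j ^ 4) (cc j)
noncomputable def u (x : E) : E := WithLp.toLp 2 fun α => x α + ∑' j, W j α x
noncomputable def G (x : E) : Mt := WithLp.toLp 2 fun k => dl k.1 k.2 + ∑' j, Gg j k.1 k.2 x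
noncomputable def F (x : E) : E := WithLp.toLp 2 fun α => ∑' j, Ff j α x

variable {x : E}

lemma W_cont (j : ℕ) (α : Fin 3) : Continuous (W j α) := by
  have := bb_cont (r_pos j) (cc j)
  unfold W w; fun_prop

lemma G_cont (j : ℕ) (i α : Fin 3) : Continuous (Gg j i α) := by
  have := bb_cont (r_pos j) (cc j)
  unfold Gg g; fun_prop

lemma h_cont (j : ℕ) (i α : Fin 3) : Continuous (h (q j ^ 4) (cc j) i α) := by
  have := bb_cont (r_pos j) (cc j)
  unfold h; fun_prop

lemma F_cont (j : ℕ) (α : Fin 3) : Continuous (Ff j α) := by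
  have := bb_cont (r_pos j) (cc j)
  unfold Ff f; fun_prop

lemma W_le (j : ℕ) (α : Fin 3) (hx : ‖x‖ < 1) : |W j α x| ≤ 2 * a j x :=
  (w_le (r_pos j) _ _ α).trans (mul_le_mul_of_nonneg_right
    (by linarith [norm_sub_le x (cc j), n_cc j, t_le j]) (a_pos j x).le)

lemma W_b (j : ℕ) (α : Fin 3) : ∀ x ∈ ball (0 : E) 1, |W j α x| ≤ 15 * (a j x * (1 + m x)) :=
  fun x hx => by
    linarith [W_le j α (mem_ball_zero_iff.1 hx), a_pos j x, mul_pos (a_pos j x) (m_pos x)]

lemma G_b (j : ℕ) (i α : Fin 3) : ∀ x ∈ ball (0 : E) 1, |Gg j i α x| ≤ 15 * (a j x * (1 + m x)) :=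
  fun x _ => by
    have : |Gg j i α x| ≤ 4 * a j x := g_le (r_pos j) _ _ i α
    linarith [a_pos j x, mul_pos (a_pos j x) (m_pos x)]

lemma F_b (j : ℕ) (α : Fin 3) : ∀ x ∈ ball (0 : E) 1, |Ff j α x| ≤ 15 * (a j x * (1 + m x)) :=
  fun x _ => by
    have : |Ff j α x| ≤ 15 * a j x ^ 2 := f_le (r_pos j) _ _ α
    nlinarith [a_pos j x, a_le j x]

lemma nb {ι : Type*} [Fintype ι] (hc : Fintype.card ι ≤ 9) (y : EuclideanSpace ℝ ι) {c : ℝ}
    (c0 : 0 ≤ c) (h : ∀ i, |y i| ≤ c) : ‖y‖ ≤ 3 * c := by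
  refine le_of_sq_le_sq ?_ (by positivity)
  rw [EuclideanSpace.norm_sq_eq]
  refine (Finset.sum_le_card_nsmul _ _ (c ^ 2) fun i _ => pow_le_pow_left₀ (norm_nonneg _) (h i) 2
    ).trans ?_
  have : (Fintype.card ι : ℝ) ≤ 9 := by exact_mod_cast hc
  rw [Finset.card_univ, nsmul_eq_mul]; nlinarith [sq_nonneg c]

lemma lin {T : ℕ → ℝ} {C : ℝ} (h : ∀ j, |T j| ≤ C * a j x) : |∑' j, T j| ≤ C * m x :=
  tsum_of_norm_bounded (f := T) ((a_sum x).hasSum.mul_left C) h

lemma u_le (hx : x ∈ ball (0 : E) 1) : ‖u x‖ ≤ 6 * (1 + m x) := by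
  have k := mem_ball_zero_iff.1 hx
  have := m_pos x
  refine (nb (by simp) (u x) (c := 2 * (1 + m x)) (by positivity) fun α => ?_).trans_eq (by ring)
  refine (abs_add_le _ _).trans ?_
  linarith [co x α, lin fun j => W_le j α k]

lemma G_le (x : E) : ‖G x‖ ≤ 12 * (1 + m x) := by
  have := m_pos x
  refine (nb (by simp) (G x) (c := 4 * (1 + m x)) (by positivity) fun k => ?_).trans_eq (by ring)
  refine (abs_add_le _ _).trans ?_
  linarith [dl_le k.1 k.2, lin (T := fun j => Gg j k.1 k.2 x) fun j => g_le (r_pos j) _ x k.1 k.2]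

lemma u_meas : Measurable u :=
  (PiLp.continuous_toLp 2 _).measurable.comp (measurable_pi_lambda _ fun α =>
    (by fun_prop : Continuous fun x : E => x α).measurable.add
      (Measurable.tsum fun j => (W_cont j α).measurable))

lemma G_meas : Measurable G :=
  (PiLp.continuous_toLp 2 _).measurable.comp (measurable_pi_lambda _ fun k =>
    (Measurable.tsum fun j => (G_cont j k.1 k.2).measurable).const_add _)

lemma F_meas : Measurable F :=
  (PiLp.continuous_toLp 2 _).measurable.comp (measurable_pi_lambda _ fun α =>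
    Measurable.tsum fun j => (F_cont j α).measurable)

lemma FG (x : E) : 1 ≤ ‖G x‖ ^ 2 ∧ ‖F x‖ ≤ 48 * ‖G x‖ ^ 2 := by
  obtain ⟨j0, h1, -⟩ := key x
  have a0 := a_pos j0 x
  have l : 1 + a j0 x ^ 2 ≤ ‖G x‖ ^ 2 := by
    have e : ∀ i α, (dl i α + Gg j0 i α x) ^ 2 / 2 - 1 / 1000 ≤ G x (i, α) ^ 2 := fun i α => by
      have := (spl (T := fun j => Gg j i α x) (j0 := j0) (C := 1 / 64) (by norm_num) fun j k =>
        (g_le (r_pos j) _ x i α).trans (by have := h1 j k; unfold a at this; linarith)).2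
      have e : G x (i, α) = dl i α + ∑' j, Gg j i α x := rfl
      rw [e]
      set s := ∑' j, Gg j i α x
      have := sq_le_sq' (abs_le.1 this).1 (abs_le.1 this).2
      nlinarith [sq_nonneg (dl i α + s + (s - Gg j0 i α x))]
    have b := g_low (r_pos j0) (cc j0) x
    rw [EuclideanSpace.norm_sq_eq, Fintype.sum_prod_type]
    simp only [Fin.sum_univ_three, Real.norm_eq_abs, sq_abs, Gg] at b e ⊢
    unfold a
    linarith [e 0 0, e 0 1, e 0 2, e 1 0, e 1 1, e 1 2, e 2 0, e 2 1, e 2 2]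
  refine ⟨by nlinarith, (nb (by simp) (F x) (c := 16 * ‖G x‖ ^ 2) (by positivity)
    fun α => ?_).trans_eq (by ring)⟩
  have := (spl (T := fun j => Ff j α x) (j0 := j0) (C := 1) (by norm_num) fun j k =>
    (f_le (r_pos j) _ x α).trans (by
      have := h1 j k
      have := a_pos j x
      have := t_le j
      unfold a at *; nlinarith)).2
  have b : |Ff j0 α x| ≤ 15 * a j0 x ^ 2 := f_le (r_pos j0) _ x α
  have e : F x α = ∑' j, Ff j α x := rfl
  rw [e]
  linarith [abs_sub_abs_le_abs_sub (∑' j, Ff j α x) (Ff j0 α x), sq_nonneg (a j0 x)]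

noncomputable def Q (x _y : E) (z : Mt) : E := (‖z‖ ^ 2 / ‖G x‖ ^ 2) • F x

lemma pd_cont {φ : E → ℝ} (t : Test φ) (i : Fin 3) : Continuous (pd φ i) :=
  (t.1.continuous_fderiv (by simp)).clm_apply continuous_const

lemma cI {ψ : E → ℝ} (c : Continuous ψ) : IntegrableOn ψ (ball (0 : E) 1) :=
  (c.continuousOn.integrableOn_compact (isCompact_closedBall 0 1)).mono_set ball_subset_closedBall

theorem w1p : W1p (5 / 2) u G := by
  refine ⟨memP (C := 6) (by norm_num) u_meas.aestronglyMeasurable fun x => u_le,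
    memP (C := 12) (by norm_num) G_meas.aestronglyMeasurable fun x _ => G_le x, fun φ t i α => ?_⟩
  obtain ⟨i1, s1⟩ := sumI (fun j => W_cont j α) (pd_cont t i) fun j => W_b j α
  obtain ⟨i2, s2⟩ := sumI (fun j => G_cont j i α) t.1.continuous fun j => G_b j i α
  have c : Continuous fun x : E => x α := by fun_prop
  have e0 := ibp (F := fun x => x α) (F' := fun _ => dl i α) i c continuous_const
    (fun x => by simpa [HasLineDerivAt] using dY 0 x i α) t
  have e1 := s1.unique (s2.neg.congr_fun fun j =>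
    ibp i (W_cont j α) (G_cont j i α) (fun x => dw (r_pos j) _ x i α) t)
  have e2 : ∀ x, u x α * pd φ i x = x α * pd φ i x + (∑' j, W j α x) * pd φ i x :=
    fun x => add_mul _ _ _
  have e3 : ∀ x, G x (i, α) * φ x = dl i α * φ x + (∑' j, Gg j i α x) * φ x :=
    fun x => add_mul _ _ _
  simp only [e2, e3]
  rw [integral_add (cI (ψ := fun x => x α * pd φ i x) (c.mul (pd_cont t i))) i1,
    integral_add (cI (t.1.continuous.const_mul _)) i2, e0, e1]
  ring

theorem weak : Weak Q u G := fun φ t => by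
  have eQ : ∀ x α, Q x (u x) (G x) α = ∑' j, Ff j α x := fun x α => by
    rw [Q, div_self (by linarith [(FG x).1]), one_smul]; rfl
  have A := fun i α => sumI (fun j => G_cont j i α) (pd_cont (t α) i) fun j => G_b j i α
  have B := fun α => sumI (fun j => F_cont j α) (t α).1.continuous fun j => F_b j α
  have e3 : ∀ x i α, G x (i, α) * pd (φ α) i x =
      dl i α * pd (φ α) i x + (∑' j, Gg j i α x) * pd (φ α) i x := fun x i α => add_mul _ _ _
  have i0 := fun i α => cI ((pd_cont (t α) i).const_mul (dl i α))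
  have e4 : ∀ i α, ∫ x in ball 0 1, G x (i, α) * pd (φ α) i x =
      ∫ x in ball 0 1, (∑' j, Gg j i α x) * pd (φ α) i x := fun i α => by
    simp only [e3]
    rw [integral_add (i0 i α) (A i α).1, ibp (F := fun _ => dl i α) (F' := fun _ => 0) i
      continuous_const continuous_const (fun x => hasDerivAt_const _ _) (t α)]
    simp
  have iG : ∀ i α, IntegrableOn (fun x => G x (i, α) * pd (φ α) i x) (ball 0 1) := fun i α => by
    simp only [e3]; exact (i0 i α).add (A i α).1
  simp only [eQ]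
  rw [integral_finsetSum _ fun i _ => integrable_finsetSum _ fun α _ => iG i α,
    integral_finsetSum _ fun α _ => (B α).1]
  simp only [fun i => integral_finsetSum Finset.univ fun α _ => iG i α, e4]
  rw [Finset.sum_comm, ← Finset.sum_neg_distrib]
  refine Finset.sum_congr rfl fun α _ => ?_
  refine ((hasSum_sum fun i (_ : i ∈ Finset.univ) => (A i α).2).neg.unique
    ((B α).2.congr_fun fun j => ?_))
  have := fun i => ibp i (G_cont j i α) (h_cont j i α) (fun x => dg (r_pos j) _ x i α) (t α)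
  simp only [this, Finset.sum_neg_distrib, neg_neg]
  rw [← integral_finsetSum _ fun i _ => cI (ψ := fun x => h (q j ^ 4) (cc j) i α x * φ α x)
    ((h_cont j i α).mul (t α).1.continuous)]
  simp only [← Finset.sum_mul, hsum (r_pos j), Ff]

lemma morA (x0 : E) : ∃ K, 0 ≤ K ∧ ∀ᶠ ρ in 𝓝[>] (0 : ℝ), ∀ j,
    ∫⁻ x in ball x0 ρ, nn j x ≤ ENNReal.ofReal (K * ρ * t j) := by
  have v := v0_pos
  have z : ∀ ρ j, ρ + t j / 16 ≤ ‖x0 - cc j‖ → ∫⁻ x in ball x0 ρ, nn j x = 0 := fun ρ j k =>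
    setLIntegral_eq_zero measurableSet_ball fun x hx => indicator_of_notMem (fun l => by
      have := dist_triangle_left x0 (cc j) x
      rw [dist_eq_norm x0] at this
      linarith [mem_ball.1 hx, mem_ball.1 l]) _
  rcases eq_or_ne x0 0 with rfl | h0
  · refine ⟨12 * v0, by positivity, eventually_mem_nhdsWithin.mono fun ρ (ρ0 : 0 < ρ) j => ?_⟩
    by_cases k : ρ + t j / 16 ≤ ‖0 - cc j‖
    · rw [z ρ j k]; exact zero_le
    rw [zero_sub, norm_neg, n_cc] at k
    refine ((setLIntegral_le_lintegral _ _).trans (nnI j)).trans (ENNReal.ofReal_le_ofReal ?_)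
    have := t_pos j
    rw [mul_assoc (12 * v0)]
    gcongr
    unfold q; nlinarith
  have n := norm_pos_iff.2 h0
  obtain ⟨J, hJ⟩ := exists_pow_lt_of_lt_one n (show (1 / 2 : ℝ) < 1 by norm_num)
  have rJ := r_pos J
  have tJ := t_pos J
  refine ⟨(1 / q J ^ 4) ^ (5 / 2 : ℝ) * v0 / t J, by positivity, mem_of_superset
    (Ioo_mem_nhdsGT (lt_min (half_pos n) one_pos)) fun ρ ⟨ρ0, ρ1⟩ j => ?_⟩
  rw [lt_min_iff] at ρ1
  rcases le_or_gt j J with k | k
  · have tj : t J ≤ t j := pow_le_pow_of_le_one (by norm_num) (by norm_num) k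
    have b : ∀ x, nn j x ≤ ENNReal.ofReal ((1 / q J ^ 4) ^ (5 / 2 : ℝ)) := fun x => by
      refine indicator_apply_le' (fun _ => ENNReal.ofReal_le_ofReal (Real.rpow_le_rpow
        (a_pos j x).le ?_ (by norm_num))) fun _ => zero_le
      rw [le_div_iff₀ rJ]
      refine le_trans (mul_le_mul_of_nonneg_left ?_ (a_pos j x).le) (aa_r (r_pos j) _ _)
      unfold q; gcongr
    refine (lintegral_mono b).trans ?_
    rw [lintegral_const, Measure.restrict_apply_univ, Measure.addHaar_ball _ _ ρ0.le,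
      ← ENNReal.ofReal_toReal (measure_ball_lt_top (μ := volume) (x := (0 : E)) (r := 1)).ne,
      ← ENNReal.ofReal_mul (by positivity), ← ENNReal.ofReal_mul (by positivity)]
    refine ENNReal.ofReal_le_ofReal ?_
    have e : ρ ^ Module.finrank ℝ E ≤ ρ := pow_le_of_le_one ρ0.le ρ1.2.le (by simp)
    calc _ ≤ (1 / q J ^ 4) ^ (5 / 2 : ℝ) * (ρ * v0) := by gcongr; rfl
      _ = (1 / q J ^ 4) ^ (5 / 2 : ℝ) * v0 / t J * ρ * t J := by field_simp
      _ ≤ _ := by gcongr
  · rw [z ρ j ?_]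
    · exact zero_le
    have : t J < ‖x0‖ := hJ
    linarith [norm_sub_norm_le x0 (cc j), n_cc j, t_lt k]

theorem mor (x0 : E) : Tendsto (Mq (5 / 2) G x0) (𝓝[>] 0) (𝓝 0) := by
  obtain ⟨K, K0, hK⟩ := morA x0
  have v := v0_pos
  have c : ContinuousAt (fun ρ : ℝ => ENNReal.ofReal ((3 * 12) ^ 3 * (v0 + K * 2) * ρ ^ (1 / 2 : ℝ))) 0 :=
    ENNReal.continuous_ofReal.continuousAt.comp (continuousAt_const.mul
      (continuousAt_id.rpow_const (Or.inr (by norm_num))))
  have c2 := c.tendsto.mono_left (nhdsWithin_le_nhds (s := Ioi 0))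
  rw [Real.zero_rpow (by norm_num), mul_zero, ENNReal.ofReal_zero] at c2
  refine tendsto_of_tendsto_of_tendsto_of_le_of_le' tendsto_const_nhds c2 (.of_forall fun _ => zero_le) ?_
  filter_upwards [hK, Ioo_mem_nhdsGT one_pos] with ρ h1 ⟨ρ0, ρ1⟩
  have b := big (S := ball x0 ρ) (C := 12) measurableSet_ball (fun x => norm_nonneg (G x))
    (by norm_num) (mul_nonneg K0 ρ0.le) (fun x _ => G_le x) h1
  have s := Real.rpow_pos_of_pos ρ0 (1 / 2)
  rw [Mq, show (3 : ℝ) - 5 / 2 = 1 / 2 by norm_num]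
  refine ENNReal.div_le_of_le_mul (le_trans (le_of_eq ?_) (b.trans ?_))
  · congr 1; funext x
    rw [← ofReal_norm, ENNReal.ofReal_rpow_of_nonneg (norm_nonneg _) (by norm_num)]
  rw [Measure.addHaar_ball _ _ ρ0.le,
    ← ENNReal.ofReal_toReal (measure_ball_lt_top (μ := volume) (x := (0 : E)) (r := 1)).ne,
    ← ENNReal.ofReal_mul (by positivity), ← ENNReal.ofReal_add (by positivity) (by positivity),
    ← ENNReal.ofReal_mul (by positivity), ← ENNReal.ofReal_mul (by positivity)]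
  refine ENNReal.ofReal_le_ofReal ?_
  have e : ρ ^ Module.finrank ℝ E ≤ ρ := pow_le_of_le_one ρ0.le ρ1.le (by simp)
  rw [mul_assoc _ (ρ ^ (1 / 2 : ℝ)), ← Real.rpow_add ρ0, add_halves, Real.rpow_one]
  calc _ ≤ ((3 : ℝ) * 12) ^ 3 * (ρ * v0 + K * ρ * 2) := by gcongr; rfl
    _ = _ := by ring

theorem disc {v : E → E} (c : ContinuousOn v (ball 0 (1 / 2)))
    (e : u =ᵐ[volume.restrict (ball 0 (1 / 2))] v) : False := by
  obtain ⟨η, η0, hη⟩ := Metric.continuousAt_iff.1 (c.continuousAt (ball_mem_nhds 0 (by norm_num)))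
    (1 / 10) (by norm_num)
  obtain ⟨j, hj⟩ := exists_pow_lt_of_lt_one (lt_min η0 (show (0 : ℝ) < 1 / 50 by norm_num))
    (show (1 / 2 : ℝ) < 1 by norm_num)
  rw [lt_min_iff] at hj
  have t1 : t j < η := hj.1
  have t2 : t j < 1 / 50 := hj.2
  have r0 := r_pos j
  have r1 := r_le j
  have k : ∀ σ : ℝ, σ ^ 2 = 1 → 1 / 40 < σ * v 0 0 := fun σ hσ => by
    have σ1 : |σ| = 1 := by rw [← sq_eq_sq₀ (abs_nonneg _) zero_le_one, sq_abs, hσ, one_pow]
    set U : Set E := {x | q j ^ 4 / 2 < σ * (x - cc j) 0} ∩ ball (cc j) (q j ^ 4)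
    have oU : IsOpen U := (isOpen_lt continuous_const (by fun_prop)).inter isOpen_ball
    have nU : U.Nonempty := ⟨cc j + pt (3 / 4 * q j ^ 4 * σ) 0 0, by
      simp only [mem_ofPred_eq, add_sub_cancel_left, pt0]; nlinarith, by
      rw [mem_ball_iff_norm, add_sub_cancel_left]
      refine lt_of_pow_lt_pow_left₀ 2 r0.le ?_
      rw [nsq, pt0, pt1, pt2, mul_pow, hσ]; nlinarith⟩
    have sU : ∀ x ∈ U, ‖x‖ < t j := fun x hx => by
      linarith [norm_sub_norm_le x (cc j), mem_ball_iff_norm.1 hx.2, n_cc j, t_pos j]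
    obtain ⟨x, hx, ex⟩ := Measure.exists_mem_of_measure_ne_zero_of_ae (oU.measure_pos volume nU).ne'
      (ae_restrict_of_ae_restrict_of_subset (fun x hx => mem_ball_zero_iff.2
        (by linarith [sU x hx])) e)
    have n := sU x hx
    have b1 := w_low r0 (cc j) x hx.1 (mem_ball_iff_norm.1 hx.2)
    obtain ⟨j0, h1, -⟩ := key x
    obtain rfl : j = j0 := by
      by_contra k
      have := (w_le r0 (cc j) x 0).trans (mul_le_of_le_one_left (a_pos j x).le
        (by linarith [mem_ball_iff_norm.1 hx.2]))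
      have b := le_abs_self (σ * w (q j ^ 4) (cc j) 0 x)
      rw [abs_mul, σ1, one_mul] at b
      have b' := h1 j k
      unfold a at b'
      linarith
    have b2 := (spl (T := fun i => W i 0 x) (j0 := j) (C := 1 / 128) (by norm_num) fun i k =>
      (W_le i 0 (by linarith)).trans (by linarith [h1 i k])).2
    have b3 := (co (v x - v 0) 0).trans (hη (x := x) (by simpa using n.trans t1)).le
    have b4 := (co x 0).trans n.le
    have e2 : v x 0 = x 0 + ∑' i, W i 0 x := by rw [← ex]; rfl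
    rw [PiLp.sub_apply, e2] at b3
    have ab : ∀ y : ℝ, -|y| ≤ σ * y := fun y => by
      have := neg_abs_le (σ * y)
      rwa [abs_mul, σ1, one_mul] at this
    have b5 := ab (x 0)
    have b6 := ab (∑' i, W i 0 x - W j 0 x)
    have b7 := ab (-(x 0 + ∑' i, W i 0 x - v 0 0))
    rw [abs_neg] at b7
    unfold W at *
    linarith
  linarith [k 1 (by norm_num), k (-1) (by norm_num)]

end H99.Bub
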