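import Pool.Agent.H99.CRDefs

/-! A family of CR structures on `ℝ⁵` governed by a function of two parameters. -/

open Filter Topology Set Complex
open scoped ContDiff

noncomputable section

namespace Pool.Agent.H99.CR

theorem cx_smul {n : ℕ} (A : (Fin n → ℝ) →L[ℝ] (Fin n → ℂ)) (c : ℂ) (v : Fin n → ℂ) :
    cx A (c • v) = c • cx A v := by
  have h1 : (fun i => ((c • v) i).re) = c.re • (fun i => (v i).re) - c.im • fun i => (v i).im := by
    funext i; simp
  have h2 : (fun i => ((c • v) i).im) = c.re • (fun i => (v i).im) + c.im • fun i => (v i).re := by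
    funext i; simp
  rw [cx, cx, h1, h2, map_sub, map_add, map_smul, map_smul, map_smul, map_smul]
  funext i
  simp only [Pi.add_apply, Pi.sub_apply, Pi.smul_apply, smul_eq_mul, real_smul]
  nth_rewrite 5 [← re_add_im c]
  linear_combination (-(c.im : ℂ) * A (fun i => (v i).im) i) * I_mul_I

abbrev E := Fin 5 → ℝ

def e (i : Fin 5) : E := Pi.single i 1

variable {ρ : ℝ × ℝ → ℝ}

def LL (ρ : ℝ × ℝ → ℝ) (p : E) : Fin 5 → ℂ := ![1, I, 0, 0, I * (p 0 * ρ (p 2, p 3) : ℝ)]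

def HH (ρ : ℝ × ℝ → ℝ) (p : E) : Submodule ℂ (Fin 5 → ℂ) := Submodule.span ℂ {LL ρ p}

theorem contDiff_LL (hρ : ContDiff ℝ ∞ ρ) : ContDiff ℝ ∞ (LL ρ) := by
  refine contDiff_pi.2 fun i => ?_
  fin_cases i <;> simp only [LL] <;> try exact contDiff_const
  exact contDiff_const.mul (ofRealCLM.contDiff.comp (f := fun p : E => p 0 * ρ (p 2, p 3)) (by fun_prop))

theorem mem_HH {p : E} {v : Fin 5 → ℂ} (h : v ∈ HH ρ p) : v = v 0 • LL ρ p := by
  obtain ⟨c, rfl⟩ := Submodule.mem_span_singleton.1 h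
  simp [LL]

theorem isCR (hρ : ContDiff ℝ ∞ ρ) : IsCR (HH ρ) := by
  refine ⟨⟨1, fun p => ⟨univ, univ_mem, fun _ => LL ρ, fun _ => (contDiff_LL hρ).contDiffOn,
    fun q _ => ⟨linearIndependent_unique_iff.2 fun h => by simpa [LL] using congrFun h 0,
      by simp [HH]⟩⟩⟩, fun p v h1 h2 => ?_, fun U V W hU hV hW h q hq => ?_⟩
  · have h3 := congrFun (mem_HH h1) 1
    have h4 := congrFun (mem_HH h2) 1
    simp only [LL, Pi.smul_apply, Matrix.cons_val_one, Matrix.cons_val_zero, smul_eq_mul,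
      Pi.star_apply, h3, star_mul', star_def, conj_I] at h4
    have h5 : (starRingEnd ℂ) (v 0) = 0 := by linear_combination (I / 2) * h4 + (starRingEnd ℂ) (v 0) * I_mul_I
    rw [mem_HH h1, (map_eq_zero _).1 h5, zero_smul]
  · have key : ∀ V : E → Fin 5 → ℂ, ContDiffOn ℝ ∞ V U → (∀ q ∈ U, V q ∈ HH ρ q) →
        ∃ a : E →L[ℝ] ℂ, ∀ v, fderiv ℝ V q v = V q 0 • fderiv ℝ (LL ρ) q v + a v • LL ρ q := by
      intro V hV h
      have h1 : DifferentiableAt ℝ (fun x => V x 0) q :=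
        differentiableAt_pi.1 ((hV.contDiffAt (hU.mem_nhds hq)).differentiableAt (by simp)) 0
      have h2 := h1.hasFDerivAt.smul ((contDiff_LL hρ).differentiable (by simp) q).hasFDerivAt
      refine ⟨fderiv ℝ (fun x => V x 0) q, fun v => ?_⟩
      rw [(h2.congr_of_eventuallyEq (f₁ := V) (by
        filter_upwards [hU.mem_nhds hq] with x hx using mem_HH (h x hx))).fderiv]
      simp
    obtain ⟨a, ha⟩ := key V hV fun q hq => (h q hq).1
    obtain ⟨b, hb⟩ := key W hW fun q hq => (h q hq).2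
    have k2 : ∀ (V : E → Fin 5 → ℂ) (a : E →L[ℝ] ℂ),
        (∀ v, fderiv ℝ V q v = V q 0 • fderiv ℝ (LL ρ) q v + a v • LL ρ q) → ∃ c : ℂ,
        cx (fderiv ℝ V q) (LL ρ q) = V q 0 • cx (fderiv ℝ (LL ρ) q) (LL ρ q) + c • LL ρ q :=
      fun V a ha => ⟨a (fun i => (LL ρ q i).re) + I * a fun i => (LL ρ q i).im, by
        simp only [cx, ha]
        module⟩
    obtain ⟨c, hc⟩ := k2 V a ha
    obtain ⟨d, hd⟩ := k2 W b hb
    rw [mem_HH (h q hq).1, mem_HH (h q hq).2, cx_smul, cx_smul, hc, hd]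
    refine Submodule.mem_span_singleton.2 ⟨V q 0 * d - W q 0 * c, ?_⟩
    module

theorem cx_LL {h : E → E} {p : E} (hd : DifferentiableAt ℝ h p) (i : Fin 5) :
    cx (fderiv ℝ (fun q i => (h q i : ℂ)) p) (LL ρ p) i =
      fderiv ℝ h p (e 0) i + I * fderiv ℝ h p (e 1 + (p 0 * ρ (p 2, p 3)) • e 4) i := by
  have h1 : HasFDerivAt (fun q i => (h q i : ℂ)) (ContinuousLinearMap.pi fun i =>
      ofRealCLM.comp ((ContinuousLinearMap.proj i).comp (fderiv ℝ h p))) p :=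
    hasFDerivAt_pi.2 fun i => ofRealCLM.hasFDerivAt.comp p (hasFDerivAt_pi'.1 hd.hasFDerivAt i)
  have h2 : (fun i => (LL ρ p i).re) = e 0 := by
    funext i; fin_cases i <;> simp [LL, e]
  have h3 : (fun i => (LL ρ p i).im) = e 1 + (p 0 * ρ (p 2, p 3)) • e 4 := by
    funext i; fin_cases i <;> simp [LL, e]
  rw [cx, h1.fderiv, h2, h3]
  rfl

theorem cr_eqs {h : OpenPartialHomeomorph E E} (hh : IsCRDiffeo (HH ρ) h) {p : E}
    (hp : p ∈ h.source) : ∀ A B : E, A = fderiv ℝ h p (e 0) →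
    B = fderiv ℝ h p (e 1 + (p 0 * ρ (p 2, p 3)) • e 4) →
    A 2 = 0 ∧ B 2 = 0 ∧ A 3 = 0 ∧ B 3 = 0 ∧ A 1 = -B 0 ∧ B 1 = A 0 ∧
      A 4 = A 1 * (h p 0 * ρ (h p 2, h p 3)) ∧ B 4 = B 1 * (h p 0 * ρ (h p 2, h p 3)) ∧
      (A 0 ≠ 0 ∨ B 0 ≠ 0) := by
  intro A B hA hB
  have hd := (hh.1.contDiffAt (h.open_source.mem_nhds hp)).differentiableAt (by simp)
  have h1 := hh.2.2 p hp
  have h2 : cx (fderiv ℝ (fun q i => (h q i : ℂ)) p) (LL ρ p) ∈ HH ρ (h p) := by
    rw [← SetLike.mem_coe, ← h1]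
    exact mem_image_of_mem _ (Submodule.mem_span_singleton_self _)
  have h3 := fun i => congrFun (mem_HH h2) i
  simp only [Pi.smul_apply, cx_LL hd, ← hA, ← hB] at h3
  have k1 := h3 1
  have k2 := h3 2
  have k3 := h3 3
  have k4 := h3 4
  simp [LL, Complex.ext_iff] at k1 k2 k3 k4
  refine ⟨k2.1, k2.2, k3.1, k3.2, k1.1, k1.2, by rw [k4.1, k1.1]; ring, by rw [k4.2, k1.2], ?_⟩
  have h4 : LL ρ (h p) ∈ (HH ρ (h p) : Set (Fin 5 → ℂ)) := Submodule.mem_span_singleton_self _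
  rw [← h1] at h4
  obtain ⟨v, hv, h5⟩ := h4
  rw [mem_HH hv, cx_smul] at h5
  have h6 := congrFun h5 0
  rw [Pi.smul_apply, cx_LL hd, ← hA, ← hB] at h6
  by_contra hc
  push Not at hc
  simp [hc.1, hc.2, LL] at h6

theorem line_deriv {F : Type*} [NormedAddCommGroup F] [NormedSpace ℝ F] {f : E → F} {p : E}
    (hf : DifferentiableAt ℝ f p) (v : E) :
    HasDerivAt (fun s : ℝ => f (p + s • v)) (fderiv ℝ f p v) 0 := by
  have h1 : HasDerivAt (fun s : ℝ => p + s • v) v 0 := by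
    simpa using ((hasDerivAt_id (0 : ℝ)).smul_const v).const_add p
  exact HasFDerivAt.comp_hasDerivAt_of_eq 0 hf.hasFDerivAt h1 (by simp)

theorem line_nhds {U : Set E} {p : E} (h : U ∈ 𝓝 p) (v : E) :
    ∀ᶠ s : ℝ in 𝓝 0, p + s • v ∈ U :=
  (by fun_prop : Continuous fun s : ℝ => p + s • v).continuousAt.preimage_mem_nhds (by simpa)

theorem levi (hρ : ContDiff ℝ ∞ ρ) {h : OpenPartialHomeomorph E E} (hh : IsCRDiffeo (HH ρ) h)
    {p : E} (hp : p ∈ h.source) (h0 : ρ (p 2, p 3) = 0) : ρ (h p 2, h p 3) = 0 := by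
  have hn := h.open_source.mem_nhds hp
  have hc := hh.1.contDiffAt hn
  have hd := hc.differentiableAt (by simp)
  have hd2 : DifferentiableAt ℝ (fderiv ℝ h) p :=
    (hc.fderiv_right (m := 1) (by norm_cast)).differentiableAt (by simp)
  have hsym := hc.isSymmSndFDerivAt (by simp; norm_cast) (e 0) (e 1)
  have key : ∀ v w : E, fderiv ℝ h p v 2 = 0 → fderiv ℝ h p v 3 = 0 →
      (∀ᶠ s : ℝ in 𝓝 0, fderiv ℝ h (p + s • v) w 4 = fderiv ℝ h (p + s • v) w 1 *
        (h (p + s • v) 0 * ρ (h (p + s • v) 2, h (p + s • v) 3))) →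
      fderiv ℝ (fderiv ℝ h) p v w 4 = fderiv ℝ (fderiv ℝ h) p v w 1 * (h p 0 * ρ (h p 2, h p 3)) +
        fderiv ℝ h p w 1 * (fderiv ℝ h p v 0 * ρ (h p 2, h p 3)) := by
    intro v w h2 h3 hev
    have a1 := fun i => hasDerivAt_pi.1 ((line_deriv hd2 v).clm_apply (hasDerivAt_const _ w)) i
    have a2 := fun i => hasDerivAt_pi.1 (line_deriv hd v) i
    have a3 := (hρ.differentiable (by simp) _).hasFDerivAt.comp_hasDerivAt 0
      ((a2 2).prodMk (a2 3))
    have a4 := (a1 4).unique (((a1 1).mul ((a2 0).mul a3)).congr_of_eventuallyEq hev)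
    simpa [h2, h3, Prod.mk_zero_zero] using a4
  obtain ⟨a2, b2, a3, b3, a1, b1, -, -, hne⟩ := cr_eqs hh hp _ _ rfl rfl
  simp only [h0, mul_zero, zero_smul, add_zero] at b2 b3 a1 b1 hne
  have k1 := key (e 1) (e 0) b2 b3 (by
    filter_upwards [line_nhds hn (e 1)] with s hs
    exact (cr_eqs hh hs _ _ rfl rfl).2.2.2.2.2.2.1)
  have k2 := key (e 0) (e 1) a2 a3 (by
    filter_upwards [line_nhds hn (e 0)] with s hs
    have := (cr_eqs hh hs _ _ rfl rfl).2.2.2.2.2.2.2.1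
    simpa [e, h0] using this)
  rw [hsym, k1, a1, b1] at k2
  by_contra hr
  have h5 : (fderiv ℝ h p (e 0) 0 ^ 2 + fderiv ℝ h p (e 1) 0 ^ 2) * ρ (h p 2, h p 3) = 0 := by
    linarith
  have h6 := (mul_eq_zero.1 h5).resolve_right hr
  rcases hne with h7 | h7
  · exact h7 (by nlinarith [sq_nonneg (fderiv ℝ h p (e 0) 0), sq_nonneg (fderiv ℝ h p (e 1) 0)])
  · exact h7 (by nlinarith [sq_nonneg (fderiv ℝ h p (e 0) 0), sq_nonneg (fderiv ℝ h p (e 1) 0)])

theorem const_of_countable {g : ℝ → ℝ} {g' : ℝ} {C : Set ℝ} (hC : C.Countable)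
    (hg : ∀ᶠ s in 𝓝 0, ContinuousAt g s ∧ g s ∈ C) (hd : HasDerivAt g g' 0) : g' = 0 := by
  obtain ⟨r, hr, h⟩ := Metric.eventually_nhds_iff_ball.1 hg
  have h1 := hC.isTotallyDisconnected (g '' Metric.ball 0 r)
    (by rintro _ ⟨s, hs, rfl⟩; exact (h s hs).2)
    ((convex_ball (0 : ℝ) r).isPreconnected.image g
      fun s hs => (h s hs).1.continuousWithinAt)
  refine hd.unique ((hasDerivAt_const (0 : ℝ) (g 0)).congr_of_eventuallyEq ?_)
  filter_upwards [Metric.ball_mem_nhds (0 : ℝ) hr] with s hs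
  exact h1 (mem_image_of_mem g hs) (mem_image_of_mem g (Metric.mem_ball_self hr))

theorem orbit_zero (hρ : ContDiff ℝ ∞ ρ) (h0 : ∀ x, ρ (x, 0) = 0) {C : Set ℝ} (hC : C.Countable)
    (hZ : ∀ x y, ρ (x, y) = 0 → y ∈ C ∧ (y ≠ 0 → x ∈ C)) {h : OpenPartialHomeomorph E E}
    (hh : IsCRDiffeo (HH ρ) h) (hp : 0 ∈ h.source) : h 0 3 = 0 ∧ fderiv ℝ h 0 (e 3) 3 ≠ 0 := by
  have hn := h.open_source.mem_nhds hp
  have hd := (hh.1.contDiffAt hn).differentiableAt (by simp)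
  have hsurj : ∀ w, ∃ v, fderiv ℝ h 0 v = w := by
    intro w
    have hq := h.map_source hp
    have h1 := (hh.2.1.contDiffAt (h.open_target.mem_nhds hq)).differentiableAt (by simp)
    have h2 := (HasFDerivAt.comp (h 0) (by rw [h.left_inv hp]; exact hd.hasFDerivAt)
      h1.hasFDerivAt).unique ((hasFDerivAt_id (h 0)).congr_of_eventuallyEq (by
        filter_upwards [h.open_target.mem_nhds hq] with y hy using h.right_inv hy))
    exact ⟨_, congrArg (fun A : E →L[ℝ] E => A w) h2⟩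
  have hev : ∀ v : E, v 3 = 0 → ∀ᶠ s : ℝ in 𝓝 0, (∀ i, ContinuousAt (fun s : ℝ =>
      h (0 + s • v) i) s) ∧ ρ (h (0 + s • v) 2, h (0 + s • v) 3) = 0 := by
    intro v hv
    filter_upwards [line_nhds hn v] with s hs
    refine ⟨fun i => (continuous_apply i).continuousAt.comp
      ((h.continuousAt hs).comp (f := fun s : ℝ => 0 + s • v) (by fun_prop)),
      levi hρ hh hs (by simp [hv, h0])⟩
  have dec : ∀ v : E, ∃ w : E, w 3 = 0 ∧ v = w + v 3 • e 3 :=
    fun v => ⟨v - v 3 • e 3, by simp [e], by simp⟩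
  have h3 : ∀ v : E, v 3 = 0 → fderiv ℝ h 0 v 3 = 0 := fun v hv =>
    const_of_countable hC ((hev v hv).mono fun s hs => ⟨hs.1 3, (hZ _ _ hs.2).1⟩)
      (hasDerivAt_pi.1 (line_deriv hd v) 3)
  have h4 : fderiv ℝ h 0 (e 3) 3 ≠ 0 := by
    intro hc
    obtain ⟨v, hv⟩ := hsurj (e 3)
    obtain ⟨w, hw, h5⟩ := dec v
    have := congrFun hv 3
    rw [h5, map_add, map_smul] at this
    simp [h3 w hw, hc] at this
    simp [e] at this
  refine ⟨?_, h4⟩
  by_contra hc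
  have h2 : ∀ v : E, v 3 = 0 → fderiv ℝ h 0 v 2 = 0 := fun v hv =>
    const_of_countable hC (by
      have := ((hev v hv).self_of_nhds.1 3).eventually_ne (y := 0) (by simpa using hc)
      filter_upwards [hev v hv, this] with s hs h5 using ⟨hs.1 2, (hZ _ _ hs.2).2 h5⟩)
      (hasDerivAt_pi.1 (line_deriv hd v) 2)
  obtain ⟨v, hv⟩ := hsurj (e 2)
  obtain ⟨w, hw, h5⟩ := dec v
  have k2 := congrFun hv 2
  have k3 := congrFun hv 3
  rw [h5, map_add, map_smul] at k2 k3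
  simp only [Pi.add_apply, Pi.smul_apply, h3 w hw, h2 w hw, zero_add, smul_eq_mul] at k2 k3
  rw [show e 2 3 = 0 by simp [e]] at k3
  rw [(mul_eq_zero.1 k3).resolve_right h4, zero_mul] at k2
  simp [e] at k2

theorem mem_orbit (hρ : ContDiff ℝ ∞ ρ) {s : ℝ → ℝ} (hs : ContDiff ℝ ∞ s)
    (hi : ∀ x y, ρ (x + s y, y) = ρ (x, y)) (a b c : ℝ) : ![a, b, s 0, 0, c] ∈ orbit (HH ρ) 0 := by
  have hi' : ∀ x y, ρ (x - s y, y) = ρ (x, y) := fun x y => by rw [← hi, sub_add_cancel]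
  let f : E → E := fun p => ![p 0 + a, p 1 + b, p 2 + s (p 3), p 3, p 4 + a * ρ (p 2, p 3) * p 1 + c]
  let g : E → E := fun p =>
    ![p 0 - a, p 1 - b, p 2 - s (p 3), p 3, p 4 - a * ρ (p 2, p 3) * (p 1 - b) - c]
  have hf : ContDiff ℝ ∞ f := contDiff_pi.2 fun i => by fin_cases i <;> simp [f] <;> fun_prop
  have hg : ContDiff ℝ ∞ g := contDiff_pi.2 fun i => by fin_cases i <;> simp [g] <;> fun_prop
  let F : E ≃ₜ E :=
    { toFun := f
      invFun := g
      left_inv := fun p => by funext i; fin_cases i <;> simp [f, g, hi]; ring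
      right_inv := fun p => by funext i; fin_cases i <;> simp [f, g, hi']; ring
      continuous_toFun := hf.continuous
      continuous_invFun := hg.continuous }
  refine ⟨F.toOpenPartialHomeomorph, ⟨hf.contDiffOn, hg.contDiffOn, fun p _ => ?_⟩, mem_univ _,
    by funext i; fin_cases i <;> simp [F, f]⟩
  have hd := hf.differentiable (by simp) p
  have h1 : ∀ v : E, v 2 = 0 → v 3 = 0 →
      fderiv ℝ f p v = v + (a * ρ (p 2, p 3) * v 1) • e 4 := by
    intro v h2 h3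
    refine (line_deriv hd v).unique ?_
    have := ((hasDerivAt_id (0 : ℝ)).smul_const
      (v + (a * ρ (p 2, p 3) * v 1) • e 4)).const_add (f p)
    rw [one_smul] at this
    convert this using 2 with t
    funext i
    fin_cases i <;> simp [f, e, h2, h3] <;> ring
  have h2 : cx (fderiv ℝ (fun q i => (f q i : ℂ)) p) (LL ρ p) = LL ρ (f p) := by
    funext i
    rw [cx_LL hd, h1 _ (by simp [e]) (by simp [e]), h1 _ (by simp [e]) (by simp [e])]
    fin_cases i <;> simp [LL, e, f, hi]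
    ring
  change cx (fderiv ℝ (fun q i => (f q i : ℂ)) p) '' _ = HH ρ (f p)
  ext v
  simp only [HH, mem_image, SetLike.mem_coe, Submodule.mem_span_singleton, exists_exists_eq_and,
    cx_smul, h2]

end Pool.Agent.H99.CR
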