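import Pool.Agent.H99.CR1

/-! A smooth function of two variables with many shear symmetries. -/

open Filter Topology Set
open scoped ContDiff

noncomputable section

namespace Pool.Agent.H99.CR

variable {F G : Type} [NormedAddCommGroup F] [NormedSpace ℝ F] [NormedAddCommGroup G]
  [NormedSpace ℝ G]

def BD (f : F → ℝ) : Prop := ContDiff ℝ ∞ f ∧ ∀ k, ∃ C, ∀ x, ‖iteratedFDeriv ℝ k f x‖ ≤ C

theorem norm_comp_le {f : G → ℝ} (hf : ContDiff ℝ ∞ f) (D : F →L[ℝ] G) (k : ℕ) (x : F) :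
    ‖iteratedFDeriv ℝ k (fun x => f (D x)) x‖ ≤ ‖iteratedFDeriv ℝ k f (D x)‖ * ‖D‖ ^ k := by
  have := D.iteratedFDeriv_comp_right hf x (i := k) (by exact_mod_cast le_top)
  rw [show (fun x => f (D x)) = f ∘ D from rfl, this]
  exact (ContinuousMultilinearMap.norm_compContinuousLinearMap_le _ _).trans_eq (by simp)

theorem BD.comp {f : G → ℝ} (hf : BD f) (D : F →L[ℝ] G) : BD fun x => f (D x) :=
  ⟨hf.1.comp D.contDiff, fun k => (hf.2 k).elim fun C hC =>
    ⟨C * ‖D‖ ^ k, fun x => (norm_comp_le hf.1 D k x).trans (by gcongr; exact hC _)⟩⟩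

theorem BD.mul {f g : F → ℝ} (hf : BD f) (hg : BD g) : BD fun x => f x * g x := by
  refine ⟨hf.1.mul hg.1, fun k => ?_⟩
  choose C hC using hf.2
  choose C' hC' using hg.2
  refine ⟨∑ i ∈ Finset.range (k + 1), (k.choose i : ℝ) * C i * C' (k - i), fun x =>
    (norm_iteratedFDeriv_mul_le hf.1 hg.1 x (by exact_mod_cast le_top)).trans ?_⟩
  gcongr with i
  · exact mul_nonneg (by positivity) ((norm_nonneg _).trans (hC i x))
  · exact hC i x
  · exact hC' _ x

theorem bd_sin : BD Real.sin := ⟨Real.contDiff_sin, fun k => ⟨1, fun x => by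
  rw [norm_iteratedFDeriv_eq_norm_iteratedDeriv]
  exact Real.abs_iteratedDeriv_sin_le_one k x⟩⟩

theorem bd_bump {c : ℝ} (b : ContDiffBump c) : BD b := ⟨b.contDiff, fun k =>
  ((b.contDiff (n := ⊤)).continuous_iteratedFDeriv (by exact_mod_cast le_top)).bounded_above_of_compact_support
    (b.hasCompactSupport.iteratedFDeriv k)⟩

theorem smooth_series {f : G → ℝ} (hf : BD f) (D : ℕ → F →L[ℝ] G) {m c : ℕ → ℝ}
    (hm : ∀ j, 2 ≤ m j) (hD : ∀ j, ‖D j‖ ≤ m j) (hc : ∀ j, |c j| ≤ (m j)⁻¹ ^ j) :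
    (ContDiff ℝ ∞ fun x => ∑' j, c j * f (D j x)) ∧ ∀ x, Summable fun j => c j * f (D j x) := by
  choose C hC using hf.2
  have hs := fun k => (summable_geometric_two.mul_left (C k * 2 ^ k))
  have key : ∀ k j, k ≤ j → ∀ x, ‖iteratedFDeriv ℝ k (fun x => c j * f (D j x)) x‖ ≤
      C k * 2 ^ k * (1 / 2) ^ j := by
    intro k j hkj x
    obtain ⟨i, rfl⟩ := Nat.exists_eq_add_of_le hkj
    have h1 := iteratedFDeriv_const_smul_apply' (a := c (k + i)) (i := k) (x := x)
      ((hf.comp (D (k + i))).1.contDiffAt.of_le (by exact_mod_cast le_top))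
    simp only [smul_eq_mul] at h1
    have h2 := hm (k + i)
    have h3 := (norm_nonneg _).trans (hC k 0)
    rw [h1, norm_smul]
    calc _ ≤ (m (k + i))⁻¹ ^ (k + i) * (C k * m (k + i) ^ k) := by
          gcongr
          · exact hc _
          · exact (norm_comp_le hf.1 _ k x).trans (by gcongr; exacts [hC _ _, hD _])
      _ = C k * (m (k + i))⁻¹ ^ i := by rw [pow_add, inv_pow]; field_simp
      _ ≤ C k * (1 / 2) ^ i := by rw [one_div]; gcongr
      _ = _ := by rw [pow_add, mul_assoc, ← mul_assoc (2 ^ k), ← mul_pow]; simp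
  refine ⟨contDiff_tsum_of_eventually (fun j => contDiff_const.mul (hf.comp (D j)).1)
    (fun k _ => hs k) fun k _ => ?_, fun x => .of_norm_bounded (hs 0) fun j => ?_⟩
  · rw [Nat.cofinite_eq_atTop]
    filter_upwards [eventually_ge_atTop k] with j hj using key k j hj
  · simpa using key 0 j (Nat.zero_le _) x

theorem exists_rho {h d : ℕ → ℝ} (h0 : ∀ j, 0 < h j) (d0 : ∀ j, 0 < d j)
    (h1 : ∀ j, h (j + 1) ≤ h j / 6) (h2 : h 0 ≤ 1) : ∃ ρ : ℝ × ℝ → ℝ, ContDiff ℝ ∞ ρ ∧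
    (∀ x, ρ (x, 0) = 0) ∧ (∀ j, ρ (0, h j) = 0) ∧
    (∀ x y, ρ (x, y) = 0 → y = 0 ∨ ∃ j, y = h j ∧ ∃ k : ℤ, x = k * d j) ∧
    ∀ (S : ℕ → ℝ) (t : ℝ), Tendsto S atTop (𝓝 t) → (∀ j, ∃ k : ℤ, S j = k * d j) →
      (∀ i, |S (i + 1) - S i| ≤ (h i / 4) ^ i) →
      ∃ s : ℝ → ℝ, ContDiff ℝ ∞ s ∧ s 0 = t ∧ ∀ x y, ρ (x + s y, y) = ρ (x, y) := by
  have anti : Antitone h := antitone_nat_of_succ_le fun j => by linarith [h1 j, h0 j]
  have lim : Tendsto h atTop (𝓝 0) := by
    refine squeeze_zero (fun j => (h0 j).le) (fun j => ?_)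
      (tendsto_pow_atTop_nhds_zero_of_lt_one (r := 1 / 6) (by norm_num) (by norm_num))
    induction j with
    | zero => simpa using h2
    | succ j ih => rw [pow_succ]; linarith [h1 j]
  obtain ⟨η, e1, e2, e3⟩ :=
    lim.isCompact_insert_range.isClosed.isOpen_compl.exists_contDiff_support_eq (n := ⊤)
  let β : ContDiffBump (1 : ℝ) := ⟨1 / 4, 1 / 2, by norm_num, by norm_num⟩
  let κ : ContDiffBump (0 : ℝ) := ⟨1, 2, by norm_num, by norm_num⟩
  let D : ℕ → ℝ × ℝ →L[ℝ] ℝ × ℝ := fun j =>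
    ((Real.pi / d j) • ContinuousLinearMap.fst ℝ ℝ ℝ).prod ((h j)⁻¹ • ContinuousLinearMap.snd ℝ ℝ ℝ)
  have hbd : BD fun p : ℝ × ℝ => β p.2 * (Real.sin p.1 * Real.sin p.1) :=
    ((bd_bump β).comp (.snd ℝ ℝ ℝ)).mul ((bd_sin.comp (.fst ℝ ℝ ℝ)).mul (bd_sin.comp (.fst ℝ ℝ ℝ)))
  obtain ⟨s1, s2⟩ := smooth_series hbd D (m := fun j => max 2 ‖D j‖)
    (c := fun j => (max 2 ‖D j‖)⁻¹ ^ j) (fun j => le_max_left _ _) (fun j => le_max_right _ _)
    fun j => (abs_of_nonneg (by positivity)).le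
  have band : ∀ j y, β ((h j)⁻¹ * y) ≠ 0 → h j / 2 < y ∧ y < 3 * h j / 2 := by
    intro j y hy
    have : (h j)⁻¹ * y ∈ Function.support β := hy
    rw [β.support_eq, Real.ball_eq_Ioo] at this
    obtain ⟨a, b⟩ := this
    rw [lt_inv_mul_iff₀ (h0 j)] at a
    rw [inv_mul_lt_iff₀ (h0 j)] at b
    simp only [β] at a b
    constructor <;> linarith
  have eta : ∀ y, η y = 0 ↔ y ∈ insert 0 (range h) := fun y => by
    rw [← not_iff_not, ← mem_compl_iff, ← e1]
    rfl
  refine ⟨fun p => η p.2 + ∑' j, _, (e2.comp contDiff_snd).add s1, fun x => ?_, fun j => ?_,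
    fun x y hxy => ?_, fun S t hS hk hb => ?_⟩
  · have : β 0 = 0 := β.zero_of_le_dist (by simp [β]; norm_num)
    simp [D, this, eta]
  · simp [D, eta]
  · have a1 : 0 ≤ η y := (e3 (mem_range_self y)).1
    have a2 : ∀ j, 0 ≤ (max 2 ‖D j‖)⁻¹ ^ j *
        (β (D j (x, y)).2 * (Real.sin (D j (x, y)).1 * Real.sin (D j (x, y)).1)) := fun j =>
      mul_nonneg (by positivity) (mul_nonneg β.nonneg (mul_self_nonneg _))
    obtain ⟨a3, a4⟩ := (add_eq_zero_iff_of_nonneg a1 (tsum_nonneg a2)).1 hxy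
    rcases (eta y).1 a3 with hy | ⟨j, rfl⟩
    · exact Or.inl hy
    refine Or.inr ⟨j, rfl, ?_⟩
    have a5 := le_antisymm (((s2 (x, h j)).le_tsum j fun i _ => a2 i).trans_eq a4) (a2 j)
    have a6 : β 1 = 1 := β.one_of_mem_closedBall (Metric.mem_closedBall_self β.rIn_pos.le)
    have a7 : (max 2 ‖D j‖)⁻¹ ^ j ≠ 0 := by positivity
    rw [mul_eq_zero, or_iff_right a7] at a5
    simp [D, (h0 j).ne', a6, Real.sin_eq_zero_iff] at a5
    obtain ⟨k, hk⟩ := a5
    refine ⟨k, ?_⟩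
    have := d0 j
    field_simp at hk
    linarith
  · obtain ⟨t1, t2⟩ := smooth_series (bd_bump κ) (fun i => (4 / h i) • ContinuousLinearMap.id ℝ ℝ)
      (m := fun i => 4 / h i) (c := fun i => S (i + 1) - S i)
      (fun i => by rw [le_div_iff₀ (h0 i)]; linarith [anti (Nat.zero_le i)])
      (fun i => by
        rw [norm_smul, ContinuousLinearMap.norm_id, mul_one, Real.norm_eq_abs,
          abs_of_pos (div_pos four_pos (h0 i))])
      fun i => by simpa using hb i
    refine ⟨fun y => S 0 + ∑' i, _, contDiff_const.add t1, ?_, fun x y => ?_⟩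
    · have a6 : κ 0 = 1 := κ.one_of_mem_closedBall (Metric.mem_closedBall_self κ.rIn_pos.le)
      have a1 := (t2 0).hasSum.tendsto_sum_nat
      simp only [map_zero, a6, mul_one, Finset.sum_range_sub] at a1 ⊢
      linarith [tendsto_nhds_unique a1 (hS.sub_const _)]
    · refine congrArg _ (tsum_congr fun j => congrArg _ ?_)
      by_cases hβ : β ((h j)⁻¹ * y) = 0
      · simp [D, hβ]
      obtain ⟨b1, b2⟩ := band j y hβ
      have hj := h0 j
      beta_reduce
      rw [tsum_eq_sum (s := Finset.range j) fun i hi => ?_, Finset.sum_congr rfl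
        (g := fun i => S (i + 1) - S i) fun i hi => ?_, Finset.sum_range_sub]
      · obtain ⟨k, hk⟩ := hk j
        have := d0 j
        have a1 : Real.pi / d j * (x + (S 0 + (S j - S 0))) = Real.pi / d j * x + k * Real.pi := by
          rw [add_sub_cancel, hk]
          field_simp
        have a2 : ((-1 : ℝ) ^ k) * (-1) ^ k = 1 := by rw [← mul_zpow]; simp
        simp only [D, ContinuousLinearMap.prod_apply, ContinuousLinearMap.smul_apply,
          ContinuousLinearMap.coe_fst', ContinuousLinearMap.coe_snd', smul_eq_mul, a1,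
          Real.sin_add_int_mul_pi]
        linear_combination β ((h j)⁻¹ * y) * Real.sin (Real.pi / d j * x) ^ 2 * a2
      · rw [κ.one_of_mem_closedBall, mul_one]
        have a1 := anti (Finset.mem_range.1 hi : i + 1 ≤ j)
        have a2 := h0 i
        simp only [ContinuousLinearMap.smul_apply, ContinuousLinearMap.id_apply, smul_eq_mul,
          mem_closedBall_zero_iff, Real.norm_eq_abs, κ]
        rw [abs_of_pos (mul_pos (by positivity) (by linarith)), div_mul_eq_mul_div, div_le_one a2]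
        linarith [h1 i]
      · rw [κ.zero_of_le_dist, mul_zero]
        have a1 := anti (not_lt.1 fun h => hi (Finset.mem_range.2 h) : j ≤ i)
        have a2 := h0 i
        simp only [ContinuousLinearMap.smul_apply, ContinuousLinearMap.id_apply, smul_eq_mul,
          dist_zero_right, Real.norm_eq_abs, κ]
        rw [abs_of_pos (mul_pos (by positivity) (by linarith)), div_mul_eq_mul_div, le_div_iff₀ a2]
        linarith

theorem countable_Z {ρ : ℝ × ℝ → ℝ} {h d : ℕ → ℝ}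
    (hZ : ∀ x y, ρ (x, y) = 0 → y = 0 ∨ ∃ j, y = h j ∧ ∃ k : ℤ, x = k * d j) :
    ∃ C : Set ℝ, C.Countable ∧ ∀ x y, ρ (x, y) = 0 → y ∈ C ∧ (y ≠ 0 → x ∈ C) := by
  refine ⟨insert 0 (range h ∪ range fun p : ℤ × ℕ => p.1 * d p.2),
    ((countable_range _).union (countable_range _)).insert 0, fun x y hxy => ?_⟩
  rcases hZ x y hxy with h1 | ⟨j, h1, k, h2⟩
  · exact ⟨Or.inl h1, fun h => absurd h1 h⟩
  · exact ⟨Or.inr (Or.inl ⟨j, h1.symm⟩), fun _ => Or.inr (Or.inr ⟨(k, j), h2.symm⟩)⟩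

end Pool.Agent.H99.CR
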