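import Mathlib

/-! Smooth CR structures on `ℝⁿ`, local CR diffeomorphisms, orbits, infinitesimal automorphisms. -/

open Filter Topology Set
open scoped ContDiff

noncomputable section

namespace Pool.Agent.H99.CR

variable {n : ℕ}

/-- The complex-linear extension of a real-linear map `ℝⁿ → ℂⁿ` to `ℂⁿ`. -/
def cx (A : (Fin n → ℝ) →L[ℝ] (Fin n → ℂ)) (v : Fin n → ℂ) : Fin n → ℂ :=
  A (fun i => (v i).re) + Complex.I • A (fun i => (v i).im)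

/-- `H` is a smooth CR structure on `ℝⁿ`. -/
def IsCR (H : (Fin n → ℝ) → Submodule ℂ (Fin n → ℂ)) : Prop :=
  (∃ r : ℕ, ∀ p, ∃ U ∈ 𝓝 p, ∃ L : Fin r → (Fin n → ℝ) → Fin n → ℂ,
    (∀ k, ContDiffOn ℝ ∞ (L k) U) ∧ ∀ q ∈ U, LinearIndependent ℂ (fun k => L k q) ∧
      Submodule.span ℂ (range fun k => L k q) = H q) ∧
  (∀ p v, v ∈ H p → star v ∈ H p → v = 0) ∧
  ∀ (U : Set (Fin n → ℝ)) (V W : (Fin n → ℝ) → Fin n → ℂ), IsOpen U → ContDiffOn ℝ ∞ V U →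
    ContDiffOn ℝ ∞ W U → (∀ q ∈ U, V q ∈ H q ∧ W q ∈ H q) →
    ∀ q ∈ U, cx (fderiv ℝ W q) (V q) - cx (fderiv ℝ V q) (W q) ∈ H q

/-- A diffeomorphism between open sets whose complexified differential maps `H` onto `H`. -/
def IsCRDiffeo (H : (Fin n → ℝ) → Submodule ℂ (Fin n → ℂ))
    (h : OpenPartialHomeomorph (Fin n → ℝ) (Fin n → ℝ)) : Prop :=
  ContDiffOn ℝ ∞ h h.source ∧ ContDiffOn ℝ ∞ h.symm h.target ∧
    ∀ p ∈ h.source, cx (fderiv ℝ (fun q i => (h q i : ℂ)) p) '' H p = H (h p)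

/-- The orbit of `p` under local CR diffeomorphisms. -/
def orbit (H : (Fin n → ℝ) → Submodule ℂ (Fin n → ℂ)) (p : Fin n → ℝ) : Set (Fin n → ℝ) :=
  {q | ∃ h, IsCRDiffeo H h ∧ p ∈ h.source ∧ h p = q}

/-- `X` is smooth near `p` and has a local flow near `p` made of CR diffeomorphisms. -/
def InfAut (H : (Fin n → ℝ) → Submodule ℂ (Fin n → ℂ)) (p : Fin n → ℝ)
    (X : (Fin n → ℝ) → Fin n → ℝ) : Prop :=
  (∃ U ∈ 𝓝 p, ContDiffOn ℝ ∞ X U) ∧ ∃ ε > 0, ∃ U ∈ 𝓝 p,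
    ∃ Φ : ℝ → OpenPartialHomeomorph (Fin n → ℝ) (Fin n → ℝ), (∀ x ∈ U, Φ 0 x = x) ∧
      ∀ s ∈ Ioo (-ε) ε, IsCRDiffeo H (Φ s) ∧ U ⊆ (Φ s).source ∧
        ∀ x ∈ U, HasDerivAt (fun s => Φ s x) (X (Φ s x)) s

end Pool.Agent.H99.CR
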