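import Mathlib

set_option autoImplicit false

namespace Pool.Agent.H99.CircMin

open Filter Topology Real

noncomputable def e (x : ℝ) : Circle := Circle.exp (2 * π * x)

lemma e_cov : IsCoveringMap e :=
  Circle.isCoveringMap_exp.comp_homeomorph (Homeomorph.mulLeft₀ (2 * π) (by positivity))

lemma e_cont : Continuous e := e_cov.continuous

lemma e_eq {x y : ℝ} : e x = e y ↔ ∃ m : ℤ, x = y + m := by
  rw [e, e, Circle.exp_eq_exp]
  refine exists_congr fun m => ⟨fun h => ?_, fun h => by rw [h]; ring⟩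
  have : (2 * π) ≠ 0 := by positivity
  exact mul_left_cancel₀ this (by rw [h]; ring)

lemma e_add (x : ℝ) (m : ℤ) : e (x + m) = e x := e_eq.2 ⟨m, rfl⟩

lemma e_surj (z : Circle) : ∃ x, e x = z := by
  obtain ⟨x, rfl⟩ := Circle.exp_surjective z
  exact ⟨x / (2 * π), by rw [e]; congr 1; field_simp⟩

lemma lift_unique {F G : ℝ → ℝ} (hF : Continuous F) (hG : Continuous G)
    (h : ∀ x, e (F x) = e (G x)) : ∃ k : ℤ, ∀ x, F x = G x + k := by
  obtain ⟨k, hk⟩ := e_eq.1 (h 0)
  exact ⟨k, congrFun (e_cov.eq_of_comp_eq hF (hG.add continuous_const)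
    (funext fun x => (h x).trans (e_add _ k).symm) 0 hk)⟩

lemma lift_sq {f : Circle → Circle} (hf : Continuous f) (hi : Function.Injective f) :
    ∃ F : CircleDeg1Lift, Continuous F ∧ Function.Injective F ∧ ∀ x, e (F x) = f (f (e x)) := by
  obtain ⟨y0, hy0⟩ := e_surj (f (e 0))
  obtain ⟨F, ⟨-, hF⟩, -⟩ := e_cov.existsUnique_continuousMap_lifts ⟨f ∘ e, hf.comp e_cont⟩ 0 y0 hy0
  have h1 : ∀ x, e (F x) = f (e x) := fun x => congrFun hF x
  have h2 : ∀ x y, ∀ m : ℤ, F x = F y + m → ∃ k : ℤ, x = y + k := fun x y m h =>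
    e_eq.1 (hi (by rw [← h1, ← h1, h, e_add]))
  obtain ⟨d, hd⟩ := lift_unique (F := fun x => F (x + 1)) (G := F) (by fun_prop) F.continuous
    (fun x => by rw [h1, h1]; exact congrArg f (e_eq.2 ⟨1, by simp⟩))
  have h3 : ∀ x ∈ Set.Ioo (0 : ℝ) 1, ∀ m : ℤ, F x ≠ F 0 + m := fun x hx m h => by
    obtain ⟨k, hk⟩ := h2 x 0 m h
    rw [zero_add] at hk
    rw [hk] at hx
    have h4 : (0 : ℤ) < k := by exact_mod_cast hx.1
    have h5 : k < 1 := by exact_mod_cast hx.2
    omega
  have hd0 := hd 0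
  rw [zero_add] at hd0
  have d1 : d < 2 := by
    by_contra hc
    have : (2 : ℝ) ≤ d := by exact_mod_cast not_lt.1 hc
    obtain ⟨x, hx, h⟩ := intermediate_value_Ioo zero_le_one F.continuous.continuousOn
      (show F 0 + 1 ∈ Set.Ioo (F 0) (F 1) from ⟨by linarith, by linarith⟩)
    exact h3 x hx 1 (by simpa using h)
  have d2 : -2 < d := by
    by_contra hc
    have : (d : ℝ) ≤ -2 := by exact_mod_cast not_lt.1 hc
    obtain ⟨x, hx, h⟩ := intermediate_value_Ioo' zero_le_one F.continuous.continuousOn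
      (show F 0 - 1 ∈ Set.Ioo (F 1) (F 0) from ⟨by linarith, by linarith⟩)
    exact h3 x hx (-1) (by rw [h]; push_cast; ring)
  have d3 : d ≠ 0 := by
    rintro rfl
    have h4 : ∀ x ∈ Set.Ioo (0 : ℝ) (1 / 2), ∀ y ∈ Set.Ioo (1 / 2 : ℝ) 1, F x ≠ F y :=
      fun x hx y hy h => by
        obtain ⟨k, hk⟩ := h2 y x 0 (by simp [h])
        have h4 : (0 : ℤ) < k := by
          have : (0 : ℝ) < k := by linarith [hx.2, hy.1]
          exact_mod_cast this
        have h5 : k < 1 := by
          have : (k : ℝ) < 1 := by linarith [hx.1, hy.2]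
          exact_mod_cast this
        omega
    have h5 := h3 (1 / 2) ⟨by norm_num, by norm_num⟩ 0
    simp only [Int.cast_zero, add_zero] at h5 hd0
    rcases lt_or_gt_of_ne h5 with h | h
    · obtain ⟨x, hx, ex⟩ := intermediate_value_Ioo' (show (0 : ℝ) ≤ 1 / 2 by norm_num)
        F.continuous.continuousOn
        (show (F 0 + F (1 / 2)) / 2 ∈ Set.Ioo (F (1 / 2)) (F 0) from ⟨by linarith, by linarith⟩)
      obtain ⟨y, hy, ey⟩ := intermediate_value_Ioo (show (1 / 2 : ℝ) ≤ 1 by norm_num)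
        F.continuous.continuousOn
        (show (F 0 + F (1 / 2)) / 2 ∈ Set.Ioo (F (1 / 2)) (F 1) from ⟨by linarith, by linarith⟩)
      exact h4 x hx y hy (ex.trans ey.symm)
    · obtain ⟨x, hx, ex⟩ := intermediate_value_Ioo (show (0 : ℝ) ≤ 1 / 2 by norm_num)
        F.continuous.continuousOn
        (show (F 0 + F (1 / 2)) / 2 ∈ Set.Ioo (F 0) (F (1 / 2)) from ⟨by linarith, by linarith⟩)
      obtain ⟨y, hy, ey⟩ := intermediate_value_Ioo' (show (1 / 2 : ℝ) ≤ 1 by norm_num)
        F.continuous.continuousOn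
        (show (F 0 + F (1 / 2)) / 2 ∈ Set.Ioo (F 1) (F (1 / 2)) from ⟨by linarith, by linarith⟩)
      exact h4 x hx y hy (ex.trans ey.symm)
  have h6 : ∀ (k : ℤ) x, F (x + k) = F x + k * d := by
    intro k
    induction k using Int.induction_on with
    | zero => simp
    | succ n ih => intro x; push_cast at ih ⊢; rw [← add_assoc, hd, ih]; ring
    | pred n ih =>
      intro x
      have := hd (x + ((-(n : ℤ) - 1 : ℤ) : ℝ))
      have h7 := ih x
      push_cast at this h7 ⊢
      rw [show x + (-(n : ℝ) - 1) + 1 = x + -n by ring, h7] at this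
      linarith
  have hinj : Function.Injective F := fun x y h => by
    obtain ⟨k, rfl⟩ := h2 x y 0 (by simp [h])
    rw [h6] at h
    have : (k : ℝ) * d = 0 := by linarith
    rcases mul_eq_zero.1 this with h | h
    · simp [h]
    · exact absurd (by exact_mod_cast h) d3
  have hm : Monotone (F ∘ F) := by
    rcases F.continuous.strictMono_of_inj hinj with h | h
    · exact (h.comp h).monotone
    · exact (h.comp h).monotone
  refine ⟨⟨⟨F ∘ F, hm⟩, fun x => ?_⟩, F.continuous.comp F.continuous, hinj.comp hinj,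
    fun x => ?_⟩
  · change F (F (x + 1)) = F (F x) + 1
    rw [hd, h6]
    have : d = 1 ∨ d = -1 := by omega
    rcases this with rfl | rfl <;> simp
  · change e (F (F x)) = _
    rw [h1, h1]

section abstract
variable {G : Type} [Group G] (ψ : G → Circle → Circle) (h1 : ψ 1 = id)
  (hm : ∀ g h, ψ (g * h) = ψ g ∘ ψ h) (hc : ∀ g, Continuous (ψ g))
include h1 hm hc

omit hc in
lemma inv_apply (g : G) (z : Circle) : ψ g⁻¹ (ψ g z) = z := by
  rw [← Function.comp_apply (f := ψ g⁻¹), ← hm, inv_mul_cancel, h1]; rfl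

lemma lift_unit (g : G) : ∃ F : CircleDeg1Liftˣ, Continuous F ∧ ∀ x, e (F x) = ψ (g * g) (e x) := by
  obtain ⟨F, c, i, h⟩ := lift_sq (hc g) (Function.LeftInverse.injective (inv_apply ψ h1 hm g))
  obtain ⟨U, rfl⟩ := CircleDeg1Lift.isUnit_iff_bijective.2 ⟨i, F.continuous_iff_surjective.1 c⟩
  exact ⟨U, c, fun x => by rw [hm]; exact h x⟩

omit h1 hm hc in
lemma unit_cont (U : CircleDeg1Liftˣ) : Continuous U :=
  (CircleDeg1Lift.continuous_iff_surjective _).2
    (CircleDeg1Lift.isUnit_iff_bijective.1 U.isUnit).2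

lemma fix_comm (h r : G) (hh : Commute (h * h) (r * r * (h * h) * (r * r)⁻¹)) :
    ∃ z, ψ (h * h * (r * r * (h * h) * (r * r)⁻¹)⁻¹) z = z := by
  have uc := unit_cont
  obtain ⟨U, -, hU⟩ := lift_unit ψ h1 hm hc h
  obtain ⟨V, -, hV⟩ := lift_unit ψ h1 hm hc r
  have inv : ∀ (W : CircleDeg1Liftˣ) (g : G), (∀ x, e (W x) = ψ g (e x)) →
      ∀ x, e ((W⁻¹ : CircleDeg1Liftˣ) x) = ψ g⁻¹ (e x) := fun W g hW x => by
    conv_rhs => rw [← CircleDeg1Lift.units_apply_inv_apply W x, hW, inv_apply ψ h1 hm]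
  have mul : ∀ (W W' : CircleDeg1Liftˣ) (g g' : G), (∀ x, e (W x) = ψ g (e x)) →
      (∀ x, e (W' x) = ψ g' (e x)) →
      ∀ x, e ((W * W' : CircleDeg1Liftˣ) x) = ψ (g * g') (e x) := fun W W' g g' hW hW' x => by
    rw [hm, Function.comp_apply, ← hW', ← hW]; rfl
  have hW := mul _ _ _ _ (mul _ _ _ _ hV hU) (inv _ _ hV)
  set W := V * U * V⁻¹ with eW
  have t1 : CircleDeg1Lift.translationNumber W = CircleDeg1Lift.translationNumber U := by
    rw [eW, Units.val_mul, Units.val_mul]; exact CircleDeg1Lift.translationNumber_conj_eq V U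
  obtain ⟨k, hk⟩ := lift_unique (uc (U * W)) (uc (W * U))
    (fun x => by rw [mul _ _ _ _ hU hW, mul _ _ _ _ hW hU, hh.eq])
  have t2 : (U * W : CircleDeg1Lift) =
      (CircleDeg1Lift.translate (Multiplicative.ofAdd (k : ℝ)) : CircleDeg1Liftˣ) * (W * U) := by
    ext x
    rw [CircleDeg1Lift.mul_apply _ (W * U : CircleDeg1Lift), CircleDeg1Lift.translate_apply,
      add_comm]
    exact hk x
  have t3 : CircleDeg1Lift.translationNumber (U * W : CircleDeg1Lift) =
      CircleDeg1Lift.translationNumber (W * U : CircleDeg1Lift) := by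
    rw [← CircleDeg1Lift.translationNumber_conj_eq U (W * U)]
    simp [mul_assoc]
  have t4 : (k : ℝ) = 0 := by
    rw [t2, CircleDeg1Lift.translationNumber_mul_of_commute,
      CircleDeg1Lift.translationNumber_translate] at t3
    · linarith
    · ext x
      simp only [CircleDeg1Lift.mul_apply, CircleDeg1Lift.translate_apply,
        CircleDeg1Lift.map_int_add]
  have t5 : Commute U W := by
    ext x
    have := hk x
    rw [t4, add_zero] at this
    exact this
  have t6 : CircleDeg1Lift.translationNumber (U * W⁻¹ : CircleDeg1Liftˣ) = 0 := by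
    rw [Units.val_mul, CircleDeg1Lift.translationNumber_mul_of_commute
      (Commute.units_val_iff.2 t5.inv_right), CircleDeg1Lift.translationNumber_units_inv, t1,
      add_neg_cancel]
  obtain ⟨x, hx⟩ := CircleDeg1Lift.exists_eq_add_translationNumber _ (uc (U * W⁻¹))
  rw [t6, add_zero] at hx
  exact ⟨e x, by rw [← mul _ _ _ _ hU (inv _ _ hW)]; exact congrArg e hx⟩

lemma fix_in (b : G) (p : Circle) (hp : ψ b p = p) (C : Set Circle) (hC : IsClosed C)
    (hne : C.Nonempty) (hb : ∀ z ∈ C, ψ (b * b) z ∈ C) (hb' : ∀ z ∈ C, ψ (b * b)⁻¹ z ∈ C) :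
    ∃ z ∈ C, ψ (b * b) z = z := by
  obtain ⟨B, cB, hB⟩ := lift_unit ψ h1 hm hc b
  obtain ⟨x, rfl⟩ := e_surj p
  obtain ⟨m, hx⟩ := e_eq.1 (show e (B x) = e x by rw [hB, hm, Function.comp_apply, hp, hp])
  obtain ⟨z, hz⟩ := hne
  obtain ⟨y, rfl⟩ := e_surj z
  have hcl : IsClosed (e ⁻¹' C ∩ Set.Ici x) := (hC.preimage e_cont).inter isClosed_Ici
  have hn : (e ⁻¹' C ∩ Set.Ici x).Nonempty := ⟨y + ⌈x - y⌉, by
    rw [Set.mem_preimage, e_add]; exact hz, by
    have := Int.le_ceil (x - y)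
    simp only [Set.mem_Ici]; linarith⟩
  have hbd : BddBelow (e ⁻¹' C ∩ Set.Ici x) := ⟨x, fun _ h => h.2⟩
  have hs := hcl.csInf_mem hn hbd
  set s := sInf (e ⁻¹' C ∩ Set.Ici x)
  have a1 : s ≤ B s - m := csInf_le hbd ⟨by
    rw [Set.mem_preimage, sub_eq_add_neg, ← Int.cast_neg, e_add, hB]; exact hb _ hs.1, by
    have := (B : CircleDeg1Lift).mono hs.2
    simp only [Set.mem_Ici]; linarith⟩
  have a2 : B s - m ≤ s := by
    have et := CircleDeg1Lift.units_apply_inv_apply B (s + m)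
    set t := (B⁻¹ : CircleDeg1Liftˣ) (s + m)
    by_cases ht : x ≤ t
    · have : s ≤ t := csInf_le hbd ⟨by
        have := hb' _ hs.1
        rwa [← e_add s m, ← et, hB, inv_apply ψ h1 hm] at this, ht⟩
      have := (B : CircleDeg1Lift).mono this
      linarith
    · have h3 := (B : CircleDeg1Lift).mono (not_le.1 ht).le
      have : s = x := le_antisymm (by linarith) hs.2
      rw [this]; linarith
  exact ⟨e s, hs.1, by rw [← hB, show B s = s + m by linarith, e_add]⟩

theorem not_minimal (h r : G) (hh : ∀ g g' : G, Commute (g * h * g⁻¹) (g' * h * g'⁻¹))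
    (hd : ∀ x : Circle, Dense {y : Circle | ∃ g : G, ψ g x = y}) :
    ψ ((h * h * (r * r * (h * h) * (r * r)⁻¹)⁻¹) ^ 2) = id := by
  classical
  have sq : ∀ g : G, g * (h * h) * g⁻¹ = (g * h * g⁻¹) * (g * h * g⁻¹) := fun g => by group
  have c2 : ∀ g g' : G, Commute (g * (h * h) * g⁻¹) (g' * (h * h) * g'⁻¹) := fun g g' => by
    rw [sq, sq]
    exact ((hh g g').mul_left (hh g g')).mul_right ((hh g g').mul_left (hh g g'))
  obtain ⟨p, hp⟩ := fix_comm ψ h1 hm hc h r (by simpa using c2 1 (r * r))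
  set a := h * h * (r * r * (h * h) * (r * r)⁻¹)⁻¹ with ha
  have ea : ∀ g : G, g * a * g⁻¹ =
      (g * (h * h) * g⁻¹) * ((g * (r * r)) * (h * h) * (g * (r * r))⁻¹)⁻¹ := fun g => by
    rw [ha]; group
  have ca : ∀ g g' : G, Commute (g * a * g⁻¹) (g' * a * g'⁻¹) := fun g g' => by
    rw [ea, ea]
    exact ((c2 _ _).mul_right (c2 _ _).inv_right).mul_left
      ((c2 _ _).mul_right (c2 _ _).inv_right).inv_left
  let T : G → Set Circle := fun g => {z | ψ ((g * a * g⁻¹) * (g * a * g⁻¹)) z = z}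
  have hT : ∀ g, IsClosed (T g) := fun g => isClosed_eq (hc _) continuous_id
  have stab : ∀ g u, Commute u (g * a * g⁻¹) → ∀ z ∈ T g, ψ u z ∈ T g := fun g u hu z hz => by
    change ψ _ (ψ u z) = ψ u z
    rw [← Function.comp_apply (f := ψ _), ← hm, ← (hu.mul_right hu).eq, hm, Function.comp_apply,
      show ψ _ z = z from hz]
  obtain ⟨x, hx⟩ := CompactSpace.iInter_nonempty hT fun s => by
    induction s using Finset.induction_on with
    | empty => simp
    | insert g s _ ih =>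
      obtain ⟨z, hz, hz'⟩ := fix_in ψ h1 hm hc (g * a * g⁻¹) (ψ g p) (by
        rw [hm, hm, Function.comp_apply, Function.comp_apply, inv_apply ψ h1 hm, hp]) _
        (isClosed_biInter fun i _ => hT i) ih
        (fun z hz => Set.mem_iInter₂.2 fun i hi =>
          stab i _ ((ca g i).mul_left (ca g i)) z (Set.mem_iInter₂.1 hz i hi))
        (fun z hz => Set.mem_iInter₂.2 fun i hi =>
          stab i _ ((ca g i).mul_left (ca g i)).inv_left z (Set.mem_iInter₂.1 hz i hi))
      exact ⟨z, by rw [Finset.set_biInter_insert]; exact ⟨hz', hz⟩⟩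
  refine Continuous.ext_on (hd x) (hc _) continuous_id ?_
  rintro _ ⟨g, rfl⟩
  have := congrArg (ψ g) (show ψ _ x = x from Set.mem_iInter.1 hx g⁻¹)
  rw [← Function.comp_apply (f := ψ g), ← hm] at this
  rw [← Function.comp_apply (f := ψ _), ← hm, id, ← this]
  congr 1; rw [pow_two]; group

end abstract

end Pool.Agent.H99.CircMin
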