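import Mathlib

set_option autoImplicit false

namespace Pool.Agent.H99.CircMin

open Filter Topology Complex
open scoped ContDiff ComplexConjugate

/-- locally the restriction of a smooth map of the plane -/
def Sm (f : Circle → Circle) : Prop :=
  ∀ z : Circle, ∃ F : ℂ → ℂ, ContDiffAt ℝ ∞ F z ∧ ∀ᶠ w in 𝓝 z, (f w : ℂ) = F w

lemma Sm.cont {f : Circle → Circle} (h : Sm f) : Continuous f := by
  refine continuous_induced_rng.2 (continuous_iff_continuousAt.2 fun z => ?_)
  obtain ⟨F, h1, h2⟩ := h z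
  exact (h1.continuousAt.comp (f := fun w : Circle => (w : ℂ))
    continuous_subtype_val.continuousAt).congr (h2.mono fun _ h => h.symm)

lemma Sm.comp {f g : Circle → Circle} (hf : Sm f) (hg : Sm g) : Sm (f ∘ g) := fun z => by
  obtain ⟨F, h1, h2⟩ := hf (g z)
  obtain ⟨G, h3, h4⟩ := hg z
  refine ⟨F ∘ G, ContDiffAt.comp _ (by rwa [← h4.self_of_nhds]) h3, ?_⟩
  filter_upwards [hg.cont.continuousAt.eventually h2, h4] with w h5 h6
  simp only [Function.comp_apply, h5, h6]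

lemma Sm.id : Sm id := fun _ => ⟨_root_.id, contDiffAt_id, Eventually.of_forall fun _ => rfl⟩

lemma Sm.contDiff {f : Circle → Circle} (h : Sm f) (k : ℕ) :
    ContDiff ℝ (k : WithTop ℕ∞) (fun θ : ℝ => (f (Circle.exp θ) : ℂ)) := by
  refine contDiff_iff_contDiffAt.2 fun θ => ?_
  obtain ⟨F, h1, h2⟩ := h (Circle.exp θ)
  have h3 : ContDiff ℝ ∞ (fun θ : ℝ => (Circle.exp θ : ℂ)) := by
    simp only [Circle.coe_exp]
    exact (ofRealCLM.contDiff.mul contDiff_const).cexp
  refine ((ContDiffAt.comp θ h1 h3.contDiffAt).congr_of_eventuallyEq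
    (Circle.exp.continuous.continuousAt.eventually h2)).of_le (by exact_mod_cast le_top)

noncomputable def cc : Fin 3 → ℂ := ![⟨5 / 4, 0⟩, ⟨0, 5 / 4⟩, ⟨-(5 / 4), 0⟩]

lemma cc_sq (i : Fin 3) : cc i * conj (cc i) = 25 / 16 := by
  fin_cases i <;> simp [cc, Complex.ext_iff] <;> norm_num

lemma zz (z : Circle) : (z : ℂ).re ^ 2 + (z : ℂ).im ^ 2 = 1 := by
  have := z.normSq_coe
  rw [normSq_apply] at this; linarith

lemma den_sq (i : Fin 3) (z : Circle) :
    ‖1 - conj (cc i) * z‖ ^ 2 = 41 / 16 - 2 * (conj (cc i) * z).re := by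
  have := zz z
  rw [Complex.sq_norm, normSq_apply]
  fin_cases i <;> simp [cc] <;> nlinarith

lemma den_ne (i : Fin 3) (z : Circle) : 1 - conj (cc i) * z ≠ 0 := fun h => by
  have h1 := den_sq i z
  rw [h] at h1
  have h2 := congrArg re h
  simp only [sub_re, one_re, zero_re] at h2
  simp only [norm_zero] at h1
  linarith

noncomputable def r0 (i : Fin 3) (z : Circle) : Circle :=
  ⟨(cc i - z) / (1 - conj (cc i) * z), by
    have h : cc i - z = -(z * conj (1 - conj (cc i) * z)) := by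
      have : (z : ℂ) * conj (z : ℂ) = 1 := by rw [mul_conj, z.normSq_coe]; simp
      simp only [map_sub, map_mul, map_one, conj_conj]
      linear_combination (-cc i) * this
    have h2 := norm_ne_zero_iff.2 (den_ne i z)
    simp only [Submonoid.unitSphere, Submonoid.mem_mk, Subsemigroup.mem_mk,
      mem_sphere_zero_iff_norm]
    rw [norm_div, h, norm_neg, norm_mul, norm_conj, Circle.norm_coe, one_mul, div_self h2]⟩

lemma r0_coe (i : Fin 3) (z : Circle) : (r0 i z : ℂ) = (cc i - z) / (1 - conj (cc i) * z) := rfl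

lemma r0_mul (i : Fin 3) (z : Circle) : (r0 i z : ℂ) * (1 - conj (cc i) * z) = cc i - z :=
  div_mul_cancel₀ _ (den_ne i z)

lemma den_r0 (i : Fin 3) (z : Circle) :
    (1 - conj (cc i) * r0 i z) * (1 - conj (cc i) * z) = -(9 / 16) := by
  linear_combination (-conj (cc i)) * r0_mul i z - cc_sq i

lemma r0_r0 (i : Fin 3) (z : Circle) : r0 i (r0 i z) = z := by
  ext
  rw [r0_coe, div_eq_iff (den_ne i _)]
  apply mul_right_cancel₀ (den_ne i z)
  rw [mul_assoc, den_r0]
  linear_combination - r0_mul i z - (z : ℂ) * cc_sq i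

noncomputable def r (i : Fin 3) : Equiv.Perm Circle := Function.Involutive.toPerm _ (r0_r0 i)

lemma r_r (i : Fin 3) : r i * r i = 1 := Equiv.ext (r0_r0 i)

lemma r_sm (i : Fin 3) : Sm (r i) := fun z =>
  ⟨fun w => (cc i - w) / (1 - conj (cc i) * w),
    ContDiffAt.restrict_scalars ℝ (𝕜' := ℂ) (ContDiffAt.div (f := fun w => cc i - w)
      (g := fun w => 1 - conj (cc i) * w) (by fun_prop) (by fun_prop) (den_ne i z)), Eventually.of_forall fun _ => rfl⟩

def A (i : Fin 3) : Set Circle := {z | 1 ≤ (conj (cc i) * z).re}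

lemma den_gt {i : Fin 3} {z : Circle} (h : z ∉ A i) : 3 / 4 < ‖1 - conj (cc i) * z‖ := by
  have h1 := den_sq i z
  have h2 : (conj (cc i) * z).re < 1 := not_le.1 h
  exact lt_of_pow_lt_pow_left₀ 2 (norm_nonneg _) (by linarith)

lemma r_mem {i : Fin 3} {z : Circle} (h : z ∉ A i) : r i z ∈ A i := by
  by_contra h'
  have h1 := congrArg norm (den_r0 i z)
  rw [norm_mul] at h1
  have h2 := den_gt h
  have h3 : 3 / 4 < ‖1 - conj (cc i) * r0 i z‖ := den_gt h'
  have : ‖(-(9 / 16) : ℂ)‖ = 9 / 16 := by simp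
  nlinarith

lemma r_contr {i : Fin 3} {z w : Circle} (hz : z ∉ A i) (hw : w ∉ A i) (h : z ≠ w) :
    ‖(r i z : ℂ) - r i w‖ < ‖(z : ℂ) - w‖ := by
  have e : ((r i z : ℂ) - r i w) * ((1 - conj (cc i) * z) * (1 - conj (cc i) * w)) =
      9 / 16 * (z - w) := by
    change ((r0 i z : ℂ) - r0 i w) * _ = _
    linear_combination (1 - conj (cc i) * w) * r0_mul i z - (1 - conj (cc i) * z) * r0_mul i w
      + ((z : ℂ) - w) * cc_sq i
  have h1 := congrArg norm e
  rw [norm_mul, norm_mul, norm_mul] at h1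
  have h2 := den_gt hz
  have h3 := den_gt hw
  have h4 : 0 < ‖(z : ℂ) - w‖ := norm_pos_iff.2 (sub_ne_zero.2 fun h' => h (Circle.ext h'))
  have h5 : ‖(9 / 16 : ℂ)‖ = 9 / 16 := by simp
  rw [h5] at h1
  have h6 : 9 / 16 < ‖1 - conj (cc i) * z‖ * ‖1 - conj (cc i) * w‖ := by nlinarith
  by_contra hc
  have := not_lt.1 hc
  nlinarith

lemma A0 {z : Circle} : z ∈ A 0 ↔ 4 / 5 ≤ (z : ℂ).re := by
  simp [A, cc]; constructor <;> intro <;> linarith
lemma A1 {z : Circle} : z ∈ A 1 ↔ 4 / 5 ≤ (z : ℂ).im := by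
  simp [A, cc]; constructor <;> intro <;> linarith
lemma A2 {z : Circle} : z ∈ A 2 ↔ (z : ℂ).re ≤ -(4 / 5) := by
  simp [A, cc]; constructor <;> intro <;> linarith

lemma A_disj {i j : Fin 3} {z : Circle} (h : z ∈ A i) (h' : z ∈ A j) : i = j := by
  have := zz z
  fin_cases i <;> fin_cases j <;> first
    | rfl
    | (simp only [Fin.zero_eta, Fin.mk_one, Fin.reduceFinMk, A0, A1, A2] at h h'; nlinarith)

lemma exists_third (z w : Circle) : ∃ i, z ∉ A i ∧ w ∉ A i := by
  by_contra h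
  push Not at h
  by_cases a0 : z ∈ A 0
  · have a1 : z ∉ A 1 := fun h' => absurd (A_disj a0 h') (by decide)
    have a2 : z ∉ A 2 := fun h' => absurd (A_disj a0 h') (by decide)
    exact absurd (A_disj (h 1 a1) (h 2 a2)) (by decide)
  · by_cases a1 : z ∈ A 1
    · have a2 : z ∉ A 2 := fun h' => absurd (A_disj a1 h') (by decide)
      exact absurd (A_disj (h 0 a0) (h 2 a2)) (by decide)
    · exact absurd (A_disj (h 0 a0) (h 1 a1)) (by decide)

def J : Set Circle := {z | (z : ℂ).im < -(4 / 5)}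

lemma J_A {z : Circle} (h : z ∈ J) (i : Fin 3) : z ∉ A i := fun h' => by
  have := zz z
  have h : (z : ℂ).im < -(4 / 5) := h
  fin_cases i <;> simp only [Fin.zero_eta, Fin.mk_one, Fin.reduceFinMk, A0, A1, A2] at h' <;>
    nlinarith

inductive Red : Option (Fin 3) → Equiv.Perm Circle → Prop
  | one : Red none 1
  | cons (i : Fin 3) (j : Option (Fin 3)) (f : Equiv.Perm Circle) :
      Red j f → j ≠ some i → Red (some i) (r i * f)

lemma Red.step {j : Option (Fin 3)} {f : Equiv.Perm Circle} (h : Red j f) (i : Fin 3) :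
    ∃ j', Red j' (r i * f) := by
  by_cases hj : j = some i
  · subst hj
    cases h with
    | cons _ j f h _ => exact ⟨j, by rwa [← mul_assoc, r_r, one_mul]⟩
  · exact ⟨_, h.cons i j f hj⟩

lemma Red.mem {j : Option (Fin 3)} {f : Equiv.Perm Circle} (h : Red j f) :
    (j = none ∧ f = 1) ∨ ∃ i, j = some i ∧ ∀ z, (∀ k, z ∉ A k) → f z ∈ A i := by
  induction h with
  | one => exact Or.inl ⟨rfl, rfl⟩
  | cons i j f _ hj ih =>
    refine Or.inr ⟨i, rfl, fun z hz => r_mem ?_⟩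
    rcases ih with ⟨-, rfl⟩ | ⟨k, rfl, hk⟩
    · exact hz i
    · exact fun h => hj (congrArg some (A_disj (hk z hz) h))

section bump
variable (H : ℝ ≃ₜ ℝ) (hH : ∀ x, 1 / 2 ≤ |x| → H x = x)
include hH

lemma H_le {x : ℝ} (hx : |x| ≤ 1 / 2) : |H x| ≤ 1 / 2 := by
  by_contra h
  have := H.injective (hH _ (not_le.1 h).le)
  rw [this] at h; exact h hx

lemma H_le1 {x : ℝ} (hx : |x| ≤ 1) : H x ^ 2 ≤ 1 := by
  rw [sq_le_one_iff_abs_le_one]
  by_cases h : |x| ≤ 1 / 2
  · linarith [H_le H hH h]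
  · rwa [hH x (not_le.1 h).le]

omit hH in
lemma re_le (z : Circle) : |(z : ℂ).re| ≤ 1 := (abs_re_le_norm _).trans z.norm_coe.le

noncomputable def h0 (z : Circle) : Circle :=
  if (z : ℂ).im < 0 then ⟨⟨H (z : ℂ).re, -√(1 - H (z : ℂ).re ^ 2)⟩, by
    have := H_le1 H hH (re_le z)
    simp only [Submonoid.unitSphere, Submonoid.mem_mk, Subsemigroup.mem_mk,
      mem_sphere_zero_iff_norm]
    rw [← sq_eq_sq₀ (norm_nonneg _) zero_le_one, Complex.sq_norm, normSq_mk, neg_mul_neg,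
      Real.mul_self_sqrt (by linarith)]
    ring⟩ else z

lemma h0_neg {z : Circle} (h : (z : ℂ).im < 0) :
    (h0 H hH z : ℂ) = ⟨H (z : ℂ).re, -√(1 - H (z : ℂ).re ^ 2)⟩ := by
  rw [h0, if_pos h]

omit hH in
lemma im_eq {z : Circle} (h : (z : ℂ).im < 0) : -√(1 - (z : ℂ).re ^ 2) = (z : ℂ).im := by
  rw [show 1 - (z : ℂ).re ^ 2 = (z : ℂ).im ^ 2 by linarith [zz z], Real.sqrt_sq_eq_abs,
    abs_of_neg h, neg_neg]

lemma h0_fix {z : Circle} (h : 1 / 2 ≤ |(z : ℂ).re| ∨ 0 ≤ (z : ℂ).im) : h0 H hH z = z := by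
  by_cases h1 : (z : ℂ).im < 0
  · ext1
    rw [h0_neg H hH h1, hH _ (h.resolve_right (not_le.2 h1)), im_eq h1]
  · rw [h0, if_neg h1]

lemma h0_fixJ {z : Circle} (h : z ∉ J) : h0 H hH z = z := by
  refine h0_fix H hH ?_
  by_contra hc
  push Not at hc
  have h1 : -(4 / 5) ≤ (z : ℂ).im := not_lt.1 h
  have := zz z
  have h2 := abs_lt.1 hc.1
  nlinarith [hc.2]

lemma h0_im {z : Circle} (h : (z : ℂ).im < 0) : (h0 H hH z : ℂ).im < 0 := by
  by_cases h1 : |(z : ℂ).re| ≤ 1 / 2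
  · rw [h0_neg H hH h]
    have := abs_le.1 (H_le H hH h1)
    exact neg_neg_of_pos (Real.sqrt_pos.2 (by nlinarith))
  · rwa [h0_fix H hH (Or.inl (not_le.1 h1).le)]

lemma h0_sm (hs : ContDiff ℝ ∞ H) : Sm (h0 H hH) := fun z => by
  have cre : Continuous fun w : Circle => (w : ℂ).re := by fun_prop
  have cim : Continuous fun w : Circle => (w : ℂ).im := by fun_prop
  by_cases h1 : 1 / 2 < |(z : ℂ).re|
  · refine ⟨id, contDiffAt_id, ?_⟩
    filter_upwards [cre.abs.continuousAt.eventually (lt_mem_nhds h1)] with w hw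
    rw [h0_fix H hH (Or.inl hw.le)]; rfl
  by_cases h2 : 0 < (z : ℂ).im
  · refine ⟨id, contDiffAt_id, ?_⟩
    filter_upwards [cim.continuousAt.eventually (lt_mem_nhds h2)] with w hw
    rw [h0_fix H hH (Or.inr hw.le)]; rfl
  have h3 : (z : ℂ).im < 0 := by
    have h6 := zz z
    have := abs_le.1 (not_lt.1 h1)
    rcases (not_lt.1 h2).lt_or_eq with h | h
    · exact h
    · rw [h] at h6; nlinarith
  have h4 := abs_le.1 (H_le H hH (not_lt.1 h1))
  have h5 : ContDiff ℝ ∞ fun w : ℂ => H w.re := hs.comp reCLM.contDiff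
  refine ⟨fun w => ofRealCLM (H w.re) - ofRealCLM √(1 - H w.re ^ 2) * I, ?_, ?_⟩
  · refine (ofRealCLM.contDiff.comp h5).contDiffAt.sub (ContDiffAt.mul ?_ contDiffAt_const)
    exact ofRealCLM.contDiff.contDiffAt.comp _
      ((contDiff_const.sub (h5.pow 2)).contDiffAt.sqrt (by nlinarith))
  · filter_upwards [cim.continuousAt.eventually (gt_mem_nhds h3)] with w hw
    rw [h0_neg H hH hw]
    apply Complex.ext <;> simp

lemma symm_fix : ∀ x, 1 / 2 ≤ |x| → H.symm x = x := fun x hx => by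
  rw [H.symm_apply_eq, hH x hx]

lemma h0_symm (z : Circle) : h0 H.symm (symm_fix H hH) (h0 H hH z) = z := by
  by_cases h : (z : ℂ).im < 0
  · ext1
    rw [h0_neg _ _ (h0_im H hH h), h0_neg H hH h]
    simp only [Homeomorph.symm_apply_apply, im_eq h]
  · rw [h0_fix H hH (Or.inr (not_lt.1 h)), h0_fix _ _ (Or.inr (not_lt.1 h))]

noncomputable def hh : Equiv.Perm Circle :=
  ⟨h0 H hH, h0 H.symm (symm_fix H hH), h0_symm H hH, h0_symm H.symm (symm_fix H hH)⟩

end bump

lemma exists_H : ∃ H : ℝ ≃ₜ ℝ, (∀ x, 1 / 2 ≤ |x| → H x = x) ∧ ContDiff ℝ ∞ H ∧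
    ContDiff ℝ ∞ H.symm ∧ (∀ x, x ≤ H x) ∧ 0 < H 0 := by
  let β : ContDiffBump (0 : ℝ) := ⟨1 / 4, 1 / 2, by norm_num, by norm_num⟩
  have hβ : ContDiff ℝ ∞ β := β.contDiff
  obtain ⟨M, hM⟩ := (hβ.continuous_deriv (by simp)).bounded_above_of_compact_support
    β.hasCompactSupport.deriv
  have hM0 : 0 ≤ M := (norm_nonneg _).trans (hM 0)
  let f : ℝ → ℝ := fun x => x + 1 / (M + 1) * β x
  have hd : ∀ x, HasDerivAt f (1 + 1 / (M + 1) * deriv β x) x := fun x =>
    (hasDerivAt_id x).add ((hβ.differentiable (by simp) x).hasDerivAt.const_mul _)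
  have hp : ∀ x, 0 < 1 + 1 / (M + 1) * deriv β x := fun x => by
    have := (abs_le.1 (hM x)).1
    rw [show 1 + 1 / (M + 1) * deriv β x = (M + 1 + deriv β x) / (M + 1) by field_simp]
    exact div_pos (by linarith) (by linarith)
  have hm : StrictMono f := strictMono_of_hasDerivAt_pos hd hp
  have hf : ContDiff ℝ ∞ f := contDiff_id.add (contDiff_const.mul hβ)
  have hfix : ∀ x, 1 / 2 ≤ |x| → f x = x := fun x hx => by
    have : β x = 0 := β.zero_of_le_dist (by simpa [β] using hx)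
    simp [f, this]
  have hs : Function.Surjective f := by
    refine hf.continuous.surjective ?_ ?_
    · refine tendsto_id.congr' ?_
      filter_upwards [eventually_ge_atTop (1 / 2 : ℝ)] with x hx
      exact (hfix x (hx.trans (le_abs_self x))).symm
    · refine tendsto_id.congr' ?_
      filter_upwards [eventually_le_atBot (-(1 / 2) : ℝ)] with x hx
      exact (hfix x ((le_neg.1 hx).trans (neg_le_abs x))).symm
  let H := (hm.orderIsoOfSurjective f hs).toHomeomorph
  refine ⟨H, hfix, hf, H.contDiff_symm_deriv (fun x => (hp x).ne') hd hf, fun x => ?_, ?_⟩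
  · change x ≤ x + 1 / (M + 1) * β x
    have := β.nonneg (x := x)
    have : 0 ≤ 1 / (M + 1) * β x := by positivity
    linarith
  · change 0 < 0 + 1 / (M + 1) * β 0
    rw [β.one_of_mem_closedBall (by simp [β])]
    positivity

end Pool.Agent.H99.CircMin
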