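import Mathlib

set_option autoImplicit false

namespace H99.Comm

/-- equal or adjacent -/
def Nr (a b : ℕ) : Prop := a ≤ b + 1 ∧ b ≤ a + 1

def mv (a b t : ℕ) : ℕ := if a ≤ b then min (a + t) b else max (a - t) b

def inc (q s w : ℕ) : ℕ := s * q + w
def dec (q s w : ℕ) : ℕ := s * q + (q - 1 - w)

structure Ds where
  gm : Bool
  ρ : ℕ → ℕ
  a : ℕ
  b : ℕ

structure Port where
  gm : Bool
  ρ : ℕ → ℕ
  sd : ℕ

structure St where
  q : ℕ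
  f : ℕ → ℕ
  g : ℕ → ℕ
  φ : ℕ → ℕ → ℕ
  γ : ℕ → ℕ → ℕ

def St.F (S : St) (x : ℕ) : ℕ :=
  S.f (x / (17 * S.q)) * S.q + S.φ (x / (17 * S.q)) (x % (17 * S.q))
def St.G (S : St) (x : ℕ) : ℕ :=
  S.g (x / (17 * S.q)) * S.q + S.γ (x / (17 * S.q)) (x % (17 * S.q))

structure Inv (S : St) : Prop where
  hq : 0 < S.q
  bφ : ∀ z p, p < 17 * S.q → S.φ z p < S.q
  bγ : ∀ z p, p < 17 * S.q → S.γ z p < S.q
  pF : ∀ z s, (s = 3 ∨ s = 9) → ∀ t < S.q, S.φ z (inc S.q s t) = t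
  pG : ∀ z s, (s = 6 ∨ s = 12) → ∀ t < S.q, S.γ z (inc S.q s t) = t
  lf : ∀ z, Nr (S.f z) (S.f (z + 1))
  lg : ∀ z, Nr (S.g z) (S.g (z + 1))
  Jf0 : ∀ z, S.f (z + 1) = S.f z → S.φ z (17 * S.q - 1) = S.φ (z + 1) 0
  Jfu : ∀ z, S.f (z + 1) = S.f z + 1 → S.φ z (17 * S.q - 1) = S.q - 1 ∧ S.φ (z + 1) 0 = 0
  Jfd : ∀ z, S.f (z + 1) + 1 = S.f z → S.φ z (17 * S.q - 1) = 0 ∧ S.φ (z + 1) 0 = S.q - 1
  Jg0 : ∀ z, S.g (z + 1) = S.g z → S.γ z (17 * S.q - 1) = S.γ (z + 1) 0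
  Cu : ∀ z, S.g (z + 1) = S.g z + 1 → ∀ t < S.q,
    S.γ z (inc S.q 16 t) = t ∧ S.γ (z + 1) (inc S.q 0 t) = t
  Cd : ∀ z, S.g (z + 1) + 1 = S.g z → ∀ t < S.q,
    S.γ z (dec S.q 16 t) = t ∧ S.γ (z + 1) (dec S.q 0 t) = t
  lφ : ∀ z p, p + 1 < 17 * S.q → Nr (S.φ z p) (S.φ z (p + 1))
  lγ : ∀ z p, p + 1 < 17 * S.q → Nr (S.γ z p) (S.γ z (p + 1))
  comm : ∀ x, S.g (S.F x) = S.f (S.G x)
  rule : ∀ x, S.F x ≠ S.F (x + 1) → S.G x ≠ S.G (x + 1) → S.g (S.F x) ≠ S.g (S.F (x + 1))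

lemma mv_zero (a b : ℕ) : mv a b 0 = a := by unfold mv; split_ifs <;> omega
lemma mv_last {a b m : ℕ} (ha : a < m) (hb : b < m) : mv a b (m - 1) = b := by
  unfold mv; split_ifs <;> omega
lemma mv_lt {a b m : ℕ} (ha : a < m) (hb : b < m) (t : ℕ) : mv a b t < m := by
  unfold mv; split_ifs <;> omega
lemma mv_nr (a b t : ℕ) : mv a b (t + 1) = mv a b t ∨ mv a b (t + 1) = mv a b t + 1 ∨
    mv a b (t + 1) + 1 = mv a b t := by
  unfold mv; split_ifs <;> omega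
lemma mv_up {m t : ℕ} (ht : t < m) : mv 0 (m - 1) t = t := by unfold mv; split_ifs <;> omega
lemma mv_dn {m t : ℕ} (ht : t < m) : mv (m - 1) 0 t = m - 1 - t := by
  unfold mv; split_ifs <;> omega

/-- successor in coordinates -/
lemma succ_cases {m : ℕ} (hm : 0 < m) (x : ℕ) :
    ((x + 1) / m = x / m ∧ (x + 1) % m = x % m + 1 ∧ x % m + 1 < m) ∨
    ((x + 1) / m = x / m + 1 ∧ (x + 1) % m = 0 ∧ x % m = m - 1) := by
  have h1 := Nat.div_add_mod x m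
  have h2 := Nat.mod_lt x hm
  by_cases h : x % m + 1 < m
  · left
    have e : x + 1 = m * (x / m) + (x % m + 1) := by omega
    refine ⟨?_, ?_, h⟩
    · rw [e, Nat.mul_add_div hm, Nat.div_eq_of_lt h, add_zero]
    · conv_lhs => rw [e, Nat.mul_add_mod, Nat.mod_eq_of_lt h]
  · right
    have e : x + 1 = m * (x / m + 1) := by rw [mul_add]; omega
    refine ⟨?_, ?_, by omega⟩
    · rw [e, Nat.mul_div_cancel_left _ hm]
    · rw [e, Nat.mul_mod_right]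

lemma co_div {q a w : ℕ} (hw : w < q) : (a * q + w) / q = a := by
  rw [add_comm, Nat.add_mul_div_right _ _ (by omega), Nat.div_eq_of_lt hw, zero_add]
lemma co_mod {q a w : ℕ} (hw : w < q) : (a * q + w) % q = w := by
  rw [add_comm, Nat.add_mul_mod_self_right, Nat.mod_eq_of_lt hw]

namespace Inv
variable {S : St} (h : Inv S)
include h

lemma m_pos : 0 < 17 * S.q := by have := h.hq; omega

lemma F_div (x : ℕ) : S.F x / S.q = S.f (x / (17 * S.q)) :=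
  co_div (h.bφ _ _ (Nat.mod_lt _ h.m_pos))
lemma G_div (x : ℕ) : S.G x / S.q = S.g (x / (17 * S.q)) :=
  co_div (h.bγ _ _ (Nat.mod_lt _ h.m_pos))

lemma Jgu (z : ℕ) (hz : S.g (z + 1) = S.g z + 1) :
    S.γ z (17 * S.q - 1) = S.q - 1 ∧ S.γ (z + 1) 0 = 0 := by
  have hq := h.hq
  have h1 := (h.Cu z hz (S.q - 1) (by omega)).1
  have h2 := (h.Cu z hz 0 hq).2
  unfold inc at h1 h2
  refine ⟨?_, by simpa using h2⟩
  rw [← h1]; congr 1; omega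
lemma Jgd (z : ℕ) (hz : S.g (z + 1) + 1 = S.g z) :
    S.γ z (17 * S.q - 1) = 0 ∧ S.γ (z + 1) 0 = S.q - 1 := by
  have hq := h.hq
  have h1 := (h.Cd z hz 0 hq).1
  have h2 := (h.Cd z hz (S.q - 1) (by omega)).2
  unfold dec at h1 h2
  refine ⟨?_, by simpa using h2⟩
  rw [← h1]; congr 1; omega

lemma lF (x : ℕ) : Nr (S.F x) (S.F (x + 1)) := by
  have hq := h.hq
  unfold St.F
  rcases succ_cases h.m_pos x with ⟨e1, e2, e3⟩ | ⟨e1, e2, e3⟩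
  · rw [e1, e2]; have := h.lφ (x / (17 * S.q)) _ e3; unfold Nr at *; omega
  · rw [e1, e2, e3]
    set z := x / (17 * S.q)
    have hn := h.lf z
    unfold Nr at *
    rcases (by omega : S.f (z + 1) = S.f z ∨ S.f (z + 1) = S.f z + 1 ∨ S.f (z + 1) + 1 = S.f z)
      with e | e | e
    · rw [h.Jf0 z e, e]; omega
    · obtain ⟨a, b⟩ := h.Jfu z e; rw [a, b, e, add_mul]; omega
    · obtain ⟨a, b⟩ := h.Jfd z e; rw [a, b, ← e, add_mul]; omega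

lemma lG (x : ℕ) : Nr (S.G x) (S.G (x + 1)) := by
  have hq := h.hq
  unfold St.G
  rcases succ_cases h.m_pos x with ⟨e1, e2, e3⟩ | ⟨e1, e2, e3⟩
  · rw [e1, e2]; have := h.lγ (x / (17 * S.q)) _ e3; unfold Nr at *; omega
  · rw [e1, e2, e3]
    set z := x / (17 * S.q)
    have hn := h.lg z
    unfold Nr at *
    rcases (by omega : S.g (z + 1) = S.g z ∨ S.g (z + 1) = S.g z + 1 ∨ S.g (z + 1) + 1 = S.g z)
      with e | e | e
    · rw [h.Jg0 z e, e]; omega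
    · obtain ⟨a, b⟩ := h.Jgu z e; rw [a, b, e, add_mul]; omega
    · obtain ⟨a, b⟩ := h.Jgd z e; rw [a, b, ← e, add_mul]; omega

lemma nφ (z : ℕ) {c c' : ℕ} (hc : c < 17 * S.q) (hc' : c' < 17 * S.q)
    (e : c' = c ∨ c' = c + 1 ∨ c' + 1 = c) : Nr (S.φ z c) (S.φ z c') := by
  rcases e with e | e | e
  · subst e; unfold Nr; omega
  · subst e; exact h.lφ z c hc'
  · subst e; have := h.lφ z c' hc; unfold Nr at *; omega
lemma nγ (z : ℕ) {c c' : ℕ} (hc : c < 17 * S.q) (hc' : c' < 17 * S.q)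
    (e : c' = c ∨ c' = c + 1 ∨ c' + 1 = c) : Nr (S.γ z c) (S.γ z c') := by
  rcases e with e | e | e
  · subst e; unfold Nr; omega
  · subst e; exact h.lγ z c hc'
  · subst e; have := h.lγ z c' hc; unfold Nr at *; omega
end Inv

/-- a piece: a 1-Lipschitz right inverse of the local map `θ` -/
def Pce (q : ℕ) (θ : ℕ → ℕ) (ρ : ℕ → ℕ) : Prop :=
  (∀ w < q, θ (ρ w) = w ∧ ρ w < 17 * q) ∧ ∀ w w', w < q → w' < q → Nr w w' → Nr (ρ w) (ρ w')

lemma pce_inc {q s : ℕ} {θ : ℕ → ℕ} (hs : s ≤ 16) (h : ∀ t < q, θ (inc q s t) = t) :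
    Pce q θ (inc q s) := by
  refine ⟨fun w hw => ⟨h w hw, ?_⟩, fun w w' _ _ hn => ?_⟩
  · unfold inc; nlinarith
  · unfold inc Nr at *; omega
lemma pce_dec {q s : ℕ} {θ : ℕ → ℕ} (hs : s ≤ 16) (h : ∀ t < q, θ (dec q s t) = t) :
    Pce q θ (dec q s) := by
  refine ⟨fun w hw => ⟨h w hw, ?_⟩, fun w w' _ _ hn => ?_⟩
  · unfold dec; have : q - 1 - w < q := by omega
    nlinarith
  · unfold dec Nr at *; omega

def St.Pc (S : St) (U V : ℕ) (gm : Bool) (ρ : ℕ → ℕ) : Prop :=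
  if gm then Pce S.q (S.γ U) ρ else Pce S.q (S.φ V) ρ

def St.st (S : St) (U V : ℕ) (gm : Bool) (ρ : ℕ → ℕ) (c : ℕ) : ℕ × ℕ :=
  if gm then (ρ (S.φ V c), c) else (c, ρ (S.γ U c))

def St.port (S : St) (U V U' V' bg bf : ℕ) : Port :=
  if U' = U then ⟨true, inc S.q bg, if V < V' then 17 * S.q - 1 else 0⟩
  else if V' = V then ⟨false, inc S.q bf, if U < U' then 17 * S.q - 1 else 0⟩
  else ⟨true, if U < U' then (if S.g U < S.g U' then inc S.q 16 else dec S.q 16)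
      else (if S.g U < S.g U' then dec S.q 0 else inc S.q 0), if V < V' then 17 * S.q - 1 else 0⟩

def desc (m : ℕ) (L R : Port) (G0 G1 F0 F1 : ℕ → ℕ) (s : ℕ) : Ds :=
  match s with
  | 0 => if L.gm then ⟨true, L.ρ, L.sd, m - 1 - L.sd⟩ else ⟨false, L.ρ, L.sd, G0 0⟩
  | 1 => if L.gm then ⟨true, L.ρ, m - 1 - L.sd, F0 0⟩ else ⟨true, G0, L.ρ 0, F0 0⟩
  | 2 => ⟨false, F0, if L.gm then L.ρ 0 else G0 0, 0⟩
  | 3 => ⟨false, F0, 0, m - 1⟩
  | 4 => ⟨false, F0, m - 1, G0 0⟩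
  | 5 => ⟨true, G0, F0 0, 0⟩
  | 6 => ⟨true, G0, 0, m - 1⟩
  | 7 => ⟨true, G0, m - 1, F1 0⟩
  | 8 => ⟨false, F1, G0 0, 0⟩
  | 9 => ⟨false, F1, 0, m - 1⟩
  | 10 => ⟨false, F1, m - 1, G1 0⟩
  | 11 => ⟨true, G1, F1 0, 0⟩
  | 12 => ⟨true, G1, 0, m - 1⟩
  | 13 => ⟨true, G1, m - 1, if R.gm then F1 0 else R.ρ 0⟩
  | 14 => if R.gm then ⟨false, F1, G1 0, R.ρ 0⟩ else ⟨false, R.ρ, G1 0, R.sd⟩
  | 15 => if R.gm then ⟨true, R.ρ, F1 0, m - 1 - R.sd⟩ else ⟨false, R.ρ, R.sd, R.sd⟩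
  | _ => if R.gm then ⟨true, R.ρ, m - 1 - R.sd, R.sd⟩ else ⟨false, R.ρ, R.sd, R.sd⟩

section generic
variable {S : St} {U V : ℕ} {L R : Port} {G0 G1 F0 F1 : ℕ → ℕ}

lemma desc_valid (hq : 0 < S.q) (hL : S.Pc U V L.gm L.ρ) (hR : S.Pc U V R.gm R.ρ)
    (hLs : L.sd < 17 * S.q) (hRs : R.sd < 17 * S.q)
    (h0 : Pce S.q (S.γ U) G0) (h1 : Pce S.q (S.γ U) G1)
    (k0 : Pce S.q (S.φ V) F0) (k1 : Pce S.q (S.φ V) F1) (s : ℕ) :
    S.Pc U V (desc (17 * S.q) L R G0 G1 F0 F1 s).gm (desc (17 * S.q) L R G0 G1 F0 F1 s).ρ ∧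
    (desc (17 * S.q) L R G0 G1 F0 F1 s).a < 17 * S.q ∧
    (desc (17 * S.q) L R G0 G1 F0 F1 s).b < 17 * S.q := by
  have a0 := (h0.1 0 hq).2
  have a1 := (h1.1 0 hq).2
  have b0 := (k0.1 0 hq).2
  have b1 := (k1.1 0 hq).2
  have cL : L.ρ 0 < 17 * S.q := by
    unfold St.Pc at hL; split_ifs at hL <;> exact (hL.1 0 hq).2
  have cR : R.ρ 0 < 17 * S.q := by
    unfold St.Pc at hR; split_ifs at hR <;> exact (hR.1 0 hq).2
  unfold St.Pc at *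
  unfold desc
  split <;> cases hl : L.gm <;> cases hr : R.gm <;>
    simp only [hl, hr, if_true, if_false, Bool.false_eq_true] at * <;>
    refine ⟨by assumption, by omega, by omega⟩

lemma desc_cont (hq : 0 < S.q) (hL : S.Pc U V L.gm L.ρ) (hR : S.Pc U V R.gm R.ρ)
    (h0 : Pce S.q (S.γ U) G0) (h1 : Pce S.q (S.γ U) G1)
    (k0 : Pce S.q (S.φ V) F0) (k1 : Pce S.q (S.φ V) F1) (s : ℕ) (hs : s < 16) :
    S.st U V (desc (17 * S.q) L R G0 G1 F0 F1 s).gm (desc (17 * S.q) L R G0 G1 F0 F1 s).ρ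
      (desc (17 * S.q) L R G0 G1 F0 F1 s).b =
    S.st U V (desc (17 * S.q) L R G0 G1 F0 F1 (s + 1)).gm
      (desc (17 * S.q) L R G0 G1 F0 F1 (s + 1)).ρ (desc (17 * S.q) L R G0 G1 F0 F1 (s + 1)).a := by
  have a0 := (h0.1 0 hq).1
  have a1 := (h1.1 0 hq).1
  have b0 := (k0.1 0 hq).1
  have b1 := (k1.1 0 hq).1
  unfold St.Pc at *
  cases hl : L.gm <;> cases hr : R.gm <;>
    simp only [hl, hr, if_true, if_false, Bool.false_eq_true] at hL hR <;>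
    have cL := (hL.1 0 hq).1 <;> have cR := (hR.1 0 hq).1 <;>
    interval_cases s <;> simp [desc, St.st, hl, hr, a0, a1, b0, b1, cL, cR]

variable {gm : Bool} {ρ : ℕ → ℕ}

lemma st_lt (h : Inv S) (hp : S.Pc U V gm ρ) {c : ℕ} (hc : c < 17 * S.q) :
    (S.st U V gm ρ c).1 < 17 * S.q ∧ (S.st U V gm ρ c).2 < 17 * S.q := by
  unfold St.Pc at hp; unfold St.st
  cases gm <;> simp only [if_true, if_false, Bool.false_eq_true] at *
  · exact ⟨hc, (hp.1 _ (h.bγ _ _ hc)).2⟩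
  · exact ⟨(hp.1 _ (h.bφ _ _ hc)).2, hc⟩

lemma st_comm (h : Inv S) (hp : S.Pc U V gm ρ) {c : ℕ} (hc : c < 17 * S.q) :
    S.γ U (S.st U V gm ρ c).1 = S.φ V (S.st U V gm ρ c).2 := by
  unfold St.Pc at hp; unfold St.st
  cases gm <;> simp only [if_true, if_false, Bool.false_eq_true] at *
  · exact ((hp.1 _ (h.bγ _ _ hc)).1).symm
  · exact (hp.1 _ (h.bφ _ _ hc)).1

lemma st_nr (h : Inv S) (hp : S.Pc U V gm ρ) {c c' : ℕ} (hc : c < 17 * S.q) (hc' : c' < 17 * S.q)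
    (e : c' = c ∨ c' = c + 1 ∨ c' + 1 = c) :
    Nr (S.st U V gm ρ c).1 (S.st U V gm ρ c').1 ∧ Nr (S.st U V gm ρ c).2 (S.st U V gm ρ c').2 ∧
    ((S.st U V gm ρ c).1 ≠ (S.st U V gm ρ c').1 → (S.st U V gm ρ c).2 ≠ (S.st U V gm ρ c').2 →
      S.γ U (S.st U V gm ρ c).1 ≠ S.γ U (S.st U V gm ρ c').1) := by
  have e1 := st_comm h hp hc
  have e2 := st_comm h hp hc'
  have hn : Nr c c' := by unfold Nr; omega
  unfold St.Pc at hp; unfold St.st at *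
  cases gm <;> simp only [if_true, if_false, Bool.false_eq_true] at *
  · refine ⟨hn, hp.2 _ _ (h.bγ _ _ hc) (h.bγ _ _ hc') (h.nγ U hc hc' e), fun _ h2 h3 => ?_⟩
    exact h2 (by rw [h3])
  · refine ⟨hp.2 _ _ (h.bφ _ _ hc) (h.bφ _ _ hc') (h.nφ V hc hc' e), hn, fun h1 _ h3 => ?_⟩
    rw [e1, e2] at h3
    exact h1 (by rw [h3])
end generic

lemma port_valid {S : St} (h : Inv S) {U V U' V' bg bf : ℕ} (hU : Nr U U')
    (hr : U ≠ U' → V ≠ V' → S.g U ≠ S.g U') (hg : bg = 6 ∨ bg = 12) (hf : bf = 3 ∨ bf = 9) :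
    S.Pc U V (S.port U V U' V' bg bf).gm (S.port U V U' V' bg bf).ρ ∧
      (S.port U V U' V' bg bf).sd < 17 * S.q := by
  have hq := h.hq
  unfold St.port St.Pc
  by_cases e1 : U' = U
  · simp only [e1, if_true]
    exact ⟨pce_inc (by omega) (h.pG U bg hg), by split_ifs <;> omega⟩
  by_cases e2 : V' = V
  · simp only [e1, e2, if_true, if_false, Bool.false_eq_true]
    exact ⟨pce_inc (by omega) (h.pF V bf hf), by split_ifs <;> omega⟩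
  simp only [e1, e2, if_true, if_false]
  refine ⟨?_, by split_ifs <;> omega⟩
  have hne := hr (Ne.symm e1) (Ne.symm e2)
  unfold Nr at hU
  by_cases e3 : U < U'
  · obtain rfl : U' = U + 1 := by omega
    have := h.lg U
    unfold Nr at this
    simp only [e3, if_true]
    split_ifs with e4
    · exact pce_inc le_rfl fun t ht => (h.Cu U (by omega) t ht).1
    · exact pce_dec le_rfl fun t ht => (h.Cd U (by omega) t ht).1
  · obtain rfl : U = U' + 1 := by omega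
    have := h.lg U'
    unfold Nr at this
    simp only [e3, if_false]
    split_ifs with e4
    · exact pce_dec (by omega) fun t ht => (h.Cd U' (by omega) t ht).2
    · exact pce_inc (by omega) fun t ht => (h.Cu U' (by omega) t ht).2

end H99.Comm
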