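import Pool.Agent.H99.Comm1

set_option autoImplicit false

namespace H99.Comm

structure Par where
  bg : ℕ → ℕ
  bf : ℕ → ℕ
  rs : Bool

def PH (P : Par) : Prop := ∀ z, (P.bg z = 6 ∨ P.bg z = 12) ∧ (P.bf z = 3 ∨ P.bf z = 9)

def St.Lp (S : St) (P : Par) (z : ℕ) : Port :=
  S.port (S.F z) (S.G z) (S.F (z - 1)) (S.G (z - 1)) (P.bg (z - 1)) (P.bf (z - 1))
def St.Rp (S : St) (P : Par) (z : ℕ) : Port :=
  S.port (S.F z) (S.G z) (S.F (z + 1)) (S.G (z + 1)) (P.bg z) (P.bf z)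
def St.D (S : St) (P : Par) (z s : ℕ) : Ds :=
  desc (17 * S.q) (S.Lp P z) (S.Rp P z) (inc S.q (if P.rs then P.bg z else 6))
    (inc S.q (if P.rs then P.bg z else 12)) (inc S.q (if P.rs then P.bf z else 3))
    (inc S.q (if P.rs then P.bf z else 9)) s
def St.ps (S : St) (P : Par) (z s t : ℕ) : ℕ × ℕ :=
  S.st (S.F z) (S.G z) (S.D P z s).gm (S.D P z s).ρ (mv (S.D P z s).a (S.D P z s).b t)
def St.pos (S : St) (P : Par) (z p : ℕ) : ℕ × ℕ :=
  S.ps P z (p / (17 * S.q)) (p % (17 * S.q))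
def St.next (S : St) (P : Par) : St :=
  ⟨17 * S.q, S.F, S.G, fun z p => (S.pos P z p).1, fun z p => (S.pos P z p).2⟩

def sl (q x : ℕ) : ℕ := x % (17 * q) / q

def St.InC (S : St) (x z' : ℕ) : Prop :=
  S.g (x / (17 * S.q)) ≠ S.g z' ∧
    ((z' = x / (17 * S.q) + 1 ∧ sl S.q x = 16) ∨ (z' + 1 = x / (17 * S.q) ∧ sl S.q x = 0))

lemma pred_adj (z : ℕ) : z - 1 = z ∨ z - 1 = z + 1 ∨ z - 1 + 1 = z := by omega

namespace Inv
variable {S : St} (h : Inv S)
include h

lemma rule' {z z' : ℕ} (e : z' = z ∨ z' = z + 1 ∨ z' + 1 = z) :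
    Nr (S.F z) (S.F z') ∧ Nr (S.G z) (S.G z') ∧
    (S.F z ≠ S.F z' → S.G z ≠ S.G z' → S.g (S.F z) ≠ S.g (S.F z')) := by
  rcases e with e | e | e
  · subst e; unfold Nr; simp
  · subst e; exact ⟨h.lF z, h.lG z, h.rule z⟩
  · subst e
    have a := h.lF z'; have b := h.lG z'
    refine ⟨by unfold Nr at *; omega, by unfold Nr at *; omega, fun h1 h2 => ?_⟩
    exact (h.rule z' h1.symm h2.symm).symm

lemma Jφs {V V' : ℕ} (hn : Nr V V') (hne : V' ≠ V) :
    (S.f V' = S.f V → S.φ V (if V < V' then 17 * S.q - 1 else 0) =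
      S.φ V' (if V' < V then 17 * S.q - 1 else 0)) ∧
    (S.f V < S.f V' → S.φ V (if V < V' then 17 * S.q - 1 else 0) = S.q - 1) ∧
    (S.f V' < S.f V → S.φ V (if V < V' then 17 * S.q - 1 else 0) = 0) := by
  unfold Nr at hn
  rcases (by omega : V' = V + 1 ∨ V = V' + 1) with rfl | rfl
  · have := h.lf V; unfold Nr at this
    simp only [Nat.lt_succ_self, if_true, show ¬ (V + 1 < V) by omega, if_false]
    exact ⟨h.Jf0 V, fun _ => (h.Jfu V (by omega)).1, fun _ => (h.Jfd V (by omega)).1⟩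
  · have := h.lf V'; unfold Nr at this
    simp only [Nat.lt_succ_self, if_true, show ¬ (V' + 1 < V') by omega, if_false]
    exact ⟨fun e => (h.Jf0 V' e.symm).symm, fun _ => (h.Jfd V' (by omega)).2,
      fun _ => (h.Jfu V' (by omega)).2⟩

lemma Jγs {U U' : ℕ} (hn : Nr U U') (hne : U' ≠ U) (e : S.g U' = S.g U) :
    S.γ U (if U < U' then 17 * S.q - 1 else 0) = S.γ U' (if U' < U then 17 * S.q - 1 else 0) := by
  unfold Nr at hn
  rcases (by omega : U' = U + 1 ∨ U = U' + 1) with rfl | rfl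
  · simp only [Nat.lt_succ_self, if_true, show ¬ (U + 1 < U) by omega, if_false]
    exact h.Jg0 U e
  · simp only [Nat.lt_succ_self, if_true, show ¬ (U' + 1 < U') by omega, if_false]
    exact (h.Jg0 U' e.symm).symm

lemma junction {U V U' V' bg bf : ℕ} (hU : Nr U U') (hV : Nr V V') (c : S.g U = S.f V)
    (c' : S.g U' = S.f V') (hr : U ≠ U' → V ≠ V' → S.g U ≠ S.g U') :
    let A := S.st U V (S.port U V U' V' bg bf).gm (S.port U V U' V' bg bf).ρ
      (S.port U V U' V' bg bf).sd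
    let B := S.st U' V' (S.port U' V' U V bg bf).gm (S.port U' V' U V bg bf).ρ
      (S.port U' V' U V bg bf).sd
    (U' = U → A.1 = B.1) ∧ (U < U' → A.1 = 17 * S.q - 1) ∧ (U' < U → A.1 = 0) ∧
      (V' = V → A.2 = B.2) := by
  have hq := h.hq
  by_cases e1 : U' = U
  · subst e1
    simp only [St.port, if_true, St.st, lt_irrefl, false_imp_iff, true_and, true_imp_iff]
    by_cases e2 : V' = V
    · subst e2; simp
    · refine ⟨?_, fun e => absurd e e2⟩
      rw [(h.Jφs hV e2).1 (by rw [← c, ← c'])]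
  by_cases e2 : V' = V
  · subst e2
    simp only [St.port, e1, Ne.symm e1, if_true, if_false, St.st, Bool.false_eq_true,
      false_imp_iff, true_and, true_imp_iff]
    refine ⟨fun e => by simp [e], fun e => by simp [show ¬ U < U' by omega], ?_⟩
    rw [h.Jγs hU e1 (by rw [c, c'])]
  simp only [St.port, e1, e2, if_true, if_false, St.st, false_imp_iff, true_and, and_true]
  have hne := hr (Ne.symm e1) (Ne.symm e2)
  obtain ⟨-, a, b⟩ := h.Jφs hV e2
  rw [← c, ← c'] at a b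
  refine ⟨fun e => ?_, fun e => ?_⟩
  · simp only [e, if_true]
    by_cases e3 : S.g U < S.g U'
    · simp only [e3, if_true]; rw [a e3]; unfold inc; omega
    · simp only [e3, if_false]; rw [b (by omega)]; unfold dec; omega
  · simp only [show ¬ U < U' by omega, if_false]
    by_cases e3 : S.g U < S.g U'
    · simp only [e3, if_true]; rw [a e3]; unfold dec; omega
    · simp only [e3, if_false]; rw [b (by omega)]; unfold inc; omega

variable {P : Par} (hP : PH P)
include hP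

lemma Lp_valid (z : ℕ) : S.Pc (S.F z) (S.G z) (S.Lp P z).gm (S.Lp P z).ρ ∧
    (S.Lp P z).sd < 17 * S.q :=
  port_valid h (h.rule' (z := z) (z' := z - 1) (by omega)).1
    (h.rule' (z := z) (z' := z - 1) (by omega)).2.2 (hP _).1 (hP _).2
lemma Rp_valid (z : ℕ) : S.Pc (S.F z) (S.G z) (S.Rp P z).gm (S.Rp P z).ρ ∧
    (S.Rp P z).sd < 17 * S.q :=
  port_valid h (h.lF z) (h.rule z) (hP _).1 (hP _).2

lemma pg (z U s : ℕ) (hs : s = 6 ∨ s = 12) :
    Pce S.q (S.γ U) (inc S.q (if P.rs then P.bg z else s)) := by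
  have := (hP z).1
  have e : (if P.rs then P.bg z else s) = 6 ∨ (if P.rs then P.bg z else s) = 12 := by
    split_ifs <;> assumption
  exact pce_inc (by omega) (h.pG U _ e)
lemma pf (z V s : ℕ) (hs : s = 3 ∨ s = 9) :
    Pce S.q (S.φ V) (inc S.q (if P.rs then P.bf z else s)) := by
  have := (hP z).2
  have e : (if P.rs then P.bf z else s) = 3 ∨ (if P.rs then P.bf z else s) = 9 := by
    split_ifs <;> assumption
  exact pce_inc (by omega) (h.pF V _ e)

lemma D_valid (z s : ℕ) : S.Pc (S.F z) (S.G z) (S.D P z s).gm (S.D P z s).ρ ∧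
    (S.D P z s).a < 17 * S.q ∧ (S.D P z s).b < 17 * S.q :=
  desc_valid h.hq (h.Lp_valid hP z).1 (h.Rp_valid hP z).1 (h.Lp_valid hP z).2 (h.Rp_valid hP z).2
    (h.pg hP z _ 6 (by simp)) (h.pg hP z _ 12 (by simp)) (h.pf hP z _ 3 (by simp))
    (h.pf hP z _ 9 (by simp)) s

lemma ps_cont (z s : ℕ) (hs : s < 16) : S.ps P z s (17 * S.q - 1) = S.ps P z (s + 1) 0 := by
  unfold St.ps
  rw [mv_zero, mv_last (h.D_valid hP z s).2.1 (h.D_valid hP z s).2.2]
  exact desc_cont h.hq (h.Lp_valid hP z).1 (h.Rp_valid hP z).1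
    (h.pg hP z _ 6 (by simp)) (h.pg hP z _ 12 (by simp)) (h.pf hP z _ 3 (by simp))
    (h.pf hP z _ 9 (by simp)) s hs

lemma pos_lt (z p : ℕ) : (S.pos P z p).1 < 17 * S.q ∧ (S.pos P z p).2 < 17 * S.q :=
  st_lt h (h.D_valid hP z _).1 (mv_lt (h.D_valid hP z _).2.1 (h.D_valid hP z _).2.2 _)

lemma pos_comm (z p : ℕ) : S.γ (S.F z) (S.pos P z p).1 = S.φ (S.G z) (S.pos P z p).2 :=
  st_comm h (h.D_valid hP z _).1 (mv_lt (h.D_valid hP z _).2.1 (h.D_valid hP z _).2.2 _)

lemma pos_bd (z p : ℕ) (hp : p + 1 < 17 * (17 * S.q))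
    (e : (p + 1) / (17 * S.q) ≠ p / (17 * S.q)) : S.pos P z (p + 1) = S.pos P z p := by
  rcases succ_cases h.m_pos p with ⟨e1, e2, e3⟩ | ⟨e1, e2, e3⟩
  · exact absurd e1 e
  · unfold St.pos
    rw [e1, e2, e3, h.ps_cont hP]
    have : (p + 1) / (17 * S.q) < 17 := by
      rw [Nat.div_lt_iff_lt_mul h.m_pos]; exact hp
    omega

lemma pos_step (z p : ℕ) (hp : p + 1 < 17 * (17 * S.q)) :
    Nr (S.pos P z p).1 (S.pos P z (p + 1)).1 ∧ Nr (S.pos P z p).2 (S.pos P z (p + 1)).2 ∧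
    ((S.pos P z p).1 ≠ (S.pos P z (p + 1)).1 → (S.pos P z p).2 ≠ (S.pos P z (p + 1)).2 →
      S.γ (S.F z) (S.pos P z p).1 ≠ S.γ (S.F z) (S.pos P z (p + 1)).1) := by
  by_cases e : (p + 1) / (17 * S.q) = p / (17 * S.q)
  · rcases succ_cases h.m_pos p with ⟨e1, e2, e3⟩ | ⟨e1, e2, e3⟩
    · unfold St.pos St.ps
      rw [e1, e2]
      have v := h.D_valid hP z (p / (17 * S.q))
      exact st_nr h v.1 (mv_lt v.2.1 v.2.2 _) (mv_lt v.2.1 v.2.2 _) (mv_nr _ _ _)
    · omega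
  · rw [h.pos_bd hP z p hp e]; unfold Nr; simp

omit hP in
lemma pos_inc (z s t : ℕ) (ht : t < 17 * S.q) :
    S.pos P z (inc (17 * S.q) s t) = S.ps P z s t := by
  unfold St.pos inc; rw [co_div ht, co_mod ht]
omit hP in
lemma pos_dec (z s t : ℕ) :
    S.pos P z (dec (17 * S.q) s t) = S.ps P z s (17 * S.q - 1 - t) := by
  have := h.m_pos
  have ht : 17 * S.q - 1 - t < 17 * S.q := by omega
  unfold St.pos dec; rw [co_div ht, co_mod ht]

omit hP in
lemma pos_first (z : ℕ) : S.pos P z 0 =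
    S.st (S.F z) (S.G z) (S.Lp P z).gm (S.Lp P z).ρ (S.Lp P z).sd := by
  unfold St.pos St.ps
  rw [Nat.zero_div, Nat.zero_mod, mv_zero]
  cases hl : (S.Lp P z).gm <;> simp [St.D, desc, hl]

lemma pos_last (z : ℕ) : S.pos P z (17 * (17 * S.q) - 1) =
    S.st (S.F z) (S.G z) (S.Rp P z).gm (S.Rp P z).ρ (S.Rp P z).sd := by
  have hm := h.m_pos
  have e : 17 * (17 * S.q) - 1 = inc (17 * S.q) 16 (17 * S.q - 1) := by unfold inc; omega
  rw [e, h.pos_inc z 16 _ (by omega)]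
  unfold St.ps
  rw [mv_last (h.D_valid hP z 16).2.1 (h.D_valid hP z 16).2.2]
  cases hl : (S.Rp P z).gm <;> simp [St.D, desc, hl]

omit h hP in
lemma port_g {U V U' V' bg bf : ℕ} (e : V' ≠ V) : (S.port U V U' V' bg bf).gm = true ∧
    (S.port U V U' V' bg bf).sd = if V < V' then 17 * S.q - 1 else 0 := by
  unfold St.port
  by_cases e1 : U' = U <;> simp [e1, e]

lemma next_inv : Inv (S.next P) := by
  have hm := h.m_pos
  have jn := fun z => h.junction (bg := P.bg z) (bf := P.bf z) (h.lF z) (h.lG z) (h.comm z)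
    (h.comm (z + 1)) (h.rule z)
  have jn' := fun z => h.junction (bg := P.bg z) (bf := P.bf z)
    (h.rule' (z := z + 1) (z' := z) (by omega)).1 (h.rule' (z := z + 1) (z' := z) (by omega)).2.1
    (h.comm (z + 1)) (h.comm z) (h.rule' (z := z + 1) (z' := z) (by omega)).2.2
  have eL : ∀ z, S.Lp P (z + 1) =
      S.port (S.F (z + 1)) (S.G (z + 1)) (S.F z) (S.G z) (P.bg z) (P.bf z) := fun z => rfl
  have Jf0 : ∀ z, S.F (z + 1) = S.F z →
      (S.pos P z (17 * (17 * S.q) - 1)).1 = (S.pos P (z + 1) 0).1 := fun z e => by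
    rw [h.pos_last hP, h.pos_first, eL]; exact (jn z).1 e
  have Jg0 : ∀ z, S.G (z + 1) = S.G z →
      (S.pos P z (17 * (17 * S.q) - 1)).2 = (S.pos P (z + 1) 0).2 := fun z e => by
    rw [h.pos_last hP, h.pos_first, eL]; exact (jn z).2.2.2 e
  have cm : ∀ x, S.G ((S.next P).F x) = S.F ((S.next P).G x) := fun x => by
    show S.G (S.F _ * (17 * S.q) + (S.pos P _ _).1) = S.F (S.G _ * (17 * S.q) + (S.pos P _ _).2)
    unfold St.G St.F
    rw [co_div (h.pos_lt hP _ _).1, co_mod (h.pos_lt hP _ _).1, co_div (h.pos_lt hP _ _).2,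
      co_mod (h.pos_lt hP _ _).2]
    exact congrArg₂ (· + ·) (congrArg (· * S.q) (h.comm _)) (h.pos_comm hP _ _)
  refine ⟨hm, fun z p _ => (h.pos_lt hP z p).1, fun z p _ => (h.pos_lt hP z p).2, ?_, ?_,
    h.lF, h.lG, Jf0, ?_, ?_, Jg0, ?_, ?_, fun z p hp => (h.pos_step hP z p hp).1,
    fun z p hp => (h.pos_step hP z p hp).2.1, cm, ?_⟩
  · intro z s hs t ht
    show (S.pos P z (inc (17 * S.q) s t)).1 = t
    rw [h.pos_inc z s t ht]
    rcases hs with rfl | rfl <;> simp [St.ps, St.D, desc, St.st, mv_up (show t < 17 * S.q from ht)]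
  · intro z s hs t ht
    show (S.pos P z (inc (17 * S.q) s t)).2 = t
    rw [h.pos_inc z s t ht]
    rcases hs with rfl | rfl <;> simp [St.ps, St.D, desc, St.st, mv_up (show t < 17 * S.q from ht)]
  · intro z e
    show (S.pos P z (17 * (17 * S.q) - 1)).1 = 17 * S.q - 1 ∧ (S.pos P (z + 1) 0).1 = 0
    have e' : S.F (z + 1) = S.F z + 1 := e
    rw [h.pos_last hP, h.pos_first, eL]
    exact ⟨(jn z).2.1 (by omega), (jn' z).2.2.1 (by omega)⟩
  · intro z e
    show (S.pos P z (17 * (17 * S.q) - 1)).1 = 0 ∧ (S.pos P (z + 1) 0).1 = 17 * S.q - 1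
    have e' : S.F (z + 1) + 1 = S.F z := e
    rw [h.pos_last hP, h.pos_first, eL]
    exact ⟨(jn z).2.2.1 (by omega), (jn' z).2.1 (by omega)⟩
  · intro z e t ht
    have e' : S.G (z + 1) = S.G z + 1 := e
    have ht' : t < 17 * S.q := ht
    show (S.pos P z (inc (17 * S.q) 16 t)).2 = t ∧ (S.pos P (z + 1) (inc (17 * S.q) 0 t)).2 = t
    rw [h.pos_inc _ _ t ht, h.pos_inc _ _ t ht]
    have a : (S.Rp P z).gm = true ∧ (S.Rp P z).sd = _ := port_g (by omega)
    have b : (S.Lp P (z + 1)).gm = true ∧ (S.Lp P (z + 1)).sd =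
        if S.G (z + 1) < S.G z then 17 * S.q - 1 else 0 := by
      rw [eL]; exact port_g (by omega)
    rw [if_pos (by omega)] at a
    rw [if_neg (by omega)] at b
    simp [St.ps, St.D, desc, St.st, a.1, a.2, b.1, b.2, mv_up ht']
  · intro z e t ht
    have e' : S.G (z + 1) + 1 = S.G z := e
    have ht' : t < 17 * S.q := ht
    show (S.pos P z (dec (17 * S.q) 16 t)).2 = t ∧ (S.pos P (z + 1) (dec (17 * S.q) 0 t)).2 = t
    rw [h.pos_dec, h.pos_dec]
    have a : (S.Rp P z).gm = true ∧ (S.Rp P z).sd = _ := port_g (by omega)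
    have b : (S.Lp P (z + 1)).gm = true ∧ (S.Lp P (z + 1)).sd =
        if S.G (z + 1) < S.G z then 17 * S.q - 1 else 0 := by
      rw [eL]; exact port_g (by omega)
    rw [if_neg (by omega)] at a
    rw [if_pos (by omega)] at b
    have := mv_dn (show 17 * S.q - 1 - t < 17 * S.q by omega)
    simp [St.ps, St.D, desc, St.st, a.1, a.2, b.1, b.2, this]
    omega
  · intro x h1 h2
    show S.G ((S.next P).F x) ≠ S.G ((S.next P).F (x + 1))
    have hm' : 0 < 17 * (17 * S.q) := by omega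
    have eF : ∀ y, (S.next P).F y = S.F (y / (17 * (17 * S.q))) * (17 * S.q) +
      (S.pos P (y / (17 * (17 * S.q))) (y % (17 * (17 * S.q)))).1 := fun y => rfl
    have eG : ∀ y, (S.next P).G y = S.G (y / (17 * (17 * S.q))) * (17 * S.q) +
      (S.pos P (y / (17 * (17 * S.q))) (y % (17 * (17 * S.q)))).2 := fun y => rfl
    rw [eF, eF] at h1 ⊢
    rw [eG, eG] at h2
    rcases succ_cases hm' x with ⟨e1, e2, e3⟩ | ⟨e1, e2, e3⟩
    · rw [e1, e2] at h1 h2 ⊢
      have := (h.pos_step hP _ _ e3).2.2 (fun e => h1 (by rw [e])) (fun e => h2 (by rw [e]))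
      unfold St.G
      rw [co_div (h.pos_lt hP _ _).1, co_mod (h.pos_lt hP _ _).1, co_div (h.pos_lt hP _ _).1,
        co_mod (h.pos_lt hP _ _).1]
      omega
    · rw [e1, e2, e3] at h1 h2 ⊢
      set z := x / (17 * (17 * S.q))
      have a : S.F z ≠ S.F (z + 1) := fun e => h1 (by rw [Jf0 z e.symm, e])
      have b : S.G z ≠ S.G (z + 1) := fun e => h2 (by rw [Jg0 z e.symm, e])
      intro e
      apply h.rule z a b
      have := congrArg (· / S.q) e
      simp only [h.G_div] at this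
      rwa [co_div (h.pos_lt hP _ _).1, co_div (h.pos_lt hP _ _).1] at this

omit hP in
lemma sl_F (x : ℕ) : sl S.q ((S.next P).F x) =
    (S.pos P (x / (17 * (17 * S.q))) (x % (17 * (17 * S.q)))).1 % (17 * S.q) / S.q := by
  show (S.F _ * (17 * S.q) + (S.pos P _ _).1) % (17 * S.q) / S.q = _
  rw [add_comm, Nat.add_mul_mod_self_right]; rfl
omit hP in
lemma sl_G (x : ℕ) : sl S.q ((S.next P).G x) =
    (S.pos P (x / (17 * (17 * S.q))) (x % (17 * (17 * S.q)))).2 % (17 * S.q) / S.q := by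
  show (S.G _ * (17 * S.q) + (S.pos P _ _).2) % (17 * S.q) / S.q = _
  rw [add_comm, Nat.add_mul_mod_self_right]; rfl

/-- slot of the images, read from the descriptor -/
lemma sl_g (x : ℕ) (hg : (S.D P (x / (17 * (17 * S.q))) (sl (17 * S.q) x)).gm = true) :
    ∃ w < S.q, sl S.q ((S.next P).F x) =
      (S.D P (x / (17 * (17 * S.q))) (sl (17 * S.q) x)).ρ w / S.q := by
  have v := h.D_valid hP (x / (17 * (17 * S.q))) (sl (17 * S.q) x)
  have l := (h.pos_lt hP (x / (17 * (17 * S.q))) (x % (17 * (17 * S.q)))).1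
  rw [h.sl_F, Nat.mod_eq_of_lt l]
  refine ⟨_, h.bφ (S.G (x / (17 * (17 * S.q)))) _
    (mv_lt v.2.1 v.2.2 (x % (17 * (17 * S.q)) % (17 * S.q))), ?_⟩
  unfold St.pos St.ps St.st
  unfold sl at hg ⊢
  rw [if_pos hg]
lemma sl_f (x : ℕ) (hg : (S.D P (x / (17 * (17 * S.q))) (sl (17 * S.q) x)).gm = false) :
    ∃ w < S.q, sl S.q ((S.next P).G x) =
      (S.D P (x / (17 * (17 * S.q))) (sl (17 * S.q) x)).ρ w / S.q := by
  have v := h.D_valid hP (x / (17 * (17 * S.q))) (sl (17 * S.q) x)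
  have l := (h.pos_lt hP (x / (17 * (17 * S.q))) (x % (17 * (17 * S.q)))).2
  rw [h.sl_G, Nat.mod_eq_of_lt l]
  refine ⟨_, h.bγ (S.F (x / (17 * (17 * S.q)))) _
    (mv_lt v.2.1 v.2.2 (x % (17 * (17 * S.q)) % (17 * S.q))), ?_⟩
  unfold St.pos St.ps St.st
  unfold sl at hg ⊢
  rw [if_neg (by simp [hg])]

omit hP in
lemma inc_div {s w : ℕ} (hw : w < S.q) : inc S.q s w / S.q = s := co_div hw
omit hP in
lemma dec_div {s w : ℕ} : dec S.q s w / S.q = s := co_div (by have := h.hq; omega)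

lemma N_g (x s : ℕ) (hs : s = 6 ∨ s = 12) (hx : sl (17 * S.q) x = s) :
    sl S.q ((S.next P).F x) = if P.rs then P.bg (x / (17 * (17 * S.q))) else s := by
  rcases hs with rfl | rfl <;>
  · obtain ⟨w, hw, e⟩ := h.sl_g hP x (by rw [hx]; rfl)
    rw [e, hx]; exact h.inc_div hw
lemma N_f (x s : ℕ) (hs : s = 3 ∨ s = 9) (hx : sl (17 * S.q) x = s) :
    sl S.q ((S.next P).G x) = if P.rs then P.bf (x / (17 * (17 * S.q))) else s := by
  rcases hs with rfl | rfl <;>
  · obtain ⟨w, hw, e⟩ := h.sl_f hP x (by rw [hx]; rfl)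
    rw [e, hx]; exact h.inc_div hw

omit hP in
lemma port_cases {z z' bg bf : ℕ} (e : z' = z ∨ z' = z + 1 ∨ z' + 1 = z) {y w : ℕ} (hw : w < S.q)
    (hy : y / (17 * S.q) = S.F z)
    (hg : (S.port (S.F z) (S.G z) (S.F z') (S.G z') bg bf).gm = true)
    (hs : sl S.q y = (S.port (S.F z) (S.G z) (S.F z') (S.G z') bg bf).ρ w / S.q) :
    sl S.q y = bg ∨ (S.F z ≠ S.F z' ∧ S.InC y (S.F z')) := by
  obtain ⟨a, b, c⟩ := h.rule' e
  unfold St.port at hg hs
  by_cases e1 : S.F z' = S.F z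
  · left; rw [if_pos e1] at hs; rw [hs]; exact h.inc_div hw
  by_cases e2 : S.G z' = S.G z
  · rw [if_neg e1, if_pos e2] at hg; simp at hg
  right
  rw [if_neg e1, if_neg e2] at hs
  refine ⟨Ne.symm e1, by rw [hy]; exact c (Ne.symm e1) (Ne.symm e2), ?_⟩
  rw [hy]
  unfold Nr at a
  by_cases e3 : S.F z < S.F z'
  · left
    refine ⟨by omega, ?_⟩
    simp only [e3, if_true] at hs
    rw [hs]; split_ifs
    · exact h.inc_div hw
    · exact h.dec_div
  · right
    refine ⟨by omega, ?_⟩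
    simp only [e3, if_false] at hs
    rw [hs]; split_ifs
    · exact h.dec_div
    · exact h.inc_div hw

omit h hP in
lemma port_f {U V U' V' bg bf : ℕ} (hg : (S.port U V U' V' bg bf).gm = false) :
    (S.port U V U' V' bg bf).ρ = inc S.q bf := by
  unfold St.port at *
  split_ifs at hg ⊢ <;> simp_all

lemma nF_div (x : ℕ) : (S.next P).F x / (17 * S.q) = S.F (x / (17 * (17 * S.q))) :=
  (h.next_inv hP).F_div x

omit h hP in
lemma desc_cases (m : ℕ) (L R : Port) (G F : ℕ → ℕ) (s : ℕ) :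
    ((desc m L R G G F F s).gm = true ∧ ((desc m L R G G F F s).ρ = G ∨
      (L.gm = true ∧ (desc m L R G G F F s).ρ = L.ρ) ∨
      (R.gm = true ∧ (desc m L R G G F F s).ρ = R.ρ))) ∨
    ((desc m L R G G F F s).gm = false ∧ ((desc m L R G G F F s).ρ = F ∨
      (L.gm = false ∧ (desc m L R G G F F s).ρ = L.ρ) ∨
      (R.gm = false ∧ (desc m L R G G F F s).ρ = R.ρ))) := by
  unfold desc
  split <;> cases hl : L.gm <;> cases hr : R.gm <;> simp

lemma K_rs (hr : P.rs = true) (x : ℕ) :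
    sl S.q ((S.next P).F x) = P.bg (x / (17 * (17 * S.q))) ∨
    sl S.q ((S.next P).F x) = P.bg (x / (17 * (17 * S.q)) - 1) ∨
    sl S.q ((S.next P).G x) = P.bf (x / (17 * (17 * S.q))) ∨
    sl S.q ((S.next P).G x) = P.bf (x / (17 * (17 * S.q)) - 1) ∨
    ∃ U', S.InC ((S.next P).F x) U' := by
  set z := x / (17 * (17 * S.q)) with hz
  have eD : ∀ s, S.D P z s = desc (17 * S.q) (S.Lp P z) (S.Rp P z) (inc S.q (P.bg z))
      (inc S.q (P.bg z)) (inc S.q (P.bf z)) (inc S.q (P.bf z)) s := fun s => by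
    simp [St.D, hr]
  have dc := desc_cases (17 * S.q) (S.Lp P z) (S.Rp P z) (inc S.q (P.bg z)) (inc S.q (P.bf z))
    (sl (17 * S.q) x)
  rw [← eD] at dc
  rcases dc with ⟨a, b⟩ | ⟨a, b⟩
  · obtain ⟨w, hw, e⟩ := h.sl_g hP x a
    rw [← hz] at e
    rcases b with b | ⟨b, c⟩ | ⟨b, c⟩
    · left; rw [e, b]; exact h.inc_div hw
    · rw [c] at e
      rcases h.port_cases (z := z) (z' := z - 1) (pred_adj z) hw (h.nF_div hP x) b e with r | r
      · right; left; exact r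
      · exact Or.inr (Or.inr (Or.inr (Or.inr ⟨_, r.2⟩)))
    · rw [c] at e
      rcases h.port_cases (z := z) (z' := z + 1) (by omega) hw (h.nF_div hP x) b e with r | r
      · left; exact r
      · exact Or.inr (Or.inr (Or.inr (Or.inr ⟨_, r.2⟩)))
  · obtain ⟨w, hw, e⟩ := h.sl_f hP x a
    rw [← hz] at e
    rcases b with b | ⟨b, c⟩ | ⟨b, c⟩
    · right; right; left; rw [e, b]; exact h.inc_div hw
    · right; right; right; left
      rw [e, c, St.Lp, port_f b]; exact h.inc_div hw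
    · right; right; left
      rw [e, c, St.Rp, port_f b]; exact h.inc_div hw

lemma C_one (x z' : ℕ) (hc : (S.next P).InC x z') :
    (sl S.q ((S.next P).F x) = 6 ∨ sl S.q ((S.next P).F x) = 12) ∨
    (S.F (x / (17 * (17 * S.q))) ≠ S.F z' ∧ S.InC ((S.next P).F x) (S.F z')) := by
  obtain ⟨hne, hc⟩ := hc
  change S.G (x / (17 * (17 * S.q))) ≠ S.G z' at hne
  change (z' = x / (17 * (17 * S.q)) + 1 ∧ sl (17 * S.q) x = 16) ∨
    (z' + 1 = x / (17 * (17 * S.q)) ∧ sl (17 * S.q) x = 0) at hc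
  set z := x / (17 * (17 * S.q)) with hz
  rcases hc with ⟨e, hs⟩ | ⟨e, hs⟩
  · subst e
    have a : (S.Rp P z).gm = true := (port_g hne.symm).1
    obtain ⟨w, hw, e⟩ := h.sl_g hP x (by rw [hs]; simp [St.D, desc, ← hz, a])
    rw [hs, ← hz] at e
    have e' : (S.D P z 16).ρ = (S.Rp P z).ρ := by simp [St.D, desc, a]
    rw [e'] at e
    rcases h.port_cases (z := z) (z' := z + 1) (by omega) hw (h.nF_div hP x) a e with r | r
    · left; rw [r]; exact (hP _).1
    · right; exact r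
  · have ez : z - 1 = z' := by omega
    have a : (S.Lp P z).gm = true := by unfold St.Lp; rw [ez]; exact (port_g hne.symm).1
    obtain ⟨w, hw, e⟩ := h.sl_g hP x (by rw [hs]; simp [St.D, desc, ← hz, a])
    rw [hs, ← hz] at e
    have e' : (S.D P z 0).ρ = (S.Lp P z).ρ := by simp [St.D, desc, a]
    rw [e'] at e
    rcases h.port_cases (z := z) (z' := z - 1) (pred_adj z) hw (h.nF_div hP x) a e with r | r
    · left; rw [r]; exact (hP _).1
    · right; rw [← ez]; exact r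

/-- slot boundaries are pauses -/
lemma pause (x : ℕ) (e : (x + 1) / (17 * (17 * S.q)) = x / (17 * (17 * S.q)))
    (hs : sl (17 * S.q) (x + 1) ≠ sl (17 * S.q) x) : (S.next P).F (x + 1) = (S.next P).F x := by
  have hm := h.m_pos
  have hm' : 0 < 17 * (17 * S.q) := by omega
  have eF : ∀ y, (S.next P).F y = S.F (y / (17 * (17 * S.q))) * (17 * S.q) +
    (S.pos P (y / (17 * (17 * S.q))) (y % (17 * (17 * S.q)))).1 := fun y => rfl
  rcases succ_cases hm' x with ⟨e1, e2, e3⟩ | ⟨e1, e2, e3⟩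
  · unfold sl at hs
    rw [e2] at hs
    rw [eF, eF, e1, e2, h.pos_bd hP _ _ e3 hs]
  · omega

omit hP in
/-- inside a corner slot `G` moves strictly -/
lemma C_mv (x z' : ℕ) (hc : S.InC x z') (x' : ℕ) (hne : x' ≠ x)
    (e : x' / (17 * S.q) = x / (17 * S.q)) (hs : sl S.q x' = sl S.q x) : S.G x' ≠ S.G x := by
  have hq := h.hq
  obtain ⟨hn, hc⟩ := hc
  set z := x / (17 * S.q) with hz
  have key : ∃ s, sl S.q x = s ∧ ((∀ t < S.q, S.γ z (inc S.q s t) = t) ∨
      (∀ t < S.q, S.γ z (dec S.q s t) = t)) := by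
    rcases hc with ⟨e1, e2⟩ | ⟨e1, e2⟩
    · subst e1
      have := h.lg z; unfold Nr at this
      refine ⟨16, e2, ?_⟩
      by_cases c : S.g (z + 1) = S.g z + 1
      · left; exact fun t ht => (h.Cu z c t ht).1
      · right; exact fun t ht => (h.Cd z (by omega) t ht).1
    · have := h.lg z'; unfold Nr at this
      refine ⟨0, e2, ?_⟩
      rw [← e1] at hn ⊢
      by_cases c : S.g (z' + 1) = S.g z' + 1
      · left; exact fun t ht => (h.Cu z' c t ht).2
      · right; exact fun t ht => (h.Cd z' (by omega) t ht).2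
  obtain ⟨s, e1, e2⟩ := key
  rw [e1] at hs
  unfold sl at hs e1
  have d1 := Nat.div_add_mod' (x % (17 * S.q)) S.q
  have d2 := Nat.div_add_mod' (x' % (17 * S.q)) S.q
  have d3 := Nat.div_add_mod' x (17 * S.q)
  have d4 := Nat.div_add_mod' x' (17 * S.q)
  have l1 := Nat.mod_lt (x % (17 * S.q)) hq
  have l2 := Nat.mod_lt (x' % (17 * S.q)) hq
  rw [e1] at d1; rw [hs] at d2; rw [e] at d4; rw [← hz] at d3
  set t := x % (17 * S.q) % S.q
  set t' := x' % (17 * S.q) % S.q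
  have tn : t' ≠ t := by omega
  unfold St.G
  rw [e, ← hz, ← d1, ← d2]
  rcases e2 with e2 | e2
  · have a := e2 t l1; have b := e2 t' l2
    unfold inc at a b; rw [a, b]; omega
  · have a := e2 (S.q - 1 - t) (by omega); have b := e2 (S.q - 1 - t') (by omega)
    unfold dec at a b
    rw [show S.q - 1 - (S.q - 1 - t) = t by omega] at a
    rw [show S.q - 1 - (S.q - 1 - t') = t' by omega] at b
    rw [a, b]; omega

omit hP in
lemma lazyF (x : ℕ) (e : (x + 1) / (17 * S.q) ≠ x / (17 * S.q))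
    (hf : S.f ((x + 1) / (17 * S.q)) = S.f (x / (17 * S.q))) : S.F (x + 1) = S.F x := by
  rcases succ_cases h.m_pos x with ⟨e1, e2, e3⟩ | ⟨e1, e2, e3⟩
  · exact absurd e1 e
  · unfold St.F
    rw [e1] at hf
    rw [e1, e2, e3, h.Jf0 _ hf, hf]

end Inv

def S0 : St := ⟨1, fun _ => 0, fun _ => 0, fun _ _ => 0, fun _ _ => 0⟩

lemma S0_inv : Inv S0 := by
  constructor <;> simp [S0, Nr, St.F, St.G]

end H99.Comm
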