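import Pool.Agent.H99.Comm2

set_option autoImplicit false

namespace H99.Comm

def rsn (n : ℕ) : Bool := decide (Nat.sqrt n * Nat.sqrt n = n)
def kk (n : ℕ) : ℕ := (Nat.unpair (Nat.sqrt n)).1

lemma sched (k N : ℕ) : ∃ n ≥ N, rsn n = true ∧ kk n = k ∧ k + 1 ≤ n ∧
    ∀ j, n - k ≤ j → j < n → rsn j = false := by
  set j := Nat.pair k (N + k + 1) with hj
  have h1 : N + k + 1 ≤ j := Nat.right_le_pair _ _
  have h2 : j ≤ j * j := Nat.le_mul_self j
  refine ⟨j * j, by omega, by simp [rsn, Nat.sqrt_eq], by simp [kk, Nat.sqrt_eq, hj], by omega,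
    fun i hi hi' => ?_⟩
  simp only [rsn, decide_eq_false_iff_not]
  intro e
  set q := Nat.sqrt i
  have h3 : q < j := by
    by_contra hc
    have : j * j ≤ q * q := Nat.mul_le_mul (by omega) (by omega)
    omega
  have h4 : (q + 1) * (q + 1) ≤ j * j := Nat.mul_le_mul h3 h3
  have h5 : q * q + 2 * q + 1 ≤ j * j := by nlinarith
  obtain ⟨d, hd⟩ : ∃ d, j = q + 1 + d := ⟨j - (q + 1), by omega⟩
  have h6 : j * j = q * q + (q + j) * (d + 1) := by rw [hd]; ring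
  have h7 : (q + j) ≤ (q + j) * (d + 1) := Nat.le_mul_of_pos_right _ (by omega)
  omega

def dn : ℕ → ℕ → ℕ → ℕ
  | _, 0, x => x
  | L, r + 1, x => dn (L - 1) r (x / 17 ^ L)

lemma dn_succ (r : ℕ) : ∀ L z, dn L r (z + 1) = dn L r z ∨ dn L r (z + 1) = dn L r z + 1 := by
  induction r with
  | zero => intro L z; right; rfl
  | succ r ih =>
    intro L z
    simp only [dn]
    rcases succ_cases (show 0 < 17 ^ L by positivity) z with ⟨e, -⟩ | ⟨e, -⟩
    · rw [e]; left; rfl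
    · rw [e]; exact ih _ _

lemma sl_succ {q : ℕ} (hq : 0 < q) (x : ℕ) :
    sl q (x + 1) = sl q x ∨ sl q (x + 1) = sl q x + 1 ∨ sl q (x + 1) = 0 := by
  unfold sl
  rcases succ_cases (show 0 < 17 * q by omega) x with ⟨-, e, -⟩ | ⟨-, e, -⟩
  · rw [e]
    rcases succ_cases hq (x % (17 * q)) with ⟨e, -⟩ | ⟨e, -⟩
    · left; exact e
    · right; left; exact e
  · rw [e]; simp

def cs (n z : ℕ) : ℕ := sl (17 ^ (n - (kk n - 1) - 1)) (dn n (kk n - 1) z)

lemma cs_succ (n z : ℕ) :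
    cs n (z + 1) = cs n z ∨ cs n (z + 1) = cs n z + 1 ∨ cs n (z + 1) = 0 := by
  unfold cs
  rcases dn_succ (kk n - 1) n z with e | e
  · rw [e]; left; rfl
  · rw [e]; exact sl_succ (by positivity) _

def par (n : ℕ) : Par :=
  ⟨fun z => if cs n z = 6 ∨ cs n (z + 1) = 6 then 12 else 6,
   fun z => if cs n z = 3 ∨ cs n (z + 1) = 3 then 9 else 3, rsn n⟩

lemma par_PH (n : ℕ) : PH (par n) := fun z => by
  simp only [par]; constructor <;> split_ifs <;> simp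

lemma par_safe (n z : ℕ) : cs n z ≠ (par n).bg z ∧ cs n z ≠ (par n).bg (z - 1) ∧
    cs n z ≠ (par n).bf z ∧ cs n z ≠ (par n).bf (z - 1) := by
  have a := cs_succ n z
  simp only [par]
  rcases z with _ | z
  · simp only [Nat.zero_sub]
    refine ⟨?_, ?_, ?_, ?_⟩ <;> split_ifs <;> omega
  · have b := cs_succ n z
    simp only [Nat.add_sub_cancel]
    refine ⟨?_, ?_, ?_, ?_⟩ <;> split_ifs <;> omega

def T : ℕ → St
  | 0 => S0
  | n + 1 => (T n).next (par (n + 1))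

lemma T_inv : ∀ n, Inv (T n)
  | 0 => S0_inv
  | n + 1 => (T_inv n).next_inv (par_PH _)

lemma T_q : ∀ n, (T n).q = 17 ^ n
  | 0 => rfl
  | n + 1 => by show 17 * (T n).q = _; rw [T_q n, pow_succ, mul_comm]

lemma T_m (n : ℕ) : 17 * (T n).q = 17 ^ (n + 1) := by rw [T_q, pow_succ, mul_comm]

lemma F0 (x : ℕ) : (T 0).F x = 0 := by simp [T, S0, St.F]
lemma G0 (x : ℕ) : (T 0).G x = 0 := by simp [T, S0, St.G]

def fh (p : ℕ × ℕ) : ℕ × ℕ := (p.1 - 1, (T (p.1 - 1)).F p.2)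
def gh (p : ℕ × ℕ) : ℕ × ℕ := (p.1 - 1, (T (p.1 - 1)).G p.2)
def sh (p : ℕ × ℕ) : ℕ × ℕ := (p.1 - 1, p.2 / 17 ^ p.1)
def Adj (p p' : ℕ × ℕ) : Prop := p'.1 = p.1 ∧ (p'.2 = p.2 + 1 ∨ p'.2 + 1 = p.2)

lemma fh_low {p : ℕ × ℕ} (h : p.1 ≤ 1) : fh p = (0, 0) := by
  unfold fh; rw [show p.1 - 1 = 0 by omega, F0]
lemma gh_low {p : ℕ × ℕ} (h : p.1 ≤ 1) : gh p = (0, 0) := by
  unfold gh; rw [show p.1 - 1 = 0 by omega, G0]

lemma fg_comm (p : ℕ × ℕ) : gh (fh p) = fh (gh p) := by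
  obtain ⟨L, x⟩ := p
  by_cases h : L ≤ 2
  · rw [gh_low (by simp [fh]; omega), fh_low (by simp [gh]; omega)]
  · obtain ⟨n, rfl⟩ : ∃ n, L = n + 2 := ⟨L - 2, by omega⟩
    exact Prod.ext rfl ((T_inv (n + 1)).comm x)

lemma sf_comm (p : ℕ × ℕ) : sh (fh p) = fh (sh p) := by
  obtain ⟨L, x⟩ := p
  by_cases h : L ≤ 1
  · rw [fh_low h, fh_low (by simp [sh]; omega)]; simp [sh]
  · obtain ⟨n, rfl⟩ : ∃ n, L = n + 2 := ⟨L - 2, by omega⟩
    have := (T_inv (n + 1)).F_div x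
    rw [T_m, T_q] at this
    exact Prod.ext rfl this
lemma sg_comm (p : ℕ × ℕ) : sh (gh p) = gh (sh p) := by
  obtain ⟨L, x⟩ := p
  by_cases h : L ≤ 1
  · rw [gh_low h, gh_low (by simp [sh]; omega)]; simp [sh]
  · obtain ⟨n, rfl⟩ : ∃ n, L = n + 2 := ⟨L - 2, by omega⟩
    have := (T_inv (n + 1)).G_div x
    rw [T_m, T_q] at this
    exact Prod.ext rfl this

lemma adj_f {p p' : ℕ × ℕ} (h : Adj p p') (hne : fh p ≠ fh p') : Adj (fh p) (fh p') := by
  have a := ((T_inv (p.1 - 1)).rule' (z := p.2) (z' := p'.2) (Or.inr h.2)).1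
  unfold fh at *; unfold Adj Nr at *
  rw [h.1] at hne ⊢
  simp only [ne_eq, Prod.mk.injEq, true_and] at hne ⊢
  omega
lemma adj_g {p p' : ℕ × ℕ} (h : Adj p p') (hne : gh p ≠ gh p') : Adj (gh p) (gh p') := by
  have a := ((T_inv (p.1 - 1)).rule' (z := p.2) (z' := p'.2) (Or.inr h.2)).2.1
  unfold gh at *; unfold Adj Nr at *
  rw [h.1] at hne ⊢
  simp only [ne_eq, Prod.mk.injEq, true_and] at hne ⊢
  omega
lemma adj_s {p p' : ℕ × ℕ} (h : Adj p p') (hne : sh p ≠ sh p') : Adj (sh p) (sh p') := by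
  unfold sh at *; unfold Adj at *
  rw [h.1] at hne ⊢
  simp only [ne_eq, Prod.mk.injEq, true_and] at hne ⊢
  have hp : 0 < 17 ^ p.1 := by positivity
  rcases h.2 with e | e
  · rw [e] at hne ⊢
    rcases succ_cases hp p.2 with ⟨a, -⟩ | ⟨a, -⟩ <;> omega
  · rw [← e] at hne ⊢
    rcases succ_cases hp p'.2 with ⟨a, -⟩ | ⟨a, -⟩ <;> omega

lemma rule_h {p p' : ℕ × ℕ} (h : Adj p p') (h1 : fh p ≠ fh p') (h2 : gh p ≠ gh p') :
    gh (fh p) ≠ gh (fh p') := by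
  obtain ⟨L, x⟩ := p
  obtain ⟨L', x'⟩ := p'
  obtain ⟨e, h⟩ := h
  simp only at e h
  subst e
  by_cases hL : L' ≤ 1
  · exact absurd (by rw [fh_low hL, fh_low hL]) h1
  · obtain ⟨n, rfl⟩ : ∃ n, L' = n + 2 := ⟨L' - 2, by omega⟩
    have a := ((T_inv (n + 1)).rule' (z := x) (z' := x') (Or.inr h)).2.2
      (fun e => h1 (Prod.ext rfl e)) (fun e => h2 (Prod.ext rfl e))
    exact fun e => a (congrArg Prod.snd e)

lemma lazy_h {p p' : ℕ × ℕ} (h : Adj p p') (h1 : sh p ≠ sh p') (h2 : fh (sh p) = fh (sh p')) :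
    fh p = fh p' := by
  obtain ⟨L, x⟩ := p
  obtain ⟨L', x'⟩ := p'
  obtain ⟨e, h⟩ := h
  simp only at e h
  subst e
  by_cases hL : L' ≤ 1
  · rw [fh_low hL, fh_low hL]
  · obtain ⟨n, rfl⟩ : ∃ n, L' = n + 2 := ⟨L' - 2, by omega⟩
    have a : x / 17 ^ (n + 2) ≠ x' / 17 ^ (n + 2) := fun e => h1 (Prod.ext rfl e)
    have b : (T n).F (x / 17 ^ (n + 2)) = (T n).F (x' / 17 ^ (n + 2)) := congrArg Prod.snd h2
    have c := (T_inv (n + 1)).lazyF
    rw [T_m] at c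
    refine Prod.ext rfl ?_
    rcases h with e | e
    · subst e; exact (c x a.symm b.symm).symm
    · subst e; exact c x' a b

lemma rect1 (i : ℕ) : ∀ p p', Adj p p' → fh^[i] p ≠ fh^[i] p' → gh p ≠ gh p' →
    fh^[i] (gh p) ≠ fh^[i] (gh p') := by
  induction i with
  | zero => intro p p' _ _ h; exact h
  | succ i ih =>
    intro p p' h h1 h2
    simp only [Function.iterate_succ_apply] at h1 ⊢
    have a : fh p ≠ fh p' := fun e => h1 (by rw [e])
    rw [← fg_comm, ← fg_comm]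
    exact ih _ _ (adj_f h a) h1 (rule_h h a h2)

lemma rect (i j : ℕ) : ∀ p p', Adj p p' → fh^[i] p ≠ fh^[i] p' → gh^[j] p ≠ gh^[j] p' →
    fh^[i] (gh^[j] p) ≠ fh^[i] (gh^[j] p') := by
  induction j with
  | zero => intro p p' _ h _; exact h
  | succ j ih =>
    intro p p' h h1 h2
    simp only [Function.iterate_succ_apply] at h2 ⊢
    have a : gh p ≠ gh p' := fun e => h2 (by rw [e])
    exact ih _ _ (adj_g h a) (rect1 i _ _ h h1 a) h2

lemma descend (r : ℕ) : ∀ p p', Adj p p' → sh p ≠ sh p' → fh^[r] p ≠ fh^[r] p' →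
    fh^[r] (sh p) ≠ fh^[r] (sh p') := by
  induction r with
  | zero => intro p p' _ h _; exact h
  | succ r ih =>
    intro p p' h h1 h2
    simp only [Function.iterate_succ_apply] at h2 ⊢
    have a : fh p ≠ fh p' := fun e => h2 (by rw [e])
    rw [← sf_comm, ← sf_comm]
    refine ih _ _ (adj_f h a) ?_ h2
    rw [sf_comm, sf_comm]
    exact fun e => a (lazy_h h h1 e)

lemma lvl_f (i : ℕ) : ∀ p : ℕ × ℕ, (fh^[i] p).1 = p.1 - i := by
  induction i with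
  | zero => intro p; rfl
  | succ i ih => intro p; rw [Function.iterate_succ_apply, ih]; simp [fh]; omega
lemma lvl_g (i : ℕ) : ∀ p : ℕ × ℕ, (gh^[i] p).1 = p.1 - i := by
  induction i with
  | zero => intro p; rfl
  | succ i ih => intro p; rw [Function.iterate_succ_apply, ih]; simp [gh]; omega

lemma collapse {i : ℕ} {p : ℕ × ℕ} (hi : 1 ≤ i) (h : p.1 ≤ i) : fh^[i] p = (0, 0) := by
  obtain ⟨i, rfl⟩ : ∃ j, i = j + 1 := ⟨i - 1, by omega⟩
  rw [Function.iterate_succ_apply', fh_low (by rw [lvl_f]; omega)]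

lemma strict_mono {r r' : ℕ} (h : r' ≤ r) {p p' : ℕ × ℕ} (hs : fh^[r] p ≠ fh^[r] p') :
    fh^[r'] p ≠ fh^[r'] p' := by
  obtain ⟨d, rfl⟩ : ∃ d, r = d + r' := ⟨r - r', by omega⟩
  intro e; apply hs
  rw [Function.iterate_add_apply, Function.iterate_add_apply, e]

def Thr (ξ : ℕ → ℕ) : Prop := ∀ n, ξ n = ξ (n + 1) / 17 ^ (n + 1)
def ft (ξ : ℕ → ℕ) (n : ℕ) : ℕ := (T n).F (ξ (n + 1))
def gt (ξ : ℕ → ℕ) (n : ℕ) : ℕ := (T n).G (ξ (n + 1))

lemma Thr.ft {ξ : ℕ → ℕ} (h : Thr ξ) : Thr (ft ξ) := fun n => by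
  have := (T_inv (n + 1)).F_div (ξ (n + 2))
  rw [T_m, T_q, ← h (n + 1)] at this
  exact this.symm
lemma Thr.gt {ξ : ℕ → ℕ} (h : Thr ξ) : Thr (gt ξ) := fun n => by
  have := (T_inv (n + 1)).G_div (ξ (n + 2))
  rw [T_m, T_q, ← h (n + 1)] at this
  exact this.symm
lemma ftgt : Function.Commute ft gt := fun ξ => funext fun n =>
  ((T_inv (n + 1)).comm (ξ (n + 2))).symm

def Orb (k : ℕ) (ξ : ℕ → ℕ) : Prop := Thr ξ ∧ ft^[k] ξ = ξ ∧ gt^[k] ξ = ξ

lemma Orb.ft {k : ℕ} {ξ : ℕ → ℕ} (h : Orb k ξ) : Orb k (ft ξ) :=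
  ⟨h.1.ft, by rw [← Function.iterate_succ_apply, Function.iterate_succ_apply', h.2.1],
    by rw [← (ftgt.iterate_right k).eq, h.2.2]⟩
lemma Orb.gt {k : ℕ} {ξ : ℕ → ℕ} (h : Orb k ξ) : Orb k (gt ξ) :=
  ⟨h.1.gt, by rw [(ftgt.iterate_left k).eq, h.2.1],
    by rw [← Function.iterate_succ_apply, Function.iterate_succ_apply', h.2.2]⟩
lemma Orb.fts {k : ℕ} {ξ : ℕ → ℕ} (h : Orb k ξ) (r : ℕ) : Orb k (H99.Comm.ft^[r] ξ) := by
  induction r with
  | zero => exact h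
  | succ r ih => rw [Function.iterate_succ_apply']; exact ih.ft

lemma Thr.dn {ξ : ℕ → ℕ} (h : Thr ξ) (r : ℕ) : ∀ L, r ≤ L → dn L r (ξ L) = ξ (L - r) := by
  induction r with
  | zero => intro L _; rfl
  | succ r ih =>
    intro L hL
    obtain ⟨L, rfl⟩ : ∃ M, L = M + 1 := ⟨L - 1, by omega⟩
    simp only [H99.Comm.dn, Nat.add_sub_cancel]
    rw [← h L, ih L (by omega)]; congr 1; omega

lemma Thr.par {ξ : ℕ → ℕ} (h : Thr ξ) (n : ℕ) : ξ (n + 1) / (17 * (T n).q) = ξ n := by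
  rw [T_m]; exact (h n).symm

lemma chainF (s : ℕ) (hs : s = 6 ∨ s = 12) (m r : ℕ) : ∀ η : ℕ → ℕ,
    (∀ j, m < j → j ≤ m + r → rsn j = false) → sl (T (m + r)).q (η (m + r + 1)) = s →
    sl (T m).q ((ft^[r] η) (m + 1)) = s := by
  induction r with
  | zero => intro η _ h; exact h
  | succ r ih =>
    intro η hj h
    rw [Function.iterate_succ_apply]
    refine ih _ (fun j a b => hj j a (by omega)) ?_
    have := (T_inv (m + r)).N_g (par_PH (m + r + 1)) (η (m + r + 2)) s hs h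
    rw [if_neg (by simp [par, hj (m + r + 1) (by omega) (by omega)])] at this
    exact this
lemma chainG (s : ℕ) (hs : s = 3 ∨ s = 9) (m r : ℕ) : ∀ η : ℕ → ℕ,
    (∀ j, m < j → j ≤ m + r → rsn j = false) → sl (T (m + r)).q (η (m + r + 1)) = s →
    sl (T m).q ((gt^[r] η) (m + 1)) = s := by
  induction r with
  | zero => intro η _ h; exact h
  | succ r ih =>
    intro η hj h
    rw [Function.iterate_succ_apply]
    refine ih _ (fun j a b => hj j a (by omega)) ?_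
    have := (T_inv (m + r)).N_f (par_PH (m + r + 1)) (η (m + r + 2)) s hs h
    rw [if_neg (by simp [par, hj (m + r + 1) (by omega) (by omega)])] at this
    exact this
lemma chainA (m r : ℕ) : ∀ η : ℕ → ℕ,
    (sl (T (m + r)).q (η (m + r + 1)) = 6 ∨ sl (T (m + r)).q (η (m + r + 1)) = 12) →
    (sl (T m).q ((ft^[r] η) (m + 1)) = 6 ∨ sl (T m).q ((ft^[r] η) (m + 1)) = 12) := by
  induction r with
  | zero => intro η h; exact h
  | succ r ih =>
    intro η h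
    rw [Function.iterate_succ_apply]
    refine ih _ ?_
    have := (T_inv (m + r)).N_g (par_PH (m + r + 1)) (η (m + r + 2)) _ h rfl
    have e : sl (T (m + r)).q (ft η (m + r + 1)) = _ := this
    rw [e]
    split_ifs
    · exact (par_PH _ _).1
    · exact h

def AC (k n : ℕ) : Prop := ∀ ξ, Orb k ξ → ∃ z', (T n).InC (ξ (n + 1)) z'

lemma AC_of {k n : ℕ} (hk : 1 ≤ k) (h : ∀ ξ, Orb k ξ → ∃ z', (T n).InC (ft ξ (n + 1)) z') :
    AC k n := fun ξ hξ => by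
  obtain ⟨k, rfl⟩ : ∃ j, k = j + 1 := ⟨k - 1, by omega⟩
  have := h _ (hξ.fts k)
  rwa [← Function.iterate_succ_apply' ft, hξ.2.1] at this

lemma AC_often {k : ℕ} (hk : 1 ≤ k) (N : ℕ) : ∃ n ≥ N, AC k n := by
  obtain ⟨n, hn, hr, hkk, hkn, hj⟩ := sched k (N + 1)
  obtain ⟨k, rfl⟩ : ∃ j, k = j + 1 := ⟨k - 1, by omega⟩
  obtain ⟨m, rfl⟩ : ∃ m, n = m + k + 1 := ⟨n - k - 1, by omega⟩
  refine ⟨m + k, by omega, AC_of hk fun ξ hξ => ?_⟩
  have K := (T_inv (m + k)).K_rs (par_PH (m + k + 1)) hr (ξ (m + k + 2))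
  have ez : ξ (m + k + 2) / (17 * (17 * (T (m + k)).q)) = ξ (m + k + 1) := hξ.1.par (m + k + 1)
  rw [ez] at K
  have ec : cs (m + k + 1) (ξ (m + k + 1)) = sl (T m).q (ξ (m + 1)) := by
    unfold cs
    rw [hkk, Nat.add_sub_cancel, hξ.1.dn k _ (by omega), T_q,
      show m + k + 1 - k - 1 = m by omega, show m + k + 1 - k = m + 1 by omega]
  have sf := par_safe (m + k + 1) (ξ (m + k + 1))
  rw [ec] at sf
  have hj' : ∀ j, m < j → j ≤ m + k → rsn j = false := fun j a b => hj j (by omega) (by omega)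
  have cF := fun s hs => chainF s hs m k (ft ξ) hj'
  have cG := fun s hs => chainG s hs m k (gt ξ) hj'
  rw [← Function.iterate_succ_apply, hξ.2.1] at cF
  rw [← Function.iterate_succ_apply, hξ.2.2] at cG
  rcases K with K | K | K | K | K
  · exact absurd (cF _ (par_PH _ _).1 K) sf.1
  · exact absurd (cF _ (par_PH _ _).1 K) sf.2.1
  · exact absurd (cG _ (par_PH _ _).2 K) sf.2.2.1
  · exact absurd (cG _ (par_PH _ _).2 K) sf.2.2.2
  · exact K

section kill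
variable {k n1 : ℕ} (hk : 1 ≤ k) (h1 : AC k n1)
include h1

lemma kind2 {m : ℕ} (hm : n1 ≤ m) {ξ : ℕ → ℕ} (hξ : Orb k ξ) {z' : ℕ}
    (hc : (T (m + 1)).InC (ξ (m + 2)) z') : (T m).InC (ft ξ (m + 1)) ((T m).F z') := by
  rcases (T_inv m).C_one (par_PH (m + 1)) _ _ hc with a | a
  · obtain ⟨r, rfl⟩ : ∃ r, m = n1 + r := ⟨m - n1, by omega⟩
    have b := chainA n1 r (ft ξ) a
    obtain ⟨w, -, c⟩ := h1 _ (hξ.ft.fts r)
    omega
  · exact a.2

include hk in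
lemma AC_all (m : ℕ) (hm : n1 ≤ m) : AC k m := by
  obtain ⟨n, hn, h⟩ := AC_often hk m
  induction n, hn using Nat.le_induction with
  | base => exact h
  | succ n hn ih =>
    refine ih (AC_of hk fun ξ hξ => ?_)
    obtain ⟨z', hz⟩ := h ξ hξ
    exact ⟨_, kind2 h1 (by omega) hξ hz⟩

lemma strict_chain (r : ℕ) : ∀ m, n1 + r ≤ m → ∀ ξ, Orb k ξ → ∀ z', (T m).InC (ξ (m + 1)) z' →
    fh^[r] (m, ξ m) ≠ fh^[r] (m, z') := by
  induction r with
  | zero =>
    intro m _ ξ hξ z' hc e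
    have := hc.1
    rw [hξ.1.par] at this
    exact this (by rw [show ξ m = z' from congrArg Prod.snd e])
  | succ r ih =>
    intro m hm ξ hξ z' hc
    obtain ⟨m, rfl⟩ : ∃ M, m = M + 1 := ⟨m - 1, by omega⟩
    exact ih m (by omega) _ hξ.ft _ (kind2 h1 (by omega) hξ hc)

include hk in
lemma gstrict (hn : 1 ≤ n1) {m : ℕ} (hm : n1 + 1 ≤ m) {ξ : ℕ → ℕ} (hξ : Orb k ξ) {p' : ℕ × ℕ}
    (ha : Adj (m, ξ m) p') (hs : sh p' = sh (m, ξ m)) (hf : fh (m, ξ m) ≠ fh p') :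
    gh (m, ξ m) ≠ gh p' := by
  obtain ⟨a, rfl⟩ : ∃ a, m = a + 2 := ⟨m - 2, by omega⟩
  obtain ⟨L, x'⟩ := p'
  obtain ⟨e, ha⟩ := ha
  simp only at e ha
  subst e
  obtain ⟨z', hc⟩ := AC_all hk h1 (a + 1) (by omega) ξ hξ
  have hs' : x' / (17 * (T (a + 1)).q) = ξ (a + 2) / (17 * (T (a + 1)).q) := by
    rw [T_m]; exact congrArg Prod.snd hs
  by_cases e : sl (T (a + 1)).q x' = sl (T (a + 1)).q (ξ (a + 2))
  · have := (T_inv (a + 1)).C_mv _ _ hc x' (show x' ≠ ξ (a + 2) by omega) hs' e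
    exact fun e => this (congrArg Prod.snd e).symm
  · exfalso; apply hf
    refine Prod.ext rfl ?_
    rcases ha with ha | ha
    · subst ha
      exact ((T_inv a).pause (par_PH (a + 1)) _ hs' e).symm
    · have := (T_inv a).pause (par_PH (a + 1)) x' (by rw [ha]; exact hs'.symm)
        (by rw [ha]; exact Ne.symm e)
      rw [ha] at this; exact this

include hk in
lemma gstrict_it (hn : 1 ≤ n1) (r : ℕ) : ∀ m, n1 + r ≤ m → ∀ ξ, Orb k ξ → ∀ p', Adj (m, ξ m) p' →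
    sh p' = sh (m, ξ m) → fh^[r] (m, ξ m) ≠ fh^[r] p' → gh^[r] (m, ξ m) ≠ gh^[r] p' := by
  induction r with
  | zero => intro m _ ξ _ p' _ _ h; exact h
  | succ r ih =>
    intro m hm ξ hξ p' ha hs hf
    have a := gstrict hk h1 hn (by omega) hξ ha hs (strict_mono (r' := 1) (by omega) hf)
    have b := rect1 r _ _ ha (strict_mono (by omega) hf) a
    obtain ⟨m, rfl⟩ : ∃ M, m = M + 1 := ⟨m - 1, by omega⟩
    have e : gh (m + 1, ξ (m + 1)) = (m, gt ξ m) := rfl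
    have c := adj_g ha a
    simp only [Function.iterate_succ_apply]
    rw [e] at b c ⊢
    exact ih m (by omega) _ hξ.gt _ c (by rw [← e, sg_comm, sg_comm, hs]) b

include hk in
lemma final (hn : 1 ≤ n1) {ξ : ℕ → ℕ} (hξ : Orb k ξ) (l : ℕ) : ∀ p', Adj (l, ξ l) p' →
    fh^[2 * n1] (l, ξ l) ≠ fh^[2 * n1] p' → l ≤ 3 * n1 → False := by
  induction l with
  | zero =>
    intro p' ha hf _
    exact hf (by rw [collapse (by omega) (by simp), collapse (by omega) (by rw [ha.1]; simp)])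
  | succ l ih =>
    intro p' ha hf hl
    have hl' : 2 * n1 < l + 1 := by
      by_contra hc
      exact hf (by rw [collapse (by omega) (by simpa using hc),
        collapse (by omega) (by rw [ha.1]; simpa using hc)])
    by_cases hs : sh p' = sh (l + 1, ξ (l + 1))
    · have a := strict_mono (r' := l + 1 - n1) (by omega) hf
      have b := gstrict_it hk h1 hn (l + 1 - n1) (l + 1) (by omega) ξ hξ p' ha hs a
      apply rect _ _ _ _ ha a b
      rw [collapse (by omega) (by rw [lvl_g]; simp only; omega),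
        collapse (by omega) (by rw [lvl_g, ha.1]; simp only; omega)]
    · have e : sh (l + 1, ξ (l + 1)) = (l, ξ l) := Prod.ext rfl (hξ.1 l).symm
      have a := adj_s ha (Ne.symm hs)
      have b := descend _ _ _ ha (Ne.symm hs) hf
      rw [e] at a b
      exact ih _ a b (by omega)
end kill

theorem no_orb {k : ℕ} (hk : 1 ≤ k) (ξ : ℕ → ℕ) : ¬ Orb k ξ := fun hξ => by
  obtain ⟨n1, hn, h1⟩ := AC_often hk 1
  obtain ⟨z', hc⟩ := AC_all hk h1 (3 * n1) (by omega) ξ hξ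
  refine final hk h1 hn hξ (3 * n1) (3 * n1, z') ⟨rfl, ?_⟩
    (strict_chain h1 _ _ (by omega) ξ hξ z' hc) le_rfl
  have := hc.2
  rw [hξ.1.par] at this
  simp only; omega

end H99.Comm
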