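import Pool.Agent.H99.EinPF

/-! The entire function `G z = z + E (exp z)` with `G' = exp (exp z)`. -/

open Complex Metric Set Filter Topology
open scoped Real

noncomputable section

namespace Pool.Agent.H99.Ein

theorem exists_E : ∃ E : ℂ → ℂ, E 1 = 1 ∧ ∀ w, HasDerivAt E (dslope exp 0 w) w := by
  have hg : Differentiable ℂ (dslope exp 0) := by
    rw [← differentiableOn_univ, differentiableOn_dslope univ_mem]
    exact differentiable_exp.differentiableOn
  obtain ⟨E, h1, h2⟩ := hg.isExactOn_univ.with_val_at 1 1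
  exact ⟨E, h1, fun w => h2 w trivial⟩

def E : ℂ → ℂ := exists_E.choose

theorem E_one : E 1 = 1 := exists_E.choose_spec.1

theorem E_deriv (w : ℂ) : HasDerivAt E (dslope exp 0 w) w := exists_E.choose_spec.2 w

theorem E_deriv' {w : ℂ} (hw : w ≠ 0) : HasDerivAt E ((exp w - 1) / w) w := by
  have := E_deriv w
  rwa [dslope_of_ne _ hw, slope_def_field, exp_zero, sub_zero] at this

theorem E_cont : Continuous E := continuous_iff_continuousAt.2 fun w => (E_deriv w).continuousAt

theorem E_im (s : ℝ) : (E s).im = 0 := by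
  have h : ∀ s : ℝ, HasDerivAt (fun s : ℝ => (E s).im) 0 s := by
    intro s
    have h1 := imCLM.hasFDerivAt.comp_hasDerivAt s (E_deriv (s : ℂ)).comp_ofReal
    refine h1.congr_deriv ?_
    by_cases hs : s = 0
    · subst hs; simp [dslope_same]
    · rw [dslope_of_ne _ (by exact_mod_cast hs), slope_def_field, exp_zero, sub_zero,
        imCLM_apply, ← ofReal_exp, ← ofReal_one, ← ofReal_sub, ← ofReal_div, ofReal_im]
  have := is_const_of_deriv_eq_zero (fun s => (h s).differentiableAt) (fun s => (h s).deriv) s 1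
  rw [this]
  simp [E_one]

def G (z : ℂ) : ℂ := z + E (exp z)

theorem G_deriv (z : ℂ) : HasDerivAt G (exp (exp z)) z := by
  have h := (hasDerivAt_id z).add ((E_deriv' (exp_ne_zero z)).comp z (hasDerivAt_exp z))
  refine h.congr_deriv ?_
  have := exp_ne_zero z
  field_simp
  ring

theorem G_zero : G 0 = 1 := by simp [G, E_one]

theorem G_cont : Continuous G := continuous_iff_continuousAt.2 fun w => (G_deriv w).continuousAt

/-- the branch on the plane slit along the positive axis -/
def K (s : ℂ) : ℂ := log (-s) + E s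

theorem K_deriv {s : ℂ} (hs : -s ∈ slitPlane) : HasDerivAt K (exp s / s) s := by
  have hs0 : s ≠ 0 := by rintro rfl; simp at hs
  have h := ((hasDerivAt_log hs).comp s (hasDerivAt_neg s)).add (E_deriv' hs0)
  refine h.congr_deriv ?_
  field_simp
  ring

theorem K_im_far {s : ℂ} (hs : s.re ≤ -1) : |(K s).im| ≤ Real.exp s.re * |s.im| := by
  have hc : Convex ℝ {u : ℂ | u.re ≤ s.re} := convex_halfSpace_re_le _
  have h := Convex.norm_image_sub_le_of_norm_hasDerivWithin_le (f := K) (f' := fun u => exp u / u)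
    (C := Real.exp s.re) (fun u hu => (K_deriv (Or.inl (by
      simp only [neg_re]; have : u.re ≤ s.re := hu; linarith))).hasDerivWithinAt)
    (fun u hu => by
      have hu' : u.re ≤ s.re := hu
      have h1 : 1 ≤ ‖u‖ := by
        have := abs_re_le_norm u
        linarith [neg_abs_le u.re]
      rw [norm_div, norm_exp]
      exact (div_le_self (Real.exp_pos _).le h1).trans (Real.exp_le_exp.2 hu')) hc
    (x := (s.re : ℂ)) (y := s) (by simp) (by simp)
  have h0 : (K (s.re : ℂ)).im = 0 := by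
    rw [K, add_im, E_im, ← ofReal_neg, ← ofReal_log (by linarith), ofReal_im, add_zero]
  have h2 : ‖s - (s.re : ℂ)‖ = |s.im| := by
    rw [show s - (s.re : ℂ) = s.im * I by apply Complex.ext <;> simp]
    simp
  rw [h2] at h
  refine le_trans ?_ h
  have := abs_im_le_norm (K s - K (s.re : ℂ))
  rwa [sub_im, h0, sub_zero] at this

theorem K_im {w : ℂ} (hw0 : w ≠ 0) (hw : w.re ≤ |w.im|) :
    |(K w).im| ≤ 2 * (Real.exp w.re / ‖w‖) := by
  have hn : 0 < ‖w‖ := norm_pos_iff.2 hw0
  have hlow : ∀ τ : ℝ, 0 ≤ τ → ‖w‖ ≤ 2 * ‖w - τ‖ := by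
    intro τ hτ
    have h1 := abs_im_le_norm (w - τ)
    have h2 := abs_re_le_norm (w - τ)
    have h3 := norm_le_abs_re_add_abs_im w
    simp only [sub_im, ofReal_im, sub_zero, sub_re, ofReal_re] at h1 h2
    rcases le_total 0 w.re with h | h
    · rw [abs_of_nonneg h] at h3; linarith
    · rw [abs_of_nonpos h] at h3
      linarith [neg_abs_le (w.re - τ)]
  have hslit : ∀ τ : ℝ, 0 ≤ τ → -(w - τ) ∈ slitPlane := by
    intro τ hτ
    by_cases h : w.im = 0
    · left
      have h1 : w.re ≠ 0 := fun h1 => hw0 (Complex.ext h1 h)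
      rw [h, abs_zero] at hw
      have := lt_of_le_of_ne hw h1
      simp only [neg_re, sub_re, ofReal_re]; linarith
    · right; simpa using h
  set A := 2 * (Real.exp w.re / ‖w‖) with hA
  have hA0 : 0 ≤ A := by positivity
  have hder : ∀ τ : ℝ, 0 ≤ τ → HasDerivAt (fun τ : ℝ => K (w - τ) - K w)
      (exp (w - τ) / (w - τ) * (-1)) τ := by
    intro τ hτ
    have h1 : HasDerivAt (fun u : ℂ => K (w - u)) (exp (w - τ) / (w - τ) * (-1)) (τ : ℂ) :=
      (K_deriv (hslit τ hτ)).comp (τ : ℂ) ((hasDerivAt_id (τ : ℂ)).const_sub w)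
    exact h1.comp_ofReal.sub_const _
  have hT : ∀ T : ℝ, 0 ≤ T → ‖K (w - T) - K w‖ ≤ A := by
    intro T hT
    have := image_norm_le_of_norm_deriv_right_le_deriv_boundary (a := 0) (b := T)
      (f := fun τ : ℝ => K (w - τ) - K w)
      (fun τ hτ => (hder τ hτ.1).continuousAt.continuousWithinAt)
      (fun τ hτ => (hder τ hτ.1).hasDerivWithinAt)
      (B := fun τ => A * (1 - Real.exp (-τ))) (B' := fun τ => A * Real.exp (-τ)) (by simp)
      (fun τ => by
        have := (((hasDerivAt_neg τ).exp).const_sub 1).const_mul A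
        refine this.congr_deriv (by ring))
      (fun τ hτ => by
        have h1 := hlow τ hτ.1
        have h2 : 0 < ‖w - τ‖ := by linarith
        rw [norm_mul, norm_neg, norm_one, mul_one, norm_div, norm_exp, sub_re, ofReal_re,
          Real.exp_sub, Real.exp_neg, hA, div_le_iff₀ h2]
        have := Real.exp_pos w.re
        have := Real.exp_pos τ
        calc _ = Real.exp w.re / ‖w‖ * (Real.exp τ)⁻¹ * ‖w‖ := by field_simp
          _ ≤ Real.exp w.re / ‖w‖ * (Real.exp τ)⁻¹ * (2 * ‖w - τ‖) := by gcongr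
          _ = _ := by ring) (right_mem_Icc.2 hT)
    refine this.trans ?_
    nlinarith [Real.exp_pos (-T)]
  have hlim : Tendsto (fun T : ℝ => A + Real.exp (w.re - T) * |w.im|) atTop
      (𝓝 (A + 0 * |w.im|)) := by
    refine tendsto_const_nhds.add (Tendsto.mul_const _ ?_)
    exact Real.tendsto_exp_atBot.comp (tendsto_atBot_add_const_left _ _ tendsto_neg_atTop_atBot)
  rw [zero_mul, add_zero] at hlim
  refine ge_of_tendsto hlim ?_
  filter_upwards [eventually_ge_atTop 0, eventually_ge_atTop (w.re + 1)] with T h1 h2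
  have h3 := K_im_far (s := w - T) (by simp only [sub_re, ofReal_re]; linarith)
  have h4 := (abs_im_le_norm _).trans (hT T h1)
  simp only [sub_re, ofReal_re, sub_im, ofReal_im, sub_zero] at h3 h4
  have := abs_sub_abs_le_abs_sub (K w).im (K (w - T)).im
  rw [abs_sub_comm] at this
  linarith

theorem G_im {z : ℂ} (m : ℤ) (h1 : -π < z.im - (2 * m + 1) * π) (h2 : z.im - (2 * m + 1) * π ≤ π)
    (hw : (exp z).re ≤ |(exp z).im|) :
    |(G z).im - (2 * m + 1) * π| ≤ 2 * (Real.exp (exp z).re / Real.exp z.re) := by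
  have h := K_im (exp_ne_zero z) hw
  rw [norm_exp] at h
  have h3 : -exp z = exp (z - (2 * m + 1) * π * I) := by
    rw [show z - (2 * m + 1) * π * I = z + π * I + (-(m + 1) : ℤ) * (2 * π * I) by push_cast; ring,
      exp_add, exp_int_mul_two_pi_mul_I, exp_add, exp_pi_mul_I]
    ring
  rw [K, h3, log_exp (by simpa using h1) (by simpa using h2)] at h
  convert h using 2
  simp [G]
  ring

theorem exists_C0 : ∃ C0 : ℝ, 0 ≤ C0 ∧ ∀ z : ℂ, z.re ≤ 2 → ‖G z - z‖ ≤ C0 := by
  obtain ⟨C, hC⟩ := (isCompact_closedBall (0 : ℂ) (Real.exp 2)).exists_bound_of_continuousOn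
    E_cont.continuousOn
  refine ⟨max C 0, le_max_right _ _, fun z hz => le_max_of_le_left ?_⟩
  rw [G, add_sub_cancel_left]
  refine hC _ ?_
  rw [mem_closedBall_zero_iff, norm_exp]
  exact Real.exp_le_exp.2 hz

theorem G_right {z : ℂ} (hx : 2 ≤ z.re) (hκ : 2 / 3 ≤ Real.cos z.im) :
    ‖G z - G (2 + z.im * I)‖ ≤ 3 * (Real.exp (exp z).re / Real.exp z.re) := by
  have hder : ∀ ξ : ℝ, HasDerivAt (fun ξ : ℝ => G (ξ + z.im * I) - G (2 + z.im * I))
      (exp (exp (ξ + z.im * I))) ξ := by
    intro ξ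
    have h1 : HasDerivAt (fun u : ℂ => G (u + z.im * I)) (exp (exp (ξ + z.im * I)) * 1) (ξ : ℂ) :=
      (G_deriv _).comp (ξ : ℂ) ((hasDerivAt_id (ξ : ℂ)).add_const _)
    rw [mul_one] at h1
    exact h1.comp_ofReal.sub_const _
  have := image_norm_le_of_norm_deriv_right_le_deriv_boundary (a := 2) (b := z.re)
    (f := fun ξ : ℝ => G (ξ + z.im * I) - G (2 + z.im * I))
    (fun τ _ => (hder τ).continuousAt.continuousWithinAt)
    (fun τ _ => (hder τ).hasDerivWithinAt)
    (B := fun ξ => 3 * Real.exp (Real.exp ξ * Real.cos z.im - ξ))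
    (B' := fun ξ => 3 * (Real.exp (Real.exp ξ * Real.cos z.im - ξ) *
      (Real.exp ξ * Real.cos z.im - 1))) (by simp; positivity)
    (fun ξ => ((((Real.hasDerivAt_exp ξ).mul_const _).sub (hasDerivAt_id ξ)).exp).const_mul 3)
    (fun ξ hξ => by
      rw [norm_exp, exp_re]
      simp only [add_re, ofReal_re, mul_re, I_re, mul_zero, ofReal_im, I_im, mul_one, sub_self,
        add_zero, add_im, mul_im, zero_add]
      rw [Real.exp_sub]
      have h1 : 3 ≤ Real.exp ξ := by linarith [Real.add_one_le_exp ξ, hξ.1]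
      have h2 := Real.exp_pos (Real.exp ξ * Real.cos z.im)
      have h3 : Real.exp ξ ≤ 3 * (Real.exp ξ * Real.cos z.im - 1) := by nlinarith
      calc _ = Real.exp (Real.exp ξ * Real.cos z.im) / Real.exp ξ * Real.exp ξ := by field_simp
        _ ≤ Real.exp (Real.exp ξ * Real.cos z.im) / Real.exp ξ *
            (3 * (Real.exp ξ * Real.cos z.im - 1)) := by gcongr
        _ = _ := by ring) (right_mem_Icc.2 hx)
  simp only [re_add_im] at this
  rwa [Real.exp_sub, ← exp_re] at this

theorem exists_odd (y : ℝ) : ∃ m : ℤ, -π < y - (2 * m + 1) * π ∧ y - (2 * m + 1) * π ≤ π := by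
  have hp : 0 < 2 * π := by positivity
  have := sub_toIocDiv_zsmul_mem_Ioc hp 0 y
  refine ⟨toIocDiv hp 0 y, ?_, ?_⟩
  · have := this.1; rw [zsmul_eq_mul] at this; linarith
  · have := this.2; rw [zsmul_eq_mul] at this; linarith

theorem exists_C1 : ∃ C1 : ℝ, 1 ≤ C1 ∧ ∀ z : ℂ, 2 ≤ z.re → ‖G z‖ ≤ 1 →
    1 + |z.im| ≤ C1 * (Real.exp (exp z).re / Real.exp z.re) := by
  obtain ⟨C0, h0, hC0⟩ := exists_C0
  refine ⟨8 + 2 * C0, by linarith, fun z hx hG => ?_⟩
  set Q := Real.exp (exp z).re / Real.exp z.re with hQ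
  have hQ0 : 0 < Q := by positivity
  have hGi := (abs_im_le_norm _).trans hG
  by_cases hw : (exp z).re ≤ |(exp z).im|
  · obtain ⟨m, h1, h2⟩ := exists_odd z.im
    have h3 := G_im m h1 h2 hw
    rw [← hQ] at h3
    have h4 : π ≤ |(2 * m + 1 : ℝ) * π| := by
      rw [abs_mul, abs_of_pos Real.pi_pos]
      have : (1 : ℝ) ≤ |(2 * m + 1 : ℝ)| := by
        have : (1 : ℤ) ≤ |2 * m + 1| := Int.one_le_abs (by omega)
        exact_mod_cast this
      nlinarith [Real.pi_pos]
    have h5 := abs_sub_abs_le_abs_sub ((2 * m + 1 : ℝ) * π) (G z).im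
    rw [abs_sub_comm] at h5
    have h6 := abs_sub_abs_le_abs_sub z.im ((2 * m + 1 : ℝ) * π)
    have h7 : |z.im - (2 * m + 1) * π| ≤ π := abs_le.2 ⟨h1.le, h2⟩
    have := Real.pi_gt_three
    have := Real.pi_lt_four
    nlinarith
  · push Not at hw
    have hκ : 2 / 3 ≤ Real.cos z.im := by
      rw [exp_re, exp_im, abs_mul, abs_of_pos (Real.exp_pos _)] at hw
      have h1 := lt_of_mul_lt_mul_left hw (Real.exp_pos _).le
      have h2 := Real.sin_sq_add_cos_sq z.im
      have h3 := sq_abs (Real.sin z.im)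
      nlinarith [abs_nonneg (Real.sin z.im)]
    have h1 := G_right hx hκ
    rw [← hQ] at h1
    have h2 := hC0 (2 + z.im * I) (by simp)
    have h3 : 2 / 3 ≤ Q := by
      rw [hQ, le_div_iff₀ (Real.exp_pos _), exp_re]
      nlinarith [Real.add_one_le_exp (Real.exp z.re * Real.cos z.im), Real.exp_pos z.re]
    have h4 := abs_im_le_norm (G z - G (2 + z.im * I))
    have h5 := abs_im_le_norm (G (2 + z.im * I) - (2 + z.im * I))
    simp only [sub_im, add_im, im_ofNat, mul_im, ofReal_re, I_im, mul_one, ofReal_im, I_re,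
      mul_zero, add_zero, zero_add] at h4 h5
    rw [abs_le] at hGi
    have h6 := abs_le.1 (h4.trans h1)
    have h7 := abs_le.1 (h5.trans h2)
    have : |z.im| ≤ 1 + 3 * Q + C0 := abs_le.2 ⟨by linarith, by linarith⟩
    nlinarith

end Pool.Agent.H99.Ein
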