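import Pool.Agent.H99.Ein1

open Complex Metric Set Filter Topology
open scoped Real

noncomputable section

namespace Pool.Agent.H99.Ein

theorem exists_delta : ∃ δ : ℝ, 0 < δ ∧ ∀ z : ℂ, ‖G z‖ ≤ 1 →
    δ * (1 + ‖exp z‖) ≤ ‖exp (exp z)‖ := by
  obtain ⟨C1, h1, hC1⟩ := exists_C1
  refine ⟨min (1 / (2 * C1)) (Real.exp (-Real.exp 2) / (1 + Real.exp 2)),
    lt_min (by positivity) (by positivity), fun z hz => ?_⟩
  rw [norm_exp, norm_exp]
  have hp := Real.exp_pos z.re
  rcases le_total 2 z.re with hx | hx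
  · have h2 := hC1 z hx hz
    have h3 : 1 ≤ Real.exp z.re := Real.one_le_exp (by linarith)
    rw [← mul_div_assoc, le_div_iff₀ hp] at h2
    calc _ ≤ 1 / (2 * C1) * (1 + Real.exp z.re) := by gcongr; exact min_le_left _ _
      _ ≤ _ := by
        rw [one_div, inv_mul_le_iff₀ (by positivity)]
        nlinarith [abs_nonneg z.im]
  · have h3 : Real.exp z.re ≤ Real.exp 2 := Real.exp_le_exp.2 hx
    calc _ ≤ Real.exp (-Real.exp 2) / (1 + Real.exp 2) * (1 + Real.exp 2) := by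
          gcongr; exact min_le_right _ _
      _ = Real.exp (-Real.exp 2) := by field_simp
      _ ≤ _ := by
        refine Real.exp_le_exp.2 ?_
        have := abs_re_le_norm (exp z)
        rw [norm_exp] at this
        linarith [neg_abs_le (exp z).re]

theorem deriv_close {z ζ : ℂ} (h : ‖ζ - z‖ ≤ 1 / (8 * (1 + ‖exp z‖))) :
    ‖exp (exp ζ) - exp (exp z)‖ ≤ ‖exp (exp z)‖ / 2 := by
  have hw := norm_nonneg (exp z)
  have h0 : 1 / (8 * (1 + ‖exp z‖)) ≤ 1 := by
    rw [div_le_one (by positivity)]; linarith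
  have h1 : ‖exp ζ - exp z‖ ≤ 1 / 4 := by
    rw [show exp ζ - exp z = exp z * (exp (ζ - z) - 1) by rw [mul_sub, ← exp_add]; simp, norm_mul]
    calc _ ≤ ‖exp z‖ * (2 * (1 / (8 * (1 + ‖exp z‖)))) := by
          gcongr
          exact (norm_exp_sub_one_le (h.trans h0)).trans (by gcongr)
      _ = ‖exp z‖ / (1 + ‖exp z‖) / 4 := by field_simp; ring
      _ ≤ 1 / 4 := by
          gcongr
          rw [div_le_one (by positivity)]; linarith
  rw [show exp (exp ζ) - exp (exp z) = exp (exp z) * (exp (exp ζ - exp z) - 1) by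
    rw [mul_sub, ← exp_add]; simp, norm_mul]
  have := norm_exp_sub_one_le (x := exp ζ - exp z) (by linarith)
  nlinarith [norm_nonneg (exp (exp z))]

theorem approx {z ζ : ℂ} (h : ‖ζ - z‖ ≤ 1 / (8 * (1 + ‖exp z‖))) :
    ‖exp (exp z)‖ / 2 * ‖ζ - z‖ ≤ ‖G ζ - G z‖ := by
  have h1 := Convex.norm_image_sub_le_of_norm_hasDerivWithin_le
    (f := fun u => G u - exp (exp z) * u) (f' := fun u => exp (exp u) - exp (exp z))
    (s := closedBall z (1 / (8 * (1 + ‖exp z‖)))) (C := ‖exp (exp z)‖ / 2)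
    (fun u _ => by
      have := (G_deriv u).sub ((hasDerivAt_id u).const_mul (exp (exp z)))
      rw [mul_one] at this
      exact this.hasDerivWithinAt)
    (fun u hu => deriv_close (by rwa [mem_closedBall, dist_eq_norm] at hu))
    (convex_closedBall _ _) (x := z) (y := ζ) (mem_closedBall_self (by positivity))
    (by rwa [mem_closedBall, dist_eq_norm])
  have h2 := norm_sub_norm_le (exp (exp z) * (ζ - z)) (G ζ - G z)
  rw [norm_mul, norm_sub_rev (exp (exp z) * (ζ - z)),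
    show G ζ - G z - exp (exp z) * (ζ - z) =
      G ζ - exp (exp z) * ζ - (G z - exp (exp z) * z) by ring] at h2
  linarith

theorem near_zero : ∃ ε : ℝ, 0 < ε ∧ ∀ z, ‖G z‖ < ε →
    ∃ t, G t = 0 ∧ ‖z - t‖ ≤ 1 ∧ ‖z - t‖ ≤ 3 * ‖(exp (exp t))⁻¹‖ * ‖G z‖ := by
  obtain ⟨δ, hδ, h⟩ := exists_delta
  refine ⟨min 1 (δ / 32), lt_min one_pos (by positivity), fun z hz => ?_⟩
  have hz1 := hz.trans_le (min_le_left _ _)
  have hz2 := hz.trans_le (min_le_right _ _)
  have h1 := h z hz1.le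
  set ρ := 1 / (8 * (1 + ‖exp z‖)) with hρ
  have hw := norm_nonneg (exp z)
  have hρ0 : 0 < ρ := by positivity
  have hρ1 : ρ ≤ 1 := by rw [hρ, div_le_one (by positivity)]; linarith
  have hex : ∃ t ∈ closedBall z ρ, G t = 0 := by
    by_contra hcon
    push Not at hcon
    have hd : DiffContOnCl ℂ (fun u => (G u)⁻¹) (ball z ρ) := by
      refine DifferentiableOn.diffContOnCl ?_
      rw [closure_ball z hρ0.ne']
      exact fun u hu => ((G_deriv u).differentiableAt.inv (hcon u hu)).differentiableWithinAt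
    have h2 := norm_le_of_forall_mem_frontier_norm_le isBounded_ball hd (C := (δ / 32)⁻¹)
      (fun u hu => by
        rw [frontier_ball z hρ0.ne', mem_sphere, dist_eq_norm] at hu
        have h3 := approx hu.le
        rw [hu] at h3
        have h4 : δ / 16 ≤ ‖exp (exp z)‖ / 2 * ρ := by
          calc δ / 16 = δ * (1 + ‖exp z‖) / 2 * ρ := by rw [hρ]; field_simp; ring
            _ ≤ _ := by gcongr
        have h5 := norm_sub_le (G u) (G z)
        rw [norm_inv]
        exact inv_anti₀ (by positivity) (by linarith))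
      (z := z) (subset_closure (mem_ball_self hρ0))
    rw [norm_inv, inv_le_inv₀ (norm_pos_iff.2 (hcon z (mem_closedBall_self hρ0.le)))
      (by positivity)] at h2
    linarith
  obtain ⟨t, ht, hGt⟩ := hex
  rw [mem_closedBall, dist_eq_norm] at ht
  have h2 := approx ht
  have h3 := deriv_close ht
  rw [hGt, zero_sub, norm_neg, norm_sub_rev] at h2
  rw [norm_sub_rev] at ht
  refine ⟨t, hGt, ht.trans hρ1, ?_⟩
  have h4 := norm_sub_norm_le (exp (exp t)) (exp (exp z))
  have h5 : 0 < ‖exp (exp t)‖ := norm_pos_iff.2 (exp_ne_zero _)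
  rw [norm_inv, mul_assoc, ← div_eq_inv_mul, ← mul_div_assoc, le_div_iff₀ h5]
  nlinarith [norm_nonneg (z - t)]

theorem strip_pos {k : ℤ} {s : ℂ} (h0 : 0 < s.re) (h1 : (k : ℝ) / 2 ≤ s.im)
    (h2 : s.im ≤ (k + 1 : ℝ) / 2) :
    0 < (exp (-((k : ℝ) / 2 : ℝ) * I) * (1 + (if 0 ≤ k then 1 else -1) * I) * (exp s / s)).re := by
  have hs : s ≠ 0 := by rintro rfl; simp at h0
  set φ := s.im - (k : ℝ) / 2 with hφ
  have hφ0 : 0 ≤ φ := by linarith
  have hφ1 : φ ≤ 1 / 2 := by linarith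
  have hsin0 : 0 ≤ Real.sin φ :=
    Real.sin_nonneg_of_nonneg_of_le_pi hφ0 (by linarith [Real.pi_gt_three])
  have hsin : Real.sin φ ≤ 1 / 2 := (Real.sin_le hφ0).trans hφ1
  have hcos : 7 / 8 ≤ Real.cos φ := by nlinarith [Real.one_sub_sq_div_two_le_cos (x := φ)]
  have e : ∀ σ : ℂ, exp (-((k : ℝ) / 2 : ℝ) * I) * (1 + σ * I) * (exp s / s) =
      ((Real.exp s.re / normSq s : ℝ) : ℂ) *
        ((1 + σ * I) * (Real.cos φ + Real.sin φ * I) * (starRingEnd ℂ) s) := by
    intro σ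
    have h3 : exp s = Real.exp s.re * ((Real.cos φ + Real.sin φ * I) *
        exp (((k : ℝ) / 2 : ℝ) * I)) := by
      rw [ofReal_cos, ofReal_sin, ← exp_mul_I, ofReal_exp, ← exp_add, ← exp_add]
      congr 1
      apply Complex.ext <;> simp [hφ]
    have h4 : exp (-((k : ℝ) / 2 : ℝ) * I) * exp (((k : ℝ) / 2 : ℝ) * I) = 1 := by
      rw [← exp_add]; simp
    rw [h3, div_eq_mul_inv _ s, inv_def, ofReal_div (Real.exp s.re), ofReal_inv]
    linear_combination (Real.exp s.re : ℂ) * (1 + σ * I) * (Real.cos φ + Real.sin φ * I) *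
      (starRingEnd ℂ) s * ((normSq s : ℝ) : ℂ)⁻¹ * h4
  rw [e, re_ofReal_mul]
  refine mul_pos (div_pos (Real.exp_pos _) (normSq_pos.2 hs)) ?_
  split_ifs with hk
  · have : (0 : ℝ) ≤ k := by exact_mod_cast hk
    have hb : 0 ≤ s.im := by linarith
    simp only [mul_re, add_re, one_re, I_re, mul_zero, one_im, I_im, mul_one, sub_self, add_zero,
      ofReal_re, ofReal_im, add_im, mul_im, zero_add, conj_re, conj_im, one_mul]
    nlinarith
  · have : (k : ℝ) + 1 ≤ 0 := by exact_mod_cast (by omega : k + 1 ≤ 0)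
    have hb : s.im ≤ 0 := by linarith
    simp only [mul_re, add_re, one_re, I_re, mul_zero, one_im, I_im, mul_one, sub_self, add_zero,
      ofReal_re, ofReal_im, add_im, mul_im, zero_add, conj_re, conj_im, one_mul, neg_re, neg_im,
      neg_zero]
    nlinarith

theorem strip_inj {k : ℤ} {w w' : ℂ} (h0 : 0 < w.re) (h1 : (k : ℝ) / 2 ≤ w.im)
    (h2 : w.im ≤ (k + 1 : ℝ) / 2) (h0' : 0 < w'.re) (h1' : (k : ℝ) / 2 ≤ w'.im)
    (h2' : w'.im ≤ (k + 1 : ℝ) / 2) (h : log w + E w = log w' + E w') : w = w' := by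
  by_contra hne
  have hd : w' - w ≠ 0 := sub_ne_zero.2 (Ne.symm hne)
  set lam := exp (-((k : ℝ) / 2 : ℝ) * I) * (1 + (if 0 ≤ k then 1 else -1) * I) with hlam
  have hre : ∀ σ : ℝ, σ ∈ Icc (0 : ℝ) 1 → 0 < (w + σ * (w' - w)).re := by
    intro σ hσ
    simp only [add_re, mul_re, ofReal_re, sub_re, ofReal_im, zero_mul, sub_zero]
    rcases le_total w.re w'.re with h | h
    · nlinarith [hσ.1]
    · nlinarith [hσ.2]
  have hder : ∀ σ : ℝ, σ ∈ Icc (0 : ℝ) 1 → HasDerivAt
      (fun σ : ℝ => (lam / (w' - w) * (log (w + σ * (w' - w)) + E (w + σ * (w' - w)))).re)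
      (lam * (exp (w + σ * (w' - w)) / (w + σ * (w' - w)))).re σ := by
    intro σ hσ
    have hs0 : w + σ * (w' - w) ≠ 0 := fun h => by simpa [h] using hre σ hσ
    have h3 : HasDerivAt (fun u : ℂ => w + u * (w' - w)) (w' - w) (σ : ℂ) := by
      simpa using ((hasDerivAt_id (σ : ℂ)).mul_const (w' - w)).const_add w
    have h4 := ((((hasDerivAt_log (Or.inl (hre σ hσ))).add (E_deriv' hs0)).comp (σ : ℂ)
      h3).const_mul (lam / (w' - w))).comp_ofReal
    refine (reCLM.hasFDerivAt.comp_hasDerivAt σ h4).congr_deriv ?_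
    rw [reCLM_apply]
    congr 1
    field_simp
    ring
  obtain ⟨σ, hσ, h5⟩ := exists_hasDerivAt_eq_zero zero_lt_one
    (fun σ hσ => (hder σ hσ).continuousAt.continuousWithinAt) (by simp [h])
    (fun σ hσ => hder σ (Ioo_subset_Icc_self hσ))
  refine (strip_pos (k := k) (hre σ (Ioo_subset_Icc_self hσ)) ?_ ?_).ne' h5
  · simp only [add_im, mul_im, ofReal_re, sub_im, ofReal_im, zero_mul, add_zero]
    nlinarith [hσ.1, hσ.2]
  · simp only [add_im, mul_im, ofReal_re, sub_im, ofReal_im, zero_mul, add_zero]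
    nlinarith [hσ.1, hσ.2]

end Pool.Agent.H99.Ein
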