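import Pool.Agent.H99.Ein2

open Complex Metric Set Filter Topology
open scoped Real

noncomputable section

namespace Pool.Agent.H99.Ein

theorem summable_base : Summable fun p : ℕ × ℤ =>
    if p.1 = 0 then (0 : ℝ) else 1 / ((1 + |(p.2 : ℝ)|) * ((p.1 : ℝ) ^ 2 + (p.2 : ℝ) ^ 2)) := by
  have h1 : Summable fun n : ℕ => ((n : ℝ) ^ (3 / 2 : ℝ))⁻¹ :=
    Real.summable_nat_rpow_inv.2 (by norm_num)
  have h2 : Summable fun n : ℕ => ((1 + (n : ℝ)) ^ (3 / 2 : ℝ))⁻¹ := by
    have := (summable_nat_add_iff 1).2 h1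
    simpa [add_comm] using this
  have h3 : Summable fun m : ℤ => ((1 + |(m : ℝ)|) ^ (3 / 2 : ℝ))⁻¹ :=
    Summable.of_nat_of_neg (by simpa using h2) (by simpa using h2)
  have h4 := (h1.mul_of_nonneg h3 (fun n => by positivity) (fun m => by positivity)).mul_left 2
  refine Summable.of_nonneg_of_le (fun p => by split_ifs <;> positivity) (fun p => ?_) h4
  split_ifs with hp
  · positivity
  have ha : (1 : ℝ) ≤ p.1 := by exact_mod_cast Nat.one_le_iff_ne_zero.2 hp
  have hm := abs_nonneg (p.2 : ℝ)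
  have hm2 := sq_abs (p.2 : ℝ)
  set a : ℝ := (p.1 : ℝ)
  set b : ℝ := 1 + |(p.2 : ℝ)| with hb
  have hb1 : 1 ≤ b := by linarith
  have e : ∀ x : ℝ, 0 < x → x ^ (3 / 2 : ℝ) = x * √x := fun x hx => by
    rw [Real.sqrt_eq_rpow, show (3 / 2 : ℝ) = 1 + 1 / 2 by norm_num, Real.rpow_add hx,
      Real.rpow_one]
  rw [e a (by linarith), e b (by linarith), ← mul_inv, ← div_eq_mul_inv,
    div_le_div_iff₀ (by positivity) (by positivity)]
  have h5 : √a * √b ≤ (a + b) / 2 := by
    nlinarith [Real.mul_self_sqrt (show 0 ≤ a by linarith),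
      Real.mul_self_sqrt (show 0 ≤ b by linarith), sq_nonneg (√a - √b)]
  have h6 : a * ((a + b) / 2) ≤ 2 * (a ^ 2 + (p.2 : ℝ) ^ 2) := by
    rw [hb, ← hm2]; nlinarith [sq_nonneg (a - |(p.2 : ℝ)|)]
  calc 1 * (a * √a * (b * √b)) = b * (a * (√a * √b)) := by ring
    _ ≤ b * (a * ((a + b) / 2)) := by gcongr
    _ ≤ b * (2 * (a ^ 2 + (p.2 : ℝ) ^ 2)) := by gcongr
    _ = _ := by ring

/-- the majorant -/
def maj (q : (ℕ × ℤ) × ℤ) : ℝ :=
  if |q.2| ≤ 7 * 3 ^ q.1.1 then (1 / 3 ^ q.1.1) * if q.1.1 = 0 then (0 : ℝ) else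
    1 / ((1 + |(q.1.2 : ℝ)|) * ((q.1.1 : ℝ) ^ 2 + (q.1.2 : ℝ) ^ 2)) else 0

theorem maj_nonneg (q : (ℕ × ℤ) × ℤ) : 0 ≤ maj q := by
  unfold maj; split_ifs <;> positivity

theorem summable_maj : Summable maj := by
  rw [summable_prod_of_nonneg maj_nonneg]
  have hs : ∀ p : ℕ × ℤ, ∀ k ∉ Finset.Icc (-(7 * 3 ^ p.1 : ℤ)) (7 * 3 ^ p.1), maj (p, k) = 0 := by
    intro p k hk
    rw [Finset.mem_Icc, ← abs_le] at hk
    simp [maj, hk]
  refine ⟨fun p => summable_of_ne_finset_zero (hs p), ?_⟩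
  refine Summable.of_nonneg_of_le (fun p => tsum_nonneg fun k => maj_nonneg _) (fun p => ?_)
    (summable_base.mul_left 15)
  rw [tsum_eq_sum (hs p)]
  set v := (if p.1 = 0 then (0 : ℝ) else
    1 / ((1 + |(p.2 : ℝ)|) * ((p.1 : ℝ) ^ 2 + (p.2 : ℝ) ^ 2))) with hv
  have hv0 : 0 ≤ v := by rw [hv]; split_ifs <;> positivity
  have h1 : ∀ k ∈ Finset.Icc (-(7 * 3 ^ p.1 : ℤ)) (7 * 3 ^ p.1), maj (p, k) = 1 / 3 ^ p.1 * v := by
    intro k hk
    rw [Finset.mem_Icc, ← abs_le] at hk
    simp only [maj, hk, if_true, hv]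
  rw [Finset.sum_congr rfl h1, Finset.sum_const, nsmul_eq_mul, ← mul_assoc]
  gcongr
  have h2 : ((Finset.Icc (-(7 * 3 ^ p.1 : ℤ)) (7 * 3 ^ p.1)).card : ℝ) = 14 * 3 ^ p.1 + 1 := by
    have := Int.card_Icc_of_le (-(7 * 3 ^ p.1 : ℤ)) (7 * 3 ^ p.1) (by
      have : (0 : ℤ) < 3 ^ p.1 := by positivity
      linarith)
    have h3 : ((Finset.Icc (-(7 * 3 ^ p.1 : ℤ)) (7 * 3 ^ p.1)).card : ℝ) =
      ((7 * 3 ^ p.1 + 1 - -(7 * 3 ^ p.1) : ℤ) : ℝ) := by exact_mod_cast this
    rw [h3]; push_cast; ring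
  rw [h2, mul_one_div, div_le_iff₀ (by positivity)]
  have : (1 : ℝ) ≤ 3 ^ p.1 := one_le_pow₀ (by norm_num)
  linarith

theorem exists_per (y : ℝ) : ∃ m : ℤ, -π < y - m * (2 * π) ∧ y - m * (2 * π) ≤ π := by
  obtain ⟨m, h1, h2⟩ := exists_odd (y + π)
  exact ⟨m, by linarith, by linarith⟩

theorem exists_level {x : ℝ} (hx : 2 ≤ x) :
    ∃ n : ℕ, n ≠ 0 ∧ (n : ℝ) ≤ x ∧ 3 ^ n ≤ Real.exp x ∧ Real.exp x ≤ 3 * 3 ^ n := by
  have h3 : 3 ≤ Real.exp x := by linarith [Real.add_one_le_exp x]
  obtain ⟨n, h1, h2⟩ := exists_nat_pow_near (x := Real.exp x) (y := 3) (by linarith) (by norm_num)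
  refine ⟨n, ?_, ?_, h1, by rw [pow_succ] at h2; linarith⟩
  · rintro rfl; norm_num at h2; linarith
  · rw [← Real.exp_le_exp]
    refine le_trans ?_ h1
    rw [← mul_one (n : ℝ), Real.exp_nat_mul]
    exact pow_le_pow_left₀ (Real.exp_pos _).le (by linarith [Real.exp_one_lt_d9]) n

theorem summable_coef : Summable fun t => ‖coef G (fun z => exp (exp z)) t‖ / ‖t‖ ^ 2 := by
  obtain ⟨C1, h1, hC1⟩ := exists_C1
  set Z : Set ℂ := {t | G t = 0 ∧ max 2 C1 ≤ t.re} with hZ
  choose per hper using exists_per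
  have hlev := fun t : Z => exists_level ((le_max_left _ _).trans t.2.2)
  choose lev hlev using hlev
  have hQ : ∀ t : Z, 1 + |t.1.im| ≤ C1 * (Real.exp (exp t.1).re / Real.exp t.1.re) := fun t =>
    hC1 t ((le_max_left _ _).trans t.2.2) (by rw [t.2.1]; simp)
  have hre : ∀ t : Z, 0 < (exp t.1).re := by
    intro t
    have h2 := hQ t
    have h3 : C1 < Real.exp t.1.re := by
      linarith [Real.add_one_le_exp t.1.re, (le_max_right _ _).trans t.2.2]
    rw [← mul_div_assoc, le_div_iff₀ (Real.exp_pos _)] at h2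
    rw [← Real.exp_lt_exp, Real.exp_zero]
    nlinarith [abs_nonneg t.1.im, Real.exp_pos t.1.re]
  have hlog : ∀ t : ℂ, log (exp t) = t - per t.im * (2 * π * I) := by
    intro t
    have : exp t = exp (t - per t.im * (2 * π * I)) := by
      rw [exp_sub, exp_int_mul_two_pi_mul_I, div_one]
    rw [this, log_exp (by simpa using (hper t.im).1) (by simpa using (hper t.im).2)]
  set ι : Z → (ℕ × ℤ) × ℤ := fun t => ((lev t, per t.1.im), ⌊2 * (exp t.1).im⌋) with hι
  have hinj : Function.Injective ι := by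
    intro t t' h
    simp only [hι, Prod.mk.injEq] at h
    obtain ⟨⟨-, hm⟩, hk⟩ := h
    have a1 := Int.floor_le (2 * (exp t.1).im)
    have a2 := Int.lt_floor_add_one (2 * (exp t.1).im)
    have a3 := Int.floor_le (2 * (exp t'.1).im)
    have a4 := Int.lt_floor_add_one (2 * (exp t'.1).im)
    rw [← hk] at a3 a4
    have g1 : t.1 + E (exp t.1) = 0 := t.2.1
    have g2 : t'.1 + E (exp t'.1) = 0 := t'.2.1
    have := strip_inj (k := ⌊2 * (exp t.1).im⌋) (hre t) (by linarith) (by linarith) (hre t')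
      (by linarith) (by linarith) (by
        rw [hlog, hlog, hm]; linear_combination g1 - g2)
    apply Subtype.ext
    rw [← this] at g2
    linear_combination g1 - g2
  have hZs : Summable fun t : Z => ‖coef G (fun z => exp (exp z)) t‖ / ‖t.1‖ ^ 2 := by
    refine Summable.of_nonneg_of_le (fun t => by positivity) (fun t => ?_)
      ((summable_maj.comp_injective hinj).mul_left C1)
    obtain ⟨l1, l2, l3, l4⟩ := hlev t
    have hk : |⌊2 * (exp t.1).im⌋| ≤ 7 * 3 ^ lev t := by
      have b1 := abs_im_le_norm (exp t.1)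
      rw [norm_exp, abs_le] at b1
      have a1 := Int.floor_le (2 * (exp t.1).im)
      have a2 := Int.lt_floor_add_one (2 * (exp t.1).im)
      have b2 : (1 : ℝ) ≤ 3 ^ lev t := one_le_pow₀ (by norm_num)
      have : |(⌊2 * (exp t.1).im⌋ : ℝ)| ≤ 7 * 3 ^ lev t := abs_le.2 ⟨by linarith, by linarith⟩
      exact_mod_cast this
    have hm : |(per t.1.im : ℝ)| ≤ |t.1.im| := by
      obtain ⟨c1, c2⟩ := hper t.1.im
      have := Real.pi_gt_three
      rcases lt_trichotomy (per t.1.im) 0 with h | h | h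
      · have : (per t.1.im : ℝ) ≤ -1 := by exact_mod_cast (by omega : per t.1.im ≤ -1)
        rw [abs_of_nonpos (by linarith)]
        nlinarith [neg_abs_le t.1.im]
      · simp [h]
      · have : (1 : ℝ) ≤ per t.1.im := by exact_mod_cast h
        rw [abs_of_nonneg (by linarith)]
        nlinarith [le_abs_self t.1.im]
    simp only [Function.comp_apply, hι, maj, hk, if_true, l1, if_false, coef, t.2.1]
    have hn : (1 : ℝ) ≤ lev t := by exact_mod_cast Nat.one_le_iff_ne_zero.2 l1
    have hsq : (lev t : ℝ) ^ 2 + (per t.1.im : ℝ) ^ 2 ≤ ‖t.1‖ ^ 2 := by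
      rw [Complex.sq_norm, normSq_apply, ← sq_abs (per t.1.im : ℝ), ← sq t.1.im, ← sq_abs t.1.im]
      nlinarith [abs_nonneg (per t.1.im : ℝ)]
    have h2 := hQ t
    rw [← mul_div_assoc, le_div_iff₀ (Real.exp_pos _)] at h2
    have h3 : (Real.exp (exp t.1).re)⁻¹ ≤ C1 / (3 ^ lev t * (1 + |(per t.1.im : ℝ)|)) := by
      rw [le_div_iff₀ (by positivity), inv_mul_le_iff₀ (Real.exp_pos _)]
      calc _ ≤ Real.exp t.1.re * (1 + |t.1.im|) := by gcongr
        _ ≤ _ := by linarith
    rw [norm_inv, norm_exp]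
    calc _ ≤ C1 / (3 ^ lev t * (1 + |(per t.1.im : ℝ)|)) /
          ((lev t : ℝ) ^ 2 + (per t.1.im : ℝ) ^ 2) := by gcongr
      _ = _ := by field_simp
  replace hZs := (summable_subtype_iff_indicator
    (f := fun t => ‖coef G (fun z => exp (exp z)) t‖ / ‖t‖ ^ 2)).1 hZs
  refine Summable.of_norm_bounded_eventually hZs ?_
  obtain ⟨B, hB⟩ := (isCompact_closedBall (0 : ℂ) (Real.exp (max 2 C1))).exists_bound_of_continuousOn
    E_cont.continuousOn
  refine (finite_zeros G_deriv (fun z => exp_ne_zero _) (isCompact_closedBall 0 B)).subset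
    fun t ht => ?_
  simp only [mem_compl_iff, mem_ofPred_eq] at ht
  by_contra hcon
  apply ht
  by_cases hG : G t = 0
  · have : t ∈ Z := by
      refine ⟨hG, ?_⟩
      by_contra h
      refine hcon ⟨?_, hG⟩
      have g1 : t + E (exp t) = 0 := hG
      rw [mem_closedBall_zero_iff, eq_neg_of_add_eq_zero_left g1, norm_neg]
      refine hB _ ?_
      rw [mem_closedBall_zero_iff, norm_exp]
      exact Real.exp_le_exp.2 (not_le.1 h).le
    rw [indicator_of_mem this, Real.norm_of_nonneg (by positivity)]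
  · simp only [coef, hG, if_false, norm_zero, zero_div]
    exact indicator_nonneg (fun _ _ => by positivity) _

theorem expansion {z : ℂ} (hz : G z ≠ 0) :
    HasSum (fun t => coef G (fun z => exp (exp z)) t / (z - t) ^ 2) (exp (exp z) / G z ^ 2) := by
  obtain ⟨ε, hε, h⟩ := near_zero
  exact partial_fractions G_deriv (fun z => exp_ne_zero _) summable_coef hε (by norm_num) h hz

theorem prox_lower {r : ℝ} (hr : 10 ≤ r) :
    Real.exp (r - 1) / (8 * π * r) ≤
      ValueDistribution.proximity (fun z => exp (exp z) / G z ^ 2)⁻¹ ⊤ r := by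
  have hr0 : 0 < r := by linarith
  have hc : Continuous fun θ : ℝ =>
      Real.posLog ‖(fun z => exp (exp z) / G z ^ 2)⁻¹ (circleMap 0 r θ)‖ := by
    simp only [Pi.inv_apply, inv_div]
    refine Real.continuous_posLog.comp (Continuous.norm ?_)
    exact ((G_cont.comp (continuous_circleMap 0 r)).pow 2).div (by fun_prop)
      fun θ => exp_ne_zero _
  rw [ValueDistribution.proximity_top, Real.circleAverage_def, smul_eq_mul]
  have hp := Real.pi_gt_three
  have ha : 0 ≤ 7 / 2 / r := by positivity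
  have hab : 7 / 2 / r ≤ 4 / r := by gcongr; norm_num
  have hb : 4 / r ≤ 1 := by rw [div_le_one hr0]; linarith
  have h1 := intervalIntegral.integral_mono_interval (μ := MeasureTheory.volume) ha hab
    (show 4 / r ≤ 2 * π by linarith)
    (Eventually.of_forall fun θ => Real.posLog_nonneg) (hc.intervalIntegrable 0 (2 * π))
  have h2 := intervalIntegral.integral_mono_on (μ := MeasureTheory.volume) hab
    (f := fun _ => Real.exp (r - 1) / 2) intervalIntegrable_const
    (hc.intervalIntegrable _ _) (fun θ hθ => by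
      obtain ⟨t1, t2⟩ := hθ
      set z := circleMap 0 r θ with hz
      have hx : z.re = r * Real.cos θ := by simp [hz, circleMap, exp_ofReal_mul_I_re]
      have hy : z.im = r * Real.sin θ := by simp [hz, circleMap, exp_ofReal_mul_I_im]
      have t3 : 7 / 2 ≤ r * θ := by rwa [div_le_iff₀ hr0, mul_comm] at t1
      have t4 : r * θ ≤ 4 := by rwa [le_div_iff₀ hr0, mul_comm] at t2
      have t5 : 0 ≤ θ := ha.trans t1
      have x1 : r - 1 ≤ z.re := by
        rw [hx]
        have := Real.one_sub_sq_div_two_le_cos (x := θ)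
        have t6 : θ ≤ 2 / 5 := by nlinarith
        nlinarith
      have y1 : z.im ≤ 4 := by
        rw [hy]; nlinarith [Real.sin_le t5]
      have y2 : 2 * π / 3 ≤ z.im := by
        rw [hy]
        have := Real.mul_le_sin t5 (by linarith)
        have h3 : 7 / π ≤ r * Real.sin θ := by
          calc 7 / π = 2 / π * (7 / 2) := by ring
            _ ≤ 2 / π * (r * θ) := by gcongr
            _ = r * (2 / π * θ) := by ring
            _ ≤ _ := by gcongr
        refine le_trans ?_ h3
        rw [div_le_div_iff₀ (by norm_num) (by linarith)]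
        nlinarith [Real.pi_lt_d2]
      have hcos : Real.cos z.im ≤ -(1 / 2) := by
        have e1 : Real.cos z.im = -Real.cos (|z.im - π|) := by
          rw [Real.cos_abs, Real.cos_sub_pi, neg_neg]
        have e2 : Real.cos (π / 3) ≤ Real.cos |z.im - π| :=
          Real.cos_le_cos_of_nonneg_of_le_pi (abs_nonneg _) (by linarith)
            (abs_le.2 ⟨by linarith, by linarith⟩)
        rw [Real.cos_pi_div_three] at e2
        linarith
      have hE : Real.exp (r - 1) ≤ Real.exp z.re := Real.exp_le_exp.2 x1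
      have hw : (exp z).re ≤ -(Real.exp (r - 1) / 2) := by
        rw [exp_re]; nlinarith [Real.exp_pos (r - 1)]
      have hw0 : (exp z).re ≤ 0 := by linarith [Real.exp_pos (r - 1)]
      have g := G_im (z := z) 0 (by simp; linarith) (by simp; linarith)
        (hw0.trans (abs_nonneg _))
      have g2 : Real.exp (exp z).re / Real.exp z.re ≤ 1 :=  by
        rw [div_le_one (Real.exp_pos _)]
        exact Real.exp_le_exp.2 (by linarith)
      have g3 : 1 ≤ ‖G z‖ := by
        have := abs_im_le_norm (G z)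
        simp only [Int.cast_zero, mul_zero, zero_add, one_mul] at g
        rw [abs_le] at g
        linarith [le_abs_self (G z).im]
      simp only [Pi.inv_apply, inv_div]
      rw [Real.posLog_def, norm_div, norm_pow, norm_exp]
      refine le_max_of_le_right ?_
      beta_reduce
      rw [Real.log_div (by positivity) (Real.exp_pos _).ne', Real.log_exp]
      have := Real.log_nonneg (one_le_pow₀ g3 (n := 2))
      linarith)
  rw [intervalIntegral.integral_const, smul_eq_mul] at h2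
  calc _ = (2 * π)⁻¹ * ((4 / r - 7 / 2 / r) * (Real.exp (r - 1) / 2)) := by field_simp; ring
    _ ≤ _ := by gcongr; exact h2.trans h1

end Pool.Agent.H99.Ein
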