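import Mathlib

/-! Partial fraction expansion of `G' / G ^ 2` for an entire function with simple zeros. -/

open Complex Metric Set Filter Topology

noncomputable section

namespace Pool.Agent.H99.Ein

theorem finite_zeros {G G' : ℂ → ℂ} (hG : ∀ z, HasDerivAt G (G' z) z) (h0 : ∀ z, G' z ≠ 0)
    {K : Set ℂ} (hK : IsCompact K) : (K ∩ {z | G z = 0}).Finite := by
  have hc : Continuous G := continuous_iff_continuousAt.2 fun z => (hG z).continuousAt
  by_contra hinf
  obtain ⟨z, -, hz⟩ := Set.Infinite.exists_accPt_of_subset_isCompact hinf hK inter_subset_left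
  rw [accPt_iff_frequently_nhdsNE] at hz
  exact (hz.and_eventually ((hG z).eventually_ne (c := 0) (h0 z))).exists.elim
    fun w hw => hw.2 hw.1.2

theorem circle_zero {z0 t : ℂ} {r : ℝ} (ht : t ∈ ball z0 r) (hne : t ≠ z0) :
    (∮ z in C(z0, r), ((z - z0) ^ 2)⁻¹ * (z - t)⁻¹) = 0 := by
  have hr : 0 < r := dist_nonneg.trans_lt ht
  have h1 : ∀ z ∈ sphere z0 r, z - z0 ≠ 0 := fun z hz h => by
    rw [mem_sphere, dist_eq_norm, h, norm_zero] at hz; exact hr.ne hz
  have h2 : ∀ z ∈ sphere z0 r, z - t ≠ 0 := fun z hz h => by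
    rw [sub_eq_zero.1 h, mem_sphere] at hz; exact (mem_ball.1 ht).ne hz
  have h3 : t - z0 ≠ 0 := sub_ne_zero.2 hne
  have i1 : CircleIntegrable (fun z => ((t - z0) ^ 2)⁻¹ * (z - t)⁻¹) z0 r :=
    ContinuousOn.circleIntegrable hr.le
      (continuousOn_const.mul ((continuousOn_id.sub continuousOn_const).inv₀ h2))
  have i2 : CircleIntegrable (fun z => ((t - z0) ^ 2)⁻¹ * (z - z0)⁻¹) z0 r :=
    ContinuousOn.circleIntegrable hr.le
      (continuousOn_const.mul ((continuousOn_id.sub continuousOn_const).inv₀ h1))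
  have i3 : CircleIntegrable (fun z => (t - z0)⁻¹ * (z - z0) ^ (-2 : ℤ)) z0 r :=
    ContinuousOn.circleIntegrable hr.le
      (continuousOn_const.mul ((continuousOn_id.sub continuousOn_const).zpow₀ _
        fun z hz => Or.inl (h1 z hz)))
  rw [circleIntegral.integral_congr hr.le (g := fun z => ((t - z0) ^ 2)⁻¹ * (z - t)⁻¹ -
    ((t - z0) ^ 2)⁻¹ * (z - z0)⁻¹ - (t - z0)⁻¹ * (z - z0) ^ (-2 : ℤ))]
  · have i12 : CircleIntegrable (fun z => ((t - z0) ^ 2)⁻¹ * (z - t)⁻¹ -
      ((t - z0) ^ 2)⁻¹ * (z - z0)⁻¹) z0 r := i1.sub i2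
    rw [circleIntegral.integral_sub i12 i3, circleIntegral.integral_sub i1 i2,
      circleIntegral.integral_const_mul, circleIntegral.integral_const_mul,
      circleIntegral.integral_const_mul, circleIntegral.integral_sub_inv_of_mem_ball ht,
      circleIntegral.integral_sub_inv_of_mem_ball (mem_ball_self hr),
      circleIntegral.integral_sub_zpow_of_ne (by decide)]
    simp
  · intro z hz
    have := h1 z hz
    have := h2 z hz
    simp only [zpow_neg, zpow_ofNat]
    field_simp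
    ring

theorem finite_est {G G' : ℂ → ℂ} (hG : ∀ z, HasDerivAt G (G' z) z) (h0 : ∀ z, G' z ≠ 0)
    {z0 : ℂ} (hz0 : G z0 ≠ 0) {r M : ℝ} (hr : 0 < r) (S : Finset ℂ)
    (hS : ∀ t, t ∈ S ↔ t ∈ closedBall z0 r ∧ G t = 0)
    (hM : ∀ z ∈ sphere z0 r, G z ≠ 0 ∧ ‖(G z)⁻¹‖ ≤ M) :
    ‖G' z0 / G z0 ^ 2 - ∑ t ∈ S, (G' t)⁻¹ / (z0 - t) ^ 2‖ ≤ M / r := by
  classical
  have hd : Differentiable ℂ G := fun z => (hG z).differentiableAt
  set H : ℂ → ℂ := fun z => -(G z)⁻¹ + ∑ t ∈ S, (G' t)⁻¹ * (z - t)⁻¹ with hH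
  set h : ℂ → ℂ → ℂ := fun t z => -dslope (fun w => (dslope G t w)⁻¹) t z +
    ∑ s ∈ S.erase t, (G' s)⁻¹ * (z - s)⁻¹ with hh
  set K : ℂ → ℂ := fun z => if G z = 0 then h z z else H z with hK
  have hKH : ∀ z, G z ≠ 0 → K =ᶠ[𝓝 z] H := fun z hz => by
    filter_upwards [(hG z).continuousAt.eventually_ne hz] with w hw
    simp [hK, hw]
  have hHd : ∀ z, G z ≠ 0 → HasDerivAt H
      (G' z / G z ^ 2 - ∑ t ∈ S, (G' t)⁻¹ / (z - t) ^ 2) z := fun z hz => by
    have h1 := ((hG z).inv hz).neg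
    have h2 : HasDerivAt (fun z => ∑ t ∈ S, (G' t)⁻¹ * (z - t)⁻¹)
        (∑ t ∈ S, (G' t)⁻¹ * (-1 / (z - t) ^ 2)) z := by
      refine HasDerivAt.fun_sum fun t ht => HasDerivAt.const_mul _ ?_
      refine ((hasDerivAt_id z).sub_const t).inv fun h => hz ?_
      rw [show z = t from sub_eq_zero.1 h]; exact ((hS t).1 ht).2
    refine (h1.add h2).congr_deriv (Eq.symm ?_)
    rw [sub_eq_add_neg, ← Finset.sum_neg_distrib]
    congr 1
    · ring
    · exact Finset.sum_congr rfl fun t _ => by ring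
  have hKd : DifferentiableOn ℂ K ({z | G z ≠ 0} ∪ ball z0 r) := by
    intro z hz
    refine DifferentiableAt.differentiableWithinAt ?_
    by_cases hGz : G z = 0
    swap
    · exact (hHd z hGz).differentiableAt.congr_of_eventuallyEq (hKH z hGz)
    have hzb : z ∈ ball z0 r := hz.resolve_left fun h => h hGz
    have hzS : z ∈ S := (hS z).2 ⟨ball_subset_closedBall hzb, hGz⟩
    have hg : Differentiable ℂ (dslope G z) := by
      rw [← differentiableOn_univ, differentiableOn_dslope univ_mem]; exact hd.differentiableOn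
    have hgz : dslope G z z = G' z := by rw [dslope_same, (hG z).deriv]
    have hnb : {w | dslope G z w ≠ 0} ∈ 𝓝 z :=
      hg.continuous.continuousAt.eventually_ne (by rw [hgz]; exact h0 z)
    have h1 : DifferentiableAt ℂ (dslope (fun w => (dslope G z w)⁻¹) z) z :=
      ((differentiableOn_dslope hnb).2 (hg.differentiableOn.inv fun w hw => hw)).differentiableAt
        hnb
    have h2 : DifferentiableAt ℂ (h z) z := by
      refine h1.neg.add (DifferentiableAt.fun_sum fun s hs => DifferentiableAt.const_mul ?_ _)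
      exact (differentiableAt_id.sub_const s).inv (sub_ne_zero.2 (Finset.ne_of_mem_erase hs).symm)
    refine h2.congr_of_eventuallyEq ?_
    have h3 := (hG z).eventually_ne (c := 0) (h0 z)
    rw [eventually_nhdsWithin_iff] at h3
    filter_upwards [h3] with w hw
    by_cases hwz : w = z
    · subst hwz; simp [hK, hGz]
    have hw' := hw hwz
    have hwz' : w - z ≠ 0 := sub_ne_zero.2 hwz
    simp only [hK, hw', if_false, hH, hh]
    rw [← Finset.add_sum_erase S _ hzS, ← add_assoc]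
    congr 1
    rw [dslope_of_ne _ hwz, slope_def_field, hgz, dslope_of_ne _ hwz, slope_def_field, hGz]
    have := h0 z
    field_simp
    ring
  have hU : IsOpen ({z | G z ≠ 0} ∪ ball z0 r) :=
    (isOpen_ne_fun hd.continuous continuous_const).union isOpen_ball
  have hsub : closedBall z0 r ⊆ {z | G z ≠ 0} ∪ ball z0 r := fun z hz => by
    rcases (mem_closedBall.1 hz).lt_or_eq with h | h
    · exact Or.inr h
    · exact Or.inl (hM z h).1
  have key := two_pi_I_inv_smul_circleIntegral_sub_sq_inv_smul_of_differentiable hU hsub hKd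
    (mem_ball_self hr)
  rw [(hKH z0 hz0).deriv_eq, (hHd z0 hz0).deriv] at key
  have h1 : ∀ z ∈ sphere z0 r, z - z0 ≠ 0 := fun z hz h => by
    rw [mem_sphere, dist_eq_norm, h, norm_zero] at hz; exact hr.ne hz
  have hq : ContinuousOn (fun z => ((z - z0) ^ 2)⁻¹) (sphere z0 r) :=
    ((continuousOn_id.sub continuousOn_const).pow 2).inv₀ fun z hz => pow_ne_zero _ (h1 z hz)
  have hi : ∀ t ∈ S, CircleIntegrable
      (fun z => (G' t)⁻¹ * (((z - z0) ^ 2)⁻¹ * (z - t)⁻¹)) z0 r := fun t ht =>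
    ContinuousOn.circleIntegrable hr.le (continuousOn_const.mul (hq.mul
      ((continuousOn_id.sub continuousOn_const).inv₀ fun z hz h => (hM z hz).1 (by
        rw [show z = t from sub_eq_zero.1 h]; exact ((hS t).1 ht).2))))
  have hi0 : CircleIntegrable (fun z => ((z - z0) ^ 2)⁻¹ * -(G z)⁻¹) z0 r :=
    ContinuousOn.circleIntegrable hr.le (hq.mul
      (hd.continuous.continuousOn.inv₀ fun z hz => (hM z hz).1).neg)
  rw [circleIntegral.integral_congr hr.le (g := fun z => ((z - z0) ^ 2)⁻¹ * -(G z)⁻¹ +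
    ∑ t ∈ S, (G' t)⁻¹ * (((z - z0) ^ 2)⁻¹ * (z - t)⁻¹)) (fun z hz => by
      simp only [hK, (hM z hz).1, if_false, hH, smul_eq_mul, mul_add, Finset.mul_sum]
      congr 1
      exact Finset.sum_congr rfl fun t _ => by ring),
    circleIntegral.integral_add hi0 (CircleIntegrable.fun_sum _ hi),
    circleIntegral.integral_fun_sum hi, Finset.sum_eq_zero, add_zero] at key
  · rw [← key]
    have := circleIntegral.norm_two_pi_i_inv_smul_integral_le_of_norm_le_const
      (f := fun z => ((z - z0) ^ 2)⁻¹ * -(G z)⁻¹) (c := z0) (C := (r ^ 2)⁻¹ * M) hr.le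
      fun z hz => by
        rw [norm_mul, norm_neg, norm_inv, norm_pow, ← dist_eq_norm, mem_sphere.1 hz]
        gcongr
        exact (hM z hz).2
    refine this.trans (le_of_eq ?_)
    field_simp
  · intro t ht
    have ht' := (hS t).1 ht
    rw [circleIntegral.integral_const_mul, circle_zero, mul_zero]
    · rcases (mem_closedBall.1 ht'.1).lt_or_eq with h | h
      · exact h
      · exact absurd ht'.2 (hM t h).1
    · rintro rfl; exact hz0 ht'.2

theorem good_radius {ι : Type} (S : Finset ι) (d l : ι → ℝ) (hl : ∀ i ∈ S, 0 ≤ l i) {R : ℝ}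
    (h : ∑ i ∈ S, 2 * l i < R) : ∃ r ∈ Icc R (2 * R), ∀ i ∈ S, l i < |r - d i| := by
  by_contra hcon
  push Not at hcon
  have hsub : Icc R (2 * R) ⊆ ⋃ i ∈ S, Icc (d i - l i) (d i + l i) := fun r hr => by
    obtain ⟨i, hi, h⟩ := hcon r hr
    rw [abs_le] at h
    exact mem_iUnion₂.2 ⟨i, hi, by linarith [h.1], by linarith [h.2]⟩
  have h1 := (MeasureTheory.measure_mono (μ := MeasureTheory.volume) hsub).trans
    (MeasureTheory.measure_biUnion_finset_le S _)
  simp only [Real.volume_Icc] at h1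
  rw [← ENNReal.ofReal_sum_of_nonneg (fun i hi => by linarith [hl i hi]),
    ENNReal.ofReal_le_ofReal_iff (Finset.sum_nonneg fun i hi => by linarith [hl i hi])] at h1
  have : ∑ i ∈ S, (d i + l i - (d i - l i)) = ∑ i ∈ S, 2 * l i :=
    Finset.sum_congr rfl fun i _ => by ring
  linarith

open Classical in
/-- the coefficients -/
def coef (G G' : ℂ → ℂ) (t : ℂ) : ℂ := if G t = 0 then (G' t)⁻¹ else 0

theorem partial_fractions {G G' : ℂ → ℂ} (hG : ∀ z, HasDerivAt G (G' z) z) (h0 : ∀ z, G' z ≠ 0)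
    (hS : Summable fun t => ‖coef G G' t‖ / ‖t‖ ^ 2) {ε C : ℝ} (hε : 0 < ε) (hC : 0 < C)
    (hZ : ∀ z, ‖G z‖ < ε → ∃ t, G t = 0 ∧ ‖z - t‖ ≤ 1 ∧ ‖z - t‖ ≤ C * ‖(G' t)⁻¹‖ * ‖G z‖)
    {z0 : ℂ} (hz0 : G z0 ≠ 0) :
    HasSum (fun t => coef G G' t / (z0 - t) ^ 2) (G' z0 / G z0 ^ 2) := by
  classical
  have hfin : ∀ r : ℝ, (closedBall z0 r ∩ {z | G z = 0}).Finite := fun r =>
    finite_zeros hG h0 (isCompact_closedBall z0 r)
  have hS' : Summable fun t => ‖coef G G' t / (z0 - t) ^ 2‖ := by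
    refine Summable.of_norm_bounded_eventually (hS.mul_left 4) ?_
    refine (hfin (‖z0‖ + 1)).subset fun t ht => ?_
    simp only [mem_compl_iff, mem_ofPred_eq, norm_norm] at ht
    by_contra hcon
    apply ht
    by_cases hGt : G t = 0
    · have h1 : ‖z0‖ + 1 < ‖z0 - t‖ := by
        by_contra h
        exact hcon ⟨by rw [mem_closedBall, dist_comm, dist_eq_norm]; linarith, hGt⟩
      have h2 : ‖t‖ ≤ 2 * ‖z0 - t‖ := by
        have := norm_sub_le z0 (z0 - t)
        rw [sub_sub_cancel] at this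
        linarith
      have h3 : 0 < ‖t‖ := by
        rw [norm_pos_iff]; rintro rfl
        simp at h1
        linarith
      have h4 : 0 < ‖z0 - t‖ := by linarith [norm_nonneg z0]
      rw [norm_div, norm_pow, ← mul_div_assoc, div_le_div_iff₀ (by positivity) (by positivity)]
      have : ‖t‖ ^ 2 ≤ 4 * ‖z0 - t‖ ^ 2 := by nlinarith
      nlinarith [norm_nonneg (coef G G' t)]
    · simp [coef, hGt]
  have hsum := (Summable.of_norm hS').hasSum
  suffices h : G' z0 / G z0 ^ 2 = ∑' t, coef G G' t / (z0 - t) ^ 2 from h ▸ hsum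
  refine eq_of_forall_dist_le fun η hη => ?_
  set η' := η / 2 with hη'
  have hη'0 : 0 < η' := by positivity
  set θ := min η' (η' / (19 * C)) with hθ
  have hθ0 : 0 < θ := lt_min hη'0 (by positivity)
  obtain ⟨s, hs⟩ := summable_iff_vanishing_norm.1 hS' θ hθ0
  obtain ⟨s', hs'⟩ := Filter.eventually_atTop.1 (Metric.tendsto_nhds.1 hsum η' hη'0)
  obtain ⟨R0, hR0⟩ := (s ∪ s').finite_toSet.isBounded.subset_closedBall z0
  set R := max (max (R0 + 2) 1) (1 / (ε * η')) with hR
  have hR1 : 1 ≤ R := le_max_of_le_left (le_max_right _ _)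
  have hR2 : R0 + 2 ≤ R := le_max_of_le_left (le_max_left _ _)
  have hR3 : 1 / (ε * η') ≤ R := le_max_right _ _
  set T := (hfin (2 * R + 1)).toFinset.filter fun t => R - 1 ≤ dist t z0 with hT
  have hTmem : ∀ t, t ∈ T ↔ (dist t z0 ≤ 2 * R + 1 ∧ G t = 0) ∧ R - 1 ≤ dist t z0 := by
    intro t; simp [hT]
  have hTs : Disjoint T s := by
    rw [Finset.disjoint_left]
    intro t ht hts
    have := hR0 (Finset.mem_coe.2 (Finset.mem_union_left s' hts))
    rw [mem_closedBall] at this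
    linarith [((hTmem t).1 ht).2]
  have hTsum := hs T hTs
  rw [Real.norm_of_nonneg (Finset.sum_nonneg fun _ _ => norm_nonneg _)] at hTsum
  obtain ⟨r, hr, hgood⟩ := good_radius T (fun t => dist t z0)
    (fun t => C / (η' * R) * ‖(G' t)⁻¹‖) (fun t _ => by positivity) (R := R) (by
      have h1 : ∀ t ∈ T, 2 * (C / (η' * R) * ‖(G' t)⁻¹‖) ≤
          (18 * C * R / η') * ‖coef G G' t / (z0 - t) ^ 2‖ := by
        intro t ht
        obtain ⟨⟨h1, h2⟩, -⟩ := (hTmem t).1 ht
        have h3 : 0 < ‖z0 - t‖ := by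
          rw [norm_pos_iff, sub_ne_zero]; rintro rfl; exact hz0 h2
        rw [dist_comm, dist_eq_norm] at h1
        rw [coef, if_pos h2, norm_div, norm_pow]
        have h4 : ‖z0 - t‖ ^ 2 ≤ 9 * R ^ 2 := by nlinarith
        calc _ = (18 * C * R / η') * (‖(G' t)⁻¹‖ / (9 * R ^ 2)) := by field_simp; ring
          _ ≤ _ := by gcongr
      refine (Finset.sum_le_sum h1).trans_lt ?_
      rw [← Finset.mul_sum]
      calc _ ≤ (18 * C * R / η') * (η' / (19 * C)) := by
            gcongr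
            exact hTsum.le.trans (min_le_right _ _)
        _ = 18 / 19 * R := by field_simp
        _ < R := by linarith)
  have hr0 : 0 < r := by linarith [hr.1]
  have hM : ∀ z ∈ sphere z0 r, G z ≠ 0 ∧ ‖(G z)⁻¹‖ ≤ η' * R := by
    intro z hz
    have key : 1 / (η' * R) ≤ ‖G z‖ := by
      by_cases h : ‖G z‖ < ε
      · obtain ⟨t, ht, h1, h2⟩ := hZ z h
        have h3 : |r - dist t z0| ≤ ‖z - t‖ := by
          rw [← mem_sphere.1 hz, ← dist_eq_norm]
          exact abs_dist_sub_le z t z0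
        have h4 := abs_le.1 (h3.trans h1)
        have h5 := hgood t ((hTmem t).2 ⟨⟨by linarith [hr.2], ht⟩, by linarith [hr.1]⟩)
        have h6 : 0 < ‖(G' t)⁻¹‖ := norm_pos_iff.2 (inv_ne_zero (h0 t))
        have h7 : C * ‖(G' t)⁻¹‖ * (1 / (η' * R)) ≤ C * ‖(G' t)⁻¹‖ * ‖G z‖ := by
          calc _ = C / (η' * R) * ‖(G' t)⁻¹‖ := by ring
            _ ≤ _ := by linarith
        exact le_of_mul_le_mul_left h7 (by positivity)
      · rw [div_le_iff₀ (by positivity)] at hR3 ⊢
        push Not at h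
        calc 1 ≤ R * (ε * η') := hR3
          _ = ε * (η' * R) := by ring
          _ ≤ _ := by gcongr
    have hpos : 0 < ‖G z‖ := lt_of_lt_of_le (by positivity) key
    refine ⟨norm_pos_iff.1 hpos, ?_⟩
    rw [norm_inv, inv_le_comm₀ hpos (by positivity), ← one_div]
    exact key
  have h1 := finite_est hG h0 hz0 hr0 (hfin r).toFinset (fun t => by simp) hM
  have h2 := hs' ((hfin r).toFinset ∪ s') Finset.subset_union_right
  have h3 : ∑ t ∈ (hfin r).toFinset ∪ s', coef G G' t / (z0 - t) ^ 2 =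
      ∑ t ∈ (hfin r).toFinset, (G' t)⁻¹ / (z0 - t) ^ 2 := by
    rw [← Finset.sum_subset Finset.subset_union_left]
    · refine Finset.sum_congr rfl fun t ht => ?_
      rw [coef, if_pos (show G t = 0 from ((hfin r).mem_toFinset.1 ht).2)]
    · intro t ht hnt
      have hts : t ∈ s' := (Finset.mem_union.1 ht).resolve_left hnt
      have := hR0 (Finset.mem_coe.2 (Finset.mem_union_right s hts))
      rw [mem_closedBall] at this
      rw [coef, if_neg, zero_div]
      intro hGt
      exact hnt ((hfin r).mem_toFinset.2 ⟨by rw [mem_closedBall]; linarith [hr.1], hGt⟩)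
  rw [h3] at h2
  have h4 : η' * R / r ≤ η' := by
    rw [div_le_iff₀ hr0]; gcongr; exact hr.1
  rw [← dist_eq_norm] at h1
  linarith [dist_triangle (G' z0 / G z0 ^ 2) (∑ t ∈ (hfin r).toFinset, (G' t)⁻¹ / (z0 - t) ^ 2)
    (∑' t, coef G G' t / (z0 - t) ^ 2)]

end Pool.Agent.H99.Ein
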