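import Mathlib

set_option autoImplicit false

namespace Pool.Agent.H99.FilterCompl

open Filter Topology

/-- X is complete over the filter F on ℕ: every sequence that is Cauchy over F converges over F. -/
def ComplOver (X : Type) [AddCommGroup X] [TopologicalSpace X] (F : Filter ℕ) : Prop :=
  ∀ x : ℕ → X, (∀ U ∈ 𝓝 (0 : X), ∃ B ∈ F, ∀ m ∈ B, ∀ n ∈ B, x m - x n ∈ U) →
    ∃ y : X, Tendsto x F (𝓝 y)

end Pool.Agent.H99.FilterCompl
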