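import Mathlib

set_option autoImplicit false

namespace Pool.Agent.H99.GeoSys

open MvPolynomial

/-- Polynomial functions of u = (u^1, ..., u^N). -/
abbrev Fn (N : ℕ) := MvPolynomial (Fin N) ℝ

/-- Differential polynomials: the variable X (i, n) is the n-th x-derivative of u^i. -/
abbrev Jt (N : ℕ) := MvPolynomial (Fin N × ℕ) ℝ

variable {N : ℕ}

/-- The total x-derivative. -/
noncomputable def Dx : Derivation ℝ (Jt N) (Jt N) := mkDerivation ℝ fun v => X (v.1, v.2 + 1)

/-- The time derivative along the evolution system u^i_t = F i. -/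
noncomputable def Dt (F : Fin N → Jt N) : Derivation ℝ (Jt N) (Jt N) :=
  mkDerivation ℝ fun v => Dx^[v.2] (F v.1)

/-- A function of u viewed as a differential polynomial of order zero. -/
noncomputable def up (f : Fn N) : Jt N := rename (fun i => (i, 0)) f

/-- Right-hand side of the third-order system of geometric type with coefficients
α i j k = α^i_(jk) and β i j k m = β^i_(jkm). -/
noncomputable def rhs (α : Fin N → Fin N → Fin N → Fn N) (β : Fin N → Fin N → Fin N → Fin N → Fn N)
    (i : Fin N) : Jt N :=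
  X (i, 3) + 3 * ∑ j, ∑ k, up (α i j k) * X (j, 1) * X (k, 2) +
    ∑ j, ∑ k, ∑ m, up (pderiv j (α i k m) + 2 * ∑ r, α i j r * α r k m - ∑ r, α i r j * α r k m +
      β i j k m) * X (j, 1) * X (k, 1) * X (m, 1)

/-- Total symmetry in the three lower indices. -/
def TotSymm (β : Fin N → Fin N → Fin N → Fin N → Fn N) : Prop :=
  ∀ i j k m, β i j k m = β i k j m ∧ β i j k m = β i j m k

/-- The system u_t = F has a polynomial higher symmetry u_τ = u_n + G(u, ..., u_(n-1)). -/
def HasSymm (F : Fin N → Jt N) (n : ℕ) : Prop :=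
  ∃ G : Fin N → Jt N, (∀ i, ∀ v ∈ (G i).vars, v.2 < n) ∧
    ∀ i, Dt F (X (i, n) + G i) = Dt (fun j => X (j, n) + G j) (F i)

/-- Torsion T^i_(jk). -/
noncomputable def tors (α : Fin N → Fin N → Fin N → Fn N) (i j k : Fin N) : Fn N :=
  α i j k - α i k j

/-- Curvature R^i_(jkl). -/
noncomputable def curv (α : Fin N → Fin N → Fin N → Fn N) (i j k l : Fin N) : Fn N :=
  pderiv k (α i j l) - pderiv l (α i j k) + ∑ s, α i s k * α s j l - ∑ s, α i s l * α s j k

end Pool.Agent.H99.GeoSys
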