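import Mathlib
import Pool.Agent.H99.GeoSysDefs

set_option autoImplicit false

namespace Pool.Agent.H99.GeoSys

open MvPolynomial Finset

variable {N : ℕ}

lemma Dx_X (v : Fin N × ℕ) : Dx (X v : Jt N) = X (v.1, v.2 + 1) := mkDerivation_X _ _ _

lemma Dt_X (F : Fin N → Jt N) (v : Fin N × ℕ) : Dt F (X v) = Dx^[v.2] (F v.1) :=
  mkDerivation_X _ _ _

lemma Dx_iter_X (n : ℕ) (i : Fin N) (j : ℕ) : Dx^[n] (X (i, j) : Jt N) = X (i, j + n) := by
  induction n with
  | zero => rfl
  | succ n ih => rw [Function.iterate_succ_apply', ih, Dx_X, add_assoc]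

lemma Dx_iter_add (n : ℕ) (p q : Jt N) : Dx^[n] (p + q) = Dx^[n] p + Dx^[n] q := by
  induction n with
  | zero => rfl
  | succ i ih => simp only [Function.iterate_succ_apply', ih, map_add]

lemma Dt_Dx (F : Fin N → Jt N) (h : Jt N) : Dt F (Dx h) = Dx (Dt F h) := by
  have : ⁅Dt F, Dx (N := N)⁆ = 0 := by
    apply derivation_ext
    intro i
    rw [Derivation.commutator_apply, Dx_X, Dt_X, Dt_X, Function.iterate_succ_apply']
    simp
  have h2 := congrArg (fun D : Derivation ℝ (Jt N) (Jt N) => D h) this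
  simp only [Derivation.commutator_apply, Derivation.zero_apply] at h2
  exact sub_eq_zero.1 h2

lemma Dt_Dx_iter (F : Fin N → Jt N) (n : ℕ) (h : Jt N) : Dt F (Dx^[n] h) = Dx^[n] (Dt F h) := by
  induction n with
  | zero => rfl
  | succ i ih => simp only [Function.iterate_succ_apply', Dt_Dx, ih]

/-- symbols -/
abbrev Sy := MvPolynomial (Fin 3) ℝ

/-- the trilinear differential expression with a given symbol -/
noncomputable def phi (f g h : Jt N) : Sy →ₗ[ℝ] Jt N :=
  (basisMonomials (Fin 3) ℝ).constr ℝ fun s => Dx^[s 0] f * Dx^[s 1] g * Dx^[s 2] h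

lemma phi_mon (f g h : Jt N) (s : Fin 3 →₀ ℕ) :
    phi f g h (monomial s 1) = Dx^[s 0] f * Dx^[s 1] g * Dx^[s 2] h := by
  have := (basisMonomials (Fin 3) ℝ).constr_basis ℝ
    (fun s => Dx^[s 0] f * Dx^[s 1] g * Dx^[s 2] h) s
  rwa [coe_basisMonomials] at this

lemma der_phi (E : Derivation ℝ (Jt N) (Jt N)) (n : ℕ) (f g h : Jt N)
    (hf : ∀ k, E (Dx^[k] f) = Dx^[n + k] f) (hg : ∀ k, E (Dx^[k] g) = Dx^[n + k] g)
    (hh : ∀ k, E (Dx^[k] h) = Dx^[n + k] h) (p : Sy) :
    E (phi f g h p) = phi f g h ((X 0 ^ n + X 1 ^ n + X 2 ^ n) * p) := by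
  have : E.toLinearMap ∘ₗ phi f g h
      = phi f g h ∘ₗ LinearMap.mulLeft ℝ (X 0 ^ n + X 1 ^ n + X 2 ^ n : Sy) := by
    apply (basisMonomials (Fin 3) ℝ).ext
    intro s
    simp only [coe_basisMonomials, LinearMap.comp_apply, LinearMap.mulLeft_apply, add_mul,
      X_pow_eq_monomial, monomial_mul, one_mul, map_add, phi_mon]
    simp only [Derivation.coeFn_coe, Derivation.leibniz, smul_eq_mul, hf, hg, hh]
    simp
    ring
  exact congrArg (fun L : Sy →ₗ[ℝ] Jt N => L p) this

lemma Dx_phi (f g h : Jt N) (p : Sy) :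
    Dx (phi f g h p) = phi f g h ((X 0 + X 1 + X 2) * p) := by
  have := der_phi Dx 1 f g h (fun k => by rw [add_comm, Function.iterate_succ_apply'])
    (fun k => by rw [add_comm, Function.iterate_succ_apply'])
    (fun k => by rw [add_comm, Function.iterate_succ_apply']) p
  simpa using this

lemma Dx_iter_phi (n : ℕ) (f g h : Jt N) (p : Sy) :
    Dx^[n] (phi f g h p) = phi f g h ((X 0 + X 1 + X 2) ^ n * p) := by
  induction n with
  | zero => simp
  | succ i ih => rw [Function.iterate_succ_apply', ih, Dx_phi, pow_succ', mul_assoc]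

/-- power sum defect -/
noncomputable def ps (n : ℕ) : Sy := (X 0 + X 1 + X 2) ^ n - (X 0 ^ n + X 1 ^ n + X 2 ^ n)

lemma ps_div (m : ℕ) : ∃ Q : Sy, Q.IsHomogeneous (2 * m) ∧ ps (2 * m + 3) = Q * ps 3 := by
  have h0 : (X 0 : Sy).IsHomogeneous 1 := isHomogeneous_X _ _
  have h1 : (X 1 : Sy).IsHomogeneous 1 := isHomogeneous_X _ _
  have h2 : (X 2 : Sy).IsHomogeneous 1 := isHomogeneous_X _ _
  have hs : (X 0 + X 1 + X 2 : Sy).IsHomogeneous 1 := (h0.add h1).add h2
  set a : Sy := X 0 with ha
  set b : Sy := X 1 with hb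
  set c : Sy := X 2 with hc
  have ka : (a * a).IsHomogeneous 2 := h0.mul h0
  have kb : (b * b).IsHomogeneous 2 := h1.mul h1
  have kc : (c * c).IsHomogeneous 2 := h2.mul h2
  have ks : ((a + b + c) * (a + b + c)).IsHomogeneous 2 := hs.mul hs
  have kq : (a * a + b * b + c * c + a * b + b * c + c * a).IsHomogeneous 2 :=
    ((((ka.add kb).add kc).add (h0.mul h1)).add (h1.mul h2)).add (h2.mul h0)
  have e1 := ((ka.add kb).add kc).add ks
  have e2 := (((ka.mul kb).add (ka.mul kc)).add (kb.mul kc)).add (((ka.add kb).add kc).mul ks)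
  have e3 := ((ka.mul kb).mul kc).add ((((ka.mul kb).add (ka.mul kc)).add (kb.mul kc)).mul ks)
  have e4 := ((ka.mul kb).mul kc).mul ks
  have key : ∀ m : ℕ, (∃ Q : Sy, (m = 0 ∧ Q = 0 ∨ Q.IsHomogeneous (2 * m - 2)) ∧
      ps (2 * m + 1) = Q * ps 3) := by
    intro m
    induction m using Nat.strong_induction_on with
    | _ m ih =>
      match m, ih with
      | 0, _ => exact ⟨0, Or.inl ⟨rfl, rfl⟩, by simp [ps]⟩
      | 1, _ => exact ⟨1, Or.inr (isHomogeneous_one _ _), by simp⟩
      | 2, _ =>
        refine ⟨C (5 / 3) * _, Or.inr (by simpa using (isHomogeneous_C _ (5 / 3 : ℝ)).mul kq), ?_⟩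
        have : (C (5 / 3) : Sy) * 3 = 5 := by
          rw [show (3 : Sy) = C 3 from rfl, show (5 : Sy) = C 5 from rfl, ← C_mul]; norm_num
        simp only [ps, ← ha, ← hb, ← hc]
        linear_combination (-(a + b) * (b + c) * (c + a) *
          (a * a + b * b + c * c + a * b + b * c + c * a)) * this
      | 3, _ =>
        refine ⟨C (7 / 3) * _, Or.inr (by
          simpa using (isHomogeneous_C _ (7 / 3 : ℝ)).mul
            ((kq.mul kq).add (((h0.mul h1).mul h2).mul hs))), ?_⟩
        have : (C (7 / 3) : Sy) * 3 = 7 := by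
          rw [show (3 : Sy) = C 3 from rfl, show (7 : Sy) = C 7 from rfl, ← C_mul]; norm_num
        simp only [ps, ← ha, ← hb, ← hc]
        linear_combination (-(a + b) * (b + c) * (c + a) *
          ((a * a + b * b + c * c + a * b + b * c + c * a) *
          (a * a + b * b + c * c + a * b + b * c + c * a) + a * b * c * (a + b + c))) * this
      | m + 4, ih =>
        obtain ⟨Q0, g0, r0⟩ := ih m (by omega)
        obtain ⟨Q1, g1, r1⟩ := ih (m + 1) (by omega)
        obtain ⟨Q2, g2, r2⟩ := ih (m + 2) (by omega)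
        obtain ⟨Q3, g3, r3⟩ := ih (m + 3) (by omega)
        have g1 := g1.resolve_left (by omega)
        have g2 := g2.resolve_left (by omega)
        have g3 := g3.resolve_left (by omega)
        have f3 := e1.mul g3
        have f2 := e2.mul g2
        have f1 := e3.mul g1
        have f0 : (a * a * (b * b) * (c * c) * ((a + b + c) * (a + b + c)) * Q0).IsHomogeneous
            (2 * (m + 4) - 2) := by
          rcases g0 with ⟨_, rfl⟩ | g0
          · rw [mul_zero]; exact isHomogeneous_zero _ _ _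
          · rcases Nat.eq_zero_or_pos m with rfl | hm
            · have : Q0 = 0 := by
                have h3 : ps 3 ≠ 0 := by
                  intro h
                  have := congrArg (eval fun _ => (1 : ℝ)) h
                  simp [ps] at this
                  norm_num at this
                have h4 : Q0 * ps 3 = 0 := by rw [← r0]; simp [ps]
                exact (mul_eq_zero.1 h4).resolve_right h3
              rw [this, mul_zero]; exact isHomogeneous_zero _ _ _
            · have := e4.mul g0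
              rwa [show 2 + 2 + 2 + 2 + (2 * m - 2) = 2 * (m + 4) - 2 by omega] at this
        rw [show 2 + (2 * (m + 3) - 2) = 2 * (m + 4) - 2 by omega] at f3
        rw [show 2 + 2 + (2 * (m + 2) - 2) = 2 * (m + 4) - 2 by omega] at f2
        rw [show 2 + 2 + 2 + (2 * (m + 1) - 2) = 2 * (m + 4) - 2 by omega] at f1
        refine ⟨_, Or.inr (((f3.sub f2).add f1).sub f0), ?_⟩
        have : ps (2 * (m + 4) + 1) =
            (a * a + b * b + c * c + (a + b + c) * (a + b + c)) * ps (2 * (m + 3) + 1) -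
            (a * a * (b * b) + a * a * (c * c) + b * b * (c * c) +
              (a * a + b * b + c * c) * ((a + b + c) * (a + b + c))) * ps (2 * (m + 2) + 1) +
            (a * a * (b * b) * (c * c) + (a * a * (b * b) + a * a * (c * c) + b * b * (c * c)) *
              ((a + b + c) * (a + b + c))) * ps (2 * (m + 1) + 1) -
            a * a * (b * b) * (c * c) * ((a + b + c) * (a + b + c)) * ps (2 * m + 1) := by
          simp only [ps, ← ha, ← hb, ← hc]
          generalize a + b + c = s
          ring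
        rw [this, r0, r1, r2, r3]
        ring
  obtain ⟨Q, hQ, hr⟩ := key (m + 1)
  exact ⟨Q, by simpa [mul_add] using hQ.resolve_left (by omega), hr⟩

lemma phi_supp (f g h : Jt N) (n : ℕ) (S : Subalgebra ℝ (Jt N))
    (hf : ∀ k < n, Dx^[k] f ∈ S) (hg : ∀ k < n, Dx^[k] g ∈ S) (hh : ∀ k < n, Dx^[k] h ∈ S)
    (p : Sy) (hp : ∀ i, degreeOf i p < n) : phi f g h p ∈ S := by
  rw [p.as_sum, map_sum]
  refine S.sum_mem fun s hs => ?_
  have e : (monomial s (coeff s p) : Sy) = coeff s p • monomial s 1 := by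
    simp [smul_monomial]
  rw [e, map_smul, phi_mon]
  have hb : ∀ i, s i < n := fun i => (monomial_le_degreeOf i hs).trans_lt (hp i)
  exact S.smul_mem (S.mul_mem (S.mul_mem (hf _ (hb 0)) (hg _ (hb 1))) (hh _ (hb 2))) _

end Pool.Agent.H99.GeoSys
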