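import Mathlib
import Pool.Agent.H99.GeoSys

set_option autoImplicit false

namespace Pool.Agent.H99.GeoSys

open MvPolynomial Finset

lemma pd_Dx (j : Fin 3) (l : ℕ) (P : Jt 3) :
    pderiv (j, l + 1) (Dx P) = Dx (pderiv (j, l + 1) P) + pderiv (j, l) P := by
  have : ⁅(pderiv (j, l + 1) : Derivation ℝ (Jt 3) (Jt 3)), Dx (N := 3)⁆ = pderiv (j, l) := by
    apply derivation_ext
    rintro ⟨i, n⟩
    rw [Derivation.commutator_apply, Dx_X]
    simp only [pderiv_X, Pi.single_apply, Prod.mk.injEq]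
    split_ifs <;> first | omega | simp
  have h2 := congrArg (fun D : Derivation ℝ (Jt 3) (Jt 3) => D P) this
  simp only [Derivation.commutator_apply] at h2
  rw [← h2]; ring

/-- the cubic term -/
noncomputable def cub : Jt 3 := 3 * (X (0, 1) * X (0, 1) * X (1, 1))

/-- the system -/
noncomputable def FF (i : Fin 3) : Jt 3 := X (i, 3) + if i = 2 then cub else 0

lemma pd_three (v : Fin 3 × ℕ) : pderiv v (3 : Jt 3) = 0 := by
  rw [show (3 : Jt 3) = C 3 from rfl, pderiv_C]

lemma pd_cub (j : Fin 3) (l : ℕ) (hl : 1 < l) : pderiv (j, l) cub = 0 := by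
  have : ∀ i : Fin 3, pderiv (j, l) (X (i, 1) : Jt 3) = 0 := fun i =>
    pderiv_X_of_ne (by simp; omega)
  simp [cub, Derivation.leibniz, this, pd_three]

lemma pderiv_comm_aux (i j : Fin 3) (l : ℕ) (hl : 1 < l) :
    pderiv (j, l) (pderiv (i, 1) cub) = 0 := by
  have : ∀ i : Fin 3, pderiv (j, l) (X (i, 1) : Jt 3) = 0 := fun i =>
    pderiv_X_of_ne (by simp; omega)
  fin_cases i <;> simp [cub, Derivation.leibniz, this, pd_three, pderiv_X]

lemma pd_iter_cub (n : ℕ) (j : Fin 3) : (∀ l, n + 1 < l → pderiv (j, l) (Dx^[n] cub) = 0) ∧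
    pderiv (j, n + 1) (Dx^[n] cub) = pderiv (j, 1) cub := by
  induction n with
  | zero => exact ⟨fun l hl => pd_cub j l hl, rfl⟩
  | succ n ih =>
    rw [Function.iterate_succ_apply']
    refine ⟨fun l hl => ?_, ?_⟩
    · obtain ⟨l, rfl⟩ : ∃ l', l = l' + 1 := ⟨l - 1, by omega⟩
      rw [pd_Dx, ih.1 _ (by omega), ih.1 _ (by omega)]; simp
    · rw [pd_Dx, ih.1 _ (by omega), ih.2]; simp

section abstract

variable {A : Type} [CommRing A] (d : Fin 3 × ℕ → A →+ A) (φ : Jt 3 →+* A) (M : ℕ)

/-- truncated total derivative -/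
noncomputable def DD : A →+ A where
  toFun a := ∑ n ∈ range M, ∑ i, φ (X (i, n + 1)) * d (i, n) a
  map_zero' := by simp
  map_add' a b := by simp [mul_add, sum_add_distrib]

variable {d φ M}

lemma hphi (hl : ∀ v a b, d v (a * b) = d v a * b + a * d v b)
    (h0 : ∀ v c, d v (φ (C c)) = 0)
    (h1 : ∀ v w, v.2 ≤ M → d v (φ (X w)) = if w = v then 1 else 0) (v : Fin 3 × ℕ) (hv : v.2 ≤ M)
    (P : Jt 3) : d v (φ P) = φ (pderiv v P) := by
  induction P using MvPolynomial.induction_on with
  | C c => simp [h0]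
  | add p q hp hq => simp [hp, hq]
  | mul_X p w hp =>
    rw [map_mul, hl, hp, h1 v w hv, Derivation.leibniz, pderiv_X, Pi.single_apply]
    split_ifs <;> simp <;> ring

lemma d_DD (hl : ∀ v a b, d v (a * b) = d v a * b + a * d v b)
    (hc : ∀ v w a, d v (d w a) = d w (d v a))
    (hφ : ∀ v : Fin 3 × ℕ, v.2 ≤ M → ∀ P, d v (φ P) = φ (pderiv v P))
    (j : Fin 3) (l : ℕ) (hM : l < M) (a : A) :
    d (j, l + 1) (DD d φ M a) = DD d φ M (d (j, l + 1) a) + d (j, l) a := by
  change d (j, l + 1) (∑ n ∈ range M, ∑ i, φ (X (i, n + 1)) * d (i, n) a) =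
    (∑ n ∈ range M, ∑ i, φ (X (i, n + 1)) * d (i, n) (d (j, l + 1) a)) + _
  simp only [map_sum, hl, sum_add_distrib, hc (j, l + 1), hφ (j, l + 1) hM]
  rw [add_comm]
  congr 1
  rw [sum_eq_single l, sum_eq_single j]
  · simp
  · intro i _ hi
    rw [pderiv_X_of_ne (by simp [hi])]; simp
  · simp
  · intro n _ hn
    refine sum_eq_zero fun i _ => ?_
    rw [pderiv_X_of_ne (by simp [hn])]; simp
  · intro h; exact absurd (mem_range.2 hM) h

lemma desc (hD : ∀ (j : Fin 3) (l : ℕ), l < M → ∀ a,
      d (j, l + 1) (DD d φ M a) = DD d φ M (d (j, l + 1) a) + d (j, l) a)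
    (f : A) (n0 : ℕ) (hM : ∀ i, d (i, M) f = 0)
    (h : ∀ i n, n0 ≤ n → n < M → d (i, n + 1) (DD d φ M f) = 0) (i : Fin 3) :
    ∀ n, n0 ≤ n → n ≤ M → d (i, n) f = 0 := by
  intro n h1 h2
  induction h2 using Nat.decreasingInduction with
  | self => exact hM i
  | of_succ n hn ih =>
    have := h i n h1 hn
    rw [hD i n hn, ih (by omega)] at this
    simpa using this

theorem alg (hl : ∀ v a b, d v (a * b) = d v a * b + a * d v b)
    (hc : ∀ v w a, d v (d w a) = d w (d v a))
    (h0 : ∀ v c, d v (φ (C c)) = 0)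
    (h1 : ∀ v w, v.2 ≤ M → d v (φ (X w)) = if w = v then 1 else 0)
    (k : ℕ) (hk : k + 5 ≤ M) (ρ θ : A) (hρ : ∀ i n, k + 2 < n → d (i, n) ρ = 0)
    (hθ : ∀ i, d (i, M) θ = 0)
    (he : ∑ n ∈ range (k + 3), ∑ i, φ (Dx^[n] (FF i)) * d (i, n) ρ = DD d φ M θ) (j : Fin 3) :
    d (2, k + 2) (d (j, k + 2) ρ) = 0 := by
  have hφ := hphi hl h0 h1
  have hD := d_DD hl hc hφ
  set D := DD d φ M with hDdef
  have z : ∀ i n w, k + 2 < n → d (i, n) (d w ρ) = 0 := fun i n w hn => by
    rw [hc, hρ i n hn, map_zero]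
  have hh : ∀ j l, k + 2 < l → l ≤ M → d (j, l) (D θ) = (if l ≤ k + 5 then d (j, l - 3) ρ else 0) +
      if l = k + 3 then φ (pderiv (j, 1) cub) * d (2, k + 2) ρ else 0 := by
    intro j l h2 h3
    rw [← he]
    simp only [map_sum, hl, z j l _ h2, mul_zero, add_zero, hφ (j, l) h3, FF, Dx_iter_add,
      Dx_iter_X, map_add, add_mul, sum_add_distrib]
    congr 1
    · split_ifs with h4
      · rw [sum_eq_single (l - 3), sum_eq_single j]
        · rw [show 3 + (l - 3) = l by omega]; simp
        · intro i _ hi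
          rw [pderiv_X_of_ne (by simp [hi])]; simp
        · simp
        · intro n _ hn
          refine sum_eq_zero fun i _ => ?_
          rw [pderiv_X_of_ne (by simp; omega)]; simp
        · intro h; exact absurd (mem_range.2 (by omega)) h
      · refine sum_eq_zero fun n hn => sum_eq_zero fun i _ => ?_
        have := mem_range.1 hn
        rw [pderiv_X_of_ne (by simp; omega)]; simp
    · have e : ∀ n, ∑ i : Fin 3, φ (pderiv (j, l) (Dx^[n] (if i = 2 then cub else 0))) * d (i, n) ρ
          = φ (pderiv (j, l) (Dx^[n] cub)) * d (2, n) ρ := by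
        intro n
        rw [sum_eq_single 2]
        · simp
        · intro i _ hi
          rw [if_neg hi, Function.iterate_fixed (map_zero Dx) n]; simp
        · simp
      simp only [e]
      rw [sum_range_succ, sum_eq_zero, zero_add]
      · split_ifs with h4
        · rw [h4, (pd_iter_cub (k + 2) j).2]
        · rw [(pd_iter_cub (k + 2) j).1 l (by omega)]; simp
      · intro n hn
        have := mem_range.1 hn
        rw [(pd_iter_cub n j).1 l (by omega)]; simp
  have t5 : ∀ i, d (i, k + 5) θ = 0 := fun i =>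
    desc hD θ (k + 5) hθ (fun i n h2 h3 => by
      rw [hh i (n + 1) (by omega) h3, if_neg (by omega), if_neg (by omega), add_zero])
      i _ le_rfl hk
  have t4 : ∀ i, d (i, k + 4) θ = d (i, k + 2) ρ := fun i => by
    have := hh i (k + 5) (by omega) hk
    rw [hD i (k + 4) (by omega), t5] at this
    simpa using this
  have t3 : ∀ i, d (i, k + 3) θ = d (i, k + 1) ρ - D (d (i, k + 2) ρ) := fun i => by
    have := hh i (k + 4) (by omega) (by omega)
    rw [hD i (k + 3) (by omega), t4] at this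
    simp at this
    rw [← this]; ring
  have t2 : ∀ i, d (i, k + 2) θ = d (i, k) ρ + φ (pderiv (i, 1) cub) * d (2, k + 2) ρ -
      D (d (i, k + 1) ρ) + D (D (d (i, k + 2) ρ)) := fun i => by
    have := hh i (k + 3) (by omega) (by omega)
    rw [hD i (k + 2) (by omega), t3] at this
    simp at this
    rw [← this]; ring
  have nz : ∀ (i j : Fin 3) l, 1 < l → l ≤ M → d (j, l) (φ (pderiv (i, 1) cub)) = 0 := by
    intro i j l h2 h3
    rw [hφ (j, l) h3, pderiv_comm_aux i j l h2, map_zero]
  have u3 : φ (C (1 / 3)) * 3 = 1 := by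
    rw [← map_ofNat φ 3, ← map_mul, show (3 : Jt 3) = C 3 from rfl, ← C_mul]; norm_num
  have u2 : φ (C (1 / 2)) * 2 = 1 := by
    rw [← map_ofNat φ 2, ← map_mul, show (2 : Jt 3) = C 2 from rfl, ← C_mul]; norm_num
  have c3 : ∀ a : A, 3 * a = 0 → a = 0 := fun a h => by
    linear_combination φ (C (1 / 3)) * h - a * u3
  have c2 : ∀ a : A, 2 * a = 0 → a = 0 := fun a h => by
    linear_combination φ (C (1 / 2)) * h - a * u2
  have DH : ∀ i j, D (d (i, k + 2) (d (j, k + 2) ρ)) = 0 := by
    intro i j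
    have := hc (j, k + 2) (i, k + 3) θ
    rw [t3, t2] at this
    simp only [map_add, map_sub, hl, hD j (k + 1) (by omega), hD i (k + 2) (by omega),
      hD i (k + 1) (by omega), z i (k + 3) _ (by omega), nz j i (k + 3) (by omega) (by omega),
      map_zero] at this
    rw [hc (j, k + 2) (i, k + 2), hc (j, k + 2) (i, k + 1), hc (j, k + 1) (i, k + 2)] at this
    apply c3
    linear_combination -this
  have cH : ∀ i j l n, n ≤ M → d (l, n) (d (i, k + 2) (d (j, k + 2) ρ)) = 0 := by
    intro i j l n hn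
    exact desc hD _ 0 (fun l => by rw [hc, z l M _ (by omega), map_zero])
      (fun l n _ _ => by rw [← hDdef, DH, map_zero]) l n (Nat.zero_le _) hn
  have an : ∀ i j, 3 * D (d (i, k + 2) (d (j, k + 1) ρ) - d (j, k + 2) (d (i, k + 1) ρ)) =
      φ (pderiv (j, 1) cub) * d (2, k + 2) (d (i, k + 2) ρ) -
      φ (pderiv (i, 1) cub) * d (2, k + 2) (d (j, k + 2) ρ) := by
    intro i j
    have := hc (j, k + 2) (i, k + 2) θ
    rw [t2, t2] at this
    simp only [map_add, map_sub, hl, hD j (k + 1) (by omega), hD i (k + 1) (by omega),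
      hD j k (by omega), hD i k (by omega),
      nz j i (k + 2) (by omega) (by omega), nz i j (k + 2) (by omega) (by omega)] at this
    rw [hc (j, k + 2) (i, k + 2), hc (j, k + 2) (2, k + 2), hc (i, k + 2) (2, k + 2),
      hc (j, k + 1) (i, k + 2), hc (i, k + 1) (j, k + 2), hc (j, k + 1) (i, k + 1),
      hc (j, k) (i, k + 2), hc (i, k) (j, k + 2)] at this
    rw [map_sub]
    linear_combination this
  have sec : ∀ i j p q : Fin 3,
      φ (pderiv (q, 1) (pderiv (p, 1) (pderiv (j, 1) cub))) * d (2, k + 2) (d (i, k + 2) ρ) =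
      φ (pderiv (q, 1) (pderiv (p, 1) (pderiv (i, 1) cub))) * d (2, k + 2) (d (j, k + 2) ρ) := by
    intro i j p q
    set f := d (i, k + 2) (d (j, k + 1) ρ) - d (j, k + 2) (d (i, k + 1) ρ) with hf
    have d3 : ∀ v a, d v (3 * a) = 3 * d v a := fun v a => by
      rw [show (3 : A) * a = a + a + a by ring, map_add, map_add]; ring
    have f1 : ∀ l, d (l, 1) f = 0 := fun l =>
      desc hD f 1 (fun l => by
        rw [hf, map_sub, hc, z l M _ (by omega), hc (l, M), z l M _ (by omega)]; simp)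
        (fun l n h2 h3 => by
          apply c3
          rw [← d3, ← hDdef, an, map_sub, hl, hl, nz _ _ _ (by omega) h3, nz _ _ _ (by omega) h3,
            cH _ _ _ _ h3, cH _ _ _ _ h3]
          simp) l 1 le_rfl (by omega)
    have h2 := congrArg (fun a => d (q, 1) (d (p, 1) a)) (an i j)
    simp only [d3, ← hf, hD p 0 (by omega), zero_add, f1, map_zero, hc (q, 1) (p, 0), mul_zero,
      map_sub, hl, cH _ _ _ 1 (by omega), add_zero, hφ (p, 1) (by simp; omega),
      hφ (q, 1) (by simp; omega)] at h2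
    exact (sub_eq_zero.1 h2.symm)
  have six : ∀ a : A, φ 6 * a = 0 → a = 0 := fun a h => by
    rw [map_ofNat] at h
    exact c3 _ (c2 _ (by linear_combination h))
  fin_cases j
  · have := sec 0 1 0 0
    apply six
    simp [cub, Derivation.leibniz, pd_three, pderiv_X] at this ⊢
    simp only [map_ofNat] at this ⊢
    linear_combination this
  · have := sec 1 0 0 1
    apply six
    simp [cub, Derivation.leibniz, pd_three, pderiv_X] at this ⊢
    simp only [map_ofNat] at this ⊢
    linear_combination this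
  · have := sec 2 0 0 1
    apply six
    simp [cub, Derivation.leibniz, pd_three, pderiv_X] at this ⊢
    simp only [map_ofNat] at this ⊢
    linear_combination this

end abstract

end Pool.Agent.H99.GeoSys
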