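import Mathlib
import Pool.Agent.H99.GeoSysDefs

set_option autoImplicit false

namespace Pool.Agent.H99.GeoSys

open MvPolynomial Topology

variable {N : ℕ}

/-- Covariant derivative (∇_m T)^i_(jkl) of a (1,3)-tensor T for the connection α. -/
noncomputable def cov (α : Fin N → Fin N → Fin N → Fn N) (T : Fin N → Fin N → Fin N → Fin N → Fn N)
    (m i j k l : Fin N) : Fn N :=
  pderiv m (T i j k l) + ∑ s, α i m s * T s j k l - ∑ s, α s m j * T i s k l -
    ∑ s, α s m k * T i j s l - ∑ s, α s m l * T i j k s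

/-- T(X, Y, Z)^i = T^i_(jkl) X^j Y^k Z^l. -/
noncomputable def app (T : Fin N → Fin N → Fin N → Fin N → Fn N) (X Y Z : Fin N → Fn N)
    (i : Fin N) : Fn N := ∑ j, ∑ k, ∑ l, T i j k l * X j * Y k * Z l

/-- σ(X,Y,Z) = β(X,Y,Z) - R(X,Y,Z)/3 + R(Z,X,Y)/3 in components. -/
noncomputable def sig (α : Fin N → Fin N → Fin N → Fn N) (β : Fin N → Fin N → Fin N → Fin N → Fn N)
    (i j k l : Fin N) : Fn N :=
  β i j k l - C (1 / 3) * curv α i j k l + C (1 / 3) * curv α i l j k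

/-- The conditions (C1)-(C5). -/
def Conds (α : Fin N → Fin N → Fin N → Fn N) (β : Fin N → Fin N → Fin N → Fin N → Fn N) : Prop :=
  (∀ m i j k l, cov α (curv α) m i j k l = 0) ∧ (∀ m i j k l, cov α (sig α β) m i j k l = 0) ∧
  (∀ X Y Z, app (curv α) X Y Z = app (sig α β) X Z Y - app (sig α β) X Y Z) ∧
  (∀ X Y Z, app (sig α β) X Y Z = app (sig α β) Z Y X) ∧
  ∀ X Y Z V W, app (sig α β) X (app (sig α β) Y Z V) W - app (sig α β) W V (app (sig α β) X Y Z) +
    app (sig α β) Z Y (app (sig α β) X V W) - app (sig α β) X V (app (sig α β) Z Y W) = 0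

/-- Truncation of an infinite jet p (p (i, n) is the value of u^i_n) to order k. -/
def tr (k : ℕ) (p : Fin N × ℕ → ℝ) : Fin N × Fin (k + 1) → ℝ := fun v => p (v.1, v.2)

/-- The value at the jet p of the total derivative E f of a function f(u, ..., u_k), where the
total derivative E (Dx or Dt F) is given on the jet coordinates: the sum of
(∂f/∂u^i_n) E(u^i_n). -/
noncomputable def along (k : ℕ) (f : (Fin N × Fin (k + 1) → ℝ) → ℝ)
    (E : Derivation ℝ (Jt N) (Jt N)) (p : Fin N × ℕ → ℝ) : ℝ :=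
  fderiv ℝ f (tr k p) fun v => eval p (E (X (v.1, v.2)))

/-- ρ(u, ..., u_k) is a locally analytic conserved density of u_t = F near the jet p0:
D_t ρ = D_x θ near p0 for a locally analytic flux θ(u, ..., u_m). -/
def ConsLaw (F : Fin N → Jt N) (k : ℕ) (ρ : (Fin N × Fin (k + 1) → ℝ) → ℝ)
    (p0 : Fin N × ℕ → ℝ) : Prop :=
  AnalyticAt ℝ ρ (tr k p0) ∧ ∃ (m : ℕ) (θ : (Fin N × Fin (m + 1) → ℝ) → ℝ),
    AnalyticAt ℝ θ (tr m p0) ∧ ∀ᶠ p in 𝓝 p0, along k ρ (Dt F) p = along m θ Dx p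

/-- The matrix of second derivatives of ρ in the top-order variables u^i_k, u^j_k. -/
noncomputable def topHess (k : ℕ) (ρ : (Fin N × Fin (k + 1) → ℝ) → ℝ)
    (x : Fin N × Fin (k + 1) → ℝ) : Matrix (Fin N) (Fin N) ℝ := fun i j =>
  fderiv ℝ (fun y => fderiv ℝ ρ y (Pi.single (j, Fin.last k) 1)) x (Pi.single (i, Fin.last k) 1)

end Pool.Agent.H99.GeoSys
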