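import Mathlib

set_option autoImplicit false
set_option linter.unusedSectionVars false

open Filter Topology Set MeasureTheory Metric
open scoped ENNReal NNReal RealInnerProductSpace

namespace Pool.Agent.H99.HM

variable {E : Type*} [NormedAddCommGroup E] [InnerProductSpace ℝ E] [FiniteDimensional ℝ E]
  [MeasurableSpace E] [BorelSpace E]

noncomputable def En (p : ℝ) (v : E → ℝ) : ℝ≥0∞ := ∫⁻ x, ‖fderiv ℝ v x‖ₑ ^ p

omit [FiniteDimensional ℝ E] [MeasurableSpace E] [BorelSpace E] in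
theorem touch {v w : E → ℝ} {x : E} (hv : DifferentiableAt ℝ v x) (hw : DifferentiableAt ℝ w x)
    (h : ∀ y, v y ≤ w y) (e : v x = w x) : fderiv ℝ v x = fderiv ℝ w x := by
  have : IsLocalMin (fun y => w y - v y) x := Eventually.of_forall fun y => by
    simp only [e, sub_self]; exact sub_nonneg.2 (h y)
  exact (sub_eq_zero.1 (this.hasFDerivAt_eq_zero (hw.hasFDerivAt.sub hv.hasFDerivAt))).symm

theorem mE (p : ℝ) (v : E → ℝ) : Measurable fun x => ‖fderiv ℝ v x‖ₑ ^ p :=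
  (measurable_fderiv ℝ v).enorm.pow_const p

theorem En_iso (p : ℝ) (v : E → ℝ) (σ : E ≃ₗᵢ[ℝ] E) : En p (fun y => v (σ y)) = En p v := by
  unfold En
  rw [← σ.measurePreserving.lintegral_comp (mE p v)]
  refine lintegral_congr fun x => ?_
  have := σ.toContinuousLinearEquiv.comp_right_fderiv (f := v) (x := x)
  have h2 := (fderiv ℝ v (σ x)).opNorm_comp_linearIsometryEquiv σ
  rw [← ofReal_norm, ← ofReal_norm, ← h2]
  congr 3

theorem En_add (p : ℝ) (v : E → ℝ) (c : E) : En p (fun y => v (y + c)) = En p v := by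
  simp only [En, fderiv_comp_add_right]
  exact lintegral_add_right_eq_self (fun x => ‖fderiv ℝ v x‖ₑ ^ p) c

theorem En_trunc {p : ℝ} (hp : 0 ≤ p) {v : E → ℝ} {L : ℝ≥0} (hv : LipschitzWith L v) (ε : ℝ) :
    LipschitzWith L (fun y => max (v y - ε) 0) ∧ En p (fun y => max (v y - ε) 0) ≤ En p v := by
  have h1 : LipschitzWith L (fun y => max (v y - ε) 0) := LipschitzWith.max_const
    (LipschitzWith.of_dist_le_mul fun x y => by simpa using hv.dist_le_mul x y) 0
  refine ⟨h1, lintegral_mono_ae ?_⟩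
  filter_upwards [hv.ae_differentiableAt, h1.ae_differentiableAt] with x a b
  refine ENNReal.rpow_le_rpow ?_ hp
  rcases le_total (v x - ε) 0 with h | h
  · rw [← touch (differentiableAt_const 0) b (fun y => le_max_right _ _) (max_eq_right h).symm,
      fderiv_fun_const, Pi.zero_apply, ← ofReal_norm, norm_zero, ENNReal.ofReal_zero]
    exact zero_le
  · rw [← touch (a.sub_const ε) b (fun y => le_max_left _ _) (max_eq_left h).symm, fderiv_sub_const]

/-- polarization -/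
noncomputable def pol (ν : E) (σ : E → E) (v : E → ℝ) (y : E) : ℝ :=
  if 0 ≤ ⟪ν, y⟫ then max (v y) (v (σ y)) else min (v y) (v (σ y))

structure Rf (ν : E) (σ : E ≃ₗᵢ[ℝ] E) : Prop where
  n1 : ‖ν‖ = 1
  eq : ∀ y, σ y = y - (2 * ⟪ν, y⟫) • ν

omit [FiniteDimensional ℝ E] [MeasurableSpace E] [BorelSpace E] in
theorem Rf.inn {ν : E} {σ : E ≃ₗᵢ[ℝ] E} (h : Rf ν σ) (y : E) : ⟪ν, σ y⟫ = -⟪ν, y⟫ := by
  rw [h.eq, inner_sub_right, inner_smul_right, real_inner_self_eq_norm_sq, h.n1]; ring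

omit [FiniteDimensional ℝ E] [MeasurableSpace E] [BorelSpace E] in
theorem Rf.inv {ν : E} {σ : E ≃ₗᵢ[ℝ] E} (h : Rf ν σ) (y : E) : σ (σ y) = y := by
  rw [h.eq (σ y), h.inn, h.eq y]; module

omit [FiniteDimensional ℝ E] [MeasurableSpace E] [BorelSpace E] in
theorem Rf.cases {ν : E} {σ : E ≃ₗᵢ[ℝ] E} (h : Rf ν σ) (v : E → ℝ) (y : E) :
    (0 ≤ ⟪ν, y⟫ ∧ pol ν σ v y = max (v y) (v (σ y)) ∧ pol ν σ v (σ y) = min (v y) (v (σ y))) ∨
    (⟪ν, y⟫ ≤ 0 ∧ pol ν σ v y = min (v y) (v (σ y)) ∧ pol ν σ v (σ y) = max (v y) (v (σ y))) := by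
  rcases lt_trichotomy 0 ⟪ν, y⟫ with t | t | t
  · left; simp [pol, h.inn, h.inv, t.le, t.not_ge, min_comm]
  · left; simp [pol, h.eq y, ← t]
  · right; simp [pol, h.inn, h.inv, t.le, t.not_ge, max_comm]

omit [MeasurableSpace E] [BorelSpace E] in
theorem exists_rf {ν : E} (h : ‖ν‖ = 1) : ∃ σ, Rf ν σ :=
  ⟨(ℝ ∙ ν)ᗮ.reflection, h, fun y => by
    rw [Submodule.reflection_orthogonal_apply, Submodule.reflection_singleton_apply, h]
    simp [smul_smul, two_smul, two_mul, add_smul]⟩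

omit [FiniteDimensional ℝ E] [MeasurableSpace E] [BorelSpace E] in
theorem Rf.lip {ν : E} {σ : E ≃ₗᵢ[ℝ] E} (h : Rf ν σ) {v : E → ℝ} {L : ℝ≥0}
    (hv : LipschitzWith L v) : LipschitzWith L (pol ν σ v) := by
  have hs : LipschitzWith L fun y => v (σ y) :=
    LipschitzWith.of_dist_le_mul fun x y => σ.dist_map x y ▸ hv.dist_le_mul _ _
  have key : ∀ y z, 0 ≤ ⟪ν, y⟫ → ⟪ν, z⟫ ≤ 0 →
      dist (max (v y) (v (σ y))) (min (v z) (v (σ z))) ≤ L * dist y z := by
    intro y z hy hz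
    have d1 : dist y (σ z) ≤ dist y z := by
      rw [dist_eq_norm, dist_eq_norm, h.eq z, sub_sub_eq_add_sub, add_sub_right_comm]
      refine abs_le_of_sq_le_sq' ?_ (norm_nonneg _) |>.2
      rw [norm_add_sq_real, inner_smul_right, inner_sub_left, norm_smul, h.n1,
        real_inner_comm ν y, real_inner_comm ν z, mul_one, Real.norm_eq_abs, sq_abs]
      nlinarith [mul_nonneg hy (neg_nonneg.2 hz)]
    have d2 : dist (σ y) z ≤ dist y z := by rw [← σ.dist_map, h.inv]; exact d1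
    have a1 := hv.dist_le_mul y z
    have a2 := hs.dist_le_mul y z
    have a3 := (hv.dist_le_mul y (σ z)).trans (mul_le_mul_of_nonneg_left d1 L.2)
    have a4 := (hv.dist_le_mul (σ y) z).trans (mul_le_mul_of_nonneg_left d2 L.2)
    rcases max_choice (v y) (v (σ y)) with e | e <;> rcases min_choice (v z) (v (σ z)) with f | f <;>
      rw [e, f] <;> assumption
  refine LipschitzWith.of_dist_le_mul fun y z => ?_
  rcases h.cases v y with ⟨a, b, -⟩ | ⟨a, b, -⟩ <;> rcases h.cases v z with ⟨c, d, -⟩ | ⟨c, d, -⟩ <;>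
    rw [b, d]
  · simpa using (hv.max hs).dist_le_mul y z
  · exact key y z a c
  · rw [dist_comm, dist_comm y]; exact key z y c a
  · simpa using (hv.min hs).dist_le_mul y z

theorem Rf.en {ν : E} {σ : E ≃ₗᵢ[ℝ] E} (h : Rf ν σ) (p : ℝ) {v : E → ℝ} {L : ℝ≥0}
    (hv : LipschitzWith L v) : En p (pol ν σ v) = En p v := by
  have hs : ∀ {w : E → ℝ}, LipschitzWith L w → LipschitzWith L fun y => w (σ y) := fun hw =>
    LipschitzWith.of_dist_le_mul fun x y => σ.dist_map x y ▸ hw.dist_le_mul _ _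
  have : En p (pol ν σ v) + En p (fun y => pol ν σ v (σ y)) = En p v + En p fun y => v (σ y) := by
    unfold En
    rw [← lintegral_add_left (mE p _), ← lintegral_add_left (mE p _)]
    refine lintegral_congr_ae ?_
    filter_upwards [hv.ae_differentiableAt, (hs hv).ae_differentiableAt,
      (h.lip hv).ae_differentiableAt, (hs (h.lip hv)).ae_differentiableAt,
      (hv.max (hs hv)).ae_differentiableAt, (hv.min (hs hv)).ae_differentiableAt] with x a b c d M m
    have k : ∀ f g : E → ℝ, DifferentiableAt ℝ f x → DifferentiableAt ℝ g x →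
        (∀ y, (f y = max (v y) (v (σ y)) ∧ g y = min (v y) (v (σ y))) ∨
          (f y = min (v y) (v (σ y)) ∧ g y = max (v y) (v (σ y)))) →
        ‖fderiv ℝ f x‖ₑ ^ p + ‖fderiv ℝ g x‖ₑ ^ p = ‖fderiv ℝ (fun y => max (v y) (v (σ y))) x‖ₑ ^ p
          + ‖fderiv ℝ (fun y => min (v y) (v (σ y))) x‖ₑ ^ p := by
      intro f g hf hg H
      have b1 : ∀ y, f y ≤ max (v y) (v (σ y)) ∧ g y ≤ max (v y) (v (σ y)) ∧
          min (v y) (v (σ y)) ≤ f y ∧ min (v y) (v (σ y)) ≤ g y := fun y => by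
        rcases H y with ⟨e1, e2⟩ | ⟨e1, e2⟩ <;> rw [e1, e2] <;> simp only [min_le_max, le_rfl, and_self]
      rcases H x with ⟨e1, e2⟩ | ⟨e1, e2⟩
      · rw [touch hf M (fun y => (b1 y).1) e1, touch m hg (fun y => (b1 y).2.2.2) e2.symm]
      · rw [touch hg M (fun y => (b1 y).2.1) e2, touch m hf (fun y => (b1 y).2.2.1) e1.symm, add_comm]
    rw [k _ _ c d fun y => (h.cases v y).imp And.right And.right, k _ _ a b fun y => by
      rcases le_total (v y) (v (σ y)) with t | t <;> simp [t]]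
  rw [En_iso, En_iso, ← two_mul, ← two_mul] at this
  exact (ENNReal.mul_right_inj two_ne_zero ENNReal.ofNat_ne_top).1 this

structure K (L : ℝ≥0) (R a d p : ℝ) (e0 : ℝ≥0∞) (v : E → ℝ) : Prop where
  lip : LipschitzWith L v
  pos : ∀ y, 0 ≤ v y
  supp : ∀ y, R ≤ ‖y‖ → v y = 0
  val : v 0 = a
  zero : ∀ r, d ≤ r → ∃ z, ‖z‖ = r ∧ v z = 0
  en : En p v ≤ e0

variable {L : ℝ≥0} {R a d p : ℝ} {e0 : ℝ≥0∞}

theorem K.pol {v : E → ℝ} (hv : K L R a d p e0 v) {ν : E} {σ : E ≃ₗᵢ[ℝ] E} (h : Rf ν σ) :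
    K L R a d p e0 (pol ν σ v) := by
  refine ⟨h.lip hv.lip, fun y => ?_, fun y hy => ?_, by simp [HM.pol, hv.val], fun r hr => ?_,
    (h.en p hv.lip).trans_le hv.en⟩
  · rcases h.cases v y with ⟨-, b, -⟩ | ⟨-, b, -⟩ <;> simp [b, hv.pos]
  · rcases h.cases v y with ⟨-, b, -⟩ | ⟨-, b, -⟩ <;>
      simp [b, hv.supp y hy, hv.supp (σ y) (by rwa [σ.norm_map])]
  · obtain ⟨z, h1, h2⟩ := hv.zero r hr
    rcases h.cases v z with ⟨-, -, b⟩ | ⟨-, b, -⟩
    · exact ⟨σ z, by rw [σ.norm_map, h1], by simp [b, h2, hv.pos]⟩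
    · exact ⟨z, h1, by simp [b, h2, hv.pos]⟩

theorem K.cs {v : E → ℝ} (hv : K L R a d p e0 v) : HasCompactSupport v :=
  HasCompactSupport.intro (isCompact_closedBall 0 R) fun y hy =>
    hv.supp y (not_le.1 (mt mem_closedBall_zero_iff.2 hy)).le

theorem K.int {v : E → ℝ} (hv : K L R a d p e0 v) {w : E → ℝ} (hw : Continuous w) :
    Integrable fun y => v y * w y :=
  (hv.lip.continuous.mul hw).integrable_of_hasCompactSupport hv.cs.mul_right

theorem K.bdd (e : E) (he : ‖e‖ = 1) (hR : 0 < R) :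
    ∃ B, ∀ v : E → ℝ, K L R a d p e0 v → ∫ y, v y * ⟪e, y⟫ ≤ B := by
  refine ⟨∫ y, (closedBall (0 : E) R).indicator (fun _ => (a + L * R) * R) y, fun v hv => ?_⟩
  refine integral_mono (hv.int (by fun_prop)) ((integrable_indicator_iff measurableSet_closedBall).2
    (integrableOn_const measure_closedBall_lt_top.ne)) fun y => ?_
  by_cases hy : y ∈ closedBall (0 : E) R
  · rw [indicator_of_mem hy]
    rw [mem_closedBall_zero_iff] at hy
    have h1 := hv.lip.dist_le_mul y 0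
    rw [dist_zero_right, hv.val, Real.dist_eq] at h1
    have h2 : v y ≤ a + L * R := by
      linarith [le_abs_self (v y - a), mul_le_mul_of_nonneg_left hy L.coe_nonneg]
    have h3 := real_inner_le_norm e y
    rw [he, one_mul] at h3
    exact (mul_le_mul_of_nonneg_left (h3.trans hy) (hv.pos y)).trans
      (mul_le_mul_of_nonneg_right h2 hR.le)
  · simp [indicator_of_notMem hy, hv.supp y (not_le.1 (mt mem_closedBall_zero_iff.2 hy)).le]

theorem K.gain {v : E → ℝ} (hv : K L R a d p e0 v) {ν e : E} {σ : E ≃ₗᵢ[ℝ] E} (h : Rf ν σ)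
    (hc : 0 ≤ ⟪e, ν⟫) {z : E} {ρ c : ℝ}
    (hb : ∀ y ∈ ball z ρ, c ≤ (HM.pol ν σ v y - v y) * (⟪ν, y⟫ * ⟪e, ν⟫)) :
    (∫ y, v y * ⟪e, y⟫) + volume.real (ball (0 : E) ρ) * c ≤ ∫ y, HM.pol ν σ v y * ⟪e, y⟫ := by
  have hw := hv.pol h
  have i1 := hv.int (w := fun y => ⟪e, y⟫) (by fun_prop)
  have i2 := hw.int (w := fun y => ⟪e, y⟫) (by fun_prop)
  have i3 := hv.int (w := fun y => ⟪e, σ y⟫) (by fun_prop)
  have i4 := hw.int (w := fun y => ⟪e, σ y⟫) (by fun_prop)
  have e1 : ∫ y, (HM.pol ν σ v y * ⟪e, y⟫ - v y * ⟪e, y⟫)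
      = -∫ y, (HM.pol ν σ v y * ⟪e, σ y⟫ - v y * ⟪e, σ y⟫) := by
    rw [← σ.measurePreserving.integral_comp σ.toHomeomorph.measurableEmbedding, ← integral_neg]
    refine integral_congr_ae (Eventually.of_forall fun y => ?_)
    have := max_add_min (v y) (v (σ y))
    rcases h.cases v y with ⟨-, b, c⟩ | ⟨-, b, c⟩ <;> simp only [b, c] <;>
      linear_combination ⟪e, σ y⟫ * this
  have i5 : Integrable fun y => (HM.pol ν σ v y - v y) * (⟪ν, y⟫ * ⟪e, ν⟫) := by
    simp only [sub_mul]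
    exact (hw.int (by fun_prop)).sub (hv.int (by fun_prop))
  have e2 : ∫ y, (HM.pol ν σ v y - v y) * (⟪ν, y⟫ * ⟪e, ν⟫)
      = ∫ y, (HM.pol ν σ v y * ⟪e, y⟫ - v y * ⟪e, y⟫) := by
    have : ∫ y, 2 * ((HM.pol ν σ v y - v y) * (⟪ν, y⟫ * ⟪e, ν⟫))
        = ∫ y, ((HM.pol ν σ v y * ⟪e, y⟫ - v y * ⟪e, y⟫)
          - (HM.pol ν σ v y * ⟪e, σ y⟫ - v y * ⟪e, σ y⟫)) := by
      refine integral_congr_ae (Eventually.of_forall fun y => ?_)
      simp only [h.eq y, inner_sub_right, inner_smul_right]; ring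
    have j1 : Integrable fun y => HM.pol ν σ v y * ⟪e, y⟫ - v y * ⟪e, y⟫ := i2.sub i1
    have j2 : Integrable fun y => HM.pol ν σ v y * ⟪e, σ y⟫ - v y * ⟪e, σ y⟫ := i4.sub i3
    rw [integral_const_mul, integral_sub j1 j2] at this
    linarith
  have e3 := (setIntegral_ge_of_const_le measurableSet_ball measure_ball_lt_top.ne hb
    i5.integrableOn).trans (setIntegral_le_integral i5 (Eventually.of_forall fun y => by
      simp only [Pi.zero_apply, ← mul_assoc]
      refine mul_nonneg ?_ hc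
      rcases h.cases v y with ⟨a, b, -⟩ | ⟨a, b, -⟩ <;> rw [b]
      · exact mul_nonneg (sub_nonneg.2 (le_max_left _ _)) a
      · exact mul_nonneg_of_nonpos_of_nonpos (sub_nonpos.2 (min_le_left _ _)) a))
  rw [e2, integral_sub i2 i1, smul_eq_mul, Measure.real, Measure.addHaar_ball_center] at e3
  rw [Measure.real]; linarith

theorem K.ray {e : E} (he : ‖e‖ = 1) (hL : 0 < L) (hR : 0 < R) (hd : 0 < d) {w : E → ℝ}
    (hw : K L R a d p e0 w) {ε : ℝ} (hε : 0 < ε) :
    ∃ v : E → ℝ, K L R a d p e0 v ∧ ∀ r, d ≤ r → v (-(r • e)) ≤ ε := by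
  have L0 : (0 : ℝ) < L := hL
  set ρ := ε / (4 * L) with hρ
  have ρ0 : 0 < ρ := by positivity
  have eρ : ε = 4 * L * ρ := by rw [hρ]; field_simp
  set c := ε / 2 * (ρ * (2 * ρ / R))
  have v0 : 0 < volume.real (ball (0 : E) ρ) * c := mul_pos
    (ENNReal.toReal_pos (measure_ball_pos _ _ ρ0).ne' measure_ball_lt_top.ne) (by positivity)
  obtain ⟨B, hB⟩ := K.bdd (L := L) (a := a) (d := d) (p := p) (e0 := e0) e he hR
  set S := (fun v : E → ℝ => ∫ y, v y * ⟪e, y⟫) '' {v | K L R a d p e0 v}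
  have bS : BddAbove S := ⟨B, by rintro _ ⟨v, hv, rfl⟩; exact hB v hv⟩
  obtain ⟨_, ⟨v, hv, rfl⟩, hs⟩ := exists_lt_of_lt_csSup (s := S) ⟨_, w, hw, rfl⟩ (sub_lt_self _ v0)
  refine ⟨v, hv, fun r hr => not_lt.1 fun hlt => ?_⟩
  have r0 : 0 < r := hd.trans_le hr
  have nr : ‖r • e‖ = r := by rw [norm_smul, he, mul_one, Real.norm_of_nonneg r0.le]
  have rR : r < R := not_le.1 fun t => by
    rw [hv.supp _ (by rwa [norm_neg, nr])] at hlt; linarith
  obtain ⟨z, hz, vz⟩ := hv.zero r hr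
  set t := ‖z + r • e‖ with ht
  have t4 : 4 * ρ ≤ t := by
    have := hv.lip.dist_le_mul z (-(r • e))
    rw [vz, dist_eq_norm z, sub_neg_eq_add, Real.dist_eq, zero_sub, abs_neg, ← ht] at this
    nlinarith [le_abs_self (v (-(r • e)))]
  have t0 : 0 < t := by linarith
  have t2 : t ^ 2 = 2 * r * (r + ⟪z, e⟫) := by
    rw [ht, norm_add_sq_real, nr, hz, inner_smul_right]; ring
  obtain ⟨σ, h⟩ := exists_rf (ν := t⁻¹ • (z + r • e)) (by
    rw [norm_smul, ← ht, norm_inv, Real.norm_of_nonneg t0.le, inv_mul_cancel₀ t0.ne'])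
  have i1 : ⟪t⁻¹ • (z + r • e), z⟫ = t / 2 := by
    rw [real_inner_smul_left, inner_add_left, real_inner_smul_left, real_inner_self_eq_norm_sq, hz,
      real_inner_comm]
    field_simp; linarith
  have i2 : ⟪e, t⁻¹ • (z + r • e)⟫ = t / (2 * r) := by
    rw [inner_smul_right, inner_add_right, inner_smul_right, real_inner_self_eq_norm_sq, he,
      real_inner_comm]
    field_simp; linarith
  have sz : σ z = -(r • e) := by
    rw [h.eq, i1, smul_smul, show 2 * (t / 2) * t⁻¹ = 1 by field_simp]; module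
  have := hv.gain h (e := e) (by rw [i2]; positivity) (z := z) (ρ := ρ) (c := c) fun y hy => by
    rw [mem_ball] at hy
    have a1 := hv.lip.dist_le_mul y z
    have a2 := hv.lip.dist_le_mul (σ z) (σ y)
    rw [σ.dist_map, sz, dist_comm z, Real.dist_eq] at a2
    rw [vz, Real.dist_eq, sub_zero] at a1
    have a3 := mul_le_mul_of_nonneg_left hy.le L0.le
    have a4 := abs_real_inner_le_norm (t⁻¹ • (z + r • e)) (y - z)
    rw [h.n1, one_mul, inner_sub_right, i1, ← dist_eq_norm] at a4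
    have a5 : ρ ≤ ⟪t⁻¹ • (z + r • e), y⟫ := by linarith [(abs_le.1 a4).1]
    have a6 : ε / 2 ≤ HM.pol (t⁻¹ • (z + r • e)) σ v y - v y := by
      rw [HM.pol, if_pos (ρ0.le.trans a5)]
      linarith [le_max_right (v y) (v (σ y)), le_abs_self (v y), le_abs_self (v (-(r • e)) - v (σ y))]
    have a7 : 2 * ρ / R ≤ t / (2 * r) := by
      rw [div_le_div_iff₀ hR (by positivity)]; nlinarith
    rw [i2]
    exact mul_le_mul a6 (mul_le_mul a5 a7 (by positivity) (ρ0.le.trans a5)) (by positivity)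
      (by linarith)
  have := le_csSup bS ⟨_, hv.pol h, rfl⟩
  simp only at this hs
  linarith

end Pool.Agent.H99.HM
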