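import Pool.Agent.H99.HM1

set_option autoImplicit false
set_option linter.unusedSectionVars false

open Filter Topology Set MeasureTheory Metric ContinuousLinearMap
open scoped ENNReal NNReal RealInnerProductSpace Convolution ContDiff

namespace Pool.Agent.H99.HM

variable {E : Type*} [NormedAddCommGroup E] [InnerProductSpace ℝ E] [FiniteDimensional ℝ E]
  [MeasurableSpace E] [BorelSpace E]

theorem jen {α : Type*} [MeasurableSpace α] {μ : Measure α} {ψ a : α → ℝ≥0∞} {p : ℝ} (hp : 1 ≤ p)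
    (hψ : AEMeasurable ψ μ) (ha : AEMeasurable a μ) (h1 : ∫⁻ t, ψ t ∂μ = 1) :
    (∫⁻ t, ψ t * a t ∂μ) ^ p ≤ ∫⁻ t, ψ t * a t ^ p ∂μ := by
  have p0 : 0 < p := by linarith
  have q0 : 0 ≤ 1 - p⁻¹ := sub_nonneg.2 (inv_le_one_of_one_le₀ hp)
  have := ENNReal.lintegral_mul_norm_pow_le (hψ.mul (ha.pow_const p)) hψ (inv_pos.2 p0).le q0
    (by ring)
  rw [h1, ENNReal.one_rpow, mul_one] at this
  rw [← ENNReal.le_rpow_inv_iff p0]
  refine le_trans (le_of_eq (lintegral_congr fun t => ?_)) this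
  rw [Pi.mul_apply, ENNReal.mul_rpow_of_nonneg _ _ (inv_pos.2 p0).le, ENNReal.rpow_rpow_inv p0.ne',
    mul_right_comm, ← ENNReal.rpow_add_of_nonneg _ _ (inv_pos.2 p0).le q0]
  simp

theorem moll {ι : Type*} [Fintype ι] (b : OrthonormalBasis ι ℝ E) {u : E → ℝ} {g : E → E}
    (hu : Continuous u) (cu : HasCompactSupport u) (hg : LocallyIntegrable g)
    (hw : ∀ φ : E → ℝ, ContDiff ℝ ∞ φ → HasCompactSupport φ → ∀ i,
      ∫ x, u x * fderiv ℝ φ x (b i) = -∫ x, ⟪g x, b i⟫ * φ x) {p η : ℝ} (hp : 1 ≤ p) (hη : 0 < η) :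
    ∃ (w : E → ℝ) (L : ℝ≥0), LipschitzWith L w ∧ (∀ x, |w x - u x| ≤ η) ∧
      En p w ≤ ∫⁻ x, ‖g x‖ₑ ^ p := by
  obtain ⟨δ, δ0, hδ⟩ := Metric.uniformContinuous_iff.1 (cu.uniformContinuous_of_continuous hu) η hη
  let φ : ContDiffBump (0 : E) := ⟨δ / 2, δ, half_pos δ0, half_lt_self δ0⟩
  set ψ := φ.normed volume
  have cψ : HasCompactSupport ψ := φ.hasCompactSupport_normed
  have sψ : ContDiff ℝ ∞ ψ := φ.contDiff_normed
  have s1 : ContDiff ℝ 1 ψ := φ.contDiff_normed
  obtain ⟨L, hL⟩ := ContDiff.lipschitzWith_of_hasCompactSupport (cu.convolution (lsmul ℝ ℝ).flip cψ)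
    (cψ.contDiff_convolution_right (lsmul ℝ ℝ).flip (μ := volume) hu.locallyIntegrable sψ) (by simp)
  refine ⟨_, L, hL, fun x => ?_, ?_⟩
  · rw [convolution_flip, ← Real.dist_eq]
    exact φ.dist_normed_convolution_le hu.aestronglyMeasurable fun y hy => (hδ hy).le
  have cx : ∀ x, HasCompactSupport fun t => ψ (x - t) := fun x =>
    cψ.comp_homeomorph (Homeomorph.subLeft x)
  have sx : ∀ x, ContDiff ℝ ∞ fun t => ψ (x - t) := fun x => sψ.comp (by fun_prop)
  have key : ∀ x, ‖fderiv ℝ (u ⋆[(lsmul ℝ ℝ).flip] ψ) x‖ₑ = ‖∫ t, ψ (x - t) • g t‖ₑ := fun x => by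
    have ix : Integrable fun t => ψ (x - t) • g t :=
      hg.integrable_smul_left_of_hasCompactSupport (sx x).continuous (cx x)
    rw [← ofReal_norm, ← ofReal_norm, ← innerSL_apply_norm ℝ (∫ t, ψ (x - t) • g t)]
    congr 2
    refine ContinuousLinearMap.coe_injective (b.toBasis.ext fun i => ?_)
    simp only [ContinuousLinearMap.coe_coe, OrthonormalBasis.coe_toBasis, innerSL_apply_apply]
    rw [(cψ.hasFDerivAt_convolution_right _ hu.locallyIntegrable s1 x).fderiv,
      convolution_precompR_apply _ hu.locallyIntegrable (cψ.fderiv ℝ) (s1.continuous_fderiv (by simp)),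
      convolution_def, real_inner_comm, ← integral_inner ix]
    have := hw _ (sx x) (cx x) i
    have e : ∀ t, fderiv ℝ (fun t => ψ (x - t)) t (b i) = -fderiv ℝ ψ (x - t) (b i) := fun t => by
      have := ((s1.differentiable (by simp)) (x - t)).hasFDerivAt.comp t
        ((hasFDerivAt_id t).const_sub x)
      rw [show (fun t => ψ (x - t)) = ψ ∘ HSub.hSub x from rfl, this.fderiv]; simp
    simp only [e, mul_neg, integral_neg, neg_inj] at this
    simp only [flip_apply, lsmul_apply, smul_eq_mul, inner_smul_right, mul_comm _ (u _), this,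
      real_inner_comm (b i), mul_comm (ψ _)]
  have mψ : Measurable fun q : E × E => ENNReal.ofReal (ψ (q.1 - q.2)) :=
    (sψ.continuous.comp (by fun_prop)).measurable.ennreal_ofReal
  have mg : AEMeasurable fun t => ‖g t‖ₑ := hg.aestronglyMeasurable.enorm
  have one : ∫⁻ t, ENNReal.ofReal (ψ t) = 1 := by
    rw [← ofReal_integral_eq_lintegral_ofReal φ.integrable_normed
      (Eventually.of_forall φ.nonneg_normed), φ.integral_normed, ENNReal.ofReal_one]
  calc En p (u ⋆[(lsmul ℝ ℝ).flip] ψ) ≤ ∫⁻ x, ∫⁻ t, .ofReal (ψ (x - t)) * ‖g t‖ₑ ^ p := by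
        refine lintegral_mono fun x => le_trans ?_ (jen hp
          (sx x).continuous.measurable.ennreal_ofReal.aemeasurable mg
          (by rw [lintegral_sub_left_eq_self (fun t => ENNReal.ofReal (ψ t)), one]))
        rw [key]
        refine ENNReal.rpow_le_rpow ((enorm_integral_le_lintegral_enorm _).trans
          (le_of_eq (lintegral_congr fun t => ?_))) (by linarith)
        rw [enorm_smul, Real.enorm_eq_ofReal (φ.nonneg_normed _)]
    _ = ∫⁻ t, ∫⁻ x, .ofReal (ψ (x - t)) * ‖g t‖ₑ ^ p :=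
        lintegral_lintegral_swap (mψ.aemeasurable.mul (mg.pow_const p).comp_snd)
    _ = _ := lintegral_congr fun t => by
        have m : Measurable fun x => ENNReal.ofReal (ψ (x - t)) := mψ.comp measurable_prodMk_right
        rw [lintegral_mul_const _ m,
          lintegral_sub_right_eq_self (fun t => ENNReal.ofReal (ψ t)), one, one_mul]

theorem cross {X : Type*} [TopologicalSpace X] {s Ω : Set X} (hs : IsPreconnected s) (ho : IsOpen Ω)
    {a b : X} (ha : a ∈ s) (ha' : a ∈ Ω) (hb : b ∈ s) (hb' : b ∉ Ω) : ∃ c ∈ s, c ∈ frontier Ω := by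
  by_contra h
  refine hb' (hs.subset_left_of_subset_union ho isClosed_closure.isOpen_compl
    (disjoint_compl_right.mono_left subset_closure) (fun c hc => ?_) ⟨a, ha, ha'⟩ hb)
  by_contra k
  rw [mem_union, not_or, notMem_compl_iff] at k
  exact h ⟨c, hc, k.2, fun t => k.1 (interior_subset t)⟩

theorem sph {Ω : Set E} (ho : IsOpen Ω) (hb : Bornology.IsBounded Ω) {e : E} (he : ‖e‖ = 1)
    (H : IsPreconnected (frontier Ω) ∨ ∀ a ∈ frontier Ω, ∀ b ∈ frontier Ω, ∀ c ∈ frontier Ω,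
      a = b ∨ a = c ∨ b = c) (hn : Ωᶜ.Nonempty) {x : E} (hx : x ∈ Ω) {r : ℝ}
    (hr : infDist x Ωᶜ ≤ r) : ∃ z, ‖z‖ = r ∧ z + x ∉ Ω := by
  by_contra! h
  have r0 : 0 ≤ r := infDist_nonneg.trans hr
  have nf : ∀ c ∈ frontier Ω, dist c x ≠ r := fun c hc e => by
    have := h (c - x) (by rwa [← dist_eq_norm])
    rw [sub_add_cancel] at this
    exact (ho.inter_frontier_eq.subset ⟨this, hc⟩)
  obtain ⟨y, hy, ey⟩ := ho.isClosed_compl.exists_infDist_eq_dist hn x
  obtain ⟨a, ha, fa⟩ := cross (convex_closedBall x r).isPreconnected ho (mem_closedBall_self r0) hx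
    (show y ∈ closedBall x r by rw [mem_closedBall, dist_comm, ← ey]; exact hr) hy
  obtain ⟨M, hM⟩ := hb.subset_closedBall x
  have ray : ∀ v : E, ‖v‖ = 1 → ∃ t, r ≤ t ∧ t • v + x ∈ frontier Ω ∧ dist (t • v + x) x = t := by
    intro v hv
    have d : ∀ t, r ≤ t → dist (t • v + x) x = t := fun t ht => by
      simp [norm_smul, hv, abs_of_nonneg (r0.trans ht)]
    obtain ⟨_, ⟨t, ht, rfl⟩, hc⟩ := cross ((isPreconnected_Ici (a := r)).image (fun t : ℝ => t • v + x)
      (Continuous.continuousOn (by fun_prop))) ho ⟨r, self_mem_Ici, rfl⟩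
      (h _ (by simpa using d r le_rfl)) ⟨max r (M + 1), mem_Ici.2 (le_max_left _ _), rfl⟩ fun k => by
        have := hM k
        rw [mem_closedBall, d _ (le_max_left _ _)] at this
        linarith [le_max_right r (M + 1)]
    exact ⟨t, ht, hc, d t ht⟩
  obtain ⟨t, t1, t2, t3⟩ := ray e he
  obtain ⟨s, s1, s2, s3⟩ := ray (-e) (by rwa [norm_neg])
  rw [mem_closedBall] at ha
  rcases H with H | H
  · obtain ⟨c, hc, ec⟩ := H.intermediate_value fa t2 (f := fun c => dist c x)
      (Continuous.continuousOn (by fun_prop)) ⟨ha, t1.trans t3.ge⟩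
    exact nf c hc ec
  · rcases H _ fa _ t2 _ s2 with k | k | k
    · exact nf a fa (ha.antisymm (by rw [k, t3]; exact t1))
    · exact nf a fa (ha.antisymm (by rw [k, s3]; exact s1))
    · have : (t + s) • e = 0 := by rw [add_smul, add_right_cancel k]; simp
      have := (smul_eq_zero.1 this).resolve_right (norm_ne_zero_iff.1 (by simp [he]))
      exact nf _ t2 (by linarith)

/-- transfer of a test function on `Ω` to the slit domain -/
theorem transfer {ι : Type*} [Fintype ι] (b : OrthonormalBasis ι ℝ E) {Ω : Set E}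
    (hb : Bornology.IsBounded Ω) {u : E → ℝ} {g : E → E} (hu : Continuous u)
    (h0 : ∀ x ∉ Ω, u x = 0) (hg : LocallyIntegrable g)
    (hw : ∀ φ : E → ℝ, ContDiff ℝ ∞ φ → HasCompactSupport φ → ∀ i,
      ∫ x, u x * fderiv ℝ φ x (b i) = -∫ x, ⟪g x, b i⟫ * φ x) {p ε d : ℝ} (hp : 1 ≤ p) (hε : 0 < ε)
    (hd : 0 < d) {x e : E} (he : ‖e‖ = 1) (hs : ∀ r, d ≤ r → ∃ z, ‖z‖ = r ∧ z + x ∉ Ω) :
    ∃ (V : E → ℝ) (L : ℝ≥0), LipschitzWith L V ∧ (∀ t : ℝ, 0 ≤ t → V (-(t • e)) = 0) ∧
      u x - ε ≤ V (d • e) ∧ En p V ≤ ∫⁻ x, ‖g x‖ₑ ^ p := by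
  have p0 : 0 ≤ p := by linarith
  obtain ⟨w, L, hL, hwu, hE⟩ := moll b hu (HasCompactSupport.intro hb.isCompact_closure
    fun y hy => h0 y fun k => hy (subset_closure k)) hg hw hp (η := ε / 3) (by positivity)
  obtain ⟨R, R0, hR⟩ := hb.subset_ball_lt 0 x
  have l1 : LipschitzWith (L + 1) fun y => w (y + x) := LipschitzWith.weaken
    (LipschitzWith.of_dist_le_mul fun a c => by simpa using hL.dist_le_mul (a + x) (c + x))
    le_self_add
  have z : ∀ y, y + x ∉ Ω → max (w (y + x) - ε / 3) 0 = 0 := fun y hy => by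
    have := hwu (y + x)
    rw [h0 _ hy, sub_zero] at this
    exact max_eq_right (by linarith [le_abs_self (w (y + x))])
  obtain ⟨t1, t2⟩ := En_trunc p0 l1 (ε / 3)
  have k : K (L + 1) R (max (w (0 + x) - ε / 3) 0) d p (∫⁻ x, ‖g x‖ₑ ^ p)
      fun y => max (w (y + x) - ε / 3) 0 :=
    ⟨t1, fun _ => le_max_right _ _, fun y hy => z y fun k => by simpa [hy.not_gt] using hR k, rfl,
      fun r hr => (hs r hr).imp fun y hy => ⟨hy.1, z y hy.2⟩, t2.trans ((En_add p w x).trans_le hE)⟩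
  obtain ⟨v, hv, hr⟩ := k.ray he (by positivity) R0 hd (ε := ε / 3) (by positivity)
  have l2 : LipschitzWith (L + 1) fun y => v (y + -(d • e)) :=
    LipschitzWith.of_dist_le_mul fun a c => by
      simpa using hv.lip.dist_le_mul (a + -(d • e)) (c + -(d • e))
  obtain ⟨s1, s2⟩ := En_trunc p0 l2 (ε / 3)
  refine ⟨_, _, s1, fun t ht => max_eq_right ?_, le_max_of_le_left ?_,
    s2.trans ((En_add p v _).trans_le hv.en)⟩
  · rw [← neg_add, ← add_smul]; linarith [hr (t + d) (by linarith)]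
  · rw [add_neg_cancel, hv.val, zero_add]
    linarith [le_max_left (w x - ε / 3) 0, (abs_le.1 (hwu x)).1]

theorem weak_lip {V : E → ℝ} {L : ℝ≥0} (hV : LipschitzWith L V) {φ : E → ℝ} (hφ : ContDiff ℝ ∞ φ)
    (cφ : HasCompactSupport φ) (v : E) :
    ∫ x, V x * fderiv ℝ φ x v = -∫ x, ⟪gradient V x, v⟫ * φ x := by
  obtain ⟨C, hC⟩ := ContDiff.lipschitzWith_of_hasCompactSupport cφ hφ (by simp)
  have := LipschitzWith.integral_lineDeriv_mul_eq (μ := volume) hV hC cφ v
  simp only [((hφ.differentiable (by simp)) _).lineDeriv_eq_fderiv, map_neg, neg_mul,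
    integral_neg] at this
  rw [eq_neg_iff_add_eq_zero, add_eq_zero_iff_neg_eq]
  simp only [mul_comm (V _), ← this]
  refine integral_congr_ae (hV.ae_differentiableAt.mono fun x hx => ?_)
  simp only [hx.lineDeriv_eq_fderiv, gradient, InnerProductSpace.toDual_symm_apply]

end Pool.Agent.H99.HM
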