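import Mathlib

set_option autoImplicit false

namespace Pool.Agent.H99.Haldane

open MvPolynomial Finset

variable {N : ℕ}

/-- polynomials -/
abbrev Pl (N : ℕ) := MvPolynomial (Fin N) ℂ

/-- the constant one over root two -/
noncomputable def s : ℂ := (((Real.sqrt 2 : ℝ) : ℂ))⁻¹

lemma s_ne : s ≠ 0 := by
  unfold s
  have : Real.sqrt 2 ≠ 0 := by positivity
  exact inv_ne_zero (by exact_mod_cast this)

lemma s_norm : ‖s‖ ^ 2 = 1 / 2 := by
  unfold s
  rw [norm_inv, Complex.norm_real, inv_pow, Real.norm_eq_abs, sq_abs, Real.sq_sqrt (by norm_num)]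
  norm_num

/-- change to centre of mass and relative coordinates -/
noncomputable def sub (i j : Fin N) : Pl N →ₐ[ℂ] Pl N :=
  aeval fun k : Fin N => (if k = i then C s * (X i + X j)
    else if k = j then C s * (X i - X j) else X k : Pl N)

/-- divided coefficients -/
noncomputable def dd (p : Pl N) (a : Fin N →₀ ℕ) : ℂ := coeff a p * ∏ k, ((a k).factorial : ℂ)

lemma fac_ne (a : Fin N →₀ ℕ) : ∏ k, ((a k).factorial : ℂ) ≠ 0 :=
  prod_ne_zero_iff.2 fun k _ => by exact_mod_cast (a k).factorial_ne_zero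

lemma dd_add (p q : Pl N) (a : Fin N →₀ ℕ) : dd (p + q) a = dd p a + dd q a := by
  simp [dd, add_mul]

lemma dd_sub (p q : Pl N) (a : Fin N →₀ ℕ) : dd (p - q) a = dd p a - dd q a := by
  simp [dd, sub_mul]

lemma dd_smul (c : ℂ) (p : Pl N) (a : Fin N →₀ ℕ) : dd (c • p) a = c * dd p a := by
  simp [dd, mul_assoc]

lemma dd_pd (p : Pl N) (k : Fin N) (a : Fin N →₀ ℕ) :
    dd p (a + Finsupp.single k 1) = dd (pderiv k p) a := by
  unfold dd
  rw [coeff_pderiv, mul_assoc]
  congr 1
  rw [← mul_prod_erase _ _ (mem_univ k), ← mul_prod_erase _ (fun l => ((a l).factorial : ℂ))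
    (mem_univ k), ← mul_assoc]
  congr 1
  · simp [Nat.factorial_succ]
  · refine prod_congr rfl fun l hl => ?_
    simp [Finsupp.single_eq_of_ne (ne_of_mem_erase hl)]

lemma hom_der (φ : Pl N →ₐ[ℂ] Pl N) (D E : Derivation ℂ (Pl N) (Pl N))
    (hX : ∀ k, E (φ (X k)) = φ (D (X k))) (h : Pl N) : E (φ h) = φ (D h) := by
  induction h using MvPolynomial.induction_on with
  | C c => simp
  | add p q hp hq => simp only [map_add, hp, hq]
  | mul_X p j hp =>
    simp only [Derivation.leibniz, smul_eq_mul, map_add, map_mul, hp, hX]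

variable {i j : Fin N}

lemma sub_X (k : Fin N) : sub i j (X k) = (if k = i then C s * (X i + X j)
    else if k = j then C s * (X i - X j) else X k : Pl N) := aeval_X _ _

lemma pd_other {k : Fin N} (hi : k ≠ i) (hj : k ≠ j) (p : Pl N) :
    pderiv k (sub i j p) = sub i j (pderiv k p) := by
  apply hom_der
  intro l
  rw [sub_X]
  split_ifs with h1 h2
  · subst h1; simp [pderiv_X_of_ne hi.symm, pderiv_X_of_ne hj.symm]
  · subst h2; simp [pderiv_X_of_ne hi.symm, pderiv_X_of_ne hj.symm]
  · by_cases h : l = k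
    · subst h; simp
    · simp [pderiv_X_of_ne h]

lemma pd_i (hij : i ≠ j) (p : Pl N) :
    pderiv i (sub i j p) = s • sub i j (pderiv i p + pderiv j p) := by
  refine (hom_der (sub i j) (s • (pderiv i + pderiv j)) (pderiv i) ?_ p).trans (by
    rw [Derivation.smul_apply, Derivation.add_apply, map_smul])
  intro l
  rw [sub_X]
  split_ifs with h1 h2
  · subst h1; simp [pderiv_X_of_ne hij, pderiv_X_of_ne hij.symm, smul_eq_C_mul]
  · subst h2; simp [pderiv_X_of_ne hij, pderiv_X_of_ne hij.symm, smul_eq_C_mul]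
  · simp [pderiv_X_of_ne h1, pderiv_X_of_ne h2]

lemma pd_j (hij : i ≠ j) (p : Pl N) :
    pderiv j (sub i j p) = s • sub i j (pderiv i p - pderiv j p) := by
  refine (hom_der (sub i j) (s • (pderiv i - pderiv j)) (pderiv j) ?_ p).trans (by
    rw [Derivation.smul_apply, Derivation.sub_apply, map_smul])
  intro l
  rw [sub_X]
  split_ifs with h1 h2
  · subst h1; simp [pderiv_X_of_ne hij, pderiv_X_of_ne hij.symm, smul_eq_C_mul]
  · subst h2; simp [pderiv_X_of_ne hij, pderiv_X_of_ne hij.symm, smul_eq_C_mul]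
  · simp [pderiv_X_of_ne h1, pderiv_X_of_ne h2]

lemma dd_sub_off (b : Fin N →₀ ℕ) (hi : b i = 0) (hj : b j = 0) (p : Pl N) :
    dd (sub i j p) b = dd p b := by
  induction h : b.degree using Nat.strong_induction_on generalizing b p with
  | _ n ih =>
    by_cases h0 : b = 0
    · subst h0
      unfold dd
      congr 1
      rw [← constantCoeff_eq, sub]
      induction p using MvPolynomial.induction_on with
      | C c => simp
      | add p q hp hq => simp only [map_add, hp, hq]
      | mul_X p l hp =>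
        simp only [map_mul, hp, aeval_X, constantCoeff_X, mul_zero]
        split_ifs <;> simp
    · obtain ⟨k, hk⟩ := Finsupp.ne_iff.1 h0
      simp only [Finsupp.coe_zero, Pi.zero_apply] at hk
      have e := Finsupp.sub_add_single_one_cancel hk
      have hki : k ≠ i := by rintro rfl; exact hk hi
      have hkj : k ≠ j := by rintro rfl; exact hk hj
      rw [← e, dd_pd, dd_pd, pd_other hki hkj]
      refine ih _ ?_ _ (by simp [hi]) (by simp [hj]) _ rfl
      rw [← h, ← congrArg Finsupp.degree e]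
      simp

lemma key (hij : i ≠ j) (b : Fin N →₀ ℕ) (hi : b i = 0) (hj : b j = 0) (n : ℕ) (p : Pl N) :
    dd (sub i j p) (b + Finsupp.single i n) = s ^ n * ∑ x ∈ antidiagonal n,
      (n.choose x.1 : ℂ) * dd p (b + Finsupp.single i x.1 + Finsupp.single j x.2) := by
  induction n generalizing p with
  | zero => simp [dd_sub_off b hi hj]
  | succ n ih =>
    rw [Finsupp.single_add, ← add_assoc, dd_pd, pd_i hij, dd_smul, ih,
      sum_antidiagonal_choose_succ_mul
        (fun x y => dd p (b + Finsupp.single i x + Finsupp.single j y)), pow_succ', mul_assoc,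
      ← sum_add_distrib]
    congr 2
    refine sum_congr rfl fun x hx => ?_
    rw [dd_add, ← dd_pd, ← dd_pd, Nat.choose_symm_of_eq_add (mem_antidiagonal.1 hx).symm,
      Finsupp.single_add, Finsupp.single_add, mul_add, add_comm]
    congr 3 <;> abel

/-- second relative derivative -/
noncomputable def M2 (i j : Fin N) (p : Pl N) : Pl N :=
  pderiv i (pderiv i p - pderiv j p) - pderiv j (pderiv i p - pderiv j p)

lemma key2 (hij : i ≠ j) (g : Fin N →₀ ℕ) (p : Pl N) :
    dd (sub i j p) (g + Finsupp.single j 2) = s ^ 2 * dd (sub i j (M2 i j p)) g := by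
  rw [show (2:ℕ) = 1 + 1 from rfl, Finsupp.single_add, ← add_assoc, dd_pd, dd_pd, pd_j hij,
    Derivation.map_smul, pd_j hij, dd_smul, dd_smul, M2]
  ring

lemma dd_M2 (p : Pl N) (b : Fin N →₀ ℕ) (x y : ℕ) :
    dd (M2 i j p) (b + Finsupp.single i x + Finsupp.single j y)
      = dd p (b + Finsupp.single i (x + 2) + Finsupp.single j y)
        - 2 * dd p (b + Finsupp.single i (x + 1) + Finsupp.single j (y + 1))
        + dd p (b + Finsupp.single i x + Finsupp.single j (y + 2)) := by
  unfold M2
  simp only [map_sub, dd_sub, ← dd_pd]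
  have e1 : b + Finsupp.single i x + Finsupp.single j y + Finsupp.single i 1 + Finsupp.single i 1
      = b + Finsupp.single i (x + 2) + Finsupp.single j y := by
    rw [show x + 2 = x + 1 + 1 from rfl, Finsupp.single_add, Finsupp.single_add]; abel
  have e2 : b + Finsupp.single i x + Finsupp.single j y + Finsupp.single i 1 + Finsupp.single j 1
      = b + Finsupp.single i (x + 1) + Finsupp.single j (y + 1) := by
    rw [Finsupp.single_add, Finsupp.single_add]; abel
  have e3 : b + Finsupp.single i x + Finsupp.single j y + Finsupp.single j 1 + Finsupp.single i 1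
      = b + Finsupp.single i (x + 1) + Finsupp.single j (y + 1) := by
    rw [Finsupp.single_add, Finsupp.single_add]; abel
  have e4 : b + Finsupp.single i x + Finsupp.single j y + Finsupp.single j 1 + Finsupp.single j 1
      = b + Finsupp.single i x + Finsupp.single j (y + 2) := by
    rw [show y + 2 = y + 1 + 1 from rfl, Finsupp.single_add, Finsupp.single_add]; abel
  rw [e1, e2, e3, e4]
  ring

lemma dd_swap {p : Pl N} (hp : ∀ σ : Equiv.Perm (Fin N), rename σ p = p) (b : Fin N →₀ ℕ)
    (hi : b i = 0) (hj : b j = 0) (m : ℕ) :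
    dd p (b + Finsupp.single i m) = dd p (b + Finsupp.single j m) := by
  have e : (b + Finsupp.single i m).mapDomain (Equiv.swap i j) = b + Finsupp.single j m := by
    rw [Finsupp.mapDomain_add, Finsupp.mapDomain_single, Equiv.swap_apply_left]
    congr 1
    conv_rhs => rw [← Finsupp.mapDomain_id (v := b)]
    apply Finsupp.mapDomain_congr
    intro x hx
    rw [Finsupp.mem_support_iff] at hx
    exact Equiv.swap_apply_of_ne_of_ne (by rintro rfl; exact hx hi) (by rintro rfl; exact hx hj)
  unfold dd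
  congr 1
  · rw [← e]
    conv_rhs => rw [← hp (Equiv.swap i j)]
    rw [coeff_rename_mapDomain _ (Equiv.swap i j).injective]
  · rw [← e, ← Equiv.prod_comp (Equiv.swap i j)
      (fun k => (((Finsupp.mapDomain (Equiv.swap i j) (b + Finsupp.single i m)) k).factorial : ℂ))]
    refine prod_congr rfl fun k _ => ?_
    rw [Finsupp.mapDomain_apply (Equiv.swap i j).injective]

lemma relation (hij : i ≠ j) {p : Pl N} (hp : ∀ σ : Equiv.Perm (Fin N), rename σ p = p)
    (hk : ∀ a ∈ (sub i j p).support, a j ≠ 2) (b : Fin N →₀ ℕ) (hi : b i = 0) (hj : b j = 0)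
    (n : ℕ) (D : ℂ) (hD : ∀ x y, x + y = n →
      dd p (b + Finsupp.single i (x + 1) + Finsupp.single j (y + 1)) = D) :
    dd p (b + Finsupp.single i (n + 2)) = D := by
  have h0 : dd (sub i j p) (b + Finsupp.single i n + Finsupp.single j 2) = 0 := by
    unfold dd
    have : coeff (b + Finsupp.single i n + Finsupp.single j 2) (sub i j p) = 0 := by
      by_contra hc
      exact hk _ (mem_support_iff.2 hc) (by simp [hj, Finsupp.single_eq_of_ne hij.symm])
    rw [this, zero_mul]
  rw [key2 hij, key hij b hi hj] at h0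
  have h1 := (mul_eq_zero.1 ((mul_eq_zero.1 h0).resolve_left (pow_ne_zero _ s_ne))).resolve_left
    (pow_ne_zero _ s_ne)
  set z := dd p (b + Finsupp.single i (n + 2)) with hz
  have h2 : ∀ x ∈ antidiagonal n, (n.choose x.1 : ℂ)
      * dd (M2 i j p) (b + Finsupp.single i x.1 + Finsupp.single j x.2)
      = (if x = (n, 0) then z - D else 0) + (if x = (0, n) then z - D else 0) := by
    rintro ⟨x, y⟩ hx
    have hx' : x + y = n := mem_antidiagonal.1 hx
    have a1 : dd p (b + Finsupp.single i (x + 2) + Finsupp.single j y)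
        = D + if (x, y) = (n, 0) then z - D else 0 := by
      rcases y with _ | y
      · obtain rfl : x = n := by omega
        simp [hz]
      · rw [if_neg (by simp), add_zero]
        exact hD (x + 1) y (by omega)
    have a2 : dd p (b + Finsupp.single i x + Finsupp.single j (y + 2))
        = D + if (x, y) = (0, n) then z - D else 0 := by
      rcases x with _ | x
      · obtain rfl : y = n := by omega
        rw [if_pos rfl, Finsupp.single_zero, add_zero, ← dd_swap hp b hi hj, ← hz]
        ring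
      · rw [if_neg (by simp), add_zero]
        exact hD x (y + 1) (by omega)
    rw [dd_M2, a1, a2, hD x y hx']
    split_ifs with c1 c2 c2
    · obtain ⟨rfl, rfl⟩ := Prod.mk.inj c1
      simp; ring
    · obtain ⟨rfl, rfl⟩ := Prod.mk.inj c1
      simp; ring
    · obtain ⟨rfl, rfl⟩ := Prod.mk.inj c2
      simp; ring
    · ring
  rw [sum_congr rfl h2, sum_add_distrib, sum_ite_eq', sum_ite_eq', if_pos (by simp),
    if_pos (by simp)] at h1
  linear_combination h1 / 2

/-- the exponent with all entries one -/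
noncomputable def ones (N : ℕ) : Fin N →₀ ℕ := Finsupp.equivFunOnFinite.symm fun _ => 1

lemma kernel {p : Pl N} (hp : ∀ σ : Equiv.Perm (Fin N), rename σ p = p)
    (hk : ∀ i j : Fin N, i < j → ∀ a ∈ (sub i j p).support, a j ≠ 2) (a : Fin N →₀ ℕ)
    (ha : ∑ k, a k = N) : dd p a = dd p (ones N) := by
  induction h : (univ.filter fun k => a k = 0).card using Nat.strong_induction_on
    generalizing a with
  | _ n ih =>
    by_cases h1 : ∀ k, a k ≤ 1
    · have := (sum_eq_sum_iff_of_le (s := univ) (f := fun k => a k) (g := fun _ => 1)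
        (fun k _ => h1 k)).1 (by simpa using ha)
      congr 1
      ext k
      simpa [ones] using this k (mem_univ k)
    push Not at h1
    obtain ⟨i, hi⟩ := h1
    obtain ⟨j, hj⟩ : ∃ j, a j = 0 := by
      by_contra hc
      push Not at hc
      have := sum_lt_sum (s := univ) (f := fun _ => 1) (g := fun k => a k)
        (fun k _ => Nat.one_le_iff_ne_zero.2 (hc k)) ⟨i, mem_univ i, hi⟩
      simp [ha] at this
    have hij : i ≠ j := by rintro rfl; omega
    obtain ⟨m, hm⟩ : ∃ m, a i = m + 2 := ⟨a i - 2, by omega⟩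
    have e : a = a.erase i + Finsupp.single i (m + 2) := by
      rw [← hm, Finsupp.erase_add_single]
    have bi : a.erase i i = 0 := Finsupp.erase_same
    have bj : a.erase i j = 0 := by rw [Finsupp.erase_ne hij.symm, hj]
    have hD : ∀ x y, x + y = m →
        dd p (a.erase i + Finsupp.single i (x + 1) + Finsupp.single j (y + 1))
          = dd p (ones N) := by
      intro x y hxy
      refine ih _ ?_ _ ?_ rfl
      · rw [← h]
        apply card_lt_card
        refine ⟨fun k hk => ?_, fun hc => ?_⟩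
        · have hk2 := (mem_filter.1 hk).2
          refine mem_filter.2 ⟨mem_univ _, ?_⟩
          rw [Finsupp.add_apply, Finsupp.add_apply] at hk2
          by_cases hki : k = i
          · subst hki; simp at hk2
          · rw [Finsupp.erase_ne hki] at hk2; omega
        · have := hc (mem_filter.2 ⟨mem_univ j, hj⟩)
          simp at this
      · refine Eq.trans ?_ ha
        conv_rhs => rw [e]
        simp only [Finsupp.add_apply, sum_add_distrib, Finsupp.single_apply, sum_ite_eq, mem_univ,
          if_true]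
        omega
    rw [e]
    rcases lt_or_gt_of_ne hij with hlt | hlt
    · exact relation hij hp (hk i j hlt) _ bi bj m _ hD
    · rw [dd_swap hp _ bi bj]
      refine relation hij.symm hp (hk j i hlt) _ bj bi m _ fun x y hxy => ?_
      rw [add_right_comm]
      exact hD y x (by omega)

/-- the trial state -/
noncomputable def psi (N : ℕ) : Pl N :=
  ∑ k, X k ^ N - ((N : ℂ) / N ^ N) • (∑ k, X k) ^ N

lemma psi_symm (σ : Equiv.Perm (Fin N)) : rename σ (psi N) = psi N := by
  unfold psi
  simp only [map_sub, map_sum, map_pow, map_smul, rename_X]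
  rw [Equiv.sum_comp σ (fun k => (X k : Pl N) ^ N), Equiv.sum_comp σ (fun k => (X k : Pl N))]

lemma psi_homog : (psi N).IsHomogeneous N := by
  unfold psi
  refine IsHomogeneous.sub (IsHomogeneous.sum _ _ _ fun k _ => isHomogeneous_X_pow k N) ?_
  rw [smul_eq_C_mul]
  have h1 : (∑ k, X k : Pl N).IsHomogeneous 1 :=
    IsHomogeneous.sum _ _ _ fun k _ => isHomogeneous_X ℂ k
  simpa using (h1.pow N).C_mul ((N : ℂ) / N ^ N)

lemma psi_sum (hN : 0 < N) : ∑ a ∈ (psi N).support, coeff a (psi N) = 0 := by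
  have h := eval_eq (fun _ => (1:ℂ)) (psi N)
  simp only [one_pow, prod_const_one, mul_one] at h
  rw [← h]
  have : (N : ℂ) ≠ 0 := by exact_mod_cast hN.ne'
  simp [psi, this]

lemma orth (hN : 0 < N) {p : Pl N} (hp : ∀ σ : Equiv.Perm (Fin N), rename σ p = p)
    (hk : ∀ i j : Fin N, i < j → ∀ a ∈ (sub i j p).support, a j ≠ 2) :
    p.support.sum (fun a => (starRingEnd ℂ) (coeff a p) * coeff a (psi N) *
      ∏ k : Fin N, ((Nat.factorial (a k) : ℕ) : ℂ)) = 0 := by
  have e1 : ∀ a, (starRingEnd ℂ) (coeff a p) * coeff a (psi N) *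
      ∏ k : Fin N, ((Nat.factorial (a k) : ℕ) : ℂ) = (starRingEnd ℂ) (dd p a) * coeff a (psi N) := by
    intro a
    simp only [dd, map_mul, map_prod, map_natCast]
    ring
  simp only [e1]
  rw [sum_subset (subset_union_left (s₂ := (psi N).support)) (fun a _ ha => by
      simp [dd, notMem_support_iff.1 ha]),
    ← sum_subset (subset_union_right (s₁ := p.support)) (fun a _ ha => by
      simp [notMem_support_iff.1 ha])]
  rw [sum_congr rfl (g := fun a => (starRingEnd ℂ) (dd p (ones N)) * coeff a (psi N)),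
    ← mul_sum, psi_sum hN, mul_zero]
  intro a ha
  rw [kernel hp hk a]
  have := psi_homog (mem_support_iff.1 ha)
  simpa [Finsupp.weight_apply, Finsupp.sum_fintype] using this

lemma pd_sum (k : Fin N) : pderiv k (∑ l, X l : Pl N) = 1 := by
  rw [map_sum, sum_eq_single k (fun l _ hl => pderiv_X_of_ne hl) (by simp), pderiv_X_self]

lemma dd_pow (i : Fin N) (n : ℕ) :
    dd ((∑ k, X k : Pl N) ^ n) (Finsupp.single i n) = n.factorial := by
  induction n with
  | zero => simp [dd]
  | succ n ih =>
    rw [Finsupp.single_add, dd_pd, pderiv_pow, pd_sum, mul_one, Nat.add_sub_cancel,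
      show ((n + 1 : ℕ) : Pl N) * (∑ k, X k) ^ n = ((n + 1 : ℕ) : ℂ) • (∑ k, X k) ^ n by
        rw [smul_eq_C_mul, map_natCast], dd_smul, ih, Nat.factorial_succ]
    push_cast
    ring

lemma fac_single (i : Fin N) (n : ℕ) :
    ∏ k, ((Finsupp.single i n k).factorial) = n.factorial := by
  rw [prod_eq_single i (fun k _ hk => by simp [Finsupp.single_eq_of_ne hk]) (by simp)]
  simp

lemma dd_X_pow (k : Fin N) (n : ℕ) (a : Fin N →₀ ℕ) :
    dd (X k ^ n : Pl N) a = if Finsupp.single k n = a then (n.factorial : ℂ) else 0 := by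
  unfold dd
  rw [coeff_X_pow]
  split_ifs with h
  · subst h
    rw [one_mul]
    exact_mod_cast fac_single k n
  · simp

lemma coeff_psi (hN : 0 < N) (i : Fin N) :
    coeff (Finsupp.single i N) (psi N) = 1 - (N : ℂ) / N ^ N := by
  have h1 : coeff (Finsupp.single i N) ((∑ k, X k : Pl N) ^ N) = 1 := by
    have h := dd_pow i N
    unfold dd at h
    have h2 : ∏ k, (((Finsupp.single i N k).factorial : ℕ) : ℂ) = N.factorial := by
      exact_mod_cast fac_single i N
    rw [h2] at h
    have h3 : (N.factorial : ℂ) ≠ 0 := by exact_mod_cast N.factorial_ne_zero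
    exact mul_right_cancel₀ h3 (by rw [h, one_mul])
  unfold psi
  rw [coeff_sub, coeff_smul, h1, coeff_sum, sum_eq_single i]
  · simp [coeff_X_pow]
  · intro k _ hk
    rw [coeff_X_pow, if_neg]
    rw [Finsupp.single_left_inj hN.ne']
    exact hk
  · simp

lemma M2_psi {n : ℕ} {i j : Fin (n + 2)} (hij : i ≠ j) :
    M2 i j (psi (n + 2)) = (((n + 2) * (n + 1) : ℕ) : ℂ) • (X i ^ n + X j ^ n) := by
  have h1 : ∀ k : Fin (n + 2), pderiv k (∑ l, X l ^ (n + 2) : Pl (n + 2))
      = ((n + 2 : ℕ) : Pl (n + 2)) * X k ^ (n + 1) := by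
    intro k
    rw [map_sum, sum_eq_single k (fun l _ hl => by rw [pderiv_pow, pderiv_X_of_ne hl, mul_zero])
      (by simp), pderiv_pow, pderiv_X_self, mul_one]
    rfl
  have h2 : pderiv i (psi (n + 2)) - pderiv j (psi (n + 2))
      = ((n + 2 : ℕ) : Pl (n + 2)) * (X i ^ (n + 1) - X j ^ (n + 1)) := by
    simp only [psi, map_sub, Derivation.map_smul, h1, pderiv_pow, pd_sum]
    ring
  unfold M2
  rw [h2, smul_eq_C_mul, map_natCast]
  simp only [Derivation.leibniz, Derivation.map_natCast, map_sub, pderiv_pow, pderiv_X_self,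
    pderiv_X_of_ne hij, pderiv_X_of_ne hij.symm, smul_eq_mul, Nat.add_sub_cancel]
  push_cast
  ring

lemma dd_energy {n : ℕ} {i j : Fin (n + 2)} (hij : i ≠ j) (a : Fin (n + 2) →₀ ℕ) (ha : a j = 2) :
    dd (sub i j (psi (n + 2))) a = if a = Finsupp.single i n + Finsupp.single j 2 then
      s ^ (n + 2) * (((n + 2) * (n + 1) : ℕ) * (2 * n.factorial)) else 0 := by
  obtain ⟨b, m, bi, bj, rfl⟩ : ∃ (b : Fin (n + 2) →₀ ℕ) (m : ℕ), b i = 0 ∧ b j = 0 ∧
      a = b + Finsupp.single i m + Finsupp.single j 2 := by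
    refine ⟨(a.erase j).erase i, a.erase j i, Finsupp.erase_same, ?_, ?_⟩
    · rw [Finsupp.erase_ne hij.symm, Finsupp.erase_same]
    · have := Finsupp.erase_add_single j a
      rw [ha] at this
      rw [Finsupp.erase_add_single, this]
  rw [key2 hij, key hij b bi bj, M2_psi hij]
  have c1 : ∀ x y : ℕ, Finsupp.single i n = b + Finsupp.single i x + Finsupp.single j y
      ↔ (b = 0 ∧ x = n ∧ y = 0) := by
    intro x y
    constructor
    · intro h
      have a1 := DFunLike.congr_fun h i
      have a2 := DFunLike.congr_fun h j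
      simp [bi, bj, Finsupp.single_eq_of_ne hij, Finsupp.single_eq_of_ne hij.symm] at a1 a2
      subst a1 a2
      simpa using h
    · rintro ⟨rfl, rfl, rfl⟩; simp
  have c2 : ∀ x y : ℕ, Finsupp.single j n = b + Finsupp.single i x + Finsupp.single j y
      ↔ (b = 0 ∧ x = 0 ∧ y = n) := by
    intro x y
    constructor
    · intro h
      have a1 := DFunLike.congr_fun h i
      have a2 := DFunLike.congr_fun h j
      simp [bi, bj, Finsupp.single_eq_of_ne hij, Finsupp.single_eq_of_ne hij.symm] at a1 a2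
      subst a1 a2
      simpa using h
    · rintro ⟨rfl, rfl, rfl⟩; simp
  have c3 : b + Finsupp.single i m + Finsupp.single j 2 = Finsupp.single i n + Finsupp.single j 2
      ↔ (b = 0 ∧ m = n) := by
    rw [add_left_inj, eq_comm]
    simpa using c1 m 0
  simp only [dd_smul, dd_add, dd_X_pow, c1, c2, c3]
  split_ifs with h
  · obtain ⟨rfl, rfl⟩ := h
    have : ∀ x ∈ antidiagonal m, (m.choose x.1 : ℂ) * ((((m + 2) * (m + 1) : ℕ) : ℂ) *
        ((if (0 : Fin (m + 2) →₀ ℕ) = 0 ∧ x.1 = m ∧ x.2 = 0 then (m.factorial : ℂ) else 0)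
          + if (0 : Fin (m + 2) →₀ ℕ) = 0 ∧ x.1 = 0 ∧ x.2 = m then (m.factorial : ℂ) else 0))
        = (if x = (m, 0) then (((m + 2) * (m + 1) : ℕ) : ℂ) * m.factorial else 0)
          + if x = (0, m) then (((m + 2) * (m + 1) : ℕ) : ℂ) * m.factorial else 0 := by
      rintro ⟨x, y⟩ _
      simp only [true_and, Prod.mk.injEq]
      split_ifs with d1 d2 d2
      · obtain ⟨rfl, rfl⟩ := d1; simp; ring
      · obtain ⟨rfl, rfl⟩ := d1; simp
      · obtain ⟨rfl, rfl⟩ := d2; simp
      · simp
    rw [sum_congr rfl this, sum_add_distrib, sum_ite_eq', sum_ite_eq', if_pos (by simp),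
      if_pos (by simp)]
    ring
  · rw [sum_eq_zero, mul_zero, mul_zero]
    rintro ⟨x, y⟩ hx
    have hx' : x + y = m := mem_antidiagonal.1 hx
    rw [if_neg, if_neg]
    · simp
    · rintro ⟨d1, d2, d3⟩
      exact h ⟨d1, by simp only at d2 d3; omega⟩
    · rintro ⟨d1, d2, d3⟩
      exact h ⟨d1, by simp only at d2 d3; omega⟩

lemma energy {n : ℕ} {i j : Fin (n + 2)} (hij : i ≠ j) :
    (filter (fun a => a j = 2) (sub i j (psi (n + 2))).support).sum
      (fun a => ‖coeff a (sub i j (psi (n + 2)))‖ ^ 2 *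
        ∏ k : Fin (n + 2), ((Nat.factorial (a k) : ℕ) : ℝ))
      ≤ 2 * (n + 2) ^ 2 / 2 ^ (n + 2) * (n + 2).factorial := by
  set a0 := Finsupp.single i n + Finsupp.single j 2 with ha0
  have hsub : filter (fun a => a j = 2) (sub i j (psi (n + 2))).support ⊆ {a0} := by
    intro a ha
    obtain ⟨h1, h2⟩ := mem_filter.1 ha
    rw [mem_singleton]
    by_contra hc
    have := dd_energy hij a h2
    rw [if_neg hc] at this
    exact mul_ne_zero (mem_support_iff.1 h1) (fac_ne a) this
  refine (sum_le_sum_of_subset_of_nonneg hsub fun a _ _ => by positivity).trans ?_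
  rw [sum_singleton]
  have h1 := dd_energy hij a0 (by simp [ha0, Finsupp.single_eq_of_ne hij.symm])
  rw [if_pos rfl] at h1
  have h2 : ∏ k, (a0 k).factorial = n.factorial * 2 := by
    rw [← mul_prod_erase _ _ (mem_univ i), prod_eq_single j]
    · simp [ha0, Finsupp.single_eq_of_ne hij, Finsupp.single_eq_of_ne hij.symm]
    · intro k hk hkj
      simp [ha0, Finsupp.single_eq_of_ne hkj, Finsupp.single_eq_of_ne (ne_of_mem_erase hk)]
    · intro h
      exact absurd (mem_erase.2 ⟨hij.symm, mem_univ j⟩) h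
  have h3 : ∏ k, ((a0 k).factorial : ℂ) = n.factorial * 2 := by exact_mod_cast h2
  have h4 : ∏ k, ((a0 k).factorial : ℝ) = n.factorial * 2 := by exact_mod_cast h2
  unfold dd at h1
  rw [h3] at h1
  have h5 : (n.factorial : ℂ) * 2 ≠ 0 := by rw [← h3]; exact fac_ne a0
  have h6 : coeff a0 (sub i j (psi (n + 2))) = s ^ (n + 2) * ((n + 2) * (n + 1) : ℕ) := by
    apply mul_right_cancel₀ h5
    rw [h1]; ring
  rw [h4, h6, norm_mul, norm_pow, Complex.norm_natCast, mul_pow, ← pow_mul, mul_comm (n + 2) 2,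
    pow_mul, s_norm, Nat.factorial_succ, Nat.factorial_succ, one_div_pow]
  push_cast
  have h7 : (0:ℝ) < n.factorial := by exact_mod_cast n.factorial_pos
  have h8 : (0:ℝ) ≤ n := by positivity
  calc 1 / 2 ^ (n + 2) * (((n:ℝ) + 2) * (n + 1)) ^ 2 * (n.factorial * 2)
      = 2 * ((n + 2) * (n + 1)) / 2 ^ (n + 2) * ((n + 1 + 1) * ((n + 1) * n.factorial)) := by
        ring
    _ ≤ _ := by gcongr; nlinarith

lemma norm_lower {n : ℕ} : (1 / 4 : ℝ) * (n + 2).factorial ≤ (psi (n + 2)).support.sum
    (fun a => ‖coeff a (psi (n + 2))‖ ^ 2 * ∏ k : Fin (n + 2), ((Nat.factorial (a k) : ℕ) : ℝ)) := by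
  have h1 := coeff_psi (N := n + 2) (by omega) 0
  have h2 : (1 / 2 : ℝ) ≤ ‖coeff (Finsupp.single 0 (n + 2)) (psi (n + 2))‖ := by
    rw [h1]
    have a1 := norm_sub_norm_le (1 : ℂ) (((n + 2 : ℕ) : ℂ) / (n + 2 : ℕ) ^ (n + 2))
    rw [norm_one, norm_div, norm_pow, Complex.norm_natCast] at a1
    have a2 : ((n + 2 : ℕ) : ℝ) / ((n + 2 : ℕ) : ℝ) ^ (n + 2) ≤ 1 / 2 := by
      have b1 : (2:ℝ) ≤ ((n + 2 : ℕ) : ℝ) := by exact_mod_cast (by omega : 2 ≤ n + 2)
      have b2 : (1:ℝ) ≤ ((n + 2 : ℕ) : ℝ) ^ n := one_le_pow₀ (by linarith)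
      rw [div_le_div_iff₀ (by positivity) (by norm_num), pow_add]
      nlinarith
    linarith
  have h3 : Finsupp.single 0 (n + 2) ∈ (psi (n + 2)).support := by
    rw [mem_support_iff]
    intro h
    rw [h] at h2
    norm_num at h2
  refine le_trans ?_ (single_le_sum (f := fun a => ‖coeff a (psi (n + 2))‖ ^ 2 *
    ∏ k : Fin (n + 2), ((Nat.factorial (a k) : ℕ) : ℝ)) (fun a _ => by positivity) h3)
  have h4 : ∏ k : Fin (n + 2), (((Finsupp.single (0 : Fin (n + 2)) (n + 2) k).factorial : ℕ) : ℝ)
      = (n + 2).factorial := by exact_mod_cast fac_single (0 : Fin (n + 2)) (n + 2)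
  simp only [h4]
  apply mul_le_mul_of_nonneg_right _ (by positivity)
  nlinarith

end Pool.Agent.H99.Haldane
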