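import Mathlib

set_option autoImplicit false

open Complex Filter Topology Metric

namespace Pool.Agent.H99.Heat

/-- closeness to one, in multiplicative form -/
def P (b : ℂ) (s : ℝ) : Prop := ‖b - 1‖ ≤ Real.exp s - 1

lemma P.mono {b : ℂ} {s t : ℝ} (h : P b s) (hst : s ≤ t) : P b t := by
  unfold P at *
  have := Real.exp_le_exp.2 hst
  linarith

lemma P.one : P 1 0 := by simp [P]

lemma P.mul {a b : ℂ} {s t : ℝ} (ha : P a s) (hb : P b t) : P (a * b) (s + t) := by
  unfold P at *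
  have e : a * b - 1 = (a - 1) * (b - 1) + (a - 1) + (b - 1) := by ring
  have h1 : ‖a * b - 1‖ ≤ ‖a - 1‖ * ‖b - 1‖ + ‖a - 1‖ + ‖b - 1‖ := by
    rw [e]
    refine (norm_add_le _ _).trans ?_
    have := norm_add_le ((a - 1) * (b - 1)) (a - 1)
    rw [norm_mul] at this
    linarith
  have h2 : ‖a - 1‖ * ‖b - 1‖ ≤ (Real.exp s - 1) * (Real.exp t - 1) :=
    mul_le_mul ha hb (norm_nonneg _) ((norm_nonneg _).trans ha)
  rw [Real.exp_add]
  nlinarith

lemma P.pow {a : ℂ} {s : ℝ} (ha : P a s) (n : ℕ) : P (a ^ n) (n * s) := by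
  induction n with
  | zero => simpa using P.one
  | succ n ih =>
    have := ih.mul ha
    rw [pow_succ]
    convert this using 1
    push_cast; ring

lemma P.prod {ι : Type*} (S : Finset ι) {a : ι → ℂ} {s : ι → ℝ} (h : ∀ i ∈ S, P (a i) (s i)) :
    P (∏ i ∈ S, a i) (∑ i ∈ S, s i) := by
  classical
  induction S using Finset.induction_on with
  | empty => simpa using P.one
  | insert i S hi ih =>
    rw [Finset.prod_insert hi, Finset.sum_insert hi]
    exact (h i (Finset.mem_insert_self _ _)).mul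
      (ih fun j hj => h j (Finset.mem_insert_of_mem hj))

lemma P.norm_le {a : ℂ} {s : ℝ} (ha : P a s) : ‖a‖ ≤ Real.exp s := by
  unfold P at ha
  have : ‖a‖ ≤ ‖a - 1‖ + ‖(1:ℂ)‖ := by
    have := norm_add_le (a - 1) 1
    simpa using this
  rw [norm_one] at this
  linarith

lemma norm_cos_le (w : ℂ) : ‖cos w‖ ≤ Real.exp ‖w‖ := by
  have h : cos w = (exp (w * I) + exp (-w * I)) / 2 := rfl
  have h1 : ‖exp (w * I)‖ ≤ Real.exp ‖w‖ := by
    have := Complex.norm_exp_le_exp_norm (w * I)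
    simpa using this
  have h2 : ‖exp (-w * I)‖ ≤ Real.exp ‖w‖ := by
    have := Complex.norm_exp_le_exp_norm (-w * I)
    simpa using this
  rw [h, norm_div]
  have := norm_add_le (exp (w * I)) (exp (-w * I))
  have h3 : ‖(2:ℂ)‖ = 2 := by simp
  rw [h3]
  linarith

lemma P_cos (w : ℂ) : P (cos w) (2 * ‖w‖ ^ 2) := by
  unfold P
  have hn := norm_nonneg w
  rcases le_total ‖w‖ 1 with h | h
  · have h1 := Complex.cos_bound h
    have e : cos w - 1 = (cos w - (1 - w ^ 2 / 2)) + (-(w ^ 2 / 2)) := by ring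
    have h2 : ‖cos w - 1‖ ≤ ‖w‖ ^ 4 * (5 / 96) + ‖w‖ ^ 2 / 2 := by
      rw [e]
      refine (norm_add_le _ _).trans ?_
      have : ‖-(w ^ 2 / 2)‖ = ‖w‖ ^ 2 / 2 := by simp
      linarith
    have h3 := Real.add_one_le_exp (2 * ‖w‖ ^ 2)
    have h4 : ‖w‖ ^ 2 ≤ 1 := by nlinarith
    have h5 : ‖w‖ ^ 4 ≤ ‖w‖ ^ 2 := by nlinarith [sq_nonneg ‖w‖]
    nlinarith [sq_nonneg ‖w‖]
  · have h1 : ‖cos w - 1‖ ≤ Real.exp ‖w‖ + 1 := by
      have := norm_sub_le (cos w) 1
      rw [norm_one] at this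
      linarith [norm_cos_le w]
    have h2 : Real.exp ‖w‖ * Real.exp ‖w‖ ≤ Real.exp (2 * ‖w‖ ^ 2) := by
      rw [← Real.exp_add]
      apply Real.exp_le_exp.2
      nlinarith
    have h3 := Real.add_one_le_exp ‖w‖
    nlinarith

/-- the scales -/
def R (A : ℕ) : ℕ → ℕ
  | 0 => A
  | j + 1 => A * 2 ^ (j + 1) * R A j ^ 2

lemma R_pos {A : ℕ} (hA : 1 ≤ A) (j : ℕ) : 1 ≤ R A j := by
  induction j with
  | zero => exact hA
  | succ j ih =>
    simp only [R]
    exact Nat.one_le_iff_ne_zero.2 (by positivity)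

lemma R_ge {A : ℕ} (hA : 1 ≤ A) (j : ℕ) : A * 2 ^ j ≤ R A j := by
  cases j with
  | zero => simp [R]
  | succ j =>
    simp only [R]
    exact Nat.le_mul_of_pos_right _ (pow_pos (R_pos hA j) 2)

lemma R_dvd_succ (A j : ℕ) : R A j ∣ R A (j + 1) := by
  simp only [R]
  exact Dvd.dvd.mul_left (dvd_pow_self _ two_ne_zero) _

lemma R_dvd (A : ℕ) {j m : ℕ} (h : j ≤ m) : R A j ∣ R A m := by
  induction h with
  | refl => exact dvd_rfl
  | step _ ih => exact ih.trans (R_dvd_succ A _)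

lemma R_mono {A : ℕ} (hA : 1 ≤ A) {j m : ℕ} (h : j ≤ m) : R A j ≤ R A m :=
  Nat.le_of_dvd (R_pos hA m) (R_dvd A h)

lemma R_big {A : ℕ} (hA : 1 ≤ A) {j m : ℕ} (h : m < j) : A * 2 ^ j * R A m ^ 2 ≤ R A j := by
  obtain ⟨i, rfl⟩ : ∃ i, j = i + 1 := ⟨j - 1, by omega⟩
  simp only [R]
  exact Nat.mul_le_mul_left _ (Nat.pow_le_pow_left (R_mono hA (by omega)) 2)

/-- the factors -/
noncomputable def fac (A j : ℕ) (z : ℂ) : ℂ := cos (z / R A j) ^ R A j

lemma P_fac {A : ℕ} (hA : 1 ≤ A) (j : ℕ) (z : ℂ) : P (fac A j z) (2 * ‖z‖ ^ 2 / R A j) := by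
  have h := (P_cos (z / R A j)).pow (R A j)
  have hR : (0:ℝ) < R A j := by exact_mod_cast R_pos hA j
  unfold fac
  convert h using 1
  rw [norm_div, Complex.norm_natCast]
  field_simp

lemma inv_R_le {A : ℕ} (hA : 1 ≤ A) (j : ℕ) : (1:ℝ) / R A j ≤ (1 / A) * (1 / 2) ^ j := by
  have h : ((A * 2 ^ j : ℕ) : ℝ) ≤ R A j := by exact_mod_cast R_ge hA j
  have hA' : (0:ℝ) < A := by exact_mod_cast hA
  push_cast at h
  calc (1:ℝ) / R A j ≤ 1 / (A * 2 ^ j) := one_div_le_one_div_of_le (by positivity) h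
    _ = (1 / A) * (1 / 2) ^ j := by rw [one_div_pow]; field_simp

lemma P_fac' {A : ℕ} (hA : 1 ≤ A) (j : ℕ) (z : ℂ) :
    P (fac A j z) (2 * ‖z‖ ^ 2 * (1 / 2) ^ j) := by
  refine (P_fac hA j z).mono ?_
  have h := inv_R_le hA j
  have hA' : (1:ℝ) ≤ A := by exact_mod_cast hA
  have h2 : (1:ℝ) / A ≤ 1 := by rw [div_le_one (by linarith)]; exact hA'
  have h3 : (1:ℝ) / R A j ≤ (1 / 2) ^ j :=
    h.trans (mul_le_of_le_one_left (by positivity) h2)
  rw [div_eq_mul_one_div]
  exact mul_le_mul_of_nonneg_left h3 (by positivity)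

lemma exp_sub_one_le (s : ℝ) : Real.exp s - 1 ≤ s * Real.exp s := by
  have h := Real.add_one_le_exp (-s)
  have h2 : Real.exp (-s) * Real.exp s = 1 := by rw [← Real.exp_add]; simp
  nlinarith [Real.exp_pos s]

lemma fac_bound {A : ℕ} (hA : 1 ≤ A) (K : ℝ) (j : ℕ) (z : ℂ) (hz : ‖z‖ ≤ K) :
    ‖fac A j z - 1‖ ≤ (2 * K ^ 2 * Real.exp (2 * K ^ 2)) * (1 / 2) ^ j := by
  have hn := norm_nonneg z
  have hK : ‖z‖ ^ 2 ≤ K ^ 2 := by nlinarith
  have h : P (fac A j z) (2 * K ^ 2 * (1 / 2) ^ j) :=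
    (P_fac' hA j z).mono (by gcongr)
  unfold P at h
  refine h.trans ((exp_sub_one_le _).trans ?_)
  have h1 : ((1:ℝ) / 2) ^ j ≤ 1 := pow_le_one₀ (by norm_num) (by norm_num)
  have h2 : Real.exp (2 * K ^ 2 * (1 / 2) ^ j) ≤ Real.exp (2 * K ^ 2) :=
    Real.exp_le_exp.2 (mul_le_of_le_one_right (by positivity) h1)
  calc 2 * K ^ 2 * (1 / 2) ^ j * Real.exp (2 * K ^ 2 * (1 / 2) ^ j)
      ≤ 2 * K ^ 2 * (1 / 2) ^ j * Real.exp (2 * K ^ 2) := by gcongr
    _ = _ := by ring

lemma fac_diff (A j : ℕ) : Differentiable ℂ (fac A j) := by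
  unfold fac
  fun_prop

/-- the infinite product -/
noncomputable def H (A : ℕ) (z : ℂ) : ℂ := ∏' j, fac A j z

lemma summable_fac {A : ℕ} (hA : 1 ≤ A) (z : ℂ) : Summable fun j => ‖fac A j z - 1‖ :=
  Summable.of_nonneg_of_le (fun _ => norm_nonneg _) (fun j => fac_bound hA ‖z‖ j z le_rfl)
    (summable_geometric_two.mul_left _)

lemma multipliable_fac {A : ℕ} (hA : 1 ≤ A) (z : ℂ) : Multipliable fun j => fac A j z := by
  have := multipliable_one_add_of_summable (summable_fac hA z)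
  simpa using this

lemma H_tendsto {A : ℕ} (hA : 1 ≤ A) (z : ℂ) :
    Tendsto (fun N => ∏ j ∈ Finset.range N, fac A j z) atTop (𝓝 (H A z)) :=
  (multipliable_fac hA z).hasProd.tendsto_prod_nat

lemma H_ne_zero {A : ℕ} (hA : 1 ≤ A) (z : ℂ) (hz : z.im ≠ 0) : H A z ≠ 0 := by
  have h := tprod_one_add_ne_zero_of_summable (f := fun j => fac A j z - 1) ?_ (summable_fac hA z)
  · simpa [H] using h
  · intro j
    simp only [add_sub_cancel, fac]
    apply pow_ne_zero
    intro h0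
    rw [Complex.cos_eq_zero_iff] at h0
    obtain ⟨k, hk⟩ := h0
    have hR : (R A j : ℂ) ≠ 0 := by
      have := R_pos hA j
      exact_mod_cast (by omega : R A j ≠ 0)
    rw [div_eq_iff hR] at hk
    apply hz
    rw [hk]
    simp

lemma H_diff {A : ℕ} (hA : 1 ≤ A) : Differentiable ℂ (H A) := by
  intro z
  have hK : (0:ℝ) < ‖z‖ + 1 := by positivity
  have h := Summable.hasProdLocallyUniformlyOn_nat_one_add (f := fun j z => fac A j z - 1)
    (K := ball (0:ℂ) (‖z‖ + 1)) isOpen_ball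
    (summable_geometric_two.mul_left (2 * (‖z‖ + 1) ^ 2 * Real.exp (2 * (‖z‖ + 1) ^ 2)))
    (Eventually.of_forall fun j x hx => fac_bound hA _ j x (by
      rw [mem_ball_zero_iff] at hx; exact hx.le))
    (fun j => ((fac_diff A j).continuous.sub continuous_const).continuousOn)
  have h2 := h.tendstoLocallyUniformlyOn_finsetRange.differentiableOn
    (Eventually.of_forall fun N => by
      apply Differentiable.differentiableOn
      simp only [add_sub_cancel]
      exact Differentiable.fun_finsetProd fun j _ => fac_diff A j) isOpen_ball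
  simp only [add_sub_cancel] at h2
  exact h2.differentiableAt (isOpen_ball.mem_nhds (by simp))

lemma H_even (A : ℕ) (z : ℂ) : H A (-z) = H A z := by
  unfold H fac
  simp [neg_div]

lemma H_real {A : ℕ} (hA : 1 ≤ A) (x : ℝ) : (H A x).im = 0 := by
  have h := (Complex.continuous_im.tendsto _).comp (H_tendsto hA (x:ℂ))
  have h2 : (Complex.im ∘ fun N => ∏ j ∈ Finset.range N, fac A j (x:ℂ)) = fun _ => 0 := by
    funext N
    have : ∏ j ∈ Finset.range N, fac A j (x:ℂ)
        = ((∏ j ∈ Finset.range N, Real.cos (x / R A j) ^ R A j : ℝ) : ℂ) := by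
      push_cast
      rfl
    simp only [Function.comp, this, Complex.ofReal_im]
  rw [h2] at h
  exact tendsto_nhds_unique h tendsto_const_nhds

lemma geom_sum_le (N : ℕ) : ∑ j ∈ Finset.range N, ((1:ℝ) / 2) ^ j ≤ 2 := sum_geometric_two_le N

lemma H_shift {A : ℕ} (hA : 1 ≤ A) (m : ℕ) (u : ℂ) :
    P (H A (u + 2 * Real.pi * R A m)) ((8 * ‖u‖ ^ 2 + 512) / A) := by
  have hA' : (0:ℝ) < A := by exact_mod_cast hA
  have key : ∀ j, P (fac A j (u + 2 * Real.pi * R A m))
      ((4 * ‖u‖ ^ 2 + 256) / A * (1 / 2) ^ j) := by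
    intro j
    have hRj : (0:ℝ) < R A j := by exact_mod_cast R_pos hA j
    have hinv := inv_R_le hA j
    rcases le_or_gt j m with h | h
    · obtain ⟨c, hc⟩ := R_dvd A h
      have e : fac A j (u + 2 * Real.pi * R A m) = fac A j u := by
        unfold fac
        congr 1
        have hR : (R A j : ℂ) ≠ 0 := by exact_mod_cast hRj.ne'
        have : (u + 2 * Real.pi * R A m) / (R A j : ℂ) = u / R A j + (c:ℕ) * (2 * Real.pi) := by
          rw [hc]; push_cast; field_simp
        rw [this, Complex.cos_add_nat_mul_two_pi]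
      rw [e]
      refine (P_fac hA j u).mono ?_
      calc 2 * ‖u‖ ^ 2 / R A j = 2 * ‖u‖ ^ 2 * (1 / R A j) := by ring
        _ ≤ (4 * ‖u‖ ^ 2 + 256) * ((1 / A) * (1 / 2) ^ j) := by
          gcongr
          nlinarith [sq_nonneg ‖u‖]
        _ = _ := by ring
    · refine (P_fac hA j _).mono ?_
      have hb : ((A * 2 ^ j * R A m ^ 2 : ℕ) : ℝ) ≤ R A j := by exact_mod_cast R_big hA h
      push_cast at hb
      have hRm : (0:ℝ) < R A m := by exact_mod_cast R_pos hA m
      have h1 : ‖u + 2 * Real.pi * R A m‖ ≤ ‖u‖ + 8 * R A m := by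
        refine (norm_add_le _ _).trans ?_
        have : ‖(2 * Real.pi * R A m : ℂ)‖ = 2 * Real.pi * R A m := by
          simp [abs_of_pos Real.pi_pos]
        rw [this]
        nlinarith [Real.pi_le_four]
      have h2 : ‖u + 2 * Real.pi * R A m‖ ^ 2 ≤ 2 * ‖u‖ ^ 2 + 128 * (R A m : ℝ) ^ 2 := by
        have := pow_le_pow_left₀ (norm_nonneg _) h1 2
        nlinarith [sq_nonneg (‖u‖ - 8 * R A m)]
      have h3 : (R A m : ℝ) ^ 2 / R A j ≤ (1 / A) * (1 / 2) ^ j := by
        rw [div_le_iff₀ hRj, one_div_pow]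
        calc (R A m : ℝ) ^ 2 = 1 / A * (1 / 2 ^ j) * (A * 2 ^ j * R A m ^ 2) := by field_simp
          _ ≤ _ := by gcongr
      calc 2 * ‖u + 2 * Real.pi * R A m‖ ^ 2 / R A j
          ≤ 2 * (2 * ‖u‖ ^ 2 + 128 * (R A m : ℝ) ^ 2) / R A j := by gcongr
        _ = 4 * ‖u‖ ^ 2 * (1 / R A j) + 256 * ((R A m : ℝ) ^ 2 / R A j) := by ring
        _ ≤ 4 * ‖u‖ ^ 2 * ((1 / A) * (1 / 2) ^ j) + 256 * ((1 / A) * (1 / 2) ^ j) := by gcongr
        _ = _ := by ring
  have hN : ∀ N, P (∏ j ∈ Finset.range N, fac A j (u + 2 * Real.pi * R A m))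
      ((8 * ‖u‖ ^ 2 + 512) / A) := by
    intro N
    refine (P.prod _ fun j _ => key j).mono ?_
    rw [← Finset.mul_sum]
    calc (4 * ‖u‖ ^ 2 + 256) / A * ∑ j ∈ Finset.range N, ((1:ℝ) / 2) ^ j
        ≤ (4 * ‖u‖ ^ 2 + 256) / A * 2 := by gcongr; exact geom_sum_le N
      _ = _ := by ring
  have ht := ((H_tendsto hA (u + 2 * Real.pi * R A m)).sub_const 1).norm
  exact le_of_tendsto' ht hN

lemma H_upper {A : ℕ} (hA : 1 ≤ A) (N : ℕ) (z : ℂ) (hz : ‖z‖ ≤ 2 ^ N) :
    ‖H A z‖ ≤ Real.exp ((N + 4) * ‖z‖) := by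
  have ht := (H_tendsto hA z).norm
  refine le_of_tendsto ht ?_
  filter_upwards [eventually_ge_atTop N] with M hM
  obtain ⟨L, rfl⟩ := Nat.exists_eq_add_of_le hM
  rw [Finset.prod_range_add, norm_mul]
  have h1 : ‖∏ j ∈ Finset.range N, fac A j z‖ ≤ Real.exp (N * ‖z‖) := by
    rw [norm_prod]
    calc ∏ j ∈ Finset.range N, ‖fac A j z‖ ≤ ∏ j ∈ Finset.range N, Real.exp ‖z‖ := by
          apply Finset.prod_le_prod (fun _ _ => norm_nonneg _)
          intro j _
          have hRj : (0:ℝ) < R A j := by exact_mod_cast R_pos hA j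
          unfold fac
          rw [norm_pow]
          calc ‖cos (z / R A j)‖ ^ R A j ≤ Real.exp ‖z / R A j‖ ^ R A j :=
                pow_le_pow_left₀ (norm_nonneg _) (norm_cos_le _) _
            _ = Real.exp ‖z‖ := by
              rw [← Real.exp_nat_mul, norm_div, Complex.norm_natCast]
              congr 1
              field_simp
      _ = Real.exp (N * ‖z‖) := by
          rw [Finset.prod_const, Finset.card_range, Real.exp_nat_mul]
  have h2 : ‖∏ j ∈ Finset.range L, fac A (N + j) z‖ ≤ Real.exp (4 * ‖z‖) := by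
    apply P.norm_le
    refine (P.prod _ fun j _ => P_fac' hA (N + j) z).mono ?_
    have e : ∀ j, 2 * ‖z‖ ^ 2 * ((1:ℝ) / 2) ^ (N + j)
        = (2 * ‖z‖ * (‖z‖ / 2 ^ N)) * (1 / 2) ^ j := by
      intro j
      rw [pow_add, one_div_pow (2:ℝ) N]
      ring
    simp only [e]
    rw [← Finset.mul_sum]
    have h3 : ‖z‖ / 2 ^ N ≤ 1 := by rw [div_le_one (by positivity)]; exact hz
    calc 2 * ‖z‖ * (‖z‖ / 2 ^ N) * ∑ j ∈ Finset.range L, ((1:ℝ) / 2) ^ j
        ≤ 2 * ‖z‖ * 1 * 2 := by gcongr; exact geom_sum_le L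
      _ = _ := by ring
  calc _ ≤ Real.exp (N * ‖z‖) * Real.exp (4 * ‖z‖) := by gcongr
    _ = _ := by rw [← Real.exp_add]; congr 1; ring

lemma H_lower {A : ℕ} (hA : 1 ≤ A) (m : ℕ) (r : ℝ) (hr : 2 * R A m ≤ r) :
    Real.exp (m * (r / 2)) ≤ ‖H A (r * I)‖ := by
  have ht := (H_tendsto hA (r * I)).norm
  refine ge_of_tendsto ht ?_
  filter_upwards [eventually_ge_atTop m] with M hM
  obtain ⟨L, rfl⟩ := Nat.exists_eq_add_of_le hM
  have e : ∀ j, ‖fac A j (r * I)‖ = Real.cosh (r / R A j) ^ R A j := by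
    intro j
    unfold fac
    have : (r * I : ℂ) / R A j = ((r / R A j : ℝ) : ℂ) * I := by push_cast; ring
    rw [this, Complex.cos_mul_I, norm_pow, ← Complex.ofReal_cosh, Complex.norm_real,
      Real.norm_eq_abs, abs_of_pos (Real.cosh_pos _)]
  rw [norm_prod, Finset.prod_range_add]
  have h1 : Real.exp (m * (r / 2)) ≤ ∏ j ∈ Finset.range m, ‖fac A j (r * I)‖ := by
    calc Real.exp (m * (r / 2)) = ∏ j ∈ Finset.range m, Real.exp (r / 2) := by
          rw [Finset.prod_const, Finset.card_range, Real.exp_nat_mul]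
      _ ≤ _ := by
        apply Finset.prod_le_prod (fun _ _ => (Real.exp_pos _).le)
        intro j hj
        have hRj : (0:ℝ) < R A j := by exact_mod_cast R_pos hA j
        have hjm : (R A j : ℝ) ≤ R A m := by
          exact_mod_cast R_mono hA (Finset.mem_range.1 hj).le
        rw [e]
        have h2 : 2 ≤ r / R A j := by rw [le_div_iff₀ hRj]; linarith
        have h3 : Real.exp (r / R A j / 2) ≤ Real.cosh (r / R A j) := by
          rw [Real.cosh_eq]
          have h4 : Real.exp (r / R A j) = Real.exp (r / R A j / 2) * Real.exp (r / R A j / 2) := by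
            rw [← Real.exp_add]; congr 1; ring
          have h5 := Real.add_one_le_exp (r / R A j / 2)
          have h6 := Real.exp_pos (-(r / R A j))
          nlinarith [Real.exp_pos (r / R A j / 2)]
        calc Real.exp (r / 2) = Real.exp (r / R A j / 2) ^ R A j := by
              rw [← Real.exp_nat_mul]; congr 1; field_simp
          _ ≤ _ := pow_le_pow_left₀ (Real.exp_pos _).le h3 _
  have h2 : 1 ≤ ∏ j ∈ Finset.range L, ‖fac A (m + j) (r * I)‖ := by
    calc (1:ℝ) = ∏ j ∈ Finset.range L, (1:ℝ) := by simp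
      _ ≤ _ := by
        apply Finset.prod_le_prod (fun _ _ => zero_le_one)
        intro j _
        rw [e]
        exact one_le_pow₀ (Real.one_le_cosh _)
  calc Real.exp (m * (r / 2)) = Real.exp (m * (r / 2)) * 1 := by ring
    _ ≤ _ := mul_le_mul h1 h2 zero_le_one ((Real.exp_pos _).le.trans h1)

/-- the coefficient of the backward heat series at time 1/100 -/
noncomputable def co (k : ℕ) : ℂ := (-(((1 / 100 : ℝ)) : ℂ)) ^ k / ((Nat.factorial k : ℕ) : ℂ)

lemma heat_term {E : ℂ → ℂ} (hE : Differentiable ℂ E) {δ : ℝ} (hδ : 0 ≤ δ)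
    (hb : ∀ u, ‖E u‖ ≤ δ * Real.exp (‖u‖ ^ 2)) (ρ : ℝ) (w : ℂ) (hw : ‖w‖ ≤ ρ) (k : ℕ) :
    ‖co k * iteratedDeriv (2 * k) E w‖ ≤ (δ * Real.exp (2 * ρ ^ 2 + 2)) * (1 / 2) ^ k := by
  have hr : (0:ℝ) < Real.sqrt (k + 1) := Real.sqrt_pos.2 (by positivity)
  have hsq : Real.sqrt (k + 1) ^ 2 = k + 1 := Real.sq_sqrt (by positivity)
  have hc := Complex.norm_iteratedDeriv_le_of_forall_mem_sphere_norm_le (c := w)
    (C := δ * Real.exp (2 * ρ ^ 2 + 2 * (k + 1))) (2 * k) hr hE.diffContOnCl (by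
      intro z hz
      refine (hb z).trans ?_
      rw [mem_sphere_iff_norm] at hz
      have h1 : ‖z‖ ≤ ρ + Real.sqrt (k + 1) := by
        have := norm_add_le (z - w) w
        simp only [sub_add_cancel] at this
        linarith
      have h2 := pow_le_pow_left₀ (norm_nonneg _) h1 2
      have h3 : ‖z‖ ^ 2 ≤ 2 * ρ ^ 2 + 2 * (k + 1) := by
        nlinarith [sq_nonneg (ρ - Real.sqrt (k + 1))]
      gcongr)
  rw [pow_mul, hsq] at hc
  have hco : ‖co k‖ = (1 / 100) ^ k / (k.factorial : ℝ) := by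
    unfold co
    rw [norm_div, norm_pow, norm_neg, Complex.norm_real, Complex.norm_natCast]
    norm_num
  have hf : ((2 * k).factorial : ℝ) ≤ k.factorial * (2 * (k + 1)) ^ k := by
    have h1 : (2 * k).factorial = k.factorial * (k + 1).ascFactorial k := by
      rw [Nat.factorial_mul_ascFactorial, two_mul]
    have h2 : (k + 1).ascFactorial k ≤ (2 * (k + 1)) ^ k :=
      (Nat.ascFactorial_le_pow_add k k).trans (Nat.pow_le_pow_left (by omega) k)
    rw [h1]
    exact_mod_cast Nat.mul_le_mul_left _ h2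
  have hk : (0:ℝ) < k.factorial := by exact_mod_cast k.factorial_pos
  have he : Real.exp 2 ≤ 8 := by
    have h1 := Real.exp_one_lt_d9
    have h2 : Real.exp 2 = Real.exp 1 * Real.exp 1 := by rw [← Real.exp_add]; norm_num
    nlinarith [Real.exp_pos 1]
  have hexp : Real.exp (2 * ρ ^ 2 + 2 * (k + 1)) = Real.exp (2 * ρ ^ 2 + 2) * Real.exp 2 ^ k := by
    rw [← Real.exp_nat_mul, ← Real.exp_add]; congr 1; ring
  rw [norm_mul, hco]
  calc (1 / 100) ^ k / (k.factorial : ℝ) * ‖iteratedDeriv (2 * k) E w‖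
      ≤ (1 / 100) ^ k / (k.factorial : ℝ) * ((k.factorial * (2 * (k + 1)) ^ k)
          * (δ * (Real.exp (2 * ρ ^ 2 + 2) * 8 ^ k)) / (k + 1) ^ k) := by
        gcongr
        refine hc.trans ?_
        rw [hexp]
        gcongr
    _ = (δ * Real.exp (2 * ρ ^ 2 + 2)) * ((1 / 100) * 2 * 8) ^ k := by
        rw [mul_pow, mul_pow, mul_pow]
        field_simp
    _ ≤ _ := by gcongr; norm_num

lemma iter_diff {E : ℂ → ℂ} (hE : Differentiable ℂ E) (n : ℕ) :
    Differentiable ℂ (iteratedDeriv n E) :=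
  hE.contDiff.differentiable_iteratedDeriv n (n := ⊤) (by exact_mod_cast WithTop.coe_lt_top _)

lemma heat_cos (w : ℂ) : HasSum (fun k => co k * iteratedDeriv (2 * k) (fun u => 2 + cos u) w)
    (2 + exp (1 / 100) * cos w) := by
  have h1 : HasSum (fun k : ℕ => ((1 / 100 : ℂ) ^ k / k.factorial) * cos w)
      (exp (1 / 100) * cos w) := by
    apply HasSum.mul_right
    rw [Complex.exp_eq_exp_ℂ]
    exact NormedSpace.expSeries_div_hasSum_exp (1 / 100 : ℂ)
  have h2 : HasSum (fun k : ℕ => if k = 0 then (2:ℂ) else 0) 2 := hasSum_ite_eq 0 2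
  convert h2.add h1 using 1
  funext k
  rcases Nat.eq_zero_or_pos k with rfl | hk
  · simp [co]
  · rw [if_neg hk.ne', iteratedDeriv_const_add (by omega)]
    have := congrFun (Complex.iteratedDeriv_even_cos k) w
    rw [this]
    unfold co
    simp only [Pi.mul_apply, Pi.pow_apply, Pi.neg_apply, Pi.one_apply]
    rw [neg_pow]
    have h3 : ((-1:ℂ) ^ k) * (-1) ^ k = 1 := by rw [← mul_pow]; simp
    push_cast
    linear_combination ((1 / 100 : ℂ) ^ k / k.factorial * cos w) * h3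

lemma exists_zero_phi : ∃ w : ℂ, ‖w‖ ≤ 6 ∧ 0 < w.im ∧ 2 + exp (1 / 100) * cos w = 0 := by
  have he1 : Real.exp (1 / 100) < 2 := by
    have h1 : Real.exp (1 / 100) ≤ 1 / (1 - 1 / 100) :=
      Real.exp_bound_div_one_sub_of_interval (by norm_num) (by norm_num)
    linarith [show (1:ℝ) / (1 - 1 / 100) < 2 by norm_num]
  have he2 : 1 ≤ Real.exp (1 / 100) := Real.one_le_exp (by norm_num)
  have hc : ContinuousOn (fun y : ℝ => Real.exp (1 / 100) * Real.cosh y) (Set.Icc 0 2) := by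
    fun_prop
  have hmem : (2:ℝ) ∈ Set.Icc (Real.exp (1 / 100) * Real.cosh 0) (Real.exp (1 / 100) * Real.cosh 2) := by
    constructor
    · simp only [Real.cosh_zero, mul_one]; exact he1.le
    · have h1 : 2 ≤ Real.cosh 2 := by
        rw [Real.cosh_eq]
        have h2 : Real.exp 2 = Real.exp 1 * Real.exp 1 := by rw [← Real.exp_add]; norm_num
        have h3 := Real.add_one_le_exp 1
        have h4 := Real.exp_pos (-2)
        nlinarith
      nlinarith
  obtain ⟨y, hy, hy2⟩ := intermediate_value_Icc (by norm_num) hc hmem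
  have hy0 : y ≠ 0 := by
    rintro rfl
    simp only [Real.cosh_zero, mul_one] at hy2
    linarith
  refine ⟨Real.pi + y * I, ?_, ?_, ?_⟩
  · refine (norm_add_le _ _).trans ?_
    simp only [Complex.norm_real, Real.norm_eq_abs, norm_mul, Complex.norm_I, mul_one,
      abs_of_pos Real.pi_pos, abs_of_nonneg hy.1]
    linarith [Real.pi_le_four, hy.2]
  · simp only [add_im, ofReal_im, mul_im, ofReal_re, I_im, mul_one, I_re, mul_zero, add_zero,
      zero_add]
    exact lt_of_le_of_ne hy.1 (Ne.symm hy0)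
  · rw [add_comm (Real.pi : ℂ), Complex.cos_add_pi, Complex.cos_mul_I]
    have h := congrArg (fun x : ℝ => (x : ℂ)) hy2
    simp only at h
    push_cast at h
    linear_combination -h

/-- persistence of a non-real zero under small perturbations -/
lemma persist : ∃ η : ℝ, 0 < η ∧ ∀ T : ℂ → ℂ, DifferentiableOn ℂ T (ball 0 8) →
    (∀ w ∈ ball (0:ℂ) 8, ‖T w‖ ≤ η) →
    ∃ w : ℂ, ‖w‖ ≤ 7 ∧ w.im ≠ 0 ∧ 2 + exp (1 / 100) * cos w + T w = 0 := by
  obtain ⟨w0, hw0, him, hz⟩ := exists_zero_phi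
  set φ : ℂ → ℂ := fun w => 2 + exp (1 / 100) * cos w with hφ
  have hφd : Differentiable ℂ φ := by rw [hφ]; fun_prop
  have hne : ∀ᶠ z in 𝓝[≠] w0, φ z ≠ 0 := by
    rcases (hφd.analyticAt w0).eventually_eq_zero_or_eventually_ne_zero with h | h
    · exfalso
      have h1 := (hφd.differentiableOn.analyticOnNhd isOpen_univ).eqOn_zero_of_preconnected_of_eventuallyEq_zero
        isPreconnected_univ (Set.mem_univ w0) h (Set.mem_univ ((Real.pi : ℂ) / 2))
      simp [hφ] at h1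
    · exact h
  rw [eventually_nhdsWithin_iff, Metric.eventually_nhds_iff] at hne
  obtain ⟨ε, hε, hne⟩ := hne
  set r := min (ε / 2) (min (w0.im / 2) (1 / 2)) with hr
  have hr0 : 0 < r := by positivity
  have hr1 : r < ε := (min_le_left _ _).trans_lt (by linarith)
  have hr2 : r < w0.im := ((min_le_right _ _).trans (min_le_left _ _)).trans_lt (by linarith)
  have hr3 : r ≤ 1 / 2 := (min_le_right _ _).trans (min_le_right _ _)
  obtain ⟨z1, hz1, hmin⟩ := (isCompact_sphere w0 r).exists_isMinOn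
    (NormedSpace.sphere_nonempty.2 hr0.le) (hφd.continuous.norm.continuousOn)
  have hz1' : φ z1 ≠ 0 := by
    apply hne
    · rw [mem_sphere] at hz1; linarith
    · rintro rfl
      simp at hz1
      linarith
  have hpos : 0 < ‖φ z1‖ := norm_pos_iff.2 hz1'
  refine ⟨‖φ z1‖ / 3, by positivity, fun T hT hTb => ?_⟩
  have hsub : closedBall w0 r ⊆ ball (0:ℂ) 8 := by
    intro z hz
    rw [mem_closedBall_iff_norm] at hz
    rw [mem_ball_zero_iff]
    have := norm_add_le (z - w0) w0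
    simp only [sub_add_cancel] at this
    linarith
  by_contra hcon
  push Not at hcon
  have hnz : ∀ z ∈ closedBall w0 r, φ z + T z ≠ 0 := by
    intro z hz
    have hz' := hz
    rw [mem_closedBall_iff_norm] at hz
    apply hcon
    · have := norm_add_le (z - w0) w0
      simp only [sub_add_cancel] at this
      linarith
    · have h1 := (Complex.abs_im_le_norm (z - w0)).trans hz
      rw [abs_le, sub_im] at h1
      intro h0
      linarith [h1.1]
  have hG : DifferentiableOn ℂ (fun z => (φ z + T z)⁻¹) (closedBall w0 r) :=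
    ((hφd.differentiableOn.add (hT.mono hsub))).inv hnz
  have hG2 : DiffContOnCl ℂ (fun z => (φ z + T z)⁻¹) (ball w0 r) := by
    apply DifferentiableOn.diffContOnCl
    rwa [closure_ball _ hr0.ne']
  have hmax := Complex.norm_le_of_forall_mem_frontier_norm_le isBounded_ball hG2
    (C := (2 * ‖φ z1‖ / 3)⁻¹) (z := w0) (by
      intro z hz
      rw [frontier_ball _ hr0.ne'] at hz
      rw [norm_inv]
      apply inv_anti₀ (by positivity)
      have h1 : ‖φ z1‖ ≤ ‖φ z‖ := hmin hz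
      have h2 := hTb z (hsub (sphere_subset_closedBall hz))
      have h3 := norm_sub_le (φ z + T z) (T z)
      simp only [add_sub_cancel_right] at h3
      linarith) (subset_closure (mem_ball_self hr0))
  have hw0' := hnz w0 (mem_closedBall_self hr0.le)
  have hφ0 : φ w0 = 0 := hz
  rw [norm_inv, inv_le_inv₀ (norm_pos_iff.2 hw0') (by positivity), hφ0, zero_add] at hmax
  have := hTb w0 (hsub (mem_closedBall_self hr0.le))
  linarith

/-- the counterexample -/
noncomputable def f (A : ℕ) (z : ℂ) : ℂ := (2 + cos z) * H A z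

lemma f_diff {A : ℕ} (hA : 1 ≤ A) : Differentiable ℂ (f A) := by
  have := H_diff hA
  unfold f
  fun_prop

lemma err_bound {A : ℕ} (hA : 512 ≤ A) (m : ℕ) (u : ℂ) :
    ‖f A (u + 2 * Real.pi * R A m) - (2 + cos u)‖
      ≤ (3 * 512 * Real.exp 3 / A) * Real.exp (‖u‖ ^ 2) := by
  have hA1 : 1 ≤ A := by omega
  have hA' : (512:ℝ) ≤ A := by exact_mod_cast hA
  have h := H_shift hA1 m u
  unfold P at h
  have e : f A (u + 2 * Real.pi * R A m) - (2 + cos u)
      = (2 + cos u) * (H A (u + 2 * Real.pi * R A m) - 1) := by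
    unfold f
    rw [show u + 2 * Real.pi * R A m = u + (R A m : ℕ) * (2 * Real.pi) by ring,
      Complex.cos_add_nat_mul_two_pi]
    ring
  rw [e, norm_mul]
  set t := ‖u‖ with ht
  have ht0 : 0 ≤ t := norm_nonneg u
  have h1 : ‖2 + cos u‖ ≤ 3 * Real.exp t := by
    have := norm_add_le 2 (cos u)
    have h2 : ‖(2:ℂ)‖ = 2 := by simp
    have h3 := norm_cos_le u
    have h4 : 1 ≤ Real.exp t := Real.one_le_exp ht0
    linarith
  have h2 : (8 * t ^ 2 + 512) / A ≤ t ^ 2 / 64 + 1 := by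
    rw [div_le_iff₀ (by linarith)]
    nlinarith [sq_nonneg t]
  have h3 : (8 * t ^ 2 + 512) / A ≤ 512 / A * Real.exp (t ^ 2 / 64) := by
    have := Real.add_one_le_exp (t ^ 2 / 64)
    rw [div_mul_eq_mul_div]
    gcongr
    linarith
  have h4 : ‖H A (u + 2 * Real.pi * R A m) - 1‖
      ≤ 512 / A * Real.exp (t ^ 2 / 64) * Real.exp (t ^ 2 / 64 + 1) := by
    refine h.trans ((exp_sub_one_le _).trans ?_)
    gcongr
  have h5 : Real.exp t * (Real.exp (t ^ 2 / 64) * Real.exp (t ^ 2 / 64 + 1))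
      ≤ Real.exp 3 * Real.exp (t ^ 2) := by
    rw [← Real.exp_add, ← Real.exp_add, ← Real.exp_add]
    apply Real.exp_le_exp.2
    nlinarith [sq_nonneg (t - 1)]
  calc ‖2 + cos u‖ * ‖H A (u + 2 * Real.pi * R A m) - 1‖
      ≤ (3 * Real.exp t) * (512 / A * Real.exp (t ^ 2 / 64) * Real.exp (t ^ 2 / 64 + 1)) := by
        gcongr
    _ = (3 * 512 / A) * (Real.exp t * (Real.exp (t ^ 2 / 64) * Real.exp (t ^ 2 / 64 + 1))) := by
        ring
    _ ≤ (3 * 512 / A) * (Real.exp 3 * Real.exp (t ^ 2)) := by gcongr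
    _ = _ := by ring

lemma zeros : ∃ A : ℕ, 512 ≤ A ∧ ∀ m : ℕ, ∃ w : ℂ, ‖w‖ ≤ 7 ∧ w.im ≠ 0 ∧
    ∑' k : ℕ, co k * iteratedDeriv (2 * k) (f A) (w + 2 * Real.pi * R A m) = 0 := by
  obtain ⟨η, hη, hp⟩ := persist
  set C : ℝ := 3 * 512 * Real.exp 3 * Real.exp (2 * 8 ^ 2 + 2) * 2 with hC
  obtain ⟨A, hA⟩ := exists_nat_ge (max 512 (C / η))
  have hA1 : (512:ℝ) ≤ A := (le_max_left _ _).trans hA
  have hA2 : C / η ≤ A := (le_max_right _ _).trans hA
  have hA3 : 512 ≤ A := by exact_mod_cast hA1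
  have hA4 : 1 ≤ A := by omega
  refine ⟨A, hA3, fun m => ?_⟩
  set E : ℂ → ℂ := fun u => f A (u + 2 * Real.pi * R A m) - (2 + cos u) with hE
  have hEd : Differentiable ℂ E := by
    have := f_diff hA4
    rw [hE]
    fun_prop
  have hδ : 0 ≤ 3 * 512 * Real.exp 3 / A := by positivity
  have hterm := heat_term hEd hδ (err_bound hA3 m) 8
  have hsum : Summable fun k : ℕ =>
      (3 * 512 * Real.exp 3 / A * Real.exp (2 * 8 ^ 2 + 2)) * ((1:ℝ) / 2) ^ k :=
    summable_geometric_two.mul_left _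
  obtain ⟨w, hw, him, hz⟩ := hp (fun w => ∑' k, co k * iteratedDeriv (2 * k) E w)
    (Complex.differentiableOn_tsum_of_summable_norm hsum
      (fun k => ((iter_diff hEd (2 * k)).const_mul _).differentiableOn) isOpen_ball
      (fun k w hw => hterm w (mem_ball_zero_iff.1 hw).le k))
    (fun w hw => by
      refine (tsum_of_norm_bounded hsum.hasSum
        (fun k => hterm w (mem_ball_zero_iff.1 hw).le k)).trans ?_
      rw [tsum_mul_left, tsum_geometric_two]
      rw [div_le_iff₀ hη] at hA2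
      have hApos : (0:ℝ) < A := by linarith
      calc 3 * 512 * Real.exp 3 / A * Real.exp (2 * 8 ^ 2 + 2) * 2 = C / A := by rw [hC]; ring
        _ ≤ η := by rw [div_le_iff₀ hApos]; linarith)
  refine ⟨w, hw, him, ?_⟩
  have hs2 : Summable fun k => co k * iteratedDeriv (2 * k) E w :=
    Summable.of_norm_bounded hsum (fun k => hterm w (by linarith) k)
  have h3 := (heat_cos w).add hs2.hasSum
  rw [hz] at h3
  rw [← h3.tsum_eq]
  congr 1
  funext k
  rw [← mul_add]
  congr 1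
  have h4 := congrFun (iteratedDeriv_comp_add_const (2 * k) (f A) (2 * Real.pi * R A m)) w
  rw [← h4]
  have h5 : (fun z => f A (z + 2 * Real.pi * R A m)) = (fun u => 2 + cos u) + E := by
    funext z
    simp [hE]
  rw [h5, iteratedDeriv_add]
  · have : Differentiable ℂ (fun u : ℂ => 2 + cos u) := by fun_prop
    exact this.contDiff.contDiffAt
  · exact hEd.contDiff.contDiffAt

lemma f_order {A : ℕ} (hA : 1 ≤ A) (ε : ℝ) (hε : 0 < ε) :
    ∃ R : ℝ, ∀ z : ℂ, R ≤ ‖z‖ → ‖f A z‖ ≤ Real.exp (‖z‖ ^ (1 + ε)) := by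
  have h1 := (isLittleO_log_rpow_atTop hε).bound (c := 1 / 4) (by norm_num)
  have h2 := (tendsto_rpow_atTop hε).eventually_ge_atTop 16
  obtain ⟨R0, hR0⟩ := eventually_atTop.1 (h1.and (h2.and (eventually_ge_atTop 2)))
  refine ⟨R0, fun z hz => ?_⟩
  obtain ⟨a1, a2, a3⟩ := hR0 _ hz
  set r := ‖z‖ with hr
  have hlog : 0 ≤ Real.log r := Real.log_nonneg (by linarith)
  rw [Real.norm_eq_abs, Real.norm_eq_abs, abs_of_nonneg hlog, abs_of_nonneg (by linarith)] at a1
  obtain ⟨n, hn1, hn2⟩ := exists_nat_pow_near (x := r) (y := 2) (by linarith) (by norm_num)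
  have hn : (n:ℝ) ≤ 2 * Real.log r := by
    have b1 := Real.log_le_log (by positivity) hn1
    rw [Real.log_pow] at b1
    have b2 := Real.log_two_gt_d9
    have b3 : (0:ℝ) ≤ n := by positivity
    nlinarith
  have hH := H_upper hA (n + 1) z hn2.le
  have hc : ‖2 + cos z‖ ≤ Real.exp (3 * r) := by
    have := norm_add_le 2 (cos z)
    have h2 : ‖(2:ℂ)‖ = 2 := by simp
    have h3 := norm_cos_le z
    have h4 : 1 ≤ Real.exp r := Real.one_le_exp (by linarith)
    have h5 : Real.exp (3 * r) = Real.exp (2 * r) * Real.exp r := by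
      rw [← Real.exp_add]; congr 1; ring
    have h6 := Real.add_one_le_exp (2 * r)
    nlinarith
  unfold f
  rw [norm_mul]
  calc ‖2 + cos z‖ * ‖H A z‖ ≤ Real.exp (3 * r) * Real.exp (((n + 1 : ℕ) + 4) * r) := by gcongr
    _ ≤ Real.exp (r ^ (1 + ε)) := by
      rw [← Real.exp_add]
      apply Real.exp_le_exp.2
      rw [Real.rpow_add (by linarith), Real.rpow_one]
      push_cast
      have : (n:ℝ) + 8 ≤ r ^ ε := by linarith
      nlinarith

lemma f_maxtype {A : ℕ} (hA : 1 ≤ A) (C R0 : ℝ) :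
    ∃ z : ℂ, R0 ≤ ‖z‖ ∧ Real.exp (C * ‖z‖) < ‖f A z‖ := by
  obtain ⟨m, hm⟩ := exists_nat_gt (2 * C)
  set r : ℝ := max R0 (2 * R A m) with hr
  have hRm : (0:ℝ) < R A m := by exact_mod_cast R_pos hA m
  have hr1 : 2 * (R A m : ℝ) ≤ r := le_max_right _ _
  have hr0 : 0 < r := by linarith
  have hn : ‖(r * I : ℂ)‖ = r := by simp [abs_of_pos hr0]
  refine ⟨r * I, by rw [hn]; exact le_max_left _ _, ?_⟩
  rw [hn]
  unfold f
  rw [norm_mul]
  have h1 := H_lower hA m r hr1
  have h2 : 1 ≤ ‖2 + cos (r * I : ℂ)‖ := by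
    rw [Complex.cos_mul_I, ← Complex.ofReal_cosh]
    have : (2 + (Real.cosh r : ℂ)) = ((2 + Real.cosh r : ℝ) : ℂ) := by push_cast; rfl
    rw [this, Complex.norm_real, Real.norm_eq_abs, abs_of_pos (by linarith [Real.cosh_pos r])]
    linarith [Real.cosh_pos r]
  calc Real.exp (C * r) < Real.exp (m * (r / 2)) := by
        apply Real.exp_lt_exp.2
        nlinarith
    _ ≤ ‖H A (r * I)‖ := h1
    _ ≤ _ := le_mul_of_one_le_left (norm_nonneg _) h2

lemma f_strip {A : ℕ} (hA : 1 ≤ A) (z : ℂ) (hz : f A z = 0) : |z.im| < 5 := by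
  unfold f at hz
  rcases mul_eq_zero.1 hz with h | h
  · have e : cos z = (exp (z * I) + exp (-z * I)) / 2 := rfl
    rw [e] at h
    have n1 : ‖exp (z * I)‖ = Real.exp (-z.im) := by rw [Complex.norm_exp]; simp
    have n2 : ‖exp (-z * I)‖ = Real.exp z.im := by rw [Complex.norm_exp]; simp
    have n4 : ‖(-4:ℂ)‖ = 4 := by simp
    have e1 : exp (z * I) = -4 - exp (-z * I) := by linear_combination 2 * h
    have e2 : exp (-z * I) = -4 - exp (z * I) := by linear_combination 2 * h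
    have b1 : Real.exp (-z.im) ≤ 4 + Real.exp z.im := by
      rw [← n1, ← n2, e1, ← n4]; exact norm_sub_le _ _
    have b2 : Real.exp z.im ≤ 4 + Real.exp (-z.im) := by
      rw [← n1, ← n2, e2, ← n4]; exact norm_sub_le _ _
    have c1 := Real.add_one_le_exp z.im
    have c2 := Real.add_one_le_exp (-z.im)
    rw [abs_lt]
    rcases le_total z.im 0 with h0 | h0
    · have : Real.exp z.im ≤ 1 := Real.exp_le_one_iff.2 h0
      constructor <;> linarith
    · have : Real.exp (-z.im) ≤ 1 := Real.exp_le_one_iff.2 (by linarith)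
      constructor <;> linarith
  · by_cases h0 : z.im = 0
    · rw [h0]; norm_num
    · exact absurd h (H_ne_zero hA z h0)

end Pool.Agent.H99.Heat
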