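import Mathlib

set_option autoImplicit false
set_option linter.unusedSectionVars false

open Filter Topology Set Metric

namespace Pool.Agent.H99.Inf

variable {E : Type*} [NormedAddCommGroup E] [InnerProductSpace ℝ E] [FiniteDimensional ℝ E]

def Pr (K : Set E) (ε : ℝ) : Set (E × E) := {p | p.1 ∈ K ∧ p.2 ∈ K ∧ ‖p.2 - p.1‖ ≤ 2 * ε}

lemma supc {K D : Set E} {ε r : ℝ} (r0 : 0 ≤ r) (re : r ≤ 2 * ε) {a : E → E → ℝ}
    (ha : ContinuousOn (fun p : E × E => a p.1 p.2) (Pr K ε)) (hD : ∀ x ∈ D, closedBall x r ⊆ K) :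
    ∃ s : E → ℝ, ContinuousOn s D ∧ ∀ x ∈ D, (∀ y ∈ closedBall x r, a x y ≤ s x) ∧
      ∃ y ∈ closedBall x r, a x y = s x := by
  have : CompactSpace (closedBall (0 : E) r) := isCompact_iff_compactSpace.1 (isCompact_closedBall _ _)
  have mem : ∀ (x : E) (h : closedBall (0 : E) r), x + h ∈ closedBall x r := fun x h =>
    mem_closedBall_iff_norm.2 (by rw [add_sub_cancel_left]; exact mem_closedBall_zero_iff.1 h.2)
  have c : Continuous fun p : D × closedBall (0 : E) r => a p.1 (p.1 + p.2) :=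
    ha.comp_continuous (f := fun p : D × closedBall (0 : E) r => ((p.1 : E), (p.1 : E) + p.2))
      (by fun_prop) fun p => ⟨hD _ p.1.2 (mem_closedBall_self r0), hD _ p.1.2 (mem _ _), by
        simpa using (mem_closedBall_zero_iff.1 p.2.2).trans re⟩
  refine ⟨fun x => sSup ((fun h : closedBall (0 : E) r => a x (x + h)) '' univ),
    continuousOn_iff_continuous_domRestrict.2 (isCompact_univ.continuous_sSup
      (f := fun (x : D) (h : closedBall (0 : E) r) => a x (x + h)) c), fun x hx => ?_⟩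
  have cx : Continuous fun h : closedBall (0 : E) r => a x (x + h) :=
    c.comp (Continuous.prodMk_right (⟨x, hx⟩ : D))
  obtain ⟨h, -, e, m⟩ := isCompact_univ.exists_sSup_image_eq_and_ge
    ⟨⟨0, mem_closedBall_self r0⟩, trivial⟩ cx.continuousOn
  refine ⟨fun y hy => ?_, _, mem x h, e.symm⟩
  have := m ⟨y - x, by simpa [dist_eq_norm] using hy⟩ trivial
  simp only [add_sub_cancel] at this
  exact this.trans e.ge

def CC (D : Set E) (ε : ℝ) (a : E → E → ℝ) : Prop := ∀ x ∈ D, ∀ M, (∀ y ∈ closedBall x (2 * ε), a x y ≤ M) →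
  ∀ y ∈ closedBall x (2 * ε), a x y ≤ M * ‖y - x‖ / (2 * ε)

def Co (K : Set E) (ε : ℝ) (a : E → E → ℝ) : Prop := ∀ x ∈ K, ∀ y ∈ K, ∀ z ∈ K,
  ‖y - x‖ ≤ 2 * ε → ‖z - x‖ ≤ 2 * ε → ‖z - y‖ ≤ 2 * ε → a x z = a x y + a y z

lemma facts {K D1 D2 : Set E} {ε : ℝ} (e0 : 0 < ε) {a : E → E → ℝ}
    (ha : ContinuousOn (fun p : E × E => a p.1 p.2) (Pr K ε)) (h1 : ∀ x ∈ D1, closedBall x ε ⊆ K)
    (h2 : ∀ x ∈ D2, closedBall x ε ⊆ D1) (h3 : ∀ x ∈ D2, closedBall x (2 * ε) ⊆ K)
    (co : Co K ε a) (cc : CC D2 ε a) : ∃ s t : E → ℝ, ContinuousOn s D1 ∧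
      (∀ x ∈ D1, (∀ y ∈ closedBall x ε, a x y ≤ s x) ∧ ∃ y ∈ closedBall x ε, a x y = s x) ∧
      ∀ x ∈ D2, (∀ y ∈ closedBall x (2 * ε), a x y ≤ t x) ∧ 2 * s x ≤ t x ∧
        (∀ y ∈ closedBall x ε, 0 ≤ a x y + s y ∧ a x y + s y ≤ t x ∧ a y x = -a x y) ∧
        ∃ y ∈ closedBall x ε, a x y + s y = t x := by
  obtain ⟨s, cs, hs⟩ := supc e0.le (by linarith) ha h1
  obtain ⟨t, -, ht⟩ := supc (by linarith) le_rfl ha h3
  refine ⟨s, t, cs, hs, fun x hx => ?_⟩
  have xK := h3 x hx (mem_closedBall_self (by linarith))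
  have sub : closedBall x ε ⊆ closedBall x (2 * ε) := closedBall_subset_closedBall (by linarith)
  have z0 : a x x = 0 := by
    have := co x xK x xK x xK (by simp [e0.le]) (by simp [e0.le]) (by simp [e0.le])
    linarith
  have t0 : 0 ≤ t x := z0 ▸ (ht x hx).1 x (mem_closedBall_self (by linarith))
  have up : ∀ y ∈ closedBall x ε, a x y + s y ≤ t x := fun y hy => by
    obtain ⟨z, hz, e⟩ := (hs y (h2 x hx hy)).2
    have zx : z ∈ closedBall x (2 * ε) := by
      rw [mem_closedBall] at *; linarith [dist_triangle z y x]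
    have := co x xK y (h3 x hx (sub hy)) z (h3 x hx zx) (by simpa [dist_eq_norm] using sub hy)
      (by simpa [dist_eq_norm] using zx) (by rw [mem_closedBall, dist_eq_norm] at hz; linarith)
    linarith [(ht x hx).1 z zx]
  refine ⟨(ht x hx).1, ?_, fun y hy => ?_, ?_⟩
  · obtain ⟨y, hy, e⟩ := (hs x (h2 x hx (mem_closedBall_self e0.le))).2
    have := cc x hx _ (ht x hx).1 y (sub hy)
    rw [le_div_iff₀ (by linarith)] at this
    rw [mem_closedBall, dist_eq_norm] at hy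
    nlinarith [mul_le_mul_of_nonneg_left hy t0]
  · have n : ‖y - x‖ ≤ 2 * ε := by simpa [dist_eq_norm] using sub hy
    have := co x xK y (h3 x hx (sub hy)) x xK n (by simp [e0.le]) (by rwa [norm_sub_rev])
    have k := (hs y (h2 x hx hy)).1 x (by rwa [mem_closedBall, dist_comm])
    exact ⟨by linarith, up y hy, by linarith⟩
  · obtain ⟨z, hz, e⟩ := (ht x hx).2
    have n : ‖z - x‖ ≤ 2 * ε := by simpa [dist_eq_norm] using hz
    have n1 : ‖x + (1 / 2 : ℝ) • (z - x) - x‖ ≤ ε := by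
      rw [add_sub_cancel_left, norm_smul, Real.norm_of_nonneg (by norm_num)]; linarith
    have n2 : ‖z - (x + (1 / 2 : ℝ) • (z - x))‖ ≤ ε := by
      rw [show z - (x + (1 / 2 : ℝ) • (z - x)) = (1 / 2 : ℝ) • (z - x) by module, norm_smul,
        Real.norm_of_nonneg (by norm_num)]; linarith
    set y := x + (1 / 2 : ℝ) • (z - x)
    have hy : y ∈ closedBall x ε := by rwa [mem_closedBall, dist_eq_norm]
    have := co x xK y (h3 x hx (sub hy)) z (h3 x hx hz) (by linarith) n (by linarith)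
    have k := (hs y (h2 x hx hy)).1 z (by rwa [mem_closedBall, dist_eq_norm])
    exact ⟨y, hy, by linarith [up y hy]⟩

theorem disc [Nontrivial E] {K D1 D2 : Set E} {ε η : ℝ} (e0 : 0 < ε) {a b : E → E → ℝ} {w : E → ℝ}
    (ha : ContinuousOn (fun p : E × E => a p.1 p.2) (Pr K ε))
    (hb : ContinuousOn (fun p : E × E => b p.1 p.2) (Pr K ε)) (c1 : IsCompact D1)
    (h1 : ∀ x ∈ D1, closedBall x ε ⊆ K)
    (h2 : ∀ x ∈ D2, closedBall x ε ⊆ D1) (h3 : ∀ x ∈ D2, closedBall x (2 * ε) ⊆ K)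
    (coa : Co K ε a) (cca : CC D2 ε a) (cob : Co K ε b) (ccb : CC D2 ε b) (cw : ContinuousOn w D1)
    (hw : ∀ p ∈ Pr K ε, a p.1 p.2 + b p.1 p.2 = w p.2 - w p.1)
    (sm : ∀ p ∈ Pr K ε, a p.1 p.2 ≤ η ∧ b p.1 p.2 ≤ η) (bd : ∀ x ∈ D1, x ∉ D2 → w x ≤ η) :
    ∀ x ∈ D2, w x ≤ 3 * η := by
  obtain ⟨s, t, cs, hs, ht⟩ := facts e0 ha h1 h2 h3 coa cca
  obtain ⟨s', t', cs', hs', ht'⟩ := facts e0 hb h1 h2 h3 cob ccb
  intro x0 hx0
  have me : ∀ x : E, x ∈ closedBall x ε := fun x => mem_closedBall_self e0.le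
  have pr : ∀ x ∈ D1, ∀ y ∈ closedBall x ε, (x, y) ∈ Pr K ε := fun x hx y hy =>
    ⟨h1 x hx (me x), h1 x hx hy, by rw [mem_closedBall, dist_eq_norm] at hy; simp only; linarith⟩
  have cΦ : ContinuousOn (fun x => w x + s x + s' x) D1 := (cw.add cs).add cs'
  obtain ⟨m, mD, hm⟩ := c1.exists_isMaxOn ⟨x0, h2 _ hx0 (me _)⟩ cΦ
  let S := D1 ∩ (fun x => w x + s x + s' x) ⁻¹' {w m + s m + s' m}
  have cS : IsCompact S := c1.of_isClosed_subset
    (cΦ.preimage_isClosed_of_isClosed c1.isClosed isClosed_singleton) inter_subset_left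
  suffices h : ∃ x ∈ S, x ∉ D2 by
    obtain ⟨x, ⟨xD, e⟩, n⟩ := h
    obtain ⟨y, hy, ey⟩ := (hs x xD).2
    obtain ⟨y', hy', ey'⟩ := (hs' x xD).2
    have a1 := (sm _ (pr x xD y hy)).1
    have a2 := (sm _ (pr x xD y' hy')).2
    have a3 := (ht x0 hx0).2.2.1 x0 (me _)
    have a4 := (ht' x0 hx0).2.2.1 x0 (me _)
    have a5 : w x0 + s x0 + s' x0 ≤ w m + s m + s' m := hm (h2 _ hx0 (me _))
    have : w x + s x + s' x = w m + s m + s' m := e
    simp only at a1 a2
    linarith [bd x xD n, a3.1, a3.2.2, a4.1, a4.2.2]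
  by_contra hc
  push Not at hc
  obtain ⟨l, lS, hl⟩ := cS.exists_isMaxOn ⟨m, mD, rfl⟩ (cs.mono inter_subset_left)
  have key : ∀ x ∈ S, ∀ y ∈ closedBall x ε, a x y + s y + (b x y + s' y) ≤ s x + s' x :=
    fun x hx y hy => by
    have a1 : w y + s y + s' y ≤ w m + s m + s' m := hm (h2 _ (hc x hx) hy)
    have a2 : w x + s x + s' x = w m + s m + s' m := hx.2
    have := hw _ (pr x hx.1 y hy)
    simp only at this
    linarith
  have eq : ∀ x ∈ S, t x = 2 * s x ∧ s' x = s x := fun x hx => by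
    obtain ⟨-, a1, a2, y, hy, e⟩ := ht x (hc x hx)
    obtain ⟨-, b1, b2, y', hy', e'⟩ := ht' x (hc x hx)
    have := key x hx y hy
    have := key x hx y' hy'
    constructor <;> linarith [(a2 y' hy').1, (b2 y hy).1]
  have nxt : ∀ x ∈ S, s x = s l → ∀ y ∈ closedBall x ε, a x y + s y = 2 * s l →
      y ∈ S ∧ s y = s l ∧ a x y = s l := fun x hx e y hy k => by
    have yS : y ∈ S := by
      refine ⟨h2 _ (hc x hx) hy, ?_⟩
      have a2 : w x + s x + s' x = w m + s m + s' m := hx.2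
      have := hw _ (pr x hx.1 y hy)
      have a1 : w y + s y + s' y ≤ w m + s m + s' m := hm (h2 _ (hc x hx) hy)
      simp only at this
      show w y + s y + s' y = w m + s m + s' m
      linarith [((ht' x (hc x hx)).2.2.1 y hy).1, (eq x hx).2]
    have a1 : s y ≤ s l := hl yS
    have a2 := (hs x hx.1).1 y hy
    exact ⟨yS, by linarith, by linarith⟩
  have l0 : 0 ≤ s l := by
    have := (ht l (hc l lS)).2.2.1 l (me _)
    linarith [this.1, this.2.2]
  have far : ∀ x ∈ S, s x = s l → 0 < s l → ∀ y ∈ closedBall x (2 * ε), ∀ c, a x y = c * s l →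
      c * ε ≤ ‖y - x‖ := fun x hx e p y hy c k => by
    have := cca x (hc x hx) _ (ht x (hc x hx)).1 y hy
    rw [(eq x hx).1, e, k, le_div_iff₀ (by linarith)] at this
    nlinarith
  have any : ∀ x ∈ S, s x = s l → s l = 0 → ∀ y ∈ closedBall x ε, a x y + s y = 2 * s l :=
    fun x hx e z y hy => by
    have := (ht x (hc x hx)).2.2.1 y hy
    linarith [this.1, this.2.1, (eq x hx).1]
  obtain ⟨d, nd, hd⟩ : ∃ d : E, ‖d‖ = ε ∧ a l (l + d) + s (l + d) = 2 * s l := by
    rcases l0.eq_or_lt with z | p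
    · obtain ⟨d, hd⟩ := exists_norm_eq E e0.le
      exact ⟨d, hd, any l lS rfl z.symm _ (by simp [hd])⟩
    · obtain ⟨y, hy, e⟩ := (ht l (hc l lS)).2.2.2
      rw [(eq l lS).1] at e
      have := far l lS rfl p y (closedBall_subset_closedBall (by linarith) hy) 1
        (by rw [one_mul]; exact (nxt l lS rfl y hy e).2.2)
      rw [mem_closedBall, dist_eq_norm] at hy
      exact ⟨y - l, by linarith, by simpa using e⟩
  have ind : ∀ k : ℕ, l + (k : ℝ) • d ∈ S ∧ s (l + (k : ℝ) • d) = s l ∧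
      a (l + (k : ℝ) • d) (l + (k : ℝ) • d + d) + s (l + (k : ℝ) • d + d) = 2 * s l := fun k => by
    induction k with
    | zero => simpa using ⟨lS, hd⟩
    | succ k ih =>
      obtain ⟨xS, e, h⟩ := ih
      rw [show l + ((k + 1 : ℕ) : ℝ) • d = l + (k : ℝ) • d + d by push_cast; module]
      set x := l + (k : ℝ) • d
      obtain ⟨yS, e', h'⟩ := nxt x xS e (x + d) (by simp [nd]) h
      refine ⟨yS, e', ?_⟩
      rcases l0.eq_or_lt with z | p
      · exact any _ yS e' z.symm _ (by simp [nd])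
      obtain ⟨z, hz, ez⟩ := (ht _ (hc _ yS)).2.2.2
      rw [(eq _ yS).1, e'] at ez
      have a1 := (nxt _ yS e' z hz ez).2.2
      rw [mem_closedBall, dist_eq_norm] at hz
      have tri := norm_add_le (z - (x + d)) d
      rw [show z - (x + d) + d = z - x by abel] at tri
      have zx : z ∈ closedBall x (2 * ε) := by rw [mem_closedBall, dist_eq_norm]; linarith
      have := coa x (h1 x xS.1 (me _)) (x + d) (h1 _ yS.1 (me _)) z (h3 x (hc x xS) zx)
        (by simp [nd]; linarith) (by linarith) (by linarith)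
      have f2 := far x xS e p z zx 2 (by linarith)
      have : z - (x + d) = d := by
        have pl := parallelogram_law_with_norm ℝ (z - (x + d)) d
        rw [show z - (x + d) + d = z - x by abel, nd] at pl
        have : ‖z - (x + d) - d‖ = 0 := by
          nlinarith [norm_nonneg (z - (x + d) - d), norm_nonneg (z - (x + d))]
        exact sub_eq_zero.1 (norm_eq_zero.1 this)
      rwa [show x + d + d = z from (sub_eq_iff_eq_add'.1 this).symm]
  obtain ⟨R, hR⟩ := c1.isBounded.exists_norm_le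
  obtain ⟨k, hk⟩ := exists_nat_gt ((R + ‖l‖) / ε)
  have a1 := hR _ (ind k).1.1
  have a2 := norm_sub_le (l + (k : ℝ) • d) l
  rw [add_sub_cancel_left, norm_smul, nd, Real.norm_natCast] at a2
  rw [div_lt_iff₀ e0] at hk
  linarith

end Pool.Agent.H99.Inf
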