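import Pool.Agent.H99.Ucp6
import Pool.Agent.H99.HM2

set_option autoImplicit false
set_option linter.unusedSectionVars false

open Filter Topology Set MeasureTheory Metric ContinuousLinearMap
open scoped ENNReal NNReal ContDiff Convolution

namespace Pool.Agent.H99.Inf
open Ucp

variable {E : Type*} [NormedAddCommGroup E] [NormedSpace ℝ E] [FiniteDimensional ℝ E]
  [MeasurableSpace E] [BorelSpace E] (μ : Measure E) [μ.IsAddHaarMeasure]

lemma mder' {O : Set E} {u : E → ℝ} {G : E → E →L[ℝ] ℝ} (iu : Integrable u μ)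
    (iG : Integrable G μ) (hw : Wk μ O u G) (φ : ContDiffBump (0 : E)) {x : E}
    (hx : closedBall x φ.rOut ⊆ O) :
    fderiv ℝ (φ.normed μ ⋆[lsmul ℝ ℝ, μ] u) x = ∫ t, φ.normed μ (x - t) • G t ∂μ := by
  set ψ := φ.normed μ
  have cψ : HasCompactSupport ψ := φ.hasCompactSupport_normed
  have sψ : ContDiff ℝ ∞ ψ := φ.contDiff_normed
  have s1 : ContDiff ℝ 1 ψ := φ.contDiff_normed
  have cx : HasCompactSupport fun t => ψ (x - t) := cψ.comp_homeomorph (Homeomorph.subLeft x)
  have sx : ContDiff ℝ ∞ fun t => ψ (x - t) := sψ.comp (by fun_prop)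
  have ix : Integrable (fun t => ψ (x - t) • G t) μ :=
    iG.locallyIntegrable.integrable_smul_left_of_hasCompactSupport sx.continuous cx
  ext v
  rw [← convolution_flip, (cψ.hasFDerivAt_convolution_right _ iu.locallyIntegrable s1 x).fderiv,
    convolution_precompR_apply _ iu.locallyIntegrable (cψ.fderiv ℝ) (s1.continuous_fderiv (by simp)),
    convolution_def]
  simp only [flip_apply, lsmul_apply]
  rw [ContinuousLinearMap.integral_apply ix]
  have := hw _ sx cx (by
    refine (closure_minimal (fun t ht => ?_) isClosed_closedBall).trans hx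
    have : x - t ∈ Function.support ψ := ht
    rw [φ.support_normed_eq, mem_ball_zero_iff, norm_sub_rev] at this
    exact mem_closedBall_iff_norm.2 this.le) v
  have e : ∀ t, fderiv ℝ (fun t => ψ (x - t)) t v = -fderiv ℝ ψ (x - t) v := fun t => by
    have := ((s1.differentiable (by simp)) (x - t)).hasFDerivAt.comp t
      ((hasFDerivAt_id t).const_sub x)
    rw [show (fun t => ψ (x - t)) = ψ ∘ HSub.hSub x from rfl, this.fderiv]; simp
  simp only [e, neg_smul, integral_neg, neg_inj] at this
  simpa using this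

lemma l1 {Y : Type*} [NormedAddCommGroup Y] [NormedSpace ℝ Y] {f : ℕ → E → Y} {g : E → Y}
    {c : ℕ → E → Y →L[ℝ] ℝ} {C : ℝ} (hc : ∀ j x, ‖c j x‖ ≤ C)
    (h : Tendsto (fun j => ∫⁻ x, ‖f j x - g x‖ₑ ∂μ) atTop (𝓝 0)) :
    Tendsto (fun j => ∫ x, c j x (f j x - g x) ∂μ) atTop (𝓝 0) := by
  rw [tendsto_zero_iff_enorm_tendsto_zero]
  have T := ENNReal.Tendsto.const_mul (a := .ofReal C) h (.inr ENNReal.ofReal_ne_top)
  rw [mul_zero] at T
  refine tendsto_of_tendsto_of_tendsto_of_le_of_le tendsto_const_nhds T (fun _ => zero_le) fun j => ?_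
  refine (enorm_integral_le_lintegral_enorm _).trans ?_
  rw [← lintegral_const_mul' _ _ ENNReal.ofReal_ne_top]
  refine lintegral_mono fun x => ?_
  rw [← ofReal_norm, ← ofReal_norm, ← ENNReal.ofReal_mul ((norm_nonneg _).trans (hc j x))]
  exact ENNReal.ofReal_le_ofReal (((c j x).le_opNorm _).trans (by gcongr; exact hc j x))

lemma chain {O : Set E} (hO : IsOpen O) {f : E → ℝ} {G : E → E →L[ℝ] ℝ} (iu : Integrable f μ)
    (iG : Integrable G μ) (hw : Wk μ O f G) {F : ℝ → ℝ} (hF : ContDiff ℝ 1 F)
    (b : ∀ t, |deriv F t| ≤ 1) : Wk μ O (fun x => F (f x)) fun x => deriv F (f x) • G x := by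
  intro φ sφ cφ hφ v
  obtain ⟨R, R0, hR⟩ := cφ.exists_cthickening_subset_open hO hφ
  have dF := hF.differentiable (by simp)
  have cF := hF.continuous_deriv le_rfl
  have lF : LipschitzWith 1 F := lipschitzWith_of_nnnorm_deriv_le dF fun t => by exact_mod_cast b t
  let fj := fun j => (bp R R0 j).normed μ ⋆[lsmul ℝ ℝ, μ] f
  let Gj := fun j => (bp R R0 j).normed μ ⋆[lsmul ℝ ℝ, μ] G
  have su : ∀ j, ContDiff ℝ 1 (fj j) := fun j =>
    (bp R R0 j).hasCompactSupport_normed.contDiff_convolution_left _ (bp R R0 j).contDiff_normed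
      iu.locallyIntegrable
  have sG : ∀ j, Continuous (Gj j) := fun j =>
    (bp R R0 j).hasCompactSupport_normed.continuous_convolution_left _ (bp R R0 j).continuous_normed
      iG.locallyIntegrable
  have c0 := sφ.continuous
  have c1 : Continuous fun x => fderiv ℝ φ x v := (sφ.continuous_fderiv (by simp)).clm_apply continuous_const
  have k1 : HasCompactSupport fun x => fderiv ℝ φ x v := cφ.fderiv_apply ℝ v
  have ibp : ∀ j, ∫ x, fderiv ℝ φ x v * F (fj j x) ∂μ =
      -∫ x, φ x * (deriv F (fj j x) * Gj j x v) ∂μ := fun j => by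
    have s := hF.comp (su j)
    have cD : Continuous fun x => fderiv ℝ (F ∘ fj j) x v :=
      (s.continuous_fderiv (by simp)).clm_apply continuous_const
    have := integral_mul_fderiv_eq_neg_fderiv_mul_of_integrable (μ := μ) (f := φ) (g := F ∘ fj j) (v := v)
      ((c1.mul s.continuous).integrable_of_hasCompactSupport k1.mul_right)
      ((c0.mul cD).integrable_of_hasCompactSupport cφ.mul_right)
      ((c0.mul s.continuous).integrable_of_hasCompactSupport cφ.mul_right)
      (fun x _ => sφ.differentiable (by simp) x) (fun x _ => s.differentiable (by simp) x)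
    rw [← neg_eq_iff_eq_neg] at this
    refine this.symm.trans (congrArg Neg.neg (integral_congr_ae (.of_forall fun x => ?_)))
    by_cases hx : x ∈ tsupport φ
    · have d := ((dF (fj j x)).hasDerivAt.comp_hasFDerivAt x
        ((su j).differentiable (by simp) x).hasFDerivAt).fderiv
      have k : (bp R R0 j : ContDiffBump (0 : E)).rOut ≤ R := by
        simp only [bp]
        exact (half_le_self (by positivity)).trans (div_le_self R0.le (by simp))
      simp only
      rw [d, mder' μ iu iG hw _ ((closedBall_subset_closedBall k).trans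
        ((closedBall_subset_cthickening hx R).trans hR))]
      simp only [Gj, convolution_eq_swap, lsmul_apply, smul_apply, smul_eq_mul]
    · simp [image_eq_zero_of_notMem_tsupport hx]
  obtain ⟨C1, h1⟩ := c1.bounded_above_of_compact_support k1
  obtain ⟨C0, h0⟩ := c0.bounded_above_of_compact_support cφ
  have iv : Integrable (fun x => G x v) μ := iG.apply_continuousLinearMap v
  have iF : Integrable (fun x => fderiv ℝ φ x v * F (f x)) μ := by
    have : Integrable (fun x => F (f x) - F 0) μ := iu.mono
      ((dF.continuous.comp_aestronglyMeasurable iu.1).sub aestronglyMeasurable_const)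
      (.of_forall fun x => by simpa [Real.dist_eq] using lF.dist_le_mul (f x) 0)
    refine ((this.bdd_mul c1.aestronglyMeasurable (.of_forall h1)).add
      ((c1.mul (continuous_const (y := F 0))).integrable_of_hasCompactSupport k1.mul_right)).congr
      (.of_forall fun x => by simp; ring)
  have T1 : Tendsto (fun j => ∫ x, fderiv ℝ φ x v * F (fj j x) ∂μ) atTop
      (𝓝 (∫ x, fderiv ℝ φ x v * F (f x) ∂μ)) := by
    have := l1 μ (f := fun j x => F (fj j x)) (g := fun x => F (f x))
      (c := fun _ x => fderiv ℝ φ x v • ContinuousLinearMap.id ℝ ℝ) (C := C1)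
      (fun _ x => by simpa [norm_smul] using h1 x)
      (tendsto_of_tendsto_of_tendsto_of_le_of_le tendsto_const_nhds (mconv μ R0 iu) (fun _ => zero_le)
        fun j => lintegral_mono fun x => by simpa [edist_eq_enorm_sub] using lF (fj j x) (f x))
    rw [← tendsto_sub_nhds_zero_iff]
    refine this.congr fun j => ?_
    refine Eq.trans (integral_congr_ae (.of_forall fun x => by simp; ring))
      (integral_sub ((c1.mul (hF.comp (su j)).continuous).integrable_of_hasCompactSupport
      k1.mul_right) iF)
  have bd : ∀ (y : ℝ) x, ‖φ x * deriv F y‖ ≤ C0 := fun y x => by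
    rw [norm_mul]
    exact (mul_le_of_le_one_right (norm_nonneg _) (b y)).trans (h0 x)
  have T2 : Tendsto (fun j => ∫ x, φ x * deriv F (fj j x) * G x v ∂μ) atTop
      (𝓝 (∫ x, φ x * deriv F (f x) * G x v ∂μ)) := by
    refine tendsto_integral_of_dominated_convergence (fun x => C0 * ‖G x v‖)
      (fun j => (c0.mul (cF.comp (su j).continuous)).aestronglyMeasurable.mul iv.1)
      (iv.norm.const_mul _) (fun j => .of_forall fun x => by rw [norm_mul]; gcongr; exact bd _ _) ?_
    filter_upwards [ContDiffBump.ae_convolution_tendsto_right_of_locallyIntegrable (μ := μ) (K := 2)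
      (φ := bp (E := E) R R0) (l := atTop) (by
        have := (tendsto_one_div_add_atTop_nhds_zero_nat (𝕜 := ℝ)).const_mul (R / 2)
        rw [mul_zero] at this
        exact this.congr fun j => by simp only [bp]; ring)
      (.of_forall fun j => le_of_eq (by simp only [bp]; ring)) iu.locallyIntegrable] with x hx
    exact (((cF.tendsto _).comp hx).const_mul _).mul_const _
  have T3 := l1 μ (f := Gj) (g := G) (c := fun j x => (φ x * deriv F (fj j x)) • apply ℝ ℝ v)
    (C := C0 * ‖apply ℝ ℝ v‖) (fun j x => by rw [norm_smul]; gcongr; exact bd _ _) (mconv μ R0 iG)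
  have T4 := (T2.add T3).neg
  rw [add_zero] at T4
  have := tendsto_nhds_unique T1 (T4.congr fun j => ?_)
  · simpa [mul_assoc] using this
  rw [ibp, ← integral_add]
  · exact congrArg Neg.neg (integral_congr_ae (.of_forall fun x => by simp; ring))
  · exact iv.bdd_mul (c0.mul (cF.comp (su j).continuous)).aestronglyMeasurable (.of_forall fun x => bd _ x)
  · refine ((((c0.mul (cF.comp (su j).continuous)).mul ((sG j).clm_apply
      (continuous_const (y := v)))).integrable_of_hasCompactSupport cφ.mul_right.mul_right).sub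
      (iv.bdd_mul (c0.mul (cF.comp (su j).continuous)).aestronglyMeasurable
        (.of_forall fun x => bd _ x))).congr (.of_forall fun x => by simp; ring)

lemma lip1 {z : E} {r θ p : ℝ} (hp : 1 ≤ p) {f : E → ℝ} {G : E → E →L[ℝ] ℝ} (iu : Integrable f μ)
    (iG : Integrable G μ) (hw : Wk μ (ball z (3 * r)) f G) (φ : ContDiffBump (0 : E))
    (hr : φ.rOut ≤ r) {c L : ℝ} (hc : ∀ x, φ.normed μ x ≤ c) (L0 : 0 ≤ L)
    (hL : .ofReal c * ∫⁻ x in ball z (3 * r), ‖G x‖ₑ ^ p ∂μ ≤ .ofReal L ^ p)
    {y y' : E} (hy : y ∈ ball z r) (hy' : y' ∈ ball z r)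
    (o : ∀ t ∈ ball y φ.rOut, dist (f t) (f y) ≤ θ) (o' : ∀ t ∈ ball y' φ.rOut, dist (f t) (f y') ≤ θ) :
    f y' - f y ≤ 2 * θ + L * ‖y' - y‖ := by
  have a := φ.dist_normed_convolution_le iu.1 o
  have a' := φ.dist_normed_convolution_le iu.1 o'
  have s : ContDiff ℝ 1 (φ.normed μ ⋆[lsmul ℝ ℝ, μ] f) :=
    φ.hasCompactSupport_normed.contDiff_convolution_left _ φ.contDiff_normed iu.locallyIntegrable
  have r0 : 0 < r := φ.rOut_pos.trans_le hr
  have := (convex_ball z r).norm_image_sub_le_of_norm_fderiv_le (𝕜 := ℝ) (C := L)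
    (fun x _ => s.differentiable (by simp) x) (fun x hx => ?_) hy hy'
  · rw [Real.dist_eq, abs_le] at a a'
    rw [Real.norm_eq_abs, abs_le] at this
    linarith [a.1, a'.1, a.2, a'.2, this.2]
  have sub : closedBall x φ.rOut ⊆ ball z (3 * r) :=
    closedBall_subset_ball' (by rw [mem_ball] at hx; linarith)
  rw [mder' μ iu iG hw φ sub]
  have one : ∫⁻ t, ENNReal.ofReal (φ.normed μ t) ∂μ = 1 := by
    rw [← ofReal_integral_eq_lintegral_ofReal φ.integrable_normed
      (Eventually.of_forall φ.nonneg_normed), φ.integral_normed, ENNReal.ofReal_one]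
  have j := HM.jen (μ := μ) (ψ := fun t => .ofReal (φ.normed μ (x - t))) (a := fun t => ‖G t‖ₑ) hp
    (φ.continuous_normed.comp (by fun_prop)).measurable.ennreal_ofReal.aemeasurable iG.1.enorm
    (by rw [lintegral_sub_left_eq_self (fun t => ENNReal.ofReal (φ.normed μ t)), one])
  rw [← ENNReal.ofReal_le_ofReal_iff L0, ofReal_norm,
    ← ENNReal.rpow_le_rpow_iff (show 0 < p by linarith)]
  refine le_trans (ENNReal.rpow_le_rpow ((enorm_integral_le_lintegral_enorm _).trans
    (le_of_eq (lintegral_congr fun t => ?_))) (by linarith)) (j.trans (le_trans ?_ hL))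
  · rw [← ofReal_norm, norm_smul, ENNReal.ofReal_mul (norm_nonneg _), ofReal_norm (G t),
      Real.norm_of_nonneg (φ.nonneg_normed _)]
  rw [← lintegral_const_mul' _ _ ENNReal.ofReal_ne_top, ← lintegral_indicator measurableSet_ball]
  refine lintegral_mono fun t => ?_
  by_cases k : t ∈ ball z (3 * r)
  · rw [indicator_of_mem k]; gcongr; exact hc _
  · have : φ.normed μ (x - t) = 0 := by
      by_contra n
      have : x - t ∈ Function.support (φ.normed μ) := n
      rw [φ.support_normed_eq, mem_ball_zero_iff, norm_sub_rev] at this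
      exact k (sub (mem_closedBall_iff_norm.2 this.le))
    simp [this]

end Pool.Agent.H99.Inf
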