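import Pool.Agent.H99.InfB

set_option autoImplicit false
set_option linter.unusedSectionVars false

open Filter Topology Set MeasureTheory Metric ContinuousLinearMap
open scoped ENNReal NNReal ContDiff

namespace Pool.Agent.H99.Inf
open Ucp

variable {E : Type*} [NormedAddCommGroup E] [InnerProductSpace ℝ E] [FiniteDimensional ℝ E]
  [MeasurableSpace E] [BorelSpace E] (μ : Measure E) [μ.IsAddHaarMeasure]

lemma iind {Y : Type*} [NormedAddCommGroup Y] {g : E → Y} {K : Set E} (mK : MeasurableSet K)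
    (h : IntegrableOn g K μ) : Integrable (K.indicator g) μ := h.integrable_indicator mK

lemma wind {O : Set E} {f : E → ℝ} {G : E → E →L[ℝ] ℝ} (h : Wk μ O f G) :
    Wk μ O (O.indicator f) (O.indicator G) := fun φ a b c v => by
  refine Eq.trans (integral_congr_ae (.of_forall fun y => ?_)) ((h φ a b c v).trans
    (congrArg Neg.neg (integral_congr_ae (.of_forall fun y => ?_))))
  · by_cases k : y ∈ O
    · simp [k]
    · have : fderiv ℝ φ y = 0 := by
        by_contra j
        exact k (c (support_fderiv_subset ℝ j))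
      simp [this]
  · by_cases k : y ∈ O
    · simp [k]
    · simp [image_eq_zero_of_notMem_tsupport fun j => k (c j)]

lemma wsub {O : Set E} {f g : E → ℝ} {G H : E → E →L[ℝ] ℝ} (hf : LocallyIntegrable f μ)
    (hG : LocallyIntegrable G μ) (hg : LocallyIntegrable g μ) (hH : LocallyIntegrable H μ)
    (a : Wk μ O f G) (b : Wk μ O g H) : Wk μ O (fun x => f x - g x) fun x => G x - H x :=
  fun φ s c t v => by
  have c1 : Continuous fun x => fderiv ℝ φ x v := (s.continuous_fderiv (by simp)).clm_apply continuous_const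
  have k1 : HasCompactSupport fun x => fderiv ℝ φ x v := c.fderiv_apply ℝ v
  have i1 := (hG.integrable_smul_left_of_hasCompactSupport s.continuous c).apply_continuousLinearMap v
  have i2 := (hH.integrable_smul_left_of_hasCompactSupport s.continuous c).apply_continuousLinearMap v
  simp only [smul_sub, sub_apply, smul_apply] at i1 i2 ⊢
  rw [integral_sub (hf.integrable_smul_left_of_hasCompactSupport c1 k1)
    (hg.integrable_smul_left_of_hasCompactSupport c1 k1), integral_sub i1 i2, a φ s c t, b φ s c t]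
  ring

lemma wsm (O : Set E) {C : E → ℝ} (h : ContDiff ℝ 1 C) : Wk μ O C (fderiv ℝ C) := fun φ s c _ v => by
  have c1 : Continuous fun x => fderiv ℝ φ x v := (s.continuous_fderiv (by simp)).clm_apply continuous_const
  have c2 : Continuous fun x => fderiv ℝ C x v := (h.continuous_fderiv (by simp)).clm_apply continuous_const
  have := integral_mul_fderiv_eq_neg_fderiv_mul_of_integrable (μ := μ) (f := φ) (g := C) (v := v)
    ((c1.mul h.continuous).integrable_of_hasCompactSupport (c.fderiv_apply ℝ v).mul_right)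
    ((s.continuous.mul c2).integrable_of_hasCompactSupport c.mul_right)
    ((s.continuous.mul h.continuous).integrable_of_hasCompactSupport c.mul_right)
    (fun x _ => s.differentiable (by simp) x) (fun x _ => h.differentiable (by simp) x)
  simp only [smul_eq_mul, this, neg_neg]

lemma wuniv {x : E} {R R' : ℝ} (R0 : 0 < R') (RR : R' < R) {ψ : E → ℝ} {H : E → E →L[ℝ] ℝ}
    (h : Wk μ (ball x R) ψ H) (z : ∀ y, R' ≤ ‖y - x‖ → ψ y = 0 ∧ H y = 0) : Wk μ univ ψ H :=
  fun φ s c _ v => by
  let χ : ContDiffBump x := ⟨R', (R' + R) / 2, R0, by linarith⟩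
  have := h (fun y => χ y * φ y) (χ.contDiff.mul s) c.mul_left ((tsupport_mul_subset_left).trans
    (by rw [χ.tsupport_eq]; exact closedBall_subset_ball (by simp only [χ]; linarith))) v
  refine Eq.trans (integral_congr_ae (.of_forall fun y => ?_)) (this.trans
    (congrArg Neg.neg (integral_congr_ae (.of_forall fun y => ?_))))
  · by_cases k : R' ≤ ‖y - x‖
    · simp [(z y k).1]
    · have : (fun y => χ y * φ y) =ᶠ[𝓝 y] φ :=
        (χ.eventuallyEq_one_of_mem_ball (mem_ball_iff_norm.2 (not_le.1 k))).mono fun t ht => by simp [ht]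
      simp only [this.fderiv_eq]
  · by_cases k : R' ≤ ‖y - x‖
    · simp [(z y k).2]
    · simp [χ.one_of_mem_closedBall (mem_closedBall_iff_norm.2 (not_le.1 k).le)]

lemma exF {δ : ℝ} (d0 : 0 < δ) : ∃ F : ℝ → ℝ, ContDiff ℝ 1 F ∧ (∀ t, 0 ≤ deriv F t ∧ deriv F t ≤ 1) ∧
    (∀ t ≤ δ / 2, F t = 0 ∧ deriv F t = 0) ∧ ∀ t, δ ≤ t → deriv F t = 1 := by
  let σ : ℝ → ℝ := fun t => max 0 (min 1 (2 * t / δ - 1))
  have c : Continuous σ := by fun_prop
  have d : deriv (fun t => ∫ s in (0 : ℝ)..t, σ s) = σ := funext fun t => c.deriv_integral _ _ _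
  have z : ∀ t ≤ δ / 2, σ t = 0 := fun t ht => max_eq_left ((min_le_right _ _).trans (by
    rw [sub_nonpos, div_le_one d0]; linarith))
  refine ⟨_, contDiff_one_iff_deriv.2 ⟨fun t => (c.integral_hasStrictDerivAt 0 t).hasDerivAt.differentiableAt,
    d.symm ▸ c⟩, ?_⟩
  rw [d]
  refine ⟨fun t => ⟨le_max_left _ _, max_le zero_le_one (min_le_left _ _)⟩, fun t ht => ⟨?_, z t ht⟩,
    fun t ht => ?_⟩
  · rw [intervalIntegral.integral_congr (g := fun _ => 0) fun s hs => z s
      (hs.2.trans (max_le (by linarith) ht))]; simp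
  · have : 2 ≤ 2 * t / δ := by rw [le_div_iff₀ d0]; linarith
    simp only [σ]; rw [min_eq_left (by linarith), max_eq_right zero_le_one]

def Mn (x : E) (R p : ℝ) (G : E → E →L[ℝ] ℝ) : Prop :=
  ∫⁻ y in ball x R, ‖G y‖ₑ ^ p ∂μ < ⊤ ∧ ∀ (ψ : E → ℝ) (H : E → E →L[ℝ] ℝ), Continuous ψ →
    (∀ y ∉ ball x R, ψ y = 0 ∧ H y = 0) → Integrable H μ → Wk μ univ ψ H →
    ∫⁻ y in ball x R, ‖G y‖ₑ ^ p ∂μ ≤ ∫⁻ y in ball x R, ‖G y - H y‖ₑ ^ p ∂μ

lemma energy {x : E} {R R' p a δ : ℝ} (R0 : 0 < R') (RR : R' < R) (hp : 1 ≤ p) (a0 : 0 ≤ a) (d0 : 0 < δ)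
    {f C : E → ℝ} {G : E → E →L[ℝ] ℝ} (cf : ContinuousOn f (closedBall x R))
    (hw : Wk μ (ball x R) f G) (iG : IntegrableOn G (ball x R) μ) (mn : Mn μ x R p G)
    (sC : ContDiff ℝ 1 C) (bC : ∀ y, ‖fderiv ℝ C y‖ ≤ a)
    (out : ∀ y ∈ ball x R, R' ≤ ‖y - x‖ → f y - C y ≤ δ / 2) {W : Set E} (mW : MeasurableSet W)
    (hW : ∀ y ∈ W, y ∈ ball x R ∧ δ ≤ f y - C y) :
    ∫⁻ y in W, ‖G y‖ₑ ^ p ∂μ ≤ .ofReal a ^ p * μ (ball x R) := by
  obtain ⟨F, sF, F1, F2, F3⟩ := exF d0
  set B := ball x R
  have mB : MeasurableSet B := measurableSet_ball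
  have cD := sC.continuous_fderiv (by simp)
  have i1 := iind μ mB ((cf.integrableOn_compact (μ := μ) (isCompact_closedBall _ _)).mono_set
    ball_subset_closedBall)
  have i2 := iind (Y := E →L[ℝ] ℝ) μ mB iG
  have i3 := iind μ mB ((sC.continuous.continuousOn.integrableOn_compact (μ := μ)
    (isCompact_closedBall x R)).mono_set ball_subset_closedBall)
  have i4 := iind (Y := E →L[ℝ] ℝ) μ mB ((cD.continuousOn.integrableOn_compact (μ := μ)
    (isCompact_closedBall x R)).mono_set ball_subset_closedBall)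
  have w := chain μ isOpen_ball (i1.sub i3) (i2.sub i4) (wsub μ i1.locallyIntegrable
    i2.locallyIntegrable i3.locallyIntegrable i4.locallyIntegrable (wind μ hw) (wind μ (wsm μ B sC))) sF
    fun t => abs_le.2 ⟨by linarith [(F1 t).1], (F1 t).2⟩
  set g := B.indicator f - B.indicator C
  set G' := B.indicator G - B.indicator (fderiv ℝ C)
  have gB : ∀ y ∈ B, g y = f y - C y ∧ G' y = G y - fderiv ℝ C y := fun y hy => by simp [g, G', hy]
  have z : ∀ y, R' ≤ ‖y - x‖ → F (g y) = 0 ∧ deriv F (g y) • G' y = 0 := fun y hy => by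
    have : g y ≤ δ / 2 := by
      by_cases k : y ∈ B
      · rw [(gB y k).1]; exact out y k hy
      · simp [g, k]; linarith
    simp [F2 _ this]
  have mσ : AEStronglyMeasurable (fun y => deriv F (g y)) μ :=
    (sF.continuous_deriv le_rfl).comp_aestronglyMeasurable (i1.sub i3).1
  have iH : Integrable (fun y => deriv F (g y) • G' y) μ := (i2.sub i4).bdd_smul 1 mσ
    (.of_forall fun y => abs_le.2 ⟨by linarith [(F1 (g y)).1], (F1 _).2⟩)
  have key := mn.2 _ _ (continuous_iff_continuousAt.2 fun y => by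
      by_cases k : y ∈ B
      · refine sF.continuous.continuousAt.comp (ContinuousAt.congr
          (((cf.mono ball_subset_closedBall).continuousAt (isOpen_ball.mem_nhds k)).sub
            sC.continuous.continuousAt) ?_)
        exact (isOpen_ball.eventually_mem k).mono fun t ht => (gB t ht).1.symm
      · have : R' < ‖y - x‖ := RR.trans_le (by simpa [B, dist_eq_norm] using k)
        refine continuousAt_const.congr (((isOpen_lt continuous_const
          (by fun_prop : Continuous fun t => ‖t - x‖)).eventually_mem this).mono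
            fun t ht => (z t (le_of_lt ht)).1.symm))
    (fun y k => z y (RR.le.trans (by simpa [B, dist_eq_norm] using k))) iH (wuniv μ R0 RR w z)
  refine ENNReal.le_of_add_le_add_left mn.1.ne (le_trans (add_le_add_left key _) ?_)
  have mG : AEMeasurable (fun y => ‖G y‖ₑ ^ p) (μ.restrict B) := iG.1.enorm.pow_const p
  rw [← setLIntegral_const, ← lintegral_add_left' mG, ← inter_eq_left.2 fun y hy => (hW y hy).1,
    ← Measure.restrict_restrict mW, ← lintegral_indicator mW, ← lintegral_add_right' _ (mG.indicator mW)]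
  refine setLIntegral_mono' mB fun y hy => ?_
  obtain ⟨s0, s1⟩ := F1 (g y)
  by_cases k : y ∈ W
  · rw [indicator_of_mem k, (gB y hy).1, F3 _ (hW y k).2, (gB y hy).2, one_smul, sub_sub_cancel, add_comm]
    gcongr
    rw [← ofReal_norm]; exact ENNReal.ofReal_le_ofReal (bC y)
  · rw [indicator_of_notMem k, add_zero, (gB y hy).2, ← ofReal_norm, ← ofReal_norm,
      ENNReal.ofReal_rpow_of_nonneg (norm_nonneg _) (by linarith),
      ENNReal.ofReal_rpow_of_nonneg (norm_nonneg _) (by linarith),
      ENNReal.ofReal_rpow_of_nonneg a0 (by linarith), ← ENNReal.ofReal_add (by positivity) (by positivity)]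
    refine ENNReal.ofReal_le_ofReal ?_
    have : ‖G y - deriv F (g y) • (G y - fderiv ℝ C y)‖ ≤ max ‖G y‖ a := by
      rw [show G y - deriv F (g y) • (G y - fderiv ℝ C y) =
        (1 - deriv F (g y)) • G y + deriv F (g y) • fderiv ℝ C y by module]
      refine (norm_add_le _ _).trans ?_
      rw [norm_smul, norm_smul, Real.norm_of_nonneg s0, Real.norm_of_nonneg (by linarith)]
      nlinarith [le_max_left ‖G y‖ a, (bC y).trans (le_max_right ‖G y‖ a)]
    refine (Real.rpow_le_rpow (norm_nonneg _) this (by linarith)).trans ?_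
    rcases le_total ‖G y‖ a with h | h
    · rw [max_eq_right h]; exact le_add_of_nonneg_left (by positivity)
    · rw [max_eq_left h]; exact le_add_of_nonneg_right (by positivity)

end Pool.Agent.H99.Inf
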