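import Pool.Agent.H99.InfC
import Pool.Agent.H99.InfA

set_option autoImplicit false
set_option linter.unusedSectionVars false

open Filter Topology Set MeasureTheory Metric ContinuousLinearMap
open scoped ENNReal NNReal ContDiff

namespace Pool.Agent.H99.Inf
open Ucp

variable {E : Type*} [NormedAddCommGroup E] [InnerProductSpace ℝ E] [FiniteDimensional ℝ E]
  [MeasurableSpace E] [BorelSpace E] (μ : Measure E) [μ.IsAddHaarMeasure]

lemma scone (x : E) {a η : ℝ} (a0 : 0 ≤ a) (e0 : 0 < η) : ∃ C : E → ℝ, ContDiff ℝ 1 C ∧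
    (∀ y, ‖fderiv ℝ C y‖ ≤ a) ∧ ∀ y, a * ‖y - x‖ ≤ C y ∧ C y ≤ a * ‖y - x‖ + a * η := by
  let v : E → WithLp 2 (E × ℝ) := fun y => WithLp.toLp 2 (y - x, η)
  have n : ∀ y, ‖v y‖ = √(‖y - x‖ ^ 2 + η ^ 2) := fun y => by
    rw [WithLp.prod_norm_eq_of_L2]; simp [v]
  refine ⟨fun y => a * √(‖y - x‖ ^ 2 + η ^ 2), contDiff_const.mul
    ((((contDiff_norm_sq ℝ).comp (contDiff_id.sub contDiff_const)).add contDiff_const).sqrt
      fun y => (add_pos_of_nonneg_of_pos (sq_nonneg _) (pow_pos e0 2)).ne'), fun y => ?_, fun y => ⟨?_, ?_⟩⟩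
  · refine norm_fderiv_le_of_lip' ℝ a0 (.of_forall fun t => ?_)
    rw [← mul_sub, norm_mul, Real.norm_of_nonneg a0, ← n, ← n]
    gcongr
    refine (abs_norm_sub_norm_le _ _).trans (le_of_eq ?_)
    rw [WithLp.prod_norm_eq_of_L2]; simp [v]
  · exact mul_le_mul_of_nonneg_left (Real.le_sqrt_of_sq_le (le_add_of_nonneg_right (by positivity))) a0
  · rw [← mul_add]
    exact mul_le_mul_of_nonneg_left
      (Real.sqrt_le_iff.2 ⟨by positivity, by nlinarith [norm_nonneg (y - x)]⟩) a0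

theorem cone {x : E} {R M : ℝ} (R0 : 0 < R) {f : E → ℝ} (cf : ContinuousOn f (closedBall x R))
    {fj : ℕ → E → ℝ} {Gj : ℕ → E → E →L[ℝ] ℝ} {p : ℕ → ℝ} (hp : Tendsto p atTop atTop)
    (hj : ∀ᶠ j in atTop, ContinuousOn (fj j) (closedBall x R) ∧ Wk μ (ball x R) (fj j) (Gj j) ∧
      IntegrableOn (Gj j) (ball x R) μ ∧ Mn μ x R (p j) (Gj j))
    (un : ∀ θ > 0, ∀ᶠ j in atTop, ∀ y ∈ closedBall x R, |fj j y - f y| ≤ θ)
    (hM : ∀ y ∈ closedBall x R, f y - f x ≤ M) :
    ∀ y ∈ closedBall x R, f y - f x ≤ M * ‖y - x‖ / R := by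
  intro y hy
  have M0 : 0 ≤ M := by simpa using hM x (mem_closedBall_self R0.le)
  obtain ⟨a, rfl⟩ : ∃ a, M = a * R := ⟨M / R, by field_simp⟩
  have a0 : 0 ≤ a := nonneg_of_mul_nonneg_left M0 R0
  rw [show a * R * ‖y - x‖ / R = a * ‖y - x‖ by field_simp]
  by_contra hc
  rw [not_le] at hc
  obtain ⟨δ, hδ⟩ : ∃ δ, f y - f x - a * ‖y - x‖ = 4 * δ := ⟨_, (mul_div_cancel₀ _ four_ne_zero).symm⟩
  have d0 : 0 < δ := by linarith
  have yB : ‖y - x‖ < R := (mem_closedBall_iff_norm.1 hy).lt_of_ne fun e => by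
    rw [e] at hc; linarith [hM y hy]
  obtain ⟨η, e0, eR, ea⟩ : ∃ η, 0 < η ∧ η < R ∧ a * η ≤ δ / 8 := by
    refine ⟨min (R / 2) (δ / 8 / (a + 1)), by positivity, (min_le_left _ _).trans_lt (by linarith), ?_⟩
    calc _ ≤ (a + 1) * (δ / 8 / (a + 1)) := by gcongr; exacts [by linarith, min_le_right _ _]
      _ = _ := by field_simp
  obtain ⟨C, sC, bC, hC⟩ := scone x a0 e0
  have cB : ContinuousOn f (ball x R) := cf.mono ball_subset_closedBall
  let W := ball x R ∩ (fun t => f t - a * ‖t - x‖) ⁻¹' Ioi (f x + 2 * δ)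
  have oW : IsOpen W := (cB.sub (by fun_prop)).isOpen_inter_preimage isOpen_ball isOpen_Ioi
  have en : ∀ᶠ j in atTop, ∫⁻ t in W, ‖Gj j t‖ₑ ^ p j ∂μ ≤ .ofReal a ^ p j * μ (ball x R) := by
    filter_upwards [hj, un (δ / 8) (by positivity), hp.eventually_ge_atTop 1] with j h u p1
    refine energy μ (R' := R - η) (C := fun t => f x + C t) (by linarith) (by linarith) p1 a0 d0 h.1
      h.2.1 h.2.2.1 h.2.2.2 (contDiff_const.add sC) (fun t => by rw [fderiv_const_add]; exact bC t)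
      (fun t ht k => ?_) oW.measurableSet fun t ht => ⟨ht.1, ?_⟩
    · have := hM t (ball_subset_closedBall ht)
      have := abs_le.1 (u t (ball_subset_closedBall ht))
      nlinarith [(hC t).1, mul_le_mul_of_nonneg_left k a0]
    · have := abs_le.1 (u t (ball_subset_closedBall ht.1))
      have k : f x + 2 * δ < f t - a * ‖t - x‖ := ht.2
      linarith [(hC t).2]
  have loc : ∀ z ∈ W, ∃ r > 0, ∀ y1 ∈ ball z r, ∀ y2 ∈ ball z r, f y2 - f y1 ≤ a * ‖y2 - y1‖ := by
    intro z hz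
    obtain ⟨r3, r0, hr⟩ := Metric.isOpen_iff.1 oW z hz
    obtain ⟨r, rfl⟩ : ∃ r, r3 = 3 * r := ⟨r3 / 3, by ring⟩
    have r0' : 0 < r := by linarith
    have sB : ball z (3 * r) ⊆ ball x R := fun t ht => (hr ht).1
    refine ⟨r, r0', fun y1 h1 y2 h2 => le_of_forall_pos_le_add fun θ θ0 => ?_⟩
    have s3 : ball z r ⊆ ball x R := (ball_subset_ball (by linarith)).trans sB
    obtain ⟨ρ1, p1, q1⟩ := Metric.continuousAt_iff.1 (cB.continuousAt (isOpen_ball.mem_nhds (s3 h1)))
      (θ / 8) (by positivity)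
    obtain ⟨ρ2, p2, q2⟩ := Metric.continuousAt_iff.1 (cB.continuousAt (isOpen_ball.mem_nhds (s3 h2)))
      (θ / 8) (by positivity)
    have m0 : 0 < min r (min ρ1 ρ2) := by positivity
    let φ : ContDiffBump (0 : E) := ⟨min r (min ρ1 ρ2) / 2, min r (min ρ1 ρ2), by positivity, by linarith⟩
    obtain ⟨c, hc⟩ := (φ.continuous_normed (μ := μ)).bounded_above_of_compact_support
      φ.hasCompactSupport_normed
    have c0 : 0 ≤ c := (norm_nonneg _).trans (hc 0)
    set V := μ.real (ball x R)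
    have V0 : 0 ≤ V := measureReal_nonneg
    have T : Tendsto (fun j => θ + a * (c * V + 1) ^ (p j)⁻¹ * ‖y2 - y1‖) atTop
        (𝓝 (θ + a * (c * V + 1) ^ (0 : ℝ) * ‖y2 - y1‖)) :=
      (((tendsto_const_nhds.rpow hp.inv_tendsto_atTop (.inl (by positivity))).const_mul a).mul_const
        _).const_add θ
    rw [Real.rpow_zero, mul_one] at T
    rw [add_comm]
    refine ge_of_tendsto T ?_
    filter_upwards [hj, un (θ / 24) (by positivity), hp.eventually_ge_atTop 1, en] with j h u p1' e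
    have os : ∀ {y1 ρ}, y1 ∈ ball z r → φ.rOut ≤ ρ → (∀ ⦃t⦄, dist t y1 < ρ → dist (f t) (f y1) < θ / 8) →
        ∀ t ∈ ball y1 φ.rOut, dist ((ball x R).indicator (fj j) t) ((ball x R).indicator (fj j) y1)
          ≤ 11 * θ / 24 := fun {y1 ρ} h1 l q t ht => by
      have k : φ.rOut ≤ r := min_le_left _ _
      have tB : t ∈ ball x R := sB (by rw [mem_ball] at *; linarith [dist_triangle t y1 z])
      have := q (ht.trans_le l)
      have u1 := abs_le.1 (u t (ball_subset_closedBall tB))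
      have u2 := abs_le.1 (u y1 (ball_subset_closedBall (s3 h1)))
      rw [Real.dist_eq, abs_lt] at this
      rw [indicator_of_mem tB, indicator_of_mem (s3 h1), Real.dist_eq, abs_le]
      constructor <;> linarith
    have := lip1 μ p1' (iind μ measurableSet_ball ((h.1.integrableOn_compact (μ := μ)
      (isCompact_closedBall _ _)).mono_set ball_subset_closedBall))
      (iind (Y := E →L[ℝ] ℝ) μ measurableSet_ball h.2.2.1)
      (fun φ a b c => wind μ h.2.1 φ a b (c.trans sB)) φ (min_le_left _ _) (c := c)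
      (L := a * (c * V + 1) ^ (p j)⁻¹) (fun t => (le_abs_self _).trans (hc t)) (by positivity) (by
        calc _ = ENNReal.ofReal c * ∫⁻ t in ball z (3 * r), ‖Gj j t‖ₑ ^ p j ∂μ := by
              congr 1
              exact setLIntegral_congr_fun measurableSet_ball fun t ht => by
                simp only [indicator_of_mem (sB ht)]
          _ ≤ .ofReal c * (.ofReal a ^ p j * .ofReal V) := by
              gcongr
              rw [ofReal_measureReal measure_ball_lt_top.ne]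
              exact (lintegral_mono_set hr).trans e
          _ ≤ _ := by
              rw [ENNReal.ofReal_mul a0, ENNReal.mul_rpow_of_nonneg _ _ (by linarith),
                ← ENNReal.ofReal_rpow_of_nonneg (by positivity) (by positivity),
                ENNReal.rpow_inv_rpow (by linarith), mul_left_comm, ← ENNReal.ofReal_mul c0]
              gcongr; linarith) h1 h2
      (os h1 ((min_le_right _ _).trans (min_le_left _ _)) q1)
      (os h2 ((min_le_right _ _).trans (min_le_right _ _)) q2)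
    rw [indicator_of_mem (s3 h1), indicator_of_mem (s3 h2)] at this
    have u1 := abs_le.1 (u y1 (ball_subset_closedBall (s3 h1)))
    have u2 := abs_le.1 (u y2 (ball_subset_closedBall (s3 h2)))
    linarith
  let γ : ℝ → E := fun s => y + s • (x - y)
  have cγ : Continuous γ := by fun_prop
  have nγ : ∀ s ∈ Icc (0 : ℝ) 1, ‖γ s - x‖ = (1 - s) * ‖y - x‖ := fun s hs => by
    rw [show γ s - x = (1 - s) • (y - x) by simp only [γ]; module, norm_smul,
      Real.norm_of_nonneg (by linarith [hs.2])]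
  have bγ : ∀ s ∈ Icc (0 : ℝ) 1, γ s ∈ ball x R := fun s hs => by
    rw [mem_ball_iff_norm, nγ s hs]; nlinarith [hs.1, norm_nonneg (y - x)]
  let S := (fun s => f (γ s) - a * ‖γ s - x‖) ⁻¹' Ici (f x + 4 * δ)
  have cl : IsClosed (S ∩ Icc 0 1) := by
    rw [inter_comm]
    exact ((cB.comp cγ.continuousOn bγ).sub (by fun_prop)).preimage_isClosed_of_isClosed
      isClosed_Icc isClosed_Ici
  have : (1 : ℝ) ∈ S := by
    refine cl.Icc_subset_of_forall_exists_gt (by simp [S, γ]; linarith) ?_ ⟨zero_le_one, le_rfl⟩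
    rintro s ⟨hs, s0, s1⟩ t (ht : s < t)
    have k : f x + 4 * δ ≤ f (γ s) - a * ‖γ s - x‖ := hs
    obtain ⟨r, r0, hr⟩ := loc (γ s) ⟨bγ s ⟨s0, s1.le⟩, by show f x + 2 * δ < _; linarith⟩
    obtain ⟨s', ⟨b1, b2⟩, b3⟩ := (Filter.Eventually.and
      (show ∀ᶠ s' in 𝓝[>] s, s' ∈ Ioo s (min t 1) from Ioo_mem_nhdsGT (lt_min ht s1))
      (((cγ.tendsto s).eventually (ball_mem_nhds _ r0)).filter_mono nhdsWithin_le_nhds)).exists
    rw [lt_min_iff] at b2
    refine ⟨s', ?_, b1, b2.1.le⟩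
    have := hr _ b3 _ (mem_ball_self r0)
    rw [show γ s - γ s' = (s' - s) • (y - x) by simp only [γ]; module, norm_smul,
      Real.norm_of_nonneg (by linarith)] at this
    show f x + 4 * δ ≤ f (γ s') - a * ‖γ s' - x‖
    rw [nγ s ⟨s0, s1.le⟩] at k
    rw [nγ s' ⟨by linarith, b2.2.le⟩]
    linarith
  simp [S, γ] at this
  linarith

end Pool.Agent.H99.Inf
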