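import Mathlib

set_option autoImplicit false

open Filter Topology Set MeasureTheory Metric
open scoped ENNReal ContDiff

namespace Pool.Agent.H99.InfH

/-- The Euclidean plane. -/
abbrev P : Type := EuclideanSpace ℝ (Fin 2)

/-- `G = du`: on every ball in `Ω`, `G` is the distributional derivative of every continuous real
lift of `u : Ω → ℝ/ℤ`. -/
def IsDu (Ω : Set P) (u : P → UnitAddCircle) (G : P → P →L[ℝ] ℝ) : Prop :=
  ∀ x r, ball x r ⊆ Ω → ∀ f : P → ℝ, ContinuousOn f (ball x r) →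
    (∀ y ∈ ball x r, (f y : UnitAddCircle) = u y) →
    ∀ φ : P → ℝ, ContDiff ℝ ∞ φ → HasCompactSupport φ → tsupport φ ⊆ ball x r → ∀ v : P,
      ∫ y, fderiv ℝ φ y v • f y = -∫ y, φ y • G y v

/-- `u` is homotopic to `u₀` on the closure of `Ω`, relative to the boundary. -/
def HomRel (Ω : Set P) (u u₀ : P → UnitAddCircle) : Prop :=
  ∃ H : ℝ × P → UnitAddCircle, ContinuousOn H (Icc 0 1 ×ˢ closure Ω) ∧
    (∀ x ∈ closure Ω, H (0, x) = u x ∧ H (1, x) = u₀ x) ∧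
    ∀ t ∈ Icc (0 : ℝ) 1, ∀ x ∈ frontier Ω, H (t, x) = u₀ x

/-- `u ∈ C_p(u₀)`, with `du = G ∈ L^p(Ω)`. -/
def InC (p : ℝ) (Ω : Set P) (u₀ u : P → UnitAddCircle) (G : P → P →L[ℝ] ℝ) : Prop :=
  HomRel Ω u u₀ ∧ IsDu Ω u G ∧ MemLp G (ENNReal.ofReal p) (volume.restrict Ω)

/-- `u` minimizes `E_p = ∫_Ω |du|^p` over `C_p(u₀)`. -/
def Minimizer (p : ℝ) (Ω : Set P) (u₀ u : P → UnitAddCircle) : Prop :=
  ∃ G, InC p Ω u₀ u G ∧ ∀ w H, InC p Ω u₀ w H → ∫⁻ x in Ω, ‖G x‖ₑ ^ p ≤ ∫⁻ x in Ω, ‖H x‖ₑ ^ p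

/-- `u` is a uniform limit of minimizers `u_{p_j}`, `p_j → ∞`. -/
def InfHarm (Ω : Set P) (u₀ u : P → UnitAddCircle) : Prop :=
  ∃ (p : ℕ → ℝ) (w : ℕ → P → UnitAddCircle), Tendsto p atTop atTop ∧
    (∀ j, 2 < p j ∧ Minimizer (p j) Ω u₀ (w j)) ∧ TendstoUniformlyOn w u atTop (closure Ω)

end Pool.Agent.H99.InfH
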