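import Pool.Agent.H99.InfD
import Pool.Agent.H99.InfDefs

set_option autoImplicit false
set_option linter.unusedSectionVars false

open Filter Topology Set MeasureTheory Metric
open scoped ENNReal ContDiff unitInterval

namespace Pool.Agent.H99.InfH
open Ucp Inf

noncomputable def lf (t : UnitAddCircle) : ℝ := AddCircle.equivIoc 1 (-(1 / 2)) t

lemma lf_coe (t : UnitAddCircle) : (lf t : UnitAddCircle) = t := AddCircle.coe_equivIoc

lemma lf_abs (t : UnitAddCircle) : |lf t| = ‖t‖ := by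
  have := (AddCircle.equivIoc 1 (-(1 / 2)) t).2
  conv_rhs => rw [← lf_coe t]
  refine ((AddCircle.norm_coe_eq_abs_iff _ one_ne_zero).2 ?_).symm
  rw [abs_one, abs_le]
  exact ⟨this.1.le, this.2.trans (by norm_num)⟩

lemma lf_eq {r : ℝ} {t : UnitAddCircle} (e : (r : UnitAddCircle) = t) (h : |r| < 1 / 2) : lf t = r := by
  rw [abs_lt] at h
  rw [← e]
  exact AddCircle.equivIoc_coe_of_mem ⟨h.1, by linarith⟩

lemma lf_cont {t : UnitAddCircle} (h : ‖t‖ < 1 / 2) : ContinuousAt lf t := by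
  refine continuous_subtype_val.continuousAt.comp (AddCircle.continuousAt_equivIoc _ _ fun e => ?_)
  rw [e, (AddCircle.norm_coe_eq_abs_iff _ one_ne_zero).2 (by norm_num [abs_of_pos])] at h
  norm_num [abs_of_pos] at h

lemma lf0 : lf 0 = 0 := by simpa using lf_abs 0

lemma lfc {X : Type*} [TopologicalSpace X] {g : X → UnitAddCircle} {s : Set X} (h : ContinuousOn g s)
    (b : ∀ x ∈ s, ‖g x‖ < 1 / 2) : ContinuousOn (fun x => lf (g x)) s :=
  fun x hx => (lf_cont (b x hx)).comp_continuousWithinAt (h x hx)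

variable {Ω : Set P} {u u₀ v : P → UnitAddCircle}

lemma HomRel.cont (h : HomRel Ω u u₀) : ContinuousOn u (closure Ω) := by
  obtain ⟨H, c, e, -⟩ := h
  exact (c.comp (Continuous.prodMk_right 0).continuousOn fun x hx => ⟨⟨le_rfl, zero_le_one⟩, hx⟩).congr
    fun x hx => (e x hx).1.symm

lemma glift (h : HomRel Ω u u₀) : ∃ f : P → ℝ, ContinuousOn f (closure Ω) ∧
    (∀ x ∈ closure Ω, (f x : UnitAddCircle) = u₀ x - u x) ∧ ∀ x ∈ frontier Ω, f x = 0 := by
  classical
  obtain ⟨H, c, e, b⟩ := h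
  have c1 : Continuous fun q : I × closure Ω => H (q.1, q.2) :=
    c.comp_continuous (by fun_prop) fun q => ⟨q.1.2, q.2.2⟩
  have c2 : Continuous fun q : I × closure Ω => H (0, q.2) :=
    c.comp_continuous (by fun_prop) fun q => ⟨⟨le_rfl, zero_le_one⟩, q.2.2⟩
  have cov := AddCircle.isCoveringMap_coe (1 : ℝ)
  let L := cov.liftHomotopy ⟨fun q : I × closure Ω => H (q.1, q.2) - H (0, q.2), c1.sub c2⟩
    (ContinuousMap.const _ 0) fun a => by simp
  have l : ∀ q, (L q : UnitAddCircle) = H (q.1, q.2) - H (0, q.2) := fun q =>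
    congrFun (cov.liftHomotopy_lifts _ _ _) q
  refine ⟨fun x => if h : x ∈ closure Ω then L (1, ⟨x, h⟩) else 0,
    continuousOn_iff_continuous_domRestrict.2 ((L.continuous.comp (Continuous.prodMk_right 1)).congr
      fun x => by simp [x.2]), fun x hx => by simp [hx, l, e x hx], fun x hx => ?_⟩
  have k := frontier_subset_closure hx
  simp only [dif_pos k]
  refine (cov.const_of_comp (g := fun t : I => L (t, ⟨x, k⟩)) (by fun_prop) (fun s t => ?_) 1 0).trans
    (cov.liftHomotopy_zero _ _ _ _)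
  simp only [l, b _ s.2 x hx, b _ t.2 x hx]

lemma ilift (h : InfHarm Ω u₀ u) : ContinuousOn u (closure Ω) ∧ ∃ f : P → ℝ,
    ContinuousOn f (closure Ω) ∧ (∀ x ∈ closure Ω, (f x : UnitAddCircle) = u₀ x - u x) ∧
      ∀ x ∈ frontier Ω, f x = 0 := by
  obtain ⟨p, w, -, m, un⟩ := h
  have hr : ∀ j, HomRel Ω (w j) u₀ := fun j => by obtain ⟨G, a, -⟩ := (m j).2; exact a.1
  have cu := un.continuousOn (.of_forall fun j => (hr j).cont)
  obtain ⟨j, hj⟩ := (Metric.tendstoUniformlyOn_iff.1 un (1 / 2) (by norm_num)).exists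
  obtain ⟨f, c, e, b⟩ := glift (hr j)
  refine ⟨cu, fun x => f x + lf (w j x - u x), c.add (lfc ((hr j).cont.sub cu) fun x hx => by
    rw [← dist_eq_norm']; exact hj x hx), fun x hx => by simp [e x hx, lf_coe], fun x hx => ?_⟩
  have k : ∀ j, w j x = u₀ x := fun j => by
    obtain ⟨H, -, e, b⟩ := hr j
    rw [← (e x (frontier_subset_closure hx)).1, b 0 ⟨le_rfl, zero_le_one⟩ x hx]
  have := un.tendsto_at (frontier_subset_closure hx)
  simp only [k] at this
  simp [b x hx, k, tendsto_nhds_unique this tendsto_const_nhds, lf0]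

lemma ism {g c : P → ℝ} (cc : Continuous c) {K : Set P} (hK : IsCompact K)
    (s : Function.support c ⊆ K) (h : IntegrableOn g K) : Integrable fun y => c y • g y :=
  (integrableOn_iff_integrable_of_support_subset ((Function.support_smul_subset_left _ _).trans s)).1
    (h.continuousOn_smul cc.continuousOn hK)

lemma mn_of (ho : IsOpen Ω) (hb : Bornology.IsBounded Ω) {p : ℝ} (hp : 1 ≤ p) {G : P → P →L[ℝ] ℝ}
    (h : InC p Ω u₀ u G) (m : ∀ w H, InC p Ω u₀ w H → ∫⁻ x in Ω, ‖G x‖ₑ ^ p ≤ ∫⁻ x in Ω, ‖H x‖ₑ ^ p)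
    {x : P} {R : ℝ} (s : ball x R ⊆ Ω) : IntegrableOn G (ball x R) ∧ Mn volume x R p G := by
  have : IsFiniteMeasure (volume.restrict Ω) := isFiniteMeasure_restrict.2 hb.measure_lt_top.ne
  have p0 : 0 < p := by linarith
  have iG : IntegrableOn G Ω := h.2.2.integrable (ENNReal.one_le_ofReal.2 hp)
  have fin := h.2.2.2
  rw [eLpNorm_lt_top_iff_lintegral_rpow_enorm_lt_top (ENNReal.ofReal_pos.2 p0).ne'
    ENNReal.ofReal_ne_top, ENNReal.toReal_ofReal p0.le] at fin
  refine ⟨iG.mono_set s, (lintegral_mono_set s).trans_lt fin, fun ψ H cψ z iH w => ?_⟩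
  by_cases t : ∫⁻ y in ball x R, ‖G y - H y‖ₑ ^ p = ⊤
  · rw [t]; exact le_top
  have sp : ∀ f : P → ℝ≥0∞, ∫⁻ y in Ω, f y = (∫⁻ y in ball x R, f y) + ∫⁻ y in Ω \ ball x R, f y :=
    fun f => by
    rw [← lintegral_inter_add_sdiff f Ω measurableSet_ball, inter_eq_right.2 s]
  have e : ∫⁻ y in Ω \ ball x R, ‖G y - H y‖ₑ ^ p = ∫⁻ y in Ω \ ball x R, ‖G y‖ₑ ^ p :=
    setLIntegral_congr_fun (ho.measurableSet.diff measurableSet_ball) fun y hy => by
      simp only [(z y hy.2).2, sub_zero]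
  have f2 : ∫⁻ y in Ω \ ball x R, ‖G y‖ₑ ^ p ≠ ⊤ := ((lintegral_mono_set sdiff_subset).trans_lt fin).ne
  have := m (fun y => u y - ψ y) (fun y => G y - H y) ⟨?_, ?_, (iG.sub iH.integrableOn).1, ?_⟩
  · rw [sp, sp fun y => ‖G y - H y‖ₑ ^ p, e] at this
    exact ENNReal.le_of_add_le_add_right f2 this
  · obtain ⟨K, c, e, b⟩ := h.1
    refine ⟨fun q => K q - ((1 - q.1) * ψ q.2 : ℝ), c.sub (Continuous.continuousOn
      ((AddCircle.continuous_mk' 1).comp (by fun_prop))), fun y hy => by simp [e y hy],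
      fun t ht y hy => ?_⟩
    have : y ∉ ball x R := fun k => (ho.frontier_eq ▸ hy).2 (s k)
    simp [b t ht y hy, (z y this).1]
  · intro y r sB g cg eg φ a c k v
    have q := h.2.1 y r sB (fun t => g t + ψ t) (cg.add cψ.continuousOn)
      (fun t ht => by simp [eg t ht]) φ a c k v
    have q' := w φ a c (subset_univ _) v
    have c1 : Continuous fun x => fderiv ℝ φ x v :=
      (a.continuous_fderiv (by simp)).clm_apply continuous_const
    have s1 : Function.support (fun x => fderiv ℝ φ x v) ⊆ tsupport φ := fun t ht =>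
      support_fderiv_subset ℝ fun j => ht (by simp [j])
    simp only [smul_add, smul_sub, sub_apply] at q ⊢
    rw [integral_add (ism c1 c s1 ((cg.mono k).integrableOn_compact c))
      (ism c1 c s1 (cψ.continuousOn.integrableOn_compact c))] at q
    rw [integral_sub (ism a.continuous c subset_closure
      ((iG.mono_set (k.trans sB)).apply_continuousLinearMap v))
      (ism a.continuous c subset_closure (iH.apply_continuousLinearMap v).integrableOn)]
    linarith
  · rw [eLpNorm_lt_top_iff_lintegral_rpow_enorm_lt_top (ENNReal.ofReal_pos.2 p0).ne'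
      ENNReal.ofReal_ne_top, ENNReal.toReal_ofReal p0.le, sp, e]
    exact ENNReal.add_lt_top.2 ⟨lt_top_iff_ne_top.2 t, f2.lt_top⟩

lemma wneg {O : Set P} {f : P → ℝ} {G : P → P →L[ℝ] ℝ} (h : Wk volume O f G) :
    Wk volume O (fun y => -f y) fun y => -G y := fun φ a b c v => by
  simp only [smul_neg, neg_apply, integral_neg, h φ a b c v]

lemma mneg {x : P} {R p : ℝ} {G : P → P →L[ℝ] ℝ} (h : Mn volume x R p G) :
    Mn volume x R p fun y => -G y := by
  have n : ∀ L : P →L[ℝ] ℝ, ‖-L‖ₑ = ‖L‖ₑ := fun L => by rw [← ofReal_norm, norm_neg, ofReal_norm]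
  refine ⟨by simpa only [n] using h.1, fun ψ H c z i w => ?_⟩
  have := h.2 (fun y => -ψ y) (fun y => -H y) c.neg (fun y hy => by simp [z y hy]) i.neg (wneg w)
  simp only [n]
  refine this.trans (le_of_eq (lintegral_congr fun y => ?_))
  rw [← n]; congr 2; abel

lemma ccU (ho : IsOpen Ω) (hb : Bornology.IsBounded Ω) (h : InfHarm Ω u₀ u) {ε : ℝ} (e0 : 0 < ε)
    {D : Set P} (hD : ∀ x ∈ D, ball x (2 * ε) ⊆ Ω)
    (sm : ∀ q ∈ Pr (closure Ω) ε, ‖u q.2 - u q.1‖ < 1 / 2) :
    CC D ε (fun x y => lf (u y - u x)) ∧ CC D ε fun x y => -lf (u y - u x) := by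
  have cu := (ilift h).1
  obtain ⟨p, w, hp, m, un⟩ := h
  choose G hG mG using fun j => (m j).2
  suffices k : ∀ x ∈ D, ∃ (f : P → ℝ) (fj : ℕ → P → ℝ), (∀ y, f y - f x = lf (u y - u x)) ∧
      ContinuousOn f (closedBall x (2 * ε)) ∧ (∀ᶠ j in atTop, ContinuousOn (fj j) (closedBall x (2 * ε)) ∧
      Wk volume (ball x (2 * ε)) (fj j) (G j) ∧ IntegrableOn (G j) (ball x (2 * ε)) ∧
      Mn volume x (2 * ε) (p j) (G j)) ∧
      ∀ θ > 0, ∀ᶠ j in atTop, ∀ y ∈ closedBall x (2 * ε), |fj j y - f y| ≤ θ by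
    constructor <;> intro x hx M hM <;> obtain ⟨f, fj, e, c, a, b⟩ := k x hx
    · simpa only [e] using cone volume (by linarith) c hp a b (by simpa only [e] using hM)
    · have e' : ∀ y, -f y - -f x = -lf (u y - u x) := fun y => by rw [← e]; ring
      simpa only [e'] using cone volume (f := fun y => -f y) (fj := fun j y => -fj j y)
        (Gj := fun j y => -G j y) (by linarith) c.neg hp
        (a.mono fun j k => ⟨k.1.neg, wneg k.2.1, k.2.2.1.neg, mneg k.2.2.2⟩)
        (fun θ t => (b θ t).mono fun j k y hy => by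
          rw [neg_sub_neg, abs_sub_comm]; exact k y hy) (by simpa only [e'] using hM)
  intro x hx
  have sK : closedBall x (2 * ε) ⊆ closure Ω :=
    closure_ball x (by positivity : 2 * ε ≠ 0) ▸ closure_mono (hD x hx)
  have cf : ContinuousOn (fun y => lf (u x) + lf (u y - u x)) (closedBall x (2 * ε)) :=
    continuousOn_const.add (lfc ((cu.mono sK).sub continuousOn_const) fun y hy =>
      sm (x, y) ⟨sK (mem_closedBall_self (by positivity)), sK hy, mem_closedBall_iff_norm.1 hy⟩)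
  refine ⟨_, fun j y => lf (u x) + lf (u y - u x) + lf (w j y - u y), fun y => by simp [lf0], cf, ?_,
    fun θ t => (Metric.tendstoUniformlyOn_iff.1 un θ t).mono fun j k y hy => by
      rw [add_sub_cancel_left, lf_abs, ← dist_eq_norm']; exact (k y (sK hy)).le⟩
  filter_upwards [Metric.tendstoUniformlyOn_iff.1 un (1 / 2) (by norm_num)] with j k
  have c := cf.add (lfc (((hG j).1.cont.sub cu).mono sK) fun y hy => by
    rw [Pi.sub_apply, ← dist_eq_norm']; exact k y (sK hy))
  exact ⟨c, (hG j).2.1 x _ (hD x hx) _ (c.mono ball_subset_closedBall) fun y _ => by simp [lf_coe],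
    mn_of ho hb (by linarith [(m j).1]) (hG j) (mG j) (hD x hx)⟩

lemma half (ho : IsOpen Ω) (hb : Bornology.IsBounded Ω) (hu : InfHarm Ω u₀ u) (hv : InfHarm Ω u₀ v)
    {w : P → ℝ} (cw : ContinuousOn w (closure Ω))
    (ew : ∀ x ∈ closure Ω, (w x : UnitAddCircle) = u x - v x) (bw : ∀ x ∈ frontier Ω, w x = 0) :
    ∀ x ∈ closure Ω, w x ≤ 0 := by
  have cu := (ilift hu).1
  have cv := (ilift hv).1
  have cK := hb.isCompact_closure
  suffices k : ∀ η, 0 < η → η < 1 / 8 → ∀ x ∈ closure Ω, w x ≤ 3 * η from fun x hx =>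
    le_of_forall_pos_le_add fun e e0 => by
      linarith [k (min (e / 3) (1 / 16)) (by positivity) ((min_le_right _ _).trans_lt (by norm_num))
        x hx, min_le_left (e / 3) (1 / 16)]
  intro η η0 η1
  obtain ⟨d, d0, hd⟩ := Metric.uniformContinuousOn_iff.1
    (cK.uniformContinuousOn_of_continuous (cu.prodMk (cv.prodMk cw))) η η0
  obtain ⟨ε, rfl⟩ : ∃ ε, d = 3 * ε := ⟨d / 3, by ring⟩
  have e0 : 0 < ε := by linarith
  have sm : ∀ q ∈ Pr (closure Ω) ε, ‖u q.2 - u q.1‖ < η ∧ ‖v q.2 - v q.1‖ < η ∧ |w q.2 - w q.1| < η :=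
    fun q hq => by
    have := hd _ hq.2.1 _ hq.1 (by rw [dist_eq_norm]; linarith [hq.2.2])
    simp only [Prod.dist_eq, max_lt_iff] at this
    simpa only [dist_eq_norm, Real.norm_eq_abs] using this
  have ne : Ω ≠ univ := fun e => NormedSpace.unbounded_univ ℝ P (e ▸ hb)
  have bl : ∀ {x : P} {r : ℝ}, r ≤ infDist x Ωᶜ → ball x r ⊆ Ω := fun h =>
    (ball_subset_ball h).trans ball_infDist_compl_subset
  have cb : ∀ {x : P} {r : ℝ}, 0 < r → r ≤ infDist x Ωᶜ → closedBall x r ⊆ closure Ω := fun {x r} r0 h =>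
    closure_ball x r0.ne' ▸ closure_mono (bl h)
  have bd : ∀ x ∈ closure Ω, ¬2 * ε ≤ infDist x Ωᶜ → w x ≤ η := fun x hx n => by
    by_cases k : x ∈ Ω
    · obtain ⟨y, hy, e⟩ := exists_mem_frontier_infDist_compl_eq_dist k ne
      have := (sm (y, x) ⟨frontier_subset_closure hy, hx, by
        rw [e, dist_eq_norm] at n; exact (not_le.1 n).le⟩).2.2
      simp only [bw y hy, sub_zero] at this
      exact (le_abs_self _).trans this.le
    · rw [bw x (ho.frontier_eq ▸ ⟨hx, k⟩)]; exact η0.le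
  have cc : ∀ {g : P → UnitAddCircle}, ContinuousOn g (closure Ω) →
      (∀ q ∈ Pr (closure Ω) ε, ‖g q.2 - g q.1‖ < η) →
      ContinuousOn (fun q : P × P => lf (g q.2 - g q.1)) (Pr (closure Ω) ε) ∧
      Co (closure Ω) ε fun x y => lf (g y - g x) := fun {g} c s =>
    ⟨lfc ((c.comp continuousOn_snd fun q hq => hq.2.1).sub (c.comp continuousOn_fst fun q hq => hq.1))
      fun q hq => (s q hq).trans (by linarith), fun x hx y hy z hz a b c => lf_eq (by simp [lf_coe]) (by
        have := abs_add_le (lf (g y - g x)) (lf (g z - g y))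
        rw [lf_abs, lf_abs] at this
        linarith [s (x, y) ⟨hx, hy, a⟩, s (y, z) ⟨hy, hz, c⟩])⟩
  have U := cc cu fun q hq => (sm q hq).1
  have V := cc cv fun q hq => (sm q hq).2.1
  have s1 : {x : P | ε ≤ infDist x Ωᶜ} ⊆ closure Ω := fun x hx => cb e0 hx (mem_closedBall_self e0.le)
  intro x hx
  by_cases k : 2 * ε ≤ infDist x Ωᶜ
  swap
  · linarith [bd x hx k]
  refine disc (K := closure Ω) (D1 := {x : P | ε ≤ infDist x Ωᶜ}) (D2 := {x : P | 2 * ε ≤ infDist x Ωᶜ})
    e0 U.1 V.1.neg (cK.of_isClosed_subset (isClosed_le continuous_const (continuous_infDist_pt _)) s1)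
    (fun x hx => cb e0 hx) (fun x hx y hy => ?_) (fun x hx => cb (by linarith) hx) U.2
    (ccU ho hb hu e0 (fun x hx => bl hx) fun q hq => (sm q hq).1.trans (by linarith)).1
    (fun x hx y hy z hz a b c => by simp only [V.2 x hx y hy z hz a b c]; ring)
    (ccU ho hb hv e0 (fun x hx => bl hx) fun q hq => (sm q hq).2.1.trans (by linarith)).2
    (cw.mono s1) (fun q hq => ?_) (fun q hq => ?_) (fun x hx n => bd x (s1 hx) n) x k
  · have := infDist_le_infDist_add_dist (x := x) (y := y) (s := Ωᶜ)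
    rw [mem_closedBall, dist_comm] at hy
    show ε ≤ _
    linarith [show 2 * ε ≤ _ from hx]
  · have := lf_eq (r := w q.2 - w q.1 + lf (v q.2 - v q.1)) (t := u q.2 - u q.1)
      (by simp [lf_coe, ew _ hq.1, ew _ hq.2.1]; abel) (by
        have := abs_add_le (w q.2 - w q.1) (lf (v q.2 - v q.1))
        rw [lf_abs] at this
        linarith [(sm q hq).2.1, (sm q hq).2.2])
    linarith
  · have a := lf_abs (u q.2 - u q.1)
    have b := lf_abs (v q.2 - v q.1)
    exact ⟨by linarith [le_abs_self (lf (u q.2 - u q.1)), (sm q hq).1],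
      by linarith [neg_le_abs (lf (v q.2 - v q.1)), (sm q hq).2.1]⟩

theorem uniq (ho : IsOpen Ω) (hb : Bornology.IsBounded Ω) (hu : InfHarm Ω u₀ u)
    (hv : InfHarm Ω u₀ v) : ∀ x ∈ closure Ω, u x = v x := by
  obtain ⟨-, f, cf, ef, bf⟩ := ilift hu
  obtain ⟨-, g, cg, eg, bg⟩ := ilift hv
  intro x hx
  have a := half ho hb hu hv (cg.sub cf) (fun x hx => by simp [ef x hx, eg x hx])
    (fun x hx => by simp [bf x hx, bg x hx]) x hx
  have b := half ho hb hv hu (cf.sub cg) (fun x hx => by simp [ef x hx, eg x hx])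
    (fun x hx => by simp [bf x hx, bg x hx]) x hx
  have : f x = g x := by simp only [Pi.sub_apply] at a b; linarith
  have k := ef x hx
  rw [this, eg x hx] at k
  exact (sub_right_injective k).symm

end Pool.Agent.H99.InfH
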