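import Mathlib

set_option autoImplicit false

namespace Pool.Agent.H99.Jet

open MvPolynomial

/-- The ring A = ℝ[u_0, u_1, u_2, ...]; the variable u_i is X i. -/
abbrev A := MvPolynomial ℕ ℝ

/-- The derivation d of A with d(u_i) = u_(i+1). -/
noncomputable def d : Derivation ℝ A A := mkDerivation ℝ fun i => X (i + 1)

/-- The product f * g = sum over i of f_i d^i g + (-d)^i (f g_i), with f_i the derivative of f
in u_i. Outside the finite set of variables occurring in f or g both f_i and g_i vanish. -/
noncomputable def jetProd (f g : A) : A :=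
  ∑ i ∈ f.vars ∪ g.vars, (pderiv i f * (d^[i] g) + (-1) ^ i * (d^[i] (f * pderiv i g)))

end Pool.Agent.H99.Jet
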