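import Mathlib
import Pool.Agent.H99.JetDefs

set_option autoImplicit false

namespace Pool.Agent.H99.Jet

open MvPolynomial Finset

lemma der_sum_apply {σ ι : Type*} (s : Finset ι)
    (D : ι → Derivation ℝ (MvPolynomial σ ℝ) (MvPolynomial σ ℝ)) (h : MvPolynomial σ ℝ) :
    (∑ i ∈ s, D i) h = ∑ i ∈ s, D i h := by
  classical
  induction s using Finset.induction_on with
  | empty => simp
  | insert i s hi ih => rw [sum_insert hi, sum_insert hi, Derivation.add_apply, ih]

lemma der_eq_sum {σ : Type*} (D : Derivation ℝ (MvPolynomial σ ℝ) (MvPolynomial σ ℝ))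
    (h : MvPolynomial σ ℝ) (s : Finset σ) (hs : h.vars ⊆ s) :
    D h = ∑ i ∈ s, pderiv i h * D (X i) := by
  classical
  have := derivation_eq_of_forall_mem_vars (D₁ := D) (D₂ := ∑ i ∈ s, D (X i) • pderiv i)
    (f := h) (by
      intro j hj
      rw [der_sum_apply, sum_eq_single j]
      · simp
      · intro i _ hij
        simp [pderiv_X_of_ne hij.symm]
      · intro hj'
        exact absurd (hs hj) hj')
  rw [this, der_sum_apply]
  refine sum_congr rfl fun i _ => ?_
  simp [mul_comm]

lemma der_homog {σ : Type*} (D : Derivation ℝ (MvPolynomial σ ℝ) (MvPolynomial σ ℝ)) (a : ℕ)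
    (hD : ∀ i, (D (X i)).IsHomogeneous (a + 1)) {h : MvPolynomial σ ℝ} {k : ℕ}
    (hh : h.IsHomogeneous k) : (D h).IsHomogeneous (k + a) := by
  classical
  rcases Nat.eq_zero_or_pos k with rfl | hk
  · have : h = C (coeff 0 h) := by
      rw [← homogeneousComponent_zero, homogeneousComponent_eq_self hh]
    rw [this, derivation_C]
    exact isHomogeneous_zero _ _ _
  · rw [der_eq_sum D h h.vars Subset.rfl]
    apply IsHomogeneous.sum
    intro i _
    have := (hh.pderiv (i := i)).mul (hD i)
    rwa [show k - 1 + (a + 1) = k + a by omega] at this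

lemma d_X (i : ℕ) : d (X i) = X (i + 1) := mkDerivation_X _ _ _

lemma d_homog {h : A} {k : ℕ} (hh : h.IsHomogeneous k) : (d h).IsHomogeneous k :=
  der_homog d 0 (fun i => by rw [d_X]; exact isHomogeneous_X _ _) hh

lemma d_iter_homog {h : A} {k : ℕ} (hh : h.IsHomogeneous k) (i : ℕ) :
    (d^[i] h).IsHomogeneous k := by
  induction i with
  | zero => exact hh
  | succ i ih => rw [Function.iterate_succ_apply']; exact d_homog ih

lemma d_iter_zero (i : ℕ) : d^[i] (0 : A) = 0 := Function.iterate_fixed (map_zero d) i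

lemma d_iter_add (i : ℕ) (p q : A) : d^[i] (p + q) = d^[i] p + d^[i] q := by
  induction i with
  | zero => rfl
  | succ i ih => simp only [Function.iterate_succ_apply', ih, map_add]

lemma d_iter_X (i j : ℕ) : d^[i] (X j : A) = X (j + i) := by
  induction i with
  | zero => rfl
  | succ i ih => rw [Function.iterate_succ_apply', ih, d_X, add_assoc]

/-- evolutionary derivation -/
noncomputable def ev (g : A) : Derivation ℝ A A := mkDerivation ℝ fun i => d^[i] g

lemma ev_X (g : A) (i : ℕ) : ev g (X i) = d^[i] g := mkDerivation_X _ _ _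

lemma ev_d (g h : A) : ev g (d h) = d (ev g h) := by
  have : ⁅ev g, d⁆ = 0 := by
    apply derivation_ext
    intro i
    rw [Derivation.commutator_apply, d_X, ev_X, ev_X, Function.iterate_succ_apply']
    simp
  have h2 := congrArg (fun D : Derivation ℝ A A => D h) this
  simp only [Derivation.commutator_apply, Derivation.zero_apply] at h2
  exact sub_eq_zero.1 h2

/-- the example -/
noncomputable def g0 : A := X 3 + X 1 ^ 5

lemma g0_vars : g0.vars ⊆ {1, 3} := by
  classical
  unfold g0
  refine (vars_add_subset _ _).trans (union_subset ?_ ?_)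
  · simp
  · refine (vars_pow _ _).trans ?_
    simp

lemma pd_g0 (i : ℕ) : pderiv i g0 = if i = 3 then 1 else if i = 1 then 5 * X 1 ^ 4 else 0 := by
  unfold g0
  rw [map_add, pderiv_pow]
  split_ifs with h1 h2
  · subst h1; simp
  · subst h2; simp
  · rw [pderiv_X_of_ne (Ne.symm h1), pderiv_X_of_ne (Ne.symm h2)]; simp

lemma mem_vars_of_pd {i : ℕ} {f : A} (h : pderiv i f ≠ 0) : i ∈ f.vars := by
  by_contra hc
  exact h (pderiv_eq_zero_of_notMem_vars hc)

/-- the degree preserving part -/
noncomputable def T1 : A →ₗ[ℝ] A :=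
  (ev (X 3)).toLinearMap - d.toLinearMap ∘ₗ d.toLinearMap ∘ₗ d.toLinearMap

/-- the part raising the degree by four -/
noncomputable def T5 : A →ₗ[ℝ] A :=
  (ev (X 1 ^ 5)).toLinearMap - d.toLinearMap ∘ₗ LinearMap.mulRight ℝ (5 * X 1 ^ 4)

lemma T1_apply (h : A) : T1 h = ev (X 3) h - d (d (d h)) := rfl
lemma T5_apply (h : A) : T5 h = ev (X 1 ^ 5) h - d (h * (5 * X 1 ^ 4)) := rfl

lemma ev_g0 (h : A) : ev g0 h = ev (X 3) h + ev (X 1 ^ 5) h := by
  have : ev g0 = ev (X 3) + ev (X 1 ^ 5) := by
    apply derivation_ext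
    intro i
    rw [Derivation.add_apply, ev_X, ev_X, ev_X, g0, d_iter_add]
  rw [this, Derivation.add_apply]

lemma star_g0 (h : A) : jetProd h g0 = T1 h + T5 h := by
  classical
  unfold jetProd
  rw [sum_add_distrib]
  have h1 : ∑ i ∈ h.vars ∪ g0.vars, pderiv i h * d^[i] g0 = ev g0 h := by
    rw [der_eq_sum (ev g0) h (h.vars ∪ g0.vars) subset_union_left]
    simp only [ev_X]
  have h3 : (3:ℕ) ∈ h.vars ∪ g0.vars :=
    mem_union_right _ (mem_vars_of_pd (by rw [pd_g0]; simp))
  have h4 : (1:ℕ) ∈ h.vars ∪ g0.vars :=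
    mem_union_right _ (mem_vars_of_pd (by
      rw [pd_g0]
      have : (5 : A) ≠ 0 := by
        rw [show (5 : A) = C 5 from rfl]
        simp
      simp [this]))
  have h2 : ∑ i ∈ h.vars ∪ g0.vars, (-1) ^ i * d^[i] (h * pderiv i g0)
      = - d (h * (5 * X 1 ^ 4)) - d (d (d h)) := by
    rw [sum_eq_add_of_mem 1 3 h4 h3 (by norm_num)]
    · rw [pd_g0, pd_g0]
      simp only [if_true, OfNat.one_ne_ofNat, if_false, mul_one]
      simp only [Function.iterate_succ_apply', Function.iterate_zero_apply]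
      ring
    · rintro c _ ⟨hc1, hc3⟩
      rw [pd_g0, if_neg hc3, if_neg hc1, mul_zero, d_iter_zero, mul_zero]
  rw [h1, h2, ev_g0, T1_apply, T5_apply]
  ring

lemma star_dg : jetProd (d g0) g0 = 0 := by
  rw [star_g0, T1_apply, T5_apply]
  have h1 := ev_g0 (d g0)
  have h2 : ev g0 g0 = d (d (d g0)) + d g0 * (5 * X 1 ^ 4) := by
    conv_lhs => rw [show ev g0 g0 = ev g0 (X 3 + X 1 ^ 5) from rfl]
    rw [map_add, Derivation.leibniz_pow, ev_X, ev_X]
    simp only [Function.iterate_succ_apply', Function.iterate_zero_apply, smul_eq_mul,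
      nsmul_eq_mul]
    push_cast
    ring
  rw [ev_d, h2, map_add] at h1
  linear_combination -h1

lemma T1_homog {h : A} {k : ℕ} (hh : h.IsHomogeneous k) : (T1 h).IsHomogeneous k := by
  rw [T1_apply]
  refine IsHomogeneous.sub ?_ (d_homog (d_homog (d_homog hh)))
  exact der_homog _ 0 (fun i => by rw [ev_X]; exact d_iter_homog (isHomogeneous_X _ _) i) hh

lemma T5_homog {h : A} {k : ℕ} (hh : h.IsHomogeneous k) : (T5 h).IsHomogeneous (k + 4) := by
  rw [T5_apply]
  refine IsHomogeneous.sub ?_ (d_homog (hh.mul ?_))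
  · exact der_homog _ 4 (fun i => by
      rw [ev_X]; exact d_iter_homog (isHomogeneous_X_pow _ _) i) hh
  · have := (isHomogeneous_C ℕ (5:ℝ)).mul (isHomogeneous_X_pow (R := ℝ) (1:ℕ) 4)
    exact this

lemma comp_map (T : A →ₗ[ℝ] A) (a : ℕ)
    (hT : ∀ {h : A} {k : ℕ}, h.IsHomogeneous k → (T h).IsHomogeneous (k + a)) (h : A) (k : ℕ) :
    homogeneousComponent k (T h)
      = if a ≤ k then T (homogeneousComponent (k - a) h) else 0 := by
  induction h using MvPolynomial.induction_on' with
  | monomial u c =>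
    have h1 : (monomial u c : A).IsHomogeneous u.degree := isHomogeneous_monomial c rfl
    rw [homogeneousComponent_of_mem (hT h1), homogeneousComponent_of_mem h1]
    split_ifs with h2 h3 h4 h5 h6
    · rfl
    · omega
    · omega
    · omega
    · simp
    · rfl
  | add p q hp hq =>
    simp only [map_add, hp, hq]
    split_ifs <;> simp

lemma pd_d (i : ℕ) (h : A) : pderiv (i + 1) (d h) = d (pderiv (i + 1) h) + pderiv i h := by
  have : ⁅(pderiv (i + 1) : Derivation ℝ A A), d⁆ = (pderiv i : Derivation ℝ A A) := by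
    apply derivation_ext
    intro j
    rw [Derivation.commutator_apply, d_X]
    by_cases hj : j = i
    · subst hj
      simp
    · rw [pderiv_X_of_ne hj, pderiv_X_of_ne (by omega)]
      by_cases hj2 : j = i + 1
      · subst hj2; simp
      · rw [pderiv_X_of_ne hj2]; simp
  have h2 := congrArg (fun D : Derivation ℝ A A => D h) this
  simp only [Derivation.commutator_apply] at h2
  linear_combination h2

lemma pd_zero_d (h : A) : pderiv 0 (d h) = d (pderiv 0 h) := by
  have : ⁅(pderiv 0 : Derivation ℝ A A), d⁆ = (0 : Derivation ℝ A A) := by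
    apply derivation_ext
    intro j
    rw [Derivation.commutator_apply, d_X, pderiv_X_of_ne (by omega)]
    by_cases hj : j = 0
    · subst hj; simp
    · rw [pderiv_X_of_ne hj]; simp
  have h2 := congrArg (fun D : Derivation ℝ A A => D h) this
  simp only [Derivation.commutator_apply, Derivation.zero_apply] at h2
  exact sub_eq_zero.1 h2

lemma pd_ev (i : ℕ) (h : A) : pderiv i (ev (X 3) h)
    = ev (X 3) (pderiv i h) + if 3 ≤ i then pderiv (i - 3) h else 0 := by
  have : ⁅(pderiv i : Derivation ℝ A A), ev (X 3)⁆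
      = if 3 ≤ i then (pderiv (i - 3) : Derivation ℝ A A) else 0 := by
    apply derivation_ext
    intro j
    rw [Derivation.commutator_apply, ev_X, d_iter_X]
    have h0 : ev (X 3) (pderiv i (X j)) = 0 := by
      by_cases hj : j = i
      · subst hj; simp
      · rw [pderiv_X_of_ne hj]; simp
    rw [h0, sub_zero]
    split_ifs with h3
    · by_cases hj : 3 + j = i
      · subst hj; simp
      · rw [pderiv_X_of_ne hj, pderiv_X_of_ne (by omega)]
    · rw [pderiv_X_of_ne (by omega)]; simp
  have h2 := congrArg (fun D : Derivation ℝ A A => D h) this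
  simp only [Derivation.commutator_apply] at h2
  split_ifs at h2 ⊢ with h3
  · linear_combination h2
  · simp only [Derivation.zero_apply] at h2
    linear_combination h2

lemma exists_top {h : A} (hne : ∃ i, pderiv i h ≠ 0) :
    ∃ n, pderiv n h ≠ 0 ∧ ∀ m, n < m → pderiv m h = 0 := by
  classical
  obtain ⟨i, hi⟩ := hne
  obtain ⟨n, hn, hmax⟩ := exists_max_image (h.vars.filter fun i => pderiv i h ≠ 0) id
    ⟨i, mem_filter.2 ⟨mem_vars_of_pd hi, hi⟩⟩
  refine ⟨n, (mem_filter.1 hn).2, fun m hm => ?_⟩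
  by_contra hc
  have := hmax m (mem_filter.2 ⟨mem_vars_of_pd hc, hc⟩)
  simp only [id] at this
  omega

lemma eq_zero_of_pd {h : A} {k : ℕ} (hh : h.IsHomogeneous (k + 1)) (h0 : ∀ i, pderiv i h = 0) :
    h = 0 := by
  ext m
  rw [coeff_zero]
  by_contra hc
  have h1 := hh hc
  have h2 : m ≠ 0 := by
    rintro rfl
    simp at h1
  obtain ⟨i, hi⟩ := Finsupp.ne_iff.1 h2
  have h3 := coeff_pderiv (i := i) h (m - Finsupp.single i 1)
  rw [h0, coeff_zero, Finsupp.sub_add_single_one_cancel hi] at h3
  rcases mul_eq_zero.1 h3.symm with h4 | h4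
  · exact hc h4
  · have : (0:ℝ) < ((m - Finsupp.single i 1 : ℕ →₀ ℕ) i : ℝ) + 1 := by positivity
    exact this.ne' h4

lemma ker_d {h : A} {k : ℕ} (hh : h.IsHomogeneous (k + 1)) (h0 : d h = 0) : h = 0 := by
  apply eq_zero_of_pd hh
  by_contra hc
  push Not at hc
  obtain ⟨n, hn, hmax⟩ := exists_top hc
  have := pd_d n h
  rw [h0, hmax (n + 1) (by omega)] at this
  simp only [map_zero, zero_add] at this
  exact hn this.symm

lemma ker_T1 {h : A} {k : ℕ} (hh : h.IsHomogeneous (k + 2)) (h0 : T1 h = 0) : h = 0 := by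
  apply eq_zero_of_pd (k := k + 1) hh
  by_contra hc
  push Not at hc
  obtain ⟨n, hn, hmax⟩ := exists_top hc
  apply hn
  apply ker_d (k := k) (hh.pderiv (i := n))
  have h1 := congrArg (pderiv (n + 2)) h0
  rw [T1_apply, map_sub, pd_ev, map_zero] at h1
  have h2 : (3 : A) * d (pderiv n h) = 0 := by
    rcases n with _ | n
    · simp only [pd_d, pd_zero_d, hmax 1 (by omega), hmax 2 (by omega), map_zero,
        zero_add] at h1
      simp only [Nat.reduceLeDiff, if_false] at h1
      linear_combination -h1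
    · simp only [pd_d, hmax (n + 1 + 1) (by omega), hmax (n + 1 + 2) (by omega),
        map_zero, zero_add] at h1
      rw [if_pos (by omega), show n + 1 + 2 - 3 = n by omega] at h1
      linear_combination -h1
  have h3 : (3 : A) ≠ 0 := by
    rw [show (3 : A) = C 3 from rfl]
    simp
  exact (mul_eq_zero.1 h2).resolve_left h3

/-- two exponentials -/
abbrev B := MvPolynomial (Fin 2) ℝ

/-- diagonal derivation -/
noncomputable def dg (a b : ℝ) : Derivation ℝ B B :=
  mkDerivation ℝ ![C a * X 0, C b * X 1]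

/-- the symbol map -/
noncomputable def phi (a b : ℝ) : A →ₐ[ℝ] B := aeval fun j => C (a ^ j) * X 0 + C (b ^ j) * X 1

lemma phi_der (a b : ℝ) (D : Derivation ℝ A A) (E : Derivation ℝ B B)
    (hX : ∀ j, phi a b (D (X j)) = E (phi a b (X j))) (h : A) :
    phi a b (D h) = E (phi a b h) := by
  induction h using MvPolynomial.induction_on with
  | C c => simp [phi]
  | add p q hp hq => simp only [map_add, hp, hq]
  | mul_X p j hp =>
    simp only [Derivation.leibniz, smul_eq_mul, map_add, map_mul, hp, hX]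

lemma dg_lin (a b p q : ℝ) : dg a b (C p * X 0 + C q * X 1) = C (p * a) * X 0 + C (q * b) * X 1 := by
  simp only [map_add, Derivation.leibniz, derivation_C, dg, mkDerivation_X, smul_eq_mul, C_mul]
  simp only [Matrix.cons_val_zero, Matrix.cons_val_one, Matrix.cons_val_fin_one]
  ring

lemma phi_X (a b : ℝ) (j : ℕ) : phi a b (X j) = C (a ^ j) * X 0 + C (b ^ j) * X 1 := aeval_X _ _

lemma phi_d (a b : ℝ) (h : A) : phi a b (d h) = dg a b (phi a b h) :=
  phi_der a b d _ (fun j => by rw [d_X, phi_X, phi_X, dg_lin, pow_succ, pow_succ]) h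

lemma phi_ev (a b : ℝ) (h : A) : phi a b (ev (X 3) h) = dg (a ^ 3) (b ^ 3) (phi a b h) :=
  phi_der a b _ _ (fun j => by
    rw [ev_X, d_iter_X, phi_X, phi_X, dg_lin, add_comm 3 j, pow_add, pow_add]) h

/-- the exponent (3,2) -/
noncomputable def al : Fin 2 →₀ ℕ := Finsupp.single 0 3 + Finsupp.single 1 2

lemma coeff_X_pd {σ : Type*} (m : σ →₀ ℕ) (i : σ) (q : MvPolynomial σ ℝ) :
    coeff m (X i * pderiv i q) = m i * coeff m q := by
  classical
  induction q using MvPolynomial.induction_on' with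
  | monomial u c =>
    rw [X_mul_pderiv_monomial, coeff_smul, coeff_monomial]
    split_ifs with h
    · subst h; simp
    · simp
  | add p q hp hq => simp only [map_add, mul_add, coeff_add, hp, hq]

lemma coeff_dg (a b : ℝ) (q : B) : coeff al (dg a b q) = (3 * a + 2 * b) * coeff al q := by
  rw [der_eq_sum (dg a b) q univ (subset_univ _), Fin.sum_univ_two]
  simp only [dg, mkDerivation_X, Matrix.cons_val_zero, Matrix.cons_val_one,
    Matrix.cons_val_fin_one]
  rw [show pderiv 0 q * (C a * X 0) + pderiv 1 q * (C b * X 1)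
    = C a * (X 0 * pderiv 0 q) + C b * (X 1 * pderiv 1 q) by ring, coeff_add, coeff_C_mul,
    coeff_C_mul, coeff_X_pd, coeff_X_pd]
  simp [al]
  ring

lemma coeff_mono (c : ℝ) (i j : ℕ) :
    coeff al (C c * (X 0 ^ i * X 1 ^ j) : B) = if i = 3 ∧ j = 2 then c else 0 := by
  rw [X_pow_eq_monomial, X_pow_eq_monomial, monomial_mul, C_mul_monomial, coeff_monomial]
  have : (Finsupp.single (0 : Fin 2) i + Finsupp.single 1 j = al) ↔ (i = 3 ∧ j = 2) := by
    constructor
    · intro h
      have h0 := DFunLike.congr_fun h 0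
      have h1 := DFunLike.congr_fun h 1
      simp [al] at h0 h1
      exact ⟨h0, h1⟩
    · rintro ⟨rfl, rfl⟩; rfl
  simp only [this, mul_one]

lemma coeff_five (p q a b : ℝ) :
    coeff al ((C p * X 0 + C q * X 1) * (C a * X 0 + C b * X 1) ^ 4 : B)
      = 6 * p * a ^ 2 * b ^ 2 + 4 * q * a ^ 3 * b := by
  have e : ((C p * X 0 + C q * X 1) * (C a * X 0 + C b * X 1) ^ 4 : B)
      = C (p * a ^ 4) * (X 0 ^ 5 * X 1 ^ 0)
        + C (4 * p * a ^ 3 * b + q * a ^ 4) * (X 0 ^ 4 * X 1 ^ 1)
        + C (6 * p * a ^ 2 * b ^ 2 + 4 * q * a ^ 3 * b) * (X 0 ^ 3 * X 1 ^ 2)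
        + C (4 * p * a * b ^ 3 + 6 * q * a ^ 2 * b ^ 2) * (X 0 ^ 2 * X 1 ^ 3)
        + C (p * b ^ 4 + 4 * q * a * b ^ 3) * (X 0 ^ 1 * X 1 ^ 4)
        + C (q * b ^ 4) * (X 0 ^ 0 * X 1 ^ 5) := by
    simp only [map_add, map_mul, map_pow, map_ofNat]
    ring
  rw [e]
  simp only [coeff_add, coeff_mono]
  simp

lemma coeff_T1 (t : ℝ) (h : A) : coeff al (phi t (-4 * t) (T1 h)) = 0 := by
  rw [T1_apply, map_sub, phi_ev, phi_d, phi_d, phi_d, coeff_sub, coeff_dg, coeff_dg, coeff_dg,
    coeff_dg]
  ring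

/-- the obstruction -/
def K (j : ℕ) : ℝ := 160 * (-5) ^ j + 2400 - 400 * (-4) ^ j

lemma coeff_T5 (t : ℝ) (j : ℕ) :
    coeff al (phi t (-4 * t) (T5 (X j))) = K j * t ^ (j + 5) := by
  have h1 : ∀ (i : ℕ) (q : A), coeff al (phi t (-4 * t) (d^[i] q))
      = (-5 * t) ^ i * coeff al (phi t (-4 * t) q) := by
    intro i q
    induction i with
    | zero => simp
    | succ i ih => rw [Function.iterate_succ_apply', phi_d, coeff_dg, ih]; ring
  rw [T5_apply, map_sub, ev_X, coeff_sub, h1, phi_d, coeff_dg]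
  have h2 : phi t (-4 * t) (X j * (5 * X 1 ^ 4))
      = C 5 * ((C (t ^ j) * X 0 + C ((-4 * t) ^ j) * X 1)
        * (C (t ^ 1) * X 0 + C ((-4 * t) ^ 1) * X 1) ^ 4) := by
    simp only [map_mul, map_pow, phi_X, map_ofNat]
    ring
  rw [h2, coeff_C_mul, coeff_five, pow_succ' (X 1 : A) 4, map_mul, map_pow, phi_X, coeff_five]
  unfold K
  simp only [mul_pow]
  ring

lemma K_ne {j : ℕ} (hj : 5 ≤ j) : K j ≠ 0 := by
  have h : ∀ i : ℕ, (2400 + 400 * 4 ^ (i + 5) : ℝ) < 160 * 5 ^ (i + 5) := by
    intro i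
    induction i with
    | zero => norm_num
    | succ i ih =>
      rw [show i + 1 + 5 = (i + 5) + 1 by ring, pow_succ (4:ℝ) (i + 5), pow_succ (5:ℝ) (i + 5)]
      have : (0:ℝ) < 4 ^ (i + 5) := by positivity
      nlinarith
  obtain ⟨i, rfl⟩ : ∃ i, j = i + 5 := ⟨j - 5, by omega⟩
  have := h i
  have h4 : (0:ℝ) < 4 ^ (i + 5) := by positivity
  unfold K
  rcases Nat.even_or_odd (i + 5) with he | ho
  · rw [he.neg_pow, he.neg_pow]; intro h0; linarith
  · rw [ho.neg_pow, ho.neg_pow]; intro h0; linarith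

lemma linear_form {h : A} (hh : h.IsHomogeneous 1) :
    h = ∑ j ∈ h.vars, coeff (Finsupp.single j 1) h • X j := by
  classical
  have hE : ∀ q : A, q.IsHomogeneous 1 → mkDerivation ℝ (fun i => (X i : A)) q = q := by
    intro q hq
    conv_lhs => rw [q.as_sum]
    conv_rhs => rw [q.as_sum]
    rw [map_sum]
    refine sum_congr rfl fun m hm => ?_
    have h1 := hq (mem_support_iff.1 hm)
    obtain ⟨i, rfl⟩ : ∃ i, m = Finsupp.single i 1 := by
      apply (Finsupp.sum_eq_one_iff _).1
      simpa [Finsupp.weight_apply] using h1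
    rw [← mul_one (coeff _ q), ← C_mul_monomial]
    rw [show (monomial (Finsupp.single i 1) (1:ℝ) : A) = X i from rfl, ← smul_eq_C_mul,
      Derivation.map_smul, mkDerivation_X]
  conv_lhs => rw [← hE h hh, der_eq_sum _ h h.vars Subset.rfl]
  refine sum_congr rfl fun j _ => ?_
  rw [mkDerivation_X, smul_eq_C_mul]
  congr 1
  have h0 : (pderiv j h).IsHomogeneous 0 := hh.pderiv
  rw [← homogeneousComponent_eq_self h0, homogeneousComponent_zero, coeff_pderiv]
  simp

lemma graded {h : A} (h0 : jetProd h g0 = 0) (k : ℕ) :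
    T1 (homogeneousComponent k h)
      + (if 4 ≤ k then T5 (homogeneousComponent (k - 4) h) else 0) = 0 := by
  have h1 := congrArg (homogeneousComponent k) h0
  rw [star_g0, map_add, map_zero, comp_map T1 0 T1_homog, comp_map T5 4 T5_homog] at h1
  simpa using h1

lemma coeff_high {h : A} (h0 : jetProd h g0 = 0) {j : ℕ} (hj : 5 ≤ j) :
    coeff (Finsupp.single j 1) h = 0 := by
  classical
  have h1 := graded h0 5
  rw [if_pos (by norm_num)] at h1
  set l := homogeneousComponent (5 - 4) h with hl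
  have hlh : l.IsHomogeneous 1 := homogeneousComponent_isHomogeneous _ _
  have hc : coeff (Finsupp.single j 1) h = coeff (Finsupp.single j 1) l := by
    rw [hl, coeff_homogeneousComponent]; simp
  rw [hc]
  by_cases hv : j ∈ l.vars
  swap
  · by_contra hne
    exact hv ((mem_vars_iff_mem_support j).2 ⟨_, mem_support_iff.2 hne, by simp⟩)
  have h2 : (∑ i ∈ l.vars, Polynomial.monomial (i + 5) (coeff (Finsupp.single i 1) l * K i)) = 0 := by
    apply Polynomial.funext
    intro t
    have h3 := congrArg (fun q => coeff al (phi t (-4 * t) q)) h1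
    simp only [map_add, coeff_add, coeff_T1, zero_add, map_zero, coeff_zero] at h3
    rw [linear_form hlh] at h3
    simp only [map_sum, map_smul, coeff_sum, coeff_smul, coeff_T5, smul_eq_mul] at h3
    rw [Polynomial.eval_finsetSum, Polynomial.eval_zero, ← h3]
    refine sum_congr rfl fun i _ => ?_
    rw [Polynomial.eval_monomial, mul_assoc]
  have h4 := congrArg (fun p => Polynomial.coeff p (j + 5)) h2
  simp only [Polynomial.finsetSum_coeff, Polynomial.coeff_monomial, Nat.add_right_cancel_iff,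
    Polynomial.coeff_zero] at h4
  rw [sum_ite_eq', if_pos hv] at h4
  exact (mul_eq_zero.1 h4).resolve_right (K_ne hj)

lemma eq_zero_of_low {h : A} (h0 : jetProd h g0 = 0) (hc0 : coeff 0 h = 0)
    (hc1 : ∀ j < 5, coeff (Finsupp.single j 1) h = 0) : h = 0 := by
  have key : ∀ k, homogeneousComponent k h = 0 := by
    intro k
    induction k using Nat.strong_induction_on with
    | _ k ih =>
      match k, ih with
      | 0, _ => rw [homogeneousComponent_zero, hc0, C_0]
      | 1, _ =>
        rw [linear_form (homogeneousComponent_isHomogeneous 1 h)]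
        refine sum_eq_zero fun j _ => ?_
        have : coeff (Finsupp.single j 1) h = 0 := by
          rcases lt_or_ge j 5 with hj | hj
          · exact hc1 j hj
          · exact coeff_high h0 hj
        rw [coeff_homogeneousComponent, this]
        simp
      | k + 2, ih =>
        apply ker_T1 (homogeneousComponent_isHomogeneous (k + 2) h)
        have h1 := graded h0 (k + 2)
        split_ifs at h1 with h2
        · rwa [ih (k + 2 - 4) (by omega), map_zero, add_zero] at h1
        · rwa [add_zero] at h1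
  rw [← sum_homogeneousComponent h]
  exact sum_eq_zero fun k _ => key k

lemma finiteDim : FiniteDimensional ℝ (Submodule.span ℝ {h : A | jetProd h g0 = 0}) := by
  have e : {h : A | jetProd h g0 = 0} = (LinearMap.ker (T1 + T5) : Submodule ℝ A) := by
    ext h
    simp [star_g0]
  rw [e, Submodule.span_eq]
  let pr : A →ₗ[ℝ] ℝ × (Fin 5 → ℝ) :=
    (lcoeff ℝ 0).prod (LinearMap.pi fun j : Fin 5 => lcoeff ℝ (Finsupp.single (j : ℕ) 1))
  refine FiniteDimensional.of_injective (pr ∘ₗ (LinearMap.ker (T1 + T5)).subtype) ?_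
  rw [← LinearMap.ker_eq_bot, LinearMap.ker_eq_bot']
  rintro ⟨h, hh⟩ hz
  have h1 : jetProd h g0 = 0 := by rw [star_g0]; exact hh
  have h2 : coeff 0 h = 0 := congrArg Prod.fst hz
  have h3 : ∀ j < 5, coeff (Finsupp.single j 1) h = 0 := fun j hj =>
    congrFun (congrArg Prod.snd hz) ⟨j, hj⟩
  exact Subtype.ext (eq_zero_of_low h1 h2 h3)

end Pool.Agent.H99.Jet
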