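import Mathlib

set_option autoImplicit false

open Polynomial Finset

namespace Pool.Agent.H99.Karp

/-- negative real number -/
def Neg (z : ℂ) : Prop := z.im = 0 ∧ z.re < 0

/-- all zeros negative -/
def NR (p : ℂ[X]) : Prop := ∀ z : ℂ, p.eval z = 0 → Neg z

lemma NR.ne_zero {p : ℂ[X]} (h : NR p) : p ≠ 0 := by
  rintro rfl
  have := h 0 (by simp)
  simp [Neg] at this

/-- roots in the half plane with normal om -/
def HP (om : ℂ) (p : ℂ[X]) : Prop := ∀ y : ℂ, p.eval y = 0 → ((starRingEnd ℂ) om * y).re < 0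

lemma HP.step {om t : ℂ} (ht : 0 < (om * (starRingEnd ℂ) t).re) {r : ℂ} (hr : Neg r) {p : ℂ[X]}
    (hp : HP om p) : HP om (t • derivative p - r • p) := by
  intro y hy
  by_contra hcon
  push Not at hcon
  have hpy : p.eval y ≠ 0 := fun h => absurd (hp y h) (not_lt.2 hcon)
  have hs := (IsAlgClosed.splits p).eval_derivative_div_eval_of_ne_zero hpy
  have ht0 : t ≠ 0 := by rintro rfl; simp at ht
  have e : p.derivative.eval y / p.eval y = r / t := by
    simp only [eval_sub, eval_smul, smul_eq_mul] at hy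
    field_simp
    linear_combination hy
  have h1 : 0 ≤ (om * (p.roots.map fun z => 1 / (y - z)).sum).re := by
    rw [← Multiset.sum_map_mul_left]
    change 0 ≤ Complex.reAddGroupHom _
    rw [map_multiset_sum, Multiset.map_map]
    apply Multiset.sum_nonneg
    intro x hx
    obtain ⟨z, hz, rfl⟩ := Multiset.mem_map.1 hx
    have hz' := hp z (mem_roots'.1 hz).2
    change 0 ≤ (om * (1 / (y - z))).re
    have h2 : 0 ≤ ((starRingEnd ℂ) om * (y - z)).re := by
      rw [mul_sub, Complex.sub_re]; linarith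
    have h3 : (om * (1 / (y - z))).re
        = ((starRingEnd ℂ) om * (y - z)).re / Complex.normSq (y - z) := by
      rw [mul_one_div, Complex.div_re]
      simp only [Complex.mul_re, Complex.conj_re, Complex.conj_im]
      ring
    rw [h3]
    exact div_nonneg h2 (Complex.normSq_nonneg _)
  rw [← hs, e] at h1
  have h4 : (om * (r / t)).re = r.re * (om * (starRingEnd ℂ) t).re / Complex.normSq t := by
    rw [← mul_div_assoc, Complex.div_re]
    simp only [Complex.mul_re, Complex.mul_im, Complex.conj_re, Complex.conj_im, hr.1]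
    ring
  rw [h4] at h1
  have h5 : r.re * (om * (starRingEnd ℂ) t).re / Complex.normSq t < 0 :=
    div_neg_of_neg_of_pos (mul_neg_of_neg_of_pos hr.2 ht) (Complex.normSq_pos.2 ht0)
  linarith

/-- the operator t D -/
noncomputable def TD (t : ℂ) : Module.End ℂ ℂ[X] := t • derivative

lemma HP.prod {om t : ℂ} (ht : 0 < (om * (starRingEnd ℂ) t).re) (s : Multiset ℂ)
    (hs : ∀ r ∈ s, Neg r) {p : ℂ[X]} (hp : HP om p) :
    HP om (aeval (TD t) (s.map fun r => X - C r).prod p) := by
  induction s using Multiset.induction_on with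
  | empty => simpa using hp
  | cons a s ih =>
    rw [Multiset.map_cons, Multiset.prod_cons, map_mul, Module.End.mul_apply]
    have h := (ih fun r hr => hs r (Multiset.mem_cons_of_mem hr)).step ht
      (hs a (Multiset.mem_cons_self _ _))
    convert h using 1
    simp [TD, Algebra.algebraMap_eq_smul_one]

lemma TD_pow (t : ℂ) (k : ℕ) (p : ℂ[X]) :
    ((TD t ^ k) p).eval 0 = t ^ k * (k.factorial * p.coeff k) := by
  unfold TD
  rw [_root_.smul_pow, LinearMap.smul_apply, eval_smul, Module.End.pow_apply, ← coeff_zero_eq_eval_zero,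
    coeff_iterate_derivative]
  simp [Nat.descFactorial_self]

lemma schur_poly {A B : ℂ[X]} (hA : NR A) (hB : NR B) (n : ℕ) (hn : A.natDegree ≤ n) (t : ℂ)
    (h : ∑ k ∈ range (n + 1), (k.factorial * A.coeff k * B.coeff k) * t ^ k = 0) : Neg t := by
  by_contra hcon
  by_cases ht0 : t = 0
  · subst ht0
    rw [sum_range_succ'] at h
    simp only [pow_succ, mul_zero, sum_const_zero, pow_zero, mul_one, zero_add,
      Nat.factorial_zero, Nat.cast_one, one_mul, mul_eq_zero, coeff_zero_eq_eval_zero] at h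
    rcases h with h | h
    · simpa [Neg] using hA 0 h
    · simpa [Neg] using hB 0 h
  have hn0 : 0 < ‖t‖ := norm_pos_iff.2 ht0
  have hpos : 0 < ‖t‖ + t.re := by
    have h1 := Complex.abs_re_le_norm t
    have h2 := neg_abs_le t.re
    rcases (by linarith : 0 ≤ ‖t‖ + t.re).lt_or_eq with h3 | h3
    · exact h3
    · exfalso
      apply hcon
      have h4 := Complex.sq_norm t
      rw [Complex.normSq_apply] at h4
      have h5 : ‖t‖ = -t.re := by linarith
      refine ⟨?_, by linarith⟩
      rw [h5] at h4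
      nlinarith
  set om : ℂ := ‖t‖ + t with hom
  have ht : 0 < (om * (starRingEnd ℂ) t).re := by
    have h4 := Complex.sq_norm t
    rw [Complex.normSq_apply] at h4
    simp only [hom, Complex.mul_re, Complex.add_re, Complex.ofReal_re, Complex.conj_re,
      Complex.add_im, Complex.ofReal_im, Complex.conj_im]
    nlinarith
  have hB' : HP om B := by
    intro y hy
    obtain ⟨h1, h2⟩ := hB y hy
    simp only [hom, Complex.mul_re, Complex.add_re, Complex.ofReal_re, Complex.conj_re, h1]
    nlinarith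
  have h1 := HP.prod ht A.roots (fun r hr => hA r (mem_roots'.1 hr).2) hB'
  have h2 : (aeval (TD t) A B).eval 0 ≠ 0 := by
    conv_lhs => rw [(IsAlgClosed.splits A).eq_prod_roots]
    rw [map_mul, Module.End.mul_apply, aeval_C, Module.algebraMap_end_apply, eval_smul,
      smul_eq_mul]
    refine mul_ne_zero (leadingCoeff_ne_zero.2 hA.ne_zero) fun h0 => ?_
    simpa using h1 0 h0
  apply h2
  rw [aeval_eq_sum_range' (Nat.lt_succ_of_le hn), LinearMap.sum_apply, eval_finsetSum]
  refine Eq.trans (sum_congr rfl fun k _ => ?_) h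
  rw [LinearMap.smul_apply, eval_smul, TD_pow, smul_eq_mul]
  ring

/-- polynomial with the given coefficients -/
noncomputable def pol (n : ℕ) (a : ℕ → ℂ) : ℂ[X] := ∑ k ∈ range (n + 1), C (a k) * X ^ k

lemma pol_eval (n : ℕ) (a : ℕ → ℂ) (z : ℂ) :
    (pol n a).eval z = ∑ k ∈ range (n + 1), a k * z ^ k := by
  simp [pol, eval_finsetSum]

lemma pol_coeff (n : ℕ) (a : ℕ → ℂ) (k : ℕ) : (pol n a).coeff k = if k ≤ n then a k else 0 := by
  simp [pol]

lemma pol_natDegree (n : ℕ) (a : ℕ → ℂ) : (pol n a).natDegree ≤ n := by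
  rw [natDegree_le_iff_coeff_eq_zero]
  intro N hN
  rw [pol_coeff, if_neg (by omega)]

lemma schur {n : ℕ} {a b : ℕ → ℂ} (ha : NR (pol n a)) (hb : NR (pol n b)) :
    NR (pol n fun k => k.factorial * a k * b k) := by
  intro t ht
  apply schur_poly ha hb n (pol_natDegree n a) t
  rw [← ht, pol_eval]
  refine sum_congr rfl fun k hk => ?_
  have hk' : k ≤ n := Nat.lt_succ_iff.1 (mem_range.1 hk)
  rw [pol_coeff, pol_coeff, if_pos hk', if_pos hk']

lemma NR_binom (n : ℕ) : NR (pol n fun k => (n.choose k : ℂ)) := by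
  intro z hz
  rw [pol_eval] at hz
  have h := add_pow z 1 n
  simp only [one_pow, mul_one] at h
  have h2 : (z + 1) ^ n = 0 := by
    rw [h, ← hz]
    exact sum_congr rfl fun k _ => mul_comm _ _
  have h3 : z = -1 := by linear_combination (eq_zero_of_pow_eq_zero h2)
  rw [h3]
  simp [Neg]

lemma Neg.inv {z : ℂ} (h : Neg z⁻¹) : Neg z := by
  obtain ⟨h1, h2⟩ := h
  have h3 : z⁻¹ = ((z⁻¹).re : ℂ) := by
    apply Complex.ext <;> simp only [Complex.ofReal_re, Complex.ofReal_im, h1]
  have h4 : z = (((z⁻¹).re)⁻¹ : ℝ) := by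
    rw [Complex.ofReal_inv, ← h3, inv_inv]
  rw [h4]
  exact ⟨Complex.ofReal_im _, by rw [Complex.ofReal_re]; exact inv_lt_zero.2 h2⟩

lemma NR_rev {n : ℕ} {a : ℕ → ℂ} (ha : NR (pol n a)) (hn : a n ≠ 0) :
    NR (pol n fun k => a (n - k)) := by
  intro z hz
  rw [pol_eval] at hz
  by_cases h0 : z = 0
  · subst h0
    rw [sum_range_succ'] at hz
    simp [hn] at hz
  apply Neg.inv
  apply ha
  rw [pol_eval, ← sum_range_reflect]
  have : ∑ j ∈ range (n + 1), a (n + 1 - 1 - j) * z⁻¹ ^ (n + 1 - 1 - j)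
      = z⁻¹ ^ n * ∑ k ∈ range (n + 1), a (n - k) * z ^ k := by
    rw [mul_sum]
    refine sum_congr rfl fun k hk => ?_
    have hk' : k ≤ n := Nat.lt_succ_iff.1 (mem_range.1 hk)
    obtain ⟨l, rfl⟩ := Nat.exists_eq_add_of_le hk'
    simp only [Nat.add_sub_cancel, Nat.add_sub_cancel_left, pow_add]
    have : z⁻¹ ^ k * z ^ k = 1 := by rw [← mul_pow, inv_mul_cancel₀ h0, one_pow]
    linear_combination (-(a l) * z⁻¹ ^ l) * this
  rw [this, hz, mul_zero]

lemma NR_congr {n : ℕ} {a b : ℕ → ℂ} (ha : NR (pol n a)) (c : ℂ)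
    (h : ∀ k ≤ n, a k = c * b k) : NR (pol n b) := by
  intro z hz
  apply ha
  rw [pol_eval] at hz ⊢
  rw [← mul_zero c, ← hz, mul_sum]
  refine sum_congr rfl fun k hk => ?_
  rw [h k (Nat.lt_succ_iff.1 (mem_range.1 hk))]
  ring

lemma NR_W {n : ℕ} {f : ℕ → ℂ} (hf : NR (pol n f)) (hn : f n ≠ 0) :
    NR (pol n fun k => f k * f (n - k) * n.choose k) := by
  have h0 : f 0 ≠ 0 := by
    intro h
    have := hf 0 (by rw [← coeff_zero_eq_eval_zero, pol_coeff]; simpa using h)
    simp [Neg] at this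
  have hfac : (n.factorial : ℂ) ≠ 0 := by exact_mod_cast n.factorial_ne_zero
  have hA := NR_rev (schur (NR_rev hf hn) (NR_binom n)) (by simp [hfac, h0])
  have hB := schur (NR_rev (schur hf (NR_binom n)) (by simp [hfac, hn])) (NR_binom n)
  refine NR_congr (schur hA hB) (n.factorial * n.factorial) fun k hk => ?_
  have e1 : n - (n - k) = k := by omega
  have e2 : (n.choose k : ℂ) * k.factorial * (n - k).factorial = n.factorial := by
    exact_mod_cast Nat.choose_mul_factorial_mul_factorial hk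
  simp only [e1, Nat.choose_symm hk]
  rw [← e2]
  ring

/-- gamma expansion of a symmetric polynomial -/
lemma gamma_exists (n : ℕ) : ∀ W : ℂ[X], W.natDegree ≤ n →
    (∀ k ≤ n, W.coeff k = W.coeff (n - k)) →
    ∃ g : ℕ → ℂ, W = ∑ j ∈ range (n / 2 + 1), C (g j) * (X ^ j * (1 + X) ^ (n - 2 * j)) := by
  induction n using Nat.twoStepInduction with
  | zero =>
    intro W hW _
    refine ⟨fun _ => W.coeff 0, ?_⟩
    simpa using eq_C_of_natDegree_le_zero hW
  | one =>
    intro W hW hs
    refine ⟨fun _ => W.coeff 0, ?_⟩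
    have h1 := eq_X_add_C_of_natDegree_le_one hW
    have h2 := hs 1 le_rfl
    simp only [Nat.sub_self] at h2
    rw [h2] at h1
    simp only [Nat.reduceDiv, zero_add, range_one, sum_singleton, pow_zero, mul_zero,
      Nat.sub_zero, pow_one, one_mul]
    rw [mul_add, mul_one, add_comm]
    exact h1
  | more n ih _ =>
    intro W hW hs
    obtain ⟨V, hV⟩ : ∃ V, V = W - C (W.coeff 0) * (1 + X) ^ (n + 2) := ⟨_, rfl⟩
    have hVc : ∀ k, V.coeff k = W.coeff k - W.coeff 0 * (n + 2).choose k := by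
      intro k
      rw [hV, coeff_sub, coeff_C_mul, coeff_one_add_X_pow]
    have hV0 : V.coeff 0 = 0 := by simp [hVc]
    have hVX : V = X * V.divX := by
      have := X_mul_divX_add V
      rw [hV0, C_0, add_zero] at this
      exact this.symm
    obtain ⟨g, hg⟩ := ih V.divX (by
      rw [natDegree_le_iff_coeff_eq_zero]
      intro N hN
      rw [coeff_divX, hVc]
      rcases (by omega : N + 1 = n + 2 ∨ n + 2 < N + 1) with h | h
      · rw [h, hs _ le_rfl]; simp
      · rw [coeff_eq_zero_of_natDegree_lt (by omega), Nat.choose_eq_zero_of_lt h]; simp)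
      (by
      intro k hk
      rw [coeff_divX, coeff_divX, hVc, hVc, hs (k + 1) (by omega),
        ← Nat.choose_symm (by omega : k + 1 ≤ n + 2)]
      have : n + 2 - (k + 1) = n - k + 1 := by omega
      rw [this])
    refine ⟨fun j => if j = 0 then W.coeff 0 else g (j - 1), ?_⟩
    have e : (n + 2) / 2 + 1 = (n / 2 + 1) + 1 := by omega
    rw [e, sum_range_succ']
    have e2 : W = X * V.divX + C (W.coeff 0) * (1 + X) ^ (n + 2) := by
      rw [← hVX, hV]; ring
    refine e2.trans ?_
    generalize V.divX = U at hg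
    subst hg
    simp only [Nat.succ_ne_zero, if_false, if_true, Nat.add_sub_cancel, pow_zero, mul_zero,
      Nat.sub_zero, one_mul, mul_sum]
    refine congrArg₂ (· + ·) (sum_congr rfl fun j _ => ?_) rfl
    have : n + 2 - 2 * (j + 1) = n - 2 * j := by omega
    rw [this]
    ring

lemma gamma_NR {n : ℕ} {g : ℕ → ℂ}
    (h : NR (∑ j ∈ range (n / 2 + 1), C (g j) * (X ^ j * (1 + X) ^ (n - 2 * j)))) :
    NR (pol (n / 2) g) := by
  intro y hy
  rw [pol_eval] at hy
  have key : ∀ x : ℂ, x = y * (1 + x) ^ 2 → Neg x := by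
    intro x hx
    apply h
    rw [eval_finsetSum, ← mul_zero ((1 + x) ^ n), ← hy, mul_sum]
    refine sum_congr rfl fun j hj => ?_
    have hj' : 2 * j ≤ n := by have := mem_range.1 hj; omega
    obtain ⟨l, rfl⟩ := Nat.exists_eq_add_of_le hj'
    simp only [eval_mul, eval_C, eval_pow, eval_X, eval_add, eval_one, Nat.add_sub_cancel_left]
    have : x ^ j = y ^ j * (1 + x) ^ (2 * j) := by
      rw [pow_mul, ← mul_pow, ← hx]
    rw [this]
    ring
  by_cases h0 : y = 0
  · have := key 0 (by simp [h0])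
    simp [Neg] at this
  obtain ⟨s, hs⟩ := IsAlgClosed.exists_pow_nat_eq (1 - 4 * y) (by norm_num : 0 < 2)
  have hx : (1 - 2 * y + s) / (2 * y) = y * (1 + (1 - 2 * y + s) / (2 * y)) ^ 2 := by
    field_simp
    linear_combination -hs
  set x := (1 - 2 * y + s) / (2 * y) with hxd
  obtain ⟨h1, h2⟩ := key x hx
  have h3 : x = (x.re : ℂ) := by
    apply Complex.ext <;> simp only [Complex.ofReal_re, Complex.ofReal_im, h1]
  have h4 : (1 + x) ≠ 0 := by
    intro h5
    rw [h5] at hx
    have : x = 0 := by rw [hx]; simp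
    rw [this] at h2
    simp at h2
  have h5 : y = ((x.re / (1 + x.re) ^ 2 : ℝ) : ℂ) := by
    push_cast
    rw [← h3]
    field_simp
    linear_combination -hx
  have h6 : (1 + x.re) ≠ 0 := by
    intro h7
    apply h4
    rw [h3]
    exact_mod_cast h7
  rw [h5]
  exact ⟨Complex.ofReal_im _, by
    rw [Complex.ofReal_re]; exact div_neg_of_neg_of_pos h2 (by positivity)⟩

lemma NR_deriv {p : ℂ[X]} (hp : NR p) (h0 : derivative p ≠ 0) : NR (derivative p) := by
  intro z hz
  have hd : 0 < p.degree := by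
    by_contra hc
    apply h0
    rw [eq_C_of_degree_le_zero (not_lt.1 hc)]
    simp
  have h1 := rootSet_derivative_subset_convexHull_rootSet hd
    (show z ∈ p.derivative.rootSet ℂ by
      rw [mem_rootSet, coe_aeval_eq_eval]; exact ⟨h0, hz⟩)
  have hc : Convex ℝ {z : ℂ | Neg z} := by
    have : {z : ℂ | Neg z} = {z : ℂ | z.im ≤ 0} ∩ {z : ℂ | 0 ≤ z.im} ∩ {z : ℂ | z.re < 0} := by
      ext z
      simp only [Neg, Set.mem_ofPred_eq, Set.mem_inter_iff]
      constructor
      · rintro ⟨a, b⟩; exact ⟨⟨a.le, a.ge⟩, b⟩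
      · rintro ⟨⟨a, b⟩, c⟩; exact ⟨le_antisymm a b, c⟩
    rw [this]
    exact ((convex_halfSpace_im_le 0).inter (convex_halfSpace_im_ge 0)).inter
      (convex_halfSpace_re_lt 0)
  refine convexHull_min (fun w hw => ?_) hc h1
  rw [mem_rootSet, coe_aeval_eq_eval] at hw
  exact hp w hw.2

/-- rising factorial -/
noncomputable def poch (z : ℂ) (k : ℕ) : ℂ := ∏ i ∈ range k, (z + i)

lemma poch_zero (z : ℂ) : poch z 0 = 1 := by simp [poch]

lemma poch_succ (z : ℂ) (k : ℕ) : poch z (k + 1) = poch z k * (z + k) := prod_range_succ _ _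

lemma poch_succ' (z : ℂ) (k : ℕ) : poch z (k + 1) = z * poch (z + 1) k := by
  unfold poch
  rw [prod_range_succ', mul_comm]
  simp only [Nat.cast_zero, add_zero]
  congr 1
  refine prod_congr rfl fun i _ => ?_
  push_cast; ring

lemma poch_add (z : ℂ) (a b : ℕ) : poch z (a + b) = poch z a * poch (z + a) b := by
  unfold poch
  rw [prod_range_add]
  congr 1
  refine prod_congr rfl fun i _ => ?_
  push_cast; ring

lemma asc_eval (z : ℂ) (k : ℕ) : (ascPochhammer ℂ k).eval z = poch z k := by
  induction k with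
  | zero => simp [poch]
  | succ k ih => rw [ascPochhammer_succ_eval, ih, poch_succ]

lemma poch_dup (w : ℂ) (M : ℕ) :
    poch (2 * w) M = 2 ^ M * poch w ((M + 1) / 2) * poch (w + 1 / 2) (M / 2) := by
  induction M using Nat.twoStepInduction generalizing w with
  | zero => simp [poch]
  | one => simp [poch]
  | more M ih _ =>
    have e1 : (M + 2 + 1) / 2 = (M + 1) / 2 + 1 := by omega
    have e2 : (M + 2) / 2 = M / 2 + 1 := by omega
    rw [e1, e2, poch_succ', poch_succ', poch_succ', poch_succ',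
      show 2 * w + 1 + 1 = 2 * (w + 1) by ring, ih, show w + 1 + 1 / 2 = w + 1 / 2 + 1 by ring]
    ring

/-- the umbral functional -/
noncomputable def L (x y : ℂ) (n : ℕ) (p : ℂ[X]) : ℂ :=
  ∑ k ∈ range (n + 1), p.coeff k * (poch x k * poch y (n - k))

lemma L_one_add (x y : ℂ) {n : ℕ} {p : ℂ[X]} (hp : p.natDegree ≤ n) :
    L x y (n + 1) ((1 + X) * p) = (x + y + n) * L x y n p := by
  unfold L
  simp only [add_mul, one_mul, coeff_add, sum_add_distrib]
  rw [sum_range_succ, sum_range_succ' _ (n + 1),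
    coeff_eq_zero_of_natDegree_lt (by omega : p.natDegree < n + 1)]
  simp only [coeff_X_mul, mul_coeff_zero, coeff_X_zero, zero_mul, add_zero, mul_sum,
    ← sum_add_distrib]
  refine sum_congr rfl fun k hk => ?_
  have hk' : k ≤ n := Nat.lt_succ_iff.1 (mem_range.1 hk)
  obtain ⟨l, rfl⟩ := Nat.exists_eq_add_of_le hk'
  have e1 : k + l + 1 - k = l + 1 := by omega
  have e2 : k + l + 1 - (k + 1) = l := by omega
  have e3 : k + l - k = l := by omega
  rw [e1, e2, e3, poch_succ, poch_succ]
  push_cast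
  ring

lemma L_X (x y : ℂ) {n : ℕ} {p : ℂ[X]} (hp : p.natDegree ≤ n) :
    L x y (n + 2) (X * p) = x * y * L (x + 1) (y + 1) n p := by
  unfold L
  rw [sum_range_succ' _ (n + 2), sum_range_succ]
  simp only [coeff_X_mul, mul_coeff_zero, coeff_X_zero, zero_mul, add_zero, mul_sum,
    coeff_eq_zero_of_natDegree_lt (by omega : p.natDegree < n + 1)]
  refine sum_congr rfl fun k hk => ?_
  have hk' : k ≤ n := Nat.lt_succ_iff.1 (mem_range.1 hk)
  have e1 : n + 2 - (k + 1) = (n - k) + 1 := by omega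
  rw [e1, poch_succ', poch_succ']
  ring

lemma natDegree_one_add_pow (m : ℕ) : ((1 + X : ℂ[X]) ^ m).natDegree ≤ m := by
  have : (1 + X : ℂ[X]).natDegree ≤ 1 := by compute_degree
  simpa using natDegree_pow_le_of_le m this

lemma L_pow (x y : ℂ) (m : ℕ) : L x y m ((1 + X) ^ m) = poch (x + y) m := by
  induction m with
  | zero => simp [L, poch]
  | succ m ih => rw [pow_succ', L_one_add x y (natDegree_one_add_pow m), ih, poch_succ, mul_comm]

lemma L_basis (m j : ℕ) : ∀ x y : ℂ, L x y (m + 2 * j) (X ^ j * (1 + X) ^ m)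
    = poch x j * poch y j * poch (x + y + 2 * j) m := by
  induction j with
  | zero => intro x y; simp [L_pow, poch_zero]
  | succ j ih =>
    intro x y
    have hd : (X ^ j * (1 + X) ^ m : ℂ[X]).natDegree ≤ m + 2 * j := by
      refine natDegree_mul_le.trans ?_
      have := natDegree_one_add_pow m
      rw [natDegree_X_pow]
      omega
    rw [pow_succ', mul_assoc, show m + 2 * (j + 1) = (m + 2 * j) + 2 by ring, L_X x y hd, ih,
      poch_succ', poch_succ']
    push_cast
    rw [show x + 1 + (y + 1) + 2 * j = x + y + 2 * (j + 1) by ring]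
    ring

lemma L_sum (x y : ℂ) (n N : ℕ) (g : ℕ → ℂ) (p : ℕ → ℂ[X]) :
    L x y n (∑ j ∈ range N, C (g j) * p j) = ∑ j ∈ range N, g j * L x y n (p j) := by
  unfold L
  simp only [finsetSum_coeff, coeff_C_mul, sum_mul, mul_sum]
  rw [sum_comm]
  simp only [mul_assoc]

lemma sign_prod (D i : ℕ) (hi : i ≤ D) (c : ℕ → ℝ) (x : ℝ) (h1 : ∀ l < i, x ≤ c l)
    (h2 : ∀ l, i ≤ l → l < D → c l ≤ x) : 0 ≤ (-1) ^ i * ∏ l ∈ range D, (x - c l) := by
  obtain ⟨e, rfl⟩ := Nat.exists_eq_add_of_le hi
  rw [prod_range_add, ← mul_assoc]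
  apply mul_nonneg
  · have : (-1) ^ i * ∏ l ∈ range i, (x - c l) = ∏ l ∈ range i, (c l - x) := by
      conv_lhs => rw [← card_range i, ← prod_const, card_range, ← prod_mul_distrib]
      exact prod_congr rfl fun l _ => by ring
    rw [this]
    exact prod_nonneg fun l hl => sub_nonneg.2 (h1 l (mem_range.1 hl))
  · exact prod_nonneg fun l hl => sub_nonneg.2 (h2 _ (by omega) (by have := mem_range.1 hl; omega))

lemma interlace (D : ℕ) (a b : ℕ → ℝ) (t : ℝ) (ht : 0 ≤ t) (hab : ∀ i < D, a i ≤ b i)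
    (hba : ∀ i, i + 1 < D → b (i + 1) < a i) :
    ∃ s : ℕ → ℝ, (∀ i < D, a i ≤ s i ∧ s i ≤ b i) ∧ ∀ z : ℂ,
      ∏ l ∈ range D, (z - a l) + t * ∏ l ∈ range D, (z - b l)
        = (1 + t) * ∏ l ∈ range D, (z - s l) := by
  have chain : ∀ l i, l < i → i < D → b i < a l := by
    intro l i hli
    induction hli with
    | refl => exact hba l
    | step h ih =>
      intro hD
      exact (hba _ hD).trans ((hab _ (by omega)).trans_lt (ih (by omega)))
  have ex : ∀ i, ∃ x : ℝ, i < D → (a i ≤ x ∧ x ≤ b i) ∧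
      ∏ l ∈ range D, (x - a l) + t * ∏ l ∈ range D, (x - b l) = 0 := by
    intro i
    by_cases hi : i < D
    swap
    · exact ⟨0, fun h => absurd h hi⟩
    have hc : ContinuousOn (fun x : ℝ => (-1) ^ i *
        (∏ l ∈ range D, (x - a l) + t * ∏ l ∈ range D, (x - b l))) (Set.Icc (a i) (b i)) := by
      fun_prop
    have hA : ∏ l ∈ range D, (a i - a l) = 0 := prod_eq_zero (mem_range.2 hi) (sub_self _)
    have hB : ∏ l ∈ range D, (b i - b l) = 0 := prod_eq_zero (mem_range.2 hi) (sub_self _)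
    have s1 := sign_prod D i hi.le a (b i) (fun l hl => (chain l i hl hi).le) (fun l h1 h2 => by
      rcases h1.lt_or_eq with h | rfl
      · exact ((hab l h2).trans (chain i l h h2).le).trans (hab i hi)
      · exact hab _ hi)
    have s2 := sign_prod D (i + 1) hi b (a i) (fun l hl => by
      rcases (Nat.lt_succ_iff.1 hl).lt_or_eq with h | rfl
      · exact ((hab i hi).trans (chain l i h hi).le).trans (hab l (by omega))
      · exact hab _ hi) (fun l h1 h2 => (chain i l h1 h2).le)
    obtain ⟨x, hx, hx0⟩ := intermediate_value_Icc (hab i hi) hc (show (0:ℝ) ∈ _ from by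
      constructor
      · simp only [hA, zero_add]
        rw [pow_succ] at s2
        nlinarith
      · simp only [hB, mul_zero, add_zero]
        exact s1)
    refine ⟨x, fun _ => ⟨hx, ?_⟩⟩
    simpa using hx0
  choose s hs using ex
  refine ⟨s, fun i hi => (hs i hi).1, fun z => ?_⟩
  have hinj : Set.InjOn (fun i => (s i : ℂ)) (range D : Finset ℕ) := by
    intro i hi j hj hij
    have hi' : i < D := by simpa using hi
    have hj' : j < D := by simpa using hj
    have hij' : s i = s j := Complex.ofReal_injective hij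
    rcases lt_trichotomy i j with h | h | h
    · have := chain i j h hj'
      linarith [(hs i hi').1.1, (hs j hj').1.2]
    · exact h
    · have := chain j i h hi'
      linarith [(hs j hj').1.1, (hs i hi').1.2]
  have hmon : ∀ c : ℕ → ℝ, (∏ l ∈ range D, (X - C (c l : ℂ))).Monic := fun c =>
    monic_prod_of_monic _ _ fun l _ => monic_X_sub_C _
  have hdeg : ∀ c : ℕ → ℝ, (∏ l ∈ range D, (X - C (c l : ℂ))).degree = (D : WithBot ℕ) := fun c => by
    rw [degree_prod]; simp
  have hsub : ∀ c : ℕ → ℝ, (∏ l ∈ range D, (X - C (c l : ℂ))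
      - ∏ l ∈ range D, (X - C (s l : ℂ))).degree < (D : WithBot ℕ) := fun c => by
    have := degree_sub_lt_left ((hdeg c).trans (hdeg s).symm) (hmon c).ne_zero
      ((hmon c).leadingCoeff.trans (hmon s).leadingCoeff.symm)
    rwa [hdeg] at this
  have key := eq_of_degree_sub_lt_of_eval_index_eq (range D)
    (f := ∏ l ∈ range D, (X - C (a l : ℂ)) + C (t : ℂ) * ∏ l ∈ range D, (X - C (b l : ℂ)))
    (g := C (1 + t : ℂ) * ∏ l ∈ range D, (X - C (s l : ℂ))) hinj (by
      rw [card_range]
      have e : ∏ l ∈ range D, (X - C (a l : ℂ)) + C (t : ℂ) * ∏ l ∈ range D, (X - C (b l : ℂ))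
          - C (1 + t : ℂ) * ∏ l ∈ range D, (X - C (s l : ℂ))
          = (∏ l ∈ range D, (X - C (a l : ℂ)) - ∏ l ∈ range D, (X - C (s l : ℂ)))
            + (t : ℂ) • (∏ l ∈ range D, (X - C (b l : ℂ))
              - ∏ l ∈ range D, (X - C (s l : ℂ))) := by
        rw [smul_eq_C_mul, C_add, C_1]; ring
      rw [e]
      exact (degree_add_le _ _).trans_lt (max_lt (hsub a) ((degree_smul_le _ _).trans_lt (hsub b))))
    (by
      intro i hi
      have h0 : ∏ l ∈ range D, ((s i : ℂ) - s l) = 0 := prod_eq_zero hi (sub_self _)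
      simp only [eval_add, eval_mul, eval_C, eval_prod, eval_sub, eval_X, h0, mul_zero]
      exact_mod_cast (hs i (mem_range.1 hi)).2)
  have := congrArg (eval z) key
  simpa only [eval_add, eval_mul, eval_C, eval_prod, eval_sub, eval_X] using this

/-- the transform y^i to (z)_i (z+i+3/2)_(m-i) -/
noncomputable def Phi (m : ℕ) (q : ℂ[X]) (z : ℂ) : ℂ :=
  ∑ i ∈ range (m + 1), q.coeff i * (poch z i * poch (z + i + 3 / 2) (m - i))

lemma Phi_succ {m : ℕ} {q : ℂ[X]} (hq : q.natDegree ≤ m) (t z : ℂ) :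
    Phi (m + 1) ((1 + C t * X) * q) z = (z + 3 / 2 + m) * Phi m q z + t * z * Phi m q (z + 1) := by
  unfold Phi
  simp only [add_mul, one_mul, coeff_add, sum_add_distrib, mul_assoc, coeff_C_mul]
  rw [sum_range_succ, sum_range_succ' _ (m + 1),
    coeff_eq_zero_of_natDegree_lt (by omega : q.natDegree < m + 1)]
  simp only [coeff_X_mul, mul_coeff_zero, coeff_X_zero, zero_mul, mul_zero, add_zero, mul_sum,
    ← sum_add_distrib]
  refine sum_congr rfl fun k hk => ?_
  have hk' : k ≤ m := Nat.lt_succ_iff.1 (mem_range.1 hk)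
  obtain ⟨l, rfl⟩ := Nat.exists_eq_add_of_le hk'
  have e1 : k + l + 1 - k = l + 1 := by omega
  have e2 : k + l + 1 - (k + 1) = l := by omega
  have e3 : k + l - k = l := by omega
  rw [e1, e2, e3, poch_succ, poch_succ']
  push_cast
  rw [show z + (k + 1) + 3 / 2 = z + 1 + k + 3 / 2 by ring]
  ring

lemma factor {m : ℕ} {q : ℂ[X]} (hq : q.natDegree ≤ m + 1) (h : NR q) :
    ∃ (t : ℝ) (q' : ℂ[X]), 0 ≤ t ∧ q'.natDegree ≤ m ∧ NR q' ∧ q = (1 + C (t : ℂ) * X) * q' := by
  rcases hq.lt_or_eq with h1 | h1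
  · exact ⟨0, q, le_rfl, by omega, h, by simp⟩
  · obtain ⟨r, hr⟩ := Complex.exists_root (f := q) (natDegree_pos_iff_degree_pos.1 (by omega))
    obtain ⟨h2, h3⟩ := h r hr
    have h4 : r = (r.re : ℂ) := by
      apply Complex.ext <;> simp only [Complex.ofReal_re, Complex.ofReal_im, h2]
    have h5 : r ≠ 0 := by rintro rfl; simp at h3
    have e := mul_divByMonic_eq_iff_isRoot.2 hr
    have e2 : q = (1 + C ((-(r.re)⁻¹ : ℝ) : ℂ) * X) * (C (-r) * (q /ₘ (X - C r))) := by
      push_cast
      rw [← h4, ← mul_assoc]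
      have : (1 + C (-r⁻¹) * X) * C (-r) = X - C r := by
        have h6 : C (-r⁻¹) * C (-r) = 1 := by
          rw [← C_mul, neg_mul_neg, inv_mul_cancel₀ h5, C_1]
        rw [show C (-r) = -C r from map_neg C r] at h6 ⊢
        linear_combination X * h6
      rw [this, e]
    refine ⟨-(r.re)⁻¹, C (-r) * (q /ₘ (X - C r)), ?_, ?_, ?_, e2⟩
    · have := inv_lt_zero.2 h3
      linarith
    · refine (natDegree_C_mul_le _ _).trans ?_
      rw [natDegree_divByMonic _ (monic_X_sub_C r), natDegree_X_sub_C]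
      omega
    · intro z hz
      apply h
      rw [e2, eval_mul, hz, mul_zero]

lemma Phi_roots (m : ℕ) : ∀ q : ℂ[X], q.natDegree ≤ m → NR q →
    ∃ (κ : ℂ) (s : ℕ → ℝ), κ ≠ 0 ∧ (∀ i < m, -(3 / 2 + i) ≤ s i ∧ s i ≤ -i) ∧
      (∀ i, i + 1 < m → s (i + 1) + 1 ≤ s i) ∧
      ∀ z : ℂ, Phi m q z = κ * ∏ l ∈ range m, (z - s l) := by
  induction m with
  | zero =>
    intro q _ h
    refine ⟨q.coeff 0, fun _ => 0, fun h0 => ?_, by simp, by simp, by simp [Phi, poch]⟩
    have := h 0 (by rw [← coeff_zero_eq_eval_zero]; exact h0)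
    simp [Neg] at this
  | succ m ih =>
    intro q hq h
    obtain ⟨t, q', ht, hq', h', rfl⟩ := factor hq h
    obtain ⟨κ, s, hκ, hs1, hs2, hs3⟩ := ih q' hq' h'
    obtain ⟨u, hu1, hu2⟩ := interlace (m + 1) (fun i => if i < m then s i else -(3 / 2 + m))
      (fun i => if i = 0 then 0 else s (i - 1) - 1) t ht (by
        intro i hi
        rcases Nat.eq_zero_or_pos i with rfl | h0
        · simp only [if_true]
          split_ifs with h1
          · simpa using (hs1 0 h1).2
          · have : (0:ℝ) ≤ m := by positivity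
            linarith
        · obtain ⟨j, rfl⟩ : ∃ j, i = j + 1 := ⟨i - 1, by omega⟩
          simp only [Nat.succ_ne_zero, if_false, Nat.add_sub_cancel]
          split_ifs with h1
          · linarith [hs2 j h1]
          · have h2 : m = j + 1 := by omega
            have := (hs1 j (by omega)).1
            rw [h2]
            push_cast
            linarith) (by
        intro i hi
        simp only [Nat.succ_ne_zero, if_false, Nat.add_sub_cancel, if_pos (by omega : i < m)]
        linarith)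
    refine ⟨κ * (1 + t), u, mul_ne_zero hκ ?_, fun i hi => ?_, fun i hi => ?_, fun z => ?_⟩
    · have : (0:ℝ) < 1 + t := by linarith
      exact_mod_cast this.ne'
    · obtain ⟨a1, a2⟩ := hu1 i hi
      constructor
      · split_ifs at a1 with h1
        · linarith [(hs1 i h1).1]
        · have : i = m := by omega
          rw [this] at a1 ⊢
          exact a1
      · rcases Nat.eq_zero_or_pos i with rfl | h0
        · simpa using a2
        · obtain ⟨j, rfl⟩ : ∃ j, i = j + 1 := ⟨i - 1, by omega⟩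
          simp only [Nat.succ_ne_zero, if_false, Nat.add_sub_cancel] at a2
          have := (hs1 j (by omega)).2
          push_cast
          linarith
    · have a1 := (hu1 i (by omega)).1
      have a2 := (hu1 (i + 1) hi).2
      simp only [Nat.succ_ne_zero, if_false, Nat.add_sub_cancel] at a2
      rw [if_pos (by omega : i < m)] at a1
      linarith
    · rw [Phi_succ hq', hs3, hs3, mul_assoc κ, ← hu2 z, prod_range_succ,
        prod_range_succ' (fun l => z - ((if l = 0 then 0 else s (l - 1) - 1 : ℝ) : ℂ))]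
      have e1 : ∏ l ∈ range m, (z - ((if l < m then s l else -(3 / 2 + m) : ℝ) : ℂ))
          = ∏ l ∈ range m, (z - s l) :=
        prod_congr rfl fun l hl => by rw [if_pos (mem_range.1 hl)]
      have e2 : ∏ l ∈ range m, (z - ((if l + 1 = 0 then 0 else s (l + 1 - 1) - 1 : ℝ) : ℂ))
          = ∏ l ∈ range m, (z + 1 - s l) :=
        prod_congr rfl fun l _ => by
          simp only [Nat.succ_ne_zero, if_false, Nat.add_sub_cancel]
          push_cast; ring
      rw [e1, e2]
      simp only [lt_self_iff_false, if_false, if_true]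
      push_cast
      ring

lemma Phi_neg {m : ℕ} {q : ℂ[X]} (hq : q.natDegree ≤ m) (h : NR q) (z : ℂ)
    (hz : Phi m q z = 0) : Neg z := by
  obtain ⟨κ, s, hκ, hs1, -, hs3⟩ := Phi_roots m q hq h
  have hz0 : z ≠ 0 := by
    rintro rfl
    unfold Phi at hz
    rw [sum_range_succ'] at hz
    simp only [poch_succ', zero_mul, mul_zero, sum_const_zero, zero_add, poch_zero, one_mul,
      Nat.cast_zero, mul_eq_zero, Nat.sub_zero] at hz
    rcases hz with h1 | h1
    · have := h 0 (by rw [← coeff_zero_eq_eval_zero]; exact h1)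
      simp [Neg] at this
    · unfold poch at h1
      obtain ⟨i, _, hi⟩ := prod_eq_zero_iff.1 h1
      have h2 : (0:ℝ) < 3 / 2 + i := by positivity
      apply h2.ne'
      have h3 := congrArg Complex.re hi
      simpa using h3
  rw [hs3] at hz
  obtain ⟨i, hi, hi2⟩ := prod_eq_zero_iff.1 ((mul_eq_zero.1 hz).resolve_left hκ)
  have h1 : z = s i := sub_eq_zero.1 hi2
  have h2 := (hs1 i (mem_range.1 hi)).2
  have h3 : (0:ℝ) ≤ i := by positivity
  have h4 : s i ≠ 0 := by
    intro h5
    apply hz0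
    rw [h1, h5]
    simp
  rw [h1]
  exact ⟨Complex.ofReal_im _, by
    rw [Complex.ofReal_re]; exact lt_of_le_of_ne (by linarith) h4⟩

lemma main {n : ℕ} {W : ℂ[X]} (hd : W.natDegree ≤ n) (hs : ∀ k ≤ n, W.coeff k = W.coeff (n - k))
    (hW : NR W) : (∀ z, L z z n W - L (z + 1) (z - 1) n W = 0) ∨
      ∀ z, L z z n W - L (z + 1) (z - 1) n W = 0 → Neg z := by
  obtain ⟨g, rfl⟩ := gamma_exists n W hd hs
  have hg := gamma_NR hW
  have e1 : ∀ z : ℂ, L z z n (∑ j ∈ range (n / 2 + 1), C (g j) * (X ^ j * (1 + X) ^ (n - 2 * j)))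
      - L (z + 1) (z - 1) n (∑ j ∈ range (n / 2 + 1), C (g j) * (X ^ j * (1 + X) ^ (n - 2 * j)))
      = ∑ i ∈ range (n / 2), g (i + 1) * (i + 1) * (poch z i * poch (z + 1) i *
          poch (2 * (z + 1 + i)) (n - 2 * (i + 1))) := by
    intro z
    rw [L_sum, L_sum, ← sum_sub_distrib, sum_range_succ']
    have hb : ∀ j, 2 * j ≤ n → ∀ x y : ℂ, L x y n (X ^ j * (1 + X) ^ (n - 2 * j))
        = poch x j * poch y j * poch (x + y + 2 * j) (n - 2 * j) := by
      intro j hj x y
      have := L_basis (n - 2 * j) j x y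
      rwa [Nat.sub_add_cancel hj] at this
    rw [hb 0 (by omega), hb 0 (by omega), show z + 1 + (z - 1) = z + z by ring]
    simp only [poch_zero, sub_self, add_zero]
    refine sum_congr rfl fun i hi => ?_
    have hi' : 2 * (i + 1) ≤ n := by have := mem_range.1 hi; omega
    rw [hb _ hi', hb _ hi', show z + 1 + (z - 1) = z + z by ring,
      show z + z + 2 * ((i + 1 : ℕ) : ℂ) = 2 * (z + 1 + i) by push_cast; ring]
    have a1 := poch_succ z i
    have a2 := poch_succ' z i
    have a3 := poch_succ (z + 1) i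
    have a4 := poch_succ' (z - 1) i
    rw [sub_add_cancel] at a4
    rw [a3, a4]
    conv_lhs => rw [show poch z (i + 1) * poch z (i + 1)
      = (poch z i * (z + i)) * (z * poch (z + 1) i) by rw [← a1, ← a2]]
    ring
  simp only [e1]
  by_cases h0 : derivative (pol (n / 2) g) = 0
  · left
    intro z
    refine sum_eq_zero fun i hi => ?_
    have := congrArg (fun p => p.coeff i) h0
    simp only [coeff_derivative, pol_coeff, coeff_zero] at this
    rw [if_pos (by have := mem_range.1 hi; omega)] at this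
    rw [this, zero_mul]
  right
  have hg' := NR_deriv hg h0
  have hn : 2 ≤ n := by
    by_contra hc
    apply h0
    have : n / 2 = 0 := by omega
    rw [this]
    simp [pol]
  obtain ⟨N, rfl⟩ : ∃ N, n = N + 2 := ⟨n - 2, by omega⟩
  have e2 : (N + 2) / 2 = N / 2 + 1 := by omega
  rw [e2] at hg' ⊢
  have hq : NR (pol (N / 2) fun i => g (i + 1) * (i + 1) * 2 ^ (N - 2 * i)) := by
    intro y hy
    have h1 : Neg (y / 4) := by
      apply hg'
      rw [pol_eval] at hy
      have hd : (derivative (pol (N / 2 + 1) g)).natDegree < N / 2 + 1 := by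
        have := natDegree_derivative_le (pol (N / 2 + 1) g)
        have := pol_natDegree (N / 2 + 1) g
        omega
      rw [eval_eq_sum_range' hd]
      have h2 : (2:ℂ) ^ N ≠ 0 := pow_ne_zero _ two_ne_zero
      apply mul_left_cancel₀ h2
      rw [mul_zero, ← hy, mul_sum]
      refine sum_congr rfl fun i hi => ?_
      have hi' : 2 * i ≤ N := by have := mem_range.1 hi; omega
      rw [coeff_derivative, pol_coeff, if_pos (by omega)]
      obtain ⟨l, rfl⟩ := Nat.exists_eq_add_of_le hi'
      rw [Nat.add_sub_cancel_left, pow_add, pow_mul, div_pow]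
      field_simp
      norm_num
      ring
    obtain ⟨a1, a2⟩ := h1
    simp only [Complex.div_ofNat_im, Complex.div_ofNat_re] at a1 a2
    exact ⟨by linarith, by linarith⟩
  intro z hz
  have e3 : ∑ i ∈ range (N / 2 + 1), g (i + 1) * (i + 1) * (poch z i * poch (z + 1) i *
          poch (2 * (z + 1 + i)) (N + 2 - 2 * (i + 1)))
      = poch (z + 1) ((N + 1) / 2) *
        Phi (N / 2) (pol (N / 2) fun i => g (i + 1) * (i + 1) * 2 ^ (N - 2 * i)) z := by
    unfold Phi
    rw [mul_sum]
    refine sum_congr rfl fun i hi => ?_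
    have hi' : 2 * i ≤ N := by have := mem_range.1 hi; omega
    rw [pol_coeff, if_pos (by omega)]
    obtain ⟨l, rfl⟩ := Nat.exists_eq_add_of_le hi'
    have b1 : 2 * i + l + 2 - 2 * (i + 1) = l := by omega
    have b2 : (2 * i + l + 1) / 2 = i + (l + 1) / 2 := by omega
    have b3 : (2 * i + l) / 2 - i = l / 2 := by omega
    rw [b1, b2, b3, Nat.add_sub_cancel_left, poch_dup, poch_add,
      show z + 1 + i + 1 / 2 = z + i + 3 / 2 by ring]
    ring
  rw [e3] at hz
  rcases mul_eq_zero.1 hz with h1 | h1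
  · unfold poch at h1
    obtain ⟨i, _, hi⟩ := prod_eq_zero_iff.1 h1
    have h2 : z = ((-1 - i : ℝ) : ℂ) := by push_cast; linear_combination hi
    have h3 : (0:ℝ) ≤ i := by positivity
    rw [h2]
    exact ⟨Complex.ofReal_im _, by rw [Complex.ofReal_re]; linarith⟩
  · exact Phi_neg (pol_natDegree _ _) hq z h1

end Pool.Agent.H99.Karp
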