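import Mathlib

set_option autoImplicit false

open Filter Topology Set ComplexConjugate

namespace Pool.Agent.H99.Koch

/-- the silver ratio -/
noncomputable def a : ℝ := √2 - 1
/-- the complex multiplier -/
noncomputable def v : ℂ := ⟨119 / 288, √239 / 288⟩

theorem a2 : a ^ 2 = 1 - 2 * a := by
  have := Real.sq_sqrt (show (0 : ℝ) ≤ 2 by norm_num); unfold a; nlinarith
theorem alo : 0.414 < a := by
  have : (1.414 : ℝ) < √2 := Real.lt_sqrt_of_sq_lt (by norm_num); unfold a; linarith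
theorem ahi : a < 0.415 := by
  have : √2 < (1.415 : ℝ) := (Real.sqrt_lt' (by norm_num)).2 (by norm_num); unfold a; linarith
theorem a0 : 0 < a := by linarith [alo]
theorem vre : v.re = 119 / 288 := rfl
theorem vlo : 0.053 < v.im := by
  have : (15.4 : ℝ) < √239 := Real.lt_sqrt_of_sq_lt (by norm_num); simp only [v]; linarith
theorem vhi : v.im < 0.054 := by
  have : √239 < (15.5 : ℝ) := (Real.sqrt_lt' (by norm_num)).2 (by norm_num); simp only [v]; linarith
theorem vv : v * conj v = 25 / 144 := by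
  have := Real.sq_sqrt (show (0 : ℝ) ≤ 239 by norm_num)
  rw [Complex.mul_conj, Complex.normSq_apply]
  have : v.re * v.re + v.im * v.im = 25 / 144 := by simp only [v]; nlinarith
  rw [this]; push_cast; ring
theorem va : conj v = 119 / 144 - v := by
  apply Complex.ext <;> simp [vre]; norm_num
theorem vn : ‖v‖ = 5 / 12 := by
  have := congrArg norm vv
  rw [norm_mul, Complex.norm_conj] at this
  have k : ‖(25 / 144 : ℂ)‖ = 25 / 144 := by simp
  nlinarith [norm_nonneg v]
theorem v0 : v ≠ 0 := by rw [← norm_pos_iff, vn]; norm_num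

/-- the invariant quadrilateral -/
def K (z : ℂ) : Prop := |z.im| ≤ z.re / 2 ∧ |z.im| ≤ 3 / 4 * (1 - z.re)

theorem K.mul {z : ℂ} (h : K z) : 0 ≤ z.re ∧ z.re ≤ 1 ∧
    119 / 288 * z.re - 0.027 * z.re ≤ (v * z).re ∧
    (v * z).re ≤ 119 / 288 * z.re + 0.0405 * (1 - z.re) ∧
    |(v * z).im| ≤ 119 / 288 * |z.im| + 0.054 * z.re ∧
    |(v * z).im - v.im| ≤ 119 / 288 * |z.im| + 0.054 * (1 - z.re) := by
  obtain ⟨h1, h2⟩ := h
  have := vlo; have := vhi
  have i0 := abs_nonneg z.im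
  have i1 := le_abs_self z.im
  have i2 := neg_abs_le z.im
  have r0 : 0 ≤ z.re := by linarith
  have r1 : 0 ≤ 1 - z.re := by linarith
  simp only [Complex.mul_re, Complex.mul_im, vre, abs_le]
  refine ⟨r0, by linarith, ?_, ?_, ⟨?_, ?_⟩, ?_, ?_⟩ <;> nlinarith

theorem K.s1 {z : ℂ} (h : K z) : K (25 / 144 * z) := by
  have := h.mul
  obtain ⟨h1, h2⟩ := h
  have e : (25 / 144 : ℂ) = ((25 / 144 : ℝ) : ℂ) := by push_cast; ring
  rw [K, e, Complex.re_ofReal_mul, Complex.im_ofReal_mul, abs_mul, abs_of_pos (by norm_num)]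
  constructor <;> linarith

theorem K.s2 {z : ℂ} (h : K z) : K (1 - v - conj (v * z)) := by
  obtain ⟨k0, -, k1, k2, -, k4⟩ := h.mul
  obtain ⟨h1, h2⟩ := h
  have : (1 - v - conj (v * z)).im = (v * z).im - v.im := by simp; ring
  rw [K, this]
  simp only [Complex.sub_re, Complex.one_re, vre, Complex.conj_re]
  constructor <;> linarith

theorem K.s3 {z : ℂ} (h : K z) : K (1 - v * z) := by
  obtain ⟨k0, -, k1, k2, k3, -⟩ := h.mul
  obtain ⟨h1, h2⟩ := h
  have : (1 - v * z).im = -(v * z).im := by simp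
  rw [K, this, abs_neg]
  simp only [Complex.sub_re, Complex.one_re]
  constructor <;> linarith

/-- the self-similar curve -/
structure Curve (G : ℝ → ℂ) : Prop where
  cont : Continuous G
  mem : ∀ x, K (G x)
  zero : ∀ x ≤ 0, G x = 0
  one : G 1 = 1
  e1 : ∀ y ∈ Icc (0 : ℝ) 1, G (a ^ 2 * y) = 25 / 144 * G y
  e2 : ∀ y ∈ Icc (0 : ℝ) 1, G (1 - a - a * y) = 1 - v - conj (v * G y)
  e3 : ∀ y ∈ Icc (0 : ℝ) 1, G (1 - a * y) = 1 - v * G y

theorem exists_curve : ∃ G, Curve G := by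
  have := a2; have := alo; have := ahi; have := a0
  let B : Set (BoundedContinuousFunction ℝ ℂ) :=
    {G | (∀ x, K (G x)) ∧ (∀ x ≤ 0, G x = 0) ∧ ∀ x, 1 ≤ x → G x = 1}
  have hB : IsClosed B := by
    simp only [B, K, ofPred_and, ofPred_forall]
    refine (isClosed_iInter fun x => IsClosed.inter ?_ ?_).inter (IsClosed.inter ?_ ?_)
    · exact isClosed_le (by fun_prop) (by fun_prop)
    · exact isClosed_le (by fun_prop) (by fun_prop)
    all_goals exact isClosed_iInter fun x => isClosed_iInter fun _ =>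
      isClosed_eq (by fun_prop) continuous_const
  let Φ : BoundedContinuousFunction ℝ ℂ → BoundedContinuousFunction ℝ ℂ := fun G =>
    (25 / 144 : ℂ) • G.compContinuous ⟨fun x => x / a ^ 2, by fun_prop⟩ +
      conj v • (1 - star (G.compContinuous ⟨fun x => (1 - a - x) / a, by fun_prop⟩)) +
      v • (1 - G.compContinuous ⟨fun x => (1 - x) / a, by fun_prop⟩)
  have f0 : ∀ G x, Φ G x = 25 / 144 * G (x / a ^ 2) + conj v * (1 - conj (G ((1 - a - x) / a))) +
      v * (1 - G ((1 - x) / a)) := fun G x => by simp [Φ]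
  have f1 : ∀ G ∈ B, ∀ x ≤ a ^ 2, Φ G x = 25 / 144 * G (x / a ^ 2) := fun G h x hx => by
    rw [f0, h.2.2 ((1 - a - x) / a) (by rw [le_div_iff₀ a0]; linarith),
      h.2.2 ((1 - x) / a) (by rw [le_div_iff₀ a0]; linarith)]
    simp
  have f2 : ∀ G ∈ B, ∀ x, a ^ 2 ≤ x → x ≤ 1 - a →
      Φ G x = 1 - v - conj (v * G ((1 - a - x) / a)) := fun G h x hx k => by
    rw [f0, h.2.2 (x / a ^ 2) (by rw [le_div_iff₀ (by positivity)]; linarith),
      h.2.2 ((1 - x) / a) (by rw [le_div_iff₀ a0]; linarith), map_mul, va]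
    ring
  have f3 : ∀ G ∈ B, ∀ x, 1 - a ≤ x → Φ G x = 1 - v * G ((1 - x) / a) := fun G h x hx => by
    rw [f0, h.2.2 (x / a ^ 2) (by rw [le_div_iff₀ (by positivity)]; linarith),
      h.2.1 ((1 - a - x) / a) (div_nonpos_of_nonpos_of_nonneg (by linarith) a0.le), va]
    simp; ring
  have hm : MapsTo Φ B B := fun G h => ⟨fun x => by
      rcases le_total x (a ^ 2) with k | k
      · rw [f1 G h x k]; exact (h.1 _).s1
      rcases le_total x (1 - a) with l | l
      · rw [f2 G h x k l]; exact (h.1 _).s2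
      · rw [f3 G h x l]; exact (h.1 _).s3,
    fun x hx => by
      rw [f1 G h x (by linarith), h.2.1 _ (div_nonpos_of_nonpos_of_nonneg hx (by positivity)),
        mul_zero],
    fun x hx => by
      rw [f3 G h x (by linarith), h.2.1 _ (div_nonpos_of_nonpos_of_nonneg (by linarith) a0.le)]
      simp⟩
  have hc : ContractingWith (1 / 2) (hm.restrict Φ B B) := by
    refine ⟨by norm_num, LipschitzWith.of_dist_le_mul fun G H => ?_⟩
    rw [Subtype.dist_eq, BoundedContinuousFunction.dist_le (by positivity)]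
    intro x
    have d : ∀ t, ‖G.1 t - H.1 t‖ ≤ dist G H := fun t => by
      rw [← dist_eq_norm]; exact BoundedContinuousFunction.dist_coe_le_dist t
    have d0 := dist_nonneg (x := G) (y := H)
    simp only [MapsTo.val_restrict_apply, dist_eq_norm]
    push_cast
    rcases le_total x (a ^ 2) with k | k
    · rw [f1 _ G.2 x k, f1 _ H.2 x k, ← mul_sub, norm_mul]
      have := d (x / a ^ 2)
      simp; linarith
    rcases le_total x (1 - a) with l | l
    · rw [f2 _ G.2 x k l, f2 _ H.2 x k l, sub_sub_sub_cancel_left, ← map_sub, Complex.norm_conj,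
        ← mul_sub, norm_mul, vn, norm_sub_rev]
      linarith [d ((1 - a - x) / a)]
    · rw [f3 _ G.2 x l, f3 _ H.2 x l, sub_sub_sub_cancel_left, ← mul_sub, norm_mul, vn, norm_sub_rev]
      linarith [d ((1 - x) / a)]
  obtain ⟨G, h, e, -⟩ := hc.exists_fixedPoint' hB.isComplete hm
    (x := .ofNormedAddCommGroup (fun x => ((max 0 (min 1 x) : ℝ) : ℂ)) (by fun_prop) 1 fun x => by
      rw [Complex.norm_real, Real.norm_of_nonneg (le_max_left _ _)]; simp)
    ⟨fun x => by simp [K]; positivity, fun x hx => by simp [hx], fun x hx => by simp [hx]⟩ (edist_ne_top _ _)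
  refine ⟨G, G.continuous, h.1, h.2.1, h.2.2 1 le_rfl, fun y hy => ?_, fun y hy => ?_,
    fun y hy => ?_⟩ <;> nth_rewrite 1 [← e.eq]
  · rw [f1 G h _ (by nlinarith [hy.2]), mul_div_cancel_left₀ _ (by positivity)]
  · rw [f2 G h _ (by nlinarith [hy.2]) (by nlinarith [hy.1]), sub_sub_cancel,
      mul_div_cancel_left₀ _ a0.ne']
  · rw [f3 G h _ (by nlinarith [hy.2]), sub_sub_cancel, mul_div_cancel_left₀ _ a0.ne']

theorem p1 {x : ℝ} (h : 0 ≤ x) (k : x ≤ a ^ 2) : ∃ y ∈ Icc (0 : ℝ) 1, a ^ 2 * y = x :=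
  have := a0
  ⟨x / a ^ 2, ⟨by positivity, (div_le_one (by positivity)).2 k⟩, by field_simp⟩
theorem p0 {x : ℝ} (h : 0 ≤ x) (k : x ≤ a) : ∃ y ∈ Icc (0 : ℝ) 1, a * y = x :=
  have := a0
  ⟨x / a, ⟨by positivity, (div_le_one a0).2 k⟩, by field_simp⟩
theorem p2 {x : ℝ} (h : a ^ 2 ≤ x) (k : x ≤ 1 - a) : ∃ y ∈ Icc (0 : ℝ) 1, 1 - a - a * y = x := by
  obtain ⟨y, hy, e⟩ := p0 (x := 1 - a - x) (by linarith) (by linarith [a2])
  exact ⟨y, hy, by linarith⟩
theorem p3 {x : ℝ} (h : 1 - a ≤ x) (k : x ≤ 1) : ∃ y ∈ Icc (0 : ℝ) 1, 1 - a * y = x := by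
  obtain ⟨y, hy, e⟩ := p0 (x := 1 - x) (by linarith) (by linarith)
  exact ⟨y, hy, by linarith⟩

namespace Curve
variable {G : ℝ → ℂ} (h : Curve G)
include h

theorem lo1 {x : ℝ} (k : a ^ 2 ≤ x) (l : x ≤ 1) : 25 / 144 ≤ (G x).re := by
  rcases le_total x (1 - a) with m | m
  · obtain ⟨y, hy, rfl⟩ := p2 k m
    have := (h.mem y).mul
    simp only [h.e2 y hy, Complex.sub_re, Complex.one_re, vre, Complex.conj_re]; linarith
  · obtain ⟨y, hy, rfl⟩ := p3 m l
    have := (h.mem y).mul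
    simp only [h.e3 y hy, Complex.sub_re, Complex.one_re]; linarith

theorem r1 {y : ℝ} (hy : y ∈ Icc (0 : ℝ) 1) : (G (a ^ 2 * y)).re = 25 / 144 * (G y).re := by
  have e : (25 / 144 : ℂ) = ((25 / 144 : ℝ) : ℂ) := by push_cast; ring
  rw [h.e1 y hy, e, Complex.re_ofReal_mul]

theorem pos {x : ℝ} (k : 0 < x) (l : x ≤ 1) : 0 < (G x).re := by
  have := a2; have := alo
  obtain ⟨n, hn⟩ := exists_pow_lt_of_lt_one k (show a ^ 2 < 1 by linarith)
  induction n generalizing x with
  | zero => simp at hn; linarith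
  | succ n ih =>
    rcases le_total x (a ^ 2) with m | m
    · obtain ⟨y, hy, rfl⟩ := p1 k.le m
      rw [pow_succ', mul_lt_mul_iff_right₀ (by positivity)] at hn
      have := ih (lt_of_le_of_lt (by positivity) hn) hy.2 hn
      rw [h.r1 hy]; linarith
    · linarith [h.lo1 m l]

theorem hi2 {x : ℝ} (k : 0 ≤ x) (l : x < 1 - a) : (G x).re < 169 / 288 := by
  rcases le_total x (a ^ 2) with m | m
  · obtain ⟨y, hy, rfl⟩ := p1 k m
    rw [h.r1 hy]; linarith [(h.mem y).mul]
  · obtain ⟨y, hy, rfl⟩ := p2 m l.le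
    have := (h.mem y).mul
    have := h.pos ((mul_pos_iff_of_pos_left a0).1 (by linarith)) hy.2
    simp only [h.e2 y hy, Complex.sub_re, Complex.one_re, vre, Complex.conj_re]; linarith

theorem sep2 {x : ℝ} (k : 0 ≤ x) (l : x ≤ 1) : x < 1 - a ↔ (G x).re < 169 / 288 := by
  refine ⟨h.hi2 k, fun m => not_le.1 fun n => ?_⟩
  obtain ⟨y, hy, rfl⟩ := p3 n l
  have := (h.mem y).mul
  simp only [h.e3 y hy, Complex.sub_re, Complex.one_re] at m; linarith

theorem sep (n : ℕ) {x : ℝ} (k : 0 ≤ x) (l : x ≤ 1) :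
    x < (a ^ 2) ^ n ↔ (G x).re < (25 / 144) ^ n := by
  have := a2; have := alo
  induction n generalizing x with
  | zero =>
    simp only [pow_zero]
    refine ⟨fun m => ?_, fun m => l.lt_of_ne (by rintro rfl; simp [h.one] at m)⟩
    rcases lt_or_ge x (1 - a) with n | n
    · linarith [h.hi2 k n]
    obtain ⟨y, hy, rfl⟩ := p3 n l
    have := (h.mem y).mul
    have := h.pos ((mul_pos_iff_of_pos_left a0).1 (by linarith)) hy.2
    simp only [h.e3 y hy, Complex.sub_re, Complex.one_re]; linarith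
  | succ n ih =>
    rw [pow_succ' (a ^ 2), pow_succ' (25 / 144 : ℝ)]
    rcases le_total x (a ^ 2) with m | m
    · obtain ⟨y, hy, rfl⟩ := p1 k m
      rw [h.r1 hy, mul_lt_mul_iff_right₀ (by positivity), mul_lt_mul_iff_right₀ (by positivity)]
      exact ih hy.1 hy.2
    · have := h.lo1 m l
      have := pow_le_one₀ (n := n) (sq_nonneg a) (by linarith)
      have := pow_le_one₀ (n := n) (show (0 : ℝ) ≤ 25 / 144 by norm_num) (by norm_num)
      constructor <;> intro <;> nlinarith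

theorem inj : InjOn G (Icc 0 1) := by
  have := a2; have := alo; have := ahi
  have : ∀ n : ℕ, ∀ x ∈ Icc (0 : ℝ) 1, ∀ y ∈ Icc (0 : ℝ) 1, G x = G y → |x - y| ≤ a ^ n := by
    intro n
    induction n with
    | zero => intro x hx y hy _; rw [pow_zero, abs_le]; constructor <;> linarith [hx.1, hx.2, hy.1, hy.2]
    | succ n ih =>
      intro x hx y hy e
      have s1 : x < a ^ 2 ↔ y < a ^ 2 := by
        have := h.sep 1 hx.1 hx.2
        rw [e, ← h.sep 1 hy.1 hy.2] at this
        simpa using this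
      have s2 : x < 1 - a ↔ y < 1 - a := (h.sep2 hx.1 hx.2).trans (e ▸ (h.sep2 hy.1 hy.2).symm)
      have an : 0 < a ^ n := pow_pos a0 n
      rw [pow_succ']
      by_cases m : x < a ^ 2
      · obtain ⟨x, ix, rfl⟩ := p1 hx.1 m.le
        obtain ⟨y, iy, rfl⟩ := p1 hy.1 (s1.1 m).le
        rw [h.e1 x ix, h.e1 y iy] at e
        have := ih x ix y iy (mul_left_cancel₀ (by norm_num) e)
        rw [← mul_sub, abs_mul, abs_of_pos (by positivity)]
        exact mul_le_mul (by linarith) this (abs_nonneg _) a0.le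
      by_cases k : x < 1 - a
      · obtain ⟨x, ix, rfl⟩ := p2 (not_lt.1 m) k.le
        obtain ⟨y, iy, rfl⟩ := p2 (not_lt.1 (s1.not.1 m)) (s2.1 k).le
        rw [h.e2 x ix, h.e2 y iy, sub_right_inj] at e
        have := ih y iy x ix (mul_left_cancel₀ v0 ((starRingEnd ℂ).injective e)).symm
        rw [sub_sub_sub_cancel_left, ← mul_sub, abs_mul, abs_of_pos a0]
        exact mul_le_mul_of_nonneg_left this a0.le
      · obtain ⟨x, ix, rfl⟩ := p3 (not_lt.1 k) hx.2
        obtain ⟨y, iy, rfl⟩ := p3 (not_lt.1 (s2.not.1 k)) hy.2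
        rw [h.e3 x ix, h.e3 y iy, sub_right_inj] at e
        have := ih y iy x ix (mul_left_cancel₀ v0 e).symm
        rw [sub_sub_sub_cancel_left, ← mul_sub, abs_mul, abs_of_pos a0]
        exact mul_le_mul_of_nonneg_left this a0.le
  intro x hx y hy e
  exact sub_eq_zero.1 (abs_nonpos_iff.1 (ge_of_tendsto'
    (tendsto_pow_atTop_nhds_zero_of_lt_one a0.le (by linarith)) fun n => this n x hx y hy e))

end Curve

end Pool.Agent.H99.Koch
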