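import Pool.Agent.H99.Koch1

set_option autoImplicit false

open Filter Topology Set ComplexConjugate

namespace Pool.Agent.H99.Koch

/-- contained in a line or a circle -/
def Circ (A : Set ℂ) : Prop :=
  ∃ (α γ : ℝ) (β : ℂ), (α ≠ 0 ∨ β ≠ 0) ∧ ∀ z ∈ A, α * Complex.normSq z + (β * z).re + γ = 0

theorem Circ.mono {A B : Set ℂ} (h : Circ A) (k : B ⊆ A) : Circ B :=
  let ⟨α, γ, β, h1, h2⟩ := h; ⟨α, γ, β, h1, fun z hz => h2 z (k hz)⟩

theorem Circ.aff {A : Set ℂ} (h : Circ A) (k : ℂ) {m : ℂ} (hm : m ≠ 0) :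
    Circ {z | k + m * z ∈ A} := by
  obtain ⟨α, γ, β, h1, h2⟩ := h
  refine ⟨α * Complex.normSq m, α * Complex.normSq k + (β * k).re + γ, (2 * α * conj k + β) * m,
    ?_, fun z hz => ?_⟩
  · by_cases e : α = 0
    · exact .inr (by simpa [e, hm] using h1)
    · exact .inl (by simpa [e] using hm)
  · have := h2 _ hz
    simp [Complex.normSq_apply] at this ⊢
    linarith

theorem Circ.conj {A : Set ℂ} (h : Circ A) : Circ {z | conj z ∈ A} := by
  obtain ⟨α, γ, β, h1, h2⟩ := h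
  refine ⟨α, γ, conj β, by simpa using h1, fun z hz => ?_⟩
  have := h2 _ hz
  simp [Complex.normSq_apply] at this ⊢
  linarith

theorem circ_of {A : Set ℂ} (h : Collinear ℝ A ∨ EuclideanGeometry.Cospherical A) : Circ A := by
  rcases h with h | ⟨c, r, h⟩
  · obtain ⟨p, w, h⟩ := (collinear_iff_exists_forall_eq_smul_vadd A).1 h
    by_cases e : w = 0
    · refine ⟨0, -p.re, 1, by simp, fun z hz => ?_⟩
      obtain ⟨r, rfl⟩ := h z hz
      simp [e]
    · refine ⟨0, -(Complex.I * conj w * p).re, Complex.I * conj w, by simp [e], fun z hz => ?_⟩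
      obtain ⟨r, rfl⟩ := h z hz
      simp; ring
  · refine ⟨1, Complex.normSq c - r ^ 2, -2 * conj c, by simp, fun z hz => ?_⟩
    rw [← h z hz, Complex.dist_eq, Complex.sq_norm]
    simp [Complex.normSq_apply]; ring

/-- the curve extended to `[-a, 1]` -/
noncomputable def H (G : ℝ → ℂ) (x : ℝ) : ℂ := G x - v * conj (G (-x / a))

namespace Curve
variable {G : ℝ → ℂ} (h : Curve G)
include h

theorem ncirc (n : ℕ) {x y : ℝ} (k : 0 ≤ x) (l : y ≤ 1) (m : (5 / 6) ^ n ≤ y - x) :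
    ¬ Circ (G '' Icc x y) := by
  have := a2; have := alo; have := ahi
  induction n generalizing x y with
  | zero =>
    rintro ⟨α, γ, β, h1, h2⟩
    have i : ∀ t ∈ Icc (0 : ℝ) 1, α * Complex.normSq (G t) + (β * G t).re + γ = 0 := fun t ht =>
      h2 _ ⟨t, ⟨by linarith [ht.1], by linarith [ht.2]⟩, rfl⟩
    have i0 := i 0 (by simp)
    have i1 := i 1 (by simp)
    have i2 := i (a ^ 2 * 1) ⟨by positivity, by linarith⟩
    have i3 := i (1 - a * 1) ⟨by linarith, by linarith⟩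
    rw [h.e1 1 (by simp)] at i2
    rw [h.e3 1 (by simp)] at i3
    simp [h.zero 0 le_rfl, h.one, Complex.normSq_apply, vre] at i0 i1 i2 i3
    have e1 : α = 0 := by linarith
    have e2 : β.re = 0 := by linarith
    have e3 : β.im = 0 := by simpa [e1, e2, i0, (show 0 < v.im by linarith [vlo]).ne'] using i3
    exact h1.elim (fun k => k e1) fun k => k (Complex.ext e2 e3)
  | succ n ih =>
    intro c
    have q0 : (0 : ℝ) < (5 / 6) ^ n := by positivity
    have q1 : (5 / 6 : ℝ) ^ n ≤ 1 := pow_le_one₀ (by norm_num) (by norm_num)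
    rw [pow_succ] at m
    set q : ℝ := (5 / 6) ^ n
    have c1 : ∀ s t, 0 ≤ s → t ≤ 1 → x ≤ a ^ 2 * s → a ^ 2 * t ≤ y → t - s < q :=
      fun s t h1 h2 h3 h4 => not_le.1 fun h5 => ih h1 h2 h5 ((c.aff 0 (m := 25 / 144)
        (by norm_num)).mono (by
          rintro _ ⟨w, hw, rfl⟩
          exact ⟨a ^ 2 * w, ⟨by nlinarith [hw.1], by nlinarith [hw.2]⟩, by
            rw [h.e1 w ⟨h1.trans hw.1, hw.2.trans h2⟩, zero_add]⟩))
    have c2 : ∀ s t, 0 ≤ s → t ≤ 1 → x ≤ 1 - a - a * t → 1 - a - a * s ≤ y → t - s < q :=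
      fun s t h1 h2 h3 h4 => not_le.1 fun h5 => ih h1 h2 h5 ((((c.aff (1 - v) (m := -1)
        (by norm_num)).conj).aff 0 v0).mono (by
          rintro _ ⟨w, hw, rfl⟩
          exact ⟨1 - a - a * w, ⟨by nlinarith [hw.2], by nlinarith [hw.1]⟩, by
            rw [h.e2 w ⟨h1.trans hw.1, hw.2.trans h2⟩, zero_add]; ring⟩))
    have c3 : ∀ s t, 0 ≤ s → t ≤ 1 → x ≤ 1 - a * t → 1 - a * s ≤ y → t - s < q :=
      fun s t h1 h2 h3 h4 => not_le.1 fun h5 => ih h1 h2 h5 ((c.aff 1 (neg_ne_zero.2 v0)).mono (by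
          rintro _ ⟨w, hw, rfl⟩
          exact ⟨1 - a * w, ⟨by nlinarith [hw.2], by nlinarith [hw.1]⟩, by
            rw [h.e3 w ⟨h1.trans hw.1, hw.2.trans h2⟩]; ring⟩))
    rcases le_total x (a ^ 2) with x1 | x1
    · obtain ⟨s, hs, rfl⟩ := p1 k x1
      rcases le_total y (a ^ 2) with y1 | y1
      · obtain ⟨t, ht, rfl⟩ := p1 (x := y) (by linarith) y1
        have := c1 s t hs.1 ht.2 le_rfl le_rfl
        nlinarith
      rcases le_total y (1 - a) with y2 | y2
      · obtain ⟨t, ht, rfl⟩ := p2 y1 y2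
        have := c1 s 1 hs.1 le_rfl le_rfl (by linarith)
        have := c2 t 1 ht.1 le_rfl (by linarith) le_rfl
        nlinarith
      · linarith [c2 0 1 le_rfl le_rfl (by linarith) (by linarith)]
    rcases le_total x (1 - a) with x2 | x2
    · obtain ⟨s, hs, rfl⟩ := p2 x1 x2
      rcases le_total y (1 - a) with y2 | y2
      · obtain ⟨t, ht, rfl⟩ := p2 (x := y) (by linarith) y2
        have := c2 t s ht.1 hs.2 le_rfl le_rfl
        nlinarith
      · obtain ⟨t, ht, rfl⟩ := p3 y2 l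
        have := c2 0 s le_rfl hs.2 le_rfl (by linarith)
        have := c3 t 1 ht.1 le_rfl (by linarith) le_rfl
        nlinarith
    · obtain ⟨t, ht, rfl⟩ := p3 (x := y) (by linarith) l
      obtain ⟨s, hs, rfl⟩ := p3 x2 (by linarith)
      have := c3 t s ht.1 hs.2 le_rfl le_rfl
      nlinarith

theorem Hc : Continuous (H G) := by have := h.cont; unfold H; fun_prop

theorem Hp {x : ℝ} (k : 0 ≤ x) : H G x = G x := by
  rw [H, h.zero (-x / a) (div_nonpos_of_nonpos_of_nonneg (by linarith) a0.le)]; simp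

theorem Hn {y : ℝ} (k : 0 ≤ y) : H G (-(a * y)) = -v * conj (G y) := by
  rw [H, h.zero _ (by nlinarith [a0]), neg_neg, mul_div_cancel_left₀ _ a0.ne']; ring

omit h in
theorem pn {x : ℝ} (k : -a ≤ x) (l : x ≤ 0) : ∃ y ∈ Icc (0 : ℝ) 1, -(a * y) = x := by
  obtain ⟨y, hy, e⟩ := p0 (x := -x) (by linarith) (by linarith)
  exact ⟨y, hy, by linarith⟩

theorem Hneg {x : ℝ} (k : -a ≤ x) (l : x < 0) : (H G x).re < 0 := by
  obtain ⟨y, hy, rfl⟩ := pn k l.le
  have := h.pos ((mul_pos_iff_of_pos_left a0).1 (by linarith)) hy.2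
  have := (h.mem y).1
  have := neg_abs_le (G y).im
  have := vlo; have := vhi
  rw [h.Hn hy.1]
  simp [vre]
  nlinarith [abs_nonneg (G y).im]

theorem Hsep (n : ℕ) {x : ℝ} (k : -a ≤ x) (l : x ≤ 1) :
    x < (a ^ 2) ^ n ↔ (H G x).re < (25 / 144) ^ n := by
  rcases lt_or_ge x 0 with m | m
  · exact iff_of_true (m.trans (by have := a0; positivity)) ((h.Hneg k m).trans (by positivity))
  · rw [h.Hp m, h.sep n m l]

theorem Hsep2 {x : ℝ} (k : -a ≤ x) (l : x ≤ 1) : x < 1 - a ↔ (H G x).re < 169 / 288 := by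
  rcases lt_or_ge x 0 with m | m
  · exact iff_of_true (by linarith [ahi]) ((h.Hneg k m).trans (by positivity))
  · rw [h.Hp m, h.sep2 m l]

theorem Hinj : InjOn (H G) (Icc (-a) 1) := by
  intro x hx y hy e
  have t : ∀ x ∈ Icc (-a) 1, x < 0 ↔ (H G x).re < 0 := fun x hx => ⟨h.Hneg hx.1, fun k =>
    not_le.1 fun m => by rw [h.Hp m] at k; linarith [(h.mem x).mul]⟩
  have s : x < 0 ↔ y < 0 := by rw [t x hx, t y hy, e]
  by_cases m : x < 0
  · obtain ⟨x, ix, rfl⟩ := pn hx.1 m.le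
    obtain ⟨y, iy, rfl⟩ := pn hy.1 (s.1 m).le
    rw [h.Hn ix.1, h.Hn iy.1] at e
    rw [h.inj ix iy ((starRingEnd ℂ).injective (mul_left_cancel₀ (neg_ne_zero.2 v0) e))]
  · have m' := not_lt.1 (s.not.1 m)
    rw [h.Hp (not_lt.1 m), h.Hp m'] at e
    exact h.inj ⟨not_lt.1 m, hx.2⟩ ⟨m', hy.2⟩ e

theorem Hcirc {x y : ℝ} (k : -a ≤ x) (l : y ≤ 1) (m : x < y) : ¬ Circ (H G '' Icc x y) := by
  intro c
  rcases le_or_gt y 0 with y0 | y0
  · obtain ⟨s, hs, rfl⟩ := pn k (m.le.trans y0)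
    obtain ⟨t, ht, rfl⟩ := pn (k.trans m.le) y0
    obtain ⟨n, hn⟩ := exists_pow_lt_of_lt_one (show 0 < s - t by nlinarith [a0])
      (show (5 / 6 : ℝ) < 1 by norm_num)
    refine h.ncirc n ht.1 hs.2 hn.le ((c.aff 0 (neg_ne_zero.2 v0)).conj.mono ?_)
    rintro _ ⟨w, hw, rfl⟩
    exact ⟨-(a * w), ⟨by nlinarith [hw.2, a0], by nlinarith [hw.1, a0]⟩, by
      rw [h.Hn (ht.1.trans hw.1), zero_add]⟩
  · obtain ⟨n, hn⟩ := exists_pow_lt_of_lt_one (sub_pos.2 (max_lt m y0))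
      (show (5 / 6 : ℝ) < 1 by norm_num)
    refine h.ncirc n (le_max_right _ _) l hn.le (c.mono ?_)
    rintro _ ⟨w, hw, rfl⟩
    exact ⟨w, ⟨(le_max_left _ _).trans hw.1, hw.2⟩, h.Hp ((le_max_right _ _).trans hw.1)⟩

theorem lam {w : ℝ} (k : -a ≤ w) : H G (-(a * w)) = -v * conj (H G w) := by
  rcases le_total w 0 with m | m
  · obtain ⟨y, hy, rfl⟩ := pn k m
    rw [h.Hn hy.1, show -(a * -(a * y)) = a ^ 2 * y by ring, h.Hp (by have := hy.1; positivity),
      h.e1 y hy, ← vv]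
    simp; ring
  · rw [h.Hn m, h.Hp m]

theorem Q : ∀ y ∈ Icc (0 : ℝ) 1, H G (y - a) = conj (H G y) - v := by
  have := a2; have := alo; have := ahi
  have c := h.Hc
  obtain ⟨y, hy, m⟩ := isCompact_Icc.exists_isMaxOn (f := fun y => ‖H G (y - a) - (conj (H G y) - v)‖)
    (nonempty_Icc.2 (zero_le_one' ℝ)) (Continuous.continuousOn (by fun_prop))
  suffices ‖H G (y - a) - (conj (H G y) - v)‖ ≤ 0 from fun t ht =>
    sub_eq_zero.1 (norm_le_zero_iff.1 ((m ht).trans this))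
  rcases le_total y (a ^ 2) with y1 | y1
  · obtain ⟨t, ht, rfl⟩ := p1 hy.1 y1
    rw [show a ^ 2 * t - a = -(a * (1 - a * t)) by ring, h.Hn (by nlinarith [ht.2]), h.Hp hy.1,
      h.e1 t ht, h.e3 t ht, ← vv, norm_le_zero_iff]
    simp; ring
  rcases le_total y (1 - a) with y2 | y2
  · obtain ⟨t, ht, rfl⟩ := p2 y1 y2
    have m1 : ‖H G (t - a) - (conj (H G t) - v)‖ ≤ _ := m ht
    have : H G (1 - a - a * t - a) - (conj (H G (1 - a - a * t)) - v) =
        -v * conj (H G (t - a) - (conj (H G t) - v)) := by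
      rw [show 1 - a - a * t - a = -(a * (t - a)) by linarith, h.lam (by linarith [ht.1]), h.Hp hy.1,
        h.e2 t ht, h.Hp ht.1]
      simp only [map_sub, map_one, Complex.conj_conj]
      linear_combination vv + va
    beta_reduce at m1
    rw [this, norm_mul, Complex.norm_conj, norm_neg, vn] at m1 ⊢
    linarith
  · obtain ⟨t, ht, rfl⟩ := p3 y2 hy.2
    rw [show 1 - a * t - a = 1 - a - a * t by ring, h.Hp (by nlinarith [ht.2]), h.Hp hy.1,
      h.e2 t ht, h.e3 t ht, norm_le_zero_iff]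
    simp; ring

theorem T1 {x : ℝ} (k : -a ≤ x) (l : x ≤ a ^ 2) : H G (x + 2 * a) = H G x + 119 / 144 := by
  have := a2; have := alo
  have e1 := h.Q (x + a) ⟨by linarith, by linarith⟩
  have e2 := h.Q (x + 2 * a) ⟨by linarith, by linarith⟩
  rw [show x + 2 * a - a = x + a by ring] at e2
  rw [add_sub_cancel_right, e2, map_sub, Complex.conj_conj, va] at e1
  linear_combination -e1

theorem T2 {x : ℝ} (k : a ^ 2 ≤ x) (l : x ≤ 1 - a) :
    H G (x - (1 - a)) = v / conj v * (H G x - 1 + v) := by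
  have := (map_ne_zero (starRingEnd ℂ)).2 v0
  obtain ⟨t, ht, rfl⟩ := p2 k l
  rw [show 1 - a - a * t - (1 - a) = -(a * t) by ring, h.Hn ht.1, h.Hp ((sq_nonneg a).trans k),
    h.e2 t ht, map_mul]
  field_simp; ring

theorem T3 {x : ℝ} (k : 1 - a ≤ x) (l : x ≤ 1) :
    H G (x - (1 - a)) = conj v / v * (H G x - 1 + v) := by
  have := v0; have := ahi
  obtain ⟨t, ht, rfl⟩ := p3 k l
  have e := h.Q (1 - a * t - (1 - a)) ⟨by linarith, by linarith⟩
  rw [show 1 - a * t - (1 - a) - a = -(a * t) by ring, h.Hn ht.1] at e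
  have e' := congrArg conj e
  simp only [map_mul, map_neg, map_sub, Complex.conj_conj] at e'
  rw [h.Hp (x := 1 - a * t) (by linarith), h.e3 t ht]
  field_simp
  linear_combination -v * e'

end Curve

theorem rot_dense {L s : ℝ} (hL : 0 < L) (hs : Irrational (s / L)) {f : ℝ → ℝ}
    (hf : ∀ x ∈ Ico 0 L, f x ∈ Ico 0 L ∧ (f x = x + s ∨ f x = x + s - L)) :
    ∀ x ∈ Ico 0 L, Ico 0 L ⊆ closure (range fun n : ℕ => f^[n] x) := by
  intro x hx y hy
  have : Fact (0 < L) := ⟨hL⟩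
  have o : ∀ n : ℕ, f^[n] x ∈ Ico 0 L ∧ ((f^[n] x : ℝ) : AddCircle L) = n • (s : AddCircle L) + x := by
    intro n
    induction n with
    | zero => simpa using hx
    | succ n ih =>
      rw [Function.iterate_succ_apply']
      refine ⟨(hf _ ih.1).1, ?_⟩
      rcases (hf _ ih.1).2 with e | e <;> simp [e, ih.2, succ_nsmul, AddCircle.coe_period] <;> abel
  have d := (denseRange_zsmul_iff_nsmul.1 (AddCircle.denseRange_zsmul_coe_iff.2 hs))
  refine Metric.mem_closure_iff.2 fun ε hε => ?_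
  obtain ⟨n, z, hz, e⟩ := d.exists_mem_open ((QuotientAddGroup.isOpenMap_coe _
    (isOpen_Ioo (a := y - x) (b := min (y + ε) L - x)))) ((nonempty_Ioo.2 (by
      have := lt_min (lt_add_of_pos_right y hε) hy.2; linarith)).image _)
  have z1 := hz.1
  have z2 := hz.2.trans_le (sub_le_sub_right (min_le_left _ _) _)
  have z3 := hz.2.trans_le (sub_le_sub_right (min_le_right _ _) _)
  have : f^[n] x = z + x := (AddCircle.coe_eq_coe_iff_of_mem_Ico (p := L) (a := 0)
    (by simpa using (o n).1) ⟨by linarith [hy.1], by linarith⟩).1 (by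
      rw [(o n).2, AddCircle.coe_add]; exact congrArg (· + _) e.symm)
  exact ⟨_, ⟨n, rfl⟩, by simp only [this, Real.dist_eq, abs_lt]; constructor <;> linarith⟩

theorem exists_angle {w : ℂ} (hw : ‖w‖ = 1) :
    ∃ θ ∈ Ico 0 (2 * Real.pi), Complex.exp (Complex.I * θ) = w := by
  have := Complex.norm_mul_exp_arg_mul_I w
  rw [hw, Complex.ofReal_one, one_mul, mul_comm] at this
  have := Complex.arg_mem_Ioc w
  have := Real.pi_pos
  rcases le_or_gt 0 w.arg with k | k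
  · exact ⟨w.arg, ⟨k, by linarith [(Complex.arg_mem_Ioc w).2]⟩, ‹_›⟩
  · refine ⟨w.arg + 2 * Real.pi, ⟨by linarith [(Complex.arg_mem_Ioc w).1], by linarith⟩, ?_⟩
    push_cast
    rwa [mul_add, Complex.exp_add, mul_comm Complex.I (2 * _), Complex.exp_two_pi_mul_I, mul_one]

end Pool.Agent.H99.Koch
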