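import Pool.Agent.H99.Bouquet

open MeasureTheory Filter Topology
open scoped ENNReal NNReal

noncomputable section

namespace Pool.Agent.H99.UAlg

theorem ae_zero_of_cont {S : Type} [TopologicalSpace S] [CompactSpace S] [MeasurableSpace S]
    [BorelSpace S] [TopologicalSpace.MetrizableSpace S] {μ : Measure S} {h : S → ℂ}
    (hi : Integrable h μ) (H : ∀ g : C(S, ℂ), ∫ s, g s * h s ∂μ = 0) : h =ᵐ[μ] 0 := by
  refine ae_eq_zero_of_forall_setIntegral_isClosed_eq_zero hi fun F hF => ?_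
  rw [← integral_indicator hF.measurableSet]
  have hc : ∀ n, Continuous fun s => (((hF.apprSeq n s : ℝ≥0) : ℝ) : ℂ) := fun n =>
    Complex.continuous_ofReal.comp (NNReal.continuous_coe.comp (hF.apprSeq n).continuous)
  have := tendsto_integral_of_dominated_convergence
    (F := fun n s => (((hF.apprSeq n s : ℝ≥0) : ℝ) : ℂ) * h s) (f := F.indicator h)
    (fun s => ‖h s‖) (fun n => (hc n).aestronglyMeasurable.mul hi.1) hi.norm
    (fun n => Eventually.of_forall fun s => by
      rw [norm_mul, Complex.norm_real, NNReal.norm_eq]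
      exact mul_le_of_le_one_left (norm_nonneg _)
        (by exact_mod_cast HasOuterApproxClosed.apprSeq_apply_le_one hF n s))
    (Eventually.of_forall fun s => by
      have h1 := tendsto_pi_nhds.1 (HasOuterApproxClosed.tendsto_apprSeq hF) s
      have h2 := (((Complex.continuous_ofReal.comp NNReal.continuous_coe).tendsto _).comp
        h1).mul_const (h s)
      by_cases hs : s ∈ F
      · simpa [hs] using h2
      · simpa [hs] using h2)
  have e : (fun n => ∫ s, (((hF.apprSeq n s : ℝ≥0) : ℝ) : ℂ) * h s ∂μ) = fun _ => 0 :=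
    funext fun n => H ⟨_, hc n⟩
  rw [e] at this
  exact tendsto_nhds_unique this tendsto_const_nhds

theorem seq_zero {α : ℂ} {γ : ℕ → ℂ} (hα : ‖α‖ < 1) (hγ : ∀ k, ‖γ k‖ ≤ 1)
    (h : ∀ k, α * γ (k + 1) = γ k) (k : ℕ) : γ k = 0 := by
  have e : ∀ j, γ k = α ^ j * γ (k + j) := fun j => by
    induction j with
    | zero => simp
    | succ j ih => rw [ih, ← h (k + j), pow_succ, mul_assoc, add_assoc]
  have : ‖γ k‖ ≤ 0 := ge_of_tendsto' (tendsto_pow_atTop_nhds_zero_of_lt_one (norm_nonneg _) hα)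
    fun j => by
      rw [e j, norm_mul, norm_pow]
      exact mul_le_of_le_one_right (by positivity) (hγ _)
  exact norm_le_zero_iff.1 this

/-- The union of the solid torus `T × D` and the disk `D × 0`. -/
def LS : Set (ℂ × ℂ) := {p | ‖p.1‖ ≤ 1 ∧ ‖p.2‖ ≤ 1 ∧ p.2 * (p.1 * star p.1) = p.2}

abbrev Lx : Type := LS

instance : CompactSpace Lx := by
  refine isCompact_iff_compactSpace.1 ?_
  refine ((isCompact_closedBall (0 : ℂ) 1).prod
    (isCompact_closedBall (0 : ℂ) 1)).of_isClosed_subset ?_ ?_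
  · simp only [LS, Set.ofPred_and]
    exact (isClosed_le (by fun_prop) continuous_const).inter
      ((isClosed_le (by fun_prop) continuous_const).inter (isClosed_eq (by fun_prop) (by fun_prop)))
  · intro x hx
    exact ⟨by simpa using hx.1, by simpa using hx.2.1⟩

def La : C(Lx, ℂ) := ⟨fun x => x.1.1, continuous_fst.comp continuous_subtype_val⟩

def Lb : C(Lx, ℂ) := ⟨fun x => x.1.2, continuous_snd.comp continuous_subtype_val⟩

@[simp] theorem La_apply (x : Lx) : La x = x.1.1 := rfl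

@[simp] theorem Lb_apply (x : Lx) : Lb x = x.1.2 := rfl

def Lc (k : ℕ) : C(Lx, ℂ) := Lb * star La ^ k

theorem Lc_zero : Lc 0 = Lb := by simp [Lc]

def LG : Set C(Lx, ℂ) := insert La (Set.range Lc)

def LA : Subalgebra ℂ C(Lx, ℂ) := gen LG

theorem La_mem : La ∈ LA := mem_gen (Or.inl rfl)

theorem Lc_mem (k : ℕ) : Lc k ∈ LA := mem_gen (Or.inr ⟨k, rfl⟩)

theorem Lb_mem : Lb ∈ LA := Lc_zero ▸ Lc_mem 0

theorem norm_La : ‖La‖ ≤ 1 := (ContinuousMap.norm_le _ zero_le_one).2 fun x => x.2.1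

theorem norm_Lc (k : ℕ) : ‖Lc k‖ ≤ 1 := (ContinuousMap.norm_le _ zero_le_one).2 fun x => by
  simp only [Lc, ContinuousMap.mul_apply, ContinuousMap.pow_apply, ContinuousMap.star_apply,
    norm_mul, norm_pow, norm_star]
  exact mul_le_one₀ x.2.2.1 (by positivity) (pow_le_one₀ (norm_nonneg _) x.2.1)

theorem La_Lc (k : ℕ) : La * Lc (k + 1) = Lc k := by
  ext x
  simp only [Lc, ContinuousMap.mul_apply, ContinuousMap.pow_apply, ContinuousMap.star_apply,
    La_apply, Lb_apply]
  linear_combination star x.1.1 ^ k * x.2.2.2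

theorem L_sep (s t : Lx) (h : ∀ g ∈ LG, g s = g t) : s = t :=
  Subtype.ext (Prod.ext (h La (Or.inl rfl)) (h Lb (Or.inr ⟨0, Lc_zero⟩)))

theorem alg_rel (φ : LA →ₐ[ℂ] ℂ) (k : ℕ) :
    φ ⟨La, La_mem⟩ * φ ⟨Lc (k + 1), Lc_mem _⟩ = φ ⟨Lc k, Lc_mem _⟩ := by
  rw [← map_mul]
  exact congrArg φ (Subtype.ext (La_Lc k))

def LH : C(ℝ × Lx, Lx) :=
  ⟨fun p => ⟨((cc p.1 : ℂ) * p.2.1.1, (cc (p.1 - 1) : ℂ) * p.2.1.2), by
      rw [norm_mul]; exact mul_le_one₀ (cc_norm _) (norm_nonneg _) p.2.2.1, by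
      rw [norm_mul]; exact mul_le_one₀ (cc_norm _) (norm_nonneg _) p.2.2.2.1, by
      rcases le_total p.1 1 with h | h
      · have : cc (p.1 - 1) = 0 := max_eq_left (min_le_of_left_le (by linarith))
        simp [this]
      · have : cc p.1 = 1 := by simp [cc, h]
        simp only [this, Complex.ofReal_one, one_mul]
        linear_combination (cc (p.1 - 1) : ℂ) * p.2.2.2.2⟩, by
    refine Continuous.subtype_mk (Continuous.prodMk ?_ ?_) _
    · exact (Complex.continuous_ofReal.comp (cc_cont.comp continuous_fst)).mul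
        (La.continuous.comp continuous_snd)
    · exact (Complex.continuous_ofReal.comp (cc_cont.comp (continuous_fst.sub
        continuous_const))).mul (Lb.continuous.comp continuous_snd)⟩

theorem adm_LA : Adm LA where
  closed := gen_closed _
  chars := chars_of (fun φ => by
    have hα : ‖φ ⟨La, La_mem⟩‖ ≤ 1 := (alg_norm_le (gen_closed _) φ _).trans norm_La
    have hγ : ∀ k, ‖φ ⟨Lc k, Lc_mem k⟩‖ ≤ 1 := fun k =>
      (alg_norm_le (gen_closed _) φ _).trans (norm_Lc k)
    have hr := alg_rel φ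
    set α := φ ⟨La, La_mem⟩ with hαdef
    rcases hα.lt_or_eq with h | h
    · have hz := seq_zero h hγ hr
      refine ⟨⟨(α, 0), hα, by simp, by simp⟩, ?_⟩
      rintro _ (rfl | ⟨k, rfl⟩)
      · rfl
      · exact (hz k).trans (by simp [Lc])
    · have h1 : α * star α = 1 := by
        rw [Complex.star_def, Complex.mul_conj', h]; simp
      refine ⟨⟨(α, φ ⟨Lc 0, Lc_mem 0⟩), hα, hγ 0, by rw [h1, mul_one]⟩, ?_⟩
      rintro _ (rfl | ⟨k, rfl⟩)
      · rfl
      · show φ ⟨Lc k, Lc_mem k⟩ = φ ⟨Lc 0, Lc_mem 0⟩ * star α ^ k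
        induction k with
        | zero => simp
        | succ k ih =>
          rw [pow_succ, ← mul_assoc, ← ih]
          have h2 : α * φ ⟨Lc (k + 1), Lc_mem _⟩ = φ ⟨Lc k, Lc_mem _⟩ := hr k
          linear_combination (-φ ⟨Lc (k + 1), Lc_mem _⟩) * h1 + star α * h2) L_sep
  exps := exps_of (gen_closed _) LH.curry LH.curry.continuous
    (fun t => comp_mem _ (by
      rintro _ (rfl | ⟨k, rfl⟩)
      · have : La.comp (LH.curry t) = (cc t : ℂ) • La := ContinuousMap.ext fun x => rfl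
        rw [this]
        exact Subalgebra.smul_mem _ La_mem _
      · have : (Lc k).comp (LH.curry t) = ((cc (t - 1) : ℂ) * (cc t : ℂ) ^ k) • Lc k :=
          ContinuousMap.ext fun x => by
            simp [Lc, LH, mul_pow]; ring
        rw [this]
        exact Subalgebra.smul_mem _ (Lc_mem k) _)) 0 2 ⟨(0, 0), by simp [LS]⟩
    (fun s => Subtype.ext (by simp [LH, cc]))
    (fun s => Subtype.ext (by simp [LH, cc]; norm_num))

def emb2 : C(Cir × Cir, Lx) :=
  ⟨fun p => ⟨(fourier 1 p.1, fourier 1 p.2), (norm_eq_one_of (fourier_mul_star _)).le,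
      (norm_eq_one_of (fourier_mul_star _)).le,
      by rw [fourier_mul_star, mul_one]⟩,
    Continuous.subtype_mk (((fourier 1).continuous.comp continuous_fst).prodMk
      ((fourier 1).continuous.comp continuous_snd)) _⟩

def sg : FiniteMeasure Lx := ⟨(hm.prod hm).map emb2, inferInstance⟩

theorem sg_coe : (sg : Measure Lx) = (hm.prod hm).map emb2 := rfl

instance : IsProbabilityMeasure (sg : Measure Lx) :=
  Measure.isProbabilityMeasure_map emb2.continuous.measurable.aemeasurable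

theorem ae_sg {f g : C(Lx, ℂ)} (h : ∀ p, f (emb2 p) = g (emb2 p)) :
    ∀ᵐ x ∂(sg : Measure Lx), f x = g x :=
  (ae_map_iff emb2.continuous.measurable.aemeasurable
    (isClosed_eq f.continuous g.continuous).measurableSet).2 (Eventually.of_forall h)

theorem supp_sg : (sg : Measure Lx).support.Nontrivial := by
  have hmem : ∀ p, emb2 p ∈ (sg : Measure Lx).support := fun p => by
    rw [Measure.mem_support_iff_forall]
    intro U hU
    obtain ⟨V, hVU, hV, hp⟩ := mem_nhds_iff.1 hU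
    refine lt_of_lt_of_le ?_ (measure_mono hVU)
    rw [sg_coe, Measure.map_apply emb2.continuous.measurable hV.measurableSet]
    exact (hV.preimage emb2.continuous).measure_pos _ ⟨p, hp⟩
  obtain ⟨t, ht⟩ := ae_fourier_ne.exists
  refine ⟨_, hmem (t, 0), _, hmem (0, 0), fun h => ht ?_⟩
  have := congrArg La h
  simpa only [La_apply, emb2, ContinuousMap.coe_mk, fourier_eval_zero] using this

def IsCh (m n : ℤ) (f : C(Lx, ℂ)) : Prop :=
  ∀ p, f (emb2 p) = fourier m p.1 * fourier n p.2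

theorem IsCh.mul {m n m' n' : ℤ} {f g : C(Lx, ℂ)} (hf : IsCh m n f) (hg : IsCh m' n' g) :
    IsCh (m + m') (n + n') (f * g) := fun p => by
  rw [ContinuousMap.mul_apply, hf, hg, fourier_add, fourier_add]; ring

theorem IsCh.star {m n : ℤ} {f : C(Lx, ℂ)} (hf : IsCh m n f) : IsCh (-m) (-n) (star f) :=
  fun p => by
    rw [ContinuousMap.star_apply, hf, fourier_neg, fourier_neg, star_mul']; rfl

theorem isCh_one : IsCh 0 0 1 := fun p => by simp

theorem IsCh.pow {m n : ℤ} {f : C(Lx, ℂ)} (hf : IsCh m n f) (k : ℕ) :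
    IsCh (k * m) (k * n) (f ^ k) := by
  induction k with
  | zero => simpa using isCh_one
  | succ k ih => rw [pow_succ]; convert ih.mul hf using 1 <;> push_cast <;> ring

theorem isCh_La : IsCh 1 0 La := fun p => by simp [emb2]

theorem isCh_Lb : IsCh 0 1 Lb := fun p => by simp [emb2]

theorem isCh_Lc (k : ℕ) : IsCh (-k) 1 (Lc k) := by
  have := isCh_Lb.mul (isCh_La.star.pow k)
  simpa [Lc] using this

theorem IsCh.int {m n : ℤ} {f : C(Lx, ℂ)} (hf : IsCh m n f) (h : m ≠ 0 ∨ n ≠ 0) :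
    ∫ x, f x ∂(sg : Measure Lx) = 0 := by
  rw [sg_coe, integral_map emb2.continuous.measurable.aemeasurable
    f.continuous.aestronglyMeasurable]
  simp only [hf _]
  rw [integral_prod_mul (fun s => fourier m s) (fun t => fourier n t)]
  rcases h with h | h <;> rw [int_fourier h] <;> simp

theorem IsCh.ae {m n : ℤ} {f g : C(Lx, ℂ)} (hf : IsCh m n f) (hg : IsCh m n g) :
    ∀ᵐ x ∂(sg : Measure Lx), f x = g x := ae_sg fun p => by rw [hf, hg]

def Pos (m n : ℤ) : Prop := 0 < n ∨ (n = 0 ∧ 0 ≤ m)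

theorem exists_ch {m n : ℤ} (h : Pos m n) : ∃ f ∈ LA, IsCh m n f := by
  rcases h with h | ⟨rfl, h⟩
  · refine ⟨La ^ m.toNat * Lc (-m).toNat * Lb ^ (n - 1).toNat,
      LA.mul_mem (LA.mul_mem (LA.pow_mem La_mem _) (Lc_mem _)) (LA.pow_mem Lb_mem _), ?_⟩
    convert ((isCh_La.pow _).mul (isCh_Lc _)).mul (isCh_Lb.pow _) using 1 <;> omega
  · refine ⟨La ^ m.toNat, LA.pow_mem La_mem _, ?_⟩
    convert isCh_La.pow _ using 1 <;> omega

theorem mon_A {g : C(Lx, ℂ)} (hg : g ∈ Submonoid.closure LG) : ∃ m n, Pos m n ∧ IsCh m n g := by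
  induction hg using Submonoid.closure_induction with
  | mem g hg =>
    rcases hg with rfl | ⟨k, rfl⟩
    · exact ⟨1, 0, by simp [Pos], isCh_La⟩
    · exact ⟨_, 1, by simp [Pos], isCh_Lc k⟩
  | one => exact ⟨0, 0, by simp [Pos], isCh_one⟩
  | mul f g _ _ hf hg =>
    obtain ⟨m, n, h1, h2⟩ := hf
    obtain ⟨m', n', h1', h2'⟩ := hg
    exact ⟨_, _, by unfold Pos at *; omega, h2.mul h2'⟩

theorem mon_all {g : C(Lx, ℂ)} (hg : g ∈ Submonoid.closure (LG ∪ star LG)) :
    ∃ m n, IsCh m n g := by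
  induction hg using Submonoid.closure_induction with
  | mem g hg =>
    rcases hg with hg | hg
    · obtain ⟨m, n, -, h⟩ := mon_A (Submonoid.subset_closure hg)
      exact ⟨m, n, h⟩
    · obtain ⟨m, n, -, h⟩ := mon_A (Submonoid.subset_closure (Set.mem_star.1 hg))
      exact ⟨_, _, by simpa using h.star⟩
  | one => exact ⟨0, 0, isCh_one⟩
  | mul f g _ _ hf hg =>
    obtain ⟨m, n, h2⟩ := hf
    obtain ⟨m', n', h2'⟩ := hg
    exact ⟨_, _, h2.mul h2'⟩

/-- The functional `g ↦ ∫ g h`. -/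
def pairL (h : Lp ℂ 1 (sg : Measure Lx)) : C(Lx, ℂ) →L[ℂ] ℂ :=
  (((ContinuousLinearMap.mul ℂ ℂ).lpPairing (sg : Measure Lx) ∞ 1).flip h).comp
    (ContinuousMap.toLp ∞ (sg : Measure Lx) ℂ)

theorem pairL_apply (h : Lp ℂ 1 (sg : Measure Lx)) (g : C(Lx, ℂ)) :
    pairL h g = ∫ x, g x * h x ∂(sg : Measure Lx) := pair_toLp sg g h

theorem ae_zero_of_ch {h : Lx → ℂ} (hi : Integrable h (sg : Measure Lx))
    (H : ∀ m n f, IsCh m n f → ∫ x, f x * h x ∂(sg : Measure Lx) = 0) :
    h =ᵐ[(sg : Measure Lx)] 0 := by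
  have e : ∀ g, pairL (hi.toL1 h) g = ∫ x, g x * h x ∂(sg : Measure Lx) := fun g => by
    rw [pairL_apply]
    exact integral_congr_ae (hi.coeFn_toL1.mono fun x hx => by simp only [hx])
  refine ae_zero_of_cont hi fun g => ?_
  rw [← e]
  refine gen_le_sub (pairL (hi.toL1 h)).isClosed_ker (fun f hf => ?_) g (gen_star_top L_sep g)
  obtain ⟨m, n, hf⟩ := mon_all hf
  exact (e f).trans (H m n f hf)

end Pool.Agent.H99.UAlg
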