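import Mathlib

set_option autoImplicit false

open Filter Topology Complex Set

namespace Pool.Agent.H99.MH

noncomputable def xi (k : ℕ) : ℝ := 10000 ^ k

theorem xi_pos (k : ℕ) : 0 < xi k := by unfold xi; positivity

theorem xi_succ (k : ℕ) : xi (k + 1) = 10000 * xi k := by unfold xi; ring

noncomputable def a (k : ℕ) (y : ℝ) : ℝ := xi k * y * Real.exp (-(xi k * y))

theorem a_nonneg (k : ℕ) {y : ℝ} (hy : 0 < y) : 0 ≤ a k y := by
  have := xi_pos k; unfold a; positivity

theorem a_le (k : ℕ) {y : ℝ} (hy : 0 < y) :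
    a k y ≤ 2 * Real.exp (-(xi k * y / 2)) - 2 * Real.exp (-(xi (k + 1) * y / 2)) := by
  have h0 : 0 < xi k * y := mul_pos (xi_pos k) hy
  have h1 : Real.exp (-(xi (k + 1) * y / 2)) ≤ Real.exp (-(xi k * y)) :=
    Real.exp_le_exp.2 (by rw [xi_succ]; nlinarith)
  have h2 : Real.exp (-(xi k * y / 2)) = Real.exp (-(xi k * y)) * Real.exp (xi k * y / 2) := by
    rw [← Real.exp_add]; ring_nf
  have h3 := Real.add_one_le_exp (xi k * y / 2)
  have h4 := Real.exp_pos (-(xi k * y))
  unfold a; nlinarith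

theorem tail (m N : ℕ) {y : ℝ} (hy : 0 < y) :
    ∑ j ∈ Finset.range N, a (j + m) y ≤ 2 * Real.exp (-(xi m * y / 2)) := by
  have : ∑ j ∈ Finset.range N, a (j + m) y
      ≤ 2 * Real.exp (-(xi m * y / 2)) - 2 * Real.exp (-(xi (N + m) * y / 2)) := by
    induction N with
    | zero => simp
    | succ N ih =>
      rw [Finset.sum_range_succ, show N + 1 + m = N + m + 1 by ring]
      linarith [a_le (N + m) hy]
  linarith [Real.exp_pos (-(xi (N + m) * y / 2))]

theorem a_sum (m : ℕ) {y : ℝ} (hy : 0 < y) : Summable fun j => a (j + m) y :=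
  summable_of_sum_range_le (fun _ => a_nonneg _ hy) fun N => tail m N hy

theorem head (k : ℕ) {y : ℝ} (hy : 0 < y) : ∑ j ∈ Finset.range k, a j y ≤ xi k * y / 5000 := by
  induction k with
  | zero => have := xi_pos 0; simp; positivity
  | succ k ih =>
    have h0 : 0 < xi k * y := mul_pos (xi_pos k) hy
    have : a k y ≤ xi k * y := mul_le_of_le_one_right h0.le (Real.exp_le_one_iff.2 (by linarith))
    rw [Finset.sum_range_succ, xi_succ]; nlinarith

noncomputable def tm (k : ℕ) (z : ℂ) : ℂ := xi k * exp (I * xi k * z)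

noncomputable def g (z : ℂ) : ℂ := ∑' k, tm k z

theorem tm_norm (k : ℕ) (z : ℂ) : ‖tm k z‖ = xi k * Real.exp (-(xi k * z.im)) := by
  simp [tm, norm_exp, abs_of_pos (xi_pos k)]

theorem tm_re (k : ℕ) (z : ℂ) : z.im * (tm k z).re = a k z.im * Real.cos (xi k * z.re) := by
  simp [tm, exp_re, a]; ring

theorem nsum {y : ℝ} (hy : 0 < y) : Summable fun k => xi k * Real.exp (-(xi k * y)) := by
  refine ((a_sum 0 hy).div_const y).congr fun k => ?_
  simp only [a, add_zero]; field_simp

theorem g_an {z : ℂ} (hz : 0 < z.im) : AnalyticAt ℂ g z := by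
  have ho : IsOpen {w : ℂ | z.im / 2 < w.im} := isOpen_lt continuous_const continuous_im
  refine (differentiableOn_tsum_of_summable_norm (nsum (half_pos hz)) (fun k => ?_) ho
    fun k w hw => ?_).analyticAt (ho.mem_nhds (half_lt_self hz))
  · exact Differentiable.differentiableOn (by unfold tm; fun_prop)
  · rw [tm_norm]
    exact mul_le_mul_of_nonneg_left (Real.exp_le_exp.2 (neg_le_neg
      (mul_le_mul_of_nonneg_left (le_of_lt hw) (xi_pos k).le))) (xi_pos k).le

noncomputable def H (z : ℂ) : ℝ := z.im * (g z).re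

theorem H_sum {z : ℂ} (hz : 0 < z.im) :
    HasSum (fun k => a k z.im * Real.cos (xi k * z.re)) (H z) := by
  have h : Summable fun k => tm k z := Summable.of_norm (by simpa only [tm_norm] using nsum hz)
  have := (hasSum_re h.hasSum).mul_left z.im
  simp only [tm_re] at this
  exact this

theorem b_le (k : ℕ) {z : ℂ} (hz : 0 < z.im) : ‖a k z.im * Real.cos (xi k * z.re)‖ ≤ a k z.im := by
  rw [norm_mul, Real.norm_of_nonneg (a_nonneg k hz)]
  exact mul_le_of_le_one_right (a_nonneg k hz) (Real.abs_cos_le_one _)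

theorem H_tail (m : ℕ) {z : ℂ} (hz : 0 < z.im) :
    |H z - ∑ j ∈ Finset.range m, a j z.im * Real.cos (xi j * z.re)|
      ≤ 2 * Real.exp (-(xi m * z.im / 2)) := by
  have h := (hasSum_nat_add_iff' m).2 (H_sum hz)
  exact (h.norm_le_of_bounded (a_sum m hz).hasSum fun j => b_le _ hz).trans
    ((a_sum m hz).tsum_le_of_sum_range_le fun N => tail m N hz)

theorem H_bdd {z : ℂ} (hz : 0 < z.im) : |H z| ≤ 2 := by
  have := H_tail 0 hz
  have h : Real.exp (-(xi 0 * z.im / 2)) ≤ 1 :=
    Real.exp_le_one_iff.2 (by have := mul_pos (xi_pos 0) hz; linarith)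
  simp only [Finset.range_zero, Finset.sum_empty, sub_zero] at this; linarith

theorem H_main (k : ℕ) {z : ℂ} {r : ℝ} (hr : 0 < r) (hz : z.im = r / xi k) :
    |H z - r * Real.exp (-r) * Real.cos (xi k * z.re)| ≤ r / 5000 + 2 / (5000 * r + 1) := by
  have xp := xi_pos k
  have h0 : 0 < z.im := by rw [hz]; positivity
  have e : xi k * z.im = r := by rw [hz]; field_simp
  have h1 := H_tail (k + 1) h0
  have h2 : |∑ j ∈ Finset.range k, a j z.im * Real.cos (xi j * z.re)| ≤ r / 5000 :=
    ((norm_sum_le _ _).trans (Finset.sum_le_sum fun j _ => b_le j h0)).trans (e ▸ head k h0)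
  have h3 : 2 * Real.exp (-(xi (k + 1) * z.im / 2)) ≤ 2 / (5000 * r + 1) := by
    rw [show xi (k + 1) * z.im / 2 = 5000 * r by rw [xi_succ, ← e]; ring, Real.exp_neg,
      ← div_eq_mul_inv]
    exact div_le_div_of_nonneg_left zero_le_two (by positivity) (Real.add_one_le_exp _)
  rw [Finset.sum_range_succ, a, e] at h1
  rw [abs_le] at *
  constructor <;> linarith [h1.1, h1.2, h2.1, h2.2]

theorem H_small (k : ℕ) {z : ℂ} (hz : z.im = (1 / 100) / xi k) : |H z| ≤ 0.05 := by
  have h := H_main k (by norm_num) hz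
  have h1 : Real.exp (-(1 / 100)) ≤ 1 := Real.exp_le_one_iff.2 (by norm_num)
  have h2 := Real.exp_pos (-(1 / 100))
  have h3 := Real.cos_le_one (xi k * z.re)
  have h4 := Real.neg_one_le_cos (xi k * z.re)
  rw [abs_le] at *
  constructor <;> nlinarith [h.1, h.2]

theorem H_big (k : ℕ) {z w : ℂ} (hz : z.im = 1 / xi k) (hw : w.im = 1 / xi k)
    (h : w.re = z.re + (1 / 2) / xi k) : 0.15 ≤ |H z| + |H w| := by
  have h1 := H_main k one_pos hz
  have h2 := H_main k one_pos hw
  have xp := xi_pos k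
  have e : xi k * w.re - xi k * z.re = 1 / 2 := by rw [h]; field_simp; ring
  have h3 := Real.sin_gt_sub_cube (x := 1 / 2) (by norm_num)
  have h4 : Real.sin (1 / 2) ≤ |Real.cos (xi k * z.re)| + |Real.cos (xi k * w.re)| := by
    rw [← e, Real.sin_sub]
    refine (le_abs_self _).trans ((abs_sub _ _).trans (add_le_add ?_ ?_)) <;> rw [abs_mul]
    · exact mul_le_of_le_one_left (abs_nonneg _) (Real.abs_sin_le_one _)
    · exact mul_le_of_le_one_right (abs_nonneg _) (Real.abs_sin_le_one _)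
  have h5 := Real.exp_neg_one_gt_d9
  have k1 := abs_sub_abs_le_abs_sub (1 * Real.exp (-1) * Real.cos (xi k * z.re)) (H z)
  have k2 := abs_sub_abs_le_abs_sub (1 * Real.exp (-1) * Real.cos (xi k * w.re)) (H w)
  rw [abs_sub_comm, abs_mul, one_mul, abs_of_pos (Real.exp_pos _)] at k1 k2
  rw [one_mul] at h1 h2
  nlinarith [abs_nonneg (Real.cos (xi k * z.re)), abs_nonneg (Real.cos (xi k * w.re))]

end Pool.Agent.H99.MH
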