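import Mathlib

set_option autoImplicit false

open MeasureTheory Filter Topology
open scoped ENNReal InnerProductSpace

namespace Pool.Agent.H99.MT

abbrev Z : Type := (k : ℕ) → Fin (k + 2)

abbrev Y : Type := Fin 2 × Z

noncomputable def mu : Measure Y := Measure.addHaarMeasure ⊤

instance : Measure.IsAddHaarMeasure mu := Measure.isAddHaarMeasure_addHaarMeasure _

instance : IsProbabilityMeasure mu := ⟨by
  simpa [mu] using Measure.addHaarMeasure_self (G := Y) (K₀ := ⊤)⟩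

abbrev H : Type := Lp ℂ 2 mu

abbrev R : Type := H →L[ℂ] H

noncomputable def Mc : C(Y, ℂ) →L[ℂ] R :=
  ((ContinuousLinearMap.mul ℂ ℂ).holderL mu ⊤ 2 2) ∘L ContinuousMap.toLp ⊤ mu ℂ

noncomputable def vec : C(Y, ℂ) →L[ℂ] H := ContinuousMap.toLp 2 mu ℂ

lemma vec_ae (g : C(Y, ℂ)) : vec g =ᵐ[mu] g := ContinuousMap.coeFn_toLp mu g

lemma vec_dense : DenseRange vec := ContinuousMap.toLp_denseRange ℂ mu ℂ (by simp)

lemma vec_inj : Function.Injective vec := ContinuousMap.toLp_injective mu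

lemma Mc_ae (g : C(Y, ℂ)) (f : H) : Mc g f =ᵐ[mu] fun y => g y * f y := by
  have h1 := (ContinuousLinearMap.mul ℂ ℂ).coeFn_holder (r := 2)
    (ContinuousMap.toLp ⊤ mu ℂ g) f
  have h2 := ContinuousMap.coeFn_toLp (p := ⊤) (𝕜 := ℂ) mu g
  filter_upwards [h1, h2] with y hy1 hy2
  simp only [Mc, ContinuousLinearMap.comp_apply, ContinuousLinearMap.holderL_apply_apply]
  rw [hy1, hy2]; rfl

lemma Mc_mul (f g : C(Y, ℂ)) : Mc (f * g) = Mc f * Mc g := by
  ext1 ξ
  apply Lp.ext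
  filter_upwards [Mc_ae (f * g) ξ, Mc_ae f (Mc g ξ), Mc_ae g ξ] with y h1 h2 h3
  rw [h1, mul_apply_eq_comp, h2, h3]; simp [mul_assoc]

lemma Mc_one : Mc 1 = 1 := by
  ext1 ξ
  apply Lp.ext
  filter_upwards [Mc_ae 1 ξ] with y h1
  rw [h1]; simp

lemma Mc_vec (f g : C(Y, ℂ)) : Mc f (vec g) = vec (f * g) := by
  apply Lp.ext
  filter_upwards [Mc_ae f (vec g), vec_ae g, vec_ae (f * g)] with y h1 h2 h3
  rw [h1, h2, h3]; simp

lemma inner_Mc (g : C(Y, ℂ)) (ξ η : H) :
    ⟪ξ, Mc g η⟫_ℂ = ∫ y, g y * η y * (starRingEnd ℂ) (ξ y) ∂mu := by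
  rw [L2.inner_def]
  apply integral_congr_ae
  filter_upwards [Mc_ae g η] with y h
  rw [h]; simp

lemma Mc_star (g : C(Y, ℂ)) : star (Mc g) = Mc (star g) := by
  symm
  rw [ContinuousLinearMap.star_eq_adjoint, ContinuousLinearMap.eq_adjoint_iff]
  intro ξ η
  rw [inner_Mc, L2.inner_def]
  apply integral_congr_ae
  filter_upwards [Mc_ae (star g) ξ] with y h
  rw [h]; simp; ring

lemma mp (y : Y) : MeasurePreserving (fun x : Y => x + y) mu mu :=
  measurePreserving_add_right mu y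

noncomputable def U (y : Y) : R :=
  (Lp.compMeasurePreservingₗᵢ ℂ (fun x : Y => x + y) (mp y)).toContinuousLinearMap

lemma U_ae (y : Y) (f : H) : U y f =ᵐ[mu] fun x => f (x + y) :=
  Lp.coeFn_compMeasurePreserving f (mp y)

lemma norm_U (y : Y) (f : H) : ‖U y f‖ = ‖f‖ :=
  (Lp.compMeasurePreservingₗᵢ ℂ (fun x : Y => x + y) (mp y)).norm_map f

lemma inner_U (y : Y) (f g : H) : ⟪U y f, U y g⟫_ℂ = ⟪f, g⟫_ℂ :=
  (Lp.compMeasurePreservingₗᵢ ℂ (fun x : Y => x + y) (mp y)).inner_map_map f g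

def sh (y : Y) : C(Y, Y) := ⟨fun x => x + y, by fun_prop⟩

lemma U_vec (y : Y) (g : C(Y, ℂ)) : U y (vec g) = vec (g.comp (sh y)) := by
  apply Lp.ext
  have := (mp y).quasiMeasurePreserving.ae_eq_comp (vec_ae g)
  filter_upwards [U_ae y (vec g), vec_ae (g.comp (sh y)), this] with x h1 h2 h3
  rw [h1, h2]; exact h3

lemma ext_vec {a b : R} (h : ∀ g, a (vec g) = b (vec g)) : a = b := by
  ext1 ξ
  exact congrFun (vec_dense.equalizer a.continuous b.continuous (funext h)) ξ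

lemma U_Mc (y : Y) (g : C(Y, ℂ)) : U y * Mc g = Mc (g.comp (sh y)) * U y := by
  apply ext_vec; intro f
  simp only [mul_apply_eq_comp, Mc_vec, U_vec]; rfl

lemma U_add (y z : Y) : U y * U z = U (y + z) := by
  apply ext_vec; intro f
  simp only [mul_apply_eq_comp, U_vec]
  congr 1; ext x; simp [sh, add_assoc]

lemma U_zero : U 0 = 1 := by
  apply ext_vec; intro f
  simp only [U_vec, one_apply_eq_self]
  congr 1; ext x; simp [sh]

lemma U_star (y : Y) : star (U y) = U (-y) := by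
  symm
  rw [ContinuousLinearMap.star_eq_adjoint, ContinuousLinearMap.eq_adjoint_iff]
  intro ξ η
  rw [← inner_U y (U (-y) ξ) η, ← mul_apply_eq_comp, U_add]
  simp [U_zero]

lemma norm_U_le (y : Y) : ‖U y‖ ≤ 1 :=
  ContinuousLinearMap.opNorm_le_bound _ zero_le_one fun f => by simp [norm_U]

/-- the diagonal -/
def D : Set R := {a | ∀ g : C(Y, ℂ), a * Mc g = Mc g * a}

lemma Mc_mem_D (f : C(Y, ℂ)) : Mc f ∈ D := fun g => by rw [← Mc_mul, ← Mc_mul, mul_comm]

lemma D_star {a : R} (ha : a ∈ D) : star a ∈ D := fun g => by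
  have := congrArg star (ha (star g))
  rw [star_mul, star_mul, Mc_star, star_star] at this
  exact this.symm

lemma D_conj {a : R} (ha : a ∈ D) :
    (star a) (vec 1) =ᵐ[mu] fun y => (starRingEnd ℂ) (a (vec 1) y) := by
  have hm : MemLp (fun y => (starRingEnd ℂ) (a (vec 1) y)) 2 mu :=
    (Lp.memLp (a (vec 1))).star
  have : (star a) (vec 1) = hm.toLp _ := by
    apply vec_dense.eq_of_inner_right ℂ
    intro g
    have e1 : ⟪vec g, (star a) (vec 1)⟫_ℂ = ⟪Mc g (a (vec 1)), vec 1⟫_ℂ := by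
      rw [ContinuousLinearMap.star_eq_adjoint, ContinuousLinearMap.adjoint_inner_right,
        ← mul_apply_eq_comp, ← ha g, mul_apply_eq_comp, Mc_vec, mul_one]
    rw [e1, L2.inner_def, L2.inner_def]
    apply integral_congr_ae
    filter_upwards [Mc_ae g (a (vec 1)), vec_ae 1, vec_ae g, hm.coeFn_toLp] with y h1 h2 h3 h4
    rw [h1, h2, h3, h4]; simp; ring
  rw [this]; exact hm.coeFn_toLp

lemma D_comm {a b : R} (ha : a ∈ D) (hb : b ∈ D) : a * b = b * a := by
  have key : ∀ {a b : R}, a ∈ D → b ∈ D → ∀ g, ⟪a (b (vec 1)), vec g⟫_ℂ =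
      ∫ y, g y * (starRingEnd ℂ) (a (vec 1) y) * (starRingEnd ℂ) (b (vec 1) y) ∂mu := by
    intro a b ha hb g
    have e1 : ⟪a (b (vec 1)), vec g⟫_ℂ = ⟪b (vec 1), Mc g ((star a) (vec 1))⟫_ℂ := by
      rw [← mul_apply_eq_comp (Mc g), ← D_star ha g, mul_apply_eq_comp,
        Mc_vec, mul_one, ContinuousLinearMap.star_eq_adjoint,
        ContinuousLinearMap.adjoint_inner_right]
    rw [e1, inner_Mc]
    apply integral_congr_ae
    filter_upwards [D_conj ha] with y h
    rw [h]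
  have h1 : a (b (vec 1)) = b (a (vec 1)) := by
    apply vec_dense.eq_of_inner_left ℂ
    intro g
    rw [key ha hb, key hb ha]
    congr 1; ext y; ring
  apply ext_vec; intro g
  have e : ∀ {c : R}, c ∈ D → ∀ ξ, c (Mc g ξ) = Mc g (c ξ) := fun hc ξ => by
    rw [← mul_apply_eq_comp, hc g]; rfl
  have : vec g = Mc g (vec 1) := by rw [Mc_vec, mul_one]
  simp only [mul_apply_eq_comp, this, e ha, e hb, h1]

lemma D_centralizer : Set.centralizer D = D := by
  ext a
  constructor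
  · intro h g
    exact (h _ (Mc_mem_D g)).symm
  · intro h b hb
    exact D_comm hb h

end Pool.Agent.H99.MT
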