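import Mathlib
import Pool.Agent.H99.MT1

set_option autoImplicit false

open MeasureTheory Filter Topology
open scoped ENNReal InnerProductSpace

namespace Pool.Agent.H99.MT

open Classical in
noncomputable def ind (S : Set Y) : C(Y, ℂ) :=
  if h : IsClopen S then ⟨S.indicator 1, h.continuous_indicator continuous_const⟩ else 0

lemma ind_apply {S : Set Y} (h : IsClopen S) (y : Y) : ind S y = S.indicator 1 y := by
  simp [ind, h]

lemma ind_mem {S : Set Y} (h : IsClopen S) {y : Y} (hy : y ∈ S) : ind S y = 1 := by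
  simp [ind_apply h, hy]

lemma ind_notMem {S : Set Y} (h : IsClopen S) {y : Y} (hy : y ∉ S) : ind S y = 0 := by
  simp [ind_apply h, hy]

noncomputable def E (S : Set Y) : R := Mc (ind S)

lemma E_mem_D (S : Set Y) : E S ∈ D := Mc_mem_D _

lemma E_inter {S T : Set Y} (hS : IsClopen S) (hT : IsClopen T) : E S * E T = E (S ∩ T) := by
  rw [E, E, E, ← Mc_mul]; congr 1; ext y
  simp only [ContinuousMap.mul_apply, ind_apply hS, ind_apply hT, ind_apply (hS.inter hT)]
  by_cases h1 : y ∈ S <;> by_cases h2 : y ∈ T <;> simp [h1, h2]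

lemma E_star {S : Set Y} (hS : IsClopen S) : star (E S) = E S := by
  rw [E, Mc_star]; congr 1; ext y
  simp only [ContinuousMap.star_apply, ind_apply hS]
  by_cases h1 : y ∈ S <;> simp [h1]

lemma E_univ : E Set.univ = 1 := by
  rw [E, ← Mc_one]; congr 1; ext y; simp [ind_apply isClopen_univ]

lemma E_empty : E ∅ = 0 := by
  rw [E, ← map_zero Mc]; congr 1; ext y; simp [ind_apply isClopen_empty]

lemma E_diff {S T : Set Y} (hS : IsClopen S) (hT : IsClopen T) (h : T ⊆ S) :
    E (S \ T) = E S - E T := by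
  rw [E, E, E, ← map_sub]; congr 1; ext y
  simp only [ContinuousMap.sub_apply, ind_apply hS, ind_apply hT, ind_apply (hS.diff hT)]
  by_cases h2 : y ∈ T
  · simp [h h2, h2]
  · by_cases h1 : y ∈ S <;> simp [h1, h2]

lemma E_compl {S : Set Y} (hS : IsClopen S) : E Sᶜ = 1 - E S := by
  rw [Set.compl_eq_univ_sdiff, E_diff isClopen_univ hS (Set.subset_univ _), E_univ]

lemma E_idem {S : Set Y} (hS : IsClopen S) : E S * E S = E S := by
  rw [E_inter hS hS, Set.inter_self]

lemma E_ne {S : Set Y} (hS : IsClopen S) (hne : S.Nonempty) : E S (vec 1) ≠ 0 := by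
  obtain ⟨y, hy⟩ := hne
  rw [E, Mc_vec, mul_one, ← map_zero vec]
  intro h
  have := congrArg (fun g : C(Y, ℂ) => g y) (vec_inj h)
  simp [ind_mem hS hy] at this

lemma norm_E_le {S : Set Y} (hS : IsClopen S) : ‖E S‖ ≤ 1 :=
  IsStarProjection.norm_le _ ⟨E_idem hS, E_star hS⟩

lemma clopen_sh {S : Set Y} (hS : IsClopen S) (y : Y) : IsClopen {x | x + y ∈ S} :=
  hS.preimage (f := fun x => x + y) (by fun_prop)

lemma U_E {S : Set Y} (hS : IsClopen S) (y : Y) : U y * E S = E {x | x + y ∈ S} * U y := by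
  rw [E, U_Mc, E]; congr 2; ext x
  simp only [ContinuousMap.comp_apply, ind_apply hS, ind_apply (clopen_sh hS y)]
  by_cases h : x + y ∈ S <;> simp [sh, h]

/-- cylinder functions -/
def Cyl {α : Type} (n : ℕ) (g : Y → α) : Prop :=
  ∀ x y : Y, x.1 = y.1 → (∀ i < n, x.2 i = y.2 i) → g x = g y

lemma Cyl.mono {α : Type} {n m : ℕ} {g : Y → α} (h : Cyl n g) (hm : n ≤ m) : Cyl m g :=
  fun x y h1 h2 => h x y h1 fun i hi => h2 i (hi.trans_le hm)

lemma clopen_coord (k : ℕ) (p : Fin (k + 2) → Prop) : IsClopen {y : Y | p (y.2 k)} :=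
  (isClopen_discrete {c | p c}).preimage (f := fun y : Y => y.2 k) (by fun_prop)

lemma clopen_fst (p : Fin 2 → Prop) : IsClopen {y : Y | p y.1} :=
  (isClopen_discrete {c | p c}).preimage (f := fun y : Y => y.1) (by fun_prop)

def C (n : ℕ) (a : Z) : Set Y := {y | ∀ i < n, y.2 i = a i}

lemma clopen_C (n : ℕ) (a : Z) : IsClopen (C n a) := by
  have : C n a = ⋂ i ∈ Finset.range n, {y : Y | y.2 i = a i} := by
    ext y; simp [C]
  rw [this]
  exact isClopen_biInter_finset fun i _ => clopen_coord i (fun c => c = a i)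

lemma Cyl.lc {α : Type} {n : ℕ} {g : Y → α} (h : Cyl n g) : IsLocallyConstant g := by
  rw [IsLocallyConstant.iff_eventually_eq]
  intro x
  have : {y : Y | y.1 = x.1} ∩ C n x.2 ∈ 𝓝 x :=
    ((clopen_fst (fun c => c = x.1)).inter (clopen_C n x.2)).isOpen.mem_nhds
      ⟨rfl, fun _ _ => rfl⟩
  filter_upwards [this] with y hy
  exact h y x hy.1 hy.2

lemma Cyl.clopen {n : ℕ} {S : Set Y} (h : Cyl n (· ∈ S)) : IsClopen S := by
  have := h.lc.isClopen_fiber True
  simpa using this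

def CyA : StarSubalgebra ℂ C(Y, ℂ) where
  carrier := {g | ∃ n, Cyl n g}
  mul_mem' := by
    rintro f g ⟨n, hf⟩ ⟨m, hg⟩
    exact ⟨max n m, fun x y h1 h2 => by
      simp [hf.mono (le_max_left n m) x y h1 h2, hg.mono (le_max_right n m) x y h1 h2]⟩
  add_mem' := by
    rintro f g ⟨n, hf⟩ ⟨m, hg⟩
    exact ⟨max n m, fun x y h1 h2 => by
      simp [hf.mono (le_max_left n m) x y h1 h2, hg.mono (le_max_right n m) x y h1 h2]⟩
  algebraMap_mem' := fun r => ⟨0, fun x y _ _ => by simp⟩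
  star_mem' := by
    rintro f ⟨n, hf⟩
    exact ⟨n, fun x y h1 h2 => by simp [hf x y h1 h2]⟩

lemma CyA_dense : Dense (CyA : Set C(Y, ℂ)) := by
  have h : CyA.SeparatesPoints := by
    intro x y hxy
    by_cases h1 : x.1 = y.1
    · have h2 : x.2 ≠ y.2 := fun h2 => hxy (Prod.ext h1 h2)
      obtain ⟨i, hi⟩ := Function.ne_iff.1 h2
      have hc : Cyl (i + 1) (fun z : Y => (((z.2 i : ℕ)) : ℂ)) := fun a b _ h => by
        simp only [h i (Nat.lt_succ_self i)]
      refine ⟨_, ⟨⟨_, hc.lc.continuous⟩, ⟨i + 1, hc⟩, rfl⟩, ?_⟩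
      simpa [Fin.ext_iff] using hi
    · have hc : Cyl 0 (fun z : Y => (((z.1 : ℕ)) : ℂ)) := fun a b h _ => by simp only [h]
      refine ⟨_, ⟨⟨_, hc.lc.continuous⟩, ⟨0, hc⟩, rfl⟩, ?_⟩
      simpa [Fin.ext_iff] using h1
  have := ContinuousMap.starSubalgebra_topologicalClosure_eq_top_of_separatesPoints CyA h
  rw [dense_iff_closure_eq]
  have h2 := congrArg (fun A : StarSubalgebra ℂ C(Y, ℂ) => (A : Set C(Y, ℂ))) this
  simpa using h2

lemma mem_D_of_cyl {a : R} (h : ∀ n (g : C(Y, ℂ)), Cyl n g → a * Mc g = Mc g * a) : a ∈ D := by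
  intro g
  have hc : IsClosed {g : C(Y, ℂ) | a * Mc g = Mc g * a} :=
    isClosed_eq (by fun_prop) (by fun_prop)
  have : (CyA : Set C(Y, ℂ)) ⊆ {g : C(Y, ℂ) | a * Mc g = Mc g * a} := by
    rintro f ⟨n, hf⟩; exact h n f hf
  exact closure_minimal this hc (CyA_dense g)

lemma strong (A : ℕ → R) (B : R) (c : ℝ) (hA : ∀ k, ‖A k‖ ≤ c)
    (h : ∀ n (g : C(Y, ℂ)), Cyl n g → Tendsto (fun k => A k (vec g)) atTop (𝓝 (B (vec g))))
    (ξ : H) : Tendsto (fun k => A k ξ) atTop (𝓝 (B ξ)) := by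
  have hc0 : 0 ≤ c := (norm_nonneg _).trans (hA 0)
  have he : Equicontinuous (fun k => (A k : H → H)) :=
    (LipschitzWith.uniformEquicontinuous (fun k => (A k : H → H)) ⟨c, hc0⟩ fun k =>
      (A k).lipschitz.weaken (hA k)).equicontinuous
  have hc := he.isClosed_setOfPred_tendsto (l := atTop) B.continuous
  have hd : Dense (vec '' (CyA : Set C(Y, ℂ))) := vec_dense.dense_image vec.continuous CyA_dense
  refine closure_minimal ?_ hc (hd ξ)
  rintro _ ⟨g, ⟨n, hg⟩, rfl⟩
  exact h n g hg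

def trunc (n : ℕ) (z : Z) : Z := fun i => if i < n then z i else Fin.last _

lemma trunc_finite (n : ℕ) : (Set.range (trunc n)).Finite := by
  have : Set.range (trunc n) ⊆ Set.range (fun w : (i : Fin n) → Fin (i + 2) =>
      (fun i => if h : i < n then w ⟨i, h⟩ else Fin.last _ : Z)) := by
    rintro _ ⟨z, rfl⟩
    refine ⟨fun i => z i, ?_⟩
    ext i; by_cases h : i < n <;> simp [trunc, h]
  exact (Set.finite_range _).subset this

noncomputable def A (n : ℕ) : Finset Z := (trunc_finite n).toFinset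

lemma sum_cyl (n : ℕ) (g : C(Y, ℂ)) (hg : ∀ x y : Y, (∀ i < n, x.2 i = y.2 i) → g x = g y) :
    Mc g = ∑ a ∈ A n, g (0, a) • E (C n a) := by
  simp only [E, ← map_smul, ← map_sum]
  congr 1; ext y
  rw [ContinuousMap.sum_apply, Finset.sum_eq_single (trunc n y.2)]
  · have : y ∈ C n (trunc n y.2) := fun i hi => by simp [trunc, hi]
    rw [ContinuousMap.smul_apply, ind_mem (clopen_C _ _) this, smul_eq_mul, mul_one]
    exact hg _ _ this
  · intro b hb hne
    obtain ⟨z, rfl⟩ : b ∈ Set.range (trunc n) := by simpa [A] using hb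
    have : y ∉ C n (trunc n z) := fun h => hne (by
      ext i; by_cases hi : i < n
      · have := h i hi; simp only [trunc, hi, if_true] at this ⊢; rw [this]
      · simp [trunc, hi])
    simp [ind_notMem (clopen_C _ _) this]
  · intro h; exact absurd (by simp [A]) h

lemma sum_E (n : ℕ) : ∑ a ∈ A n, E (C n a) = 1 := by
  rw [← Mc_one, sum_cyl n 1 (fun _ _ _ => rfl)]; simp

lemma U_vec_one (y : Y) : U y (vec 1) = vec 1 := by rw [U_vec]; rfl

lemma norm_coord (k : ℕ) (c : Fin (k + 2)) :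
    ‖E {y : Y | y.2 k = c} (vec 1)‖ ^ 2 = ‖vec 1‖ ^ 2 / (k + 2) := by
  have h1 : ∀ d : Fin (k + 2), ‖E {y : Y | y.2 k = d} (vec 1)‖ =
      ‖E {y : Y | y.2 k = c} (vec 1)‖ := by
    intro d
    have := U_E (clopen_coord k (fun e => e = c)) (0, Pi.single k (c - d))
    rw [← norm_U (0, Pi.single k (c - d)) (E {y : Y | y.2 k = c} (vec 1)), ← mul_apply_eq_comp,
      this, mul_apply_eq_comp, U_vec_one]
    congr 3; ext y
    simp only [Set.mem_ofPred_eq, Prod.snd_add, Pi.add_apply, Pi.single_eq_same]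
    constructor
    · intro h; rw [h]; abel
    · intro h; rw [← sub_eq_zero] at h ⊢; rw [← h]; abel
  have h2 : ∑ d : Fin (k + 2), E {y : Y | y.2 k = d} = 1 := by
    simp only [E, ← map_sum, ← Mc_one]
    congr 1; ext y
    rw [ContinuousMap.sum_apply, Finset.sum_eq_single (y.2 k)]
    · exact ind_mem (clopen_coord k (fun e => e = y.2 k)) rfl
    · intro b _ hb; exact ind_notMem (clopen_coord k (fun e => e = b)) (fun h => hb h.symm)
    · simp
  have h3 : ∀ d : Fin (k + 2), (⟪vec 1, E {y : Y | y.2 k = d} (vec 1)⟫_ℂ).re =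
      ‖E {y : Y | y.2 k = c} (vec 1)‖ ^ 2 := by
    intro d
    have hc := clopen_coord k (fun e => e = d)
    rw [← h1 d, ← E_idem hc, mul_apply_eq_comp, ← ContinuousLinearMap.adjoint_inner_left,
      ← ContinuousLinearMap.star_eq_adjoint, E_star hc, ← mul_apply_eq_comp, E_idem hc]
    exact inner_self_eq_norm_sq (𝕜 := ℂ) _
  have h4 : ‖vec 1‖ ^ 2 = ∑ d : Fin (k + 2), (⟪vec 1, E {y : Y | y.2 k = d} (vec 1)⟫_ℂ).re := by
    rw [← Complex.re_sum, ← inner_sum, ← sum_apply, h2]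
    exact (inner_self_eq_norm_sq (𝕜 := ℂ) _).symm
  rw [h4]; simp only [h3, Finset.sum_const, Finset.card_univ, Fintype.card_fin, nsmul_eq_mul]
  push_cast; field_simp

lemma E_small (c : Z) (ξ : H) :
    Tendsto (fun k => E {y : Y | y.2 k = c k} ξ) atTop (𝓝 0) := by
  have := strong (fun k => E {y : Y | y.2 k = c k}) 0 1
    (fun k => norm_E_le (clopen_coord k (fun e => e = c k))) ?_ ξ
  · simpa using this
  intro n g _
  have e : ∀ k, E {y : Y | y.2 k = c k} (vec g) = Mc g (E {y : Y | y.2 k = c k} (vec 1)) := by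
    intro k
    rw [← mul_apply_eq_comp, ← E_mem_D _ g, mul_apply_eq_comp, Mc_vec, mul_one]
  simp only [e, zero_apply]
  rw [← map_zero (Mc g)]
  refine ((Mc g).continuous.tendsto 0).comp ?_
  rw [tendsto_zero_iff_norm_tendsto_zero]
  have h1 : Tendsto (fun k : ℕ => ‖vec 1‖ ^ 2 / ((k : ℝ) + 2)) atTop (𝓝 0) :=
    tendsto_const_nhds.div_atTop (tendsto_atTop_add_const_right _ _ tendsto_natCast_atTop_atTop)
  have h2 := h1.sqrt
  simp only [← norm_coord _ (c _), Real.sqrt_zero, Real.sqrt_sq (norm_nonneg _)] at h2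
  exact h2

noncomputable def tau (k : ℕ) : R := E {y : Y | y.2 k ≠ Fin.last _} * U (0, Pi.single k 1)

lemma norm_tau_le (k : ℕ) : ‖tau k‖ ≤ 1 :=
  (norm_mul_le _ _).trans (mul_le_one₀ (norm_E_le (clopen_coord k (fun e => e ≠ Fin.last _)))
    (norm_nonneg _) (norm_U_le _))

lemma tau_strong (ξ : H) : Tendsto (fun k => tau k ξ) atTop (𝓝 ξ) := by
  have := strong tau 1 1 norm_tau_le ?_ ξ
  · simpa using this
  intro n g hg
  have h1 := (E_small (fun k => Fin.last _) (vec g)).const_sub (vec g)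
  rw [sub_zero] at h1
  refine h1.congr' ?_
  filter_upwards [eventually_ge_atTop n] with k hk
  have e1 : g.comp (sh (0, Pi.single k 1)) = g := by
    ext y
    refine hg _ _ (by simp [sh]) fun i hi => ?_
    have : i ≠ k := by omega
    simp [sh, Pi.single_eq_of_ne this]
  have e2 : E {y : Y | y.2 k ≠ Fin.last _} = 1 - E {y : Y | y.2 k = Fin.last _} :=
    E_compl (clopen_coord k (fun e => e = Fin.last _))
  rw [tau, mul_apply_eq_comp, U_vec, e1, e2]; simp

end Pool.Agent.H99.MT
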