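import Mathlib
import Pool.Agent.H99.MT2

set_option autoImplicit false

open MeasureTheory Filter Topology
open scoped ENNReal InnerProductSpace

namespace Pool.Agent.H99.MT

structure Nst (S : Set Y) : Prop where
  cyl : ∃ n, Cyl n (· ∈ S)
  low : ∀ x y : Y, toLex x.2 ≤ toLex y.2 → y ∈ S → x ∈ S

lemma Nst.clopen {S : Set Y} (h : Nst S) : IsClopen S := h.cyl.choose_spec.clopen

lemma Nst.total {S T : Set Y} (hS : Nst S) (hT : Nst T) : S ⊆ T ∨ T ⊆ S := by
  by_contra h
  rw [not_or, Set.not_subset, Set.not_subset] at h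
  obtain ⟨⟨x, hx, hx'⟩, ⟨y, hy, hy'⟩⟩ := h
  rcases le_total (toLex x.2) (toLex y.2) with h | h
  · exact hx' (hT.low _ _ h hy)
  · exact hy' (hS.low _ _ h hx)

lemma Nst.level {S : Set Y} (h : Nst S) :
    ∃ n, ∀ x y : Y, (∀ i < n, x.2 i = y.2 i) → x ∈ S → y ∈ S := by
  obtain ⟨n, hn⟩ := h.cyl
  refine ⟨n, fun x y hxy hx => ?_⟩
  have h1 : ((y.1, x.2) : Y) ∈ S := h.low (y.1, x.2) x le_rfl hx
  have := hn (y.1, x.2) y rfl hxy
  exact this.mp h1

lemma trunc_mono (n : ℕ) {z w : Z} (h : toLex z ≤ toLex w) :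
    toLex (trunc n z) ≤ toLex (trunc n w) := by
  rcases h.eq_or_lt with h | ⟨i, h1, h2⟩
  · rw [toLex_inj.1 h]
  · by_cases hi : i < n
    · refine le_of_lt ⟨i, fun j hj => ?_, ?_⟩
      · have := h1 j hj
        simp only [Pi.toLex_apply] at this ⊢
        simp only [trunc, this]
      · simpa [trunc, hi] using h2
    · refine le_of_eq (congrArg toLex ?_)
      ext j
      by_cases hj : j < n
      · have := h1 j (by omega)
        simp only [Pi.toLex_apply] at this
        simp only [trunc, this]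
      · simp [trunc, hj]

lemma trunc_eq_iff (n : ℕ) (z w : Z) : trunc n z = trunc n w ↔ ∀ i < n, z i = w i := by
  constructor
  · intro h i hi
    simpa [trunc, hi] using congrFun h i
  · intro h; ext i
    by_cases hi : i < n
    · simp [trunc, hi, h i hi]
    · simp [trunc, hi]

def Lle (n : ℕ) (a : Z) : Set Y := {y | toLex (trunc n y.2) ≤ toLex (trunc n a)}
def Llt (n : ℕ) (a : Z) : Set Y := {y | toLex (trunc n y.2) < toLex (trunc n a)}

lemma nst_Lle (n : ℕ) (a : Z) : Nst (Lle n a) :=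
  ⟨⟨n, fun x y _ h => by simp only [Lle, Set.mem_ofPred_eq, (trunc_eq_iff n _ _).2 h]⟩,
    fun _ _ h hy => (trunc_mono n h).trans hy⟩

lemma nst_Llt (n : ℕ) (a : Z) : Nst (Llt n a) :=
  ⟨⟨n, fun x y _ h => by simp only [Llt, Set.mem_ofPred_eq, (trunc_eq_iff n _ _).2 h]⟩,
    fun _ _ h hy => (trunc_mono n h).trans_lt hy⟩

lemma C_eq (n : ℕ) (a : Z) : C n a = Lle n a \ Llt n a := by
  ext y
  simp only [C, Lle, Llt, Set.mem_ofPred_eq, Set.mem_sdiff, ← trunc_eq_iff]
  constructor
  · intro h; rw [h]; exact ⟨le_rfl, lt_irrefl (α := Lex Z) _⟩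
  · intro h; exact toLex_inj.1 (le_antisymm h.1 ((not_lt (α := Lex Z)).1 h.2))

lemma Llt_sub (n : ℕ) (a : Z) : Llt n a ⊆ Lle n a := fun y h =>
  le_of_lt (α := Lex Z) (a := toLex (trunc n y.2)) (b := toLex (trunc n a)) h

lemma E_C (n : ℕ) (a : Z) : E (C n a) = E (Lle n a) - E (Llt n a) := by
  rw [C_eq, E_diff (nst_Lle n a).clopen (nst_Llt n a).clopen (Llt_sub n a)]

/-- the nest algebra -/
def Alg : Subalgebra ℂ R where
  carrier := {a | ∀ S, Nst S → E S * a * E S = a * E S}
  mul_mem' := by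
    intro a b ha hb S hS
    calc E S * (a * b) * E S = E S * a * (b * E S) := by noncomm_ring
      _ = (E S * a * E S) * b * E S := by rw [← hb S hS]; noncomm_ring
      _ = a * (E S * b * E S) := by rw [ha S hS]; noncomm_ring
      _ = a * b * E S := by rw [hb S hS, mul_assoc]
  add_mem' := by
    intro a b ha hb S hS
    rw [mul_add, add_mul, add_mul, ha S hS, hb S hS]
  algebraMap_mem' := by
    intro r S hS
    rw [← Algebra.commutes, mul_assoc, E_idem hS.clopen]

def Com : Set R := {a | ∀ S, Nst S → a * E S = E S * a}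

lemma Com_Alg {a : R} (h : a ∈ Com) : a ∈ Alg := fun S hS => by
  rw [← h S hS, mul_assoc, E_idem hS.clopen]

lemma D_Com {a : R} (h : a ∈ D) : a ∈ Com := fun _ _ => h _

lemma Com_of_star {a : R} (h : a ∈ Alg) (h' : star a ∈ Alg) : a ∈ Com := fun S hS => by
  have := congrArg star (h' S hS)
  simp only [star_mul, star_star, E_star hS.clopen] at this
  rw [← h S hS, mul_assoc, this]

lemma Com_star {a : R} (h : a ∈ Com) : star a ∈ Com := fun S hS => by
  have := congrArg star (h S hS)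
  simp only [star_mul, E_star hS.clopen] at this
  exact this.symm

lemma Com_mul {a b : R} (ha : a ∈ Com) (hb : b ∈ Com) : a * b ∈ Com := fun S hS => by
  rw [mul_assoc, hb S hS, ← mul_assoc, ha S hS, mul_assoc]

lemma Com_C {a : R} (h : a ∈ Com) (n : ℕ) (b : Z) : a * E (C n b) = E (C n b) * a := by
  rw [E_C, mul_sub, sub_mul, h _ (nst_Lle n b), h _ (nst_Llt n b)]

lemma Com_Mc {a : R} (h : a ∈ Com) (n : ℕ) (g : C(Y, ℂ))
    (hg : ∀ x y : Y, (∀ i < n, x.2 i = y.2 i) → g x = g y) : a * Mc g = Mc g * a := by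
  rw [sum_cyl n g hg, Finset.mul_sum, Finset.sum_mul]
  exact Finset.sum_congr rfl fun b _ => by rw [mul_smul_comm, smul_mul_assoc, Com_C h]

noncomputable def P : R := E {y : Y | y.1 = 0}
noncomputable def Q : R := E {y : Y | y.1 ≠ 0}

lemma cP : IsClopen {y : Y | y.1 = 0} := clopen_fst (fun c => c = 0)
lemma cQ : IsClopen {y : Y | y.1 ≠ 0} := clopen_fst (fun c => c ≠ 0)

lemma Q_eq : Q = 1 - P := E_compl cP
lemma PP : P * P = P := E_idem cP
lemma QQ : Q * Q = Q := E_idem cQ
lemma PQ : P * Q = 0 := by rw [Q_eq, mul_sub, mul_one, PP, sub_self]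
lemma QP : Q * P = 0 := by rw [Q_eq, sub_mul, one_mul, PP, sub_self]
lemma P_star : star P = P := E_star cP
lemma Q_star : star Q = Q := E_star cQ
lemma P_D : P ∈ D := E_mem_D _
lemma Q_D : Q ∈ D := E_mem_D _

lemma D_of_Com {a : R} (h : a ∈ Com) (hP : a * P = P * a) : a ∈ D := by
  have hQ : a * Q = Q * a := by rw [Q_eq, mul_sub, sub_mul, hP, mul_one, one_mul]
  apply mem_D_of_cyl
  intro n g hg
  let g0 : C(Y, ℂ) := g.comp ⟨fun y => (0, y.2), by fun_prop⟩
  let g1 : C(Y, ℂ) := g.comp ⟨fun y => (1, y.2), by fun_prop⟩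
  have e : Mc g = P * Mc g0 + Q * Mc g1 := by
    rw [P, Q, E, E, ← Mc_mul, ← Mc_mul, ← map_add]
    congr 1; ext ⟨i, z⟩
    simp only [ContinuousMap.add_apply, ContinuousMap.mul_apply, ind_apply cP, ind_apply cQ]
    fin_cases i <;> simp [g0, g1]
  have h0 := Com_Mc h n g0 fun x y hxy => hg _ _ rfl hxy
  have h1 := Com_Mc h n g1 fun x y hxy => hg _ _ rfl hxy
  rw [e, mul_add, add_mul, ← mul_assoc, hP, mul_assoc, h0, ← mul_assoc a, hQ, mul_assoc Q, h1]
  simp only [mul_assoc]

noncomputable def s : R := U (1, 0)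

lemma ss : s * s = 1 := by
  rw [s, U_add, ← U_zero]; congr 1

lemma s_star : star s = s := by
  rw [s, U_star]; congr 1; ext <;> simp

lemma sP : s * P = Q * s := by
  rw [s, P, U_E cP, Q]; congr 2; ext ⟨i, z⟩
  fin_cases i <;> simp

lemma sQ : s * Q = P * s := by
  rw [Q_eq, mul_sub, sP, Q_eq]; noncomm_ring

lemma s_Com : s ∈ Com := fun S hS => by
  rw [s, U_E hS.clopen]; congr 2; ext y
  exact ⟨fun h => hS.low _ _ (by simp) h, fun h => hS.low _ _ (by simp) h⟩

lemma tau_Alg (k : ℕ) : tau k ∈ Alg := fun S hS => by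
  have hc := clopen_coord k (fun e => e ≠ Fin.last _)
  have hc2 := clopen_sh hS.clopen (0, Pi.single k 1)
  have e : tau k * E S =
      E ({y : Y | y.2 k ≠ Fin.last _} ∩ {x | x + (0, Pi.single k 1) ∈ S}) *
        U (0, Pi.single k 1) := by
    rw [tau, mul_assoc, U_E hS.clopen, ← mul_assoc, E_inter hc hc2]
  rw [mul_assoc, e, ← mul_assoc, E_inter hS.clopen (hc.inter hc2)]
  congr 2
  refine Set.inter_eq_right.2 fun y hy => hS.low _ _ (Pi.toLex_monotone fun i => ?_) hy.2
  by_cases hi : i = k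
  · subst hi
    simp only [Prod.snd_add, Pi.add_apply, Pi.single_eq_same]
    exact (Fin.lt_add_one_iff.2 (Fin.lt_last_iff_ne_last.2 hy.1)).le
  · simp [Pi.single_eq_of_ne hi]

lemma tau_P (k : ℕ) : tau k * P = P * tau k := by
  have hc := clopen_coord k (fun e => e ≠ Fin.last _)
  have : {x : Y | x + (0, Pi.single k 1) ∈ {y : Y | y.1 = 0}} = {y : Y | y.1 = 0} := by
    ext; simp
  rw [tau, mul_assoc, P, U_E cP, this, ← mul_assoc, ← mul_assoc, E_inter hc cP, E_inter cP hc,
    Set.inter_comm]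

lemma tau_s (k : ℕ) : tau k * s = s * tau k := by
  have hc := clopen_coord k (fun e => e ≠ Fin.last _)
  have : {x : Y | x + (1, 0) ∈ {y : Y | y.2 k ≠ Fin.last _}} = {y : Y | y.2 k ≠ Fin.last _} := by
    ext; simp
  rw [tau, s, ← mul_assoc, U_E hc, this, mul_assoc, mul_assoc, U_add, U_add,
    add_comm ((1, 0) : Y)]

noncomputable def cc (j : ℕ) : ℂ := (1 / 2) ^ (j + 2)

lemma norm_cc (j : ℕ) : ‖cc j‖ = (1 / 2) ^ j / 4 := by
  simp [cc, pow_add]; ring

lemma cc_ne (j : ℕ) : cc j ≠ 0 := by simp [cc]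

lemma hs_cc : HasSum (fun j => ‖cc j‖) (1 / 2) := by
  simp only [norm_cc]
  convert! hasSum_geometric_two.div_const 4 using 1; norm_num

lemma norm_ct (j : ℕ) : ‖cc j • tau j‖ ≤ ‖cc j‖ := by
  rw [norm_smul]; exact mul_le_of_le_one_right (norm_nonneg _) (norm_tau_le j)

lemma sm_K : Summable (fun j => cc j • tau j) := Summable.of_norm_bounded hs_cc.summable norm_ct

noncomputable def K : R := ∑' j, cc j • tau j

lemma norm_K : ‖K‖ < 1 :=
  (tsum_of_norm_bounded hs_cc norm_ct).trans_lt (by norm_num)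

lemma Alg_closed : IsClosed (Alg : Set R) := by
  have : (Alg : Set R) = ⋂ S, ⋂ (_ : Nst S), {a | E S * a * E S = a * E S} := by
    ext a; simp only [Set.mem_iInter]; rfl
  rw [this]
  exact isClosed_iInter fun S => isClosed_iInter fun _ => isClosed_eq (by fun_prop) (by fun_prop)

lemma Alg_hasSum {f : ℕ → R} {a : R} (h : HasSum f a) (hf : ∀ j, f j ∈ Alg) : a ∈ Alg :=
  Alg_closed.mem_of_tendsto h (Eventually.of_forall fun _ => Alg.sum_mem fun j _ => hf j)

lemma K_Alg : K ∈ Alg := Alg_hasSum sm_K.hasSum fun j => Alg.smul_mem (tau_Alg j) _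

lemma K_comm {b : R} (h : ∀ k, tau k * b = b * tau k) : K * b = b * K := by
  refine (sm_K.hasSum.mul_right b).unique ?_
  simpa only [mul_smul_comm, smul_mul_assoc, h] using! sm_K.hasSum.mul_left b

/-- the inverse of `1 - K` -/
noncomputable def Wi : R := ∑' n, K ^ n

lemma Wi_Alg : Wi ∈ Alg :=
  Alg_hasSum (summable_geometric_of_norm_lt_one norm_K).hasSum fun j => Alg.pow_mem K_Alg j

lemma Wi_mul : Wi * (1 - K) = 1 := geom_series_mul_neg K norm_K

def Gau (g g' : R) : Prop := g * g' = 1 ∧ g' * g = 1 ∧ ∀ a ∈ Com, a * g = g * a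

lemma Gau.conj {g g' : R} (h : Gau g g') {a : R} (ha : a ∈ Com) : g' * a * g = a := by
  rw [mul_assoc, h.2.2 a ha, ← mul_assoc, h.2.1, one_mul]

lemma Gau.comm' {g g' : R} (h : Gau g g') {a : R} (ha : a ∈ Com) : a * g' = g' * a := by
  conv_lhs => rw [← h.conj ha]
  rw [mul_assoc, h.1, mul_one]

lemma cyl_hh (z : ℕ → ℂ) (m : ℕ) (x y : Y) (h : ∀ i < m, x.2 i = y.2 i) :
    ∏ j ∈ Finset.range m, z j ^ (x.2 j : ℕ) = ∏ j ∈ Finset.range m, z j ^ (y.2 j : ℕ) :=
  Finset.prod_congr rfl fun j hj => by rw [h j (Finset.mem_range.1 hj)]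

noncomputable def hh (z : ℕ → ℂ) (m : ℕ) : C(Y, ℂ) :=
  ⟨fun y => ∏ j ∈ Finset.range m, z j ^ (y.2 j : ℕ),
    (Cyl.lc (n := m) fun x y _ h => cyl_hh z m x y h).continuous⟩

lemma gau_hh (z : ℕ → ℂ) (hz : ∀ j, z j ≠ 0) (m : ℕ) :
    Gau (Mc (hh z m)) (Mc (hh (fun j => (z j)⁻¹) m)) := by
  have : hh z m * hh (fun j => (z j)⁻¹) m = 1 := by
    ext y
    simp only [hh, ContinuousMap.mul_apply, ContinuousMap.coe_mk, ← Finset.prod_mul_distrib,
      ← mul_pow, mul_inv_cancel₀ (hz _), one_pow, Finset.prod_const_one, ContinuousMap.one_apply]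
  refine ⟨by rw [← Mc_mul, this, Mc_one], by rw [← Mc_mul, mul_comm, this, Mc_one],
    fun a ha => Com_Mc ha m _ (cyl_hh z m)⟩

lemma tau_hh (z : ℕ → ℂ) (m k : ℕ) :
    tau k * Mc (hh z m) = (if k < m then z k else 1) • (Mc (hh z m) * tau k) := by
  have hc := clopen_coord k (fun e => e ≠ Fin.last _)
  rw [tau, mul_assoc, U_Mc, ← mul_assoc, ← mul_assoc, E, ← Mc_mul, ← Mc_mul, ← smul_mul_assoc,
    ← map_smul]
  congr 2; ext y
  by_cases hy : y.2 k = Fin.last _
  · simp only [ContinuousMap.mul_apply, ContinuousMap.smul_apply,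
      ind_notMem hc (show y ∉ {y : Y | y.2 k ≠ Fin.last _} from fun h => h hy), zero_mul,
      mul_zero, smul_zero]
  · have e : ∀ i, (((y + (0, Pi.single k 1) : Y).2 i : ℕ)) = y.2 i + if i = k then 1 else 0 := by
      intro i
      by_cases hi : i = k
      · subst hi
        simp only [Prod.snd_add, Pi.add_apply, Pi.single_eq_same, if_true]
        exact Fin.val_add_one_of_lt (Fin.lt_last_iff_ne_last.2 hy)
      · simp [hi]
    simp only [ContinuousMap.mul_apply, ContinuousMap.smul_apply, ContinuousMap.comp_apply,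
      ind_mem hc (show y ∈ {y : Y | y.2 k ≠ Fin.last _} from hy), hh, sh, ContinuousMap.coe_mk,
      e, pow_add, Finset.prod_mul_distrib, pow_ite, pow_one, pow_zero, Finset.prod_ite_eq',
      Finset.mem_range, smul_eq_mul]
    ring

lemma tau_mem_closure (F : Set R) (hF : IsClosed F) (hK : K ∈ F)
    (hg : ∀ g g', Gau g g' → ∀ X ∈ F, g' * X * g ∈ F) (k : ℕ) : tau k ∈ F := by
  let z : ℕ → ℕ → ℂ := fun m j => if j = k then (cc k)⁻¹ else (((1 / ((m : ℝ) + 1) : ℝ)) : ℂ)
  have hz : ∀ m j, z m j ≠ 0 := by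
    intro m j
    by_cases h : j = k
    · simp [z, h, cc_ne]
    · simp only [z, h, if_false, ne_eq, Complex.ofReal_eq_zero]; positivity
  have h1 : ∀ m, ∑' j, (cc j * (if j < m then z m j else 1)) • tau j ∈ F := by
    intro m
    have hG := gau_hh (z m) (hz m) m
    have := hg _ _ hG K hK
    convert! this using 1
    refine HasSum.tsum_eq ?_
    convert! (sm_K.hasSum.mul_left (Mc (hh (fun j => (z m j)⁻¹) m))).mul_right (Mc (hh (z m) m))
      using 2 with j
    rw [mul_smul_comm, smul_mul_assoc, mul_assoc, tau_hh, mul_smul_comm, ← mul_assoc, hG.2.1,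
      one_mul, smul_smul]
  have h2 : Tendsto (fun m => ∑' j, (cc j * (if j < m then z m j else 1)) • tau j) atTop
      (𝓝 (∑' j, (if j = k then (1 : ℂ) else 0) • tau j)) := by
    refine tendsto_tsum_of_dominated_convergence
      (bound := fun j => ‖cc j‖ * (‖(cc k)⁻¹‖ + 1)) (hs_cc.summable.mul_right _) ?_ ?_
    · intro j
      refine Tendsto.smul_const ?_ _
      by_cases h : j = k
      · subst h
        refine tendsto_const_nhds.congr' ?_
        filter_upwards [eventually_gt_atTop j] with m hm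
        simp [z, hm, cc_ne]
      · have := ((Complex.continuous_ofReal.tendsto 0).comp
          tendsto_one_div_add_atTop_nhds_zero_nat).const_mul (cc j)
        simp only [Complex.ofReal_zero, mul_zero] at this
        simp only [h, if_false]
        refine this.congr' ?_
        filter_upwards [eventually_gt_atTop j] with m hm
        simp [z, hm, h]
    · refine Eventually.of_forall fun m j => ?_
      rw [norm_smul, norm_mul]
      refine (mul_le_of_le_one_right (by positivity) (norm_tau_le j)).trans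
        (mul_le_mul_of_nonneg_left ?_ (norm_nonneg _))
      have h0 := norm_nonneg (cc k)⁻¹
      split_ifs with h
      · by_cases h' : j = k
        · simp only [z, h', if_true]; linarith
        · simp only [z, h', if_false, Complex.norm_real, Real.norm_eq_abs]
          rw [abs_of_pos (by positivity)]
          have : 1 / ((m : ℝ) + 1) ≤ 1 := by
            rw [div_le_one (by positivity)]; linarith [(Nat.cast_nonneg m : (0 : ℝ) ≤ m)]
          linarith
      · rw [norm_one]; linarith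
  have h3 : ∑' j, (if j = k then (1 : ℂ) else 0) • tau j = tau k := by
    rw [tsum_eq_single k (fun j hj => by simp [hj])]; simp
  rw [← h3]
  exact hF.mem_of_tendsto h2 (Eventually.of_forall h1)

end Pool.Agent.H99.MT
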