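import Mathlib
import Pool.Agent.H99.MT3

set_option autoImplicit false

open MeasureTheory Filter Topology
open scoped ENNReal InnerProductSpace

namespace Pool.Agent.H99.MT

lemma EC_idem (n : ℕ) (b : Z) : E (C n b) * E (C n b) = E (C n b) := E_idem (clopen_C n b)

lemma EC_Com (n : ℕ) (b : Z) : E (C n b) ∈ Com := D_Com (E_mem_D _)

lemma E_mult {a a' : R} (ha : a ∈ Alg) (ha' : a' ∈ Alg) (n : ℕ) (b : Z) :
    E (C n b) * (a * a') * E (C n b) =
      (E (C n b) * a * E (C n b)) * (E (C n b) * a' * E (C n b)) := by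
  have c1 := (nst_Lle n b).clopen
  have c0 := (nst_Llt n b).clopen
  have h1 : E (Lle n b) * E (C n b) = E (C n b) := by
    rw [E_inter c1 (clopen_C n b), C_eq]; congr 1; ext y; simp
  have h0 : E (C n b) * E (Llt n b) = 0 := by
    rw [E_inter (clopen_C n b) c0, C_eq, ← E_empty]; congr 1; ext y; simp
  have e1 : E (Lle n b) * a' * E (C n b) = a' * E (C n b) := by
    rw [← h1, ← mul_assoc, ha' _ (nst_Lle n b), mul_assoc]
  have e0 : E (C n b) * a * E (Llt n b) = 0 := by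
    rw [mul_assoc, ← ha _ (nst_Llt n b), ← mul_assoc, ← mul_assoc, h0, zero_mul, zero_mul]
  calc E (C n b) * (a * a') * E (C n b)
      = E (C n b) * a * (E (Lle n b) * a' * E (C n b))
        - (E (C n b) * a * E (Llt n b)) * a' * E (C n b) := by rw [e1, e0]; noncomm_ring
    _ = E (C n b) * a * (E (Lle n b) - E (Llt n b)) * a' * E (C n b) := by noncomm_ring
    _ = E (C n b) * a * (E (C n b) * E (C n b)) * a' * E (C n b) := by rw [← E_C, EC_idem]
    _ = _ := by noncomm_ring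

def J : Set R := {j | j ∈ Alg ∧ ∀ᶠ n in atTop, ∀ b, E (C n b) * j * E (C n b) = 0}

lemma J_zero : (0 : R) ∈ J := ⟨Alg.zero_mem, Eventually.of_forall fun _ _ => by simp⟩

lemma J_add {a b : R} (ha : a ∈ J) (hb : b ∈ J) : a + b ∈ J :=
  ⟨Alg.add_mem ha.1 hb.1, by
    filter_upwards [ha.2, hb.2] with n h1 h2 c
    rw [mul_add, add_mul, h1, h2, add_zero]⟩

lemma J_mul_left {a j : R} (ha : a ∈ Alg) (hj : j ∈ J) : a * j ∈ J :=
  ⟨Alg.mul_mem ha hj.1, by
    filter_upwards [hj.2] with n h c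
    rw [E_mult ha hj.1, h, mul_zero]⟩

lemma J_mul_right {a j : R} (ha : a ∈ Alg) (hj : j ∈ J) : j * a ∈ J :=
  ⟨Alg.mul_mem hj.1 ha, by
    filter_upwards [hj.2] with n h c
    rw [E_mult hj.1 ha, h, zero_mul]⟩

lemma J_corner {S : Set Y} (hS : Nst S) (b : R) : E S * b * E Sᶜ ∈ J := by
  have hc := hS.clopen
  constructor
  · intro T hT
    rcases hS.total hT with h | h
    · rw [← mul_assoc, ← mul_assoc, E_inter hT.clopen hc, Set.inter_eq_right.2 h]
    · have : E Sᶜ * E T = 0 := by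
        rw [E_inter hc.compl hT.clopen, ← E_empty]; congr 1; ext y
        simpa using fun h1 h2 => h1 (h h2)
      rw [mul_assoc (E T), mul_assoc, this, mul_zero, mul_zero]
  · obtain ⟨n, hn⟩ := hS.level
    filter_upwards [eventually_ge_atTop n] with m hm c
    by_cases h : ((0, c) : Y) ∈ S
    · have : E Sᶜ * E (C m c) = 0 := by
        rw [E_inter hc.compl (clopen_C m c), ← E_empty]; congr 1; ext y
        simpa using fun h1 h2 => h1 (hn _ _ (fun i hi => (h2 i (hi.trans_le hm)).symm) h)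
      rw [mul_assoc, mul_assoc, this, mul_zero, mul_zero]
    · have : E (C m c) * E S = 0 := by
        rw [E_inter (clopen_C m c) hc, ← E_empty]; congr 1; ext y
        simpa using fun h1 h2 => h (hn _ _ (fun i hi => h1 i (hi.trans_le hm)) h2)
      rw [← mul_assoc, ← mul_assoc, this, zero_mul, zero_mul, zero_mul]

structure Good (φ : R → R) : Prop where
  cont : Continuous φ
  gau : ∀ g g', Gau g g' → ∀ X, φ (g' * X * g) = g' * φ X * g
  bdd : ∃ c, ∀ k, ‖φ (tau k)‖ ≤ c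
  lim : ∀ ξ, Tendsto (fun k => φ (tau k) ξ) atTop (𝓝 (φ 1 ξ))
  pq : P * φ 1 * Q = 0
  mem : φ K ∈ Alg

lemma good_const {a : R} (ha : a ∈ Com) (h : P * a * Q = 0) : Good (fun _ => a) :=
  ⟨continuous_const, fun _ _ hg _ => (hg.conj ha).symm, ⟨_, fun _ => le_rfl⟩,
    fun _ => tendsto_const_nhds, h, Com_Alg ha⟩

lemma Good.add {φ ψ : R → R} (h : Good φ) (h' : Good ψ) : Good (fun X => φ X + ψ X) := by
  obtain ⟨c, hc⟩ := h.bdd
  obtain ⟨c', hc'⟩ := h'.bdd
  refine ⟨h.cont.add h'.cont, fun g g' hg X => ?_, ⟨c + c', fun k => ?_⟩, fun ξ => ?_, ?_,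
    Alg.add_mem h.mem h'.mem⟩
  · rw [h.gau g g' hg, h'.gau g g' hg, mul_add, add_mul]
  · exact (norm_add_le _ _).trans (add_le_add (hc k) (hc' k))
  · exact (h.lim ξ).add (h'.lim ξ)
  · rw [mul_add, add_mul, h.pq, h'.pq, add_zero]

lemma Good.mul {φ ψ : R → R} (h : Good φ) (h' : Good ψ) : Good (fun X => φ X * ψ X) := by
  obtain ⟨c, hc⟩ := h.bdd
  obtain ⟨c', hc'⟩ := h'.bdd
  have hc0 : 0 ≤ c := (norm_nonneg _).trans (hc 0)
  refine ⟨h.cont.mul h'.cont, fun g g' hg X => ?_, ⟨c * c', fun k => ?_⟩, fun ξ => ?_, ?_,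
    Alg.mul_mem h.mem h'.mem⟩
  · rw [h.gau g g' hg, h'.gau g g' hg]
    calc g' * φ X * g * (g' * ψ X * g) = g' * φ X * (g * g') * ψ X * g := by noncomm_ring
      _ = _ := by rw [hg.1]; noncomm_ring
  · exact (norm_mul_le _ _).trans (mul_le_mul (hc k) (hc' k) (norm_nonneg _) hc0)
  · have h1 : Tendsto (fun k => φ (tau k) (ψ (tau k) ξ - ψ 1 ξ)) atTop (𝓝 0) := by
      have := (tendsto_iff_norm_sub_tendsto_zero.1 (h'.lim ξ)).const_mul c
      rw [mul_zero] at this
      refine squeeze_zero_norm (fun k => ?_) this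
      exact ((φ (tau k)).le_opNorm _).trans (mul_le_mul_of_nonneg_right (hc k) (norm_nonneg _))
    have := h1.add (h.lim (ψ 1 ξ))
    simpa using this
  · calc P * (φ 1 * ψ 1) * Q = P * φ 1 * (P + Q) * ψ 1 * Q := by
          rw [Q_eq]; noncomm_ring
      _ = P * φ 1 * (P * ψ 1 * Q) + (P * φ 1 * Q) * ψ 1 * Q := by noncomm_ring
      _ = 0 := by rw [h.pq, h'.pq]; simp

lemma good_w : Good (fun X => s * (1 - X) * Q) := by
  refine ⟨by fun_prop, fun g g' hg X => ?_, ⟨‖s‖ * 2 * ‖Q‖, fun k => ?_⟩, fun ξ => ?_, by simp,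
    Alg.mul_mem (Alg.mul_mem (Com_Alg s_Com) (Alg.sub_mem Alg.one_mem K_Alg))
      (Com_Alg (D_Com Q_D))⟩
  · have e : 1 - g' * X * g = g' * (1 - X) * g := by rw [mul_sub, sub_mul, mul_one, hg.2.1]
    calc s * (1 - g' * X * g) * Q = (s * g') * (1 - X) * (g * Q) := by rw [e]; noncomm_ring
      _ = _ := by rw [hg.comm' s_Com, ← hg.2.2 Q (D_Com Q_D)]; noncomm_ring
  · refine (norm_mul_le _ _).trans (mul_le_mul_of_nonneg_right ((norm_mul_le _ _).trans
      (mul_le_mul_of_nonneg_left ((norm_sub_le _ _).trans ?_) (norm_nonneg _))) (norm_nonneg _))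
    have := norm_tau_le k
    have h1 : ‖(1 : R)‖ ≤ 1 := ContinuousLinearMap.norm_id_le
    linarith
  · have := (s.continuous.tendsto _).comp ((tau_strong (Q ξ)).const_sub (Q ξ))
    simpa [Function.comp_def] using this

def T0 : Subalgebra ℂ R where
  carrier := {a | ∃ φ j, Good φ ∧ j ∈ J ∧ a = φ K + j}
  mul_mem' := by
    rintro _ _ ⟨φ, j, h, hj, rfl⟩ ⟨ψ, j', h', hj', rfl⟩
    refine ⟨_, φ K * j' + j * ψ K + j * j', h.mul h',
      J_add (J_add (J_mul_left h.mem hj') (J_mul_right h'.mem hj)) (J_mul_left hj.1 hj'), ?_⟩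
    noncomm_ring
  add_mem' := by
    rintro _ _ ⟨φ, j, h, hj, rfl⟩ ⟨ψ, j', h', hj', rfl⟩
    exact ⟨_, j + j', h.add h', J_add hj hj', by abel⟩
  algebraMap_mem' := fun r =>
    ⟨_, 0, good_const (a := algebraMap ℂ R r) (fun _ _ => Algebra.commutes _ _)
      (by rw [← Algebra.commutes, mul_assoc, PQ, mul_zero]), J_zero, by simp⟩

lemma T0_Alg {a : R} (h : a ∈ T0) : a ∈ Alg := by
  obtain ⟨φ, j, h, hj, rfl⟩ := h
  exact Alg.add_mem h.mem hj.1

lemma D_T0 {d : R} (h : d ∈ D) : d ∈ T0 :=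
  ⟨_, 0, good_const (D_Com h) (by rw [← D_comm h P_D, mul_assoc, PQ, mul_zero]), J_zero, by simp⟩

lemma J_T0 {j : R} (h : j ∈ J) : j ∈ T0 :=
  ⟨_, j, good_const (a := 0) (fun _ _ => by simp) (by simp), h, by simp⟩

lemma v_T0 : s * P ∈ T0 :=
  ⟨_, 0, good_const (Com_mul s_Com (D_Com P_D)) (by rw [mul_assoc, mul_assoc, PQ]; simp),
    J_zero, by simp⟩

lemma w_T0 : s * (1 - K) * Q ∈ T0 := ⟨_, 0, good_w, J_zero, by simp⟩

lemma main {a : R} (ha : a ∈ T0) (hc : a ∈ Com) : P * a * Q = 0 := by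
  obtain ⟨φ, j, h, hj, e⟩ := ha
  obtain ⟨n, hn⟩ := hj.2.exists
  have key : ∀ b, E (C n b) * (P * a * Q) = 0 := by
    intro b
    have hE := EC_Com n b
    have h1 : ∀ k, tau k ∈ {X | E (C n b) * φ X * E (C n b) = E (C n b) * a * E (C n b)} := by
      refine tau_mem_closure _ (isClosed_eq (by have := h.cont; fun_prop) continuous_const) ?_ ?_
      · simp only [Set.mem_ofPred_eq]
        rw [e, mul_add, add_mul, hn b, add_zero]
      · intro g g' hg X hX
        simp only [Set.mem_ofPred_eq] at hX ⊢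
        calc E (C n b) * φ (g' * X * g) * E (C n b)
            = (E (C n b) * g') * φ X * (g * E (C n b)) := by rw [h.gau g g' hg]; noncomm_ring
          _ = g' * (E (C n b) * φ X * E (C n b)) * g := by
            rw [hg.comm' hE, ← hg.2.2 _ hE]; noncomm_ring
          _ = _ := by rw [hX, hg.conj (Com_mul (Com_mul hE hc) hE)]
    have h2 : E (C n b) * φ 1 * E (C n b) = E (C n b) * a * E (C n b) := by
      ext1 ξ
      have := ((E (C n b)).continuous.tendsto _).comp (h.lim (E (C n b) ξ))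
      refine tendsto_nhds_unique this ?_
      have e' : ∀ k, E (C n b) (φ (tau k) (E (C n b) ξ)) = (E (C n b) * a * E (C n b)) ξ :=
        fun k => by rw [← h1 k]; rfl
      simp only [Function.comp_def, e']
      exact tendsto_const_nhds
    have hP := D_comm P_D (E_mem_D (C n b))
    have hQ := D_comm Q_D (E_mem_D (C n b))
    calc E (C n b) * (P * a * Q) = (E (C n b) * P) * a * Q := by noncomm_ring
      _ = P * (E (C n b) * (E (C n b) * a)) * Q := by
        rw [← hP, ← mul_assoc (E _), EC_idem]; noncomm_ring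
      _ = P * (E (C n b) * φ 1 * E (C n b)) * Q := by rw [h2, mul_assoc (E _) a, Com_C hc]
      _ = (P * E (C n b)) * φ 1 * (E (C n b) * Q) := by noncomm_ring
      _ = E (C n b) * (P * φ 1 * Q) * E (C n b) := by rw [hP, ← hQ]; noncomm_ring
      _ = 0 := by rw [h.pq]; simp
  rw [← one_mul (P * a * Q), ← sum_E n, Finset.sum_mul]
  exact Finset.sum_eq_zero fun b _ => key b

lemma T0_diag {a : R} (ha : a ∈ T0) (ha' : star a ∈ T0) : a ∈ D := by
  have hc := Com_of_star (T0_Alg ha) (T0_Alg ha')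
  have h1 := main ha hc
  have h2 := congrArg star (main ha' (Com_star hc))
  simp only [star_mul, star_star, P_star, Q_star, star_zero] at h2
  refine D_of_Com hc ?_
  rw [Q_eq] at h1 h2
  have e1 : P * a = P * a * P := by rw [← sub_eq_zero, ← h1]; noncomm_ring
  have e2 : a * P = P * a * P := by rw [← sub_eq_zero, ← h2]; noncomm_ring
  rw [e2, ← e1]

lemma exists_max : ∃ T : Subalgebra ℂ R, T0 ≤ T ∧ (∀ x ∈ T, star x ∈ T → x ∈ D) ∧
    ∀ B : Subalgebra ℂ R, T ≤ B → (∀ x ∈ B, star x ∈ B → x ∈ D) → B = T := by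
  obtain ⟨T, h0, hT⟩ := zorn_le_nonempty₀ {B : Subalgebra ℂ R | ∀ x ∈ B, star x ∈ B → x ∈ D}
    (fun c hc hch y hy => by
      have : Nonempty c := ⟨⟨y, hy⟩⟩
      have hd : Directed (· ≤ ·) (fun i : c => (i : Subalgebra ℂ R)) := hch.directed
      refine ⟨⨆ i : c, (i : Subalgebra ℂ R), ?_, fun z hz => le_iSup (fun i : c =>
        (i : Subalgebra ℂ R)) ⟨z, hz⟩⟩
      intro x hx hx'
      rw [← SetLike.mem_coe, Subalgebra.coe_iSup_of_directed hd, Set.mem_iUnion] at hx hx'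
      obtain ⟨i, hi⟩ := hx
      obtain ⟨i', hi'⟩ := hx'
      obtain ⟨k, h1, h2⟩ := hd i i'
      exact hc k.2 x (h1 hi) (h2 hi'))
    T0 (fun x hx hx' => T0_diag hx hx')
  exact ⟨T, h0, hT.prop, fun B h1 h2 => le_antisymm (hT.le_of_ge h2 h1) h1⟩

lemma le_trunc (n : ℕ) (z : Z) : toLex z ≤ toLex (trunc n z) :=
  Pi.toLex_monotone fun i => by
    by_cases h : i < n
    · simp [trunc, h]
    · simpa [trunc, h] using Fin.le_last _

lemma Nst.exists_top {S : Set Y} (hS : Nst S) (hne : S.Nonempty) :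
    ∃ a : Z, ∀ᶠ m in atTop, Llt m a ⊆ S ∧ S \ Llt m a = C m a := by
  obtain ⟨n, hn⟩ := hS.level
  have hf : ((fun y : Y => trunc n y.2) '' S).Finite :=
    (trunc_finite n).subset (by rintro _ ⟨y, _, rfl⟩; exact ⟨_, rfl⟩)
  obtain ⟨_, ⟨y0, hy0, rfl⟩, hmax⟩ :=
    Set.exists_max_image _ (fun z : Z => toLex z) hf (hne.image _)
  have h0 : ((0, trunc n y0.2) : Y) ∈ S := hn y0 _ (fun i hi => by simp [trunc, hi]) hy0
  have h1 : ∀ y ∈ S, toLex y.2 ≤ toLex (trunc n y0.2) := fun y hy =>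
    (le_trunc n y.2).trans (hmax _ ⟨y, hy, rfl⟩)
  refine ⟨trunc n y0.2, ?_⟩
  filter_upwards [eventually_ge_atTop n] with m hm
  constructor
  · intro y hy
    rcases le_total (toLex y.2) (toLex (trunc n y0.2)) with h | h
    · exact hS.low y (0, trunc n y0.2) h h0
    · exact absurd hy ((not_lt (α := Lex Z)).2 (trunc_mono m h))
  · ext y
    constructor
    · rintro ⟨hy, hy'⟩
      rw [C_eq]
      exact ⟨trunc_mono m (h1 y hy), hy'⟩
    · intro hy
      refine ⟨hn _ _ (fun i hi => (hy i (hi.trans_le hm)).symm) h0, ?_⟩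
      rw [C_eq] at hy
      exact hy.2

lemma max_le_Alg {T : Subalgebra ℂ R} (h0 : T0 ≤ T) (hd : ∀ x ∈ T, star x ∈ T → x ∈ D) :
    T ≤ Alg := by
  intro t ht S hS
  have hc := hS.clopen
  rcases S.eq_empty_or_nonempty with rfl | hne
  · simp [E_empty]
  obtain ⟨a, ha⟩ := hS.exists_top hne
  have key : ∀ m, Llt m a ⊆ S → S \ Llt m a = C m a → E Sᶜ * t * E (Llt m a) = 0 := by
    intro m h1 h2
    have c0 := (nst_Llt m a).clopen
    have cC := clopen_C m a
    ext1 η
    set ζ := (E Sᶜ * t * E (Llt m a)) η with hζ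
    set ξ := E (C m a) (vec 1) with hξ
    have hA := h0 (J_T0 (J_corner (nst_Llt m a) (InnerProductSpace.rankOne ℂ η ξ)))
    have hB := h0 (J_T0 (J_corner hS (InnerProductSpace.rankOne ℂ ξ ζ)))
    have x1 : E S ξ = ξ := by
      rw [hξ, ← mul_apply_eq_comp, E_inter hc cC, ← h2]; congr 2; ext y; simp
    have x2 : E (Llt m a)ᶜ * E (C m a) = E (C m a) := by
      rw [E_inter c0.compl cC, ← h2]; congr 1; ext y; simp
    have e : (E S * InnerProductSpace.rankOne ℂ ξ ζ * E Sᶜ) * t *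
        (E (Llt m a) * InnerProductSpace.rankOne ℂ η ξ * E (Llt m a)ᶜ) =
        ⟪ζ, ζ⟫_ℂ • InnerProductSpace.rankOne ℂ ξ ξ := by
      ext1 θ
      have x3 : ⟪ξ, E (Llt m a)ᶜ θ⟫_ℂ = ⟪ξ, θ⟫_ℂ := by
        rw [← ContinuousLinearMap.adjoint_inner_left, ← ContinuousLinearMap.star_eq_adjoint,
          E_star c0.compl, hξ, ← mul_apply_eq_comp, x2]
      have x4 : E Sᶜ (t (E (Llt m a) η)) = ζ := rfl
      simp only [mul_apply_eq_comp, InnerProductSpace.rankOne_apply, map_smul, x3, x4, x1,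
        smul_apply, smul_smul]
      rw [mul_comm]
    have hT := T.mul_mem (T.mul_mem hB ht) hA
    rw [e] at hT
    by_contra hne
    have hz : ⟪ζ, ζ⟫_ℂ ≠ 0 := by simpa using hne
    have hT' : InnerProductSpace.rankOne ℂ ξ ξ ∈ T := by
      have := T.smul_mem hT (⟪ζ, ζ⟫_ℂ)⁻¹
      rwa [smul_smul, inv_mul_cancel₀ hz, one_smul] at this
    have hD := hd _ hT' (by
      rwa [ContinuousLinearMap.star_eq_adjoint, InnerProductSpace.adjoint_rankOne])
    have h3 : Q (InnerProductSpace.rankOne ℂ ξ ξ (P ξ)) = 0 := by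
      rw [← mul_apply_eq_comp, ← mul_apply_eq_comp, D_comm Q_D hD, mul_assoc, QP]; simp
    have h4 : ⟪ξ, P ξ⟫_ℂ = ⟪P ξ, P ξ⟫_ℂ := by
      rw [← ContinuousLinearMap.adjoint_inner_right P, ← ContinuousLinearMap.star_eq_adjoint,
        P_star, ← mul_apply_eq_comp P P, PP]
    rw [InnerProductSpace.rankOne_apply, map_smul, h4, smul_eq_zero, inner_self_eq_zero] at h3
    rcases h3 with h3 | h3
    · rw [hξ, ← mul_apply_eq_comp, P, E_inter cP cC] at h3
      exact E_ne (cP.inter cC) ⟨(0, a), rfl, fun _ _ => rfl⟩ h3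
    · rw [hξ, ← mul_apply_eq_comp, Q, E_inter cQ cC] at h3
      exact E_ne (cQ.inter cC) ⟨(1, a), by simp, fun _ _ => rfl⟩ h3
  have h2 : E Sᶜ * t * E S = 0 := by
    ext1 η
    have ha' := (tendsto_add_atTop_nat 1).eventually ha
    have h4 : ∀ᶠ m in atTop, (E Sᶜ * t * E S) η = (E Sᶜ * t * E (C (m + 1) a))
        (E {y : Y | y.2 m = a m} (E S η)) := by
      filter_upwards [ha'] with m hm
      have e1 : E (C (m + 1) a) * (E {y : Y | y.2 m = a m} * E S) = E S - E (Llt (m + 1) a) := by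
        rw [← E_diff hc (nst_Llt _ _).clopen hm.1, E_inter (clopen_coord m (· = a m)) hc,
          E_inter (clopen_C _ _) ((clopen_coord m (· = a m)).inter hc), hm.2]
        congr 1
        refine Set.inter_eq_left.2 fun y hy => ⟨hy m (Nat.lt_succ_self m), ?_⟩
        rw [← hm.2] at hy; exact hy.1
      rw [← mul_apply_eq_comp (E _) (E S), ← mul_apply_eq_comp, mul_assoc _ (E (C _ _)), e1,
        mul_sub, key _ hm.1 hm.2, sub_zero]
    have h5 : Tendsto (fun m => (E Sᶜ * t * E (C (m + 1) a))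
        (E {y : Y | y.2 m = a m} (E S η))) atTop (𝓝 0) := by
      have := (tendsto_zero_iff_norm_tendsto_zero.1 (E_small a (E S η))).const_mul ‖E Sᶜ * t‖
      rw [mul_zero] at this
      refine squeeze_zero_norm (fun k => ?_) this
      refine (ContinuousLinearMap.le_opNorm _ _).trans
        (mul_le_mul_of_nonneg_right ?_ (norm_nonneg _))
      exact (norm_mul_le _ _).trans
        (mul_le_of_le_one_right (norm_nonneg _) (norm_E_le (clopen_C _ _)))
    exact tendsto_nhds_unique (tendsto_const_nhds.congr' h4) h5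
  rw [E_compl hc] at h2
  rw [← sub_eq_zero, ← neg_eq_zero, ← h2]; noncomm_ring

end Pool.Agent.H99.MT
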