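import Mathlib
import Pool.Agent.H99.MT4

set_option autoImplicit false

open MeasureTheory Filter Topology
open scoped ENNReal InnerProductSpace

namespace Pool.Agent.H99.MT

noncomputable def KP : Submodule ℂ H := Q.ker

instance : CompleteSpace KP := Q.isClosed_ker.completeSpace_coe

lemma proj_eq : KP.subtypeL ∘L KP.orthogonalProjectionOnto = P := by
  ext1 ξ
  change KP.starProjection ξ = P ξ
  apply Submodule.eq_starProjection_of_mem_of_inner_eq_zero
  · change Q (P ξ) = 0
    rw [← mul_apply_eq_comp, QP]; rfl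
  · intro w hw
    have hw' : Q w = 0 := hw
    have : ξ - P ξ = Q ξ := by rw [Q_eq]; rfl
    rw [this, ← ContinuousLinearMap.adjoint_inner_right, ← ContinuousLinearMap.star_eq_adjoint,
      Q_star, hw', inner_zero_right]

noncomputable def up (x : KP →L[ℂ] KP) : R := KP.subtypeL ∘L x ∘L KP.orthogonalProjectionOnto

noncomputable def dn (a : R) : KP →L[ℂ] KP := KP.orthogonalProjectionOnto ∘L a ∘L KP.subtypeL

lemma up_mul (x y : KP →L[ℂ] KP) : up (x * y) = up x * up y := by
  ext1 ξ
  simp only [up, mul_apply_eq_comp, ContinuousLinearMap.comp_apply, Submodule.subtypeL_apply,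
    Submodule.orthogonalProjectionOnto_mem_subspace_eq_self]

lemma up_one : up 1 = P := by rw [← proj_eq]; rfl

lemma up_add (x y : KP →L[ℂ] KP) : up (x + y) = up x + up y := by
  simp only [up, ContinuousLinearMap.comp_add, ContinuousLinearMap.add_comp]

lemma up_smul (c : ℂ) (x : KP →L[ℂ] KP) : up (c • x) = c • up x := by
  simp only [up, ContinuousLinearMap.comp_smul, ContinuousLinearMap.smul_comp]

lemma up_star (x : KP →L[ℂ] KP) : up (star x) = star (up x) := by
  simp only [up, ContinuousLinearMap.star_eq_adjoint, ContinuousLinearMap.adjoint_comp,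
    Submodule.adjoint_subtypeL, Submodule.adjoint_orthogonalProjectionOnto,
    ContinuousLinearMap.comp_assoc]

lemma up_dn (a : R) : up (dn a) = P * a * P := by rw [← proj_eq]; rfl

lemma dn_up (x : KP →L[ℂ] KP) : dn (up x) = x := by
  ext1 ξ
  simp only [up, dn, ContinuousLinearMap.comp_apply, Submodule.subtypeL_apply,
    Submodule.orthogonalProjectionOnto_mem_subspace_eq_self]

lemma up_inj {x y : KP →L[ℂ] KP} (h : up x = up y) : x = y := by rw [← dn_up x, h, dn_up]

lemma P_up (x : KP →L[ℂ] KP) : P * up x = up x := by rw [← up_one, ← up_mul, one_mul]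
lemma up_P (x : KP →L[ℂ] KP) : up x * P = up x := by rw [← up_one, ← up_mul, mul_one]

lemma P_Alg : P ∈ Alg := Com_Alg (D_Com P_D)

def BB : Subalgebra ℂ (KP →L[ℂ] KP) where
  carrier := {x | up x ∈ Alg}
  mul_mem' := fun ha hb => by
    simp only [Set.mem_ofPred_eq] at *
    rw [up_mul]; exact Alg.mul_mem ha hb
  add_mem' := fun ha hb => by
    simp only [Set.mem_ofPred_eq] at *
    rw [up_add]; exact Alg.add_mem ha hb
  algebraMap_mem' := fun r => by
    simp only [Set.mem_ofPred_eq]
    rw [Algebra.algebraMap_eq_smul_one, up_smul, up_one]; exact Alg.smul_mem P_Alg _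

lemma D_mul {a b : R} (ha : a ∈ D) (hb : b ∈ D) : a * b ∈ D := fun g => by
  rw [mul_assoc, hb g, ← mul_assoc, ha g, mul_assoc]

lemma BB_diag : {x | x ∈ BB ∧ star x ∈ BB} = {x | up x ∈ D} := by
  ext x
  constructor
  · rintro ⟨h1, h2⟩
    have h2' : up (star x) ∈ Alg := h2
    rw [up_star] at h2'
    exact D_of_Com (Com_of_star h1 h2') (by rw [P_up, up_P])
  · intro h
    refine ⟨Com_Alg (D_Com h), ?_⟩
    change up (star x) ∈ Alg
    rw [up_star]; exact Com_Alg (D_Com (D_star h))

lemma BB_tri : Set.centralizer {x | x ∈ BB ∧ star x ∈ BB} = {x | x ∈ BB ∧ star x ∈ BB} := by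
  rw [BB_diag]
  ext y
  constructor
  · intro h g
    have hd : up (dn (Mc g)) ∈ D := by
      rw [up_dn]; exact D_mul (D_mul P_D (Mc_mem_D g)) P_D
    have := congrArg up (h _ hd)
    rw [up_mul, up_mul, up_dn, mul_assoc, P_up, ← mul_assoc, ← mul_assoc, up_P, P_D g,
      mul_assoc, P_up, mul_assoc, ← P_D g, ← mul_assoc, up_P] at this
    exact this.symm
  · intro h x hx
    apply up_inj
    rw [up_mul, up_mul]
    exact D_comm hx h

lemma final (T : Subalgebra ℂ R) (h0 : T0 ≤ T) (hd : ∀ x ∈ T, star x ∈ T → x ∈ D)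
    (t : R) (ht : t ∈ T) (h : dn t = dn Wi) : False := by
  have h1 : P * t * P = P * Wi * P := by rw [← up_dn, h, up_dn]
  have hKP := K_comm tau_P
  have hKs := K_comm tau_s
  have hW : P * Wi = Wi * P := by
    have e : (1 - K) * P = P * (1 - K) := by rw [sub_mul, mul_sub, hKP, mul_one, one_mul]
    have e2 : (1 - K) * Wi = 1 := mul_neg_geom_series K norm_K
    calc P * Wi = Wi * (1 - K) * P * Wi := by rw [Wi_mul, one_mul]
      _ = Wi * P * ((1 - K) * Wi) := by rw [mul_assoc Wi, e]; noncomm_ring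
      _ = _ := by rw [e2, mul_one]
  have h2 : P * t * P * (s * (1 - K) * Q) = P * s := by
    have e : s * (1 - K) = (1 - K) * s := by rw [sub_mul, mul_sub, hKs, mul_one, one_mul]
    rw [h1, mul_assoc P, ← hW, ← mul_assoc P P, PP, e]
    calc P * Wi * ((1 - K) * s * Q) = P * (Wi * (1 - K)) * (s * Q) := by noncomm_ring
      _ = _ := by rw [Wi_mul, sQ, mul_one, ← mul_assoc, PP]
  have hP := h0 (D_T0 P_D)
  have h3 : P * s ∈ T := h2 ▸ T.mul_mem (T.mul_mem (T.mul_mem hP ht) hP) (h0 w_T0)
  have h4 := hd _ (h0 v_T0) (by rwa [star_mul, P_star, s_star])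
  have h5 := D_comm h4 P_D
  rw [mul_assoc, PP, sP, ← mul_assoc, PQ, zero_mul] at h5
  have h6 : Q = 0 := by rw [← mul_one Q, ← ss, ← mul_assoc, h5, zero_mul]
  exact E_ne cQ ⟨(1, 0), by simp⟩ (by change Q _ = 0; rw [h6]; rfl)

end Pool.Agent.H99.MT
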