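import Mathlib

set_option autoImplicit false

open Polynomial

namespace Pool.Agent.H99.MinNil

variable {S : Type*} [CommRing S] [Algebra ℚ S]

theorem van (μ : S →ₗ[ℚ] ℚ) (y : S) (t : ℕ) (h : ∀ s, t < s → μ (y ^ s) = 0) (g : ℚ[X])
    (hg : X ^ (t + 1) ∣ g) : μ (aeval y g) = 0 := by
  obtain ⟨k, rfl⟩ := hg
  induction k using Polynomial.induction_on' with
  | add p q hp hq => rw [mul_add, map_add, map_add, hp, hq, add_zero]
  | monomial n c =>
    have : aeval y (X ^ (t + 1) * monomial n c : ℚ[X]) = c • y ^ (t + 1 + n) := by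
      rw [map_mul, aeval_monomial, map_pow, aeval_X, Algebra.smul_def]; ring
    rw [this, map_smul, h _ (by omega), smul_zero]

theorem tri (μ : S →ₗ[ℚ] ℚ) (y : S) (t j : ℕ) (h : ∀ s, t < s → μ (y ^ s) = 0)
    (ht : μ (y ^ t) ≠ 0) (hj : 0 < j) (hjt : ¬ j ∣ t) (k : ℕ) :
    ∃ u : ℚ[X], X ∣ u - 1 ∧ ∀ i, 1 ≤ i → t + 1 ≤ i + k → μ (aeval y ((X ^ j * u) ^ i)) = 0 := by
  induction k with
  | zero =>
    refine ⟨1, by simp, fun i _ hi => van μ y t h _ ?_⟩
    rw [mul_one, ← pow_mul]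
    exact pow_dvd_pow _ (by nlinarith)
  | succ k ih =>
    obtain ⟨u, hu, hi⟩ := ih
    by_cases hk : t ≤ k
    · exact ⟨u, hu, fun i h1 _ => hi i h1 (by omega)⟩
    obtain ⟨i0, hi0⟩ : ∃ i0, t = i0 + k := ⟨t - k, by omega⟩
    have hpos : 1 ≤ i0 := by omega
    by_cases hb : t < j * i0
    · refine ⟨u, hu, fun i h1 h2 => ?_⟩
      rcases Nat.lt_or_ge i0 i with h3 | h3
      · exact hi i h1 (by omega)
      · have : i = i0 := by omega
        subst this
        refine van μ y t h _ ?_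
        rw [mul_pow, ← pow_mul]
        exact Dvd.dvd.mul_right (pow_dvd_pow _ (by omega)) _
    obtain ⟨e, he⟩ : ∃ e, t = j * i0 + e := ⟨t - j * i0, by omega⟩
    have he0 : 1 ≤ e := by
      rcases Nat.eq_zero_or_pos e with h0 | h0
      · exact absurd ⟨i0, by omega⟩ hjt
      · exact h0
    set c : ℚ := -μ (aeval y ((X ^ j * u) ^ i0)) / (i0 * μ (y ^ t)) with hc
    refine ⟨u * (1 + C c * X ^ e), ?_, fun i h1 h2 => ?_⟩
    · have : u * (1 + C c * X ^ e) - 1 = (u - 1) + X ^ e * (C c * u) := by ring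
      rw [this]
      exact dvd_add hu (Dvd.dvd.mul_right (dvd_pow_self _ (by omega)) _)
    rcases Nat.lt_or_ge i0 i with h3 | h3
    · obtain ⟨w, hw⟩ : (C c * X ^ e : ℚ[X]) ∣ (1 + C c * X ^ e) ^ i - 1 ^ i := by
        have := sub_dvd_pow_sub_pow (1 + C c * X ^ e : ℚ[X]) 1 i
        rwa [add_sub_cancel_left] at this
      have e1 : (X ^ j * (u * (1 + C c * X ^ e))) ^ i =
          (X ^ j * u) ^ i + X ^ (j * i + e) * (u ^ i * C c * w) := by
        have : (1 + C c * X ^ e : ℚ[X]) ^ i = 1 + C c * X ^ e * w := by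
          rw [← hw]; ring
        rw [← mul_assoc, mul_pow, this]; ring
      rw [e1, map_add, map_add, hi i h1 (by omega), zero_add]
      refine van μ y t h _ (Dvd.dvd.mul_right (pow_dvd_pow _ ?_) _)
      nlinarith
    · have : i = i0 := by omega
      subst this
      obtain ⟨w, hw⟩ := sq_dvd_add_pow_sub_sub (C c * X ^ e : ℚ[X]) 1 i
      obtain ⟨v, hv⟩ : (X : ℚ[X]) ∣ u ^ i - 1 ^ i := hu.trans (sub_dvd_pow_sub_pow u 1 i)
      obtain ⟨e', rfl⟩ : ∃ e', e = e' + 1 := ⟨e - 1, by omega⟩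
      have e1 : (X ^ j * (u * (1 + C c * X ^ (e' + 1)))) ^ i =
          (X ^ j * u) ^ i + C (c * i) * X ^ t +
            X ^ (t + 1) * (C c * (i : ℚ[X]) * v + u ^ i * C c ^ 2 * X ^ e' * w) := by
        have h4 : (1 + C c * X ^ (e' + 1) : ℚ[X]) ^ i =
            1 + C c * X ^ (e' + 1) * (i : ℚ[X]) + (C c * X ^ (e' + 1)) ^ 2 * w := by
          rw [← hw]; ring
        have h5 : u ^ i = 1 + X * v := by rw [← hv]; ring
        rw [← mul_assoc, mul_pow, h4, mul_pow, map_mul, map_natCast]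
        rw [he]
        linear_combination (X ^ (j * i + (e' + 1)) * C c * (i : ℚ[X])) * h5
      rw [e1, map_add, map_add, map_add, map_add, van μ y t h _ (Dvd.intro _ rfl), add_zero]
      have e2 : aeval y (C (c * i) * X ^ t : ℚ[X]) = (c * i) • y ^ t := by
        rw [map_mul, aeval_C, map_pow, aeval_X, Algebra.smul_def]
      have hi' : (i : ℚ) ≠ 0 := by exact_mod_cast (by omega : i ≠ 0)
      rw [e2, map_smul, smul_eq_mul, hc]
      field_simp
      ring

theorem single (μ : S →ₗ[ℚ] ℚ) (y : S) (n : ℕ) (hy : IsNilpotent y) (hn : y ^ ((n + 2) ^ 2) ≠ 0) :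
    ∃ q : ℚ[X], X ∣ q ∧ (aeval y q) ^ n ≠ 0 ∧ ∀ i, 1 ≤ i → μ ((aeval y q) ^ i) = 0 := by
  classical
  by_cases h0 : ∀ s, 1 ≤ s → μ (y ^ s) = 0
  · refine ⟨X, dvd_rfl, ?_, fun i hi => by simpa using h0 i hi⟩
    rw [aeval_X]
    intro h
    exact hn (pow_eq_zero_of_le (by nlinarith) h)
  push Not at h0
  obtain ⟨s0, hs0, hs1⟩ := h0
  set N := Nat.find hy with hN
  have hyN : y ^ N = 0 := Nat.find_spec hy
  have hlt : ∀ s, μ (y ^ s) ≠ 0 → s < N := fun s hs => by
    by_contra hh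
    exact hs (by rw [pow_eq_zero_of_le (not_lt.1 hh) hyN, map_zero])
  set t := Nat.findGreatest (fun s => μ (y ^ s) ≠ 0) N with ht
  have ht1 : μ (y ^ t) ≠ 0 := Nat.findGreatest_spec (P := fun s => μ (y ^ s) ≠ 0) (hlt s0 hs1).le hs1
  have ht2 : ∀ s, t < s → μ (y ^ s) = 0 := fun s hs => by
    by_contra hh
    exact absurd (Nat.le_findGreatest (P := fun s => μ (y ^ s) ≠ 0) (hlt s hh).le hh) (by omega)
  have ht0 : 0 < t := lt_of_lt_of_le hs0
    (Nat.le_findGreatest (P := fun s => μ (y ^ s) ≠ 0) (hlt s0 hs1).le hs1)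
  have hNn : (n + 2) ^ 2 ≤ N := by
    by_contra hh
    exact hn (pow_eq_zero_of_le (by omega) hyN)
  have hs : n + 2 ≤ Nat.sqrt N := Nat.le_sqrt'.2 hNn
  have hs2 := Nat.sqrt_le' N
  have hs3 := Nat.lt_succ_sqrt' N
  obtain ⟨j, hj0, hj1, hj2⟩ : ∃ j, 0 < j ∧ j ≤ Nat.sqrt N + 2 ∧ ¬ j ∣ t := by
    by_contra hh
    push Not at hh
    have h1 := hh (Nat.sqrt N + 1) (by omega) (by omega)
    have h2 := hh (Nat.sqrt N + 1 + 1) (by omega) (by omega)
    have h3 := Nat.le_of_dvd ht0 (Nat.Coprime.mul_dvd_of_dvd_of_dvd (by simp) h1 h2)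
    have h4 := hlt t ht1
    simp only [Nat.succ_eq_add_one] at hs3
    nlinarith
  obtain ⟨u, hu, hi⟩ := tri μ y t j ht2 ht1 hj0 hj2 t
  refine ⟨X ^ j * u, Dvd.dvd.mul_right (dvd_pow_self _ (by omega)) _, ?_, fun i h1 => ?_⟩
  · obtain ⟨v, hv⟩ := hu
    have hunit : IsUnit (aeval y u) := by
      have : aeval y u = 1 + y * aeval y v := by
        have h5 : u = 1 + X * v := by rw [← hv]; ring
        rw [h5]; simp
      rw [this]
      exact IsNilpotent.isUnit_one_add ((Commute.all _ _).isNilpotent_mul_right hy)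
    rw [map_mul, map_pow, aeval_X, mul_pow, ← pow_mul]
    intro h
    rw [(hunit.pow n).mul_left_eq_zero] at h
    exact Nat.find_min hy (show j * n < N by nlinarith) h
  · rw [← map_pow]; exact hi i h1 (by omega)

theorem multi (K : Ideal S) (ψ : S →ₗ[ℚ] ℚ) (hK : ∀ y ∈ K, IsNilpotent y)
    (hu : ∀ n, ∃ y ∈ K, y ^ n ≠ 0) (F : Finset S) :
    ∀ n, ∃ p ∈ K, p ^ n ≠ 0 ∧ ∀ r ∈ F, ∀ i, 1 ≤ i → ψ (r * p ^ i) = 0 := by
  classical
  induction F using Finset.induction_on with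
  | empty => intro n; obtain ⟨y, h1, h2⟩ := hu n; exact ⟨y, h1, h2, by simp⟩
  | insert r F _ ih =>
    intro n
    obtain ⟨y, h1, h2, h3⟩ := ih ((n + 2) ^ 2)
    obtain ⟨q, hq, h4, h5⟩ := single (ψ ∘ₗ LinearMap.mulLeft ℚ r) y n (hK y h1) h2
    refine ⟨aeval y q, ?_, h4, fun r' hr i hi => ?_⟩
    · obtain ⟨v, rfl⟩ := hq
      rw [map_mul, aeval_X]
      exact K.mul_mem_right _ h1
    rcases Finset.mem_insert.1 hr with rfl | hr
    · exact h5 i hi
    · rw [← map_pow]
      exact van (ψ ∘ₗ LinearMap.mulLeft ℚ r') y 0 (fun s hs => h3 r' hr s hs) _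
        (by simpa using dvd_pow hq (by omega))

theorem step (K : Ideal S) (ψ : S →ₗ[ℚ] ℚ) (hK : ∀ y ∈ K, IsNilpotent y)
    (hu : ∀ n, ∃ y ∈ K, y ^ n ≠ 0) (n : ℕ)
    (F : {F : Submonoid S // (F : Set S).Finite ∧ ∀ r ∈ F, ψ r = 0}) :
    ∃ G : {F : Submonoid S // (F : Set S).Finite ∧ ∀ r ∈ F, ψ r = 0},
      F.1 ≤ G.1 ∧ ∃ p ∈ K, p ∈ G.1 ∧ p ^ n ≠ 0 := by
  obtain ⟨F, hF, hψ⟩ := F
  obtain ⟨p, h1, h2, h3⟩ := multi K ψ hK hu hF.toFinset n
  obtain ⟨N, hN⟩ := hK p h1
  refine ⟨⟨F ⊔ Submonoid.powers p, ?_, ?_⟩, le_sup_left, p, h1,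
    (le_sup_right : Submonoid.powers p ≤ _) (Submonoid.mem_powers p), h2⟩
  · refine ((hF.prod (Set.finite_le_nat N)).image fun z => z.1 * p ^ z.2).subset ?_
    intro x hx
    obtain ⟨a, ha, b, ⟨i, rfl⟩, rfl⟩ := Submonoid.mem_sup.1 hx
    by_cases hi : i ≤ N
    · exact ⟨(a, i), ⟨ha, hi⟩, rfl⟩
    · refine ⟨(a, N), ⟨ha, le_refl N⟩, ?_⟩
      simp only [hN, pow_eq_zero_of_le (not_le.1 hi).le hN]
  · intro x hx
    obtain ⟨a, ha, b, ⟨i, rfl⟩, rfl⟩ := Submonoid.mem_sup.1 hx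
    rcases Nat.eq_zero_or_pos i with rfl | hi
    · simpa using hψ a ha
    · exact h3 a (hF.mem_toFinset.2 ha) i hi

theorem big (K : Ideal S) (ψ : S →ₗ[ℚ] ℚ) (h1 : ψ 1 = 0) (hK : ∀ y ∈ K, IsNilpotent y)
    (hu : ∀ n, ∃ y ∈ K, y ^ n ≠ 0) :
    ∃ G : Submonoid S, (∀ r ∈ G, ψ r = 0) ∧ ∀ n, ∃ p ∈ K, p ∈ G ∧ p ^ n ≠ 0 := by
  choose g hg using step K ψ hK hu
  let F : ℕ → {F : Submonoid S // (F : Set S).Finite ∧ ∀ r ∈ F, ψ r = 0} := fun n =>
    Nat.rec ⟨⊥, by simp, by simpa using h1⟩ (fun n G => g n G) n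
  have hm : Monotone fun n => (F n).1 := monotone_nat_of_le_succ fun n => (hg n (F n)).1
  refine ⟨⨆ n, (F n).1, fun r hr => ?_, fun n => ?_⟩
  · obtain ⟨n, hn⟩ := (Submonoid.mem_iSup_of_directed hm.directed_le).1 hr
    exact (F n).2.2 r hn
  · obtain ⟨p, h2, h3, h4⟩ := (hg n (F n)).2
    exact ⟨p, h2, (le_iSup (fun n => (F n).1) (n + 1)) h3, h4⟩

theorem polar (K : Ideal S) (w : S) (m : ℕ) (h : ∀ x ∈ K, x ^ (m + 1) * w = 0) :
    ∀ x ∈ K, ∀ y ∈ K, x ^ m * (y * w) = 0 := by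
  intro x hx y hy
  rw [← Module.forall_dual_apply_eq_zero_iff ℚ]
  intro φ
  let G : ℚ[X] := ∑ k ∈ Finset.range (m + 2),
    monomial k (φ (y ^ k * x ^ (m + 1 - k) * ((m + 1).choose k) * w))
  have hG : G = 0 := by
    refine Polynomial.funext fun t => ?_
    have h1 := h (t • y + x) (K.add_mem (by rw [Algebra.smul_def]; exact K.mul_mem_left _ hy) hx)
    have h2 := congrArg φ h1
    rw [add_pow, Finset.sum_mul, map_sum, map_zero] at h2
    rw [eval_finsetSum, eval_zero, ← h2]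
    refine Finset.sum_congr rfl fun k _ => ?_
    rw [eval_monomial, _root_.smul_pow, smul_mul_assoc, smul_mul_assoc, smul_mul_assoc, map_smul,
      smul_eq_mul, mul_comm]
  have h3 := congrArg (fun P : ℚ[X] => P.coeff 1) hG
  simp only [G, finsetSum_coeff, coeff_monomial, Finset.sum_ite_eq', Finset.mem_range,
    coeff_zero] at h3
  rw [if_pos (by omega), Nat.choose_one_right] at h3
  have h4 : y ^ 1 * x ^ (m + 1 - 1) * ((m + 1 : ℕ) : S) * w =
      ((m + 1 : ℕ) : ℚ) • (x ^ m * (y * w)) := by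
    rw [Algebra.smul_def, map_natCast, Nat.add_sub_cancel]; ring
  rw [h4, map_smul, smul_eq_zero] at h3
  exact h3.resolve_left (by positivity)

theorem polar2 (K : Ideal S) (m : ℕ) : ∀ w : S, (∀ x ∈ K, x ^ m * w = 0) →
    ∀ l : List S, (∀ x ∈ l, x ∈ K) → l.length = m → l.prod * w = 0 := by
  induction m with
  | zero =>
    intro w h l _ hl
    have := h 0 K.zero_mem
    rw [pow_zero, one_mul] at this
    rw [this, mul_zero]
  | succ m ih =>
    intro w h l hl hm
    obtain _ | ⟨y, l⟩ := l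
    · simp at hm
    have := ih (y * w) (fun x hx => polar K w m h x hx y (hl y (by simp))) l
      (fun x hx => hl x (by simp [hx])) (by simpa using hm)
    rw [List.prod_cons, ← this]; ring

section Main

variable {A : Type*} [NonUnitalCommRing A] [Module ℚ A] [IsScalarTower ℚ A A]
  [SMulCommClass ℚ A A]

theorem fold_inr (l : List A) : ∀ a : A,
    ((l.foldl (fun x y => x * y) a : A) : Unitization ℚ A) =
      (a : Unitization ℚ A) * (l.map fun x : A => (x : Unitization ℚ A)).prod := by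
  induction l with
  | nil => intro a; simp
  | cons b l ih =>
    intro a
    rw [List.foldl_cons, ih, List.map_cons, List.prod_cons, Unitization.inr_mul, mul_assoc]

theorem pow_zero_of {B : NonUnitalSubalgebra ℚ A} {n : ℕ}
    (h : ∀ a ∈ B, ∀ l : List A, (∀ x ∈ l, x ∈ B) → l.length = n →
      l.foldl (fun x y => x * y) a = 0) {p : A} (hp : p ∈ B) :
    (p : Unitization ℚ A) ^ (n + 1) = 0 := by
  have := congrArg (fun x : A => (x : Unitization ℚ A)) (h p hp (List.replicate n p)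
    (fun x hx => by rw [List.eq_of_mem_replicate hx]; exact hp) (by simp))
  simp only [fold_inr, List.map_replicate, List.prod_replicate, Unitization.inr_zero] at this
  rw [pow_succ', this]

theorem main (hr : 1 < Module.rank ℚ A)
    (h : ∀ B : NonUnitalSubalgebra ℚ A, B ≠ ⊤ →
      ∃ n : ℕ, ∀ a ∈ B, ∀ l : List A, (∀ x ∈ l, x ∈ B) → l.length = n →
        l.foldl (fun x y => x * y) a = 0) :
    ∃ n : ℕ, ∀ a : A, ∀ l : List A, l.length = n → l.foldl (fun x y => x * y) a = 0 := by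
  let K : Ideal (Unitization ℚ A) := RingHom.ker (Unitization.fstHom ℚ A)
  have hKA : ∀ y : A, (y : Unitization ℚ A) ∈ K := fun y => by
    simp [K, RingHom.mem_ker]
  have hAK : ∀ y ∈ K, ∃ a : A, (a : Unitization ℚ A) = y := fun y hy => by
    refine ⟨y.snd, ?_⟩
    have h1 : y.fst = 0 := by simpa [K, RingHom.mem_ker] using hy
    ext <;> simp [h1]
  have hK : ∀ y ∈ K, IsNilpotent y := by
    intro y' hy'
    obtain ⟨y, rfl⟩ := hAK y' hy'
    by_contra hy
    let B : NonUnitalSubalgebra ℚ A :=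
      { carrier := {x | ∃ g : Unitization ℚ A, (x : Unitization ℚ A) = (y : Unitization ℚ A) ^ 2 * g}
        add_mem' := by
          rintro a b ⟨g, hg⟩ ⟨k, hk⟩
          exact ⟨g + k, by rw [Unitization.inr_add, hg, hk, mul_add]⟩
        zero_mem' := ⟨0, by simp⟩
        mul_mem' := by
          rintro a b ⟨g, hg⟩ _
          exact ⟨g * b, by rw [Unitization.inr_mul, hg, mul_assoc]⟩
        smul_mem' := by
          rintro c a ⟨g, hg⟩
          exact ⟨c • g, by rw [Unitization.inr_smul, hg, mul_smul_comm]⟩ }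
    have hB : B = ⊤ := by
      by_contra hB
      obtain ⟨n, hn⟩ := h B hB
      have := pow_zero_of hn (p := y * y) ⟨1, by rw [Unitization.inr_mul, mul_one, sq]⟩
      rw [Unitization.inr_mul, ← sq, ← pow_mul] at this
      exact hy ⟨_, this⟩
    obtain ⟨g, hg⟩ : y ∈ B := by rw [hB]; trivial
    obtain ⟨e, he⟩ := hAK ((y : Unitization ℚ A) * g) (K.mul_mem_right _ (hKA y))
    have hee : e * e = e := by
      apply Unitization.inr_injective (R := ℚ)
      simp only [Unitization.inr_mul, he]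
      linear_combination (-g) * hg
    let D : NonUnitalSubalgebra ℚ A :=
      { carrier := {x | ∃ c : ℚ, c • e = x}
        add_mem' := by
          rintro a b ⟨c, rfl⟩ ⟨d, rfl⟩
          exact ⟨c + d, add_smul _ _ _⟩
        zero_mem' := ⟨0, zero_smul _ _⟩
        mul_mem' := by
          rintro a b ⟨c, rfl⟩ ⟨d, rfl⟩
          exact ⟨c * d, by rw [smul_mul_assoc, mul_smul_comm, hee, mul_smul]⟩
        smul_mem' := by
          rintro c a ⟨d, rfl⟩
          exact ⟨c * d, mul_smul _ _ _⟩ }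
    have hD : D = ⊤ := by
      by_contra hD
      obtain ⟨n, hn⟩ := h D hD
      have h1 := pow_zero_of hn (p := e) ⟨1, one_smul _ _⟩
      have h2 : IsIdempotentElem (e : Unitization ℚ A) := by
        rw [IsIdempotentElem, ← Unitization.inr_mul, hee]
      rw [h2.pow_succ_eq] at h1
      refine hy ⟨1, ?_⟩
      rw [pow_one, hg, sq, mul_assoc, ← he, h1, mul_zero]
    have : Module.rank ℚ A ≤ 1 := rank_le_one_iff.2 ⟨e, fun v => by
      have hv : v ∈ D := by rw [hD]; trivial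
      exact hv⟩
    exact absurd hr (not_lt.2 this)
  by_cases hu : ∀ n, ∃ y ∈ K, y ^ n ≠ 0
  · exfalso
    obtain ⟨y, hy, hy1⟩ := hu 1
    obtain ⟨a, rfl⟩ := hAK y hy
    have ha : a ≠ 0 := by rintro rfl; simp at hy1
    obtain ⟨φ, hφ⟩ : ∃ φ : Module.Dual ℚ A, φ a ≠ 0 := by
      by_contra hh
      push Not at hh
      exact ha ((Module.forall_dual_apply_eq_zero_iff ℚ a).1 hh)
    obtain ⟨G, hG, hG2⟩ := big K (φ ∘ₗ Unitization.sndHom ℚ ℚ A) (by simp) hK hu
    let B : NonUnitalSubalgebra ℚ A :=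
      { carrier := {x | (x : Unitization ℚ A) ∈ Submodule.span ℚ (G : Set (Unitization ℚ A))}
        add_mem' := by
          intro a b ha hb
          rw [Set.mem_ofPred_eq, Unitization.inr_add]
          exact add_mem ha hb
        zero_mem' := by simp
        mul_mem' := by
          intro a b ha hb
          rw [Set.mem_ofPred_eq, Unitization.inr_mul]
          have ha' : (a : Unitization ℚ A) ∈ Submodule.span ℚ (G : Set (Unitization ℚ A)) := ha
          have hb' : (b : Unitization ℚ A) ∈ Submodule.span ℚ (G : Set (Unitization ℚ A)) := hb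
          have := Submodule.mul_mem_mul ha' hb'
          rwa [Submodule.span_mul_span, Submonoid.coe_mul_self_eq] at this
        smul_mem' := by
          intro c a ha
          rw [Set.mem_ofPred_eq, Unitization.inr_smul]
          exact Submodule.smul_mem _ _ ha }
    have hB : B ≠ ⊤ := by
      intro hB
      have h1 : a ∈ B := by rw [hB]; trivial
      have h2 : Submodule.span ℚ (G : Set (Unitization ℚ A)) ≤
          LinearMap.ker (φ ∘ₗ Unitization.sndHom ℚ ℚ A) := Submodule.span_le.2 hG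
      exact hφ (by simpa using h2 h1)
    obtain ⟨n, hn⟩ := h B hB
    obtain ⟨p', h1, h2, h3⟩ := hG2 (n + 1)
    obtain ⟨p, rfl⟩ := hAK p' h1
    exact h3 (pow_zero_of hn (p := p) (Submodule.subset_span h2))
  · push Not at hu
    obtain ⟨n, hn⟩ := hu
    refine ⟨n, fun a l hl => ?_⟩
    apply Unitization.inr_injective (R := ℚ)
    have := polar2 K n 1 (fun x hx => by rw [hn x hx, zero_mul])
      (l.map fun x : A => (x : Unitization ℚ A))
      (fun x hx => by obtain ⟨b, _, rfl⟩ := List.mem_map.1 hx; exact hKA b) (by simpa using hl)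
    rw [mul_one] at this
    simp only [fold_inr, this, mul_zero, Unitization.inr_zero]

end Main

end Pool.Agent.H99.MinNil
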