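import Pool.Agent.H99.MinNil

set_option autoImplicit false

namespace Pool.Agent.H99.MinNil

variable {A C : Type*} [NonUnitalRing A] [Module ℚ A] [IsScalarTower ℚ A A] [SMulCommClass ℚ A A]
  [NonUnitalCommRing C] [Module ℚ C] [IsScalarTower ℚ C C] [SMulCommClass ℚ C C]

theorem fold_mul {R : Type*} [NonUnitalRing R] (l : List R) : ∀ a b : R,
    l.foldl (fun x y => x * y) (a * b) = a * l.foldl (fun x y => x * y) b := by
  induction l with
  | nil => intro a b; rfl
  | cons c l ih => intro a b; rw [List.foldl_cons, List.foldl_cons, mul_assoc, ih]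

omit [IsScalarTower ℚ A A] [SMulCommClass ℚ A A] [IsScalarTower ℚ C C] [SMulCommClass ℚ C C] in
theorem fold_map (f : A →ₙₐ[ℚ] C) (l : List A) : ∀ a : A,
    f (l.foldl (fun x y => x * y) a) = (l.map f).foldl (fun x y => x * y) (f a) := by
  induction l with
  | nil => intro a; rfl
  | cons c l ih => intro a; rw [List.foldl_cons, ih, List.map_cons, List.foldl_cons, map_mul]

theorem chunk {R : Type*} [NonUnitalRing R] (K : Set R) (n : ℕ)
    (h : ∀ a : R, ∀ l : List R, l.length = n → l.foldl (fun x y => x * y) a ∈ K) (j : ℕ) :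
    ∀ a : R, ∀ l : List R, l.length = n + (n + 1) * j → ∃ b ∈ K, ∃ l' : List R,
      (∀ x ∈ l', x ∈ K) ∧ l'.length = j ∧
        l.foldl (fun x y => x * y) a = l'.foldl (fun x y => x * y) b := by
  induction j with
  | zero => intro a l hl; exact ⟨_, h a l (by simpa using hl), [], by simp, rfl, rfl⟩
  | succ j ih =>
    intro a l hl
    have h1 : (l.take n).length = n := by rw [List.length_take]; apply min_eq_left; omega
    have h2 : (l.drop n).length = n + (n + 1) * j + 1 := by
      rw [List.length_drop, hl]; ring_nf; omega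
    rw [← List.take_append_drop n l, List.foldl_append]
    generalize l.drop n = l3 at h2 ⊢
    obtain _ | ⟨c, l2⟩ := l3
    · simp at h2
    obtain ⟨b, hb, l', h3, h4, h5⟩ := ih c l2 (by simpa using h2)
    refine ⟨_, h a _ h1, b :: l', ?_, by simp [h4], ?_⟩
    · intro x hx
      rcases List.mem_cons.1 hx with rfl | hx
      · exact hb
      · exact h3 x hx
    · rw [List.foldl_cons, List.foldl_cons, fold_mul, fold_mul, h5]

theorem main2 (hr : 1 < Module.rank ℚ A)
    (h : ∀ B : NonUnitalSubalgebra ℚ A, B ≠ ⊤ →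
      ∃ n : ℕ, ∀ a ∈ B, ∀ l : List A, (∀ x ∈ l, x ∈ B) → l.length = n →
        l.foldl (fun x y => x * y) a = 0)
    [Nontrivial C] (f : A →ₙₐ[ℚ] C) (hf : Function.Surjective f) :
    ∃ n : ℕ, ∀ a : A, ∀ l : List A, l.length = n → l.foldl (fun x y => x * y) a = 0 := by
  have hbot : ∀ c : C, c ∈ (⊥ : NonUnitalSubalgebra ℚ C) ↔ c = 0 := fun c =>
    NonUnitalAlgebra.mem_bot
  have fin : (∃ n : ℕ, ∀ a : C, ∀ l : List C, l.length = n → l.foldl (fun x y => x * y) a = 0) →
      ∃ n : ℕ, ∀ a : A, ∀ l : List A, l.length = n → l.foldl (fun x y => x * y) a = 0 := by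
    rintro ⟨n, hn⟩
    obtain ⟨k, hk⟩ := h ((⊥ : NonUnitalSubalgebra ℚ C).comap f) (by
      intro hK
      obtain ⟨c, hc⟩ := exists_ne (0 : C)
      obtain ⟨a, rfl⟩ := hf c
      have : a ∈ (⊥ : NonUnitalSubalgebra ℚ C).comap f := by rw [hK]; trivial
      exact hc (hbot _ |>.1 this))
    refine ⟨n + (n + 1) * k, fun a l hl => ?_⟩
    obtain ⟨b, hb, l', h1, h2, h3⟩ := chunk {x | f x = 0} n
      (fun a l hl => by
        show f _ = 0
        rw [fold_map]; exact hn _ _ (by simpa using hl)) k a l hl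
    rw [h3]
    exact hk b ((hbot _).2 hb) l' (fun x hx => (hbot _).2 (h1 x hx)) h2
  by_cases hC : 1 < Module.rank ℚ C
  · refine fin (main hC fun B hB => ?_)
    obtain ⟨n, hn⟩ := h (B.comap f) (by
      intro hK
      refine hB (eq_top_iff.2 fun c _ => ?_)
      obtain ⟨a, rfl⟩ := hf c
      have : a ∈ B.comap f := by rw [hK]; trivial
      exact this)
    refine ⟨n, fun a ha l hl hlen => ?_⟩
    obtain ⟨a', rfl⟩ := hf a
    obtain ⟨l', rfl⟩ := (List.map_surjective_iff.2 hf) l
    rw [← fold_map, hn a' ha l' (fun x hx => hl _ (List.mem_map_of_mem hx)) (by simpa using hlen),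
      map_zero]
  obtain ⟨e, he⟩ := rank_le_one_iff.1 (not_lt.1 hC)
  by_cases h0 : e * e = 0
  · refine fin ⟨1, fun a l hl => ?_⟩
    obtain ⟨b, rfl⟩ := List.length_eq_one_iff.1 hl
    obtain ⟨c, rfl⟩ := he a
    obtain ⟨d, rfl⟩ := he b
    simp only [List.foldl_cons, List.foldl_nil, smul_mul_assoc, mul_smul_comm, h0, smul_zero]
  obtain ⟨c, hc⟩ := he (e * e)
  have hc0 : c ≠ 0 := by rintro rfl; exact h0 (by rw [← hc, zero_smul])
  have he0 : e ≠ 0 := by rintro rfl; exact h0 (mul_zero _)
  have hpow : ∀ n : ℕ, (List.replicate n e).foldl (fun x y => x * y) e = c ^ n • e := by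
    intro n
    induction n with
    | zero => simp
    | succ n ih =>
      rw [List.replicate_succ, List.foldl_cons, fold_mul, ih, mul_smul_comm, ← hc, smul_smul,
        pow_succ]
  obtain ⟨y, hy⟩ := hf e
  have top : ∀ B : NonUnitalSubalgebra ℚ A, y ∈ B → B = ⊤ := fun B hB => by
    by_contra hh
    obtain ⟨n, hn⟩ := h B hh
    have := congrArg f (hn y hB (List.replicate n y)
      (fun x hx => by rw [List.eq_of_mem_replicate hx]; exact hB) (by simp))
    rw [fold_map, List.map_replicate, hy, hpow, map_zero] at this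
    exact smul_ne_zero (pow_ne_zero _ hc0) he0 this
  have h1 := top (NonUnitalSubalgebra.centralizer ℚ {y}) (by
    rw [NonUnitalSubalgebra.mem_centralizer_iff]; rintro _ rfl; rfl)
  have h2 := top (NonUnitalSubalgebra.center ℚ A) (by
    rw [NonUnitalSubalgebra.mem_center_iff]
    intro b
    have : b ∈ NonUnitalSubalgebra.centralizer ℚ ({y} : Set A) := by rw [h1]; trivial
    exact ((NonUnitalSubalgebra.mem_centralizer_iff ℚ).1 this y rfl).symm)
  have hcomm : ∀ a b : A, a * b = b * a := fun a b => by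
    have : b ∈ NonUnitalSubalgebra.center ℚ A := by rw [h2]; trivial
    exact NonUnitalSubalgebra.mem_center_iff.1 this a
  let inst : NonUnitalCommRing A := { ‹NonUnitalRing A› with mul_comm := hcomm }
  exact @main A inst _ _ _ hr h

end Pool.Agent.H99.MinNil
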