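import Mathlib
import Pool.Agent.H99.Mor2

set_option autoImplicit false

open MeasureTheory Set Filter Topology Metric
open scoped InnerProductSpace ContDiff Manifold

namespace H99.Mor

variable {p q : ℝ} {u w : E → ℝ} {G H : E → E}

lemma ballI (q0 : 0 < q) (ha : 0 < 3 - 2 * q) {R : ℝ} (hR : 0 < R) :
    ∫⁻ y in ball (0 : E) R, ENNReal.ofReal (‖y‖ ^ (-2 * q)) =
      ENNReal.ofReal (3 * v0 * (R ^ (3 - 2 * q) / (3 - 2 * q))) := by
  have := radial ha le_rfl hR.le
  rw [Real.zero_rpow ha.ne', sub_zero] at this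
  rw [← this, ← lintegral_indicator measurableSet_ball]
  congr 1; funext y
  by_cases h : y ∈ ball (0 : E) R
  · rw [indicator_of_mem h]
    by_cases y0 : y = 0
    · have : -(2 * q) ≠ 0 := by linarith
      simp [y0, Real.zero_rpow this]
    · rw [indicator_of_mem (show ‖y‖ ∈ Ioo 0 R from ⟨norm_pos_iff.2 y0, by simpa using h⟩)]
      congr 2; ring
  · rw [indicator_of_notMem h, indicator_of_notMem fun k => h (by simpa using k.2)]; simp

lemma half {a b : ENNReal} {T : ℝ} (hT : 0 ≤ T) (e : a = b) (h : a + b ≤ ENNReal.ofReal T) :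
    a ≤ ENNReal.ofReal (T / 2) := by
  by_contra k
  push Not at k
  have := (ENNReal.add_lt_add k (e ▸ k)).trans_le h
  rw [← ENNReal.ofReal_add (by positivity) (by positivity), add_halves] at this
  exact lt_irrefl _ this

lemma halfI (q0 : 0 < q) (ha : 0 < 3 - 2 * q) {R : ℝ} (hR : 0 < R) (ν : E) :
    ∫⁻ y in {y | 0 < ⟪ν, y⟫_ℝ} ∩ ball (0 : E) R, ENNReal.ofReal (‖y‖ ^ (-2 * q)) ≤
      ENNReal.ofReal (3 * v0 * (R ^ (3 - 2 * q) / (3 - 2 * q)) / 2) := by
  have m : ∀ ν : E, MeasurableSet ({y | 0 < ⟪ν, y⟫_ℝ} ∩ ball (0 : E) R) := fun ν =>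
    (isOpen_lt continuous_const (by fun_prop)).measurableSet.inter measurableSet_ball
  have := v0_pos
  refine half (b := ∫⁻ y in {y | 0 < ⟪-ν, y⟫_ℝ} ∩ ball (0 : E) R, ENNReal.ofReal (‖y‖ ^ (-2 * q)))
    (by positivity) ?_ ?_
  · rw [← lintegral_indicator (m _), ← lintegral_indicator (m _), ← lintegral_neg_eq_self]
    congr 1; funext y
    simp [indicator]
  · rw [← lintegral_union (m _), ← ballI q0 ha hR]
    · exact lintegral_mono_set (union_subset inter_subset_right inter_subset_right)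
    · refine disjoint_left.2 fun y a b => ?_
      have a1 : 0 < ⟪ν, y⟫_ℝ := a.1
      have b1 : 0 < ⟪-ν, y⟫_ℝ := b.1
      rw [inner_neg_left] at b1; linarith

lemma cut {K U : Set E} (hK : IsClosed K) (hU : IsOpen U) (h : K ⊆ U) {R : ℝ}
    (hR : U ⊆ closedBall 0 R) : ∃ φ : E → ℝ, ContDiff ℝ ∞ φ ∧ HasCompactSupport φ ∧
      (∀ z, |φ z| ≤ 1) ∧ (∀ z, φ z ≠ 0 → z ∈ U) ∧ volume.real K ≤ ∫ z, φ z := by
  obtain ⟨f, f0, f1, f2⟩ := exists_contMDiffMap_zero_one_of_isClosed (n := ⊤) 𝓘(ℝ, E)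
    hU.isClosed_compl hK (disjoint_left.2 fun z a b => a (h b))
  have c : ContDiff ℝ ∞ f := f.contMDiff.contDiff
  have s : HasCompactSupport f :=
    HasCompactSupport.intro (isCompact_closedBall 0 R) fun z hz => f0 fun k => hz (hR k)
  refine ⟨f, c, s, fun z => abs_le.2 ⟨by linarith [(f2 z).1], (f2 z).2⟩,
    fun z hz => by_contra fun k => hz (f0 k), ?_⟩
  have i := c.continuous.integrable_of_hasCompactSupport (μ := volume) s
  calc volume.real K = ∫ z in K, f z := by
        rw [setIntegral_congr_fun hK.measurableSet f1]; simp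
    _ ≤ _ := setIntegral_le_integral i (.of_forall fun z => (f2 z).1)

lemma volB (x : E) {r : ℝ} (hr : 0 ≤ r) : volume.real (closedBall x r) = r ^ 3 * v0 := by
  rw [Measure.addHaar_real_closedBall _ _ hr]; simp [v0]

lemma expo (hpq : p.HolderConjugate q) (hp : 3 < p) :
    0 < 3 - 2 * q ∧ (3 - 2 * q) * (1 / q) = 1 - 3 / p ∧ (3 - 2 * q) * (p - 1) = p - 3 ∧
      1 / q * p = p - 1 := by
  have e := hpq.conjugate_eq
  have : p - 1 ≠ 0 := by linarith
  have : p ≠ 0 := by linarith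
  refine ⟨?_, ?_, ?_, ?_⟩ <;> rw [e]
  · rw [sub_pos, ← mul_div_assoc, div_lt_iff₀ (by linarith)]; linarith
  all_goals field_simp; try ring

theorem morrey (hp : 3 < p) : ∃ C > 0, ∀ (u : E → ℝ) (G : E → E), Continuous u →
    MemLp G (ENNReal.ofReal p) → WG u G → ∀ x x', |u x - u x'| ≤ C * ‖x - x'‖ ^ (1 - 3 / p) * N p G := by
  have hpq := Real.HolderConjugate.conjExponent (show 1 < p by linarith)
  set q := p.conjExponent
  obtain ⟨ha, e1, -, -⟩ := expo hpq hp
  have q0 := hpq.symm.pos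
  have := v0_pos
  refine ⟨128 / 3 / v0 * (3 * v0 / (3 - 2 * q)) ^ (1 / q) * 2 ^ (1 - 3 / p), by positivity,
    fun u G hu hG h x x' => ?_⟩
  by_cases e : x = x'
  · rw [e, sub_self, abs_zero]; have := N_nn p G; positivity
  have l0 : 0 < ‖x - x'‖ := norm_pos_iff.2 (sub_ne_zero.2 e)
  set l := ‖x - x'‖ with hl
  obtain ⟨φ, a, b, c, d, m⟩ := cut (K := closedBall 0 (l / 2)) (U := ball 0 l) isClosed_closedBall
    isOpen_ball (closedBall_subset_ball (by linarith)) ball_subset_closedBall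
  rw [volB _ (by positivity)] at m
  have hI := (ballI q0 ha (show 0 < 2 * l by positivity)).le
  rw [← univ_inter (ball _ _)] at hI
  have k1 := core hpq hu hG h a b c MeasurableSet.univ (by positivity) (by positivity)
    (fun z hz => ⟨by have := mem_ball_zero_iff.1 (d z hz); linarith, fun _ _ => trivial⟩) hI x'
  have k2 := core (φ := fun z => φ (x - x' + z)) hpq hu hG h
    (a.comp (contDiff_const.add contDiff_id)) (b.comp_homeomorph (Homeomorph.addLeft _))
    (fun z => c _) MeasurableSet.univ (by positivity) (by positivity) (fun z hz => ⟨by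
      have := mem_ball_zero_iff.1 (d _ hz)
      have k := norm_sub_le (x - x' + z) (x - x')
      rw [add_sub_cancel_left] at k; linarith, fun _ _ => trivial⟩) hI x
  rw [integral_add_left_eq_self φ, show (fun z => u (x + z) * φ (x - x' + z)) =
    fun z => (fun z => u (x' + z) * φ z) (x - x' + z) by
      funext z; simp only; rw [show x' + (x - x' + z) = x + z by abel],
    integral_add_left_eq_self (fun z => u (x' + z) * φ z)] at k2
  have e2 : (3 * v0 * ((2 * l) ^ (3 - 2 * q) / (3 - 2 * q))) ^ (1 / q) =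
      (3 * v0 / (3 - 2 * q)) ^ (1 / q) * (2 ^ (1 - 3 / p) * l ^ (1 - 3 / p)) := by
    rw [← Real.mul_rpow (by positivity) l0.le, ← e1, Real.rpow_mul (by positivity),
      ← Real.mul_rpow (by positivity) (by positivity)]
    congr 1; ring
  rw [e2] at k1 k2
  have k3 : |u x - u x'| * ((l / 2) ^ 3 * v0) ≤ |u x - u x'| * |∫ z, φ z| := by
    gcongr; exact m.trans (le_abs_self _)
  rw [← abs_mul] at k3
  have k4 := abs_sub_le (u x * ∫ z, φ z) (∫ z, u (x' + z) * φ z) (u x' * ∫ z, φ z)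
  rw [abs_sub_comm] at k2
  rw [← sub_mul] at k4
  refine le_of_mul_le_mul_right ((k3.trans k4).trans ((add_le_add k2 k1).trans (le_of_eq ?_)))
    (by positivity)
  field_simp; ring

noncomputable def A (p : ℝ) : ℝ := 3 * v0 * (3 - 2 * p.conjExponent) ^ (p - 1)

theorem near (hp : 3 < p) (hp' : p ≤ 301 / 100) (hu : Continuous u)
    (hG : MemLp G (ENNReal.ofReal p)) (h : WG u G) {x z : E} {δ d : ℝ} (hd : 0 < d)
    (hδ : d * 2 ^ 20 ≤ 2 * δ) (hz : ‖z - x‖ = δ + d) (h0 : ∀ y ∈ closedBall z δ, u y = 0) :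
    |u x| ^ p * A p ≤ 7 / 3 * (N p G ^ p * d ^ (p - 3)) := by
  have hpq := Real.HolderConjugate.conjExponent (show 1 < p by linarith)
  rw [A]
  set q := p.conjExponent
  obtain ⟨ha, -, e2, e3⟩ := expo hpq hp
  have q0 := hpq.symm.pos
  have := v0_pos
  have s0 : 0 < δ + d := by linarith
  set ν : E := (δ + d)⁻¹ • (z - x) with hν
  have n1 : ‖ν‖ = 1 := by rw [hν, norm_smul, hz, norm_inv, Real.norm_eq_abs, abs_of_pos s0]; field_simp
  have n2 : ⟪ν, ν⟫_ℝ = 1 := by rw [real_inner_self_eq_norm_sq, n1]; norm_num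
  set K : E → Set E := fun ν => closedBall 0 (1020 * d) ∩ {y | 0 ≤ ⟪ν, y⟫_ℝ} with hK
  have cK : ∀ ν, IsClosed (K ν) := fun ν =>
    isClosed_closedBall.inter (isClosed_le continuous_const (by fun_prop))
  have vK : (1020 * d) ^ 3 * v0 / 2 ≤ volume.real (K ν) := by
    have a1 : volume.real (K (-ν)) = volume.real (K ν) := by
      rw [Measure.real, Measure.real, ← Measure.measure_neg volume (K ν)]
      congr 2; ext y; simp [hK]
    have f : ∀ ν, volume (K ν) ≠ ⊤ := fun ν =>
      ((measure_mono inter_subset_left).trans_lt measure_closedBall_lt_top).ne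
    have a2 : volume.real (closedBall (0 : E) (1020 * d)) ≤ volume.real (K ν ∪ K (-ν)) :=
      measureReal_mono (fun y hy => (le_total 0 ⟪ν, y⟫_ℝ).imp (fun k => ⟨hy, k⟩)
        fun k => ⟨hy, by simpa using k⟩) (measure_union_ne_top (f _) (f _))
    rw [volB _ (by positivity)] at a2
    linarith [measureReal_union_le (μ := volume) (K ν) (K (-ν))]
  obtain ⟨φ, a, b, c, dd, m⟩ := cut (K := (fun y => -((3 * d) • ν) + y) ⁻¹' K ν)
    (U := ball 0 (1024 * d) ∩ {y | 2 * d < ⟪ν, y⟫_ℝ}) ((cK ν).preimage (by fun_prop))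
    (isOpen_ball.inter (isOpen_lt continuous_const (by fun_prop))) (fun y hy => by
      have h1 := mem_closedBall_zero_iff.1 hy.1
      have h2 : 0 ≤ ⟪ν, -((3 * d) • ν) + y⟫_ℝ := hy.2
      rw [inner_add_right, inner_neg_right, real_inner_smul_right, n2] at h2
      have h3 := norm_add_le ((3 * d) • ν) (-((3 * d) • ν) + y)
      rw [add_neg_cancel_left, norm_smul, n1, Real.norm_eq_abs, abs_of_pos (by positivity)] at h3
      exact ⟨mem_ball_zero_iff.2 (by linarith), by show 2 * d < _; linarith⟩)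
    (inter_subset_left.trans ball_subset_closedBall)
  rw [Measure.real, measure_preimage_add, ← Measure.real] at m
  have k := core hpq hu hG h a b c (Γ := {y | 0 < ⟪ν, y⟫_ℝ})
    (isOpen_lt continuous_const (by fun_prop)).measurableSet (R := 1024 * d) (by positivity)
    (by positivity) (fun y hy => ⟨mem_ball_zero_iff.1 (dd y hy).1, fun t ht => by
      have : 2 * d < ⟪ν, y⟫_ℝ := (dd y hy).2
      show 0 < ⟪ν, t • y⟫_ℝ
      rw [real_inner_smul_right]; exact mul_pos ht (by linarith)⟩)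
    (halfI q0 ha (by positivity) ν) x
  have z0 : ∫ y, u (x + y) * φ y = 0 := by
    refine integral_eq_zero_of_ae (.of_forall fun y => ?_)
    by_cases hy : φ y = 0
    · simp [hy]
    have h1 := mem_ball_zero_iff.1 (dd y hy).1
    have h2 : 2 * d < ⟪ν, y⟫_ℝ := (dd y hy).2
    have h3 : x + y - z = y - (δ + d) • ν := by rw [hν, smul_inv_smul₀ s0.ne']; abel
    have h4 := norm_sub_sq_real y ((δ + d) • ν)
    rw [real_inner_smul_right, norm_smul, n1, Real.norm_eq_abs, abs_of_pos s0,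
      real_inner_comm] at h4
    have h5 : ‖y‖ ^ 2 ≤ (1024 * d) ^ 2 := by gcongr
    simp only [Pi.zero_apply]
    rw [h0 _ (mem_closedBall_iff_norm.2 (by
      rw [h3]; exact (abs_le_of_sq_le_sq' (by nlinarith) (by linarith)).2)), zero_mul]
  rw [z0, zero_sub, abs_neg, abs_mul] at k
  set Y := 3 * v0 * ((1024 * d) ^ (3 - 2 * q) / (3 - 2 * q)) / 2 with hY
  have Y0 : 0 < Y := by positivity
  have k2 : |u x| ≤ N p G * ((256 / 255) ^ 3 * (2 / (3 * v0)) * Y ^ (1 / q)) := by
    have k3 : |u x| * ((1020 * d) ^ 3 * v0 / 2) ≤ |u x| * |∫ z, φ z| := by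
      gcongr; exact (vK.trans m).trans (le_abs_self _)
    refine le_of_mul_le_mul_right ((k3.trans k).trans (le_of_eq ?_)) (by positivity)
    field_simp; ring
  have k4 := Real.rpow_le_rpow (abs_nonneg _) k2 hpq.pos.le
  have n0 := N_nn p G
  have e4 : Y ^ (p - 1) * (3 - 2 * q) ^ (p - 1) * (2 / (3 * v0)) ^ (p - 1) =
      1024 ^ (p - 3) * d ^ (p - 3) := by
    rw [← Real.mul_rpow Y0.le ha.le, ← Real.mul_rpow (by positivity) (by positivity),
      ← Real.mul_rpow (by positivity) hd.le, ← e2, Real.rpow_mul (by positivity)]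
    congr 1; rw [hY]; field_simp
  rw [Real.mul_rpow n0 (by positivity), Real.mul_rpow (by positivity) (by positivity),
    Real.mul_rpow (by positivity) (by positivity), ← Real.rpow_mul Y0.le, e3,
    show (2 / (3 * v0)) ^ p = (2 / (3 * v0)) ^ (p - 1) * (2 / (3 * v0)) by
      rw [← Real.rpow_add_one (by positivity)]; simp] at k4
  have b1 : (((256 : ℝ) / 255) ^ 3) ^ p ≤ ((256 / 255) ^ 3) ^ 4 := by
    rw [← Real.rpow_natCast _ 4]
    exact Real.rpow_le_rpow_of_exponent_le (by norm_num) (by norm_num; linarith)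
  have b2 : (1024 : ℝ) ^ (p - 3) ≤ 11 / 10 := by
    rw [show (1024 : ℝ) = 2 ^ (10 : ℝ) by norm_num, ← Real.rpow_mul (by norm_num)]
    have := rpow_one_add_le_one_add_mul_self (s := 1) (p := 10 * (p - 3)) (by norm_num)
      (by linarith) (by linarith)
    norm_num at this ⊢; linarith
  calc _ ≤ N p G ^ p * (((256 / 255) ^ 3) ^ p * ((2 / (3 * v0)) ^ (p - 1) * (2 / (3 * v0))) *
        Y ^ (p - 1)) * (3 * v0 * (3 - 2 * q) ^ (p - 1)) := by gcongr
    _ = 2 * ((256 / 255) ^ 3) ^ p * 1024 ^ (p - 3) * (N p G ^ p * d ^ (p - 3)) := by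
      rw [mul_assoc _ _ (N p G ^ p * _), mul_left_comm _ (N p G ^ p), ← e4]; field_simp
    _ ≤ 2 * ((256 / 255) ^ 3) ^ 4 * (11 / 10) * (N p G ^ p * d ^ (p - 3)) := by gcongr
    _ ≤ _ := by gcongr; norm_num

end H99.Mor
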