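import Mathlib
import Pool.Agent.H99.Mor3

set_option autoImplicit false

open MeasureTheory Set Filter Topology Metric
open scoped InnerProductSpace ContDiff

namespace H99.Mor

variable {p : ℝ} {u w : E → ℝ} {G H : E → E} {Ω : Set E}

lemma intp (hp : 0 < p) (hG : MemLp G (ENNReal.ofReal p)) : Integrable fun y => ‖G y‖ ^ p := by
  simpa [ENNReal.toReal_ofReal hp.le] using hG.integrable_norm_rpow (by simpa using hp) (by simp)

lemma N_eq (hp : 0 < p) (hG : MemLp G (ENNReal.ofReal p)) : N p G = (∫ y, ‖G y‖ ^ p) ^ (1 / p) := by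
  rw [N, hG.eLpNorm_eq_integral_rpow_norm (by simpa using hp) (by simp), ENNReal.toReal_ofReal
    (Real.rpow_nonneg (integral_nonneg fun y => by positivity) _), ENNReal.toReal_ofReal hp.le,
    one_div]

lemma N_pow (hp : 0 < p) (hG : MemLp G (ENNReal.ofReal p)) : N p G ^ p = ∫ y, ‖G y‖ ^ p := by
  rw [N_eq hp hG, ← Real.rpow_mul (integral_nonneg fun y => by positivity),
    one_div_mul_cancel hp.ne', Real.rpow_one]

lemma N_smul (p a : ℝ) (G H : E → E) : N p (fun y => a • G y + (0 : ℝ) • H y) = |a| * N p G := by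
  simp only [zero_smul, add_zero]
  rw [N, show (fun y => a • G y) = a • G from rfl, eLpNorm_const_smul]; simp [N]

lemma clark0 (hp : 2 ≤ p) (a b : E) : ‖(1 / 2 : ℝ) • a + (-(1 / 2) : ℝ) • b‖ ^ p +
    ‖(1 / 2 : ℝ) • a + (1 / 2 : ℝ) • b‖ ^ p ≤ (‖a‖ ^ p + ‖b‖ ^ p) / 2 := by
  have sq : ∀ x : E, ‖x‖ ^ p = (‖x‖ ^ 2) ^ (p / 2) := fun x => by
    rw [← Real.rpow_natCast, ← Real.rpow_mul (norm_nonneg _)]; congr 1; push_cast; ring
  have e : ‖(1 / 2 : ℝ) • a + (-(1 / 2) : ℝ) • b‖ ^ 2 + ‖(1 / 2 : ℝ) • a + (1 / 2 : ℝ) • b‖ ^ 2 =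
      (1 / 2) * ‖a‖ ^ 2 + (1 / 2) * ‖b‖ ^ 2 := by
    have := parallelogram_law_with_norm ℝ ((1 / 2 : ℝ) • a) ((1 / 2 : ℝ) • b)
    rw [neg_smul, ← sub_eq_add_neg]
    rw [norm_smul, norm_smul] at this
    norm_num at this ⊢; nlinarith
  rw [sq, sq, sq a, sq b]
  refine (Real.add_rpow_le_rpow_add (sq_nonneg _) (sq_nonneg _) (by linarith)).trans ?_
  rw [e]
  have := (convexOn_rpow (p := p / 2) (by linarith)).2 (mem_Ici.2 (sq_nonneg ‖a‖))
    (mem_Ici.2 (sq_nonneg ‖b‖)) (show (0 : ℝ) ≤ 1 / 2 by norm_num) (show (0 : ℝ) ≤ 1 / 2 by norm_num)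
    (show (1 / 2 : ℝ) + 1 / 2 = 1 by norm_num)
  simp only [smul_eq_mul] at this
  linarith

lemma clark (hp : 2 ≤ p) (hG : MemLp G (ENNReal.ofReal p)) (hH : MemLp H (ENNReal.ofReal p)) :
    N p (fun y => (1 / 2 : ℝ) • G y + (-(1 / 2) : ℝ) • H y) ^ p +
      N p (fun y => (1 / 2 : ℝ) • G y + (1 / 2 : ℝ) • H y) ^ p ≤ (N p G ^ p + N p H ^ p) / 2 := by
  have p0 : 0 < p := by linarith
  have m : ∀ c : ℝ, MemLp (fun y => (1 / 2 : ℝ) • G y + c • H y) (ENNReal.ofReal p) := fun c =>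
    (hG.const_smul (1 / 2 : ℝ)).add (hH.const_smul c)
  rw [N_pow p0 (m _), N_pow p0 (m _), N_pow p0 hG, N_pow p0 hH,
    ← integral_add (intp p0 (m _)) (intp p0 (m _)), ← integral_add (intp p0 hG) (intp p0 hH),
    ← integral_div]
  exact integral_mono ((intp p0 (m _)).add (intp p0 (m _)))
    (((intp p0 hG).add (intp p0 hH)).div_const 2) fun y => clark0 hp _ _

noncomputable def s (p : ℝ) (Ω : Set E) (x : E) : ℝ :=
  sSup {r | ∃ u G, D p Ω u G ∧ N p G ≤ 1 ∧ r = u x}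

lemma D0 (p : ℝ) (Ω : Set E) : D p Ω (fun _ => 0) fun _ => 0 :=
  ⟨continuous_const, fun _ _ => rfl, MemLp.zero', fun _ _ _ _ => by simp⟩

lemma ne0 (p : ℝ) (Ω : Set E) (x : E) : (0 : ℝ) ∈ {r | ∃ u G, D p Ω u G ∧ N p G ≤ 1 ∧ r = u x} :=
  ⟨_, _, D0 p Ω, by simp [N], rfl⟩

lemma bdd (hp : 3 < p) {y : E} (hy : y ∉ Ω) (x : E) :
    BddAbove {r | ∃ u G, D p Ω u G ∧ N p G ≤ 1 ∧ r = u x} := by
  obtain ⟨C, C0, hC⟩ := morrey hp
  refine ⟨C * ‖x - y‖ ^ (1 - 3 / p), ?_⟩
  rintro _ ⟨u, G, h, n, rfl⟩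
  have := hC u G h.1 h.2.2.1 h.2.2.2 x y
  rw [h.2.1 y hy, sub_zero] at this
  exact (le_abs_self _).trans (this.trans (mul_le_of_le_one_right (by positivity) n))

lemma s_nn (hp : 3 < p) {y : E} (hy : y ∉ Ω) (x : E) : 0 ≤ s p Ω x :=
  le_csSup (bdd hp hy x) (ne0 p Ω x)

lemma s_le (hp : 3 < p) {y : E} (hy : y ∉ Ω) (h : D p Ω u G) (x : E) :
    |u x| ≤ s p Ω x * N p G := by
  rcases (N_nn p G).eq_or_lt with n | n
  · obtain ⟨C, C0, hC⟩ := morrey hp
    have := hC u G h.1 h.2.2.1 h.2.2.2 x y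
    rw [h.2.1 y hy, sub_zero, ← n] at this
    rw [← n]; simpa using this
  have k : ∀ a : ℝ, |a| = (N p G)⁻¹ → a * u x ≤ s p Ω x := fun a ha =>
    le_csSup (bdd hp hy x) ⟨_, _, h.lin (by linarith) h a 0, by
      rw [N_smul, ha, inv_mul_cancel₀ n.ne'], by simp⟩
  rw [← div_le_iff₀ n, div_eq_inv_mul]
  rcases abs_cases (u x) with ⟨e, -⟩ | ⟨e, -⟩ <;> rw [e]
  · exact k _ (abs_of_pos (inv_pos.2 n))
  · simpa using k (-(N p G)⁻¹) (by rw [abs_neg, abs_of_pos (inv_pos.2 n)])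

lemma hold_cont (hp : 3 < p) {f : E → ℝ} {C : ℝ} (h : ∀ x x', |f x - f x'| ≤ C * ‖x - x'‖ ^ (1 - 3 / p)) :
    Continuous f := by
  have a0 : 0 < 1 - 3 / p := by rw [sub_pos, div_lt_one (by linarith)]; exact hp
  refine continuous_iff_continuousAt.2 fun x => tendsto_iff_norm_sub_tendsto_zero.2
    (squeeze_zero (fun _ => norm_nonneg _) (fun y => h y x) ?_)
  have : Continuous fun y : E => C * ‖y - x‖ ^ (1 - 3 / p) :=
    continuous_const.mul (Continuous.rpow_const (by fun_prop) fun _ => Or.inr a0.le)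
  simpa [Real.zero_rpow a0.ne'] using this.tendsto x

lemma s_cont (hp : 3 < p) {y : E} (hy : y ∉ Ω) : Continuous (s p Ω) := by
  obtain ⟨C, C0, hC⟩ := morrey hp
  have k : ∀ x x', s p Ω x ≤ s p Ω x' + C * ‖x - x'‖ ^ (1 - 3 / p) := fun x x' => by
    refine csSup_le ⟨_, ne0 p Ω x⟩ ?_
    rintro _ ⟨u, G, h, n, rfl⟩
    have a := (le_abs_self _).trans ((hC u G h.1 h.2.2.1 h.2.2.2 x x').trans
      (mul_le_of_le_one_right (by positivity) n))
    have b : u x' ≤ s p Ω x' := le_csSup (bdd hp hy x') ⟨u, G, h, n, rfl⟩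
    linarith
  refine hold_cont hp (C := C) fun x x' => abs_le.2 ⟨?_, by linarith [k x x']⟩
  have := k x' x
  rw [norm_sub_rev] at this; linarith

lemma pairB (hp : 1 < p) {φ : E → ℝ} (a : Continuous φ) (b : HasCompactSupport φ) (v : E) :
    ∃ K, ∀ H : E → E, MemLp H (ENNReal.ofReal p) → |∫ y, ⟪H y, v⟫_ℝ * φ y| ≤ N p H * K := by
  have hpq := Real.HolderConjugate.conjExponent hp
  refine ⟨(∫ y, ‖‖v‖ * φ y‖ ^ p.conjExponent) ^ (1 / p.conjExponent), fun H hH => ?_⟩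
  rw [← Real.norm_eq_abs]
  refine (norm_integral_le_integral_norm _).trans ?_
  · have m : MemLp (fun y => ‖v‖ * φ y) (ENNReal.ofReal p.conjExponent) :=
      (a.memLp_of_hasCompactSupport b).const_mul _
    have := integral_mul_norm_le_Lp_mul_Lq hpq hH.norm m
    simp only [norm_norm] at this
    rw [← N_eq hpq.pos hH] at this
    refine le_trans (integral_mono_of_nonneg (.of_forall fun _ => norm_nonneg _) ?_
      (.of_forall fun y => ?_)) this
    · simpa using (hH.norm.locallyIntegrable (by simpa using hp.le)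
        ).integrable_smul_right_of_hasCompactSupport (g := fun y => ‖‖v‖ * φ y‖) (by fun_prop)
          (b.mul_left (f := fun _ => ‖v‖)).norm
    · simp only [norm_mul, norm_norm, ← mul_assoc]
      gcongr; exact norm_inner_le_norm (𝕜 := ℝ) _ _

theorem s_att (hp : 3 < p) {y0 : E} (hy : y0 ∉ Ω) {x : E} (hs : 0 < s p Ω x) :
    ∃ u G, D p Ω u G ∧ N p G ≤ 1 ∧ u x = s p Ω x := by
  have p0 : 0 < p := by linarith
  have p1 : 1 ≤ p := by linarith
  have : Fact (1 ≤ ENNReal.ofReal p) := ⟨by simpa using p1⟩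
  obtain ⟨C, C0, hC⟩ := morrey hp
  set ε : ℕ → ℝ := fun k => 1 / ((k : ℝ) + 1) with hε
  have ε0 : ∀ k, 0 < ε k := fun k => by positivity
  have ε1 : ∀ k, ε k ≤ 1 := fun k => (div_le_one (by positivity)).2 (by simp)
  have εm : ∀ k l, k ≤ l → ε l ≤ ε k := fun k l h => Nat.one_div_le_one_div h
  have εt : Tendsto ε atTop (𝓝 0) := tendsto_one_div_add_atTop_nhds_zero_nat
  have ex : ∀ k, ∃ u G, D p Ω u G ∧ N p G ≤ 1 ∧ s p Ω x * (1 - ε k) < u x := fun k => by
    obtain ⟨_, ⟨u, G, h, n, rfl⟩, l⟩ := exists_lt_of_lt_csSup ⟨_, ne0 p Ω x⟩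
      (show s p Ω x * (1 - ε k) < s p Ω x by nlinarith [ε0 k])
    exact ⟨u, G, h, n, l⟩
  choose U Gs hD hN hU using ex
  set b : ℕ → ℝ := fun k => 2 * (1 - (1 - ε k) ^ p) ^ (1 / p) with hb
  have bt : Tendsto b atTop (𝓝 0) := by
    have c : ContinuousAt (fun t : ℝ => 2 * (1 - (1 - t) ^ p) ^ (1 / p)) 0 :=
      continuousAt_const.mul ((continuousAt_const.sub ((continuousAt_const.sub
        continuousAt_id).rpow_const (Or.inr p0.le))).rpow_const (Or.inr (by positivity)))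
    have := c.tendsto.comp εt
    rw [sub_zero, Real.one_rpow, sub_self, Real.zero_rpow (by positivity), mul_zero] at this
    exact this
  have mD : ∀ k l, D p Ω (fun y => U k y - U l y) fun y => Gs k y - Gs l y := fun k l => by
    simpa [sub_eq_add_neg] using (hD k).lin p1 (hD l) 1 (-1)
  have cau : ∀ k l n, n ≤ k → n ≤ l → N p (fun y => Gs k y - Gs l y) ≤ b n := by
    intro k l n h1 h2
    have c := clark (by linarith) (hD k).2.2.1 (hD l).2.2.1
    have a1 := s_le hp hy ((hD k).lin p1 (hD l) (1 / 2) (1 / 2)) x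
    have a2 : 1 - ε n ≤ N p fun y => (1 / 2 : ℝ) • Gs k y + (1 / 2 : ℝ) • Gs l y := by
      refine le_of_mul_le_mul_left (le_trans ?_ ((le_abs_self _).trans a1)) hs
      nlinarith [hU k, hU l, εm _ _ h1, εm _ _ h2]
    have a3 := Real.rpow_le_rpow (by linarith [ε1 n]) a2 p0.le
    have a4 := Real.rpow_le_one (N_nn _ _) (hN k) p0.le
    have a5 := Real.rpow_le_one (N_nn _ _) (hN l) p0.le
    have e : N p (fun y => (1 / 2 : ℝ) • Gs k y + (-(1 / 2) : ℝ) • Gs l y) =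
        1 / 2 * N p fun y => Gs k y - Gs l y := by
      rw [← abs_of_pos (show (0 : ℝ) < 1 / 2 by norm_num), ← N_smul p _ _ (Gs k)]
      congr 1; funext y; norm_num [smul_sub, sub_eq_add_neg]
    rw [e] at c
    have n0 := N_nn p fun y => Gs k y - Gs l y
    have a6 := Real.rpow_le_rpow (by positivity)
      (show (1 / 2 * N p fun y => Gs k y - Gs l y) ^ p ≤ 1 - (1 - ε n) ^ p by linarith)
      (show 0 ≤ 1 / p by positivity)
    rw [← Real.rpow_mul (by positivity), mul_one_div_cancel p0.ne', Real.rpow_one] at a6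
    simp only [hb]; linarith
  set g : ℕ → Lp E (ENNReal.ofReal p) (volume : Measure E) := fun k => (hD k).2.2.1.toLp _ with hg
  have dg : ∀ k (f : Lp E (ENNReal.ofReal p) (volume : Measure E)) (F : E → E), f =ᵐ[volume] F →
      dist (g k) f = N p fun y => Gs k y - F y := fun k f F e => by
    rw [Lp.dist_def, N]
    congr 1
    refine eLpNorm_congr_ae ?_
    filter_upwards [(hD k).2.2.1.coeFn_toLp, e] with y h1 h2
    simp [hg, h1, h2]
  obtain ⟨G, tG⟩ := cauchySeq_tendsto_of_complete (cauchySeq_of_le_tendsto_0 (s := g) b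
    (fun k l n h1 h2 => by rw [dg k _ _ (hD l).2.2.1.coeFn_toLp]; exact cau k l n h1 h2) bt)
  have tG' : Tendsto (fun k => N p fun y => Gs k y - G y) atTop (𝓝 0) :=
    (tendsto_iff_dist_tendsto_zero.1 tG).congr fun k => dg k G G (ae_eq_refl _)
  have cu : ∀ y k l n, n ≤ k → n ≤ l → |U k y - U l y| ≤ C * ‖y - y0‖ ^ (1 - 3 / p) * b n := by
    intro y k l n h1 h2
    have := hC _ _ (mD k l).1 (mD k l).2.2.1 (mD k l).2.2.2 y y0
    rw [(hD k).2.1 y0 hy, (hD l).2.1 y0 hy, sub_self, sub_zero] at this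
    exact this.trans (by gcongr; exact cau k l n h1 h2)
  have ey : ∀ y, ∃ r, Tendsto (fun k => U k y) atTop (𝓝 r) := fun y =>
    cauchySeq_tendsto_of_complete (cauchySeq_of_le_tendsto_0 _ (cu y)
      (by simpa using bt.const_mul (C * ‖y - y0‖ ^ (1 - 3 / p))))
  choose u tu using ey
  have cu' : ∀ y k, |U k y - u y| ≤ C * ‖y - y0‖ ^ (1 - 3 / p) * b k := fun y k =>
    le_of_tendsto (tendsto_const_nhds.sub (tu y)).abs
      ((eventually_ge_atTop k).mono fun l hl => cu y k l k le_rfl hl)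
  have uc : Continuous u := hold_cont hp (C := C) fun y y' =>
    le_of_tendsto' ((tu y).sub (tu y')).abs fun k =>
      (hC _ _ (hD k).1 (hD k).2.2.1 (hD k).2.2.2 y y').trans
        (mul_le_of_le_one_right (by positivity) (hN k))
  have nG : N p G ≤ 1 := by
    have := le_of_tendsto' tG.norm fun k => show ‖g k‖ ≤ 1 by
      rw [hg, Lp.norm_toLp]; exact hN k
    rwa [Lp.norm_def] at this
  have dd : D p Ω u G := by
    refine ⟨uc, fun y h => tendsto_nhds_unique (tu y) (by simp [fun k => (hD k).2.1 y h]),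
      Lp.memLp G, fun φ a c v => ?_⟩
    obtain ⟨K, hK⟩ := pairB (by linarith : 1 < p) a.continuous c v
    have a0 : 0 ≤ 1 - 3 / p := by rw [sub_nonneg, div_le_one p0]; exact hp.le
    have i0 : Integrable fun y => C * ‖y - y0‖ ^ (1 - 3 / p) * fderiv ℝ φ y v :=
      intD (continuous_const.mul (Continuous.rpow_const (by fun_prop) fun _ => Or.inr a0)) a c v
    have t1 : Tendsto (fun k => ∫ y, U k y * fderiv ℝ φ y v) atTop
        (𝓝 (∫ y, u y * fderiv ℝ φ y v)) := by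
      refine tendsto_iff_norm_sub_tendsto_zero.2 (squeeze_zero (fun _ => norm_nonneg _)
        (g := fun k => b k * ∫ y, ‖C * ‖y - y0‖ ^ (1 - 3 / p) * fderiv ℝ φ y v‖) (fun k => ?_)
        (by simpa using bt.mul_const _))
      rw [← integral_sub (intD (hD k).1 a c v) (intD uc a c v), ← integral_const_mul]
      refine norm_integral_le_of_norm_le (i0.norm.const_mul _) (.of_forall fun y => ?_)
      rw [← sub_mul, norm_mul, norm_mul, ← mul_assoc, mul_comm (b k),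
        Real.norm_of_nonneg (show 0 ≤ C * ‖y - y0‖ ^ (1 - 3 / p) by positivity)]
      gcongr; exact cu' y k
    have t2 : Tendsto (fun k => ∫ y, ⟪Gs k y, v⟫_ℝ * φ y) atTop (𝓝 (∫ y, ⟪G y, v⟫_ℝ * φ y)) := by
      refine tendsto_iff_norm_sub_tendsto_zero.2 (squeeze_zero (fun _ => norm_nonneg _)
        (fun k => ?_) (by simpa using tG'.mul_const K))
      rw [← integral_sub (int2 p1 (hD k).2.2.1 a.continuous c v)
        (int2 p1 (Lp.memLp G) a.continuous c v)]
      have := hK (fun y => Gs k y - G y) ((hD k).2.2.1.sub (Lp.memLp G))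
      simp only [inner_sub_left, sub_mul] at this
      exact this
    exact tendsto_nhds_unique t1 (t2.neg.congr fun k => ((hD k).2.2.2 φ a c v).symm)
  refine ⟨u, G, dd, nG, le_antisymm (le_csSup (bdd hp hy x) ⟨u, G, dd, nG, rfl⟩) ?_⟩
  have := le_of_tendsto_of_tendsto' ((tendsto_const_nhds.sub εt).const_mul (s p Ω x)) (tu x)
    fun k => (hU k).le
  simpa using this

end H99.Mor
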