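import Mathlib
import Pool.Agent.H99.Mor4

set_option autoImplicit false

open MeasureTheory Set Filter Topology Metric
open scoped InnerProductSpace ContDiff NNReal

namespace H99.Mor

variable {p : ℝ} {u w : E → ℝ} {G H : E → E} {Ω : Set E}

lemma lipWG {C : ℝ≥0} (h : LipschitzWith C u) : WG u (gradient u) := fun φ a b v => by
  obtain ⟨K, hK⟩ := ContDiff.lipschitzWith_of_hasCompactSupport b a (by simp)
  have := h.integral_lineDeriv_mul_eq (μ := volume) hK b v
  have e1 : ∫ x, lineDeriv ℝ u x v * φ x = ∫ y, ⟪gradient u y, v⟫_ℝ * φ y :=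
    integral_congr_ae ((h.ae_differentiableAt (μ := volume)).mono fun x hx => by
      simp only [inner_gradient_left, hx.lineDeriv_eq_fderiv])
  have e2 : ∫ x, lineDeriv ℝ φ x (-v) * u x = -∫ y, u y * fderiv ℝ φ y v := by
    rw [← integral_neg]; congr 1; funext y
    rw [(a.differentiable (by simp) y).lineDeriv_eq_fderiv, map_neg]; ring
  rw [e1, e2] at this
  linarith

lemma norm_grad (u : E → ℝ) (x : E) : ‖gradient u x‖ = ‖fderiv ℝ u x‖ := by
  simp [gradient]

lemma meas_grad (u : E → ℝ) : Measurable (gradient u) :=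
  (InnerProductSpace.toDual ℝ E).symm.continuous.measurable.comp (measurable_fderiv ℝ u)

lemma bumpD (p : ℝ) {φ : E → ℝ} (a : ContDiff ℝ ∞ φ) (b : HasCompactSupport φ)
    (c : tsupport φ ⊆ Ω) : D p Ω φ (gradient φ) := by
  obtain ⟨K, hK⟩ := ContDiff.lipschitzWith_of_hasCompactSupport b a (by simp)
  refine ⟨a.continuous, fun x hx => image_eq_zero_of_notMem_tsupport fun h => hx (c h), ?_,
    lipWG hK⟩
  have c1 : Continuous (gradient φ) :=
    (InnerProductSpace.toDual ℝ E).symm.continuous.comp (a.continuous_fderiv (by simp))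
  have c2 : HasCompactSupport (gradient φ) :=
    (b.fderiv ℝ).comp_left (g := fun L => (InnerProductSpace.toDual ℝ E).symm L) (map_zero _)
  exact c1.memLp_of_hasCompactSupport c2

lemma gder (hp : 1 < p) (hG : MemLp G (ENNReal.ofReal p)) (hH : MemLp H (ENNReal.ofReal p)) :
    DifferentiableAt ℝ (fun t : ℝ => ∫ y, ‖G y + t • H y‖ ^ p) 0 := by
  have p0 : 0 < p := by linarith
  have m1 := hG.1
  have m2 := hH.1
  have i1 : Integrable fun y => ‖‖G y‖ + ‖H y‖‖ ^ p := by
    simpa [ENNReal.toReal_ofReal p0.le] using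
      (hG.norm.add hH.norm).integrable_norm_rpow (by simpa using p0) (by simp)
  have dd : ∀ (y : E) (t : ℝ), HasDerivAt (fun t : ℝ => ‖G y + t • H y‖ ^ p)
      (p * ‖G y + t • H y‖ ^ (p - 2) * ⟪G y + t • H y, H y⟫_ℝ) t := fun y t => by
    have h1 : HasDerivAt (fun t : ℝ => G y + t • H y) (H y) t := by
      simpa using ((hasDerivAt_id t).smul_const (H y)).const_add (G y)
    exact (hasFDerivAt_norm_rpow (G y + t • H y) hp).comp_hasDerivAt t h1
  refine (hasDerivAt_integral_of_dominated_loc_of_deriv_le (μ := volume) (s := ball (0 : ℝ) 1)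
    (F := fun t y => ‖G y + t • H y‖ ^ p)
    (F' := fun t y => p * ‖G y + t • H y‖ ^ (p - 2) * ⟪G y + t • H y, H y⟫_ℝ)
    (bound := fun y => p * ‖‖G y‖ + ‖H y‖‖ ^ p) (ball_mem_nhds _ one_pos)
    (.of_forall fun t => ?_) ?_ ?_ (.of_forall fun y t ht => ?_) (i1.const_mul p)
    (.of_forall fun y t _ => dd y t)).2.differentiableAt
  · exact ((m1.add (m2.const_smul t)).norm.aemeasurable.pow_const p).aestronglyMeasurable
  · simpa using intp p0 hG
  · simp only [zero_smul, add_zero]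
    exact (((m1.norm.aemeasurable.pow_const (p - 2)).const_mul p).mul
      (m1.inner (𝕜 := ℝ) m2).aemeasurable).aestronglyMeasurable
  · set z := G y + t • H y
    have t1 : |t| ≤ 1 := by simpa using (mem_ball_zero_iff.1 ht).le
    have hz : ‖z‖ ≤ ‖G y‖ + ‖H y‖ := (norm_add_le _ _).trans (by
      rw [norm_smul, Real.norm_eq_abs]; nlinarith [norm_nonneg (H y)])
    set b := ‖G y‖ + ‖H y‖ with hb
    have b0 : 0 ≤ b := by positivity
    have hH' : ‖H y‖ ≤ b := by linarith [norm_nonneg (G y)]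
    rw [Real.norm_of_nonneg b0, norm_mul, norm_mul, Real.norm_of_nonneg p0.le,
      Real.norm_of_nonneg (by positivity : 0 ≤ ‖z‖ ^ (p - 2)), mul_assoc]
    refine mul_le_mul_of_nonneg_left ?_ p0.le
    have e1 : ‖z‖ ^ (p - 2) * ‖z‖ = ‖z‖ ^ (p - 1) := by
      rw [← Real.rpow_add_one' (norm_nonneg _) (by linarith)]; congr 1; ring
    have e2 : b ^ (p - 1) * b = b ^ p := by
      rw [← Real.rpow_add_one' b0 (by linarith)]; congr 1; ring
    calc ‖z‖ ^ (p - 2) * ‖⟪z, H y⟫_ℝ‖ ≤ ‖z‖ ^ (p - 2) * (‖z‖ * ‖H y‖) := by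
          gcongr; exact norm_inner_le_norm _ _
      _ = ‖z‖ ^ (p - 1) * ‖H y‖ := by rw [← mul_assoc, e1]
      _ ≤ b ^ (p - 1) * b := by gcongr
      _ = _ := e2

theorem peak (hp : 3 < p) (hΩ : IsOpen Ω) {y0 x x' : E} (hy : y0 ∉ Ω) (hx' : x' ∈ Ω) (ne : x' ≠ x)
    (h : D p Ω u G) (n : 0 < N p G) (s1 : 0 < s p Ω x) (s2 : 0 < s p Ω x')
    (e1 : |u x| = s p Ω x * N p G) (e2 : |u x'| = s p Ω x' * N p G) : False := by
  have p0 : 0 < p := by linarith
  have p1 : 1 ≤ p := by linarith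
  obtain ⟨φ, c, b, a, -, f1⟩ := exists_contDiff_tsupport_subset (n := ⊤)
    ((hΩ.sdiff (isClosed_singleton (x := x))).mem_nhds ⟨hx', ne⟩)
  have f0 : φ x = 0 := image_eq_zero_of_notMem_tsupport fun k => (c k).2 rfl
  have k := bumpD (Ω := Ω) p a b (c.trans sdiff_subset)
  set g : ℝ → ℝ := fun t => ∫ y, ‖G y + t • gradient φ y‖ ^ p with hg
  have gd : DifferentiableAt ℝ g 0 := gder (by linarith) h.2.2.1 k.2.2.1
  have dt : ∀ t : ℝ, D p Ω (fun y => u y + t * φ y) fun y => G y + t • gradient φ y := fun t => by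
    simpa using h.lin p1 k 1 t
  have eg : ∀ t, g t = N p (fun y => G y + t • gradient φ y) ^ p := fun t =>
    (N_pow p0 (dt t).2.2.1).symm
  have g0 : g 0 = N p G ^ p := by rw [eg]; simp
  have m1 : IsLocalMin g 0 := .of_forall fun t => by
    have := s_le hp hy (dt t) x
    simp only [f0, mul_zero, add_zero, e1] at this
    rw [g0, eg]
    exact Real.rpow_le_rpow n.le (le_of_mul_le_mul_left this s1) p0.le
  have β0 : u x' ≠ 0 := fun z => by
    rw [z, abs_zero] at e2; exact (mul_pos s2 n).ne e2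
  set β := u x' with hβ
  have rd : HasDerivAt (fun t : ℝ => ‖β + t‖ ^ p) (p * ‖β‖ ^ (p - 2) * β) 0 := by
    have h1 : HasDerivAt (fun t : ℝ => β + t) 1 0 := (hasDerivAt_id 0).const_add β
    have := (hasFDerivAt_norm_rpow (β + 0) (show 1 < p by linarith)).comp_hasDerivAt 0 h1
    simpa [Function.comp_def] using this
  have m2 : IsLocalMin (fun t => s p Ω x' ^ p * g t - ‖β + t‖ ^ p) 0 := .of_forall fun t => by
    have := s_le hp hy (dt t) x'
    simp only [f1, mul_one] at this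
    have h2 := Real.rpow_le_rpow (abs_nonneg _) this p0.le
    rw [Real.mul_rpow s2.le (N_nn _ _), ← eg] at h2
    simp only [add_zero, Real.norm_eq_abs, e2]
    rw [Real.mul_rpow s2.le n.le, g0]
    linarith
  have d1 := m1.hasDerivAt_eq_zero gd.hasDerivAt
  have d2 := m2.hasDerivAt_eq_zero ((gd.hasDerivAt.const_mul _).sub rd)
  rw [d1, mul_zero, zero_sub, neg_eq_zero] at d2
  exact mul_ne_zero (mul_pos p0 (Real.rpow_pos_of_pos (norm_pos_iff.2 β0) _)).ne' β0 d2

end H99.Mor
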