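import Mathlib
import Pool.Agent.H99.Mor4

set_option autoImplicit false

open MeasureTheory Set Filter Topology Metric
open scoped InnerProductSpace ContDiff NNReal

namespace H99.Mor

variable {p : ℝ} {u w : E → ℝ} {G H : E → E} {Ω : Set E}

lemma mapM (M : E ≃L[ℝ] E) {k : ℝ} (k0 : 0 ≤ k) (h2 : ∀ x, ‖x‖ ≤ k * ‖M x‖) :
    ∃ c : ℝ, 0 ≤ c ∧ c ≤ k ^ 3 ∧ Measure.map M volume = ENNReal.ofReal c • (volume : Measure E) := by
  have hd : LinearMap.det (M : E →ₗ[ℝ] E) ≠ 0 := (LinearEquiv.isUnit_det' M.toLinearEquiv).ne_zero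
  have e : Measure.map M volume =
      ENNReal.ofReal |(LinearMap.det (M : E →ₗ[ℝ] E))⁻¹| • (volume : Measure E) :=
    Measure.map_linearMap_addHaar_eq_smul_addHaar volume hd
  refine ⟨_, abs_nonneg _, ?_, e⟩
  set c := |(LinearMap.det (M : E →ₗ[ℝ] E))⁻¹|
  have h1 : (Measure.map M volume).real (closedBall (0 : E) 1) = c * v0 := by
    rw [e, measureReal_ennreal_smul_apply, ENNReal.toReal_ofReal (abs_nonneg _), volB _ zero_le_one,
      one_pow, one_mul]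
  have h3 : (Measure.map M volume).real (closedBall (0 : E) 1) ≤ k ^ 3 * v0 := by
    rw [map_measureReal_apply M.continuous.measurable measurableSet_closedBall, ← volB 0 k0]
    refine measureReal_mono (fun x hx => ?_) measure_closedBall_lt_top.ne
    have := mem_closedBall_zero_iff.1 hx
    exact mem_closedBall_zero_iff.2 ((h2 x).trans (by nlinarith))
  exact le_of_mul_le_mul_right (h1 ▸ h3) v0_pos

lemma D.lchg (hp : 3 < p) (M : E ≃L[ℝ] E) {k : ℝ} (k1 : 1 ≤ k) (h1 : ∀ x, ‖M x‖ ≤ k * ‖x‖)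
    (h2 : ∀ x, ‖x‖ ≤ k * ‖M x‖) (h : D p Ω u G) :
    ∃ H, D p (M ⁻¹' Ω) (fun y => u (M y)) H ∧ N p H ≤ k ^ 2 * N p G := by
  have k0 : 0 ≤ k := by linarith
  have p0 : 0 < p := by linarith
  obtain ⟨c, c0, c1, e⟩ := mapM M k0 h2
  have em : MeasurableEmbedding M := M.toHomeomorph.measurableEmbedding
  have ie : ∀ f : E → ℝ, ∫ y, f (M y) = c * ∫ y, f y := fun f => by
    rw [← em.integral_map, e, integral_smul_measure, ENNReal.toReal_ofReal c0, smul_eq_mul]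
  have mG : MemLp (G ∘ M) (ENNReal.ofReal p) :=
    MemLp.comp_of_map (by rw [e]; exact h.2.2.1.smul_measure (by simp)) em.measurable.aemeasurable
  set B : E →L[ℝ] E := ContinuousLinearMap.adjoint (M : E →L[ℝ] E) with hB
  have nB : ‖B‖ ≤ k := by
    rw [hB, LinearIsometryEquiv.norm_map]
    exact ContinuousLinearMap.opNorm_le_bound _ k0 h1
  refine ⟨B ∘ G ∘ M, ⟨h.1.comp M.continuous, fun x hx => h.2.1 _ hx, B.comp_memLp' mG,
    fun φ a b v => ?_⟩, ?_⟩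
  · have a' : ContDiff ℝ ∞ (φ ∘ M.symm) := a.comp M.symm.contDiff
    have := h.2.2.2 (φ ∘ M.symm) a' (b.comp_homeomorph M.symm.toHomeomorph) (M v)
    have e1 := ie fun y => u y * fderiv ℝ (φ ∘ M.symm) y (M v)
    have e2 := ie fun y => ⟪G y, M v⟫_ℝ * (φ ∘ M.symm) y
    rw [this, mul_neg, ← e2] at e1
    simp only [M.symm.comp_right_fderiv, ContinuousLinearMap.comp_apply,
      ContinuousLinearEquiv.coe_coe, M.symm_apply_apply, Function.comp_apply] at e1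
    simp only [Function.comp_apply, hB, ContinuousLinearMap.adjoint_inner_left,
      ContinuousLinearEquiv.coe_coe]
    exact e1
  · have t1 : eLpNorm (B ∘ G ∘ M) (ENNReal.ofReal p) volume ≤
        ENNReal.ofReal k * eLpNorm (G ∘ M) (ENNReal.ofReal p) volume :=
      eLpNorm_le_mul_eLpNorm_of_ae_le_mul (.of_forall fun y =>
        (B.le_opNorm _).trans (mul_le_mul_of_nonneg_right nB (norm_nonneg _))) _
    have t2 : eLpNorm (G ∘ M) (ENNReal.ofReal p) volume =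
        ENNReal.ofReal (c ^ (1 / p)) * eLpNorm G (ENNReal.ofReal p) volume := by
      rw [← em.eLpNorm_map_measure, e, eLpNorm_smul_measure_of_ne_top (by simp), smul_eq_mul,
        ← ENNReal.ofReal_rpow_of_nonneg c0 (by positivity)]
      simp [ENNReal.toReal_ofReal p0.le]
    have t3 : c ^ (1 / p) ≤ k := by
      refine (Real.rpow_le_rpow c0 c1 (by positivity)).trans ?_
      rw [← Real.rpow_natCast, ← Real.rpow_mul k0]
      refine (Real.rpow_le_rpow_of_exponent_le k1 ?_).trans_eq (Real.rpow_one k)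
      rw [mul_one_div, div_le_one p0]; exact_mod_cast hp.le
    rw [t2] at t1
    have t4 := ENNReal.toReal_mono (ENNReal.mul_ne_top (by simp)
      (ENNReal.mul_ne_top (by simp) h.2.2.1.2.ne)) t1
    rw [ENNReal.toReal_mul, ENNReal.toReal_mul, ENNReal.toReal_ofReal k0,
      ENNReal.toReal_ofReal (by positivity)] at t4
    refine t4.trans ?_
    have := N_nn p G
    calc k * (c ^ (1 / p) * N p G) ≤ k * (k * N p G) := by gcongr
      _ = _ := by ring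

noncomputable def Hh (p : ℝ) (Ω : Set E) (x : E) : ℝ := s p Ω x / infDist x Ωᶜ ^ (1 - 3 / p)

lemma Hh_nn (hp : 3 < p) {y0 : E} (hy : y0 ∉ Ω) (x : E) : 0 ≤ Hh p Ω x :=
  div_nonneg (s_nn hp hy x) (Real.rpow_nonneg infDist_nonneg _)

lemma dpos (hΩ : IsOpen Ω) {y0 x : E} (hy : y0 ∉ Ω) (hx : x ∈ Ω) : 0 < infDist x Ωᶜ :=
  (hΩ.isClosed_compl.notMem_iff_infDist_pos ⟨y0, hy⟩).1 fun h => h hx

lemma Hh_cont (hp : 3 < p) (hΩ : IsOpen Ω) {y0 : E} (hy : y0 ∉ Ω) : ContinuousOn (Hh p Ω) Ω :=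
  (s_cont hp hy).continuousOn.div
    ((continuous_infDist_pt _).continuousOn.rpow_const fun _ hx => Or.inl (dpos hΩ hy hx).ne')
    fun _ hx => (Real.rpow_pos_of_pos (dpos hΩ hy hx) _).ne'

lemma Hh_chg (hp : 3 < p) (hΩ : IsOpen Ω) {y0 : E} (hy : y0 ∉ Ω) (M : E ≃L[ℝ] E) {k : ℝ}
    (k1 : 1 ≤ k) (h1 : ∀ x, ‖M x‖ ≤ k * ‖x‖) (h2 : ∀ x, ‖x‖ ≤ k * ‖M x‖) {x : E} (hx : M x ∈ Ω) :
    Hh p Ω (M x) ≤ k ^ 3 * Hh p (M ⁻¹' Ω) x := by
  have k0 : 0 < k := by linarith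
  have p0 : 0 < p := by linarith
  have hy' : M.symm y0 ∉ M ⁻¹' Ω := by simpa using hy
  have s0 := s_nn hp hy' x
  have a1 : s p Ω (M x) ≤ k ^ 2 * s p (M ⁻¹' Ω) x := by
    refine csSup_le ⟨_, ne0 p Ω _⟩ ?_
    rintro _ ⟨u, G, h, n, rfl⟩
    obtain ⟨H, hH, m⟩ := h.lchg hp M k1 h1 h2
    have := (le_abs_self _).trans (s_le hp hy' hH x)
    have m' : N p H ≤ k ^ 2 := m.trans (mul_le_of_le_one_right (by positivity) n)
    nlinarith
  have d1 := dpos hΩ hy hx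
  have d2 := dpos (hΩ.preimage M.continuous) hy' hx
  have a2 : infDist x (M ⁻¹' Ω)ᶜ ≤ k * infDist (M x) Ωᶜ := by
    rw [mul_comm, ← div_le_iff₀ k0, le_infDist ⟨y0, hy⟩]
    intro y hy2
    rw [div_le_iff₀ k0, mul_comm]
    refine (infDist_le_dist_of_mem (y := M.symm y) (by simpa using hy2)).trans ?_
    simpa [dist_eq_norm] using h2 (x - M.symm y)
  have α0 : 0 ≤ 1 - 3 / p := by rw [sub_nonneg, div_le_one p0]; exact hp.le
  have a3 : infDist x (M ⁻¹' Ω)ᶜ ^ (1 - 3 / p) ≤ k * infDist (M x) Ωᶜ ^ (1 - 3 / p) := by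
    refine (Real.rpow_le_rpow d2.le a2 α0).trans ?_
    rw [Real.mul_rpow k0.le d1.le]
    refine mul_le_mul_of_nonneg_right ?_ (Real.rpow_nonneg d1.le _)
    refine (Real.rpow_le_rpow_of_exponent_le k1 ?_).trans_eq (Real.rpow_one k)
    have : 0 < 3 / p := by positivity
    linarith
  have e1 := Real.rpow_pos_of_pos d1 (1 - 3 / p)
  have e2 := Real.rpow_pos_of_pos d2 (1 - 3 / p)
  rw [Hh, Hh, ← mul_div_assoc, div_le_div_iff₀ e1 e2]
  calc _ ≤ k ^ 2 * s p (M ⁻¹' Ω) x * (k * infDist (M x) Ωᶜ ^ (1 - 3 / p)) := by gcongr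
    _ = _ := by ring

lemma Hh_two (hp : 3 < p) (hΩ : IsOpen Ω) {y0 : E} (hy : y0 ∉ Ω) (P P' : E ≃L[ℝ] E) {k : ℝ}
    (k1 : 1 ≤ k) (h1 : ∀ x, ‖P x‖ ≤ k * ‖P' x‖) (h2 : ∀ x, ‖P' x‖ ≤ k * ‖P x‖) {x : E}
    (hx : x ∈ Ω) : Hh p (P.symm ⁻¹' Ω) (P x) ≤ k ^ 3 * Hh p (P'.symm ⁻¹' Ω) (P' x) := by
  have := Hh_chg hp (hΩ.preimage P.symm.continuous) (y0 := P y0) (by simpa using hy)
    (P'.symm.trans P) k1 (fun y => by simpa using h1 (P'.symm y))
    (fun y => by simpa using h2 (P'.symm y)) (x := P' x) (by simpa using hx)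
  have e : (P'.symm.trans P) ⁻¹' (P.symm ⁻¹' Ω) = P'.symm ⁻¹' Ω := by ext; simp
  rw [e] at this
  simpa using this

/-- a maximum point of `Hh` gives an extremal peaking there -/
theorem ext_of_max (hp : 3 < p) (hΩ : IsOpen Ω) {y0 x : E} (hy : y0 ∉ Ω) (hx : x ∈ Ω)
    (h0 : 0 < Hh p Ω x) (hm : ∀ y ∈ Ω, Hh p Ω y ≤ Hh p Ω x) :
    0 < s p Ω x ∧ ∃ u G, D p Ω u G ∧ N p G = 1 ∧ u x = s p Ω x ∧ Ext p Ω u := by
  have p0 : 0 < p := by linarith
  have e1 := Real.rpow_pos_of_pos (dpos hΩ hy hx) (1 - 3 / p)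
  have s0 : 0 < s p Ω x := (div_pos_iff_of_pos_right e1).1 h0
  obtain ⟨u, G, h, n, e⟩ := s_att hp hy s0
  have n1 : N p G = 1 := le_antisymm n (by
    have := s_le hp hy h x
    rw [e, abs_of_pos s0] at this
    exact le_of_mul_le_mul_left (by simpa using this) s0)
  refine ⟨s0, u, G, h, n1, e, fun z => s0.ne' (by rw [← e, z]; rfl), G, h, fun w H k w0 => ?_⟩
  set m := Hh p Ω x
  have S1 : S p Ω w ≤ ENNReal.ofReal (m * N p H) := iSup₂_le fun y hy2 => by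
    have e2 := Real.rpow_pos_of_pos (dpos hΩ hy hy2) (1 - 3 / p)
    rw [← ofReal_norm, norm_div, Real.norm_of_nonneg e2.le]
    refine ENNReal.ofReal_le_ofReal ?_
    calc ‖w y‖ / infDist y Ωᶜ ^ (1 - 3 / p) ≤ s p Ω y * N p H / infDist y Ωᶜ ^ (1 - 3 / p) := by
          gcongr; exact s_le hp hy k y
      _ = Hh p Ω y * N p H := by rw [Hh]; ring
      _ ≤ _ := mul_le_mul_of_nonneg_right (hm y hy2) (N_nn _ _)
  have S2 : ENNReal.ofReal m ≤ S p Ω u := by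
    refine le_trans ?_ (le_iSup₂ (f := fun x (_ : x ∈ Ω) =>
      ‖u x / infDist x Ωᶜ ^ (1 - 3 / p)‖ₑ) x hx)
    rw [e, ← ofReal_norm]
    exact ENNReal.ofReal_le_ofReal (le_abs_self _)
  have nH : 0 < N p H := (N_nn p H).lt_of_ne' fun z => w0 (funext fun y => by
    have := s_le hp hy k y
    rw [z, mul_zero] at this
    exact abs_nonpos_iff.1 this)
  have r1 : eLpNorm G (ENNReal.ofReal p) volume = ENNReal.ofReal 1 := by
    rw [← n1, N, ENNReal.ofReal_toReal h.2.2.1.2.ne]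
  have r2 : eLpNorm H (ENNReal.ofReal p) volume = ENNReal.ofReal (N p H) := by
    rw [N, ENNReal.ofReal_toReal k.2.2.1.2.ne]
  rw [Rq, Rq, r1, r2, ← ENNReal.div_rpow_of_nonneg _ _ p0.le, ← ENNReal.div_rpow_of_nonneg _ _ p0.le]
  refine ENNReal.rpow_le_rpow ((ENNReal.div_le_div_left S2 _).trans
    (le_trans ?_ (ENNReal.div_le_div_left S1 _))) p0.le
  rw [← ENNReal.ofReal_div_of_pos h0, ← ENNReal.ofReal_div_of_pos (mul_pos h0 nH)]
  exact ENNReal.ofReal_le_ofReal (by field_simp; rfl)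

end H99.Mor
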