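import Mathlib
import Pool.Agent.H99.Mor5
import Pool.Agent.H99.Mor6

set_option autoImplicit false

open MeasureTheory Set Filter Topology Metric
open scoped InnerProductSpace ContDiff NNReal

namespace H99.Mor

variable {p : ℝ} {u w : E → ℝ} {G H : E → E} {Ω : Set E}

noncomputable def pr (a r0 r1 : ℝ) (z y : E) : ℝ := max r0 (min r1 ‖y - z‖) ^ a - r1 ^ a

lemma pr_lo {a r0 r1 : ℝ} {z y : E} (h : ‖y - z‖ ≤ r0) : pr a r0 r1 z y = r0 ^ a - r1 ^ a := by
  rw [pr, max_eq_left ((min_le_right _ _).trans h)]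

lemma pr_hi {a r0 r1 : ℝ} {z y : E} (h0 : r0 ≤ r1) (h : r1 ≤ ‖y - z‖) : pr a r0 r1 z y = 0 := by
  rw [pr, min_eq_left h, max_eq_right h0, sub_self]

lemma pr_lip {a r0 : ℝ} (r1 : ℝ) (z : E) (a0 : 0 < a) (a1 : a ≤ 1) (h0 : 0 < r0) :
    ∃ C, LipschitzWith C (pr a r0 r1 z) := by
  have l1 : LipschitzOnWith ⟨a * r0 ^ (a - 1), by positivity⟩ (fun t : ℝ => t ^ a) (Ici r0) :=
    (convex_Ici r0).lipschitzOnWith_of_nnnorm_hasDerivWithin_le (f' := fun t => a * t ^ (a - 1))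
      (fun t ht => (Real.hasDerivAt_rpow_const (Or.inl (h0.trans_le ht).ne')).hasDerivWithinAt)
      fun t ht => by
        have t0 : 0 < t := h0.trans_le ht
        rw [← NNReal.coe_le_coe, coe_nnnorm, Real.norm_of_nonneg (by positivity)]
        exact mul_le_mul_of_nonneg_left (Real.rpow_le_rpow_of_nonpos h0 ht (by linarith)) a0.le
  have l2 : LipschitzWith 1 fun y : E => max r0 (min r1 ‖y - z‖) := by
    have : LipschitzWith 1 fun y : E => ‖y - z‖ := by
      simpa [dist_eq_norm] using LipschitzWith.dist_left z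
    exact (this.const_min r1).const_max r0
  have l3 := l1.comp (l2.lipschitzOnWith (s := univ)) fun y _ => mem_Ici.2 (le_max_left _ _)
  exact ⟨_, (lipschitzOnWith_univ.1 l3).sub (LipschitzWith.const (r1 ^ a))⟩

lemma pr_der {a r0 r1 : ℝ} (z : E) (a0 : 0 < a) (h0 : 0 < r0) {y : E} (h : ‖y - z‖ ∈ Ioo r0 r1) :
    ‖gradient (pr a r0 r1 z) y‖ ≤ a * ‖y - z‖ ^ (a - 1) := by
  have n0 : 0 < ‖y - z‖ := h0.trans h.1
  have c : Continuous fun y : E => ‖y - z‖ := by fun_prop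
  have e : pr a r0 r1 z =ᶠ[𝓝 y] fun y => ‖y - z‖ ^ a - r1 ^ a := by
    filter_upwards [c.continuousAt.preimage_mem_nhds (isOpen_Ioo.mem_nhds h)] with x hx
    rw [pr, min_eq_right hx.2.le, max_eq_right hx.1.le]
  have d : DifferentiableAt ℝ (fun y : E => ‖y - z‖) y :=
    (differentiableAt_id.sub_const z).norm ℝ (norm_pos_iff.1 n0)
  have l : LipschitzWith 1 fun y : E => ‖y - z‖ := by
    simpa [dist_eq_norm] using LipschitzWith.dist_left z
  have l1 := norm_fderiv_le_of_lipschitz ℝ (x₀ := y) l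
  rw [norm_grad, e.fderiv_eq, ((d.hasFDerivAt.rpow_const (Or.inl n0.ne')).sub_const _).fderiv,
    norm_smul, Real.norm_of_nonneg (by positivity)]
  exact mul_le_of_le_one_right (by positivity) l1

lemma prD (hp : 3 < p) {a r0 r1 : ℝ} (a0 : 0 < a) (ea : a * (p - 1) = p - 3) (h0 : 0 < r0)
    (h1 : r0 ≤ r1) (z : E) : ∃ G, D p univ (pr a r0 r1 z) G ∧ (∀ y, ‖y - z‖ ∉ Ioo r0 r1 → G y = 0) ∧
      ∫ y, ‖G y‖ ^ p ≤ a ^ p * (3 * v0 * ((r1 ^ a - r0 ^ a) / a)) := by
  have p0 : 0 < p := by linarith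
  have a1 : a ≤ 1 := by nlinarith
  obtain ⟨C, hC⟩ := pr_lip r1 z a0 a1 h0
  have c : Continuous fun y : E => ‖y - z‖ := by fun_prop
  set T : Set E := {y | ‖y - z‖ ∈ Ioo r0 r1} with hT
  have mT : MeasurableSet T := (isOpen_Ioo.preimage c).measurableSet
  set G := T.indicator (gradient (pr a r0 r1 z)) with hG
  have ae : gradient (pr a r0 r1 z) =ᵐ[volume] G := by
    filter_upwards [compl_mem_ae_iff.2 (Measure.addHaar_sphere volume z r0),
      compl_mem_ae_iff.2 (Measure.addHaar_sphere volume z r1)] with y b0 b1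
    by_cases hy : y ∈ T
    · rw [hG, indicator_of_mem hy]
    rw [hG, indicator_of_notMem hy]
    rw [mem_compl_iff, mem_sphere_iff_norm] at b0 b1
    rcases lt_or_gt_of_ne b0 with k | k
    · have : pr a r0 r1 z =ᶠ[𝓝 y] fun _ => r0 ^ a - r1 ^ a := by
        filter_upwards [c.continuousAt.preimage_mem_nhds (Iio_mem_nhds k)] with x hx
        exact pr_lo (le_of_lt hx)
      rw [this.gradient_eq, gradient_fun_const]
    · have k' : r1 < ‖y - z‖ := lt_of_le_of_ne (not_lt.1 fun q => hy ⟨k, q⟩) (Ne.symm b1)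
      have : pr a r0 r1 z =ᶠ[𝓝 y] fun _ => 0 := by
        filter_upwards [c.continuousAt.preimage_mem_nhds (Ioi_mem_nhds k')] with x hx
        exact pr_hi h1 (le_of_lt hx)
      rw [this.gradient_eq, gradient_fun_const]
  have mG : Measurable G := (meas_grad _).indicator mT
  have bd : ∀ y, ‖G y‖ ^ p ≤ a ^ p * (Ioo r0 r1).indicator (fun r => r ^ (a - 3)) ‖y - z‖ := by
    intro y
    by_cases hy : y ∈ T
    · rw [hG, indicator_of_mem hy, indicator_of_mem (show ‖y - z‖ ∈ Ioo r0 r1 from hy)]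
      refine (Real.rpow_le_rpow (norm_nonneg _) (pr_der z a0 h0 hy) p0.le).trans_eq ?_
      rw [Real.mul_rpow a0.le (by positivity), ← Real.rpow_mul (norm_nonneg _)]
      congr 2; linarith
    · rw [hG, indicator_of_notMem hy, indicator_of_notMem (show ‖y - z‖ ∉ Ioo r0 r1 from hy)]
      simp [Real.zero_rpow p0.ne']
  have v := v0_pos
  have r : 0 ≤ r1 ^ a - r0 ^ a := sub_nonneg.2 (Real.rpow_le_rpow h0.le h1 a0.le)
  have li : ∫⁻ y, ENNReal.ofReal (‖G y‖ ^ p) ≤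
      ENNReal.ofReal (a ^ p * (3 * v0 * ((r1 ^ a - r0 ^ a) / a))) := by
    rw [ENNReal.ofReal_mul (by positivity), ← radial a0 h0.le h1,
      ← lintegral_sub_right_eq_self (fun y : E => ENNReal.ofReal
        ((Ioo r0 r1).indicator (fun r => r ^ (a - 3)) ‖y‖)) z, ← lintegral_const_mul' _ _ (by simp)]
    refine lintegral_mono fun y => ?_
    rw [← ENNReal.ofReal_mul (by positivity)]
    exact ENNReal.ofReal_le_ofReal (bd y)
  have mp : MemLp G (ENNReal.ofReal p) := by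
    refine ⟨mG.aestronglyMeasurable, ?_⟩
    rw [eLp p0]
    refine ENNReal.rpow_lt_top_of_nonneg (by positivity) (ne_top_of_le_ne_top (by simp)
      (le_trans (le_of_eq ?_) li))
    congr 1; funext y
    rw [← ofReal_norm, ENNReal.ofReal_rpow_of_nonneg (norm_nonneg _) p0.le]
  refine ⟨G, ⟨hC.continuous, fun x hx => (hx (mem_univ x)).elim, mp, (lipWG hC).congr ae⟩,
    fun y hy => indicator_of_notMem (s := T) hy _, ?_⟩
  rw [integral_eq_lintegral_of_nonneg_ae (.of_forall fun y => by positivity) (intp p0 mp).1]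
  exact ENNReal.toReal_le_of_le_ofReal (by positivity) li

noncomputable def en (p a r0 r1 : ℝ) : ℝ :=
  (1 / (2 * (r1 ^ a - r0 ^ a))) ^ p * (a ^ p * (3 * v0 * ((r1 ^ a - r0 ^ a) / a)))

lemma test (hp : 3 < p) {a δ ρ : ℝ} (a0 : 0 < a) (ea : a * (p - 1) = p - 3) (h0 : 0 < δ)
    (h1 : δ < ρ) (h2 : ρ ≤ 1 / 64) {q x0 : E} (hx : ‖x0 - q‖ = 2 * ρ)
    (hΩ : ∀ y, δ < ‖y - q‖ → ‖y - q‖ < 1 / 8 → y ∈ Ω) :
    ∃ u G, D p Ω u G ∧ u x0 = 1 ∧ N p G ^ p ≤ 2 * en p a δ ρ + en p a (1 / 16) (1 / 8) := by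
  have p0 : 0 < p := by linarith
  have p1 : 1 ≤ p := by linarith
  obtain ⟨G1, d1, z1, e1⟩ := prD hp a0 ea h0 h1.le q
  obtain ⟨G2, d2, z2, e2⟩ := prD hp a0 ea h0 h1.le x0
  obtain ⟨G3, d3, z3, e3⟩ := prD hp a0 ea (r0 := 1 / 16) (r1 := 1 / 8) (by norm_num) (by norm_num) q
  have b1 : 0 < ρ ^ a - δ ^ a := sub_pos.2 (Real.rpow_lt_rpow h0.le h1 a0)
  have b2 : 0 < (1 / 8 : ℝ) ^ a - (1 / 16) ^ a :=
    sub_pos.2 (Real.rpow_lt_rpow (by norm_num) (by norm_num) a0)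
  set c1 := 1 / (2 * (ρ ^ a - δ ^ a)) with hc1
  set c2 := 1 / (2 * ((1 / 8 : ℝ) ^ a - (1 / 16) ^ a)) with hc2
  have c10 : 0 < c1 := by positivity
  have c20 : 0 < c2 := by positivity
  have f1 : c1 * (δ ^ a - ρ ^ a) = -(1 / 2) := by rw [hc1]; field_simp; ring
  have f2 : c2 * ((1 / 16 : ℝ) ^ a - (1 / 8) ^ a) = -(1 / 2) := by rw [hc2]; field_simp; ring
  have d := (d1.lin p1 d2 c1 (-c1)).lin p1 d3 1 (-c2)
  have tr : ∀ y : E, 2 * ρ ≤ ‖y - q‖ + ‖y - x0‖ ∧ ‖y - q‖ ≤ ‖y - x0‖ + 2 * ρ := fun y => by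
    rw [← hx]
    exact ⟨by simpa [dist_eq_norm] using dist_triangle_left x0 q y |>.trans_eq (add_comm _ _),
      by simpa [dist_eq_norm] using dist_triangle y x0 q⟩
  refine ⟨_, _, ⟨d.1, fun y hy => ?_, d.2.2.1, d.2.2.2⟩, ?_, ?_⟩
  · obtain ⟨t1, t2⟩ := tr y
    rcases le_or_gt ‖y - q‖ δ with k | k
    · rw [pr_lo k, pr_hi h1.le (by linarith), pr_lo (by linarith)]
      linarith
    · have k2 : 1 / 8 ≤ ‖y - q‖ := not_lt.1 fun k2 => hy (hΩ y k k2)
      rw [pr_hi h1.le (by linarith), pr_hi h1.le (by linarith), pr_hi (by norm_num) k2]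
      ring
  · rw [pr_hi h1.le (by linarith), pr_lo (by simpa using h0.le), pr_lo (by linarith)]
    linarith
  · rw [N_pow p0 d.2.2.1]
    have i1 := (intp p0 d1.2.2.1).const_mul (c1 ^ p)
    have i2 := (intp p0 d2.2.2.1).const_mul (c1 ^ p)
    have i3 := (intp p0 d3.2.2.1).const_mul (c2 ^ p)
    refine (integral_mono (intp p0 d.2.2.1) ((i1.add i2).add i3) fun y => ?_).trans ?_
    · obtain ⟨t1, t2⟩ := tr y
      have n1 : 0 ≤ c1 ^ p * ‖G1 y‖ ^ p := by positivity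
      have n2 : 0 ≤ c1 ^ p * ‖G2 y‖ ^ p := by positivity
      have n3 : 0 ≤ c2 ^ p * ‖G3 y‖ ^ p := by positivity
      simp only [Pi.add_apply]
      by_cases k1 : ‖y - q‖ < ρ
      · rw [z2 y fun k => by linarith [k.2], z3 y fun k => by linarith [k.1]]
        simp only [smul_zero, add_zero, one_smul, norm_smul, Real.norm_of_nonneg c10.le]
        rw [Real.mul_rpow c10.le (norm_nonneg _)]
        simp [Real.zero_rpow p0.ne']
      rw [z1 y fun k => k1 k.2]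
      by_cases k2 : ‖y - x0‖ < ρ
      · rw [z3 y fun k => by linarith [k.1]]
        simp only [smul_zero, add_zero, zero_add, one_smul, norm_smul, norm_neg,
          Real.norm_of_nonneg c10.le]
        rw [Real.mul_rpow c10.le (norm_nonneg _)]
        simp [Real.zero_rpow p0.ne']
      · rw [z2 y fun k => k2 k.2]
        simp only [smul_zero, add_zero, zero_add, norm_smul, norm_neg,
          Real.norm_of_nonneg c20.le]
        rw [Real.mul_rpow c20.le (norm_nonneg _)]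
        simp [Real.zero_rpow p0.ne']
    · have := integral_add (i1.add i2) i3
      have h' := integral_add i1 i2
      simp only [Pi.add_apply] at this h' ⊢
      rw [this, h', integral_const_mul, integral_const_mul, integral_const_mul, en, en]
      have g1 := mul_le_mul_of_nonneg_left e1 (Real.rpow_nonneg c10.le p)
      have g2 := mul_le_mul_of_nonneg_left e2 (Real.rpow_nonneg c10.le p)
      have g3 := mul_le_mul_of_nonneg_left e3 (Real.rpow_nonneg c20.le p)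
      linarith

lemma A_pos (hp : 3 < p) : 0 < A p :=
  mul_pos (mul_pos three_pos v0_pos)
    (Real.rpow_pos_of_pos (expo (Real.HolderConjugate.conjExponent (by linarith)) hp).1 _)

lemma Hh_pow (hp : 3 < p) {y0 : E} (hy : y0 ∉ Ω) (x : E) :
    Hh p Ω x ^ p = s p Ω x ^ p / infDist x Ωᶜ ^ (p - 3) := by
  rw [Hh, Real.div_rpow (s_nn hp hy x) (Real.rpow_nonneg infDist_nonneg _),
    ← Real.rpow_mul infDist_nonneg]
  congr 2
  have : p ≠ 0 := by linarith
  field_simp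

theorem good (hp : 3 < p) {δ0 : ℝ} (h0 : 0 < δ0) : ∃ δ ρ : ℝ, 0 < δ ∧ δ ≤ δ0 ∧ δ < ρ ∧ ρ ≤ 1 / 64 ∧
    ∀ (Ω : Set E) (q x0 : E), IsOpen Ω → q ∉ Ω → ‖x0 - q‖ = 2 * ρ →
      (∀ y, δ < ‖y - q‖ → ‖y - q‖ < 1 / 8 → y ∈ Ω) → 3 ≤ A p * Hh p Ω x0 ^ p := by
  have p0 : 0 < p := by linarith
  obtain ⟨a0, -, ea, -⟩ := expo (Real.HolderConjugate.conjExponent (show 1 < p by linarith)) hp
  have A0 := A_pos hp
  have eA : A p = 3 * v0 * (3 - 2 * p.conjExponent) ^ (p - 1) := rfl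
  set a := 3 - 2 * p.conjExponent
  have t1 : Tendsto (fun ρ : ℝ => en p a (1 / 16) (1 / 8) * (2 * ρ) ^ (p - 3)) (𝓝[>] 0) (𝓝 0) := by
    have c : ContinuousAt (fun ρ : ℝ => en p a (1 / 16) (1 / 8) * (2 * ρ) ^ (p - 3)) 0 :=
      continuousAt_const.mul (ContinuousAt.rpow_const (by fun_prop) (Or.inr (by linarith)))
    have := c.tendsto
    rw [mul_zero, Real.zero_rpow (by linarith), mul_zero] at this
    exact this.mono_left nhdsWithin_le_nhds
  obtain ⟨ρ, r1, r2⟩ := ((t1.eventually (gt_mem_nhds (show 0 < A p / 24 by positivity))).and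
    (Ioo_mem_nhdsGT (show (0 : ℝ) < 1 / 64 by norm_num))).exists
  have ρ0 : 0 < ρ := r2.1
  have ρa := Real.rpow_pos_of_pos ρ0 a
  have t2 : Tendsto (fun δ : ℝ => 2 * en p a δ ρ * (2 * ρ) ^ (p - 3)) (𝓝[>] 0) (𝓝 (A p / 4)) := by
    have c0 : ContinuousAt (fun δ : ℝ => ρ ^ a - δ ^ a) 0 :=
      continuousAt_const.sub (ContinuousAt.rpow_const continuousAt_id (Or.inr a0.le))
    have c : ContinuousAt (fun δ : ℝ => 2 * en p a δ ρ * (2 * ρ) ^ (p - 3)) 0 := by
      refine (continuousAt_const.mul (ContinuousAt.mul (ContinuousAt.rpow_const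
        (continuousAt_const.div (continuousAt_const.mul c0) ?_) (Or.inr p0.le))
        (continuousAt_const.mul (continuousAt_const.mul (c0.div_const a))))).mul continuousAt_const
      simpa [Real.zero_rpow a0.ne'] using ρa.ne'
    have := c.tendsto
    have e : 2 * en p a 0 ρ * (2 * ρ) ^ (p - 3) = A p / 4 := by
      have q1 : (ρ ^ a) ^ p = ρ ^ a * ρ ^ (p - 3) := by
        rw [← Real.rpow_mul ρ0.le, ← Real.rpow_add ρ0]; congr 1; linarith
      have q2 : (2 : ℝ) ^ p = 8 * 2 ^ (p - 3) := by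
        rw [Real.rpow_sub two_pos]; norm_num; ring
      have q3 : a ^ p = a * a ^ (p - 1) := by
        rw [Real.rpow_sub_one a0.ne']; field_simp
      have := Real.rpow_pos_of_pos ρ0 (p - 3)
      have := Real.rpow_pos_of_pos two_pos (p - 3)
      rw [en, Real.zero_rpow a0.ne', sub_zero, Real.div_rpow zero_le_one (by positivity),
        Real.one_rpow, Real.mul_rpow two_pos.le ρa.le, Real.mul_rpow two_pos.le ρ0.le, q1, q2, q3, eA]
      field_simp; ring
    rw [e] at this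
    exact this.mono_left nhdsWithin_le_nhds
  obtain ⟨δ, s1, s2⟩ := ((t2.eventually (gt_mem_nhds (show A p / 4 < A p * 7 / 24 by linarith))).and
    (Ioo_mem_nhdsGT (lt_min h0 ρ0))).exists
  have δρ := s2.2.trans_le (min_le_right _ _)
  refine ⟨δ, ρ, s2.1, (s2.2.trans_le (min_le_left _ _)).le, δρ, r2.2.le,
    fun Ω q x0 hΩ hq hx hh => ?_⟩
  obtain ⟨u, G, h, e, n⟩ := test hp a0 ea s2.1 δρ r2.2.le hx hh
  have m : x0 ∈ Ω := hh x0 (by linarith) (by linarith [r2.2])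
  have d0 := dpos hΩ hq m
  have d1 : infDist x0 Ωᶜ ≤ 2 * ρ := by
    rw [← hx, ← dist_eq_norm]; exact infDist_le_dist_of_mem hq
  have d2 := Real.rpow_le_rpow d0.le d1 (show 0 ≤ p - 3 by linarith)
  have d3 := Real.rpow_pos_of_pos d0 (p - 3)
  have l := s_le hp hq h x0
  rw [e, abs_one] at l
  have l2 := Real.one_le_rpow l p0.le
  rw [Real.mul_rpow (s_nn hp hq _) (N_nn _ _)] at l2
  have s0 := Real.rpow_nonneg (s_nn hp hq x0) p
  have n0 := Real.rpow_nonneg (N_nn p G) p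
  rw [Hh_pow hp hq, ← mul_div_assoc, le_div_iff₀ d3]
  have l3 : N p G ^ p * (2 * ρ) ^ (p - 3) ≤ A p / 3 := by
    have := mul_le_mul_of_nonneg_right n (d3.le.trans d2)
    linarith
  calc 3 * infDist x0 Ωᶜ ^ (p - 3) ≤ 3 * ((s p Ω x0 ^ p * N p G ^ p) * (2 * ρ) ^ (p - 3)) := by
        nlinarith
    _ = 3 * (s p Ω x0 ^ p * (N p G ^ p * (2 * ρ) ^ (p - 3))) := by ring
    _ ≤ 3 * (s p Ω x0 ^ p * (A p / 3)) := by gcongr
    _ = _ := by ring

theorem nearH (hp : 3 < p) (hp' : p ≤ 301 / 100) {x z : E} {δ : ℝ} (hd : 0 < infDist x Ωᶜ)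
    (hδ : infDist x Ωᶜ * 2 ^ 20 ≤ 2 * δ) (hz : ‖z - x‖ = δ + infDist x Ωᶜ)
    (h0 : ∀ y ∈ closedBall z δ, y ∉ Ω) : A p * Hh p Ω x ^ p ≤ 7 / 3 := by
  have p0 : 0 < p := by linarith
  have hq : z ∉ Ω := h0 z (mem_closedBall_self (by nlinarith))
  have d3 := Real.rpow_pos_of_pos hd (p - 3)
  rw [Hh_pow hp hq, ← mul_div_assoc, div_le_iff₀ d3]
  rcases (s_nn hp hq x).eq_or_lt with k | k
  · rw [← k, Real.zero_rpow p0.ne', mul_zero]; positivity
  obtain ⟨u, G, h, n, e⟩ := s_att hp hq k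
  have := near hp hp' h.1 h.2.2.1 h.2.2.2 hd hδ hz fun y hy => h.2.1 y (h0 y hy)
  rw [e, abs_of_pos k, mul_comm] at this
  exact this.trans (mul_le_mul_of_nonneg_left (mul_le_of_le_one_left d3.le
    (Real.rpow_le_one (N_nn _ _) n p0.le)) (by norm_num))

end H99.Mor
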