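import Mathlib
import Pool.Agent.H99.Mor7
import Pool.Agent.H99.Mor8

set_option autoImplicit false

open MeasureTheory Set Filter Topology Metric Real

namespace H99.Mor

noncomputable def lm (a b c d e f g h i : ℝ) : E →ₗ[ℝ] E where
  toFun x := pt (a * x 0 + b * x 1 + c * x 2) (d * x 0 + e * x 1 + f * x 2)
    (g * x 0 + h * x 1 + i * x 2)
  map_add' x y := ext3 (by simp; ring) (by simp; ring) (by simp; ring)
  map_smul' r x := ext3 (by simp; ring) (by simp; ring) (by simp; ring)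

lemma lm_ap (a b c d e f g h i : ℝ) (x : E) : lm a b c d e f g h i x =
    pt (a * x 0 + b * x 1 + c * x 2) (d * x 0 + e * x 1 + f * x 2)
      (g * x 0 + h * x 1 + i * x 2) := rfl

noncomputable def mkE (f : E →ₗ[ℝ] E) (h : ∀ x, ‖x‖ ≤ ‖f x‖) : E ≃L[ℝ] E :=
  (LinearEquiv.ofInjectiveEndo f ((injective_iff_map_eq_zero f).2 fun x e => by
    simpa [e] using h x)).toContinuousLinearEquiv

lemma mkE_ap (f : E →ₗ[ℝ] E) (h : ∀ x, ‖x‖ ≤ ‖f x‖) (x : E) : mkE f h x = f x := rfl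

noncomputable def V0 (θ : ℝ) : E →ₗ[ℝ] E :=
  lm ((2 * cos θ + 2 * sin θ) / 3) ((2 * cos θ - 2 * sin θ) / 3) (1 / 3)
    ((sin θ - 2 * cos θ) / 3) ((2 * sin θ + cos θ) / 3) (2 / 3)
    ((cos θ - 2 * sin θ) / 3) ((-sin θ - 2 * cos θ) / 3) (2 / 3)

lemma V0n (θ : ℝ) (x : E) : ‖V0 θ x‖ = ‖x‖ := by
  refine (pow_left_inj₀ (norm_nonneg _) (norm_nonneg _) two_ne_zero).1 ?_
  rw [nsq, nsq, V0, lm_ap, pt0, pt1, pt2]
  linear_combination (x 0 ^ 2 + x 1 ^ 2) * sin_sq_add_cos_sq θ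

lemma V0d (θ θ' : ℝ) (x : E) :
    ‖V0 θ x - V0 θ' x‖ ≤ (|cos θ - cos θ'| + |sin θ - sin θ'|) * ‖x‖ := by
  refine nle (by positivity) ?_
  have e : (V0 θ x - V0 θ' x) 0 ^ 2 + (V0 θ x - V0 θ' x) 1 ^ 2 + (V0 θ x - V0 θ' x) 2 ^ 2 =
      (|cos θ - cos θ'| ^ 2 + |sin θ - sin θ'| ^ 2) * (x 0 ^ 2 + x 1 ^ 2) := by
    simp only [PiLp.sub_apply, V0, lm_ap, pt0, pt1, pt2, sq_abs]; ring
  rw [e]
  have := abs_nonneg (cos θ - cos θ')
  have := abs_nonneg (sin θ - sin θ')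
  refine mul_le_mul ?_ (le_add_of_nonneg_right (sq_nonneg _)) (by positivity) (by positivity)
  nlinarith [mul_nonneg ‹0 ≤ |cos θ - cos θ'|› this]

noncomputable def L0 : E →ₗ[ℝ] E := lm (101 / 100) 0 0 0 (201 / 200) 0 0 0 1

lemma L0sq (x : E) : ‖L0 x‖ ^ 2 = (101 / 100) ^ 2 * x 0 ^ 2 + (201 / 200) ^ 2 * x 1 ^ 2 + x 2 ^ 2 := by
  rw [nsq, L0, lm_ap, pt0, pt1, pt2]; ring

lemma L0a (x : E) : ‖x‖ ≤ ‖L0 x‖ :=
  le_of_sq_le_sq (by rw [L0sq, nsq]; nlinarith [sq_nonneg (x 0), sq_nonneg (x 1)]) (norm_nonneg _)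

lemma L0b (x : E) : ‖L0 x‖ ≤ 101 / 100 * ‖x‖ :=
  le_of_sq_le_sq (by rw [mul_pow, L0sq, nsq]; nlinarith [sq_nonneg (x 2), sq_nonneg (x 1)])
    (by positivity)

noncomputable def V (θ : ℝ) : E ≃L[ℝ] E := mkE (V0 θ) fun x => (V0n θ x).ge
noncomputable def L : E ≃L[ℝ] E := mkE L0 L0a
noncomputable def P (θ : ℝ) : E ≃L[ℝ] E := (V θ).trans L

lemma P_ap (θ : ℝ) (x : E) : P θ x = L0 (V0 θ x) := rfl

lemma Pa (θ : ℝ) (x : E) : ‖x‖ ≤ ‖P θ x‖ := (V0n θ x).ge.trans (L0a _)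

lemma Pb (θ : ℝ) (x : E) : ‖P θ x‖ ≤ 101 / 100 * ‖x‖ := by
  rw [P_ap, ← V0n θ x]; exact L0b _

noncomputable def kk (θ θ' : ℝ) : ℝ := 1 + 2 * (|cos θ - cos θ'| + |sin θ - sin θ'|)

lemma Pd (θ θ' : ℝ) (x : E) : ‖P θ x‖ ≤ kk θ θ' * ‖P θ' x‖ := by
  have a := norm_sub_norm_le (P θ x) (P θ' x)
  have b : ‖P θ x - P θ' x‖ ≤ 101 / 100 * ‖V0 θ x - V0 θ' x‖ := by
    rw [P_ap, P_ap, ← map_sub]; exact L0b _
  have c := V0d θ θ' x
  have d := mul_le_mul_of_nonneg_left (Pa θ' x)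
    (show 0 ≤ |cos θ - cos θ'| + |sin θ - sin θ'| by positivity)
  have e := norm_nonneg (V0 θ x - V0 θ' x)
  rw [kk]; linarith

lemma kk_comm (θ θ' : ℝ) : kk θ θ' = kk θ' θ := by
  rw [kk, kk, abs_sub_comm (cos θ), abs_sub_comm (sin θ)]

lemma kk_one (θ θ' : ℝ) : 1 ≤ kk θ θ' := le_add_of_nonneg_right (by positivity)

lemma diagS (S : E →ₗ[ℝ] E) {r : ℝ} (h1 : ∀ x, ‖S x‖ = ‖x‖) (h2 : ∀ x, ‖L0 (S x)‖ = r * ‖L0 x‖)
    (h3 : ‖S (pt (1 / 3) (2 / 3) (2 / 3)) - pt (1 / 3) (2 / 3) (2 / 3)‖ ≤ 1 / 10) (x : E) :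
    S x = x := by
  have n : ∀ x, S x 0 ^ 2 + S x 1 ^ 2 + S x 2 ^ 2 = x 0 ^ 2 + x 1 ^ 2 + x 2 ^ 2 := fun x => by
    rw [← nsq, ← nsq, h1]
  have m : ∀ x, (101 / 100) ^ 2 * S x 0 ^ 2 + (201 / 200) ^ 2 * S x 1 ^ 2 + S x 2 ^ 2 =
      r ^ 2 * ((101 / 100) ^ 2 * x 0 ^ 2 + (201 / 200) ^ 2 * x 1 ^ 2 + x 2 ^ 2) := fun x => by
    rw [← L0sq, ← L0sq, h2, mul_pow]
  have de : ∀ x, S x = x 0 • S (pt 1 0 0) + x 1 • S (pt 0 1 0) + x 2 • S (pt 0 0 1) := fun x => by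
    rw [← map_smul, ← map_smul, ← map_smul, ← map_add, ← map_add]
    congr 1
    exact ext3 (by simp) (by simp) (by simp)
  have n0 := n (pt 1 0 0)
  have n1 := n (pt 0 1 0)
  have n2 := n (pt 0 0 1)
  have m0 := m (pt 1 0 0)
  have m2 := m (pt 0 0 1)
  have n01 := n (pt 1 1 0)
  have n12 := n (pt 0 1 1)
  rw [de (pt 1 1 0)] at n01
  rw [de (pt 0 1 1)] at n12
  rw [de] at h3
  have c0 := (co _ 0).trans h3
  have c1 := (co _ 1).trans h3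
  have c2 := (co _ 2).trans h3
  rw [de]
  set a := S (pt 1 0 0)
  set b := S (pt 0 1 0)
  set c := S (pt 0 0 1)
  simp only [pt0, pt1, pt2, PiLp.add_apply, PiLp.smul_apply, PiLp.sub_apply, smul_eq_mul,
    abs_le] at n0 n1 n2 m0 m2 n01 n12 c0 c1 c2
  have r1 : r ^ 2 = 1 := le_antisymm (by nlinarith [sq_nonneg (a 1), sq_nonneg (a 2)])
    (by nlinarith [sq_nonneg (c 0), sq_nonneg (c 1)])
  rw [r1] at m0 m2
  have a1 : a 1 = 0 := pow_eq_zero_iff two_ne_zero |>.1 (le_antisymm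
    (by nlinarith [sq_nonneg (a 2)]) (sq_nonneg _))
  have a2 : a 2 = 0 := pow_eq_zero_iff two_ne_zero |>.1 (le_antisymm
    (by nlinarith [sq_nonneg (a 1)]) (sq_nonneg _))
  have c0' : c 0 = 0 := pow_eq_zero_iff two_ne_zero |>.1 (le_antisymm
    (by nlinarith [sq_nonneg (c 1)]) (sq_nonneg _))
  have c1' : c 1 = 0 := pow_eq_zero_iff two_ne_zero |>.1 (le_antisymm
    (by nlinarith [sq_nonneg (c 0)]) (sq_nonneg _))
  rw [a1, a2] at n0 n01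
  rw [c0', c1'] at n2 n12
  have b0 : b 0 = 0 := by
    have : a 0 * b 0 = 0 := by linarith
    linear_combination a 0 * this - b 0 * n0
  have b2 : b 2 = 0 := by
    have : c 2 * b 2 = 0 := by linarith
    linear_combination c 2 * this - b 2 * n2
  rw [b0, b2] at n1
  rw [b0, c0'] at c0
  rw [a1, c1'] at c1
  rw [a2, b2] at c2
  have a0 : a 0 = 1 := by nlinarith [c0.1]
  have b1 : b 1 = 1 := by nlinarith [c1.1]
  have c2' : c 2 = 1 := by nlinarith [c2.1]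
  exact ext3 (by simp [a0, b0, c0']) (by simp [a1, b1, c1']) (by simp [a2, b2, c2'])

theorem nosym {δ : ℝ} (h0 : 0 < δ) (h1 : δ ≤ 1 / 1000) (θ : ℝ) {r : ℝ} (hr : 0 < r)
    (Q : E ≃ₗᵢ[ℝ] E) (b : E)
    (h : (fun x => r • Q x + b) '' ((P θ).symm ⁻¹' Om δ) = (P θ).symm ⁻¹' Om δ) (x : E) :
    r • Q x + b = x := by
  set W : E ≃L[ℝ] E := Q.toContinuousLinearEquiv.trans
    (ContinuousLinearEquiv.smulLeft (R₁ := ℝ) (M₁ := E) (Units.mk0 r hr.ne')) with hW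
  have eW : ∀ x, W x = r • Q x := fun x => rfl
  set N : E ≃L[ℝ] E := ((P θ).trans W).trans (P θ).symm with hN
  have eN : ∀ y, N y = (P θ).symm (r • Q (P θ y)) := fun y => rfl
  obtain ⟨a1, a2, a3⟩ := rigid h0 h1 N ((P θ).symm b) fun y => by
    rw [eN, ← map_add, ← mem_preimage, ← h]
    refine ⟨fun k => ⟨P θ y, by simpa using k, rfl⟩, fun ⟨z, k, e⟩ => ?_⟩
    have : z = P θ y := W.injective (add_right_cancel e)
    simpa [this] using k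
  obtain rfl : b = 0 := by simpa using a1
  set S : E ≃L[ℝ] E := ((V θ).symm.trans N).trans (V θ) with hS
  have eS : ∀ y, L (S y) = r • Q (L y) := fun y => by
    have : L (S y) = P θ (N ((V θ).symm y)) := rfl
    rw [this, eN, (P θ).apply_symm_apply, P, ContinuousLinearEquiv.trans_apply,
      (V θ).apply_symm_apply]
  have nV : ∀ y, ‖V θ y‖ = ‖y‖ := V0n θ
  have ew : V θ (pt 0 0 1) = pt (1 / 3) (2 / 3) (2 / 3) := by
    rw [V, mkE_ap, V0, lm_ap]; simp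
  have := diagS (S : E →ₗ[ℝ] E) (r := r) (fun y => by
      show ‖V θ (N ((V θ).symm y))‖ = _
      rw [nV, a2, ← nV, (V θ).apply_symm_apply])
    (fun y => by
      show ‖L (S y)‖ = r * ‖L y‖
      rw [eS, norm_smul, Q.norm_map, Real.norm_of_nonneg hr.le])
    (by
      show ‖V θ (N ((V θ).symm _)) - _‖ ≤ _
      rw [← ew, (V θ).symm_apply_apply, ← map_sub, nV]; linarith) (L.symm x)
  have e := eS (L.symm x)
  rw [show S (L.symm x) = L.symm x from this, L.apply_symm_apply] at e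
  rw [add_zero, ← e]

noncomputable def R : E ≃L[ℝ] E := mkE (lm (-1) 0 0 0 (-1) 0 0 0 1) fun x => by
  simpa using nle (x := x) (y := lm (-1) 0 0 0 (-1) 0 0 0 1 x) zero_le_one (by simp [lm_ap])

lemma R_ap (x : E) : R x = pt (-x 0) (-x 1) (x 2) := by rw [R, mkE_ap, lm_ap]; simp

lemma RR (x : E) : R (R x) = x := ext3 (by simp [R_ap]) (by simp [R_ap]) (by simp [R_ap])

lemma Rn (x : E) : ‖R x‖ = ‖x‖ :=
  (pow_left_inj₀ (norm_nonneg _) (norm_nonneg _) two_ne_zero).1 (by simp [nsq, R_ap])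

lemma P_pi (x : E) : P π x = P 0 (R x) := by
  rw [P_ap, P_ap, R_ap]; congr 1
  exact ext3 (by simp [V0, lm_ap]; ring) (by simp [V0, lm_ap]; ring) (by simp [V0, lm_ap]; ring)

lemma R_Om {δ : ℝ} {x : E} (h : x ∈ Om δ) : R x ∈ Om δ := by
  refine mem_Om.2 fun z hz => ?_
  rw [← RR z, ← map_sub, Rn]
  refine mem_Om.1 h _ ?_
  rcases hz with ⟨a, b⟩ | rfl | rfl | a
  · exact Or.inl ⟨by simp [R_ap, a], by rwa [Rn]⟩
  · exact Or.inr (Or.inr (Or.inl (ext3 (by simp [R_ap, qq]; norm_num) (by simp [R_ap, qq])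
      (by simp [R_ap, qq]))))
  · exact Or.inr (Or.inl (ext3 (by simp [R_ap, qq]; norm_num) (by simp [R_ap, qq])
      (by simp [R_ap, qq])))
  · exact Or.inr (Or.inr (Or.inr (by rwa [Rn])))

lemma R_d {δ : ℝ} (h0 : 0 < δ) (x : E) : infDist x (Om δ)ᶜ ≤ infDist (R x) (Om δ)ᶜ := by
  rw [le_infDist ⟨qq 1, not_Om (q_Z (Or.inl rfl)) (by simpa using h0.le)⟩]
  intro y hy
  refine (infDist_le_dist_of_mem (s := (Om δ)ᶜ) (y := R y) fun k => hy (RR y ▸ R_Om k)).trans_eq ?_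
  rw [dist_eq_norm, dist_eq_norm, ← Rn, map_sub, RR]

end H99.Mor
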