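import Mathlib
import Pool.Agent.H99.Mor9

set_option autoImplicit false

open MeasureTheory Set Filter Topology Metric Real

namespace H99.Mor

def Ch (δ σ : ℝ) : Set E := {x | 0 ≤ σ * x 0 ∧ 2 * δ / 2 ^ 20 ≤ infDist x (Om δ)ᶜ}

variable {δ : ℝ}

lemma Ch_sub (h0 : 0 < δ) (σ : ℝ) : Ch δ σ ⊆ Om δ := fun x hx => by
  by_contra k
  have := hx.2
  rw [infDist_zero_of_mem (s := (Om δ)ᶜ) k] at this
  exact absurd this (not_le.2 (by positivity))

lemma Ch_cpt (h0 : 0 < δ) (σ : ℝ) : IsCompact (Ch δ σ) :=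
  (isCompact_closedBall (0 : E) 1).of_isClosed_subset
    ((isClosed_le (f := fun _ : E => (0 : ℝ)) (g := fun x : E => σ * x 0) continuous_const
      (by fun_prop)).inter (isClosed_le continuous_const (continuous_infDist_pt (Om δ)ᶜ)))
    fun _ hx => mem_closedBall_zero_iff.2 (Om_lt h0 (Ch_sub h0 σ hx)).le

lemma R_Ch (h0 : 0 < δ) {σ : ℝ} {x : E} (h : x ∈ Ch δ σ) : R x ∈ Ch δ (-σ) :=
  ⟨by simpa [R_ap] using h.1, h.2.trans (R_d h0 x)⟩

theorem two_peaks : ∃ (δ θ : ℝ) (x x' : E), 0 < δ ∧ δ ≤ 1 / 1000 ∧ x ≠ x' ∧ ∀ z ∈ ({x, x'} : Set E),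
    z ∈ (P θ).symm ⁻¹' Om δ ∧ 0 < Hh (301 / 100) ((P θ).symm ⁻¹' Om δ) z ∧
      ∀ y ∈ (P θ).symm ⁻¹' Om δ,
        Hh (301 / 100) ((P θ).symm ⁻¹' Om δ) y ≤ Hh (301 / 100) ((P θ).symm ⁻¹' Om δ) z := by
  set p : ℝ := 301 / 100 with hp'
  have hp : 3 < p := by norm_num [hp']
  have p0 : 0 < p := by linarith
  obtain ⟨δ, ρ, h0, h1, h2, h3, gd⟩ := good hp (show (0 : ℝ) < 1 / 1000 by norm_num)
  have o := Om_open δ
  have hq : qq 1 ∉ Om δ := not_Om (q_Z (Or.inl rfl)) (by simpa using h0.le)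
  have c1 := nq (σ := 1) (by norm_num)
  set x0 := qq 1 + pt 0 (2 * ρ) 0 with hx0
  have n0 : ‖x0 - qq 1‖ = 2 * ρ := by
    rw [hx0, add_sub_cancel_left]
    exact (pow_left_inj₀ (norm_nonneg _) (by linarith) two_ne_zero).1 (by simp [nsq])
  have ann : ∀ y, δ < ‖y - qq 1‖ → ‖y - qq 1‖ < 1 / 8 → y ∈ Om δ := fun y a b => by
    have e := abs_le.1 (co (y - qq 1) 0)
    have e' := (le_abs_self _).trans (co (y - qq (-1)) 0)
    simp only [PiLp.sub_apply, qq, pt0] at e e'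
    simp only [qq] at a b c1
    refine Om_of (by linarith [norm_sub_norm_le y (pt (1 / 2) 0 (1 / 4))])
      (Or.inl (lt_of_lt_of_le (by linarith) (le_abs_self _))) a ?_
    simp only [qq]; linarith
  have g0 := gd _ _ _ o hq n0 ann
  have nr : ∀ y ∈ Om δ, infDist y (Om δ)ᶜ < 2 * δ / 2 ^ 20 → A p * Hh p (Om δ) y ^ p ≤ 7 / 3 := by
    intro y hy k
    obtain ⟨z, a, b⟩ := ext_ball h0 hy
    exact nearH hp le_rfl (dpos o hq hy) (by linarith) a b
  have m0 : x0 ∈ Ch δ 1 := ⟨by simp [hx0, qq], not_lt.1 fun k => by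
    linarith [nr x0 (ann x0 (by linarith) (by linarith)) k]⟩
  set f : ℝ → E → ℝ := fun θ y => Hh p ((P θ).symm ⁻¹' Om δ) (P θ y) with hf
  have hq' : ∀ θ, P θ (qq 1) ∉ (P θ).symm ⁻¹' Om δ := fun θ => by simpa using hq
  have fc : ∀ θ, ContinuousOn (f θ) (Om δ) := fun θ =>
    (Hh_cont hp (o.preimage (P θ).symm.continuous) (hq' θ)).comp (P θ).continuous.continuousOn
      fun y hy => by simpa using hy
  have ex : ∀ (θ : ℝ) (σ : Bool), ∃ m ∈ Ch δ (if σ then 1 else -1),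
      IsMaxOn (f θ) (Ch δ (if σ then 1 else -1)) m := fun θ σ =>
    (Ch_cpt h0 _).exists_isMaxOn (by cases σ; exacts [⟨_, R_Ch h0 m0⟩, ⟨_, m0⟩])
      ((fc θ).mono (Ch_sub h0 _))
  choose m mC mM using ex
  have cmp : ∀ θ θ' σ, f θ (m θ σ) ≤ kk θ θ' ^ 3 * f θ' (m θ' σ) := fun θ θ' σ =>
    (Hh_two hp o hq (P θ) (P θ') (kk_one θ θ') (Pd θ θ') (kk_comm θ θ' ▸ Pd θ' θ)
      (Ch_sub h0 _ (mC θ σ))).trans (mul_le_mul_of_nonneg_left (mM θ' σ (mC θ σ))
        (pow_nonneg (zero_le_one.trans (kk_one θ θ')) 3))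
  have Fc : ∀ σ, Continuous fun θ => f θ (m θ σ) := fun σ => continuous_iff_continuousAt.2 fun θ' => by
    have kc : Continuous fun θ => kk θ θ' ^ 3 := by unfold kk; fun_prop
    have kt : Tendsto (fun θ => kk θ θ' ^ 3) (𝓝 θ') (𝓝 1) := by simpa [kk] using kc.tendsto θ'
    refine tendsto_of_tendsto_of_tendsto_of_le_of_le (g := fun θ => f θ' (m θ' σ) / kk θ θ' ^ 3)
      (h := fun θ => kk θ θ' ^ 3 * f θ' (m θ' σ)) ?_ ?_ (fun θ => ?_) fun θ => cmp θ θ' σ
    · have := (tendsto_const_nhds (x := f θ' (m θ' σ))).div kt one_ne_zero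
      rw [div_one] at this
      exact this
    · simpa using kt.mul_const (f θ' (m θ' σ))
    · have := cmp θ' θ σ
      rw [kk_comm] at this
      exact (div_le_iff₀' (pow_pos (zero_lt_one.trans_le (kk_one θ θ')) 3)).2 this
  have fp : ∀ y, f π y = f 0 (R y) := fun y => by
    have e : (P π).symm ⁻¹' Om δ = (P 0).symm ⁻¹' Om δ := by
      ext x
      obtain ⟨y, rfl⟩ := (P π).surjective x
      rw [mem_preimage, mem_preimage, (P π).symm_apply_apply, P_pi, (P 0).symm_apply_apply]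
      exact ⟨R_Om, fun k => RR y ▸ R_Om k⟩
    simp only [hf, e, P_pi]
  have sw : ∀ σ, f π (m π σ) = f 0 (m 0 (!σ)) := fun σ => le_antisymm
    (by rw [fp]; exact mM 0 (!σ) (by have := R_Ch h0 (mC π σ); cases σ <;> simpa using this))
    (by rw [← RR (m 0 (!σ)), ← fp]; exact mM π σ (by
      have := R_Ch h0 (mC 0 (!σ)); cases σ <;> simpa using this))
  obtain ⟨θ, -, e⟩ := intermediate_value_uIcc (a := 0) (b := π)
    ((Fc true).sub (Fc false)).continuousOn (show (0 : ℝ) ∈ uIcc (f 0 (m 0 true) - f 0 (m 0 false))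
      (f π (m π true) - f π (m π false)) by
        rw [sw, sw, mem_uIcc]; simp only [Bool.not_true, Bool.not_false]
        rcases le_total (f 0 (m 0 true)) (f 0 (m 0 false)) with k | k
        exacts [Or.inl ⟨by linarith, by linarith⟩, Or.inr ⟨by linarith, by linarith⟩])
  have e' : f θ (m θ true) = f θ (m θ false) := sub_eq_zero.1 e
  have k1 : (1 : ℝ) ≤ 101 / 100 := by norm_num
  have Pa' : ∀ x, ‖x‖ ≤ 101 / 100 * ‖P θ x‖ := fun x => (Pa θ x).trans
    (le_mul_of_one_le_left (norm_nonneg _) k1)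
  have u1 : ∀ y ∈ Om δ, f θ y ≤ (101 / 100) ^ 3 * Hh p (Om δ) y := fun y hy =>
    Hh_two hp o hq (P θ) (ContinuousLinearEquiv.refl ℝ E) k1 (Pb θ) Pa' hy
  have u2 : Hh p (Om δ) x0 ≤ (101 / 100) ^ 3 * f θ (m θ true) :=
    (Hh_two hp o hq (ContinuousLinearEquiv.refl ℝ E) (P θ) k1 Pa' (Pb θ) (Ch_sub h0 _ m0)).trans
      (mul_le_mul_of_nonneg_left (mM θ true m0) (by positivity))
  have H0 := Hh_nn hp hq x0
  have A0 := A_pos hp
  have F0 : 0 < f θ (m θ true) := by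
    by_contra k
    have : Hh p (Om δ) x0 = 0 := le_antisymm (by nlinarith) H0
    rw [this, zero_rpow p0.ne'] at g0
    linarith
  have mx : ∀ y ∈ Om δ, f θ y ≤ f θ (m θ true) := fun y hy => by
    rcases le_or_gt (2 * δ / 2 ^ 20) (infDist y (Om δ)ᶜ) with k | k
    · rcases le_total 0 (y 0) with l | l
      · exact mM θ true ⟨by simpa using l, k⟩
      · rw [e']; exact mM θ false ⟨by simpa using l, k⟩
    by_contra l
    have b1 : Hh p (Om δ) x0 ≤ (101 / 100) ^ 6 * Hh p (Om δ) y := by linarith [u1 y hy]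
    have b2 := rpow_le_rpow H0 b1 p0.le
    have b3 : (((101 : ℝ) / 100) ^ 6) ^ p ≤ (101 / 100) ^ 19 := by
      rw [← rpow_natCast, ← rpow_mul (by norm_num), ← rpow_natCast]
      exact rpow_le_rpow_of_exponent_le k1 (by norm_num [hp'])
    have H1 := Hh_nn hp hq y
    rw [mul_rpow (by positivity) H1] at b2
    have b4 := b2.trans (mul_le_mul_of_nonneg_right b3 (rpow_nonneg H1 p))
    have b5 := mul_le_mul_of_nonneg_left b4 A0.le
    linarith [nr y hy k]
  refine ⟨δ, θ, P θ (m θ true), P θ (m θ false), h0, h1, fun k => ?_, ?_⟩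
  · have k' := (P θ).injective k
    have a := mC θ true
    have b := mC θ false
    rw [← k'] at b
    have z : m θ true 0 = 0 := le_antisymm (by simpa using b.1) (by simpa using a.1)
    have := mid_small h0 h1 (Ch_sub h0 _ a) z
    linarith [a.2]
  · have mx' : ∀ y ∈ (P θ).symm ⁻¹' Om δ, Hh p ((P θ).symm ⁻¹' Om δ) y ≤ f θ (m θ true) :=
      fun y hy => by simpa [hf] using mx _ hy
    rintro z (rfl | rfl)
    · exact ⟨by simpa using Ch_sub h0 _ (mC θ true), F0, mx'⟩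
    · exact ⟨by simpa using Ch_sub h0 _ (mC θ false), F0.trans_eq e', fun y hy =>
        (mx' y hy).trans_eq e'⟩

end H99.Mor
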