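import Pool.Agent.H99.NAPoissonDefs

noncomputable section

namespace Pool.Agent.H99.NAPoisson

variable {N : ℕ}

theorem word_nil : word ([] : List (Fin N)) = 1 := by simp [word]

theorem word_cons (j : Fin N) (w : List (Fin N)) : word (j :: w) = gen j * word w := by
  simp [word]

theorem basis_eq (w : FreeMonoid (Fin N)) :
    FreeAlgebra.basisFreeMonoid ℂ (Fin N) w = word w.toList := by
  have : ∀ l : List (Fin N), FreeMonoid.lift (FreeAlgebra.ι ℂ) (FreeMonoid.ofList l) = word l := by
    intro l
    rw [FreeMonoid.lift_ofList]; rfl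
  rw [← this]
  simp [FreeAlgebra.basisFreeMonoid, FreeAlgebra.equivMonoidAlgebraFreeMonoid]

theorem grad_word (k : Fin N) (w : List (Fin N)) : grad k (word w) = gradWord k w := by
  have := basis_eq (FreeMonoid.ofList w)
  rw [FreeMonoid.toList_ofList] at this
  rw [← this, grad, Module.Basis.constr_basis, FreeMonoid.toList_ofList]

theorem ext_word {M : Type} [AddCommGroup M] [Module ℂ M] {φ ψ : FA N →ₗ[ℂ] M}
    (h : ∀ w, φ (word w) = ψ (word w)) : φ = ψ :=
  (FreeAlgebra.basisFreeMonoid ℂ (Fin N)).ext fun w => by rw [basis_eq]; exact h _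

/-- generalised gradient -/
def DW (k : Fin N) (w : List (Fin N)) (p : FA N) : FA N :=
  ∑ i : Fin w.length,
    if w.get i = k then word (w.drop (i.1 + 1)) * p * word (w.take i.1) else 0

theorem DW_one (k : Fin N) (w : List (Fin N)) : DW k w 1 = gradWord k w := by
  simp [DW, gradWord]

theorem DW_nil (k : Fin N) (p : FA N) : DW k [] p = 0 := by simp [DW]

theorem DW_cons (k j : Fin N) (w : List (Fin N)) (p : FA N) :
    DW k (j :: w) p = (if j = k then word w * p else 0) + DW k w (p * gen j) := by
  unfold DW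
  erw [Fin.sum_univ_succ]
  congr 1
  · simp [word_nil]
  · refine Finset.sum_congr rfl fun i _ => ?_
    simp [word_cons, mul_assoc]

/-- the derivation sending `x_k` to `ξ k` -/
def der (ξ : Fin N → FA N) : FA N →ₗ[ℂ] FA N :=
  (TrivSqZeroExt.sndHom (FA N) (FA N)).restrictScalars ℂ ∘ₗ
    (FreeAlgebra.lift ℂ fun k =>
      (TrivSqZeroExt.inl (gen k) + TrivSqZeroExt.inr (ξ k) :
        TrivSqZeroExt (FA N) (FA N))).toLinearMap

theorem fst_lift (ξ : Fin N → FA N) (a : FA N) :
    (FreeAlgebra.lift ℂ (fun k =>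
      (TrivSqZeroExt.inl (gen k) + TrivSqZeroExt.inr (ξ k) :
        TrivSqZeroExt (FA N) (FA N))) a).fst = a := by
  have : (TrivSqZeroExt.fstHom ℂ (FA N) (FA N)).comp (FreeAlgebra.lift ℂ (fun k =>
      (TrivSqZeroExt.inl (gen k) + TrivSqZeroExt.inr (ξ k) :
        TrivSqZeroExt (FA N) (FA N)))) = AlgHom.id ℂ _ := by
    ext k
    simp [gen]
  exact DFunLike.congr_fun this a

theorem der_gen (ξ : Fin N → FA N) (k : Fin N) : der ξ (gen k) = ξ k := by
  simp [der, gen]

theorem der_one (ξ : Fin N → FA N) : der ξ 1 = 0 := by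
  simp [der]

theorem der_mul (ξ : Fin N → FA N) (a b : FA N) :
    der ξ (a * b) = der ξ a * b + a * der ξ b := by
  simp only [der, LinearMap.comp_apply, AlgHom.toLinearMap_apply, map_mul,
    LinearMap.restrictScalars_apply, TrivSqZeroExt.sndHom_apply, TrivSqZeroExt.snd_mul, fst_lift]
  simp [add_comm]

theorem der_unique (D : FA N →ₗ[ℂ] FA N) (hD : ∀ a b, D (a * b) = D a * b + a * D b) :
    D = der fun k => D (gen k) := by
  have h1 : D 1 = 0 := by
    have := hD 1 1
    simpa using this
  refine ext_word fun w => ?_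
  induction w with
  | nil => rw [word_nil, h1, der_one]
  | cons j w ih => rw [word_cons, hD, der_mul, ih, der_gen]

/-- tracial linear maps -/
def Tracial {M : Type} [AddCommGroup M] [Module ℂ M] (τ : FA N →ₗ[ℂ] M) : Prop :=
  ∀ a b, τ (a * b) = τ (b * a)

section
variable {M : Type} [AddCommGroup M] [Module ℂ M] {τ : FA N →ₗ[ℂ] M}

theorem Tracial.comm (hτ : Tracial τ) {z : FA N} (hz : z ∈ Comm N) : τ z = 0 := by
  have : Comm N ≤ LinearMap.ker τ := by
    refine Submodule.span_le.2 ?_
    rintro _ ⟨a, b, rfl⟩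
    simp [hτ a b]
  exact this hz

theorem tracial_mkQ : Tracial (Comm N).mkQ := by
  intro a b
  rw [← sub_eq_zero, ← map_sub, Submodule.mkQ_apply, Submodule.Quotient.mk_eq_zero]
  exact Submodule.subset_span ⟨a, b, rfl⟩

theorem Tracial.der_comp (hτ : Tracial τ) (ξ : Fin N → FA N) : Tracial (τ ∘ₗ der ξ) := by
  intro a b
  simp only [LinearMap.comp_apply, der_mul, map_add]
  rw [hτ (der ξ a), hτ a, add_comm]

theorem der_word (hτ : Tracial τ) (ξ : Fin N → FA N) (w : List (Fin N)) (p : FA N) :
    τ (der ξ (word w) * p) = τ (∑ k, ξ k * DW k w p) := by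
  induction w generalizing p with
  | nil => simp [word_nil, der_one, DW_nil]
  | cons j w ih =>
    rw [word_cons, der_mul, der_gen, add_mul, map_add, mul_assoc (gen j), hτ (gen j), mul_assoc _ p,
      ih]
    simp only [DW_cons, mul_add, Finset.sum_add_distrib, map_add]
    congr 2
    rw [Finset.sum_eq_single j] <;> simp +contextual [mul_assoc, eq_comm]

/-- the defining property of the gradient -/
theorem der_eq (hτ : Tracial τ) (ξ : Fin N → FA N) (a : FA N) :
    τ (der ξ a) = τ (∑ k, ξ k * grad k a) := by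
  have : τ ∘ₗ der ξ = τ ∘ₗ ∑ k, (LinearMap.mulLeft ℂ (ξ k)) ∘ₗ grad k := by
    refine ext_word fun w => ?_
    have := der_word hτ ξ w 1
    simp only [mul_one, DW_one] at this
    simp [this, grad_word]
  simpa using LinearMap.congr_fun this a

/-- the gauge identity -/
theorem gauge (hτ : Tracial τ) (f p : FA N) :
    τ (∑ k, p * (gen k * grad k f)) = τ (∑ k, p * (grad k f * gen k)) := by
  have hD := der_unique (LinearMap.mulLeft ℂ p - LinearMap.mulRight ℂ p) (by
    intro a b
    simp only [LinearMap.sub_apply, LinearMap.mulLeft_apply, LinearMap.mulRight_apply]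
    noncomm_ring)
  have h := der_eq hτ (fun k => (LinearMap.mulLeft ℂ p - LinearMap.mulRight ℂ p) (gen k)) f
  rw [← hD] at h
  simp only [LinearMap.sub_apply, LinearMap.mulLeft_apply, LinearMap.mulRight_apply, map_sub,
    sub_mul, Finset.sum_sub_distrib, hτ p f, sub_self] at h
  have h2 := (sub_eq_zero.1 h.symm)
  simp only [mul_assoc] at h2
  rw [h2, map_sum, map_sum]
  refine Finset.sum_congr rfl fun k _ => ?_
  rw [hτ (gen k), mul_assoc]

/-- symmetry of the Hessian -/
theorem hess_symm (hτ : Tracial τ) (ξ η : Fin N → FA N) (g : FA N) :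
    τ (∑ k, η k * der ξ (grad k g)) = τ (∑ k, ξ k * der η (grad k g)) := by
  have key : ∀ ξ η : Fin N → FA N, τ (der ξ (der η g)) =
      τ (∑ k, der ξ (η k) * grad k g) + τ (∑ k, η k * der ξ (grad k g)) := by
    intro ξ η
    have := der_eq (hτ.der_comp ξ) η g
    simp only [LinearMap.comp_apply] at this
    rw [this, ← map_add, map_sum, ← Finset.sum_add_distrib]
    simp only [der_mul]
  have hD := der_unique (der ξ ∘ₗ der η - der η ∘ₗ der ξ) (by
    intro a b
    simp only [LinearMap.sub_apply, LinearMap.comp_apply, der_mul, map_add]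
    noncomm_ring)
  have h := der_eq hτ (fun k => (der ξ ∘ₗ der η - der η ∘ₗ der ξ) (gen k)) g
  rw [← hD] at h
  simp only [LinearMap.sub_apply, LinearMap.comp_apply, der_gen, map_sub, sub_mul,
    Finset.sum_sub_distrib, key] at h
  have e : ∀ a b c d : M, a + b - (c + d) = a - c → b = d := fun a b c d h => by
    have : b - d = (a + b - (c + d)) - (a - c) := by abel
    rw [h, sub_self] at this
    exact sub_eq_zero.1 this
  exact e _ _ _ _ h

end

end Pool.Agent.H99.NAPoisson
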