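import Pool.Agent.H99.NAPoisson1

noncomputable section

namespace Pool.Agent.H99.NAPoisson

variable {N : ℕ}

def mulV (m : Fin N → Fin N → Fin N → ℂ) (F G : Fin N → FA N) (k : Fin N) : FA N :=
  ∑ i, ∑ j, m i j k • (F i * G j)

def Th (m : Fin N → Fin N → Fin N → ℂ) (Y F : Fin N → FA N) (i : Fin N) : FA N :=
  ∑ j, ∑ k, (m i j k • (F j * Y k) - m j i k • (Y k * F j))

def nab (f : FA N) (i : Fin N) : FA N := grad i f

theorem mulV_sub_left (m : Fin N → Fin N → Fin N → ℂ) (F F' G : Fin N → FA N) :
    mulV m (F - F') G = mulV m F G - mulV m F' G := by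
  funext k
  simp [mulV, sub_mul, smul_sub]

theorem mulV_sub_right (m : Fin N → Fin N → Fin N → ℂ) (F G G' : Fin N → FA N) :
    mulV m F (G - G') = mulV m F G - mulV m F G' := by
  funext k
  simp [mulV, mul_sub, smul_sub]

theorem der_Th (m : Fin N → Fin N → Fin N → ℂ) (ξ Y F : Fin N → FA N) (i : Fin N) :
    der ξ (Th m Y F i) = Th m (fun k => der ξ (Y k)) F i + Th m Y (fun k => der ξ (F k)) i := by
  simp only [Th, map_sum, map_sub, map_smul, der_mul, ← Finset.sum_add_distrib, smul_add]
  refine Finset.sum_congr rfl fun j _ => Finset.sum_congr rfl fun k _ => ?_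
  abel

section
variable {M : Type} [AddCommGroup M] [Module ℂ M] {τ : FA N →ₗ[ℂ] M}

def pr (τ : FA N →ₗ[ℂ] M) (F Y : Fin N → FA N) : M := τ (∑ k, F k * Y k)

def S4 (τ : FA N →ₗ[ℂ] M) (a : Fin N → Fin N → Fin N → Fin N → ℂ) (F G H : Fin N → FA N) : M :=
  ∑ i, ∑ j, ∑ l, ∑ k, a i j l k • τ (F i * G j * H l * gen k)

theorem pr_sub (F F' Y : Fin N → FA N) : pr τ (F - F') Y = pr τ F Y - pr τ F' Y := by
  simp [pr, sub_mul]

theorem pr_comm (hτ : Tracial τ) (F Y : Fin N → FA N) : pr τ F Y = pr τ Y F := by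
  simp only [pr, map_sum]
  exact Finset.sum_congr rfl fun k _ => hτ _ _

theorem pr_mulV (m : Fin N → Fin N → Fin N → ℂ) (F G Y : Fin N → FA N) :
    pr τ (mulV m F G) Y = ∑ i, ∑ j, ∑ k, m i j k • τ (F i * G j * Y k) := by
  simp only [pr, mulV, Finset.sum_mul, map_sum, smul_mul_assoc, map_smul]
  rw [Finset.sum_comm]
  refine Finset.sum_congr rfl fun i _ => ?_
  rw [Finset.sum_comm]

theorem pr_Th (hτ : Tracial τ) (m : Fin N → Fin N → Fin N → ℂ) (K Y F : Fin N → FA N) :
    pr τ K (Th m Y F) = pr τ (mulV m K F - mulV m F K) Y := by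
  rw [pr_sub, pr_mulV, pr_mulV, Finset.sum_comm (f := fun i j => ∑ k, m i j k • τ (F i * K j * Y k))]
  simp only [pr, Th, Finset.mul_sum, map_sum, mul_sub, mul_smul_comm, map_sub, map_smul,
    ← Finset.sum_sub_distrib]
  refine Finset.sum_congr rfl fun i _ => Finset.sum_congr rfl fun j _ =>
    Finset.sum_congr rfl fun k _ => ?_
  rw [← mul_assoc, ← mul_assoc, hτ (K i * Y k), mul_assoc (F j)]

theorem pr_Th_skew (hτ : Tracial τ) (m : Fin N → Fin N → Fin N → ℂ) (K Y F : Fin N → FA N) :
    pr τ K (Th m Y F) = - pr τ F (Th m Y K) := by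
  rw [pr_Th hτ, pr_Th hτ, pr_sub, pr_sub]; abel

theorem pr_assoc (m : Fin N → Fin N → Fin N → ℂ) (F G H : Fin N → FA N) :
    pr τ (mulV m (mulV m F G) H) gen - pr τ (mulV m F (mulV m G H)) gen =
      S4 τ (assoc m) F G H := by
  rw [pr_mulV, pr_mulV]
  simp only [S4, assoc, mulV, Finset.sum_mul, Finset.mul_sum, map_sum, smul_mul_assoc,
    mul_smul_comm, map_smul, Finset.smul_sum, Finset.sum_smul, sub_smul, Finset.sum_sub_distrib,
    smul_smul, mul_assoc]
  congr 1
  · calc _ = ∑ s, ∑ i, ∑ j, ∑ l, ∑ k, (m i j s * m s l k) • τ (F i * (G j * (H l * gen k))) := by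
          refine Finset.sum_congr rfl fun s _ => ?_
          calc _ = ∑ l, ∑ i, ∑ j, ∑ k, (m i j s * m s l k) • τ (F i * (G j * (H l * gen k))) := by
                refine Finset.sum_congr rfl fun l _ => ?_
                rw [Finset.sum_comm]
                refine Finset.sum_congr rfl fun i _ => ?_
                rw [Finset.sum_comm]
                simp only [mul_comm]
            _ = _ := by
                rw [Finset.sum_comm]
                refine Finset.sum_congr rfl fun i _ => ?_
                rw [Finset.sum_comm]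
      _ = _ := by
          rw [Finset.sum_comm]
          refine Finset.sum_congr rfl fun i _ => ?_
          rw [Finset.sum_comm]
          refine Finset.sum_congr rfl fun j _ => ?_
          rw [Finset.sum_comm]
          refine Finset.sum_congr rfl fun l _ => ?_
          rw [Finset.sum_comm]
  · refine Finset.sum_congr rfl fun i _ => ?_
    calc _ = ∑ s, ∑ j, ∑ l, ∑ k, (m j l s * m i s k) • τ (F i * (G j * (H l * gen k))) := by
          refine Finset.sum_congr rfl fun s _ => ?_
          rw [Finset.sum_comm]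
          refine Finset.sum_congr rfl fun j _ => ?_
          rw [Finset.sum_comm]
          simp only [mul_comm]
      _ = _ := by
          rw [Finset.sum_comm]
          refine Finset.sum_congr rfl fun j _ => ?_
          rw [Finset.sum_comm]
          refine Finset.sum_congr rfl fun l _ => ?_
          rw [Finset.sum_comm]

theorem bracket_eq (hτ : Tracial τ) (b bb : Fin N → Fin N → Fin N → ℂ) (f g : FA N) :
    τ (bracket b bb f g) = ∑ i, ∑ j, ∑ k, (b i j k • τ (grad i f * grad j g * gen k) +
      bb i j k • τ (grad j g * grad i f * gen k)) := by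
  simp only [bracket, Theta, Finset.mul_sum, map_sum, mul_add, mul_smul_comm, map_add, map_smul]
  refine Finset.sum_congr rfl fun i _ => Finset.sum_congr rfl fun j _ =>
    Finset.sum_congr rfl fun k _ => ?_
  rw [← mul_assoc, ← mul_assoc, hτ (grad i f * gen k), mul_assoc (grad j g)]

/-- the gauge-fixed product -/
def fix (b : Fin N → Fin N → Fin N → ℂ) (c : Fin N → ℂ) : Fin N → Fin N → Fin N → ℂ :=
  fun i j k => b i j k - c i * kr j k

theorem sum_kr (j : Fin N) (v : Fin N → M) (c : ℂ) : ∑ k, (c * kr j k) • v k = c • v j := by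
  rw [Finset.sum_eq_single j] <;> simp +contextual [kr, eq_comm]

theorem bracket_fix (hτ : Tracial τ) {b bb : Fin N → Fin N → Fin N → ℂ} {c : Fin N → ℂ}
    (hc : ∀ i j k, b i j k + bb j i k = c i * kr j k - c j * kr i k) (f g : FA N) :
    τ (bracket b bb f g) = pr τ (nab f) (Th (fix b c) gen (nab g)) := by
  rw [bracket_eq hτ, pr_Th hτ, pr_sub, pr_mulV, pr_mulV,
    Finset.sum_comm (f := fun i j => ∑ k, fix b c i j k • τ (nab g i * nab f j * gen k))]
  have hb : ∀ i j k, bb i j k = - fix b c j i k - c i * kr j k := by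
    intro i j k
    have := hc j i k
    simp only [fix]
    linear_combination this
  have hb' : ∀ i j k, b i j k = fix b c i j k + c i * kr j k := by
    intro i j k
    simp [fix]
  generalize fix b c = m at hb hb'
  simp only [hb, hb', nab, add_smul, sub_smul, neg_smul, Finset.sum_add_distrib,
    Finset.sum_sub_distrib, sum_kr, Finset.sum_neg_distrib]
  have : ∑ i, ∑ j, c i • τ (grad i f * grad j g * gen j) =
      ∑ i, ∑ j, c i • τ (grad j g * grad i f * gen j) := by
    refine Finset.sum_congr rfl fun i _ => ?_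
    have := gauge hτ g (grad i f)
    rw [← Finset.smul_sum, ← Finset.smul_sum]
    congr 1
    simp only [map_sum] at this
    simp only [mul_assoc]
    rw [← this]
    refine Finset.sum_congr rfl fun j _ => ?_
    rw [hτ (grad j g), mul_assoc]
  rw [this]
  abel

theorem skew_of (hτ : Tracial τ) {b bb : Fin N → Fin N → Fin N → ℂ} {c : Fin N → ℂ}
    (hc : ∀ i j k, b i j k + bb j i k = c i * kr j k - c j * kr i k) (f g : FA N) :
    τ (bracket b bb f g + bracket b bb g f) = 0 := by
  rw [map_add, bracket_fix hτ hc, bracket_fix hτ hc, pr_Th_skew hτ]; abel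

theorem double_eq (hτ : Tracial τ) {b bb : Fin N → Fin N → Fin N → ℂ} {c : Fin N → ℂ}
    (hc : ∀ i j k, b i j k + bb j i k = c i * kr j k - c j * kr i k) (f g h : FA N) :
    τ (bracket b bb f (bracket b bb g h)) =
      - pr τ (Th (fix b c) gen (nab h)) (fun k => der (Th (fix b c) gen (nab f)) (nab g k))
      + pr τ (Th (fix b c) gen (nab g)) (fun k => der (Th (fix b c) gen (nab f)) (nab h k))
      - pr τ (mulV (fix b c) (mulV (fix b c) (nab g) (nab h) - mulV (fix b c) (nab h) (nab g))
          (nab f) - mulV (fix b c) (nab f)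
            (mulV (fix b c) (nab g) (nab h) - mulV (fix b c) (nab h) (nab g))) gen := by
  rw [bracket_fix hτ hc, pr_Th_skew hτ, pr_comm hτ]
  have h1 := der_eq hτ (Th (fix b c) gen (nab f)) (bracket b bb g h)
  have h2 := bracket_fix (hτ.der_comp (Th (fix b c) gen (nab f))) hc g h
  simp only [LinearMap.comp_apply] at h2
  have h3 : pr τ (Th (fix b c) gen (nab f)) (nab (bracket b bb g h)) =
    pr (τ ∘ₗ der (Th (fix b c) gen (nab f))) (nab g) (Th (fix b c) gen (nab h)) := by
    rw [← h2, h1]; rfl
  rw [h3, ← pr_Th hτ, ← pr_Th hτ, pr_comm hτ (Th _ _ (nab h)), pr_comm hτ (Th _ _ (nab g)),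
    pr_Th_skew hτ _ (fun k => der (Th (fix b c) gen (nab f)) (nab h k))]
  simp only [pr, LinearMap.comp_apply, map_sum, der_mul, der_Th, der_gen, mul_add, map_add,
    Finset.sum_add_distrib]
  abel

/-- the Jacobiator in terms of the associator -/
theorem jacobi_eq (hτ : Tracial τ) {b bb : Fin N → Fin N → Fin N → ℂ} {c : Fin N → ℂ}
    (hc : ∀ i j k, b i j k + bb j i k = c i * kr j k - c j * kr i k) (f g h : FA N) :
    τ (bracket b bb f (bracket b bb g h) + bracket b bb g (bracket b bb h f) +
      bracket b bb h (bracket b bb f g)) =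
      - (S4 τ (assoc (fix b c)) (nab f) (nab g) (nab h) +
        S4 τ (assoc (fix b c)) (nab g) (nab h) (nab f) +
        S4 τ (assoc (fix b c)) (nab h) (nab f) (nab g) -
        S4 τ (assoc (fix b c)) (nab g) (nab f) (nab h) -
        S4 τ (assoc (fix b c)) (nab f) (nab h) (nab g) -
        S4 τ (assoc (fix b c)) (nab h) (nab g) (nab f)) := by
  rw [map_add, map_add, double_eq hτ hc, double_eq hτ hc, double_eq hτ hc]
  have hs : ∀ (ξ η : Fin N → FA N) (g : FA N), pr τ η (fun k => der ξ (nab g k)) =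
      pr τ ξ (fun k => der η (nab g k)) := fun ξ η g => hess_symm hτ ξ η g
  rw [hs (Th (fix b c) gen (nab f)) (Th (fix b c) gen (nab h)),
    hs (Th (fix b c) gen (nab f)) (Th (fix b c) gen (nab g)),
    hs (Th (fix b c) gen (nab g)) (Th (fix b c) gen (nab h))]
  simp only [← pr_assoc, pr_sub, mulV_sub_left, mulV_sub_right]
  abel

theorem S4_quasi (hτ : Tracial τ) {a : Fin N → Fin N → Fin N → Fin N → ℂ} {B : Fin N → Fin N → ℂ}
    (ha : ∀ i j l k, a i j l k = B i j * kr l k - B j l * kr i k) (f g h : FA N) :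
    S4 τ a (nab f) (nab g) (nab h) =
      (∑ i, ∑ j, ∑ l, B i j • τ (grad i f * grad j g * grad l h * gen l)) -
      ∑ j, ∑ l, ∑ i, B j l • τ (grad j g * grad l h * grad i f * gen i) := by
  simp only [S4, ha, sub_smul, Finset.sum_sub_distrib, sum_kr, nab]
  congr 1
  rw [Finset.sum_comm]
  refine Finset.sum_congr rfl fun j _ => ?_
  rw [Finset.sum_comm]
  refine Finset.sum_congr rfl fun l _ => ?_
  rw [← Finset.smul_sum, ← Finset.smul_sum]
  congr 1
  have := gauge hτ f (grad j g * grad l h)
  simp only [map_sum] at this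
  simp only [mul_assoc] at this ⊢
  rw [← this]
  refine Finset.sum_congr rfl fun i _ => ?_
  rw [hτ (grad i f)]
  simp only [mul_assoc]

end

theorem sufficiency {b bb : Fin N → Fin N → Fin N → ℂ} {c : Fin N → ℂ}
    (hc : ∀ i j k, b i j k + bb j i k = c i * kr j k - c j * kr i k) {B : Fin N → Fin N → ℂ}
    (ha : ∀ i j l k, assoc (fix b c) i j l k = B i j * kr l k - B j l * kr i k) :
    IsPoisson b bb := by
  refine ⟨fun f g => ?_, fun f g h => ?_⟩
  · rw [← Submodule.Quotient.mk_eq_zero, ← Submodule.mkQ_apply]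
    exact skew_of tracial_mkQ hc f g
  · rw [← Submodule.Quotient.mk_eq_zero, ← Submodule.mkQ_apply, jacobi_eq tracial_mkQ hc]
    simp only [S4_quasi tracial_mkQ ha]
    abel

end Pool.Agent.H99.NAPoisson
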