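import Pool.Agent.H99.NAPoisson2

noncomputable section

namespace Pool.Agent.H99.NAPoisson

open Matrix

variable {N : ℕ}

def lin (u : Fin N → ℂ) : FA N := ∑ i, u i • gen i

def bil (m : Fin N → Fin N → Fin N → ℂ) (u w : Fin N → ℂ) (k : Fin N) : ℂ :=
  ∑ i, ∑ l, m i l k * u i * w l

def tri (a : Fin N → Fin N → Fin N → Fin N → ℂ) (u v w : Fin N → ℂ) (k : Fin N) : ℂ :=
  ∑ i, ∑ j, ∑ l, a i j l k * u i * v j * w l

section
variable {M : Type} [AddCommGroup M] [Module ℂ M] {τ : FA N →ₗ[ℂ] M}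

def WG (τ : FA N →ₗ[ℂ] M) (u : Fin N → ℂ) (α f : FA N) : Prop :=
  ∀ i p, τ (p * grad i f) = u i • τ (p * α)

theorem der_pow (hτ : Tracial τ) (ξ : Fin N → FA N) (y : FA N) (m r : ℕ) :
    τ (der ξ (y ^ (m + 1)) * y ^ r) = ((m : ℂ) + 1) • τ (der ξ y * y ^ (m + r)) := by
  induction m generalizing r with
  | zero => simp
  | succ m ih =>
    rw [pow_succ' y (m + 1), der_mul, add_mul, map_add, mul_assoc y, hτ y, mul_assoc, mul_assoc,
      ← pow_succ, ih, ← pow_add, show m + (r + 1) = m + 1 + r by ring]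
    push_cast
    rw [add_smul ((m : ℂ) + 1), one_smul, add_comm]

theorem wg_pow (hτ : Tracial τ) (u : Fin N → ℂ) (m : ℕ) :
    WG τ u (lin u ^ m) (((m : ℂ) + 1)⁻¹ • lin u ^ (m + 1)) := by
  intro i p
  have h := der_eq hτ (Pi.single i p) (lin u ^ (m + 1))
  have h2 := der_pow hτ (Pi.single i p) (lin u) m 0
  have h3 : der (Pi.single i p) (lin u) = u i • p := by
    simp only [lin, map_sum, map_smul, der_gen]
    rw [Finset.sum_eq_single i] <;> simp +contextual
  rw [Finset.sum_eq_single i (by simp +contextual) (by simp)] at h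
  rw [pow_zero, mul_one, h, h3] at h2
  have hm : (m : ℂ) + 1 ≠ 0 := by exact_mod_cast Nat.succ_ne_zero m
  simp only [Pi.single_eq_same, add_zero, smul_mul_assoc, map_smul] at h2
  rw [map_smul, mul_smul_comm, map_smul, h2, smul_smul, inv_mul_cancel₀ hm, one_smul]

theorem WG.rot (hτ : Tracial τ) {u : Fin N → ℂ} {α f : FA N} (h : WG τ u α f) (i : Fin N)
    (p q : FA N) : τ (p * grad i f * q) = u i • τ (p * α * q) := by
  rw [hτ, ← mul_assoc, h, mul_assoc, hτ]

theorem S4_wg (hτ : Tracial τ) (a : Fin N → Fin N → Fin N → Fin N → ℂ) {u v w : Fin N → ℂ}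
    {α β γ f g h : FA N} (hf : WG τ u α f) (hg : WG τ v β g) (hh : WG τ w γ h) :
    S4 τ a (nab f) (nab g) (nab h) = τ (α * β * γ * lin (tri a u v w)) := by
  have e : ∀ i j l k, τ (grad i f * grad j g * grad l h * gen k) =
      (u i * v j * w l) • τ (α * β * γ * gen k) := by
    intro i j l k
    rw [hh.rot hτ, mul_assoc _ γ, hg.rot hτ, ← one_mul (grad i f), mul_assoc _ β, hf.rot hτ,
      smul_smul, smul_smul]
    simp only [one_mul, mul_assoc]
    congr 1
    ring
  simp only [S4, nab, e, lin, tri, Finset.mul_sum, Finset.sum_smul, map_sum, mul_smul_comm,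
    map_smul, smul_smul]
  symm
  rw [Finset.sum_comm]
  refine Finset.sum_congr rfl fun i _ => ?_
  rw [Finset.sum_comm]
  refine Finset.sum_congr rfl fun j _ => ?_
  rw [Finset.sum_comm]
  simp only [mul_assoc]

theorem S3_wg (hτ : Tracial τ) (s : Fin N → Fin N → Fin N → ℂ) {u v : Fin N → ℂ}
    {α β f g : FA N} (hf : WG τ u α f) (hg : WG τ v β g) :
    ∑ i, ∑ j, ∑ k, s i j k • τ (grad i f * grad j g * gen k) = τ (α * β * lin (bil s u v)) := by
  have e : ∀ i j k, τ (grad i f * grad j g * gen k) = (u i * v j) • τ (α * β * gen k) := by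
    intro i j k
    rw [hg.rot hτ, ← one_mul (grad i f), mul_assoc _ β, hf.rot hτ, smul_smul]
    simp only [one_mul, mul_assoc]
    congr 1
    ring
  simp only [e, lin, bil, Finset.mul_sum, Finset.sum_smul, map_sum, mul_smul_comm,
    map_smul, smul_smul]
  symm
  rw [Finset.sum_comm]
  refine Finset.sum_congr rfl fun i _ => ?_
  rw [Finset.sum_comm]
  simp only [mul_assoc]

theorem skew_eq (hτ : Tracial τ) (b bb : Fin N → Fin N → Fin N → ℂ) (f g : FA N) :
    τ (bracket b bb f g + bracket b bb g f) =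
      ∑ i, ∑ j, ∑ k, (b i j k + bb j i k) • τ (grad i f * grad j g * gen k) +
      ∑ i, ∑ j, ∑ k, (b i j k + bb j i k) • τ (grad i g * grad j f * gen k) := by
  rw [map_add, bracket_eq hτ, bracket_eq hτ]
  simp only [add_smul, Finset.sum_add_distrib]
  rw [Finset.sum_comm (f := fun i j => ∑ k, bb i j k • τ (grad j g * grad i f * gen k)),
    Finset.sum_comm (f := fun i j => ∑ k, bb i j k • τ (grad j f * grad i g * gen k))]
  abel

end

/-- trace of the evaluation at matrices -/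
def trv {n : ℕ} (X : Fin N → Matrix (Fin n) (Fin n) ℂ) : FA N →ₗ[ℂ] ℂ :=
  Matrix.traceLinearMap (Fin n) ℂ ℂ ∘ₗ (FreeAlgebra.lift ℂ X).toLinearMap

theorem trv_apply {n : ℕ} (X : Fin N → Matrix (Fin n) (Fin n) ℂ) (a : FA N) :
    trv X a = (FreeAlgebra.lift ℂ X a).trace := rfl

theorem tracial_trv {n : ℕ} (X : Fin N → Matrix (Fin n) (Fin n) ℂ) : Tracial (trv X) := by
  intro a b
  rw [trv_apply, trv_apply, map_mul, map_mul, Matrix.trace_mul_comm]

def XX {n : ℕ} (X : Fin N → Matrix (Fin n) (Fin n) ℂ) (u : Fin N → ℂ) :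
    Matrix (Fin n) (Fin n) ℂ := ∑ i, u i • X i

theorem ev_lin {n : ℕ} (X : Fin N → Matrix (Fin n) (Fin n) ℂ) (u : Fin N → ℂ) :
    FreeAlgebra.lift ℂ X (lin u) = XX X u := by
  simp [lin, XX, gen]

theorem XX_three {n : ℕ} (α γ t u : Fin N → ℂ) (P Q R : Matrix (Fin n) (Fin n) ℂ) :
    XX (fun i => α i • P + γ i • Q + t i • R) u = (α ⬝ᵥ u) • P + (γ ⬝ᵥ u) • Q + (t ⬝ᵥ u) • R := by
  simp only [XX, dotProduct, smul_add, smul_smul, Finset.sum_add_distrib, Finset.sum_smul,
    mul_comm]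

def Good {n : ℕ} (X : Fin N → Matrix (Fin n) (Fin n) ℂ) (u : Fin N → ℂ)
    (A : Matrix (Fin n) (Fin n) ℂ) : Prop :=
  ∃ α f, FreeAlgebra.lift ℂ X α = A ∧ WG (trv X) u α f

theorem good_poly {n : ℕ} (X : Fin N → Matrix (Fin n) (Fin n) ℂ) (u : Fin N → ℂ)
    (c0 c1 c2 c3 : ℂ) {A : Matrix (Fin n) (Fin n) ℂ}
    (hA : A = c0 • XX X u ^ 0 + c1 • XX X u ^ 1 + c2 • XX X u ^ 2 + c3 • XX X u ^ 3) :
    Good X u A := by
  have key : ∀ m : ℕ, ∃ f, WG (trv X) u (lin u ^ m) f := fun m => ⟨_, wg_pow (tracial_trv X) u m⟩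
  choose F hF using key
  refine ⟨c0 • lin u ^ 0 + c1 • lin u ^ 1 + c2 • lin u ^ 2 + c3 • lin u ^ 3,
    c0 • F 0 + c1 • F 1 + c2 • F 2 + c3 • F 3, ?_, fun i p => ?_⟩
  · simp only [hA, map_add, map_smul, map_pow, ev_lin]
  · simp only [map_add, map_smul, mul_add, mul_smul_comm]
    rw [hF 0, hF 1, hF 2, hF 3]
    simp only [smul_eq_mul]
    ring

/-- the alternating condition -/
def Alt (a : Fin N → Fin N → Fin N → Fin N → ℂ) : Prop :=
  ∀ (n : ℕ) (X : Fin N → Matrix (Fin n) (Fin n) ℂ) (f g h : FA N),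
    S4 (trv X) a (nab f) (nab g) (nab h) + S4 (trv X) a (nab g) (nab h) (nab f) +
      S4 (trv X) a (nab h) (nab f) (nab g) - S4 (trv X) a (nab g) (nab f) (nab h) -
      S4 (trv X) a (nab f) (nab h) (nab g) - S4 (trv X) a (nab h) (nab g) (nab f) = 0

theorem Alt.star {a : Fin N → Fin N → Fin N → Fin N → ℂ} (ha : Alt a) {n : ℕ}
    {X : Fin N → Matrix (Fin n) (Fin n) ℂ} {u v w : Fin N → ℂ} {A B C : Matrix (Fin n) (Fin n) ℂ}
    (hA : Good X u A) (hB : Good X v B) (hC : Good X w C) :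
    (A * B * C * XX X (tri a u v w)).trace + (B * C * A * XX X (tri a v w u)).trace +
      (C * A * B * XX X (tri a w u v)).trace - (B * A * C * XX X (tri a v u w)).trace -
      (A * C * B * XX X (tri a u w v)).trace - (C * B * A * XX X (tri a w v u)).trace = 0 := by
  obtain ⟨α, f, rfl, hf⟩ := hA
  obtain ⟨β, g, rfl, hg⟩ := hB
  obtain ⟨γ, h, rfl, hh⟩ := hC
  have := ha n X f g h
  have ht := tracial_trv X
  rw [S4_wg ht a hf hg hh, S4_wg ht a hg hh hf, S4_wg ht a hh hf hg, S4_wg ht a hg hf hh,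
    S4_wg ht a hf hh hg, S4_wg ht a hh hg hf] at this
  simpa only [trv_apply, map_mul, ev_lin] using this

theorem Alt.sub_quasi {a : Fin N → Fin N → Fin N → Fin N → ℂ} (ha : Alt a)
    (B : Fin N → Fin N → ℂ) :
    Alt fun i j l k => a i j l k - (B i j * kr l k - B j l * kr i k) := by
  intro n X f g h
  have e : ∀ F G H, S4 (trv X) (fun i j l k => a i j l k - (B i j * kr l k - B j l * kr i k))
      F G H = S4 (trv X) a F G H -
        S4 (trv X) (fun i j l k => B i j * kr l k - B j l * kr i k) F G H := by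
    intro F G H
    simp only [S4, ← Finset.sum_sub_distrib, sub_smul (a _ _ _ _)]
  have := ha n X f g h
  simp only [e, S4_quasi (tracial_trv X) (fun _ _ _ _ => rfl : ∀ i j l k,
    (fun i j l k => B i j * kr l k - B j l * kr i k) i j l k = B i j * kr l k - B j l * kr i k)]
  linear_combination this

theorem skew_star {b bb : Fin N → Fin N → Fin N → ℂ} (hP : IsPoisson b bb) {n : ℕ}
    {X : Fin N → Matrix (Fin n) (Fin n) ℂ} {u v : Fin N → ℂ} {A B : Matrix (Fin n) (Fin n) ℂ}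
    (hA : Good X u A) (hB : Good X v B) :
    (A * B * XX X (bil (fun i j k => b i j k + bb j i k) u v)).trace +
      (B * A * XX X (bil (fun i j k => b i j k + bb j i k) v u)).trace = 0 := by
  obtain ⟨α, f, rfl, hf⟩ := hA
  obtain ⟨β, g, rfl, hg⟩ := hB
  have ht := tracial_trv X
  have := ht.comm (hP.1 f g)
  rw [skew_eq ht, S3_wg ht (fun i j k => b i j k + bb j i k) hf hg,
    S3_wg ht (fun i j k => b i j k + bb j i k) hg hf] at this
  simpa only [trv_apply, map_mul, ev_lin] using this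

theorem alt_of {b bb : Fin N → Fin N → Fin N → ℂ} (hP : IsPoisson b bb) {c : Fin N → ℂ}
    (hc : ∀ i j k, b i j k + bb j i k = c i * kr j k - c j * kr i k) :
    Alt (assoc (fix b c)) := by
  intro n X f g h
  have ht := tracial_trv X
  have := ht.comm (hP.2 f g h)
  rw [jacobi_eq ht hc] at this
  exact neg_eq_zero.1 this

end Pool.Agent.H99.NAPoisson
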