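import Pool.Agent.H99.NAPoisson3

noncomputable section

namespace Pool.Agent.H99.NAPoisson

open Matrix

variable {N : ℕ}

theorem bil_add_left (m : Fin N → Fin N → Fin N → ℂ) (u u' w : Fin N → ℂ) :
    bil m (u + u') w = bil m u w + bil m u' w := by
  funext k; simp [bil, mul_add, add_mul, Finset.sum_add_distrib]

theorem bil_add_right (m : Fin N → Fin N → Fin N → ℂ) (u w w' : Fin N → ℂ) :
    bil m u (w + w') = bil m u w + bil m u w' := by
  funext k; simp [bil, mul_add, Finset.sum_add_distrib]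

theorem bil_single (m : Fin N → Fin N → Fin N → ℂ) (i l : Fin N) (x y : ℂ) :
    bil m (Pi.single i x) (Pi.single l y) = fun k => x * y * m i l k := by
  funext k
  unfold bil
  rw [Finset.sum_eq_single i (by simp +contextual) (by simp),
    Finset.sum_eq_single l (by simp +contextual) (by simp)]
  simp only [Pi.single_eq_same]
  ring

/-- the linear algebra lemma -/
theorem linalg (m : Fin N → Fin N → Fin N → ℂ) (σ : Fin N → Fin N) (hσ : ∀ i, σ i ≠ i)
    (hA : ∀ u w α γ t : Fin N → ℂ, α ⬝ᵥ u = 1 → α ⬝ᵥ w = 0 → γ ⬝ᵥ w = 1 → γ ⬝ᵥ u = 0 →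
      t ⬝ᵥ u = 0 → t ⬝ᵥ w = 0 → (∃ v, t ⬝ᵥ v = 1) → t ⬝ᵥ bil m u w = 0)
    (hB : ∀ u α t : Fin N → ℂ, α ⬝ᵥ u = 1 → t ⬝ᵥ u = 0 → (∃ v, t ⬝ᵥ v = 1) →
      t ⬝ᵥ bil m u u = 0) :
    ∃ p q : Fin N → ℂ, ∀ i l k, m i l k = p l * kr i k + q i * kr l k := by
  have F1 : ∀ i l k, k ≠ i → k ≠ l → m i l k = 0 := by
    intro i l k hi hl
    by_cases h : i = l
    · subst h
      have := hB (Pi.single i 1) (Pi.single i 1) (Pi.single k 1) (by simp) (by simp [hi])
        ⟨Pi.single k 1, by simp⟩
      simpa [bil_single] using this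
    · have := hA (Pi.single i 1) (Pi.single l 1) (Pi.single i 1) (Pi.single l 1) (Pi.single k 1)
        (by simp) (by simp [h]) (by simp) (by simp [Ne.symm h]) (by simp [hi]) (by simp [hl])
        ⟨Pi.single k 1, by simp⟩
      simpa [bil_single] using this
  have F2 : ∀ i i' l, i ≠ l → i' ≠ l → m i l i = m i' l i' := by
    intro i i' l hi hi'
    by_cases h : i = i'
    · rw [h]
    have := hA (Pi.single i 1 + Pi.single i' 1) (Pi.single l 1) (Pi.single i 1) (Pi.single l 1)
      (Pi.single i 1 - Pi.single i' 1) (by simp [h]) (by simp [hi]) (by simp)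
      (by simp [Ne.symm hi, Ne.symm hi']) (by simp [h, Ne.symm h]) (by simp [hi, hi'])
      ⟨Pi.single i 1, by simp [Ne.symm h]⟩
    simp only [bil_add_left, bil_single, sub_dotProduct, single_dotProduct, Pi.add_apply,
      F1 i' l i h hi, F1 i l i' (Ne.symm h) hi'] at this
    linear_combination this
  have F3 : ∀ i l l', l ≠ i → l' ≠ i → m i l l = m i l' l' := by
    intro i l l' hl hl'
    by_cases h : l = l'
    · rw [h]
    have := hA (Pi.single i 1) (Pi.single l 1 + Pi.single l' 1) (Pi.single i 1) (Pi.single l 1)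
      (Pi.single l 1 - Pi.single l' 1) (by simp) (by simp [Ne.symm hl, Ne.symm hl']) (by simp [h])
      (by simp [hl]) (by simp [hl, hl']) (by simp [h, Ne.symm h])
      ⟨Pi.single l 1, by simp [Ne.symm h]⟩
    simp only [bil_add_right, bil_single, sub_dotProduct, single_dotProduct, Pi.add_apply,
      F1 i l' l hl h, F1 i l l' hl' (Ne.symm h)] at this
    linear_combination this
  have F4 : ∀ i l, l ≠ i → m i i i = m l i l + m i l l := by
    intro i l h
    have key : ∀ s : ℂ, (Pi.single i s - Pi.single l 1) ⬝ᵥ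
        bil m (Pi.single i 1 + Pi.single l s) (Pi.single i 1 + Pi.single l s) = 0 := fun s =>
      hB _ (Pi.single i 1) _ (by simp [Ne.symm h]) (by simp [h, Ne.symm h])
        ⟨Pi.single l (-1), by simp [Ne.symm h]⟩
    have k1 := key 1
    have k2 := key (-1)
    simp only [bil_add_right, bil_add_left, bil_single, sub_dotProduct, single_dotProduct,
      Pi.add_apply, F1 i i l h h, F1 l l i (Ne.symm h) (Ne.symm h)] at k1 k2
    linear_combination (k1 - k2) / 2
  refine ⟨fun l => m (σ l) l (σ l), fun i => m i (σ i) (σ i), fun i l k => ?_⟩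
  by_cases hi : i = k
  · subst hi
    by_cases hl : l = i
    · subst hl
      simp [kr, F4 l (σ l) (hσ l)]
    · simp [kr, hl, F2 i (σ l) l (Ne.symm hl) (hσ l)]
  · by_cases hl : l = k
    · subst hl
      simp [kr, hi, F3 i l (σ i) (Ne.symm hi) (hσ i)]
    · simp [kr, hi, hl, F1 i l k (Ne.symm hi) (Ne.symm hl)]

theorem skew_nec {b bb : Fin N → Fin N → Fin N → ℂ} (hP : IsPoisson b bb) :
    ∃ c : Fin N → ℂ, ∀ i j k, b i j k + bb j i k = c i * kr j k - c j * kr i k := by
  set s : Fin N → Fin N → Fin N → ℂ := fun i j k => b i j k + bb j i k with hs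
  have anti : ∀ u v t : Fin N → ℂ, t ⬝ᵥ bil s u v + t ⬝ᵥ bil s v u = 0 := by
    intro u v t
    have := skew_star hP (X := fun i => t i • (1 : Matrix (Fin 1) (Fin 1) ℂ) + t i • 0 + t i • 0)
      (u := u) (v := v) (A := 1) (B := 1) (good_poly _ _ 1 0 0 0 (by simp))
      (good_poly _ _ 1 0 0 0 (by simp))
    simp only [XX_three] at this
    simpa using this
  have anti' : ∀ i j k, s i j k + s j i k = 0 := by
    intro i j k
    simpa [bil_single] using anti (Pi.single i 1) (Pi.single j 1) (Pi.single k 1)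
  rcases subsingleton_or_nontrivial (Fin N) with hN | hN
  · refine ⟨0, fun i j k => ?_⟩
    have := anti' i j k
    rw [Subsingleton.elim j i] at this ⊢
    simp only [Pi.zero_apply, zero_mul, sub_zero]
    change s i i k = 0
    linear_combination this / 2
  choose σ hσ using fun i : Fin N => exists_ne i
  obtain ⟨p, q, hpq⟩ := linalg s σ hσ (by
    intro u v α γ t h1 h2 h3 h4 h5 h6 _
    have := skew_star hP (X := fun i => α i • (single 0 1 1 : Matrix (Fin 3) (Fin 3) ℂ) +
      γ i • single 1 2 1 + t i • single 2 0 1)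
      (u := u) (v := v) (A := single 0 1 1) (B := single 1 2 1)
      (good_poly _ _ 0 1 0 0 (by rw [XX_three]; simp [h1, h4, h5]))
      (good_poly _ _ 0 1 0 0 (by rw [XX_three]; simp [h2, h3, h6]))
    simp only [XX_three] at this
    simpa [trace_single_mul] using this) (by
    intro u α t _ _ _
    linear_combination anti u u t / 2)
  refine ⟨q, fun i j k => ?_⟩
  have h1 := anti' (σ j) j (σ j)
  rw [hpq, hpq] at h1
  simp only [kr, (hσ j).symm, if_true, if_false, mul_one, mul_zero, add_zero, zero_add] at h1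
  have := hpq i j k
  simp only [hs] at this
  rw [this]
  linear_combination h1 * kr i k

theorem tri_mid (a : Fin N → Fin N → Fin N → Fin N → ℂ) (u v v' w : Fin N → ℂ) (c : ℂ) :
    tri a u (v + c • v') w = tri a u v w + c • tri a u v' w := by
  funext k
  simp only [tri, Pi.add_apply, Pi.smul_apply, smul_eq_mul, Finset.mul_sum,
    ← Finset.sum_add_distrib]
  refine Finset.sum_congr rfl fun i _ => Finset.sum_congr rfl fun j _ =>
    Finset.sum_congr rfl fun l _ => ?_
  ring

theorem extend_mid {a : Fin N → Fin N → Fin N → Fin N → ℂ} {u w t : Fin N → ℂ}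
    (h : ∀ v, t ⬝ᵥ v = 1 → t ⬝ᵥ tri a u v w = 0) (h0 : ∃ v, t ⬝ᵥ v = 1) (v : Fin N → ℂ) :
    t ⬝ᵥ tri a u v w = 0 := by
  obtain ⟨v0, hv0⟩ := h0
  have h1 := h (v + (1 - t ⬝ᵥ v) • v0) (by simp [hv0])
  rw [tri_mid, dotProduct_add, dotProduct_smul, h v0 hv0] at h1
  simpa using h1

theorem Alt.lemA {a : Fin N → Fin N → Fin N → Fin N → ℂ} (ha : Alt a) (u v w α γ t : Fin N → ℂ)
    (h1 : α ⬝ᵥ u = 1) (h2 : α ⬝ᵥ w = 0) (h3 : γ ⬝ᵥ w = 1) (h4 : γ ⬝ᵥ u = 0) (h5 : t ⬝ᵥ u = 0)
    (h6 : t ⬝ᵥ w = 0) (h7 : t ⬝ᵥ v = 1) : t ⬝ᵥ tri a u v w = 0 := by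
  have := ha.star (X := fun i => (α - (α ⬝ᵥ v) • t) i • (single 0 1 1 : Matrix (Fin 4) (Fin 4) ℂ) +
      (γ - (γ ⬝ᵥ v) • t) i • single 2 3 1 + t i • (single 1 2 1 + single 3 0 1 + single 0 0 1))
    (u := u) (v := v) (w := w) (A := single 0 1 1) (B := single 1 2 1) (C := single 2 3 1)
    (good_poly _ _ 0 1 0 0 (by rw [XX_three]; simp [h1, h4, h5]))
    (good_poly _ _ 0 1 (-1) 0 (by
      rw [XX_three]
      simp [h7, pow_two, add_mul, mul_add]
      abel))
    (good_poly _ _ 0 1 0 0 (by rw [XX_three]; simp [h2, h3, h6]))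
  simp only [XX_three] at this
  simpa [trace_single_mul] using this

theorem Alt.lemB {a : Fin N → Fin N → Fin N → Fin N → ℂ} (ha : Alt a) (u v α t : Fin N → ℂ)
    (h1 : α ⬝ᵥ u = 1) (h5 : t ⬝ᵥ u = 0) (h7 : t ⬝ᵥ v = 1) : t ⬝ᵥ tri a u v u = 0 := by
  have := ha.star (X := fun i => (α - (α ⬝ᵥ v) • t) i •
      (single 0 1 1 + single 2 2 1 + single 3 3 1 + single 2 3 1 : Matrix (Fin 4) (Fin 4) ℂ) +
      t i • 0 + t i • (single 1 2 1 + single 3 0 1 + single 0 0 1))
    (u := u) (v := v) (w := u) (A := single 0 1 1) (B := single 1 2 1) (C := single 2 3 1)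
    (good_poly _ _ 0 1 (-2) 1 (by
      rw [XX_three]
      simp [h1, h5, pow_succ, add_mul, mul_add, -smul_single]
      module))
    (good_poly _ _ 0 1 (-1) 0 (by
      rw [XX_three]
      simp [h7, pow_two, add_mul, mul_add]
      abel))
    (good_poly _ _ 0 0 (-1) 1 (by
      rw [XX_three]
      simp [h1, h5, pow_succ, add_mul, mul_add]
      abel))
  simp only [XX_three] at this
  simpa [trace_single_mul] using this

theorem tri_single (a : Fin N → Fin N → Fin N → Fin N → ℂ) (u w : Fin N → ℂ) (j : Fin N) :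
    tri a u (Pi.single j 1) w = bil (fun i l k => a i j l k) u w := by
  funext k
  unfold tri bil
  refine Finset.sum_congr rfl fun i _ => ?_
  rw [Finset.sum_eq_single j (by simp +contextual) (by simp)]
  simp

def RR (r : Fin N → Fin N → ℂ) (v w : Fin N → ℂ) : ℂ := ∑ j, ∑ l, r j l * v j * w l

theorem tri_R (r : Fin N → Fin N → ℂ) (u v w : Fin N → ℂ) :
    tri (fun i j l k => r j l * kr i k) u v w = RR r v w • u := by
  funext k
  unfold tri
  rw [Finset.sum_eq_single k (by simp +contextual [kr]) (by simp)]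
  simp only [RR, kr, if_true, Pi.smul_apply, smul_eq_mul, Finset.sum_mul]
  refine Finset.sum_congr rfl fun j _ => Finset.sum_congr rfl fun l _ => ?_
  ring

theorem RR_single (r : Fin N → Fin N → ℂ) (j l : Fin N) (x y : ℂ) :
    RR r (Pi.single j x) (Pi.single l y) = x * y * r j l := by
  unfold RR
  rw [Finset.sum_eq_single j (by simp +contextual) (by simp),
    Finset.sum_eq_single l (by simp +contextual) (by simp)]
  simp only [Pi.single_eq_same]
  ring

theorem RR_add (r : Fin N → Fin N → ℂ) (v w w' : Fin N → ℂ) :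
    RR r v (w + w') = RR r v w + RR r v w' := by
  simp [RR, mul_add, Finset.sum_add_distrib]

theorem r_symm {r : Fin N → Fin N → ℂ} (ha : Alt fun i j l k => r j l * kr i k) {i j : Fin N}
    (h : i ≠ j) : r i j = r j i := by
  have := ha.star (X := fun s => (Pi.single i 1 : Fin N → ℂ) s •
      (single 0 1 1 : Matrix (Fin 2) (Fin 2) ℂ) +
      (Pi.single j 1 : Fin N → ℂ) s • single 1 0 1 + (0 : Fin N → ℂ) s • 0)
    (u := Pi.single i 1) (v := Pi.single j 1) (w := Pi.single i 1 + Pi.single j 1)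
    (A := single 0 1 1) (B := single 1 0 1) (C := single 0 1 1 + single 1 0 1)
    (good_poly _ _ 0 1 0 0 (by rw [XX_three]; simp [h.symm]))
    (good_poly _ _ 0 1 0 0 (by rw [XX_three]; simp [h]))
    (good_poly _ _ 0 1 0 0 (by rw [XX_three]; simp [h, h.symm]))
  simp only [XX_three, tri_R] at this
  simp [h, h.symm, RR_single, add_mul, mul_add] at this
  linear_combination this

theorem r_test {r : Fin N → Fin N → ℂ} (ha : Alt fun i j l k => r j l * kr i k) {i j : Fin N}
    (h : i ≠ j) (s : ℂ) (hs : s * s = 1) : s * r i j + s * r j i + r j j = 0 := by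
  have := ha.star (X := fun x => (Pi.single i s : Fin N → ℂ) x •
      (1 + single 2 1 1 + single 0 2 1 : Matrix (Fin 3) (Fin 3) ℂ) +
      (Pi.single j 1 : Fin N → ℂ) x • (single 1 0 1 - single 0 2 1) + (0 : Fin N → ℂ) x • 0)
    (u := Pi.single i s) (v := Pi.single j 1) (w := Pi.single i (-s) + Pi.single j (-1))
    (A := single 0 1 1) (B := - single 1 2 1) (C := single 2 0 1)
    (good_poly _ _ 1 (-2) 1 0 (by
      rw [XX_three]
      simp [h.symm, hs, pow_two, add_mul, mul_add, -smul_single]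
      module))
    (good_poly _ _ 0 0 1 0 (by
      rw [XX_three]
      simp [h, pow_two, sub_mul, mul_sub]))
    (good_poly _ _ 1 2 1 0 (by
      rw [XX_three]
      simp [h, h.symm, hs, pow_two, add_mul, mul_add, sub_mul, mul_sub, -smul_single]
      module))
  simp only [XX_three, tri_R] at this
  simp [h, h.symm, hs, RR_single, RR_add, trace_single_mul, one_apply] at this
  linear_combination this

theorem alt_nec {a : Fin N → Fin N → Fin N → Fin N → ℂ} (ha : Alt a) [Nontrivial (Fin N)] :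
    ∃ B : Fin N → Fin N → ℂ, ∀ i j l k, a i j l k = B i j * kr l k - B j l * kr i k := by
  choose σ hσ using fun i : Fin N => exists_ne i
  have := fun j => linalg (fun i l k => a i j l k) σ hσ (by
    intro u w α γ t h1 h2 h3 h4 h5 h6 h7
    rw [← tri_single]
    exact extend_mid (fun v hv => ha.lemA u v w α γ t h1 h2 h3 h4 h5 h6 hv) h7 _) (by
    intro u α t h1 h5 h7
    rw [← tri_single]
    exact extend_mid (fun v hv => ha.lemB u v α t h1 h5 hv) h7 _)
  choose P Q hPQ using this
  have h2 := ha.sub_quasi fun i j => Q j i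
  have e : (fun i j l k => a i j l k - (Q j i * kr l k - Q l j * kr i k)) =
      fun i j l k => (P j l + Q l j) * kr i k := by
    funext i j l k
    rw [hPQ]
    ring
  rw [e] at h2
  have hr : ∀ j l, P j l + Q l j = 0 := by
    intro j l
    by_cases h : j = l
    · subst h
      have k1 := r_test (r := fun j l => P j l + Q l j) h2 (hσ j) 1 (by simp)
      have k2 := r_test (r := fun j l => P j l + Q l j) h2 (hσ j) (-1) (by simp)
      linear_combination (k1 + k2) / 2
    · have k1 := r_test (r := fun j l => P j l + Q l j) h2 h 1 (by simp)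
      have k2 := r_test (r := fun j l => P j l + Q l j) h2 h (-1) (by simp)
      have k3 := r_symm (r := fun j l => P j l + Q l j) h2 h
      linear_combination (k1 - k2) / 4 + k3 / 2
  refine ⟨fun i j => Q j i, fun i j l k => ?_⟩
  rw [hPQ]
  linear_combination hr j l * kr i k

theorem necessity {b bb : Fin N → Fin N → Fin N → ℂ} (hP : IsPoisson b bb) :
    ∃ c : Fin N → ℂ, (∀ i j k, b i j k + bb j i k = c i * kr j k - c j * kr i k) ∧
      ∃ B : Fin N → Fin N → ℂ, ∀ i j l k,
        assoc (fix b c) i j l k = B i j * kr l k - B j l * kr i k := by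
  obtain ⟨c, hc⟩ := skew_nec hP
  refine ⟨c, hc, ?_⟩
  rcases subsingleton_or_nontrivial (Fin N) with hN | hN
  · refine ⟨0, fun i j l k => ?_⟩
    simp only [assoc, Pi.zero_apply, zero_mul, sub_zero]
    refine Finset.sum_eq_zero fun s _ => ?_
    rw [Subsingleton.elim j i, Subsingleton.elim l i, Subsingleton.elim s i, sub_self]
  · exact alt_nec (alt_of hP hc)

end Pool.Agent.H99.NAPoisson
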