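import Mathlib

/-! Linear nonabelian Poisson brackets on the free associative algebra. -/

noncomputable section

namespace Pool.Agent.H99.NAPoisson

/-- The free associative algebra on `N` generators. -/
abbrev FA (N : ℕ) : Type := FreeAlgebra ℂ (Fin N)

/-- The generator `x_k`. -/
def gen {N : ℕ} (k : Fin N) : FA N := FreeAlgebra.ι ℂ k

/-- The monomial attached to a word. -/
def word {N : ℕ} (w : List (Fin N)) : FA N := (w.map gen).prod

/-- Gradient of a word: the sum, over the occurrences of `x_k`, of the word rotated cyclically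
so that this occurrence comes first, with that letter deleted. -/
def gradWord {N : ℕ} (k : Fin N) (w : List (Fin N)) : FA N :=
  ∑ i : Fin w.length,
    if w.get i = k then word (w.drop (i.1 + 1)) * word (w.take i.1) else 0

/-- The gradient `grad_{x_k}`, the linear extension of `gradWord` from the basis of words. -/
def grad {N : ℕ} (k : Fin N) : FA N →ₗ[ℂ] FA N :=
  (FreeAlgebra.basisFreeMonoid ℂ (Fin N)).constr ℂ fun w => gradWord k w.toList

/-- The span `[A, A]` of all commutators. -/
def Comm (N : ℕ) : Submodule ℂ (FA N) :=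
  Submodule.span ℂ {z | ∃ a b : FA N, z = a * b - b * a}

/-- The operator `Θ_ij = ∑_k (b_ij^k R_{x_k} + b'_ij^k L_{x_k})`. -/
def Theta {N : ℕ} (b bb : Fin N → Fin N → Fin N → ℂ) (i j : Fin N) (y : FA N) : FA N :=
  ∑ k, (b i j k • (y * gen k) + bb i j k • (gen k * y))

/-- A representative of the bracket `{f, g} = ∑ f_i Θ_ij (g_j)`. -/
def bracket {N : ℕ} (b bb : Fin N → Fin N → Fin N → ℂ) (f g : FA N) : FA N :=
  ∑ i, ∑ j, grad i f * Theta b bb i j (grad j g)

/-- Nonabelian Poisson bracket: skew-symmetry and the Jacobi identity modulo `[A, A]`. -/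
def IsPoisson {N : ℕ} (b bb : Fin N → Fin N → Fin N → ℂ) : Prop :=
  (∀ f g : FA N, bracket b bb f g + bracket b bb g f ∈ Comm N) ∧
  ∀ f g h : FA N, bracket b bb f (bracket b bb g h) + bracket b bb g (bracket b bb h f) +
    bracket b bb h (bracket b bb f g) ∈ Comm N

/-- Kronecker symbol. -/
def kr {N : ℕ} (i j : Fin N) : ℂ := if i = j then 1 else 0

/-- Structure constants of the associator `(e_i e_j) e_l - e_i (e_j e_l)` of the product
`e_i e_j = ∑_k m_ij^k e_k`. -/
def assoc {N : ℕ} (m : Fin N → Fin N → Fin N → ℂ) (i j l k : Fin N) : ℂ :=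
  ∑ s, (m i j s * m s l k - m j l s * m i s k)

/-- Structure constants of the product on `ℂ 1 ⊕ ℂ^N` (`none` is the index of the unit `1`) with
`1` a two-sided unit and `e_i e_j = ∑_k m_ij^k e_k + β_ij 1`. -/
def unitalExt {N : ℕ} (m : Fin N → Fin N → Fin N → ℂ) (β : Fin N → Fin N → ℂ)
    (x y z : Option (Fin N)) : ℂ :=
  x.elim (if y = z then 1 else 0) fun i =>
    y.elim (if some i = z then 1 else 0) fun j => z.elim (β i j) (m i j)

/-- The structure constants `μ` define an associative product. -/
def IsAssoc {ι : Type} [Fintype ι] (μ : ι → ι → ι → ℂ) : Prop :=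
  ∀ i j l k, ∑ s, μ i j s * μ s l k = ∑ s, μ j l s * μ i s k

end Pool.Agent.H99.NAPoisson
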