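import Mathlib

set_option autoImplicit false

open Filter Topology Set MeasureTheory Metric

namespace Pool.Agent.H99.NB

section
variable {X : Type*} [NormedAddCommGroup X] [NormedSpace ℝ X] [CompleteSpace X]

omit [NormedSpace ℝ X] [CompleteSpace X] in
theorem integ {f : ℝ → X} (hc : Continuous f) {K r t : ℝ} (hr : 0 < r) (ht : 1 ≤ t)
    (hf : ∀ τ, 1 ≤ τ → ‖f τ‖ ≤ K * τ ^ (-r - 1)) : IntegrableOn f (Ioi t) :=
  Integrable.mono' ((integrableOn_Ioi_rpow_of_lt (a := -r - 1) (by linarith)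
    (by linarith : 0 < t)).const_mul K) hc.aestronglyMeasurable
    ((ae_restrict_mem measurableSet_Ioi).mono fun τ h => hf τ (ht.trans (le_of_lt h)))

theorem bound {u f : ℝ → X} (hc : Continuous f) (hu : ∀ t, HasDerivAt u (f t) t)
    (h0 : Tendsto u atTop (𝓝 0)) {K r : ℝ} (hr : 0 < r)
    (hf : ∀ τ, 1 ≤ τ → ‖f τ‖ ≤ K * τ ^ (-r - 1)) (t : ℝ) (ht : 1 ≤ t) :
    ‖u t‖ ≤ K / r * t ^ (-r) := by
  have e := integral_Ioi_of_hasDerivAt_of_tendsto' (fun x _ => hu x) (integ hc hr ht hf) h0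
  rw [zero_sub] at e
  rw [← norm_neg, ← e]
  refine (norm_integral_le_of_norm_le ((integrableOn_Ioi_rpow_of_lt (a := -r - 1) (by linarith)
    (by linarith : 0 < t)).const_mul K) ((ae_restrict_mem measurableSet_Ioi).mono fun τ h =>
      hf τ (ht.trans (le_of_lt h)))).trans (le_of_eq ?_)
  rw [integral_const_mul, integral_Ioi_rpow_of_lt (by linarith) (by linarith), sub_add_cancel]
  field_simp

theorem prim {f : ℝ → X} (hc : Continuous f) {K r : ℝ} (hr : 0 < r)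
    (hf : ∀ τ, 1 ≤ τ → ‖f τ‖ ≤ K * τ ^ (-r - 1)) :
    ∃ u : ℝ → X, (∀ t, HasDerivAt u (f t) t) ∧ Tendsto u atTop (𝓝 0) := by
  refine ⟨fun t => (∫ τ in (1 : ℝ)..t, f τ) - ∫ τ in Ioi 1, f τ, fun t =>
    (intervalIntegral.integral_hasDerivAt_right (hc.intervalIntegrable _ _)
      (hc.stronglyMeasurableAtFilter _ _) hc.continuousAt).sub_const _, ?_⟩
  simpa using (intervalIntegral_tendsto_integral_Ioi 1 (integ hc hr le_rfl hf)
    tendsto_id).sub_const (∫ τ in Ioi 1, f τ)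

/-- `u` solves `u'' = g` with `u, u' → 0` at infinity -/
def Sol (g u : ℝ → X) : Prop :=
  ∃ v : ℝ → X, (∀ t, HasDerivAt u (v t) t) ∧ (∀ t, HasDerivAt v (g t) t) ∧
    Tendsto u atTop (𝓝 0) ∧ Tendsto v atTop (𝓝 0)

theorem Sol.bound {g u : ℝ → X} (h : Sol g u) (hc : Continuous g) {K r : ℝ} (hr : 0 < r)
    (hf : ∀ τ, 1 ≤ τ → ‖g τ‖ ≤ K * τ ^ (-r - 2)) (t : ℝ) (ht : 1 ≤ t) :
    ‖u t‖ ≤ K / (r + 1) / r * t ^ (-r) := by
  obtain ⟨v, h1, h2, h3, h4⟩ := h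
  refine NB.bound (continuous_iff_continuousAt.2 fun t => (h2 t).continuousAt) h1 h3 hr
    (fun τ hτ => ?_) t ht
  have := NB.bound hc h2 h4 (K := K) (r := r + 1) (by linarith)
    (fun τ hτ => by convert hf τ hτ using 3; ring) τ hτ
  convert this using 3; ring

theorem exists_sol {g : ℝ → X} (hc : Continuous g) {K r : ℝ} (hr : 0 < r)
    (hf : ∀ τ, 1 ≤ τ → ‖g τ‖ ≤ K * τ ^ (-r - 2)) : ∃ u, Sol g u := by
  have hf' : ∀ τ, 1 ≤ τ → ‖g τ‖ ≤ K * τ ^ (-(r + 1) - 1) :=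
    fun τ hτ => by convert hf τ hτ using 3; ring
  obtain ⟨v, h2, h4⟩ := prim hc (by linarith) hf'
  obtain ⟨u, h1, h3⟩ := prim (continuous_iff_continuousAt.2 fun t => (h2 t).continuousAt) hr
    (K := K / (r + 1)) fun τ hτ => by
      convert NB.bound hc h2 h4 (by linarith) hf' τ hτ using 3; ring
  exact ⟨u, v, h1, h2, h3, h4⟩

omit [CompleteSpace X] in
theorem Sol.sub {g u g' u' : ℝ → X} (h : Sol g u) (k : Sol g' u') : Sol (g - g') (u - u') := by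
  obtain ⟨v, h1, h2, h3, h4⟩ := h
  obtain ⟨w, k1, k2, k3, k4⟩ := k
  exact ⟨v - w, fun t => (h1 t).sub (k1 t), fun t => (h2 t).sub (k2 t),
    sub_zero (0 : X) ▸ h3.sub k3, sub_zero (0 : X) ▸ h4.sub k4⟩

omit [CompleteSpace X] in
theorem Sol.map {g u : ℝ → X} (h : Sol g u) (L : X →L[ℝ] ℝ) : Sol (L ∘ g) (L ∘ u) := by
  obtain ⟨v, h1, h2, h3, h4⟩ := h
  exact ⟨L ∘ v, fun t => L.hasFDerivAt.comp_hasDerivAt t (h1 t),
    fun t => L.hasFDerivAt.comp_hasDerivAt t (h2 t), by simpa using (L.continuous.tendsto 0).comp h3,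
    by simpa using (L.continuous.tendsto 0).comp h4⟩

/-- final value problem `u'' = G t u`, `u, u' → 0` -/
theorem final (G : ℝ → X → X) (δ : ℝ) (hδ : 0 ≤ δ) (h1 : δ ≤ 1)
    (hc : ∀ ξ : ℝ → X, Continuous ξ → (∀ t, ‖ξ t‖ ≤ 1) → Continuous fun t => G (max t 1) (ξ t))
    (hb : ∀ t, 1 ≤ t → ∀ x, ‖x‖ ≤ 1 → ‖G t x‖ ≤ 3 / 4 * δ * t ^ (-(1 / 2 : ℝ) - 2))
    (hl : ∀ t, 1 ≤ t → ∀ x y, ‖x‖ ≤ 1 → ‖y‖ ≤ 1 →
      ‖G t x - G t y‖ ≤ ‖x - y‖ * t ^ (-(1 : ℝ) - 2)) :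
    ∃ g u : ℝ → X, Continuous g ∧ Sol g u ∧ ∀ t, 1 ≤ t → ‖u t‖ ≤ δ ∧ g t = G t (u t) := by
  let B := closedBall (0 : BoundedContinuousFunction ℝ X) 1
  have hB : ∀ ξ : B, ∀ t, ‖ξ.1 t‖ ≤ 1 := fun ξ t =>
    (ξ.1.norm_coe_le_norm t).trans (mem_closedBall_zero_iff.1 ξ.2)
  have cg : ∀ ξ : B, Continuous fun t => G (max t 1) (ξ.1 t) := fun ξ =>
    hc _ ξ.1.continuous (hB ξ)
  have bg : ∀ ξ : B, ∀ τ, 1 ≤ τ →
      ‖G (max τ 1) (ξ.1 τ)‖ ≤ 3 / 4 * δ * τ ^ (-(1 / 2 : ℝ) - 2) := fun ξ τ h => by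
    rw [max_eq_left h]; exact hb τ h _ (hB ξ τ)
  choose u hu using fun ξ : B => exists_sol (cg ξ) (by norm_num) (bg ξ)
  have bu : ∀ ξ t, 1 ≤ t → ‖u ξ t‖ ≤ δ := fun ξ t ht => by
    refine ((hu ξ).bound (cg ξ) (by norm_num) (bg ξ) t ht).trans ?_
    have := Real.rpow_le_one_of_one_le_of_nonpos ht (show -(1 / 2 : ℝ) ≤ 0 by norm_num)
    rw [show 3 / 4 * δ / (1 / 2 + 1) / (1 / 2) = δ by ring]
    exact mul_le_of_le_one_right hδ this
  have cu : ∀ ξ, Continuous fun t : ℝ => u ξ (max t 1) := fun ξ => by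
    obtain ⟨v, h, -⟩ := hu ξ
    exact (continuous_iff_continuousAt.2 fun t => (h t).continuousAt).comp (by fun_prop)
  let Φ : B → B := fun ξ => ⟨.ofNormedAddCommGroup _ (cu ξ) 1 fun t =>
    (bu ξ _ (le_max_right _ _)).trans h1, mem_closedBall_zero_iff.2
      (BoundedContinuousFunction.norm_ofNormedAddCommGroup_le _ zero_le_one _)⟩
  have hΦ : ContractingWith (1 / 2) Φ := by
    refine ⟨by norm_num, LipschitzWith.of_dist_le_mul fun ξ η => ?_⟩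
    rw [Subtype.dist_eq, BoundedContinuousFunction.dist_le (by positivity)]
    intro t
    have := ((hu ξ).sub (hu η)).bound ((cg ξ).sub (cg η)) one_pos (K := dist ξ η)
      (fun τ h => by
        simp only [Pi.sub_apply, max_eq_left h]
        refine (hl τ h _ _ (hB ξ τ) (hB η τ)).trans (mul_le_mul_of_nonneg_right ?_ (by positivity))
        rw [← dist_eq_norm]; exact BoundedContinuousFunction.dist_coe_le_dist τ) _ (le_max_right t 1)
    have k := Real.rpow_le_one_of_one_le_of_nonpos (le_max_right t 1)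
      (show -(1 : ℝ) ≤ 0 by norm_num)
    rw [dist_eq_norm]
    refine this.trans ?_
    have := dist_nonneg (x := ξ) (y := η)
    push_cast
    nlinarith
  have : CompleteSpace B := isClosed_closedBall.completeSpace_coe
  have : Nonempty B := ⟨⟨0, mem_closedBall_self zero_le_one⟩⟩
  refine ⟨_, _, cg (hΦ.fixedPoint Φ), hu _, fun t ht => ⟨bu _ t ht, ?_⟩⟩
  have : u (hΦ.fixedPoint Φ) (max t 1) = _ :=
    congrArg (fun ξ : B => ξ.1 t) hΦ.fixedPoint_isFixedPt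
  rw [max_eq_left ht] at this
  simp only [max_eq_left ht, this]
end

variable {E : Type*} [NormedAddCommGroup E] [NormedSpace ℝ E]

/-- the Newtonian kernel -/
noncomputable def N (u : E) : E := (1 / ‖u‖ ^ 3) • u

theorem N_lip {u v : E} {R : ℝ} (hR : 0 < R) (hu : R ≤ ‖u‖) (hv : R ≤ ‖v‖) :
    ‖N u - N v‖ ≤ 4 * ‖u - v‖ / R ^ 3 := by
  wlog h : ‖v‖ ≤ ‖u‖ generalizing u v
  · rw [norm_sub_rev, norm_sub_rev u]; exact this hv hu (not_le.1 h).le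
  have e : N u - N v = (1 / ‖u‖ ^ 3) • (u - v) - (1 / ‖v‖ ^ 3 - 1 / ‖u‖ ^ 3) • v := by
    simp only [N, smul_sub, sub_smul]; abel
  have k := (le_abs_self _).trans (abs_norm_sub_norm_le u v)
  have d0 := norm_nonneg (u - v)
  have a0 := hR.trans_le hu
  have b0 := hR.trans_le hv
  rw [e]
  refine (norm_sub_le _ _).trans ?_
  rw [norm_smul, norm_smul, Real.norm_of_nonneg (by positivity), Real.norm_of_nonneg
    (sub_nonneg.2 (by gcongr))]
  set a := ‖u‖; set b := ‖v‖; set d := ‖u - v‖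
  have e1 : 1 / a ^ 3 * d ≤ d / R ^ 3 := by rw [one_div_mul_eq_div]; gcongr
  have e2 : (1 / b ^ 3 - 1 / a ^ 3) * b ≤ 3 * d / R ^ 3 := by
    have : (1 / b ^ 3 - 1 / a ^ 3) * b = (a - b) * (a ^ 2 + a * b + b ^ 2) / (a ^ 3 * b ^ 2) := by
      field_simp; ring
    rw [this]
    calc _ ≤ d * (a ^ 2 + a * a + a ^ 2) / (a ^ 3 * b ^ 2) := by gcongr
      _ = 3 * d / (a * b ^ 2) := by field_simp; ring
      _ ≤ 3 * d / (R * R ^ 2) := by gcongr
      _ = _ := by ring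
  have : 4 * d / R ^ 3 = d / R ^ 3 + 3 * d / R ^ 3 := by ring
  linarith

theorem N_smul (u : E) {s : ℝ} (hs : 0 < s) : N (s • u) = (1 / s ^ 2) • N u := by
  simp only [N, norm_smul, Real.norm_of_nonneg hs.le, smul_smul]
  congr 1
  rcases eq_or_ne ‖u‖ 0 with h | h
  · simp [h]
  · field_simp

/-- Newtonian accelerations of four bodies of mass `ε` -/
noncomputable def F (ε : ℝ) (x : Fin 4 → E) : Fin 4 → E := fun i => ∑ j, ε • N (x j - x i)

theorem F_lip {ε R : ℝ} (hε : 0 ≤ ε) (hR : 0 < R) {x y : Fin 4 → E}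
    (hx : ∀ i j, i ≠ j → R ≤ ‖x j - x i‖) (hy : ∀ i j, i ≠ j → R ≤ ‖y j - y i‖) :
    ‖F ε x - F ε y‖ ≤ 32 * ε * ‖x - y‖ / R ^ 3 := by
  refine (pi_norm_le_iff_of_nonneg (by positivity)).2 fun i => ?_
  simp only [F, Pi.sub_apply, ← Finset.sum_sub_distrib, ← smul_sub]
  refine (norm_sum_le_of_le _ (n := fun _ => ε * (8 * ‖x - y‖ / R ^ 3)) fun j _ => ?_).trans
    (le_of_eq (by simp; ring))
  rw [norm_smul, Real.norm_of_nonneg hε]
  refine mul_le_mul_of_nonneg_left ?_ hε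
  rcases eq_or_ne i j with rfl | h
  · simp; positivity
  refine (N_lip hR (hx i j h) (hy i j h)).trans ?_
  have : ‖x j - x i - (y j - y i)‖ ≤ 2 * ‖x - y‖ := by
    rw [sub_sub_sub_comm, two_mul]
    exact (norm_sub_le _ _).trans (add_le_add (norm_le_pi_norm (x - y) j) (norm_le_pi_norm (x - y) i))
  gcongr ?_ / _
  linarith

theorem F_smul (ε : ℝ) (x : Fin 4 → E) {s : ℝ} (hs : 0 < s) :
    F ε (s • x) = (1 / s ^ 2) • F ε x := by
  ext i
  simp only [F, Pi.smul_apply, ← smul_sub, N_smul _ hs, Finset.smul_sum, smul_comm ε]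

theorem F_cont (ε : ℝ) {x : ℝ → Fin 4 → E} (hc : Continuous x)
    (hx : ∀ t i j, i ≠ j → x t j - x t i ≠ 0) : Continuous fun t => F ε (x t) := by
  refine continuous_pi fun i => continuous_finsetSum _ fun j _ => ?_
  rcases eq_or_ne i j with rfl | h
  · simp [continuous_const]
  refine Continuous.const_smul (Continuous.smul (Continuous.div continuous_const (by fun_prop)
    fun t => pow_ne_zero _ (norm_ne_zero_iff.2 (hx t i j h))) (by fun_prop)) _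

theorem detb {r0 r1 r2 p0 p1 p2 q0 q1 q2 : ℝ} (a1 : |r0 - 2| ≤ 1 / 9) (a2 : |p1 - 2| ≤ 1 / 9)
    (a3 : |q2 - 2| ≤ 1 / 9) (a4 : |p2| ≤ 1 / 9) (a5 : |q1| ≤ 1 / 9) (a6 : |r1 * p0| ≤ 1 / 9)
    (a7 : |r1 * q0| ≤ 1 / 9) (a8 : |r2 * p0| ≤ 1 / 9) (a9 : |r2 * q0| ≤ 1 / 9) :
    |r0 * (p1 * q2 - p2 * q1) - r1 * (p0 * q2 - p2 * q0) + r2 * (p0 * q1 - p1 * q0) - 8| ≤ 4 := by
  have b : ∀ x y c d : ℝ, |x| ≤ c → |y| ≤ d → |x * y| ≤ c * d := fun x y c d h k => by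
    rw [abs_mul]; exact mul_le_mul h k (abs_nonneg _) ((abs_nonneg _).trans h)
  have c1 := b _ _ _ _ a1 (b _ _ _ _ a2 a3)
  have c2 := b _ _ _ _ a1 a2
  have c3 := b _ _ _ _ a1 a3
  have c4 := b _ _ _ _ a2 a3
  have c5 := b _ _ _ _ a4 a5
  have c6 := b _ _ _ _ a1 c5
  have c7 := b _ _ _ _ a6 a3
  have c8 := b _ _ _ _ a7 a4
  have c9 := b _ _ _ _ a8 a5
  have c0 := b _ _ _ _ a9 a2
  rw [abs_le] at *
  constructor <;> nlinarith

end Pool.Agent.H99.NB
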