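import Mathlib

set_option autoImplicit false

open MeasureTheory FourierTransform SchwartzMap Filter Topology Complex Set

namespace Pool.Agent.H99.PH

noncomputable def n2 (g : ℝ → ℂ) : ℝ := (eLpNorm g 2 volume).toReal

theorem n2_nonneg (g : ℝ → ℂ) : 0 ≤ n2 g := ENNReal.toReal_nonneg

theorem n2_toLp {g : ℝ → ℂ} (h : MemLp g 2 volume) : ‖h.toLp g‖ = n2 g := Lp.norm_toLp g h

theorem n2_congr {a b : ℝ → ℂ} (h : a =ᵐ[volume] b) : n2 a = n2 b := by
  unfold n2; rw [eLpNorm_congr_ae h]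

theorem n2_sq {g : ℝ → ℂ} (h : MemLp g 2 volume) : n2 g ^ 2 = ∫ x, ‖g x‖ ^ 2 := by
  rw [← n2_toLp h, ← real_inner_self_eq_norm_sq, L2.inner_def]
  apply integral_congr_ae
  filter_upwards [h.coeFn_toLp] with x hx
  rw [real_inner_self_eq_norm_sq, hx]

theorem n2_add {a b : ℝ → ℂ} (ha : MemLp a 2 volume) (hb : MemLp b 2 volume) :
    n2 (fun x => a x + b x) ≤ n2 a + n2 b := by
  have := norm_add_le (ha.toLp a) (hb.toLp b)
  rw [← MemLp.toLp_add, n2_toLp, n2_toLp, n2_toLp] at this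
  exact this

theorem n2_mono {a b : ℝ → ℂ} (hb : MemLp b 2 volume) (h : ∀ᵐ x, ‖a x‖ ≤ ‖b x‖) :
    n2 a ≤ n2 b :=
  ENNReal.toReal_mono hb.2.ne (eLpNorm_mono_ae h)

theorem n2_smul (c : ℂ) (a : ℝ → ℂ) : n2 (fun x => c * a x) = ‖c‖ * n2 a := by
  unfold n2
  have : (fun x => c * a x) = c • a := rfl
  rw [this, eLpNorm_const_smul]
  simp

theorem mem_of_le {a b : ℝ → ℂ} (hb : MemLp b 2 volume) (hm : AEStronglyMeasurable a volume)
    {C : ℝ} (h : ∀ᵐ x, ‖a x‖ ≤ C * ‖b x‖) : MemLp a 2 volume := by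
  refine (hb.const_mul (C : ℂ)).of_le hm ?_
  filter_upwards [h] with x hx
  rw [norm_mul, Complex.norm_real]
  exact hx.trans (mul_le_mul_of_nonneg_right (le_abs_self C) (norm_nonneg _))

theorem n2_le_of_le {a b : ℝ → ℂ} (hb : MemLp b 2 volume) {C : ℝ} (hC : 0 ≤ C)
    (h : ∀ᵐ x, ‖a x‖ ≤ C * ‖b x‖) : n2 a ≤ C * n2 b := by
  have := n2_mono (a := a) (hb.const_mul (C : ℂ)) (by
    filter_upwards [h] with x hx
    rwa [norm_mul, Complex.norm_real, Real.norm_of_nonneg hC])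
  rwa [n2_smul, Complex.norm_real, Real.norm_of_nonneg hC] at this

theorem int_mul {a b : ℝ → ℂ} (ha : MemLp a 2 volume) (hb : MemLp b 2 volume) :
    Integrable (fun x => a x * b x) := ha.integrable_mul hb

theorem cs {a b : ℝ → ℂ} (ha : MemLp a 2 volume) (hb : MemLp b 2 volume) :
    ∫ x, ‖a x * b x‖ ≤ n2 a * n2 b := by
  have ha' : MemLp (fun x => (‖a x‖ : ℂ)) 2 volume := ha.norm.ofReal
  have hb' : MemLp (fun x => (‖b x‖ : ℂ)) 2 volume := hb.norm.ofReal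
  have h := norm_inner_le_norm (𝕜 := ℂ) (ha'.toLp _) (hb'.toLp _)
  rw [n2_toLp, n2_toLp, L2.inner_def] at h
  have e : ∫ x, inner ℂ ((ha'.toLp _ : ℝ → ℂ) x) ((hb'.toLp _ : ℝ → ℂ) x)
      = ((∫ x, ‖a x * b x‖ : ℝ) : ℂ) := by
    rw [← integral_complex_ofReal]
    apply integral_congr_ae
    filter_upwards [ha'.coeFn_toLp, hb'.coeFn_toLp] with x h1 h2
    rw [h1, h2]; simp [mul_comm]
  rw [e, Complex.norm_real] at h
  have e1 : n2 (fun x => (‖a x‖ : ℂ)) = n2 a := by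
    unfold n2; congr 1; apply eLpNorm_congr_norm_ae; simp
  have e2 : n2 (fun x => (‖b x‖ : ℂ)) = n2 b := by
    unfold n2; congr 1; apply eLpNorm_congr_norm_ae; simp
  rw [e1, e2] at h
  exact (le_abs_self _).trans h

theorem cs' {a b : ℝ → ℂ} (ha : MemLp a 2 volume) (hb : MemLp b 2 volume) :
    ‖∫ x, a x * b x‖ ≤ n2 a * n2 b := (norm_integral_le_integral_norm _).trans (cs ha hb)

theorem ae_zero_of_n2 {a : ℝ → ℂ} (ha : MemLp a 2 volume) (h : n2 a = 0) : a =ᵐ[volume] 0 := by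
  unfold n2 at h
  rw [ENNReal.toReal_eq_zero_iff] at h
  exact (eLpNorm_eq_zero_iff ha.1 (by norm_num)).1 (h.resolve_right ha.2.ne)

theorem mem2_of_bdd {a : ℝ → ℂ} (ha : Integrable a) {C : ℝ} (h : ∀ x, ‖a x‖ ≤ C) :
    MemLp a 2 volume := by
  rw [memLp_two_iff_integrable_sq_norm ha.1]
  refine (ha.norm.const_mul C).mono' (ha.1.norm.pow 2) (Eventually.of_forall fun x => ?_)
  rw [Real.norm_of_nonneg (by positivity), sq]
  exact mul_le_mul_of_nonneg_right (h x) (norm_nonneg _)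

/-- dominated convergence in `L^2` -/
theorem n2_tendsto {u : ℕ → ℝ → ℂ} {g : ℝ → ℂ} (hg : MemLp g 2 volume) {C : ℝ}
    (hm : ∀ k, AEStronglyMeasurable (u k) volume) (hb : ∀ k, ∀ᵐ x, ‖u k x‖ ≤ C * ‖g x‖)
    {v : ℝ → ℂ} (hl : ∀ᵐ x, Tendsto (fun k => u k x) atTop (𝓝 (v x))) :
    Tendsto (fun k => n2 (u k)) atTop (𝓝 (√(∫ x, ‖v x‖ ^ 2))) := by
  have h1 : Tendsto (fun k => ∫ x, ‖u k x‖ ^ 2) atTop (𝓝 (∫ x, ‖v x‖ ^ 2)) := by
    refine tendsto_integral_of_dominated_convergence (fun x => C ^ 2 * ‖g x‖ ^ 2)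
      (fun k => (hm k).norm.pow 2)
      (((memLp_two_iff_integrable_sq_norm hg.1).1 hg).const_mul _) (fun k => ?_) ?_
    · filter_upwards [hb k] with x hx
      rw [Real.norm_of_nonneg (by positivity), ← mul_pow]
      exact pow_le_pow_left₀ (norm_nonneg _) hx 2
    · filter_upwards [hl] with x hx using hx.norm.pow 2
  refine h1.sqrt.congr fun k => ?_
  rw [← n2_sq (mem_of_le hg (hm k) (hb k)), Real.sqrt_sq (n2_nonneg _)]

/-- Fourier pairs in `L^2` -/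
def FP (a b : ℝ → ℂ) : Prop :=
  ∃ (ha : MemLp a 2 volume) (hb : MemLp b 2 volume),
    (𝓕 (ha.toLp a) : Lp ℂ 2 (volume : Measure ℝ)) = hb.toLp b

theorem FP.l {a b : ℝ → ℂ} (h : FP a b) : MemLp a 2 volume := h.1
theorem FP.r {a b : ℝ → ℂ} (h : FP a b) : MemLp b 2 volume := h.2.1

theorem exists_FP {a : ℝ → ℂ} (ha : MemLp a 2 volume) : ∃ b, FP a b :=
  ⟨(𝓕 (ha.toLp a) : Lp ℂ 2 (volume : Measure ℝ)), ha, Lp.memLp _, (Lp.toLp_coeFn _ _).symm⟩

theorem exists_FP' {b : ℝ → ℂ} (hb : MemLp b 2 volume) : ∃ a, FP a b :=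
  ⟨(𝓕⁻ (hb.toLp b) : Lp ℂ 2 (volume : Measure ℝ)), Lp.memLp _, hb, by
    rw [Lp.toLp_coeFn]; exact fourier_fourierInv_eq _⟩

theorem FP.norm {a b : ℝ → ℂ} (h : FP a b) : n2 a = n2 b := by
  obtain ⟨ha, hb, e⟩ := h
  rw [← n2_toLp ha, ← n2_toLp hb, ← e, Lp.norm_fourier_eq]

theorem FP.add {a b a' b' : ℝ → ℂ} (h : FP a b) (h' : FP a' b') :
    FP (fun x => a x + a' x) (fun x => b x + b' x) := by
  obtain ⟨ha, hb, e⟩ := h
  obtain ⟨ha', hb', e'⟩ := h'
  refine ⟨ha.add ha', hb.add hb', ?_⟩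
  have e1 : (ha.add ha').toLp (fun x => a x + a' x) = ha.toLp a + ha'.toLp a' :=
    MemLp.toLp_add ha ha'
  have e2 : (hb.add hb').toLp (fun x => b x + b' x) = hb.toLp b + hb'.toLp b' :=
    MemLp.toLp_add hb hb'
  rw [e1, e2, FourierTransform.fourier_add, e, e']

theorem FP.smul {a b : ℝ → ℂ} (h : FP a b) (c : ℂ) :
    FP (fun x => c * a x) (fun x => c * b x) := by
  obtain ⟨ha, hb, e⟩ := h
  refine ⟨ha.const_mul c, hb.const_mul c, ?_⟩
  have e1 : (ha.const_mul c).toLp (fun x => c * a x) = c • ha.toLp a :=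
    MemLp.toLp_const_smul c ha
  have e2 : (hb.const_mul c).toLp (fun x => c * b x) = c • hb.toLp b :=
    MemLp.toLp_const_smul c hb
  rw [e1, e2, fourier_smul, e]

theorem FP.congr {a b a' b' : ℝ → ℂ} (h : FP a b) (h1 : a =ᵐ[volume] a') (h2 : b =ᵐ[volume] b') :
    FP a' b' := by
  obtain ⟨ha, hb, e⟩ := h
  refine ⟨ha.ae_eq h1, hb.ae_eq h2, ?_⟩
  rw [← MemLp.toLp_congr ha (ha.ae_eq h1) h1, ← MemLp.toLp_congr hb (hb.ae_eq h2) h2, e]

theorem FP.sub {a b a' b' : ℝ → ℂ} (h : FP a b) (h' : FP a' b') :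
    FP (fun x => a x - a' x) (fun x => b x - b' x) :=
  (h.add (h'.smul (-1))).congr (Eventually.of_forall fun x => by simp [sub_eq_add_neg])
    (Eventually.of_forall fun x => by simp [sub_eq_add_neg])

theorem FP.parseval {a b a' b' : ℝ → ℂ} (h : FP a b) (h' : FP a' b') :
    ∫ x, a' x * (starRingEnd ℂ) (a x) = ∫ x, b' x * (starRingEnd ℂ) (b x) := by
  obtain ⟨ha, hb, e⟩ := h
  obtain ⟨ha', hb', e'⟩ := h'
  have := Lp.inner_fourier_eq (ha.toLp a) (ha'.toLp a')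
  rw [e, e', L2.inner_def, L2.inner_def] at this
  have k : ∀ {u v : ℝ → ℂ} (hu : MemLp u 2 volume) (hv : MemLp v 2 volume),
      ∫ x, inner ℂ ((hu.toLp u : ℝ → ℂ) x) ((hv.toLp v : ℝ → ℂ) x)
        = ∫ x, v x * (starRingEnd ℂ) (u x) := by
    intro u v hu hv
    apply integral_congr_ae
    filter_upwards [hu.coeFn_toLp, hv.coeFn_toLp] with x h1 h2
    rw [h1, h2]; simp
  rw [k, k] at this
  exact this.symm

theorem fourier_cont {f : ℝ → ℂ} (hf : Integrable f) : Continuous (𝓕 f) :=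
  VectorFourier.fourierIntegral_continuous Real.continuous_fourierChar
    (L := innerₗ ℝ) continuous_inner hf

theorem fourierInv_cont {f : ℝ → ℂ} (hf : Integrable f) : Continuous (𝓕⁻ f) := by
  rw [Real.fourierInv_eq_fourier_comp_neg]; exact fourier_cont hf.comp_neg

theorem FP_dir {f : ℝ → ℂ} (hf : Integrable f) (h2 : MemLp f 2 volume) : FP f (𝓕 f) := by
  have key : ((𝓕 (h2.toLp f) : Lp ℂ 2 (volume : Measure ℝ)) : ℝ → ℂ) =ᵐ[volume] 𝓕 f := by
    apply ae_eq_of_integral_contDiff_smul_eq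
    · exact (Lp.memLp _).locallyIntegrable (by norm_num)
    · exact (fourier_cont hf).locallyIntegrable
    intro g hg hgs
    have hgs' : HasCompactSupport (fun x => (g x : ℂ)) :=
      hgs.comp_left (g := fun r : ℝ => (r : ℂ)) (by simp)
    let φ : 𝓢(ℝ, ℂ) := hgs'.toSchwartzMap (Complex.ofRealCLM.contDiff.comp hg)
    have hφ : ∀ x, φ x = (g x : ℂ) := fun x => rfl
    have h1 := congrArg (fun T : 𝓢'(ℝ, ℂ) => T φ)
      (Lp.fourier_toTemperedDistribution_eq (h2.toLp f))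
    simp only [TemperedDistribution.fourier_apply, Lp.toTemperedDistribution_apply] at h1
    have h3 : ∫ x, (𝓕 φ : 𝓢(ℝ, ℂ)) x • (h2.toLp f : ℝ → ℂ) x = ∫ x, φ x • 𝓕 f x := by
      have h4 : ∫ x, (𝓕 φ : 𝓢(ℝ, ℂ)) x • (h2.toLp f : ℝ → ℂ) x
          = ∫ x, 𝓕 (φ : ℝ → ℂ) x • f x := by
        apply integral_congr_ae
        filter_upwards [h2.coeFn_toLp] with x hx
        rw [hx]; rfl
      rw [h4]
      simpa using! VectorFourier.integral_fourierIntegral_smul_eq_flip (L := innerₗ ℝ)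
        Real.continuous_fourierChar continuous_inner φ.integrable hf
    rw [h3] at h1
    simp only [hφ, smul_eq_mul] at h1
    simpa [Complex.real_smul] using h1.symm
  refine ⟨h2, (Lp.memLp _).ae_eq key, ?_⟩
  rw [← MemLp.toLp_congr (Lp.memLp _) _ key, Lp.toLp_coeFn]

theorem FP_inv {f : ℝ → ℂ} (hf : Integrable f) (h2 : MemLp f 2 volume) : FP (𝓕⁻ f) f := by
  have key : ((𝓕⁻ (h2.toLp f) : Lp ℂ 2 (volume : Measure ℝ)) : ℝ → ℂ) =ᵐ[volume] 𝓕⁻ f := by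
    apply ae_eq_of_integral_contDiff_smul_eq
    · exact (Lp.memLp _).locallyIntegrable (by norm_num)
    · exact (fourierInv_cont hf).locallyIntegrable
    intro g hg hgs
    have hgs' : HasCompactSupport (fun x => (g x : ℂ)) :=
      hgs.comp_left (g := fun r : ℝ => (r : ℂ)) (by simp)
    let φ : 𝓢(ℝ, ℂ) := hgs'.toSchwartzMap (Complex.ofRealCLM.contDiff.comp hg)
    have hφ : ∀ x, φ x = (g x : ℂ) := fun x => rfl
    have h1 := congrArg (fun T : 𝓢'(ℝ, ℂ) => T φ)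
      (Lp.fourierInv_toTemperedDistribution_eq (h2.toLp f))
    simp only [TemperedDistribution.fourierInv_apply, Lp.toTemperedDistribution_apply] at h1
    have h3 : ∫ x, (𝓕⁻ φ : 𝓢(ℝ, ℂ)) x • (h2.toLp f : ℝ → ℂ) x = ∫ x, φ x • 𝓕⁻ f x := by
      have h4 : ∫ x, (𝓕⁻ φ : 𝓢(ℝ, ℂ)) x • (h2.toLp f : ℝ → ℂ) x
          = ∫ x, 𝓕⁻ (φ : ℝ → ℂ) x • f x := by
        apply integral_congr_ae
        filter_upwards [h2.coeFn_toLp] with x hx
        rw [hx, SchwartzMap.fourierInv_coe]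
      rw [h4]
      have h5 := VectorFourier.integral_fourierIntegral_smul_eq_flip (L := -innerₗ ℝ)
        (μ := volume) (ν := volume)
        Real.continuous_fourierChar continuous_inner.neg φ.integrable hf
      have h6 : (-innerₗ ℝ).flip = -innerₗ ℝ := by ext; simp
      rw [h6] at h5
      exact h5
    rw [h3] at h1
    simp only [hφ, smul_eq_mul] at h1
    simpa [Complex.real_smul] using h1.symm
  refine ⟨(Lp.memLp _).ae_eq key, h2, ?_⟩
  rw [← MemLp.toLp_congr (Lp.memLp _) _ key, Lp.toLp_coeFn]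
  exact fourier_fourierInv_eq _

/-- the character -/
noncomputable def ch (ξ t : ℝ) : ℂ := exp (2 * Real.pi * I * ξ * t)

theorem norm_ch (ξ t : ℝ) : ‖ch ξ t‖ = 1 := by
  have : (2 * Real.pi * I * ξ * t : ℂ) = ((2 * Real.pi * ξ * t : ℝ) : ℂ) * I := by push_cast; ring
  rw [ch, this, norm_exp_ofReal_mul_I]

theorem conj_ch (ξ t : ℝ) : (starRingEnd ℂ) (ch ξ t) = ch ξ (-t) := by
  rw [ch, ch, ← exp_conj]; congr 1; simp [conj_ofReal, map_ofNat]

theorem ch_add (ξ s t : ℝ) : ch ξ (s + t) = ch ξ s * ch ξ t := by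
  rw [ch, ch, ch, ← Complex.exp_add]; congr 1; push_cast; ring

theorem ch_cont (t : ℝ) : Continuous fun ξ => ch ξ t := by unfold ch; fun_prop
theorem ch_cont' (ξ : ℝ) : Continuous fun t => ch ξ t := by unfold ch; fun_prop

theorem finv_eq (f : ℝ → ℂ) (t : ℝ) : 𝓕⁻ f t = ∫ ξ, f ξ * ch ξ t := by
  rw [Real.fourierInv_eq']
  congr 1; ext ξ
  rw [smul_eq_mul, mul_comm, ch]; congr 2; simp; ring

theorem fdir_eq (f : ℝ → ℂ) (ξ : ℝ) : 𝓕 f ξ = ∫ t, f t * ch ξ (-t) := by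
  rw [Real.fourier_real_eq_integral_exp_smul]
  congr 1; ext t
  rw [smul_eq_mul, mul_comm, ch]; congr 2; push_cast; ring

theorem mem_ch {a : ℝ → ℂ} (ha : MemLp a 2 volume) (t : ℝ) :
    MemLp (fun ξ => a ξ * ch ξ t) 2 volume :=
  mem_of_le ha (ha.1.mul (ch_cont t).aestronglyMeasurable) (C := 1)
    (Eventually.of_forall fun x => by simp [norm_ch])

theorem int_ch {a : ℝ → ℂ} (ha : Integrable a) (t : ℝ) : Integrable (fun ξ => a ξ * ch ξ t) :=
  ha.mono (ha.1.mul (ch_cont t).aestronglyMeasurable)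
    (Eventually.of_forall fun x => by simp [norm_ch])

theorem mem_conj {a : ℝ → ℂ} (ha : MemLp a 2 volume) :
    MemLp (fun ξ => (starRingEnd ℂ) (a ξ)) 2 volume :=
  mem_of_le ha (continuous_conj.comp_aestronglyMeasurable ha.1) (C := 1)
    (Eventually.of_forall fun x => by simp)

theorem int_conj {a : ℝ → ℂ} (ha : Integrable a) : Integrable (fun ξ => (starRingEnd ℂ) (a ξ)) :=
  ha.mono (continuous_conj.comp_aestronglyMeasurable ha.1) (Eventually.of_forall fun x => by simp)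

theorem mem_refl {a : ℝ → ℂ} (ha : MemLp a 2 volume) (t : ℝ) :
    MemLp (fun τ => a (t - τ)) 2 volume :=
  ha.comp_measurePreserving (Measure.measurePreserving_sub_left volume t)

theorem mem_neg {a : ℝ → ℂ} (ha : MemLp a 2 volume) : MemLp (fun τ => a (-τ)) 2 volume :=
  ha.comp_measurePreserving (Measure.measurePreserving_neg volume)

theorem conv_inv {f φ κ : ℝ → ℂ} (h : FP f φ) (h1 : Integrable κ) (h2 : MemLp κ 2 volume) (t : ℝ) :
    ∫ τ, f τ * 𝓕⁻ κ (t - τ) = 𝓕⁻ (fun ξ => φ ξ * κ ξ) t := by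
  have hv := FP_inv (int_conj (int_ch h1 t)) (mem_conj (mem_ch h2 t))
  have := hv.parseval h
  simp only [Complex.conj_conj] at this
  rw [finv_eq]
  simp only [mul_assoc]
  rw [← this]
  congr 1; ext τ; congr 1
  rw [finv_eq, finv_eq, ← integral_conj]
  congr 1; ext ξ
  rw [map_mul, Complex.conj_conj, conj_ch, mul_assoc, ← ch_add, sub_eq_add_neg]

theorem conv_dir {f φ k : ℝ → ℂ} (h : FP f φ) (h1 : Integrable k) (h2 : MemLp k 2 volume) (t : ℝ) :
    ∫ τ, f τ * k (t - τ) = 𝓕⁻ (fun ξ => φ ξ * 𝓕 k ξ) t := by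
  have hv := FP_dir (int_conj (h1.comp_sub_left t)) (mem_conj (mem_refl h2 t))
  have := hv.parseval h
  simp only [Complex.conj_conj] at this
  rw [finv_eq, this]
  congr 1; ext ξ; rw [mul_assoc]; congr 1
  rw [fdir_eq, fdir_eq, ← integral_conj, ← integral_mul_const,
    ← integral_sub_left_eq_self _ volume t]
  congr 1; ext s
  rw [map_mul, Complex.conj_conj, conj_ch, mul_assoc, ← ch_add]
  congr 2 <;> ring

theorem FP_mul {φ κ : ℝ → ℂ} (hφ : MemLp φ 2 volume) (h2 : MemLp κ 2 volume) {C : ℝ}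
    (hb : ∀ ξ, ‖κ ξ‖ ≤ C) : FP (𝓕⁻ (fun ξ => φ ξ * κ ξ)) (fun ξ => φ ξ * κ ξ) :=
  FP_inv (int_mul hφ h2) (mem_of_le hφ (hφ.1.mul h2.1) (C := C)
    (Eventually.of_forall fun x => by
      rw [norm_mul, mul_comm]; exact mul_le_mul_of_nonneg_right (hb x) (norm_nonneg _)))

/-- convergence of multipliers -/
theorem mult_tendsto {φ κ₀ a₀ : ℝ → ℂ} {κ a : ℕ → ℝ → ℂ} (hφ : MemLp φ 2 volume) {C : ℝ}
    (h : ∀ k, FP (a k) (fun ξ => φ ξ * κ k ξ)) (h0 : FP a₀ (fun ξ => φ ξ * κ₀ ξ))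
    (hb : ∀ k ξ, ‖κ k ξ‖ ≤ C) (hb0 : ∀ ξ, ‖κ₀ ξ‖ ≤ C)
    (hl : ∀ᵐ ξ, Tendsto (fun k => κ k ξ) atTop (𝓝 (κ₀ ξ))) :
    Tendsto (fun k => n2 (fun x => a k x - a₀ x)) atTop (𝓝 0) := by
  have := n2_tendsto hφ (C := 2 * C) (u := fun k ξ => φ ξ * κ k ξ - φ ξ * κ₀ ξ)
    (fun k => ((h k).sub h0).r.1) (fun k => Eventually.of_forall fun x => by
      rw [← mul_sub, norm_mul, mul_comm]
      refine mul_le_mul_of_nonneg_right ((norm_sub_le _ _).trans ?_) (norm_nonneg _)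
      linarith [hb k x, hb0 x]) (v := fun _ => 0) (by
      filter_upwards [hl] with x hx
      simpa using (hx.const_mul (φ x)).sub_const (φ x * κ₀ x))
  simp only [norm_zero, ne_eq, OfNat.ofNat_ne_zero, not_false_eq_true, zero_pow, integral_zero,
    Real.sqrt_zero] at this
  exact this.congr fun k => ((h k).sub h0).norm.symm

theorem exists_subseq {a : ℕ → ℝ → ℂ} {a₀ : ℝ → ℂ} (h : ∀ k, MemLp (a k) 2 volume)
    (h0 : MemLp a₀ 2 volume) (hl : Tendsto (fun k => n2 (fun x => a k x - a₀ x)) atTop (𝓝 0)) :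
    ∃ ns : ℕ → ℕ, StrictMono ns ∧ ∀ᵐ x, Tendsto (fun i => a (ns i) x) atTop (𝓝 (a₀ x)) := by
  apply TendstoInMeasure.exists_seq_tendsto_ae
  apply tendstoInMeasure_of_tendsto_eLpNorm (p := 2) (by norm_num) (fun k => (h k).1) h0.1
  rw [← ENNReal.tendsto_toReal_iff (fun k => ((h k).sub h0).2.ne) (by simp)]
  exact hl

end Pool.Agent.H99.PH
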