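import Pool.Agent.H99.PH1

set_option autoImplicit false

open MeasureTheory FourierTransform Filter Topology Complex Set

namespace Pool.Agent.H99.PH

noncomputable def ez (z : ℂ) (ξ : ℝ) : ℂ := if 0 < ξ then exp (2 * Real.pi * I * ξ * z) else 0

noncomputable def ep (y : ℝ) (ξ : ℝ) : ℂ := ez (y * I) ξ

noncomputable def em (y : ℝ) (ξ : ℝ) : ℂ := ep y (-ξ)

theorem norm_ez (z : ℂ) (ξ : ℝ) :
    ‖ez z ξ‖ = if 0 < ξ then Real.exp (-(2 * Real.pi * ξ * z.im)) else 0 := by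
  unfold ez; split_ifs
  · rw [norm_exp]; congr 1; simp
  · simp

theorem ez_meas (z : ℂ) : Measurable (ez z) :=
  Measurable.ite measurableSet_Ioi (by fun_prop) measurable_const

theorem ez_eq (z : ℂ) (ξ : ℝ) : ez z ξ = ep z.im ξ * ch ξ z.re := by
  unfold ep ez ch; split_ifs
  · rw [← Complex.exp_add]; congr 1
    conv_lhs => rw [← re_add_im z]
    ring
  · simp

theorem ez_mono {z w : ℂ} (h : w.im ≤ z.im) (ξ : ℝ) : ‖ez z ξ‖ ≤ ‖ez w ξ‖ := by
  rw [norm_ez, norm_ez]; split_ifs with h0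
  · apply Real.exp_le_exp.2
    have : 0 ≤ 2 * Real.pi * ξ := by positivity
    nlinarith
  · exact le_rfl

theorem ez_le {z : ℂ} (h : 0 ≤ z.im) (ξ : ℝ) : ‖ez z ξ‖ ≤ 1 := by
  rw [norm_ez]; split_ifs with h0
  · rw [Real.exp_le_one_iff]
    have : 0 ≤ 2 * Real.pi * ξ * z.im := by positivity
    linarith
  · exact zero_le_one

theorem ez_ind (z : ℂ) : ez z = (Ioi 0).indicator fun ξ : ℝ => exp ((2 * Real.pi * I * z) * ξ) := by
  ext ξ; unfold ez; rw [indicator_apply]; simp only [mem_Ioi]; congr 2; ring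

theorem ez_int {z : ℂ} (h : 0 < z.im) : Integrable (ez z) := by
  rw [ez_ind, integrable_indicator_iff measurableSet_Ioi]
  apply integrableOn_exp_mul_complex_Ioi
  simp; positivity

theorem ez_integral {z : ℂ} (h : 0 < z.im) : ∫ ξ, ez z ξ = I / (2 * Real.pi * z) := by
  rw [ez_ind, integral_indicator measurableSet_Ioi, integral_exp_mul_complex_Ioi (by simp; positivity)]
  have : z ≠ 0 := by rintro rfl; simp at h
  have hp : (Real.pi : ℂ) ≠ 0 := by simp [Real.pi_ne_zero]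
  simp only [ofReal_zero, mul_zero, Complex.exp_zero]
  field_simp
  simp

theorem ez_mem {z : ℂ} (h : 0 < z.im) : MemLp (ez z) 2 volume :=
  mem2_of_bdd (ez_int h) (ez_le h.le)

theorem ep_le {y : ℝ} (h : 0 ≤ y) (ξ : ℝ) : ‖ep y ξ‖ ≤ 1 := ez_le (by simpa) ξ
theorem em_le {y : ℝ} (h : 0 ≤ y) (ξ : ℝ) : ‖em y ξ‖ ≤ 1 := ep_le h _
theorem ep_int {y : ℝ} (h : 0 < y) : Integrable (ep y) := ez_int (by simpa)
theorem em_int {y : ℝ} (h : 0 < y) : Integrable (em y) := (ep_int h).comp_neg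
theorem ep_mem {y : ℝ} (h : 0 < y) : MemLp (ep y) 2 volume := ez_mem (by simpa)
theorem em_mem {y : ℝ} (h : 0 < y) : MemLp (em y) 2 volume := mem_neg (ep_mem h)

theorem ep_cont (ξ : ℝ) : Continuous fun y : ℝ => ep y ξ := by
  unfold ep ez; split_ifs <;> fun_prop

theorem finv_ep {y : ℝ} (h : 0 < y) (s : ℝ) : 𝓕⁻ (ep y) s = I / (2 * Real.pi * (s + y * I)) := by
  rw [finv_eq, ← ez_integral (by simpa)]
  congr 1; ext ξ; rw [ez_eq (s + y * I)]; simp

theorem finv_neg (a : ℝ → ℂ) (t : ℝ) : 𝓕⁻ (fun ξ => a (-ξ)) t = 𝓕⁻ a (-t) := by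
  rw [finv_eq, finv_eq, ← integral_neg_eq_self]
  congr 1; ext ξ; simp only [neg_neg]; congr 1; unfold ch; congr 1; push_cast; ring

theorem finv_em {y : ℝ} (h : 0 < y) (s : ℝ) : 𝓕⁻ (em y) s = -I / (2 * Real.pi * (s - y * I)) := by
  have : em y = fun ξ => ep y (-ξ) := rfl
  rw [this, finv_neg, finv_ep h, neg_div, ← div_neg]; congr 1; push_cast; ring

noncomputable def L (ψ : ℝ → ℂ) (z : ℂ) : ℂ := ∫ ξ, ψ ξ * ez z ξ

theorem L_eq (ψ : ℝ → ℂ) (z : ℂ) : L ψ z = 𝓕⁻ (fun ξ => ψ ξ * ep z.im ξ) z.re := by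
  rw [finv_eq, L]; congr 1; ext ξ; rw [ez_eq, mul_assoc]

theorem L_line (ψ : ℝ → ℂ) (t y : ℝ) : L ψ (t + y * I) = 𝓕⁻ (fun ξ => ψ ξ * ep y ξ) t := by
  rw [L_eq]; simp

theorem L_neg (ψ : ℝ → ℂ) (t y : ℝ) :
    L (fun ξ => ψ (-ξ)) (-(t : ℂ) + y * I) = 𝓕⁻ (fun ξ => ψ ξ * em y ξ) t := by
  have : (-(t : ℂ)) = ((-t : ℝ) : ℂ) := by simp
  rw [this, L_line, ← finv_neg]; simp [em]

/-- the reflected conjugate -/
noncomputable def sh (ψ : ℝ → ℂ) (ξ : ℝ) : ℂ := (starRingEnd ℂ) (ψ (-ξ))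

theorem sh_mem {ψ : ℝ → ℂ} (h : MemLp ψ 2 volume) : MemLp (sh ψ) 2 volume := mem_conj (mem_neg h)

theorem conj_ep (y ξ : ℝ) : (starRingEnd ℂ) (ep y ξ) = ep y ξ := by
  unfold ep ez; split_ifs
  · rw [← exp_conj]; congr 1; simp [conj_ofReal, map_ofNat]
  · simp

theorem L_sh (ψ : ℝ → ℂ) (t y : ℝ) :
    (starRingEnd ℂ) (L (sh ψ) (t + y * I)) = 𝓕⁻ (fun ξ => ψ ξ * em y ξ) t := by
  rw [L_line, finv_eq, finv_eq, ← integral_conj, ← integral_neg_eq_self]
  congr 1; ext ξ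
  simp only [sh, em, map_mul, neg_neg, Complex.conj_conj, conj_ep, conj_ch]
  congr 1; unfold ch; congr 1; push_cast; ring

theorem L_bound {ψ : ℝ → ℂ} (h : MemLp ψ 2 volume) {y : ℝ} (hy : 0 < y) {z : ℂ} (hz : y ≤ z.im) :
    ‖L ψ z‖ ≤ n2 ψ * n2 (ep y) :=
  (cs' h (ez_mem (hy.trans_le hz))).trans (mul_le_mul_of_nonneg_left
    (n2_mono (ep_mem hy) (Eventually.of_forall fun ξ => ez_mono (by simpa) ξ)) (n2_nonneg _))

theorem FP_ep {ψ : ℝ → ℂ} (h : MemLp ψ 2 volume) {y : ℝ} (hy : 0 < y) :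
    FP (fun t : ℝ => L ψ (t + y * I)) (fun ξ => ψ ξ * ep y ξ) := by
  simp only [L_line]; exact FP_mul h (ep_mem hy) (ep_le hy.le)

theorem FP_em {ψ : ℝ → ℂ} (h : MemLp ψ 2 volume) {y : ℝ} (hy : 0 < y) :
    FP (fun t : ℝ => (starRingEnd ℂ) (L (sh ψ) (t + y * I))) (fun ξ => ψ ξ * em y ξ) := by
  simp only [L_sh]; exact FP_mul h (em_mem hy) (em_le hy.le)

theorem FP_em' {ψ : ℝ → ℂ} (h : MemLp ψ 2 volume) {y : ℝ} (hy : 0 < y) :
    FP (fun t : ℝ => L (fun ξ => ψ (-ξ)) (-(t : ℂ) + y * I)) (fun ξ => ψ ξ * em y ξ) := by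
  simp only [L_neg]; exact FP_mul h (em_mem hy) (em_le hy.le)

theorem FP.n2_le {a ψ κ : ℝ → ℂ} (h : FP a fun ξ => ψ ξ * κ ξ) (hψ : MemLp ψ 2 volume) {C : ℝ}
    (hb : ∀ ξ, ‖κ ξ‖ ≤ C) : n2 a ≤ C * n2 ψ := by
  rw [h.norm]
  exact n2_le_of_le hψ ((norm_nonneg _).trans (hb 0)) (Eventually.of_forall fun x => by
    rw [norm_mul, mul_comm]; exact mul_le_mul_of_nonneg_right (hb x) (norm_nonneg _))

theorem L_deriv {ψ : ℝ → ℂ} (h : MemLp ψ 2 volume) {z : ℂ} (hz : 0 < z.im) :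
    Integrable (fun ξ : ℝ => (2 * Real.pi * I * ξ * ψ ξ) * ez z ξ) ∧
      HasDerivAt (L ψ) (L (fun ξ => 2 * Real.pi * I * ξ * ψ ξ) z) z := by
  have hs : {w : ℂ | z.im / 2 < w.im} ∈ 𝓝 z :=
    (isOpen_lt continuous_const continuous_im).mem_nhds (by simp only [mem_ofPred_eq]; linarith)
  have hq : 0 < z.im / 4 := by positivity
  refine hasDerivAt_integral_of_dominated_loc_of_deriv_le (F := fun w ξ => ψ ξ * ez w ξ)
    (F' := fun w ξ => (2 * Real.pi * I * ξ * ψ ξ) * ez w ξ)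
    (bound := fun ξ => (4 / z.im) * ‖ψ ξ * ep (z.im / 4) ξ‖) hs
    (Eventually.of_forall fun w => h.1.mul (ez_meas w).aestronglyMeasurable)
    (int_mul h (ez_mem hz))
    (((by fun_prop : Continuous fun ξ : ℝ => 2 * Real.pi * I * ξ).aestronglyMeasurable.mul h.1).mul
      (ez_meas z).aestronglyMeasurable) (Eventually.of_forall fun ξ w hw => ?_)
    ((int_mul h (ep_mem hq)).norm.const_mul _) (Eventually.of_forall fun ξ w _ => ?_)
  · simp only [mem_ofPred_eq] at hw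
    simp only [norm_mul, ep, norm_ez]
    split_ifs with h0
    · simp only [Complex.norm_real, norm_I, Complex.norm_ofNat, Real.norm_of_nonneg Real.pi_pos.le,
        Real.norm_of_nonneg h0.le, mul_im, ofReal_re, I_im, ofReal_im, I_re, mul_one, mul_zero,
        add_zero]
      have h1 : 2 * Real.pi * ξ * (z.im / 4) ≤ Real.exp (2 * Real.pi * ξ * (z.im / 4)) := by
        linarith [Real.add_one_le_exp (2 * Real.pi * ξ * (z.im / 4))]
      have h2 : Real.exp (-(2 * Real.pi * ξ * w.im)) * Real.exp (2 * Real.pi * ξ * (z.im / 4))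
          ≤ Real.exp (-(2 * Real.pi * ξ * (z.im / 4))) := by
        rw [← Real.exp_add]; apply Real.exp_le_exp.2
        have : 0 ≤ 2 * Real.pi * ξ := by positivity
        nlinarith
      have h3 : 2 * Real.pi * ξ * Real.exp (-(2 * Real.pi * ξ * w.im))
          ≤ 4 / z.im * Real.exp (-(2 * Real.pi * ξ * (z.im / 4))) := by
        rw [div_mul_eq_mul_div, le_div_iff₀ hz]
        nlinarith [Real.exp_pos (-(2 * Real.pi * ξ * w.im))]
      nlinarith [norm_nonneg (ψ ξ)]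
    · simp
  · unfold ez; split_ifs
    · have := (((hasDerivAt_id w).const_mul (2 * Real.pi * I * ξ)).cexp).const_mul (ψ ξ)
      convert! this using 1
      simp only [id]; ring
    · simpa using hasDerivAt_const w (0 : ℂ)

theorem L_diff {ψ : ℝ → ℂ} (h : MemLp ψ 2 volume) {z : ℂ} (hz : 0 < z.im) :
    DifferentiableAt ℂ (L ψ) z := (L_deriv h hz).2.differentiableAt

/-- the resolvent multiplier -/
noncomputable def rs (ε : ℝ) (ξ : ℝ) : ℂ := ((ε : ℂ) + 2 * Real.pi * I * ξ)⁻¹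

theorem rs_ne {ε : ℝ} (hε : 0 < ε) (ξ : ℝ) : (ε : ℂ) + 2 * Real.pi * I * ξ ≠ 0 := by
  intro h; have := congrArg re h; simp at this; exact hε.ne' this

theorem rs_le {ε : ℝ} (hε : 0 < ε) (ξ : ℝ) : ‖rs ε ξ‖ ≤ ε⁻¹ := by
  rw [rs, norm_inv]
  apply inv_anti₀ hε
  have := re_le_norm ((ε : ℂ) + 2 * Real.pi * I * ξ)
  simpa using this

theorem rs_cont {ε : ℝ} (hε : 0 < ε) : Continuous (rs ε) :=
  Continuous.inv₀ (by fun_prop) (rs_ne hε)

theorem rs_mem {ε : ℝ} (hε : 0 < ε) {ψ : ℝ → ℂ} (h : MemLp ψ 2 volume) :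
    MemLp (fun ξ => ψ ξ * rs ε ξ) 2 volume :=
  mem_of_le h (h.1.mul (rs_cont hε).aestronglyMeasurable) (C := ε⁻¹)
    (Eventually.of_forall fun x => by
      rw [norm_mul, mul_comm]; exact mul_le_mul_of_nonneg_right (rs_le hε x) (norm_nonneg _))

theorem sh_rs (ε : ℝ) (ψ : ℝ → ℂ) : sh (fun ξ => ψ ξ * rs ε ξ) = fun ξ => sh ψ ξ * rs ε ξ := by
  ext ξ; simp [sh, rs, conj_ofReal, map_ofNat]

theorem G_deriv {ε : ℝ} (hε : 0 < ε) {ψ : ℝ → ℂ} (h : MemLp ψ 2 volume) {z : ℂ} (hz : 0 < z.im) :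
    HasDerivAt (L fun ξ => ψ ξ * rs ε ξ) (L ψ z - ε * L (fun ξ => ψ ξ * rs ε ξ) z) z := by
  obtain ⟨h1, h2⟩ := L_deriv (rs_mem hε h) hz
  convert! h2 using 1
  unfold L
  rw [← integral_const_mul, ← integral_sub (int_mul h (ez_mem hz))
    ((int_mul (rs_mem hε h) (ez_mem hz)).const_mul _)]
  congr 1; ext ξ
  have := rs_ne hε ξ
  unfold rs; field_simp; ring

/-- `r = 2 i ∂̄ V` -/
def HasDb (V : ℂ → ℂ) (z r : ℂ) : Prop :=
  ∃ f' : ℂ →L[ℝ] ℂ, HasFDerivAt V f' z ∧ I * f' 1 - f' I = r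

theorem HasDb.cont {V : ℂ → ℂ} {z r : ℂ} (h : HasDb V z r) : ContinuousAt V z :=
  h.choose_spec.1.continuousAt

theorem db_hol {V : ℂ → ℂ} {z : ℂ} (h : DifferentiableAt ℂ V z) : HasDb V z 0 :=
  ⟨_, h.hasDerivAt.hasFDerivAt.restrictScalars ℝ, by simp⟩

theorem db_conj {V : ℂ → ℂ} {z d : ℂ} (h : HasDerivAt V d z) :
    HasDb (fun w => (starRingEnd ℂ) (V w)) z (2 * I * (starRingEnd ℂ) d) :=
  ⟨_, (conjCLE.toContinuousLinearMap.hasFDerivAt).comp z (h.hasFDerivAt.restrictScalars ℝ), by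
    simp; ring⟩

theorem db_im {α : ℂ → ℂ} {z d : ℂ} (h : HasDerivAt α d (z.im : ℂ)) :
    HasDb (fun w => α (w.im : ℂ)) z (-d) :=
  ⟨_, (h.hasFDerivAt.restrictScalars ℝ).comp z (ofRealCLM.comp imCLM).hasFDerivAt, by simp⟩

theorem HasDb.add {V W : ℂ → ℂ} {z r s : ℂ} (h : HasDb V z r) (h' : HasDb W z s) :
    HasDb (fun w => V w + W w) z (r + s) := by
  obtain ⟨a, ha, rfl⟩ := h
  obtain ⟨b, hb, rfl⟩ := h'
  exact ⟨_, ha.add hb, by simp; ring⟩

theorem HasDb.mul {V W : ℂ → ℂ} {z r s : ℂ} (h : HasDb V z r) (h' : HasDb W z s) :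
    HasDb (fun w => V w * W w) z (r * W z + V z * s) := by
  obtain ⟨a, ha, rfl⟩ := h
  obtain ⟨b, hb, rfl⟩ := h'
  exact ⟨_, ha.mul hb, by simp; ring⟩

theorem HasDb.zero {V : ℂ → ℂ} {z r : ℂ} (h : HasDb V z r) (h0 : V =ᶠ[𝓝 z] fun _ => 0) : r = 0 := by
  obtain ⟨a, ha, rfl⟩ := h
  have := (ha.congr_of_eventuallyEq h0.symm).unique (hasFDerivAt_const 0 z)
  simp [this]

/-- Green's formula on a horizontal strip, as an inequality -/
theorem strip {V r : ℂ → ℂ} {a b C m : ℝ} (hab : a ≤ b)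
    (hd : ∀ z : ℂ, z.im ∈ Icc a b → HasDb V z (r z))
    (hr : ∀ z : ℂ, z.im ∈ Icc a b → ContinuousAt r z)
    (hC : ∀ z : ℂ, z.im ∈ Icc a b → ‖V z‖ * |z.re| ≤ C)
    (ha : Integrable fun x : ℝ => V (x + a * I)) (hb : Integrable fun x : ℝ => V (x + b * I))
    (hm : ∀ s ∈ Icc a b, Integrable (fun x : ℝ => r (x + s * I)) ∧ ∫ x : ℝ, ‖r (x + s * I)‖ ≤ m) :
    ‖(∫ x : ℝ, V (x + a * I)) - ∫ x : ℝ, V (x + b * I)‖ ≤ (b - a) * m := by
  classical
  let f' : ℂ → ℂ →L[ℝ] ℂ := fun z => if h : z.im ∈ Icc a b then (hd z h).choose else 0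
  have hf : ∀ z : ℂ, z.im ∈ Icc a b → HasFDerivAt V (f' z) z ∧ I * f' z 1 - f' z I = r z := by
    intro z hz; simp only [f', dif_pos hz]; exact (hd z hz).choose_spec
  have key : ∀ N : ℝ, 0 < N → ‖(∫ x : ℝ in (-N)..N, V (x + a * I)) - ∫ x : ℝ in (-N)..N, V (x + b * I)‖
      ≤ (b - a) * m + 2 * ((b - a) * C) * N⁻¹ := by
    intro N hN
    have hNN : -N ≤ N := by linarith
    have hg := integral_boundary_rect_of_hasFDerivAt_real_off_countable V f' ⟨-N, a⟩ ⟨N, b⟩ ∅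
      countable_empty (fun z hz => (hd z (by
        have := hz.2; rwa [mem_preimage, uIcc_of_le hab] at this)).cont.continuousWithinAt)
      (fun z hz => (hf z (by
        have := hz.1.2
        simp only [mem_preimage, min_eq_left hab, max_eq_right hab] at this
        exact Ioo_subset_Icc_self this)).1) (by
        refine (ContinuousOn.integrableOn_compact (f := r)
          ((isCompact_uIcc).reProdIm isCompact_uIcc) (fun z hz => (hr z (by
            have := hz.2; rwa [mem_preimage, uIcc_of_le hab] at this)).continuousWithinAt)).congr_fun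
          (fun z hz => ((hf z (by
            have := hz.2; rwa [mem_preimage, uIcc_of_le hab] at this)).2).symm)
          (((isCompact_uIcc).reProdIm isCompact_uIcc).measurableSet))
    simp only at hg
    have e1 : (∫ x : ℝ in (-N)..N, ∫ y : ℝ in a..b, I • f' (x + y * I) 1 - f' (x + y * I) I)
        = ∫ x : ℝ in (-N)..N, ∫ y : ℝ in a..b, r (x + y * I) := by
      congr 1; ext x
      apply intervalIntegral.integral_congr
      intro y hy
      rw [uIcc_of_le hab] at hy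
      exact (hf _ (by simpa using hy)).2
    have e2 : ‖∫ x : ℝ in (-N)..N, ∫ y : ℝ in a..b, r (x + y * I)‖ ≤ (b - a) * m := by
      have hi : IntegrableOn (fun p : ℝ × ℝ => r (p.1 + p.2 * I)) (Icc (-N) N ×ˢ Icc a b) :=
        ContinuousOn.integrableOn_compact (isCompact_Icc.prod isCompact_Icc) (fun p hp =>
          (ContinuousAt.comp (f := fun p : ℝ × ℝ => (p.1 + p.2 * I : ℂ))
            (hr _ (by simpa using hp.2)) (by fun_prop)).continuousWithinAt)
      have hi' := hi.mono_set (prod_mono Ioc_subset_Icc_self Ioc_subset_Icc_self)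
      rw [IntegrableOn, Measure.volume_eq_prod, ← Measure.prod_restrict] at hi'
      simp only [intervalIntegral.integral_of_le hNN, intervalIntegral.integral_of_le hab]
      rw [integral_integral_swap (f := fun x y : ℝ => r (x + y * I)) hi']
      have := norm_setIntegral_le_of_norm_le_const (μ := volume) (s := Ioc a b) (C := m)
        (f := fun y : ℝ => ∫ x : ℝ in Ioc (-N) N, r (x + y * I)) (by simp) (fun y hy => by
          obtain ⟨h1, h2⟩ := hm y (Ioc_subset_Icc_self hy)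
          exact (norm_integral_le_integral_norm _).trans ((setIntegral_le_integral h1.norm
            (Eventually.of_forall fun _ => norm_nonneg _)).trans h2))
      simpa [Real.volume_real_Ioc_of_le hab, mul_comm] using this
    have e3 : ∀ x : ℝ, |x| = N → ‖I • ∫ y : ℝ in a..b, V (x + y * I)‖ ≤ (b - a) * C * N⁻¹ := by
      intro x hx
      rw [norm_smul, norm_I, one_mul]
      have := intervalIntegral.norm_integral_le_of_norm_le_const (a := a) (b := b) (C := C * N⁻¹)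
        (f := fun y : ℝ => V (x + y * I)) (fun y hy => by
          rw [uIoc_of_le hab] at hy
          have := hC (x + y * I) (by simpa using Ioc_subset_Icc_self hy)
          simp only [add_re, ofReal_re, mul_re, I_re, mul_zero, ofReal_im, I_im, mul_one, sub_self,
            add_zero, hx] at this
          rwa [← div_eq_mul_inv, le_div_iff₀ hN])
      rw [abs_of_nonneg (by linarith : 0 ≤ b - a)] at this
      linarith
    have h3 := e3 N (abs_of_pos hN)
    have h4 := e3 (-N) (by rw [abs_neg, abs_of_pos hN])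
    rw [e1] at hg
    have : (∫ x : ℝ in (-N)..N, V (x + a * I)) - (∫ x : ℝ in (-N)..N, V (x + b * I))
        = (∫ x : ℝ in (-N)..N, ∫ y : ℝ in a..b, r (x + y * I))
          - I • (∫ y : ℝ in a..b, V ((N : ℝ) + y * I))
          + I • ∫ y : ℝ in a..b, V (((-N : ℝ) : ℂ) + y * I) := by
      rw [← hg]; ring
    rw [this]
    refine (norm_add_le _ _).trans ?_
    have := norm_sub_le (∫ x : ℝ in (-N)..N, ∫ y : ℝ in a..b, r (x + y * I))
      (I • (∫ y : ℝ in a..b, V ((N : ℝ) + y * I)))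
    linarith
  have t1 := ((intervalIntegral_tendsto_integral ha tendsto_neg_atTop_atBot tendsto_id).sub
    (intervalIntegral_tendsto_integral hb tendsto_neg_atTop_atBot tendsto_id)).norm
  have t2 := (tendsto_inv_atTop_zero.const_mul (2 * ((b - a) * C))).const_add ((b - a) * m)
  rw [mul_zero, add_zero] at t2
  exact le_of_tendsto_of_tendsto t1 t2 ((eventually_gt_atTop 0).mono key)

end Pool.Agent.H99.PH
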