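import Pool.Agent.H99.PH2

set_option autoImplicit false

open MeasureTheory FourierTransform Filter Topology Complex Set

namespace Pool.Agent.H99.PH

theorem ae_ne0 : ∀ᵐ ξ : ℝ, ξ ≠ 0 := by simp [ae_iff]

theorem ep_lim {y : ℕ → ℝ} (hy : Tendsto y atTop (𝓝 0)) (ξ : ℝ) :
    Tendsto (fun k => ep (y k) ξ) atTop (𝓝 (if 0 < ξ then 1 else 0)) := by
  have := ((ep_cont ξ).tendsto 0).comp hy
  convert! this using 2
  simp [ep, ez]

theorem poisson_tendsto {f φ : ℝ → ℂ} (h : FP f φ) {y : ℕ → ℝ} (hy : Tendsto y atTop (𝓝 0))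
    (hp : ∀ k, 0 < y k) {a : ℕ → ℝ → ℂ}
    (ha : ∀ k, FP (a k) fun ξ => φ ξ * (ep (y k) ξ + em (y k) ξ)) :
    Tendsto (fun k => n2 (fun x => a k x - f x)) atTop (𝓝 0) := by
  refine mult_tendsto (κ₀ := fun _ => 1) h.r (C := 2) ha (by simpa using h) (fun k ξ => ?_)
    (by simp) ?_
  · linarith [norm_add_le (ep (y k) ξ) (em (y k) ξ), ep_le (hp k).le ξ, em_le (hp k).le ξ]
  · filter_upwards [ae_ne0] with ξ hξ
    convert! (ep_lim hy ξ).add (ep_lim hy (-ξ)) using 2
    rcases lt_or_gt_of_ne hξ with h1 | h1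
    · simp [h1, h1.le]
    · simp [h1, h1.le]

theorem one {W R : ℂ → ℂ} {a b η C m : ℝ} (ha : a ≤ η) (hb : η ≤ b)
    (hd : ∀ z : ℂ, z.im ∈ Icc a b → HasDb W z (R z))
    (hr : ∀ z : ℂ, z.im ∈ Icc a b → ContinuousAt R z)
    (hC : ∀ z : ℂ, z.im ∈ Icc a b → ‖W z‖ * |z.re| ≤ C)
    (hW : ∀ s ∈ Icc a b, MemLp (fun x : ℝ => W (x + s * I)) 2 volume)
    (hR : ∀ s ∈ Icc a b, MemLp (fun x : ℝ => R (x + s * I)) 2 volume ∧
      n2 (fun x : ℝ => R (x + s * I)) ≤ m) :
    n2 (fun x : ℝ => W (x + η * I)) ≤ n2 (fun x : ℝ => W (x + a * I))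
      + n2 (fun x : ℝ => W (x + b * I)) + (b - a) * m := by
  have hη : η ∈ Icc a b := ⟨ha, hb⟩
  have hab := ha.trans hb
  obtain ⟨χ, hχ⟩ := exists_FP (mem_conj (hW η hη))
  set w : ℝ → ℂ := fun x : ℝ => W (x + η * I) with hw
  have hn : n2 χ = n2 w := by
    rw [← hχ.norm]; unfold n2; congr 1; apply eLpNorm_congr_norm_ae; simp [w]
  have hm0 : 0 ≤ m := (n2_nonneg _).trans (hR η hη).2
  -- generic step
  have step : ∀ (Φ : ℂ → ℂ) (c d D : ℝ), a ≤ c → c ≤ d → d ≤ b →
      (∀ z : ℂ, z.im ∈ Icc c d → DifferentiableAt ℂ Φ z ∧ ‖Φ z‖ ≤ D) →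
      (∀ s ∈ Icc c d, MemLp (fun x : ℝ => Φ (x + s * I)) 2 volume ∧
        n2 (fun x : ℝ => Φ (x + s * I)) ≤ n2 w) →
      ‖(∫ x : ℝ, W (x + c * I) * Φ (x + c * I)) - ∫ x : ℝ, W (x + d * I) * Φ (x + d * I)‖
        ≤ (d - c) * (m * n2 w) := by
    intro Φ c d D h1 h2 h3 hΦ hΦ2
    have sub : Icc c d ⊆ Icc a b := Icc_subset_Icc h1 h3
    refine strip (V := fun z => W z * Φ z) (r := fun z => R z * Φ z) (C := C * D) h2
      (fun z hz => by simpa using (hd z (sub hz)).mul (db_hol (hΦ z hz).1))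
      (fun z hz => (hr z (sub hz)).mul (hΦ z hz).1.continuousAt) (fun z hz => ?_)
      (int_mul (hW c (sub ⟨le_rfl, h2⟩)) (hΦ2 c ⟨le_rfl, h2⟩).1)
      (int_mul (hW d (sub ⟨h2, le_rfl⟩)) (hΦ2 d ⟨h2, le_rfl⟩).1) (fun s hs =>
        ⟨int_mul (hR s (sub hs)).1 (hΦ2 s hs).1, (cs (hR s (sub hs)).1 (hΦ2 s hs).1).trans
          (mul_le_mul (hR s (sub hs)).2 (hΦ2 s hs).2 (n2_nonneg _) hm0)⟩)
    rw [norm_mul, mul_right_comm]
    exact mul_le_mul (hC z (sub hz)) (hΦ z hz).2 (norm_nonneg _)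
      ((by positivity : (0 : ℝ) ≤ _).trans (hC z (sub hz)))
  set T := n2 (fun x : ℝ => W (x + a * I)) + n2 (fun x : ℝ => W (x + b * I)) + (b - a) * m with hT
  have hT0 : 0 ≤ T := add_nonneg (add_nonneg (n2_nonneg _) (n2_nonneg _))
    (mul_nonneg (by linarith) hm0)
  let P : ℝ → ℝ → ℂ := fun τ x => L χ (x + τ * I) + L (fun ξ => χ (-ξ)) (-(x : ℂ) + τ * I)
  have hP : ∀ τ, 0 < τ → FP (P τ) fun ξ => χ ξ * (ep τ ξ + em τ ξ) := fun τ hτ => by
    simpa only [mul_add] using (FP_ep hχ.r hτ).add (FP_em' hχ.r hτ)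
  have main : ∀ τ, 0 < τ → ‖∫ x, w x * P τ x‖ ≤ T * n2 w := by
    intro τ hτ
    have l2 : ∀ s, η ≤ s → MemLp (fun x : ℝ => L χ (x + s * I - η * I + τ * I)) 2 volume ∧
        n2 (fun x : ℝ => L χ (x + s * I - η * I + τ * I)) ≤ n2 w := by
      intro s hs
      have hp : 0 < s - η + τ := by linarith
      have e : (fun x : ℝ => L χ (x + s * I - η * I + τ * I))
          = fun x : ℝ => L χ (x + (s - η + τ : ℝ) * I) := by
        ext x; congr 1; push_cast; ring
      rw [e]
      exact ⟨(FP_ep hχ.r hp).l, by simpa [hn] using (FP_ep hχ.r hp).n2_le hχ.r (ep_le hp.le)⟩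
    have l1 : ∀ s, s ≤ η →
        MemLp (fun x : ℝ => L (fun ξ => χ (-ξ)) (-(x + s * I) + η * I + τ * I)) 2 volume ∧
        n2 (fun x : ℝ => L (fun ξ => χ (-ξ)) (-(x + s * I) + η * I + τ * I)) ≤ n2 w := by
      intro s hs
      have hp : 0 < η - s + τ := by linarith
      have e : (fun x : ℝ => L (fun ξ => χ (-ξ)) (-(x + s * I) + η * I + τ * I))
          = fun x : ℝ => L (fun ξ => χ (-ξ)) (-(x : ℂ) + (η - s + τ : ℝ) * I) := by
        ext x; congr 1; push_cast; ring
      rw [e]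
      exact ⟨(FP_em' hχ.r hp).l, by simpa [hn] using (FP_em' hχ.r hp).n2_le hχ.r (em_le hp.le)⟩
    have s2 := step (fun z => L χ (z - η * I + τ * I)) η b (n2 χ * n2 (ep τ)) ha hb le_rfl
      (fun z hz => ⟨DifferentiableAt.comp (g := L χ) z (L_diff hχ.r (by simp; linarith [hz.1]))
        (by fun_prop), L_bound hχ.r hτ (by simp; linarith [hz.1])⟩) (fun s hs => l2 s hs.1)
    have s1 := step (fun z => L (fun ξ => χ (-ξ)) (-z + η * I + τ * I)) a η
      (n2 (fun ξ => χ (-ξ)) * n2 (ep τ)) le_rfl ha hb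
      (fun z hz => ⟨DifferentiableAt.comp (g := L (fun ξ => χ (-ξ))) z
        (L_diff (mem_neg hχ.r) (by simp; linarith [hz.2]))
        (by fun_prop), L_bound (mem_neg hχ.r) hτ (by simp; linarith [hz.2])⟩) (fun s hs => l1 s hs.2)
    have b2 := (cs' (hW b ⟨hab, le_rfl⟩) (l2 b hb).1).trans
      (mul_le_mul_of_nonneg_left (l2 b hb).2 (n2_nonneg _))
    have b1 := (cs' (hW a ⟨le_rfl, hab⟩) (l1 a ha).1).trans
      (mul_le_mul_of_nonneg_left (l1 a ha).2 (n2_nonneg _))
    have e : ∫ x, w x * P τ x = (∫ x : ℝ, W (x + η * I) * L χ (x + η * I - η * I + τ * I))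
        + ∫ x : ℝ, W (x + η * I) * L (fun ξ => χ (-ξ)) (-(x + η * I) + η * I + τ * I) := by
      rw [← integral_add (int_mul (hW η hη) (l2 η le_rfl).1) (int_mul (hW η hη) (l1 η le_rfl).1)]
      congr 1; ext x
      simp only [w, P, mul_add]
      congr 3 <;> ring
    rw [e]
    refine (norm_add_le _ _).trans ?_
    have c2 := norm_le_norm_add_norm_sub' (∫ x : ℝ, W (x + η * I) * L χ (x + η * I - η * I + τ * I))
      (∫ x : ℝ, W (x + b * I) * L χ (x + b * I - η * I + τ * I))
    have c1 := norm_le_norm_add_norm_sub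
      (∫ x : ℝ, W (x + a * I) * L (fun ξ => χ (-ξ)) (-(x + a * I) + η * I + τ * I))
      (∫ x : ℝ, W (x + η * I) * L (fun ξ => χ (-ξ)) (-(x + η * I) + η * I + τ * I))
    rw [hT]; nlinarith
  have hy : Tendsto (fun k : ℕ => 1 / ((k : ℝ) + 1)) atTop (𝓝 0) :=
    tendsto_one_div_add_atTop_nhds_zero_nat
  have hp : ∀ k : ℕ, 0 < 1 / ((k : ℝ) + 1) := fun k => by positivity
  have t := poisson_tendsto hχ hy hp (fun k => hP _ (hp k))
  have fin : n2 w ^ 2 ≤ T * n2 w := by
    have t2 := (t.const_mul (n2 w)).const_add (T * n2 w)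
    rw [mul_zero, add_zero] at t2
    refine ge_of_tendsto' t2 fun k => ?_
    have hk := (hP _ (hp k)).l
    have hw2 : MemLp w 2 volume := hW η hη
    have hk2 : MemLp (fun x => P (1 / ((k : ℝ) + 1)) x - (starRingEnd ℂ) (w x)) 2 volume :=
      hk.sub hχ.l
    have e : ((n2 w ^ 2 : ℝ) : ℂ) = (∫ x, w x * P (1 / ((k : ℝ) + 1)) x)
        - ∫ x, w x * (P (1 / ((k : ℝ) + 1)) x - (starRingEnd ℂ) (w x)) := by
      rw [← integral_sub (int_mul hw2 hk) (int_mul hw2 hk2),
        n2_sq hw2, ← integral_complex_ofReal]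
      congr 1; ext x
      rw [← mul_sub]; simp [w, mul_conj, normSq_eq_norm_sq]
    have := norm_sub_le (∫ x, w x * P (1 / ((k : ℝ) + 1)) x)
      (∫ x, w x * (P (1 / ((k : ℝ) + 1)) x - (starRingEnd ℂ) (w x)))
    rw [← e, Complex.norm_real, Real.norm_of_nonneg (by positivity)] at this
    linarith [main _ (hp k), cs' hw2 hk2]
  rcases (n2_nonneg w).eq_or_lt with h0 | h0
  · rw [← h0]; exact hT0
  · rw [sq] at fin; exact le_of_mul_le_mul_right fin h0

theorem weight {E : Set ℝ} (hE : MeasurableSet E) {δ : ℝ} (hδ : 0 < δ)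
    (hE2 : volume E ≤ ENNReal.ofReal (δ / 2)) :
    ∃ ψ : ℂ → ℂ, (∀ z : ℂ, 0 < z.im → DifferentiableAt ℂ ψ z ∧ (ψ z).re ≤ 1) ∧
      (∀ t : ℝ, (ψ (t + δ * I)).re ≤ 1 / 4) ∧ ∃ y : ℕ → ℝ, (∀ k, 0 < y k) ∧
      Tendsto y atTop (𝓝 0) ∧ ∀ᵐ t : ℝ, Tendsto (fun k => (ψ (t + y k * I)).re) atTop
        (𝓝 (E.indicator 1 t)) := by
  have hfin : volume E < ⊤ := hE2.trans_lt ENNReal.ofReal_lt_top
  have hm : MemLp (E.indicator fun _ => (1 : ℂ)) 2 volume :=
    memLp_indicator_const 2 hE 1 (Or.inr hfin.ne)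
  obtain ⟨φ, hφ⟩ := exists_FP hm
  have r1 : ∀ t y : ℝ, 0 < y → L φ (t + y * I)
      = ∫ τ, E.indicator (fun _ => (1 : ℂ)) τ * (I / (2 * Real.pi * ((t - τ : ℝ) + y * I))) := by
    intro t y hy
    rw [L_line, ← conv_inv hφ (ep_int hy) (ep_mem hy)]
    simp only [finv_ep hy]
  have r2 : ∀ t y : ℝ, 0 < y → (starRingEnd ℂ) (L φ (t + y * I))
      = (starRingEnd ℂ) (L (sh φ) (t + y * I)) := by
    intro t y hy
    rw [L_sh, ← conv_inv hφ (em_int hy) (em_mem hy), r1 t y hy, ← integral_conj]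
    congr 1; ext τ
    rw [finv_em hy]
    by_cases h : τ ∈ E <;> simp [h, conj_ofReal, map_ofNat, sub_eq_add_neg]
  have r3 : ∀ t y : ℝ, 0 < y → (2 * L φ (t + y * I)).re
      = ∫ τ in E, (Real.pi * y)⁻¹ * (1 + ((t - τ) / y) ^ 2)⁻¹ := by
    intro t y hy
    have hi : Integrable fun τ : ℝ => E.indicator (fun _ => (1 : ℂ)) τ
        * (I / (2 * Real.pi * ((t - τ : ℝ) + y * I))) := by
      have := int_mul hm (mem_refl (FP_inv (ep_int hy) (ep_mem hy)).l t)
      simpa only [finv_ep hy] using this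
    rw [r1 t y hy, ← integral_const_mul, ← integral_indicator hE]
    have := (reCLM.integral_comp_comm (hi.const_mul 2)).symm
    simp only [reCLM_apply] at this
    rw [this]
    congr 1; ext τ
    by_cases h : τ ∈ E
    · simp only [h, indicator_of_mem, one_mul]
      set s := t - τ
      have h1 : (s : ℂ) + y * I ≠ 0 := fun h => by
        have := congrArg im h; simp at this; exact hy.ne' this
      have h2 : (s : ℂ) - y * I ≠ 0 := fun h => by
        have := congrArg im h; simp at this; exact hy.ne' this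
      have h3 : 0 < s ^ 2 + y ^ 2 := by positivity
      have hp : (Real.pi : ℂ) ≠ 0 := by simp [Real.pi_ne_zero]
      have e : 2 * (I / (2 * Real.pi * ((s : ℂ) + y * I)))
          = ((y / (Real.pi * (s ^ 2 + y ^ 2)) : ℝ) : ℂ)
            + ((s / (Real.pi * (s ^ 2 + y ^ 2)) : ℝ) : ℂ) * I := by
        have h4 : (s : ℂ) ^ 2 + y ^ 2 = (s + y * I) * (s - y * I) := by
          linear_combination (y : ℂ) ^ 2 * I_sq
        have h5 : 2 * (I / (2 * Real.pi * ((s : ℂ) + y * I)))
            = (I * (s - y * I)) / (Real.pi * ((s + y * I) * (s - y * I))) := by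
          generalize (s : ℂ) + y * I = p at *
          generalize (s : ℂ) - y * I = q at *
          field_simp
        have h6 : I * ((s : ℂ) - y * I) = y + s * I := by linear_combination (-y : ℂ) * I_sq
        push_cast; rw [h5, h6, h4, add_div, mul_div_right_comm]
      rw [e]
      simp only [add_re, ofReal_re, mul_re, I_re, mul_zero, ofReal_im, I_im, mul_one, sub_self,
        add_zero]
      have := Real.pi_pos
      field_simp; ring
    · simp [h]
  refine ⟨fun z => 2 * L φ z, fun z hz => ⟨(L_diff hφ.r hz).const_mul 2, ?_⟩, fun t => ?_, ?_⟩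
  · have := r3 z.re z.im hz
    rw [re_add_im] at this
    have hi : Integrable fun τ : ℝ => (1 + ((z.re - τ) / z.im) ^ 2)⁻¹ :=
      (integrable_inv_one_add_sq.comp_div hz.ne').comp_sub_left z.re
    rw [this]
    refine (setIntegral_le_integral (hi.const_mul _)
      (Eventually.of_forall fun τ => by positivity)).trans ?_
    rw [integral_const_mul, integral_sub_left_eq_self (fun τ : ℝ => (1 + (τ / z.im) ^ 2)⁻¹),
      Measure.integral_comp_div (fun τ : ℝ => (1 + τ ^ 2)⁻¹), integral_univ_inv_one_add_sq,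
      abs_of_pos hz, smul_eq_mul]
    have := Real.pi_pos
    field_simp; rfl
  · rw [r3 t δ hδ]
    have := norm_setIntegral_le_of_norm_le_const (μ := volume) (s := E) (C := (Real.pi * δ)⁻¹)
      (f := fun τ => (Real.pi * δ)⁻¹ * (1 + ((t - τ) / δ) ^ 2)⁻¹) hfin (fun τ _ => by
        have := Real.pi_pos
        rw [Real.norm_of_nonneg (by positivity)]
        exact mul_le_of_le_one_right (by positivity)
          (inv_le_one_of_one_le₀ (by nlinarith [sq_nonneg ((t - τ) / δ)])))
    refine (le_abs_self _).trans (this.trans ?_)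
    have h1 : volume.real E ≤ δ / 2 := ENNReal.toReal_le_of_le_ofReal (by positivity) hE2
    have h2 := Real.pi_gt_three
    rw [inv_mul_le_iff₀ (by positivity)]
    nlinarith
  · have hy : Tendsto (fun k : ℕ => 1 / ((k : ℝ) + 1)) atTop (𝓝 0) :=
      tendsto_one_div_add_atTop_nhds_zero_nat
    have hp : ∀ k : ℕ, 0 < 1 / ((k : ℝ) + 1) := fun k => by positivity
    have hP : ∀ y : ℝ, 0 < y → FP (fun t : ℝ => (((2 * L φ (t + y * I)).re : ℝ) : ℂ))
        fun ξ => φ ξ * (ep y ξ + em y ξ) := fun y hy => by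
      have := (FP_ep hφ.r hy).add (FP_em hφ.r hy)
      simp only [← r2 _ y hy, add_conj, ← mul_add] at this
      simpa using this
    obtain ⟨ns, hns, hl⟩ := exists_subseq (fun k => (hP _ (hp k)).l) hm
      (poisson_tendsto hφ hy hp (fun k => hP _ (hp k)))
    refine ⟨fun k => 1 / ((ns k : ℝ) + 1), fun k => hp _, hy.comp hns.tendsto_atTop, ?_⟩
    filter_upwards [hl] with t ht
    have := (continuous_re.tendsto _).comp ht
    convert! this using 2
    by_cases h : t ∈ E <;> simp [h]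

theorem main {E : Set ℝ} (hE : MeasurableSet E) (hE0 : 0 < volume E) {δ K M : ℝ} (hδ : 0 < δ)
    (hE2 : volume E ≤ ENNReal.ofReal (δ / 2)) (hK : 0 ≤ K) (hδK : δ * K ≤ 1 / 4)
    {A r : Bool → ℂ → ℂ} {A₀ : Bool → ℝ → ℂ}
    (hd : ∀ j (z : ℂ), 0 < z.im → HasDb (A j) z (r j z))
    (hr : ∀ j (z : ℂ), 0 < z.im → ContinuousAt (r j) z)
    (hb : ∀ j (z : ℂ), 0 < z.im → z.im ≤ δ → ‖r j z‖ ≤ K * (‖A true z‖ + ‖A false z‖))
    (hC : ∀ j (a : ℝ), 0 < a → ∃ C, ∀ z : ℂ, z.im ∈ Icc a δ → ‖A j z‖ ≤ C)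
    (hM : ∀ j (s : ℝ), 0 < s → MemLp (fun x : ℝ => A j (x + s * I)) 2 volume ∧
      (s ≤ δ → n2 (fun x : ℝ => A j (x + s * I)) ≤ M))
    (h0 : ∀ j, MemLp (A₀ j) 2 volume ∧ ∀ᵐ t, t ∈ E → A₀ j t = 0)
    (hl : ∀ j (y : ℕ → ℝ), (∀ k, 0 < y k) → Tendsto y atTop (𝓝 0) →
      Tendsto (fun k => n2 fun x : ℝ => A j (x + y k * I) - A₀ j x) atTop (𝓝 0)) :
    ∃ U : Set ℂ, IsOpen U ∧ U.Nonempty ∧ ∀ z ∈ U, 0 < z.im ∧ z.im < δ ∧ ∀ j, A j z = 0 := by
  obtain ⟨ψ, hψ, hψδ, y, hy0, hy, hyl⟩ := weight hE hδ hE2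
  have hzI : ∀ z : ℂ, 0 < z.im → 1 ≤ ‖z + I‖ ∧ |z.re| ≤ ‖z + I‖ := fun z hz =>
    ⟨le_trans (by simp; linarith) (im_le_norm _), by simpa using abs_re_le_norm (z + I)⟩
  let w : ℕ → ℂ → ℂ := fun n z => exp (n * ψ z) / (z + I)
  have wn : ∀ n (z : ℂ), ‖w n z‖ = Real.exp (n * (ψ z).re) / ‖z + I‖ := by
    intro n z; simp [w, norm_exp]
  have w1 : ∀ n (z : ℂ), 0 < z.im → ‖w n z‖ ≤ Real.exp (n * (ψ z).re) := fun n z hz => by
    rw [wn]; exact div_le_self (Real.exp_pos _).le (hzI z hz).1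
  have w0 : ∀ (n : ℕ) (z : ℂ), 0 < z.im → Real.exp (n * (ψ z).re) ≤ Real.exp n := fun n z hz =>
    Real.exp_le_exp.2 (mul_le_of_le_one_right (Nat.cast_nonneg n) (hψ z hz).2)
  have wd : ∀ n (z : ℂ), 0 < z.im → DifferentiableAt ℂ (w n) z := fun n z hz =>
    (((hψ z hz).1.const_mul _).cexp).div (by fun_prop) (fun h => by
      have := (hzI z hz).1; rw [h, norm_zero] at this; linarith)
  have line : ∀ {g : ℂ → ℂ} {s : ℝ}, 0 < s → (∀ z : ℂ, 0 < z.im → ContinuousAt g z) →
      Continuous fun x : ℝ => g (x + s * I) := fun {g s} hs hg =>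
    continuous_iff_continuousAt.2 fun x => ContinuousAt.comp (f := fun x : ℝ => (x + s * I : ℂ))
      (hg _ (by simpa)) (by fun_prop)
  have Wm : ∀ n j (s : ℝ), 0 < s → MemLp (fun x : ℝ => A j (x + s * I) * w n (x + s * I)) 2 volume :=
    fun n j s hs => mem_of_le (hM j s hs).1 ((hM j s hs).1.1.mul
      (line hs fun z hz => (wd n z hz).continuousAt).aestronglyMeasurable) (C := Real.exp n)
      (Eventually.of_forall fun x => by
        rw [norm_mul, mul_comm]
        exact mul_le_mul_of_nonneg_right ((w1 n _ (by simpa)).trans (w0 n _ (by simpa)))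
          (norm_nonneg _))
  let N : ℕ → ℝ → ℝ := fun n s => n2 (fun x : ℝ => A true (x + s * I) * w n (x + s * I))
    + n2 (fun x : ℝ => A false (x + s * I) * w n (x + s * I))
  have Nb : ∀ n (s c : ℝ), 0 < s → s ≤ δ → (∀ x : ℝ, (ψ (x + s * I)).re ≤ c) →
      N n s ≤ 2 * (Real.exp (n * c) * M) := by
    intro n s c hs hs' hc
    have : ∀ j, n2 (fun x : ℝ => A j (x + s * I) * w n (x + s * I)) ≤ Real.exp (n * c) * M :=
      fun j => (n2_le_of_le (hM j s hs).1 (Real.exp_pos _).le (Eventually.of_forall fun x => by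
        rw [norm_mul, mul_comm]
        exact mul_le_mul_of_nonneg_right ((w1 n _ (by simpa)).trans (Real.exp_le_exp.2
          (mul_le_mul_of_nonneg_left (hc x) (Nat.cast_nonneg n)))) (norm_nonneg _))).trans
        (mul_le_mul_of_nonneg_left ((hM j s hs).2 hs') (Real.exp_pos _).le)
    linarith [this true, this false]
  have est : ∀ n (a η : ℝ), 0 < a → a ≤ η → η ≤ δ → N n η ≤ 2 * (N n a + N n δ) := by
    intro n a η ha h1 h2
    have bdd : BddAbove (N n '' Icc a δ) := ⟨2 * (Real.exp (n * 1) * M), by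
      rintro _ ⟨s, hs, rfl⟩
      exact Nb n s 1 (ha.trans_le hs.1) hs.2 fun x => (hψ _ (by simpa using ha.trans_le hs.1)).2⟩
    set S := sSup (N n '' Icc a δ) with hS
    have leS : ∀ s ∈ Icc a δ, N n s ≤ S := fun s hs => le_csSup bdd ⟨s, hs, rfl⟩
    have S0 : 0 ≤ S := (add_nonneg (n2_nonneg _) (n2_nonneg _)).trans (leS η ⟨h1, h2⟩)
    have : S ≤ N n a + N n δ + S / 2 := by
      refine csSup_le ⟨_, η, ⟨h1, h2⟩, rfl⟩ ?_
      rintro _ ⟨s, hs, rfl⟩
      have o : ∀ j, n2 (fun x : ℝ => A j (x + s * I) * w n (x + s * I))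
          ≤ n2 (fun x : ℝ => A j (x + a * I) * w n (x + a * I))
            + n2 (fun x : ℝ => A j (x + δ * I) * w n (x + δ * I)) + (δ - a) * (K * S) := by
        intro j
        obtain ⟨C, hC⟩ := hC j a ha
        refine one (W := fun z => A j z * w n z) (R := fun z => r j z * w n z)
          (C := C * Real.exp n) hs.1 hs.2
          (fun z hz => by simpa using (hd j z (ha.trans_le hz.1)).mul (db_hol (wd n z (ha.trans_le hz.1))))
          (fun z hz => (hr j z (ha.trans_le hz.1)).mul (wd n z (ha.trans_le hz.1)).continuousAt)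
          (fun z hz => ?_) (fun u hu => Wm n j u (ha.trans_le hu.1)) (fun u hu => ?_)
        · have hz0 := ha.trans_le hz.1
          rw [norm_mul, mul_assoc]
          refine mul_le_mul (hC z hz) ?_ (by positivity) ((norm_nonneg _).trans (hC z hz))
          rw [wn, div_mul_eq_mul_div, div_le_iff₀ (by linarith [(hzI z hz0).1])]
          exact mul_le_mul (w0 n z hz0) (hzI z hz0).2 (abs_nonneg _) (Real.exp_pos _).le
        · have hu0 := ha.trans_le hu.1
          have mt : MemLp (fun x : ℝ => ((‖A true (x + u * I) * w n (x + u * I)‖ : ℝ) : ℂ)) 2 volume :=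
            (Wm n true u hu0).norm.ofReal
          have mf : MemLp (fun x : ℝ => ((‖A false (x + u * I) * w n (x + u * I)‖ : ℝ) : ℂ)) 2 volume :=
            (Wm n false u hu0).norm.ofReal
          have hle : ∀ᵐ x : ℝ, ‖r j (x + u * I) * w n (x + u * I)‖
              ≤ K * ‖((‖A true (x + u * I) * w n (x + u * I)‖ : ℝ) : ℂ)
                + ((‖A false (x + u * I) * w n (x + u * I)‖ : ℝ) : ℂ)‖ :=
            Eventually.of_forall fun x => by
              rw [← ofReal_add, Complex.norm_real, Real.norm_of_nonneg (by positivity), norm_mul,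
                norm_mul, norm_mul, ← add_mul, ← mul_assoc]
              exact mul_le_mul_of_nonneg_right (hb j _ (by simpa) (by simpa using hu.2))
                (norm_nonneg _)
          refine ⟨mem_of_le (mt.add mf) (line (g := fun z => r j z * w n z) hu0 fun z hz =>
            (hr j z hz).mul (wd n z hz).continuousAt).aestronglyMeasurable hle, ?_⟩
          refine (n2_le_of_le (mt.add mf) hK hle).trans (mul_le_mul_of_nonneg_left
            ((n2_add mt mf).trans (le_trans (add_le_add ?_ ?_) (leS u hu))) hK)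
          · exact n2_mono (Wm n true u hu0) (Eventually.of_forall fun x => by simp)
          · exact n2_mono (Wm n false u hu0) (Eventually.of_forall fun x => by simp)
      have : (δ - a) * (K * S) ≤ S / 4 := by
        have := mul_nonneg hK S0
        nlinarith
      simp only [N]
      linarith [o true, o false]
    linarith [leS η ⟨h1, h2⟩]
  have est2 : ∀ n (η : ℝ), 0 < η → η ≤ δ →
      N n η ≤ 2 * (n2 (A₀ true) + n2 (A₀ false) + 2 * (Real.exp (n * (1 / 4)) * M)) := by
    intro n η h1 h2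
    let u : Bool → ℕ → ℝ → ℂ := fun j k x => A₀ j x * (Real.exp (n * (ψ (x + y k * I)).re) : ℝ)
    have um : ∀ j k, AEStronglyMeasurable (u j k) volume := fun j k =>
      (h0 j).1.1.mul (line (g := fun z => ((Real.exp (n * (ψ z).re) : ℝ) : ℂ)) (hy0 k) fun z hz => by
        have := (hψ z hz).1.continuousAt
        fun_prop).aestronglyMeasurable
    have ub : ∀ j k, ∀ᵐ x, ‖u j k x‖ ≤ Real.exp n * ‖A₀ j x‖ := fun j k =>
      Eventually.of_forall fun x => by
        rw [norm_mul, mul_comm, Complex.norm_real, Real.norm_of_nonneg (Real.exp_pos _).le]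
        exact mul_le_mul_of_nonneg_right (w0 n _ (by simpa using hy0 k)) (norm_nonneg _)
    have ul : ∀ j, Tendsto (fun k => n2 (u j k)) atTop (𝓝 (n2 (A₀ j))) := by
      intro j
      have := n2_tendsto (h0 j).1 (um j) (ub j) (v := A₀ j) (by
        filter_upwards [hyl, (h0 j).2] with x hx hx0
        by_cases h : x ∈ E
        · simp [u, hx0 h]
        · rw [indicator_of_notMem h] at hx
          have := ((continuous_ofReal.tendsto _).comp
            (Real.continuous_exp.tendsto _ |>.comp (hx.const_mul (n : ℝ)))).const_mul (A₀ j x)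
          simpa [u] using this)
      rwa [← n2_sq (h0 j).1, Real.sqrt_sq (n2_nonneg _)] at this
    have uo : ∀ j k, n2 (fun x : ℝ => A j (x + y k * I) * w n (x + y k * I))
        ≤ Real.exp n * n2 (fun x : ℝ => A j (x + y k * I) - A₀ j x) + n2 (u j k) := by
      intro j k
      have m1 := ((hM j _ (hy0 k)).1.sub (h0 j).1)
      have wc := (line (hy0 k) fun z hz => (wd n z hz).continuousAt).aestronglyMeasurable
        (μ := volume)
      have b1 : ∀ᵐ x : ℝ, ‖(A j (x + y k * I) - A₀ j x) * w n (x + y k * I)‖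
          ≤ Real.exp n * ‖A j (x + y k * I) - A₀ j x‖ := Eventually.of_forall fun x => by
        rw [norm_mul, mul_comm]
        exact mul_le_mul_of_nonneg_right ((w1 n _ (by simpa using hy0 k)).trans
          (w0 n _ (by simpa using hy0 k))) (norm_nonneg _)
      have b2 : ∀ᵐ x : ℝ, ‖A₀ j x * w n (x + y k * I)‖ ≤ ‖u j k x‖ := Eventually.of_forall fun x => by
        rw [norm_mul, norm_mul, Complex.norm_real, Real.norm_of_nonneg (Real.exp_pos _).le]
        exact mul_le_mul_of_nonneg_left (w1 n _ (by simpa using hy0 k)) (norm_nonneg _)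
      have m2 := mem_of_le (h0 j).1 (um j k) (ub j k)
      have := n2_add (mem_of_le m1 (m1.1.mul wc) b1) (m2.of_le ((h0 j).1.1.mul wc) b2)
      have e : (fun x : ℝ => A j (x + y k * I) * w n (x + y k * I)) = fun x : ℝ =>
          (A j (x + y k * I) - A₀ j x) * w n (x + y k * I) + A₀ j x * w n (x + y k * I) := by
        ext x; ring
      rw [e]
      exact this.trans (add_le_add (n2_le_of_le m1 (Real.exp_pos _).le b1) (n2_mono m2 b2))
    have t := ((((((hl true y hy0 hy).const_mul (Real.exp n)).add (ul true)).add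
      (((hl false y hy0 hy).const_mul (Real.exp n)).add (ul false))).add_const
        (2 * (Real.exp (n * (1 / 4)) * M))).const_mul 2)
    simp only [mul_zero, zero_add] at t
    refine ge_of_tendsto t ?_
    filter_upwards [hy.eventually (ge_mem_nhds h1)] with k hk
    have := est n (y k) η (hy0 k) hk h2
    have h3 := Nb n δ (1 / 4) hδ le_rfl hψδ
    simp only [N] at this h3 ⊢
    linarith [uo true k, uo false k]
  refine ⟨{z | 0 < z.im ∧ z.im < δ ∧ 1 / 2 < (ψ z).re}, ?_, ?_, ?_⟩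
  · rw [isOpen_iff_mem_nhds]
    rintro z ⟨h1, h2, h3⟩
    have c1 := (continuous_re.continuousAt.comp (hψ z h1).1.continuousAt).eventually (lt_mem_nhds h3)
    filter_upwards [c1, continuous_im.continuousAt.eventually (lt_mem_nhds h1),
      continuous_im.continuousAt.eventually (gt_mem_nhds h2)] with v a b c using ⟨b, c, a⟩
  · obtain ⟨t, ht, h⟩ := Measure.exists_mem_of_measure_ne_zero_of_ae hE0.ne' (ae_restrict_of_ae hyl)
    rw [indicator_of_mem ht] at h
    obtain ⟨k, h1, h2⟩ := ((h.eventually (lt_mem_nhds (by norm_num : (1 / 2 : ℝ) < (1 : ℝ → ℝ) t))).and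
      (hy.eventually (gt_mem_nhds hδ))).exists
    exact ⟨t + y k * I, by simpa using hy0 k, by simpa using h2, h1⟩
  · rintro z ⟨h1, h2, h3⟩
    refine ⟨h1, h2, fun j => ?_⟩
    set η := z.im
    let O : Set ℝ := {x | 1 / 2 < (ψ (x + η * I)).re}
    have hO : IsOpen O := isOpen_lt continuous_const
      (continuous_re.comp (line h1 fun z hz => (hψ z hz).1.continuousAt))
    let v : ℝ → ℂ := O.indicator fun x => A j (x + η * I) * w 0 (x + η * I)
    have vm : MemLp v 2 volume := (Wm 0 j η h1).indicator hO.measurableSet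
    have M0 : 0 ≤ M := (n2_nonneg _).trans ((hM j η h1).2 h2.le)
    set D := 2 * (n2 (A₀ true) + n2 (A₀ false) + 2 * M)
    have vb : ∀ n : ℕ, n2 v ≤ D * Real.exp (-(1 / 4)) ^ n := by
      intro n
      have a1 : n2 v ≤ Real.exp (-(n * (1 / 2)))
          * n2 (fun x : ℝ => A j (x + η * I) * w n (x + η * I)) :=
        n2_le_of_le (Wm n j η h1) (Real.exp_pos _).le (Eventually.of_forall fun x => by
          by_cases hx : x ∈ O
          · simp only [v, indicator_of_mem hx, norm_mul, wn]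
            rw [mul_left_comm, ← mul_div_assoc (Real.exp _), ← Real.exp_add]
            gcongr
            have : 1 / 2 < (ψ (x + η * I)).re := hx
            have := Nat.cast_nonneg (α := ℝ) n
            simp only [Nat.cast_zero, zero_mul]
            nlinarith
          · simp only [v, indicator_of_notMem hx, norm_zero]; positivity)
      have a2 : n2 (fun x : ℝ => A j (x + η * I) * w n (x + η * I)) ≤ N n η := by
        cases j
        · exact le_add_of_nonneg_left (n2_nonneg _)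
        · exact le_add_of_nonneg_right (n2_nonneg _)
      have a3 := est2 n η h1 h2.le
      have a4 : 1 ≤ Real.exp (n * (1 / 4)) := Real.one_le_exp (by positivity)
      have a5 : N n η ≤ D * Real.exp (n * (1 / 4)) := by
        have := n2_nonneg (A₀ true); have := n2_nonneg (A₀ false)
        simp only [D]; nlinarith
      refine a1.trans ((mul_le_mul_of_nonneg_left (a2.trans a5) (Real.exp_pos _).le).trans ?_)
      rw [mul_left_comm, ← Real.exp_add, ← Real.exp_nat_mul]
      apply le_of_eq; congr 2; ring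
    have v0 : n2 v = 0 := by
      refine le_antisymm ?_ (n2_nonneg _)
      have := (tendsto_pow_atTop_nhds_zero_of_lt_one (Real.exp_pos (-(1 / 4))).le
        (Real.exp_lt_one_iff.2 (by norm_num))).const_mul D
      rw [mul_zero] at this
      exact ge_of_tendsto' this vb
    have := Measure.eqOn_open_of_ae_eq (μ := volume) (U := O)
      (f := fun x : ℝ => A j (x + η * I) * w 0 (x + η * I)) (g := fun _ => 0) (by
        filter_upwards [ae_restrict_of_ae (ae_zero_of_n2 vm v0), ae_restrict_mem hO.measurableSet]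
          with x hx hx'
        simpa [v, indicator_of_mem hx'] using hx) hO
      (line (g := fun z => A j z * w 0 z) h1 fun z hz =>
        (hd j z hz).cont.mul (wd 0 z hz).continuousAt).continuousOn continuousOn_const
      (x := z.re) (by simpa [O, η] using h3)
    simp only [η, re_add_im, mul_eq_zero] at this
    refine this.resolve_right fun h => ?_
    have h4 := wn 0 z
    rw [h, norm_zero] at h4
    have := (hzI z h1).1
    have : 0 < Real.exp ((0 : ℕ) * (ψ z).re) / ‖z + I‖ := by positivity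
    linarith

end Pool.Agent.H99.PH
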