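import Pool.Agent.H99.PH3

set_option autoImplicit false

open MeasureTheory FourierTransform Filter Topology Complex Set

namespace Pool.Agent.H99.PH

noncomputable def ee (ε : ℝ) (y : ℂ) : ℂ := exp (-(2 * I * ε * y))

theorem norm_ee (ε y : ℝ) : ‖ee ε y‖ = 1 := by
  have : -(2 * I * ε * y : ℂ) = ((-(2 * ε * y) : ℝ) : ℂ) * I := by push_cast; ring
  rw [ee, this, norm_exp_ofReal_mul_I]

theorem ee_conj (ε y : ℝ) : ee ε y * (starRingEnd ℂ) (ee ε y) = 1 := by
  rw [mul_conj, normSq_eq_norm_sq, norm_ee]; simp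

noncomputable def AA (ε : ℝ) (c : ℂ) (a b : ℝ → ℂ) (z : ℂ) : ℂ :=
  (1 - I * c * z.im) * L a z + c / 2 * (L (fun ξ => a ξ * rs ε ξ) z
    + ee ε z.im * (starRingEnd ℂ) (L (fun ξ => b ξ * rs ε ξ) z))

noncomputable def pp (ε : ℝ) (a b : ℝ → ℂ) (z : ℂ) : ℂ :=
  L a z + ee ε z.im * (starRingEnd ℂ) (L b z)

theorem AA_db {ε : ℝ} (hε : 0 < ε) (c : ℂ) {a b : ℝ → ℂ} (ha : MemLp a 2 volume)
    (hb : MemLp b 2 volume) {z : ℂ} (hz : 0 < z.im) :
    HasDb (AA ε c a b) z (I * c * pp ε a b z) := by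
  have h1 : HasDb (fun w : ℂ => 1 - I * c * w.im) z (-(-(I * c))) :=
    db_im (α := fun u => 1 - I * c * u) (by
      simpa using ((hasDerivAt_id (z.im : ℂ)).const_mul (I * c)).const_sub 1)
  have h2 : HasDb (fun w : ℂ => ee ε w.im) z (-(ee ε z.im * -(2 * I * ε))) :=
    db_im (α := ee ε) (by
      have := (((hasDerivAt_id (z.im : ℂ)).const_mul (2 * I * ε)).neg).cexp
      simp only [mul_one] at this
      exact this)
  have := (h1.mul (db_hol (L_diff ha hz))).add ((db_hol (differentiableAt_const (c / 2))).mul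
    ((db_hol (L_diff (rs_mem hε ha) hz)).add (h2.mul (db_conj (G_deriv hε hb hz)))))
  convert! this using 1
  simp [pp, conj_ofReal]; ring

theorem pp_cont (ε : ℝ) {a b : ℝ → ℂ} (ha : MemLp a 2 volume)
    (hb : MemLp b 2 volume) {z : ℂ} (hz : 0 < z.im) : ContinuousAt (pp ε a b) z := by
  have h1 := (L_diff ha hz).continuousAt
  have h2 := continuous_conj.continuousAt.comp (L_diff hb hz).continuousAt
  have h3 : ContinuousAt (fun w : ℂ => ee ε w.im) z := by unfold ee; fun_prop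
  exact h1.add (h3.mul h2)

theorem AA_id (ε : ℝ) (c : ℂ) (a b : ℝ → ℂ) (z : ℂ) :
    AA ε c a b z + ee ε z.im * (starRingEnd ℂ) (AA ε (-(starRingEnd ℂ) c) b a z)
      = (1 - I * c * z.im) * pp ε a b z := by
  have := ee_conj ε z.im
  simp only [AA, pp, map_add, map_mul, map_sub, map_one, conj_I, map_neg, Complex.conj_conj,
    conj_ofReal, map_div₀, map_ofNat]
  linear_combination (-c / 2 * L (fun ξ => a ξ * rs ε ξ) z) * this

theorem pp_le (ε : ℝ) (c : ℂ) (a b : ℝ → ℂ) {z : ℂ} (hz : 0 < z.im) (h : z.im * ‖c‖ ≤ 1 / 2) :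
    ‖pp ε a b z‖ ≤ 2 * (‖AA ε c a b z‖ + ‖AA ε (-(starRingEnd ℂ) c) b a z‖) := by
  have h1 := norm_add_le (AA ε c a b z)
    (ee ε z.im * (starRingEnd ℂ) (AA ε (-(starRingEnd ℂ) c) b a z))
  rw [AA_id, norm_mul, norm_mul, norm_ee, one_mul, Complex.norm_conj] at h1
  have h2 := norm_sub_norm_le (1 : ℂ) (I * c * z.im)
  simp only [norm_one, norm_mul, norm_I, one_mul, Complex.norm_real,
    Real.norm_of_nonneg hz.le] at h2
  nlinarith [norm_nonneg (pp ε a b z)]

theorem AA_bdd {ε : ℝ} (hε : 0 < ε) (c : ℂ) {a b : ℝ → ℂ} (ha : MemLp a 2 volume)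
    (hb : MemLp b 2 volume) (δ : ℝ) {s : ℝ} (hs : 0 < s) :
    ∃ C, ∀ z : ℂ, z.im ∈ Icc s δ → ‖AA ε c a b z‖ ≤ C := by
  refine ⟨(1 + ‖c‖ * δ) * (n2 a * n2 (ep s)) + ‖c / 2‖ * (n2 (fun ξ => a ξ * rs ε ξ) * n2 (ep s)
    + n2 (fun ξ => b ξ * rs ε ξ) * n2 (ep s)), fun z hz => ?_⟩
  refine (norm_add_le _ _).trans (add_le_add ?_ ?_)
  · rw [norm_mul]
    have h0 := hs.trans_le hz.1
    refine mul_le_mul ((norm_sub_le _ _).trans ?_) (L_bound ha hs hz.1) (norm_nonneg _)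
      (by have := h0.trans_le hz.2; positivity)
    simp only [norm_one, norm_mul, norm_I, one_mul, Complex.norm_real, Real.norm_of_nonneg h0.le]
    gcongr; exact hz.2
  · rw [norm_mul]
    refine mul_le_mul_of_nonneg_left ((norm_add_le _ _).trans (add_le_add
      (L_bound (rs_mem hε ha) hs hz.1) ?_)) (norm_nonneg _)
    rw [norm_mul, norm_ee, one_mul, Complex.norm_conj]
    exact L_bound (rs_mem hε hb) hs hz.1

noncomputable def ka (ε : ℝ) (c : ℂ) (y ξ : ℝ) : ℂ :=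
  (1 - I * c * y) * ep y ξ + c / 2 * (rs ε ξ * ep y ξ + ee ε y * (rs ε ξ * em y ξ))

noncomputable def kb (ε : ℝ) (c : ℂ) (y ξ : ℝ) : ℂ :=
  (1 - I * c * y) * em y ξ - c / 2 * (rs ε ξ * em y ξ + (starRingEnd ℂ) (ee ε y) * (rs ε ξ * ep y ξ))

noncomputable def k0 (ε : ℝ) (c : ℂ) (ξ : ℝ) : ℂ := (if 0 < ξ then 1 else 0) + c / 2 * rs ε ξ

theorem FP_ka {ε : ℝ} (hε : 0 < ε) (c : ℂ) {φ : ℝ → ℂ} (h : MemLp φ 2 volume) {y : ℝ}
    (hy : 0 < y) : FP (fun t : ℝ => AA ε c φ (sh φ) (t + y * I)) fun ξ => φ ξ * ka ε c y ξ := by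
  have := ((FP_ep h hy).smul (1 - I * c * y)).add (((FP_ep (rs_mem hε h) hy).add
    ((FP_em (rs_mem hε h) hy).smul (ee ε y))).smul (c / 2))
  refine this.congr (Eventually.of_forall fun t => ?_) (Eventually.of_forall fun ξ => ?_)
  · simp [AA, sh_rs]
  · simp only [ka]; ring

theorem FP_kb {ε : ℝ} (hε : 0 < ε) (c : ℂ) {φ : ℝ → ℂ} (h : MemLp φ 2 volume) {y : ℝ}
    (hy : 0 < y) : FP (fun t : ℝ => (starRingEnd ℂ) (AA ε (-(starRingEnd ℂ) c) (sh φ) φ (t + y * I)))
      fun ξ => φ ξ * kb ε c y ξ := by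
  have := ((FP_em h hy).smul (1 - I * c * y)).sub (((FP_em (rs_mem hε h) hy).add
    ((FP_ep (rs_mem hε h) hy).smul ((starRingEnd ℂ) (ee ε y)))).smul (c / 2))
  refine this.congr (Eventually.of_forall fun t => ?_) (Eventually.of_forall fun ξ => ?_)
  · simp [AA, sh_rs, conj_ofReal, map_ofNat]; ring
  · simp only [kb]; ring

theorem kab_le {ε : ℝ} (hε : 0 < ε) (c : ℂ) {y Y : ℝ} (hy : 0 < y) (hY : y ≤ Y) (ξ : ℝ) :
    ‖ka ε c y ξ‖ ≤ 1 + ‖c‖ * Y + ‖c‖ * ε⁻¹ ∧ ‖kb ε c y ξ‖ ≤ 1 + ‖c‖ * Y + ‖c‖ * ε⁻¹ := by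
  have h1 : ‖1 - I * c * y‖ ≤ 1 + ‖c‖ * Y := by
    refine (norm_sub_le _ _).trans ?_
    simp only [norm_one, norm_mul, norm_I, one_mul, Complex.norm_real, Real.norm_of_nonneg hy.le]
    gcongr
  have k : ∀ u v e : ℂ, ‖u‖ ≤ 1 → ‖v‖ ≤ 1 → ‖e‖ = 1 →
      ‖(1 - I * c * y) * u‖ + ‖c / 2 * (rs ε ξ * u + e * (rs ε ξ * v))‖
        ≤ 1 + ‖c‖ * Y + ‖c‖ * ε⁻¹ := by
    intro u v e hu hv he
    have r := rs_le hε ξ
    have a1 : ‖rs ε ξ * u + e * (rs ε ξ * v)‖ ≤ 2 * ε⁻¹ := by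
      refine (norm_add_le _ _).trans ?_
      simp only [norm_mul, he, one_mul]
      nlinarith [norm_nonneg (rs ε ξ), norm_nonneg u, norm_nonneg v]
    rw [norm_mul, norm_mul, norm_div, Complex.norm_ofNat]
    have := mul_le_mul_of_nonneg_left a1 (norm_nonneg c)
    nlinarith [norm_nonneg (1 - I * c * y), norm_nonneg u]
  exact ⟨(norm_add_le _ _).trans (k _ _ _ (ep_le hy.le ξ) (em_le hy.le ξ) (norm_ee _ _)),
    (norm_sub_le _ _).trans (k _ _ _ (em_le hy.le ξ) (ep_le hy.le ξ) (by simp [norm_ee]))⟩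

theorem k0_le {ε : ℝ} (hε : 0 < ε) (c : ℂ) (ξ : ℝ) : ‖k0 ε c ξ‖ ≤ 1 + ‖c‖ * ε⁻¹ := by
  refine (norm_add_le _ _).trans (add_le_add (by split_ifs <;> simp) ?_)
  rw [norm_mul, norm_div, Complex.norm_ofNat]
  exact mul_le_mul (by linarith [norm_nonneg c]) (rs_le hε ξ) (norm_nonneg _) (norm_nonneg _)

theorem k0_meas {ε : ℝ} (hε : 0 < ε) (c : ℂ) : Measurable (k0 ε c) :=
  (Measurable.ite measurableSet_Ioi measurable_const measurable_const).add
    ((rs_cont hε).measurable.const_mul _)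

theorem kab_lim (ε : ℝ) (c : ℂ) {y : ℕ → ℝ} (hy : Tendsto y atTop (𝓝 0)) {ξ : ℝ} (hξ : ξ ≠ 0) :
    Tendsto (fun k => ka ε c (y k) ξ) atTop (𝓝 (k0 ε c ξ)) ∧
      Tendsto (fun k => kb ε c (y k) ξ) atTop (𝓝 (1 - k0 ε c ξ)) := by
  have h1 := ep_lim hy ξ
  have h2 : Tendsto (fun k => em (y k) ξ) atTop _ := ep_lim hy (-ξ)
  have h3 : Tendsto (fun k => 1 - I * c * y k) atTop (𝓝 1) := by
    simpa using (((continuous_ofReal.tendsto 0).comp hy).const_mul (I * c)).const_sub 1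
  have h4 : Tendsto (fun k => ee ε (y k)) atTop (𝓝 1) := by
    have : Continuous fun y : ℝ => ee ε y := by unfold ee; fun_prop
    simpa [ee, Function.comp_def] using (this.tendsto 0).comp hy
  have h5 : Tendsto (fun k => (starRingEnd ℂ) (ee ε (y k))) atTop (𝓝 1) := by
    simpa [Function.comp_def] using (continuous_conj.tendsto 1).comp h4
  constructor
  · convert! (h3.mul h1).add (((h1.const_mul (rs ε ξ)).add
      (h4.mul (h2.const_mul (rs ε ξ)))).const_mul (c / 2)) using 2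
    rcases lt_or_gt_of_ne hξ with h | h <;> simp [k0, h, h.not_gt]
  · convert! (h3.mul h2).sub (((h2.const_mul (rs ε ξ)).add
      (h5.mul (h1.const_mul (rs ε ξ)))).const_mul (c / 2)) using 2
    rcases lt_or_gt_of_ne hξ with h | h <;> simp [k0, h, h.not_gt]

theorem endgame {ε : ℝ} (hε : 0 < ε) {φ : ℝ → ℂ} (h : MemLp φ 2 volume) {U : Set ℂ} (hU : IsOpen U)
    (hne : U.Nonempty) (hz : ∀ z ∈ U, 0 < z.im ∧ pp ε φ (sh φ) z = 0) : φ =ᵐ[volume] 0 := by
  obtain ⟨z₀, hz₀⟩ := hne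
  let H : Set ℂ := {z | 0 < z.im}
  have Ho : IsOpen H := isOpen_lt continuous_const continuous_im
  have Hc : IsPreconnected H := (convex_halfSpace_im_gt 0).isPreconnected
  let β : ℂ → ℂ := fun z => exp (ε * z) * L (sh φ) z
  have βd : DifferentiableOn ℂ β H := fun z hz =>
    (DifferentiableAt.mul (by fun_prop) (L_diff (sh_mem h) hz)).differentiableWithinAt
  have β1 : ∀ z ∈ U, deriv β z = 0 := by
    intro z hzU
    have h0 := (hz z hzU).1
    have := ((db_hol (V := fun z => exp (ε * z) * L φ z)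
      (DifferentiableAt.mul (by fun_prop) (L_diff h h0))).add
      (db_conj ((βd z h0).differentiableAt (Ho.mem_nhds h0)).hasDerivAt)).zero (by
        filter_upwards [hU.mem_nhds hzU] with w hw
        have e : (starRingEnd ℂ) (exp (ε * w)) = exp (ε * w) * ee ε w.im := by
          rw [← exp_conj, ee, ← Complex.exp_add]; congr 1
          apply Complex.ext <;> simp; ring
        have := (hz w hw).2
        simp only [β, map_mul, e, pp] at this ⊢
        linear_combination exp (ε * w) * this)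
    simpa using this
  have β2 : EqOn (deriv β) 0 H :=
    (βd.analyticOnNhd Ho).deriv.eqOn_zero_of_preconnected_of_eventuallyEq_zero Hc (hz z₀ hz₀).1
      (by filter_upwards [hU.mem_nhds hz₀] with w hw using β1 w hw)
  have β3 : ∀ z ∈ H, β z = 0 := by
    intro z hzH
    have hb : ∀ x : ℝ, ‖β z‖ ≤ Real.exp (ε * x) * (n2 (sh φ) * n2 (ep 1)) := by
      intro x
      rw [Ho.is_const_of_deriv_eq_zero Hc βd β2 hzH (y := x + I) (by simp [H])]
      simp only [β, norm_mul, norm_exp]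
      refine mul_le_mul (by simp) (L_bound (sh_mem h) one_pos (by simp)) (norm_nonneg _)
        (Real.exp_pos _).le
    have t := (Real.tendsto_exp_atBot.comp (tendsto_id.const_mul_atBot hε)).mul_const
      (n2 (sh φ) * n2 (ep 1))
    rw [zero_mul] at t
    exact norm_le_zero_iff.1 (ge_of_tendsto' t hb)
  have F2 : ∀ z ∈ H, L (sh φ) z = 0 := fun z hz => by simpa [β] using β3 z hz
  have F1 : EqOn (L φ) 0 H :=
    (DifferentiableOn.analyticOnNhd (fun z hz => (L_diff h hz).differentiableWithinAt)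
      Ho).eqOn_zero_of_preconnected_of_eventuallyEq_zero Hc (hz z₀ hz₀).1
      (by
        filter_upwards [hU.mem_nhds hz₀] with w hw
        simpa [pp, F2 w (hz w hw).1] using (hz w hw).2)
  have P := (FP_ep h one_pos).add (FP_em h one_pos)
  have e : (fun t : ℝ => L φ (t + (1 : ℝ) * I) + (starRingEnd ℂ) (L (sh φ) (t + (1 : ℝ) * I)))
      = fun _ => 0 := by
    ext t; rw [F1 (by simp [H]), F2 _ (by simp [H])]; simp
  have n0 := P.norm
  rw [e] at n0
  have := ae_zero_of_n2 P.r (by rw [← n0]; simp [n2])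
  filter_upwards [this, ae_ne0] with ξ h1 h2
  rcases lt_or_gt_of_ne h2 with h3 | h3 <;> simpa [em, ep, ez, h3, h3.not_gt] using h1

/-- abstract uniqueness on the Fourier side -/
theorem uniq {ε : ℝ} (hε : 0 < ε) (c : ℂ) {f φ a : ℝ → ℂ} (h : FP f φ)
    (ha : FP a fun ξ => φ ξ * k0 ε c ξ) {E : Set ℝ} (hE : MeasurableSet E) (hE0 : 0 < volume E)
    (hf : ∀ᵐ t, t ∈ E → f t = 0) (ha0 : ∀ᵐ t, t ∈ E → a t = 0) : f =ᵐ[volume] 0 := by
  set δ : ℝ := 1 / (8 * ‖c‖ + 1) with hδ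
  have δ0 : 0 < δ := by positivity
  have δc : δ * (2 * ‖c‖) ≤ 1 / 4 := by
    rw [hδ, div_mul_eq_mul_div, div_le_iff₀ (by positivity)]; linarith
  obtain ⟨E', hE', hs, h0, hle⟩ : ∃ E', MeasurableSet E' ∧ E' ⊆ E ∧ 0 < volume E' ∧
      volume E' ≤ ENNReal.ofReal (δ / 2) := by
    have : ∃ q : ℚ, 0 < volume (E ∩ Ioo (q : ℝ) (q + δ / 2)) := by
      by_contra hc
      push Not at hc
      refine hE0.ne' (measure_mono_null (t := ⋃ q : ℚ, E ∩ Ioo (q : ℝ) (q + δ / 2)) (fun x hx => ?_)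
        (measure_iUnion_null fun q => le_zero_iff.1 (hc q)))
      obtain ⟨q, h1, h2⟩ := exists_rat_btwn (show x - δ / 2 < x by linarith)
      exact mem_iUnion.2 ⟨q, hx, h2, by linarith⟩
    obtain ⟨q, hq⟩ := this
    exact ⟨_, hE.inter measurableSet_Ioo, inter_subset_left, hq,
      (measure_mono inter_subset_right).trans (by simp)⟩
  have hφ := h.r
  have hs' := sh_mem hφ
  have nc : ∀ u : ℝ → ℂ, n2 (fun x => (starRingEnd ℂ) (u x)) = n2 u := fun u => by
    unfold n2; congr 1; apply eLpNorm_congr_norm_ae; simp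
  have hb : FP (fun t => f t - a t) fun ξ => φ ξ * (1 - k0 ε c ξ) := by
    simpa only [mul_sub, mul_one] using h.sub ha
  obtain ⟨U, hU, hne, hz⟩ := main hE' h0 δ0 hle (K := 2 * ‖c‖)
    (M := (1 + ‖c‖ * δ + ‖c‖ * ε⁻¹) * n2 φ) (by positivity) δc
    (A := fun j => cond j (AA ε c φ (sh φ)) (AA ε (-(starRingEnd ℂ) c) (sh φ) φ))
    (r := fun j z => cond j (I * c * pp ε φ (sh φ) z) (I * (-(starRingEnd ℂ) c) * pp ε (sh φ) φ z))
    (A₀ := fun j => cond j a fun t => (starRingEnd ℂ) (f t - a t))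
    (fun j z hz => by
      cases j
      · exact AA_db hε _ hs' hφ hz
      · exact AA_db hε _ hφ hs' hz)
    (fun j z hz => by
      cases j
      · exact continuousAt_const.mul (pp_cont ε hs' hφ hz)
      · exact continuousAt_const.mul (pp_cont ε hφ hs' hz))
    (fun j z hz hz' => by
      have hh : z.im * ‖c‖ ≤ 1 / 2 := by nlinarith [norm_nonneg c]
      cases j
      · have := pp_le ε (-(starRingEnd ℂ) c) (sh φ) φ hz (by simpa using hh)
        simp only [map_neg, Complex.conj_conj, neg_neg] at this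
        simp only [cond, norm_mul, norm_I, one_mul, norm_neg, Complex.norm_conj]
        nlinarith [norm_nonneg c]
      · have := pp_le ε c φ (sh φ) hz hh
        simp only [cond, norm_mul, norm_I, one_mul]
        nlinarith [norm_nonneg c])
    (fun j s hs => by
      cases j
      · exact AA_bdd hε _ hs' hφ δ hs
      · exact AA_bdd hε _ hφ hs' δ hs)
    (fun j s hs => by
      cases j
      · refine ⟨by simpa using mem_conj (FP_kb hε c hφ hs).l, fun h2 => ?_⟩
        have := (FP_kb hε c hφ hs).n2_le hφ fun ξ => (kab_le hε c hs h2 ξ).2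
        rwa [nc] at this
      · exact ⟨(FP_ka hε c hφ hs).l, fun h2 =>
          (FP_ka hε c hφ hs).n2_le hφ fun ξ => (kab_le hε c hs h2 ξ).1⟩)
    (fun j => by
      cases j
      · refine ⟨mem_conj hb.l, ?_⟩
        filter_upwards [hf, ha0] with t h1 h2 ht
        simp [h1 (hs ht), h2 (hs ht)]
      · refine ⟨ha.l, ?_⟩
        filter_upwards [ha0] with t h2 ht using h2 (hs ht))
    (fun j y hy0 hy => by
      obtain ⟨Y, hY⟩ := hy.bddAbove_range
      have hY' : ∀ k, y k ≤ Y := fun k => hY ⟨k, rfl⟩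
      have Y0 : 0 ≤ ‖c‖ * Y := mul_nonneg (norm_nonneg _) ((hy0 0).le.trans (hY' 0))
      cases j
      · have := mult_tendsto hφ (C := 2 + ‖c‖ * Y + ‖c‖ * ε⁻¹) (fun k => FP_kb hε c hφ (hy0 k)) hb
          (fun k ξ => by linarith [(kab_le hε c (hy0 k) (hY' k) ξ).2])
          (fun ξ => by
            have := norm_sub_le 1 (k0 ε c ξ)
            rw [norm_one] at this
            linarith [k0_le hε c ξ])
          (by filter_upwards [ae_ne0] with ξ hξ using (kab_lim ε c hy hξ).2)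
        refine this.congr fun k => ?_
        rw [← nc]; simp
      · exact mult_tendsto hφ (C := 2 + ‖c‖ * Y + ‖c‖ * ε⁻¹) (fun k => FP_ka hε c hφ (hy0 k)) ha
          (fun k ξ => by linarith [(kab_le hε c (hy0 k) (hY' k) ξ).1])
          (fun ξ => by linarith [k0_le hε c ξ])
          (by filter_upwards [ae_ne0] with ξ hξ using (kab_lim ε c hy hξ).1))
  have := endgame hε hφ hU hne fun z hzU => by
    obtain ⟨h1, h2, h3⟩ := hz z hzU
    refine ⟨h1, norm_le_zero_iff.1 ?_⟩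
    have := pp_le ε c φ (sh φ) h1 (by nlinarith [norm_nonneg c])
    have t := h3 true
    have u := h3 false
    simp only [cond] at t u
    simpa [t, u] using this
  apply ae_zero_of_n2 h.l
  rw [h.norm, n2_congr this]; simp [n2]

noncomputable def dd (y s : ℝ) : ℂ :=
  (((if y < |s| then s⁻¹ else 0) - s / (s ^ 2 + y ^ 2) : ℝ) : ℂ)

theorem dd_scale {y : ℝ} (hy : 0 < y) (s : ℝ) : dd y s = (y : ℂ)⁻¹ * dd 1 (s / y) := by
  unfold dd
  rw [← ofReal_inv, ← ofReal_mul]; congr 1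
  have : 1 < |s / y| ↔ y < |s| := by rw [abs_div, abs_of_pos hy, one_lt_div hy]
  simp only [this]
  have h3 : 0 < s ^ 2 + y ^ 2 := by positivity
  split_ifs with h
  · have : s ≠ 0 := by rintro rfl; simp at h; linarith
    field_simp
  · field_simp; ring

theorem dd_le (s : ℝ) : ‖dd 1 s‖ ≤ (1 + s ^ 2)⁻¹ := by
  unfold dd
  rw [Complex.norm_real, Real.norm_eq_abs]
  have h3 : 0 < 1 + s ^ 2 := by positivity
  split_ifs with h
  · have h0 : s ≠ 0 := by rintro rfl; simp at h; linarith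
    have : s⁻¹ - s / (s ^ 2 + 1 ^ 2) = s⁻¹ * (1 + s ^ 2)⁻¹ := by field_simp; ring
    rw [this, abs_mul, abs_of_pos (inv_pos.2 h3), abs_inv]
    exact mul_le_of_le_one_left (by positivity) (inv_le_one_of_one_le₀ h.le)
  · have : 0 - s / (s ^ 2 + 1 ^ 2) = -s * (1 + s ^ 2)⁻¹ := by field_simp; ring
    rw [this, abs_mul, abs_of_pos (inv_pos.2 h3), abs_neg]
    exact mul_le_of_le_one_left (by positivity) (not_lt.1 h)

theorem dd_meas (y : ℝ) : Measurable (dd y) := by
  unfold dd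
  refine measurable_ofReal.comp (Measurable.sub (Measurable.ite ?_ measurable_inv measurable_const)
    (by fun_prop))
  exact measurableSet_lt measurable_const (by fun_prop)

theorem dd_int1 : Integrable (dd 1) :=
  integrable_inv_one_add_sq.mono' (dd_meas 1).aestronglyMeasurable (Eventually.of_forall dd_le)

theorem dd_int {y : ℝ} (hy : 0 < y) : Integrable (dd y) := by
  have := (dd_int1.comp_div hy.ne').const_mul (y : ℂ)⁻¹
  simpa only [← dd_scale hy] using this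

theorem dd_mem {y : ℝ} (hy : 0 < y) : MemLp (dd y) 2 volume :=
  mem2_of_bdd (dd_int hy) (C := y⁻¹) fun s => by
    rw [dd_scale hy, norm_mul, norm_inv, Complex.norm_real, Real.norm_of_nonneg hy.le]
    exact mul_le_of_le_one_right (by positivity) ((dd_le _).trans
      (inv_le_one_of_one_le₀ (by nlinarith [sq_nonneg (s / y)])))

theorem dd_ft {y : ℝ} (hy : 0 < y) (ξ : ℝ) : 𝓕 (dd y) ξ = 𝓕 (dd 1) (y * ξ) := by
  rw [fdir_eq, fdir_eq]
  have := Measure.integral_comp_div (fun u : ℝ => dd 1 u * ch (y * ξ) (-u)) y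
  rw [abs_of_pos hy, real_smul] at this
  have hy' : (y : ℂ) ≠ 0 := by simpa using hy.ne'
  rw [← inv_mul_cancel_left₀ hy' (∫ t, dd 1 t * ch (y * ξ) (-t)), ← this, ← integral_const_mul]
  congr 1; ext t
  rw [dd_scale hy, mul_assoc]; congr 2
  unfold ch; congr 1; push_cast; field_simp

theorem dd_ft0 : 𝓕 (dd 1) 0 = 0 := by
  rw [fdir_eq]
  simp only [ch, ofReal_zero, mul_zero, zero_mul, Complex.exp_zero, mul_one]
  have h := integral_neg_eq_self (dd 1) volume
  have e : (fun x => dd 1 (-x)) = fun x => -dd 1 x := by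
    ext x; unfold dd; rw [← ofReal_neg]; congr 1
    rw [abs_neg]; split_ifs <;> ring
  rw [e, integral_neg] at h
  linear_combination (-1 / 2 : ℂ) * h

theorem dd_ft_le (ξ : ℝ) : ‖𝓕 (dd 1) ξ‖ ≤ ∫ s, ‖dd 1 s‖ := by
  rw [fdir_eq]
  refine (norm_integral_le_integral_norm _).trans (le_of_eq ?_)
  simp [norm_ch]

theorem hilb {f φ : ℝ → ℂ} (h : FP f φ) {y : ℝ} (hy : 0 < y) :
    FP (fun t => I / Real.pi * ∫ τ in {τ : ℝ | y < |t - τ|}, f τ / ((t - τ : ℝ) : ℂ))
      fun ξ => φ ξ * (I / Real.pi * 𝓕 (dd 1) (y * ξ) + ep y ξ - em y ξ) := by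
  have p1 := FP_mul h.r (FP_dir (dd_int hy) (dd_mem hy)).r (C := ∫ s, ‖dd 1 s‖)
    (fun ξ => by rw [dd_ft hy]; exact dd_ft_le _)
  have p2 := FP_mul h.r (ep_mem hy) (ep_le hy.le)
  have p3 := FP_mul h.r (em_mem hy) (em_le hy.le)
  refine (((p1.smul (I / Real.pi)).add p2).sub p3).congr (Eventually.of_forall fun t => ?_)
    (Eventually.of_forall fun ξ => ?_)
  · have i1 := int_mul h.l (mem_refl (dd_mem hy) t)
    have i2 := int_mul h.l (mem_refl (FP_inv (ep_int hy) (ep_mem hy)).l t)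
    have i3 := int_mul h.l (mem_refl (FP_inv (em_int hy) (em_mem hy)).l t)
    have i4 : Integrable fun x => I / Real.pi * (f x * dd y (t - x)) + f x * 𝓕⁻ (ep y) (t - x) :=
      (i1.const_mul _).add i2
    simp only
    rw [← conv_dir h (dd_int hy) (dd_mem hy), ← conv_inv h (ep_int hy) (ep_mem hy),
      ← conv_inv h (em_int hy) (em_mem hy), ← integral_const_mul,
      ← integral_add (i1.const_mul _) i2, ← integral_sub i4 i3,
      ← integral_indicator (measurableSet_lt measurable_const (by fun_prop)), ← integral_const_mul]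
    congr 1; ext τ
    have e0 : {τ : ℝ | y < |t - τ|}.indicator (fun τ => f τ / ((t - τ : ℝ) : ℂ)) τ
        = if y < |t - τ| then f τ / ((t - τ : ℝ) : ℂ) else 0 := by
      by_cases hh : y < |t - τ|
      · rw [if_pos hh, indicator_of_mem (by exact hh)]
      · rw [if_neg hh, indicator_of_notMem (by exact hh)]
    rw [finv_ep hy, finv_em hy, dd, e0]
    clear e0
    generalize t - τ = s
    have h1 : (s : ℂ) + y * I ≠ 0 := fun h => by
      have := congrArg im h; simp at this; exact hy.ne' this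
    have h2 : (s : ℂ) - y * I ≠ 0 := fun h => by
      have := congrArg im h; simp at this; exact hy.ne' this
    have hp : (Real.pi : ℂ) ≠ 0 := by simp [Real.pi_ne_zero]
    have h4 : (s : ℂ) ^ 2 + y ^ 2 = (s + y * I) * (s - y * I) := by
      linear_combination (y : ℂ) ^ 2 * I_sq
    have h5 : (s : ℂ) / (s ^ 2 + y ^ 2) = (1 / 2) * ((s + y * I)⁻¹ + (s - y * I)⁻¹) := by
      have h6 : (s : ℂ) = (1 / 2) * ((s + y * I) + (s - y * I)) := by ring
      rw [h4]
      nth_rewrite 1 [h6]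
      generalize (s : ℂ) + y * I = p at *
      generalize (s : ℂ) - y * I = q at *
      field_simp; ring
    push_cast
    rw [h5]
    generalize (s : ℂ) + y * I = p at *
    generalize (s : ℂ) - y * I = q at *
    split_ifs
    · push_cast; field_simp; ring
    · push_cast; field_simp; ring
  · simp only [dd_ft hy]; ring

theorem resolv {f φ : ℝ → ℂ} (h : FP f φ) {ε : ℝ} (hε : 0 < ε) :
    FP (fun t => ∫ τ in Iic t, ((Real.exp (ε * (τ - t)) : ℝ) : ℂ) * f τ)
      fun ξ => φ ξ * rs ε ξ := by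
  have hy : 0 < ε / (2 * Real.pi) := by have := Real.pi_pos; positivity
  have hp : (Real.pi : ℂ) ≠ 0 := by simp [Real.pi_ne_zero]
  have e : 𝓕 (ep (ε / (2 * Real.pi))) = rs ε := by
    ext ξ
    have := Real.fourierInv_eq_fourier_neg (ep (ε / (2 * Real.pi))) (-ξ)
    rw [neg_neg] at this
    rw [← this, finv_ep hy, rs]
    have h1 : 2 * (Real.pi : ℂ) * (((-ξ : ℝ) : ℂ) + ((ε / (2 * Real.pi) : ℝ) : ℂ) * I)
        = I * (ε + 2 * Real.pi * I * ξ) := by
      push_cast; field_simp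
      linear_combination (-2 * Real.pi * ξ : ℂ) * I_sq
    rw [h1]
    have := rs_ne hε ξ
    field_simp
  have p1 := FP_mul h.r (FP_dir (ep_int hy) (ep_mem hy)).r (C := ε⁻¹)
    (fun ξ => by rw [e]; exact rs_le hε ξ)
  refine p1.congr (Eventually.of_forall fun t => ?_) (by rw [e])
  simp only
  rw [← conv_dir h (ep_int hy) (ep_mem hy), integral_Iic_eq_integral_Iio,
    ← integral_indicator measurableSet_Iio]
  congr 1; ext τ
  rw [indicator_apply, ep, ez]
  simp only [mem_Iio, sub_pos]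
  split_ifs
  · rw [mul_comm]; congr 1
    push_cast; congr 1; field_simp
    linear_combination (t - τ : ℂ) * ε * I_sq
  · simp

theorem final (c : ℂ) (ε : ℝ) (hε : 0 < ε) (E : Set ℝ) (hE : MeasurableSet E) (hE0 : 0 < volume E)
    (f : ℝ → ℂ) (hf : MemLp f 2 volume) (h1 : ∀ᵐ t ∂(volume.restrict E), f t = 0)
    (h2 : ∀ᵐ t ∂(volume.restrict E), Tendsto (fun δ : ℝ =>
      (∫ τ in {τ : ℝ | δ < |t - τ|}, f τ / ((t - τ : ℝ) : ℂ)) +
        c * ∫ τ in Set.Iic t, ((Real.exp (ε * (τ - t)) : ℝ) : ℂ) * f τ) (𝓝[>] 0) (𝓝 0)) :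
    f =ᵐ[volume] 0 := by
  obtain ⟨φ, h⟩ := exists_FP hf
  rw [ae_restrict_iff' hE] at h1 h2
  set c' : ℂ := I / Real.pi * c
  obtain ⟨a, ha⟩ := exists_FP' (mem_of_le h.r (h.r.1.mul (k0_meas hε c').aestronglyMeasurable)
    (C := 1 + ‖c'‖ * ε⁻¹) (Eventually.of_forall fun x => by
      rw [Pi.mul_apply, norm_mul, mul_comm]
      exact mul_le_mul_of_nonneg_right (k0_le hε c' x) (norm_nonneg _)))
  refine uniq hε c' h ha hE hE0 h1 ?_
  have hy : Tendsto (fun k : ℕ => 1 / ((k : ℝ) + 1)) atTop (𝓝 0) :=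
    tendsto_one_div_add_atTop_nhds_zero_nat
  have hp : ∀ k : ℕ, 0 < 1 / ((k : ℝ) + 1) := fun k => by positivity
  have hS : ∀ y : ℝ, 0 < y → FP (fun t => (1 / 2) * (f t + I / Real.pi *
      ((∫ τ in {τ : ℝ | y < |t - τ|}, f τ / ((t - τ : ℝ) : ℂ)) +
        c * ∫ τ in Set.Iic t, ((Real.exp (ε * (τ - t)) : ℝ) : ℂ) * f τ)))
      fun ξ => φ ξ * ((1 / 2) * (1 + (I / Real.pi * 𝓕 (dd 1) (y * ξ) + ep y ξ - em y ξ)
        + c' * rs ε ξ)) := fun y hy =>
    (((h.add (hilb h hy)).add ((resolv h hε).smul c')).smul (1 / 2)).congr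
      (Eventually.of_forall fun t => by simp only [c']; ring)
      (Eventually.of_forall fun t => by simp only; ring)
  have t := mult_tendsto h.r (C := 2 + ‖I / Real.pi‖ * (∫ s, ‖dd 1 s‖) + ‖c'‖ * ε⁻¹)
    (fun k => hS _ (hp k)) ha (fun k ξ => ?_) (fun ξ => ?_) ?_
  · obtain ⟨ns, hns, hl⟩ := exists_subseq (fun k => (hS _ (hp k)).l) ha.l t
    filter_upwards [hl, h1, h2] with x a1 a2 a3 hx
    have := (a3 hx).comp (tendsto_nhdsWithin_iff.2 ⟨hy.comp hns.tendsto_atTop,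
      Eventually.of_forall fun k => hp _⟩)
    have := ((this.const_mul (I / Real.pi)).const_add (f x)).const_mul (1 / 2)
    rw [tendsto_nhds_unique a1 this, a2 hx]; simp
  · set y := 1 / ((k : ℝ) + 1)
    have b1 := mul_le_mul_of_nonneg_left (dd_ft_le (y * ξ)) (norm_nonneg (I / Real.pi))
    have b2 := mul_le_mul_of_nonneg_left (rs_le hε ξ) (norm_nonneg c')
    rw [← norm_mul] at b1 b2
    have b3 := norm_add_le (1 + (I / Real.pi * 𝓕 (dd 1) (y * ξ) + ep y ξ - em y ξ)) (c' * rs ε ξ)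
    have b4 := norm_add_le 1 (I / Real.pi * 𝓕 (dd 1) (y * ξ) + ep y ξ - em y ξ)
    have b5 := norm_sub_le (I / Real.pi * 𝓕 (dd 1) (y * ξ) + ep y ξ) (em y ξ)
    have b6 := norm_add_le (I / Real.pi * 𝓕 (dd 1) (y * ξ)) (ep y ξ)
    have b7 := ep_le (hp k).le ξ
    have b8 := em_le (hp k).le ξ
    rw [norm_one] at b4
    rw [norm_mul]
    have : ‖(1 / 2 : ℂ)‖ = 1 / 2 := by simp
    rw [this]
    linarith [norm_nonneg (I / Real.pi * 𝓕 (dd 1) (y * ξ)), norm_nonneg (c' * rs ε ξ)]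
  · have : 0 ≤ ‖I / Real.pi‖ * (∫ s, ‖dd 1 s‖) :=
      mul_nonneg (norm_nonneg _) (integral_nonneg fun _ => norm_nonneg _)
    linarith [k0_le hε c' ξ]
  · filter_upwards [ae_ne0] with ξ hξ
    have l1 := ep_lim hy ξ
    have l2 : Tendsto (fun k : ℕ => em (1 / ((k : ℝ) + 1)) ξ) atTop _ := ep_lim hy (-ξ)
    have l3 := ((fourier_cont dd_int1).tendsto _).comp (hy.mul_const ξ)
    rw [zero_mul, dd_ft0] at l3
    convert! (((((l3.const_mul (I / Real.pi)).add l1).sub l2).const_add 1).add_const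
      (c' * rs ε ξ)).const_mul (1 / 2) using 2
    rcases lt_or_gt_of_ne hξ with h | h <;> simp [k0, h, h.not_gt] <;> ring

end Pool.Agent.H99.PH
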