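import Mathlib

/-! Polynormed modules over the algebra of holomorphic functions on a domain. -/

noncomputable section

namespace Pool.Agent.H99.PolyMod

/-- The algebra `O(U)` of holomorphic functions on `U ⊆ ℂ^n`, inside `C(U, ℂ)` with the topology
of uniform convergence on compact sets. -/
def Hol {n : ℕ} (U : Set (Fin n → ℂ)) : Subalgebra ℂ C(U, ℂ) where
  carrier := {f | ∃ g : (Fin n → ℂ) → ℂ, DifferentiableOn ℂ g U ∧ ∀ z : U, f z = g z}
  mul_mem' := by
    rintro _ _ ⟨g, hg, h⟩ ⟨g', hg', h'⟩
    exact ⟨fun z => g z * g' z, hg.mul hg', fun z => by simp [h, h']⟩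
  add_mem' := by
    rintro _ _ ⟨g, hg, h⟩ ⟨g', hg', h'⟩
    exact ⟨fun z => g z + g' z, hg.add hg', fun z => by simp [h, h']⟩
  algebraMap_mem' c := ⟨fun _ => c, differentiableOn_const c, fun z => by simp⟩

/-- Polynormed space: a complete Hausdorff locally convex complex vector space. -/
structure Polyn (E : Type) [AddCommGroup E] [Module ℂ E] [UniformSpace E] : Prop where
  unif : IsUniformAddGroup E
  complete : CompleteSpace E
  t2 : T2Space E
  polynormable : PolynormableSpace ℂ E

/-- Polynormed module over a topological algebra `R`: the action is compatible with the complex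
structure and jointly continuous. -/
structure PolyModule (R : Type) [CommRing R] [Algebra ℂ R] [TopologicalSpace R]
    (X : Type) [AddCommGroup X] [Module ℂ X] [Module R X] [UniformSpace X] : Prop where
  poly : Polyn X
  tower : IsScalarTower ℂ R X
  cont : ContinuousSMul R X

/-- Projectivity in the sense of topological homology. -/
def Projective (R : Type) [CommRing R] [Algebra ℂ R] [TopologicalSpace R]
    (X : Type) [AddCommGroup X] [Module ℂ X] [Module R X] [UniformSpace X] : Prop :=
  ∀ (Y : Type) [AddCommGroup Y] [Module ℂ Y] [Module R Y] [UniformSpace Y], PolyModule R Y →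
    ∀ φ : Y →L[R] X, (∃ ρ : X →L[ℂ] Y, ∀ x, φ (ρ x) = x) → ∃ σ : X →L[R] Y, ∀ x, φ (σ x) = x

/-- Vector valued functions: for an algebra `R` of functions on `T`, given by `ev`, the continuous
maps `T → E` whose composition with every continuous linear functional is in `R`. For
`R = O(U)` this is `O(U, E)`. -/
def HolV {T R : Type} [TopologicalSpace T] (ev : R → C(T, ℂ)) (E : Type) [AddCommGroup E]
    [Module ℂ E] [TopologicalSpace E] : Set C(T, E) :=
  {F | ∀ l : E →L[ℂ] ℂ, ∃ f : R, ∀ z, ev f z = l (F z)}

/-- `X` is free: a homeomorphism of `X` onto `O(U, E)` respects the sum and the action. -/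
def Free {T R : Type} [TopologicalSpace T] [CommRing R] (ev : R → C(T, ℂ)) (X : Type)
    [AddCommGroup X] [Module R X] [TopologicalSpace X] : Prop :=
  ∃ (E : Type) (_ : AddCommGroup E) (_ : Module ℂ E) (_ : UniformSpace E), Polyn E ∧
    ∃ Φ : X → C(T, E), Topology.IsEmbedding Φ ∧ Set.range Φ = HolV ev E ∧
      (∀ x y z, Φ (x + y) z = Φ x z + Φ y z) ∧ ∀ (f : R) x z, Φ (f • x) z = ev f z • Φ x z

/-- There is a projective polynormed `R`-module that is not free. -/
def ProjNotFree {T R : Type} [TopologicalSpace T] [CommRing R] [Algebra ℂ R] [TopologicalSpace R]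
    (ev : R → C(T, ℂ)) : Prop :=
  ∃ (X : Type) (_ : AddCommGroup X) (_ : Module ℂ X) (_ : Module R X) (_ : UniformSpace X),
    PolyModule R X ∧ Projective R X ∧ ¬ Free ev X

/-- There is a projective polynormed `O(U)`-module that is not free. -/
def HolProjNotFree {n : ℕ} (U : Set (Fin n → ℂ)) : Prop :=
  ProjNotFree (R := Hol U) Subtype.val

end Pool.Agent.H99.PolyMod
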