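import Mathlib

set_option autoImplicit false

namespace Pool.Agent.H99.QI

open Matrix
open scoped ComplexOrder MatrixOrder

variable {n : Type*} [Fintype n] [DecidableEq n]

lemma exists_sq {A : Matrix n n ℂ} (hA : A.PosSemidef) : ∃ B : Matrix n n ℂ, A = Bᴴ * B := by
  obtain ⟨B, hB⟩ := CStarAlgebra.nonneg_iff_eq_star_mul_self.1 hA.nonneg
  exact ⟨B, hB⟩

lemma trace_mul_nonneg {A B : Matrix n n ℂ} (hA : A.PosSemidef) (hB : B.PosSemidef) :
    0 ≤ (A * B).trace := by
  obtain ⟨C, rfl⟩ := exists_sq hA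
  rw [Matrix.mul_assoc, trace_mul_comm]
  exact (hB.mul_mul_conjTranspose_same C).trace_nonneg

lemma trace_mul_re_nonneg {A B : Matrix n n ℂ} (hA : A.PosSemidef) (hB : B.PosSemidef) :
    0 ≤ (A * B).trace.re := (Complex.nonneg_iff.1 (trace_mul_nonneg hA hB)).1

lemma psd_two (a d x y : ℝ) (ha : 0 ≤ a) (hd : 0 ≤ d) (h : x ^ 2 + y ^ 2 ≤ a * d) :
    (!![(a : ℂ), x - y * Complex.I; x + y * Complex.I, d]).PosSemidef := by
  apply PosSemidef.of_dotProduct_mulVec_nonneg
  · ext i j
    fin_cases i <;> fin_cases j <;> simp [conjTranspose_apply, sub_eq_add_neg]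
  · intro v
    rw [Complex.nonneg_iff]
    simp only [dotProduct, mulVec, Fin.sum_univ_two, Pi.star_apply, of_apply, cons_val',
      cons_val_zero, cons_val_one, cons_val_fin_one, RCLike.star_def]
    constructor
    · simp only [Complex.add_re, Complex.mul_re, Complex.conj_re, Complex.ofReal_re,
        Complex.ofReal_im, Complex.sub_re, Complex.I_re, Complex.I_im, Complex.sub_im,
        Complex.mul_im, Complex.conj_im, Complex.add_im]
      set p := (v 0).re
      set q := (v 0).im
      set r := (v 1).re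
      set s := (v 1).im
      have key : 0 ≤ a * (p ^ 2 + q ^ 2) + d * (r ^ 2 + s ^ 2)
          + 2 * (x * (p * r + q * s) + y * (p * s - q * r)) := by
        have h1 : (x * (p * r + q * s) + y * (p * s - q * r)) ^ 2
            ≤ (a * (p ^ 2 + q ^ 2)) * (d * (r ^ 2 + s ^ 2)) := by
          have h2 : (x * (p * r + q * s) + y * (p * s - q * r)) ^ 2
              ≤ (x ^ 2 + y ^ 2) * ((p ^ 2 + q ^ 2) * (r ^ 2 + s ^ 2)) := by
            nlinarith [sq_nonneg (x * (p * s - q * r) - y * (p * r + q * s))]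
          have h3 := mul_le_mul_of_nonneg_right h
            (by positivity : 0 ≤ (p ^ 2 + q ^ 2) * (r ^ 2 + s ^ 2))
          nlinarith
        have h4 : 0 ≤ a * (p ^ 2 + q ^ 2) := by positivity
        have h5 : 0 ≤ d * (r ^ 2 + s ^ 2) := by positivity
        have h6 := abs_le_of_sq_le_sq' (b := (a * (p ^ 2 + q ^ 2) + d * (r ^ 2 + s ^ 2)) / 2)
          (h1.trans (by nlinarith [sq_nonneg (a * (p ^ 2 + q ^ 2) - d * (r ^ 2 + s ^ 2))]))
          (by positivity)
        linarith [h6.1]
      nlinarith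
    · simp only [Complex.add_re, Complex.mul_re, Complex.conj_re, Complex.ofReal_re,
        Complex.ofReal_im, Complex.sub_re, Complex.I_re, Complex.I_im, Complex.sub_im,
        Complex.mul_im, Complex.conj_im, Complex.add_im]
      ring

end Pool.Agent.H99.QI
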