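import Mathlib

open Matrix Finset RCLike
open scoped ComplexOrder

namespace Pool.Agent.H99.RPC

variable {𝕜 : Type*} [RCLike 𝕜] {n : ℕ}

/-- One Cholesky elimination step with pivot `j`: `R - R e_j e_jᴴ R / R_jj`. -/
noncomputable def step (R : Matrix (Fin n) (Fin n) 𝕜) (j : Fin n) : Matrix (Fin n) (Fin n) 𝕜 :=
  Matrix.of fun a b => R a b - R a j * R j b / R j j

/-- The (real) trace. -/
noncomputable def tr (R : Matrix (Fin n) (Fin n) 𝕜) : ℝ := re R.trace

/-- `Ex k g R` is the expectation of `g` at the residual after `k` steps of randomly pivoted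
Cholesky started at `R`: the pivot `j` is drawn with probability `R_jj / tr R`, and the
procedure stops when `tr R = 0`. -/
noncomputable def Ex : ℕ → (Matrix (Fin n) (Fin n) 𝕜 → ℝ) → Matrix (Fin n) (Fin n) 𝕜 → ℝ
  | 0, g, R => g R
  | k + 1, g, R => if tr R = 0 then g R else ∑ j, re (R j j) / tr R * Ex k g (step R j)

lemma tr_eq (R : Matrix (Fin n) (Fin n) 𝕜) : tr R = ∑ j, re (R j j) := by
  simp [tr, Matrix.trace]

lemma diag_re {R : Matrix (Fin n) (Fin n) 𝕜} (hR : R.PosSemidef) (j : Fin n) :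
    0 ≤ re (R j j) ∧ R j j = ((re (R j j) : ℝ) : 𝕜) := by
  have := RCLike.nonneg_iff.mp (hR.diag_nonneg (i := j))
  exact ⟨this.1, by rw [← re_add_im (R j j), this.2]; simp⟩

lemma tr_nonneg {R : Matrix (Fin n) (Fin n) 𝕜} (hR : R.PosSemidef) : 0 ≤ tr R := by
  rw [tr_eq]; exact Finset.sum_nonneg fun j _ => (diag_re hR j).1

lemma tr_sub (R S : Matrix (Fin n) (Fin n) 𝕜) : tr (R - S) = tr R - tr S := by simp [tr]

lemma tr_add (R S : Matrix (Fin n) (Fin n) 𝕜) : tr (R + S) = tr R + tr S := by simp [tr]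

lemma step_eq {R : Matrix (Fin n) (Fin n) 𝕜} (hR : R.IsHermitian) (j : Fin n) :
    step R j = R - (R j j)⁻¹ • vecMulVec (fun a => R a j) (star fun a => R a j) := by
  ext a b
  simp only [step, Matrix.of_apply, Matrix.sub_apply, Matrix.smul_apply, vecMulVec_apply,
    Pi.star_apply, smul_eq_mul, hR.apply j b]
  ring

lemma sub_step_psd {R : Matrix (Fin n) (Fin n) 𝕜} (hR : R.PosSemidef) (j : Fin n) :
    (R - step R j).PosSemidef := by
  rw [step_eq hR.1, sub_sub_cancel]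
  refine (posSemidef_vecMulVec_self_star _).smul ?_
  rw [(diag_re hR j).2, ← RCLike.ofReal_inv]
  exact RCLike.ofReal_nonneg.2 (inv_nonneg.2 (diag_re hR j).1)

lemma step_psd {R : Matrix (Fin n) (Fin n) 𝕜} (hR : R.PosSemidef) (j : Fin n) :
    (step R j).PosSemidef := by
  by_cases h : R j j = 0
  · have : step R j = R := by ext a b; simp [step, h]
    rwa [this]
  set C : Matrix (Fin n) (Fin n) 𝕜 :=
    Matrix.of fun a b => (if a = b then 1 else 0) - if a = j then R j b / R j j else 0 with hC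
  have h1 : R * C = step R j := by
    ext a b
    simp only [Matrix.mul_apply, hC, Matrix.of_apply, mul_sub, Finset.sum_sub_distrib, mul_ite,
      mul_one, mul_zero, Finset.sum_ite_eq', Finset.mem_univ, if_true, step]
    ring
  have h2 : Cᴴ * step R j = step R j := by
    ext a b
    have : R j b - R j j * R j b / R j j = 0 := by field_simp; ring
    simp only [Matrix.mul_apply, hC, Matrix.of_apply, conjTranspose_apply, star_sub, sub_mul,
      Finset.sum_sub_distrib, apply_ite star, star_one, star_zero, ite_mul, one_mul, zero_mul,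
      Finset.sum_ite_eq', Finset.mem_univ, if_true, step, this, mul_zero, sub_zero]
  have := hR.conjTranspose_mul_mul_same C
  rwa [Matrix.mul_assoc, h1, h2] at this

def Inv (A R : Matrix (Fin n) (Fin n) 𝕜) : Prop := R.PosSemidef ∧ (A - R).PosSemidef

lemma Inv.refl {A : Matrix (Fin n) (Fin n) 𝕜} (hA : A.PosSemidef) : Inv A A :=
  ⟨hA, by rw [sub_self]; exact PosSemidef.zero⟩

lemma Inv.trans {A R S : Matrix (Fin n) (Fin n) 𝕜} (h1 : Inv A R) (h2 : Inv R S) : Inv A S :=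
  ⟨h2.1, by have := h1.2.add h2.2; rwa [sub_add_sub_cancel] at this⟩

lemma Inv.step {A R : Matrix (Fin n) (Fin n) 𝕜} (h : Inv A R) (j : Fin n) : Inv A (step R j) :=
  h.trans ⟨step_psd h.1 j, sub_step_psd h.1 j⟩

lemma Inv.tr_le {A R : Matrix (Fin n) (Fin n) 𝕜} (h : Inv A R) : tr R ≤ tr A := by
  have := tr_nonneg h.2; rw [tr_sub] at this; linarith

lemma Ex_mono {A : Matrix (Fin n) (Fin n) 𝕜} {g1 g2 : Matrix (Fin n) (Fin n) 𝕜 → ℝ}
    (hg : ∀ R, Inv A R → g1 R ≤ g2 R) (k : ℕ) : ∀ R, Inv A R → Ex k g1 R ≤ Ex k g2 R := by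
  induction k with
  | zero => exact hg
  | succ k ih =>
    intro R hR
    simp only [Ex]
    split_ifs
    · exact hg R hR
    · exact Finset.sum_le_sum fun j _ => mul_le_mul_of_nonneg_left (ih _ (hR.step j))
        (div_nonneg (diag_re hR.1 j).1 (tr_nonneg hR.1))

lemma Ex_lin (g : Matrix (Fin n) (Fin n) 𝕜 → ℝ) (α β : ℝ) (k : ℕ) :
    ∀ R, Ex k (fun S => α * g S + β) R = α * Ex k g R + β := by
  induction k with
  | zero => intro R; rfl
  | succ k ih =>
    intro R
    simp only [Ex]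
    split_ifs with h
    · rfl
    · simp only [ih, mul_add, Finset.sum_add_distrib, Finset.mul_sum, ← Finset.sum_mul,
        ← Finset.sum_div, ← tr_eq, div_self h, one_mul]
      congr 1
      exact Finset.sum_congr rfl fun j _ => by ring

lemma Ex_stop (g : Matrix (Fin n) (Fin n) 𝕜 → ℝ) (k : ℕ) {R : Matrix (Fin n) (Fin n) 𝕜}
    (h : tr R = 0) : Ex k g R = g R := by
  cases k <;> simp [Ex, h]

lemma Ex_add (g : Matrix (Fin n) (Fin n) 𝕜 → ℝ) (m k : ℕ) :
    ∀ R, Ex (k + m) g R = Ex k (Ex m g) R := by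
  induction k with
  | zero => intro R; simp [Ex]
  | succ k ih =>
    intro R
    rw [show k + 1 + m = (k + m) + 1 by ring]
    simp only [Ex]
    split_ifs with h
    · exact (Ex_stop g m h).symm
    · simp only [ih]

/-- tangent line principle -/
lemma Ex_tangent {A : Matrix (Fin n) (Fin n) 𝕜} (hA : A.PosSemidef)
    {g : Matrix (Fin n) (Fin n) 𝕜 → ℝ} {α β : ℝ} {m : ℕ}
    (h : ∀ R, Inv A R → Ex m g R ≤ α * g R + β) (k : ℕ) :
    Ex (k + m) g A ≤ α * Ex k g A + β := by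
  rw [Ex_add, ← Ex_lin]
  exact Ex_mono h k A (Inv.refl hA)

section fn
variable {R : Matrix (Fin n) (Fin n) 𝕜} (hR : R.IsHermitian)

noncomputable def U : Matrix (Fin n) (Fin n) 𝕜 := hR.eigenvectorUnitary.1

lemma U1 : U hR * (U hR)ᴴ = 1 := hR.eigenvectorUnitary.2.2
lemma U2 : (U hR)ᴴ * U hR = 1 := hR.eigenvectorUnitary.2.1

noncomputable def fn (f : ℝ → ℝ) : Matrix (Fin n) (Fin n) 𝕜 :=
  U hR * diagonal (fun i => ((f (hR.eigenvalues i) : ℝ) : 𝕜)) * (U hR)ᴴ

lemma fn_id : fn hR (fun x => x) = R := hR.spectral_theorem.symm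

lemma fn_const (c : ℝ) : fn hR (fun _ => c) = (c : 𝕜) • 1 := by
  have : diagonal (fun _ : Fin n => (c : 𝕜)) = (c : 𝕜) • 1 := by
    ext i j; by_cases h : i = j <;> simp [h, one_apply]
  rw [fn, this, Matrix.mul_smul, Matrix.smul_mul, Matrix.mul_one, U1]

lemma fn_one : fn hR (fun _ => 1) = 1 := by rw [fn_const]; simp

lemma fn_mul (f g : ℝ → ℝ) : fn hR f * fn hR g = fn hR (fun x => f x * g x) := by
  simp only [fn, Matrix.mul_assoc]
  rw [← Matrix.mul_assoc (U hR)ᴴ, U2, Matrix.one_mul, ← Matrix.mul_assoc (diagonal _),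
    diagonal_mul_diagonal]
  simp

lemma fn_add (f g : ℝ → ℝ) : fn hR f + fn hR g = fn hR (fun x => f x + g x) := by
  simp only [fn, ← Matrix.add_mul, ← Matrix.mul_add, diagonal_add]
  simp

lemma fn_sub (f g : ℝ → ℝ) : fn hR f - fn hR g = fn hR (fun x => f x - g x) := by
  simp only [fn, ← Matrix.sub_mul, ← Matrix.mul_sub, diagonal_sub]
  simp

lemma fn_congr {f g : ℝ → ℝ} (h : ∀ i, f (hR.eigenvalues i) = g (hR.eigenvalues i)) :
    fn hR f = fn hR g := by simp only [fn, h]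

lemma fn_psd {f : ℝ → ℝ} (h : ∀ i, 0 ≤ f (hR.eigenvalues i)) : (fn hR f).PosSemidef :=
  (PosSemidef.diagonal fun i => RCLike.ofReal_nonneg.2 (h i)).mul_mul_conjTranspose_same _

lemma fn_herm (f : ℝ → ℝ) : (fn hR f)ᴴ = fn hR f := by
  simp only [fn, conjTranspose_mul, conjTranspose_conjTranspose, diagonal_conjTranspose,
    Matrix.mul_assoc]
  congr 3
  ext i; simp

lemma trace_mul_fn (P : Matrix (Fin n) (Fin n) 𝕜) (f : ℝ → ℝ) :
    tr (P * fn hR f) = ∑ i, re (((U hR)ᴴ * P * U hR) i i) * f (hR.eigenvalues i) := by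
  rw [tr, fn, ← Matrix.mul_assoc, trace_mul_comm, ← Matrix.mul_assoc, ← Matrix.mul_assoc]
  simp [Matrix.trace, Matrix.mul_diagonal]

lemma tr_fn (f : ℝ → ℝ) : tr (fn hR f) = ∑ i, f (hR.eigenvalues i) := by
  have := trace_mul_fn hR 1 f
  simpa [U2] using this

lemma det_fn (f : ℝ → ℝ) : (fn hR f).det = ((∏ i, f (hR.eigenvalues i) : ℝ) : 𝕜) := by
  rw [fn, det_mul, det_mul, mul_right_comm, ← det_mul, U1]
  simp

lemma tr_eig : tr R = ∑ i, hR.eigenvalues i := by
  conv_lhs => rw [← fn_id hR]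
  exact tr_fn hR _

end fn

def IsP (P : Matrix (Fin n) (Fin n) 𝕜) : Prop := Pᴴ = P ∧ P * P = P

lemma IsP.compl {P : Matrix (Fin n) (Fin n) 𝕜} (h : IsP P) : IsP (1 - P) :=
  ⟨by simp [h.1], by simp [Matrix.sub_mul, Matrix.mul_sub, h.2]⟩

lemma IsP.psd {P : Matrix (Fin n) (Fin n) 𝕜} (h : IsP P) : P.PosSemidef := by
  have := posSemidef_conjTranspose_mul_self P
  rwa [h.1, h.2] at this

lemma tr_mul_nonneg {S : Matrix (Fin n) (Fin n) 𝕜} (hS : S.PosSemidef)
    (C : Matrix (Fin n) (Fin n) 𝕜) : 0 ≤ tr (C * Cᴴ * S) := by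
  have := tr_nonneg (hS.conjTranspose_mul_mul_same C)
  rwa [tr, Matrix.mul_assoc, trace_mul_comm, trace_mul_cycle, trace_mul_cycle] at this

lemma IsP.tr_nonneg {P S : Matrix (Fin n) (Fin n) 𝕜} (h : IsP P) (hS : S.PosSemidef) :
    0 ≤ tr (P * S) := by
  have := tr_mul_nonneg hS P
  rwa [h.1, h.2] at this

lemma IsP.cost_le {P A R : Matrix (Fin n) (Fin n) 𝕜} (h : IsP P) (hR : Inv A R) :
    tr ((1 - P) * R) ≤ tr ((1 - P) * A) := by
  have := h.compl.tr_nonneg hR.2
  rw [Matrix.mul_sub, tr_sub] at this; linarith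

/-- weights of a projection along the eigenvectors -/
lemma weights {P R : Matrix (Fin n) (Fin n) 𝕜} (h : IsP P) (hR : R.IsHermitian) :
    ∃ a : Fin n → ℝ, (∀ i, 0 ≤ a i) ∧ (∀ i, a i ≤ 1) ∧ ∑ i, a i = tr P ∧
      ∑ i, (1 - a i) * hR.eigenvalues i = tr ((1 - P) * R) := by
  have key : ∀ i, re (((U hR)ᴴ * (1 - P) * U hR) i i) = 1 - re (((U hR)ᴴ * P * U hR) i i) := by
    intro i
    rw [Matrix.mul_sub, Matrix.sub_mul, Matrix.mul_one, U2]; simp
  refine ⟨fun i => re (((U hR)ᴴ * P * U hR) i i), fun i => ?_, fun i => ?_, ?_, ?_⟩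
  · exact (diag_re (h.psd.conjTranspose_mul_mul_same _) i).1
  · have := (diag_re (h.compl.psd.conjTranspose_mul_mul_same (U hR)) i).1
    rw [key] at this; linarith
  · have := trace_mul_fn hR P (fun _ => 1)
    rw [fn_one, Matrix.mul_one] at this
    simpa using this.symm
  · have := trace_mul_fn hR (1 - P) (fun x => x)
    rw [fn_id] at this
    rw [this]
    exact Finset.sum_congr rfl fun i _ => by rw [key]

end Pool.Agent.H99.RPC
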