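import Pool.Agent.H99.RainsDefs

namespace Pool.Agent.H99.Rains

open Matrix Pool.Agent.H99.RainsDefs

def s2 (g : Matrix (Fin 2) (Fin 2) ℂ) : Matrix (Fin 3) (Fin 3) ℂ :=
  !![g 0 0 ^ 2, g 0 0 * g 0 1, g 0 1 ^ 2;
     2 * g 0 0 * g 1 0, g 0 0 * g 1 1 + g 0 1 * g 1 0, 2 * g 0 1 * g 1 1;
     g 1 0 ^ 2, g 1 0 * g 1 1, g 1 1 ^ 2]

def s3 (g : Matrix (Fin 2) (Fin 2) ℂ) : Matrix (Fin 4) (Fin 4) ℂ :=
  !![g 0 0 ^ 3, g 0 0 ^ 2 * g 0 1, g 0 0 * g 0 1 ^ 2, g 0 1 ^ 3;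
     3 * g 0 0 ^ 2 * g 1 0, g 0 0 ^ 2 * g 1 1 + 2 * g 0 0 * g 0 1 * g 1 0,
       2 * g 0 0 * g 0 1 * g 1 1 + g 0 1 ^ 2 * g 1 0, 3 * g 0 1 ^ 2 * g 1 1;
     3 * g 0 0 * g 1 0 ^ 2, 2 * g 0 0 * g 1 0 * g 1 1 + g 0 1 * g 1 0 ^ 2,
       g 0 0 * g 1 1 ^ 2 + 2 * g 0 1 * g 1 0 * g 1 1, 3 * g 0 1 * g 1 1 ^ 2;
     g 1 0 ^ 3, g 1 0 ^ 2 * g 1 1, g 1 0 * g 1 1 ^ 2, g 1 1 ^ 3]

def R2 : SU2 →* Matrix (Fin 3) (Fin 3) ℂ where
  toFun g := s2 g
  map_one' := by
    ext i j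
    fin_cases i <;> fin_cases j <;> simp [s2]
  map_mul' g h := by
    ext i j
    fin_cases i <;> fin_cases j <;>
      simp [s2, Matrix.mul_apply, Fin.sum_univ_succ] <;> ring

def R3 : SU2 →* Matrix (Fin 4) (Fin 4) ℂ where
  toFun g := s3 g
  map_one' := by
    ext i j
    fin_cases i <;> fin_cases j <;> simp [s3]
  map_mul' g h := by
    ext i j
    fin_cases i <;> fin_cases j <;>
      simp [s3, Matrix.mul_apply, Fin.sum_univ_succ] <;> ring

theorem R2_cont : Continuous R2 := by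
  have : Continuous s2 := by
    refine continuous_matrix fun i j => ?_
    fin_cases i <;> fin_cases j <;> simp [s2] <;> fun_prop
  exact this.comp continuous_subtype_val

theorem R3_cont : Continuous R3 := by
  have : Continuous s3 := by
    refine continuous_matrix fun i j => ?_
    fin_cases i <;> fin_cases j <;> simp [s3] <;> fun_prop
  exact this.comp continuous_subtype_val

theorem e_add (x y : ℝ) : e (x + y) = e x * e y := by
  simp only [e, ← Complex.exp_add]; push_cast; ring_nf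

theorem e_zero : e 0 = 1 := by simp [e]

theorem R2_torus (x : ℝ) (g : SU2) (h : (g : Matrix (Fin 2) (Fin 2) ℂ) = diagonal ![e x, e (-x)]) :
    R2 g = diagonal fun k => e (((![2, 0, -2] : Fin 3 → ℤ) k : ℤ) * x) := by
  change s2 g = _
  rw [h]
  ext i j
  fin_cases i <;> fin_cases j <;> simp [s2, sq, ← e_add] <;> congr 1 <;> ring

theorem R3_torus (x : ℝ) (g : SU2) (h : (g : Matrix (Fin 2) (Fin 2) ℂ) = diagonal ![e x, e (-x)]) :
    R3 g = diagonal fun k => e (((![3, 1, -1, -3] : Fin 4 → ℤ) k : ℤ) * x) := by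
  change s3 g = _
  rw [h]
  ext i j
  fin_cases i <;> fin_cases j <;> simp [s3, pow_succ, ← e_add] <;> congr 1 <;> ring

noncomputable def D : Data where
  n := 4
  dim := fun j => match j with
    | 0 => 3 | 1 => 3 | 2 => 3 | 3 => 4
  rep := fun j => match j with
    | 0 => R2 | 1 => R2 | 2 => R2 | 3 => R3
  cont := fun j => match j with
    | 0 => R2_cont | 1 => R2_cont | 2 => R2_cont | 3 => R3_cont
  wt := fun j => match j with
    | 0 => ![2, 0, -2] | 1 => ![2, 0, -2] | 2 => ![2, 0, -2] | 3 => ![3, 1, -1, -3]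
  torus := fun j => match j with
    | 0 => R2_torus | 1 => R2_torus | 2 => R2_torus | 3 => R3_torus
  r := ![1 / 4, 1 / 4, 1 / 4, 3 / 2]
  r_pos := by intro j; fin_cases j <;> simp
  r_lt := by intro j; fin_cases j <;> simp <;> norm_num

theorem sum4 {M : Type*} [AddCommMonoid M] (f : Fin D.n → M) :
    ∑ j, f j = f (0 : Fin 4) + f (1 : Fin 4) + f (2 : Fin 4) + f (3 : Fin 4) :=
  Fin.sum_univ_four f

theorem D_anom : D.AnomalyFree := by
  constructor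
  · decide
  · rw [sum4]
    change ((1 / 4 : ℝ) - 1) * ∑ k : Fin 3, (((![2, 0, -2] : Fin 3 → ℤ) k : ℤ) : ℝ) ^ 2
      + ((1 / 4 : ℝ) - 1) * ∑ k : Fin 3, (((![2, 0, -2] : Fin 3 → ℤ) k : ℤ) : ℝ) ^ 2
      + ((1 / 4 : ℝ) - 1) * ∑ k : Fin 3, (((![2, 0, -2] : Fin 3 → ℤ) k : ℤ) : ℝ) ^ 2
      + ((3 / 2 : ℝ) - 1) * ∑ k : Fin 4, (((![3, 1, -1, -3] : Fin 4 → ℤ) k : ℤ) : ℝ) ^ 2 + _ = 0
    simp [Fin.sum_univ_succ]
    norm_num

theorem D_nonchiral : D.NonChiral := by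
  intro m
  have h3 : (Finset.univ.filter fun k => (![2, 0, -2] : Fin 3 → ℤ) k = m).card
      = (Finset.univ.filter fun k => (![2, 0, -2] : Fin 3 → ℤ) k = -m).card := by
    apply Finset.card_bijective Fin.rev Fin.rev_bijective
    intro i
    fin_cases i <;> simp [Fin.rev] <;> omega
  have h4 : (Finset.univ.filter fun k => (![3, 1, -1, -3] : Fin 4 → ℤ) k = m).card
      = (Finset.univ.filter fun k => (![3, 1, -1, -3] : Fin 4 → ℤ) k = -m).card := by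
    apply Finset.card_bijective Fin.rev Fin.rev_bijective
    intro i
    fin_cases i <;> simp [Fin.rev] <;> omega
  rw [sum4, sum4]
  exact congrArg₂ (· + ·) (congrArg₂ (· + ·) (congrArg₂ (· + ·) h3 h3) h3) h4

def gI : SU2 := ⟨!![Complex.I, 0; 0, -Complex.I], by
  rw [Matrix.mem_specialUnitaryGroup_iff, Matrix.mem_unitaryGroup_iff]
  constructor
  · ext i j
    fin_cases i <;> fin_cases j <;> simp [Matrix.mul_apply, Fin.sum_univ_succ]
  · simp [Matrix.det_fin_two]⟩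

def gW : SU2 := ⟨!![0, 1; -1, 0], by
  rw [Matrix.mem_specialUnitaryGroup_iff, Matrix.mem_unitaryGroup_iff]
  constructor
  · ext i j
    fin_cases i <;> fin_cases j <;> simp [Matrix.mul_apply, Fin.sum_univ_succ]
  · simp [Matrix.det_fin_two]⟩

theorem R2_nos (v : Fin 3 → ℂ) (h : ∀ g, R2 g *ᵥ v = v) : v = 0 := by
  have h1 : s2 !![Complex.I, 0; 0, -Complex.I] *ᵥ v = v := h gI
  have h2 : s2 !![0, 1; -1, 0] *ᵥ v = v := h gW
  have a0 := congrFun h1 0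
  have a2 := congrFun h1 2
  have a1 := congrFun h2 1
  simp [s2, Matrix.mulVec, dotProduct, Fin.sum_univ_succ] at a0 a1 a2
  funext i
  fin_cases i
  · change v 0 = 0; linear_combination (-1 / 2 : ℂ) * a0
  · change v 1 = 0; linear_combination (-1 / 2 : ℂ) * a1
  · change v 2 = 0; linear_combination (-1 / 2 : ℂ) * a2

theorem R3_nos (v : Fin 4 → ℂ) (h : ∀ g, R3 g *ᵥ v = v) : v = 0 := by
  have h2 := h (gW * gW)
  rw [map_mul] at h2
  change (s3 !![0, 1; -1, 0] * s3 !![0, 1; -1, 0]) *ᵥ v = v at h2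
  have e1 : s3 !![0, 1; -1, 0] * s3 !![0, 1; -1, 0] = -1 := by
    ext i j
    fin_cases i <;> fin_cases j <;> simp [s3, Matrix.mul_apply, Fin.sum_univ_succ] <;> norm_num
  rw [e1, Matrix.neg_mulVec, Matrix.one_mulVec] at h2
  funext i
  have := congrFun h2 i
  simp only [Pi.neg_apply] at this
  change v i = 0
  linear_combination (-1 / 2 : ℂ) * this

theorem D_nos : D.NoSinglets := fun j : Fin 4 => match j with
  | 0 => R2_nos | 1 => R2_nos | 2 => R2_nos | 3 => R3_nos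

theorem theta_neg (x : ℝ) : theta (-x) = theta x := by
  unfold theta
  by_cases h : Int.fract x = 0
  · rw [Int.fract_neg_eq_zero.2 h, h]
  · rw [Int.fract_neg h]; ring

theorem theta_zero : theta 0 = 0 := by simp [theta]

theorem D_rains (x : ℝ) :
    D.rains x = 5 / 4 * theta (2 * x) - 1 / 2 * theta (3 * x) - 1 / 2 * theta x := by
  unfold Data.rains
  rw [sum4]
  change 1 / 2 * ((1 - (1 / 4 : ℝ)) * ∑ k : Fin 3, theta (((![2, 0, -2] : Fin 3 → ℤ) k : ℤ) * x)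
      + (1 - (1 / 4 : ℝ)) * ∑ k : Fin 3, theta (((![2, 0, -2] : Fin 3 → ℤ) k : ℤ) * x)
      + (1 - (1 / 4 : ℝ)) * ∑ k : Fin 3, theta (((![2, 0, -2] : Fin 3 → ℤ) k : ℤ) * x)
      + (1 - (3 / 2 : ℝ)) * ∑ k : Fin 4, theta (((![3, 1, -1, -3] : Fin 4 → ℤ) k : ℤ) * x)) - _ = _
  simp [Fin.sum_univ_succ, theta_neg, theta_zero]
  ring

theorem D_half : D.rains (1 / 2) = -1 / 4 := by
  rw [D_rains]
  have h1 : Int.fract (2 * (1 / 2) : ℝ) = 0 := by norm_num
  have h2 : Int.fract (1 / 2 : ℝ) = 1 / 2 := Int.fract_eq_self.2 ⟨by norm_num, by norm_num⟩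
  have h3 : Int.fract (3 * (1 / 2) : ℝ) = 1 / 2 := by
    rw [show (3 * (1 / 2) : ℝ) = 1 / 2 + 1 by norm_num, Int.fract_add_one, h2]
  simp only [theta, h1, h2, h3]
  norm_num

theorem theta_small (x : ℝ) (h : |x| < 1) : theta x = |x| - x ^ 2 := by
  rcases le_total 0 x with h0 | h0
  · rw [abs_of_nonneg h0] at h ⊢
    rw [theta, Int.fract_eq_self.2 ⟨h0, h⟩]; ring
  · rw [abs_of_nonpos h0] at h ⊢
    rw [← theta_neg, theta, Int.fract_eq_self.2 ⟨by linarith, h⟩]; ring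

theorem D_small (x : ℝ) (h : |x| < 1 / 3) : D.rains x = |x| / 2 := by
  have h2 : |2 * x| = 2 * |x| := by rw [abs_mul]; norm_num
  have h3 : |3 * x| = 3 * |x| := by rw [abs_mul]; norm_num
  rw [D_rains, theta_small x (by linarith), theta_small (2 * x) (by linarith),
    theta_small (3 * x) (by linarith), h2, h3]
  ring

theorem D_trR : D.trR = -7 / 4 := by
  unfold Data.trR
  rw [sum4]
  change 3 + (((1 / 4 : ℝ) - 1) * ((3 : ℕ) : ℝ) + ((1 / 4 : ℝ) - 1) * ((3 : ℕ) : ℝ)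
    + ((1 / 4 : ℝ) - 1) * ((3 : ℕ) : ℝ) + ((3 / 2 : ℝ) - 1) * ((4 : ℕ) : ℝ)) = _
  norm_num

end Pool.Agent.H99.Rains
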