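import Mathlib

namespace Pool.Agent.H99.RainsDefs

open Matrix

/-- The group `SU(2)`. -/
abbrev SU2 : Type := Matrix.specialUnitaryGroup (Fin 2) ℂ

/-- `e(x) = exp (2 π i x)`. -/
noncomputable def e (x : ℝ) : ℂ := Complex.exp (2 * Real.pi * Complex.I * x)

/-- Gauge data with gauge group `SU(2)`: finitely many continuous finite-dimensional complex
representations, written in a basis of weight vectors for the diagonal torus, with R-charges. -/
structure Data where
  /-- number of representations -/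
  n : ℕ
  /-- their dimensions -/
  dim : Fin n → ℕ
  /-- the representations -/
  rep : ∀ j, SU2 →* Matrix (Fin (dim j)) (Fin (dim j)) ℂ
  cont : ∀ j, Continuous (rep j)
  /-- their weights, with multiplicity -/
  wt : ∀ j, Fin (dim j) → ℤ
  torus : ∀ j (x : ℝ) (g : SU2), (g : Matrix (Fin 2) (Fin 2) ℂ) = diagonal ![e x, e (-x)] →
    rep j g = diagonal fun k => e (wt j k * x)
  /-- R-charges -/
  r : Fin n → ℝ
  r_pos : ∀ j, 0 < r j
  r_lt : ∀ j, r j < 2

/-- The two anomaly conditions; the roots of `SU(2)` are `2` and `-2`. -/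
def Data.AnomalyFree (D : Data) : Prop :=
  ∑ j, ∑ k, D.wt j k ^ 3 = 0 ∧
    ∑ j, (D.r j - 1) * ∑ k, (D.wt j k : ℝ) ^ 2 + ((2 : ℝ) ^ 2 + (-2 : ℝ) ^ 2) = 0

/-- The nonzero weights split into pairs `ρ, -ρ`. -/
def Data.NonChiral (D : Data) : Prop :=
  ∀ m : ℤ, ∑ j, (Finset.univ.filter fun k => D.wt j k = m).card
    = ∑ j, (Finset.univ.filter fun k => D.wt j k = -m).card

/-- No representation contains a nonzero invariant vector. -/
def Data.NoSinglets (D : Data) : Prop :=
  ∀ j (v : Fin (D.dim j) → ℂ), (∀ g, D.rep j g *ᵥ v = v) → v = 0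

/-- `ϑ(x) = {x} (1 - {x})`. -/
noncomputable def theta (x : ℝ) : ℝ := Int.fract x * (1 - Int.fract x)

/-- The Rains function; the positive root of `SU(2)` is `2`. -/
noncomputable def Data.rains (D : Data) (x : ℝ) : ℝ :=
  1 / 2 * ∑ j, (1 - D.r j) * ∑ k, theta (D.wt j k * x) - theta (2 * x)

/-- `Tr R = dim G + ∑ (r j - 1) dim R j`. -/
noncomputable def Data.trR (D : Data) : ℝ := 3 + ∑ j, (D.r j - 1) * D.dim j

end Pool.Agent.H99.RainsDefs
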