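import Mathlib

set_option autoImplicit false

namespace Pool.Agent.H99.Rand

open Finset Equiv

variable {I V : Type} [DecidableEq I] [DecidableEq V]

/-- action of a letter -/
def act (σ : I → Perm V) (x : I × Bool) : Perm V := cond x.2 (σ x.1) (σ x.1)⁻¹

/-- trajectory -/
def pos (σ : I → Perm V) (w : ℕ → I × Bool) (v : V) : ℕ → V
  | 0 => v
  | j + 1 => act σ (w j) (pos σ w v j)

/-- modification of one permutation -/
def modi (σ : I → Perm V) (x : I × Bool) (u u' : V) : I → Perm V :=
  Function.update σ x.1 (cond x.2 (swap u u' * σ x.1) (σ x.1 * swap u u'))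

lemma act_modi_self (σ : I → Perm V) (x : I × Bool) (u u' : V) :
    act (modi σ x u u') x = swap u u' * act σ x := by
  obtain ⟨i, _ | _⟩ := x <;> simp [act, modi]

lemma act_modi_inv (σ : I → Perm V) (x y : I × Bool) (h1 : y.1 = x.1) (h2 : y.2 ≠ x.2) (u u' : V) :
    act (modi σ x u u') y = act σ y * swap u u' ∧ act σ y = (act σ x)⁻¹ := by
  obtain ⟨i, _ | _⟩ := x <;> obtain ⟨j, _ | _⟩ := y <;> simp only at h1 h2 <;> subst h1 <;>
    simp_all [act, modi]

lemma act_modi_ne (σ : I → Perm V) (x y : I × Bool) (h1 : y.1 ≠ x.1) (u u' : V) :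
    act (modi σ x u u') y = act σ y := by
  simp [act, modi, Function.update_of_ne h1]

lemma modi_modi (σ : I → Perm V) (x : I × Bool) (u u' : V) : modi (modi σ x u u') x u u' = σ := by
  obtain ⟨i, _ | _⟩ := x <;> simp [modi, mul_assoc]

/-- the first l + 1 positions are distinct -/
def Good (σ : I → Perm V) (w : ℕ → I × Bool) (v : V) (l : ℕ) : Prop :=
  ∀ j ≤ l, ∀ k ≤ l, pos σ w v j = pos σ w v k → j = k

lemma pos_modi' (σ : I → Perm V) (w : ℕ → I × Bool) (v : V) (l : ℕ) (hg : Good σ w v l)
    (hr : ∀ j, j + 1 = l → (w j).1 = (w l).1 → (w j).2 = (w l).2) (u' : V)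
    (hu : ∀ j ≤ l, pos σ w v j ≠ u') (j : ℕ) (hj : j ≤ l) :
    pos (modi σ (w l) (pos σ w v (l + 1)) u') w v j = pos σ w v j := by
  induction j with
  | zero => rfl
  | succ j ih =>
    change act _ (w j) (pos _ w v j) = act σ (w j) (pos σ w v j)
    rw [ih (by omega)]
    by_cases h1 : (w j).1 = (w l).1
    · by_cases h2 : (w j).2 = (w l).2
      · have e : w j = w l := Prod.ext h1 h2
        rw [e, act_modi_self, Perm.mul_apply, swap_apply_of_ne_of_ne]
        · intro h
          have := hg j (by omega) l le_rfl ((act σ (w l)).injective h)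
          omega
        · have := hu (j + 1) hj
          rwa [pos, e] at this
      · obtain ⟨e1, e2⟩ := act_modi_inv σ (w l) (w j) h1 h2 (pos σ w v (l + 1)) u'
        rw [e1, Perm.mul_apply, swap_apply_of_ne_of_ne _ (hu j (by omega))]
        intro h
        have h3 : pos σ w v (j + 1) = pos σ w v l := by
          rw [pos, h, e2, pos]; simp
        exact h2 (hr j (hg _ hj _ le_rfl h3) h1)
    · rw [act_modi_ne _ _ _ h1]

variable [Fintype I] [Fintype V]

open Classical in
lemma step (w : ℕ → I × Bool) (v : V) (l : ℕ)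
    (hr : ∀ j, j + 1 = l → (w j).1 = (w l).1 → (w j).2 = (w l).2) :
    #{σ : I → Perm V | Good σ w v l ∧ ¬ Good σ w v (l + 1)} * (Fintype.card V - (l + 1)) ≤
      Fintype.card (I → Perm V) * (l + 1) := by
  set B := ({σ : I → Perm V | Good σ w v l ∧ ¬ Good σ w v (l + 1)} : Finset _)
  let vis : (I → Perm V) → Finset V := fun σ => (range (l + 1)).image (pos σ w v)
  have h1 : #B * (Fintype.card V - (l + 1)) ≤ #(B.sigma fun σ => (vis σ)ᶜ) := by
    rw [card_sigma, ← smul_eq_mul]
    apply card_nsmul_le_sum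
    intro σ _
    rw [card_compl]
    have : #(vis σ) ≤ l + 1 := card_image_le.trans (by simp)
    omega
  have ex : ∀ σ ∈ B, ∃ k ≤ l, pos σ w v k = pos σ w v (l + 1) := by
    intro σ hσ
    obtain ⟨h2, h3⟩ := (mem_filter.1 hσ).2
    by_contra h
    push Not at h
    apply h3
    intro j hj k hk e
    rcases Nat.lt_or_ge j (l + 1) with a | a <;> rcases Nat.lt_or_ge k (l + 1) with b | b
    · exact h2 j (by omega) k (by omega) e
    · rw [show k = l + 1 by omega] at e; exact absurd e (h j (by omega))
    · rw [show j = l + 1 by omega] at e; exact absurd e.symm (h k (by omega))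
    · omega
  choose! kk hk1 hk2 using ex
  refine h1.trans ?_
  have h4 : Fintype.card (I → Perm V) * (l + 1) = #((univ : Finset (I → Perm V)) ×ˢ range (l + 1)) := by
    simp
  rw [h4]
  refine card_le_card_of_injOn
    (fun p => (modi p.1 (w l) (pos p.1 w v (l + 1)) p.2, kk p.1)) ?_ ?_
  · intro p hp
    have := hk1 p.1 (mem_sigma.1 hp).1
    simp; omega
  · have key : ∀ p ∈ B.sigma fun σ => (vis σ)ᶜ,
        pos (modi p.1 (w l) (pos p.1 w v (l + 1)) p.2) w v (kk p.1) = pos p.1 w v (l + 1) ∧
        pos (modi p.1 (w l) (pos p.1 w v (l + 1)) p.2) w v (l + 1) = p.2 := by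
      intro p hp
      obtain ⟨a, b⟩ := mem_sigma.1 hp
      have hu : ∀ j ≤ l, pos p.1 w v j ≠ p.2 := fun j hj e =>
        mem_compl.1 b (mem_image.2 ⟨j, mem_range.2 (by omega), e⟩)
      have c := pos_modi' p.1 w v l (mem_filter.1 a).2.1 hr p.2 hu
      refine ⟨by rw [c _ (hk1 _ a), hk2 _ a], ?_⟩
      rw [pos, c l le_rfl, act_modi_self, Perm.mul_apply]
      exact swap_apply_left _ _
    rintro ⟨σ, u⟩ hp ⟨τ, t⟩ hq e
    obtain ⟨e1, e2⟩ := Prod.ext_iff.1 e
    obtain ⟨a1, a2⟩ := key _ hp
    obtain ⟨b1, b2⟩ := key _ hq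
    simp only at e1 e2 a1 a2 b1 b2
    rw [e1] at a1 a2
    rw [e2] at a1
    have e3 : u = t := a2.symm.trans b2
    have e4 : pos σ w v (l + 1) = pos τ w v (l + 1) := a1.symm.trans b1
    subst e3
    have : σ = τ := by
      rw [← modi_modi σ (w l) (pos σ w v (l + 1)) u, e1, e4, modi_modi]
    subst this
    rfl

open Classical in
lemma not_good (w : ℕ → I × Bool) (v : V) (L : ℕ)
    (hr : ∀ j, j + 1 < L → (w j).1 = (w (j + 1)).1 → (w j).2 = (w (j + 1)).2) :
    ∀ l ≤ L, #{σ : I → Perm V | ¬ Good σ w v l} * (Fintype.card V - L) ≤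
      Fintype.card (I → Perm V) * (l * L) := by
  intro l hl
  induction l with
  | zero =>
    have : ({σ : I → Perm V | ¬ Good σ w v 0} : Finset _) = ∅ := by
      ext σ
      simp only [mem_filter, mem_univ, true_and, notMem_empty, iff_false, not_not]
      intro j hj k hk _
      omega
    simp [this]
  | succ l ih =>
    have h1 := step w v l (V := V) fun j hj => by subst hj; exact hr j (by omega)
    have h2 : #{σ : I → Perm V | ¬ Good σ w v (l + 1)} ≤ #{σ : I → Perm V | ¬ Good σ w v l} +
        #{σ : I → Perm V | Good σ w v l ∧ ¬ Good σ w v (l + 1)} := by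
      refine (card_le_card ?_).trans (card_union_le _ _)
      intro σ hσ
      simp only [mem_filter, mem_univ, true_and, mem_union] at hσ ⊢
      tauto
    have h3 := ih (by omega)
    have h4 : Fintype.card V - L ≤ Fintype.card V - (l + 1) := by omega
    calc _ ≤ (#{σ : I → Perm V | ¬ Good σ w v l} +
        #{σ : I → Perm V | Good σ w v l ∧ ¬ Good σ w v (l + 1)}) * (Fintype.card V - L) := by gcongr
      _ ≤ Fintype.card (I → Perm V) * (l * L) + Fintype.card (I → Perm V) * L := by
        rw [add_mul]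
        exact add_le_add h3
          ((Nat.mul_le_mul_left _ h4).trans (h1.trans (Nat.mul_le_mul_left _ hl)))
      _ = _ := by ring

open Classical in
lemma fix_one (g : FreeGroup I) (hg : g ≠ 1) (v : V) :
    #{σ : I → Perm V | FreeGroup.lift σ g v = v} * (Fintype.card V - g.toWord.length) ≤
      Fintype.card (I → Perm V) * (g.toWord.length * g.toWord.length) := by
  set L := g.toWord with hL
  have hne : L ≠ [] := fun h => hg (FreeGroup.toWord_eq_nil_iff.1 h)
  obtain ⟨x0, -⟩ := List.exists_mem_of_ne_nil L hne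
  let w : ℕ → I × Bool := fun j => ((L.getD j x0).1, !(L.getD j x0).2)
  have hr := List.isChain_iff_getElem.1 (FreeGroup.isReduced_toWord (x := g))
  refine le_trans (Nat.mul_le_mul_right _ (card_le_card ?_)) (not_good w v L.length ?_ _ le_rfl)
  · intro σ hσ
    simp only [mem_filter, mem_univ, true_and] at hσ ⊢
    intro h
    have hp : ∀ j ≤ L.length, pos σ w v j = (((L.map (act σ)).take j).prod)⁻¹ v := by
      intro j hj
      induction j with
      | zero => simp [pos]
      | succ j ih =>
        rw [pos, ih (by omega), List.prod_take_succ _ _ (by simpa using hj), mul_inv_rev,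
          Perm.mul_apply, List.getElem_map]
        congr 1
        simp only [w, List.getD_eq_getElem _ _ (show j < L.length by omega)]
        obtain ⟨i, _ | _⟩ := L[j] <;> simp [act]
    have h2 : pos σ w v L.length = pos σ w v 0 := by
      rw [hp _ le_rfl, List.take_of_length_le (by simp), pos, Perm.inv_eq_iff_eq]
      have : FreeGroup.lift σ g = (L.map (act σ)).prod := by
        conv_lhs => rw [← FreeGroup.mk_toWord (x := g)]
        rfl
      rw [← this, hσ]
    exact hne (List.length_eq_zero_iff.1 (h _ le_rfl _ (Nat.zero_le _) h2))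
  · intro j hj
    simp only [w, List.getD_eq_getElem _ _ hj, List.getD_eq_getElem _ _ (show j < L.length by omega)]
    intro h
    rw [hr j hj h]

open Classical in
lemma fix_markov (g : FreeGroup I) (hg : g ≠ 1) (η : ℝ) :
    (#{σ : I → Perm V | η * Fintype.card V ≤ #{v : V | FreeGroup.lift σ g v = v}} : ℝ) *
      (η * Fintype.card V) * (Fintype.card V - g.toWord.length : ℕ) ≤
      Fintype.card V * (Fintype.card (I → Perm V) * (g.toWord.length * g.toWord.length)) := by
  set B := ({σ : I → Perm V | η * Fintype.card V ≤ #{v : V | FreeGroup.lift σ g v = v}} : Finset _)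
  have h1 : (#B : ℝ) * (η * Fintype.card V) ≤
      ∑ σ : I → Perm V, (#{v : V | FreeGroup.lift σ g v = v} : ℝ) := by
    rw [← nsmul_eq_mul]
    refine (card_nsmul_le_sum B _ _ fun σ hσ => (mem_filter.1 hσ).2).trans ?_
    exact sum_le_sum_of_subset_of_nonneg (subset_univ _) fun _ _ _ => Nat.cast_nonneg _
  have h2 : ∑ σ : I → Perm V, #{v : V | FreeGroup.lift σ g v = v} =
      ∑ v : V, #{σ : I → Perm V | FreeGroup.lift σ g v = v} := by
    simp only [card_filter]
    exact sum_comm
  refine (mul_le_mul_of_nonneg_right h1 (Nat.cast_nonneg _)).trans ?_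
  have h3 : (∑ v : V, #{σ : I → Perm V | FreeGroup.lift σ g v = v}) *
      (Fintype.card V - g.toWord.length) ≤
      Fintype.card V * (Fintype.card (I → Perm V) * (g.toWord.length * g.toWord.length)) := by
    rw [sum_mul]
    refine (sum_le_card_nsmul _ _ _ fun v _ => fix_one g hg v).trans ?_
    simp
  rw [← h2] at h3
  exact_mod_cast h3

end Pool.Agent.H99.Rand
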