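import Mathlib
import Pool.Agent.H99.RandFree

set_option autoImplicit false

namespace Pool.Agent.H99.Rand

open Finset Equiv Filter Topology

lemma gf {K A S : Type} [Fintype K] [Fintype A] [DecidableEq K] [DecidableEq S] (g : A → S)
    (c : K → S) (L D : ℝ) (hL : 0 ≤ L) (T : Finset (K → A))
    (hT : ∀ ω ∈ T, (#{k | g (ω k) ≠ c k} : ℝ) ≤ D) :
    #T * Real.exp (-(L * D)) ≤ ∏ k, (#{a | g a = c k} + Real.exp (-L) * Fintype.card A) := by
  have h1 : ∀ k, ∑ a : A, (if g a = c k then 1 else Real.exp (-L)) ≤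
      #{a | g a = c k} + Real.exp (-L) * Fintype.card A := by
    intro k
    rw [sum_ite]
    simp only [sum_const, nsmul_eq_mul, mul_one]
    rw [mul_comm]
    gcongr
    exact card_le_univ _
  refine le_trans ?_ (prod_le_prod (fun k _ => sum_nonneg fun a _ => by positivity) fun k _ => h1 k)
  rw [Fintype.prod_sum, ← nsmul_eq_mul]
  refine (card_nsmul_le_sum T _ _ fun ω hω => ?_).trans (sum_le_sum_of_subset_of_nonneg
    (subset_univ _) fun _ _ _ => prod_nonneg fun _ _ => by positivity)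
  rw [prod_ite]
  simp only [prod_const_one, one_mul, prod_const, ← Real.exp_nat_mul]
  apply Real.exp_le_exp.2
  have := hT ω hω
  nlinarith

lemma fact_ineq (m : ℕ) : ∀ j k : ℕ, m ≤ j → m ≤ k →
    j.factorial * k.factorial * 2 ^ m ≤ (j + k).factorial := by
  induction m with
  | zero =>
    intro j k _ _
    simpa using Nat.le_of_dvd (Nat.factorial_pos _) (Nat.factorial_mul_factorial_dvd_factorial_add j k)
  | succ m ih =>
    intro j k hj hk
    obtain ⟨j, rfl⟩ : ∃ j', j = j' + 1 := ⟨j - 1, by omega⟩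
    obtain ⟨k, rfl⟩ : ∃ j', k = j' + 1 := ⟨k - 1, by omega⟩
    have h := ih j k (by omega) (by omega)
    rw [show j + 1 + (k + 1) = j + k + 1 + 1 by ring]
    simp only [Nat.factorial_succ, pow_succ]
    have h2 : 2 * ((j + 1) * (k + 1)) ≤ (j + k + 1 + 1) * (j + k + 1) := by nlinarith [sq_nonneg (j : ℤ)]
    calc _ = 2 * ((j + 1) * (k + 1)) * (j.factorial * k.factorial * 2 ^ m) := by ring
      _ ≤ (j + k + 1 + 1) * (j + k + 1) * (j + k).factorial := by gcongr
      _ = _ := by ring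

variable {V Z : Type} [Fintype V] [DecidableEq V] [Fintype Z] [DecidableEq Z]

/-- stabiliser of a labelling -/
def stab (s : V → Z) : Finset (Perm V) := {τ | s ∘ τ = s}

omit [Fintype Z] in
lemma stab_le (s : V → Z) (z : Z) (m : ℕ) (h1 : m ≤ #{v | s v = z}) (h2 : m ≤ #{v | s v ≠ z}) :
    #(stab s) * 2 ^ m ≤ (Fintype.card V).factorial := by
  have h3 : #(stab s) ≤ (#{v | s v = z}).factorial * (#{v | s v ≠ z}).factorial := by
    have := DomMulAct.stabilizer_card (fun v => decide (s v = z))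
    rw [Fintype.prod_bool, Fintype.card_subtype, Fintype.card_subtype, Fintype.card_subtype] at this
    simp only [decide_eq_true_eq, decide_eq_false_iff_not] at this
    rw [← this]
    apply card_le_card
    intro τ hτ
    simp only [stab, mem_filter, mem_univ, true_and] at hτ ⊢
    funext v
    have := congrFun hτ v
    simp only [Function.comp] at this ⊢
    rw [this]
  refine (Nat.mul_le_mul_right _ h3).trans ((fact_ineq m _ _ h1 h2).trans (le_of_eq ?_))
  rw [card_filter_add_card_filter_not, card_univ]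

lemma sum_stab : ∑ s : V → Z, #(stab s) ≤
    (Fintype.card V + 1) ^ Fintype.card Z * (Fintype.card V).factorial := by
  classical
  rcases isEmpty_or_nonempty (V → Z) with h0 | h0
  · simp
  let cn : (V → Z) → (Z → Fin (Fintype.card V + 1)) := fun s z =>
    ⟨#{v | s v = z}, Nat.lt_succ_of_le (card_le_univ _)⟩
  have h1 : ∀ s : V → Z, ∃ ρ : Perm V, (Function.invFun cn (cn s)) ∘ ρ = s := by
    intro s
    have h := Function.invFun_eq (f := cn) ⟨s, rfl⟩
    refine ⟨ofFiberEquiv (f := s) (g := Function.invFun cn (cn s)) fun z =>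
      Fintype.equivOfCardEq ?_, funext fun v => ofFiberEquiv_map _ v⟩
    have := congrArg Fin.val (congrFun h z)
    simp only [cn] at this
    rw [Fintype.card_subtype, Fintype.card_subtype, this]
  choose ρ hρ using h1
  rw [← card_sigma]
  have : (Fintype.card V + 1) ^ Fintype.card Z * (Fintype.card V).factorial =
      #(univ : Finset ((Z → Fin (Fintype.card V + 1)) × Perm V)) := by
    simp [Fintype.card_perm]
  rw [this]
  refine card_le_card_of_injOn (fun p => (cn p.1, ρ p.1 * p.2)) (fun _ _ => by simp) ?_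
  have key : ∀ p ∈ (univ : Finset (V → Z)).sigma stab,
      Function.invFun cn (cn p.1) ∘ (ρ p.1 * p.2 : Perm V) = p.1 := by
    intro p hp
    have h2 : p.1 ∘ p.2 = p.1 := (mem_filter.1 (mem_sigma.1 hp).2).2
    rw [Perm.coe_mul, ← Function.comp_assoc, hρ, h2]
  rintro ⟨s, τ⟩ hp ⟨t, υ⟩ hq e
  obtain ⟨e1, e2⟩ := Prod.ext_iff.1 e
  have a := key _ hp
  have b := key _ hq
  simp only at e1 e2 a b
  rw [e1, e2, b] at a
  subst a
  rw [mul_left_cancel e2]

/-- permutations along which s is almost equivariant -/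
noncomputable def gd (φ : Z → Z) (D : ℝ) (s : V → Z) : Finset (Perm V) :=
  {τ | (#{v | s (τ v) ≠ φ (s v)} : ℝ) ≤ D}

lemma gd_le (φ : Z → Z) (L D : ℝ) (hL : 0 ≤ L) (s : V → Z) :
    (#(gd φ D s) : ℝ) ≤ #(stab s) *
      Real.exp (L * D + Real.exp (-L) * Fintype.card Z * Fintype.card V) := by
  classical
  let T : Finset (V → Z) := {t | (#{v | t v ≠ φ (s v)} : ℝ) ≤ D}
  have h1 : #(gd φ D s) ≤ #(stab s) * #T := by
    refine card_le_mul_card_image_of_maps_to (f := fun τ : Perm V => s ∘ τ) ?_ _ ?_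
    · intro τ hτ
      simpa [T, gd] using hτ
    · intro t _
      rcases ({τ ∈ gd φ D s | s ∘ τ = t} : Finset (Perm V)).eq_empty_or_nonempty with h | ⟨υ, hυ⟩
      · simp [h]
      · refine card_le_card_of_injOn (fun τ => τ * υ⁻¹) ?_ fun a _ b _ h => mul_right_cancel h
        intro τ hτ
        have a := (mem_filter.1 hτ).2
        have b := (mem_filter.1 hυ).2
        simp only [stab, coe_filter, mem_univ, true_and, Set.mem_ofPred_eq, Perm.coe_mul]
        rw [← Function.comp_assoc, a, ← b]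
        funext v
        simp
  have h2 := gf (fun z : Z => z) (fun v => φ (s v)) L D hL T fun t ht => (mem_filter.1 ht).2
  have h3 : ∏ v : V, ((#{a : Z | a = φ (s v)} : ℝ) + Real.exp (-L) * Fintype.card Z) ≤
      Real.exp (Real.exp (-L) * Fintype.card Z * Fintype.card V) := by
    simp only [filter_eq', mem_univ, if_true, card_singleton, Nat.cast_one, prod_const, card_univ]
    rw [mul_comm _ (Fintype.card V : ℝ), Real.exp_nat_mul]
    gcongr
    rw [add_comm]
    exact Real.add_one_le_exp _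
  have h4 : (#T : ℝ) ≤ Real.exp (L * D + Real.exp (-L) * Fintype.card Z * Fintype.card V) := by
    have := mul_le_mul_of_nonneg_right (h2.trans h3) (Real.exp_pos (L * D)).le
    rwa [mul_assoc, ← Real.exp_add, neg_add_cancel, Real.exp_zero, mul_one, ← Real.exp_add,
      add_comm] at this
  calc (#(gd φ D s) : ℝ) ≤ #(stab s) * #T := by exact_mod_cast h1
    _ ≤ _ := by gcongr

open Classical in
lemma bad_le (φ : Z → Z) (r : ℕ) (L D ε : ℝ) (hL : 0 ≤ L)
    (hZ : ε * Fintype.card Z ≤ 1) [Nonempty Z] :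
    (#{σ : Fin (r + 2) → Perm V | ∃ s : V → Z, σ 0 ∈ gd φ D s ∧ σ 1 ∈ gd φ D s ∧
      ∀ z, ε * Fintype.card V < #{v | s v ≠ z}} : ℝ) ≤
      Fintype.card (Fin (r + 2) → Perm V) * ((Fintype.card V + 1) ^ Fintype.card Z *
      Real.exp (2 * (L * D + Real.exp (-L) * Fintype.card Z * Fintype.card V) -
        ε * Fintype.card V * Real.log 2)) := by
  set n := Fintype.card V with hn
  set B := Real.exp (L * D + Real.exp (-L) * Fintype.card Z * n) with hB
  let S : Finset (V → Z) := {s | ∀ z, ε * n < #{v | s v ≠ z}}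
  let t : (V → Z) → Fin (r + 2) → Finset (Perm V) := fun s =>
    Fin.cons (gd φ D s) (Fin.cons (gd φ D s) fun _ => univ)
  have h1 : #{σ : Fin (r + 2) → Perm V | ∃ s : V → Z, σ 0 ∈ gd φ D s ∧ σ 1 ∈ gd φ D s ∧
      ∀ z, ε * Fintype.card V < #{v | s v ≠ z}} ≤ ∑ s ∈ S, #(Fintype.piFinset (t s)) := by
    refine (card_le_card ?_).trans card_biUnion_le
    intro σ hσ
    obtain ⟨s, a, b, c⟩ := (mem_filter.1 hσ).2
    refine mem_biUnion.2 ⟨s, mem_filter.2 ⟨mem_univ _, c⟩, Fintype.mem_piFinset.2 fun i => ?_⟩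
    refine Fin.cases a (fun i => Fin.cases b (fun i => mem_univ _) i) i
  have h2 : ∀ s ∈ S, (#(Fintype.piFinset (t s)) : ℝ) ≤
      #(stab s) * ((n.factorial : ℝ) ^ (r + 1) * (B ^ 2 * Real.exp (-(ε * n * Real.log 2)))) := by
    intro s hs
    obtain ⟨z, -, hz⟩ := exists_le_card_fiber_of_nsmul_le_card_of_maps_to (s := univ) (t := univ)
      (f := s) (b := ε * n) (fun _ _ => mem_univ _) univ_nonempty (by
        simp only [card_univ, nsmul_eq_mul, ← hn]
        have : (0 : ℝ) ≤ n := Nat.cast_nonneg _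
        nlinarith)
    have h3 := stab_le s z ⌈ε * n⌉₊ (Nat.ceil_le.2 hz) (Nat.ceil_le.2 ((mem_filter.1 hs).2 z).le)
    have h4 : (#(stab s) : ℝ) ≤ n.factorial * Real.exp (-(ε * n * Real.log 2)) := by
      rw [Real.exp_neg, ← div_eq_mul_inv, le_div_iff₀ (Real.exp_pos _)]
      refine le_trans ?_ (show ((#(stab s) * 2 ^ ⌈ε * n⌉₊ : ℕ) : ℝ) ≤ n.factorial by
        exact_mod_cast h3)
      push_cast
      gcongr
      calc Real.exp (ε * n * Real.log 2) ≤ Real.exp (⌈ε * n⌉₊ * Real.log 2) := by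
            gcongr; exact Nat.le_ceil _
        _ = _ := by rw [Real.exp_nat_mul, Real.exp_log two_pos]
    have h5 := gd_le φ L D hL s
    rw [Fintype.card_piFinset, Fin.prod_univ_succ, Fin.prod_univ_succ]
    simp only [t, Fin.cons_zero, Fin.cons_succ, prod_const, card_univ, Fintype.card_perm,
      Fintype.card_fin, ← hn]
    push_cast
    calc (#(gd φ D s) : ℝ) * (#(gd φ D s) * (n.factorial : ℝ) ^ r)
        ≤ (#(stab s) * B) * ((n.factorial * Real.exp (-(ε * n * Real.log 2)) * B) *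
          (n.factorial : ℝ) ^ r) := by
          gcongr
          exact h5.trans (by gcongr)
      _ = _ := by ring
  have h6 : (∑ s ∈ S, (#(stab s) : ℝ)) ≤ (n + 1) ^ Fintype.card Z * n.factorial := by
    refine (sum_le_sum_of_subset_of_nonneg (subset_univ _) fun _ _ _ => Nat.cast_nonneg _).trans ?_
    exact_mod_cast sum_stab (V := V) (Z := Z)
  refine (show _ ≤ ((∑ s ∈ S, #(Fintype.piFinset (t s)) : ℕ) : ℝ) by exact_mod_cast h1).trans ?_
  push_cast
  refine (sum_le_sum h2).trans ?_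
  rw [← sum_mul]
  refine (mul_le_mul_of_nonneg_right h6 (by positivity)).trans (le_of_eq ?_)
  rw [Fintype.card_fun, Fintype.card_perm, Fintype.card_fin, ← hn, sub_eq_add_neg, Real.exp_add,
    show (2 : ℝ) * (L * D + Real.exp (-L) * Fintype.card Z * n) =
      (2 : ℕ) * (L * D + Real.exp (-L) * Fintype.card Z * n) by norm_num, Real.exp_nat_mul]
  push_cast
  ring

lemma diag {Ω : ℕ → Type} [∀ n, Fintype (Ω n)] [∀ n, Nonempty (Ω n)] (P : ℕ → ∀ n, Ω n → Prop)
    [∀ i n, DecidablePred (P i n)]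
    (h : ∀ i, Tendsto (fun n => (#{σ : Ω n | ¬ P i n σ} : ℝ) / Fintype.card (Ω n)) atTop (𝓝 0)) :
    ∃ σ : ∀ n, Ω n, ∀ i, ∀ᶠ n in atTop, P i n (σ n) := by
  classical
  have h1 : ∀ j, ∀ᶠ n in atTop, ∃ σ : Ω n, ∀ i ≤ j, P i n σ := by
    intro j
    have h2 := tendsto_finsetSum (range (j + 1)) fun i _ => h i
    simp only [sum_const_zero] at h2
    filter_upwards [h2.eventually (gt_mem_nhds one_pos)] with n hn
    by_contra hc
    push Not at hc
    rw [← sum_div, div_lt_one (by exact_mod_cast Fintype.card_pos)] at hn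
    have : #(univ : Finset (Ω n)) ≤ ∑ i ∈ range (j + 1), #{σ : Ω n | ¬ P i n σ} := by
      refine (card_le_card fun σ _ => ?_).trans card_biUnion_le
      obtain ⟨i, hi, h3⟩ := hc σ
      exact mem_biUnion.2 ⟨i, mem_range.2 (by omega), by simpa using h3⟩
    rw [card_univ] at this
    exact absurd hn (not_lt.2 (by exact_mod_cast this))
  let J : ℕ → ℕ := fun n => Nat.findGreatest (fun j => ∃ σ : Ω n, ∀ i ≤ j, P i n σ) n
  refine ⟨fun n => Classical.epsilon fun σ : Ω n => ∀ i ≤ J n, P i n σ, fun i => ?_⟩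
  filter_upwards [h1 i, eventually_ge_atTop i] with n h2 h3
  exact Classical.epsilon_spec (Nat.findGreatest_spec (P := fun j => ∃ σ : Ω n, ∀ i ≤ j, P i n σ)
    h3 h2) i (Nat.le_findGreatest h3 h2)

theorem exists_rand (φ : Z → Z) [Nonempty Z] (r : ℕ) :
    ∃ σ : ∀ n, Fin (r + 2) → Perm (Fin n),
      (∀ g : FreeGroup (Fin (r + 2)), g ≠ 1 → ∀ η : ℝ, 0 < η → ∀ᶠ n in atTop,
        (#{v : Fin n | FreeGroup.lift (σ n) g v = v} : ℝ) ≤ η * n) ∧
      ∀ ε : ℝ, 0 < ε → ∃ δ : ℝ, 0 < δ ∧ ∀ᶠ n in atTop, ∀ s : Fin n → Z,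
        σ n 0 ∈ gd φ (δ * n) s → σ n 1 ∈ gd φ (δ * n) s → ∃ z, (#{v | s v ≠ z} : ℝ) ≤ ε * n := by
  classical
  have hZ : (0 : ℝ) < Fintype.card Z := by exact_mod_cast Fintype.card_pos
  have hB : ∀ ε : ℝ, 0 < ε → ε * Fintype.card Z ≤ 1 → ∃ δ : ℝ, 0 < δ ∧ Tendsto (fun n : ℕ =>
      (#{σ : Fin (r + 2) → Perm (Fin n) | ¬ ∀ s : Fin n → Z,
        σ 0 ∈ gd φ (δ * n) s → σ 1 ∈ gd φ (δ * n) s → ∃ z, (#{v | s v ≠ z} : ℝ) ≤ ε * n} : ℝ) /
        Fintype.card (Fin (r + 2) → Perm (Fin n))) atTop (𝓝 0) := by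
    intro ε hε h1
    have hl : 0 < Real.log 2 := Real.log_pos one_lt_two
    set c := ε * Real.log 2 with hc
    have hc0 : 0 < c := by positivity
    obtain ⟨L, hL1, hL2⟩ : ∃ L : ℝ, 1 ≤ L ∧ Real.exp (-L) * Fintype.card Z ≤ c / 8 := by
      have := (Real.tendsto_exp_neg_atTop_nhds_zero.mul_const (Fintype.card Z : ℝ)).eventually
        (ge_mem_nhds (show 0 * (Fintype.card Z : ℝ) < c / 8 by simpa using hc0))
      exact ((eventually_ge_atTop 1).and this).exists
    refine ⟨c / (8 * L), by positivity, ?_⟩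
    have h2 : Tendsto (fun n : ℕ => ((n : ℝ) + 1) ^ Fintype.card Z * Real.exp (-(c / 2 * n)))
        atTop (𝓝 0) := by
      have h3 : Tendsto (fun n : ℕ => c / 2 * ((n : ℝ) + 1)) atTop atTop :=
        (tendsto_atTop_add_const_right _ 1 tendsto_natCast_atTop_atTop).const_mul_atTop
          (by positivity)
      have := ((Real.tendsto_pow_mul_exp_neg_atTop_nhds_zero (Fintype.card Z)).comp h3).mul_const
        (Real.exp (c / 2) / (c / 2) ^ Fintype.card Z)
      rw [zero_mul] at this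
      refine this.congr fun n => ?_
      simp only [Function.comp]
      rw [show -(c / 2 * (n : ℝ)) = -(c / 2 * (n + 1)) + c / 2 by ring, Real.exp_add, mul_pow]
      field_simp
    refine squeeze_zero (fun n => by positivity) (fun n => ?_) h2
    rw [div_le_iff₀' (by exact_mod_cast Fintype.card_pos)]
    have := bad_le (V := Fin n) φ r L (c / (8 * L) * n) ε (by linarith) h1
    simp only [Fintype.card_fin] at this
    refine le_trans (le_of_eq ?_) (this.trans ?_)
    · congr 2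
      ext σ
      simp only [mem_filter, mem_univ, true_and]
      push Not
      rfl
    · gcongr
      have : L * (c / (8 * L) * n) = c / 8 * n := by field_simp
      rw [this]
      have h4 : (0 : ℝ) ≤ n := Nat.cast_nonneg _
      nlinarith
  have hA : ∀ g : FreeGroup (Fin (r + 2)), ∀ η : ℝ, 0 < η → Tendsto (fun n : ℕ =>
      (#{σ : Fin (r + 2) → Perm (Fin n) | ¬ (g ≠ 1 →
        (#{v : Fin n | FreeGroup.lift σ g v = v} : ℝ) ≤ η * n)} : ℝ) /
        Fintype.card (Fin (r + 2) → Perm (Fin n))) atTop (𝓝 0) := by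
    intro g η hη
    by_cases hg : g = 1
    · simp [hg]
    set l := g.toWord.length
    have h2 : Tendsto (fun n : ℕ => ((l : ℝ) * l / η) / ((n - l : ℕ) : ℝ)) atTop (𝓝 0) :=
      tendsto_const_nhds.div_atTop (tendsto_natCast_atTop_atTop.comp (tendsto_sub_atTop_nat l))
    refine squeeze_zero' (Eventually.of_forall fun n => by positivity) ?_ h2
    filter_upwards [eventually_gt_atTop l] with n hn
    have h3 := fix_markov (V := Fin n) g hg η
    simp only [Fintype.card_fin] at h3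
    have h4 : (0 : ℝ) < n := by exact_mod_cast (by omega : 0 < n)
    have h5 : (0 : ℝ) < (n - l : ℕ) := by exact_mod_cast (by omega : 0 < n - l)
    rw [div_le_div_iff₀ (by exact_mod_cast Fintype.card_pos) h5, div_mul_eq_mul_div,
      le_div_iff₀ hη]
    refine le_of_mul_le_mul_left (le_trans ?_ (h3.trans (le_of_eq (by ring)))) h4
    have : (#{σ : Fin (r + 2) → Perm (Fin n) | ¬ (g ≠ 1 →
        (#{v : Fin n | FreeGroup.lift σ g v = v} : ℝ) ≤ η * n)} : ℝ) ≤
        #{σ : Fin (r + 2) → Perm (Fin n) | η * n ≤ #{v : Fin n | FreeGroup.lift σ g v = v}} := by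
      gcongr with σ
      intro hσ
      push Not at hσ
      exact hσ.2.le
    calc _ = (#{σ : Fin (r + 2) → Perm (Fin n) | ¬ (g ≠ 1 →
        (#{v : Fin n | FreeGroup.lift σ g v = v} : ℝ) ≤ η * n)} : ℝ) * (η * n) * (n - l : ℕ) := by
          ring
      _ ≤ _ := by gcongr
  have he : ∀ k : ℕ, 0 < 1 / ((k + 1 : ℝ) * Fintype.card Z) ∧
      1 / ((k + 1 : ℝ) * Fintype.card Z) * Fintype.card Z ≤ 1 := by
    intro k
    refine ⟨by positivity, ?_⟩
    rw [div_mul_eq_mul_div, div_le_one (by positivity)]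
    have : (0 : ℝ) ≤ k := Nat.cast_nonneg _
    nlinarith
  choose δ hδ hδ' using fun k : ℕ => hB _ (he k).1 (he k).2
  obtain ⟨e, hsurj⟩ := exists_surjective_nat (FreeGroup (Fin (r + 2)) × ℕ × Bool)
  obtain ⟨σ, hσ⟩ := diag (Ω := fun n => Fin (r + 2) → Perm (Fin n)) (fun i n σ =>
    if (e i).2.2 then ((e i).1 ≠ 1 →
        (#{v : Fin n | FreeGroup.lift σ (e i).1 v = v} : ℝ) ≤ 1 / ((e i).2.1 + 1 : ℝ) * n)
    else ∀ s : Fin n → Z, σ 0 ∈ gd φ (δ (e i).2.1 * n) s → σ 1 ∈ gd φ (δ (e i).2.1 * n) s →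
      ∃ z, (#{v | s v ≠ z} : ℝ) ≤ 1 / (((e i).2.1 + 1 : ℝ) * Fintype.card Z) * n) (by
    intro i
    split_ifs
    · convert hA (e i).1 (1 / ((e i).2.1 + 1 : ℝ)) (by positivity)
    · convert hδ' (e i).2.1)
  refine ⟨σ, fun g hg η hη => ?_, fun ε hε => ?_⟩
  · obtain ⟨k, hk⟩ := exists_nat_one_div_lt hη
    obtain ⟨i, hi⟩ := hsurj (g, k, true)
    filter_upwards [hσ i] with n hn
    simp only [hi, if_true] at hn
    exact (hn hg).trans (by gcongr)
  · obtain ⟨k, hk⟩ := exists_nat_one_div_lt hε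
    obtain ⟨i, hi⟩ := hsurj (1, k, false)
    refine ⟨δ k, hδ k, ?_⟩
    filter_upwards [hσ i] with n hn s h1 h2
    simp only [hi, Bool.false_eq_true, if_false] at hn
    obtain ⟨z, hz⟩ := hn s h1 h2
    refine ⟨z, hz.trans ?_⟩
    gcongr
    refine le_trans ?_ hk.le
    have : (1 : ℝ) ≤ Fintype.card Z := by exact_mod_cast Fintype.card_pos
    gcongr
    exact le_mul_of_one_le_right (by positivity) this

end Pool.Agent.H99.Rand
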