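import Mathlib

set_option autoImplicit false

open MeasureTheory
open scoped InnerProductSpace

namespace H99.Rob

/-- Euclidean space of dimension three. -/
abbrev E := EuclideanSpace ℝ (Fin 3)

/-- The divergence of a vector field. -/
noncomputable def dv (X : E → E) (x : E) : ℝ :=
  ∑ k, fderiv ℝ X x (EuclideanSpace.single k 1) k

/-- `ν` is a unit outward normal field of the convex set `Ω` along its boundary. -/
def IsNormal (Ω : Set E) (ν : E → E) : Prop :=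
  ∀ y ∈ frontier Ω, ‖ν y‖ = 1 ∧ ∀ x ∈ Ω, ⟪x - y, ν y⟫_ℝ ≤ 0

/-- `u` lies in `H^1(Ω)` with weak gradient `G` and boundary trace `τ`: all three are square
integrable and the Gauss-Green formula holds for every `C^1` vector field. -/
def H1 (Ω : Set E) (u : E → ℝ) (G : E → E) (τ : E → ℝ) : Prop :=
  MemLp u 2 (volume.restrict Ω) ∧ MemLp G 2 (volume.restrict Ω) ∧
    MemLp τ 2 ((μHE[2] : Measure E).restrict (frontier Ω)) ∧
      ∃ ν, IsNormal Ω ν ∧ ∀ X : E → E, ContDiff ℝ 1 X →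
        ∫ x in Ω, (u x * dv X x + ⟪G x, X x⟫_ℝ) = ∫ y in frontier Ω, τ y * ⟪X y, ν y⟫_ℝ ∂μHE[2]

/-- `u` is a positive weak eigenfunction of the Robin Laplacian on `Ω` with parameter `α`. -/
def RobinEig (Ω : Set E) (α : ℝ) (u : E → ℝ) : Prop :=
  (∀ x ∈ Ω, 0 < u x) ∧ ∃ (lam : ℝ) (G : E → E) (τ : E → ℝ), H1 Ω u G τ ∧
    ∀ φ : E → ℝ, ContDiff ℝ 1 φ →
      (∫ x in Ω, fderiv ℝ φ x (G x)) + α * ∫ y in frontier Ω, τ y * φ y ∂μHE[2] =
        lam * ∫ x in Ω, u x * φ x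

end H99.Rob
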