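import Mathlib
import Pool.Agent.H99.Rob0

set_option autoImplicit false

open MeasureTheory Set Filter Topology Metric
open scoped InnerProductSpace NNReal

namespace H99.Rob

noncomputable def P (k : ℕ) (t : ℝ) : ℝ := max t 0 ^ k

lemma hP2 (t : ℝ) : HasDerivAt (P 2) (2 * P 1 t) t := by
  rcases lt_trichotomy t 0 with h | rfl | h
  · refine ((hasDerivAt_const t (0 : ℝ)).congr_of_eventuallyEq ?_).congr_deriv (by simp [P, h.le])
    filter_upwards [Iio_mem_nhds h] with s hs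
    simp [P, (mem_Iio.1 hs).le]
  · refine hasDerivAt_iff_tendsto_slope_zero.2 ?_
    have c : Tendsto (fun s : ℝ => max s 0) (𝓝[≠] 0) (𝓝 (max 0 0)) :=
      ((continuous_id.max continuous_const).tendsto 0).mono_left nhdsWithin_le_nhds
    refine Tendsto.congr' ?_ (by simpa [P] using c)
    filter_upwards [self_mem_nhdsWithin] with s hs
    have : s ≠ 0 := hs
    rcases le_total s 0 with k | k <;> simp [P, k]
    field_simp
  · refine ((hasDerivAt_pow 2 t).congr_of_eventuallyEq ?_).congr_deriv (by simp [P, h.le])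
    filter_upwards [Ioi_mem_nhds h] with s hs
    simp [P, (mem_Ioi.1 hs).le]

lemma P_mul (k : ℕ) (t : ℝ) : P (k + 1) t * t = P (k + 2) t := by
  rcases le_total t 0 with h | h <;> simp [P, h, pow_succ]

lemma hP3 (t : ℝ) : HasDerivAt (P 3) (3 * P 2 t) t := by
  have := (hP2 t).mul (hasDerivAt_id t)
  rw [show P 2 * id = P 3 from funext fun s => P_mul 1 s] at this
  refine this.congr_deriv ?_
  have := P_mul 0 t
  simp only [id]; linarith

@[fun_prop] lemma P_cont (k : ℕ) : Continuous (P k) := (continuous_id.max continuous_const).pow k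

@[fun_prop] lemma P2c : ContDiff ℝ 1 (P 2) := contDiff_one_iff_deriv.2
  ⟨fun t => (hP2 t).differentiableAt, by rw [funext fun t => (hP2 t).deriv]; fun_prop⟩

@[fun_prop] lemma P3c : ContDiff ℝ 1 (P 3) := contDiff_one_iff_deriv.2
  ⟨fun t => (hP3 t).differentiableAt, by rw [funext fun t => (hP3 t).deriv]; fun_prop⟩

lemma P_nn (k : ℕ) (t : ℝ) : 0 ≤ P k t := pow_nonneg (le_max_right _ _) _
lemma P_neg (k : ℕ) {t : ℝ} (h : t ≤ 0) : P (k + 1) t = 0 := by simp [P, h]
lemma P_pos (k : ℕ) {t : ℝ} (h : 0 ≤ t) : P k t = t ^ k := by simp [P, h]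

noncomputable def tr (A : E →L[ℝ] E) : ℝ := ∑ k, A (EuclideanSpace.single k 1) k

lemma expand (f : E →L[ℝ] ℝ) (v : E) : ∑ k, f (EuclideanSpace.single k 1) * v k = f v := by
  conv_rhs => rw [← (EuclideanSpace.basisFun (Fin 3) ℝ).sum_repr v]
  simp [mul_comm]

lemma tr_add (A B : E →L[ℝ] E) : tr (A + B) = tr A + tr B := by simp [tr, Finset.sum_add_distrib]
lemma tr_sub (A B : E →L[ℝ] E) : tr (A - B) = tr A - tr B := by simp [tr, Finset.sum_sub_distrib]
lemma tr_smul (c : ℝ) (A : E →L[ℝ] E) : tr (c • A) = c * tr A := by simp [tr, Finset.mul_sum]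
lemma tr_sr (f : E →L[ℝ] ℝ) (v : E) : tr (f.smulRight v) = f v := by simp [tr, expand]
lemma tr_id : tr (ContinuousLinearMap.id ℝ E) = 3 := by simp [tr]
lemma dv_eq {X : E → E} {A : E →L[ℝ] E} {x : E} (h : HasFDerivAt X A x) : dv X x = tr A := by
  rw [dv, h.fderiv, tr]

lemma dv_cont {X : E → E} (h : ContDiff ℝ 1 X) : Continuous (dv X) := by
  have := h.continuous_fderiv one_ne_zero
  unfold dv; fun_prop

lemma lipIBP {f : E → ℝ} {K : ℝ≥0} (hf : LipschitzWith K f) {X : E → E} (hX : ContDiff ℝ 1 X)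
    (c : HasCompactSupport X) : ∫ x, f x * dv X x = -∫ x, fderiv ℝ f x (X x) := by
  have sm : ∀ k, ContDiff ℝ 1 fun x => X x k := fun k =>
    (EuclideanSpace.proj (𝕜 := ℝ) k).contDiff.comp hX
  have cs : ∀ k, HasCompactSupport fun x => X x k := fun k =>
    c.comp_left (g := fun v : E => v k) rfl
  have d : ∀ k x v, fderiv ℝ (fun x => X x k) x v = fderiv ℝ X x v k := fun k x v => by
    rw [show (fun x => X x k) = EuclideanSpace.proj (𝕜 := ℝ) k ∘ X from rfl,
      ((EuclideanSpace.proj (𝕜 := ℝ) k).hasFDerivAt.comp x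
        (hX.differentiable one_ne_zero x).hasFDerivAt).fderiv]; rfl
  have i1 : ∀ k, Integrable fun x => f x * fderiv ℝ X x (EuclideanSpace.single k 1) k := fun k => by
    simp only [← d]
    exact (hf.continuous.mul (((sm k).continuous_fderiv one_ne_zero).clm_apply continuous_const)
      ).integrable_of_hasCompactSupport ((cs k).fderiv_apply ℝ _).mul_left
  have i2 : ∀ k, Integrable fun x => fderiv ℝ f x (EuclideanSpace.single k 1) * X x k := fun k =>
    ((sm k).continuous.integrable_of_hasCompactSupport (cs k)).bdd_mul (c := K)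
      (measurable_fderiv_apply_const ℝ f _).aestronglyMeasurable (.of_forall fun x =>
        (ContinuousLinearMap.le_opNorm _ _).trans (by simpa using norm_fderiv_le_of_lipschitz ℝ hf))
  simp only [dv, Finset.mul_sum]
  rw [integral_finsetSum _ fun k _ => i1 k]
  simp only [fun x => (expand (fderiv ℝ f x) (X x)).symm]
  rw [integral_finsetSum _ fun k _ => i2 k, ← Finset.sum_neg_distrib]
  refine Finset.sum_congr rfl fun k _ => ?_
  obtain ⟨L, hL⟩ := ContDiff.lipschitzWith_of_hasCompactSupport (cs k) (sm k) one_ne_zero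
  have := hf.integral_lineDeriv_mul_eq (μ := volume) hL (cs k) (EuclideanSpace.single k 1)
  rw [integral_congr_ae ((hf.ae_differentiableAt (μ := volume)).mono fun x hx => by
    simp only [hx.lineDeriv_eq_fderiv]; rfl)] at this
  rw [this, ← integral_neg]
  congr 1; funext x
  rw [((sm k).differentiable one_ne_zero x).lineDeriv_eq_fderiv, map_neg, d]; ring

noncomputable def qq (κ R : ℝ) (n c x : E) : ℝ := R ^ 2 - ‖x - c‖ ^ 2 + κ * ⟪n, x - c⟫_ℝ ^ 2
noncomputable def YY (κ : ℝ) (n c x : E) : E := x - c - (κ * ⟪n, x - c⟫_ℝ) • n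

@[fun_prop] lemma ip_sm (n : E) : ContDiff ℝ 1 fun x : E => ⟪n, x⟫_ℝ := (innerSL ℝ n).contDiff

@[fun_prop] lemma qq_sm (κ R : ℝ) (n c : E) : ContDiff ℝ 1 (qq κ R n c) :=
  (contDiff_const.sub ((contDiff_id.sub contDiff_const).norm_sq ℝ)).add
    (contDiff_const.mul (((ip_sm n).comp (contDiff_id.sub contDiff_const)).pow 2))

@[fun_prop] lemma YY_sm (κ : ℝ) (n c : E) : ContDiff ℝ 1 (YY κ n c) :=
  (contDiff_id.sub contDiff_const).sub ((contDiff_const.mul ((ip_sm n).comp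
    (contDiff_id.sub contDiff_const))).smul contDiff_const)

lemma dip (n x : E) : HasFDerivAt (fun x : E => ⟪n, x⟫_ℝ) (innerSL ℝ n) x :=
  (innerSL ℝ n).hasFDerivAt

lemma dq (κ R : ℝ) (n c x : E) :
    HasFDerivAt (qq κ R n c) ((-2 : ℝ) • innerSL ℝ (YY κ n c x)) x := by
  have h := (hasFDerivAt_id (𝕜 := ℝ) x).sub_const c
  refine (((h.norm_sq.const_sub (R ^ 2)).add ((((dip n (x - c)).comp x h).pow 2).const_mul κ)
    ).congr_fderiv ?_)
  ext v
  simp [YY]
  ring

lemma dY (κ : ℝ) (n c x : E) : HasFDerivAt (YY κ n c)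
    (ContinuousLinearMap.id ℝ E - (κ • innerSL ℝ n).smulRight n) x := by
  have h := (hasFDerivAt_id (𝕜 := ℝ) x).sub_const c
  refine (h.sub ((((dip n (x - c)).comp x h).const_mul κ).smul_const n)).congr_fderiv ?_
  ext v; simp

lemma YY0 (n c x : E) : YY 0 n c x = x - c := by simp [YY]

/-- `p = R ^ 2 - |x - c| ^ 2` -/
noncomputable def pp (R : ℝ) (c x : E) : ℝ := qq 0 R 0 c x

lemma pp_eq (R : ℝ) (c x : E) : pp R c x = R ^ 2 - ‖x - c‖ ^ 2 := by simp [pp, qq]

@[fun_prop] lemma pp_sm (R : ℝ) (c : E) : ContDiff ℝ 1 (pp R c) := qq_sm _ _ _ _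

lemma dp (R : ℝ) (c x : E) : HasFDerivAt (pp R c) ((-2 : ℝ) • innerSL ℝ (x - c)) x :=
  YY0 0 c x ▸ dq 0 R 0 c x

lemma pp_out {R : ℝ} (hR : 0 ≤ R) {c x : E} (h : x ∉ ball c R) : pp R c x ≤ 0 := by
  rw [pp_eq, sub_nonpos]; gcongr; exact not_lt.1 fun k => h (mem_ball_iff_norm.2 k)

lemma pp_in {R : ℝ} {c x : E} (h : x ∈ ball c R) : 0 < pp R c x := by
  rw [pp_eq, sub_pos]; gcongr; exact mem_ball_iff_norm.1 h

/-- the Laplacian of `p ^ 3` -/
noncomputable def LL (R : ℝ) (c x : E) : ℝ := 24 * P 1 (pp R c x) * ‖x - c‖ ^ 2 - 18 * P 2 (pp R c x)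

lemma LL_cont (R : ℝ) (c : E) : Continuous (LL R c) := by
  have := (pp_sm R c).continuous
  unfold LL; fun_prop

lemma LL_out {R : ℝ} (hR : 0 ≤ R) {c x : E} (h : x ∉ ball c R) : LL R c x = 0 := by
  simp [LL, P_neg _ (pp_out hR h)]

lemma cs_of {F : Type*} [Zero F] {X : E → F} {R : ℝ} {c : E} (h : ∀ x, x ∉ ball c R → X x = 0) :
    HasCompactSupport X :=
  HasCompactSupport.intro (isCompact_closedBall c R) fun x k => h x fun l =>
    k (ball_subset_closedBall l)

lemma keyK {f : E → ℝ} {K : ℝ≥0} (hf : LipschitzWith K f) {R : ℝ} (hR : 0 ≤ R) (c : E) :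
    ∫ x, f x * LL R c x = 6 * ∫ x, P 2 (pp R c x) * fderiv ℝ f x (x - c) := by
  have := lipIBP hf (X := fun x => P 2 (pp R c x) • (x - c)) (by fun_prop)
    (cs_of fun x hx => by rw [P_neg _ (pp_out hR hx), zero_smul])
  have e : ∀ x, LL R c x = -6 * dv (fun x => P 2 (pp R c x) • (x - c)) x := fun x => by
    rw [dv_eq (X := fun x => P 2 (pp R c x) • (x - c))
      (((hP2 _).comp_hasFDerivAt x (dp R c x)).smul ((hasFDerivAt_id x).sub_const c)),
      tr_add, tr_smul, tr_sr, tr_id]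
    simp only [LL, ContinuousLinearMap.smul_apply, innerSL_apply_apply, smul_eq_mul,
      real_inner_self_eq_norm_sq, Function.comp_apply, id]; ring
  simp only [e, mul_left_comm _ (-6 : ℝ), integral_const_mul, this, map_smul, smul_eq_mul]
  ring

lemma affL {R : ℝ} (hR : 0 ≤ R) (c γ : E) (b : ℝ) : ∫ x, (b + ⟪γ, x⟫_ℝ) * LL R c x = 0 := by
  have l : LipschitzWith _ fun x : E => b + ⟪γ, x⟫_ℝ :=
    (LipschitzWith.const b).add (innerSL ℝ γ).lipschitz
  have := lipIBP (LipschitzWith.const (1 : ℝ)) (X := fun x => P 3 (pp R c x) • γ) (by fun_prop)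
    (cs_of fun x hx => by rw [P_neg _ (pp_out hR hx), zero_smul])
  have e : ∀ x, P 2 (pp R c x) * fderiv ℝ (fun x : E => b + ⟪γ, x⟫_ℝ) x (x - c) =
      -6⁻¹ * (1 * dv (fun x => P 3 (pp R c x) • γ) x) := fun x => by
    rw [dv_eq (X := fun x => P 3 (pp R c x) • γ)
      (((hP3 _).comp_hasFDerivAt x (dp R c x)).smul_const γ), tr_sr,
      ((dip γ x).const_add b).fderiv]
    simp only [ContinuousLinearMap.smul_apply, innerSL_apply_apply, smul_eq_mul,
      real_inner_comm γ]; ring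
  rw [keyK l hR]
  simp only [e, integral_const_mul] at this ⊢
  simp_all

lemma plane0 {n : E} (hn : ‖n‖ = 1) : ∀ᵐ x : E, ⟪n, x⟫_ℝ ≠ 0 := by
  have := Measure.addHaar_submodule volume (LinearMap.ker (innerSL ℝ n : E →ₗ[ℝ] ℝ)) fun e => by
    have : n ∈ LinearMap.ker (innerSL ℝ n : E →ₗ[ℝ] ℝ) := e ▸ Submodule.mem_top
    have h : ⟪n, n⟫_ℝ = 0 := this
    rw [real_inner_self_eq_norm_sq, hn] at h
    norm_num at h
  exact compl_mem_ae_iff.2 this

lemma mT (n : E) : MeasurableSet {x : E | 0 < ⟪n, x⟫_ℝ} :=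
  (isOpen_lt continuous_const (by fun_prop)).measurableSet

lemma halfL {R : ℝ} (hR : 0 ≤ R) {n c γ : E} (hn : ‖n‖ = 1) (hc : ⟪n, c⟫_ℝ = 0)
    (hγ : ⟪γ, n⟫_ℝ = 0) (b : ℝ) : ∫ x in {x | 0 < ⟪n, x⟫_ℝ}, (b + ⟪γ, x⟫_ℝ) * LL R c x = 0 := by
  set σ := (ℝ ∙ n)ᗮ.reflection
  have e : ∀ x, σ x = x - (2 * ⟪n, x⟫_ℝ) • n := fun x => by
    rw [Submodule.reflection_orthogonal_apply, Submodule.reflection_singleton_apply, hn]
    simp [two_mul, add_smul, two_smul]
  have nn : ⟪n, n⟫_ℝ = 1 := by rw [real_inner_self_eq_norm_sq, hn, one_pow]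
  set F := fun x => (b + ⟪γ, x⟫_ℝ) * LL R c x with hF
  have i : Integrable F := (by have := LL_cont R c; fun_prop : Continuous F
    ).integrable_of_hasCompactSupport (cs_of (R := R) (c := c) fun x hx => by simp [hF, LL_out hR hx])
  have e1 : ∀ x, F (σ x) = F x := fun x => by
    have : ‖σ x - c‖ = ‖x - c‖ := by
      rw [← σ.norm_map (x - c), map_sub, e c, hc]; simp
    simp only [hF, LL, pp_eq, this]
    rw [e, inner_sub_right, inner_smul_right, hγ]; simp
  have e2 := σ.measurePreserving.setIntegral_preimage_emb σ.toHomeomorph.measurableEmbedding F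
    {x | 0 < ⟪n, x⟫_ℝ}
  have e3 : (σ ⁻¹' {x | 0 < ⟪n, x⟫_ℝ} : Set E) =ᵐ[volume] ({x | 0 < ⟪n, x⟫_ℝ}ᶜ : Set E) := by
    filter_upwards [plane0 hn] with x hx
    refine propext ?_
    show 0 < ⟪n, σ x⟫_ℝ ↔ ¬ 0 < ⟪n, x⟫_ℝ
    rw [e, inner_sub_right, inner_smul_right, nn]
    exact ⟨fun k => by linarith, fun k => by have := (not_lt.1 k).lt_of_ne hx; linarith⟩
  simp only [e1] at e2
  rw [setIntegral_congr_set e3] at e2
  have := integral_add_compl (mT n) i
  rw [affL hR] at this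
  linarith

lemma halfS {R : ℝ} (hR : 0 ≤ R) {n c : E} (hn : ‖n‖ = 1) :
    ∫ x in {x | 0 < ⟪n, x⟫_ℝ}, ⟪n, x⟫_ℝ * LL R c x =
      6 * ∫ x in {x | 0 < ⟪n, x⟫_ℝ}, P 2 (pp R c x) * ⟪n, x - c⟫_ℝ := by
  have := keyK ((innerSL ℝ n).lipschitz.max_const 0) hR c
  rw [← integral_indicator (mT n), ← integral_indicator (mT n)]
  refine Eq.trans (integral_congr_ae (.of_forall fun x => ?_)) (this.trans (congrArg _ (Eq.symm ?_)))
  · by_cases h : 0 < ⟪n, x⟫_ℝ
    · simp [h, h.le]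
    · simp [h, not_lt.1 h]
  · refine integral_congr_ae ((plane0 hn).mono fun x hx => ?_)
    have c0 : Continuous fun x : E => ⟪n, x⟫_ℝ := by fun_prop
    rcases lt_or_gt_of_ne hx with h | h
    · have : (fun x => max (innerSL ℝ n x) 0) =ᶠ[𝓝 x] fun _ => 0 := by
        filter_upwards [c0.continuousAt.preimage_mem_nhds (Iio_mem_nhds h)] with y hy
        exact max_eq_right (le_of_lt hy)
      simp only [this.fderiv_eq]
      simp [h.not_gt]
    · have : (fun x => max (innerSL ℝ n x) 0) =ᶠ[𝓝 x] innerSL ℝ n := by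
        filter_upwards [c0.continuousAt.preimage_mem_nhds (Ioi_mem_nhds h)] with y hy
        exact max_eq_left (le_of_lt hy)
      simp only [this.fderiv_eq, ContinuousLinearMap.fderiv]
      simp [h]

end H99.Rob
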