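import Mathlib
import Pool.Agent.H99.Rob1

set_option autoImplicit false

open MeasureTheory Set Filter Topology Metric
open scoped InnerProductSpace NNReal ContDiff

namespace H99.Rob

structure Ctx (Ω : Set E) (α lam : ℝ) (u : E → ℝ) (G ν : E → E) : Prop where
  op : IsOpen Ω
  bd : Bornology.IsBounded Ω
  pos : ∀ x ∈ Ω, 0 < u x
  cc : ConcaveOn ℝ Ω fun x => Real.log (u x)
  iu : IntegrableOn u Ω
  iG : IntegrableOn G Ω
  nu : IsNormal Ω ν
  gg : ∀ X : E → E, ContDiff ℝ 1 X → (∀ y ∈ frontier Ω, X y = 0) →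
    ∫ x in Ω, (u x * dv X x + ⟪G x, X x⟫_ℝ) = 0
  star : ∀ (φ : E → ℝ) (X : E → E), ContDiff ℝ 1 φ → ContDiff ℝ 1 X →
    (∀ y ∈ frontier Ω, ⟪X y, ν y⟫_ℝ = α * φ y) →
      ∫ x in Ω, (fderiv ℝ φ x (G x) + ⟪G x, X x⟫_ℝ + u x * (dv X x - lam * φ x)) = 0

variable {Ω : Set E} {α lam : ℝ} {u : E → ℝ} {G ν : E → E}

lemma bdd_on {F : Type*} [NormedAddCommGroup F] (op : IsOpen Ω) (bd : Bornology.IsBounded Ω)
    {f : E → F} (c : Continuous f) : ∃ C, ∀ᵐ x ∂(volume.restrict Ω), ‖f x‖ ≤ C := by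
  obtain ⟨C, hC⟩ := bd.isCompact_closure.exists_bound_of_continuousOn c.continuousOn
  exact ⟨C, (ae_restrict_mem op.measurableSet).mono fun x hx => hC x (subset_closure hx)⟩

lemma intS (op : IsOpen Ω) (bd : Bornology.IsBounded Ω) (iu : IntegrableOn u Ω) {f : E → ℝ}
    (c : Continuous f) : IntegrableOn (fun x => u x * f x) Ω := by
  obtain ⟨C, hC⟩ := bdd_on op bd c
  exact iu.mul_bdd c.aestronglyMeasurable hC

lemma intV (op : IsOpen Ω) (bd : Bornology.IsBounded Ω) (iG : IntegrableOn G Ω)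
    {V : E → E →L[ℝ] ℝ} (c : Continuous V) : IntegrableOn (fun x => V x (G x)) Ω := by
  obtain ⟨C, hC⟩ := bdd_on op bd c
  refine (iG.norm.const_mul C).mono' (isBoundedBilinearMap_apply.continuous.comp_aestronglyMeasurable
    (c.aestronglyMeasurable.prodMk iG.1)) (hC.mono fun x hx => ?_)
  exact ((V x).le_opNorm _).trans (mul_le_mul_of_nonneg_right hx (norm_nonneg _))

lemma intX (op : IsOpen Ω) (bd : Bornology.IsBounded Ω) (iG : IntegrableOn G Ω)
    {X : E → E} (c : Continuous X) : IntegrableOn (fun x => ⟪G x, X x⟫_ℝ) Ω := by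
  simpa [real_inner_comm] using intV op bd iG ((innerSL ℝ).continuous.comp c)

lemma mkCtx (op : IsOpen Ω) (bd : Bornology.IsBounded Ω) (h : RobinEig Ω α u)
    (cc : ConcaveOn ℝ Ω fun x => Real.log (u x)) : ∃ lam G ν, Ctx Ω α lam u G ν := by
  obtain ⟨pos, lam, G, τ, ⟨m1, m2, -, ν, nu, gg⟩, eq⟩ := h
  have : IsFiniteMeasure (volume.restrict Ω) := ⟨by simpa using bd.measure_lt_top⟩
  have iu : IntegrableOn u Ω := m1.integrable one_le_two
  have iG : IntegrableOn G Ω := m2.integrable one_le_two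
  have mf : MeasurableSet (frontier Ω) := isClosed_frontier.measurableSet
  refine ⟨lam, G, ν, op, bd, pos, cc, iu, iG, nu, fun X hX b => ?_, fun φ X hφ hX b => ?_⟩
  · rw [gg X hX, setIntegral_congr_fun mf (g := fun _ => 0) fun y hy => by simp [b y hy]]
    simp
  · have e1 := eq φ hφ
    have e2 := gg X hX
    rw [setIntegral_congr_fun mf (g := fun y => α * (τ y * φ y)) fun y hy => by
      simp only [b y hy]; ring, integral_const_mul] at e2
    have i1 := intV op bd iG (hφ.continuous_fderiv one_ne_zero)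
    have i2 := intX op bd iG hX.continuous
    have i3 := intS op bd iu (dv_cont hX)
    have i4 := intS op bd iu hφ.continuous
    rw [integral_add i3 i2] at e2
    have e3 : ∀ x, u x * (dv X x - lam * φ x) = u x * dv X x - lam * (u x * φ x) := fun x => by ring
    have i5 : IntegrableOn (fun x => fderiv ℝ φ x (G x) + ⟪G x, X x⟫_ℝ) Ω := i1.add i2
    have i6 : IntegrableOn (fun x => u x * dv X x - lam * (u x * φ x)) Ω := i3.sub (i4.const_mul _)
    simp only [e3]
    rw [integral_add i5 i6, integral_add i1 i2, integral_sub i3 (i4.const_mul _), integral_const_mul]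
    linarith

lemma conc {w : E → ℝ} (cc : ConcaveOn ℝ Ω w) {x y : E} (hx : x ∈ Ω) (hy : y ∈ Ω) {θ : ℝ}
    (h0 : 0 ≤ θ) (h1 : θ ≤ 1) : x + θ • (y - x) ∈ Ω ∧ w x + θ * (w y - w x) ≤ w (x + θ • (y - x)) := by
  have e : x + θ • (y - x) = (1 - θ) • x + θ • y := by rw [smul_sub, sub_smul, one_smul]; abel
  rw [e]
  refine ⟨cc.1 hx hy (by linarith) h0 (by ring), le_trans (le_of_eq ?_)
    (cc.2 hx hy (sub_nonneg.2 h1) h0 (by ring))⟩
  simp only [smul_eq_mul]; ring

lemma locLip {w : E → ℝ} (op : IsOpen Ω) (cc : ConcaveOn ℝ Ω w) {g : ℝ → ℝ} (hg : ContDiff ℝ 1 g)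
    {z : E} (hz : z ∈ Ω) : ∃ ε > 0, ball z ε ⊆ Ω ∧ ∃ (K : ℝ≥0) (v : E → ℝ), LipschitzWith K v ∧
      ∀ x ∈ ball z ε, g (w x) = v x := by
  obtain ⟨K, t, ht, l⟩ := cc.locallyLipschitzOn op hz
  rw [op.nhdsWithin_eq hz] at ht
  obtain ⟨K', t', ht', l'⟩ := (hg.contDiffAt (x := w z)).exists_lipschitzOnWith
  have c := (cc.continuousOn op).continuousAt (op.mem_nhds hz)
  obtain ⟨ε, ε0, hε⟩ := Metric.mem_nhds_iff.1
    (inter_mem (inter_mem ht (c.preimage_mem_nhds ht')) (op.mem_nhds hz))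
  obtain ⟨v, lv, e⟩ := (l'.comp (l.mono fun x hx => (hε hx).1.1) fun x hx => (hε hx).1.2).extend_real
  exact ⟨ε, ε0, fun x hx => (hε hx).2, _, v, lv, e⟩

lemma Ctx.Gae (h : Ctx Ω α lam u G ν) (n : E) : ∀ᵐ x, x ∈ Ω →
    DifferentiableAt ℝ u x ∧ ⟪G x, n⟫_ℝ = fderiv ℝ u x n := by
  refine measure_null_of_locally_null _ fun z hz => ?_
  have hz' : z ∈ Ω := by by_contra k; exact hz fun l => (k l).elim
  obtain ⟨ε, ε0, s, K, v, lv, e⟩ := locLip h.op h.cc Real.contDiff_exp hz'
  have e' : ∀ x ∈ ball z ε, u =ᶠ[𝓝 x] v := fun x hx => by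
    filter_upwards [isOpen_ball.mem_nhds hx] with y hy
    rw [← e y hy, Real.exp_log (h.pos y (s hy))]
  have iG : IntegrableOn (fun x => ⟪G x, n⟫_ℝ) Ω := intX h.op h.bd h.iG continuous_const
  have iv : IntegrableOn (fun x => fderiv ℝ v x n) (ball z ε) :=
    Measure.integrableOn_of_bounded (M := K * ‖n‖) measure_ball_lt_top.ne
      (measurable_fderiv_apply_const ℝ v n).aestronglyMeasurable (.of_forall fun x =>
        (ContinuousLinearMap.le_opNorm _ _).trans (mul_le_mul_of_nonneg_right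
          (norm_fderiv_le_of_lipschitz ℝ lv) (norm_nonneg _)))
  have key := isOpen_ball.ae_eq_zero_of_integral_contDiff_smul_eq_zero (μ := volume)
    (f := fun x => ⟪G x, n⟫_ℝ - fderiv ℝ v x n)
    ((iG.mono_set s).sub iv).locallyIntegrableOn fun g g1 g2 g3 => by
      have g0 : ∀ x, x ∉ ball z ε → g x = 0 := fun x hx =>
        image_eq_zero_of_notMem_tsupport fun k => hx (g3 k)
      have X1 : ContDiff ℝ 1 fun x => g x • n := (g1.of_le (by simp)).smul contDiff_const
      have d0 : ∀ x, x ∉ ball z ε → dv (fun x => g x • n) x = 0 := fun x hx => by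
        have : g =ᶠ[𝓝 x] 0 := notMem_tsupport_iff_eventuallyEq.1 fun k => hx (g3 k)
        rw [dv_eq (A := 0) ((hasFDerivAt_const (0 : E) x).congr_of_eventuallyEq
          (this.mono fun y hy => by simp [hy]))]
        simp [tr]
      have a := h.gg _ X1 fun y hy => by
        rw [g0 y fun k => (h.op.frontier_eq ▸ hy).2 (s k), zero_smul]
      have b := lipIBP lv X1 (cs_of fun x hx => by rw [g0 x hx, zero_smul])
      have i1 := intS h.op h.bd h.iu (dv_cont X1)
      have i2 := intX h.op h.bd h.iG X1.continuous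
      rw [integral_add i1 i2, setIntegral_eq_of_subset_of_forall_sdiff_eq_zero h.op.measurableSet s
        fun x hx => by rw [d0 x hx.2, mul_zero],
        setIntegral_eq_of_subset_of_forall_sdiff_eq_zero h.op.measurableSet s
        fun x hx => by rw [g0 x hx.2, zero_smul, inner_zero_right],
        setIntegral_congr_fun measurableSet_ball (g := fun x => v x * dv (fun x => g x • n) x)
          fun x hx => by simp only [(e' x hx).eq_of_nhds]] at a
      rw [← setIntegral_eq_integral_of_forall_compl_eq_zero (s := ball z ε)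
        fun x hx => by rw [d0 x hx, mul_zero],
        ← setIntegral_eq_integral_of_forall_compl_eq_zero (s := ball z ε)
        (f := fun x => fderiv ℝ v x (g x • n)) fun x hx => by rw [g0 x hx, zero_smul, map_zero]] at b
      rw [← setIntegral_eq_integral_of_forall_compl_eq_zero (s := ball z ε)
        fun x hx => by rw [g0 x hx, zero_smul]]
      have i3 : IntegrableOn (fun x => fderiv ℝ v x (g x • n)) (ball z ε) := by
        obtain ⟨C, hC⟩ := g2.exists_bound_of_continuous g1.continuous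
        simp only [map_smul, smul_eq_mul]
        exact iv.bdd_mul g1.continuous.aestronglyMeasurable (.of_forall hC)
      have := integral_sub (i2.mono_set s) i3
      simp only [inner_smul_right, map_smul, smul_eq_mul, mul_sub] at this a b ⊢
      linarith
  refine ⟨_, inter_mem_nhdsWithin _ (ball_mem_nhds z ε0), measure_eq_zero_iff_ae_notMem.2 ?_⟩
  filter_upwards [key, lv.ae_differentiableAt (μ := volume)] with x k d ⟨bad, hb⟩
  exact bad fun _ => ⟨d.congr_of_eventuallyEq (e' x hb), by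
    rw [(e' x hb).fderiv_eq]; exact sub_eq_zero.1 (k hb)⟩

lemma nu_eq (nu : IsNormal Ω ν) (op : IsOpen Ω) {n y0 y : E} {R : ℝ} (hn : ‖n‖ = 1)
    (sub : ∀ x ∈ Ω, 0 < ⟪n, x⟫_ℝ) (fl : ∀ x ∈ ball y0 R, 0 < ⟪n, x⟫_ℝ → x ∈ Ω)
    (hy : y ∈ frontier Ω) (hb : y ∈ ball y0 R) : ⟪n, y⟫_ℝ = 0 ∧ ν y = -n := by
  have s0 : ⟪n, y⟫_ℝ = 0 := le_antisymm (not_lt.1 fun k => (op.frontier_eq ▸ hy).2 (fl y hb k))
    (closure_minimal (fun x hx => (sub x hx).le) (isClosed_le (g := fun x : E => ⟪n, x⟫_ℝ) continuous_const (by fun_prop))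
      (frontier_subset_closure hy))
  refine ⟨s0, ?_⟩
  obtain ⟨n1, k⟩ := nu y hy
  by_contra ne
  have p : 0 < 1 + ⟪n, ν y⟫_ℝ := by
    have := norm_add_sq_real n (ν y)
    have := pow_pos (norm_pos_iff.2 fun e : n + ν y = 0 => ne (eq_neg_of_add_eq_zero_right e)) 2
    nlinarith
  have c : Continuous fun t : ℝ => y + t • (n + ν y) := by fun_prop
  obtain ⟨t, m, t0⟩ := (((c.tendsto' 0 y (by simp)).mono_left (nhdsWithin_le_nhds (s := Ioi 0))
    |>.eventually (isOpen_ball.mem_nhds hb)).and self_mem_nhdsWithin).exists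
  have t0' : 0 < t := t0
  have := k _ (fl _ m (by
    rw [inner_add_right, s0, inner_smul_right, inner_add_right, real_inner_self_eq_norm_sq, hn]
    nlinarith))
  rw [add_sub_cancel_left, real_inner_smul_left, inner_add_left, real_inner_self_eq_norm_sq, n1] at this
  nlinarith

end H99.Rob
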