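import Mathlib
import Pool.Agent.H99.Rob2

set_option autoImplicit false

open MeasureTheory Set Filter Topology Metric
open scoped InnerProductSpace NNReal ContDiff

namespace H99.Rob

variable {Ω : Set E} {α lam : ℝ} {u : E → ℝ} {G ν : E → E}

lemma YY_n {n : E} (hn : ‖n‖ = 1) (c x : E) : ⟪YY 1 n c x, n⟫_ℝ = 0 := by
  rw [YY, inner_sub_left, real_inner_smul_left, real_inner_self_eq_norm_sq, hn, real_inner_comm]; ring

lemma YY_sq {n : E} (hn : ‖n‖ = 1) (R : ℝ) (c x : E) :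
    ⟪YY 1 n c x, YY 1 n c x⟫_ℝ = R ^ 2 - qq 1 R n c x := by
  rw [real_inner_self_eq_norm_sq, YY, norm_sub_sq_real, real_inner_smul_right, norm_smul, hn, qq,
    real_inner_comm n, mul_one, Real.norm_eq_abs, sq_abs]; ring

lemma prop1 {w : E → ℝ} (cc : ConcaveOn ℝ Ω w) {z n : E} {a b c M : ℝ} (a0 : 0 < a) (b0 : 0 < b)
    (bc : b ≤ c) (hz : z ∈ Ω) (h2 : z + c • n + a • n ∈ Ω)
    (k : w (z + c • n) + M * a ≤ w (z + c • n + a • n)) : w z + M * b ≤ w (z + b • n) := by
  have c0 : 0 < c := b0.trans_le bc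
  obtain ⟨m1, k1⟩ := conc cc hz h2 (θ := c / (c + a)) (by positivity)
    ((div_le_one (by positivity)).2 (by linarith))
  have e1 : z + (c / (c + a)) • (z + c • n + a • n - z) = z + c • n := by
    rw [add_assoc, add_sub_cancel_left, ← add_smul, smul_smul, div_mul_cancel₀ _ (by positivity)]
  rw [e1] at m1 k1
  obtain ⟨-, k2⟩ := conc cc hz m1 (θ := b / c) (by positivity) ((div_le_one c0).2 bc)
  rw [add_sub_cancel_left, smul_smul, div_mul_cancel₀ _ c0.ne'] at k2
  rw [div_mul_eq_mul_div, ← le_sub_iff_add_le', div_le_iff₀ (by positivity)] at k1 k2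
  have k3 : M * c ≤ w (z + c • n) - w z := le_of_mul_le_mul_right (a := a) (by nlinarith) a0
  have k4 : M * b ≤ w (z + b • n) - w z := le_of_mul_le_mul_right (a := c) (by nlinarith) c0
  linarith

lemma der_ge {f : E → ℝ} {z n : E} (d : DifferentiableAt ℝ f z) {m c : ℝ} (c0 : 0 < c)
    (h : ∀ b ∈ Ioo 0 c, f z + m * b ≤ f (z + b • n)) : m ≤ fderiv ℝ f z n := by
  have := (d.hasFDerivAt.hasLineDerivAt n).tendsto_slope_zero_right
  refine ge_of_tendsto this (mem_of_superset (Ioo_mem_nhdsGT c0) fun b hb => ?_)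
  show m ≤ b⁻¹ • _
  rw [smul_eq_mul, ← div_eq_inv_mul, le_div_iff₀ hb.1]; linarith [h b hb]

theorem Ctx.slope (h : Ctx Ω α lam u G ν) (α0 : 0 < α) {n y0 : E} {R c a : ℝ} (hn : ‖n‖ = 1)
    (h0 : ⟪n, y0⟫_ℝ = 0) (R0 : 0 < R) (sub : ∀ x ∈ Ω, 0 < ⟪n, x⟫_ℝ)
    (fl : ∀ x ∈ ball y0 R, 0 < ⟪n, x⟫_ℝ → x ∈ Ω) (c0 : 0 < c) (a0 : 0 < a)
    (m1 : y0 + c • n ∈ Ω) (m2 : y0 + c • n + a • n ∈ Ω) :
    Real.log (u (y0 + c • n + a • n)) ≤ Real.log (u (y0 + c • n)) + (α + 1) * a := by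
  by_contra k
  push Not at k
  set w := fun x => Real.log (u x) with hw
  have cw := h.cc.continuousOn h.op
  have nn : ⟪n, n⟫_ℝ = 1 := by rw [real_inner_self_eq_norm_sq, hn, one_pow]
  have t1 : ContinuousAt (fun x => x + a • n) (y0 + c • n) := by fun_prop
  have ev : ∀ᶠ x in 𝓝 (y0 + c • n), x + a • n ∈ Ω ∧ w x + (α + 1) * a < w (x + a • n) :=
    (t1.eventually (h.op.mem_nhds m2)).and
      (((cw.continuousAt (h.op.mem_nhds m1)).add continuousAt_const).eventually_lt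
        (ContinuousAt.comp (f := fun x => x + a • n) (cw.continuousAt (h.op.mem_nhds m2)) t1) k)
  obtain ⟨ε, ε0, hε⟩ := Metric.eventually_nhds_iff_ball.1 ev
  set ρ := min ε (R / 2) with hρ
  have ρ0 : 0 < ρ := lt_min ε0 (half_pos R0)
  set K := 14 / ρ ^ 2 + |lam| with hK
  have K0 : 0 < K := by positivity
  set r := min (min c (R / 2)) (1 / K) with hr
  have r0 : 0 < r := lt_min (lt_min c0 (half_pos R0)) (by positivity)
  have r1 : r ≤ c := (min_le_left _ _).trans (min_le_left _ _)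
  have r2 : r ≤ R / 2 := (min_le_left _ _).trans (min_le_right _ _)
  have r3 : r * K ≤ 1 := (le_div_iff₀ K0).1 (min_le_right _ _)
  set q := qq 1 ρ n y0 with hq
  set Y := YY 1 n y0 with hY
  set s : E → ℝ := fun x => r - ⟪n, x⟫_ℝ with hs
  have ds : ∀ x, HasFDerivAt s (-innerSL ℝ n) x := fun x => (dip n x).const_sub r
  have sm : ContDiff ℝ 1 s := contDiff_const.sub (ip_sm n)
  have qm : ContDiff ℝ 1 q := qq_sm _ _ _ _
  have Ym : ContDiff ℝ 1 Y := YY_sm _ _ _
  set φ : E → ℝ := fun x => P 3 (q x) * P 2 (s x) with hφ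
  have φm : ContDiff ℝ 1 φ := (P3c.comp qm).mul (P2c.comp sm)
  have dφ := fun x => ((hP3 (q x)).comp_hasFDerivAt x (dq 1 ρ n y0 x)).mul
    ((hP2 (s x)).comp_hasFDerivAt x (ds x))
  set X : E → E := fun x => (-α * φ x) • n + (6 * (P 2 (s x) * P 2 (q x))) • Y x with hX
  have Xm : ContDiff ℝ 1 X := ((contDiff_const.mul φm).smul contDiff_const).add
    ((contDiff_const.mul ((P2c.comp sm).mul (P2c.comp qm))).smul Ym)
  have dX := fun x => (((dφ x).const_mul (-α)).smul_const n).add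
    (((((hP2 (s x)).comp_hasFDerivAt x (ds x)).mul
      ((hP2 (q x)).comp_hasFDerivAt x (dq 1 ρ n y0 x))).const_mul 6).smul (dY 1 n y0 x))
  have near : ∀ x, 0 < q x → 0 ≤ ⟪n, x⟫_ℝ → 0 < s x → ‖Y x‖ < ρ ∧ x ∈ ball y0 R := fun x a b c => by
    have e := YY_sq hn ρ y0 x
    rw [real_inner_self_eq_norm_sq] at e
    refine ⟨lt_of_pow_lt_pow_left₀ 2 ρ0.le (by rw [hY, e]; linarith), mem_ball_iff_norm.2
      (lt_of_pow_lt_pow_left₀ 2 R0.le ?_)⟩
    simp only [hq, qq, inner_sub_right, h0, sub_zero, hs] at a c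
    have : ρ ≤ R / 2 := min_le_right _ _
    nlinarith
  have st := h.star φ X φm Xm fun y hy => by
    have s0 : 0 ≤ ⟪n, y⟫_ℝ := closure_minimal (fun x hx => (sub x hx).le)
      (isClosed_le (g := fun x : E => ⟪n, x⟫_ℝ) continuous_const (by fun_prop))
      (frontier_subset_closure hy)
    rcases le_or_gt (q y) 0 with a | a
    · simp [hX, hφ, P_neg _ a]
    rcases le_or_gt (s y) 0 with b | b
    · simp [hX, hφ, P_neg _ b]
    rw [(nu_eq h.nu h.op hn sub fl hy (near y a s0 b).2).2, inner_neg_right, hX, inner_add_left,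
      real_inner_smul_left, real_inner_smul_left, nn, YY_n hn]
    ring
  have eI : ∀ x, fderiv ℝ φ x (G x) + ⟪G x, X x⟫_ℝ + u x * (dv X x - lam * φ x) =
      -(⟪G x, n⟫_ℝ * (P 3 (q x) * (2 * P 1 (s x) + α * P 2 (s x)))) +
        u x * (2 * α * P 3 (q x) * P 1 (s x) - P 2 (s x) * (24 * P 1 (q x) * (ρ ^ 2 - q x) -
          12 * P 2 (q x)) - lam * φ x) := fun x => by
    have e1 := YY_n hn y0 x
    have e2 := YY_sq hn ρ y0 x
    have e3 : ⟪n, YY 1 n y0 x⟫_ℝ = 0 := real_inner_comm n _ ▸ e1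
    rw [dv_eq (X := X) (dX x), show fderiv ℝ φ x = _ from (dφ x).fderiv]
    simp only [tr_add, tr_smul, tr_sr, tr_sub, tr_id, hX, hφ, hY, inner_add_right,
      real_inner_smul_right, add_apply, smul_apply,
      neg_apply, innerSL_apply_apply, smul_eq_mul, Function.comp_apply,
      Pi.mul_apply, e1, e2, e3, nn, real_inner_comm (G x), ← hq]
    ring
  set F := fun x => u x * (P 3 (q x) * P 1 (s x)) with hF
  have iF : IntegrableOn F Ω := intS h.op h.bd h.iu (by
    have := qm.continuous; have := sm.continuous; fun_prop)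
  have le : ∫ x in Ω, (fderiv ℝ φ x (G x) + ⟪G x, X x⟫_ℝ + u x * (dv X x - lam * φ x)) ≤
      ∫ x in Ω, -F x := by
    refine setIntegral_mono_on_ae (((intV h.op h.bd h.iG (φm.continuous_fderiv one_ne_zero)).add
      (intX h.op h.bd h.iG Xm.continuous)).add (intS h.op h.bd h.iu ((dv_cont Xm).sub
        (φm.continuous.const_mul _)))) iF.neg h.op.measurableSet ?_
    filter_upwards [h.Gae n] with x hx m
    obtain ⟨d, e⟩ := hx m
    rw [eI, e]
    rcases le_or_gt (q x) 0 with qa | qa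
    · simp [hF, hφ, P_neg _ qa]
    rcases le_or_gt (s x) 0 with b | b
    · simp [hF, hφ, P_neg _ b]
    have u0 := h.pos x m
    have s0 := sub x m
    have c1 : 0 < c - ⟪n, x⟫_ℝ := by simp only [hs] at b; linarith
    have mb := hε (x + (c - ⟪n, x⟫_ℝ) • n) (mem_ball_iff_norm.2 (lt_of_eq_of_lt ?_
      ((near x qa s0.le b).1.trans_le (min_le_left _ _))))
    swap
    · congr 1
      rw [hY, YY, inner_sub_right, h0, sub_smul]; simp; abel
    have g := der_ge d (m := (α + 1) * u x) (n := n) c1 fun b hb => by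
      have k1 := prop1 h.cc a0 hb.1 hb.2.le m mb.1 mb.2.le
      have m' := (conc h.cc m mb.1 (θ := b / (c - ⟪n, x⟫_ℝ + a))
        (div_nonneg hb.1.le (by linarith)) ((div_le_one (by linarith)).2 (by linarith [hb.2]))).1
      rw [add_assoc, add_sub_cancel_left, ← add_smul, smul_smul, div_mul_cancel₀ _ (by linarith)] at m'
      have := Real.exp_le_exp.2 k1
      rw [Real.exp_add, Real.exp_log u0, Real.exp_log (h.pos _ m')] at this
      nlinarith [Real.add_one_le_exp ((α + 1) * b)]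
    simp only [hF, hφ, P_pos _ qa.le, P_pos _ b.le, pow_one]
    have sr : s x ≤ r := by simp only [hs]; linarith
    generalize q x = Q at *
    generalize s x = S at *
    generalize u x = U at *
    have k1 : -(24 * Q * (ρ ^ 2 - Q) - 12 * Q ^ 2) ≤ 14 / ρ ^ 2 * Q ^ 3 := by
      rw [div_mul_eq_mul_div, le_div_iff₀ (by positivity)]
      nlinarith [mul_nonneg qa.le (sq_nonneg (7 * Q - 9 * ρ ^ 2)), mul_pos qa (pow_pos ρ0 4)]
    have k2 : -lam * Q ^ 3 ≤ |lam| * Q ^ 3 := by gcongr; exact neg_le_abs _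
    have k3 : S * K ≤ 1 := le_trans (by gcongr) r3
    have k4 := mul_le_mul_of_nonneg_right g (show 0 ≤ Q ^ 3 * (2 * S + α * S ^ 2) by positivity)
    have k5 := mul_le_mul_of_nonneg_left (add_le_add k1 k2) (show 0 ≤ U * S ^ 2 by positivity)
    have k6 := mul_le_mul_of_nonneg_left k3 (show 0 ≤ U * Q ^ 3 * S by positivity)
    have k7 : 0 ≤ (α + 1) * α * U * Q ^ 3 * S ^ 2 := by positivity
    rw [hK] at k6
    linarith
  rw [st, integral_neg] at le
  have op : IsOpen (Ω ∩ {x | 0 < q x} ∩ {x | 0 < s x}) :=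
    (h.op.inter (isOpen_lt continuous_const qm.continuous)).inter
      (isOpen_lt continuous_const sm.continuous)
  have := (setIntegral_pos_iff_support_of_nonneg_ae ((ae_restrict_mem h.op.measurableSet).mono
    fun x hx => mul_nonneg (h.pos x hx).le (mul_nonneg (P_nn _ _) (P_nn _ _))) iF).2
    ((op.measure_pos volume ⟨y0 + (r / 2) • n, ⟨fl _ ?_ ?_, ?_⟩, ?_⟩).trans_le (measure_mono
      fun x ⟨⟨a, b⟩, c⟩ => ⟨(mul_pos (h.pos x a) (mul_pos (by rw [P_pos _ (le_of_lt b)]; exact pow_pos b 3)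
        (by rw [P_pos _ (le_of_lt c)]; exact pow_pos c 1))).ne', a⟩))
  · linarith
  · rw [mem_ball_iff_norm, add_sub_cancel_left, norm_smul, hn, Real.norm_of_nonneg (by positivity)]
    linarith
  · rw [inner_add_right, h0, real_inner_smul_right, nn]; linarith
  · show 0 < qq 1 ρ n y0 _
    rw [qq, add_sub_cancel_left, norm_smul, hn, real_inner_smul_right, nn, Real.norm_eq_abs, mul_one,
      sq_abs]
    nlinarith
  · show 0 < r - _
    rw [inner_add_right, h0, real_inner_smul_right, nn]; linarith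

noncomputable def VI (lam R : ℝ) (a c x : E) : ℝ := (1 + ⟪a, x⟫_ℝ) * LL R c x -
  12 * P 2 (pp R c x) * ⟪a, x - c⟫_ℝ + lam * (P 3 (pp R c x) * (1 + ⟪a, x⟫_ℝ))

theorem Ctx.VW (h : Ctx Ω α lam u G ν) {n c a : E} {R : ℝ} (R0 : 0 ≤ R) (hn : ‖n‖ = 1)
    (hb : ∀ y ∈ frontier Ω, y ∈ ball c R →
      ν y = -n ∧ ⟪n, y⟫_ℝ = 0 ∧ ⟪n, c⟫_ℝ = 0 ∧ a = α • n) :
    ∫ x in Ω ∩ ball c R, u x * VI lam R a c x = 0 := by
  have nn : ⟪n, n⟫_ℝ = 1 := by rw [real_inner_self_eq_norm_sq, hn, one_pow]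
  set φ : E → ℝ := fun x => P 3 (pp R c x) * (1 + ⟪a, x⟫_ℝ) with hφ
  set X : E → E := fun x => (6 * (P 2 (pp R c x) * (1 + ⟪a, x⟫_ℝ))) • (x - c) -
    P 3 (pp R c x) • a with hX
  have lm : ContDiff ℝ 1 fun x : E => 1 + ⟪a, x⟫_ℝ := contDiff_const.add (ip_sm a)
  have d3 := fun x => (hP3 (pp R c x)).comp_hasFDerivAt x (dp R c x)
  have dφ := fun x => (d3 x).mul ((dip a x).const_add 1)
  have dX := fun x => (((((hP2 (pp R c x)).comp_hasFDerivAt x (dp R c x)).mul
    ((dip a x).const_add 1)).const_mul 6).smul ((hasFDerivAt_id x).sub_const c)).sub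
      ((d3 x).smul_const a)
  have st := h.star φ X ((P3c.comp (pp_sm R c)).mul lm)
    (((contDiff_const.mul ((P2c.comp (pp_sm R c)).mul lm)).smul (contDiff_id.sub contDiff_const)).sub
      ((P3c.comp (pp_sm R c)).smul contDiff_const)) fun y hy => by
    by_cases k : y ∈ ball c R
    · obtain ⟨e1, e2, e3, rfl⟩ := hb y hy k
      simp only [hX, hφ, e1, inner_neg_right, inner_sub_right, real_inner_smul_left,
        real_inner_smul_right, nn, e2, e3, real_inner_comm n]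
      ring
    · simp [hX, hφ, P_neg _ (pp_out R0 k)]
  have eI : ∀ x, fderiv ℝ φ x (G x) + ⟪G x, X x⟫_ℝ + u x * (dv X x - lam * φ x) =
      -(u x * VI lam R a c x) := fun x => by
    rw [dv_eq (X := X) (dX x), show fderiv ℝ φ x = _ from (dφ x).fderiv]
    simp only [tr_add, tr_smul, tr_sr, tr_sub, tr_id, hX, hφ, inner_sub_right (G x),
      real_inner_smul_right, add_apply, smul_apply, innerSL_apply_apply,
      smul_eq_mul, Function.comp_apply, Pi.mul_apply, real_inner_comm (G x), VI, LL, id,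
      real_inner_self_eq_norm_sq, real_inner_comm a (x - c)]
    ring
  simp only [eI, integral_neg, neg_eq_zero] at st
  rw [← st]
  exact (setIntegral_eq_of_subset_of_forall_sdiff_eq_zero h.op.measurableSet inter_subset_left
    fun x hx => by
      have k : x ∉ ball c R := fun k => hx.2 ⟨hx.1, k⟩
      simp [VI, LL_out R0 k, P_neg _ (pp_out R0 k)]).symm

end H99.Rob
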