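import Mathlib
import Pool.Agent.H99.Rob3

set_option autoImplicit false

open MeasureTheory Set Filter Topology Metric
open scoped InnerProductSpace NNReal ContDiff Pointwise

namespace H99.Rob

variable {Ω : Set E} {α lam : ℝ} {u : E → ℝ} {G ν : E → E}

lemma tang {f : E → ℝ} (cc : ConcaveOn ℝ Ω f) {x y : E} (hx : x ∈ Ω) (hy : y ∈ Ω)
    (d : DifferentiableAt ℝ f x) : f y - f x ≤ fderiv ℝ f x (y - x) :=
  der_ge d one_pos fun b hb => by linarith [(conc cc hx hy hb.1.le hb.2.le).2]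

theorem affine {f : E → ℝ} (op : IsOpen Ω) (ne : Ω.Nonempty) (cc : ConcaveOn ℝ Ω f)
    (hm : ∀ c R, 0 < R → closedBall c R ⊆ Ω → ∫ x in ball c R, f x * LL R c x = 0) :
    ∃ (b : ℝ) (γ : E), ∀ x ∈ Ω, f x = b + ⟪γ, x⟫_ℝ := by
  obtain ⟨z, hz⟩ := ne
  obtain ⟨ε, ε0, s, K, v, lv, e⟩ := locLip op cc contDiff_id hz
  obtain ⟨z0, m0, d0⟩ := Measure.exists_mem_of_measure_ne_zero_of_ae
    (measure_ball_pos volume z ε0).ne' (ae_restrict_of_ae (lv.ae_differentiableAt (μ := volume)))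
  have d1 : DifferentiableAt ℝ f z0 := d0.congr_of_eventuallyEq
    (mem_of_superset (isOpen_ball.mem_nhds m0) e)
  set γ := gradient f z0
  set b := f z0 - ⟪γ, z0⟫_ℝ with hb
  have le : ∀ x ∈ Ω, f x ≤ b + ⟪γ, x⟫_ℝ := fun x hx => by
    have := tang cc (s m0) hx d1
    rw [← inner_gradient_left, inner_sub_right] at this
    linarith
  have o : IsOpen {x | x ∈ Ω ∧ f x = b + ⟪γ, x⟫_ℝ} := isOpen_iff_mem_nhds.2 fun z ⟨hz, ez⟩ => by
    obtain ⟨ε, ε0, s, K, v, lv, e⟩ := locLip op cc contDiff_id hz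
    have R0 := half_pos ε0
    have sb : closedBall z (ε / 2) ⊆ ball z ε := closedBall_subset_ball (half_lt_self ε0)
    have sb' := ball_subset_closedBall.trans sb
    have l0 : LipschitzWith _ fun x : E => b + ⟪γ, x⟫_ℝ :=
      (LipschitzWith.const b).add (innerSL ℝ γ).lipschitz
    have l1 : LipschitzWith _ fun x : E => b + ⟪γ, x⟫_ℝ - v x := l0.sub lv
    have k := keyK l1 R0.le z
    have cL := LL_cont (ε / 2) z
    have cs : HasCompactSupport (LL (ε / 2) z) := cs_of fun x hx => LL_out R0.le hx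
    have k1 : ∫ x, v x * LL (ε / 2) z x = 0 := by
      rw [← setIntegral_eq_integral_of_forall_compl_eq_zero (s := ball z (ε / 2))
        fun x hx => by rw [LL_out R0.le hx, mul_zero], ← hm z _ R0 (sb.trans s)]
      exact setIntegral_congr_fun measurableSet_ball fun x hx => by simp only [← e x (sb' hx), id]
    simp only [sub_mul] at k
    have j1 : Integrable fun x => (b + ⟪γ, x⟫_ℝ) * LL (ε / 2) z x :=
      (l0.continuous.mul cL).integrable_of_hasCompactSupport cs.mul_left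
    have j2 : Integrable fun x => v x * LL (ε / 2) z x :=
      (lv.continuous.mul cL).integrable_of_hasCompactSupport cs.mul_left
    rw [integral_sub j1 j2, affL R0.le, k1] at k
    set F := fun x => P 2 (pp (ε / 2) z x) * (b + ⟪γ, x⟫_ℝ - v x) with hF
    have cp := (pp_sm (ε / 2) z).continuous
    have cF : Continuous F := ((P_cont 2).comp cp).mul l1.continuous
    have sF : HasCompactSupport F := cs_of (R := ε / 2) (c := z) fun x hx => by
      simp [hF, P_neg _ (pp_out R0.le hx)]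
    have F0 : 0 ≤ F := fun x => by
      by_cases hx : x ∈ ball z (ε / 2)
      · exact mul_nonneg (P_nn _ _) (by rw [← e x (sb' hx)]; exact sub_nonneg.2 (le x (s (sb' hx))))
      · simp [hF, P_neg _ (pp_out R0.le hx)]
    have i2 : Integrable fun x => P 2 (pp (ε / 2) z x) *
        fderiv ℝ (fun x : E => b + ⟪γ, x⟫_ℝ - v x) x (x - z) := by
      have c : Continuous fun x => P 2 (pp (ε / 2) z x) * ‖x - z‖ := by fun_prop
      refine ((c.integrable_of_hasCompactSupport (cs_of (R := ε / 2) (c := z) fun x hx => by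
        simp [P_neg _ (pp_out R0.le hx)])).const_mul
          ((0 + ‖innerSL ℝ γ‖₊ + K : ℝ≥0) : ℝ)).mono' (((P_cont 2).comp cp).measurable.mul
          (isBoundedBilinearMap_apply.continuous.measurable.comp ((measurable_fderiv ℝ _).prodMk
            (measurable_id.sub_const z)))).aestronglyMeasurable (.of_forall fun x => ?_)
      rw [norm_mul, Real.norm_of_nonneg (P_nn _ _), mul_left_comm]
      exact mul_le_mul_of_nonneg_left ((ContinuousLinearMap.le_opNorm _ _).trans
        (mul_le_mul_of_nonneg_right (norm_fderiv_le_of_lipschitz ℝ l1) (norm_nonneg _))) (P_nn _ _)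
    have k2 := integral_mono_ae (cF.integrable_of_hasCompactSupport sF) i2
      ((lv.ae_differentiableAt (μ := volume)).mono fun x d => by
        by_cases hx : x ∈ ball z (ε / 2)
        · refine mul_le_mul_of_nonneg_left ?_ (P_nn _ _)
          have ev : f =ᶠ[𝓝 x] v := mem_of_superset (isOpen_ball.mem_nhds (sb' hx)) e
          have := tang cc (s (sb' hx)) hz (d.congr_of_eventuallyEq ev)
          rw [ev.fderiv_eq, ← neg_sub x, map_neg, ev.eq_of_nhds] at this
          rw [show fderiv ℝ (fun x : E => b + ⟪γ, x⟫_ℝ - v x) x = _ from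
            (((dip γ x).const_add b).sub d.hasFDerivAt).fderiv, sub_apply, innerSL_apply_apply,
            inner_sub_right]
          linarith
        · simp [hF, P_neg _ (pp_out R0.le hx)])
    have k3 := (cF.ae_eq_iff_eq volume continuous_zero).1 ((integral_eq_zero_iff_of_nonneg F0
      (cF.integrable_of_hasCompactSupport sF)).1 (le_antisymm (by linarith) (integral_nonneg F0)))
    refine mem_of_superset (ball_mem_nhds z R0) fun x hx => ⟨s (sb' hx), ?_⟩
    have := (mul_eq_zero.1 (congrFun k3 x)).resolve_left (by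
      rw [P_pos _ (pp_in hx).le]; exact (pow_pos (pp_in hx) 2).ne')
    have e' : f x = v x := e x (sb' hx)
    linarith
  refine ⟨b, γ, fun x hx => (cc.1.isPreconnected.subset_of_closure_inter_subset o
    ⟨z0, s m0, s m0, by rw [hb]; ring⟩ (fun y ⟨a, m⟩ => ⟨m, ?_⟩) hx).2⟩
  have c : ContinuousAt (fun x => f x - (b + ⟪γ, x⟫_ℝ)) y :=
    ((cc.continuousOn op).continuousAt (op.mem_nhds m)).sub (by fun_prop)
  exact sub_eq_zero.1 (closure_minimal (t := {0}) (by
    rintro _ ⟨x, ⟨-, k⟩, rfl⟩; exact sub_eq_zero.2 k) isClosed_singleton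
    (c.continuousWithinAt.mem_closure_image a))

lemma P_sc (k : ℕ) {c : ℝ} (c0 : 0 ≤ c) (p : ℝ) : P k (c * p) = c ^ k * P k p := by
  rw [P, P, ← mul_pow, mul_max_of_nonneg _ _ c0, mul_zero]

lemma VI_sc (lam R : ℝ) (a c y : E) {t : ℝ} (_ : 0 < t) : VI lam (t * R) a (t • c) (t • y) =
    t ^ 4 * (LL R c y + t * (⟪a, y⟫_ℝ * LL R c y - 12 * P 2 (pp R c y) * ⟪a, y - c⟫_ℝ +
      t * (lam * P 3 (pp R c y)) + t ^ 2 * (lam * P 3 (pp R c y) * ⟪a, y⟫_ℝ))) := by
  have n : ‖t • y - t • c‖ ^ 2 = t ^ 2 * ‖y - c‖ ^ 2 := by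
    rw [← smul_sub, norm_smul, mul_pow, Real.norm_eq_abs, sq_abs]
  have e : pp (t * R) (t • c) (t • y) = t ^ 2 * pp R c y := by rw [pp_eq, pp_eq, n]; ring
  simp only [VI, LL, e, n, P_sc _ (sq_nonneg t)]
  rw [← smul_sub, real_inner_smul_right, real_inner_smul_right]; ring

theorem Ctx.blow (h : Ctx Ω α lam u G ν) (st : ∀ y ∈ Ω, ∀ t ∈ Ioo (0 : ℝ) 1, t • y ∈ Ω)
    {n c a : E} {R w0 B : ℝ} {f : E → ℝ} (R0 : 0 < R) (hn : ‖n‖ = 1)
    (sub : ∀ x ∈ Ω, 0 < ⟪n, x⟫_ℝ) (fl : ∀ x ∈ ball c R, 0 < ⟪n, x⟫_ℝ → x ∈ Ω)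
    (hb : (⟪n, c⟫_ℝ = 0 ∧ a = α • n) ∨ ball c R ⊆ Ω)
    (bd : ∀ y ∈ Ω ∩ ball c R, ∀ t ∈ Ioo (0 : ℝ) 1, |(Real.log (u (t • y)) - w0) / t| ≤ B)
    (lim : ∀ y ∈ Ω, Tendsto (fun t : ℝ => (Real.log (u (t • y)) - w0) / t) (𝓝[>] 0) (𝓝 (f y)))
    (L0 : ∫ y in Ω ∩ ball c R, LL R c y = 0) :
    ∫ y in Ω ∩ ball c R, (f y * LL R c y +
      (⟪a, y⟫_ℝ * LL R c y - 12 * P 2 (pp R c y) * ⟪a, y - c⟫_ℝ)) = 0 := by
  set S := Ω ∩ ball c R with hS
  have mS : MeasurableSet S := (h.op.inter isOpen_ball).measurableSet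
  set W : ℝ → E → ℝ := fun t y => (Real.log (u (t • y)) - w0) / t with hW
  have cp := (pp_sm R c).continuous
  have cL := LL_cont R c
  set f2 := fun y => ⟪a, y⟫_ℝ * LL R c y - 12 * P 2 (pp R c y) * ⟪a, y - c⟫_ℝ with h2
  set f3 := fun y => lam * P 3 (pp R c y) with h3
  set f4 := fun y => lam * P 3 (pp R c y) * ⟪a, y⟫_ℝ with h4
  have c2 : Continuous f2 := by fun_prop
  have c3 : Continuous f3 := by fun_prop
  have c4 : Continuous f4 := by fun_prop
  have I : ∀ g : E → ℝ, Continuous g → IntegrableOn g S := fun g hg =>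
    (hg.continuousOn.integrableOn_compact (isCompact_closedBall c R)).mono_set
      (inter_subset_right.trans ball_subset_closedBall)
  set Φ : ℝ → E → ℝ := fun t y => (Real.exp (t * W t y) - 1) / t * LL R c y +
    Real.exp (t * W t y) * (f2 y + t * f3 y + t ^ 2 * f4 y) with hΦ
  have cW : ∀ t ∈ Ioo (0 : ℝ) 1, ContinuousOn (fun y => Real.exp (t * W t y)) S := fun t ht =>
    ((((h.cc.continuousOn h.op).comp (continuous_const_smul t).continuousOn
      fun y hy => st y hy.1 t ht).sub continuousOn_const).div_const t |>.const_smul t).rexp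
  have ms : ∀ t ∈ Ioo (0 : ℝ) 1, AEStronglyMeasurable (Φ t) (volume.restrict S) := fun t ht =>
    ((((cW t ht).sub continuousOn_const).div_const t |>.mul cL.continuousOn).add
      ((cW t ht).mul (by fun_prop))).aestronglyMeasurable mS
  have B0 : 0 < |B| + 1 := by positivity
  have ev : ∀ᶠ t in 𝓝[>] (0 : ℝ), t ∈ Ioo (0 : ℝ) 1 ∧ t * |B| ≤ 1 := by
    filter_upwards [Ioo_mem_nhdsGT (show 0 < 1 / (|B| + 1) by positivity)] with t ht
    have := (lt_div_iff₀ B0).1 ht.2
    exact ⟨⟨ht.1, by nlinarith [abs_nonneg B, ht.1]⟩, by nlinarith [ht.1]⟩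
  have sm : ∀ t ∈ Ioo (0 : ℝ) 1, t * |B| ≤ 1 → ∀ y ∈ S, |t * W t y| ≤ t * |B| ∧ |t * W t y| ≤ 1 :=
    fun t ht k y hy => by
      have : |t * W t y| ≤ t * |B| := by
        rw [abs_mul, abs_of_pos ht.1]
        exact mul_le_mul_of_nonneg_left ((bd y hy t ht).trans (le_abs_self B)) ht.1.le
      exact ⟨this, this.trans k⟩
  set D := fun y => 2 * |B| * |LL R c y| + 3 * (|f2 y| + |f3 y| + |f4 y|) with hD
  have hbd : ∀ t ∈ Ioo (0 : ℝ) 1, t * |B| ≤ 1 → ∀ y ∈ S, ‖Φ t y‖ ≤ D y := fun t ht k y hy => by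
    obtain ⟨a1, a2⟩ := sm t ht k y hy
    have a3 := Real.abs_exp_sub_one_le a2
    refine (abs_add_le _ _).trans (add_le_add ?_ ?_)
    · rw [abs_mul, abs_div, abs_of_pos ht.1]
      refine mul_le_mul_of_nonneg_right ((div_le_iff₀ ht.1).2 (by linarith)) (abs_nonneg _)
    · rw [abs_mul]
      refine mul_le_mul (by rw [abs_of_pos (Real.exp_pos _)]; linarith [abs_le.1 a3])
        ((abs_add_three _ _ _).trans ?_) (abs_nonneg _) (by norm_num)
      rw [abs_mul t, abs_mul (t ^ 2), abs_of_pos ht.1, abs_of_pos (pow_pos ht.1 2)]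
      have := pow_le_one₀ (n := 2) ht.1.le ht.2.le
      nlinarith [abs_nonneg (f3 y), abs_nonneg (f4 y), ht.2]
  have iD : IntegrableOn D S := I D (by fun_prop)
  have t0 : Tendsto (fun t : ℝ => t) (𝓝[>] 0) (𝓝 0) := tendsto_id.mono_left nhdsWithin_le_nhds
  have T := tendsto_integral_filter_of_dominated_convergence (μ := volume.restrict S) (F := Φ)
    (f := fun y => f y * LL R c y + f2 y) D (ev.mono fun t ht => ms t ht.1)
    (ev.mono fun t ht => (ae_restrict_mem mS).mono (hbd t ht.1 ht.2)) iD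
    ((ae_restrict_mem mS).mono fun y hy => by
      have l := lim y hy.1
      have l1 : Tendsto (fun t => Real.exp (t * W t y)) (𝓝[>] 0) (𝓝 1) := by
        simpa using (t0.mul l).rexp
      have l2 : Tendsto (fun t => (Real.exp (t * W t y) - 1) / t - W t y) (𝓝[>] 0) (𝓝 0) := by
        refine squeeze_zero_norm' (ev.mono fun t ht => ?_)
          (by simpa using t0.mul_const (|B| ^ 2))
        obtain ⟨a1, a2⟩ := sm t ht.1 ht.2 y hy
        have a3 := Real.abs_exp_sub_one_sub_id_le a2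
        have p := ht.1.1
        rw [div_sub' p.ne', Real.norm_eq_abs, abs_div, abs_of_pos p, div_le_iff₀ p]
        rw [← sq_abs (t * _)] at a3
        refine a3.trans ((pow_le_pow_left₀ (abs_nonneg _) a1 2).trans_eq ?_)
        rw [mul_pow, sq_abs]; ring
      have l3 := ((l2.add l).mul_const (LL R c y)).add (l1.mul ((tendsto_const_nhds (x := f2 y)
        |>.add (t0.mul_const (f3 y))).add ((t0.pow 2).mul_const (f4 y))))
      simpa [hΦ, hW] using l3)
  refine tendsto_nhds_unique T (tendsto_const_nhds.congr' (ev.mono fun t ⟨ht, k⟩ => ?_))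
  have p := ht.1
  have bl : ∀ x, x ∈ ball (t • c) (t * R) → t⁻¹ • x ∈ ball c R := fun x hx => by
    rw [mem_ball_iff_norm] at hx ⊢
    rw [← inv_smul_smul₀ p.ne' c, ← smul_sub, norm_smul, norm_inv, Real.norm_of_nonneg p.le,
      inv_mul_lt_iff₀ p]
    exact hx
  have fl' : ∀ x ∈ ball (t • c) (t * R), 0 < ⟪n, x⟫_ℝ → x ∈ Ω := fun x hx k => by
    rw [← smul_inv_smul₀ p.ne' x]
    exact st _ (fl _ (bl x hx) (by rw [real_inner_smul_right]; positivity)) t ht
  have V := h.VW (a := a) (c := t • c) (R := t * R) (by positivity) hn fun y hy m => by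
    rcases hb with ⟨e1, e2⟩ | e
    · obtain ⟨e3, e4⟩ := nu_eq h.nu h.op hn sub fl' hy m
      exact ⟨e4, e3, by rw [real_inner_smul_right, e1, mul_zero], e2⟩
    · refine ((h.op.frontier_eq ▸ hy).2 ?_).elim
      rw [← smul_inv_smul₀ p.ne' y]
      exact st _ (e (bl y m)) t ht
  have eS : Ω ∩ ball (t • c) (t * R) = t • S := by
    ext x
    rw [mem_smul_set_iff_inv_smul_mem₀ p.ne']
    refine ⟨fun ⟨a, b⟩ => ⟨fl _ (bl x b) (by
      rw [real_inner_smul_right]; exact mul_pos (inv_pos.2 p) (sub x a)), bl x b⟩, fun ⟨a, b⟩ => ?_⟩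
    rw [← smul_inv_smul₀ p.ne' x]
    refine ⟨st _ a t ht, mem_ball_iff_norm.2 ?_⟩
    rw [← smul_sub, norm_smul, Real.norm_of_nonneg p.le]
    exact mul_lt_mul_of_pos_left (mem_ball_iff_norm.1 b) p
  have V2 := Measure.setIntegral_comp_smul_of_pos volume
    (fun x => u x * VI lam (t * R) a (t • c) x) S p
  rw [← eS, V, smul_zero, setIntegral_congr_fun mS
    (g := fun y => (Real.exp w0 * t ^ 4 * t) * Φ t y + (Real.exp w0 * t ^ 4) * LL R c y) fun y hy => by
      have e : u (t • y) = Real.exp w0 * Real.exp (t * W t y) := by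
        rw [← Real.exp_add, hW, mul_div_cancel₀ _ p.ne', add_sub_cancel,
          Real.exp_log (h.pos _ (st y hy.1 t ht))]
      simp only [VI_sc _ _ _ _ _ p, e, hΦ, h2, h3, h4]
      field_simp
      ring, integral_add ((iD.mono' (ms t ht) ((ae_restrict_mem mS).mono (hbd t ht k))).const_mul _)
        ((I _ cL).const_mul _), integral_const_mul, integral_const_mul, L0, mul_zero, add_zero] at V2
  exact ((mul_eq_zero.1 V2).resolve_left (by positivity)).symm

end H99.Rob
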