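import Mathlib
import Pool.Agent.H99.Rob4
import Pool.Agent.H99.Mor8

set_option autoImplicit false

open MeasureTheory Set Filter Topology Metric
open scoped InnerProductSpace NNReal ContDiff Pointwise

namespace H99.Rob
open H99.Mor (pt pt0 pt1 pt2 nsq co ext3)

noncomputable def nv : Fin 4 → E :=
  ![pt (3 / 5) 0 (4 / 5), pt (-3 / 5) 0 (4 / 5), pt 0 (5 / 13) (12 / 13), pt 0 (-5 / 13) (12 / 13)]

def Om : Set E := {x | x 2 < 1 ∧ ∀ i, 0 < ⟪nv i, x⟫_ℝ}

variable {α lam : ℝ} {u : E → ℝ} {G ν : E → E} {x : E}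

lemma ip (a b c : ℝ) (x : E) : ⟪pt a b c, x⟫_ℝ = a * x 0 + b * x 1 + c * x 2 := by
  simp [PiLp.inner_apply, Fin.sum_univ_three, mul_comm]

lemma nv1 (i : Fin 4) : ‖nv i‖ = 1 :=
  (pow_left_inj₀ (norm_nonneg _) zero_le_one two_ne_zero).1 (by
    fin_cases i <;> simp [nsq, nv] <;> norm_num)

lemma UO (p : Fin 4 → Prop) : IsOpen {x : E | x 2 < 1 ∧ ∀ i, p i → 0 < ⟪nv i, x⟫_ℝ} := by
  refine (isOpen_lt (f := fun x : E => x 2) (by fun_prop) continuous_const).inter
    (t := {x : E | ∀ i, p i → 0 < ⟪nv i, x⟫_ℝ}) ?_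
  simp only [ofPred_forall]
  exact isOpen_iInter_of_finite fun i => isOpen_iInter_of_finite fun _ =>
    isOpen_lt continuous_const (by fun_prop)

lemma Om_open : IsOpen Om := by simpa [Om] using UO fun _ => True

lemma Om_cvx : Convex ℝ Om := fun x hx y hy a b a0 b0 e => by
  obtain rfl : a = 1 - b := by linarith
  refine ⟨?_, fun i => ?_⟩
  · simp only [PiLp.add_apply, PiLp.smul_apply, smul_eq_mul]
    rcases b0.eq_or_lt with rfl | k <;> nlinarith [hx.1, hy.1]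
  · rw [inner_add_right, real_inner_smul_right, real_inner_smul_right]
    rcases b0.eq_or_lt with rfl | k <;> nlinarith [hx.2 i, hy.2 i]

lemma Om_le (hx : x ∈ Om) : ‖x‖ ≤ 3 := by
  have h0 := hx.2 0
  have h1 := hx.2 1
  have h2 := hx.2 2
  have h3 := hx.2 3
  simp [nv, ip] at h0 h1 h2 h3
  refine le_of_sq_le_sq ?_ (by norm_num)
  rw [nsq]; nlinarith [hx.1]

lemma Om_bd : Bornology.IsBounded Om :=
  (isBounded_closedBall (x := (0 : E)) (r := 3)).subset fun _ hx => mem_closedBall_zero_iff.2 (Om_le hx)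

lemma Om_st : ∀ y ∈ Om, ∀ t ∈ Ioo (0 : ℝ) 1, t • y ∈ Om := fun y hy t ht =>
  ⟨by simp only [PiLp.smul_apply, smul_eq_mul]; nlinarith [hy.1, ht.1, ht.2], fun i => by
    rw [real_inner_smul_right]; exact mul_pos ht.1 (hy.2 i)⟩

lemma near1 {c : E} {r : ℝ} (h : ‖x - c‖ ≤ r) (h1 : c 2 + r < 1) : x 2 < 1 := by
  have := (abs_le.1 ((co (x - c) 2).trans h)).2
  rw [PiLp.sub_apply] at this; linarith

lemma near2 {c : E} {r : ℝ} (h : ‖x - c‖ ≤ r) {i : Fin 4} (h1 : r < ⟪nv i, c⟫_ℝ) :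
    0 < ⟪nv i, x⟫_ℝ := by
  have := (abs_le.1 (abs_real_inner_le_norm (nv i) (x - c))).1
  rw [nv1, inner_sub_right] at this; linarith

lemma cB {c : E} {r : ℝ} (h1 : c 2 + r < 1) (h2 : ∀ i, r < ⟪nv i, c⟫_ℝ) : closedBall c r ⊆ Om :=
  fun _ hx => ⟨near1 (mem_closedBall_iff_norm.1 hx) h1,
    fun i => near2 (mem_closedBall_iff_norm.1 hx) (h2 i)⟩

lemma lowK {w : E → ℝ} (cc : ConcaveOn ℝ Om w) {c : E} {r : ℝ} (h : closedBall c r ⊆ Om) :
    ∃ m, ∀ z ∈ closedBall c r, m ≤ w z := by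
  obtain ⟨C, hC⟩ := (isCompact_closedBall c r).exists_bound_of_continuousOn
    ((cc.continuousOn Om_open).mono h)
  exact ⟨-C, fun z hz => (abs_le.1 (hC z hz)).1⟩

lemma slopeF (h : Ctx Om α lam u G ν) (α0 : 0 < α) (i : Fin 4) {a : ℝ} (a0 : 0 < a) (m1 : x ∈ Om)
    (m2 : x + a • nv i ∈ Om) (k1 : (x - ⟪nv i, x⟫_ℝ • nv i) 2 < 1)
    (k2 : ∀ j, j ≠ i → 0 < ⟪nv j, x - ⟪nv i, x⟫_ℝ • nv i⟫_ℝ) :
    Real.log (u (x + a • nv i)) ≤ Real.log (u x) + (α + 1) * a := by
  obtain ⟨R, R0, hR⟩ := Metric.isOpen_iff.1 (UO (· ≠ i)) _ ⟨k1, k2⟩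
  have := h.slope α0 (nv1 i) (y0 := x - ⟪nv i, x⟫_ℝ • nv i) (by
    rw [inner_sub_right, real_inner_smul_right, real_inner_self_eq_norm_sq, nv1]; ring) R0
    (fun x hx => hx.2 i) (fun y hy k => ⟨(hR hy).1, fun j => by
      by_cases e : j = i
      · rwa [e]
      · exact (hR hy).2 j e⟩) (m1.2 i) a0 (by simpa using m1) (by simpa using m2)
  simpa using this

lemma ax {t : ℝ} (t0 : 0 < t) (t1 : t < 1) : pt 0 0 t ∈ Om :=
  ⟨t1, fun i => by fin_cases i <;> simp [nv, ip] <;> positivity⟩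

theorem vertex (h : Ctx Om α lam u G ν) (α0 : 0 < α) : ∃ w0 C : ℝ,
    (∀ y ∈ Om, ∀ θ ∈ Ioo (0 : ℝ) 1, w0 + θ * (Real.log (u y) - w0) ≤ Real.log (u (θ • y))) ∧
      ∀ x ∈ Om, Real.log (u x) ≤ w0 + C * ‖x‖ := by
  set w := fun x => Real.log (u x) with hw
  have cc : ConcaveOn ℝ Om w := h.cc
  have K0 : closedBall (pt 0 0 (1 / 2)) (1 / 10) ⊆ Om :=
    cB (by norm_num) fun i => by fin_cases i <;> simp [nv, ip] <;> norm_num
  have K1 : closedBall (pt (3 / 10) 0 (2 / 5)) (1 / 10) ⊆ Om :=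
    cB (by norm_num) fun i => by fin_cases i <;> simp [nv, ip] <;> norm_num
  obtain ⟨m0, h0⟩ := lowK cc K0
  obtain ⟨m1, h1⟩ := lowK cc K1
  have n0 : ‖pt 0 0 (1 / 2)‖ = 1 / 2 :=
    (pow_left_inj₀ (norm_nonneg _) (by norm_num) two_ne_zero).1 (by simp [nsq])
  obtain ⟨W, hW⟩ : ∃ W, ∀ x ∈ Om, w x ≤ W := ⟨40 * w (pt 0 0 (1 / 2)) - 39 * m0, fun x hx => by
    have mz : pt 0 0 (1 / 2) + (1 / 39 : ℝ) • (pt 0 0 (1 / 2) - x) ∈
        closedBall (pt 0 0 (1 / 2)) (1 / 10) := by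
      rw [mem_closedBall_iff_norm, add_sub_cancel_left, norm_smul, Real.norm_of_nonneg (by norm_num)]
      linarith [norm_sub_le (pt 0 0 (1 / 2)) x, Om_le hx]
    have := (conc cc hx (K0 mz) (θ := 39 / 40) (by norm_num) (by norm_num)).2
    rw [show x + (39 / 40 : ℝ) • (pt 0 0 (1 / 2) + (1 / 39 : ℝ) • (pt 0 0 (1 / 2) - x) - x) =
      pt 0 0 (1 / 2) from ext3 (by simp; ring) (by simp; ring) (by simp; ring)] at this
    linarith [h0 _ mz]⟩
  set C := 20 * |W - m1| + 10 * (α + 1) with hC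
  have C0 : 0 ≤ C := by positivity
  have A : ∀ t' t : ℝ, 0 < t' → t' < t → t ≤ 1 / 20 → w (pt 0 0 t) - C * t ≤ w (pt 0 0 t') - C * t' := by
    intro t' t a b c
    have mz : pt (3 / 10) 0 (2 / 5 + (t - 1 / 20)) ∈ closedBall (pt (3 / 10) 0 (2 / 5)) (1 / 10) := by
      rw [mem_closedBall_iff_norm]
      refine le_of_sq_le_sq ?_ (by norm_num)
      rw [nsq]; simp; nlinarith
    have mt := ax (a.trans b) (by linarith)
    obtain ⟨k1, k2⟩ := conc cc mt (K1 mz) (θ := 20 * (t - t')) (by linarith) (by linarith)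
    rw [show pt 0 0 t + (20 * (t - t')) • (pt (3 / 10) 0 (2 / 5 + (t - 1 / 20)) - pt 0 0 t) =
      pt 0 0 t' + (10 * (t - t')) • nv 0 from
        ext3 (by simp [nv]; ring) (by simp [nv]) (by simp [nv]; ring)] at k1 k2
    have k3 := slopeF h α0 0 (a := 10 * (t - t')) (by linarith) (ax a (by linarith)) k1
      (by simp [nv, ip]; linarith) fun j hj => by
        fin_cases j <;> simp [nv, ip] at hj ⊢ <;> linarith
    have k4 : w (pt 0 0 t) - w (pt (3 / 10) 0 (2 / 5 + (t - 1 / 20))) ≤ |W - m1| := by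
      linarith [hW _ mt, h1 _ mz, le_abs_self (W - m1)]
    have k5 := mul_le_mul_of_nonneg_left k4 (show 0 ≤ 20 * (t - t') by linarith)
    simp only [hw] at k2 k5 ⊢
    rw [hC]; linarith
  set S := (fun t => w (pt 0 0 t) - C * t) '' Ioc 0 (1 / 20) with hS
  have bS : BddAbove S := ⟨W, by
    rintro _ ⟨t, ht, rfl⟩
    have := hW _ (ax ht.1 (by linarith [ht.2]))
    have := mul_nonneg C0 ht.1.le
    simp only; linarith⟩
  refine ⟨sSup S, 5 * C + 10 * |W - m0| + 100 * |W - sSup S|, fun y hy θ hθ => ?_, fun x hx => ?_⟩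
  · have p : 0 < 1 - θ := sub_pos.2 hθ.2
    suffices sSup S ≤ (w (θ • y) - θ * w y) / (1 - θ) by
      rw [le_div_iff₀ p] at this
      simp only [hw] at this; linarith
    refine csSup_le (Nonempty.image _ ⟨1 / 20, by norm_num, le_rfl⟩) ?_
    rintro _ ⟨t, ht, rfl⟩
    rw [le_div_iff₀ p]
    have c : Continuous fun ε : ℝ => pt 0 0 1 |> fun e : E => ε • e + θ • (y - ε • e) := by fun_prop
    have T := ((cc.continuousOn Om_open).continuousAt (Om_open.mem_nhds (Om_st y hy θ hθ))).tendsto.comp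
      ((c.tendsto' 0 (θ • y) (by simp)).mono_left (nhdsWithin_le_nhds (s := Ioi 0)))
    have := ge_of_tendsto (b := (w (pt 0 0 t) - C * t) * (1 - θ) + θ * w y) T
      (mem_of_superset (Ioo_mem_nhdsGT ht.1) fun ε hε => by
        have e : ε • pt 0 0 1 = pt 0 0 ε := ext3 (by simp) (by simp) (by simp)
        have k := (conc cc (ax hε.1 (by linarith [hε.2, ht.2])) hy hθ.1.le hθ.2.le).2
        have k2 := mul_le_mul_of_nonneg_right (A ε t hε.1 hε.2 ht.2) p.le
        have k3 := mul_nonneg (mul_nonneg C0 hε.1.le) p.le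
        show _ ≤ w _
        simp only [e]; linarith)
    simp only; linarith
  · have n := norm_nonneg x
    have a1 := mul_nonneg C0 n
    have a2 := mul_nonneg (abs_nonneg (W - m0)) n
    have a3 := mul_nonneg (abs_nonneg (W - sSup S)) n
    show w x ≤ _
    rcases le_or_gt ‖x‖ (1 / 100) with k | k
    swap
    · nlinarith [hW x hx, le_abs_self (W - sSup S), abs_nonneg (W - sSup S)]
    have n1 : 0 < ‖x‖ := norm_pos_iff.2 fun e => by simpa [e] using hx.2 0
    have mz : pt 0 0 (1 / 2) - (1 / (10 * ‖x‖) - 1) • x ∈ closedBall (pt 0 0 (1 / 2)) (1 / 10) := by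
      rw [mem_closedBall_iff_norm, sub_sub_cancel_left, norm_neg, norm_smul, Real.norm_of_nonneg
        (sub_nonneg.2 ((one_le_div (by positivity)).2 (by linarith))), sub_mul]
      have : 1 / (10 * ‖x‖) * ‖x‖ = 1 / 10 := by field_simp
      linarith
    have k2 := (conc cc hx (K0 mz) (θ := 10 * ‖x‖) (by positivity) (by linarith)).2
    rw [show x + (10 * ‖x‖) • (pt 0 0 (1 / 2) - (1 / (10 * ‖x‖) - 1) • x - x) = pt 0 0 (5 * ‖x‖) from
      ext3 (by simp; field_simp; ring) (by simp; field_simp; ring) (by simp; field_simp; ring)] at k2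
    have k3 := le_csSup bS ⟨5 * ‖x‖, ⟨by positivity, by linarith⟩, rfl⟩
    have k4 : w x - w (pt 0 0 (1 / 2) - (1 / (10 * ‖x‖) - 1) • x) ≤ |W - m0| := by
      linarith [hW _ hx, h0 _ mz, le_abs_self (W - m0)]
    have k5 := mul_le_mul_of_nonneg_left k4 (show 0 ≤ 10 * ‖x‖ by positivity)
    simp only at k3
    linarith

theorem main (h : Ctx Om α lam u G ν) (α0 : 0 < α) : False := by
  obtain ⟨w0, C, A2, A3⟩ := vertex h α0
  set W : E → ℝ → ℝ := fun y t => (Real.log (u (t • y)) - w0) / t with hW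
  have up : ∀ y ∈ Om, ∀ t ∈ Ioo (0 : ℝ) 1, W y t ≤ 3 * |C| := fun y hy t ht => by
    have := A3 _ (Om_st y hy t ht)
    rw [norm_smul, Real.norm_of_nonneg ht.1.le] at this
    have k : C * ‖y‖ ≤ |C| * 3 := (mul_le_mul_of_nonneg_right (le_abs_self C) (norm_nonneg _)).trans
      (mul_le_mul_of_nonneg_left (Om_le hy) (abs_nonneg _))
    rw [hW, div_le_iff₀ ht.1]; nlinarith [ht.1]
  have lo : ∀ y ∈ Om, ∀ t ∈ Ioo (0 : ℝ) 1, Real.log (u y) - w0 ≤ W y t := fun y hy t ht => by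
    rw [hW, le_div_iff₀ ht.1]; linarith [A2 y hy t ht]
  set f := fun y => sSup (W y '' Ioo 0 1) with hf
  have lim : ∀ y ∈ Om, Tendsto (W y) (𝓝[>] 0) (𝓝 (f y)) := fun y hy =>
    AntitoneOn.tendsto_nhdsWithin_Ioo_right ⟨1 / 2, by norm_num⟩ (fun s hs t ht k => by
      rcases k.eq_or_lt with rfl | k
      · rfl
      have := A2 _ (Om_st y hy t ht) (s / t) ⟨div_pos hs.1 ht.1, (div_lt_one ht.1).2 k⟩
      rw [smul_smul, div_mul_cancel₀ _ ht.1.ne'] at this
      rw [hW, le_div_iff₀ hs.1, div_mul_eq_mul_div, mul_comm, mul_div_right_comm]; linarith)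
      ⟨3 * |C|, by rintro _ ⟨t, ht, rfl⟩; exact up y hy t ht⟩
  have cf : ConcaveOn ℝ Om f := ⟨Om_cvx, fun x hx y hy a b a0 b0 e => le_of_tendsto_of_tendsto
    (((lim x hx).const_smul a).add ((lim y hy).const_smul b)) (lim _ (Om_cvx hx hy a0 b0 e))
    (mem_of_superset (Ioo_mem_nhdsGT one_pos) fun t ht => by
      have := h.cc.2 (Om_st x hx t ht) (Om_st y hy t ht) a0 b0 e
      rw [smul_comm a, smul_comm b, ← smul_add] at this
      obtain rfl : a = 1 - b := by linarith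
      simp only [smul_eq_mul, hW, mem_ofPred_eq] at this ⊢
      rw [← mul_div_assoc, ← mul_div_assoc, ← add_div]
      exact div_le_div_of_nonneg_right (by linarith) ht.1.le)⟩
  have bd : ∀ (S : Set E) (m : ℝ), (∀ y ∈ Om ∩ S, m ≤ Real.log (u y)) → ∀ y ∈ Om ∩ S,
      ∀ t ∈ Ioo (0 : ℝ) 1, |W y t| ≤ 3 * |C| + |m - w0| := fun S m hm y hy t ht => abs_le.2
    ⟨by linarith [lo y hy.1 t ht, hm y hy, neg_abs_le (m - w0), abs_nonneg C],
      by linarith [up y hy.1 t ht, abs_nonneg (m - w0)]⟩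
  obtain ⟨b, γ, e⟩ := affine Om_open ⟨_, ax one_half_pos one_half_lt_one⟩ cf fun c R R0 s => by
    obtain ⟨m, hm⟩ := lowK h.cc s
    have s' := ball_subset_closedBall.trans s
    have := h.blow Om_st (a := 0) R0 (nv1 0) (fun x hx => hx.2 0) (fun x hx _ => s' hx) (Or.inr s')
      (bd _ m fun y hy => hm y (ball_subset_closedBall hy.2)) lim (by
        rw [inter_eq_right.2 s', setIntegral_eq_integral_of_forall_compl_eq_zero
          fun x hx => LL_out R0.le hx]
        simpa using affL R0.le c 0 1)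
    simpa [inter_eq_right.2 s'] using this
  have face : ∀ (i : Fin 4) (c : E), ⟪nv i, c⟫_ℝ = 0 → c 2 + 1 / 10 < 1 →
      (∀ j, j ≠ i → 1 / 10 < ⟪nv j, c⟫_ℝ) → closedBall (c + (1 / 5 : ℝ) • nv i) (1 / 10) ⊆ Om →
      ⟪γ, nv i⟫_ℝ = α := fun i c c0 c1 c2 c3 => by
    have R0 : (0 : ℝ) < 1 / 10 := by norm_num
    have nn : ⟪nv i, nv i⟫_ℝ = 1 := by rw [real_inner_self_eq_norm_sq, nv1, one_pow]
    have fl : ∀ x ∈ ball c (1 / 10), 0 < ⟪nv i, x⟫_ℝ → x ∈ Om := fun x hx k =>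
      ⟨near1 (mem_ball_iff_norm.1 hx).le c1, fun j => by
        by_cases e : j = i
        · rwa [e]
        · exact near2 (mem_ball_iff_norm.1 hx).le (c2 j e)⟩
    obtain ⟨m, hm⟩ := lowK h.cc c3
    have tr : ∀ F : E → ℝ, (∀ x, x ∉ ball c (1 / 10) → F x = 0) →
        ∫ x in Om ∩ ball c (1 / 10), F x = ∫ x in {x | 0 < ⟪nv i, x⟫_ℝ}, F x := fun F hF =>
      (setIntegral_eq_of_subset_of_forall_sdiff_eq_zero (s := Om ∩ ball c (1 / 10)) (mT _)
        (fun x hx => hx.1.2 i)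
        fun x hx => hF x fun k => hx.2 (mem_inter (fl x k hx.1) k)).symm
    have B := h.blow Om_st (a := α • nv i) R0 (nv1 i) (fun x hx => hx.2 i) fl (Or.inl ⟨c0, rfl⟩)
      (bd _ (m - (α + 1) * (1 / 5)) fun y hy => by
        have k := (mem_ball_iff_norm.1 hy.2).le
        have mz : y + (1 / 5 : ℝ) • nv i ∈ closedBall (c + (1 / 5 : ℝ) • nv i) (1 / 10) := by
          rwa [mem_closedBall_iff_norm, add_sub_add_right_eq_sub]
        have k' : ‖y - ⟪nv i, y⟫_ℝ • nv i - c‖ ≤ 1 / 10 := by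
          refine le_trans (le_of_sq_le_sq ?_ (norm_nonneg _)) k
          rw [sub_right_comm, norm_sub_sq_real, real_inner_smul_right, norm_smul, nv1,
            real_inner_comm (nv i) (y - c), inner_sub_right, c0, mul_one, Real.norm_eq_abs, sq_abs]
          nlinarith
        linarith [slopeF h α0 i (a := 1 / 5) (by norm_num) hy.1 (c3 mz) (near1 k' c1)
          fun j hj => near2 k' (c2 j hj), hm _ mz]) lim (by
        rw [tr _ fun x hx => LL_out R0.le hx]
        simpa using halfL R0.le (nv1 i) c0 (inner_zero_left _) 1)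
    set g := ⟪γ, nv i⟫_ℝ with hg
    set J := fun x => P 2 (pp (1 / 10) c x) * ⟪nv i, x - c⟫_ℝ with hJ
    have cp := (pp_sm (1 / 10) c).continuous
    have cL := LL_cont (1 / 10) c
    have I : ∀ F : E → ℝ, Continuous F → (∀ x, x ∉ ball c (1 / 10) → F x = 0) →
        IntegrableOn F {x | 0 < ⟪nv i, x⟫_ℝ} := fun F a b =>
      (a.integrable_of_hasCompactSupport (cs_of b)).integrableOn
    have i1 := I (fun x => (b + ⟪γ - g • nv i, x⟫_ℝ) * LL (1 / 10) c x) (by fun_prop)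
      fun x hx => by simp only [LL_out R0.le hx, mul_zero]
    have i2 := I (fun x => ⟪nv i, x⟫_ℝ * LL (1 / 10) c x) (by fun_prop)
      fun x hx => by simp only [LL_out R0.le hx, mul_zero]
    have i3 := I J (by fun_prop) fun x hx => by simp only [hJ, P_neg _ (pp_out R0.le hx), zero_mul]
    have i4 : IntegrableOn (fun x => (g + α) * (⟪nv i, x⟫_ℝ * LL (1 / 10) c x) - 12 * α * J x)
      {x | 0 < ⟪nv i, x⟫_ℝ} := (i2.const_mul _).sub (i3.const_mul _)
    rw [setIntegral_congr_fun (Om_open.inter isOpen_ball).measurableSet (g := fun x =>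
      (b + ⟪γ - g • nv i, x⟫_ℝ) * LL (1 / 10) c x +
        ((g + α) * (⟪nv i, x⟫_ℝ * LL (1 / 10) c x) - 12 * α * J x)) fun x hx => by
          simp only [e x hx.1, hJ, inner_sub_left, real_inner_smul_left]; ring,
      tr _ fun x hx => by simp only [hJ, LL_out R0.le hx, P_neg _ (pp_out R0.le hx)]; ring,
      integral_add i1 i4, integral_sub (i2.const_mul _) (i3.const_mul _), integral_const_mul,
      integral_const_mul, halfS (c := c) R0.le (nv1 i), halfL R0.le (nv1 i) c0 (by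
        rw [inner_sub_left, real_inner_smul_left, nn]; ring)] at B
    have J0 : 0 < ∫ x in {x | 0 < ⟪nv i, x⟫_ℝ}, J x := by
      refine (setIntegral_pos_iff_support_of_nonneg_ae ((ae_restrict_mem (mT _)).mono fun x hx =>
        mul_nonneg (P_nn _ _) (by rw [inner_sub_right, c0, sub_zero]; exact le_of_lt hx)) i3).2
        (((Om_open.inter (isOpen_ball (x := c) (ε := 1 / 10))).measure_pos volume
          ⟨c + (1 / 20 : ℝ) • nv i, (and_iff_right_of_imp fun k => fl _ k ?_).2 ?_⟩).trans_le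
          (measure_mono fun x hx => ⟨(mul_pos ?_ ?_).ne', hx.1.2 i⟩))
      · rw [inner_add_right, c0, real_inner_smul_right, nn]; norm_num
      · rw [mem_ball_iff_norm, add_sub_cancel_left, norm_smul, nv1]; norm_num
      · rw [P_pos _ (pp_in hx.2).le]; exact pow_pos (pp_in hx.2) 2
      · rw [inner_sub_right, c0, sub_zero]; exact hx.1.2 i
    exact mul_right_cancel₀ J0.ne' (by linarith)
  have f0 := face 0 (pt (-2 / 5) 0 (3 / 10)) (by simp [nv, ip]; norm_num) (by norm_num)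
    (fun j hj => by fin_cases j <;> simp [nv, ip] at hj ⊢ <;> norm_num)
    (cB (by simp [nv]; norm_num) fun j => by fin_cases j <;> simp [nv, ip] <;> norm_num)
  have f1 := face 1 (pt (2 / 5) 0 (3 / 10)) (by simp [nv, ip]; norm_num) (by norm_num)
    (fun j hj => by fin_cases j <;> simp [nv, ip] at hj ⊢ <;> norm_num)
    (cB (by simp [nv]; norm_num) fun j => by fin_cases j <;> simp [nv, ip] <;> norm_num)
  have f2 := face 2 (pt 0 (-3 / 5) (1 / 4)) (by simp [nv, ip]; norm_num) (by norm_num)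
    (fun j hj => by fin_cases j <;> simp [nv, ip] at hj ⊢ <;> norm_num)
    (cB (by simp [nv]; norm_num) fun j => by fin_cases j <;> simp [nv, ip] <;> norm_num)
  have f3 := face 3 (pt 0 (3 / 5) (1 / 4)) (by simp [nv, ip]; norm_num) (by norm_num)
    (fun j hj => by fin_cases j <;> simp [nv, ip] at hj ⊢ <;> norm_num)
    (cB (by simp [nv]; norm_num) fun j => by fin_cases j <;> simp [nv, ip] <;> norm_num)
  rw [real_inner_comm] at f0 f1 f2 f3
  simp [nv, ip] at f0 f1 f2 f3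
  linarith

end H99.Rob
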