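import Mathlib

set_option autoImplicit false

open MeasureTheory Filter Topology Complex Set

namespace Pool.Agent.H99.SH

theorem cau {b γ : ℝ → ℂ} {a M d : ℝ} {s : ℂ} (hb : AEStronglyMeasurable b (volume.restrict (uIoc (-a) a)))
    (hM : ∀ y ∈ uIoc (-a) a, ‖b y‖ ≤ M) (hγ : Continuous γ) (hd : 0 < d)
    (h : ∀ y ∈ uIoc (-a) a, d ≤ ‖γ y - s‖) :
    IntervalIntegrable (fun y => b y / (γ y - s)) volume (-a) a ∧
      DifferentiableAt ℂ (fun s => ∫ y in (-a)..a, b y / (γ y - s)) s := by
  have m : ∀ (w : ℂ) (k : ℕ), AEStronglyMeasurable (fun y => b y / (γ y - w) ^ k)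
      (volume.restrict (uIoc (-a) a)) := fun w k =>
    (hb.aemeasurable.div (by fun_prop)).aestronglyMeasurable
  have hi : IntervalIntegrable (fun y => b y / (γ y - s)) volume (-a) a := by
    refine (intervalIntegrable_const (c := M / d)).mono_fun' (by simpa using m s 1) ?_
    filter_upwards [ae_restrict_mem measurableSet_uIoc] with y hy
    rw [norm_div]
    exact div_le_div₀ ((norm_nonneg _).trans (hM y hy)) (hM y hy) hd (h y hy)
  refine ⟨hi, (intervalIntegral.hasDerivAt_integral_of_dominated_loc_of_deriv_le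
    (F := fun w y => b y / (γ y - w)) (F' := fun w y => b y / (γ y - w) ^ 2)
    (bound := fun _ => M / (d / 2) ^ 2) (Metric.ball_mem_nhds s (half_pos hd))
    (Eventually.of_forall fun w => by simpa using m w 1) hi (m s 2)
    (Eventually.of_forall fun y hy w hw => ?_) intervalIntegrable_const
    (Eventually.of_forall fun y hy w hw => ?_)).2.differentiableAt⟩
  all_goals
    have h1 : d / 2 ≤ ‖γ y - w‖ := by
      have := norm_sub_le_norm_sub_add_norm_sub (γ y) w s
      rw [Metric.mem_ball, dist_eq_norm] at hw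
      linarith [h y hy]
  · rw [norm_div, norm_pow]
    exact div_le_div₀ ((norm_nonneg _).trans (hM y hy)) (hM y hy) (by positivity)
      (pow_le_pow_left₀ (by positivity) h1 2)
  · have h2 : γ y - w ≠ 0 := fun h => by rw [h, norm_zero] at h1; linarith
    have := (hasDerivAt_const w (b y)).div ((hasDerivAt_id w).const_sub (γ y)) h2
    convert! this using 1
    simp

theorem pos_part (L : ℂ →L[ℝ] ℝ) {F : ℝ → ℂ} {a : ℝ} (ha : 0 < a)
    (hF : IntervalIntegrable F volume (-a) a) (h : ∀ y, 0 < L (F y)) :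
    0 < L (∫ y in (-a)..a, F y) := by
  rw [← L.intervalIntegral_comp_comm hF]
  exact intervalIntegral.intervalIntegral_pos_of_pos ⟨L.integrable_comp hF.1, L.integrable_comp hF.2⟩
    h (by linarith)

noncomputable def B (a : ℝ) (F : ℂ → ℂ) : ℂ :=
  (∫ x : ℝ in (-a)..a, F (x + (-a : ℝ) * I)) - (∫ x : ℝ in (-a)..a, F (x + a * I))
    + I * (∫ y : ℝ in (-a)..a, F (a + y * I)) - I * ∫ y : ℝ in (-a)..a, F ((-a : ℝ) + y * I)

theorem glue {H : ℂ → ℂ} {a M : ℝ} (ha : 0 < a)
    (hH : ∀ t : ℂ, |t.re| ≤ a → |t.im| ≤ a → t.im ≠ 0 → DifferentiableAt ℂ H t)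
    (hM : ∀ t : ℂ, |t.re| ≤ a → |t.im| ≤ a → ‖H t‖ ≤ M)
    (hl : ∀ᵐ x : ℝ, ∃ w, Tendsto (fun y : ℝ => H (x + y * I)) (𝓝[>] 0) (𝓝 w) ∧
      Tendsto (fun y : ℝ => H (x + (-y : ℝ) * I)) (𝓝[>] 0) (𝓝 w)) :
    ∃ G : ℂ → ℂ, ∀ s : ℂ, |s.re| < a → |s.im| < a →
      DifferentiableAt ℂ G s ∧ (s.im ≠ 0 → G s = H s) ∧ ‖G s‖ ≤ M := by
  have haa : -a ≤ a := by linarith
  have mem : ∀ y ∈ uIoc (-a) a, |y| ≤ a := fun y hy => by
    rw [uIoc_of_le haa] at hy; exact abs_le.2 ⟨hy.1.le, hy.2⟩
  have hor : ∀ c : ℝ, |c| ≤ a → c ≠ 0 → AEStronglyMeasurable (fun x : ℝ => H (x + c * I))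
      (volume.restrict (uIoc (-a) a)) := fun c hc h0 =>
    ContinuousOn.aestronglyMeasurable (fun x hx => (ContinuousAt.comp
      (f := fun x : ℝ => (x + c * I : ℂ)) (hH _ (by simpa using mem x hx) (by simpa)
        (by simpa)).continuousAt (by fun_prop)).continuousWithinAt) measurableSet_uIoc
  have ver : ∀ c : ℝ, |c| ≤ a → AEStronglyMeasurable (fun y : ℝ => H (c + y * I))
      (volume.restrict (uIoc (-a) a)) := fun c hc => by
    rw [← Measure.restrict_congr_set (sdiff_null_ae_eq_self (measure_singleton (0 : ℝ)))]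
    exact ContinuousOn.aestronglyMeasurable (fun x hx => (ContinuousAt.comp
      (f := fun y : ℝ => (c + y * I : ℂ)) (hH _ (by simpa) (by simpa using mem x hx.1)
        (by simpa using hx.2)).continuousAt (by fun_prop)).continuousWithinAt)
      (measurableSet_uIoc.diff (measurableSet_singleton 0))
  have aa : |a| ≤ a := (abs_of_pos ha).le
  have na : |-a| ≤ a := by rwa [abs_neg]
  -- the four sides
  have sides : ∀ (F : ℂ → ℂ) (C : ℝ), (∀ c : ℝ, |c| ≤ a → c ≠ 0 → AEStronglyMeasurable
      (fun x : ℝ => F (x + c * I)) (volume.restrict (uIoc (-a) a))) →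
      (∀ c : ℝ, |c| ≤ a → AEStronglyMeasurable (fun y : ℝ => F (c + y * I))
        (volume.restrict (uIoc (-a) a))) → (∀ t : ℂ, |t.re| ≤ a → |t.im| ≤ a → ‖F t‖ ≤ C) →
      ∀ s : ℂ, |s.re| < a → |s.im| < a →
      (∀ c : ℝ, |c| = a → IntervalIntegrable (fun x : ℝ => F (x + c * I) / (x + c * I - s))
        volume (-a) a ∧ DifferentiableAt ℂ
          (fun s => ∫ x : ℝ in (-a)..a, F (x + c * I) / (x + c * I - s)) s) ∧
      (∀ c : ℝ, |c| = a → IntervalIntegrable (fun y : ℝ => F (c + y * I) / (c + y * I - s))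
        volume (-a) a ∧ DifferentiableAt ℂ
          (fun s => ∫ y : ℝ in (-a)..a, F (c + y * I) / (c + y * I - s)) s) := by
    intro F C h1 h2 h3 s hs1 hs2
    refine ⟨fun c hc => cau (γ := fun x : ℝ => (x + c * I : ℂ)) (M := C) (d := a - |s.im|)
      (h1 c hc.le (by rintro rfl; simp at hc; linarith))
      (fun y hy => h3 _ (by simpa using mem y hy) (by simpa using hc.le)) (by fun_prop) (by linarith)
      (fun y _ => le_trans ?_ (abs_im_le_norm _)),
      fun c hc => cau (γ := fun y : ℝ => (c + y * I : ℂ)) (M := C) (d := a - |s.re|)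
      (h2 c hc.le)
      (fun y hy => h3 _ (by simpa using hc.le) (by simpa using mem y hy)) (by fun_prop) (by linarith)
      (fun y _ => le_trans ?_ (abs_re_le_norm _))⟩
    · simpa [hc] using abs_sub_abs_le_abs_sub c s.im
    · simpa [hc] using abs_sub_abs_le_abs_sub c s.re
  have sH := sides H M hor ver hM
  have s1 := sides (fun _ => 1) 1 (fun _ _ _ => aestronglyMeasurable_const)
    (fun _ _ => aestronglyMeasurable_const) (by simp)
  have pa : |a| = a := abs_of_pos ha
  have pn : |-a| = a := by rwa [abs_neg]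
  let K : ℂ → ℂ := fun s => B a fun t => H t / (t - s)
  let N : ℂ → ℂ := fun s => B a fun t => 1 / (t - s)
  have Kd : ∀ s : ℂ, |s.re| < a → |s.im| < a → DifferentiableAt ℂ K s := fun s h1 h2 =>
    ((((sH s h1 h2).1 _ pn).2.sub ((sH s h1 h2).1 _ pa).2).add
      (((sH s h1 h2).2 _ pa).2.const_mul I)).sub (((sH s h1 h2).2 _ pn).2.const_mul I)
  have Nd : ∀ s : ℂ, |s.re| < a → |s.im| < a → DifferentiableAt ℂ N s := fun s h1 h2 =>
    ((((s1 s h1 h2).1 _ pn).2.sub ((s1 s h1 h2).1 _ pa).2).add
      (((s1 s h1 h2).2 _ pa).2.const_mul I)).sub (((s1 s h1 h2).2 _ pn).2.const_mul I)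
  have N0 : ∀ s : ℂ, |s.re| < a → |s.im| < a → N s ≠ 0 := by
    intro s h1 h2 h0
    obtain ⟨r1, r2⟩ := abs_lt.1 h1
    obtain ⟨i1, i2⟩ := abs_lt.1 h2
    have q : ∀ p : ℂ, p.re ≠ 0 ∨ p.im ≠ 0 → 0 < normSq p := fun p hp =>
      normSq_pos.2 (by rintro rfl; simp at hp)
    have p1 := pos_part imCLM ha ((s1 s h1 h2).1 _ pn).1 fun y => by
      rw [imCLM_apply, one_div, inv_im]
      exact div_pos (by simp; linarith) (q _ (Or.inr (by simp; linarith)))
    have p2 := pos_part (-imCLM) ha ((s1 s h1 h2).1 _ pa).1 fun y => by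
      rw [neg_apply, imCLM_apply, one_div, inv_im, neg_div, neg_neg]
      exact div_pos (by simp; linarith) (q _ (Or.inr (by simp; linarith)))
    have p3 := pos_part reCLM ha ((s1 s h1 h2).2 _ pa).1 fun y => by
      rw [reCLM_apply, one_div, inv_re]
      exact div_pos (by simp; linarith) (q _ (Or.inl (by simp; linarith)))
    have p4 := pos_part (-reCLM) ha ((s1 s h1 h2).2 _ pn).1 fun y => by
      rw [neg_apply, reCLM_apply, one_div, inv_re, ← neg_div]
      exact div_pos (by simp; linarith) (q _ (Or.inl (by simp; linarith)))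
    have := congrArg im h0
    simp only [neg_apply, imCLM_apply, reCLM_apply] at p1 p2 p3 p4
    simp only [N, B, sub_im, add_im, mul_im, I_re, I_im, zero_mul, one_mul, zero_add, zero_im] at this
    linarith
  have M0 : 0 ≤ M := (norm_nonneg _).trans (hM 0 (by simpa using ha.le) (by simpa using ha.le))
  have key : ∀ s : ℂ, |s.re| < a → |s.im| < a → s.im ≠ 0 → K s = H s * N s := by
    intro s h1 h2 h3
    let S : Set ℂ := {t | |t.re| ≤ a ∧ |t.im| ≤ a ∧ t.im ≠ 0}
    have hS : S ∈ 𝓝 s := by
      filter_upwards [(continuous_re.abs.continuousAt (x := s)).eventually (gt_mem_nhds h1),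
        (continuous_im.abs.continuousAt (x := s)).eventually (gt_mem_nhds h2),
        (continuous_im.continuousAt (x := s)).eventually_ne h3] with t a1 a2 a3 using ⟨a1.le, a2.le, a3⟩
    have hD : DifferentiableOn ℂ (dslope H s) S := (differentiableOn_dslope hS).2 fun t ht =>
      (hH t ht.1 ht.2.1 ht.2.2).differentiableWithinAt
    let D : ℂ → ℂ := fun t => H t / (t - s) - H s * (1 / (t - s))
    have eD : ∀ t, t ≠ s → dslope H s t = D t := fun t ht => by
      rw [dslope_of_ne _ ht, slope_def_field]; simp only [D]; ring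
    have e1 : ∀ c : ℝ, |c| ≠ |s.im| → (fun x : ℝ => dslope H s (x + c * I)) = fun x : ℝ => D (x + c * I) :=
      fun c hc => funext fun x => eD _ (by rintro rfl; simp at hc)
    have e2 : ∀ c : ℝ, |c| = a → (fun y : ℝ => dslope H s (c + y * I)) = fun y : ℝ => D (c + y * I) :=
      fun c hc => funext fun x => eD _ (by rintro rfl; simp [hc] at h1)
    have iv : ∀ c : ℝ, |c| = a → IntervalIntegrable (fun y : ℝ => D (c + y * I)) volume (-a) a :=
      fun c hc => ((sH s h1 h2).2 c hc).1.sub (((s1 s h1 h2).2 c hc).1.const_mul _)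
    have Db : ∀ (t : ℂ) (d : ℝ), |t.re| ≤ a → |t.im| ≤ a → 0 < d → d ≤ ‖t - s‖ → ‖D t‖ ≤ 2 * M / d := by
      intro t d a1 a2 a3 a4
      have : D t = (H t - H s) / (t - s) := by simp only [D]; ring
      rw [this, norm_div]
      exact div_le_div₀ (by positivity) ((norm_sub_le _ _).trans (by
        linarith [hM t a1 a2, hM s h1.le h2.le])) a3 a4
    have η0 : 0 < |s.im| / 2 := by have := abs_pos.2 h3; positivity
    have eB : ∀ y ∈ Ioo 0 (|s.im| / 2), B a D
        = -(∫ x : ℝ in (-a)..a, D (x + y * I) - D (x + (-y : ℝ) * I))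
          + I * (∫ v : ℝ in (-y)..y, D (a + v * I)) - I * ∫ v : ℝ in (-y)..y, D ((-a : ℝ) + v * I) := by
      intro y hy
      have ya : y < a := by linarith [hy.2, abs_nonneg s.im]
      have R1 := integral_boundary_rect_eq_zero_of_differentiableOn (dslope H s) ⟨-a, -a⟩ ⟨a, -y⟩
        (hD.mono fun t ht => by
          obtain ⟨t1, t2⟩ := ht
          rw [mem_preimage, uIcc_of_le (by simp; linarith)] at t1 t2
          exact ⟨abs_le.2 t1, abs_le.2 ⟨t2.1, by linarith [t2.2, hy.1]⟩, by linarith [t2.2, hy.1]⟩)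
      have R2 := integral_boundary_rect_eq_zero_of_differentiableOn (dslope H s) ⟨-a, y⟩ ⟨a, a⟩
        (hD.mono fun t ht => by
          obtain ⟨t1, t2⟩ := ht
          rw [mem_preimage, uIcc_of_le (by simp; linarith)] at t1 t2
          exact ⟨abs_le.2 t1, abs_le.2 ⟨by linarith [t2.1, hy.1], t2.2⟩, by linarith [t2.1, hy.1]⟩)
      have y1 : |y| ≠ |s.im| := by rw [abs_of_pos hy.1]; linarith [hy.2]
      have y2 : |-y| ≠ |s.im| := by rwa [abs_neg]
      simp only [smul_eq_mul] at R1 R2
      rw [e1 _ (by rw [pn]; exact h2.ne'), e1 _ y2, e2 _ pa, e2 _ pn] at R1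
      rw [e1 _ y1, e1 _ (by rw [pa]; exact h2.ne'), e2 _ pa, e2 _ pn] at R2
      have sp : ∀ c : ℝ, |c| = a → ∫ v : ℝ in (-a)..a, D (c + v * I)
          = (∫ v : ℝ in (-a)..(-y), D (c + v * I)) + (∫ v : ℝ in (-y)..y, D (c + v * I))
            + ∫ v : ℝ in y..a, D (c + v * I) := by
        intro c hc
        have sub : ∀ p q : ℝ, -a ≤ p → p ≤ q → q ≤ a →
            IntervalIntegrable (fun v : ℝ => D (c + v * I)) volume p q := fun p q a1 a2 a3 =>
          (iv c hc).mono_set (by rw [uIcc_of_le a2, uIcc_of_le haa]; exact Icc_subset_Icc a1 a3)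
        have := hy.1
        rw [intervalIntegral.integral_add_adjacent_intervals (sub _ _ le_rfl (by linarith) (by linarith))
          (sub _ _ (by linarith) (by linarith) ya.le),
          intervalIntegral.integral_add_adjacent_intervals (sub _ _ le_rfl (by linarith) ya.le)
          (sub _ _ (by linarith) ya.le le_rfl)]
      have ih : ∀ c : ℝ, |c| = y → IntervalIntegrable (fun x : ℝ => D (x + c * I)) volume (-a) a := by
        intro c hc
        rw [← e1 c (by rw [hc]; linarith [hy.2])]
        refine ContinuousOn.intervalIntegrable (hD.continuousOn.comp (by fun_prop) fun x hx => ?_)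
        rw [uIcc_of_le haa] at hx
        exact ⟨by simpa using abs_le.2 hx, by simpa [hc] using ya.le, by
          simp only [add_im, ofReal_im, mul_im, ofReal_re, I_im, mul_one, I_re, mul_zero, add_zero,
            zero_add]
          rintro rfl; simp at hc; linarith [hy.1]⟩
      rw [intervalIntegral.integral_sub (ih y (abs_of_pos hy.1)) (ih (-y) (by
        rw [abs_neg, abs_of_pos hy.1])), B, sp _ pa, sp _ pn]
      linear_combination R1 + R2
    have ev : ∀ᶠ y in 𝓝[>] (0 : ℝ), y ∈ Ioo 0 (|s.im| / 2) := Ioo_mem_nhdsGT η0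
    have t1 : Tendsto (fun y : ℝ => ∫ x : ℝ in (-a)..a, D (x + y * I) - D (x + (-y : ℝ) * I))
        (𝓝[>] 0) (𝓝 (∫ _ : ℝ in (-a)..a, (0 : ℂ))) := by
      refine intervalIntegral.tendsto_integral_filter_of_dominated_convergence
        (fun _ => 2 * M / (|s.im| / 2) + 2 * M / (|s.im| / 2)) ?_ ?_ intervalIntegrable_const ?_
      · filter_upwards [ev] with y hy
        have ya : y ≤ a := by linarith [hy.2, abs_nonneg s.im]
        have m : ∀ c : ℝ, |c| ≤ a → c ≠ 0 → AEStronglyMeasurable (fun x : ℝ => D (x + c * I))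
            (volume.restrict (uIoc (-a) a)) := fun c a1 a2 =>
          (((hor c a1 a2).aemeasurable.div (by fun_prop)).sub (by fun_prop)).aestronglyMeasurable
        exact (m y (by rwa [abs_of_pos hy.1]) hy.1.ne').sub
          (m (-y) (by rwa [abs_neg, abs_of_pos hy.1]) (neg_ne_zero.2 hy.1.ne'))
      · filter_upwards [ev] with y hy
        have ya : y ≤ a := by linarith [hy.2, abs_nonneg s.im]
        refine Eventually.of_forall fun x hx => (norm_sub_le _ _).trans (add_le_add ?_ ?_)
        · refine Db _ _ (by simpa using mem x hx) (by simpa [abs_of_pos hy.1]) η0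
            (le_trans ?_ (abs_im_le_norm _))
          have := abs_sub_abs_le_abs_sub s.im y
          rw [abs_of_pos hy.1, abs_sub_comm] at this
          simp; linarith [hy.2]
        · refine Db _ _ (by simpa using mem x hx) (by simpa [abs_of_pos hy.1]) η0
            (le_trans ?_ (abs_im_le_norm _))
          have := abs_sub_abs_le_abs_sub s.im (-y)
          rw [abs_neg, abs_of_pos hy.1, abs_sub_comm] at this
          simp; linarith [hy.2]
      · filter_upwards [hl] with x ⟨w, w1, w2⟩ _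
        have x0 : (x : ℂ) - s ≠ 0 := fun h => h3 (by simpa using congrArg im h)
        have c1 : Tendsto (fun y : ℝ => (x + y * I - s : ℂ)) (𝓝[>] 0) (𝓝 (x - s)) := by
          have : Continuous fun y : ℝ => (x + y * I - s : ℂ) := by fun_prop
          simpa using (this.tendsto 0).mono_left nhdsWithin_le_nhds
        have c2 : Tendsto (fun y : ℝ => (x + (-y : ℝ) * I - s : ℂ)) (𝓝[>] 0) (𝓝 (x - s)) := by
          have : Continuous fun y : ℝ => (x + (-y : ℝ) * I - s : ℂ) := by fun_prop
          simpa using (this.tendsto 0).mono_left nhdsWithin_le_nhds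
        have := ((w1.div c1 x0).sub ((tendsto_const_nhds (x := (1 : ℂ)).div c1 x0).const_mul (H s))).sub
          ((w2.div c2 x0).sub ((tendsto_const_nhds (x := (1 : ℂ)).div c2 x0).const_mul (H s)))
        rw [sub_self] at this
        exact this
    have t2 : ∀ c : ℝ, |c| = a → Tendsto (fun y : ℝ => ∫ v : ℝ in (-y)..y, D (c + v * I))
        (𝓝[>] 0) (𝓝 0) := by
      intro c hc
      have tt : Tendsto (fun y : ℝ => 2 * M / (a - |s.re|) * |y - -y|) (𝓝[>] 0) (𝓝 0) := by
        have : Continuous fun y : ℝ => 2 * M / (a - |s.re|) * |y - -y| := by fun_prop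
        simpa using (this.tendsto 0).mono_left nhdsWithin_le_nhds
      refine squeeze_zero_norm' ?_ tt
      filter_upwards [ev] with y hy
      refine intervalIntegral.norm_integral_le_of_norm_le_const fun v hv => ?_
      rw [uIoc_of_le (by linarith [hy.1])] at hv
      refine Db _ _ (by simpa using hc.le) (by
        simpa using abs_le.2 ⟨by linarith [hv.1, hy.2, abs_nonneg s.im],
          by linarith [hv.2, hy.2, abs_nonneg s.im]⟩) (by linarith) (le_trans ?_ (abs_re_le_norm _))
      simpa [hc] using abs_sub_abs_le_abs_sub c s.re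
    have t3 := (t1.neg.add ((t2 a pa).const_mul I)).sub ((t2 (-a) pn).const_mul I)
    have B0 : B a D = 0 := by
      have := tendsto_nhds_unique (tendsto_const_nhds.congr' (ev.mono eB)) t3
      simpa using this
    have : B a D = K s - H s * N s := by
      simp only [K, N, B, D]
      rw [intervalIntegral.integral_sub ((sH s h1 h2).1 _ pn).1 (((s1 s h1 h2).1 _ pn).1.const_mul _),
        intervalIntegral.integral_sub ((sH s h1 h2).1 _ pa).1 (((s1 s h1 h2).1 _ pa).1.const_mul _),
        intervalIntegral.integral_sub ((sH s h1 h2).2 _ pn).1 (((s1 s h1 h2).2 _ pn).1.const_mul _),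
        intervalIntegral.integral_sub ((sH s h1 h2).2 _ pa).1 (((s1 s h1 h2).2 _ pa).1.const_mul _)]
      simp only [intervalIntegral.integral_const_mul]
      ring
    rw [B0] at this
    linear_combination -this
  have eq : ∀ s : ℂ, |s.re| < a → |s.im| < a → s.im ≠ 0 → K s / N s = H s := fun s h1 h2 h3 => by
    rw [key s h1 h2 h3, mul_div_cancel_right₀ _ (N0 s h1 h2)]
  refine ⟨fun s => K s / N s, fun s h1 h2 =>
    ⟨(Kd s h1 h2).div (Nd s h1 h2) (N0 s h1 h2), eq s h1 h2, ?_⟩⟩
  by_cases h3 : s.im = 0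
  · have c := ((Kd s h1 h2).div (Nd s h1 h2) (N0 s h1 h2)).continuousAt.norm
    have c1 : Tendsto (fun y : ℝ => (s + y * I : ℂ)) (𝓝[>] 0) (𝓝 s) := by
      have : Continuous fun y : ℝ => (s + y * I : ℂ) := by fun_prop
      simpa using (this.tendsto 0).mono_left nhdsWithin_le_nhds
    refine le_of_tendsto (c.tendsto.comp c1) ?_
    filter_upwards [Ioo_mem_nhdsGT ha] with y hy
    have b1 : |(s + y * I).re| < a := by simpa
    have b2 : |(s + y * I).im| < a := by simpa [h3, abs_of_pos hy.1] using hy.2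
    have := eq _ b1 b2 (by simpa [h3] using hy.1.ne')
    simp only [Function.comp, Pi.div_apply, this]
    exact hM _ b1.le b2.le
  · simp only [eq s h1 h2 h3]; exact hM s h1.le h2.le

end Pool.Agent.H99.SH
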