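import Pool.Agent.H99.SH1

set_option autoImplicit false

open MeasureTheory Filter Topology Complex Set Metric

namespace Pool.Agent.H99.SH

def Rad (Θ : ℂ → ℂ) : Prop := ∀ᵐ θ : ℝ, ∃ w : ℂ, ‖w‖ = 1 ∧
  Tendsto (fun r : ℝ => Θ ((r : ℂ) * exp ((θ : ℂ) * I))) (𝓝[<] 1) (𝓝 w)

theorem cont {Θ : ℂ → ℂ} (hd : DifferentiableOn ℂ Θ (ball 0 1)) (h1 : ∀ z ∈ ball (0 : ℂ) 1, ‖Θ z‖ ≤ 1)
    (hr : Rad Θ) {ζ : ℂ} (hζ : ‖ζ‖ = 1) {R ε : ℝ} (hR : 0 < R) (hR1 : R ≤ 1) (hε : 0 < ε) (hε1 : ε ≤ 1)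
    (hb : ∀ z ∈ ball (0 : ℂ) 1, ‖z - ζ‖ < R → ε ≤ ‖Θ z‖) :
    ∃ g : ℂ → ℂ, DifferentiableOn ℂ g (ball ζ (R / 8)) ∧ EqOn g Θ (ball ζ (R / 8) ∩ ball 0 1) ∧
      ∀ w ∈ ball ζ (R / 8), ‖g w‖ ≤ ε⁻¹ := by
  obtain ⟨x₀, rfl⟩ := (norm_eq_one_iff ζ).1 hζ
  set ζ := exp (x₀ * I) with hζe
  have ζ0 : ζ ≠ 0 := exp_ne_zero _
  let h : ℂ → ℂ := fun s => Θ (ζ * exp (s * I))
  have hin : ∀ s : ℂ, 0 < s.im → ζ * exp (s * I) ∈ ball (0 : ℂ) 1 := fun s hs => by
    rw [mem_ball_zero_iff, norm_mul, hζ, one_mul, norm_exp, Real.exp_lt_one_iff]; simpa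
  have hdiff : ∀ s : ℂ, 0 < s.im → DifferentiableAt ℂ h s := fun s hs =>
    DifferentiableAt.comp (g := Θ) s (hd.differentiableAt (isOpen_ball.mem_nhds (hin s hs)))
      (by fun_prop)
  have hlow : ∀ s : ℂ, 0 < s.im → |s.re| ≤ R / 5 → |s.im| ≤ R / 5 → ε ≤ ‖h s‖ := fun s hs a1 a2 => by
    refine hb _ (hin s hs) ?_
    have e : ζ * exp (s * I) - ζ = ζ * (exp (s * I) - 1) := by ring
    have n : ‖s * I‖ ≤ 2 * (R / 5) := by
      rw [norm_mul, norm_I, mul_one]; linarith [norm_le_abs_re_add_abs_im s]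
    rw [e, norm_mul, hζ, one_mul]
    linarith [norm_exp_sub_one_le (x := s * I) (by linarith)]
  let H : ℂ → ℂ := fun s => if 0 < s.im then h s else
    if s.im < 0 then ((starRingEnd ℂ) (h ((starRingEnd ℂ) s)))⁻¹ else 0
  have i1 : 1 ≤ ε⁻¹ := (one_le_inv₀ hε).2 hε1
  obtain ⟨G, hG⟩ := glue (H := H) (a := R / 5) (M := ε⁻¹) (by positivity)
    (fun t a1 a2 a3 => by
      rcases lt_or_gt_of_ne a3 with h0 | h0
      · have c := (hdiff ((starRingEnd ℂ) t) (by simpa)).conj_conj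
        rw [Complex.conj_conj] at c
        have n0 : (starRingEnd ℂ) (h ((starRingEnd ℂ) t)) ≠ 0 := by
          have := hlow ((starRingEnd ℂ) t) (by simpa) (by simpa) (by simpa)
          rw [map_ne_zero, ← norm_pos_iff]; linarith
        refine (c.inv n0).congr_of_eventuallyEq ?_
        filter_upwards [continuous_im.continuousAt.eventually (gt_mem_nhds h0)] with u hu
        simp [H, hu, hu.not_gt]
      · refine (hdiff t h0).congr_of_eventuallyEq ?_
        filter_upwards [continuous_im.continuousAt.eventually (lt_mem_nhds h0)] with u hu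
        simp [H, hu])
    (fun t a1 a2 => by
      simp only [H]
      split_ifs with b1 b2
      · exact (h1 _ (hin t b1)).trans i1
      · rw [norm_inv, Complex.norm_conj]
        exact inv_anti₀ hε (hlow _ (by simpa) (by simpa) (by simpa))
      · simp [hε.le])
    (by
      filter_upwards [(measurePreserving_add_left volume x₀).quasiMeasurePreserving.ae hr]
        with x ⟨w, w1, w2⟩
      have t : Tendsto (fun y : ℝ => Real.exp (-y)) (𝓝[>] 0) (𝓝[<] 1) := by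
        refine tendsto_nhdsWithin_iff.2 ⟨?_, ?_⟩
        · have : Continuous fun y : ℝ => Real.exp (-y) := by fun_prop
          simpa using (this.tendsto 0).mono_left nhdsWithin_le_nhds
        · filter_upwards [self_mem_nhdsWithin] with y hy
          simpa using hy
      have t2 : Tendsto (fun y : ℝ => h (x + y * I)) (𝓝[>] 0) (𝓝 w) := by
        refine (w2.comp t).congr fun y => ?_
        simp only [Function.comp, h, hζe]
        congr 1
        push_cast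
        rw [← Complex.exp_add, ← Complex.exp_add]; congr 1
        linear_combination (-y : ℂ) * I_sq
      refine ⟨w, t2.congr' ?_, ?_⟩
      · filter_upwards [self_mem_nhdsWithin] with y hy
        have : 0 < y := hy
        simp [H, this]
      · have w0 : (starRingEnd ℂ) w ≠ 0 := by rw [map_ne_zero, ← norm_pos_iff, w1]; exact one_pos
        have e : ((starRingEnd ℂ) w)⁻¹ = w := by
          rw [← map_inv₀, inv_eq_conj w1, Complex.conj_conj]
        have := ((continuous_conj.tendsto w).comp t2).inv₀ w0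
        rw [e] at this
        refine this.congr' ?_
        filter_upwards [self_mem_nhdsWithin] with y hy
        have : 0 < y := hy
        simp [H, this, this.not_gt, conj_ofReal])
  have sm : ∀ w ∈ ball ζ (R / 8), w / ζ ∈ slitPlane ∧ |(-I * log (w / ζ)).re| < R / 5 ∧
      |(-I * log (w / ζ)).im| < R / 5 := fun w hw => by
    have e : w / ζ = 1 + (w - ζ) / ζ := by field_simp; ring
    have n : ‖(w - ζ) / ζ‖ < R / 8 := by rwa [norm_div, hζ, div_one, ← dist_eq_norm, ← mem_ball]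
    have n2 : ‖-I * log (w / ζ)‖ < R / 5 := by
      rw [norm_mul, norm_neg, norm_I, one_mul, e]
      linarith [norm_log_one_add_half_le_self (z := (w - ζ) / ζ) (by linarith)]
    exact ⟨by rw [e]; exact mem_slitPlane_of_norm_lt_one (by linarith),
      (abs_re_le_norm _).trans_lt n2, (abs_im_le_norm _).trans_lt n2⟩
  refine ⟨fun w => G (-I * log (w / ζ)), fun w hw => ?_, fun w hw => ?_,
    fun w hw => (hG _ (sm w hw).2.1 (sm w hw).2.2).2.2⟩
  · exact (DifferentiableAt.comp (g := G) w (hG _ (sm w hw).2.1 (sm w hw).2.2).1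
      ((DifferentiableAt.clog (f := fun w => w / ζ) (by fun_prop) (sm w hw).1).const_mul _)).differentiableWithinAt
  · have e : ζ * exp (-I * log (w / ζ) * I) = w := by
      have : -I * log (w / ζ) * I = log (w / ζ) := by linear_combination (-log (w / ζ)) * I_sq
      rw [this, exp_log (slitPlane_ne_zero (sm w hw.1).1)]; field_simp
    have p : 0 < (-I * log (w / ζ)).im := by
      have := hw.2
      rw [← e, mem_ball_zero_iff, norm_mul, hζ, one_mul, norm_exp, Real.exp_lt_one_iff] at this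
      simpa using this
    simp only
    rw [(hG _ (sm w hw.1).2.1 (sm w hw.1).2.2).2.1 p.ne']
    simp only [H, if_pos p, h, e]

theorem deriv_uniq {Θ g g' : ℂ → ℂ} {ζ : ℂ} (hζ : ‖ζ‖ = 1) {r r' : ℝ} (hr : 0 < r) (hr' : 0 < r')
    (d : DifferentiableOn ℂ g (ball ζ r)) (e : EqOn g Θ (ball ζ r ∩ ball 0 1))
    (d' : DifferentiableOn ℂ g' (ball ζ r')) (e' : EqOn g' Θ (ball ζ r' ∩ ball 0 1)) :
    deriv g ζ = deriv g' ζ := by
  set ρ := min (min r r') 1
  have ρ0 : 0 < ρ := by positivity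
  have s1 : ball ζ ρ ⊆ ball ζ r := ball_subset_ball ((min_le_left _ _).trans (min_le_left _ _))
  have s2 : ball ζ ρ ⊆ ball ζ r' := ball_subset_ball ((min_le_left _ _).trans (min_le_right _ _))
  have ρ1 : ρ ≤ 1 := min_le_right _ _
  have m1 : ((1 - ρ / 2 : ℝ) : ℂ) * ζ ∈ ball ζ ρ := by
    have : ((1 - ρ / 2 : ℝ) : ℂ) * ζ - ζ = ((-(ρ / 2) : ℝ) : ℂ) * ζ := by push_cast; ring
    rw [mem_ball, dist_eq_norm, this, norm_mul, hζ, Complex.norm_real, norm_neg,
      Real.norm_of_nonneg (by positivity)]; linarith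
  have m2 : ((1 - ρ / 2 : ℝ) : ℂ) * ζ ∈ ball (0 : ℂ) 1 := by
    rw [mem_ball_zero_iff, norm_mul, hζ, Complex.norm_real, Real.norm_of_nonneg (by linarith)]
    linarith
  have := ((d.mono s1).analyticOnNhd isOpen_ball).eqOn_of_preconnected_of_eventuallyEq
    ((d'.mono s2).analyticOnNhd isOpen_ball) (convex_ball _ _).isPreconnected m1 (by
      filter_upwards [(isOpen_ball.inter isOpen_ball).mem_nhds ⟨m1, m2⟩] with u hu
      rw [e ⟨s1 hu.1, hu.2⟩, e' ⟨s2 hu.1, hu.2⟩])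
  exact (this.eventuallyEq_of_mem (ball_mem_nhds _ ρ0)).deriv_eq

theorem rad_lim {Θ g : ℂ → ℂ} {ζ ξ : ℂ} {r : ℝ} (hξ : ‖ξ‖ = 1) (hm : ξ ∈ ball ζ r)
    (e : EqOn g Θ (ball ζ r ∩ ball 0 1)) :
    ∀ᶠ t : ℝ in 𝓝[<] 1, g (t * ξ) = Θ (t * ξ) ∧ 0 < t ∧ t < 1 := by
  have c : Tendsto (fun t : ℝ => (t * ξ : ℂ)) (𝓝[<] 1) (𝓝 ξ) := by
    have : Continuous fun t : ℝ => (t * ξ : ℂ) := by fun_prop
    simpa using (this.tendsto 1).mono_left nhdsWithin_le_nhds
  filter_upwards [c.eventually (isOpen_ball.mem_nhds hm), Ioo_mem_nhdsLT (zero_lt_one' ℝ)] with t h1 h2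
  refine ⟨e ⟨h1, ?_⟩, h2⟩
  rw [mem_ball_zero_iff, norm_mul, hξ, Complex.norm_real, Real.norm_of_nonneg h2.1.le]
  linarith [h2.2]

theorem norm_one {Θ g : ℂ → ℂ} (hr : Rad Θ) {ζ : ℂ} (hζ : ‖ζ‖ = 1) {r : ℝ} (h0 : 0 < r)
    (d : DifferentiableOn ℂ g (ball ζ r)) (e : EqOn g Θ (ball ζ r ∩ ball 0 1)) : ‖g ζ‖ = 1 := by
  obtain ⟨x₀, rfl⟩ := (norm_eq_one_iff ζ).1 hζ
  have c0 : ContinuousAt (fun θ : ℝ => exp (θ * I)) x₀ := by fun_prop
  have c1 : ContinuousAt (fun θ : ℝ => ‖g (exp (θ * I))‖) x₀ :=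
    (ContinuousAt.comp (g := g) (f := fun θ : ℝ => exp (θ * I)) (d.differentiableAt (ball_mem_nhds _ h0)).continuousAt c0).norm
  refine tendsto_nhds_unique_of_frequently_eq c1 tendsto_const_nhds ?_
  refine ((mem_closure_iff_frequently.1 (Measure.dense_of_ae hr x₀)).and_eventually
    (c0.eventually (ball_mem_nhds _ h0))).mono ?_
  rintro θ ⟨⟨w, w1, w2⟩, hθ⟩
  have hn : ‖exp (θ * I)‖ = 1 := norm_exp_ofReal_mul_I θ
  have c : Tendsto (fun t : ℝ => (t * exp (θ * I) : ℂ)) (𝓝[<] 1) (𝓝 (exp (θ * I))) := by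
    have : Continuous fun t : ℝ => (t * exp (θ * I) : ℂ) := by fun_prop
    simpa using (this.tendsto 1).mono_left nhdsWithin_le_nhds
  have := ((d.differentiableAt (isOpen_ball.mem_nhds hθ)).continuousAt.tendsto.comp c).congr'
    ((rad_lim hn hθ e).mono fun t ht => ht.1)
  rw [tendsto_nhds_unique this w2, w1]

theorem mob (a b : ℂ) : ‖1 - (starRingEnd ℂ) a * b‖ ^ 2 - ‖b - a‖ ^ 2 = (1 - ‖a‖ ^ 2) * (1 - ‖b‖ ^ 2) := by
  simp only [← normSq_eq_norm_sq, normSq_apply]; simp; ring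

theorem mob_ne {a b : ℂ} (ha : ‖a‖ < 1) (hb : ‖b‖ ≤ 1) : 1 - ‖a‖ ≤ ‖1 - (starRingEnd ℂ) a * b‖ := by
  have := norm_sub_norm_le (1 : ℂ) ((starRingEnd ℂ) a * b)
  have e : ‖(1 : ℂ)‖ = 1 := by simp
  simp only [norm_mul, e, Complex.norm_conj] at this
  nlinarith [norm_nonneg a]

theorem pick {Θ : ℂ → ℂ} (hd : DifferentiableOn ℂ Θ (ball 0 1)) (h1 : ∀ z ∈ ball (0 : ℂ) 1, ‖Θ z‖ ≤ 1)
    {z w : ℂ} (hz : ‖z‖ < 1) (hw : ‖w‖ < 1) (ha : ‖Θ z‖ < 1 / 2) :
    (1 - ‖z‖ ^ 2) * (1 - ‖w‖ ^ 2) ≤ 4 * (1 - ‖Θ w‖ ^ 2) * ‖1 - (starRingEnd ℂ) z * w‖ ^ 2 := by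
  have lt : ∀ {a b : ℂ}, ‖a‖ < 1 → ‖b‖ < 1 → ‖(b - a) / (1 - (starRingEnd ℂ) a * b)‖ < 1 := by
    intro a b ha hb
    have := mob a b
    have p : 0 < ‖1 - (starRingEnd ℂ) a * b‖ := by linarith [mob_ne ha hb.le]
    rw [norm_div, div_lt_one p]
    refine lt_of_pow_lt_pow_left₀ 2 p.le ?_
    have : 0 < (1 - ‖a‖ ^ 2) * (1 - ‖b‖ ^ 2) :=
      mul_pos (by nlinarith [norm_nonneg a]) (by nlinarith [norm_nonneg b])
    linarith
  let φ : ℂ → ℂ := fun u => (u - -z) / (1 - (starRingEnd ℂ) (-z) * u)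
  have hz' : ‖-z‖ < 1 := by simpa
  have φm : ∀ u ∈ ball (0 : ℂ) 1, φ u ∈ ball (0 : ℂ) 1 := fun u hu =>
    mem_ball_zero_iff.2 (lt hz' (mem_ball_zero_iff.1 hu))
  have φd : DifferentiableOn ℂ φ (ball 0 1) := fun u hu => by
    refine (DifferentiableAt.div (by fun_prop) (by fun_prop) ?_).differentiableWithinAt
    rw [← norm_pos_iff]; linarith [mob_ne hz' (mem_ball_zero_iff.1 hu).le]
  set a := Θ z
  have a1 : ‖a‖ < 1 := by linarith
  have Td := hd.comp φd φm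
  let G : ℂ → ℂ := fun u => (Θ (φ u) - a) / (1 - (starRingEnd ℂ) a * Θ (φ u))
  have Gd : DifferentiableOn ℂ G (ball 0 1) :=
    (Td.sub_const a).div ((Td.const_mul _).const_sub 1) fun u hu => by
      rw [← norm_pos_iff]; exact lt_of_lt_of_le (by linarith) (mob_ne a1 (h1 _ (φm u hu)))
  have Gm : MapsTo G (ball 0 1) (closedBall 0 1) := fun u hu => by
    have b1 := h1 _ (φm u hu)
    have := mob a (Θ (φ u))
    have p : 0 < ‖1 - (starRingEnd ℂ) a * Θ (φ u)‖ := by linarith [mob_ne a1 b1]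
    rw [mem_closedBall_zero_iff, norm_div, div_le_one p]
    refine le_of_sq_le_sq ?_ p.le
    have : 0 ≤ (1 - ‖a‖ ^ 2) * (1 - ‖Θ (φ u)‖ ^ 2) :=
      mul_nonneg (by nlinarith [norm_nonneg a]) (by nlinarith [norm_nonneg (Θ (φ u))])
    linarith
  have p1 : 0 < ‖1 - (starRingEnd ℂ) z * w‖ := by linarith [mob_ne hz hw.le]
  have S := norm_le_norm_of_mapsTo_ball Gd Gm (by simp [G, φ, a]) (lt hz hw)
  have e : φ ((w - z) / (1 - (starRingEnd ℂ) z * w)) = w := by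
    have n1 : 1 - (starRingEnd ℂ) z * w ≠ 0 := norm_pos_iff.1 p1
    have n2 : 1 - (starRingEnd ℂ) z * z ≠ 0 := by
      rw [← norm_pos_iff]; linarith [mob_ne hz hz.le]
    have n3 : 1 - (starRingEnd ℂ) (-z) * ((w - z) / (1 - (starRingEnd ℂ) z * w))
        = (1 - (starRingEnd ℂ) z * z) / (1 - (starRingEnd ℂ) z * w) := by
      rw [map_neg]; field_simp; ring
    simp only [φ]
    rw [n3, div_eq_iff (div_ne_zero n2 n1), mul_div_assoc', eq_div_iff n1, sub_mul,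
      div_mul_cancel₀ _ n1]; ring
  simp only [G, e] at S
  have b1 := h1 w (mem_ball_zero_iff.2 hw)
  set b := Θ w
  have p2 : 1 / 2 ≤ ‖1 - (starRingEnd ℂ) a * b‖ := by linarith [mob_ne a1 b1]
  rw [norm_div, norm_div, div_le_div_iff₀ (by linarith) p1] at S
  have S2 := pow_le_pow_left₀ (by positivity) S 2
  rw [mul_pow, mul_pow] at S2
  have m1 := mob a b
  have m2 := mob z w
  set P := ‖1 - (starRingEnd ℂ) z * w‖ ^ 2
  set Q := ‖1 - (starRingEnd ℂ) a * b‖ ^ 2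
  have Q4 : 1 / 4 ≤ Q := by simp only [Q]; nlinarith
  have k1 : 0 ≤ (1 - ‖z‖ ^ 2) * (1 - ‖w‖ ^ 2) :=
    mul_nonneg (by nlinarith [norm_nonneg z]) (by nlinarith [norm_nonneg w])
  have k2 : 0 ≤ (1 - ‖b‖ ^ 2) * P := mul_nonneg (by nlinarith [norm_nonneg b]) (by positivity)
  have k3 : (1 - ‖z‖ ^ 2) * (1 - ‖w‖ ^ 2) * Q ≤ (1 - ‖a‖ ^ 2) * (1 - ‖b‖ ^ 2) * P := by
    rw [← m1, ← m2]; nlinarith
  nlinarith [mul_nonneg (sq_nonneg ‖a‖) k2]

theorem julia {Θ g : ℂ → ℂ} (hd : DifferentiableOn ℂ Θ (ball 0 1))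
    (h1 : ∀ z ∈ ball (0 : ℂ) 1, ‖Θ z‖ ≤ 1) (hr : Rad Θ) {ζ : ℂ} (hζ : ‖ζ‖ = 1) {r : ℝ} (h0 : 0 < r)
    (d : DifferentiableOn ℂ g (ball ζ r)) (e : EqOn g Θ (ball ζ r ∩ ball 0 1))
    {z : ℂ} (hz : ‖z‖ < 1) (ha : ‖Θ z‖ < 1 / 2) :
    1 - ‖z‖ ^ 2 ≤ 4 * ‖deriv g ζ‖ * ‖ζ - z‖ ^ 2 := by
  have g1 := norm_one hr hζ h0 d e
  have D : HasDerivAt (fun t : ℝ => g (t * ζ)) (deriv g ζ * ζ) 1 := by
    have a1 : HasDerivAt g (deriv g ζ) ((1 : ℂ) * ζ) := by
      simpa using (d.differentiableAt (ball_mem_nhds _ h0)).hasDerivAt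
    have a2 := (a1.comp (1 : ℂ) ((hasDerivAt_id (1 : ℂ)).mul_const ζ))
    have a3 : HasDerivAt (fun y : ℂ => g (y * ζ)) (deriv g ζ * ζ) ((1 : ℝ) : ℂ) := by
      simpa [Function.comp_def] using a2
    exact a3.comp_ofReal
  have t1 := ((hasDerivAt_iff_tendsto_slope.1 D).mono_left (nhdsLT_le_nhdsNE 1)).norm
  rw [norm_mul, hζ, mul_one] at t1
  have c : Continuous fun t : ℝ => ‖1 - (starRingEnd ℂ) z * (t * ζ)‖ ^ 2 := by fun_prop
  have t2 := (t1.const_mul 8).mul ((c.tendsto 1).mono_left nhdsWithin_le_nhds)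
  have c3 : Continuous fun t : ℝ => (1 - ‖z‖ ^ 2) * (1 + t) := by fun_prop
  have t3 := (c3.tendsto 1).mono_left (nhdsWithin_le_nhds (s := Iio 1))
  have := le_of_tendsto_of_tendsto t3 t2 (by
    filter_upwards [rad_lim hζ (mem_ball_self h0) e] with t ⟨e1, p0, p1⟩
    have n : ‖(t : ℂ) * ζ‖ = t := by rw [norm_mul, hζ, Complex.norm_real, Real.norm_of_nonneg p0.le, mul_one]
    have k := pick hd h1 hz (w := t * ζ) (by rwa [n]) ha
    have b1 := h1 (t * ζ) (by rwa [mem_ball_zero_iff, n])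
    rw [n, ← e1] at k
    rw [← e1] at b1
    have s : ‖slope (fun t : ℝ => g (t * ζ)) 1 t‖ * (1 - t) = ‖g (t * ζ) - g ζ‖ := by
      rw [slope_def_module, norm_smul, norm_inv, Real.norm_eq_abs, abs_sub_comm,
        abs_of_pos (by linarith)]
      have : 1 - t ≠ 0 := by linarith
      simp only [ofReal_one, one_mul]; field_simp
    have u := norm_sub_norm_le (g ζ) (g (t * ζ))
    rw [g1, norm_sub_rev, ← s] at u
    refine le_of_mul_le_mul_right ?_ (by linarith : 0 < 1 - t)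
    have v : 1 - ‖g (t * ζ)‖ ^ 2 ≤ 2 * (‖slope (fun t : ℝ => g (t * ζ)) 1 t‖ * (1 - t)) := by
      nlinarith [norm_nonneg (g (t * ζ))]
    have := mul_le_mul_of_nonneg_right v (sq_nonneg ‖1 - (starRingEnd ℂ) z * (t * ζ)‖)
    nlinarith)
  have e2 : ‖1 - (starRingEnd ℂ) z * (((1 : ℝ) : ℂ) * ζ)‖ = ‖ζ - z‖ := by
    have : 1 - (starRingEnd ℂ) z * (((1 : ℝ) : ℂ) * ζ) = (starRingEnd ℂ) (ζ - z) * ζ := by
      rw [map_sub, sub_mul, mul_comm ((starRingEnd ℂ) ζ), mul_conj, normSq_eq_norm_sq, hζ]; simp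
    rw [this, norm_mul, hζ, Complex.norm_conj, mul_one]
  rw [e2] at this
  linarith

theorem null_zero {f : ℂ → ℂ} (hd : DifferentiableOn ℂ f (ball 0 1))
    (hc : ContinuousOn f (closedBall 0 1)) {z₀ : ℂ} (hz₀ : z₀ ∈ ball (0 : ℂ) 1) (h0 : f z₀ ≠ 0) :
    volume {θ : ℝ | f (exp (θ * I)) = 0} = 0 := by
  by_contra hne
  set Z := {θ : ℝ | f (exp (θ * I)) = 0}
  have hT : ∀ θ : ℝ, exp (θ * I) ∈ closedBall (0 : ℂ) 1 := fun θ => by
    rw [mem_closedBall_zero_iff, norm_exp_ofReal_mul_I]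
  have Zm : MeasurableSet Z := (isClosed_eq (hc.comp_continuous (by fun_prop) hT)
    continuous_const).measurableSet
  have pi2 : 0 < 2 * Real.pi := by have := Real.pi_pos; positivity
  obtain ⟨η, hη⟩ : ∃ η : ℝ, volume (Z ∩ Ioc η (η + 2 * Real.pi)) ≠ 0 := by
    by_contra hh
    push Not at hh
    refine hne (measure_mono_null (t := ⋃ q : ℚ, Z ∩ Ioc (q : ℝ) (q + 2 * Real.pi)) (fun x hx => ?_)
      (measure_iUnion_null fun q => hh q))
    obtain ⟨q, h1, h2⟩ := exists_rat_btwn (show x - 2 * Real.pi < x by linarith)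
    exact mem_iUnion.2 ⟨q, hx, h2, by linarith⟩
  have fin : volume (Z ∩ Ioc η (η + 2 * Real.pi)) ≠ ⊤ :=
    ((measure_mono inter_subset_right).trans_lt measure_Ioc_lt_top).ne
  have a0 : 0 < volume.real (Z ∩ Ioc η (η + 2 * Real.pi)) := ENNReal.toReal_pos hη fin
  set a := volume.real (Z ∩ Ioc η (η + 2 * Real.pi)) with ha
  obtain ⟨M, hM⟩ := (isCompact_closedBall (0 : ℂ) 1).exists_bound_of_continuousOn hc
  have M0 : 0 < M := (norm_pos_iff.2 h0).trans_le (hM _ (ball_subset_closedBall hz₀))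
  have an := hd.analyticOnNhd isOpen_ball
  set m : ℝ := (((meromorphicOrderAt f 0).untop₀ : ℤ) : ℝ)
  set Bd := m * Real.log (1 / 2) + Real.log ‖meromorphicTrailingCoeffAt f 0‖
  have low : ∀ R : ℝ, 1 / 2 ≤ R → R < 1 → Bd ≤ Real.circleAverage (fun z => Real.log ‖f z‖) 0 R := by
    intro R r1 r2
    have aR : |R| = R := abs_of_pos (by linarith)
    have a1 : AnalyticOnNhd ℂ f (closedBall 0 |R|) := an.mono (by
      rw [aR]; exact closedBall_subset_ball r2)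
    have nn := MeromorphicOn.AnalyticOnNhd.divisor_nonneg a1
    rw [a1.meromorphicOn.circleAverage_log_norm (by linarith)]
    have e : MeromorphicOn.divisor f (closedBall 0 |R|) 0 = (meromorphicOrderAt f 0).untop₀ :=
      MeromorphicOn.divisor_apply a1.meromorphicOn (by simp)
    have m0 : 0 ≤ m := by simp only [m, ← e]; exact_mod_cast nn 0
    have s0 : 0 ≤ ∑ᶠ u, (MeromorphicOn.divisor f (closedBall 0 |R|) u : ℝ)
        * Real.log (R * ‖0 - u‖⁻¹) := finsum_nonneg fun u => by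
      by_cases hu : u ∈ closedBall (0 : ℂ) |R|
      · refine mul_nonneg (by exact_mod_cast nn u) ?_
        by_cases u0 : u = 0
        · simp [u0]
        · apply Real.log_nonneg
          rw [mem_closedBall_zero_iff, aR] at hu
          rwa [zero_sub, norm_neg, ← div_eq_mul_inv, one_le_div (norm_pos_iff.2 u0)]
      · simp [hu]
    have := mul_le_mul_of_nonneg_left (Real.log_le_log (by norm_num) r1) m0
    rw [e]
    linarith
  set T := (2 * Real.pi * Real.log M - 2 * Real.pi * Bd) / a + 1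
  obtain ⟨δ, δ0, hδ⟩ := Metric.uniformContinuousOn_iff.1
    ((isCompact_closedBall (0 : ℂ) 1).uniformContinuousOn_of_continuous hc) (M * Real.exp (-T))
    (by positivity)
  obtain ⟨R, r1, r2⟩ := exists_between (show max (1 / 2) (1 - δ) < (1 : ℝ) from
    max_lt (by norm_num) (by linarith))
  have r3 : 1 / 2 < R := (le_max_left _ _).trans_lt r1
  have r4 : 1 - δ < R := (le_max_right _ _).trans_lt r1
  have aR : |R| = R := abs_of_pos (by linarith)
  have a1 : AnalyticOnNhd ℂ f (closedBall 0 R) := an.mono (closedBall_subset_ball r2)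
  have cnt : (closedBall (0 : ℂ) R \ f ⁻¹' {0}ᶜ).Finite :=
    (isCompact_closedBall 0 R).finite_sdiff_of_mem_codiscreteWithin
      (codiscreteWithin_mono (closedBall_subset_ball r2)
        (an.preimage_zero_mem_codiscreteWithin h0 hz₀ ((convex_ball _ _).isConnected ⟨_, hz₀⟩)))
  have cn2 := (cnt.countable.preimage_circleMap 0 (by linarith : R ≠ 0)).ae_notMem volume
  let u : ℝ → ℝ := fun θ => Real.log ‖f (circleMap 0 R θ)‖
  have up : Function.Periodic u (2 * Real.pi) := fun θ => by simp only [u, periodic_circleMap 0 R θ]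
  have ui : IntervalIntegrable u volume 0 (2 * Real.pi) :=
    (a1.mono sphere_subset_closedBall).meromorphicOn.circleIntegrable_log_norm_of_nonneg (by linarith)
  have l1 := low R r3.le r2
  rw [Real.circleAverage_def, smul_eq_mul, le_inv_mul_iff₀ pi2] at l1
  have l2 : ∫ θ in (0 : ℝ)..2 * Real.pi, u θ = ∫ θ in η..η + 2 * Real.pi, u θ := by
    simpa using up.intervalIntegral_add_eq 0 η
  have ii : IntervalIntegrable (Z.indicator fun _ => T) volume η (η + 2 * Real.pi) :=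
    ⟨(intervalIntegrable_const (c := T)).1.indicator Zm,
      (intervalIntegrable_const (c := T)).2.indicator Zm⟩
  have l3 : ∫ θ in η..η + 2 * Real.pi, u θ
      ≤ ∫ θ in η..η + 2 * Real.pi, (Real.log M - Z.indicator (fun _ => T) θ) := by
    refine intervalIntegral.integral_mono_ae (by linarith) (up.intervalIntegrable₀ pi2.ne' ui _ _)
      (intervalIntegrable_const.sub ii) ?_
    filter_upwards [cn2] with θ hθ
    have mR : circleMap 0 R θ ∈ closedBall (0 : ℂ) R := circleMap_mem_closedBall 0 (by linarith) θ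
    have m1 : circleMap 0 R θ ∈ closedBall (0 : ℂ) 1 := closedBall_subset_closedBall r2.le mR
    have n0 : 0 < ‖f (circleMap 0 R θ)‖ := norm_pos_iff.2 fun h => hθ ⟨mR, by simpa using h⟩
    by_cases hz : θ ∈ Z
    · rw [indicator_of_mem hz]
      have := hδ _ m1 _ (hT θ) (by
        have : circleMap 0 R θ - exp (θ * I) = ((R - 1 : ℝ) : ℂ) * exp (θ * I) := by
          simp [circleMap]; ring
        rw [dist_eq_norm, this, norm_mul, norm_exp_ofReal_mul_I, mul_one, Complex.norm_real,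
          Real.norm_eq_abs, abs_sub_comm, abs_of_pos (by linarith)]
        linarith)
      rw [show f (exp (θ * I)) = 0 from hz, dist_zero_right] at this
      have := Real.log_le_log n0 this.le
      rw [Real.log_mul M0.ne' (Real.exp_pos _).ne', Real.log_exp] at this
      exact this
    · rw [indicator_of_notMem hz, sub_zero]
      exact Real.log_le_log n0 (hM _ m1)
  rw [intervalIntegral.integral_sub intervalIntegrable_const ii, intervalIntegral.integral_const,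
    intervalIntegral.integral_of_le (by linarith : η ≤ η + 2 * Real.pi) (f := Z.indicator _),
    integral_indicator Zm, Measure.restrict_restrict Zm, setIntegral_const, ← ha] at l3
  have : a * T = 2 * Real.pi * Real.log M - 2 * Real.pi * Bd + a := by
    simp only [T]; field_simp
  simp only [add_sub_cancel_left, smul_eq_mul] at l3
  change _ ≤ ∫ θ in (0 : ℝ)..2 * Real.pi, u θ at l1
  linarith

noncomputable def W (ω : ℝ → ℝ) (L t : ℝ) : ℝ := if t < 1 then ω t else L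

theorem W_prop {ω : ℝ → ℝ} {L : ℝ} (hm : MonotoneOn ω (Ioo 0 1)) (hp : ∀ t ∈ Ioo (0 : ℝ) 1, 0 < ω t)
    (ha : AntitoneOn (fun t => ω t / t) (Ioo 0 1)) (hL : Tendsto ω (𝓝[<] 1) (𝓝 L)) :
    (∀ t, 0 < t → 0 < W ω L t) ∧ (∀ s t, 0 < s → s ≤ t → W ω L s ≤ W ω L t) ∧
      ∀ s t c, 0 < s → 0 < t → 1 ≤ c → t ≤ c * s → W ω L t ≤ c * W ω L s := by
  have a1 : ∀ t ∈ Ioo (0 : ℝ) 1, ω t ≤ L := fun t ht => ge_of_tendsto hL (by
    filter_upwards [Ioo_mem_nhdsLT ht.2] with u hu using hm ht ⟨ht.1.trans hu.1, hu.2⟩ hu.1.le)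
  have a2 : ∀ t ∈ Ioo (0 : ℝ) 1, L * t ≤ ω t := fun t ht => by
    have t1 : Tendsto (fun u : ℝ => ω u / u) (𝓝[<] 1) (𝓝 (L / 1)) :=
      hL.div (tendsto_id.mono_left nhdsWithin_le_nhds) one_ne_zero
    have := le_of_tendsto t1 (b := ω t / t) (by
      filter_upwards [Ioo_mem_nhdsLT ht.2] with u hu using ha ht ⟨ht.1.trans hu.1, hu.2⟩ hu.1.le)
    rwa [div_one, le_div_iff₀ ht.1] at this
  have L0 : 0 < L := (hp (1 / 2) ⟨by norm_num, by norm_num⟩).trans_le (a1 _ ⟨by norm_num, by norm_num⟩)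
  have p : ∀ t, 0 < t → 0 < W ω L t := fun t ht => by
    unfold W; split_ifs with h
    · exact hp t ⟨ht, h⟩
    · exact L0
  have m : ∀ s t, 0 < s → s ≤ t → W ω L s ≤ W ω L t := fun s t hs hst => by
    unfold W; split_ifs with h1 h2 h2
    · exact hm ⟨hs, h1⟩ ⟨hs.trans_le hst, h2⟩ hst
    · exact a1 s ⟨hs, h1⟩
    · linarith
    · exact le_rfl
  have q : ∀ s t, 0 < s → s ≤ t → W ω L t * s ≤ W ω L s * t := fun s t hs hst => by
    unfold W; split_ifs with h1 h2 h2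
    · have := ha ⟨hs, h2⟩ ⟨hs.trans_le hst, h1⟩ hst
      rwa [div_le_div_iff₀ (hs.trans_le hst) hs] at this
    · linarith
    · nlinarith [a2 s ⟨hs, h2⟩, hp s ⟨hs, h2⟩]
    · nlinarith
  refine ⟨p, m, fun s t c hs ht hc h => ?_⟩
  have := q s (c * s) hs (by nlinarith)
  have h2 := m t (c * s) ht h
  refine le_of_mul_le_mul_right ?_ hs
  nlinarith

theorem tamrazov {V : ℝ → ℝ} (p : ∀ t, 0 < t → 0 < V t) (m : ∀ s t, 0 < s → s ≤ t → V s ≤ V t)
    (q : ∀ s t c, 0 < s → 0 < t → 1 ≤ c → t ≤ c * s → V t ≤ c * V s)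
    {f : ℂ → ℂ} (hd : DifferentiableOn ℂ f (ball 0 1)) (hc : ContinuousOn f (closedBall 0 1))
    {C δ₀ : ℝ} (h0 : 0 < δ₀) (hb : ∀ δ ∈ Ioo 0 δ₀, ∀ x h : ℝ, |h| ≤ δ →
      ‖f (exp (((x + h : ℝ) : ℂ) * I)) - f (exp ((x : ℂ) * I))‖ ≤ C * V δ) :
    ∃ K, 0 ≤ K ∧ ∀ ζ : ℂ, ‖ζ‖ = 1 → ∀ z ∈ closedBall (0 : ℂ) 1, ∀ δ, 0 < δ → ‖z - ζ‖ ≤ δ →
      ‖f z - f ζ‖ ≤ K * V δ := by
  obtain ⟨M, hM⟩ := (isCompact_closedBall (0 : ℂ) 1).exists_bound_of_continuousOn hc
  have M0 : 0 ≤ M := (norm_nonneg _).trans (hM 0 (by simp))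
  have V0 := p δ₀ h0
  set C₁ := |C| + 2 * M / V δ₀
  have C0 : 0 ≤ C₁ := by positivity
  have b1 : ∀ x h : ℝ, h ≠ 0 →
      ‖f (exp (((x + h : ℝ) : ℂ) * I)) - f (exp ((x : ℂ) * I))‖ ≤ C₁ * V |h| := by
    intro x h hh
    have h1 := abs_pos.2 hh
    have h2 := p _ h1
    have h3 : 0 ≤ 2 * M / V δ₀ * V |h| := by positivity
    have h4 : 0 ≤ |C| * V |h| := by positivity
    rcases lt_or_ge |h| δ₀ with c | c
    · have := hb _ ⟨h1, c⟩ x h le_rfl
      have := mul_le_mul_of_nonneg_right (le_abs_self C) h2.le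
      simp only [C₁]; linarith
    · have a1 := norm_sub_le (f (exp (((x + h : ℝ) : ℂ) * I))) (f (exp ((x : ℂ) * I)))
      have a2 := hM _ (mem_closedBall_zero_iff.2 (norm_exp_ofReal_mul_I (x + h)).le)
      have a3 := hM _ (mem_closedBall_zero_iff.2 (norm_exp_ofReal_mul_I x).le)
      have a4 := mul_le_mul_of_nonneg_left (m _ _ h0 c) (by positivity : 0 ≤ 2 * M / V δ₀)
      rw [div_mul_cancel₀ _ V0.ne'] at a4
      simp only [C₁]; linarith
  refine ⟨12 * C₁, by positivity, fun ζ hζ z hz δ hδ hzδ => ?_⟩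
  have Vδ := p δ hδ
  let k : ℂ → ℂ := fun w => w - (1 + δ : ℝ) * ζ
  have k1 : ∀ w ∈ closedBall (0 : ℂ) 1, δ ≤ ‖k w‖ := fun w hw => by
    have := norm_sub_norm_le (((1 + δ : ℝ) : ℂ) * ζ) w
    rw [norm_mul, hζ, Complex.norm_real, Real.norm_of_nonneg (by linarith), norm_sub_rev] at this
    linarith [mem_closedBall_zero_iff.1 hw]
  have k0 : ∀ w ∈ closedBall (0 : ℂ) 1, k w ≠ 0 := fun w hw => norm_pos_iff.1 (hδ.trans_le (k1 w hw))
  have k2 : ∀ w : ℂ, ‖w - ζ‖ ≤ ‖k w‖ + δ ∧ ‖k w‖ ≤ ‖w - ζ‖ + δ := fun w => by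
    have e : k w = (w - ζ) - δ * ζ := by simp only [k]; push_cast; ring
    have n : ‖(δ : ℂ) * ζ‖ = δ := by rw [norm_mul, hζ, Complex.norm_real, Real.norm_of_nonneg hδ.le, mul_one]
    have a1 := norm_sub_le (w - ζ) (δ * ζ)
    have a2 := norm_sub_norm_le (w - ζ) (δ * ζ)
    rw [e]; constructor <;> linarith
  have mx := norm_le_of_forall_mem_frontier_norm_le (f := fun w => (f w - f ζ) / k w)
    (U := ball 0 1) isBounded_ball ⟨(hd.sub_const _).div (by fun_prop)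
      fun w hw => k0 w (ball_subset_closedBall hw), by
        rw [closure_ball 0 one_ne_zero]
        exact (hc.sub continuousOn_const).div (by fun_prop) k0⟩ (C := 6 * C₁ * V δ / δ)
    (fun w hw => by
      rw [frontier_ball 0 one_ne_zero, mem_sphere_zero_iff_norm] at hw
      have hw' : w ∈ closedBall (0 : ℂ) 1 := mem_closedBall_zero_iff.2 hw.le
      have kp := hδ.trans_le (k1 w hw')
      have ζ0 : ζ ≠ 0 := norm_pos_iff.1 (by linarith)
      have w0 : w ≠ 0 := norm_pos_iff.1 (by linarith)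
      have ang := angle_le_mul_norm_sub hw hζ
      rw [angle_eq_abs_arg w0 ζ0] at ang
      have e1 : exp ((arg ζ : ℂ) * I) = ζ := by simpa [hζ] using norm_mul_exp_arg_mul_I ζ
      have e2 : exp (((arg ζ + arg (w / ζ) : ℝ) : ℂ) * I) = w := by
        have := norm_mul_exp_arg_mul_I (w / ζ)
        rw [norm_div, hw, hζ] at this
        push_cast at this ⊢
        rw [add_mul, Complex.exp_add, e1]
        simp only [div_one, one_mul] at this
        rw [this]; field_simp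
      rw [norm_div, div_le_div_iff₀ kp hδ]
      by_cases a0 : arg (w / ζ) = 0
      · rw [a0, add_zero, e1] at e2
        rw [← e2, sub_self, norm_zero, zero_mul]; positivity
      · have b := b1 (arg ζ) _ a0
        rw [e1, e2] at b
        have c := q δ _ (6 * ‖k w‖ / δ) hδ (abs_pos.2 a0)
          (by rw [le_div_iff₀ hδ]; linarith [k1 w hw']) (by
            rw [div_mul_cancel₀ _ hδ.ne']
            nlinarith [Real.pi_le_four, (k2 w).1, k1 w hw', norm_nonneg (w - ζ)])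
        have c2 := mul_le_mul_of_nonneg_right (b.trans (mul_le_mul_of_nonneg_left c C0)) hδ.le
        refine c2.trans (le_of_eq ?_)
        field_simp)
    (z := z) (by rwa [closure_ball 0 one_ne_zero])
  rw [norm_div, div_le_div_iff₀ (hδ.trans_le (k1 z hz)) hδ] at mx
  refine le_of_mul_le_mul_right (mx.trans ?_) hδ
  have : ‖k z‖ ≤ 2 * δ := by linarith [(k2 z).2]
  nlinarith [mul_nonneg C0 Vδ.le]

end Pool.Agent.H99.SH
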