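import Pool.Agent.H99.SH2

set_option autoImplicit false

open MeasureTheory Filter Topology Complex Set Metric

namespace Pool.Agent.H99.SH

theorem final :
  ∀ (ω : ℝ → ℝ) (L : ℝ),
    ContinuousOn ω (Set.Ioo 0 1) →
    MonotoneOn ω (Set.Ioo 0 1) →
    (∀ t ∈ Set.Ioo (0:ℝ) 1, 0 < ω t) →
    Filter.Tendsto ω (nhdsWithin 0 (Set.Ioi 0)) (nhds 0) →
    AntitoneOn (fun t => ω t / t) (Set.Ioo 0 1) →
    Filter.Tendsto ω (nhdsWithin 1 (Set.Iio 1)) (nhds L) →
    ∀ f : ℂ → ℂ,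
      DifferentiableOn ℂ f (Metric.ball 0 1) →
      ContinuousOn f (Metric.closedBall 0 1) →
      (∃ C : ℝ, ∃ δ₀ ∈ Set.Ioo (0:ℝ) 1, ∀ δ ∈ Set.Ioo 0 δ₀, ∀ x h : ℝ, |h| ≤ δ →
          ‖f (Complex.exp (((x + h : ℝ) : ℂ) * Complex.I))
            - f (Complex.exp ((x : ℂ) * Complex.I))‖ ≤ C * ω δ) →
      (∃ z ∈ Metric.ball (0:ℂ) 1, f z ≠ 0) →
      ∀ Θ : ℂ → ℂ,
        DifferentiableOn ℂ Θ (Metric.ball 0 1) →
        (∀ z ∈ Metric.ball (0:ℂ) 1, ‖Θ z‖ ≤ 1) →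
        (∀ᵐ θ : ℝ, ∃ w : ℂ, ‖w‖ = 1 ∧
          Filter.Tendsto (fun r : ℝ => Θ ((r : ℂ) * Complex.exp ((θ : ℂ) * Complex.I)))
            (nhdsWithin 1 (Set.Iio 1)) (nhds w)) →
        ((MeasureTheory.volume {θ : ℝ | ¬ ∃ r > (0:ℝ), ∃ g : ℂ → ℂ,
              DifferentiableOn ℂ g (Metric.ball (Complex.exp ((θ:ℂ) * Complex.I)) r) ∧
              Set.EqOn g Θ (Metric.ball (Complex.exp ((θ:ℂ) * Complex.I)) r ∩ Metric.ball 0 1)} = 0 ∧
          ∃ C : ℝ, ∀ ζ : ℂ, ‖ζ‖ = 1 → ∀ r > (0:ℝ), ∀ g : ℂ → ℂ,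
            DifferentiableOn ℂ g (Metric.ball ζ r) →
            Set.EqOn g Θ (Metric.ball ζ r ∩ Metric.ball 0 1) →
            ‖f ζ‖ ≤ C * (if 1 < ‖deriv g ζ‖ then ω (1 / ‖deriv g ζ‖) else L))
         ↔
         (∃ ε ∈ Set.Ioo (0:ℝ) 1, ∃ C : ℝ, ∀ z ∈ Metric.ball (0:ℂ) 1, ‖Θ z‖ < ε →
            ‖f z‖ ≤ C * (if 1 - ‖z‖ < 1 then ω (1 - ‖z‖) else L))) := by
  intro ω L _ hm hp _ ha hL f fd fc ⟨C₀, δ₀, hδ₀, hb⟩ ⟨z₀, hz₀, f0⟩ Θ Td T1 Tr
  obtain ⟨p, m, q⟩ := W_prop hm hp ha hL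
  obtain ⟨K, K0, hK⟩ := tamrazov p m q fd fc (C := C₀) hδ₀.1 (fun δ hδ x h hh => by
    have := hb δ hδ x h hh
    rwa [W, if_pos (hδ.2.trans hδ₀.2)])
  have val : ∀ D : ℝ, 0 < D → (if 1 < D then ω (1 / D) else L) = W ω L (1 / D) := fun D hD => by
    simp only [W, div_lt_one hD]
  have val0 : ∀ D : ℝ, D ≤ 1 → (if 1 < D then ω (1 / D) else L) = W ω L 1 := fun D hD => by
    simp [W, hD.not_gt]
  constructor
  · rintro ⟨hnull, C, hC⟩
    refine ⟨1 / 2, ⟨by norm_num, by norm_num⟩, 16 * |C| + 2 * K, fun z hz hΘ => ?_⟩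
    have z1 := mem_ball_zero_iff.1 hz
    set δ := 1 - ‖z‖ with hδ
    have δ0 : 0 < δ := by linarith
    change _ ≤ _ * W ω L δ
    have hae := measure_eq_zero_iff_ae_notMem.1 hnull
    obtain ⟨θ, h1, h2⟩ := (Measure.dense_of_ae hae).exists_dist_lt (arg z) δ0
    simp only [mem_ofPred_eq, not_not] at h1
    obtain ⟨r, r0, g, gd, ge⟩ := h1
    have hn : ‖exp (θ * I)‖ = 1 := norm_exp_ofReal_mul_I θ
    have d2 : ‖z - exp (θ * I)‖ ≤ 2 * δ := by
      have e : z - exp (θ * I) = ((‖z‖ - 1 : ℝ) : ℂ) * exp (arg z * I)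
          + exp (θ * I) * (exp (I * ((arg z - θ : ℝ) : ℂ)) - 1) := by
        rw [mul_sub, ← Complex.exp_add]
        nth_rewrite 1 [← norm_mul_exp_arg_mul_I z]
        push_cast; ring_nf
      have a1 := Real.norm_exp_I_mul_ofReal_sub_one_le (x := arg z - θ)
      rw [e]
      refine (norm_add_le _ _).trans ?_
      rw [norm_mul, norm_mul, hn, norm_exp_ofReal_mul_I, Complex.norm_real, Real.norm_eq_abs,
        abs_sub_comm, abs_of_pos δ0]
      rw [dist_eq_norm] at h2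
      linarith
    have J := julia Td T1 Tr hn r0 gd ge z1 hΘ
    rw [norm_sub_rev] at J
    have J2 : 1 ≤ 16 * δ * ‖deriv g (exp (θ * I))‖ := by
      have a1 : δ ≤ 1 - ‖z‖ ^ 2 := by nlinarith [norm_nonneg z]
      have a2 := mul_le_mul_of_nonneg_left (pow_le_pow_left₀ (norm_nonneg _) d2 2)
        (by positivity : 0 ≤ 4 * ‖deriv g (exp (θ * I))‖)
      refine le_of_mul_le_mul_right ?_ δ0
      nlinarith
    have D0 : 0 < ‖deriv g (exp (θ * I))‖ := by
      by_contra h; nlinarith [norm_nonneg (deriv g (exp (θ * I)))]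
    have b1 := hC _ hn r r0 g gd ge
    rw [val _ D0] at b1
    have b2 := q δ _ 16 δ0 (one_div_pos.2 D0) (by norm_num) (by rw [div_le_iff₀ D0]; linarith)
    have b3 := hK _ hn z (ball_subset_closedBall hz) _ (by positivity) d2
    have b4 := q δ (2 * δ) 2 δ0 (by positivity) (by norm_num) le_rfl
    have b5 := norm_le_norm_add_norm_sub' (f z) (f (exp (θ * I)))
    have b6 := mul_le_mul_of_nonneg_right (le_abs_self C) (p _ (one_div_pos.2 D0)).le
    have b7 := mul_le_mul_of_nonneg_left b2 (abs_nonneg C)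
    have b8 := mul_le_mul_of_nonneg_left b4 K0
    linarith
  · rintro ⟨ε, hε, C, hC⟩
    have near : ∀ ζ : ℂ, ‖ζ‖ = 1 → ∀ R, 0 < R → (∃ z ∈ ball (0 : ℂ) 1, ‖z - ζ‖ < R ∧ ‖Θ z‖ < ε) →
        ‖f ζ‖ ≤ (|C| + K) * W ω L R := by
      rintro ζ hζ R R0 ⟨z, hz, h1, h2⟩
      have z1 := mem_ball_zero_iff.1 hz
      have b1 : ‖f z‖ ≤ C * W ω L (1 - ‖z‖) := hC z hz h2
      have b2 := m (1 - ‖z‖) R (by linarith) (by
        have := norm_sub_norm_le ζ z
        rw [norm_sub_rev] at this; linarith)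
      have b3 := hK ζ hζ z (ball_subset_closedBall hz) R R0 h1.le
      have b5 := norm_le_norm_add_norm_sub (f z) (f ζ)
      have b6 := mul_le_mul_of_nonneg_right (le_abs_self C) (p (1 - ‖z‖) (by linarith)).le
      have b7 := mul_le_mul_of_nonneg_left b2 (abs_nonneg C)
      linarith
    constructor
    · refine measure_mono_null (fun θ hθ => ?_) (null_zero fd fc hz₀ f0)
      have hn : ‖exp (θ * I)‖ = 1 := norm_exp_ofReal_mul_I θ
      have t : Tendsto (fun R => (|C| + K) * ω R) (𝓝[>] 0) (𝓝 0) := by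
        simpa using Tendsto.const_mul (|C| + K) ‹Tendsto ω (𝓝[>] 0) (𝓝 0)›
      refine norm_le_zero_iff.1 (ge_of_tendsto t ?_)
      filter_upwards [Ioo_mem_nhdsGT (zero_lt_one' ℝ)] with R hR
      have := near _ hn R hR.1 (by
        by_contra h
        push Not at h
        obtain ⟨g, g1, g2, -⟩ := cont Td T1 Tr hn hR.1 hR.2.le hε.1 hε.2.le h
        exact hθ ⟨R / 8, by linarith [hR.1], g, g1, g2⟩)
      rwa [W, if_pos hR.2] at this
    · obtain ⟨M, hM⟩ := (isCompact_closedBall (0 : ℂ) 1).exists_bound_of_continuousOn fc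
      have e0 := hε.1
      have e1 : 1 ≤ 32 / ε := by rw [le_div_iff₀ e0]; linarith [hε.2]
      have W1 := p 1 one_pos
      have M0 : 0 ≤ M := (norm_nonneg _).trans (hM 0 (by simp))
      refine ⟨(|C| + K + M / W ω L 1) * (32 / ε), fun ζ hζ r r0 g gd ge => ?_⟩
      have fz : ‖f ζ‖ ≤ M / W ω L 1 * W ω L 1 := by
        rw [div_mul_cancel₀ _ W1.ne']; exact hM ζ (mem_closedBall_zero_iff.2 hζ.le)
      have c1 : 0 ≤ M / W ω L 1 := by positivity
      have c2 : 0 ≤ |C| + K := by positivity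
      set D := ‖deriv g ζ‖ with hD
      by_cases h1 : D ≤ 1
      · rw [val0 D h1]
        refine fz.trans (mul_le_mul_of_nonneg_right ?_ W1.le)
        nlinarith
      have D0 : 0 < D := by linarith
      rw [val D D0]
      have Wd := p _ (one_div_pos.2 D0)
      have R0 : 0 < 32 / ε * (1 / D) := by positivity
      have qq := q (1 / D) _ (32 / ε) (one_div_pos.2 D0) R0 e1 le_rfl
      by_cases h2 : 32 / ε * (1 / D) ≤ 1
      · have := near ζ hζ _ R0 (by
          by_contra h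
          push Not at h
          obtain ⟨g', g1, g2, g3⟩ := cont Td T1 Tr hζ R0 h2 hε.1 hε.2.le h
          have R8 : 0 < 32 / ε * (1 / D) / 8 := by positivity
          have u := deriv_uniq hζ r0 R8 gd ge g1 g2
          have v := norm_deriv_le_div_of_mapsTo_ball (R₂ := 2 * ε⁻¹) g1 (fun w hw => by
            rw [mem_closedBall, dist_eq_norm]
            linarith [norm_sub_le (g' w) (g' ζ), g3 w hw, g3 ζ (mem_ball_self R8)]) R8
          rw [← u, ← hD, le_div_iff₀ R8] at v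
          have : D * (32 / ε * (1 / D) / 8) = 4 * ε⁻¹ := by field_simp; norm_num
          have := inv_pos.2 e0
          linarith)
        have k1 := mul_le_mul_of_nonneg_left qq c2
        have k2 : 0 ≤ M / W ω L 1 * (32 / ε * W ω L (1 / D)) := by positivity
        nlinarith
      · have k0 := m 1 _ one_pos (not_le.1 h2).le
        have k1 := mul_le_mul_of_nonneg_left (k0.trans qq) c1
        have k2 : 0 ≤ (|C| + K) * (32 / ε * W ω L (1 / D)) := by positivity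
        nlinarith

end Pool.Agent.H99.SH
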