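import Mathlib

set_option autoImplicit false

open Filter Topology Complex Set Metric

namespace Pool.Agent.H99.Sig

noncomputable def cv (c : ℤ × ℤ) : ℂ := c.1 + c.2 * I

noncomputable def ev : List (ℤ × ℤ) → ℂ → ℂ
  | [], _ => 0
  | c :: l, z => cv c + z * ev l z

def add : List (ℤ × ℤ) → List (ℤ × ℤ) → List (ℤ × ℤ)
  | [], l => l
  | l, [] => l
  | a :: l, b :: m => (a.1 + b.1, a.2 + b.2) :: add l m

def cm (a b : ℤ × ℤ) : ℤ × ℤ := (a.1 * b.1 - a.2 * b.2, a.1 * b.2 + a.2 * b.1)

def mul : List (ℤ × ℤ) → List (ℤ × ℤ) → List (ℤ × ℤ)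
  | [], _ => []
  | a :: l, m => add (m.map (cm a)) ((0, 0) :: mul l m)

def star : List (ℤ × ℤ) → List (ℤ × ℤ)
  | [] => []
  | a :: l => star l ++ [(a.1, -a.2)]

def sz : List (ℤ × ℤ) → ℤ
  | [] => 0
  | a :: l => |a.1| + |a.2| + sz l

theorem cv_cm (a b : ℤ × ℤ) : cv (cm a b) = cv a * cv b := by
  simp only [cv, cm]; push_cast; linear_combination (-(a.2 : ℂ) * b.2) * I_sq

theorem ev_add (l m : List (ℤ × ℤ)) (z : ℂ) : ev (add l m) z = ev l z + ev m z := by
  induction l generalizing m with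
  | nil => simp [add, ev]
  | cons a l ih =>
    cases m with
    | nil => simp [add, ev]
    | cons b m => simp only [add, ev, ih, cv]; push_cast; ring

theorem ev_map (a : ℤ × ℤ) (m : List (ℤ × ℤ)) (z : ℂ) : ev (m.map (cm a)) z = cv a * ev m z := by
  induction m with
  | nil => simp [ev]
  | cons b m ih => simp only [List.map, ev, ih, cv_cm]; ring

theorem ev_mul (l m : List (ℤ × ℤ)) (z : ℂ) : ev (mul l m) z = ev l z * ev m z := by
  induction l with
  | nil => simp [mul, ev]
  | cons a l ih => simp only [mul, ev_add, ev_map, ev, ih]; simp [cv]; ring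

theorem ev_app (l : List (ℤ × ℤ)) (d : ℤ × ℤ) (z : ℂ) :
    ev (l ++ [d]) z = ev l z + z ^ l.length * cv d := by
  induction l with
  | nil => simp [ev]
  | cons a l ih => simp only [List.cons_append, ev, ih, List.length_cons]; ring

theorem len_star (l : List (ℤ × ℤ)) : (star l).length = l.length := by
  induction l with
  | nil => rfl
  | cons a l ih => simp [star, ih]

theorem ev_star (l : List (ℤ × ℤ)) {y : ℂ} (hy : y * (starRingEnd ℂ) y = 1) :
    y ^ l.length * (starRingEnd ℂ) (ev l y) = y * ev (star l) y := by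
  induction l with
  | nil => simp [ev, star]
  | cons a l ih =>
    have e : (starRingEnd ℂ) (cv a) = cv (a.1, -a.2) := by simp [cv]
    simp only [star, ev_app, len_star, ev, map_add, map_mul, List.length_cons, e]
    linear_combination ih + y ^ l.length * (starRingEnd ℂ) (ev l y) * hy

theorem ev_sz (l : List (ℤ × ℤ)) {y : ℂ} (hy : ‖y‖ = 1) : ‖ev l y‖ ≤ sz l := by
  induction l with
  | nil => simp [ev, sz]
  | cons a l ih =>
    simp only [ev, sz]
    refine (norm_add_le _ _).trans ?_
    have := norm_add_le (a.1 : ℂ) (a.2 * I)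
    rw [norm_mul, norm_I, mul_one, norm_intCast, norm_intCast] at this
    rw [norm_mul, hy, one_mul]
    push_cast
    exact add_le_add this ih

@[fun_prop] theorem ev_diff (l : List (ℤ × ℤ)) : Differentiable ℂ (ev l) := by
  induction l with
  | nil => exact differentiable_const 0
  | cons a l ih => exact (differentiable_const _).add (differentiable_id.mul ih)

def s1 : List (ℤ × ℤ) := [(2883, 0), (-732, 460), (-440, 425), (-264, 396), (-140, 371), (-48, 320),
  (36, 297), (100, 240), (165, 187), (252, 96), (234, -260)]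
def s2 : List (ℤ × ℤ) := [(961, 0), (-366, 230), (-264, 255), (-176, 264), (-100, 265), (-36, 240),
  (28, 231), (80, 192), (135, 153), (210, 80), (198, -220)]
def qq : List (ℤ × ℤ) := [(2760, 0), (-54, -577), (-160, -321), (-165, -153), (-27, -117), (-43, -50),
  (41, -195), (-3, -181), (-55, -283), (-401, -369), (-1147, 1274)]
def rr : List (ℤ × ℤ) := [(186, -1020), (584, 449), (-544, 1337), (753, 1373), (334, -677),
  (783, -766), (-81, 200), (-1345, 282), (-224, 1743), (-75, 624), (0, 0), (-75, -624),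
  (-224, -1743), (-1345, -282), (-81, -200), (783, 766), (334, 677), (753, -1373), (-544, -1337),
  (584, -449), (186, 1020)]

theorem cert : add (add (add ((mul s1 (star s1)).map (cm (3, 0))) ((mul s2 (star s2)).map (cm (6, 0))))
    (mul qq (star qq))) rr = List.replicate 10 (0, 0) ++ (53123462, 0) :: List.replicate 10 (0, 0) := by
  decide +kernel

theorem circ {y : ℂ} (hy : ‖y‖ = 1) : (‖ev s1 y‖ + ‖ev s2 y‖) ^ 2 ≤ 26890000 := by
  have h1 : y * (starRingEnd ℂ) y = 1 := by rw [mul_conj, normSq_eq_norm_sq, hy]; simp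
  have y0 : y ≠ 0 := norm_pos_iff.1 (by rw [hy]; exact one_pos)
  have k : ∀ l : List (ℤ × ℤ), l.length = 11 →
      ev l y * ev (star l) y = y ^ 10 * ((‖ev l y‖ ^ 2 : ℝ) : ℂ) := by
    intro l hl
    have := ev_star l h1
    rw [hl] at this
    apply mul_left_cancel₀ y0
    rw [← normSq_eq_norm_sq, ← mul_conj]
    linear_combination (-ev l y) * this
  have h := congrArg (fun l => ev l y) cert
  simp only [ev_add, ev_map, ev_mul, k s1 rfl, k s2 rfl, k qq rfl] at h
  have h2 : y ^ 10 * ((53123462 - (3 * ‖ev s1 y‖ ^ 2 + 6 * ‖ev s2 y‖ ^ 2 + ‖ev qq y‖ ^ 2) : ℝ) : ℂ)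
      = ev rr y := by
    simp only [List.replicate, List.cons_append, List.nil_append, ev, cv] at h
    push_cast at h ⊢
    linear_combination -h
  have h3 := ev_sz rr hy
  have h4 : sz rr = 26760 := by decide +kernel
  rw [← h2, norm_mul, norm_pow, hy, one_pow, one_mul, Complex.norm_real, h4] at h3
  have := (abs_le.1 h3).1
  push_cast at this
  nlinarith [sq_nonneg (‖ev s1 y‖ - 2 * ‖ev s2 y‖), sq_nonneg ‖ev qq y‖]

theorem disc {z : ℂ} (hz : ‖z‖ ≤ 1) : (‖ev s1 z‖ + ‖ev s2 z‖) ^ 2 ≤ 26890000 := by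
  obtain ⟨a, ha, e1⟩ := exists_norm_eq_mul_self (ev s1 z)
  obtain ⟨b, hb, e2⟩ := exists_norm_eq_mul_self (ev s2 z)
  have := norm_le_of_forall_mem_frontier_norm_le (f := fun w => a * ev s1 w + b * ev s2 w)
    (U := ball 0 1) isBounded_ball (Differentiable.diffContOnCl (by fun_prop)) (C := √26890000)
    (fun w hw => by
      rw [frontier_ball 0 one_ne_zero, mem_sphere_zero_iff_norm] at hw
      refine (norm_add_le _ _).trans (Real.le_sqrt_of_sq_le ?_)
      rw [norm_mul, norm_mul, ha, hb, one_mul, one_mul]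
      exact circ hw) (z := z) (by rwa [closure_ball 0 one_ne_zero, mem_closedBall_zero_iff])
  rw [← e1, ← e2, ← ofReal_add, Complex.norm_real, Real.norm_of_nonneg (by positivity)] at this
  exact (Real.le_sqrt (by positivity) (by norm_num)).1 this

/-- the spiral-slit map -/
noncomputable def cc : ℂ := (49 - 7 * I) / 25

noncomputable def hh (z : ℂ) : ℂ := (exp (cc * log ((1 + z) / (1 - z))) - 1) / (2 * cc)

theorem cc_inv : cc * (1 / 2 + I / 14) = 1 := by
  unfold cc; linear_combination (-1 / 50 : ℂ) * I_sq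

theorem cc_ne : cc ≠ 0 := fun h => by simpa [h] using cc_inv

theorem re_pos {z : ℂ} (hz : ‖z‖ < 1) : 1 - z ≠ 0 ∧ 1 + z ≠ 0 ∧ 0 < ((1 + z) / (1 - z)).re := by
  have h1 : 1 - z ≠ 0 := fun h => by rw [← sub_eq_zero.1 h] at hz; simp at hz
  have h3 : 0 < ((1 + z) / (1 - z)).re := by
    rw [div_re, ← add_div]
    refine div_pos ?_ (normSq_pos.2 h1)
    have : z.re ^ 2 + z.im ^ 2 < 1 := by
      have := normSq_eq_norm_sq z
      rw [normSq_apply] at this; nlinarith [norm_nonneg z]
    simp; nlinarith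
  exact ⟨h1, fun h => by simp [h] at h3, h3⟩

theorem hh_deriv {z : ℂ} (hz : ‖z‖ < 1) : HasDerivAt hh ((2 * cc * hh z + 1) / (1 - z ^ 2)) z := by
  obtain ⟨h1, h2, h3⟩ := re_pos hz
  have a1 := ((hasDerivAt_id z).const_add 1).div ((hasDerivAt_id z).const_sub 1) h1
  have a2 := ((((a1.clog (Or.inl h3)).const_mul cc).cexp).sub_const 1).div_const (2 * cc)
  convert! a2 using 1
  have := cc_ne
  have e : 1 - z ^ 2 = (1 - z) * (1 + z) := by ring
  simp only [hh, id, Pi.div_apply, e]
  field_simp; ring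

theorem hh_diff : DifferentiableOn ℂ hh (ball 0 1) := fun _ hz =>
  (hh_deriv (mem_ball_zero_iff.1 hz)).differentiableAt.differentiableWithinAt

theorem hh_zero : hh 0 = 0 := by simp [hh]

theorem hh_d0 : deriv hh 0 = 1 := by simpa [hh_zero] using (hh_deriv (z := 0) (by simp)).deriv

theorem hh_inj : InjOn hh (ball 0 1) := by
  intro z hz w hw h
  obtain ⟨z1, z2, z3⟩ := re_pos (mem_ball_zero_iff.1 hz)
  obtain ⟨w1, w2, w3⟩ := re_pos (mem_ball_zero_iff.1 hw)
  have h1 := sub_left_inj.1 ((div_left_inj' (mul_ne_zero two_ne_zero cc_ne)).1 h)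
  obtain ⟨n, hn⟩ := exp_eq_exp_iff_exists_int.1 h1
  have h2 : log ((1 + z) / (1 - z)) = log ((1 + w) / (1 - w)) + n * (2 * Real.pi * I) * (1 / 2 + I / 14) := by
    linear_combination (1 / 2 + I / 14) * hn
      - (log ((1 + z) / (1 - z)) - log ((1 + w) / (1 - w))) * cc_inv
  have h3 := congrArg im h2
  have a1 := abs_lt.1 (abs_arg_lt_pi_div_two_iff.2 (Or.inl z3))
  have a2 := abs_lt.1 (abs_arg_lt_pi_div_two_iff.2 (Or.inl w3))
  simp [log_im] at h3
  have pp := Real.pi_pos
  have n0 : n = 0 := by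
    have b1 : (n : ℝ) < 1 := by nlinarith
    have b2 : (-1 : ℝ) < n := by nlinarith
    have b1' : n < 1 := by exact_mod_cast b1
    have b2' : -1 < n := by exact_mod_cast b2
    omega
  rw [n0] at h2
  simp only [Int.cast_zero, zero_mul, add_zero] at h2
  have h4 := congrArg exp h2
  rw [exp_log (div_ne_zero z2 z1), exp_log (div_ne_zero w2 w1), div_eq_div_iff z1 w1] at h4
  linear_combination h4 / 2

theorem hh_rec (k : ℕ) : ∀ z ∈ ball (0 : ℂ) 1, (1 - z ^ 2) * iteratedDeriv (k + 2) hh z
    = (2 * (k + 1) * z + 2 * cc) * iteratedDeriv (k + 1) hh z + (k + 1) * k * iteratedDeriv k hh z := by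
  have D : ∀ k, ∀ z ∈ ball (0 : ℂ) 1,
      HasDerivAt (iteratedDeriv k hh) (iteratedDeriv (k + 1) hh z) z := fun k z hz => by
    rw [iteratedDeriv_succ, show iteratedDeriv k hh = deriv^[k] hh from iteratedDeriv_eq_iterate]
    exact (((hh_diff.analyticOnNhd isOpen_ball).iterated_deriv k) z hz).differentiableAt.hasDerivAt
  have p : ∀ z : ℂ, HasDerivAt (fun w : ℂ => 1 - w ^ 2) (-(2 * z)) z := fun z => by
    simpa using (hasDerivAt_pow 2 z).const_sub 1
  induction k with
  | zero =>
    intro z hz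
    have a1 := (p z).mul (D 1 z hz)
    have a2 := ((D 0 z hz).const_mul (2 * cc)).add_const 1
    have := a1.unique (a2.congr_of_eventuallyEq (by
      filter_upwards [isOpen_ball.mem_nhds hz] with w hw
      obtain ⟨h1, h2, -⟩ := re_pos (mem_ball_zero_iff.1 hw)
      have e : 1 - w ^ 2 = (1 - w) * (1 + w) := by ring
      simp only [Pi.mul_apply, iteratedDeriv_one, iteratedDeriv_zero,
        (hh_deriv (mem_ball_zero_iff.1 hw)).deriv, e]
      field_simp))
    simp only [Nat.cast_zero, zero_add, mul_zero, zero_mul, add_zero, mul_one] at this ⊢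
    linear_combination this
  | succ k ih =>
    intro z hz
    have a1 := (p z).mul (D (k + 2) z hz)
    have a0 : HasDerivAt (fun w : ℂ => 2 * (k + 1) * w + 2 * cc) (2 * (k + 1)) z := by
      simpa using ((hasDerivAt_id z).const_mul (2 * (k + 1) : ℂ)).add_const (2 * cc)
    have a2 := (a0.mul (D (k + 1) z hz)).add ((D k z hz).const_mul ((k + 1) * k : ℂ))
    have := a1.unique (a2.congr_of_eventuallyEq (by
      filter_upwards [isOpen_ball.mem_nhds hz] with w hw using ih w hw))
    push_cast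
    linear_combination this

noncomputable def E : ℕ → ℂ
  | 0 => 0
  | 1 => 1
  | k + 2 => 2 * cc * E (k + 1) + (k + 1) * k * E k

theorem hh_E (k : ℕ) : iteratedDeriv k hh 0 = E k ∧ iteratedDeriv (k + 1) hh 0 = E (k + 1) := by
  induction k with
  | zero => simp [E, hh_zero, hh_d0]
  | succ k ih =>
    refine ⟨ih.2, ?_⟩
    have := hh_rec k 0 (by simp)
    rw [ih.1, ih.2] at this
    simpa [E] using this

theorem iter_poly (P : Polynomial ℂ) (n : ℕ) :
    iteratedDeriv n (fun z => P.eval z) 0 / (n.factorial : ℂ) = P.coeff n := by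
  have : ∀ n, iteratedDeriv n (fun z => P.eval z) = fun z => (Polynomial.derivative^[n] P).eval z := by
    intro n
    induction n with
    | zero => simp
    | succ n ih =>
      rw [iteratedDeriv_succ, ih, Function.iterate_succ_apply']
      ext z; exact Polynomial.deriv _
  rw [this]
  simp only
  rw [← Polynomial.coeff_zero_eq_eval_zero, Polynomial.coeff_iterate_derivative]
  have : (n.factorial : ℂ) ≠ 0 := Nat.cast_ne_zero.2 n.factorial_ne_zero
  simp [Nat.descFactorial_self]; field_simp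

def bl : List (ℤ × ℤ) := [(0, 0), (0, 0), (961, 0), (-183, 115), (-88, 85), (-44, 66), (-20, 53),
  (-6, 40), (4, 33), (10, 24), (15, 17), (21, 8), (18, -20)]

noncomputable def B (k : ℕ) : ℂ := cv (bl.getD k (0, 0))

noncomputable def LL : ℂ := ∑ k ∈ Finset.range 13, B k * (E k / k.factorial) * (999 / 1000) ^ k
  / (999 / 1000)

def F : ℕ → ℤ × ℤ
  | 0 => (0, 0)
  | 1 => (25, 0)
  | k + 2 => ((cm (98, -14) (F (k + 1))).1 + (k + 1) * k * 625 * (F k).1,
      (cm (98, -14) (F (k + 1))).2 + (k + 1) * k * 625 * (F k).2)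

theorem E_F (k : ℕ) : E k = cv (F k) / 25 ^ k ∧ E (k + 1) = cv (F (k + 1)) / 25 ^ (k + 1) := by
  induction k with
  | zero => simp [E, F, cv]
  | succ k ih =>
    refine ⟨ih.2, ?_⟩
    have e : cv (F (k + 2)) = cv (cm (98, -14) (F (k + 1))) + (k + 1) * k * 625 * cv (F k) := by
      simp only [F, cv]; push_cast; ring
    rw [show k + 1 + 1 = k + 2 from rfl, E, ih.1, ih.2, e, cv_cm]
    simp only [cc, cv]; push_cast; field_simp; ring

def gl : List (ℤ × ℤ) := [(0, 0),
  (0, 0),
  (2354450, -336350),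
  (-40871350, 43195550),
  (-2021773600, 3954204800),
  (-86965199200, 437651495600),
  (4637323574800, 56766490863600),
  (2724154442176800, 7791164855177600),
  (924858979553689600, 1234285961859507200),
  (247253977614264006400, 176783006442841164800),
  (70793113823948329587200, 19069279092430400870400),
  (21234169043025214675168000, -5361813372279257079424000),
  (829892607103461288878489600, -8512105340305939047026892800)]

theorem gl_eq : ∀ k < 13, cm (bl.getD k (0, 0)) (F k) = gl.getD k (0, 0) := by decide +kernel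

theorem LL_eq : LL = ∑ k ∈ Finset.range 13, cv (gl.getD k (0, 0)) *
    (((999 / 25000) ^ k / k.factorial / (999 / 1000) : ℝ) : ℂ) := by
  refine Finset.sum_congr rfl fun k hk => ?_
  rw [← gl_eq k (Finset.mem_range.1 hk), cv_cm, B, (E_F k).1]
  have : (999 / 25000 : ℂ) ^ k = (999 / 1000) ^ k / 25 ^ k := by rw [← div_pow]; norm_num
  push_cast; rw [this]; ring

theorem LL_big : 6722501 ≤ ‖LL‖ ^ 2 := by
  have r : ∀ (c : ℤ × ℤ) (x : ℝ), (cv c * x).re = c.1 * x := fun c x => by simp [cv]
  have i : ∀ (c : ℤ × ℤ) (x : ℝ), (cv c * x).im = c.2 * x := fun c x => by simp [cv]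
  have hre : 2050.78 ≤ LL.re := by
    rw [LL_eq, re_sum]; simp only [r]
    simp only [Finset.sum_range_succ, Finset.sum_range_zero, gl, List.getD_cons_succ,
      List.getD_cons_zero]
    norm_num [Nat.factorial]
  have him : 1586.45 ≤ LL.im := by
    rw [LL_eq, im_sum]; simp only [i]
    simp only [Finset.sum_range_succ, Finset.sum_range_zero, gl, List.getD_cons_succ,
      List.getD_cons_zero]
    norm_num [Nat.factorial]
  rw [← normSq_eq_norm_sq, normSq_apply]
  nlinarith

noncomputable def gP : Polynomial ℂ := Polynomial.X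
  - Polynomial.C LL⁻¹ * ∑ k ∈ Finset.range 13, Polynomial.monomial k (B k)

noncomputable def gg (z : ℂ) : ℂ := gP.eval z

theorem LL_pos : 0 < ‖LL‖ := by
  by_contra h; have := LL_big; nlinarith [norm_nonneg LL]

theorem gg_main {z : ℂ} (hz : ‖z‖ < 1) (h0 : z ≠ 0) :
    ‖(deriv gg z - 1) - (gg z - z) / z‖ + ‖(deriv gg z - 1) + (gg z - z) / z‖ < 2 := by
  have d : deriv gg z = gP.derivative.eval z := Polynomial.deriv _
  have e1 : (deriv gg z - 1) + (gg z - z) / z = -LL⁻¹ * z * ev s1 z := by
    rw [d]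
    simp [gg, gP, Finset.sum_range_succ, B, bl, cv, ev, s1]
    field_simp; ring
  have e2 : (deriv gg z - 1) - (gg z - z) / z = -LL⁻¹ * z * ev s2 z := by
    rw [d]
    simp [gg, gP, Finset.sum_range_succ, B, bl, cv, ev, s2]
    field_simp; ring
  rw [e1, e2]
  simp only [norm_mul, norm_neg, norm_inv]
  rw [← mul_add, mul_assoc, inv_mul_lt_iff₀ LL_pos]
  have h1 := disc hz.le
  have h2 := LL_big
  have h3 : ‖ev s1 z‖ + ‖ev s2 z‖ < ‖LL‖ * 2 :=
    lt_of_pow_lt_pow_left₀ 2 (by positivity) (by nlinarith)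
  nlinarith [norm_nonneg z, norm_nonneg (ev s1 z), norm_nonneg (ev s2 z)]

theorem gg_diff : Differentiable ℂ gg := gP.differentiable

theorem gg_zero : gg 0 = 0 := by simp [gg, gP, Finset.sum_range_succ, B, bl, cv]

theorem gg_d0 : deriv gg 0 = 1 := by
  have d : deriv gg 0 = gP.derivative.eval 0 := Polynomial.deriv _
  rw [d]; simp [gP, Finset.sum_range_succ, B, bl, cv]

theorem had_zero : (∑' n : ℕ, (iteratedDeriv n gg 0 / (n.factorial : ℂ)) *
    (iteratedDeriv n hh 0 / (n.factorial : ℂ)) * (999 / 1000) ^ n) = 0 := by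
  have c : ∀ n, iteratedDeriv n gg 0 / (n.factorial : ℂ)
      = (if 1 = n then 1 else 0) - LL⁻¹ * if n ∈ Finset.range 13 then B n else 0 := fun n => by
    have := iter_poly gP n
    rw [show gg = fun z => gP.eval z from rfl, this]
    simp [gP, Polynomial.coeff_X, Polynomial.coeff_monomial]
  simp only [c, (hh_E _).1]
  rw [tsum_eq_sum (s := Finset.range 13) (fun n hn => by
    have : ¬ 1 = n := by rintro rfl; simp at hn
    simp [hn, this])]
  have L0 : LL ≠ 0 := norm_pos_iff.1 LL_pos
  have e : ∑ k ∈ Finset.range 13, B k * (E k / k.factorial) * (999 / 1000) ^ k = 999 / 1000 * LL := by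
    rw [LL, ← Finset.sum_div]; field_simp
  rw [Finset.sum_congr rfl (g := fun n => (if 1 = n then 1 else 0) * (E n / n.factorial)
    * (999 / 1000) ^ n - LL⁻¹ * (B n * (E n / n.factorial) * (999 / 1000) ^ n)) (fun n hn => by
      simp only [hn, if_true]; ring), Finset.sum_sub_distrib, ← Finset.mul_sum, e]
  simp [E]
  field_simp; ring

end Pool.Agent.H99.Sig
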