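import Mathlib

set_option autoImplicit false

namespace Pool.Agent.H99.Sofic

open Filter Topology

/-- X is a shift of finite type over G: X is the set of configurations in which no shift
(t x)_s = x_(t⁻¹ s) shows a pattern from a finite set P of forbidden patterns. -/
def IsSFT {G A : Type} [Group G] (X : Set (G → A)) : Prop :=
  ∃ P : Set (Σ F : Finset G, (F → A)), P.Finite ∧
    X = {x | ∀ t : G, ∀ p ∈ P, (fun s : p.1 => x (t⁻¹ * s)) ≠ p.2}

/-- A sofic approximation of G: maps π n from G to the permutations of finite sets K n that are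
asymptotically multiplicative and asymptotically free. -/
structure Approx (G : Type) [Group G] where
  K : ℕ → Type
  fin : ∀ n, Finite (K n)
  π : ∀ n, G → Equiv.Perm (K n)
  mul : ∀ s t : G, Tendsto (fun n => (Nat.card {k : K n // π n (s * t) k = π n s (π n t k)} : ℝ) /
    Nat.card (K n)) atTop (𝓝 1)
  free : ∀ s : G, s ≠ 1 → Tendsto (fun n => (Nat.card {k : K n // π n s k ≠ k} : ℝ) /
    Nat.card (K n)) atTop (𝓝 1)

/-- The set Ω_n(F, δ) of maps ω from K n to A such that for at least (1 - δ)|K n| points k the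
pattern (ω (π n s⁻¹ k)), s in F, lies in L_F(X). -/
def micro {G A : Type} [Group G] (S : Approx G) (X : Set (G → A)) (F : Finset G) (δ : ℝ) (n : ℕ) :
    Set (S.K n → A) :=
  {ω | (1 - δ) * Nat.card (S.K n) ≤
    Nat.card {k : S.K n // ∃ x ∈ X, ∀ s ∈ F, ω (S.π n s⁻¹ k) = x s}}

/-- The normalised logarithm (1/N) log c, with log 0 = -∞. -/
noncomputable def nlog (c N : ℕ) : EReal :=
  if c = 0 then ⊥ else ((Real.log c / N : ℝ) : EReal)

/-- Sofic topological entropy of X with respect to S. -/
noncomputable def ent {G A : Type} [Group G] (S : Approx G) (X : Set (G → A)) : EReal :=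
  ⨅ F : Finset G, ⨅ δ : {δ : ℝ // 0 < δ},
    limsup (fun n => nlog (Nat.card (micro S X F δ n)) (Nat.card (S.K n))) atTop

end Pool.Agent.H99.Sofic
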