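import Mathlib

namespace Pool.Agent.H99.StabDefs

open Matrix

/-- The Pauli matrices `I, X, Y, Z`, labelled `0, 1, 2, 3`. -/
def pauli : Fin 4 → Matrix (Fin 2) (Fin 2) ℂ :=
  ![1, !![0, 1; 1, 0], !![0, -Complex.I; Complex.I, 0], !![1, 0; 0, -1]]

/-- The tensor product `A 0 ⊗ ⋯ ⊗ A (n-1)` acting on `n` qubits. -/
def tens {n : ℕ} (A : Fin n → Matrix (Fin 2) (Fin 2) ℂ) :
    Matrix (Fin n → Fin 2) (Fin n → Fin 2) ℂ :=
  Matrix.of fun x y => ∏ i, A i (x i) (y i)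

/-- The operator permuting the qubits by `π`. -/
def permOp {n : ℕ} (π : Equiv.Perm (Fin n)) : Matrix (Fin n → Fin 2) (Fin n → Fin 2) ℂ :=
  Matrix.of fun x y => if y = x ∘ π then 1 else 0

/-- The codespace stabilized by the Pauli strings `g 0, …, g (m-1)`. -/
def codespace {n m : ℕ} (g : Fin m → Fin n → Fin 4) : Set ((Fin n → Fin 2) → ℂ) :=
  {ψ | ∀ k, tens (fun i => pauli (g k i)) *ᵥ ψ = ψ}

/-- Local unitary equivalence, qubit permutations included. -/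
def LUEquiv {n : ℕ} (Q Q' : Set ((Fin n → Fin 2) → ℂ)) : Prop :=
  ∃ (U : Fin n → Matrix.unitaryGroup (Fin 2) ℂ) (π : Equiv.Perm (Fin n)),
    (fun ψ => (tens (fun i => (U i : Matrix (Fin 2) (Fin 2) ℂ)) * permOp π) *ᵥ ψ) '' Q = Q'

end Pool.Agent.H99.StabDefs
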