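import Mathlib

set_option autoImplicit false

open MeasureTheory Set Filter Topology

namespace H99.Stein

noncomputable def I (a b c : ℝ) : ℝ → ℝ := (Icc a b).indicator fun _ => c

lemma I_int (a b c : ℝ) : Integrable (I a b c) :=
  (integrable_indicator_iff measurableSet_Icc).2 (integrableOn_const (by simp))

lemma I_val {a b : ℝ} (c : ℝ) (h : a ≤ b) : ∫ x, I a b c x = c * (b - a) := by
  rw [I, integral_indicator_const _ measurableSet_Icc, Real.volume_real_Icc_of_le h, smul_eq_mul,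
    mul_comm]

lemma I_nonneg (a b : ℝ) {c : ℝ} (h : 0 ≤ c) (x : ℝ) : 0 ≤ I a b c x :=
  indicator_nonneg (fun _ _ => h) x

lemma I_in {a b x : ℝ} (c : ℝ) (h1 : a ≤ x) (h2 : x ≤ b) : I a b c x = c :=
  indicator_of_mem (show x ∈ Icc a b from ⟨h1, h2⟩) _

lemma I_lt {a x : ℝ} (b c : ℝ) (h1 : x < a) : I a b c x = 0 :=
  indicator_of_notMem (fun h => absurd h.1 h1.not_ge) _

lemma I_gt {b x : ℝ} (a c : ℝ) (h1 : b < x) : I a b c x = 0 :=
  indicator_of_notMem (fun h => absurd h.2 h1.not_ge) _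

lemma st4 {a1 b1 c1 a2 b2 c2 a3 b3 c3 a4 b4 c4 : ℝ} (h1 : a1 ≤ b1) (h2 : a2 ≤ b2) (h3 : a3 ≤ b3)
    (h4 : a4 ≤ b4) (p1 : 0 ≤ c1) (p2 : 0 ≤ c2) (p3 : 0 ≤ c3) (p4 : 0 ≤ c4) :
    ∫⁻ x, ENNReal.ofReal (I a1 b1 c1 x + I a2 b2 c2 x + I a3 b3 c3 x + I a4 b4 c4 x) =
      ENNReal.ofReal (c1 * (b1 - a1) + c2 * (b2 - a2) + c3 * (b3 - a3) + c4 * (b4 - a4)) := by
  have i2 := (I_int a1 b1 c1).add (I_int a2 b2 c2)
  have i3 := i2.add (I_int a3 b3 c3)
  refine (ofReal_integral_eq_lintegral_ofReal (i3.add (I_int a4 b4 c4)) (.of_forall fun x => by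
    have := I_nonneg a1 b1 p1 x; have := I_nonneg a2 b2 p2 x; have := I_nonneg a3 b3 p3 x
    have := I_nonneg a4 b4 p4 x; simp only [Pi.add_apply, Pi.zero_apply]; linarith)).symm.trans ?_
  congr 1
  have e1 := integral_add i3 (I_int a4 b4 c4)
  have e2 := integral_add i2 (I_int a3 b3 c3)
  have e3 := integral_add (I_int a1 b1 c1) (I_int a2 b2 c2)
  simp only [Pi.add_apply] at e1 e2 e3 ⊢
  rw [e1, e2, e3, I_val _ h1, I_val _ h2, I_val _ h3, I_val _ h4]

/-- Dirichlet energy and its horizontal slices -/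
noncomputable def En (u : ℂ → ℝ) : ENNReal := ∫⁻ z, ‖fderiv ℝ u z‖ₑ ^ 2

noncomputable def G (u : ℂ → ℝ) (y : ℝ) : ENNReal := ∫⁻ x : ℝ, ‖fderiv ℝ u ⟨x, y⟩‖ₑ ^ 2

lemma En_eq (u : ℂ → ℝ) : En u = ∫⁻ y, G u y := by
  have m : Measurable fun z => ‖fderiv ℝ u z‖ₑ ^ 2 := (measurable_fderiv ℝ u).enorm.pow_const 2
  rw [En, ← (Complex.volume_preserving_equiv_real_prod.symm).lintegral_comp_emb
    Complex.measurableEquivRealProd.symm.measurableEmbedding, Measure.volume_eq_prod]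
  exact lintegral_prod_symm _ (m.comp Complex.measurableEquivRealProd.symm.measurable).aemeasurable

lemma seg {f : ℝ → ℝ} {a b : ℝ} (hab : a ≤ b) {K : NNReal} (hf : LipschitzOnWith K f (Icc a b))
    {g : ℝ → ENNReal} (hg : ∀ᵐ x, ‖deriv f x‖ₑ ≤ g x) (s : ℝ) :
    ENNReal.ofReal (2 * s * (f a - f b) - s ^ 2 * (b - a)) ≤ ∫⁻ x in Ioc a b, g x ^ 2 := by
  have ac : AbsolutelyContinuousOnInterval f a b :=
    LipschitzOnWith.absolutelyContinuousOnInterval (by rwa [uIcc_of_le hab])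
  have i0 := ac.intervalIntegrable_deriv
  have i1 : IntervalIntegrable (fun x => -(2 * s) * deriv f x - s ^ 2) volume a b :=
    (i0.const_mul _).sub intervalIntegrable_const
  have e : ∫ x in a..b, (-(2 * s) * deriv f x - s ^ 2) = 2 * s * (f a - f b) - s ^ 2 * (b - a) := by
    rw [intervalIntegral.integral_sub (i0.const_mul _) intervalIntegrable_const,
      intervalIntegral.integral_const_mul, ac.integral_deriv_eq_sub]
    simp; ring
  rw [← e, intervalIntegral.integral_of_le hab]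
  have i2 := ((intervalIntegrable_iff_integrableOn_Ioc_of_le hab).1 i1)
  refine (ENNReal.ofReal_le_ofReal (integral_mono i2 i2.pos_part fun x => le_max_left _ _)).trans ?_
  rw [ofReal_integral_eq_lintegral_ofReal i2.pos_part (.of_forall fun x => le_max_right _ _)]
  refine lintegral_mono_ae (ae_restrict_of_ae ?_)
  filter_upwards [hg] with x hx
  refine le_trans ?_ (pow_le_pow_left' hx 2)
  rw [← ofReal_norm, ← ENNReal.ofReal_pow (norm_nonneg _), Real.norm_eq_abs, sq_abs]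
  exact ENNReal.ofReal_le_ofReal (max_le (by nlinarith [sq_nonneg (deriv f x + s)]) (sq_nonneg _))

lemma ae_diff {u : ℂ → ℝ} (hu : LocallyLipschitz u) : ∀ᵐ z, DifferentiableAt ℝ u z := by
  have : ∀ n : ℕ, ∀ᵐ z, z ∈ Metric.ball (0 : ℂ) n → DifferentiableAt ℝ u z := fun n => by
    obtain ⟨K, hK⟩ := (hu.locallyLipschitzOn (s := Metric.closedBall 0 n)).exists_lipschitzOnWith_of_compact
      (isCompact_closedBall _ _)
    filter_upwards [(hK.mono Metric.ball_subset_closedBall).ae_differentiableWithinAt_of_mem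
      (μ := volume)] with z hz h
    exact (hz h).differentiableAt (Metric.isOpen_ball.mem_nhds h)
  filter_upwards [ae_all_iff.2 this] with z hz
  obtain ⟨n, hn⟩ := exists_nat_gt ‖z‖
  exact hz n (by simpa using hn)

lemma slice {u : ℂ → ℝ} (hu : LocallyLipschitz u) : ∀ᵐ y : ℝ, ∀ a b s : ℝ, a ≤ b →
    ENNReal.ofReal (2 * s * (u ⟨a, y⟩ - u ⟨b, y⟩) - s ^ 2 * (b - a)) ≤
      ∫⁻ x in Ioc a b, ‖fderiv ℝ u ⟨x, y⟩‖ₑ ^ 2 := by
  have h1 := (Complex.volume_preserving_equiv_real_prod.symm).quasiMeasurePreserving.ae (ae_diff hu)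
  rw [Measure.volume_eq_prod] at h1
  have h2 := Measure.ae_ae_of_ae_prod (Measure.measurePreserving_swap.quasiMeasurePreserving.ae h1)
  filter_upwards [h2] with y hy a b s hab
  have e : ∀ x : ℝ, (⟨x, y⟩ : ℂ) = x + y * Complex.I := fun x => by
    apply Complex.ext <;> simp
  have l : LipschitzWith 1 fun x : ℝ => (⟨x, y⟩ : ℂ) := LipschitzWith.of_dist_le_mul fun p q => by
    rw [e, e, dist_add_right, Complex.isometry_ofReal.dist_eq]; simp
  obtain ⟨K, hK⟩ := ((hu.comp l.locallyLipschitz).locallyLipschitzOn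
    (s := Icc a b)).exists_lipschitzOnWith_of_compact isCompact_Icc
  refine seg (f := fun x => u ⟨x, y⟩) hab hK ?_ s
  filter_upwards [hy] with x hx
  have d : HasDerivAt (fun x : ℝ => (⟨x, y⟩ : ℂ)) 1 x := by
    simp only [e]; simpa using (Complex.ofRealCLM.hasDerivAt (x := x)).add_const (y * Complex.I)
  have := (HasFDerivAt.comp_hasDerivAt x (DifferentiableAt.hasFDerivAt hx) d).deriv
  rw [show deriv (fun x => u ⟨x, y⟩) x = fderiv ℝ u ⟨x, y⟩ 1 from this, ← ofReal_norm,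
    ← ofReal_norm]
  exact ENNReal.ofReal_le_ofReal (by simpa using (fderiv ℝ u ⟨x, y⟩).le_opNorm 1)

theorem lower {u : ℂ → ℝ} (hu : LocallyLipschitz u) {M : ℝ} (hM : 0 < M)
    (h1 : ∀ y, |y| ≤ M → u ⟨-2, y⟩ = 1) (h2 : ∀ y, |y| ≤ M → u ⟨2, y⟩ = -1)
    (h3 : ∀ y, M / 2 ≤ |y| → u ⟨-1, y⟩ = 0 ∧ u ⟨1, y⟩ = 0) : ENNReal.ofReal (3 * M) ≤ En u := by
  have := st4 (a1 := -M) (b1 := M) (c1 := 1) (a2 := -M) (b2 := -(M / 2)) (c2 := 1) (a3 := M / 2)
    (b3 := M) (c3 := 1) (a4 := 0) (b4 := 0) (c4 := 0) (by linarith) (by linarith) (by linarith)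
    le_rfl zero_le_one zero_le_one zero_le_one le_rfl
  rw [show 1 * (M - -M) + 1 * (-(M / 2) - -M) + 1 * (M - M / 2) + 0 * (0 - 0) = 3 * M by ring] at this
  rw [← this, En_eq]
  refine lintegral_mono_ae ?_
  filter_upwards [slice hu] with y hy
  have z4 : I 0 0 0 y = 0 := by simp [I]
  have two : M / 2 ≤ |y| → |y| ≤ M → ENNReal.ofReal 2 ≤ G u y := fun p q => by
    have a := hy (-2) (-1) 1 (by norm_num)
    have b := hy 1 2 1 (by norm_num)
    rw [h1 y q, (h3 y p).1] at a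
    rw [h2 y q, (h3 y p).2] at b
    norm_num at a b
    have c := lintegral_union (μ := volume) (f := fun x : ℝ => ‖fderiv ℝ u ⟨x, y⟩‖ₑ ^ 2)
      (A := Ioc (-2 : ℝ) (-1)) (B := Ioc (1 : ℝ) 2) measurableSet_Ioc
      (Ioc_disjoint_Ioc.2 (by norm_num))
    calc ENNReal.ofReal 2 = 1 + 1 := by norm_num
      _ ≤ _ := add_le_add a b
      _ ≤ _ := by rw [← c]; exact setLIntegral_le_lintegral _ _
  rw [z4, add_zero]
  rcases lt_or_ge y (-M) with p | p
  · rw [I_lt _ _ p, I_lt _ _ p, I_lt _ _ (by linarith)]; simp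
  rcases le_or_gt y (-(M / 2)) with q | q
  · rw [I_in _ p (by linarith), I_in _ p q, I_lt _ _ (by linarith)]
    norm_num
    simpa using two (by rw [abs_of_neg (by linarith)]; linarith) (abs_le.2 ⟨p, by linarith⟩)
  rcases lt_or_ge y (M / 2) with r | r
  · rw [I_in _ p (by linarith), I_gt _ _ q, I_lt _ _ r]
    have a := hy (-2) 2 (1 / 2) (by norm_num)
    have t : |y| ≤ M := abs_le.2 ⟨p, by linarith⟩
    rw [h1 y t, h2 y t] at a
    norm_num at a ⊢
    exact a.trans (setLIntegral_le_lintegral _ _)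
  rcases le_or_gt y M with t | t
  · rw [I_in _ p t, I_gt _ _ q, I_in _ r t]
    norm_num
    simpa using two (r.trans (le_abs_self _)) (abs_le.2 ⟨p, t⟩)
  · rw [I_gt _ _ t, I_gt _ _ q, I_gt _ _ t]; simp

/-- local and global Lipschitz bounds -/
def LL (f : ℂ → ℝ) (z : ℂ) (c : ℝ) : Prop := ∀ᶠ w in 𝓝 z, |f w - f z| ≤ c * ‖w - z‖

def Gl (f : ℂ → ℝ) (c : ℝ) : Prop := ∀ w z, |f w - f z| ≤ c * ‖w - z‖

lemma LL.add {f g : ℂ → ℝ} {z : ℂ} {c d : ℝ} (h : LL f z c) (k : LL g z d) :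
    LL (fun w => f w + g w) z (c + d) := by
  filter_upwards [h, k] with w a b
  have := abs_add_le (f w - f z) (g w - g z)
  rw [show f w + g w - (f z + g z) = f w - f z + (g w - g z) by ring]; linarith

lemma LL.sub {f g : ℂ → ℝ} {z : ℂ} {c d : ℝ} (h : LL f z c) (k : LL g z d) :
    LL (fun w => f w - g w) z (c + d) := by
  filter_upwards [h, k] with w a b
  have := abs_sub (f w - f z) (g w - g z)
  rw [show f w - g w - (f z - g z) = f w - f z - (g w - g z) by ring]; linarith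

lemma LL.congr {f g : ℂ → ℝ} {z : ℂ} {c : ℝ} (h : LL f z c) (e : g =ᶠ[𝓝 z] f) : LL g z c := by
  filter_upwards [h, e] with w a b
  rw [b, e.eq_of_nhds]; exact a

lemma LL.bd {f : ℂ → ℝ} {z : ℂ} {c d : ℝ} (h : LL f z c) (hc : 0 ≤ c) (hd : c ^ 2 ≤ d) :
    ‖fderiv ℝ f z‖ₑ ^ 2 ≤ ENNReal.ofReal d := by
  have := norm_fderiv_le_of_lip' ℝ (f := f) (x₀ := z) hc (h.mono fun _ hw => hw)
  rw [← ofReal_norm, ← ENNReal.ofReal_pow (norm_nonneg _)]
  exact ENNReal.ofReal_le_ofReal ((pow_le_pow_left₀ (norm_nonneg _) this 2).trans hd)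

lemma Gl.ll {f : ℂ → ℝ} {c : ℝ} (h : Gl f c) (z : ℂ) : LL f z c := .of_forall fun w => h w z

lemma Gl.add {f g : ℂ → ℝ} {c d : ℝ} (h : Gl f c) (k : Gl g d) :
    Gl (fun w => f w + g w) (c + d) := fun w z => by
  have := abs_add_le (f w - f z) (g w - g z)
  rw [show f w + g w - (f z + g z) = f w - f z + (g w - g z) by ring]; linarith [h w z, k w z]

lemma Gl.sub {f g : ℂ → ℝ} {c d : ℝ} (h : Gl f c) (k : Gl g d) :
    Gl (fun w => f w - g w) (c + d) := fun w z => by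
  have := abs_sub (f w - f z) (g w - g z)
  rw [show f w - g w - (f z - g z) = f w - f z - (g w - g z) by ring]; linarith [h w z, k w z]

lemma Gl.mul {f g : ℂ → ℝ} {c d P Q : ℝ} (h : Gl f c) (k : Gl g d) (hf : ∀ w, |f w| ≤ P)
    (hg : ∀ w, |g w| ≤ Q) : Gl (fun w => f w * g w) (Q * c + P * d) := fun w z => by
  rw [show f w * g w - f z * g z = g w * (f w - f z) + f z * (g w - g z) by ring]
  refine (abs_add_le _ _).trans ?_
  rw [abs_mul, abs_mul]
  have a := mul_le_mul (hg w) (h w z) (abs_nonneg _) ((abs_nonneg _).trans (hg w))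
  have b := mul_le_mul (hf z) (k w z) (abs_nonneg _) ((abs_nonneg _).trans (hf z))
  linarith

lemma Gl.lip {f : ℂ → ℝ} {c : ℝ} (h : Gl f c) : LipschitzWith c.toNNReal f :=
  LipschitzWith.of_dist_le' fun w z => by rw [Real.dist_eq, dist_eq_norm]; exact h w z

noncomputable def r (t : ℝ) : ℝ := max 0 (min 1 t)

lemma r_lip (s t : ℝ) : |r s - r t| ≤ |s - t| := by
  refine (abs_max_sub_max_le_max _ _ _ _).trans (max_le (by simp) ?_)
  exact (abs_min_sub_min_le_max _ _ _ _).trans (max_le (by simp) le_rfl)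

lemma r0 {t : ℝ} (h : t ≤ 0) : r t = 0 := max_eq_left (min_le_of_right_le h)
lemma r1 {t : ℝ} (h : 1 ≤ t) : r t = 1 := by rw [r, min_eq_left h]; simp
lemma r_nn (t : ℝ) : 0 ≤ r t := le_max_left _ _
lemma r_le (t : ℝ) : r t ≤ 1 := max_le zero_le_one (min_le_left _ _)
lemma r_abs (t : ℝ) : |r t| ≤ 1 := by rw [abs_of_nonneg (r_nn t)]; exact r_le t

lemma Gl.r {f : ℂ → ℝ} {c : ℝ} (h : Gl f c) : Gl (fun w => r (f w)) c :=
  fun w z => (r_lip _ _).trans (h w z)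

noncomputable def ρ (a l : ℝ) (w : ℂ) : ℝ := r ((w.re - a) / l)

lemma ρ0 {a l : ℝ} (hl : 0 < l) {w : ℂ} (h : w.re ≤ a) : ρ a l w = 0 :=
  r0 (div_nonpos_of_nonpos_of_nonneg (by linarith) hl.le)

lemma ρ1 {a l : ℝ} (hl : 0 < l) {w : ℂ} (h : a + l ≤ w.re) : ρ a l w = 1 :=
  r1 ((one_le_div hl).2 (by linarith))

lemma ρ_Gl (a : ℝ) {l : ℝ} (hl : 0 < l) : Gl (ρ a l) (1 / l) := by
  refine Gl.r fun w z => ?_
  rw [← sub_div, abs_div, abs_of_pos hl, sub_sub_sub_cancel_right, ← Complex.sub_re,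
    one_div_mul_eq_div]
  gcongr; exact Complex.abs_re_le_norm _

lemma ρ_LL (a : ℝ) {l : ℝ} (hl : 0 < l) (z : ℂ) : LL (ρ a l) z (I a (a + l) (1 / l) z.re) := by
  rcases lt_or_ge z.re a with p | p
  · rw [I_lt _ _ p]
    filter_upwards [Complex.continuous_re.continuousAt.eventually_lt continuousAt_const p] with w hw
    rw [ρ0 hl hw.le, ρ0 hl p.le]; simp
  rcases le_or_gt z.re (a + l) with q | q
  · rw [I_in _ p q]; exact (ρ_Gl a hl).ll z
  · rw [I_gt _ _ q]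
    filter_upwards [continuousAt_const.eventually_lt Complex.continuous_re.continuousAt q] with w hw
    rw [ρ1 hl hw.le, ρ1 hl q.le]; simp

lemma G_le {u : ℂ → ℝ} {L : ℝ} (hL : 0 ≤ L) (h : Gl u L) (h0 : ∀ w, 26 < |w.re| → u w = 0)
    (y : ℝ) : G u y ≤ ENNReal.ofReal (L ^ 2 * 52) := by
  have := st4 (a1 := -26) (b1 := 26) (c1 := L ^ 2) (a2 := 0) (b2 := 0) (c2 := 0) (a3 := 0)
    (b3 := 0) (c3 := 0) (a4 := 0) (b4 := 0) (c4 := 0) (by norm_num) le_rfl le_rfl le_rfl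
    (sq_nonneg _) le_rfl le_rfl le_rfl
  rw [show L ^ 2 * (26 - -26) + 0 * (0 - 0) + 0 * (0 - 0) + 0 * (0 - 0) = L ^ 2 * 52 by ring] at this
  rw [← this]
  refine lintegral_mono fun x => ?_
  have z4 : I 0 0 0 x = 0 := by simp [I]
  simp only [z4, add_zero]
  by_cases p : |x| ≤ 26
  · rw [I_in _ (abs_le.1 p).1 (abs_le.1 p).2]
    exact (h.ll _).bd hL le_rfl
  · have l : LL u ⟨x, y⟩ 0 := by
      have c : ContinuousAt (fun w : ℂ => |w.re|) ⟨x, y⟩ := by fun_prop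
      filter_upwards [continuousAt_const.eventually_lt c (not_le.1 p)] with w hw
      rw [h0 w hw, h0 _ (not_le.1 p)]; simp
    exact l.bd le_rfl (by simpa using I_nonneg _ _ (sq_nonneg L) x)

lemma G_zero {u : ℂ → ℝ} {N : ℝ} (h0 : ∀ w, N < |w.im| → u w = 0) {y : ℝ} (hy : N < |y|) :
    G u y = 0 := by
  refine le_antisymm ?_ (by simp)
  refine (lintegral_mono (g := fun _ => 0) fun x => ?_).trans (by simp)
  have l : LL u ⟨x, y⟩ 0 := by
    have c : ContinuousAt (fun w : ℂ => |w.im|) ⟨x, y⟩ := by fun_prop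
    filter_upwards [continuousAt_const.eventually_lt c hy] with w hw
    rw [h0 w hw, h0 _ hy]; simp
  simpa using l.bd (d := 0) le_rfl (by simp)

noncomputable def C (w : ℂ) : ℝ := ρ (-26) 24 w - ρ (-2) 1 w - ρ 1 1 w + ρ 2 24 w
noncomputable def D (w : ℂ) : ℝ := ρ 1 1 w - ρ (-1) 3 w
noncomputable def D' (w : ℂ) : ℝ := ρ (-2) 1 w - ρ (-2) 3 w
noncomputable def u0 (M : ℝ) (w : ℂ) : ℝ := C w * r (M + 1 - |w.im|)
noncomputable def v (M : ℝ) (w : ℂ) : ℝ :=
  u0 M w + D w * r (min (-w.im) (w.im + M)) + D' w * r (min w.im (M - w.im))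

lemma ρ_nn (a l : ℝ) (w : ℂ) : 0 ≤ ρ a l w := r_nn _
lemma ρ_le (a l : ℝ) (w : ℂ) : ρ a l w ≤ 1 := r_le _

lemma imb (w z : ℂ) : |w.im - z.im| ≤ 1 * ‖w - z‖ := by
  rw [one_mul, ← Complex.sub_im]; exact Complex.abs_im_le_norm _

lemma u0_Gl (M : ℝ) : Gl (u0 M) (1 * (1 / 24 + 1 / 1 + 1 / 1 + 1 / 24) + 2 * 1) := by
  refine Gl.mul ((((ρ_Gl _ (by norm_num)).sub (ρ_Gl _ one_pos)).sub (ρ_Gl _ one_pos)).add
    (ρ_Gl _ (by norm_num))) (Gl.r fun w z => ?_) (fun w => ?_) fun w => r_abs _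
  · rw [sub_sub_sub_cancel_left, abs_sub_comm]
    exact (abs_abs_sub_abs_le_abs_sub _ _).trans (imb w z)
  · have := ρ_nn (-26) 24 w; have := ρ_nn (-2) 1 w; have := ρ_nn 1 1 w; have := ρ_nn 2 24 w
    have := ρ_le (-26) 24 w; have := ρ_le (-2) 1 w; have := ρ_le 1 1 w; have := ρ_le 2 24 w
    exact abs_le.2 ⟨by rw [C]; linarith, by rw [C]; linarith⟩

lemma v_Gl (M : ℝ) : Gl (v M) 11 := by
  have b : ∀ a l a' l' w, |ρ a l w - ρ a' l' w| ≤ 1 := fun a l a' l' w => by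
    have := ρ_nn a l w; have := ρ_nn a' l' w; have := ρ_le a l w; have := ρ_le a' l' w
    exact abs_le.2 ⟨by linarith, by linarith⟩
  have g1 : Gl (fun w => D w * r (min (-w.im) (w.im + M))) (1 * (1 / 1 + 1 / 3) + 1 * 1) := by
    refine Gl.mul ((ρ_Gl _ one_pos).sub (ρ_Gl _ (by norm_num))) (Gl.r fun w z => ?_) (b _ _ _ _)
      fun w => r_abs _
    refine (abs_min_sub_min_le_max _ _ _ _).trans (max_le ?_ ?_)
    · rw [neg_sub_neg, abs_sub_comm]; exact imb w z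
    · rw [add_sub_add_right_eq_sub]; exact imb w z
  have g2 : Gl (fun w => D' w * r (min w.im (M - w.im))) (1 * (1 / 1 + 1 / 3) + 1 * 1) := by
    refine Gl.mul ((ρ_Gl _ one_pos).sub (ρ_Gl _ (by norm_num))) (Gl.r fun w z => ?_) (b _ _ _ _)
      fun w => r_abs _
    refine (abs_min_sub_min_le_max _ _ _ _).trans (max_le (imb w z) ?_)
    rw [sub_sub_sub_cancel_left, abs_sub_comm]; exact imb w z
  intro w z
  have := ((u0_Gl M).add g1).add g2 w z
  exact this.trans (by gcongr; norm_num)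

lemma far {w : ℂ} (h : 26 < |w.re|) : C w = 0 ∧ D w = 0 ∧ D' w = 0 := by
  simp only [C, D, D']
  rcases lt_abs.1 h with p | p
  · iterate 6 rw [ρ1 (by norm_num) (by linarith)]
    norm_num
  · iterate 6 rw [ρ0 (by norm_num) (by linarith)]
    norm_num

lemma u0_re (M : ℝ) (w : ℂ) (h : 26 < |w.re|) : u0 M w = 0 := by rw [u0, (far h).1, zero_mul]

lemma v_re (M : ℝ) (w : ℂ) (h : 26 < |w.re|) : v M w = 0 := by
  rw [v, u0_re M w h, (far h).2.1, (far h).2.2]; simp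

lemma u0_im (M : ℝ) (w : ℂ) (h : M + 1 < |w.im|) : u0 M w = 0 := by
  rw [u0, r0 (by linarith), mul_zero]

lemma v_im {M : ℝ} (hM : 0 ≤ M) (w : ℂ) (h : M + 1 < |w.im|) : v M w = 0 := by
  rw [v, u0_im M w h]
  rcases lt_abs.1 h with p | p
  · rw [r0 (min_le_of_left_le (by linarith)), r0 (min_le_of_right_le (by linarith))]; simp
  · rw [r0 (min_le_of_right_le (by linarith)), r0 (min_le_of_left_le (by linarith))]; simp

lemma vals (w : ℂ) : (w.re = -2 → C w = 1 ∧ D w = 0 ∧ D' w = 0) ∧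
    (w.re = 2 → C w = -1 ∧ D w = 0 ∧ D' w = 0) ∧ (w.re = -1 → C w = 0 ∧ D w = 0) ∧
    (w.re = 1 → C w = 0 ∧ D' w = 0) := by
  refine ⟨fun h => ?_, fun h => ?_, fun h => ?_, fun h => ?_⟩ <;>
    simp only [C, D, D', ρ, r, h] <;> norm_num

lemma u0_fin (M : ℝ) (hM : 0 ≤ M) : En (u0 M) < ⊤ := by
  set T : ℝ := (1 * (1 / 24 + 1 / 1 + 1 / 1 + 1 / 24) + 2 * 1) ^ 2 * 52
  have := st4 (a1 := -(M + 1)) (b1 := M + 1) (c1 := T) (a2 := 0) (b2 := 0) (c2 := 0) (a3 := 0)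
    (b3 := 0) (c3 := 0) (a4 := 0) (b4 := 0) (c4 := 0) (by linarith) le_rfl le_rfl le_rfl
    (by positivity) le_rfl le_rfl le_rfl
  refine lt_of_le_of_lt ?_ (this ▸ ENNReal.ofReal_lt_top)
  rw [En_eq]
  refine lintegral_mono fun y => ?_
  have z4 : I 0 0 0 y = 0 := by simp [I]
  simp only [z4, add_zero]
  by_cases p : |y| ≤ M + 1
  · rw [I_in _ (abs_le.1 p).1 (abs_le.1 p).2]
    exact G_le (by norm_num) (u0_Gl M) (u0_re M) y
  · rw [G_zero (u0_im M) (not_le.1 p)]; simp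

lemma ae3 (a b c : ℝ) : ∀ᵐ x : ℝ, x ≠ a ∧ x ≠ b ∧ x ≠ c :=
  (Measure.ae_ne volume a).and ((Measure.ae_ne volume b).and (Measure.ae_ne volume c))

lemma sq4 {a b c d e p q s t x : ℝ} (h : x ≠ b ∧ x ≠ c ∧ x ≠ d) (h2 : b < c)
    (h3 : c < d) : (I a b p x + I b c q x + I c d s x + I d e t x) ^ 2 ≤
      I a b (p ^ 2) x + I b c (q ^ 2) x + I c d (s ^ 2) x + I d e (t ^ 2) x := by
  have k : ∀ a b p, I a b p x ^ 2 = I a b (p ^ 2) x := fun a b p => by
    by_cases h : x ∈ Icc a b <;> simp [I, h]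
  rcases lt_or_gt_of_ne h.1 with i | i
  · simp only [I_lt _ _ i, I_lt _ _ (i.trans h2), I_lt _ _ ((i.trans h2).trans h3), add_zero, k,
      le_refl]
  rcases lt_or_gt_of_ne h.2.1 with j | j
  · simp only [I_gt _ _ i, I_lt _ _ j, I_lt _ _ (j.trans h3), add_zero, zero_add, k, le_refl]
  rcases lt_or_gt_of_ne h.2.2 with l | l
  · simp only [I_gt _ _ i, I_gt _ _ j, I_lt _ _ l, add_zero, zero_add, k, le_refl]
  · simp only [I_gt _ _ i, I_gt _ _ j, I_gt _ _ l, add_zero, zero_add, k, le_refl]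

lemma G_main {u : ℂ → ℝ} {y l m : ℝ} (hl : 0 < l) (hm : 0 < m) (hs : -2 + l + m = 2)
    (he : 1 / l + 1 / m = 4 / 3) (h : ∀ x : ℝ, u =ᶠ[𝓝 ⟨x, y⟩]
      fun w => ρ (-26) 24 w - ρ (-2) l w - ρ (-2 + l) m w + ρ 2 24 w) :
    G u y ≤ ENNReal.ofReal (17 / 12) := by
  have := st4 (a1 := -26) (b1 := -2) (c1 := (1 / 24) ^ 2) (a2 := -2) (b2 := -2 + l)
    (c2 := (1 / l) ^ 2) (a3 := -2 + l) (b3 := 2) (c3 := (1 / m) ^ 2) (a4 := 2) (b4 := 26)
    (c4 := (1 / 24) ^ 2) (by norm_num) (by linarith) (by linarith) (by norm_num)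
    (sq_nonneg _) (sq_nonneg _) (sq_nonneg _) (sq_nonneg _)
  have e : ((1 : ℝ) / 24) ^ 2 * (-2 - -26) + (1 / l) ^ 2 * (-2 + l - -2) +
      (1 / m) ^ 2 * (2 - (-2 + l)) + (1 / 24) ^ 2 * (26 - 2) = 17 / 12 := by
    rw [show 2 - (-2 + l) = m by linarith, show -2 + l - -2 = l by ring,
      show (1 / l) ^ 2 * l = 1 / l by field_simp, show (1 / m) ^ 2 * m = 1 / m by field_simp]
    linarith
  rw [← e, ← this]
  refine lintegral_mono_ae ?_
  filter_upwards [ae3 (-2) (-2 + l) 2] with x hx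
  have L := ((((ρ_LL (-26) (l := 24) (by norm_num) ⟨x, y⟩).sub (ρ_LL (-2) hl _)).sub
    (ρ_LL (-2 + l) hm _)).add (ρ_LL 2 (l := 24) (by norm_num) _)).congr (h x)
  rw [hs, show (-26 : ℝ) + 24 = -2 by norm_num, show (2 : ℝ) + 24 = 26 by norm_num] at L
  refine L.bd ?_ (sq4 hx (by linarith) (by linarith))
  have := I_nonneg (-26) (-2) (c := 1 / 24) (by norm_num) x
  have := I_nonneg (-2) (-2 + l) (c := 1 / l) (by positivity) x
  have := I_nonneg (-2 + l) 2 (c := 1 / m) (by positivity) x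
  have := I_nonneg 2 26 (c := 1 / 24) (by norm_num) x
  positivity

theorem upper {M : ℝ} (hM : 2 ≤ M) :
    En (v M) ≤ ENNReal.ofReal (17 / 12 * (2 * M + 2) + 6 * (11 ^ 2 * 52)) := by
  have := st4 (a1 := -(M + 1)) (b1 := M + 1) (c1 := 17 / 12) (a2 := -(M + 1)) (b2 := -(M - 1))
    (c2 := 11 ^ 2 * 52) (a3 := -1) (b3 := 1) (c3 := 11 ^ 2 * 52) (a4 := M - 1) (b4 := M + 1)
    (c4 := 11 ^ 2 * 52) (by linarith) (by linarith) (by linarith) (by linarith) (by norm_num)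
    (by norm_num) (by norm_num) (by norm_num)
  refine le_of_le_of_eq ?_ (this.trans (by congr 1; ring))
  rw [En_eq]
  refine lintegral_mono fun y => ?_
  have T := G_le (by norm_num) (v_Gl M) (v_re M) y
  have n1 := I_nonneg (-(M + 1)) (M + 1) (c := 17 / 12) (by norm_num) y
  have n2 := I_nonneg (-(M + 1)) (-(M - 1)) (c := 11 ^ 2 * 52) (by norm_num) y
  have n3 := I_nonneg (-1) 1 (c := 11 ^ 2 * 52) (by norm_num) y
  have n4 := I_nonneg (M - 1) (M + 1) (c := 11 ^ 2 * 52) (by norm_num) y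
  by_cases p : M + 1 < |y|
  · rw [G_zero (v_im (by linarith)) p]; simp
  have p' := abs_le.1 (not_lt.1 p)
  rcases le_or_gt y (-(M - 1)) with a | a
  · exact T.trans (ENNReal.ofReal_le_ofReal (by
      rw [I_in _ p'.1 a]
      exact le_add_of_le_of_nonneg (le_add_of_le_of_nonneg (le_add_of_nonneg_left n1) n3) n4))
  rcases lt_or_ge y (-1) with b | b
  · refine (G_main (l := 1) (m := 3) one_pos (by norm_num) (by norm_num) (by norm_num)
      fun x => ?_).trans (ENNReal.ofReal_le_ofReal (by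
      rw [I_in _ p'.1 p'.2]
      exact le_add_of_le_of_nonneg (le_add_of_le_of_nonneg (le_add_of_nonneg_right n2) n3) n4))
    filter_upwards [continuousAt_const.eventually_lt (Complex.continuous_im.continuousAt
      (x := ⟨x, y⟩)) a, (Complex.continuous_im.continuousAt (x := ⟨x, y⟩)).eventually_lt
      continuousAt_const b] with w h1 h2
    rw [v, u0, r1 (by rw [abs_of_neg (by linarith)]; linarith),
      r1 (le_min (by linarith) (by linarith)), r0 (min_le_of_left_le (by linarith)), C, D]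
    norm_num; ring
  rcases le_or_gt y 1 with c | c
  · exact T.trans (ENNReal.ofReal_le_ofReal (by
      rw [I_in _ b c]
      exact le_add_of_le_of_nonneg (le_add_of_nonneg_left (add_nonneg n1 n2)) n4))
  rcases lt_or_ge y (M - 1) with d | d
  · refine (G_main (l := 3) (m := 1) (by norm_num) one_pos (by norm_num) (by norm_num)
      fun x => ?_).trans (ENNReal.ofReal_le_ofReal (by
      rw [I_in _ p'.1 p'.2]
      exact le_add_of_le_of_nonneg (le_add_of_le_of_nonneg (le_add_of_nonneg_right n2) n3) n4))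
    filter_upwards [continuousAt_const.eventually_lt (Complex.continuous_im.continuousAt
      (x := ⟨x, y⟩)) c, (Complex.continuous_im.continuousAt (x := ⟨x, y⟩)).eventually_lt
      continuousAt_const d] with w h1 h2
    rw [v, u0, r1 (by rw [abs_of_pos (by linarith)]; linarith),
      r0 (min_le_of_left_le (by linarith)), r1 (le_min (by linarith) (by linarith)), C, D']
    norm_num; ring
  · exact T.trans (ENNReal.ofReal_le_ofReal (by
      rw [I_in _ d p'.2]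
      exact le_add_of_nonneg_left (add_nonneg (add_nonneg n1 n2) n3)))

end H99.Stein
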