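import Mathlib

/-! Binomial coefficients, power series on the unit disc, and three-circle tools. -/

open Filter Topology Set Metric

noncomputable section

namespace Pool.Agent.H99.TN

def ch (s : ℝ) (k : ℕ) : ℝ := Ring.choose s k

def PP (M k : ℕ) : ℝ := ((k + M).choose M : ℝ)

def WW (M : ℕ) (x : ℝ) : ℝ := 1 / (1 - x) ^ (M + 1)

@[simp] theorem ch_zero (s : ℝ) : ch s 0 = 1 := by simp [ch]

theorem ch_succ (s : ℝ) (k : ℕ) : (k + 1) * ch s (k + 1) = (s - k) * ch s k := by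
  simp only [ch, Ring.choose_eq_smul, descPochhammer_succ_right, Polynomial.smeval_mul,
    Polynomial.smeval_sub, Polynomial.smeval_X, Polynomial.smeval_natCast, smul_eq_mul,
    Nat.factorial_succ]
  have : (k.factorial : ℝ) ≠ 0 := by positivity
  push_cast
  field_simp
  simp

theorem PP_succ (M k : ℕ) : (k + 1) * PP M (k + 1) = (k + 1 + M) * PP M k := by
  have := Nat.choose_mul_succ_eq (k + M) M
  rw [show k + M + 1 - M = k + 1 by omega] at this
  simp only [PP, show k + 1 + M = k + M + 1 by ring]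
  have h2 : ((k + M).choose M : ℝ) * (k + M + 1) = ((k + M + 1).choose M : ℝ) * (k + 1) := by
    exact_mod_cast this
  linarith

@[simp] theorem PP_zero (M : ℕ) : PP M 0 = 1 := by simp [PP]

theorem PP_pos (M k : ℕ) : 0 < PP M k := by
  unfold PP
  exact_mod_cast Nat.choose_pos (by omega)

theorem abs_ch_succ (s : ℝ) (k : ℕ) : (k + 1) * |ch s (k + 1)| = |s - k| * |ch s k| := by
  rw [← abs_mul, ← ch_succ, abs_mul, abs_of_pos (by positivity : (0 : ℝ) < k + 1)]

theorem abs_ch_le {s : ℝ} {M : ℕ} (h : |s| ≤ M + 1) (k : ℕ) : |ch s k| ≤ PP M k := by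
  induction k with
  | zero => simp
  | succ k ih =>
    have h1 := abs_ch_succ s k
    have h2 := PP_succ M k
    have h3 : |s - k| ≤ k + 1 + M := by
      have := abs_sub s k
      rw [Nat.abs_cast] at this
      linarith
    have h4 : |s - k| * |ch s k| ≤ (k + 1 + M) * PP M k := by gcongr
    exact le_of_mul_le_mul_left (by linarith) (by positivity : (0 : ℝ) < k + 1)

theorem one_le_abs_ch {b : ℝ} (h : 1 ≤ b) (k : ℕ) : 1 ≤ |ch (-b) k| := by
  induction k with
  | zero => simp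
  | succ k ih =>
    have h1 := abs_ch_succ (-b) k
    have h3 : (k + 1 : ℝ) ≤ |-b - k| := by
      rw [abs_of_nonpos (by have : (0 : ℝ) ≤ k := by positivity
                            linarith)]
      linarith
    have h4 : (k + 1 : ℝ) * 1 ≤ |-b - k| * |ch (-b) k| := by gcongr
    exact le_of_mul_le_mul_left (by linarith) (by positivity : (0 : ℝ) < k + 1)

theorem exists_lower {a : ℝ} {M : ℕ} (h0 : 0 ≤ a) (hM : a + 2 ≤ M) (ha : ∀ n : ℕ, a ≠ n) :
    ∃ c : ℝ, 0 < c ∧ ∀ k, c ≤ |ch a k| * PP M k := by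
  have hpos : ∀ k, 0 < |ch a k| := by
    intro k
    induction k with
    | zero => simp
    | succ k ih =>
      have h1 := abs_ch_succ a k
      have : 0 < |a - k| * |ch a k| := mul_pos (abs_pos.2 (sub_ne_zero.2 (ha k))) ih
      rw [← h1] at this
      exact (mul_pos_iff_of_pos_left (by positivity)).1 this
  obtain ⟨K, hK⟩ := exists_nat_ge (1 + a * (M + 1))
  have hstep : ∀ k, K ≤ k → |ch a k| * PP M k ≤ |ch a (k + 1)| * PP M (k + 1) := by
    intro k hk
    have hk' : (K : ℝ) ≤ k := by exact_mod_cast hk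
    have hM0 : (0 : ℝ) ≤ M := by positivity
    have h1 := abs_ch_succ a k
    have h2 := PP_succ M k
    have hak : a ≤ k := by nlinarith
    rw [abs_sub_comm, abs_of_nonneg (show (0 : ℝ) ≤ k - a by linarith)] at h1
    have h3 : ((k : ℝ) + 1) * (k + 1) ≤ (k - a) * (k + 1 + M) := by nlinarith
    have h4 := mul_pos (hpos k) (PP_pos M k)
    refine le_of_mul_le_mul_left ?_ (by positivity : (0 : ℝ) < (k + 1) * (k + 1))
    calc _ ≤ (k - a) * (k + 1 + M) * (|ch a k| * PP M k) := by gcongr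
      _ = ((k - a) * |ch a k|) * ((k + 1 + M) * PP M k) := by ring
      _ = _ := by rw [← h1, ← h2]; ring
  obtain ⟨j, -, hj⟩ := (Finset.range (K + 1)).exists_min_image (fun k => |ch a k| * PP M k)
    ⟨0, by simp⟩
  refine ⟨_, mul_pos (hpos j) (PP_pos M j), fun k => ?_⟩
  rcases le_total k K with h | h
  · exact hj k (by simpa using Nat.lt_succ_of_le h)
  · induction k, h using Nat.le_induction with
    | base => exact hj K (by simp)
    | succ k hk ih => exact ih.trans (hstep k hk)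

theorem hasSum_PP (M : ℕ) {x : ℝ} (h0 : 0 ≤ x) (h1 : x < 1) :
    HasSum (fun k => PP M k * x ^ k) (WW M x) :=
  hasSum_choose_mul_geometric_of_norm_lt_one M (by rwa [Real.norm_eq_abs, abs_of_nonneg h0])

theorem PP_le (M : ℕ) {x : ℝ} (h0 : 0 ≤ x) (h1 : x < 1) (k : ℕ) : PP M k * x ^ k ≤ WW M x :=
  le_hasSum (hasSum_PP M h0 h1) k fun j _ => mul_nonneg (PP_pos M j).le (by positivity)

theorem one_le_WW (M : ℕ) {x : ℝ} (h0 : 0 ≤ x) (h1 : x < 1) : 1 ≤ WW M x := by
  simpa using PP_le M h0 h1 0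

theorem log_WW (M : ℕ) {g : ℝ} (h0 : 0 < g) (h1 : g ≤ 1) :
    Real.log (WW M (Real.exp (-g))) ≤ (M + 1) * Real.log (2 / g) := by
  have h2 : Real.exp (-g) ≤ 1 - g / 2 := by
    rw [Real.exp_neg, inv_le_comm₀ (Real.exp_pos _) (by linarith)]
    refine le_trans ?_ (Real.add_one_le_exp g)
    rw [inv_le_iff_one_le_mul₀ (by linarith)]
    nlinarith
  have h3 : 0 < 1 - Real.exp (-g) := by linarith
  rw [WW, ← one_div_pow, Real.log_pow]
  push_cast
  refine mul_le_mul_of_nonneg_left (Real.log_le_log (by positivity) ?_) (by positivity)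
  rw [div_le_div_iff₀ h3 h0]
  linarith

def Good (a : ℕ → ℂ) : Prop := ∀ r : ℝ, 0 < r → r < 1 → ∃ C, ∀ n, ‖a n‖ * r ^ n ≤ C

def ps (a : ℕ → ℂ) (z : ℂ) : ℂ := ∑' n, a n * z ^ n

theorem Good.onBall {a : ℕ → ℂ} (h : Good a) :
    HasFPowerSeriesOnBall (ps a) (FormalMultilinearSeries.ofScalars ℂ a) 0 1 := by
  have h1 : 1 ≤ (FormalMultilinearSeries.ofScalars ℂ a).radius := by
    refine ENNReal.le_of_forall_pos_nnreal_lt fun r hr0 hr => ?_
    obtain ⟨C, hC⟩ := h r (by exact_mod_cast hr0) (by exact_mod_cast hr)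
    exact FormalMultilinearSeries.le_radius_of_bound _ C fun n => by
      rw [FormalMultilinearSeries.ofScalars_norm]
      exact hC n
  have h2 := ((FormalMultilinearSeries.ofScalars ℂ a).hasFPowerSeriesOnBall
    (zero_lt_one.trans_le h1)).mono zero_lt_one h1
  convert h2 using 1
  funext z
  exact (FormalMultilinearSeries.ofScalars_sum_eq a z).symm

theorem eball_one : eball (0 : ℂ) 1 = ball 0 1 := by
  simpa using Metric.eball_coe (x := (0 : ℂ)) (ε := 1)

theorem Good.diff {a : ℕ → ℂ} (h : Good a) : DifferentiableOn ℂ (ps a) (ball 0 1) := by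
  have := h.onBall.differentiableOn
  rwa [eball_one] at this

theorem Good.hasSum {a : ℕ → ℂ} (h : Good a) {z : ℂ} (hz : ‖z‖ < 1) :
    HasSum (fun n => a n * z ^ n) (ps a z) := by
  have := h.onBall.hasSum (y := z) (by rw [eball_one]; simpa using hz)
  simpa [FormalMultilinearSeries.ofScalars_apply_eq, mul_comm] using this

theorem Good.coeff {a : ℕ → ℂ} (h : Good a) (n : ℕ) :
    iteratedDeriv n (ps a) 0 = n.factorial * a n := by
  have := h.onBall.factorial_smul 1 n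
  rw [iteratedDeriv_eq_iteratedFDeriv, ← this, FormalMultilinearSeries.ofScalars_apply_eq]
  simp

theorem dcc {f : ℂ → ℂ} {U : Set ℂ} (hf : DifferentiableOn ℂ f U) {c : ℂ} {r : ℝ}
    (h : closedBall c r ⊆ U) : DiffContOnCl ℂ f (ball c r) :=
  (hf.mono (closure_ball_subset_closedBall.trans h)).diffContOnCl

theorem Good.cauchy {a : ℕ → ℂ} (h : Good a) {r T : ℝ} (h0 : 0 < r) (h1 : r < 1)
    (hT : ∀ z : ℂ, ‖z‖ = r → ‖ps a z‖ ≤ T) (n : ℕ) : ‖a n‖ * r ^ n ≤ T := by
  have := Complex.norm_iteratedDeriv_le_of_forall_mem_sphere_norm_le n h0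
    (dcc (c := 0) h.diff (closedBall_subset_ball h1)) (C := T) fun z hz => hT z (by simpa using hz)
  rw [h.coeff, norm_mul, Complex.norm_natCast, le_div_iff₀ (by positivity), mul_assoc] at this
  exact le_of_mul_le_mul_left this (by positivity)

@[simp] theorem ps_zero (a : ℕ → ℂ) : ps a 0 = a 0 := by
  rw [ps, tsum_eq_single 0 fun n hn => by simp [hn]]
  simp

theorem good_of_summable {a : ℕ → ℂ} (h : ∀ z : ℂ, ‖z‖ < 1 → Summable fun n => a n * z ^ n) :
    Good a := by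
  intro r h0 h1
  have h2 := (h r (by simpa [abs_of_pos h0] using h1)).tendsto_atTop_zero.norm
  obtain ⟨C, hC⟩ := h2.bddAbove_range
  refine ⟨C, fun n => ?_⟩
  have := hC ⟨n, rfl⟩
  simpa [abs_of_pos h0] using this

theorem coeff_of_hasSum {a : ℕ → ℂ} {f : ℂ → ℂ}
    (h : ∀ z : ℂ, ‖z‖ < 1 → HasSum (fun n => a n * z ^ n) (f z)) (n : ℕ) :
    iteratedDeriv n f 0 = n.factorial * a n := by
  rw [← (good_of_summable fun z hz => (h z hz).summable).coeff]
  refine Filter.EventuallyEq.iteratedDeriv_eq n ?_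
  filter_upwards [ball_mem_nhds (0 : ℂ) one_pos] with z hz
  exact (h z (by simpa using hz)).tsum_eq.symm

theorem Good.hasSum_deriv {a : ℕ → ℂ} (h : Good a) {z : ℂ} (hz : ‖z‖ < 1) :
    HasSum (fun n => a n * (n * z ^ (n - 1))) (deriv (ps a) z) := by
  obtain ⟨r, hr1, hr2⟩ := exists_between hz
  obtain ⟨s, hs1, hs2⟩ := exists_between hr2
  have hr0 : 0 < r := (norm_nonneg z).trans_lt hr1
  have hs0 : 0 < s := hr0.trans hs1
  obtain ⟨C, hC⟩ := h s hs0 hs2
  have h1 := Complex.hasSum_deriv_of_summable_norm (F := fun n w => a n * w ^ n)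
    (u := fun n => C * (r / s) ^ n) (U := ball 0 r) (z := z)
    ((summable_geometric_of_lt_one (by positivity) ((div_lt_one hs0).2 hs1)).mul_left C)
    (fun n => by fun_prop) isOpen_ball (fun n w hw => by
      rw [mem_ball_zero_iff] at hw
      rw [norm_mul, norm_pow]
      calc ‖a n‖ * ‖w‖ ^ n ≤ ‖a n‖ * r ^ n := by gcongr
        _ = ‖a n‖ * s ^ n * (r / s) ^ n := by rw [div_pow]; field_simp
        _ ≤ _ := by gcongr; exact hC n) (by simpa using hr1)
  have h2 : ∀ n : ℕ, deriv (fun w : ℂ => a n * w ^ n) z = a n * (n * z ^ (n - 1)) := fun n => by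
    rw [deriv_const_mul _ (by fun_prop)]
    simp
  simp only [h2] at h1
  exact h1

theorem exists_log {g : ℂ → ℂ} (hg : DifferentiableOn ℂ g (ball 0 1))
    (h0 : ∀ z ∈ ball (0 : ℂ) 1, g z ≠ 0) :
    ∃ h : ℂ → ℂ, h 0 = 0 ∧ (∀ z ∈ ball (0 : ℂ) 1, HasDerivAt h (deriv g z / g z) z) ∧
      ∀ z ∈ ball (0 : ℂ) 1, (h z).re = Real.log ‖g z‖ - Real.log ‖g 0‖ := by
  obtain ⟨h, h1, h2⟩ := ((hg.deriv isOpen_ball).div hg h0).isExactOn_ball.with_val_at 0 0
  refine ⟨h, h1, h2, fun z hz => ?_⟩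
  have h3 : ∀ w ∈ ball (0 : ℂ) 1, HasDerivAt (fun w => g w * Complex.exp (-h w)) 0 w := by
    intro w hw
    have := ((hg.differentiableAt (isOpen_ball.mem_nhds hw)).hasDerivAt).mul (h2 w hw).neg.cexp
    refine this.congr_deriv ?_
    have := h0 w hw
    simp only [Pi.div_apply, Pi.neg_apply]
    field_simp
    ring
  have h4 := isOpen_ball.is_const_of_deriv_eq_zero (convex_ball (0 : ℂ) 1).isPreconnected
    (fun w hw => (h3 w hw).differentiableAt.differentiableWithinAt)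
    (fun w hw => (h3 w hw).deriv) hz (mem_ball_self one_pos)
  simp only [h1, neg_zero, Complex.exp_zero, mul_one] at h4
  rw [← h4, norm_mul, Complex.norm_exp,
    Real.log_mul (norm_ne_zero_iff.2 (h0 z hz)) (Real.exp_pos _).ne', Real.log_exp]
  simp

theorem three_circles {h : ℂ → ℂ} (hh : DifferentiableOn ℂ h (ball 0 1)) {v : ℂ} {q A B : ℝ}
    (hq : 1 < q) (hv : ‖v‖ * q < 1) (hA : ∀ z : ℂ, ‖z‖ = ‖v‖ / q → ‖h z‖ ≤ A)
    (hB : ∀ z : ℂ, ‖z‖ = ‖v‖ * q → ‖h z‖ ≤ B) : ‖h v‖ ^ 2 ≤ A * B := by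
  have hq0 : 0 < q := by linarith
  set U : Set ℂ := {w | q⁻¹ < ‖w‖ ∧ ‖w‖ < q} with hU
  have hUo : IsOpen U :=
    (isOpen_lt continuous_const continuous_norm).inter (isOpen_lt continuous_norm continuous_const)
  have hcl : closure U ⊆ {w | q⁻¹ ≤ ‖w‖ ∧ ‖w‖ ≤ q} :=
    closure_minimal (fun w hw => ⟨hw.1.le, hw.2.le⟩)
      ((isClosed_le continuous_const continuous_norm).inter
        (isClosed_le continuous_norm continuous_const))
  have hd : DiffContOnCl ℂ (fun w => h (v * w) * h (v / w)) U := by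
    refine DifferentiableOn.diffContOnCl fun w hw => ?_
    obtain ⟨h1, h2⟩ := hcl hw
    have hw0 : 0 < ‖w‖ := lt_of_lt_of_le (by positivity) h1
    have h3 : v * w ∈ ball (0 : ℂ) 1 := by
      rw [mem_ball_zero_iff, norm_mul]
      exact lt_of_le_of_lt (by gcongr) hv
    have h4 : v / w ∈ ball (0 : ℂ) 1 := by
      rw [mem_ball_zero_iff, norm_div, div_eq_mul_inv]
      refine lt_of_le_of_lt ?_ hv
      gcongr
      exact inv_le_of_inv_le₀ hq0 h1
    have hw1 : w ≠ 0 := norm_pos_iff.1 hw0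
    refine (DifferentiableAt.mul ?_ ?_).differentiableWithinAt
    · exact (hh.differentiableAt (isOpen_ball.mem_nhds h3)).comp w (by fun_prop)
    · exact (hh.differentiableAt (isOpen_ball.mem_nhds h4)).comp w (by fun_prop (disch := assumption))
  have hb : Bornology.IsBounded U :=
    (isBounded_ball (x := (0 : ℂ)) (r := q)).subset fun w hw => by simpa using hw.2
  have h5 := Complex.norm_le_of_forall_mem_frontier_norm_le hb hd (C := A * B) (fun w hw => by
    rw [hUo.frontier_eq] at hw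
    obtain ⟨h1, h2⟩ := hcl hw.1
    have h3 : ‖w‖ = q⁻¹ ∨ ‖w‖ = q := by
      by_contra hc
      push Not at hc
      exact hw.2 ⟨lt_of_le_of_ne h1 hc.1.symm, lt_of_le_of_ne h2 hc.2⟩
    rw [norm_mul]
    rcases h3 with h3 | h3
    · have h6 := hA (v * w) (by rw [norm_mul, h3, div_eq_mul_inv])
      have h7 := hB (v / w) (by rw [norm_div, h3, div_inv_eq_mul])
      exact mul_le_mul h6 h7 (norm_nonneg _) ((norm_nonneg _).trans h6)
    · have h6 := hB (v * w) (by rw [norm_mul, h3])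
      have h7 := hA (v / w) (by rw [norm_div, h3])
      rw [mul_comm]
      exact mul_le_mul h7 h6 (norm_nonneg _) ((norm_nonneg _).trans h7))
    (z := 1) (subset_closure ⟨by simpa using inv_lt_one_of_one_lt₀ hq, by simpa using hq⟩)
  simpa [sq] using h5

theorem bc {h : ℂ → ℂ} (hh : DifferentiableOn ℂ h (ball 0 1)) (h0 : h 0 = 0) {x e E : ℝ}
    (he : 0 < e) (hx : x + e < 0) (hE : 0 < E)
    (h1 : ∀ z : ℂ, ‖z‖ ≤ Real.exp (x + e) → (h z).re ≤ E) {z : ℂ} (hz : ‖z‖ = Real.exp x) :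
    ‖h z‖ ≤ 2 * E / e := by
  have h2 : Real.exp x < Real.exp (x + e) := Real.exp_lt_exp.2 (by linarith)
  have h3 := Complex.borelCaratheodory_zero hE
    (hh.mono (ball_subset_ball (Real.exp_lt_one_iff.2 hx).le))
    (fun w hw => h1 w (mem_ball_zero_iff.1 hw).le) (Real.exp_pos _)
    (z := z) (by rwa [mem_ball_zero_iff, hz]) h0
  refine h3.trans ?_
  rw [hz, div_le_div_iff₀ (by linarith) he, Real.exp_add]
  have := Real.add_one_le_exp e
  have h4 := Real.exp_pos x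
  have : Real.exp x * e ≤ Real.exp x * Real.exp e - Real.exp x := by nlinarith
  nlinarith

theorem key {g : ℂ → ℂ} (hg : DifferentiableOn ℂ g (ball 0 1))
    (h0 : ∀ z ∈ ball (0 : ℂ) 1, g z ≠ 0) {t e E L : ℝ} (he : 0 < e) (ht : t + 3 * e < 0)
    (hE : 0 < E) (hL : 0 < L)
    (h1 : ∀ z : ℂ, ‖z‖ ≤ Real.exp (t - e) → Real.log ‖g z‖ - Real.log ‖g 0‖ ≤ E)
    (h2 : ∀ z : ℂ, ‖z‖ ≤ Real.exp (t + 3 * e) → Real.log ‖g z‖ - Real.log ‖g 0‖ ≤ L)
    {v : ℂ} (hv : ‖v‖ = Real.exp t) :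
    Real.log ‖g v‖ - Real.log ‖g 0‖ ≤ 2 / e * Real.sqrt (E * L) := by
  obtain ⟨h, k0, k1, k2⟩ := exists_log hg h0
  have hh : DifferentiableOn ℂ h (ball 0 1) :=
    fun z hz => (k1 z hz).differentiableAt.differentiableWithinAt
  have hm : ∀ (z : ℂ) (x : ℝ), x < 0 → ‖z‖ ≤ Real.exp x → z ∈ ball (0 : ℂ) 1 := fun z x hx hz =>
    mem_ball_zero_iff.2 (hz.trans_lt (Real.exp_lt_one_iff.2 hx))
  have h3 := three_circles hh (v := v) (q := Real.exp (2 * e)) (A := 2 * E / e) (B := 2 * L / e)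
    (Real.one_lt_exp_iff.2 (by linarith))
    (by rw [hv, ← Real.exp_add]; exact Real.exp_lt_one_iff.2 (by linarith))
    (fun z hz => bc hh k0 (x := t - 2 * e) he (by linarith) hE (fun w hw => by
      rw [show t - 2 * e + e = t - e by ring] at hw
      rw [k2 w (hm w _ (by linarith) hw)]
      exact h1 w hw) (by rw [hz, hv, Real.exp_sub]))
    (fun z hz => bc hh k0 (x := t + 2 * e) he (by linarith) hL (fun w hw => by
      rw [show t + 2 * e + e = t + 3 * e by ring] at hw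
      rw [k2 w (hm w _ (by linarith) hw)]
      exact h2 w hw) (by rw [hz, hv, Real.exp_add]))
  rw [← k2 v (hm v t (by linarith) hv.le)]
  refine (Complex.re_le_norm _).trans (abs_le_of_sq_le_sq' (h3.trans_eq ?_) (by positivity)).2
  rw [mul_pow, Real.sq_sqrt (by positivity)]
  field_simp

theorem zero_free {F : ℝ → ℂ → ℂ}
    (hc : ContinuousOn (fun p : ℝ × ℂ => F p.1 p.2) (Icc 0 1 ×ˢ closedBall 0 1))
    (hd : ∀ t ∈ Icc (0 : ℝ) 1, DifferentiableOn ℂ (F t) (closedBall 0 1))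
    (hs : ∀ t ∈ Icc (0 : ℝ) 1, ∀ x : ℂ, ‖x‖ = 1 → F t x ≠ 0)
    (h0 : ∀ x, F 0 x = 1) : ∀ x : ℂ, ‖x‖ ≤ 1 → F 1 x ≠ 0 := by
  obtain ⟨p, hp, hmin⟩ := (isCompact_Icc.prod (isCompact_sphere (0 : ℂ) 1)).exists_isMinOn
    (f := fun p : ℝ × ℂ => ‖F p.1 p.2‖) (s := Icc (0 : ℝ) 1 ×ˢ sphere 0 1)
    ⟨(0, 1), by simp⟩ (hc.mono (prod_mono_right sphere_subset_closedBall)).norm
  set d := ‖F p.1 p.2‖ with hd0
  have hdp : 0 < d := norm_pos_iff.2 (hs _ hp.1 _ (by simpa using hp.2))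
  have hmax : ∀ t ∈ Icc (0 : ℝ) 1, (∀ x : ℂ, ‖x‖ ≤ 1 → F t x ≠ 0) →
      ∀ x : ℂ, ‖x‖ ≤ 1 → d ≤ ‖F t x‖ := by
    intro t ht h x hx
    have h1 := Complex.norm_le_of_forall_mem_frontier_norm_le (f := fun x => (F t x)⁻¹)
      (isBounded_ball (x := (0 : ℂ)) (r := 1))
      (dcc ((hd t ht).inv fun y hy => h y (by simpa using hy)) subset_rfl) (C := d⁻¹)
      (fun y hy => by
        rw [frontier_ball _ one_ne_zero] at hy
        rw [norm_inv]
        exact inv_anti₀ hdp (hmin (a := (t, y)) ⟨ht, hy⟩)) (z := x)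
      (by rw [closure_ball _ one_ne_zero]; simpa using hx)
    rw [norm_inv] at h1
    exact (inv_le_inv₀ (norm_pos_iff.2 (h x hx)) hdp).1 h1
  let S : Set (Icc (0 : ℝ) 1) := {t | ∀ x : ℂ, ‖x‖ ≤ 1 → F t x ≠ 0}
  have hc2 : Continuous fun p : Icc (0 : ℝ) 1 × closedBall (0 : ℂ) 1 => F p.1 p.2 :=
    hc.comp_continuous (f := fun p : Icc (0 : ℝ) 1 × closedBall (0 : ℂ) 1 => ((p.1 : ℝ), (p.2 : ℂ)))
      (by fun_prop) fun p => ⟨p.1.2, p.2.2⟩
  have hcl : IsClosed S := by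
    have : S = ⋂ x : closedBall (0 : ℂ) 1, {t : Icc (0 : ℝ) 1 | d ≤ ‖F t x‖} := by
      ext t
      simp only [S, mem_iInter, mem_ofPred_eq]
      exact ⟨fun h x => hmax t t.2 h x (mem_closedBall_zero_iff.1 x.2), fun h x hx =>
        norm_pos_iff.1 (hdp.trans_le (h ⟨x, by simpa using hx⟩))⟩
    rw [this]
    exact isClosed_iInter fun x => isClosed_le continuous_const
      (hc2.comp (f := fun t => (t, x)) (by fun_prop)).norm
  have hop : IsOpen S := by
    have : Sᶜ = Prod.fst '' {p : Icc (0 : ℝ) 1 × closedBall (0 : ℂ) 1 | F p.1 p.2 = 0} := by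
      ext t
      simp only [S, mem_compl_iff, mem_ofPred_eq, mem_image, not_forall, not_not]
      exact ⟨fun ⟨x, hx, h⟩ => ⟨(t, ⟨x, by simpa using hx⟩), h, rfl⟩,
        fun ⟨p, h, hp⟩ => ⟨p.2, mem_closedBall_zero_iff.1 p.2.2, hp ▸ h⟩⟩
    rw [← isClosed_compl_iff, this]
    exact isClosedMap_fst_of_compactSpace _ (isClosed_eq hc2 continuous_const)
  have : S = univ := IsClopen.eq_univ ⟨hcl, hop⟩ ⟨⟨0, by simp⟩, fun x _ => by simp [h0]⟩
  have h1 : (⟨1, by simp⟩ : Icc (0 : ℝ) 1) ∈ S := this ▸ mem_univ _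
  exact h1

end Pool.Agent.H99.TN
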