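import Pool.Agent.H99.TN1

/-! The two-variable convolution and its estimates. -/

open Filter Topology Set Metric

noncomputable section

namespace Pool.Agent.H99.TN

def mu (a : ℕ → ℂ) (x : ℝ) : ℝ := ⨆ n, ‖a n‖ * Real.exp x ^ n

variable {a : ℕ → ℂ} {A B : ℕ → ℝ} {M : ℕ}

theorem Good.le_mu (h : Good a) {x : ℝ} (hx : x < 0) (n : ℕ) :
    ‖a n‖ * Real.exp x ^ n ≤ mu a x := by
  obtain ⟨C, hC⟩ := h _ (Real.exp_pos x) (Real.exp_lt_one_iff.2 hx)
  exact le_ciSup (f := fun n => ‖a n‖ * Real.exp x ^ n) ⟨C, by rintro _ ⟨n, rfl⟩; exact hC n⟩ n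

theorem mu_le {x T : ℝ} (h : ∀ n, ‖a n‖ * Real.exp x ^ n ≤ T) : mu a x ≤ T := ciSup_le h

theorem Good.one_le_mu (h : Good a) (h0 : a 0 = 1) {x : ℝ} (hx : x < 0) : 1 ≤ mu a x := by
  simpa [h0] using h.le_mu hx 0

def lam (a : ℕ → ℂ) (x : ℝ) : ℝ := Real.log (mu a x)

theorem Good.lam_nonneg (h : Good a) (h0 : a 0 = 1) {x : ℝ} (hx : x < 0) : 0 ≤ lam a x :=
  Real.log_nonneg (h.one_le_mu h0 hx)

theorem Good.lam_mono (h : Good a) (h0 : a 0 = 1) {x y : ℝ} (hxy : x ≤ y) (hy : y < 0) :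
    lam a x ≤ lam a y :=
  Real.log_le_log (one_pos.trans_le (h.one_le_mu h0 (hxy.trans_lt hy)))
    (mu_le fun n => le_trans (by gcongr) (h.le_mu hy n))

theorem Good.lam_convex (h : Good a) (h0 : a 0 = 1) {x y s : ℝ} (hx : x < 0) (hy : y < 0)
    (s0 : 0 ≤ s) (s1 : s ≤ 1) :
    lam a ((1 - s) * x + s * y) ≤ (1 - s) * lam a x + s * lam a y := by
  have hz : (1 - s) * x + s * y < 0 := by
    rcases s0.eq_or_lt with h | h
    · simpa [← h] using hx
    · nlinarith [mul_pos h (neg_pos.2 hy), mul_nonneg (sub_nonneg.2 s1) (neg_pos.2 hx).le]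
  rw [lam, Real.log_le_iff_le_exp (one_pos.trans_le (h.one_le_mu h0 hz))]
  refine mu_le fun n => ?_
  rcases (norm_nonneg (a n)).eq_or_lt with h1 | h1
  · rw [← h1, zero_mul]
    positivity
  have k : ∀ z < 0, Real.log ‖a n‖ + n * z ≤ lam a z := fun z hz => by
    have := Real.log_le_log (by positivity) (h.le_mu hz n)
    rwa [Real.log_mul h1.ne' (by positivity), Real.log_pow, Real.log_exp] at this
  rw [← Real.exp_log h1, ← Real.exp_nat_mul, ← Real.exp_add, Real.exp_le_exp]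
  nlinarith [mul_le_mul_of_nonneg_left (k x hx) (sub_nonneg.2 s1),
    mul_le_mul_of_nonneg_left (k y hy) s0]

def tm (a : ℕ → ℂ) (A B : ℕ → ℝ) (u v : ℂ) (p : ℕ × ℕ) : ℂ :=
  a (p.1 + p.2) * ((A p.1 * u ^ p.1) * (B p.2 * v ^ p.2))

def GG (a : ℕ → ℂ) (A B : ℕ → ℝ) (u v : ℂ) : ℂ := ∑' p, tm a A B u v p

def Bd (M : ℕ) (A : ℕ → ℝ) : Prop := ∀ k, |A k| ≤ PP M k

theorem norm_tm_le (h : Good a) (hA : Bd M A) (hB : Bd M B) {x y : ℝ} (hy : y < 0) {u v : ℂ}
    (hu : ‖u‖ ≤ Real.exp x) (hv : ‖v‖ ≤ Real.exp x) (p : ℕ × ℕ) :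
    ‖tm a A B u v p‖ ≤ mu a y *
      ((PP M p.1 * Real.exp (x - y) ^ p.1) * (PP M p.2 * Real.exp (x - y) ^ p.2)) := by
  have h1 := h.le_mu hy (p.1 + p.2)
  have h2 := hA p.1
  have h3 := hB p.2
  have h4 := PP_pos M p.1
  have h5 := PP_pos M p.2
  simp only [tm, norm_mul, norm_pow, Complex.norm_real, Real.norm_eq_abs]
  calc _ ≤ ‖a (p.1 + p.2)‖ * ((PP M p.1 * Real.exp x ^ p.1) * (PP M p.2 * Real.exp x ^ p.2)) := by
        gcongr
    _ = ‖a (p.1 + p.2)‖ * Real.exp y ^ (p.1 + p.2) *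
      ((PP M p.1 * Real.exp (x - y) ^ p.1) * (PP M p.2 * Real.exp (x - y) ^ p.2)) := by
        rw [Real.exp_sub, div_pow, div_pow, pow_add]
        field_simp
    _ ≤ _ := by gcongr

theorem hasSum_maj (M : ℕ) {q : ℝ} (h0 : 0 ≤ q) (h1 : q < 1) :
    HasSum (fun p : ℕ × ℕ => (PP M p.1 * q ^ p.1) * (PP M p.2 * q ^ p.2)) (WW M q * WW M q) := by
  have h := hasSum_PP M h0 h1
  have h2 : 0 ≤ fun k => PP M k * q ^ k := fun k => mul_nonneg (PP_pos M k).le (by positivity)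
  exact h.mul h (h.summable.mul_of_nonneg h.summable h2 h2)

theorem norm_GG_le (h : Good a) (hA : Bd M A) (hB : Bd M B) {x y : ℝ} (hxy : x < y) (hy : y < 0)
    {u v : ℂ} (hu : ‖u‖ ≤ Real.exp x) (hv : ‖v‖ ≤ Real.exp x) :
    ‖GG a A B u v‖ ≤ mu a y * (WW M (Real.exp (x - y)) * WW M (Real.exp (x - y))) :=
  tsum_of_norm_bounded ((hasSum_maj M (Real.exp_pos _).le
    (Real.exp_lt_one_iff.2 (by linarith))).mul_left _) (norm_tm_le h hA hB hy hu hv)

theorem exists_exp {r : ℝ} (h : r < 1) : ∃ x < 0, r ≤ Real.exp x := by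
  refine ⟨Real.log (max r (1 / 2)), Real.log_neg (by positivity) (max_lt h (by norm_num)), ?_⟩
  rw [Real.exp_log (by positivity)]
  exact le_max_left _ _

theorem summable_tm (h : Good a) (hA : Bd M A) (hB : Bd M B) {u v : ℂ} (hu : ‖u‖ < 1)
    (hv : ‖v‖ < 1) : Summable (tm a A B u v) := by
  obtain ⟨x, hx, h1⟩ := exists_exp (max_lt hu hv)
  exact Summable.of_norm_bounded ((hasSum_maj M (Real.exp_pos (x - x / 2)).le
    (Real.exp_lt_one_iff.2 (by linarith))).mul_left (mu a (x / 2))).summable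
    (norm_tm_le h hA hB (by linarith) ((le_max_left _ _).trans h1) ((le_max_right _ _).trans h1))

theorem continuousOn_GG (h : Good a) (hA : Bd M A) (hB : Bd M B) {r : ℝ} (hr : r < 1) :
    ContinuousOn (fun p : ℂ × ℂ => GG a A B p.1 p.2) (closedBall 0 r ×ˢ closedBall 0 r) := by
  obtain ⟨x, hx, h1⟩ := exists_exp hr
  refine continuousOn_tsum (fun i => ?_) ((hasSum_maj M (Real.exp_pos (x - x / 2)).le
    (Real.exp_lt_one_iff.2 (by linarith))).mul_left (mu a (x / 2))).summable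
    fun i p hp => norm_tm_le h hA hB (by linarith) ((mem_closedBall_zero_iff.1 hp.1).trans h1)
      ((mem_closedBall_zero_iff.1 hp.2).trans h1) i
  unfold tm
  fun_prop

theorem GG_symm (a : ℕ → ℂ) (A B : ℕ → ℝ) (u v : ℂ) : GG a A B u v = GG a B A v u := by
  rw [GG, GG, ← (Equiv.prodComm ℕ ℕ).tsum_eq]
  refine tsum_congr fun p => ?_
  simp only [tm, Equiv.prodComm_apply, Prod.fst_swap, Prod.snd_swap, add_comm p.2]
  ring

def ee (a : ℕ → ℂ) (A : ℕ → ℝ) (u : ℂ) (l : ℕ) : ℂ := ps (fun k => A k * a (k + l)) u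

theorem hasSum_GG (h : Good a) (hA : Bd M A) (hB : Bd M B) {u v : ℂ} (hu : ‖u‖ < 1)
    (hv : ‖v‖ < 1) : HasSum (fun l => B l * ee a A u l * v ^ l) (GG a A B u v) := by
  have hs := summable_tm h hB hA hv hu
  rw [GG_symm]
  refine hs.hasSum.prod_fiberwise fun l => ?_
  have : B l * ee a A u l * v ^ l = ∑' k, tm a B A v u (l, k) := by
    rw [ee, ps, ← tsum_mul_left, ← tsum_mul_right]
    refine tsum_congr fun k => ?_
    simp only [tm, add_comm l]
    ring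
  rw [this]
  exact (hs.prod_factor l).hasSum

theorem good_ee (h : Good a) (hA : Bd M A) (hB : Bd M B) {u : ℂ} (hu : ‖u‖ < 1) :
    Good fun l => B l * ee a A u l :=
  good_of_summable fun _ hv => (hasSum_GG h hA hB hu hv).summable

theorem GG_eq (h : Good a) (hA : Bd M A) (hB : Bd M B) {u v : ℂ} (hu : ‖u‖ < 1)
    (hv : ‖v‖ < 1) : GG a A B u v = ps (fun l => B l * ee a A u l) v :=
  (hasSum_GG h hA hB hu hv).tsum_eq.symm

theorem diff_GG (h : Good a) (hA : Bd M A) (hB : Bd M B) {u : ℂ} (hu : ‖u‖ < 1) :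
    DifferentiableOn ℂ (GG a A B u) (ball 0 1) :=
  (good_ee h hA hB hu).diff.congr fun _ hv => GG_eq h hA hB hu (mem_ball_zero_iff.1 hv)

theorem ee_zero (hA : A 0 = 1) (l : ℕ) : ee a A 0 l = a l := by simp [ee, hA]

theorem GG_zero (h : Good a) (hA : Bd M A) (hB : Bd M B) (hB0 : B 0 = 1) {u : ℂ} (hu : ‖u‖ < 1) :
    GG a A B u 0 = ps (fun k => A k * a k) u := by
  rw [GG_eq h hA hB hu (by simp)]
  simp [hB0, ee]

theorem hasSum_diag (h : Good a) (hA : Bd M A) (hB : Bd M B) {u v : ℂ} (hu : ‖u‖ < 1)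
    (hv : ‖v‖ < 1) : HasSum (fun n => a n * ∑ p ∈ Finset.HasAntidiagonal.antidiagonal n,
      (A p.1 * u ^ p.1) * (B p.2 * v ^ p.2)) (GG a A B u v) := by
  have hs := (summable_tm h hA hB hu hv).hasSum
  rw [← Finset.HasAntidiagonal.sigmaAntidiagonalEquivProd.hasSum_iff] at hs
  refine hs.sigma fun n => ?_
  convert hasSum_fintype _ using 1
  rw [Finset.mul_sum, ← Finset.sum_coe_sort]
  refine Finset.sum_congr rfl fun p _ => ?_
  have := Finset.HasAntidiagonal.mem_antidiagonal.1 p.2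
  simp [tm, this]

theorem Good.shift (h : Good a) (n : ℕ) : Good fun i => a (i + n) := by
  intro r h0 h1
  obtain ⟨C, hC⟩ := h r h0 h1
  refine ⟨C / r ^ n, fun i => ?_⟩
  rw [le_div_iff₀ (by positivity), mul_assoc, ← pow_add]
  exact hC _

theorem Good.mulBd (h : Good a) (hA : Bd M A) : Good fun k => A k * a k := by
  have hz : Bd M fun k => if k = 0 then 1 else 0 := fun k => by
    by_cases hk : k = 0
    · simp [hk]
    · simpa [hk] using (PP_pos M k).le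
  have := good_ee h hz hA (u := 0) (by simp)
  simpa [ee_zero (A := fun k => if k = 0 then (1 : ℝ) else 0) (by simp)] using this

theorem recover0 (h : Good a) (hA : Bd M A) (hB : Bd M B) (hB1 : ∀ l, 1 ≤ |B l|) {u : ℂ}
    (hu : ‖u‖ < 1) {r T : ℝ} (h0 : 0 < r) (h1 : r < 1)
    (hT : ∀ v : ℂ, ‖v‖ = r → ‖GG a A B u v‖ ≤ T) (l : ℕ) : ‖ee a A u l‖ * r ^ l ≤ T := by
  refine le_trans ?_ ((good_ee h hA hB hu).cauchy h0 h1 (fun v hv => ?_) l)
  · rw [norm_mul, Complex.norm_real, Real.norm_eq_abs]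
    gcongr
    exact le_mul_of_one_le_left (norm_nonneg _) (hB1 l)
  · rw [← GG_eq h hA hB hu (hv.trans_lt h1)]
    exact hT v hv

theorem recover {s : ℝ} (h : Good a) (hs : |s| ≤ M + 1) (hB : Bd M B) (hB1 : ∀ l, 1 ≤ |B l|)
    {u : ℂ} {x y T : ℝ} (hxy : x < y) (hy : y < 0) (hu : ‖u‖ ≤ Real.exp x)
    (hT : ∀ v : ℂ, ‖v‖ = Real.exp y → ‖GG a (ch s) B u v‖ ≤ T) :
    mu a y ≤ T * WW M (Real.exp (x - y)) := by
  have hu1 : ‖u‖ < 1 := hu.trans_lt (Real.exp_lt_one_iff.2 (by linarith))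
  have hA : Bd M (ch s) := abs_ch_le hs
  have hA' : Bd M (ch (-s)) := abs_ch_le (by rwa [abs_neg])
  have h1 := recover0 h hA hB hB1 hu1 (Real.exp_pos y) (Real.exp_lt_one_iff.2 hy) hT
  refine mu_le fun n => ?_
  have h2 := hasSum_GG (h.shift n) hA hA' hu1 hu1
  have h3 : GG (fun i => a (i + n)) (ch s) (ch (-s)) u u = a n := by
    refine (hasSum_diag (h.shift n) hA hA' hu1 hu1).unique ?_
    convert hasSum_single 0 fun m hm => ?_ using 1
    · simp
    have h4 := Ring.add_choose_eq (r := s) (s := -s) m (Commute.all _ _)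
    rw [add_neg_cancel, Ring.choose_zero_pos ℝ (Nat.pos_of_ne_zero hm)] at h4
    have h5 : ∑ p ∈ Finset.HasAntidiagonal.antidiagonal m, (ch s p.1 * u ^ p.1) * (ch (-s) p.2 * u ^ p.2) =
        (∑ p ∈ Finset.HasAntidiagonal.antidiagonal m, ch s p.1 * ch (-s) p.2 : ℝ) * u ^ m := by
      push_cast
      rw [Finset.sum_mul]
      refine Finset.sum_congr rfl fun p hp => ?_
      rw [← Finset.HasAntidiagonal.mem_antidiagonal.1 hp, pow_add]
      ring
    rw [h5]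
    simp only [ch]
    rw [← h4]
    simp
  rw [h3] at h2
  have h6 := (h2.mul_right ((Real.exp y : ℂ) ^ n)).norm_le_of_bounded
    ((hasSum_PP M (Real.exp_pos (x - y)).le (Real.exp_lt_one_iff.2 (by linarith))).mul_left T)
    fun j => by
      have h7 := h1 (j + n)
      have h8 := hA' j
      have h9 := PP_pos M j
      have h10 : ee (fun i => a (i + n)) (ch s) u j = ee a (ch s) u (j + n) := by
        simp [ee, add_assoc]
      simp only [norm_mul, norm_pow, Complex.norm_real, Real.norm_eq_abs, h10, Real.abs_exp]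
      calc _ ≤ PP M j * ‖ee a (ch s) u (j + n)‖ * Real.exp x ^ j * Real.exp y ^ n := by gcongr
        _ = ‖ee a (ch s) u (j + n)‖ * Real.exp y ^ (j + n) * (PP M j * Real.exp (x - y) ^ j) := by
          rw [Real.exp_sub, div_pow, pow_add]
          field_simp
        _ ≤ _ := by gcongr
  simpa only [norm_mul, norm_pow, Complex.norm_real, Real.norm_eq_abs, Real.abs_exp] using h6

theorem lower (h : Good a) (h0 : a 0 = 1) (hA : Bd M A) (hB : Bd M B) (hA0 : A 0 = 1)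
    (hB0 : B 0 = 1) {c : ℝ} (hc0 : 0 < c) (hc : ∀ k, c ≤ |A k| * PP M k) {x y : ℝ} (hxy : x < y)
    (hy : y < 0) : ∃ u : ℂ, ‖u‖ = Real.exp y ∧ 1 ≤ ‖GG a A B u 0‖ ∧
      mu a x ≤ ‖GG a A B u 0‖ * WW M (Real.exp (x - y)) / c := by
  have hy1 := Real.exp_lt_one_iff.2 hy
  have hg := h.mulBd hA
  obtain ⟨u, hu, hm⟩ := (isCompact_sphere (0 : ℂ) (Real.exp y)).exists_isMaxOn
    (NormedSpace.sphere_nonempty.2 (Real.exp_pos y).le)
    (hg.diff.continuousOn.mono (sphere_subset_closedBall.trans (closedBall_subset_ball hy1))).norm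
  rw [mem_sphere_zero_iff_norm] at hu
  have h1 := hg.cauchy (Real.exp_pos y) hy1 fun z hz => hm (mem_sphere_zero_iff_norm.2 hz)
  refine ⟨u, hu, ?_, mu_le fun k => ?_⟩ <;> rw [GG_zero h hA hB hB0 (hu.trans_lt hy1)]
  · simpa [h0, hA0] using h1 0
  · have h2 := h1 k
    have h3 := PP_le M (Real.exp_pos (x - y)).le (Real.exp_lt_one_iff.2 (by linarith)) k
    have h4 := PP_pos M k
    rw [norm_mul, Complex.norm_real, Real.norm_eq_abs] at h2
    rw [le_div_iff₀ hc0]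
    calc _ ≤ ‖a k‖ * Real.exp x ^ k * (|A k| * PP M k) := by gcongr; exact hc k
      _ = |A k| * ‖a k‖ * Real.exp y ^ k * (PP M k * Real.exp (x - y) ^ k) := by
        rw [Real.exp_sub, div_pow]
        field_simp
      _ ≤ _ := by gcongr

theorem half_free (h : Good a) (h0 : a 0 = 1) (hA : Bd M A) (hB : Bd M B) (hA0 : A 0 = 1)
    (hB0 : B 0 = 1) (hz : ∀ u v : ℂ, ‖u‖ = ‖v‖ → ‖u‖ < 1 → GG a A B u v ≠ 0) {u v : ℂ}
    (hu : ‖u‖ < 1) (hv : ‖v‖ ≤ ‖u‖) : GG a A B u v ≠ 0 := by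
  by_cases hu0 : u = 0
  · exact hz u v (le_antisymm (by simp [hu0]) hv) hu
  have hn : ∀ t ∈ Icc (0 : ℝ) 1, ∀ x : ℂ, ‖x‖ ≤ 1 → ‖x * (t * u)‖ ≤ ‖u‖ := fun t ht x hx => by
    rw [norm_mul, norm_mul, Complex.norm_real, Real.norm_eq_abs, abs_of_nonneg ht.1]
    have := ht.1
    calc _ ≤ 1 * (1 * ‖u‖) := by gcongr; exact ht.2
      _ = _ := by ring
  have hn1 : ∀ t ∈ Icc (0 : ℝ) 1, ‖(t * u : ℂ)‖ ≤ ‖u‖ := fun t ht => by
    simpa using hn t ht 1 (by simp)
  have := zero_free (F := fun t x => GG a A B (t * u) (x * (t * u)))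
    ((continuousOn_GG h hA hB hu).comp
      (f := fun p : ℝ × ℂ => ((p.1 * u : ℂ), p.2 * (p.1 * u))) (by fun_prop) fun p hp =>
        ⟨mem_closedBall_zero_iff.2 (hn1 _ hp.1),
          mem_closedBall_zero_iff.2 (hn _ hp.1 _ (mem_closedBall_zero_iff.1 hp.2))⟩)
    (fun t ht => (diff_GG h hA hB ((hn1 t ht).trans_lt hu)).comp (by fun_prop) fun x hx =>
      mem_ball_zero_iff.2 ((hn t ht x (mem_closedBall_zero_iff.1 hx)).trans_lt hu))
    (fun t ht x hx => hz _ _ (by rw [norm_mul x, hx, one_mul]) ((hn1 t ht).trans_lt hu))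
    (fun x => by simp [GG_zero h hA hB hB0 (u := 0) (by simp), h0, hA0]) (v / u)
    (by rw [norm_div]; exact div_le_one_of_le₀ hv (norm_nonneg _))
  simpa [hu0] using this

theorem all_free (h : Good a) (h0 : a 0 = 1) (hA : Bd M A) (hB : Bd M B) (hA0 : A 0 = 1)
    (hB0 : B 0 = 1) (hz : ∀ u v : ℂ, ‖u‖ = ‖v‖ → ‖u‖ < 1 → GG a A B u v ≠ 0) {u v : ℂ}
    (hu : ‖u‖ < 1) (hv : ‖v‖ < 1) : GG a A B u v ≠ 0 := by
  rcases le_total ‖v‖ ‖u‖ with h1 | h1
  · exact half_free h h0 hA hB hA0 hB0 hz hu h1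
  · rw [GG_symm]
    exact half_free h h0 hB hA hB0 hA0
      (fun u v h2 h3 => by rw [GG_symm]; exact hz v u h2.symm (h2 ▸ h3)) hv h1

end Pool.Agent.H99.TN
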