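import Pool.Agent.H99.TN2

/-! Growth bound for zero-free two-variable convolutions. -/

open Filter Topology Set Metric

noncomputable section

namespace Pool.Agent.H99.TN

theorem arith {K y s L d : ℝ} (hK : 1 ≤ K) (hy : 1 ≤ y) (hs : 1 ≤ s) (hL : 0 < L) (hd : 0 < d)
    (hd1 : d ≤ 1) (h : s ^ 2 ≤ 2 * (K * s * y) + 2 * y * Real.sqrt (K * s * y * L)) :
    s ^ 2 ≤ d * L + (16 * K * y ^ 3 / d) ^ 2 := by
  have hdL := mul_pos hd hL
  by_cases h1 : s ≤ 16 * K * y ^ 3 / d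
  · have : s ^ 2 ≤ (16 * K * y ^ 3 / d) ^ 2 := by gcongr
    linarith
  push Not at h1
  rw [div_lt_iff₀ hd] at h1
  have hy3 : y ≤ y ^ 3 := le_self_pow₀ hy (by norm_num)
  have h2 : 4 * (K * y) ≤ s := by
    have : K * y ≤ K * y ^ 3 := by gcongr
    have : s * d ≤ s := by nlinarith
    have : 0 ≤ K * y := by positivity
    linarith
  have h3 : s ^ 2 ≤ 4 * y * Real.sqrt (K * s * y * L) := by nlinarith
  have h4 : (s ^ 2) ^ 2 ≤ (4 * y * Real.sqrt (K * s * y * L)) ^ 2 := by gcongr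
  rw [mul_pow, Real.sq_sqrt (by positivity)] at h4
  have h5 : s ^ 2 * s ^ 2 ≤ s ^ 2 * (d * L) := by
    calc s ^ 2 * s ^ 2 = (s ^ 2) ^ 2 := by ring
      _ ≤ _ := h4
      _ = 16 * K * y ^ 3 * (s * L) := by ring
      _ ≤ s * d * (s * L) := by gcongr
      _ = _ := by ring
  have h6 := le_of_mul_le_mul_left h5 (by positivity)
  nlinarith [sq_nonneg (16 * K * y ^ 3 / d)]

theorem absorb {f : ℝ → ℝ} {C t1 : ℝ} (h1 : t1 < 0) (hC : 0 ≤ C) (hf0 : ∀ t < 0, 0 ≤ f t)
    (hm : ∀ t ≤ t1, f t ≤ f t1)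
    (h : ∀ t e, -1 / 2 ≤ t → 0 < e → t + 4 * e < 0 → f t ≤ f (t + 4 * e) / 1024 + C / e ^ 9)
    {t : ℝ} (ht : -1 / 2 ≤ t) (ht1 : t < t1) : f t ≤ 2 * C * 8 ^ 9 / (t1 - t) ^ 9 := by
  have k : ∀ n : ℕ, ∀ t, -1 / 2 ≤ t → t < t1 →
      (t1 - t) ^ 9 * f t ≤ f t1 * (1 / 2) ^ n + 2 * C * 8 ^ 9 := by
    intro n
    induction n with
    | zero =>
      intro t ht ht1
      have h2 : (t1 - t) ^ 9 ≤ 1 := pow_le_one₀ (by linarith) (by linarith)
      have h3 := mul_le_mul h2 (hm t ht1.le) (hf0 t (by linarith)) zero_le_one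
      have : 0 ≤ 2 * C * 8 ^ 9 := by positivity
      rw [pow_zero]
      linarith
    | succ n ih =>
      intro t ht ht1
      have h2 := h t ((t1 - t) / 8) ht (by linarith) (by linarith)
      have h3 := ih (t + 4 * ((t1 - t) / 8)) (by linarith) (by linarith)
      have h4 : 0 < t1 - t := by linarith
      rw [show t1 - (t + 4 * ((t1 - t) / 8)) = (t1 - t) / 2 by ring] at h3
      calc _ ≤ (t1 - t) ^ 9 * (f (t + 4 * ((t1 - t) / 8)) / 1024 + C / ((t1 - t) / 8) ^ 9) := by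
            gcongr
        _ = ((t1 - t) / 2) ^ 9 * f (t + 4 * ((t1 - t) / 8)) / 2 + C * 8 ^ 9 := by
            field_simp
            ring
        _ ≤ _ := by rw [pow_succ _ n]; linarith
  have h2 : Tendsto (fun n : ℕ => f t1 * (1 / 2) ^ n + 2 * C * 8 ^ 9) atTop
      (𝓝 (f t1 * 0 + 2 * C * 8 ^ 9)) :=
    ((tendsto_pow_atTop_nhds_zero_of_lt_one (by norm_num) (by norm_num)).const_mul _).add_const _
  have h3 := ge_of_tendsto' h2 fun n => k n t ht ht1
  rw [le_div_iff₀ (by have : 0 < t1 - t := by linarith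
                      positivity)]
  linarith

variable {a : ℕ → ℂ} {A B : ℕ → ℝ} {M : ℕ}

theorem logG (h : Good a) (h0 : a 0 = 1) (hA : Bd M A) (hB : Bd M B) {x g : ℝ} (hg : 0 < g)
    (hg1 : g ≤ 1) (hx : x + g < 0) {u v : ℂ} (hu : ‖u‖ ≤ Real.exp x) (hv : ‖v‖ ≤ Real.exp x)
    (hz : GG a A B u v ≠ 0) :
    Real.log ‖GG a A B u v‖ ≤ lam a (x + g) + 2 * ((M + 1) * Real.log (2 / g)) := by
  have h1 := norm_GG_le h hA hB (by linarith : x < x + g) hx hu hv
  rw [show x - (x + g) = -g by ring] at h1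
  have h2 := one_le_WW M (Real.exp_pos (-g)).le (Real.exp_lt_one_iff.2 (by linarith))
  have h3 := h.one_le_mu h0 hx
  have h4 := Real.log_le_log (norm_pos_iff.2 hz) h1
  rw [Real.log_mul (by positivity) (by positivity),
    Real.log_mul (by positivity) (by positivity)] at h4
  have := log_WW M hg hg1
  unfold lam
  linarith

theorem small (h : Good a) (h0 : a 0 = 1) (hA : Bd M A) (hB : Bd M B) (hA0 : A 0 = 1)
    (hB0 : B 0 = 1) (hB1 : ∀ l, 1 ≤ |B l|)
    (hz : ∀ u v : ℂ, ‖u‖ < 1 → ‖v‖ < 1 → GG a A B u v ≠ 0) {L : ℝ} (hL : 0 < L)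
    (h1 : ∀ v : ℂ, ‖v‖ ≤ 1 / 2 → Real.log ‖GG a A B 0 v‖ ≤ L) : lam a (-10) ≤ L / 2048 := by
  obtain ⟨k, k0, k1, k2⟩ := exists_log (diff_GG h hA hB (u := 0) (by simp))
    fun z hz' => hz 0 z (by simp) (mem_ball_zero_iff.1 hz')
  have h00 : GG a A B 0 0 = 1 := by simp [GG_zero h hA hB hB0 (u := 0) (by simp), h0, hA0]
  simp only [h00, norm_one, Real.log_one, sub_zero] at k2
  have he : Real.exp (-10) ≤ 1 / 16384 := by
    rw [Real.exp_neg, one_div, show (10 : ℝ) = (10 : ℕ) * 1 by norm_num, Real.exp_nat_mul]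
    refine inv_anti₀ (by norm_num) (le_trans (by norm_num)
      (pow_le_pow_left₀ (by norm_num) Real.exp_one_gt_d9.le 10))
  have hb : ball (0 : ℂ) (1 / 2) ⊆ ball 0 1 := ball_subset_ball (by norm_num)
  rw [lam, Real.log_le_iff_le_exp (one_pos.trans_le (h.one_le_mu h0 (by norm_num)))]
  refine mu_le fun n => ?_
  rw [← ee_zero (a := a) hA0 n]
  refine recover0 h hA hB hB1 (by simp) (Real.exp_pos _) (by linarith) (fun v hv => ?_) n
  have hv1 : v ∈ ball (0 : ℂ) (1 / 2) := mem_ball_zero_iff.2 (by linarith)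
  have h3 := Complex.borelCaratheodory_zero hL
    (fun z hz => (k1 z (hb hz)).differentiableAt.differentiableWithinAt)
    (fun w hw => (k2 w (hb hw)).trans_le (h1 w (mem_ball_zero_iff.1 hw).le)) (by norm_num) hv1 k0
  rw [← Real.log_le_iff_le_exp (norm_pos_iff.2 (hz 0 v (by simp) (by linarith))),
    ← k2 v (hb hv1)]
  refine (Complex.re_le_norm _).trans (h3.trans ?_)
  rw [div_le_div_iff₀ (by linarith) (by norm_num)]
  nlinarith

theorem incr {s c : ℝ} (h : Good a) (h0 : a 0 = 1) (hs : |s| ≤ M + 1) (hB : Bd M B)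
    (hB0 : B 0 = 1) (hB1 : ∀ l, 1 ≤ |B l|) (hc0 : 0 < c) (hc : ∀ k, c ≤ |ch s k| * PP M k)
    (hz : ∀ u v : ℂ, ‖u‖ < 1 → ‖v‖ < 1 → GG a (ch s) B u v ≠ 0) {t e L : ℝ} (he : 0 < e)
    (he1 : e ≤ 1) (ht : t + 3 * e < 0) (hL : 0 < L)
    (h1 : ∀ u v : ℂ, ‖u‖ ≤ Real.exp (t + 3 * e) → ‖v‖ ≤ Real.exp (t + 3 * e) →
      Real.log ‖GG a (ch s) B u v‖ ≤ L) {d : ℝ} (hd : 0 < d) (hd1 : d ≤ 1) :
    lam a t - lam a (t - e) ≤
      d * L + (16 * (1 + 18 * (M + 1) + |Real.log c|) * e⁻¹ ^ 3 / d) ^ 2 := by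
  have hA : Bd M (ch s) := abs_ch_le hs
  set K := 1 + 18 * (M + 1) + |Real.log c| with hK
  set y := e⁻¹ with hy
  set D := lam a t - lam a (t - e) with hD
  have hM : (0 : ℝ) ≤ M := by positivity
  have hc1 := abs_nonneg (Real.log c)
  have hK1 : 1 ≤ K := by linarith
  have hy1 : 1 ≤ y := one_le_inv_iff₀.2 ⟨he, he1⟩
  rcases le_total D 1 with hD1 | hD1
  · have h2 : 1 ≤ 16 * K * y ^ 3 / d := by
      rw [le_div_iff₀ hd]
      have := one_le_mul_of_one_le_of_one_le hK1 (one_le_pow₀ hy1 : 1 ≤ y ^ 3)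
      linarith
    have := mul_pos hd hL
    nlinarith
  set q := Real.sqrt D with hq
  have hq1 : 1 ≤ q := Real.one_le_sqrt.2 hD1
  have hq2 : q ^ 2 = D := Real.sq_sqrt (by linarith)
  rw [← hq2]
  refine arith hK1 hy1 hq1 hL hd hd1 ?_
  set g := e / (2 * D) with hg
  have hg0 : 0 < g := by positivity
  have hg1 : g ≤ e / 2 := by rw [hg]; gcongr; linarith
  have hqy := one_le_mul_of_one_le_of_one_le hq1 hy1
  have hl4 : Real.log (4 * y) ≤ 4 * y := (Real.log_le_sub_one_of_pos (by positivity)).trans (by linarith)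
  have hlg : Real.log (2 / g) ≤ 6 * (q * y) := by
    rw [show 2 / g = q ^ 2 * (4 * y) by rw [hq2, hg, hy]; field_simp; norm_num,
      Real.log_mul (by positivity) (by positivity), Real.log_pow]
    have := Real.log_le_sub_one_of_pos (show 0 < q by positivity)
    push_cast
    nlinarith
  have hlg2 : (M + 1) * Real.log (2 / g) ≤ (M + 1) * (6 * (q * y)) := by gcongr
  obtain ⟨u, hu, hu1, hu2⟩ := lower h h0 hA hB (ch_zero s) hB0 hc0 hc
    (x := t - e) (y := t - e + g) (by linarith) (by linarith)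
  have hu3 : ‖u‖ < 1 := hu.trans_lt (Real.exp_lt_one_iff.2 (by linarith))
  rw [show t - e - (t - e + g) = -g by ring] at hu2
  have hlo : lam a (t - e) ≤
      Real.log ‖GG a (ch s) B u 0‖ + (M + 1) * (6 * (q * y)) + |Real.log c| := by
    have h2 := one_le_WW M (Real.exp_pos (-g)).le (Real.exp_lt_one_iff.2 (by linarith))
    have h4 := Real.log_le_log (one_pos.trans_le (h.one_le_mu h0 (by linarith))) hu2
    rw [Real.log_div (by positivity) hc0.ne', Real.log_mul (by positivity) (by positivity)] at h4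
    have := log_WW M hg0 (by linarith)
    have := neg_abs_le (Real.log c)
    unfold lam
    linarith
  have hup : ∀ v : ℂ, ‖v‖ ≤ Real.exp (t - e) → Real.log ‖GG a (ch s) B u v‖ ≤
      lam a (t - e) + 1 + 2 * ((M + 1) * (6 * (q * y))) := by
    intro v hv
    have h2 := logG h h0 hA hB hg0 (by linarith) (x := t - e + g) (by linarith) hu.le
      (hv.trans (Real.exp_le_exp.2 (by linarith)))
      (hz u v hu3 (hv.trans_lt (Real.exp_lt_one_iff.2 (by linarith))))
    have h3 := h.lam_convex h0 (x := t - e) (y := t) (s := D⁻¹) (by linarith) (by linarith)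
      (by positivity) (inv_le_one_of_one_le₀ hD1)
    rw [show (1 - D⁻¹) * (t - e) + D⁻¹ * t = t - e + g + g by rw [hg]; field_simp; ring] at h3
    have h4 : D⁻¹ * D = 1 := inv_mul_cancel₀ (by positivity)
    have h5 : (1 - D⁻¹) * lam a (t - e) + D⁻¹ * lam a t = lam a (t - e) + D⁻¹ * D := by
      rw [hD]; ring
    linarith
  have hKq : 1 + 3 * ((M + 1) * (6 * (q * y))) + |Real.log c| ≤ K * q * y := by
    rw [hK]
    nlinarith
  have hG0 := Real.log_nonneg hu1
  have hk := fun (v : ℂ) (hv : ‖v‖ = Real.exp t) => key (diff_GG h hA hB hu3)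
    (fun z hz' => hz u z hu3 (mem_ball_zero_iff.1 hz')) he ht (E := K * q * y) (by positivity) hL
    (fun z hz' => by linarith [hup z hz']) (fun z hz' => by
      linarith [h1 u z (hu.le.trans (Real.exp_le_exp.2 (by linarith))) hz']) hv
  have h6 := recover h hs hB hB1 (u := u) (x := t - e / 2) (y := t) (by linarith) (by linarith)
    (hu.le.trans (Real.exp_le_exp.2 (by linarith)))
    (T := Real.exp (Real.log ‖GG a (ch s) B u 0‖ + 2 / e * Real.sqrt (K * q * y * L)))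
    fun v hv => by
      rw [← Real.log_le_iff_le_exp (norm_pos_iff.2
        (hz u v hu3 (hv.trans_lt (Real.exp_lt_one_iff.2 (by linarith)))))]
      linarith [hk v hv]
  rw [show t - e / 2 - t = -(e / 2) by ring] at h6
  have h7 := one_le_WW M (Real.exp_pos (-(e / 2))).le (Real.exp_lt_one_iff.2 (by linarith))
  have h8 := Real.log_le_log (one_pos.trans_le (h.one_le_mu h0 (by linarith))) h6
  rw [Real.log_mul (by positivity) (by positivity), Real.log_exp] at h8
  have h9 := log_WW M (half_pos he) (by linarith)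
  rw [show 2 / (e / 2) = 4 * y by rw [hy]; field_simp; norm_num] at h9
  have h10 : (M + 1) * Real.log (4 * y) ≤ (M + 1) * (6 * (q * y)) := by gcongr; nlinarith
  have h11 := hup 0 (by simpa using (Real.exp_pos _).le)
  have h12 : 0 ≤ K * q * y := by positivity
  rw [hq2, hD, show 2 * y = 2 / e by rw [hy, div_eq_mul_inv]]
  unfold lam at h11 ⊢
  linarith

theorem step {s c : ℝ} (h : Good a) (h0 : a 0 = 1) (hs : |s| ≤ M + 1) (hB : Bd M B)
    (hB0 : B 0 = 1) (hB1 : ∀ l, 1 ≤ |B l|) (hc0 : 0 < c) (hc : ∀ k, c ≤ |ch s k| * PP M k)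
    (hz : ∀ u v : ℂ, ‖u‖ < 1 → ‖v‖ < 1 → GG a (ch s) B u v ≠ 0) (t e : ℝ) (ht0 : -1 / 2 ≤ t)
    (he : 0 < e) (ht : t + 4 * e < 0) : lam a t ≤ lam a (t + 4 * e) / 1024 +
      (M + 1 + 10 * (327680 * (1 + 18 * (M + 1) + |Real.log c|)) ^ 2) / e ^ 9 := by
  have hA : Bd M (ch s) := abs_ch_le hs
  have he1 : e ≤ 1 := by linarith
  have hy1 : 1 ≤ e⁻¹ := one_le_inv_iff₀.2 ⟨he, he1⟩
  set L := lam a (t + 4 * e) + 4 * ((M + 1) * e⁻¹) with hL
  have hl := h.lam_nonneg h0 ht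
  have hL0 : 0 < L := by positivity
  have h1 : ∀ u v : ℂ, ‖u‖ ≤ Real.exp (t + 3 * e) → ‖v‖ ≤ Real.exp (t + 3 * e) →
      Real.log ‖GG a (ch s) B u v‖ ≤ L := by
    intro u v hu hv
    have h3 : Real.exp (t + 3 * e) < 1 := Real.exp_lt_one_iff.2 (by linarith)
    have h2 := logG h h0 hA hB he he1 (by linarith) hu hv (hz u v (hu.trans_lt h3) (hv.trans_lt h3))
    rw [show t + 3 * e + e = t + 4 * e by ring] at h2
    have h4 : Real.log (2 / e) ≤ 2 * e⁻¹ :=
      (Real.log_le_sub_one_of_pos (by positivity)).trans (by rw [div_eq_mul_inv]; linarith)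
    have : (M + 1) * Real.log (2 / e) ≤ (M + 1) * (2 * e⁻¹) := by gcongr
    linarith
  have h2 := small h h0 hA hB (ch_zero s) hB0 hB1 hz hL0 fun v hv =>
    h1 0 v (by simpa using (Real.exp_pos _).le)
      (hv.trans (le_trans (by linarith) (Real.add_one_le_exp _)))
  have h3 := incr h h0 hs hB hB0 hB1 hc0 hc hz he he1 (by linarith) hL0 h1 (d := e / 20480)
    (by positivity) (by linarith)
  have ht1 : 0 < t + 10 := by linarith
  have h4 := h.lam_convex h0 (x := t) (y := -10) (s := e / (t + 10)) (by linarith) (by norm_num)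
    (by positivity) (by rw [div_le_one ht1]; linarith)
  rw [show (1 - e / (t + 10)) * t + e / (t + 10) * (-10) = t - e by field_simp; ring] at h4
  have h5 := h.lam_mono h0 (show t - e ≤ t by linarith) (by linarith)
  have h6 : lam a t - lam a (-10) ≤ 10 * e⁻¹ * (lam a t - lam a (t - e)) := by
    have : e / (t + 10) * (lam a t - lam a (-10)) ≤ lam a t - lam a (t - e) := by linarith
    rw [div_mul_eq_mul_div, div_le_iff₀ ht1] at this
    refine le_of_mul_le_mul_left (this.trans ?_) he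
    rw [show e * (10 * e⁻¹ * (lam a t - lam a (t - e))) = (lam a t - lam a (t - e)) * 10 by
      field_simp]
    gcongr
    linarith
  set K := 1 + 18 * (M + 1) + |Real.log c|
  have h7 : 10 * e⁻¹ * (lam a t - lam a (t - e)) ≤ L / 2048 + 10 * (327680 * K) ^ 2 / e ^ 9 := by
    refine (mul_le_mul_of_nonneg_left h3 (by positivity)).trans_eq ?_
    field_simp
    ring
  have h8 : (M + 1) * e⁻¹ ≤ (M + 1) / e ^ 9 := by
    rw [div_eq_mul_inv, ← inv_pow]
    gcongr
    exact le_self_pow₀ hy1 (by norm_num)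
  have h9 : 0 ≤ (M + 1) * e⁻¹ := by positivity
  rw [add_div]
  linarith

theorem bound_nonint {s : ℝ} (hs0 : 0 ≤ s) (hs : s + 2 ≤ M) (hn : ∀ n : ℕ, s ≠ n) (hB : Bd M B)
    (hB0 : B 0 = 1) (hB1 : ∀ l, 1 ≤ |B l|) {r : ℝ} (hr0 : 0 ≤ r) (hr : r < 1) :
    ∃ C, ∀ a : ℕ → ℂ, Good a → a 0 = 1 →
      (∀ u v : ℂ, ‖u‖ < 1 → ‖v‖ < 1 → GG a (ch s) B u v ≠ 0) → ∀ n, ‖a n‖ * r ^ n ≤ C := by
  obtain ⟨c, hc0, hc⟩ := exists_lower hs0 hs hn
  obtain ⟨x, hx, hrx⟩ := exists_exp hr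
  have ht : max x (-1 / 2) < 0 := max_lt hx (by norm_num)
  refine ⟨_, fun a h h0 hz n => le_trans ?_ ((h.le_mu ht n).trans ((Real.log_le_iff_le_exp
    (one_pos.trans_le (h.one_le_mu h0 ht))).1 (absorb (f := lam a) (t1 := max x (-1 / 2) / 2)
    (by linarith) (by positivity) (fun t => h.lam_nonneg h0)
    (fun t ht' => h.lam_mono h0 ht' (by linarith))
    (step h h0 (by rw [abs_of_nonneg hs0]; linarith) hB hB0 hB1 hc0 hc hz) (le_max_right _ _)
    (by linarith))))⟩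
  gcongr
  exact hrx.trans (Real.exp_le_exp.2 (le_max_left _ _))

theorem ch_nat {m k : ℕ} (h : m < k) : ch m k = 0 := by
  simp [ch, Ring.choose_natCast, Nat.choose_eq_zero_of_lt h]

theorem poly_bound {p : Polynomial ℂ} {m : ℕ} (hp : p.natDegree ≤ m)
    (hz : ∀ u : ℂ, ‖u‖ < 1 → p.eval u ≠ 0) : ‖p.coeff 1‖ ≤ m * ‖p.coeff 0‖ := by
  have h1 := (IsAlgClosed.splits p).eval_derivative_eq_eval_mul_sum (hz 0 (by simp))
  rw [← Polynomial.coeff_zero_eq_eval_zero, ← Polynomial.coeff_zero_eq_eval_zero,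
    Polynomial.coeff_derivative] at h1
  simp only [zero_add, Nat.cast_zero, mul_one] at h1
  rw [h1, norm_mul, mul_comm]
  gcongr
  refine (norm_multiset_sum_le _).trans ((Multiset.sum_le_card_nsmul _ 1 ?_).trans ?_)
  · simp only [Multiset.map_map, Multiset.mem_map]
    rintro _ ⟨z, hz1, rfl⟩
    have : 1 ≤ ‖z‖ := not_lt.1 fun h => hz z h (Polynomial.isRoot_of_mem_roots hz1)
    simpa using inv_le_one_of_one_le₀ this
  · simpa using (Polynomial.card_roots' p).trans hp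

theorem bound_int {m : ℕ} {b : ℝ} (hm0 : 1 ≤ m) (hm : |(m : ℝ)| ≤ M + 1) (hb1 : 1 ≤ b)
    (hb : |-b| ≤ M + 1) {r : ℝ} (hr0 : 0 < r) (hr : r < 1) :
    ∃ C, ∀ a : ℕ → ℂ, Good a → a 0 = 1 →
      (∀ u v : ℂ, ‖u‖ < 1 → ‖v‖ < 1 → GG a (ch m) (ch (-b)) u v ≠ 0) →
      ∀ n, ‖a n‖ * r ^ n ≤ C := by
  have hA : Bd M (ch m) := abs_ch_le hm
  have hB : Bd M (ch (-b)) := abs_ch_le hb
  refine ⟨Real.exp ((b + 2 / (1 - r)) / (1 - r)), fun a h h0 hz n => ?_⟩
  set e0 := ps fun k => ch (-b) k * a k with he0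
  set e1 := ps fun k => ch (-b) k * a (k + 1) with he1
  have g0 := h.mulBd hB
  have g1 := (h.shift 1).mulBd hB
  have k0 : ∀ v : ℂ, ‖v‖ < 1 → GG a (ch m) (ch (-b)) 0 v = e0 v := fun v hv => by
    rw [GG_symm, GG_zero h hB hA (ch_zero _) hv]
  have hne : ∀ v ∈ ball (0 : ℂ) 1, e0 v ≠ 0 := fun v hv => by
    rw [← k0 v (mem_ball_zero_iff.1 hv)]
    exact hz 0 v (by simp) (mem_ball_zero_iff.1 hv)
  have hle : ∀ v : ℂ, ‖v‖ < 1 → ‖e1 v / e0 v‖ ≤ 1 := by
    intro v hv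
    have h1 := poly_bound (m := m) (p := ∑ k ∈ Finset.range (m + 1),
      Polynomial.monomial k (ch m k * ee a (ch (-b)) v k))
      (Polynomial.natDegree_sum_le_of_forall_le _ _ fun k hk =>
        (Polynomial.natDegree_monomial_le _).trans (by simpa [Nat.lt_succ_iff] using hk))
      fun u hu => by
        convert hz u v hu hv using 1
        rw [GG_symm, GG_eq h hB hA hv hu, ps, tsum_eq_sum (s := Finset.range (m + 1))
          fun k hk => by simp [ch_nat (show m < k by simpa using hk)]]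
        simp [Polynomial.eval_finsetSum]
    have h2 : ch m 1 = m := by simp [ch]
    simp only [Polynomial.finsetSum_coeff, Polynomial.coeff_monomial, Finset.sum_ite_eq',
      Finset.mem_range, show 1 < m + 1 by omega, show 0 < m + 1 by omega, if_true, h2, ch_zero,
      norm_mul, Complex.norm_real, Real.norm_natCast, norm_one, one_mul] at h1
    rw [norm_div]
    exact div_le_one_of_le₀ (le_of_mul_le_mul_left h1 (by positivity)) (norm_nonneg _)
  have hode : ∀ v : ℂ, ‖v‖ < 1 → deriv e0 v = -b * e1 v - v * deriv e1 v := by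
    intro v hv
    have h1 := (hasSum_nat_add_iff' 1).2 (g0.hasSum_deriv hv)
    have h2 := ((g1.hasSum hv).mul_left (-b : ℂ)).sub ((g1.hasSum_deriv hv).mul_left v)
    simp only [Finset.range_one, Finset.sum_singleton, Nat.cast_zero, zero_mul, mul_zero,
      sub_zero] at h1
    refine h1.unique (by
      convert h2 using 2 with k
      have h3 : ((k : ℂ) + 1) * ch (-b) (k + 1) = (-b - k) * ch (-b) k := by
        exact_mod_cast ch_succ (-b) k
      have h4 : v * ((k : ℂ) * v ^ (k - 1)) = k * v ^ k := by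
        rcases k with _ | k
        · simp
        · simp [pow_succ]; ring
      push_cast
      linear_combination a (k + 1) * v ^ k * h3 + ch (-b) k * a (k + 1) * h4)
  have hw : DifferentiableOn ℂ (fun v => e1 v / e0 v) (ball 0 1) := g1.diff.div g0.diff hne
  obtain ⟨k, k1, k2, k3⟩ := exists_log g0.diff hne
  have hr1 : 0 < 1 - r := by linarith
  have hbd : ∀ v ∈ closedBall (0 : ℂ) r, ‖deriv e0 v / e0 v‖ ≤ (b + 2 / (1 - r)) / (1 - r) := by
    intro v hv
    rw [mem_closedBall_zero_iff] at hv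
    have hv1 : ‖v‖ < 1 := hv.trans_lt hr
    have hv2 : v ∈ ball (0 : ℂ) 1 := mem_ball_zero_iff.2 hv1
    have hsub : closedBall v ((1 - r) / 2) ⊆ ball 0 1 :=
      closedBall_subset_ball' (by rw [dist_zero_right]; linarith)
    have h1 := Complex.norm_deriv_le_of_forall_mem_sphere_norm_le (half_pos hr1) (dcc hw hsub)
      fun z hz => hle z (mem_ball_zero_iff.1 (hsub (sphere_subset_closedBall hz)))
    rw [deriv_fun_div (g1.diff.differentiableAt (isOpen_ball.mem_nhds hv2))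
      (g0.diff.differentiableAt (isOpen_ball.mem_nhds hv2)) (hne v hv2), one_div_div] at h1
    have h2 := hle v hv1
    have h3 := hne v hv2
    have h4 : deriv e0 v / e0 v = -(v * (e1 v / e0 v) * (deriv e0 v / e0 v)) +
        -(b * (e1 v / e0 v)) - v * ((deriv e1 v * e0 v - e1 v * deriv e0 v) / e0 v ^ 2) := by
      have := hode v hv1
      field_simp
      linear_combination e0 v * this
    have h5 := (congrArg norm h4).trans_le ((norm_sub_le _ _).trans
      (add_le_add (norm_add_le _ _) le_rfl))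
    simp only [norm_neg, norm_mul, Complex.norm_real, Real.norm_eq_abs,
      abs_of_pos (show 0 < b by linarith)] at h5
    rw [le_div_iff₀ hr1]
    have h6 : ‖v‖ * ‖e1 v / e0 v‖ * ‖deriv e0 v / e0 v‖ ≤ r * 1 * ‖deriv e0 v / e0 v‖ := by gcongr
    have h7 : b * ‖e1 v / e0 v‖ ≤ b * 1 := by gcongr
    have h8 : ‖v‖ * ‖(deriv e1 v * e0 v - e1 v * deriv e0 v) / e0 v ^ 2‖ ≤ 1 * (2 / (1 - r)) := by
      gcongr
    linarith
  rw [← ee_zero (a := a) (ch_zero (m : ℝ)) n]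
  refine recover0 h hA hB (one_le_abs_ch hb1) (by simp) hr0 hr (fun v hv => ?_) n
  have hv2 : v ∈ ball (0 : ℂ) 1 := mem_ball_zero_iff.2 (hv.trans_lt hr)
  have h1 := Convex.norm_image_sub_le_of_norm_hasDerivWithin_le
    (fun z hz => (k2 z (closedBall_subset_ball hr hz)).hasDerivWithinAt) hbd
    (convex_closedBall (0 : ℂ) r) (mem_closedBall_self hr0.le) (mem_closedBall_zero_iff.2 hv.le)
  have h2 := k3 v hv2
  rw [k0 v (hv.trans_lt hr), ← Real.log_le_iff_le_exp (norm_pos_iff.2 (hne v hv2))]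
  simp only [ps_zero, ch_zero, h0, Complex.ofReal_one, mul_one, norm_one, Real.log_one,
    sub_zero, k1, hv] at h1 h2
  rw [← h2]
  exact (Complex.re_le_norm _).trans (h1.trans (mul_le_of_le_one_right (by positivity) hr.le))

theorem bound {s b : ℝ} (hs : 1 ≤ s) (hb : 1 ≤ b) {r : ℝ} (hr0 : 0 < r) (hr : r < 1) :
    ∃ C, ∀ a : ℕ → ℂ, Good a → a 0 = 1 →
      (∀ u v : ℂ, ‖u‖ = ‖v‖ → ‖u‖ < 1 → GG a (ch s) (ch (-b)) u v ≠ 0) →
      ∀ n, ‖a n‖ * r ^ n ≤ C := by
  obtain ⟨M, hM⟩ := exists_nat_ge (s + b + 2)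
  have h1 : |s| ≤ M + 1 := by rw [abs_of_pos (by linarith)]; linarith
  have h2 : |-b| ≤ M + 1 := by rw [abs_neg, abs_of_pos (by linarith)]; linarith
  suffices H : ∃ C, ∀ a : ℕ → ℂ, Good a → a 0 = 1 →
      (∀ u v : ℂ, ‖u‖ < 1 → ‖v‖ < 1 → GG a (ch s) (ch (-b)) u v ≠ 0) →
      ∀ n, ‖a n‖ * r ^ n ≤ C by
    obtain ⟨C, hC⟩ := H
    exact ⟨C, fun a h h0 hz => hC a h h0 fun u v hu hv =>
      all_free h h0 (abs_ch_le h1) (abs_ch_le h2) (ch_zero _) (ch_zero _) hz hu hv⟩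
  by_cases hn : ∀ n : ℕ, s ≠ n
  · exact bound_nonint (by linarith) (by linarith) hn (abs_ch_le h2) (ch_zero _)
      (one_le_abs_ch hb) hr0.le hr
  · push Not at hn
    obtain ⟨m, rfl⟩ := hn
    exact bound_int (by exact_mod_cast hs) h1 hb h2 hr0 hr

end Pool.Agent.H99.TN
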