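import Mathlib

set_option autoImplicit false

namespace Pool.Agent.H99.TraceBr

open MvPolynomial

/-- Polynomial functions of the entries of N matrices of size m; the variable (a, i, j) is the
entry in row i and column j of the matrix x_a. -/
abbrev R (m N : ℕ) := MvPolynomial (Fin N × Fin m × Fin m) ℂ

/-- The matrix x_a of coordinate functions. -/
noncomputable def xm {m N : ℕ} (a : Fin N) : Matrix (Fin m) (Fin m) (R m N) :=
  Matrix.of fun i j => X (a, i, j)

/-- A bilinear bracket is Poisson: antisymmetric, Leibniz, Jacobi. -/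
def IsPoisson {m N : ℕ} (br : R m N →ₗ[ℂ] R m N →ₗ[ℂ] R m N) : Prop :=
  (∀ f g, br f g = -br g f) ∧ (∀ f g h, br f (g * h) = br f g * h + g * br f h) ∧
    ∀ f g h, br f (br g h) + br g (br h f) + br h (br f g) = 0

/-- The substitution x_a ↦ g x_a g⁻¹ on polynomial functions. -/
noncomputable def conjBy {m N : ℕ} (g : GL (Fin m) ℂ) : R m N →ₐ[ℂ] R m N :=
  aeval fun p =>
    (g.val.map C * xm p.1 * (g⁻¹).val.map C : Matrix (Fin m) (Fin m) (R m N)) p.2.1 p.2.2

/-- The trace of a matrix polynomial, i.e. of a noncommutative polynomial evaluated at the x_a. -/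
noncomputable def trP {m N : ℕ} (P : FreeAlgebra ℂ (Fin N)) : R m N :=
  (FreeAlgebra.lift ℂ (xm (m := m)) P).trace

/-- Trace bracket: conjugation invariant, and traces of matrix polynomials close under it. -/
def IsTraceBracket {m N : ℕ} (br : R m N →ₗ[ℂ] R m N →ₗ[ℂ] R m N) : Prop :=
  (∀ (g : GL (Fin m) ℂ) f h, conjBy g (br f h) = br (conjBy g f) (conjBy g h)) ∧
    ∀ P Q : FreeAlgebra ℂ (Fin N), ∃ S : FreeAlgebra ℂ (Fin N), br (trP P) (trP Q) = trP S

/-- The matrix product of a word in the x_a; the empty word gives the identity. -/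
noncomputable def wd {m N : ℕ} (u : List (Fin N)) : Matrix (Fin m) (Fin m) (R m N) :=
  (u.map xm).prod

/-- Form (*): the sum runs over pairs of words u, v of lengths l and k - l, for l from 0 to k. -/
def HasForm {m N : ℕ} (k : ℕ) (br : R m N →ₗ[ℂ] R m N →ₗ[ℂ] R m N) : Prop :=
  ∃ c : Fin N → Fin N → List (Fin N) → List (Fin N) → ℂ, ∀ a b i j i' j',
    br (X (a, i, j)) (X (b, i', j')) =
      ∑ l ∈ Finset.range (k + 1), ∑ u : Fin l → Fin N, ∑ v : Fin (k - l) → Fin N,
        c a b (List.ofFn u) (List.ofFn v) • (wd (List.ofFn u) i j' * wd (List.ofFn v) i' j)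

end Pool.Agent.H99.TraceBr
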