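import Mathlib

set_option autoImplicit false

open Filter Topology Complex Set MeasureTheory Metric
open scoped ENNReal

namespace Pool.Agent.H99.Tube

/-- reverse Fatou lemma with varying majorants -/
theorem GD {α ι : Type*} [MeasurableSpace α] {μ : Measure α} {u : Filter ι} [u.IsCountablyGenerated]
    {f g : ι → α → ℝ} {f0 g0 : α → ℝ} (hf : ∀ i, AEMeasurable (f i) μ)
    (hg : ∀ i, AEMeasurable (g i) μ) (hf0 : AEMeasurable f0 μ) (hle : ∀ i x, f i x ≤ g i x)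
    (hle0 : ∀ x, f0 x ≤ g0 x)
    (tf : ∀ᵐ x ∂μ, Tendsto (fun i => f i x) u (𝓝 (f0 x)))
    (tg : ∀ᵐ x ∂μ, Tendsto (fun i => g i x) u (𝓝 (g0 x)))
    (hb : ∀ i, ∫⁻ x, .ofReal (g i x) ∂μ ≤ ∫⁻ x, .ofReal (g0 x) ∂μ)
    (fin : ∫⁻ x, .ofReal (g0 x) ∂μ ≠ ∞) {c : ℝ≥0∞} (hc : ∫⁻ x, .ofReal (f0 x) ∂μ < c) :
    ∀ᶠ i in u, ∫⁻ x, .ofReal (f i x) ∂μ < c := by
  rcases u.eq_or_neBot with rfl | _
  · simp
  set b := ∫⁻ x, ENNReal.ofReal (g0 x) ∂μ
  have l1 : ∀ i, ∫⁻ x, .ofReal (f i x) ∂μ ≤ b := fun i =>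
    (lintegral_mono fun x => ENNReal.ofReal_le_ofReal (hle i x)).trans (hb i)
  by_cases hcb : b < c
  · exact Eventually.of_forall fun i => (l1 i).trans_lt hcb
  have F := lintegral_liminf_le' (u := u) (μ := μ)
    (f := fun i x => ENNReal.ofReal (g i x) - ENNReal.ofReal (f i x))
    fun i => (hg i).ennreal_ofReal.sub (hf i).ennreal_ofReal
  have e : ∫⁻ x, liminf (fun i => ENNReal.ofReal (g i x) - ENNReal.ofReal (f i x)) u ∂μ
      = b - ∫⁻ x, .ofReal (f0 x) ∂μ := by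
    rw [← lintegral_sub' hf0.ennreal_ofReal hc.ne_top
      (Eventually.of_forall fun x => ENNReal.ofReal_le_ofReal (hle0 x))]
    refine lintegral_congr_ae ?_
    filter_upwards [tf, tg] with x h1 h2
    exact (ENNReal.Tendsto.sub (ENNReal.tendsto_ofReal h2) (ENNReal.tendsto_ofReal h1)
      (Or.inl ENNReal.ofReal_ne_top)).liminf_eq
  have lt : b - c < b - ∫⁻ x, .ofReal (f0 x) ∂μ :=
    AddLECancellable.tsub_lt_tsub_left_of_le (ENNReal.cancel_of_ne (ENNReal.sub_ne_top fin))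
      (not_lt.1 hcb) hc
  filter_upwards [eventually_lt_of_lt_liminf (lt.trans_le (e ▸ F))] with i hi
  rw [lintegral_sub' (hf i).ennreal_ofReal (ne_top_of_le_ne_top fin (l1 i))
    (Eventually.of_forall fun x => ENNReal.ofReal_le_ofReal (hle i x))] at hi
  by_contra h
  exact absurd hi (not_lt.2 (tsub_le_tsub (hb i) (not_lt.1 h)))

theorem lin2 {α : Type*} [MeasurableSpace α] {μ : Measure α} {f g h : α → ℝ}
    (hg : AEMeasurable g μ) (H : ∀ x, f x ≤ g x + h x) :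
    ∫⁻ x, .ofReal (f x) ∂μ ≤ ∫⁻ x, .ofReal (g x) ∂μ + ∫⁻ x, .ofReal (h x) ∂μ := by
  rw [← lintegral_add_left' hg.ennreal_ofReal]
  exact lintegral_mono fun x => (ENNReal.ofReal_le_ofReal (H x)).trans ENNReal.ofReal_add_le

theorem lin1 {α : Type*} [MeasurableSpace α] {μ : Measure α} (f : α → ℝ) {c : ℝ} (hc : 0 ≤ c) :
    ∫⁻ x, .ofReal (c * f x) ∂μ = .ofReal c * ∫⁻ x, .ofReal (f x) ∂μ := by
  simp only [ENNReal.ofReal_mul hc]
  exact lintegral_const_mul' _ _ ENNReal.ofReal_ne_top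

theorem weak {α : Type*} [MeasurableSpace α] {μ : Measure α} {A B : ℕ → α → ℝ} {A0 B0 : α → ℝ}
    (hA : ∀ i, AEMeasurable (A i) μ) (hB : ∀ i, AEMeasurable (B i) μ) (hA0 : AEMeasurable A0 μ)
    (hB0 : AEMeasurable B0 μ) (pA : ∀ i x, 0 ≤ A i x) (pB : ∀ i x, 0 ≤ B i x) (pB0 : ∀ x, 0 ≤ B0 x)
    (tA : ∀ᵐ x ∂μ, Tendsto (fun i => A i x) atTop (𝓝 (A0 x)))
    (tB : ∀ x, Tendsto (fun i => B i x) atTop (𝓝 (B0 x))) {C : ℝ} (C0 : 0 ≤ C)
    (bA : ∀ i, ∫⁻ x, .ofReal (A i x ^ 2) ∂μ ≤ .ofReal C)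
    (bB : ∀ i, ∫⁻ x, .ofReal (B i x ^ 2) ∂μ = ∫⁻ x, .ofReal (B0 x ^ 2) ∂μ)
    (fin : ∫⁻ x, .ofReal (B0 x ^ 2) ∂μ ≠ ∞) :
    limsup (fun i => ∫⁻ x, .ofReal (2 * (A i x * B i x)) ∂μ) atTop
      ≤ ∫⁻ x, .ofReal (A0 x ^ 2) ∂μ + ∫⁻ x, .ofReal (B0 x ^ 2) ∂μ := by
  refine le_of_forall_gt_imp_ge_of_dense fun c hc => ENNReal.le_of_forall_pos_le_add fun ε hε _ => ?_
  have e0 : (0 : ℝ) < ε := hε
  set M : ℝ := (2 * C + 1) / ε
  have M0 : 0 < M := by positivity
  have k : ∀ a b : ℝ, 0 ≤ b → 2 * (min a (M * b) * b) ≤ 2 * M * b ^ 2 := fun a b hb => by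
    nlinarith [mul_le_mul_of_nonneg_right (min_le_right a (M * b)) hb]
  have G := GD (u := atTop) (μ := μ) (f := fun i x => 2 * (min (A i x) (M * B i x) * B i x))
    (g := fun i x => 2 * M * B i x ^ 2) (f0 := fun x => 2 * (min (A0 x) (M * B0 x) * B0 x))
    (g0 := fun x => 2 * M * B0 x ^ 2) (fun i => by fun_prop) (fun i => by fun_prop) (by fun_prop)
    (fun i x => k _ _ (pB i x)) (fun x => k _ _ (pB0 x))
    (tA.mono fun x hx => ((hx.min ((tB x).const_mul M)).mul (tB x)).const_mul 2)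
    (Eventually.of_forall fun x => ((tB x).pow 2).const_mul _)
    (fun i => by rw [lin1 _ (by positivity), lin1 _ (by positivity), bB])
    (by rw [lin1 _ (by positivity)]; exact ENNReal.mul_ne_top ENNReal.ofReal_ne_top fin)
    ((lin2 (hA0.pow_const 2) fun x => by
      nlinarith [mul_le_mul_of_nonneg_right (min_le_left (A0 x) (M * B0 x)) (pB0 x),
        sq_nonneg (A0 x - B0 x)]).trans_lt hc)
  refine limsup_le_of_le (h := ?_)
  filter_upwards [G] with i hi
  refine (lin2 (g := fun x => 2 * (min (A i x) (M * B i x) * B i x))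
    (h := fun x => 2 / M * A i x ^ 2) (by fun_prop) fun x => ?_).trans (add_le_add hi.le ?_)
  · have a0 := pA i x
    have b0 := pB i x
    rcases le_total (A i x) (M * B i x) with h | h
    · rw [min_eq_left h]; exact le_add_of_nonneg_right (by positivity)
    · rw [min_eq_right h]
      refine le_add_of_nonneg_of_le (by positivity) ?_
      rw [div_mul_eq_mul_div, le_div_iff₀ M0]; nlinarith
  · rw [lin1 _ (by positivity)]
    refine (mul_le_mul_right (bA i) _).trans ?_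
    rw [← ENNReal.ofReal_mul (by positivity), ← ENNReal.ofReal_coe_nnreal]
    refine ENNReal.ofReal_le_ofReal ?_
    rw [div_mul_eq_mul_div, div_le_iff₀ M0, mul_div_cancel₀ _ e0.ne']; linarith

/-- sub-mean value property of `‖h‖ ^ q` -/
theorem submean {h : ℂ → ℂ} {R q : ℝ} (hR : 0 < R) (hq : 0 < q)
    (ha : AnalyticOnNhd ℂ h (closedBall 0 |R|)) :
    ‖h 0‖ ^ q ≤ Real.circleAverage (fun z => ‖h z‖ ^ q) 0 R := by
  have ci : CircleIntegrable (fun z => ‖h z‖ ^ q) 0 R := by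
    rw [abs_of_pos hR] at ha
    exact ((ha.continuousOn.mono sphere_subset_closedBall).norm.rpow_const
      fun _ _ => Or.inr hq.le).circleIntegrable hR.le
  by_cases h0 : h 0 = 0
  · rw [h0, norm_zero, Real.zero_rpow hq.ne', ← Real.circleAverage_const (0 : ℝ) 0 R]
    exact Real.circleAverage_mono (circleIntegrable_const _ _ _) ci fun _ _ => by positivity
  have n0 : 0 < ‖h 0‖ := norm_pos_iff.2 h0
  set s : ℝ := Real.exp (1 / q) / ‖h 0‖ with hs
  have s0 : 0 < s := by positivity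
  have a1 : AnalyticOnNhd ℂ (fun z => (s : ℂ) * h z) (closedBall 0 |R|) :=
    analyticOnNhd_const.mul ha
  have nn := MeromorphicOn.AnalyticOnNhd.divisor_nonneg a1
  have J := a1.circleAverage_log_norm hR.ne' (mul_ne_zero (ofReal_ne_zero.2 s0.ne') h0)
  have p0 : 0 ≤ ∑ᶠ u, (MeromorphicOn.divisor (fun z => (s : ℂ) * h z) (closedBall 0 |R|) u : ℝ)
      * Real.log (R * ‖0 - u‖⁻¹) := finsum_nonneg fun u => by
    by_cases hu : u ∈ closedBall (0 : ℂ) |R|
    · refine mul_nonneg (by exact_mod_cast nn u) ?_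
      by_cases u0 : u = 0
      · simp [u0]
      · apply Real.log_nonneg
        rw [mem_closedBall_zero_iff, abs_of_pos hR] at hu
        rwa [zero_sub, norm_neg, ← div_eq_mul_inv, one_le_div (norm_pos_iff.2 u0)]
    · simp [hu]
  have ns : ∀ z, ‖(s : ℂ) * h z‖ = s * ‖h z‖ := fun z => by
    rw [norm_mul, Complex.norm_real, Real.norm_of_nonneg s0.le]
  have e1 : Real.log ‖(s : ℂ) * h 0‖ = 1 / q := by
    rw [ns, hs, div_mul_cancel₀ _ n0.ne', Real.log_exp]
  have e2 : s ^ q * ‖h 0‖ ^ q = Real.exp 1 := by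
    rw [← Real.mul_rpow s0.le n0.le, hs, div_mul_cancel₀ _ n0.ne', ← Real.exp_mul]
    congr 1; field_simp
  have sq : 0 < s ^ q := by positivity
  have m := Real.circleAverage_mono (c := 0) (R := R)
    (f₁ := fun z => Real.log ‖(s : ℂ) * h z‖)
    (f₂ := fun z => (s ^ q / (Real.exp 1 * q)) • ‖h z‖ ^ q)
    (a1.mono sphere_subset_closedBall).meromorphicOn.circleIntegrable_log_norm
    ci.const_smul fun z _ => by
      simp only [smul_eq_mul]
      rw [ns, div_mul_eq_mul_div (s ^ q), ← Real.mul_rpow s0.le (norm_nonneg _),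
        le_div_iff₀ (by positivity)]
      rcases (mul_nonneg s0.le (norm_nonneg (h z))).eq_or_lt with t | t
      · rw [← t]; simp; positivity
      · rw [Real.rpow_def_of_pos t]
        have := Real.add_one_le_exp (Real.log (s * ‖h z‖) * q - 1)
        rw [Real.exp_sub, le_div_iff₀ (Real.exp_pos 1)] at this
        linarith
  rw [Real.circleAverage_fun_smul, J, e1, smul_eq_mul, div_mul_eq_mul_div,
    le_div_iff₀ (by positivity)] at m
  refine le_of_mul_le_mul_left ?_ sq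
  have e3 : 1 / q * (Real.exp 1 * q) = Real.exp 1 := by field_simp
  nlinarith [mul_nonneg p0 (mul_pos (Real.exp_pos 1) hq).le]

theorem submean' {h : ℂ → ℂ} {R q : ℝ} (hR : 0 < R) (hq : 0 < q)
    (ha : AnalyticOnNhd ℂ h (closedBall 0 |R|)) {c : ℝ} (hc : 0 ≤ c) :
    .ofReal (2 * Real.pi) * ENNReal.ofReal (2 * (‖h 0‖ ^ q * c))
      ≤ ∫⁻ θ in Ioc 0 (2 * Real.pi), .ofReal (2 * (‖h (circleMap 0 R θ)‖ ^ q * c)) := by
  have ct : Continuous fun θ => ‖h (circleMap 0 R θ)‖ ^ q :=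
    (ha.continuousOn.comp_continuous (continuous_circleMap 0 R) fun θ =>
      sphere_subset_closedBall (circleMap_mem_sphere' 0 R θ)).norm.rpow_const fun _ => Or.inr hq.le
  have m := submean hR hq ha
  have pp := Real.two_pi_pos
  rw [Real.circleAverage_def, smul_eq_mul, le_inv_mul_iff₀ pp,
    intervalIntegral.integral_of_le pp.le] at m
  have ct2 : Continuous fun θ => 2 * (‖h (circleMap 0 R θ)‖ ^ q * c) := by fun_prop
  rw [← ofReal_integral_eq_lintegral_ofReal (ct2.integrableOn_Icc.mono_set Ioc_subset_Icc_self)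
    (Eventually.of_forall fun θ => by positivity), ← ENNReal.ofReal_mul pp.le,
    integral_const_mul, integral_mul_const]
  exact ENNReal.ofReal_le_ofReal (by nlinarith)

end Pool.Agent.H99.Tube
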