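import Pool.Agent.H99.Tube1

set_option autoImplicit false

open Filter Topology Complex Set MeasureTheory Metric
open scoped ENNReal

namespace Pool.Agent.H99.Tube

noncomputable def mb (w : ℂ) : ℂ := I * (1 + w) / (1 - w)

theorem mb_im (w : ℂ) : (mb w).im = (1 - ‖w‖ ^ 2) / normSq (1 - w) := by
  rw [← normSq_eq_norm_sq, mb, div_im, ← sub_div]; simp [normSq_apply]; ring

theorem ne1 {w : ℂ} (h : ‖w‖ < 1) : 1 - w ≠ 0 := fun e => by
  rw [← sub_eq_zero.1 e] at h; simp at h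

theorem mb_pos {w : ℂ} (h : ‖w‖ < 1) : 0 < (mb w).im := by
  rw [mb_im]; exact div_pos (by nlinarith [norm_nonneg w]) (normSq_pos.2 (ne1 h))

noncomputable def rr (k : ℕ) : ℝ := 1 - 1 / ((k : ℝ) + 1) / 2

theorem rr_pos (k : ℕ) : 0 < rr k := by
  have : 1 / ((k : ℝ) + 1) ≤ 1 := by rw [div_le_one (by positivity)]; simp
  unfold rr; linarith

theorem rr_lt (k : ℕ) : rr k < 1 := by
  have : 0 < 1 / ((k : ℝ) + 1) := by positivity
  unfold rr; linarith

theorem rr_lim : Tendsto rr atTop (𝓝 1) := by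
  have := ((tendsto_one_div_add_atTop_nhds_zero_nat (𝕜 := ℝ)).div_const 2).const_sub 1
  rwa [zero_div, sub_zero] at this

noncomputable def pt (k : ℕ) (θ : ℝ) : ℂ := mb (circleMap 0 (rr k) θ)

theorem cm_lt (k : ℕ) (θ : ℝ) : ‖circleMap 0 (rr k) θ‖ < 1 := by
  rw [norm_circleMap_zero, abs_of_pos (rr_pos k)]; exact rr_lt k

theorem pt_pos (k : ℕ) (θ : ℝ) : 0 < (pt k θ).im := mb_pos (cm_lt k θ)

theorem pt_cont (k : ℕ) : Continuous (pt k) := by
  have := continuous_circleMap 0 (rr k)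
  exact (by fun_prop : Continuous fun θ => I * (1 + circleMap 0 (rr k) θ)).div (by fun_prop)
    fun θ => ne1 (cm_lt k θ)

theorem pt_lim {θ : ℝ} (h : θ ∈ Ioo 0 (2 * Real.pi)) :
    ∃ τ : ℝ, Tendsto (fun k => pt k θ) atTop (𝓝 τ) := by
  have h1 : 1 - circleMap 0 1 θ ≠ 0 := fun e => by
    have e2 : circleMap 0 1 0 = circleMap 0 1 θ := by rw [← sub_eq_zero.1 e]; simp [circleMap]
    have := eq_of_circleMap_eq one_ne_zero (by rw [zero_sub, abs_neg, abs_of_pos h.1]; exact h.2) e2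
    exact h.1.ne this
  have t : Tendsto (fun k => circleMap 0 (rr k) θ) atTop (𝓝 (circleMap 0 1 θ)) := by
    simp only [circleMap_zero]
    exact ((continuous_ofReal.tendsto 1).comp rr_lim).mul_const _
  refine ⟨(mb (circleMap 0 1 θ)).re, ?_⟩
  have e : ((mb (circleMap 0 1 θ)).re : ℂ) = mb (circleMap 0 1 θ) :=
    Complex.ext (by simp) (by simp [mb_im])
  rw [e]
  exact ((t.const_add 1).const_mul I).div (t.const_sub 1) h1

variable {n : ℕ}

noncomputable def emb (x y : Fin n → ℝ) : Fin n → ℂ := fun j => x j + y j * I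

def tube (Γ : Set (Fin n → ℝ)) : Set (Fin n → ℂ) := {z | (fun j => (z j).im) ∈ Γ}

theorem emb_mem {Γ : Set (Fin n → ℝ)} (x : Fin n → ℝ) {y : Fin n → ℝ} (h : y ∈ Γ) :
    emb x y ∈ tube Γ := by simpa [tube, emb] using h

@[fun_prop] theorem emb_cont {X : Type*} [TopologicalSpace X] {f g : X → Fin n → ℝ}
    (hf : Continuous f) (hg : Continuous g) : Continuous fun a => emb (f a) (g a) := by
  unfold emb; fun_prop

theorem key {Γ : Set (Fin n → ℝ)} {y : Fin n → ℝ} (hy : ∀ t : ℝ, 0 < t → t • y ∈ Γ)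
    {G : (Fin n → ℂ) → ℂ} (hG : DifferentiableOn ℂ G (tube Γ)) {p C : ℝ} (hp : 0 < p) (C0 : 0 ≤ C)
    (hb : ∀ y ∈ Γ, ∫⁻ x, .ofReal (‖G (emb x y)‖ ^ p) ≤ .ofReal C) {G0 : (Fin n → ℝ) → ℂ}
    (m0 : AEMeasurable G0)
    (h0 : ∀ᵐ x, Tendsto (fun t : ℝ => G (emb x (t • y))) (𝓝[>] 0) (𝓝 (G0 x))) :
    ∫⁻ x, .ofReal (‖G (emb x y)‖ ^ p) ≤ ∫⁻ x, .ofReal (‖G0 x‖ ^ p) := by
  have hq : 0 < p / 2 := half_pos hp
  have y1 : y ∈ Γ := by simpa using hy 1 one_pos
  have sq : ∀ z : ℂ, (‖z‖ ^ (p / 2)) ^ 2 = ‖z‖ ^ p := fun z => by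
    rw [← Real.rpow_natCast, ← Real.rpow_mul (norm_nonneg _)]; simp
  have ct : ∀ {X : Type} [TopologicalSpace X] {f g : X → Fin n → ℝ}, Continuous f → Continuous g →
      (∀ a, g a ∈ Γ) → Continuous fun a => ‖G (emb (f a) (g a))‖ ^ (p / 2) := fun hf hg h =>
    (hG.continuousOn.comp_continuous (emb_cont hf hg) fun a => emb_mem _ (h a)).norm.rpow_const
      fun _ => Or.inr hq.le
  set ψ : (Fin n → ℝ) → ℝ := fun x => ‖G (emb x y)‖ ^ (p / 2) with hψ
  have cψ : Continuous ψ := ct continuous_id continuous_const fun _ => y1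
  set b := ∫⁻ x, ENNReal.ofReal (‖G (emb x y)‖ ^ p) with hb'
  have bf : b ≠ ∞ := ne_top_of_le_ne_top ENNReal.ofReal_ne_top (hb y y1)
  have bs : ∀ v, ∫⁻ x, ENNReal.ofReal (ψ (x - v) ^ 2) = b := fun v => by
    rw [lintegral_sub_right_eq_self (fun x => ENNReal.ofReal (ψ x ^ 2))]; simp only [hψ, sq, hb']
  set W : ℕ → (Fin n → ℝ) → ℝ → ℝ≥0∞ := fun k x θ => .ofReal (2 *
    (‖G (emb (x + (pt k θ).re • y) ((pt k θ).im • y))‖ ^ (p / 2) * ψ x)) with hW
  have mW : ∀ k, Measurable (Function.uncurry (W k)) := fun k => by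
    have := pt_cont k
    exact ((((ct (X := (Fin n → ℝ) × ℝ) (f := fun a => a.1 + (pt k a.2).re • y)
      (g := fun a => (pt k a.2).im • y) (by fun_prop) (by fun_prop)
      fun a => hy _ (pt_pos k _)).mul (cψ.comp continuous_fst)).const_mul 2).measurable).ennreal_ofReal
  have e : ∀ (x) (ζ : ℂ), emb (x + ζ.re • y) (ζ.im • y) = fun j => x j + ζ * y j := fun x ζ => by
    ext j; apply Complex.ext <;> simp [emb]
  have s1 : ∀ k, .ofReal (2 * Real.pi) * (2 * b) ≤ ∫⁻ θ in Ioc 0 (2 * Real.pi), ∫⁻ x, W k x θ := by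
    intro k
    rw [← lintegral_lintegral_swap (mW k).aemeasurable, ← bs 0, ← ENNReal.ofReal_ofNat,
      ← lin1 _ zero_le_two, ← lintegral_const_mul' _ _ ENNReal.ofReal_ne_top]
    refine lintegral_mono fun x => ?_
    have d : DifferentiableOn ℂ (fun w => G fun j => x j + mb w * y j) (ball 0 1) := by
      refine hG.comp (differentiableOn_pi.2 fun j => ?_) fun w hw => ?_
      · refine (DifferentiableOn.mul_const (DifferentiableOn.div (by fun_prop) (by fun_prop)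
          fun w hw => ne1 (mem_ball_zero_iff.1 hw)) _).const_add _
      · rw [← e]; exact emb_mem _ (hy _ (mb_pos (mem_ball_zero_iff.1 hw)))
    have := submean' (rr_pos k) hq ((d.analyticOnNhd isOpen_ball).mono (closedBall_subset_ball
      (by rw [abs_of_pos (rr_pos k)]; exact rr_lt k))) (c := ψ x) (by positivity)
    simp only [hW, e, pt]
    convert this using 4
    have : (fun j => (x j : ℂ) + mb 0 * y j) = emb x y := by ext j; simp [emb, mb, mul_comm]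
    rw [this, sub_zero, pow_two]
  have sh : ∀ k θ, ∫⁻ x, W k x θ = ∫⁻ x, .ofReal (2 * (‖G (emb x ((pt k θ).im • y))‖ ^ (p / 2)
      * ψ (x - (pt k θ).re • y))) := fun k θ => by
    rw [← lintegral_sub_right_eq_self _ ((pt k θ).re • y)]; simp only [hW, sub_add_cancel]
  have cA : ∀ k θ, Continuous fun x => ‖G (emb x ((pt k θ).im • y))‖ ^ (p / 2) := fun k θ =>
    ct continuous_id continuous_const fun _ => hy _ (pt_pos k θ)
  have bA : ∀ k θ, ∫⁻ x, ENNReal.ofReal ((‖G (emb x ((pt k θ).im • y))‖ ^ (p / 2)) ^ 2)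
      ≤ .ofReal C := fun k θ => by simp only [sq]; exact hb _ (hy _ (pt_pos k θ))
  have s2 := limsup_lintegral_le (μ := volume.restrict (Ioc 0 (2 * Real.pi)))
    (f := fun k θ => ∫⁻ x, W k x θ) (fun _ => .ofReal C + b) (fun k => (mW k).lintegral_prod_left)
    (fun k => Eventually.of_forall fun θ => by
      simp only [sh]
      rw [← bs ((pt k θ).re • y)]
      refine (lin2 ((cA k θ).pow 2).aemeasurable fun x => ?_).trans (add_le_add (bA k θ) le_rfl)
      exact (mul_assoc _ _ _).symm.trans_le (two_mul_le_add_sq _ _))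
    (by simp [bf, ENNReal.mul_ne_top])
  have s3 : ∫⁻ θ in Ioc 0 (2 * Real.pi), limsup (fun k => ∫⁻ x, W k x θ) atTop
      ≤ .ofReal (2 * Real.pi) * ((∫⁻ x, .ofReal (‖G0 x‖ ^ p)) + b) := by
    rw [← setLIntegral_congr Ioo_ae_eq_Ioc]
    refine (setLIntegral_mono measurable_const
      (g := fun _ => (∫⁻ x, .ofReal (‖G0 x‖ ^ p)) + b) fun θ hθ => ?_).trans (by simp [mul_comm])
    obtain ⟨τ, hτ⟩ := pt_lim hθ
    have t1 : Tendsto (fun k => (pt k θ).im) atTop (𝓝[>] 0) :=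
      tendsto_nhdsWithin_iff.2 ⟨(continuous_im.tendsto _).comp hτ,
        Eventually.of_forall fun k => pt_pos k θ⟩
    have t2 : Tendsto (fun k => (pt k θ).re) atTop (𝓝 τ) := (continuous_re.tendsto _).comp hτ
    have := weak (μ := volume) (A0 := fun x => ‖G0 x‖ ^ (p / 2)) (B0 := fun x => ψ (x - τ • y))
      (B := fun k x => ψ (x - (pt k θ).re • y)) (fun k => (cA k θ).aemeasurable)
      (fun k => by fun_prop) (by fun_prop) (by fun_prop) (fun _ _ => by positivity)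
      (fun _ _ => by positivity) (fun _ => by positivity)
      (h0.mono fun x hx => (hx.comp t1).norm.rpow_const (Or.inr hq.le))
      (fun x => (cψ.tendsto _).comp ((t2.smul_const y).const_sub x)) C0 (fun k => bA k θ)
      (fun k => by rw [bs, bs]) (by rw [bs]; exact bf)
    simpa only [sh, bs, sq] using this
  have := (le_limsup_of_frequently_le (Frequently.of_forall s1)).trans (s2.trans s3)
  rw [ENNReal.mul_le_mul_iff_right (by simp [Real.pi_pos]) ENNReal.ofReal_ne_top, two_mul] at this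
  exact (ENNReal.add_le_add_iff_right bf).1 this

theorem sub_pow_le (a b : ℂ) {p : ℝ} (hp : 0 < p) (hp1 : p ≤ 1) :
    ‖a - b‖ ^ p ≤ ‖a‖ ^ p + ‖b‖ ^ p :=
  (Real.rpow_le_rpow (norm_nonneg _) (norm_sub_le a b) hp.le).trans
    (Real.rpow_add_le_add_rpow (norm_nonneg _) (norm_nonneg _) hp.le hp1)

/-- Riesz-Scheffe lemma -/
theorem scheffe {α ι : Type*} [MeasurableSpace α] {μ : Measure α} {u : Filter ι}
    [u.IsCountablyGenerated] {f : ι → α → ℂ} {f0 : α → ℂ} (hf : ∀ i, AEMeasurable (f i) μ)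
    (hf0 : AEMeasurable f0 μ) {p : ℝ} (hp : 0 < p) (hp1 : p ≤ 1)
    (tf : ∀ᵐ x ∂μ, Tendsto (fun i => f i x) u (𝓝 (f0 x)))
    (hb : ∀ i, ∫⁻ x, .ofReal (‖f i x‖ ^ p) ∂μ ≤ ∫⁻ x, .ofReal (‖f0 x‖ ^ p) ∂μ)
    (fin : ∫⁻ x, .ofReal (‖f0 x‖ ^ p) ∂μ ≠ ∞) {c : ℝ≥0∞} (hc : 0 < c) :
    ∀ᶠ i in u, ∫⁻ x, .ofReal (‖f i x - f0 x‖ ^ p) ∂μ < c := by
  have e : ∫⁻ x, .ofReal (‖f0 x‖ ^ p + ‖f0 x‖ ^ p) ∂μ
      = ∫⁻ x, .ofReal (‖f0 x‖ ^ p) ∂μ + ∫⁻ x, .ofReal (‖f0 x‖ ^ p) ∂μ := by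
    rw [← lintegral_add_left' (by fun_prop)]
    exact lintegral_congr fun x => ENNReal.ofReal_add (by positivity) (by positivity)
  refine GD (g := fun i x => ‖f i x‖ ^ p + ‖f0 x‖ ^ p) (f0 := fun _ => 0)
    (g0 := fun x => ‖f0 x‖ ^ p + ‖f0 x‖ ^ p) (fun i => by fun_prop) (fun i => by fun_prop)
    aemeasurable_const (fun i x => sub_pow_le _ _ hp hp1) (fun x => by positivity)
    (tf.mono fun x hx => ?_) (tf.mono fun x hx => (hx.norm.rpow_const (Or.inr hp.le)).add_const _)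
    (fun i => ?_) (by rw [e]; exact ENNReal.add_ne_top.2 ⟨fin, fin⟩) (by simpa using hc)
  · simpa [hp.ne'] using (hx.sub_const (f0 x)).norm.rpow_const (Or.inr hp.le)
  · rw [e]; exact (lin2 (by fun_prop) fun x => le_rfl).trans (add_le_add (hb i) le_rfl)

theorem main {Γ : Set (Fin n → ℝ)} (hne : Γ.Nonempty) (hs : ∀ y ∈ Γ, ∀ t : ℝ, 0 < t → t • y ∈ Γ)
    (ha : ∀ y ∈ Γ, ∀ y' ∈ Γ, y + y' ∈ Γ) {F : (Fin n → ℂ) → ℂ} (hF : DifferentiableOn ℂ F (tube Γ))
    {p C : ℝ} (hp : 0 < p) (hp1 : p ≤ 1) (C0 : 0 ≤ C)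
    (hb : ∀ y ∈ Γ, ∫⁻ x, .ofReal (‖F (emb x y)‖ ^ p) ≤ .ofReal C) {F0 : (Fin n → ℝ) → ℂ}
    (h0 : ∀ y ∈ Γ, ∀ᵐ x, Tendsto (fun t : ℝ => F (emb x (t • y))) (𝓝[>] 0) (𝓝 (F0 x))) :
    Tendsto (fun y => ∫⁻ x, ENNReal.ofReal (‖F (emb x y) - F0 x‖ ^ p)) (𝓝[Γ] 0) (𝓝 0) := by
  obtain ⟨y1, hy1⟩ := hne
  have cF : ∀ y ∈ Γ, Continuous fun x => F (emb x y) := fun y hy =>
    hF.continuousOn.comp_continuous (by fun_prop) fun a => emb_mem _ hy
  let t : ℕ → ℝ := fun k => 1 / ((k : ℝ) + 1)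
  have tp : ∀ k, 0 < t k := fun k => by positivity
  have tt : Tendsto t atTop (𝓝[>] 0) := tendsto_nhdsWithin_iff.2
    ⟨tendsto_one_div_add_atTop_nhds_zero_nat, Eventually.of_forall tp⟩
  have l1 := (h0 y1 hy1).mono fun x hx => hx.comp tt
  have mk : ∀ k, AEMeasurable fun x => F (emb x (t k • y1)) := fun k =>
    (cF _ (hs _ hy1 _ (tp k))).aemeasurable
  have m0 : AEMeasurable F0 := aemeasurable_of_tendsto_metrizable_ae' mk l1
  have f0 : ∫⁻ x, ENNReal.ofReal (‖F0 x‖ ^ p) ≠ ∞ := by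
    refine ne_top_of_le_ne_top ENNReal.ofReal_ne_top (b := .ofReal C) ?_
    refine le_trans (lintegral_mono_ae (l1.mono fun x hx =>
      (ENNReal.tendsto_ofReal (hx.norm.rpow_const (Or.inr hp.le))).liminf_eq.ge))
      ((lintegral_liminf_le' fun k => ((mk k).norm.pow_const p).ennreal_ofReal).trans
        (liminf_le_of_frequently_le (Frequently.of_forall fun k => hb _ (hs _ hy1 _ (tp k)))))
  refine ENNReal.tendsto_nhds_zero.2 fun ε hε => ?_
  have e3 : 0 < ε / 3 := ENNReal.div_pos hε.ne' (by simp)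
  obtain ⟨k, hk⟩ := (scheffe mk m0 hp hp1 l1
    (fun k => key (hs _ (hs _ hy1 _ (tp k))) hF hp C0 hb m0 (h0 _ (hs _ hy1 _ (tp k)))) f0 e3).exists
  have hy0 := hs _ hy1 _ (tp k)
  generalize t k • y1 = y0 at hk hy0
  have e : ∀ x y, emb x y + emb 0 y0 = emb x (y + y0) := fun x y => by
    ext j; simp [emb]; ring
  have hF1 : DifferentiableOn ℂ (fun z => F (z + emb 0 y0)) (tube Γ) :=
    hF.comp (differentiableOn_id.add_const _) fun z hz => by
      have := ha _ hz _ hy0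
      simp only [tube, mem_ofPred_eq] at this ⊢
      convert this using 2; simp [emb]
  have hb1 : ∀ y ∈ Γ, ∫⁻ x, .ofReal (‖F (emb x y + emb 0 y0)‖ ^ p) ≤ .ofReal C := fun y hy => by
    simp only [e]; exact hb _ (ha _ hy _ hy0)
  have lim : ∀ x, Tendsto (fun y => F (emb x (y + y0))) (𝓝[Γ] 0) (𝓝 (F (emb x y0))) := fun x => by
    refine (hF.continuousOn _ (emb_mem x hy0)).tendsto.comp (tendsto_nhdsWithin_iff.2
      ⟨?_, eventually_nhdsWithin_of_forall fun y hy => emb_mem _ (ha _ hy _ hy0)⟩)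
    exact ((by fun_prop : Continuous fun y => emb x (y + y0)).tendsto' 0 _ (by simp)).mono_left
      nhdsWithin_le_nhds
  have ray : ∀ y ∈ Γ, ∀ x, Tendsto (fun s : ℝ => F (emb x (s • y) + emb 0 y0)) (𝓝[>] 0)
      (𝓝 (F (emb x y0))) := fun y hy x => by
    simp only [e]
    refine (lim x).comp (tendsto_nhdsWithin_iff.2
      ⟨?_, eventually_nhdsWithin_of_forall fun s h => hs _ hy _ h⟩)
    exact ((by fun_prop : Continuous fun s : ℝ => s • y).tendsto' 0 _ (by simp)).mono_left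
      nhdsWithin_le_nhds
  have hm : 𝓝[Γ] (0 : Fin n → ℝ) = map Subtype.val (comap (Subtype.val : Γ → Fin n → ℝ) (𝓝 0)) := by
    rw [subtype_coe_map_comap]; rfl
  have s2 := scheffe (μ := volume) (u := comap (Subtype.val : Γ → Fin n → ℝ) (𝓝 0))
    (f := fun y x => F (emb x (y + y0))) (fun y => (cF _ (ha _ y.2 _ hy0)).aemeasurable)
    (cF _ hy0).aemeasurable hp hp1
    (Eventually.of_forall fun x => by have := lim x; rwa [hm, tendsto_map'_iff] at this)
    (fun y => by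
      simpa only [e] using key (hs _ y.2) hF1 hp C0 hb1 (cF _ hy0).aemeasurable
        (Eventually.of_forall (ray _ y.2)))
    (ne_top_of_le_ne_top ENNReal.ofReal_ne_top (hb _ hy0)) e3
  rw [hm, eventually_map]
  filter_upwards [s2] with y hy
  have c1 := cF _ y.2
  have c2 := cF _ (ha _ y.2 _ hy0)
  have c3 := cF _ hy0
  have s1 := key (hs _ y.2) (hF.sub hF1) hp (add_nonneg C0 C0) (fun y hy => by
      rw [ENNReal.ofReal_add C0 C0]
      exact (lin2 ((cF _ hy).aemeasurable.norm.pow_const p) fun x => sub_pow_le _ _ hp hp1).trans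
        (add_le_add (hb _ hy) (hb1 _ hy)))
    (G0 := fun x => F0 x - F (emb x y0)) (m0.sub c3.aemeasurable)
    ((h0 _ y.2).mono fun x hx => hx.sub (ray _ y.2 x))
  simp only [Pi.sub_apply, e, norm_sub_rev (F0 _)] at s1
  rw [← ENNReal.add_thirds ε, add_assoc]
  refine (lin2 (g := fun x => ‖F (emb x y) - F (emb x (y + y0))‖ ^ p)
    (h := fun x => ‖F0 x - F (emb x (y + y0))‖ ^ p) ((c1.sub c2).aemeasurable.norm.pow_const p) fun x => ?_).trans
    (add_le_add (s1.trans hk.le) ((lin2 (g := fun x => ‖F (emb x (y + y0)) - F (emb x y0)‖ ^ p)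
    (h := fun x => ‖F (emb x y0) - F0 x‖ ^ p) ((c2.sub c3).aemeasurable.norm.pow_const p) fun x => ?_).trans
      (add_le_add hy.le hk.le)))
  · have := sub_pow_le (F (emb x y) - F (emb x (y + y0))) (F0 x - F (emb x (y + y0))) hp hp1
    rwa [sub_sub_sub_cancel_right] at this
  · have := sub_pow_le (F (emb x (y + y0)) - F (emb x y0)) (F0 x - F (emb x y0)) hp hp1
    rwa [sub_sub_sub_cancel_right, norm_sub_rev _ (F0 x), norm_sub_rev (F0 x) (F (emb x y0))] at this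

end Pool.Agent.H99.Tube
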