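import Pool.Agent.H99.UAlgDefs

open MeasureTheory Filter Topology
open scoped ENNReal NNReal

noncomputable section

namespace Pool.Agent.H99.UAlg

variable {S : Type} [TopologicalSpace S] [CompactSpace S]

/-- The closed algebra generated by `G`. -/
def gen (G : Set C(S, ℂ)) : Subalgebra ℂ C(S, ℂ) := (Algebra.adjoin ℂ G).topologicalClosure

theorem gen_closed (G : Set C(S, ℂ)) : IsClosed (gen G : Set C(S, ℂ)) :=
  Subalgebra.isClosed_topologicalClosure _

theorem mem_gen {G : Set C(S, ℂ)} {g : C(S, ℂ)} (hg : g ∈ G) : g ∈ gen G :=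
  Subalgebra.le_topologicalClosure _ (Algebra.subset_adjoin hg)

theorem gen_le {G : Set C(S, ℂ)} {B : Subalgebra ℂ C(S, ℂ)} (hB : IsClosed (B : Set C(S, ℂ)))
    (h : G ⊆ B) : gen G ≤ B :=
  Subalgebra.topologicalClosure_minimal (Algebra.adjoin_le h) hB

/-- A closed submodule containing all monomials contains the generated algebra. -/
theorem gen_le_sub {G : Set C(S, ℂ)} {M : Submodule ℂ C(S, ℂ)}
    (hM : IsClosed (M : Set C(S, ℂ))) (h : (Submonoid.closure G : Set C(S, ℂ)) ⊆ M) :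
    ∀ f ∈ gen G, f ∈ M := by
  intro f hf
  have h1 : ((Algebra.adjoin ℂ G : Subalgebra ℂ C(S, ℂ)) : Set C(S, ℂ)) ⊆ M := by
    intro g hg
    have : g ∈ Subalgebra.toSubmodule (Algebra.adjoin ℂ G) := hg
    rw [Algebra.adjoin_eq_span] at this
    exact Submodule.span_le.2 h this
  exact closure_minimal h1 hM hf

theorem alg_norm_le {A : Subalgebra ℂ C(S, ℂ)} (hA : IsClosed (A : Set C(S, ℂ)))
    (φ : A →ₐ[ℂ] ℂ) (f : A) : ‖φ f‖ ≤ ‖(f : C(S, ℂ))‖ := by
  have : CompleteSpace A := hA.completeSpace_coe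
  have h1 : ‖(1 : A)‖ ≤ 1 := by
    show ‖((1 : A) : C(S, ℂ))‖ ≤ 1
    rw [ContinuousMap.norm_le _ zero_le_one]
    intro x; simp
  have := AlgHom.norm_apply_le_self_mul_norm_one φ f
  exact this.trans (mul_le_of_le_one_right (norm_nonneg _) h1)

theorem alg_cont {A : Subalgebra ℂ C(S, ℂ)} (hA : IsClosed (A : Set C(S, ℂ)))
    (φ : A →ₐ[ℂ] ℂ) : Continuous φ := by
  have : CompleteSpace A := hA.completeSpace_coe
  exact map_continuous φ

theorem char_eq {G : Set C(S, ℂ)} (φ : gen G →ₐ[ℂ] ℂ) (s : S)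
    (h : ∀ g (hg : g ∈ G), φ ⟨g, mem_gen hg⟩ = g s) (f : gen G) : φ f = (f : C(S, ℂ)) s := by
  let ev : gen G →ₐ[ℂ] ℂ := (ContinuousMap.evalAlgHom ℂ ℂ s).comp (gen G).val
  let B : Subalgebra ℂ C(S, ℂ) := (AlgHom.equalizer φ ev).map (gen G).val
  have hB : IsClosed (B : Set C(S, ℂ)) := by
    have h1 : IsClosed ((AlgHom.equalizer φ ev : Subalgebra ℂ (gen G)) : Set (gen G)) :=
      isClosed_eq (alg_cont (gen_closed G) φ) (alg_cont (gen_closed G) ev)
    exact (gen_closed G).isClosedEmbedding_subtypeVal.isClosedMap _ h1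
  have hle : gen G ≤ B := gen_le hB fun g hg => ⟨⟨g, mem_gen hg⟩, h g hg, rfl⟩
  obtain ⟨f', hf', e⟩ := hle f.2
  have : f' = f := Subtype.ext e
  subst this
  exact hf'

theorem chars_of {G : Set C(S, ℂ)}
    (hex : ∀ φ : gen G →ₐ[ℂ] ℂ, ∃ s : S, ∀ g (hg : g ∈ G), φ ⟨g, mem_gen hg⟩ = g s)
    (hsep : ∀ s t : S, (∀ g ∈ G, g s = g t) → s = t)
    (φ : C(S, ℂ) → ℂ) (_ : ContinuousOn φ (gen G))
    (ha : ∀ f ∈ gen G, ∀ g ∈ gen G, φ (f + g) = φ f + φ g)
    (hs : ∀ c : ℂ, ∀ f ∈ gen G, φ (c • f) = c * φ f)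
    (hm : ∀ f ∈ gen G, ∀ g ∈ gen G, φ (f * g) = φ f * φ g) (h0 : ∃ f ∈ gen G, φ f ≠ 0) :
    ∃! s : S, ∀ f ∈ gen G, φ f = f s := by
  have h1 : φ 1 = 1 := by
    obtain ⟨f, hfm, hf⟩ := h0
    have := hm f hfm 1 (gen G).one_mem
    rw [mul_one] at this
    exact (mul_left_cancel₀ hf (by rw [mul_one]; exact this)).symm
  let φl : gen G →ₗ[ℂ] ℂ :=
    { toFun := fun f => φ f
      map_add' := fun f g => ha f f.2 g g.2
      map_smul' := fun c f => hs c f f.2 }
  let ψ : gen G →ₐ[ℂ] ℂ := AlgHom.ofLinearMap φl h1 fun f g => hm f f.2 g g.2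
  obtain ⟨s, hs⟩ := hex ψ
  refine ⟨s, fun f hf => char_eq ψ s hs ⟨f, hf⟩, fun t ht => hsep t s fun g hg => ?_⟩
  rw [← ht g (mem_gen hg)]
  exact hs g hg

theorem comp_mem {G : Set C(S, ℂ)} (H : C(S, S)) (h : ∀ g ∈ G, g.comp H ∈ gen G) :
    ∀ f ∈ gen G, f.comp H ∈ gen G := by
  let B : Subalgebra ℂ C(S, ℂ) := (gen G).comap (ContinuousMap.compRightAlgHom ℂ ℂ H)
  have hB : IsClosed (B : Set C(S, ℂ)) :=
    (gen_closed G).preimage (ContinuousMap.continuous_precomp H)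
  exact fun f hf => gen_le hB h hf

theorem series_mem {A : Subalgebra ℂ C(S, ℂ)} (hA : IsClosed (A : Set C(S, ℂ))) {k : C(S, ℂ)}
    (hk : k ∈ A) (hn : ‖k‖ < 1) (a : ℕ → ℂ) (ha : ∀ n, ‖a n‖ ≤ 1) :
    ∃ l ∈ A, ∀ s, HasSum (fun n => a n * k s ^ n) (l s) := by
  have hs : Summable fun n => a n • k ^ n := by
    refine Summable.of_norm_bounded (g := fun n => ‖k‖ ^ n)
      (summable_geometric_of_lt_one (norm_nonneg _) hn) fun n => ?_
    rw [ContinuousMap.norm_le _ (by positivity)]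
    intro x
    simp only [ContinuousMap.smul_apply, ContinuousMap.pow_apply, smul_eq_mul, norm_mul, norm_pow]
    calc ‖a n‖ * ‖k x‖ ^ n ≤ 1 * ‖k‖ ^ n := by
          gcongr
          · exact ha n
          · exact k.norm_coe_le_norm x
      _ = _ := one_mul _
  refine ⟨∑' n, a n • k ^ n, ?_, fun s => ?_⟩
  · exact hA.mem_of_tendsto hs.hasSum.tendsto_sum_nat (Eventually.of_forall fun n =>
      A.sum_mem fun i _ => A.smul_mem (A.pow_mem hk i) _)
  · have := hs.hasSum.map (ContinuousMap.evalCLM (R := ℂ) s).toAddMonoidHom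
      (ContinuousMap.evalCLM (R := ℂ) s).continuous
    simpa [Function.comp_def] using this

theorem log_mem {A : Subalgebra ℂ C(S, ℂ)} (hA : IsClosed (A : Set C(S, ℂ))) {k : C(S, ℂ)}
    (hk : k ∈ A) (hn : ‖k‖ < 1) : ∃ l ∈ A, ∀ s, 1 + k s = Complex.exp (l s) := by
  obtain ⟨l, hl, h⟩ := series_mem hA hk hn (fun n => (-1) ^ (n + 1) / n) (fun n => by
    rcases Nat.eq_zero_or_pos n with rfl | hn
    · simp
    · rw [norm_div, norm_pow, norm_neg, norm_one, one_pow, Complex.norm_natCast]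
      exact div_le_one_of_le₀ (by exact_mod_cast hn) (by positivity))
  refine ⟨l, hl, fun s => ?_⟩
  have hks : ‖k s‖ < 1 := (k.norm_coe_le_norm s).trans_lt hn
  have h2 := Complex.hasSum_taylorSeries_log hks
  have : l s = Complex.log (1 + k s) := (h s).unique (by convert h2 using 2; ring)
  rw [this, Complex.exp_log]
  intro h0
  have : k s = -1 := by linear_combination h0
  rw [this] at hks; simp at hks

theorem geom_mem {A : Subalgebra ℂ C(S, ℂ)} (hA : IsClosed (A : Set C(S, ℂ))) {k : C(S, ℂ)}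
    (hk : k ∈ A) (hn : ‖k‖ < 1) : ∃ l ∈ A, ∀ s, l s = (1 - k s)⁻¹ := by
  obtain ⟨l, hl, h⟩ := series_mem hA hk hn (fun _ => 1) (fun n => by simp)
  refine ⟨l, hl, fun s => ?_⟩
  have hks : ‖k s‖ < 1 := (k.norm_coe_le_norm s).trans_lt hn
  exact (h s).unique (by simpa using hasSum_geometric_of_norm_lt_one hks)

theorem exps_of {A : Subalgebra ℂ C(S, ℂ)} (hA : IsClosed (A : Set C(S, ℂ))) (H : ℝ → C(S, S))
    (hH : Continuous H) (hc : ∀ t, ∀ f ∈ A, f.comp (H t) ∈ A) (t0 t1 : ℝ) (s0 : S)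
    (h0 : ∀ s, H t0 s = s0) (h1 : ∀ s, H t1 s = s) :
    ∀ f ∈ A, (∃ g ∈ A, f * g = 1) → ∃ h ∈ A, ∀ s, f s = Complex.exp (h s) := by
  rintro f hf ⟨g, hg, hfg⟩
  have hfg' : ∀ s, f s * g s = 1 := fun s => by
    simpa using congrArg (fun u : C(S, ℂ) => u s) hfg
  let P : ℝ → Prop := fun t => ∃ h ∈ A, ∀ s, f (H t s) = Complex.exp (h s)
  have hloc : IsLocallyConstant P := by
    rw [IsLocallyConstant.iff_eventually_eq]
    intro t
    have hcont : Continuous fun u => ‖(f.comp (H u) - f.comp (H t)) * g.comp (H t)‖ :=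
      ((((ContinuousMap.continuous_postcomp f).comp hH).sub continuous_const).mul
        continuous_const).norm
    have hev : ∀ᶠ u in 𝓝 t, ‖(f.comp (H u) - f.comp (H t)) * g.comp (H t)‖ < 1 :=
      hcont.continuousAt.eventually_lt continuousAt_const (by simp)
    filter_upwards [hev] with u hu
    obtain ⟨l, hl, hl'⟩ := log_mem hA
      (A.mul_mem (A.sub_mem (hc u f hf) (hc t f hf)) (hc t g hg)) hu
    have key : ∀ s, f (H u s) = f (H t s) * Complex.exp (l s) := fun s => by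
      rw [← hl' s]
      simp only [ContinuousMap.mul_apply, ContinuousMap.sub_apply, ContinuousMap.comp_apply]
      linear_combination (f (H t s) - f (H u s)) * hfg' (H t s)
    apply propext
    constructor
    · rintro ⟨h, hh, e⟩
      refine ⟨h - l, A.sub_mem hh hl, fun s => ?_⟩
      rw [ContinuousMap.sub_apply, Complex.exp_sub, ← e s, key s]
      field_simp [Complex.exp_ne_zero]
    · rintro ⟨h, hh, e⟩
      refine ⟨h + l, A.add_mem hh hl, fun s => ?_⟩
      rw [ContinuousMap.add_apply, Complex.exp_add, ← e s, key s]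
  have hP0 : P t0 := by
    refine ⟨algebraMap ℂ _ (Complex.log (f s0)), A.algebraMap_mem _, fun s => ?_⟩
    rw [h0]
    simp only [algebraMap_apply, smul_eq_mul, mul_one]
    exact (Complex.exp_log (left_ne_zero_of_mul_eq_one (hfg' s0))).symm
  have := hloc.apply_eq_of_preconnectedSpace t0 t1
  rw [this] at hP0
  simpa only [P, h1] using hP0

end Pool.Agent.H99.UAlg
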