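import Mathlib

/-! Uniform algebras with exponentials, equivalent measures, weak-star closures. -/

open MeasureTheory
open scoped ENNReal NNReal

noncomputable section

namespace Pool.Agent.H99.UAlg

variable {S : Type} [TopologicalSpace S] [CompactSpace S]

/-- The standing hypotheses on a (unital) subalgebra `A` of `C(S, ℂ)`: uniformly closed; every
continuous nonzero multiplicative linear functional is evaluation at exactly one point; every
`f` in `A` with `1 / f` in `A` is an exponential of an element of `A`. -/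
structure Adm (A : Subalgebra ℂ C(S, ℂ)) : Prop where
  closed : IsClosed (A : Set C(S, ℂ))
  chars : ∀ φ : C(S, ℂ) → ℂ, ContinuousOn φ A → (∀ f ∈ A, ∀ g ∈ A, φ (f + g) = φ f + φ g) →
    (∀ c : ℂ, ∀ f ∈ A, φ (c • f) = c * φ f) → (∀ f ∈ A, ∀ g ∈ A, φ (f * g) = φ f * φ g) →
    (∃ f ∈ A, φ f ≠ 0) → ∃! s : S, ∀ f ∈ A, φ f = f s
  exps : ∀ f ∈ A, (∃ g ∈ A, f * g = 1) → ∃ h ∈ A, ∀ s, f s = Complex.exp (h s)

variable [MeasurableSpace S] [BorelSpace S]

/-- Equivalence of measures relative to `A`. -/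
def Equiv (A : Subalgebra ℂ C(S, ℂ)) (μ ν : FiniteMeasure S) : Prop :=
  ∀ f ∈ A, ∫ s, f s ∂(μ : Measure S) = ∫ s, f s ∂(ν : Measure S)

/-- Measures absolutely continuous with respect to `μ` and equivalent to `μ`. -/
def E (A : Subalgebra ℂ C(S, ℂ)) (μ : FiniteMeasure S) : Set (FiniteMeasure S) :=
  {ν | (ν : Measure S) ≪ (μ : Measure S) ∧ Equiv A μ ν}

/-- The closure of `E A μ` in the weak topology of finite positive measures. -/
def K (A : Subalgebra ℂ C(S, ℂ)) (μ : FiniteMeasure S) : Set (FiniteMeasure S) :=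
  closure (E A μ)

/-- `μ` is an extreme point of `K A μ`. -/
def Extremal (A : Subalgebra ℂ C(S, ℂ)) (μ : FiniteMeasure S) : Prop :=
  μ ∈ (K A μ).extremePoints ℝ≥0

/-- The classes in `L^p(μ)` of the functions `f + conj g` with `f, g` in `A`. -/
def AAs (A : Subalgebra ℂ C(S, ℂ)) (p : ℝ≥0∞) (μ : FiniteMeasure S) :
    Set (Lp ℂ p (μ : Measure S)) :=
  {F | ∃ f ∈ A, ∃ g ∈ A, ∀ᵐ s ∂(μ : Measure S), F s = f s + star (g s)}

/-- The functions `f + conj g` are norm dense in `L^1(μ)`. -/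
def L1Dense (A : Subalgebra ℂ C(S, ℂ)) (μ : FiniteMeasure S) : Prop :=
  Dense (AAs A 1 μ)

/-- The integral of `log |f|`, as positive part minus negative part, in `[-∞, ∞]`
(the positive part is finite since `f` is bounded). -/
def logInt (f : C(S, ℂ)) (ν : FiniteMeasure S) : EReal :=
  ((∫⁻ s, (ENNReal.log ‖f s‖ₑ).toENNReal ∂(ν : Measure S) : ℝ≥0∞) : EReal) -
    ((∫⁻ s, (-ENNReal.log ‖f s‖ₑ).toENNReal ∂(ν : Measure S) : ℝ≥0∞) : EReal)

/-- The log-modulus order. -/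
def Le (A : Subalgebra ℂ C(S, ℂ)) (μ ν : FiniteMeasure S) : Prop :=
  ∀ f ∈ A, logInt f μ ≤ logInt f ν

/-- The pairing `(F, h) ↦ ∫ F h dμ` of `L^∞(μ)` with `L^1(μ)`. -/
def pr (μ : FiniteMeasure S) (F : Lp ℂ ∞ (μ : Measure S)) (h : Lp ℂ 1 (μ : Measure S)) : ℂ :=
  ∫ s, F s * h s ∂(μ : Measure S)

/-- The closure of a subset `M` of `L^∞(μ)` in the topology `σ(L^∞, L^1)`, that is, in the
topology induced by `pr μ` from the product topology of `L^1(μ) → ℂ`. -/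
def wcl (μ : FiniteMeasure S) (M : Set (Lp ℂ ∞ (μ : Measure S))) :
    Set (Lp ℂ ∞ (μ : Measure S)) :=
  @closure _ (TopologicalSpace.induced (pr μ) Pi.topologicalSpace) M

/-- The functions `f + conj g` are weak-star dense in `L^∞(μ)`. -/
def WDense (A : Subalgebra ℂ C(S, ℂ)) (μ : FiniteMeasure S) : Prop :=
  wcl μ (AAs A ∞ μ) = Set.univ

/-- The weak-star closure of (the classes of) `A` in `L^∞(μ)`. -/
def Aw (A : Subalgebra ℂ C(S, ℂ)) (μ : FiniteMeasure S) : Set (Lp ℂ ∞ (μ : Measure S)) :=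
  wcl μ {F | ∃ f ∈ A, ∀ᵐ s ∂(μ : Measure S), F s = f s}

/-- `B` is a norm-closed subspace of `X` and the quotient `X / B` is not reflexive. -/
def QuotNotReflexive (X : Type) [NormedAddCommGroup X] [NormedSpace ℂ X] (B : Set X) : Prop :=
  IsClosed B ∧ ∃ M : Submodule ℂ X, (M : Set X) = B ∧
    ¬ Function.Surjective (NormedSpace.inclusionInDoubleDual ℂ (X ⧸ M))

/-- The quotient of `L^∞(μ)` by the weak-star closure of the functions `f + conj g` is not
reflexive. -/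
def LinfQuotNotReflexive (A : Subalgebra ℂ C(S, ℂ)) (μ : FiniteMeasure S) : Prop :=
  QuotNotReflexive (Lp ℂ ∞ (μ : Measure S)) (wcl μ (AAs A ∞ μ))

/-- Bounded analytic functions on the open unit disk. -/
def Hinf : Set (Metric.ball (0 : ℂ) 1 → ℂ) :=
  {F | ∃ G : ℂ → ℂ, DifferentiableOn ℂ G (Metric.ball 0 1) ∧
    (∃ C : ℝ, ∀ z ∈ Metric.ball (0 : ℂ) 1, ‖G z‖ ≤ C) ∧ ∀ z : Metric.ball (0 : ℂ) 1, F z = G z}

/-- `Φ` is a bijection of `B ⊆ L^∞(μ)` onto `H^∞` that respects sums, scalar multiples and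
products (pointwise almost everywhere in `L^∞(μ)`). -/
structure IsoToHinf (μ : FiniteMeasure S) (B : Set (Lp ℂ ∞ (μ : Measure S)))
    (Φ : Lp ℂ ∞ (μ : Measure S) → Metric.ball (0 : ℂ) 1 → ℂ) : Prop where
  bij : Set.BijOn Φ B Hinf
  add : ∀ F ∈ B, ∀ G ∈ B, ∀ H ∈ B, (∀ᵐ s ∂(μ : Measure S), H s = F s + G s) → Φ H = Φ F + Φ G
  smul : ∀ c : ℂ, ∀ F ∈ B, ∀ H ∈ B, (∀ᵐ s ∂(μ : Measure S), H s = c * F s) → Φ H = c • Φ F
  mul : ∀ F ∈ B, ∀ G ∈ B, ∀ H ∈ B, (∀ᵐ s ∂(μ : Measure S), H s = F s * G s) → Φ H = Φ F * Φ G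

/-- There is no isomorphism of `B` onto `H^∞`. -/
def NotIsoHinf (μ : FiniteMeasure S) (B : Set (Lp ℂ ∞ (μ : Measure S))) : Prop :=
  ¬ ∃ Φ, IsoToHinf μ B Φ

/-- Every real-valued element of `B` is constant almost everywhere. -/
def RealConst (μ : FiniteMeasure S) (B : Set (Lp ℂ ∞ (μ : Measure S))) : Prop :=
  ∀ F ∈ B, (∀ᵐ s ∂(μ : Measure S), (F s).im = 0) → ∃ c : ℂ, ∀ᵐ s ∂(μ : Measure S), F s = c

end Pool.Agent.H99.UAlg
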