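import Pool.Agent.H99.UAlg

open MeasureTheory Filter Topology
open scoped ENNReal NNReal

noncomputable section

namespace Pool.Agent.H99.UAlg

variable {S : Type} [TopologicalSpace S] [CompactSpace S] [MeasurableSpace S] [BorelSpace S]

omit [MeasurableSpace S] [BorelSpace S] in
/-- The space of all `f + conj g` with `f, g` in `A`. -/
def AA (A : Subalgebra ℂ C(S, ℂ)) : Submodule ℂ C(S, ℂ) where
  carrier := {h | ∃ f ∈ A, ∃ g ∈ A, h = f + star g}
  zero_mem' := ⟨0, A.zero_mem, 0, A.zero_mem, by simp⟩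
  add_mem' := by
    rintro _ _ ⟨f, hf, g, hg, rfl⟩ ⟨f', hf', g', hg', rfl⟩
    exact ⟨f + f', A.add_mem hf hf', g + g', A.add_mem hg hg', by rw [star_add]; abel⟩
  smul_mem' := by
    rintro c _ ⟨f, hf, g, hg, rfl⟩
    exact ⟨c • f, A.smul_mem hf c, star c • g, A.smul_mem hg _, by
      rw [star_smul, star_star, smul_add]⟩

/-- The classes of the functions `f + conj g` in `L^p(μ)`. -/
def AAp (A : Subalgebra ℂ C(S, ℂ)) (p : ℝ≥0∞) [Fact (1 ≤ p)] (μ : FiniteMeasure S) :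
    Submodule ℂ (Lp ℂ p (μ : Measure S)) :=
  (AA A).map (ContinuousMap.toLp p (μ : Measure S) ℂ).toLinearMap

omit [TopologicalSpace S] [CompactSpace S] [BorelSpace S] in
theorem pr_add (μ : FiniteMeasure S) (F G : Lp ℂ ∞ (μ : Measure S)) :
    pr μ (F + G) = pr μ F + pr μ G := by
  funext h
  have e := fun F => ContinuousLinearMap.lpPairing_eq_integral (p := ∞) (q := 1)
    (μ := (μ : Measure S)) (ContinuousLinearMap.mul ℂ ℂ) F h
  simp only [ContinuousLinearMap.mul_apply'] at e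
  simp only [pr, Pi.add_apply, ← e, map_add, _root_.add_apply]

omit [TopologicalSpace S] [CompactSpace S] [BorelSpace S] in
theorem pr_smul (μ : FiniteMeasure S) (c : ℂ) (F : Lp ℂ ∞ (μ : Measure S)) :
    pr μ (c • F) = c • pr μ F := by
  funext h
  have e := fun F => ContinuousLinearMap.lpPairing_eq_integral (p := ∞) (q := 1)
    (μ := (μ : Measure S)) (ContinuousLinearMap.mul ℂ ℂ) F h
  simp only [ContinuousLinearMap.mul_apply'] at e
  simp only [pr, Pi.smul_apply, ← e, map_smul, _root_.smul_apply]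

/-- The closure of a subspace `M` of `L^∞(μ)` in the topology `σ(L^∞, L^1)`, that is, in the
topology induced by `pr μ` from the product topology of `L^1(μ) → ℂ`. -/
def wclos (μ : FiniteMeasure S) (M : Submodule ℂ (Lp ℂ ∞ (μ : Measure S))) :
    Submodule ℂ (Lp ℂ ∞ (μ : Measure S)) where
  carrier := wcl μ M
  zero_mem' := @subset_closure _ (TopologicalSpace.induced (pr μ) Pi.topologicalSpace) _ _
    M.zero_mem
  add_mem' := by
    intro F G hF hG
    simp only [wcl] at hF hG ⊢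
    rw [closure_induced] at hF hG ⊢
    rw [pr_add]
    refine map_mem_closure₂ continuous_add hF hG ?_
    rintro _ ⟨x, hx, rfl⟩ _ ⟨y, hy, rfl⟩
    exact ⟨x + y, M.add_mem hx hy, pr_add μ x y⟩
  smul_mem' := by
    intro c F hF
    simp only [wcl] at hF ⊢
    rw [closure_induced] at hF ⊢
    rw [pr_smul]
    refine map_mem_closure (continuous_const_smul c) hF ?_
    rintro _ ⟨x, hx, rfl⟩
    exact ⟨c • x, M.smul_mem c hx, pr_smul μ c x⟩

theorem AAp_coe (A : Subalgebra ℂ C(S, ℂ)) (p : ℝ≥0∞) [Fact (1 ≤ p)] (μ : FiniteMeasure S) :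
    (AAp A p μ : Set (Lp ℂ p (μ : Measure S))) = AAs A p μ := by
  ext F
  constructor
  · rintro ⟨_, ⟨f, hf, g, hg, rfl⟩, rfl⟩
    exact ⟨f, hf, g, hg, ContinuousMap.coeFn_toLp (p := p) (μ := (μ : Measure S)) (𝕜 := ℂ) _⟩
  · rintro ⟨f, hf, g, hg, h⟩
    refine ⟨f + star g, ⟨f, hf, g, hg, rfl⟩, ?_⟩
    ext1
    filter_upwards [h, ContinuousMap.coeFn_toLp (p := p) (μ := (μ : Measure S)) (𝕜 := ℂ)
      (f + star g)] with s h1 h2
    rw [h1]; exact h2

theorem integrable_cm (f : C(S, ℂ)) (μ : Measure S) [IsFiniteMeasure μ] : Integrable f μ :=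
  (BoundedContinuousFunction.mkOfCompact f).integrable μ

theorem cont_int (f : C(S, ℂ)) :
    Continuous fun ν : FiniteMeasure S => ∫ s, f s ∂(ν : Measure S) :=
  continuous_iff_continuousAt.2 fun _ =>
    (FiniteMeasure.tendsto_iff_forall_integral_rclike_tendsto ℂ (μs := id)).1 tendsto_id
      (BoundedContinuousFunction.mkOfCompact f)

theorem equiv_of_K {A : Subalgebra ℂ C(S, ℂ)} {μ ν : FiniteMeasure S} (h : ν ∈ K A μ) :
    Equiv A μ ν := fun f hf =>
  closure_minimal (s := E A μ)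
    (t := {ν : FiniteMeasure S | ∫ s, f s ∂(μ : Measure S) = ∫ s, f s ∂(ν : Measure S)})
    (fun _ hν => hν.2 f hf) (isClosed_eq continuous_const (cont_int f)) h

omit [CompactSpace S] [BorelSpace S] in
theorem self_mem_E (A : Subalgebra ℂ C(S, ℂ)) (μ : FiniteMeasure S) : μ ∈ E A μ :=
  ⟨Measure.AbsolutelyContinuous.rfl, fun _ _ => rfl⟩

omit [CompactSpace S] [BorelSpace S] in
theorem int_star (g : C(S, ℂ)) (μ : Measure S) :
    ∫ s, (star g) s ∂μ = star (∫ s, g s ∂μ) := by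
  simpa using integral_conj (f := fun s => g s) (μ := μ)

theorem int_AA {f g : C(S, ℂ)} (μ : Measure S) [IsFiniteMeasure μ] :
    ∫ s, (f + star g) s ∂μ = ∫ s, f s ∂μ + star (∫ s, g s ∂μ) := by
  rw [← int_star, ← integral_add (integrable_cm f μ) (integrable_cm _ μ)]
  rfl

theorem equiv_AA {A : Subalgebra ℂ C(S, ℂ)} {μ ν : FiniteMeasure S} (h : Equiv A μ ν) :
    ∀ u ∈ AA A, ∫ s, u s ∂(μ : Measure S) = ∫ s, u s ∂(ν : Measure S) := by
  rintro _ ⟨f, hf, g, hg, rfl⟩
  rw [int_AA, int_AA, h f hf, h g hg]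

omit [MeasurableSpace S] [BorelSpace S] in
theorem mem_AA {A : Subalgebra ℂ C(S, ℂ)} {f : C(S, ℂ)} (hf : f ∈ A) : f ∈ AA A :=
  ⟨f, hf, 0, A.zero_mem, by simp⟩

omit [MeasurableSpace S] [BorelSpace S] in
theorem star_mem_AA {A : Subalgebra ℂ C(S, ℂ)} {f : C(S, ℂ)} (hf : f ∈ A) : star f ∈ AA A :=
  ⟨0, A.zero_mem, f, hf, by simp⟩

omit [CompactSpace S] in
theorem ext_cm [TopologicalSpace.MetrizableSpace S] {μ ν : FiniteMeasure S}
    (h : ∀ f : C(S, ℂ), ∫ s, f s ∂(μ : Measure S) = ∫ s, f s ∂(ν : Measure S)) : μ = ν := by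
  refine FiniteMeasure.ext_of_forall_integral_eq fun f => ?_
  have := h ⟨fun s => (f s : ℂ), Complex.continuous_ofReal.comp f.continuous⟩
  simp only [ContinuousMap.coe_mk, integral_complex_ofReal] at this
  exact_mod_cast this

theorem norm_toLp_one (f : C(S, ℂ)) (μ : Measure S) [IsFiniteMeasure μ] :
    ‖ContinuousMap.toLp 1 μ ℂ f‖ = ∫ s, ‖f s‖ ∂μ := by
  rw [L1.norm_eq_integral_norm]
  refine integral_congr_ae ?_
  filter_upwards [ContinuousMap.coeFn_toLp (p := 1) (μ := μ) (𝕜 := ℂ) f] with s hs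
  rw [hs]

/-- Continuous functions whose class lies in the `L^1` closure. -/
def Lcl (A : Subalgebra ℂ C(S, ℂ)) (μ : FiniteMeasure S) : Submodule ℂ C(S, ℂ) :=
  (AAp A 1 μ).topologicalClosure.comap (ContinuousMap.toLp 1 (μ : Measure S) ℂ).toLinearMap

theorem Lcl_closed (A : Subalgebra ℂ C(S, ℂ)) (μ : FiniteMeasure S) :
    IsClosed (Lcl A μ : Set C(S, ℂ)) :=
  (Submodule.isClosed_topologicalClosure _).preimage
    (ContinuousMap.toLp 1 (μ : Measure S) ℂ).continuous

theorem AA_le_Lcl (A : Subalgebra ℂ C(S, ℂ)) (μ : FiniteMeasure S) : AA A ≤ Lcl A μ :=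
  fun f hf => Submodule.le_topologicalClosure _ ⟨f, hf, rfl⟩

theorem mem_Lcl_of_approx {A : Subalgebra ℂ C(S, ℂ)} {μ : FiniteMeasure S} {f : C(S, ℂ)}
    (h : ∀ ε > 0, ∃ g ∈ AA A, ∫ s, ‖f s - g s‖ ∂(μ : Measure S) < ε) : f ∈ Lcl A μ := by
  show ContinuousMap.toLp 1 (μ : Measure S) ℂ f ∈ closure (AAp A 1 μ : Set _)
  rw [Metric.mem_closure_iff]
  intro ε hε
  obtain ⟨g, hg, hlt⟩ := h ε hε
  refine ⟨ContinuousMap.toLp 1 (μ : Measure S) ℂ g, ⟨g, hg, rfl⟩, ?_⟩
  rw [dist_eq_norm, ← map_sub, norm_toLp_one]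
  exact hlt

theorem mem_Lcl_of_ae {A : Subalgebra ℂ C(S, ℂ)} {μ : FiniteMeasure S} {f g : C(S, ℂ)}
    (hg : g ∈ Lcl A μ) (h : ∀ᵐ s ∂(μ : Measure S), f s = g s) : f ∈ Lcl A μ := by
  have : ContinuousMap.toLp 1 (μ : Measure S) ℂ f = ContinuousMap.toLp 1 (μ : Measure S) ℂ g := by
    ext1
    filter_upwards [ContinuousMap.coeFn_toLp (p := 1) (μ := (μ : Measure S)) (𝕜 := ℂ) f,
      ContinuousMap.coeFn_toLp (p := 1) (μ := (μ : Measure S)) (𝕜 := ℂ) g, h] with s h1 h2 h3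
    rw [h1, h2, h3]
  show ContinuousMap.toLp 1 (μ : Measure S) ℂ f ∈ (AAp A 1 μ).topologicalClosure
  rw [this]; exact hg

theorem dense_of_Lcl [TopologicalSpace.MetrizableSpace S] {A : Subalgebra ℂ C(S, ℂ)}
    {μ : FiniteMeasure S} (h : Lcl A μ = ⊤) :
    Dense (AAp A 1 μ : Set (Lp ℂ 1 (μ : Measure S))) := by
  have hd := ContinuousMap.toLp_denseRange ℂ (μ : Measure S) ℂ (p := 1) (by simp)
  rw [← dense_closure]
  refine hd.mono ?_
  rintro _ ⟨f, rfl⟩
  have : f ∈ Lcl A μ := h ▸ Submodule.mem_top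
  exact this

theorem eq_of_dense [TopologicalSpace.MetrizableSpace S] {A : Subalgebra ℂ C(S, ℂ)}
    {μ ν : FiniteMeasure S} (hd : Dense (AAp A 1 μ : Set (Lp ℂ 1 (μ : Measure S))))
    (C : ℝ≥0) (hle : (ν : Measure S) ≤ C • (μ : Measure S)) (he : Equiv A μ ν) : ν = μ := by
  refine ext_cm fun f => ?_
  have key : ∀ ε > 0, ‖∫ s, f s ∂(ν : Measure S) - ∫ s, f s ∂(μ : Measure S)‖ ≤ (C + 1) * ε := by
    intro ε hε
    obtain ⟨_, ⟨g, hg, rfl⟩, hlt⟩ := Metric.mem_closure_iff.1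
      (hd (ContinuousMap.toLp 1 (μ : Measure S) ℂ f)) ε hε
    have hlt' : ∫ s, ‖(f - g) s‖ ∂(μ : Measure S) < ε := by
      rw [← norm_toLp_one, map_sub, ← dist_eq_norm]; exact hlt
    have e : ∫ s, f s ∂(ν : Measure S) - ∫ s, f s ∂(μ : Measure S) =
        ∫ s, (f - g) s ∂(ν : Measure S) - ∫ s, (f - g) s ∂(μ : Measure S) := by
      simp only [ContinuousMap.sub_apply]
      rw [integral_sub (integrable_cm f _) (integrable_cm g _),
        integral_sub (integrable_cm f _) (integrable_cm g _), equiv_AA he g hg]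
      ring
    have h1 : ‖∫ s, (f - g) s ∂(ν : Measure S)‖ ≤ C * ε := by
      refine (norm_integral_le_integral_norm _).trans ?_
      refine (integral_mono_measure hle (Eventually.of_forall fun s => norm_nonneg _)
        ((integrable_cm (f - g) _).norm.smul_measure_nnreal)).trans ?_
      rw [integral_smul_nnreal_measure]
      exact mul_le_mul_of_nonneg_left hlt'.le C.2
    have h2 : ‖∫ s, (f - g) s ∂(μ : Measure S)‖ ≤ ε :=
      (norm_integral_le_integral_norm _).trans hlt'.le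
    rw [e]
    refine (norm_sub_le _ _).trans ?_
    linarith
  have : ‖∫ s, f s ∂(ν : Measure S) - ∫ s, f s ∂(μ : Measure S)‖ ≤ 0 := by
    refine le_of_forall_pos_le_add fun ε hε => ?_
    have := key (ε / (C + 1)) (by positivity)
    rw [mul_div_cancel₀ _ (by positivity)] at this
    linarith
  exact sub_eq_zero.1 (norm_le_zero_iff.1 this)

theorem extremal_of_dense [TopologicalSpace.MetrizableSpace S] {A : Subalgebra ℂ C(S, ℂ)}
    {μ : FiniteMeasure S} (hd : Dense (AAp A 1 μ : Set (Lp ℂ 1 (μ : Measure S)))) :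
    Extremal A μ := by
  refine ⟨subset_closure (self_mem_E A μ), ?_⟩
  rintro x hx y - ⟨a, b, ha, -, -, e⟩
  refine eq_of_dense hd a⁻¹ ?_ (equiv_of_K hx)
  rw [← e, FiniteMeasure.toMeasure_add, FiniteMeasure.toMeasure_smul, smul_add, smul_smul,
    inv_mul_cancel₀ ha.ne', one_smul]
  exact Measure.le_add_right le_rfl

/-- The pairing as a bilinear map. -/
def pair (μ : FiniteMeasure S) :
    Lp ℂ ∞ (μ : Measure S) →ₗ[ℂ] Lp ℂ 1 (μ : Measure S) →ₗ[ℂ] ℂ :=
  ((ContinuousLinearMap.mul ℂ ℂ).lpPairing (μ : Measure S) ∞ 1).toLinearMap₁₂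

def toW (μ : FiniteMeasure S) : Lp ℂ ∞ (μ : Measure S) ≃ₗ[ℂ] WeakBilin (pair μ) :=
  LinearEquiv.refl ℂ _

omit [TopologicalSpace S] [CompactSpace S] [BorelSpace S] in
theorem pair_apply (μ : FiniteMeasure S) (F : Lp ℂ ∞ (μ : Measure S))
    (h : Lp ℂ 1 (μ : Measure S)) : pair μ F h = ∫ s, F s * h s ∂(μ : Measure S) :=
  ContinuousLinearMap.lpPairing_eq_integral _ F h

omit [TopologicalSpace S] [CompactSpace S] [BorelSpace S] in
theorem mem_wclos_iff' (μ : FiniteMeasure S) (M : Submodule ℂ (Lp ℂ ∞ (μ : Measure S)))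
    (F : Lp ℂ ∞ (μ : Measure S)) : F ∈ wclos μ M ↔
      toW μ F ∈ closure ((M.map (toW μ).toLinearMap : Submodule ℂ _) : Set _) := by
  have e : pr μ = fun F h => pair μ F h := by
    funext F h; rw [pair_apply]; rfl
  have e2 : ((M.map (toW μ).toLinearMap : Submodule ℂ _) : Set (WeakBilin (pair μ))) =
      (M : Set (Lp ℂ ∞ (μ : Measure S))) := by
    ext x
    exact ⟨by rintro ⟨y, hy, rfl⟩; exact hy, fun hx => ⟨x, hx, rfl⟩⟩
  rw [e2]
  show F ∈ @closure _ (TopologicalSpace.induced (pr μ) Pi.topologicalSpace) M ↔ _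
  rw [e]
  rfl

omit [TopologicalSpace S] [CompactSpace S] [BorelSpace S] in
theorem mem_wclos_iff (μ : FiniteMeasure S) (M : Submodule ℂ (Lp ℂ ∞ (μ : Measure S)))
    (F : Lp ℂ ∞ (μ : Measure S)) :
    F ∈ wclos μ M ↔ ∀ h, (∀ G ∈ M, pair μ G h = 0) → pair μ F h = 0 := by
  rw [mem_wclos_iff']
  constructor
  · intro hF h hh
    have hF' : toW μ F ∈ closure ((M.map (toW μ).toLinearMap : Submodule ℂ _) : Set _) := hF
    refine closure_minimal (t := {x : WeakBilin (pair μ) | pair μ x h = 0}) ?_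
      (isClosed_eq (WeakBilin.eval_continuous _ h) continuous_const) hF'
    rintro _ ⟨G, hG, rfl⟩
    exact hh G hG
  · intro hF
    by_contra hn
    have hn' : toW μ F ∉ ((M.map (toW μ).toLinearMap).topologicalClosure : Set _) := hn
    obtain ⟨φ, u, h1, h2⟩ := RCLike.geometric_hahn_banach_closed_point (𝕜 := ℂ)
      ((M.map (toW μ).toLinearMap).topologicalClosure.restrictScalars ℝ).convex
      (Submodule.isClosed_topologicalClosure _) hn'
    obtain ⟨h, rfl⟩ := LinearMap.dualEmbedding_surjective (pair μ) φ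
    have hu : 0 < u := by simpa using h1 0 (Submodule.zero_mem _)
    have hz : ∀ G ∈ M, pair μ G h = 0 := by
      intro G hG
      by_contra hne
      have := h1 (toW μ (((u : ℂ) / pair μ G h) • G))
        (Submodule.le_topologicalClosure _ ⟨_, M.smul_mem _ hG, rfl⟩)
      have e : (WeakBilin.eval (pair μ) h) (toW μ (((u : ℂ) / pair μ G h) • G)) = u := by
        show pair μ (((u : ℂ) / pair μ G h) • G) h = u
        rw [map_smul, LinearMap.smul_apply, smul_eq_mul, div_mul_cancel₀ _ hne]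
      rw [e] at this
      simp at this
    have e : (WeakBilin.eval (pair μ) h) (toW μ F) = 0 := hF h hz
    rw [e] at h2
    simp at h2
    linarith

omit [TopologicalSpace S] [CompactSpace S] [BorelSpace S] in
theorem wclos_closed (μ : FiniteMeasure S) (M : Submodule ℂ (Lp ℂ ∞ (μ : Measure S))) :
    IsClosed (wclos μ M : Set (Lp ℂ ∞ (μ : Measure S))) := by
  have : (wclos μ M : Set (Lp ℂ ∞ (μ : Measure S))) =
      ⋂ h, ⋂ _ : (∀ G ∈ M, pair μ G h = 0), {F | pair μ F h = 0} := by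
    ext F; simp [mem_wclos_iff]
  rw [this]
  refine isClosed_iInter fun h => isClosed_iInter fun _ => isClosed_eq ?_ continuous_const
  exact (((ContinuousLinearMap.mul ℂ ℂ).lpPairing (μ : Measure S) ∞ 1).flip h).continuous

theorem pair_toLp (μ : FiniteMeasure S) (f : C(S, ℂ)) (h : Lp ℂ 1 (μ : Measure S)) :
    pair μ (ContinuousMap.toLp ∞ (μ : Measure S) ℂ f) h = ∫ s, f s * h s ∂(μ : Measure S) := by
  rw [pair_apply]
  refine integral_congr_ae ?_
  filter_upwards [ContinuousMap.coeFn_toLp (p := ∞) (μ := (μ : Measure S)) (𝕜 := ℂ) f] with s hs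
  rw [hs]

/-- A finite measure `ν ≪ μ` gives an element of `L^1(μ)`. -/
theorem exists_density (μ : FiniteMeasure S) (ν : Measure S) [IsFiniteMeasure ν]
    (hν : ν ≪ (μ : Measure S)) : ∃ h : Lp ℂ 1 (μ : Measure S), ‖h‖ = ν.real Set.univ ∧
      ∀ f : C(S, ℂ), pair μ (ContinuousMap.toLp ∞ (μ : Measure S) ℂ f) h = ∫ s, f s ∂ν := by
  have hi : Integrable (fun s => (((ν.rnDeriv μ s).toReal : ℝ) : ℂ)) (μ : Measure S) :=
    (Measure.integrable_toReal_rnDeriv).ofReal
  refine ⟨hi.toL1 _, ?_, fun f => ?_⟩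
  · rw [L1.norm_of_fun_eq_integral_norm]
    simp only [Complex.norm_real, Real.norm_eq_abs, ENNReal.abs_toReal]
    exact Measure.integral_toReal_rnDeriv hν
  · rw [pair_toLp, ← integral_rnDeriv_smul hν]
    refine integral_congr_ae ?_
    filter_upwards [hi.coeFn_toL1] with s hs
    rw [hs, Complex.real_smul, mul_comm]

end Pool.Agent.H99.UAlg
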