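import Pool.Agent.H99.Ucp3

set_option autoImplicit false
set_option linter.unusedSectionVars false

open Filter Topology Set MeasureTheory Metric Complex
open scoped ENNReal NNReal Real ContDiff

namespace Pool.Agent.H99.Ucp

variable {F : Type*} [NormedAddCommGroup F] [NormedSpace ℝ F] [NormedSpace ℂ F]
  [IsScalarTower ℝ ℂ F] [CompleteSpace F]

lemma cut2 {a b : ℝ} (a0 : 0 < a) (ab : a < b) : ∃ C : ℝ, 0 ≤ C ∧ ∀ δ > 0, ∃ η : ℂ → ℝ,
    ContDiff ℝ 1 η ∧ (∀ z, ‖η z‖ₑ ≤ 1) ∧ (∀ z, ‖z‖ ≤ δ ∨ b ≤ ‖z‖ → η z = 0) ∧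
    (∀ z ∈ ann (2 * δ) a, η z = 1) ∧ ∀ z, ‖fderiv ℝ η z‖ₑ ≤
      (ann δ (2 * δ)).indicator (fun _ => .ofReal (C / δ)) z + (ann a b).indicator (fun _ => .ofReal C) z := by
  obtain ⟨χ, C, C0, s, r, o, n, bd, vz⟩ := cut a0 ab
  obtain ⟨ψ, D, D0, s', r', o', n', bd', vz'⟩ := cut one_pos one_lt_two
  refine ⟨C + D, by positivity, fun δ δ0 => ?_⟩
  have nm : ∀ z : ℂ, ‖δ⁻¹ • z‖ = ‖z‖ / δ := fun z => by
    rw [norm_smul, Real.norm_of_nonneg (by positivity), div_eq_inv_mul]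
  refine ⟨fun z => χ z * (1 - ψ (δ⁻¹ • z)), s.mul (contDiff_const.sub (s'.comp (by fun_prop))),
    fun z => ?_, ?_, fun z hz => ?_, fun z => ?_⟩
  · rw [← ofReal_norm, ENNReal.ofReal_le_one, Real.norm_of_nonneg
      (mul_nonneg (r z).1 (by linarith [(r' (δ⁻¹ • z)).2]))]
    exact mul_le_one₀ (r z).2 (by linarith [(r' (δ⁻¹ • z)).2]) (by linarith [(r' (δ⁻¹ • z)).1])
  · rintro z (h | h)
    · simp only
      rw [o' _ (by rw [nm, div_le_one δ0]; exact h)]; simp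
    · simp [n _ h]
  · simp only
    rw [o _ hz.2, n' _ (by rw [nm, le_div_iff₀ δ0]; exact hz.1)]; simp
  · have d := (s.differentiable (by simp) z).hasFDerivAt.mul
      ((((s'.differentiable (by simp) (δ⁻¹ • z)).hasFDerivAt.comp z
        ((hasFDerivAt_id z).const_smul δ⁻¹))).const_sub 1)
    rw [show (fun z => χ z * (1 - ψ (δ⁻¹ • z))) = χ * fun x => 1 - (ψ ∘ HSMul.hSMul δ⁻¹) x from rfl,
      d.fderiv, ← ofReal_norm]
    refine (ENNReal.ofReal_le_ofReal (norm_add_le _ _)).trans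
      (ENNReal.ofReal_add_le.trans (add_le_add ?_ ?_))
    · by_cases k : z ∈ ann δ (2 * δ)
      · rw [indicator_of_mem k]
        refine ENNReal.ofReal_le_ofReal ?_
        rw [norm_smul, norm_neg, ContinuousLinearMap.comp_smul, norm_smul,
          ContinuousLinearMap.comp_id, Real.norm_of_nonneg (r z).1,
          Real.norm_of_nonneg (inv_pos.2 δ0).le, div_eq_inv_mul]
        calc _ ≤ 1 * (δ⁻¹ * (C + D)) := by gcongr; exacts [(r z).2, (bd' _).trans (by linarith)]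
          _ = _ := one_mul _
      · rw [vz' (δ⁻¹ • z)]
        · simp
        rw [nm, div_lt_one δ0, lt_div_iff₀ δ0]
        simpa [ann, -not_and, not_and_or] using k
    · by_cases k : z ∈ ann a b
      · rw [indicator_of_mem k]
        refine ENNReal.ofReal_le_ofReal ?_
        have := r' (δ⁻¹ • z)
        rw [norm_smul, show (ψ ∘ HSMul.hSMul δ⁻¹) z = ψ (δ⁻¹ • z) from rfl,
          Real.norm_of_nonneg (by linarith)]
        calc _ ≤ 1 * (C + D) := by gcongr; exacts [by linarith, (bd _).trans (by linarith)]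
          _ = _ := one_mul _
      · rw [vz z]
        · simp
        simpa [ann, -not_and, not_and_or] using k

lemma anti {x y : ℝ≥0∞} {s : ℝ} (hs : 0 ≤ s) (h : x ≤ y) : y ^ (-s) ≤ x ^ (-s) := by
  rw [ENNReal.rpow_neg, ENNReal.rpow_neg]
  exact ENNReal.inv_le_inv.2 (ENNReal.rpow_le_rpow h hs)

noncomputable def om (q : ℝ) (k : ℕ) (x : ℝ≥0∞) : ℝ≥0∞ := x ^ (-q⁻¹) * x ^ (-k : ℝ)

lemma om_anti {q : ℝ} (q0 : 0 < q) (k : ℕ) {x y : ℝ≥0∞} (h : x ≤ y) : om q k y ≤ om q k x :=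
  mul_le_mul' (anti (by positivity) h) (anti (by positivity) h)

lemma om_eq (q : ℝ) (k : ℕ) {x : ℝ} (h : 0 < x) :
    om q k (.ofReal x) = .ofReal (x ^ (-q⁻¹) * (x ^ k)⁻¹) := by
  rw [om, ENNReal.ofReal_rpow_of_pos h, ENNReal.ofReal_rpow_of_pos h,
    ← ENNReal.ofReal_mul (by positivity), Real.rpow_neg h.le k, Real.rpow_natCast]

def Van (U : ℂ → F) : Prop := ∀ N : ℕ, ∀ t > 0, ∀ ε : ℝ≥0∞, ε ≠ 0 → ∃ δ : ℝ, 0 < δ ∧ δ < t ∧
  ∫⁻ z in ann δ (2 * δ), ‖U z‖ₑ ≤ ε * .ofReal (δ ^ N)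

lemma step {q : ℝ} (q1 : 1 < q) {R r c a b : ℝ} (c0 : 0 < c) (ca : c < a) (ab : a < b) (bR : b ≤ R)
    {U G : ℂ → F} {P : ℂ → ℝ≥0∞} (mU : StronglyMeasurable U) (mG : StronglyMeasurable G)
    (mP : Measurable P) (h : App R U G) (hi : ∀ δ > 0, ∫⁻ z in ann δ R, (‖U z‖ₑ + ‖G z‖ₑ) < ⊤)
    (hv : Van U) (P1 : ∀ z, 1 ≤ P z) (hG : ∀ z, ‖G z‖ₑ ≤ P z * ‖U z‖ₑ)
    (sm : ∀ w : ℂ, w ≠ 0 → ∫⁻ z, (ann r b).indicator P z * ‖z‖ₑ ^ (-q⁻¹) * ‖z - w‖ₑ⁻¹ ≤
      2⁻¹ * ‖w‖ₑ ^ (-q⁻¹)) (h0 : ∀ᵐ z, ‖z‖ < r → U z = 0) : ∀ᵐ z, ‖z‖ ≤ c → U z = 0 := by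
  have q0 : 0 < q := by linarith
  have a0 : 0 < a := by linarith
  have nU := mU.enorm
  have nG := mG.enorm
  have mQ : Measurable ((ann r b).indicator P) := mP.indicator (ann_m _ _)
  set Q := (ann r b).indicator P with hQ
  obtain ⟨C, C0, hC⟩ := cut2 a0 ab
  set J := ∫⁻ z in ann a b, ‖U z‖ₑ
  have Jt : J < ⊤ := lt_of_le_of_lt ((lintegral_mono fun z => le_self_add).trans
    (lintegral_mono_set (show ann a b ⊆ ann a R from fun z hz => ⟨hz.1, hz.2.trans bR⟩))) (hi a a0)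
  have lo : ∀ {x : ℝ} {z : ℂ}, x ≤ ‖z‖ → ENNReal.ofReal x ≤ ‖z‖ₑ := fun h => by
    rw [← ofReal_norm]; exact ENNReal.ofReal_le_ofReal h
  have main : ∀ t > 0, ∀ k : ℕ, ∀ δ > 0, 2 * δ ≤ t → 2 * δ ≤ a →
      om q k (.ofReal c) * ∫⁻ z in ann t c, ‖U z‖ₑ ≤
        2 * .ofReal (C / δ) * om q k (.ofReal δ) * (∫⁻ z in ann δ (2 * δ), ‖U z‖ₑ) +
          2 * .ofReal C * om q k (.ofReal a) * J := fun t t0 k δ δ0 dt da => by
    obtain ⟨η, sη, η1, η0, ηo, ηd⟩ := hC δ δ0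
    obtain ⟨w, sw, nw, dw⟩ := wt sη δ0 (fun z hz => η0 z (.inl hz.le)) k
    have mw := sw.continuous.enorm.measurable
    have md := (db_cont sw).enorm.measurable
    have out : ∀ z ∉ ann δ R, η z = 0 := fun z hz => η0 z (by
      by_contra k
      rw [not_or, not_le, not_le] at k
      exact hz ⟨k.1.le, by linarith [k.2]⟩)
    have rp := rep mU mG h δ0 sw fun z hz => ⟨by rw [← enorm_eq_zero, nw, out z hz]; simp, by
      rw [← enorm_eq_zero, ← le_zero_iff]
      have := ηd z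
      rw [indicator_of_notMem (fun k => hz ⟨k.1, by linarith [k.2]⟩),
        indicator_of_notMem (fun k => hz ⟨by linarith [k.1], by linarith [k.2]⟩), add_zero,
        le_zero_iff] at this
      simpa [this] using dw z⟩
    set M := ∫⁻ z, ‖z‖ₑ ^ (-q⁻¹) * (‖w z‖ₑ * ‖G z‖ₑ)
    set H := ∫⁻ z, ‖z‖ₑ ^ (-q⁻¹) * (‖db w z‖ₑ * ‖U z‖ₑ)
    set X := ∫⁻ z, Q z * ‖z‖ₑ ^ (-q⁻¹) * (‖w z‖ₑ * ‖U z‖ₑ)
    have x1 : X ≤ 2⁻¹ * (M + H) := by
      calc X ≤ ∫⁻ y, ∫⁻ z, (‖w z‖ₑ * ‖G z‖ₑ + ‖db w z‖ₑ * ‖U z‖ₑ) *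
            (Q y * ‖y‖ₑ ^ (-q⁻¹) * ‖y - z‖ₑ⁻¹) := by
            refine lintegral_mono_ae (rp.mono fun y hy => (mul_le_mul_right hy _).trans (le_of_eq ?_))
            rw [← lintegral_const_mul _ (by fun_prop)]
            exact lintegral_congr fun z => by ring
        _ = ∫⁻ z, (‖w z‖ₑ * ‖G z‖ₑ + ‖db w z‖ₑ * ‖U z‖ₑ) *
            ∫⁻ y, (Q y * ‖y‖ₑ ^ (-q⁻¹) * ‖y - z‖ₑ⁻¹) := by
            rw [lintegral_lintegral_swap]
            · exact lintegral_congr fun z => lintegral_const_mul _ (by fun_prop)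
            · exact ((((mw.mul nG).add (md.mul nU)).comp measurable_snd).mul
                (by fun_prop : Measurable fun p : ℂ × ℂ =>
                  Q p.1 * ‖p.1‖ₑ ^ (-q⁻¹) * ‖p.1 - p.2‖ₑ⁻¹)).aemeasurable
        _ ≤ ∫⁻ z, 2⁻¹ * (‖z‖ₑ ^ (-q⁻¹) * (‖w z‖ₑ * ‖G z‖ₑ) + ‖z‖ₑ ^ (-q⁻¹) * (‖db w z‖ₑ * ‖U z‖ₑ)) := by
            refine lintegral_mono_ae (((volume : Measure ℂ).ae_ne 0).mono fun z hz =>
              (mul_le_mul_right (sm z hz) _).trans (le_of_eq (by ring)))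
        _ = _ := by rw [lintegral_const_mul _ (by fun_prop), lintegral_add_left (by fun_prop)]
    have x2 : M ≤ X := by
      refine lintegral_mono_ae (h0.mono fun z hz => ?_)
      by_cases k : z ∈ ann r b
      · rw [hQ, indicator_of_mem k]
        calc _ ≤ ‖z‖ₑ ^ (-q⁻¹) * (‖w z‖ₑ * (P z * ‖U z‖ₑ)) := by gcongr; exact hG z
          _ = _ := by ring
      · by_cases k' : ‖z‖ < r
        · have := hG z
          rw [hz k', enorm_zero, mul_zero, le_zero_iff] at this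
          simp [this]
        · rw [nw, η0 z (.inr (not_lt.1 fun j => k ⟨not_lt.1 k', j.le⟩))]; simp
    have x3 : M ≠ ⊤ := by
      refine ne_of_lt (lt_of_le_of_lt ?_ (ENNReal.mul_lt_top (a := om q k (.ofReal δ))
        (by rw [om_eq _ _ δ0]; exact ENNReal.ofReal_lt_top) (hi δ δ0)))
      rw [← lintegral_const_mul _ (by fun_prop), ← lintegral_indicator (ann_m _ _)]
      refine lintegral_mono fun z => ?_
      by_cases j : z ∈ ann δ R
      · rw [indicator_of_mem j, nw]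
        calc _ = ‖η z‖ₑ * om q k ‖z‖ₑ * ‖G z‖ₑ := by rw [om]; ring
          _ ≤ 1 * om q k (.ofReal δ) * (‖U z‖ₑ + ‖G z‖ₑ) := by
              gcongr; exacts [η1 z, om_anti q0 k (lo j.1), le_add_self]
          _ = _ := by rw [one_mul]
      · simp [nw, out z j]
    have two : ∀ x : ℝ≥0∞, 2⁻¹ * (x + x) = x := fun x => by
      rw [← two_mul, ← mul_assoc, ENNReal.inv_mul_cancel (by simp) (by simp), one_mul]
    have x4 : M ≤ H := by
      have := x2.trans x1
      conv_lhs at this => rw [← two M]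
      exact ENNReal.le_of_add_le_add_left x3
        ((ENNReal.mul_le_mul_iff_right (by simp) (by simp)).1 this)
    have x5 : X ≤ H := x1.trans ((by gcongr : _ ≤ 2⁻¹ * (H + H)).trans (two H).le)
    refine le_trans ?_ (x5.trans ?_)
    · rw [← lintegral_const_mul _ nU, ← lintegral_indicator (ann_m _ _)]
      refine lintegral_mono_ae (h0.mono fun z hz => ?_)
      by_cases j : z ∈ ann t c
      · rw [indicator_of_mem j]
        by_cases k' : ‖z‖ < r
        · simp [hz k']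
        rw [hQ, indicator_of_mem (show z ∈ ann r b from ⟨not_lt.1 k', by linarith [j.2]⟩), nw,
          ηo z ⟨by linarith [j.1], by linarith [j.2]⟩]
        calc _ ≤ P z * (om q k ‖z‖ₑ * ‖U z‖ₑ) := by
              refine le_trans ?_ (le_mul_of_one_le_left' (P1 z))
              gcongr
              refine om_anti q0 k ?_
              rw [← ofReal_norm]; exact ENNReal.ofReal_le_ofReal j.2
          _ = _ := by rw [om, enorm_one]; ring
      · rw [indicator_of_notMem j]; exact zero_le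
    · rw [← lintegral_const_mul _ nU, ← lintegral_const_mul _ nU, ← lintegral_indicator (ann_m _ _),
        ← lintegral_indicator (ann_m _ _),
        ← lintegral_add_left ((nU.const_mul _).indicator (ann_m _ _))]
      refine lintegral_mono fun z => ?_
      calc _ ≤ ‖z‖ₑ ^ (-q⁻¹) * (2 * ((ann δ (2 * δ)).indicator (fun _ => .ofReal (C / δ)) z +
            (ann a b).indicator (fun _ => .ofReal C) z) * ‖z‖ₑ ^ (-k : ℝ) * ‖U z‖ₑ) := by
            gcongr; exact (dw z).trans (by gcongr; exact ηd z)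
        _ = 2 * (ann δ (2 * δ)).indicator (fun _ => .ofReal (C / δ)) z * om q k ‖z‖ₑ * ‖U z‖ₑ +
            2 * (ann a b).indicator (fun _ => .ofReal C) z * om q k ‖z‖ₑ * ‖U z‖ₑ := by
            rw [om]; ring
        _ ≤ _ := by
            refine add_le_add ?_ ?_
            · by_cases j : z ∈ ann δ (2 * δ)
              · rw [indicator_of_mem j, indicator_of_mem j]; gcongr; exact om_anti q0 k (lo j.1)
              · simp [indicator_of_notMem j]
            · by_cases j : z ∈ ann a b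
              · rw [indicator_of_mem j, indicator_of_mem j]; gcongr; exact om_anti q0 k (lo j.1)
              · simp [indicator_of_notMem j]
  have m2 : ∀ t > 0, ∀ k : ℕ, ∫⁻ z in ann t c, ‖U z‖ₑ ≤ .ofReal ((c / a) ^ k) * (2 * .ofReal C * J) :=
    fun t t0 k => by
    have oc := om_eq q k c0
    refine (ENNReal.mul_le_mul_iff_right (a := om q k (.ofReal c))
      (by rw [oc]; exact (ENNReal.ofReal_pos.2 (by positivity)).ne')
      (by rw [oc]; exact ENNReal.ofReal_ne_top)).1 (le_trans (b := 2 * .ofReal C * om q k (.ofReal a) * J) ?_ ?_)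
    · refine ENNReal.le_of_forall_pos_le_add fun ε ε0 _ => ?_
      obtain ⟨e, e0, he⟩ := ENNReal.exists_nnreal_pos_mul_lt (a := 2 * .ofReal C)
        (ENNReal.mul_ne_top (by simp) ENNReal.ofReal_ne_top) (b := ε) (by simpa using ε0.ne')
      obtain ⟨δ, δ0, dt, hδ⟩ := hv (k + 2) (min 1 (min (t / 2) (a / 2))) (by positivity) e
        (by simpa using e0.ne')
      simp only [lt_min_iff] at dt
      refine (main t t0 k δ δ0 (by linarith) (by linarith)).trans ?_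
      rw [add_comm]
      gcongr
      calc _ ≤ 2 * .ofReal (C / δ) * om q k (.ofReal δ) * (e * .ofReal (δ ^ (k + 2))) := by gcongr
        _ = e * (2 * (.ofReal (C / δ) * om q k (.ofReal δ) * .ofReal (δ ^ (k + 2)))) := by ring
        _ ≤ e * (2 * .ofReal C) := by
            gcongr
            rw [om_eq _ _ δ0, ← ENNReal.ofReal_mul (by positivity), ← ENNReal.ofReal_mul (by positivity)]
            refine ENNReal.ofReal_le_ofReal ?_
            have : δ ^ (-q⁻¹) ≤ δ ^ (-1 : ℝ) := Real.rpow_le_rpow_of_exponent_ge δ0 dt.1.le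
              (neg_le_neg (inv_le_one_of_one_le₀ q1.le))
            rw [Real.rpow_neg_one] at this
            calc _ ≤ C / δ * (δ⁻¹ * (δ ^ k)⁻¹) * δ ^ (k + 2) := by gcongr
              _ = C := by field_simp; ring
        _ ≤ ε := he.le
    · have : om q k (.ofReal a) ≤ om q k (.ofReal c) * .ofReal ((c / a) ^ k) := by
        rw [oc, om_eq _ _ a0, ← ENNReal.ofReal_mul (by positivity)]
        refine ENNReal.ofReal_le_ofReal ?_
        have : a ^ (-q⁻¹) ≤ c ^ (-q⁻¹) := Real.rpow_le_rpow_of_nonpos c0 ca.le (by simp [q0.le])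
        calc _ ≤ c ^ (-q⁻¹) * (a ^ k)⁻¹ := by gcongr
          _ = _ := by rw [div_pow]; field_simp
      calc _ ≤ 2 * .ofReal C * (om q k (.ofReal c) * .ofReal ((c / a) ^ k)) * J := by gcongr
        _ = _ := by ring
  have m3 : ∀ m : ℕ, ∀ᵐ z, z ∈ ann (1 / (m + 1)) c → U z = 0 := fun m => by
    have T := ENNReal.Tendsto.mul_const (b := 2 * .ofReal C * J) (ENNReal.tendsto_ofReal
      (tendsto_pow_atTop_nhds_zero_of_lt_one (div_pos c0 a0).le ((div_lt_one a0).2 ca)))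
      (.inr (ENNReal.mul_ne_top (ENNReal.mul_ne_top (by simp) ENNReal.ofReal_ne_top) Jt.ne))
    have := ge_of_tendsto' T (m2 (1 / (m + 1)) (by positivity))
    rw [ENNReal.ofReal_zero, zero_mul, le_zero_iff, lintegral_eq_zero_iff nU, Filter.EventuallyEq,
      ae_restrict_iff' (ann_m _ _)] at this
    exact this.mono fun z hz k => by simpa using hz k
  filter_upwards [ae_all_iff.2 m3, (volume : Measure ℂ).ae_ne 0] with z hz z0 hc
  obtain ⟨m, hm⟩ := exists_nat_one_div_lt (norm_pos_iff.2 z0)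
  exact hz m ⟨hm.le, hc⟩

end Pool.Agent.H99.Ucp
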