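import Pool.Agent.H99.Ucp5

set_option autoImplicit false
set_option linter.unusedSectionVars false

open Filter Topology Set MeasureTheory Metric Complex ContinuousLinearMap
open scoped ENNReal NNReal Real ContDiff Convolution

namespace Pool.Agent.H99.Ucp

lemma scheffe {X Y : Type*} [MeasurableSpace X] {ν : Measure X} [NormedAddCommGroup Y]
    {f : ℕ → X → Y} {g : X → Y} (mf : ∀ j, AEStronglyMeasurable (f j) ν) (ig : Integrable g ν)
    (h : ∀ᵐ x ∂ν, Tendsto (fun j => f j x) atTop (𝓝 (g x)))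
    (le : ∀ j, ∫⁻ x, ‖f j x‖ₑ ∂ν ≤ ∫⁻ x, ‖g x‖ₑ ∂ν) :
    Tendsto (fun j => ∫⁻ x, ‖f j x - g x‖ₑ ∂ν) atTop (𝓝 0) := by
  set A := ∫⁻ x, ‖g x‖ₑ ∂ν
  have At : A + A ≠ ⊤ := ENNReal.add_ne_top.2 ⟨ig.2.ne, ig.2.ne⟩
  have mg := ig.1.enorm
  have md : ∀ j, AEMeasurable (fun x => ‖f j x - g x‖ₑ) ν := fun j => ((mf j).sub ig.1).enorm
  have F := lintegral_liminf_le' (μ := ν) (u := atTop)
    (f := fun j x => ‖f j x‖ₑ + ‖g x‖ₑ - ‖f j x - g x‖ₑ) fun j => ((mf j).enorm.add mg).sub (md j)
  have e : ∫⁻ x, liminf (fun j => ‖f j x‖ₑ + ‖g x‖ₑ - ‖f j x - g x‖ₑ) atTop ∂ν = A + A := by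
    rw [← lintegral_add_left' mg]
    refine lintegral_congr_ae (h.mono fun x hx => Tendsto.liminf_eq ?_)
    have := ENNReal.Tendsto.sub (hx.enorm.add_const ‖g x‖ₑ) (hx.sub_const (g x)).enorm (.inl (by simp))
    simpa using this
  rw [e] at F
  refine ENNReal.tendsto_nhds_zero.2 fun ε ε0 => ?_
  by_cases A0 : A + A ≤ ε
  · refine .of_forall fun j => le_trans ?_ A0
    refine (lintegral_mono fun x => enorm_sub_le).trans ?_
    rw [lintegral_add_right' _ mg]; gcongr; exact le j
  filter_upwards [eventually_lt_of_lt_liminf ((ENNReal.sub_lt_self At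
    (fun k => A0 (k ▸ zero_le)) ε0.ne').trans_le F)] with j hj
  have s : ∫⁻ x, (‖f j x‖ₑ + ‖g x‖ₑ - ‖f j x - g x‖ₑ) ∂ν + ∫⁻ x, ‖f j x - g x‖ₑ ∂ν ≤ A + A := by
    rw [← lintegral_add_right' _ (md j)]
    simp only [tsub_add_cancel_of_le enorm_sub_le]
    rw [lintegral_add_right' _ mg]; gcongr; exact le j
  by_contra k
  rw [not_le] at k
  have := (ENNReal.add_lt_add hj k).trans_le s
  rw [tsub_add_cancel_of_le (not_le.1 A0).le] at this
  exact this.false

variable {E : Type*} [NormedAddCommGroup E] [NormedSpace ℝ E] [FiniteDimensional ℝ E]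
  [MeasurableSpace E] [BorelSpace E] (μ : Measure E) [μ.IsAddHaarMeasure]

noncomputable def bp (R : ℝ) (R0 : 0 < R) (j : ℕ) : ContDiffBump (0 : E) :=
  ⟨R / (j + 1) / 4, R / (j + 1) / 2, by positivity, by
    have : 0 < R / (j + 1) := by positivity
    linarith⟩

lemma mconv {Y : Type*} [NormedAddCommGroup Y] [NormedSpace ℝ Y] [CompleteSpace Y] {R : ℝ}
    (R0 : 0 < R) {g : E → Y} (ig : Integrable g μ) : Tendsto (fun j =>
      ∫⁻ x, ‖((bp R R0 j).normed μ ⋆[lsmul ℝ ℝ, μ] g) x - g x‖ₑ ∂μ) atTop (𝓝 0) := by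
  refine scheffe (fun j => ((bp R R0 j).hasCompactSupport_normed.continuous_convolution_left _
    (bp R R0 j).continuous_normed ig.locallyIntegrable).aestronglyMeasurable) ig
    (ContDiffBump.ae_convolution_tendsto_right_of_locallyIntegrable (K := 2) ?_
      (.of_forall fun j => le_of_eq (by simp only [bp]; ring)) ig.locallyIntegrable) fun j => ?_
  · have := (tendsto_one_div_add_atTop_nhds_zero_nat (𝕜 := ℝ)).const_mul (R / 2)
    rw [mul_zero] at this
    exact this.congr fun j => by simp only [bp]; ring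
  set ψ := (bp R R0 j).normed μ
  have mψ : Measurable fun q : E × E => ENNReal.ofReal (ψ (q.1 - q.2)) :=
    ((bp R R0 j).continuous_normed.comp (by fun_prop)).measurable.ennreal_ofReal
  have one : ∫⁻ t, ENNReal.ofReal (ψ t) ∂μ = 1 := by
    rw [← ofReal_integral_eq_lintegral_ofReal (bp R R0 j).integrable_normed
      (Eventually.of_forall (bp R R0 j).nonneg_normed), (bp R R0 j).integral_normed, ENNReal.ofReal_one]
  calc _ ≤ ∫⁻ x, ∫⁻ t, .ofReal (ψ (x - t)) * ‖g t‖ₑ ∂μ ∂μ := by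
        refine lintegral_mono fun x => ?_
        rw [convolution_eq_swap]
        refine (enorm_integral_le_lintegral_enorm _).trans (le_of_eq (lintegral_congr fun t => ?_))
        rw [lsmul_apply, enorm_smul, Real.enorm_eq_ofReal ((bp R R0 j).nonneg_normed _)]
    _ = ∫⁻ t, ∫⁻ x, .ofReal (ψ (x - t)) * ‖g t‖ₑ ∂μ ∂μ :=
        lintegral_lintegral_swap (mψ.aemeasurable.mul ig.1.enorm.comp_snd)
    _ = _ := lintegral_congr fun t => by
        have m : Measurable fun x => ENNReal.ofReal (ψ (x - t)) := mψ.comp measurable_prodMk_right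
        rw [lintegral_mul_const _ m,
          lintegral_sub_right_eq_self (fun t => ENNReal.ofReal (ψ t)), one, one_mul]

variable {F : Type*} [NormedAddCommGroup F] [NormedSpace ℝ F] [CompleteSpace F]

def Wk (O : Set E) (u : E → F) (G : E → E →L[ℝ] F) : Prop :=
  ∀ φ : E → ℝ, ContDiff ℝ ∞ φ → HasCompactSupport φ → tsupport φ ⊆ O → ∀ v,
    ∫ x, fderiv ℝ φ x v • u x ∂μ = -∫ x, φ x • G x v ∂μ

lemma mder {R : ℝ} (R0 : 0 < R) {z : E} {u : E → F} {G : E → E →L[ℝ] F} (iu : Integrable u μ)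
    (iG : Integrable G μ) (hw : Wk μ (ball z (3 * R)) u G) (j : ℕ) {x : E} (hx : ‖x - z‖ ≤ 2 * R) :
    fderiv ℝ ((bp R R0 j).normed μ ⋆[lsmul ℝ ℝ, μ] u) x = ((bp R R0 j).normed μ ⋆[lsmul ℝ ℝ, μ] G) x := by
  set φ : ContDiffBump (0 : E) := bp R R0 j
  set ψ := φ.normed μ
  have cψ : HasCompactSupport ψ := φ.hasCompactSupport_normed
  have sψ : ContDiff ℝ ∞ ψ := φ.contDiff_normed
  have s1 : ContDiff ℝ 1 ψ := φ.contDiff_normed
  have cx : HasCompactSupport fun t => ψ (x - t) := cψ.comp_homeomorph (Homeomorph.subLeft x)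
  have sx : ContDiff ℝ ∞ fun t => ψ (x - t) := sψ.comp (by fun_prop)
  have ix : Integrable (fun t => ψ (x - t) • G t) μ :=
    iG.locallyIntegrable.integrable_smul_left_of_hasCompactSupport sx.continuous cx
  ext v
  rw [← convolution_flip, (cψ.hasFDerivAt_convolution_right _ iu.locallyIntegrable s1 x).fderiv,
    convolution_precompR_apply _ iu.locallyIntegrable (cψ.fderiv ℝ) (s1.continuous_fderiv (by simp)),
    convolution_def, convolution_eq_swap]
  simp only [flip_apply, lsmul_apply]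
  rw [ContinuousLinearMap.integral_apply ix]
  have := hw _ sx cx (by
    refine (closure_minimal (fun t ht => ?_) isClosed_closedBall).trans
      (closedBall_subset_ball (show 5 / 2 * R < 3 * R by linarith))
    have : x - t ∈ Function.support ψ := ht
    rw [φ.support_normed_eq, mem_ball_zero_iff] at this
    have k : φ.rOut ≤ R / 2 := by
      simp only [φ, bp]; gcongr; exact div_le_self R0.le (by simp)
    have t3 := norm_sub_le (x - z) (x - t)
    rw [mem_closedBall, dist_eq_norm, show t - z = (x - z) - (x - t) by abel]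
    linarith) v
  have e : ∀ t, fderiv ℝ (fun t => ψ (x - t)) t v = -fderiv ℝ ψ (x - t) v := fun t => by
    have := ((s1.differentiable (by simp)) (x - t)).hasFDerivAt.comp t
      ((hasFDerivAt_id t).const_sub x)
    rw [show (fun t => ψ (x - t)) = ψ ∘ HSub.hSub x from rfl, this.fderiv]; simp
  simp only [e, neg_smul, integral_neg, neg_inj] at this
  simpa using this

end Pool.Agent.H99.Ucp
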