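import Pool.Agent.H99.Ucp7

set_option autoImplicit false
set_option linter.unusedSectionVars false

open Filter Topology Set MeasureTheory Metric Complex ContinuousLinearMap
open scoped ENNReal NNReal Real ContDiff

namespace Pool.Agent.H99.Ucp

variable {F : Type*} [NormedAddCommGroup F] [NormedSpace ℝ F] [NormedSpace ℂ F]
  [IsScalarTower ℝ ℂ F] [CompleteSpace F]
variable {E : Type*} [NormedAddCommGroup E] [NormedSpace ℝ E] [NormedSpace ℂ E]
  [IsScalarTower ℝ ℂ E] [FiniteDimensional ℂ E] [FiniteDimensional ℝ E] [MeasurableSpace E]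
  [BorelSpace E] (μ : Measure E) [μ.IsAddHaarMeasure]

def V1 (u : E → F) (z0 : E) : Prop := ∀ N : ℕ, Tendsto (fun r : ℝ => (ENNReal.ofReal (r ^ N))⁻¹ *
  ∫⁻ y in closedBall z0 r, ‖u y‖ₑ ∂μ) (𝓝[>] 0) (𝓝 0)

lemma iind {Y : Type*} [NormedAddCommGroup Y] {g : E → Y} {K : Set E} (mK : MeasurableSet K)
    (h : IntegrableOn g K μ) : Integrable (K.indicator g) μ := h.integrable_indicator mK

lemma loc (hn : 2 ≤ Module.finrank ℂ E) {R : ℝ} (R0 : 0 < R) {z0 : E} {u : E → F}
    {G : E → E →L[ℝ] F} {V : E → ℝ} (iu : IntegrableOn u (closedBall z0 (3 * R)) μ)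
    (iG : IntegrableOn G (closedBall z0 (3 * R)) μ) (hw : Wk μ (ball z0 (3 * R)) u G)
    (hV : MemLp V (.ofReal (2 * Module.finrank ℂ E)) (μ.restrict (closedBall z0 (3 * R))))
    (hG : ∀ᵐ y ∂μ, y ∈ closedBall z0 (3 * R) → ∀ x, ‖dG (G y) x‖ ≤ V y * ‖x‖ * ‖u y‖)
    (hv : V1 μ u z0) : ∀ᵐ y ∂μ, y ∈ ball z0 R → u y = 0 := by
  set K := closedBall z0 (3 * R)
  have mK : MeasurableSet K := measurableSet_closedBall
  have n2 : (2 : ℝ) ≤ Module.finrank ℂ E := by exact_mod_cast hn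
  have iu' := (integrable_indicator_iff mK).2 iu
  have iG' : Integrable (K.indicator G) μ := iind (Y := E →L[ℝ] F) μ mK iG
  have mV := (aestronglyMeasurable_indicator_iff mK).2 hV.1
  have eu := iu'.1.ae_eq_mk
  have eG := iG'.1.ae_eq_mk
  have eV := mV.ae_eq_mk
  set u' := iu'.1.mk
  set G' := iG'.1.mk
  set V' := mV.mk
  have h1 : ∀ᵐ y ∂μ, ∀ x, ‖dG (G' y) x‖ ≤ V' y * ‖x‖ * ‖u' y‖ := by
    filter_upwards [hG, eu, eG, eV] with y a b c d x
    rw [← b, ← c, ← d]
    by_cases k : y ∈ K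
    · simpa [k] using a k x
    · simp [k, dG]
  obtain ⟨N, N1, mN, N0⟩ := exists_measurable_superset_of_null (ae_iff.1 h1)
  have eG2 : K.indicator G =ᵐ[μ] Nᶜ.indicator G' := by
    filter_upwards [eG, measure_eq_zero_iff_ae_notMem.1 N0] with y a b
    rw [a, indicator_of_mem b]
  have nV : Measurable fun y => ‖V' y‖ₑ := mV.stronglyMeasurable_mk.enorm
  have := ballv μ hn R0 (z0 := z0) (u := u') (G := Nᶜ.indicator G') (P := fun y => ‖V' y‖ₑ + 1)
    iu'.1.stronglyMeasurable_mk (iG'.1.stronglyMeasurable_mk.indicator mN.compl) (nV.add_const _)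
    (iu'.congr eu) (iG'.congr eG2) (fun φ a b c v => ?_) (fun _ => le_add_self) ?_ (fun y x => ?_)
    (fun M => ?_)
  · filter_upwards [this, eu] with y a b k
    rw [← a k, ← b, indicator_of_mem (ball_subset_closedBall.trans
      (closedBall_subset_closedBall (by linarith)) k)]
  · have s : tsupport φ ⊆ K := c.trans ball_subset_closedBall
    refine Eq.trans (integral_congr_ae (eu.mono fun y hy => ?_)) ((hw φ a b c v).trans
      (congrArg Neg.neg (integral_congr_ae (eG2.mono fun y hy => ?_))))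
    · simp only [← hy]
      by_cases k : y ∈ K
      · rw [indicator_of_mem k]
      · have : fderiv ℝ φ y = 0 := by
          by_contra j
          exact k (s (support_fderiv_subset ℝ j))
        simp [this]
    · simp only [← hy]
      by_cases k : y ∈ K
      · rw [indicator_of_mem k]
      · simp [image_eq_zero_of_notMem_tsupport fun j => k (s j)]
  · have q0 : (0 : ℝ) < 2 * Module.finrank ℂ E := by linarith
    have f := hV.2
    rw [eLpNorm_lt_top_iff_lintegral_rpow_enorm_lt_top (ENNReal.ofReal_pos.2 q0).ne' ENNReal.ofReal_ne_top,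
      ENNReal.toReal_ofReal q0.le] at f
    calc _ ≤ ∫⁻ y in K, 2 ^ (2 * Module.finrank ℂ E - 1 : ℝ) *
          (‖V y‖ₑ ^ (2 * Module.finrank ℂ E : ℝ) + 1) ∂μ := by
          refine (lintegral_mono_set (closedBall_subset_closedBall (by linarith))).trans
            (lintegral_mono_ae ?_)
          filter_upwards [ae_restrict_of_ae eV, ae_restrict_mem mK] with y a k
          rw [← a, indicator_of_mem k]
          simpa using ENNReal.rpow_add_le_mul_rpow_add_rpow ‖V y‖ₑ 1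
            (p := 2 * Module.finrank ℂ E) (by linarith)
      _ < ⊤ := by
          have t : (2 : ℝ≥0∞) ^ (2 * Module.finrank ℂ E - 1 : ℝ) < ⊤ :=
            ENNReal.rpow_lt_top_of_nonneg (by linarith) (by simp)
          rw [lintegral_const_mul' _ _ t.ne, lintegral_add_right _ measurable_const, setLIntegral_one]
          exact ENNReal.mul_lt_top t (ENNReal.add_lt_top.2 ⟨f, measure_closedBall_lt_top⟩)
  · by_cases k : y ∈ N
    · simp [k, dG]
    have : ‖dG (G' y) x‖ ≤ V' y * ‖x‖ * ‖u' y‖ := by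
      by_contra j
      exact k (N1 fun h => j (h x))
    rw [indicator_of_mem k, ← ofReal_norm]
    calc _ ≤ ENNReal.ofReal (‖V' y‖ * ‖x‖ * ‖u' y‖) :=
          ENNReal.ofReal_le_ofReal (this.trans (by gcongr; exact le_abs_self _))
      _ = ‖V' y‖ₑ * ‖x‖ₑ * ‖u' y‖ₑ := by
          rw [ENNReal.ofReal_mul (by positivity), ENNReal.ofReal_mul (by positivity)]
          simp only [ofReal_norm]
      _ ≤ _ := by gcongr; exact le_self_add
  · refine tendsto_of_tendsto_of_tendsto_of_le_of_le tendsto_const_nhds (hv M) (fun _ => zero_le)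
      fun r => mul_le_mul_right (lintegral_mono_ae ((ae_restrict_of_ae eu).mono fun y hy => ?_)) _
    rw [← hy]
    by_cases k : y ∈ K <;> simp [k]

lemma v1 {u : E → F} {z0 : E} {s : ℝ} (s1 : 1 ≤ s) (s3 : s ≤ 3)
    (h : ∀ N : ℕ, Tendsto (fun r : ℝ => (∫⁻ y in ball z0 r, ‖u y‖ₑ ^ s ∂μ) / ENNReal.ofReal (r ^ N))
      (𝓝[>] 0) (𝓝 0)) : V1 μ u z0 := fun N => by
  have t2 : Tendsto (fun r : ℝ => 2 * r) (𝓝[>] 0) (𝓝[>] 0) :=
    tendsto_nhdsWithin_iff.2 ⟨by
      simpa using ((continuous_const_mul (2 : ℝ)).tendsto 0).mono_left nhdsWithin_le_nhds,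
      eventually_mem_nhdsWithin.mono fun r hr => mul_pos (two_pos (α := ℝ)) hr⟩
  have T1 := ENNReal.Tendsto.const_mul (a := .ofReal (2 ^ (3 * N + 2))) ((h (3 * N + 2)).comp t2)
    (.inr ENNReal.ofReal_ne_top)
  have T2 := ENNReal.Tendsto.mul_const (b := μ (closedBall z0 1)) (ENNReal.tendsto_ofReal
    (tendsto_id.mono_left (nhdsWithin_le_nhds (a := (0 : ℝ)) (s := Ioi 0))))
    (.inr measure_closedBall_lt_top.ne)
  have T := T2.add T1
  simp only [mul_zero, ENNReal.ofReal_zero, zero_mul, add_zero] at T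
  refine tendsto_of_tendsto_of_tendsto_of_le_of_le' tendsto_const_nhds T (.of_forall fun _ => zero_le) ?_
  filter_upwards [Ioo_mem_nhdsGT (zero_lt_one' ℝ)] with r ⟨r0, r1⟩
  have pw : ∀ y, (ENNReal.ofReal (r ^ N))⁻¹ * ‖u y‖ₑ ≤
      .ofReal r + .ofReal ((r ^ (3 * N + 2))⁻¹) * ‖u y‖ₑ ^ s := fun y => by
    rw [← ofReal_norm, ENNReal.ofReal_rpow_of_nonneg (norm_nonneg _) (by linarith),
      ← ENNReal.ofReal_inv_of_pos (by positivity), ← ENNReal.ofReal_mul (by positivity),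
      ← ENNReal.ofReal_mul (by positivity), ← ENNReal.ofReal_add r0.le (by positivity)]
    refine ENNReal.ofReal_le_ofReal ?_
    have p : 0 < r ^ (N + 1) := by positivity
    have p1 : r ^ (N + 1) ≤ 1 := pow_le_one₀ r0.le r1.le
    by_cases k : ‖u y‖ ≤ r ^ (N + 1)
    · calc _ ≤ (r ^ N)⁻¹ * r ^ (N + 1) := by gcongr
        _ = r := by field_simp; ring
        _ ≤ _ := le_add_of_nonneg_right (by positivity)
    · rw [not_le] at k
      have u0 : 0 < ‖u y‖ := p.trans k
      have a : (r ^ (N + 1)) ^ 2 * ‖u y‖ ≤ ‖u y‖ ^ s := by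
        rw [show s = (s - 1) + 1 by ring, Real.rpow_add u0, Real.rpow_one]
        gcongr
        calc _ = (r ^ (N + 1)) ^ (2 : ℝ) := (Real.rpow_two _).symm
          _ ≤ (r ^ (N + 1)) ^ (s - 1) := Real.rpow_le_rpow_of_exponent_ge p p1 (by linarith)
          _ ≤ _ := Real.rpow_le_rpow p.le k.le (by linarith)
      calc _ = (r ^ (3 * N + 2))⁻¹ * ((r ^ (N + 1)) ^ 2 * ‖u y‖) := by field_simp; ring
        _ ≤ (r ^ (3 * N + 2))⁻¹ * ‖u y‖ ^ s := by gcongr
        _ ≤ _ := le_add_of_nonneg_left r0.le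
  rw [← lintegral_const_mul' _ _ (by simp [r0])]
  refine (lintegral_mono pw).trans ?_
  rw [lintegral_add_left measurable_const, setLIntegral_const,
    lintegral_const_mul' _ _ ENNReal.ofReal_ne_top]
  refine add_le_add (mul_le_mul_right (measure_mono (closedBall_subset_closedBall r1.le)) _) ?_
  simp only [Function.comp_apply]
  rw [div_eq_mul_inv, mul_comm (lintegral _ _), ← mul_assoc, ← ENNReal.ofReal_inv_of_pos (by positivity),
    ← ENNReal.ofReal_mul (by positivity), mul_pow, mul_inv, mul_inv_cancel_left₀ (by positivity)]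
  exact mul_le_mul_right (lintegral_mono_set (closedBall_subset_ball (by linarith))) _

theorem glob (hn : 2 ≤ Module.finrank ℂ E) {Ω : Set E} (ho : IsOpen Ω) (hc : IsPreconnected Ω)
    {u : E → F} {G : E → E →L[ℝ] F} {V : E → ℝ}
    (iu : ∀ K ⊆ Ω, IsCompact K → IntegrableOn u K μ)
    (iG : ∀ K ⊆ Ω, IsCompact K → IntegrableOn G K μ) (hw : Wk μ Ω u G)
    (hV : ∀ K ⊆ Ω, IsCompact K → MemLp V (.ofReal (2 * Module.finrank ℂ E)) (μ.restrict K))
    (hG : ∀ᵐ y ∂μ, y ∈ Ω → ∀ x, ‖dG (G y) x‖ ≤ V y * ‖x‖ * ‖u y‖) {z0 : E} (h0 : z0 ∈ Ω)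
    (hv : V1 μ u z0) : ∀ᵐ y ∂μ, y ∈ Ω → u y = 0 := by
  have L : ∀ z R, 0 < R → closedBall z (3 * R) ⊆ Ω → V1 μ u z →
      ∀ᵐ y ∂μ, y ∈ ball z R → u y = 0 := fun z R R0 s v =>
    loc μ hn R0 (iu _ s (isCompact_closedBall _ _)) (iG _ s (isCompact_closedBall _ _))
      (fun φ a b c => hw φ a b (c.trans (ball_subset_closedBall.trans s)))
      (hV _ s (isCompact_closedBall _ _)) (hG.mono fun y hy k => hy (s k)) v
  let Z := {z : E | ∃ O, IsOpen O ∧ z ∈ O ∧ ∀ᵐ y ∂μ, y ∈ O → u y = 0}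
  have oZ : IsOpen Z := isOpen_iff_mem_nhds.2 fun z ⟨O, a, b, c⟩ =>
    mem_of_superset (a.mem_nhds b) fun y hy => ⟨O, a, hy, c⟩
  have sub : Ω ⊆ Z := by
    refine hc.subset_of_closure_inter_subset oZ ?_ fun z ⟨hz, zΩ⟩ => ?_
    · obtain ⟨r, r0, hr⟩ := nhds_basis_closedBall.mem_iff.1 (ho.mem_nhds h0)
      exact ⟨z0, h0, _, isOpen_ball, mem_ball_self (by positivity),
        L z0 (r / 3) (by positivity) (by rwa [mul_div_cancel₀ _ three_ne_zero]) hv⟩
    obtain ⟨r, r0, hr⟩ := nhds_basis_closedBall.mem_iff.1 (ho.mem_nhds zΩ)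
    obtain ⟨w, ⟨O, a, b, c⟩, hw⟩ := Metric.mem_closure_iff.1 hz (r / 4) (by positivity)
    refine ⟨_, isOpen_ball, hw, L w (r / 4) (by positivity)
      ((closedBall_subset_closedBall' (by rw [dist_comm]; linarith)).trans hr) fun N => ?_⟩
    obtain ⟨e, e0, he⟩ := nhds_basis_closedBall.mem_iff.1 (a.mem_nhds b)
    refine tendsto_const_nhds.congr' ?_
    filter_upwards [Ioo_mem_nhdsGT e0] with t ht
    have : ∫⁻ y in closedBall w t, ‖u y‖ₑ ∂μ = 0 := by
      refine (lintegral_congr_ae ?_).trans lintegral_zero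
      filter_upwards [ae_restrict_of_ae c, ae_restrict_mem measurableSet_closedBall] with y k j
      simp [k (he (closedBall_subset_closedBall ht.2.le j))]
    rw [this, mul_zero]
  rw [ae_iff]
  refine measure_null_of_locally_null _ fun x hx => ?_
  rw [mem_ofPred_eq, Classical.not_imp] at hx
  obtain ⟨O, a, b, c⟩ := sub hx.1
  refine ⟨_, inter_mem_nhdsWithin _ (a.mem_nhds b), measure_mono_null (fun y hy => ?_) (ae_iff.1 c)⟩
  exact fun k => hy.1 fun _ => k hy.2

lemma cs2 {n : ℕ} (L : EuclideanSpace ℂ (Fin n) →L[ℝ] F) (x : EuclideanSpace ℂ (Fin n)) :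
    ‖dG L x‖ ≤ 2 * √(∑ j, ‖(1 / 2 : ℂ) • (L (EuclideanSpace.single j 1) +
      I • L (EuclideanSpace.single j I))‖ ^ 2) * ‖x‖ := by
  have ex : ∀ y : EuclideanSpace ℂ (Fin n), y = ∑ j, y j • EuclideanSpace.single j (1 : ℂ) :=
    fun y => by simpa using ((EuclideanSpace.basisFun (Fin n) ℂ).sum_repr y).symm
  have e : dG L x = ∑ j, (2 * starRingEnd ℂ (x j)) • ((1 / 2 : ℂ) • (L (EuclideanSpace.single j 1) +
      I • L (EuclideanSpace.single j I))) := by
    rw [dG]
    conv_lhs => rw [ex x]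
    rw [Finset.smul_sum, map_sum, map_sum, Finset.smul_sum, ← Finset.sum_add_distrib]
    refine Finset.sum_congr rfl fun j _ => ?_
    have := rot (L.comp ((toSpanSingleton ℂ (EuclideanSpace.single j (1 : ℂ))).restrictScalars ℝ)) (x j)
    simp only [comp_apply, coe_restrictScalars', toSpanSingleton_apply, one_smul] at this
    have k : I • EuclideanSpace.single j (1 : ℂ) = EuclideanSpace.single j I := by
      ext i; by_cases h : i = j <;> simp [h]
    rw [smul_smul I (x j), this, k, smul_smul]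
    congr 1; ring
  rw [e, EuclideanSpace.norm_eq x, mul_assoc, mul_comm (√_)]
  refine (norm_sum_le _ _).trans (le_trans (le_of_eq ?_) (mul_le_mul_of_nonneg_left
    (Real.sum_mul_le_sqrt_mul_sqrt _ _ _) zero_le_two))
  rw [Finset.mul_sum]
  refine Finset.sum_congr rfl fun j _ => ?_
  rw [norm_smul, norm_mul, RCLike.norm_conj, mul_assoc]; simp

end Pool.Agent.H99.Ucp
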