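import Mathlib

set_option autoImplicit false

namespace Pool.Agent.H99.Visc

/-- Euclidean space; functions on the torus are ℤ^n-periodic functions on it. -/
abbrev E (n : ℕ) := EuclideanSpace ℝ (Fin n)

variable {n : ℕ}

/-- f is invariant under the lattice ℤ^n. -/
def Per {α : Type} (f : E n → α) : Prop :=
  ∀ (k : Fin n → ℤ) (y : E n), f (y + WithLp.toLp 2 fun i => (k i : ℝ)) = f y

/-- u is a continuous periodic viscosity subsolution of H(y, Du) = c. -/
def IsSub (H : E n → E n → ℝ) (c : ℝ) (u : E n → ℝ) : Prop :=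
  Continuous u ∧ Per u ∧ ∀ φ : E n → ℝ, ContDiff ℝ 1 φ → ∀ y,
    IsLocalMax (fun z => u z - φ z) y → H y (gradient φ y) ≤ c

/-- u is a continuous periodic viscosity supersolution of H(y, Du) = c. -/
def IsSuper (H : E n → E n → ℝ) (c : ℝ) (u : E n → ℝ) : Prop :=
  Continuous u ∧ Per u ∧ ∀ φ : E n → ℝ, ContDiff ℝ 1 φ → ∀ y,
    IsLocalMin (fun z => u z - φ z) y → c ≤ H y (gradient φ y)

/-- S_x(y), the supremum of u(y) - u(x) over all subsolutions at level c. -/
noncomputable def S (H : E n → E n → ℝ) (c : ℝ) (x y : E n) : ℝ :=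
  sSup {r | ∃ u, IsSub H c u ∧ r = u y - u x}

end Pool.Agent.H99.Visc
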