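import Mathlib

set_option autoImplicit false

namespace Pool.Agent.H99.WeakKam

open Filter ENNReal

/-- u is a continuous 1-periodic viscosity solution of H(x, u') = k (functions on the circle are
1-periodic functions on ℝ). -/
def IsSol (H : ℝ → ℝ → ℝ) (k : ℝ) (u : ℝ → ℝ) : Prop :=
  Continuous u ∧ Function.Periodic u 1 ∧ ∀ φ : ℝ → ℝ, ContDiff ℝ 1 φ → ∀ y,
    (IsLocalMax (fun z => u z - φ z) y → H y (deriv φ y) ≤ k) ∧
    (IsLocalMin (fun z => u z - φ z) y → k ≤ H y (deriv φ y))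

/-- H_c(x, p) = H(x, p - c). -/
def shift (H : ℝ → ℝ → ℝ) (c : ℝ) : ℝ → ℝ → ℝ := fun x p => H x (p - c)

/-- The Lagrangian Legendre-dual to H. -/
noncomputable def lag (H : ℝ → ℝ → ℝ) (x v : ℝ) : ℝ := ⨆ p : ℝ, (p * v - H x p)

/-- The Peierls barrier with the constant k; curves on the circle are given by their C¹ lifts. -/
noncomputable def peierls (H : ℝ → ℝ → ℝ) (k x y : ℝ) : EReal :=
  liminf (fun t : ℝ => ⨅ γ ∈ {γ : ℝ → ℝ | ContDiff ℝ 1 γ ∧ γ 0 = x ∧ ∃ m : ℤ, γ t = y + m},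
    ((∫ s in (0 : ℝ)..t, (lag H (γ s) (deriv γ s) + k) : ℝ) : EReal)) atTop

/-- The projected Aubry set (lifted to ℝ). -/
def aubry (H : ℝ → ℝ → ℝ) (k : ℝ) : Set ℝ := {x | peierls H k x x = 0}

/-- The distance on the circle ℝ/ℤ. -/
noncomputable def cdist (x y : ℝ) : ℝ := dist (x : UnitAddCircle) (y : UnitAddCircle)

/-- The Lipschitz norm of f on K: sup of |f| plus the best Lipschitz constant. -/
noncomputable def lipNorm (f : ℝ → ℝ) (K : Set ℝ) : ℝ≥0∞ :=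
  (⨆ x ∈ K, ENNReal.ofReal |f x|) +
    ⨆ x ∈ K, ⨆ y ∈ K, ⨆ _ : cdist x y ≠ 0, ENNReal.ofReal (|f x - f y| / cdist x y)

end Pool.Agent.H99.WeakKam
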