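import Mathlib

/-! A thin Cantor set coded by nested radicals. -/

open Filter Topology Set

noncomputable section

namespace Pool.Agent.H99.Widom

def lam (j : ℕ) : ℝ := 4 ^ (j + 3)

def sg (b : Bool) : ℝ := if b then 1 else -1

theorem abs_sg (b : Bool) : |sg b| = 1 := by cases b <;> simp [sg]

theorem sg_sq (b : Bool) : sg b ^ 2 = 1 := by cases b <;> simp [sg]

def app : ℕ → ℕ → (ℕ → Bool) → ℝ
  | 0, _, _ => 0
  | n + 1, j, s => sg (s j) * √(lam j + app n (j + 1) s)

theorem lam_eq (j : ℕ) : lam j = 64 * (2 ^ j) ^ 2 := by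
  rw [lam, show (4 : ℝ) = 2 ^ 2 by norm_num, ← pow_mul, ← pow_mul]; ring

theorem step_bounds {j : ℕ} {y : ℝ} (hy : |y| ≤ 2 ^ (j + 1 + 4)) :
    32 * 2 ^ j ≤ lam j + y ∧ √(lam j + y) ≤ 2 ^ (j + 4) ∧ 4 ≤ √(lam j + y) := by
  have h1 : (1 : ℝ) ≤ 2 ^ j := one_le_pow₀ (by norm_num)
  rw [abs_le, show (2 : ℝ) ^ (j + 1 + 4) = 32 * 2 ^ j by ring] at hy
  have h2 : 32 * 2 ^ j ≤ lam j + y := by rw [lam_eq]; nlinarith
  refine ⟨h2, ?_, ?_⟩
  · rw [Real.sqrt_le_left (by positivity), lam_eq, show (2 : ℝ) ^ (j + 4) = 16 * 2 ^ j by ring]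
    nlinarith
  · rw [Real.le_sqrt (by norm_num) (by linarith)]; linarith

theorem app_le (n j : ℕ) (s : ℕ → Bool) : |app n j s| ≤ 2 ^ (j + 4) := by
  induction n generalizing j with
  | zero => simp [app]
  | succ n ih =>
    rw [app, abs_mul, abs_sg, one_mul, abs_of_nonneg (Real.sqrt_nonneg _)]
    exact (step_bounds (ih (j + 1))).2.1

theorem sqrt_sub {j : ℕ} {y y' : ℝ} (hy : |y| ≤ 2 ^ (j + 1 + 4)) (hy' : |y'| ≤ 2 ^ (j + 1 + 4)) :
    (√(lam j + y) - √(lam j + y')) * (√(lam j + y) + √(lam j + y')) = y - y' := by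
  have h1 := Real.mul_self_sqrt (show 0 ≤ lam j + y by
    linarith [(step_bounds hy).1, show (0 : ℝ) < 2 ^ j by positivity])
  have h2 := Real.mul_self_sqrt (show 0 ≤ lam j + y' by
    linarith [(step_bounds hy').1, show (0 : ℝ) < 2 ^ j by positivity])
  linear_combination h1 - h2

theorem app_dist (n j : ℕ) (s : ℕ → Bool) :
    dist (app n j s) (app (n + 1) j s) ≤ 2 ^ (j + 5) / 2 / 2 ^ n := by
  induction n generalizing j with
  | zero =>
    rw [Real.dist_eq, app, zero_sub, abs_neg]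
    exact (app_le _ _ _).trans (le_of_eq (by ring))
  | succ n ih =>
    have h := ih (j + 1)
    rw [Real.dist_eq] at h ⊢
    have h1 := congrArg abs (sqrt_sub (app_le n (j + 1) s) (app_le (n + 1) (j + 1) s))
    have h2 := (step_bounds (app_le n (j + 1) s)).2.2
    have h3 := (step_bounds (app_le (n + 1) (j + 1) s)).2.2
    rw [abs_mul, abs_of_nonneg (a := _ + _) (by positivity)] at h1
    rw [app, app, ← mul_sub, abs_mul, abs_sg, one_mul]
    have h4 : (2 : ℝ) ^ (j + 1 + 5) / 2 / 2 ^ n = 4 * (2 ^ (j + 5) / 2 / 2 ^ (n + 1)) := by ring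
    nlinarith [abs_nonneg (√(lam j + app n (j + 1) s) - √(lam j + app (n + 1) (j + 1) s))]

def cod (j : ℕ) (s : ℕ → Bool) : ℝ := limUnder atTop fun n => app n j s

theorem tendsto_cod (j : ℕ) (s : ℕ → Bool) : Tendsto (fun n => app n j s) atTop (𝓝 (cod j s)) :=
  (cauchySeq_of_le_geometric_two fun n => app_dist n j s).tendsto_limUnder

theorem cod_le (j : ℕ) (s : ℕ → Bool) : |cod j s| ≤ 2 ^ (j + 4) :=
  le_of_tendsto' (tendsto_cod j s).abs fun n => app_le n j s

/-- the modulus of the coding map -/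
def zeta (j : ℕ) (s : ℕ → Bool) : ℝ := √(lam j + cod (j + 1) s)

theorem cod_succ (j : ℕ) (s : ℕ → Bool) : cod j s = sg (s j) * zeta j s :=
  tendsto_nhds_unique ((tendsto_cod j s).comp (tendsto_add_atTop_nat 1))
    (((tendsto_cod (j + 1) s).const_add _).sqrt.const_mul _)

theorem zeta_ge (j : ℕ) (s : ℕ → Bool) : 4 ≤ zeta j s := (step_bounds (cod_le _ s)).2.2

theorem zeta_le (j : ℕ) (s : ℕ → Bool) : zeta j s ≤ 2 ^ (j + 4) := (step_bounds (cod_le _ s)).2.1

theorem zeta_sq (j : ℕ) (s : ℕ → Bool) : zeta j s ^ 2 = lam j + cod (j + 1) s :=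
  Real.sq_sqrt (by linarith [(step_bounds (cod_le (j + 1) s)).1, show (0 : ℝ) < 2 ^ j by positivity])

theorem zeta_sq_ge (j : ℕ) (s : ℕ → Bool) : 32 * 2 ^ j ≤ zeta j s ^ 2 :=
  zeta_sq j s ▸ (step_bounds (cod_le _ s)).1

theorem cod_sq (j : ℕ) (s : ℕ → Bool) : cod j s ^ 2 = cod (j + 1) s + lam j := by
  rw [cod_succ, mul_pow, sg_sq, one_mul, zeta_sq, add_comm]

theorem app_congr (n j : ℕ) {s s' : ℕ → Bool} (h : ∀ i, j ≤ i → s i = s' i) :
    app n j s = app n j s' := by
  induction n generalizing j with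
  | zero => rfl
  | succ n ih => rw [app, app, h j le_rfl, ih (j + 1) fun i hi => h i (by omega)]

theorem cod_congr (j : ℕ) {s s' : ℕ → Bool} (h : ∀ i, j ≤ i → s i = s' i) :
    cod j s = cod j s' := by
  simp only [cod, app_congr _ j h]

theorem continuous_app (n j : ℕ) : Continuous (app n j) := by
  induction n generalizing j with
  | zero => exact continuous_const
  | succ n ih =>
    exact ((continuous_of_discreteTopology (f := sg)).comp (continuous_apply j)).mul
      (continuous_const.add (ih (j + 1))).sqrt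

theorem continuous_cod (j : ℕ) : Continuous (cod j) := by
  refine TendstoUniformly.continuous (F := fun n => app n j) (p := atTop) ?_
    (Frequently.of_forall fun n => continuous_app n j)
  rw [Metric.tendstoUniformly_iff]
  intro ε hε
  have : Tendsto (fun n : ℕ => (2 : ℝ) ^ (j + 5) / 2 ^ n) atTop (𝓝 0) :=
    tendsto_const_nhds.div_atTop (tendsto_pow_atTop_atTop_of_one_lt (by norm_num))
  filter_upwards [this.eventually (gt_mem_nhds hε)] with n hn s
  rw [dist_comm]
  exact (dist_le_of_le_geometric_two_of_tendsto (fun n => app_dist n j s) (tendsto_cod j s)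
    n).trans_lt hn

theorem continuous_zeta (j : ℕ) : Continuous (zeta j) :=
  (continuous_const.add (continuous_cod _)).sqrt

theorem far {j : ℕ} {s s' : ℕ → Bool} (h : s j ≠ s' j) : 1 ≤ |cod j s - cod j s'| := by
  rw [cod_succ, cod_succ j s']
  have h1 := zeta_ge j s
  have h2 := zeta_ge j s'
  cases hs : s j <;> cases hs' : s' j <;> simp_all [sg]
  · rw [le_abs]; right; linarith
  · rw [le_abs]; left; linarith

theorem near {j : ℕ} (s s' : ℕ → Bool) :
    |cod (j + 1) s - cod (j + 1) s'| ≤ 2 ^ (j + 5) * |cod j s - cod j s'| := by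
  have : cod (j + 1) s - cod (j + 1) s' = (cod j s + cod j s') * (cod j s - cod j s') := by
    linear_combination cod_sq j s' - cod_sq j s
  rw [this, abs_mul]
  gcongr
  calc _ ≤ |cod j s| + |cod j s'| := abs_add_le _ _
    _ ≤ 2 ^ (j + 4) + 2 ^ (j + 4) := add_le_add (cod_le _ _) (cod_le _ _)
    _ = _ := by ring

theorem sep (k j : ℕ) {s s' : ℕ → Bool} (h : s (j + k) ≠ s' (j + k)) :
    1 ≤ 2 ^ (k * (j + k + 5)) * |cod j s - cod j s'| := by
  induction k generalizing j with
  | zero => simpa using far h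
  | succ k ih =>
    have h1 := ih (j + 1) (by rwa [show j + 1 + k = j + (k + 1) by ring])
    calc (1 : ℝ) ≤ 2 ^ (k * (j + 1 + k + 5)) * (2 ^ (j + 5) * |cod j s - cod j s'|) :=
          h1.trans (by gcongr; exact near s s')
      _ = 2 ^ (k * (j + 1 + k + 5) + (j + 5)) * |cod j s - cod j s'| := by ring
      _ ≤ _ := by
          gcongr
          · norm_num
          · nlinarith

theorem cod_ne {j i : ℕ} (hi : j ≤ i) {s s' : ℕ → Bool} (h : s i ≠ s' i) :
    cod j s ≠ cod j s' := fun h0 => by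
  have := sep (i - j) j (s := s) (s' := s') (by rwa [Nat.add_sub_cancel' hi])
  rw [h0, sub_self, abs_zero, mul_zero] at this
  linarith

theorem cod_injective : Function.Injective (cod 0) := fun _ _ h => funext fun i =>
  by_contra fun hi => cod_ne (Nat.zero_le i) hi h

open Polynomial

theorem exists_small (L : ℕ) : ∀ j n : ℕ, n < 2 ^ L → ∃ Q : ℂ[X], Q.Monic ∧ Q.natDegree = n ∧
    ∀ s, ‖Q.eval (cod j s : ℂ)‖ ≤ 2 ^ (L * (j + 4 + L)) := by
  induction L with
  | zero =>
    intro j n hn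
    obtain rfl : n = 0 := by simpa using hn
    exact ⟨1, monic_one, natDegree_one, by simp⟩
  | succ L ih =>
    intro j n hn
    obtain ⟨Q, h1, h2, h3⟩ := ih (j + 1) (n / 2) (by rw [pow_succ] at hn; omega)
    have hT : (X ^ 2 - C (lam j : ℂ)).Monic := monic_X_pow_sub_C _ two_ne_zero
    have hT2 : (X ^ 2 - C (lam j : ℂ)).natDegree = 2 := natDegree_X_pow_sub_C
    have h4 : (Q.comp (X ^ 2 - C (lam j : ℂ))).Monic := h1.comp hT (by rw [hT2]; norm_num)
    refine ⟨X ^ (n % 2) * Q.comp (X ^ 2 - C (lam j : ℂ)), (monic_X_pow _).mul h4, ?_, fun s => ?_⟩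
    · rw [(monic_X_pow _).natDegree_mul h4, natDegree_X_pow, natDegree_comp, h2, hT2]; omega
    · have e : (cod j s : ℂ) ^ 2 - (lam j : ℂ) = cod (j + 1) s := by
        rw [← Complex.ofReal_pow, cod_sq]; push_cast; ring
      simp only [eval_mul, eval_pow, eval_X, eval_comp, eval_sub, eval_C, e, norm_mul, norm_pow,
        Complex.norm_real, Real.norm_eq_abs]
      have h5 : |cod j s| ^ (n % 2) ≤ 2 ^ (j + 4) := by
        rcases Nat.mod_two_eq_zero_or_one n with h | h <;> rw [h]
        · exact (pow_zero _).le.trans (one_le_pow₀ (by norm_num))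
        · rw [pow_one]; exact cod_le j s
      calc _ ≤ (2 : ℝ) ^ (j + 4) * 2 ^ (L * (j + 1 + 4 + L)) := by gcongr; exact h3 s
        _ = 2 ^ (j + 4 + L * (j + 1 + 4 + L)) := by ring
        _ ≤ _ := by
          gcongr
          · norm_num
          · nlinarith

theorem even_odd (P : ℂ[X]) (z : ℂ) :
    P.eval z = (contract 2 P).eval (z ^ 2) + z * (contract 2 P.divX).eval (z ^ 2) := by
  have : P = expand ℂ 2 (contract 2 P) + X * expand ℂ 2 (contract 2 P.divX) := by
    ext n
    rw [coeff_add, coeff_expand two_pos]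
    rcases n with _ | n
    · simp [coeff_contract]
    · rw [coeff_X_mul, coeff_expand two_pos]
      rcases Nat.even_or_odd' n with ⟨m, rfl | rfl⟩
      · rw [if_neg (by omega), if_pos (by omega), coeff_contract two_ne_zero, coeff_divX, zero_add]
        congr 1; omega
      · rw [if_pos (by omega), if_neg (by omega), coeff_contract two_ne_zero, add_zero]
        congr 1; omega
  conv_lhs => rw [this]
  simp [expand_eval]

theorem contract_monic {P : ℂ[X]} {m : ℕ} (h1 : P.coeff (m * 2) = 1)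
    (h2 : ∀ i, m * 2 + 1 < i → P.coeff i = 0) :
    (contract 2 P).Monic ∧ (contract 2 P).natDegree = m := by
  have h3 : (contract 2 P).natDegree ≤ m := by
    rw [natDegree_le_iff_coeff_eq_zero]
    intro i hi
    rw [coeff_contract two_ne_zero, h2 _ (by omega)]
  have h4 : (contract 2 P).coeff m = 1 := by rw [coeff_contract two_ne_zero, h1]
  exact ⟨monic_of_natDegree_le_of_coeff_eq_one m h3 h4,
    natDegree_eq_of_le_of_coeff_ne_zero h3 (by rw [h4]; exact one_ne_zero)⟩

end Pool.Agent.H99.Widom
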