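import Pool.Agent.H99.Widom1

open Filter Topology Set MeasureTheory ProbabilityTheory

noncomputable section

namespace Pool.Agent.H99.Widom

theorem measurable_lg : Measurable fun p : ℂ × ℂ => Real.log ‖p.1 - p.2‖ :=
  Real.measurable_log.comp (by fun_prop)

theorem vander (L : ℕ) (v : Fin (2 ^ L) → ℂ) (hv : ∀ i, ∃ s, (cod 0 s : ℂ) = v i)
    (hinj : Function.Injective v) :
    ∑ i, ∑ j ∈ Finset.Ioi i, Real.log ‖v j - v i‖ ≤ 2 ^ L * (L * (L + 5)) := by
  choose Q h1 h2 h3 using fun i : Fin (2 ^ L) => exists_small L 0 i i.2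
  have hne : ∀ i, ∀ j ∈ Finset.Ioi i, ‖v j - v i‖ ≠ 0 := fun i j hj =>
    norm_ne_zero_iff.2 (sub_ne_zero.2 fun h => (Finset.mem_Ioi.1 hj).ne' (hinj h))
  have e : ∑ i, ∑ j ∈ Finset.Ioi i, Real.log ‖v j - v i‖ =
      Real.log ‖(Matrix.vandermonde v).det‖ := by
    rw [Matrix.det_vandermonde, norm_prod, Real.log_prod fun i _ => by
      rw [norm_prod]; exact Finset.prod_ne_zero_iff.2 (hne i)]
    refine Finset.sum_congr rfl fun i _ => ?_
    rw [norm_prod, Real.log_prod (hne i)]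
  have hpos : 0 < ‖(Matrix.vandermonde v).det‖ :=
    norm_pos_iff.2 (Matrix.det_vandermonde_ne_zero_iff.2 hinj)
  have hle := Matrix.det_le (A := Matrix.of fun i j => (Q j).eval (v i))
    (abv := IsAbsoluteValue.toAbsoluteValue (norm : ℂ → ℝ)) (x := 2 ^ (L * (0 + 4 + L)))
    fun i j => by
      obtain ⟨s, hs⟩ := hv i
      simpa [← hs] using h3 j s
  rw [← Matrix.det_eval_matrixOfPolynomials_eq_det_vandermonde v Q h2 h1, Fintype.card_fin,
    nsmul_eq_mul] at hle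
  have h4 : ((2 ^ L).factorial : ℝ) ≤ (2 ^ L) ^ (2 ^ L) := by
    exact_mod_cast Nat.factorial_le_pow (2 ^ L)
  have h5 : ‖(Matrix.vandermonde v).det‖ ≤ 2 ^ (2 ^ L * (L * (L + 5))) := by
    refine le_trans hle ?_
    calc _ ≤ ((2 : ℝ) ^ L) ^ (2 ^ L) * (2 ^ (L * (0 + 4 + L))) ^ (2 ^ L) := by gcongr
      _ = _ := by rw [← mul_pow, ← pow_add, ← pow_mul]; congr 1; ring
  rw [e]
  refine (Real.log_le_log hpos h5).trans ?_
  rw [Real.log_pow]
  push_cast
  refine mul_le_of_le_one_right (by positivity) ?_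
  linarith [Real.log_two_lt_d9]

theorem energy_le (ρ : Measure ℂ) [IsProbabilityMeasure ρ] [NullSingletonClass ρ]
    (hK : ρ (range fun s => (cod 0 s : ℂ))ᶜ = 0)
    (hi : Integrable (fun p : ℂ × ℂ => Real.log ‖p.1 - p.2‖) (ρ.prod ρ)) :
    ∫ p, Real.log ‖p.1 - p.2‖ ∂(ρ.prod ρ) ≤ 0 := by
  set Pr := Measure.infinitePi fun _ : ℕ => ρ with hPr
  set I := ∫ p, Real.log ‖p.1 - p.2‖ ∂(ρ.prod ρ) with hI
  have hmp : ∀ i j : ℕ, i ≠ j → MeasurePreserving (fun ω : ℕ → ℂ => (ω i, ω j)) Pr (ρ.prod ρ) :=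
    fun i j h => ⟨by fun_prop, Measure.infinitePi_map_eval_prod h⟩
  have hdiag : ∀ᵐ p ∂(ρ.prod ρ), p.1 ≠ p.2 := by
    rw [ae_iff]
    simp only [ne_eq, not_not]
    rw [Measure.prod_apply (measurableSet_eq_fun measurable_fst measurable_snd)]
    simp
  have h1 : ∀ᵐ ω ∂Pr, (∀ i, ω i ∈ range fun s => (cod 0 s : ℂ)) ∧ ∀ i j, i ≠ j → ω i ≠ ω j := by
    refine (ae_all_iff.2 fun i => ?_).and (ae_all_iff.2 fun i => ae_all_iff.2 fun j => ?_)
    · exact (measurePreserving_eval_infinitePi (fun _ : ℕ => ρ) i).quasiMeasurePreserving.ae hK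
    · by_cases h : i = j
      · simp [h]
      · filter_upwards [(hmp i j h).quasiMeasurePreserving.ae hdiag] with ω hω _ using hω
  have h2 : ∀ L : ℕ, 1 ≤ L → I ≤ 24 * ((L : ℝ) ^ 2 / 2 ^ L) := by
    intro L hL
    have hint : ∀ i : Fin (2 ^ L), ∀ j ∈ Finset.Ioi i,
        Integrable (fun ω : ℕ → ℂ => Real.log ‖ω j - ω i‖) Pr := fun i j hj =>
      (hmp j i (Fin.val_ne_of_ne (Finset.mem_Ioi.1 hj).ne')).integrable_comp_of_integrable hi
    have hval : ∀ i : Fin (2 ^ L), ∀ j ∈ Finset.Ioi i,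
        ∫ ω : ℕ → ℂ, Real.log ‖ω j - ω i‖ ∂Pr = I := fun i j hj => by
      have := hmp j i (Fin.val_ne_of_ne (Finset.mem_Ioi.1 hj).ne')
      rw [hI, ← this.map_eq, integral_map this.measurable.aemeasurable
        measurable_lg.aestronglyMeasurable]
    have h3 := integral_mono_ae (μ := Pr)
      (f := fun ω => ∑ i : Fin (2 ^ L), ∑ j ∈ Finset.Ioi i, Real.log ‖ω j - ω i‖)
      (g := fun _ => (2 : ℝ) ^ L * (L * (L + 5)))
      (integrable_finsetSum _ fun i _ => integrable_finsetSum _ (hint i)) (integrable_const _)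
      (h1.mono fun ω hω => vander L (fun i => ω i) (fun i => hω.1 i)
        fun i j h => Fin.ext (by_contra fun hne => hω.2 i j hne h))
    rw [integral_finsetSum _ fun i _ => integrable_finsetSum _ (hint i),
      Finset.sum_congr rfl fun i _ => (integral_finsetSum _ (hint i)).trans
        (Finset.sum_congr rfl (hval i))] at h3
    simp only [Finset.sum_const, Fin.card_Ioi, nsmul_eq_mul, integral_const, probReal_univ,
      one_smul, ← Finset.sum_mul] at h3
    rw [← Nat.cast_sum, Fin.sum_univ_eq_sum_range (fun i => 2 ^ L - 1 - i),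
      Finset.sum_range_reflect (fun i => i)] at h3
    have h4 : ((∑ i ∈ Finset.range (2 ^ L), i : ℕ) : ℝ) * 2 = 2 ^ L * (2 ^ L - 1) := by
      have := Finset.sum_range_id_mul_two (2 ^ L)
      have h5 : 1 ≤ 2 ^ L := Nat.one_le_two_pow
      exact_mod_cast this
    have h5 : (2 : ℝ) ≤ 2 ^ L := by
      calc (2 : ℝ) = 2 ^ 1 := by norm_num
        _ ≤ _ := by gcongr; norm_num
    have hL' : (1 : ℝ) ≤ L := by exact_mod_cast hL
    have h6 : (2 ^ L - 1) * I ≤ 2 * (L * (L + 5)) := by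
      refine le_of_mul_le_mul_left ?_ (show (0 : ℝ) < 2 ^ L by positivity)
      rw [← mul_assoc, ← h4]; linarith
    rcases le_total I 0 with h | h
    · exact h.trans (by positivity)
    · rw [← mul_div_assoc, le_div_iff₀ (by positivity)]
      nlinarith
  have h3 := (tendsto_pow_const_div_const_pow_of_one_lt 2 (r := 2) (by norm_num)).const_mul 24
  rw [mul_zero] at h3
  exact ge_of_tendsto h3 (eventually_atTop.2 ⟨1, h2⟩)

/-- the uniform measure on four points -/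
def U : Measure (Fin 4) := (4 : ENNReal)⁻¹ • Measure.count

instance : IsProbabilityMeasure U :=
  ⟨by simp [U, ENNReal.inv_mul_cancel]⟩

def P : Measure (ℕ → Fin 4) := Measure.infinitePi fun _ => U

instance : IsProbabilityMeasure P := by unfold P; infer_instance

def tau (j : ℕ) (c : Fin 4) (ω : ℕ → Fin 4) : ℕ → Fin 4 := fun i => ω i + (Pi.single j c : ℕ → Fin 4) i

theorem tau_mp (j : ℕ) (c : Fin 4) : MeasurePreserving (tau j c) P P := by
  refine ⟨by unfold tau; fun_prop, ?_⟩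
  have := Measure.infinitePi_map_pi (fun _ : ℕ => U)
    (f := fun i a => a + (Pi.single j c : ℕ → Fin 4) i) (fun i => by fun_prop)
  unfold P tau
  rw [this]
  congr
  funext i
  rw [U, Measure.map_smul, map_add_right_eq_self]

theorem avg {α : Type} [MeasurableSpace α] {m : Measure α} {t : Fin 4 → α → α}
    (ht : ∀ c, MeasurePreserving (t c) m m) {g : α → ℝ} (hg : Integrable g m) :
    ∫ x, g x ∂m = ∫ x, (∑ c, g (t c x)) / 4 ∂m := by
  rw [integral_div, integral_finsetSum (f := fun c x => g (t c x)) _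
    fun c _ => (ht c).integrable_comp_of_integrable hg]
  have : ∀ c, ∫ x, g (t c x) ∂m = ∫ x, g x ∂m := fun c => by
    conv_rhs => rw [← (ht c).map_eq]
    rw [integral_map (ht c).measurable.aemeasurable ((ht c).map_eq.symm ▸ hg.aestronglyMeasurable)]
  simp [this]

theorem cod_tau (e : Fin 4 → Bool) (j : ℕ) (c : Fin 4) (ω : ℕ → Fin 4) :
    cod j (e ∘ tau j c ω) = sg (e (ω j + c)) * zeta j (e ∘ ω) := by
  rw [cod_succ, zeta, zeta, cod_congr (j + 1) (s := e ∘ tau j c ω) (s' := e ∘ ω) fun i hi => by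
    simp [tau, Pi.single_eq_of_ne (show i ≠ j by omega)]]
  simp [tau]

theorem continuous_comp (e : Fin 4 → Bool) : Continuous fun ω : ℕ → Fin 4 => e ∘ ω :=
  continuous_pi fun i => continuous_of_discreteTopology.comp (continuous_apply i)

theorem integrable_cont {g : (ℕ → Fin 4) → ℝ} (hg : Continuous g) : Integrable g P :=
  hg.integrable_of_hasCompactSupport (HasCompactSupport.of_compactSpace _)

def e1 (a : Fin 4) : Bool := decide (a ≠ 0)

def e2 (a : Fin 4) : Bool := decide (a < 2)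

open Polynomial in
theorem widom (n : ℕ) : ∀ (j : ℕ) (Q : ℂ[X]), Q.Monic → Q.natDegree = n →
    (if n = 0 then 1 else (2 : ℝ) ^ j) ≤ ∫ ω, ‖Q.eval (cod j (e1 ∘ ω) : ℂ)‖ ^ 2 ∂P := by
  induction n using Nat.strong_induction_on with
  | _ n ih =>
  intro j Q hQ hn
  split_ifs with h0
  · rw [h0] at hn
    simp [hQ.natDegree_eq_zero.1 hn]
  have hc : ∀ (j : ℕ) (Q : ℂ[X]), Continuous fun ω => ‖Q.eval (cod j (e1 ∘ ω) : ℂ)‖ ^ 2 :=
    fun j Q => (Q.continuous.comp (Complex.continuous_ofReal.comp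
      ((continuous_cod j).comp (continuous_comp e1)))).norm.pow 2
  set A := (contract 2 Q).comp (X + C (lam j : ℂ)) with hA
  set B := (contract 2 Q.divX).comp (X + C (lam j : ℂ)) with hB
  have key : ∀ ω : ℕ → Fin 4, (‖A.eval (cod (j + 1) (e1 ∘ ω) : ℂ)‖ ^ 2 +
      32 * 2 ^ j * ‖B.eval (cod (j + 1) (e1 ∘ ω) : ℂ)‖ ^ 2) / 2 ≤
      (∑ c, ‖Q.eval (cod j (e1 ∘ tau j c ω) : ℂ)‖ ^ 2) / 4 := by
    intro ω
    have e : ((zeta j (e1 ∘ ω) : ℝ) : ℂ) ^ 2 = cod (j + 1) (e1 ∘ ω) + lam j := by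
      rw [← Complex.ofReal_pow, zeta_sq]; push_cast; ring
    have a1 := even_odd Q (zeta j (e1 ∘ ω))
    have a2 := even_odd Q (-zeta j (e1 ∘ ω))
    rw [neg_sq, neg_mul, ← sub_eq_add_neg] at a2
    rw [e] at a1 a2
    have a3 := parallelogram_law_with_norm ℂ
      ((contract 2 Q).eval ((cod (j + 1) (e1 ∘ ω) : ℂ) + lam j))
      (zeta j (e1 ∘ ω) * (contract 2 Q.divX).eval ((cod (j + 1) (e1 ∘ ω) : ℂ) + lam j))
    rw [← a1, ← a2, norm_mul, Complex.norm_real, Real.norm_eq_abs, mul_pow, sq_abs] at a3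
    have a4 : ∑ c, ‖Q.eval (cod j (e1 ∘ tau j c ω) : ℂ)‖ ^ 2 =
        3 * ‖Q.eval (zeta j (e1 ∘ ω) : ℂ)‖ ^ 2 + ‖Q.eval (-zeta j (e1 ∘ ω) : ℂ)‖ ^ 2 := by
      simp only [cod_tau, Fin.sum_univ_four]
      generalize ω j = a
      fin_cases a <;> simp [e1, sg] <;> ring
    simp only [hA, hB, eval_comp, eval_add, eval_X, eval_C]
    rw [a4]
    nlinarith [sq_nonneg ‖Q.eval (zeta j (e1 ∘ ω) : ℂ)‖, mul_le_mul_of_nonneg_right
      (zeta_sq_ge j (e1 ∘ ω))
      (sq_nonneg ‖(contract 2 Q.divX).eval ((cod (j + 1) (e1 ∘ ω) : ℂ) + lam j)‖)]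
  rw [avg (tau_mp j) (integrable_cont (hc j Q))]
  refine le_trans ?_ (integral_mono
    (((integrable_cont (hc _ A)).add ((integrable_cont (hc _ B)).const_mul _)).div_const 2)
    ((integrable_finsetSum _ fun c _ => (tau_mp j c).integrable_comp_of_integrable
      (integrable_cont (hc j Q))).div_const 4) key)
  simp only [Pi.add_apply]
  rw [integral_div, integral_add (integrable_cont (hc _ A))
    ((integrable_cont (hc _ B)).const_mul _), integral_const_mul]
  have b1 : 0 ≤ ∫ ω, ‖A.eval (cod (j + 1) (e1 ∘ ω) : ℂ)‖ ^ 2 ∂P :=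
    integral_nonneg fun _ => sq_nonneg _
  have b2 : 0 ≤ ∫ ω, ‖B.eval (cod (j + 1) (e1 ∘ ω) : ℂ)‖ ^ 2 ∂P :=
    integral_nonneg fun _ => sq_nonneg _
  have b3 : (1 : ℝ) ≤ 2 ^ j := one_le_pow₀ (by norm_num)
  have hz : ∀ i, n < i → Q.coeff i = 0 := fun i hi => coeff_eq_zero_of_natDegree_lt (hn ▸ hi)
  have h1 : Q.coeff n = 1 := hn ▸ hQ.coeff_natDegree
  rcases Nat.even_or_odd' n with ⟨m, rfl | rfl⟩
  · obtain ⟨c1, c2⟩ := contract_monic (P := Q) (m := m) (by rwa [mul_comm])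
      fun i hi => hz i (by omega)
    have := ih m (by omega) (j + 1) A (c1.comp_X_add_C _)
      (by rw [hA, natDegree_comp, natDegree_X_add_C, c2, mul_one])
    rw [if_neg (by omega), pow_succ] at this
    nlinarith
  · obtain ⟨c1, c2⟩ := contract_monic (P := Q.divX) (m := m) (by rwa [coeff_divX, mul_comm])
      fun i hi => by rw [coeff_divX]; exact hz _ (by omega)
    have := ih m (by omega) (j + 1) B (c1.comp_X_add_C _)
      (by rw [hB, natDegree_comp, natDegree_X_add_C, c2, mul_one])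
    have b4 : (1 : ℝ) ≤ if m = 0 then 1 else 2 ^ (j + 1) := by
      split_ifs
      · rfl
      · exact one_le_pow₀ (by norm_num)
    nlinarith

end Pool.Agent.H99.Widom
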