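import Pool.Agent.H99.Widom2

open Filter Topology Set MeasureTheory ProbabilityTheory
open scoped ENNReal

noncomputable section

namespace Pool.Agent.H99.Widom

theorem U_apply (S : Finset (Fin 4)) : U S = S.card / 4 := by
  rw [U, Measure.smul_apply, Measure.count_apply_finset, smul_eq_mul, mul_comm, div_eq_mul_inv]

theorem U_fiber (e : Fin 4 → Bool) (b : Bool) :
    U {a | e a = b} = (Finset.univ.filter fun a => e a = b).card / 4 := by
  rw [← U_apply]; simp

theorem U_e1 (b : Bool) : U {a | e1 a = b} ≤ 3 / 4 := by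
  rw [U_fiber]
  gcongr
  have : (Finset.univ.filter fun a => e1 a = b).card ≤ 3 := by cases b <;> decide
  exact_mod_cast this

theorem U_e2 (b : Bool) : U {a | e2 a = b} ≤ 2⁻¹ := by
  rw [U_fiber]
  have : (Finset.univ.filter fun a => e2 a = b).card = 2 := by cases b <;> decide
  rw [this, show (4 : ℝ≥0∞) = 2 * 2 by norm_num, ENNReal.div_le_iff (by simp) (by simp [ENNReal.mul_eq_top]),
    ← mul_assoc, ENNReal.inv_mul_cancel (by simp) (by simp)]
  simp

theorem cyl {e : Fin 4 → Bool} {q : ℝ≥0∞} (he : ∀ b, U {a | e a = b} ≤ q) (j k : ℕ)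
    (s : ℕ → Bool) : P {ω | ∀ i ∈ Finset.Ico j (j + k), e (ω i) = s i} ≤ q ^ k := by
  have : {ω : ℕ → Fin 4 | ∀ i ∈ Finset.Ico j (j + k), e (ω i) = s i} =
      Set.pi (Finset.Ico j (j + k)) fun i => {a | e a = s i} := by
    ext ω; simp [Set.mem_pi]
  rw [this, P, Measure.infinitePi_pi _ fun i _ => MeasurableSet.of_discrete]
  refine (Finset.prod_le_pow_card _ _ _ fun i _ => he _).trans ?_
  simp

theorem le_zero_of_pow {x q : ℝ≥0∞} (hq : q < 1) (h : ∀ k : ℕ, x ≤ q ^ k) : x = 0 :=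
  le_zero_iff.1 (ge_of_tendsto' (ENNReal.tendsto_pow_atTop_nhds_zero_of_lt_one hq) h)

def Ph (e : Fin 4 → Bool) (ω : ℕ → Fin 4) : ℂ := cod 0 (e ∘ ω)

theorem continuous_Ph (e : Fin 4 → Bool) : Continuous (Ph e) :=
  Complex.continuous_ofReal.comp ((continuous_cod 0).comp (continuous_comp e))

theorem noAtoms {e : Fin 4 → Bool} {q : ℝ≥0∞} (hq : q < 1) (he : ∀ b, U {a | e a = b} ≤ q) :
    NullSingletonClass (P.map (Ph e)) := by
  refine ⟨fun z => ?_⟩
  rw [Measure.map_apply (continuous_Ph e).measurable (measurableSet_singleton z)]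
  rcases (Ph e ⁻¹' {z}).eq_empty_or_nonempty with h | ⟨ω0, h0⟩
  · simp [h]
  refine le_zero_of_pow hq fun k => (measure_mono fun ω hω i _ => ?_).trans (cyl he 0 k (e ∘ ω0))
  have : Ph e ω = Ph e ω0 := hω.trans h0.symm
  exact congrFun (cod_injective (Complex.ofReal_injective this)) i

def Ag (j k : ℕ) : Set ((ℕ → Fin 4) × (ℕ → Fin 4)) :=
  {p | ∀ i ∈ Finset.Ico j (j + k), e2 (p.2 i) = e2 (p.1 i)}

theorem measurableSet_Ag (j k : ℕ) : MeasurableSet (Ag j k) := by
  unfold Ag
  measurability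

theorem measure_Ag (j k : ℕ) : (P.prod P) (Ag j k) ≤ 2⁻¹ ^ k := by
  rw [Measure.prod_apply (measurableSet_Ag j k)]
  refine (lintegral_mono fun ω => cyl U_e2 j k (e2 ∘ ω)).trans ?_
  simp

def D (j : ℕ) (p : (ℕ → Fin 4) × (ℕ → Fin 4)) : ℝ :=
  Real.log |cod j (e2 ∘ p.1) - cod j (e2 ∘ p.2)|

theorem measurable_D (j : ℕ) : Measurable (D j) :=
  Real.measurable_log.comp
    ((((continuous_cod j).comp (continuous_comp e2)).comp continuous_fst).sub
      (((continuous_cod j).comp (continuous_comp e2)).comp continuous_snd)).abs.measurable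

theorem D_le (j : ℕ) (p : (ℕ → Fin 4) × (ℕ → Fin 4)) : ‖D j p‖ₑ ≤ ENNReal.ofReal (j + 6) *
    (1 + ∑' k : ℕ, (Ag j k).indicator (fun _ => ENNReal.ofReal (k ^ 2)) p) := by
  by_cases h : ∃ k, e2 (p.2 (j + k)) ≠ e2 (p.1 (j + k))
  swap
  · push Not at h
    rw [D, cod_congr j (s := e2 ∘ p.1) (s' := e2 ∘ p.2) fun i hi => by
      have := h (i - j); rw [Nat.add_sub_cancel' hi] at this; exact this.symm]
    simp
  classical
  set k := Nat.find h with hk
  have h1 := sep k j (s := e2 ∘ p.1) (s' := e2 ∘ p.2) (Nat.find_spec h).symm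
  have h2 : p ∈ Ag j k := fun i hi => by
    rw [Finset.mem_Ico] at hi
    have := Nat.find_min h (m := i - j) (by omega)
    rwa [Nat.add_sub_cancel' hi.1, not_not] at this
  have hpos : 0 < |cod j (e2 ∘ p.1) - cod j (e2 ∘ p.2)| := by
    by_contra h0
    rw [le_antisymm (not_lt.1 h0) (abs_nonneg _), mul_zero] at h1
    linarith
  have l2 : Real.log 2 ≤ 1 := by linarith [Real.log_two_lt_d9]
  have h3 : D j p ≤ j + 5 := by
    have : |cod j (e2 ∘ p.1) - cod j (e2 ∘ p.2)| ≤ 2 ^ (j + 5) :=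
      (abs_sub _ _).trans ((add_le_add (cod_le _ _) (cod_le _ _)).trans_eq (by ring))
    refine (Real.log_le_log hpos this).trans ?_
    rw [Real.log_pow]; push_cast
    exact mul_le_of_le_one_right (by positivity) l2
  have h4 : -(k * (j + k + 5) : ℝ) ≤ D j p := by
    have := Real.log_nonneg h1
    rw [Real.log_mul (by positivity) hpos.ne', Real.log_pow] at this
    push_cast at this
    have h5 : (k * (j + k + 5) : ℝ) * Real.log 2 ≤ k * (j + k + 5) :=
      mul_le_of_le_one_right (by positivity) l2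
    unfold D; linarith
  have h5 : |D j p| ≤ (j + 6) * (1 + k ^ 2) := by
    have hj : (0 : ℝ) ≤ j := Nat.cast_nonneg j
    have hk2 : (k : ℝ) ≤ k ^ 2 := by exact_mod_cast Nat.le_self_pow two_ne_zero k
    rw [abs_le]
    constructor <;> nlinarith [sq_nonneg (k : ℝ)]
  calc ‖D j p‖ₑ = ENNReal.ofReal |D j p| := by rw [← Real.norm_eq_abs, ofReal_norm]
    _ ≤ ENNReal.ofReal ((j + 6) * (1 + k ^ 2)) := ENNReal.ofReal_le_ofReal h5
    _ = ENNReal.ofReal (j + 6) * (1 + ENNReal.ofReal (k ^ 2)) := by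
        rw [ENNReal.ofReal_mul (by positivity), ENNReal.ofReal_add zero_le_one (by positivity),
          ENNReal.ofReal_one]
    _ ≤ _ := by
        gcongr
        refine le_trans ?_ (ENNReal.le_tsum k)
        rw [indicator_of_mem h2]

theorem D_bound : ∃ C : ℝ, 0 ≤ C ∧ ∀ j : ℕ,
    ∫⁻ p, ‖D j p‖ₑ ∂(P.prod P) ≤ ENNReal.ofReal ((j + 6) * C) := by
  have hs := summable_pow_mul_geometric_of_norm_lt_one 2 (r := (2⁻¹ : ℝ)) (by norm_num)
  have h0 : 0 ≤ ∑' k : ℕ, (k : ℝ) ^ 2 * 2⁻¹ ^ k := tsum_nonneg fun k => by positivity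
  refine ⟨1 + ∑' k : ℕ, (k : ℝ) ^ 2 * 2⁻¹ ^ k, by positivity, fun j => ?_⟩
  refine (lintegral_mono (D_le j)).trans ?_
  rw [lintegral_const_mul' _ _ ENNReal.ofReal_ne_top, lintegral_add_left measurable_const,
    lintegral_tsum fun k => (measurable_const.indicator (measurableSet_Ag j k)).aemeasurable,
    ENNReal.ofReal_mul (by positivity), ENNReal.ofReal_add zero_le_one h0,
    ENNReal.ofReal_tsum_of_nonneg (fun k => by positivity) hs]
  gcongr with k
  · simp
  · rw [lintegral_indicator_const (measurableSet_Ag j k), ENNReal.ofReal_mul (by positivity)]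
    gcongr
    refine (measure_Ag j k).trans (le_of_eq ?_)
    rw [ENNReal.ofReal_pow (by norm_num), ENNReal.ofReal_inv_of_pos (by norm_num)]
    simp

theorem integrable_D (j : ℕ) : Integrable (D j) (P.prod P) := by
  obtain ⟨C, -, hC⟩ := D_bound
  exact ⟨(measurable_D j).aestronglyMeasurable, (hC j).trans_lt ENNReal.ofReal_lt_top⟩

theorem D_rec (j : ℕ) : ∫ p, D j p ∂(P.prod P) = (∫ p, D (j + 1) p ∂(P.prod P)) / 2 := by
  rw [avg (t := fun c => Prod.map (tau j c) id)
    (fun c => (tau_mp j c).prod (MeasurePreserving.id P)) (integrable_D j), ← integral_div]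
  refine integral_congr_ae ?_
  have h0 : (P.prod P) (⋂ k, Ag (j + 1) k) = 0 :=
    le_zero_of_pow (by simp) fun k => (measure_mono (iInter_subset _ k)).trans (measure_Ag _ k)
  filter_upwards [compl_mem_ae_iff.2 h0] with p hp
  simp only [mem_compl_iff, mem_iInter, Ag, mem_ofPred_eq, not_forall] at hp
  obtain ⟨k, i, hi, hne⟩ := hp
  have h1 := cod_ne (Finset.mem_Ico.1 hi).1 (s := e2 ∘ p.1) (s' := e2 ∘ p.2) (Ne.symm hne)
  have h2 : cod (j + 1) (e2 ∘ p.1) - cod (j + 1) (e2 ∘ p.2) =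
      -((zeta j (e2 ∘ p.1) - cod j (e2 ∘ p.2)) * (-zeta j (e2 ∘ p.1) - cod j (e2 ∘ p.2))) := by
    linear_combination cod_sq j (e2 ∘ p.2) - zeta_sq j (e2 ∘ p.1)
  have h3 := sub_ne_zero.2 h1
  rw [h2, neg_ne_zero, mul_ne_zero_iff] at h3
  have h4 : ∑ c, D j (Prod.map (tau j c) id p) =
      2 * Real.log |zeta j (e2 ∘ p.1) - cod j (e2 ∘ p.2)| +
      2 * Real.log |-zeta j (e2 ∘ p.1) - cod j (e2 ∘ p.2)| := by
    simp only [D, Prod.map_fst, Prod.map_snd, id_eq, cod_tau, Fin.sum_univ_four]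
    generalize p.1 j = a
    fin_cases a <;> simp [e2, sg] <;> ring
  rw [h4, D, h2, abs_neg, abs_mul, Real.log_mul (abs_ne_zero.2 h3.1) (abs_ne_zero.2 h3.2)]
  ring

theorem D_zero : ∫ p, D 0 p ∂(P.prod P) = 0 := by
  obtain ⟨C, hC0, hC⟩ := D_bound
  have h1 : ∀ j : ℕ, ∫ p, D 0 p ∂(P.prod P) = (∫ p, D j p ∂(P.prod P)) / 2 ^ j := by
    intro j
    induction j with
    | zero => simp
    | succ j ih => rw [ih, D_rec, pow_succ]; ring
  have h2 : ∀ j : ℕ, ‖∫ p, D 0 p ∂(P.prod P)‖ ≤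
      C * ((j : ℝ) ^ 1 / 2 ^ j) + 6 * C * ((j : ℝ) ^ 0 / 2 ^ j) := by
    intro j
    have := enorm_integral_le_lintegral_enorm (μ := P.prod P) (D j) |>.trans (hC j)
    rw [← ofReal_norm, ENNReal.ofReal_le_ofReal_iff (by positivity)] at this
    rw [h1 j, norm_div, norm_pow, Real.norm_ofNat]
    calc _ ≤ (j + 6) * C / 2 ^ j := by gcongr
      _ = _ := by ring
  have h3 := ((tendsto_pow_const_div_const_pow_of_one_lt 1 (r := 2) (by norm_num)).const_mul C).add
    ((tendsto_pow_const_div_const_pow_of_one_lt 0 (r := 2) (by norm_num)).const_mul (6 * C))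
  simp only [mul_zero, add_zero] at h3
  exact norm_le_zero_iff.1 (ge_of_tendsto' h3 h2)

theorem freq (e : Fin 4 → Bool) : ∀ᵐ ω ∂P, Tendsto
    (fun n : ℕ => (∑ i ∈ Finset.range n, sg (e (ω i))) / n) atTop (𝓝 ((∑ a, sg (e a)) / 4)) := by
  have hm : Measurable fun a => sg (e a) := Measurable.of_discrete
  have hmp := fun i => measurePreserving_eval_infinitePi (fun _ : ℕ => U) i
  have := strong_law_ae_real (μ := P) (fun i ω => sg (e (ω i)))
    ((hmp 0).integrable_comp_of_integrable (g := fun a => sg (e a)) .of_finite)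
    (fun i j h => (iIndepFun_infinitePi (P := fun _ : ℕ => U) (X := fun _ a => sg (e a))
      fun _ => hm).indepFun h)
    (fun i => (IdentDistrib.comp (u := fun a => sg (e a))
      ⟨(hmp i).measurable.aemeasurable, (hmp 0).measurable.aemeasurable,
        (hmp i).map_eq.trans (hmp 0).map_eq.symm⟩ hm))
  have h2 : ∫ ω, sg (e (ω 0)) ∂P = (∑ a, sg (e a)) / 4 := by
    have h3 := integral_map (μ := P) (hmp 0).measurable.aemeasurable hm.aestronglyMeasurable
    rw [show P.map (Function.eval 0) = U from (hmp 0).map_eq] at h3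
    refine h3.symm.trans ?_
    rw [U, integral_smul_measure, integral_count]
    simp [div_eq_inv_mul]
  rwa [h2] at this

theorem singular : (P.map (Ph e1)).MutuallySingular (P.map (Ph e2)) := by
  have hc : Continuous fun s => (cod 0 s : ℂ) := Complex.continuous_ofReal.comp (continuous_cod 0)
  have he : MeasurableEmbedding fun s => (cod 0 s : ℂ) :=
    (hc.isClosedEmbedding (Complex.ofReal_injective.comp cod_injective)).measurableEmbedding
  have hm : ∀ e, P.map (Ph e) = (P.map fun ω => e ∘ ω).map fun s => (cod 0 s : ℂ) := fun e => by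
    rw [Measure.map_map hc.measurable (continuous_comp e).measurable]; rfl
  rw [hm, hm]
  refine he.mutuallySingular_map ?_
  have hS : MeasurableSet {s : ℕ → Bool | Tendsto
      (fun n : ℕ => (∑ i ∈ Finset.range n, sg (s i)) / n) atTop (𝓝 0)} :=
    measurableSet_tendsto _ fun n => (Finset.measurable_fun_sum _ fun i _ =>
      (Measurable.of_discrete (f := sg)).comp (measurable_pi_apply i)).div_const _
  refine ⟨_, hS, ?_, ?_⟩
  · rw [Measure.map_apply (continuous_comp e1).measurable hS, ← compl_mem_ae_iff]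
    filter_upwards [freq e1] with ω hω h
    have := tendsto_nhds_unique hω h
    simp [Fin.sum_univ_four, e1, sg] at this
  · rw [Measure.map_apply (continuous_comp e2).measurable hS.compl, preimage_compl,
      ← mem_ae_iff]
    filter_upwards [freq e2] with ω hω
    simpa [Fin.sum_univ_four, e2, sg] using hω

theorem full_support {V : Set (ℕ → Fin 4)} (hV : IsOpen V) {ω : ℕ → Fin 4} (hω : ω ∈ V) :
    0 < P V := by
  obtain ⟨I, u, h1, h2⟩ := isOpen_pi_iff.1 hV ω hω
  refine lt_of_lt_of_le ?_ (measure_mono h2)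
  rw [P, Measure.infinitePi_pi _ fun i _ => MeasurableSet.of_discrete, pos_iff_ne_zero,
    Finset.prod_ne_zero_iff]
  intro i hi h
  have := measure_mono_null (singleton_subset_iff.2 (h1 i hi).2) h
  simp [U] at this

end Pool.Agent.H99.Widom
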