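import Mathlib

set_option autoImplicit false

namespace Pool.Agent.H99.Witness

open Matrix
open scoped ComplexOrder Kronecker

/-- Operators on three qubits. -/
abbrev Op := Matrix (Fin 2 × Fin 2 × Fin 2) (Fin 2 × Fin 2 × Fin 2) ℂ

/-- A state: positive semidefinite with trace one. -/
def IsState {n : Type} [Fintype n] (ρ : Matrix n n ℂ) : Prop := ρ.PosSemidef ∧ ρ.trace = 1

/-- Separable states: the convex hull of the product states. -/
def SepSt : Set Op := convexHull ℝ {σ | ∃ a b c : Matrix (Fin 2) (Fin 2) ℂ,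
  IsState a ∧ IsState b ∧ IsState c ∧ σ = a ⊗ₖ (b ⊗ₖ c)}

/-- Entanglement witness. -/
def IsEW (W : Op) : Prop :=
  W.IsHermitian ∧ (∀ σ ∈ SepSt, 0 ≤ (W * σ).trace.re) ∧ ∃ ρ : Op, IsState ρ ∧ (W * ρ).trace.re < 0

/-- Optimal entanglement witness. -/
def IsOptimalEW (W : Op) : Prop :=
  IsEW W ∧ ¬ ∃ (ε : ℝ) (P : Op), 0 < ε ∧ P.PosSemidef ∧ P ≠ 0 ∧ IsEW (W - (ε : ℂ) • P)

end Pool.Agent.H99.Witness
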