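import Mathlib

/-! Frostman's inequality on the real line for energy minimisers. -/

open Filter Topology Set MeasureTheory
open scoped ENNReal

noncomputable section

namespace Pool.Agent.H99.Wp

theorem variation {X : Type*} [MeasurableSpace X] (μ : Measure X) [IsProbabilityMeasure μ]
    {k : X → X → ℝ≥0∞} (hk : Measurable (Function.uncurry k)) (hs : ∀ x y, k x y = k y x)
    (hE : ∫⁻ x, ∫⁻ y, k x y ∂μ ∂μ < ⊤)
    (hmin : ∀ ν : Measure X, IsProbabilityMeasure ν → ν ≪ μ →
      ∫⁻ x, ∫⁻ y, k x y ∂μ ∂μ ≤ ∫⁻ x, ∫⁻ y, k x y ∂ν ∂ν) :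
    ∀ᵐ x ∂μ, ∫⁻ y, k x y ∂μ ≤ ∫⁻ x, ∫⁻ y, k x y ∂μ ∂μ := by
  set E := ∫⁻ x, ∫⁻ y, k x y ∂μ ∂μ with hE0
  have hU : ∀ ρ : Measure X, SFinite ρ → Measurable fun x => ∫⁻ y, k x y ∂ρ :=
    fun ρ _ => hk.lintegral_prod_right
  set N := {x | E < ∫⁻ y, k x y ∂μ} with hN
  have hNm : MeasurableSet N := measurableSet_lt measurable_const (hU μ inferInstance)
  by_contra hcon
  have hN0 : μ N ≠ 0 := fun h => hcon (by
    rw [ae_iff]
    simpa only [not_le] using h)
  set a := ∫⁻ x in Nᶜ, ∫⁻ y, k x y ∂μ ∂μ with ha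
  have h1 : E * μ N < ∫⁻ x in N, ∫⁻ y, k x y ∂μ ∂μ := by
    rw [← setLIntegral_const]
    exact setLIntegral_strict_mono hNm hN0 (hU μ inferInstance)
      (by rw [setLIntegral_const]; exact ENNReal.mul_ne_top hE.ne (measure_ne_top _ _))
      (Eventually.of_forall fun x hx => hx)
  have h2 : (∫⁻ x in N, ∫⁻ y, k x y ∂μ ∂μ) + a = E := lintegral_add_compl _ hNm
  have haE : a ≤ E := h2 ▸ le_add_self
  have ha1 : a ≠ ⊤ := (haE.trans_lt hE).ne
  have h3 : a < E * μ Nᶜ := by
    by_contra h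
    have := ENNReal.add_lt_add_of_lt_of_le (ENNReal.mul_ne_top hE.ne (measure_ne_top _ _)) h1
      (not_lt.1 h)
    rw [h2, ← mul_add, measure_add_measure_compl hNm, measure_univ, mul_one] at this
    exact lt_irrefl _ this
  obtain ⟨m, hm⟩ : ∃ m : NNReal, (m : ℝ≥0∞) = μ Nᶜ := ⟨_, ENNReal.coe_toNNReal (measure_ne_top _ _)⟩
  obtain ⟨e, he⟩ : ∃ m : NNReal, (m : ℝ≥0∞) = E := ⟨_, ENNReal.coe_toNNReal hE.ne⟩
  obtain ⟨b, hb⟩ : ∃ m : NNReal, (m : ℝ≥0∞) = a := ⟨_, ENNReal.coe_toNNReal ha1⟩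
  rw [← hm, ← he, ← hb] at h3
  have h4 : (b : ℝ) < e * m := by exact_mod_cast h3
  have hb0 : (0 : ℝ) ≤ b := b.2
  have he0 : (0 : ℝ) ≤ e := e.2
  have hm0 : (0 : ℝ) < m := lt_of_le_of_ne m.2 fun h => by rw [← h] at h4; linarith
  have key : ∀ α β : NNReal, α + β * m = 1 →
      (e : ℝ) ≤ α * (α * e + β * b) + β * (α * b + β * e) := by
    intro α β hαβ
    have h5 := hmin (α • μ + β • μ.restrict Nᶜ) ⟨by
      rw [Measure.add_apply, Measure.smul_apply, Measure.smul_apply, measure_univ,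
        Measure.restrict_apply_univ, ← hm, ENNReal.smul_def, ENNReal.smul_def, smul_eq_mul,
        smul_eq_mul, mul_one]
      exact_mod_cast hαβ⟩
      (Measure.AbsolutelyContinuous.add_left (Measure.smul_absolutelyContinuous)
        (Measure.smul_absolutelyContinuous.trans Measure.absolutelyContinuous_restrict))
    have hin : ∀ ρ : Measure X, ∫⁻ x, ∫⁻ y, k x y ∂(α • μ + β • μ.restrict Nᶜ) ∂ρ =
        α * ∫⁻ x, ∫⁻ y, k x y ∂μ ∂ρ + β * ∫⁻ x, ∫⁻ y in Nᶜ, k x y ∂μ ∂ρ := fun ρ => by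
      simp only [lintegral_add_measure, lintegral_smul_measure, ENNReal.smul_def, smul_eq_mul]
      rw [lintegral_add_left ((hU μ inferInstance).const_mul _),
        lintegral_const_mul _ (hU μ inferInstance), lintegral_const_mul _ (hU _ inferInstance)]
    have hsw : ∫⁻ x, ∫⁻ y in Nᶜ, k x y ∂μ ∂μ = a := by
      rw [lintegral_lintegral_swap hk.aemeasurable]
      simp only [ha, hs]
    have hc : ∫⁻ x in Nᶜ, ∫⁻ y in Nᶜ, k x y ∂μ ∂μ ≤ E :=
      (lintegral_mono fun x => setLIntegral_le_lintegral _ _).trans haE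
    rw [lintegral_add_measure, lintegral_smul_measure, lintegral_smul_measure, hin, hin, hsw,
      ← ha, ← hE0] at h5
    have h6 : E ≤ α * (α * E + β * a) + β * (α * a + β * E) := by
      refine h5.trans ?_
      simp only [ENNReal.smul_def, smul_eq_mul]
      gcongr
    rw [← he, ← hb] at h6
    exact_mod_cast h6
  set d : ℝ := e * m - b with hd
  have hd0 : 0 < d := by linarith
  set s : ℝ := min (1 / (2 * m)) (d / (e + 1)) with hs0
  have s0 : 0 < s := lt_min (by positivity) (by positivity)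
  have s1 : s * m ≤ 1 / 2 := by
    have := min_le_left (1 / (2 * (m : ℝ))) (d / (e + 1))
    rw [le_div_iff₀ (by positivity)] at this
    linarith
  have s2 : s * (e + 1) ≤ d := (le_div_iff₀ (by positivity)).1 (min_le_right _ _)
  have h7 : (e : ℝ) ≤ (1 - s * m) * ((1 - s * m) * e + s * b) + s * ((1 - s * m) * b + s * e) :=
    key ⟨1 - s * m, by linarith⟩ ⟨s, s0.le⟩ (NNReal.eq (sub_add_cancel 1 (s * m)))
  have h8 : (b : ℝ) = e * m - d := by linarith
  rw [h8] at h7
  have h9 : s * (2 * (1 - s * m) * d + s * m * m * e) ≤ s * (s * e) := by nlinarith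
  have h10 := le_of_mul_le_mul_left h9 s0
  have : 0 ≤ s * m * m * e := by positivity
  nlinarith

def kk (D x y : ℝ) : ℝ≥0∞ := if x = y then ⊤ else ENNReal.ofReal (Real.log (D / |x - y|))

theorem measurable_kk (D : ℝ) : Measurable (Function.uncurry (kk D)) := by
  refine Measurable.ite (measurableSet_eq_fun measurable_fst measurable_snd) measurable_const ?_
  fun_prop

/-- The logarithmic potential at `a` is integrable with mean at least `c`. -/
def Gd (μ : Measure ℝ) (c : ℝ) (a : ℂ) : Prop :=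
  Integrable (fun x : ℝ => Real.log ‖x - a‖) μ ∧ c ≤ ∫ x : ℝ, Real.log ‖x - a‖ ∂μ

theorem Gd.of_le {μ : Measure ℝ} [IsProbabilityMeasure μ] {K : Set ℝ} (hK : IsCompact K)
    (hμ : μ Kᶜ = 0) {c : ℝ} {a : ℂ} {f : ℝ → ℝ} (hf : Integrable f μ) (hc : c ≤ ∫ x, f x ∂μ)
    (h : ∀ᵐ x : ℝ ∂μ, f x ≤ Real.log ‖x - a‖) : Gd μ c a := by
  obtain ⟨R, hR⟩ := hK.exists_bound_of_continuousOn (f := fun x : ℝ => (x : ℂ) - a) (by fun_prop)
  have hi : Integrable (fun x : ℝ => Real.log ‖x - a‖) μ := by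
    refine integrable_of_le_of_le (Measurable.aestronglyMeasurable (by fun_prop)) h ?_ hf (integrable_const R)
    filter_upwards [show ∀ᵐ x ∂μ, x ∈ K from hμ] with x hx
    exact (Real.log_le_self (norm_nonneg _)).trans (hR x hx)
  exact ⟨hi, hc.trans (integral_mono_ae hf hi h)⟩

theorem frostman {K : Set ℝ} (hK : IsCompact K) {D : ℝ} (hD : Metric.diam K < D)
    (μ : Measure ℝ) [IsProbabilityMeasure μ] (hμ : μ Kᶜ = 0)
    (hE : ∫⁻ x, ∫⁻ y, kk D x y ∂μ ∂μ < ⊤)
    (hmin : ∀ ν : Measure ℝ, IsProbabilityMeasure ν → ν Kᶜ = 0 →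
      ∫⁻ x, ∫⁻ y, kk D x y ∂μ ∂μ ≤ ∫⁻ x, ∫⁻ y, kk D x y ∂ν ∂ν) :
    (∀ a : ℝ, μ {a} = 0) ∧
      ∀ a, Gd μ (Real.log D - (∫⁻ x, ∫⁻ y, kk D x y ∂μ ∂μ).toReal) a := by
  have hv := variation μ (measurable_kk D) (fun x y => by simp [kk, eq_comm, abs_sub_comm]) hE
    fun ν h1 h2 => hmin ν h1 (h2 hμ)
  set E := ∫⁻ x, ∫⁻ y, kk D x y ∂μ ∂μ with hE0
  have hkm : ∀ a, Measurable (kk D a) := fun a => (measurable_kk D).of_uncurry_left
  have hat : ∀ a : ℝ, μ {a} = 0 := by
    intro a
    by_contra h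
    have h1 := (ae_iff.1 hv)
    have h2 : ∫⁻ y, kk D a y ∂μ ≤ E := by
      by_contra h3
      exact h (measure_mono_null (by rintro _ rfl; exact h3) h1)
    have h4 := (setLIntegral_le_lintegral {a} (kk D a)).trans h2
    rw [lintegral_singleton, kk, if_pos rfl, ENNReal.top_mul h] at h4
    exact hE.ne (top_le_iff.1 h4)
  have hne : ∀ a : ℝ, ∀ᵐ x ∂μ, x ≠ a := fun a => by
    rw [ae_iff]
    simpa using hat a
  refine ⟨hat, ?_⟩
  set S := closure (K ∩ {x | ∫⁻ y, kk D x y ∂μ ≤ E}) with hS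
  have hSK : S ⊆ K := closure_minimal inter_subset_left hK.isClosed
  have hSc : IsCompact S := hK.of_isClosed_subset isClosed_closure hSK
  have hSae : ∀ᵐ x ∂μ, x ∈ S := by
    filter_upwards [show ∀ᵐ x ∂μ, x ∈ K from hμ, hv] with x h1 h2
    exact subset_closure ⟨h1, h2⟩
  have hD0 : 0 < D := Metric.diam_nonneg.trans_lt hD
  have hSU : ∀ a ∈ S, ∫⁻ y, kk D a y ∂μ ≤ E := by
    intro a ha
    obtain ⟨u, hu, hlim⟩ := mem_closure_iff_seq_limit.1 ha
    calc _ = ∫⁻ y, liminf (fun n => kk D (u n) y) atTop ∂μ := by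
          refine lintegral_congr_ae ?_
          filter_upwards [hne a] with y hy
          refine (Tendsto.liminf_eq ?_).symm
          have h1 : ContinuousAt (fun x => ENNReal.ofReal (Real.log (D / |x - y|))) a := by
            have : |a - y| ≠ 0 := abs_ne_zero.2 (sub_ne_zero.2 hy.symm)
            refine ENNReal.continuous_ofReal.continuousAt.comp (ContinuousAt.log ?_ ?_)
            · fun_prop (disch := assumption)
            · positivity
          rw [kk, if_neg hy.symm]
          refine (h1.tendsto.comp hlim).congr' ?_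
          filter_upwards [hlim.eventually_ne hy.symm] with n hn
          simp [kk, hn]
      _ ≤ _ := lintegral_liminf_le fun n => hkm _
      _ ≤ E := liminf_le_of_frequently_le' (Frequently.of_forall fun n => (hu n).2)
  set c := Real.log D - E.toReal
  have nrm : ∀ x a : ℝ, ‖(x : ℂ) - a‖ = |x - a| := fun x a => by
    rw [← Complex.ofReal_sub, Complex.norm_real, Real.norm_eq_abs]
  have g1 : ∀ a ∈ S, Gd μ c a := by
    intro a ha
    have h1 := (hSU a ha).trans_lt hE
    have h2 := integrable_toReal_of_lintegral_ne_top (hkm a).aemeasurable h1.ne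
    refine Gd.of_le hK hμ (f := fun y => Real.log D - (kk D a y).toReal)
      ((integrable_const _).sub h2) ?_ ?_
    · rw [integral_sub (integrable_const _) h2, integral_toReal (hkm a).aemeasurable
        (ae_lt_top (hkm a) h1.ne)]
      simp only [integral_const, probReal_univ, one_smul]
      exact sub_le_sub_left (ENNReal.toReal_mono hE.ne (hSU a ha)) _
    · filter_upwards [hne a] with y hy
      have : 0 < |a - y| := abs_pos.2 (sub_ne_zero.2 hy.symm)
      rw [kk, if_neg hy.symm, ENNReal.toReal_ofReal', Real.log_div hD0.ne' this.ne', nrm,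
        abs_sub_comm y]
      linarith [le_max_left (Real.log D - Real.log |a - y|) 0]
  have hSne : S.Nonempty := hSae.exists
  have one : ∀ (a b : ℝ), Gd μ c b → (∀ x ∈ S, |x - b| ≤ |x - a|) → Gd μ c a := by
    intro a b hb h
    refine Gd.of_le hK hμ hb.1 hb.2 ?_
    filter_upwards [hSae, hne b] with x h1 h2
    rw [nrm, nrm]
    exact Real.log_le_log (abs_pos.2 (sub_ne_zero.2 h2)) (h x h1)
  have g2 : ∀ a : ℝ, Gd μ c a := by
    intro a
    by_cases haS : a ∈ S
    · exact g1 a haS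
    by_cases h1 : (S ∩ Iic a).Nonempty
    swap
    · obtain ⟨b, hb, hm⟩ := hSc.exists_isLeast hSne
      have hab : a ≤ b := le_of_not_ge fun h => h1 ⟨b, hb, h⟩
      refine one a b (g1 b hb) fun x hx => ?_
      have := hm hx
      rw [abs_of_nonneg (by linarith), abs_of_nonneg (by linarith)]
      linarith
    by_cases h2 : (S ∩ Ici a).Nonempty
    swap
    · obtain ⟨b, hb, hm⟩ := hSc.exists_isGreatest hSne
      have hab : b ≤ a := le_of_not_ge fun h => h2 ⟨b, hb, h⟩
      refine one a b (g1 b hb) fun x hx => ?_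
      have := hm hx
      rw [abs_of_nonpos (by linarith), abs_of_nonpos (by linarith)]
      linarith
    obtain ⟨α, ⟨hα, hα1⟩, hαm⟩ := (hSc.inter_right isClosed_Iic).exists_isGreatest h1
    obtain ⟨β, ⟨hβ, hβ1⟩, hβm⟩ := (hSc.inter_right isClosed_Ici).exists_isLeast h2
    have hαa : α < a := lt_of_le_of_ne hα1 fun h => haS (h ▸ hα)
    have hβa : a < β := lt_of_le_of_ne hβ1 fun h => haS (h ▸ hβ)
    have hl : 0 < β - α := by linarith
    have t0 : 0 ≤ (β - a) / (β - α) := div_nonneg (by linarith) hl.le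
    have t1 : 0 ≤ (a - α) / (β - α) := div_nonneg (by linarith) hl.le
    have t2 : (β - a) / (β - α) + (a - α) / (β - α) = 1 := by field_simp; ring
    obtain ⟨i1, j1⟩ := g1 α hα
    obtain ⟨i2, j2⟩ := g1 β hβ
    refine Gd.of_le hK hμ ((i1.const_mul ((β - a) / (β - α))).add
      (i2.const_mul ((a - α) / (β - α)))) ?_ ?_
    · simp only [Pi.add_apply]
      rw [integral_add (i1.const_mul _) (i2.const_mul _), integral_const_mul, integral_const_mul]
      calc c = (β - a) / (β - α) * c + (a - α) / (β - α) * c := by rw [← add_mul, t2, one_mul]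
        _ ≤ _ := by gcongr
    · filter_upwards [hSae, hne α, hne β] with x hx h3 h4
      have h5 := strictConcaveOn_log_Ioi.concaveOn.2 (abs_pos.2 (sub_ne_zero.2 h3))
        (abs_pos.2 (sub_ne_zero.2 h4)) t0 t1 t2
      simp only [Pi.add_apply, nrm]
      refine h5.trans_eq (congrArg _ ?_)
      simp only [smul_eq_mul]
      rcases le_total x a with h | h
      · have := hαm ⟨hx, h⟩
        rw [abs_of_nonpos (by linarith), abs_of_nonpos (by linarith), abs_of_nonpos (by linarith)]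
        field_simp
        ring
      · have := hβm ⟨hx, h⟩
        rw [abs_of_nonneg (by linarith), abs_of_nonneg (by linarith), abs_of_nonneg (by linarith)]
        field_simp
        ring
  intro a
  refine Gd.of_le hK hμ (g2 a.re).1 (g2 a.re).2 ?_
  filter_upwards [hne a.re] with x hx
  rw [nrm]
  refine Real.log_le_log (abs_pos.2 (sub_ne_zero.2 hx)) ?_
  simpa using Complex.abs_re_le_norm (x - a)

open Polynomial in
theorem jensen {μ : Measure ℝ} [IsProbabilityMeasure μ] (hat : ∀ a : ℝ, μ {a} = 0) {c : ℝ}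
    (hG : ∀ a, Gd μ c a) {p : ℂ[X]} (hp : p ≠ 0) {M : ℝ → ℝ} (hM : Integrable M μ)
    (h : ∀ᵐ x : ℝ ∂μ, ‖p.eval (x : ℂ)‖ ≤ Real.exp (M x)) :
    ‖p.leadingCoeff‖ * Real.exp c ^ p.natDegree ≤ Real.exp (∫ x, M x ∂μ) := by
  have key : ∀ s : Multiset ℂ, ∃ f : ℝ → ℝ, Integrable f μ ∧ s.card * c ≤ ∫ x, f x ∂μ ∧
      ∀ᵐ x : ℝ ∂μ, ‖(s.map fun a => (x : ℂ) - a).prod‖ = Real.exp (f x) := by
    intro s
    induction s using Multiset.induction_on with
    | empty => exact ⟨fun _ => 0, integrable_const _, by simp, by simp⟩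
    | cons a s ih =>
      obtain ⟨f, h1, h2, h3⟩ := ih
      refine ⟨fun x => Real.log ‖x - a‖ + f x, (hG a).1.add h1, ?_, ?_⟩
      · rw [integral_add (hG a).1 h1, Multiset.card_cons]
        push_cast
        linarith [(hG a).2]
      · have : ∀ᵐ x : ℝ ∂μ, x ≠ a.re := by
          rw [ae_iff]
          simpa using hat a.re
        filter_upwards [h3, this] with x h4 h5
        rw [Multiset.map_cons, Multiset.prod_cons, norm_mul, h4, Real.exp_add, Real.exp_log]
        exact norm_pos_iff.2 (sub_ne_zero.2 fun h => h5 (by simp [← h]))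
  obtain ⟨f, h1, h2, h3⟩ := key p.roots
  have hs := IsAlgClosed.splits p
  have hl : 0 < ‖p.leadingCoeff‖ := norm_pos_iff.2 (leadingCoeff_ne_zero.2 hp)
  rw [← Real.exp_log hl, ← Real.exp_nat_mul, ← Real.exp_add, Real.exp_le_exp,
    hs.natDegree_eq_card_roots]
  have h4 := integral_mono_ae ((integrable_const (Real.log ‖p.leadingCoeff‖)).add h1) hM (by
    filter_upwards [h, h3] with x h5 h6
    rw [hs.eval_eq_prod_roots, norm_mul, h6, ← Real.exp_log hl, ← Real.exp_add] at h5
    exact Real.exp_le_exp.1 h5)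
  simp only [Pi.add_apply] at h4
  rw [integral_add (integrable_const _) h1] at h4
  simp only [integral_const, probReal_univ, one_smul] at h4
  linarith

end Pool.Agent.H99.Wp
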