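import Pool.Agent.H99.Wp1
import Pool.Agent.H99.TN1

/-! A Jensen-type inequality for triangular polynomials in two variables. -/

open Filter Topology Set MeasureTheory Polynomial

noncomputable section

namespace Pool.Agent.H99.Wp

def Tri (G : ℂ[X][X]) (g : ℂ[X]) : Prop :=
  ∀ k, (G.coeff k).natDegree ≤ k ∧ (G.coeff k).coeff k = g.coeff k

theorem Tri.add {G H : ℂ[X][X]} {g h : ℂ[X]} (a : Tri G g) (b : Tri H h) : Tri (G + H) (g + h) :=
  fun k => ⟨by rw [coeff_add]; exact natDegree_add_le_of_degree_le (a k).1 (b k).1,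
    by simp only [coeff_add, (a k).2, (b k).2]⟩

theorem Tri.mul {G H : ℂ[X][X]} {g h : ℂ[X]} (a : Tri G g) (b : Tri H h) : Tri (G * H) (g * h) := by
  intro k
  rw [coeff_mul, coeff_mul, finsetSum_coeff]
  refine ⟨natDegree_sum_le_of_forall_le _ _ fun p hp => ?_, Finset.sum_congr rfl fun p hp => ?_⟩
  · rw [← Finset.HasAntidiagonal.mem_antidiagonal.1 hp]
    exact natDegree_mul_le_of_le (a _).1 (b _).1
  · rw [← Finset.HasAntidiagonal.mem_antidiagonal.1 hp,
      coeff_mul_add_eq_of_natDegree_le (a _).1 (b _).1, (a _).2, (b _).2]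

theorem tri_mono {p : ℂ[X]} {m : ℕ} (h : p.natDegree ≤ m) :
    Tri (monomial m p) (monomial m (p.coeff m)) := by
  intro k
  by_cases hk : m = k
  · subst hk
    simpa using h
  · simp [coeff_monomial, hk]

theorem tri_C (a : ℂ) : Tri (C (C a)) (C a) := by
  simpa using tri_mono (p := C a) (m := 0) (by simp)

theorem Tri.pow {G : ℂ[X][X]} {g : ℂ[X]} (a : Tri G g) (m : ℕ) : Tri (G ^ m) (g ^ m) := by
  induction m with
  | zero => simpa using tri_C 1
  | succ m ih => rw [pow_succ, pow_succ]; exact ih.mul a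

theorem tri_sum {s : Finset ℕ} {G : ℕ → ℂ[X][X]} {g : ℕ → ℂ[X]} (h : ∀ k ∈ s, Tri (G k) (g k)) :
    Tri (∑ k ∈ s, G k) (∑ k ∈ s, g k) := by
  induction s using Finset.cons_induction with
  | empty => simpa using tri_C 0
  | cons a s ha ih =>
    rw [Finset.sum_cons, Finset.sum_cons]
    exact (h a (by simp)).add (ih fun k hk => h k (by simp [hk]))

theorem coeff_le {q : ℂ[X]} {T : ℝ} (h : ∀ u : ℂ, ‖u‖ = 1 → ‖q.eval u‖ ≤ T) (k : ℕ) :
    ‖q.coeff k‖ ≤ T := by
  have h1 := Complex.norm_iteratedDeriv_le_of_forall_mem_sphere_norm_le k one_pos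
    (f := fun u => q.eval u) (c := 0) q.differentiable.diffContOnCl
    fun z hz => h z (by simpa using hz)
  rw [TN.coeff_of_hasSum (a := q.coeff) (fun z _ => by
    rw [eval_eq_sum_range]
    exact hasSum_sum_of_ne_finset_zero fun n hn => by
      rw [coeff_eq_zero_of_natDegree_lt (by simpa using hn), zero_mul]), norm_mul,
    Complex.norm_natCast, one_pow, div_one] at h1
  exact le_of_mul_le_mul_left h1 (by positivity)

variable {μ : Measure ℝ} [IsProbabilityMeasure μ] {c : ℝ}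

theorem star0 (hat : ∀ a : ℝ, μ {a} = 0) (hG : ∀ a, Gd μ c a) {G : ℂ[X][X]} {g : ℂ[X]}
    (h : Tri G g) {M : ℝ → ℝ} (hM : Integrable M μ)
    (h1 : ∀ᵐ x : ℝ ∂μ, ∀ u : ℂ, ‖u‖ = 1 → ‖G.evalEval (x : ℂ) u‖ ≤ Real.exp (M x)) :
    ‖g.eval (Real.exp c : ℂ)‖ ≤ (g.natDegree + 1) * Real.exp (∫ x, M x ∂μ) := by
  rw [eval_eq_sum_range]
  refine (norm_sum_le_of_le _ (n := fun _ => Real.exp (∫ x, M x ∂μ)) fun k _ => ?_).trans_eq
    (by simp)
  by_cases h2 : g.coeff k = 0
  · simpa [h2] using (Real.exp_pos _).le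
  rw [← (h k).2] at h2 ⊢
  have h3 : (G.coeff k).natDegree = k := le_antisymm (h k).1 (le_natDegree_of_ne_zero h2)
  have h4 := jensen hat hG (p := G.coeff k) (fun h => h2 (by simp [h])) hM (by
    filter_upwards [h1] with x hx
    simpa using coeff_le (q := G.map (evalRingHom x))
      (fun u hu => by rw [map_evalRingHom_eval]; exact hx u hu) k)
  rwa [leadingCoeff, h3, ← Real.abs_exp c, ← Real.norm_eq_abs, ← Complex.norm_real, ← norm_pow,
    ← norm_mul] at h4

theorem star (hat : ∀ a : ℝ, μ {a} = 0) (hG : ∀ a, Gd μ c a) {K : Set ℝ} (hK : IsCompact K)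
    (hμ : μ Kᶜ = 0) {G : ℂ[X][X]} {g : ℂ[X]} (h : Tri G g) {M : ℝ → ℝ} (hM : Integrable M μ)
    (h1 : ∀ (x : ℝ) (u : ℂ), ‖u‖ = 1 → (G.evalEval (x : ℂ) u).re ≤ M x) :
    (g.eval (Real.exp c : ℂ)).re ≤ ∫ x, M x ∂μ := by
  obtain ⟨L, hL⟩ := (hK.prod (isCompact_sphere (0 : ℂ) 1)).exists_bound_of_continuousOn
    (f := fun p : ℝ × ℂ => G.evalEval (p.1 : ℂ) p.2) (Continuous.continuousOn (by
      have : ∀ x u : ℂ, G.evalEval x u =
          ∑ k ∈ Finset.range (G.natDegree + 1), (G.coeff k).eval x * u ^ k := fun x u => by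
        rw [← map_evalRingHom_eval, eval_eq_sum_range' (Nat.lt_succ_of_le natDegree_map_le)]
        simp
      simp only [this]
      fun_prop))
  set z := g.eval (Real.exp c : ℂ)
  set I := ∫ x, M x ∂μ
  have h2 : ∀ e : ℝ, 0 < e → ‖1 + e * z‖ ≤ Real.exp (e * I + e ^ 2 * L ^ 2) := by
    intro e he
    have h3 : ∀ m : ℕ, ‖1 + e * z‖ ^ m ≤
        (m * g.natDegree + 1) * Real.exp (e * I + e ^ 2 * L ^ 2) ^ m := by
      intro m
      have h4 := star0 hat hG (((tri_C 1).add ((tri_C e).mul h)).pow m)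
        (M := fun x => m * (e * M x + e ^ 2 * L ^ 2))
        (((hM.const_mul e).add (integrable_const _)).const_mul _) (by
          filter_upwards [show ∀ᵐ x ∂μ, x ∈ K from hμ] with x hx u hu
          rw [evalEval_pow, norm_pow, Real.exp_nat_mul]
          refine pow_le_pow_left₀ (norm_nonneg _) ?_ m
          simp only [evalEval_add, evalEval_mul, evalEval_C, eval_C]
          have h5 := hL (x, u) ⟨hx, by simpa using hu⟩
          have h6 := h1 x u hu
          set w := G.evalEval (x : ℂ) u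
          have h7 : ‖w‖ ^ 2 ≤ L ^ 2 := by gcongr
          refine abs_le_of_sq_le_sq' ?_ (Real.exp_pos _).le |>.2
          rw [← Real.exp_nat_mul]
          refine le_trans ?_ (Real.add_one_le_exp _)
          rw [Complex.sq_norm, Complex.normSq_apply] at h7 ⊢
          simp only [Complex.add_re, Complex.one_re, Complex.re_ofReal_mul, Complex.add_im,
            Complex.one_im, Complex.im_ofReal_mul, Nat.cast_ofNat]
          nlinarith [mul_le_mul_of_nonneg_left h7 (sq_nonneg e), mul_le_mul_of_nonneg_left h6 he.le,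
            mul_nonneg (sq_nonneg e) (sq_nonneg L)])
      rw [integral_const_mul, integral_add (hM.const_mul e) (integrable_const _),
        integral_const_mul, Real.exp_nat_mul] at h4
      simp only [integral_const, probReal_univ, one_smul, eval_pow, eval_add, eval_mul, eval_C,
        norm_pow] at h4
      refine h4.trans ?_
      gcongr
      have h5 : (C 1 + C (e : ℂ) * g).natDegree ≤ g.natDegree :=
        natDegree_add_le_of_degree_le (by simp) (natDegree_C_mul_le _ _)
      exact_mod_cast natDegree_pow_le.trans (Nat.mul_le_mul_left m h5)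
    by_contra hc
    set B := Real.exp (e * I + e ^ 2 * L ^ 2)
    have hB : 0 < B := Real.exp_pos _
    have h5 : B / ‖1 + e * z‖ < 1 := (div_lt_one (hB.trans (not_le.1 hc))).2 (not_le.1 hc)
    have h6 := ((tendsto_self_mul_const_pow_of_lt_one (by positivity) h5).mul_const
      (g.natDegree : ℝ)).add (tendsto_pow_atTop_nhds_zero_of_lt_one (by positivity) h5)
    have h7 := ge_of_tendsto' (b := 1) h6 fun m => by
      have := h3 m
      rw [← one_le_div (pow_pos (hB.trans (not_le.1 hc)) m), mul_div_assoc, ← div_pow] at this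
      linarith
    norm_num at h7
  have h3 : HasDerivAt (fun e : ℝ => Real.exp (e * I + e ^ 2 * L ^ 2)) I 0 := by
    have := (((hasDerivAt_id (0 : ℝ)).mul_const I).add
      ((hasDerivAt_pow 2 (0 : ℝ)).mul_const (L ^ 2))).exp
    simpa using this
  refine ge_of_tendsto h3.tendsto_slope_zero_right ?_
  filter_upwards [self_mem_nhdsWithin] with e (he : 0 < e)
  have h4 := (Complex.re_le_norm _).trans (h2 e he)
  simp only [Complex.add_re, Complex.one_re, Complex.re_ofReal_mul] at h4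
  simp only [zero_add, zero_mul, ne_eq, OfNat.ofNat_ne_zero, not_false_eq_true, zero_pow,
    add_zero, Real.exp_zero, smul_eq_mul]
  rw [le_inv_mul_iff₀ he]
  linarith

theorem cos_integral {p : ℝ} (hp : 1 ≤ p) : ∫ s in (-Real.pi)..Real.pi, |Real.cos s| ^ p =
    2 * Real.sqrt Real.pi * Real.Gamma ((p + 1) / 2) / Real.Gamma (p / 2 + 1) := by
  have h := integral_comp_polarCoord_symm fun z : ℝ × ℝ =>
    (|z.1| ^ p * Real.exp (-|z.1| ^ (2 : ℝ))) * Real.exp (-1 * z.2 ^ 2)
  rw [Measure.volume_eq_prod, integral_prod_mul (fun x : ℝ => |x| ^ p * Real.exp (-|x| ^ (2 : ℝ)))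
    fun y : ℝ => Real.exp (-1 * y ^ 2), integral_gaussian,
    integral_comp_abs (f := fun x => x ^ p * Real.exp (-x ^ (2 : ℝ))),
    integral_rpow_mul_exp_neg_rpow two_pos (by linarith), polarCoord_target,
    setIntegral_congr_fun (g := fun z : ℝ × ℝ =>
      (z.1 ^ (p + 1) * Real.exp (-z.1 ^ (2 : ℝ))) * |Real.cos z.2| ^ p)
      (measurableSet_Ioi.prod measurableSet_Ioo) ?_,
    setIntegral_prod_mul (fun x : ℝ => x ^ (p + 1) * Real.exp (-x ^ (2 : ℝ)))
      fun y : ℝ => |Real.cos y| ^ p, integral_rpow_mul_exp_neg_rpow two_pos (by linarith),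
    show (p + 1 + 1) / 2 = p / 2 + 1 by ring] at h
  · rw [intervalIntegral.integral_of_le (by linarith [Real.pi_pos]), integral_Ioc_eq_integral_Ioo,
      eq_div_iff (Real.Gamma_pos_of_pos (by linarith)).ne']
    rw [div_one] at h
    linarith
  · rintro ⟨r, t⟩ ⟨hr, -⟩
    have hr0 : 0 < r := hr
    simp only [polarCoord_symm_apply, smul_eq_mul, Real.rpow_two, sq_abs]
    rw [abs_mul, abs_of_pos hr0, Real.mul_rpow hr0.le (abs_nonneg _), Real.rpow_add_one hr0.ne',
      mul_assoc, ← Real.exp_add, show -(r * Real.cos t) ^ 2 + -1 * (r * Real.sin t) ^ 2 = -r ^ 2 by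
        linear_combination (-r ^ 2) * Real.cos_sq_add_sin_sq t]
    ring

def hat (f : ℝ → ℝ) (k : ℕ) : ℂ := ∫ s in (-Real.pi)..Real.pi, f s * Complex.exp (-(k * s * Complex.I))

theorem exists_kernel {r : ℝ} (h0 : 0 < r) (h1 : r < 1) : ∃ N : ℕ, ∀ w : ℂ, ‖w‖ = 1 →
    0 ≤ (∑ k ∈ Finset.range (N + 2), (if k = 0 then 1 else 2 * r ^ k : ℝ) * w ^ k).re := by
  obtain ⟨N, hN⟩ := exists_pow_lt_of_lt_one (show 0 < (1 - r) / 4 by linarith) h1
  refine ⟨N, fun w hw => ?_⟩
  set z := (r : ℂ) * w with hz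
  have hzn : ‖z‖ = r := by simp [hz, hw, abs_of_pos h0]
  have h2 : (∑ k ∈ Finset.range (N + 2), (if k = 0 then 1 else 2 * r ^ k : ℝ) * w ^ k) * (1 - z) =
      1 + z - 2 * z ^ (N + 2) := by
    have := mul_neg_geom_sum z (N + 1)
    rw [Finset.sum_range_succ']
    simp only [Nat.succ_ne_zero, if_false, if_true]
    rw [show ∑ k ∈ Finset.range (N + 1), ((2 * r ^ (k + 1) : ℝ) : ℂ) * w ^ (k + 1) =
      2 * z * ∑ k ∈ Finset.range (N + 1), z ^ k by
        rw [Finset.mul_sum]
        refine Finset.sum_congr rfl fun k _ => ?_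
        push_cast
        rw [hz]
        ring]
    push_cast
    linear_combination 2 * z * this
  have hz1 : 1 - z ≠ 0 := fun h => by
    rw [← sub_eq_zero.1 h, norm_one] at hzn
    linarith
  rw [eq_div_of_mul_eq hz1 h2, div_eq_mul_inv, Complex.inv_def, ← mul_assoc, Complex.re_mul_ofReal]
  refine mul_nonneg ?_ (inv_nonneg.2 (Complex.normSq_nonneg _))
  have h3 : ((1 + z) * (starRingEnd ℂ) (1 - z)).re = 1 - r ^ 2 := by
    rw [← hzn, Complex.sq_norm, Complex.normSq_apply]
    simp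
    ring
  have h4 : ‖2 * z ^ (N + 2) * (starRingEnd ℂ) (1 - z)‖ ≤ 2 * r ^ (N + 2) * 2 := by
    rw [norm_mul, norm_mul, norm_pow, hzn, Complex.norm_conj, Complex.norm_two]
    gcongr
    refine (norm_sub_le _ _).trans ?_
    rw [norm_one, hzn]
    linarith
  have h5 := (Complex.re_le_norm _).trans h4
  have h6 : r ^ (N + 2) ≤ r ^ N := pow_le_pow_of_le_one h0.le h1.le (by omega)
  rw [sub_mul, Complex.sub_re, h3]
  nlinarith

end Pool.Agent.H99.Wp
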