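import Pool.Agent.H99.Wp2

/-! The sharp lower bound for `L^p` norms of monic polynomials. -/

open Filter Topology Set MeasureTheory Polynomial

noncomputable section

namespace Pool.Agent.H99.Wp

theorem ii {f : ℝ → ℝ} (hf : Measurable f) {C : ℝ} (h : ∀ s, |f s| ≤ C) {g : ℝ → ℂ}
    (hg : Continuous g) (a b : ℝ) : IntervalIntegrable (fun s => f s * g s) volume a b := by
  refine IntervalIntegrable.mul_continuousOn ?_ hg.continuousOn
  exact (intervalIntegrable_const (c := C)).mono_fun' (by fun_prop)
    (Eventually.of_forall fun s => by simpa using h s)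

theorem hat_pos {f : ℝ → ℝ} (hf : Measurable f) {C : ℝ} (h : ∀ s, |f s| ≤ C) (h0 : ∀ s, 0 ≤ f s)
    {N : ℕ} {q : ℕ → ℝ} (hq : ∀ w : ℂ, ‖w‖ = 1 → 0 ≤ (∑ k ∈ Finset.range N, q k * w ^ k).re)
    {w : ℂ} (hw : ‖w‖ = 1) : 0 ≤ (∑ k ∈ Finset.range N, q k * hat f k * w ^ k).re := by
  have h1 : ∑ k ∈ Finset.range N, q k * hat f k * w ^ k = ∫ s in (-Real.pi)..Real.pi,
      f s * ∑ k ∈ Finset.range N, q k * (w * Complex.exp (-(s * Complex.I))) ^ k := by
    simp only [Finset.mul_sum]
    rw [intervalIntegral.integral_finsetSum fun k _ => ii hf h (by fun_prop) _ _]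
    refine Finset.sum_congr rfl fun k _ => ?_
    rw [hat, ← intervalIntegral.integral_const_mul, ← intervalIntegral.integral_mul_const]
    refine intervalIntegral.integral_congr fun s _ => ?_
    simp only [mul_pow, ← Complex.exp_nat_mul]
    ring_nf
  rw [h1, ← Complex.reCLM_apply,
    ← Complex.reCLM.intervalIntegral_comp_comm (ii hf h (by fun_prop) _ _)]
  refine intervalIntegral.integral_nonneg (by linarith [Real.pi_pos]) fun s _ => ?_
  rw [Complex.reCLM_apply, Complex.re_ofReal_mul]
  refine mul_nonneg (h0 s) (hq _ ?_)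
  rw [norm_mul, hw, one_mul, ← neg_mul, ← Complex.ofReal_neg, Complex.norm_exp_ofReal_mul_I]

theorem hat_one (k : ℕ) : hat (fun _ => 1) k = if k = 0 then 2 * (Real.pi : ℂ) else 0 := by
  split_ifs with hk
  · simp [hat, hk, two_mul]
  · have h1 : -((k : ℂ) * Complex.I) ≠ 0 := by simp [hk]
    have h2 := integral_exp_mul_complex (a := -Real.pi) (b := Real.pi) h1
    have h3 := Complex.exp_nat_mul_two_pi_mul_I k
    rw [hat]
    simp only [Complex.ofReal_one, one_mul]
    rw [intervalIntegral.integral_congr (g := fun x : ℝ => Complex.exp (-(k * Complex.I) * x))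
      fun s _ => by ring_nf, h2, div_eq_zero_iff, sub_eq_zero]
    left
    rw [← mul_one (Complex.exp _), ← h3, ← Complex.exp_add]
    push_cast
    ring_nf

def ps (p s : ℝ) : ℝ := |Real.cos s| ^ p

def ph (p s : ℝ) : ℝ := |Real.cos s| ^ p / Real.cos s

theorem abs_ph {p : ℝ} (hp : 1 ≤ p) (s : ℝ) : |ph p s| ≤ |Real.cos s| ^ (p - 1) := by
  by_cases h : Real.cos s = 0
  · rw [ph, h, div_zero, abs_zero]
    positivity
  · rw [ph, abs_div, abs_of_nonneg (by positivity), Real.rpow_sub_one (abs_ne_zero.2 h)]

theorem ph_le {p : ℝ} (hp : 1 ≤ p) (s : ℝ) : |ph p s| ≤ 1 :=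
  (abs_ph hp s).trans (Real.rpow_le_one (abs_nonneg _) (Real.abs_cos_le_one s) (by linarith))

theorem ps_le {p : ℝ} (hp : 1 ≤ p) (s : ℝ) : |ps p s| ≤ 1 := by
  rw [ps, abs_of_nonneg (by positivity)]
  exact Real.rpow_le_one (abs_nonneg _) (Real.abs_cos_le_one s) (by linarith)

theorem measurable_ph (p : ℝ) : Measurable (ph p) := by unfold ph; fun_prop

theorem measurable_ps (p : ℝ) : Measurable (ps p) := by unfold ps; fun_prop

theorem young {p a b : ℝ} (hp : 1 ≤ p) (ha : 0 ≤ a) (hb : 0 ≤ b) :
    p * a ^ (p - 1) * b - (p - 1) * a ^ p ≤ b ^ p := by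
  rcases ha.eq_or_lt with h | h
  · subst h
    rcases hp.eq_or_lt with h | h
    · simp [← h]
    · rw [Real.zero_rpow (by linarith), Real.zero_rpow (by linarith)]
      simpa using Real.rpow_nonneg hb p
  have h1 := one_add_mul_self_le_rpow_one_add (s := b / a - 1)
    (by linarith [div_nonneg hb ha]) hp
  rw [add_sub_cancel, Real.div_rpow hb ha, le_div_iff₀ (by positivity)] at h1
  rw [Real.rpow_sub_one h.ne']
  refine le_of_eq_of_le ?_ h1
  ring

theorem hat_ph_zero {p : ℝ} (hp : 1 ≤ p) : hat (ph p) 0 = 0 := by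
  have h1 := fun a b => ii (measurable_ph p) (ph_le hp) (g := fun _ => 1) continuous_const a b
  simp only [mul_one] at h1
  simp only [hat, Nat.cast_zero, zero_mul, neg_zero, Complex.exp_zero, mul_one]
  rw [← intervalIntegral.integral_add_adjacent_intervals (h1 _ 0) (h1 0 _)]
  have h2 := intervalIntegral.integral_comp_add_right (a := -Real.pi) (b := 0)
    (fun s => (ph p s : ℂ)) Real.pi
  simp only [neg_add_cancel, zero_add] at h2
  rw [← h2]
  simp [ph, div_neg]

theorem hat_ph_one {p : ℝ} (hp : 1 ≤ p) :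
    (hat (ph p) 1).re = ∫ s in (-Real.pi)..Real.pi, |Real.cos s| ^ p := by
  rw [hat, ← Complex.reCLM_apply, ← Complex.reCLM.intervalIntegral_comp_comm
    (ii (measurable_ph p) (ph_le hp) (by fun_prop) _ _)]
  refine intervalIntegral.integral_congr fun s _ => ?_
  simp only [Complex.reCLM_apply, Complex.re_ofReal_mul, Nat.cast_one, one_mul]
  rw [← neg_mul, ← Complex.ofReal_neg, Complex.exp_ofReal_mul_I_re, Real.cos_neg, ph]
  by_cases h : Real.cos s = 0
  · rw [h, mul_zero, abs_zero, Real.zero_rpow (by linarith)]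
  · field_simp

theorem hat_ps_zero (p : ℝ) :
    hat (ps p) 0 = (∫ s in (-Real.pi)..Real.pi, |Real.cos s| ^ p : ℝ) := by
  simp [hat, ps, ← intervalIntegral.integral_ofReal]

theorem main {μ : Measure ℝ} [IsProbabilityMeasure μ] {c : ℝ} (hat0 : ∀ a : ℝ, μ {a} = 0)
    (hG : ∀ a, Gd μ c a) {K : Set ℝ} (hK : IsCompact K) (hμ : μ Kᶜ = 0) {p : ℝ} (hp : 1 ≤ p)
    {n : ℕ} (hn : 1 ≤ n) {P : ℝ[X]} (hP : P.Monic) (hd : P.natDegree = n) :
    (∫ s in (-Real.pi)..Real.pi, |Real.cos s| ^ p) * (2 * Real.exp c ^ n) ^ p ≤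
      2 * Real.pi * ∫ x, |P.eval x| ^ p ∂μ := by
  set J := ∫ s in (-Real.pi)..Real.pi, |Real.cos s| ^ p
  set l := 2 * Real.exp c ^ n with hl
  have hl0 : 0 < l := by positivity
  set A := p * l ^ (p - 1) with hA
  set B := (p - 1) * l ^ p with hB
  have hI : Integrable (fun x => |P.eval x| ^ p) μ := by
    have h1 : Continuous fun x => |P.eval x| ^ p :=
      P.continuous.abs.rpow_const fun _ => Or.inr (by linarith)
    have := h1.continuousOn.integrableOn_compact (μ := μ) hK
    rwa [IntegrableOn, Measure.restrict_eq_self_of_ae_mem hμ] at this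
  set Q := P.map (algebraMap ℝ ℂ) with hQ
  have hQd : Q.natDegree = n := by rw [hQ, hP.natDegree_map, hd]
  have hQ1 : Q.coeff n = 1 := hQd ▸ (hP.map _).coeff_natDegree
  have key : ∀ r : ℝ, 0 < r → r < 1 →
      J * l ^ p * (r * p - p + 1) ≤ 2 * Real.pi * ∫ x, |P.eval x| ^ p ∂μ := by
    intro r h0 h1
    obtain ⟨N, hN⟩ := exists_kernel h0 h1
    set q : ℕ → ℝ := fun k => if k = 0 then 1 else 2 * r ^ k with hq
    have h2 := star hat0 hG hK hμ (tri_sum (s := Finset.range (N + 2)) fun k _ => tri_mono
      (p := C (q k * A * hat (ph p) k) * Q - C (q k * B * hat (ps p) k)) (m := n * k) (by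
        rcases k with _ | k
        · rw [hat_ph_zero hp, mul_zero, map_zero, zero_mul, zero_sub, natDegree_neg, natDegree_C]
          exact Nat.zero_le _
        · refine natDegree_sub_le_of_le (m := n * (k + 1)) (n := n * (k + 1))
            ((natDegree_C_mul_le _ _).trans (hQd.trans_le (Nat.le_mul_of_pos_right n k.succ_pos)))
            ((natDegree_C _).trans_le (Nat.zero_le _)) |>.trans (by simp)))
      (hI.const_mul (2 * Real.pi)) fun x u hu => by
        set t := P.eval x with ht
        have h3 := hat_pos (f := fun s => |t| ^ p * 1 - (A * t * ph p s - B * ps p s))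
          (by have := measurable_ph p; have := measurable_ps p; fun_prop)
          (C := |(|t| ^ p)| + (|A * t| + |B|)) (fun s => by
            refine (abs_sub _ _).trans (add_le_add (by simp) ((abs_sub _ _).trans ?_))
            rw [abs_mul _ (ph p s), abs_mul B]
            exact add_le_add (mul_le_of_le_one_right (abs_nonneg _) (ph_le hp s))
              (mul_le_of_le_one_right (abs_nonneg _) (ps_le hp s))) (fun s => by
            have h4 := young hp (mul_nonneg hl0.le (abs_nonneg (Real.cos s))) (abs_nonneg t)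
            rw [Real.mul_rpow hl0.le (abs_nonneg _), Real.mul_rpow hl0.le (abs_nonneg _)] at h4
            have h5 : t * ph p s ≤ |t| * |Real.cos s| ^ (p - 1) := (le_abs_self _).trans (by
              rw [abs_mul]
              exact mul_le_mul_of_nonneg_left (abs_ph hp s) (abs_nonneg _))
            have h6 := mul_le_mul_of_nonneg_left h5 (show 0 ≤ A by positivity)
            simp only [hA, hB, ps] at h6 ⊢
            linarith) hN (w := u ^ n) (by simp [hu])
        have h4 : ∀ k, hat (fun s => |t| ^ p * 1 - (A * t * ph p s - B * ps p s)) k =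
            (|t| ^ p : ℝ) * hat (fun _ => 1) k - (A * t * hat (ph p) k - B * hat (ps p) k) := by
          intro k
          have i1 := ii (f := fun _ => 1) measurable_const (C := 1) (by simp)
            (g := fun s => Complex.exp (-(k * s * Complex.I))) (by fun_prop) (-Real.pi) Real.pi
          have i2 := ii (measurable_ph p) (ph_le hp)
            (g := fun s => Complex.exp (-(k * s * Complex.I))) (by fun_prop) (-Real.pi) Real.pi
          have i3 := ii (measurable_ps p) (ps_le hp)
            (g := fun s => Complex.exp (-(k * s * Complex.I))) (by fun_prop) (-Real.pi) Real.pi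
          simp only [hat, ← intervalIntegral.integral_const_mul]
          rw [← intervalIntegral.integral_sub (i2.const_mul _) (i3.const_mul _),
            ← intervalIntegral.integral_sub (i1.const_mul _) ((i2.const_mul _).sub (i3.const_mul _))]
          refine intervalIntegral.integral_congr fun s _ => ?_
          simp only [Complex.ofReal_sub, Complex.ofReal_mul]
          ring
        have h5 : Q.eval (x : ℂ) = t := by
          rw [hQ, ht, ← Complex.coe_algebraMap, eval_map_algebraMap, aeval_algebraMap_apply_eq_algebraMap_eval]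
        have h6 : ∑ k ∈ Finset.range (N + 2), q k * ((|t| ^ p : ℝ) * hat (fun _ => 1) k -
            (A * t * hat (ph p) k - B * hat (ps p) k)) * (u ^ n) ^ k =
            (2 * Real.pi * |t| ^ p : ℝ) - evalEval (x : ℂ) u (∑ k ∈ Finset.range (N + 2),
              monomial (n * k) (C (q k * A * hat (ph p) k) * Q - C (q k * B * hat (ps p) k))) := by
          have h7 : ∑ k ∈ Finset.range (N + 2), q k * ((|t| ^ p : ℝ) * hat (fun _ => 1) k) *
              (u ^ n) ^ k = (2 * Real.pi * |t| ^ p : ℝ) := by
            rw [Finset.sum_eq_single 0 (fun k _ hk => by simp [hat_one, hk]) (by simp)]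
            simp [hat_one, hq, mul_comm]
          rw [← h7, evalEval_finsetSum, ← Finset.sum_sub_distrib]
          refine Finset.sum_congr rfl fun k _ => ?_
          simp only [evalEval, eval_monomial, eval_mul, eval_sub, eval_C, eval_pow, h5, pow_mul]
          ring
        simp only [h4] at h3
        rw [h6, Complex.sub_re, Complex.ofReal_re] at h3
        linarith
    rw [integral_const_mul, eval_finsetSum, Finset.sum_range_succ', Finset.sum_range_succ',
      Finset.sum_eq_zero fun k _ => by
        rw [coeff_sub, coeff_C_mul, coeff_eq_zero_of_natDegree_lt (p := Q) (by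
          rw [hQd]; nlinarith), coeff_C_of_ne_zero (by positivity)]
        simp] at h2
    simp only [zero_add, mul_one, mul_zero, coeff_sub, coeff_C_mul, hQ1, hat_ph_zero hp,
      coeff_C_of_ne_zero (show n ≠ 0 by omega), eval_monomial, coeff_C_zero, hat_ps_zero, hq,
      one_ne_zero, if_false, if_true, zero_mul, pow_zero, sub_zero, zero_sub, pow_one,
      ← Complex.ofReal_pow, ← Complex.ofReal_mul, Complex.add_re, Complex.neg_re,
      Complex.ofReal_re, Complex.re_mul_ofReal, Complex.re_ofReal_mul, hat_ph_one hp] at h2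
    refine le_of_eq_of_le ?_ h2
    rw [hA, hB, Real.rpow_sub_one hl0.ne', show Real.exp c ^ n = l / 2 by rw [hl]; ring]
    field_simp
    ring
  have h1 : Tendsto (fun r : ℝ => J * l ^ p * (r * p - p + 1)) (𝓝[<] 1)
      (𝓝 (J * l ^ p * (1 * p - p + 1))) :=
    (Continuous.tendsto (by fun_prop) 1).mono_left nhdsWithin_le_nhds
  have h2 := le_of_tendsto h1 (by
    filter_upwards [Ioo_mem_nhdsLT one_pos] with r hr using key r hr.1 hr.2)
  simpa using h2

end Pool.Agent.H99.Wp
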